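import Pool.Agent.H.MP_6268b4_co.TWord

/-!
The vertices and the action of the automorphism group on them.
-/

namespace Pool.Agent.H.MP_6268b4_co

/-- The vertices of a bounded poset (its atoms). -/
def Vert (P : Type*) [PartialOrder P] [BoundedOrder P] : Type _ := {x : P // IsAtom x}

section

variable {P : Type*} [PartialOrder P] [BoundedOrder P] {rk : P → ℤ}

instance : MulAction (P ≃o P) (Vert P) where
  smul γ x := ⟨γ x.1, (OrderIso.isAtom_iff γ x.1).2 x.2⟩
  one_smul _ := rfl
  mul_smul _ _ _ := rfl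

lemma Vert.ext {x y : Vert P} (h : x.1 = y.1) : x = y := Subtype.ext h

lemma smul_vert_val (γ : P ≃o P) (x : Vert P) : (γ • x).1 = γ x.1 := rfl

instance [Finite P] : Finite (Vert P) := inferInstanceAs (Finite {x : P // IsAtom x})

instance [Finite P] : Finite (P ≃o P) :=
  Finite.of_injective (fun γ : P ≃o P => (γ : P → P)) (fun _ _ h => DFunLike.coe_injective h)

lemma isAtom_iff (h : IsPolytope 4 P rk) (x : P) : IsAtom x ↔ rk x = 0 := by
  constructor
  · intro hx
    have h1 := h.rk_ge x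
    by_contra h0
    have h2 : rk x ≠ -1 := fun h2 => hx.1 (h.eq_bot h2)
    obtain ⟨y, hy1, hy2⟩ := h.exists_lt (x := x) (by omega)
    have := hx.2 y hy1
    rw [this, h.bot] at hy2
    omega
  · intro hx
    refine ⟨?_, ?_⟩
    · rintro rfl
      rw [h.bot] at hx
      omega
    · intro y hy
      have h1 := h.mono _ _ hy
      have h2 := h.rk_ge y
      exact h.eq_bot (by omega)

/-- the base vertex of a tuple -/
def vert0 (h : IsPolytope 4 P rk) (Φ : Tup P rk) : Vert P :=
  ⟨Φ.1 0, (isAtom_iff h _).2 (by simpa using Φ.hrk 0)⟩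

/-- the other vertex of the base edge of a tuple -/
noncomputable def vert1 (h : IsPolytope 4 P rk) (Φ : Tup P rk) : Vert P := vert0 h (adj h 0 Φ)

lemma vert0_val (h : IsPolytope 4 P rk) (Φ : Tup P rk) : (vert0 h Φ).1 = Φ.1 0 := rfl

lemma vert1_val (h : IsPolytope 4 P rk) (Φ : Tup P rk) : (vert1 h Φ).1 = (adj h 0 Φ).1 0 := rfl

lemma vert_rk (h : IsPolytope 4 P rk) (x : Vert P) : rk x.1 = 0 := (isAtom_iff h _).1 x.2

lemma smul_vert0 (h : IsPolytope 4 P rk) (Φ : Tup P rk) (γ : P ≃o P) :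
    γ • vert0 h Φ = vert0 h (tmap h h γ Φ) := rfl

lemma smul_vert1 (h : IsPolytope 4 P rk) (Φ : Tup P rk) (γ : P ≃o P) :
    γ • vert1 h Φ = vert1 h (tmap h h γ Φ) := by
  unfold vert1
  rw [smul_vert0, tmap_adj]

lemma vert0_ne (h : IsPolytope 4 P rk) (Φ : Tup P rk) : vert0 h Φ ≠ vert1 h Φ := by
  intro he
  exact adj_ne h 0 Φ (congrArg Subtype.val he).symm

end

end Pool.Agent.H.MP_6268b4_co
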