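import Pool.Agent.H.MP_6268b4_co.GDefs
import Pool.Agent.H.MP_6268b4_co.TVDefs

/-!
Vertices, edges and facets of polytopes of rank 4 with simple complete edge graph.
-/

namespace Pool.Agent.H.MP_6268b4_co

variable {P : Type*} [PartialOrder P] [BoundedOrder P] {rk : P → ℤ}

/-- The vertices of the base edge are `Φ.1 0` and `(adj h 0 Φ).1 0`. Proof: if `x ≠ Φ.1 0` is a
vertex below `Φ.1 1`, replace `Φ.1 0` by `x` (`exists_upd`) and use `adj_unique`. -/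
theorem edge_verts (h : IsPolytope 4 P rk) (Φ : Tup P rk) {x : P} (hx : rk x = 0)
    (hxe : x ≤ Φ.1 1) : x = Φ.1 0 ∨ x = (adj h 0 Φ).1 0 := by
  by_cases h0 : x = Φ.1 0
  · exact Or.inl h0
  · right
    obtain ⟨Ψ, hΨ1, hΨ2⟩ := exists_upd Φ 0 x (by simpa using hx) (fun k hk => by simp at hk)
      (fun k hk => by
        have : k = 1 := Fin.ext (by simpa using hk.symm)
        rw [this]
        exact hxe)
    have h3 := adj_unique h 0 Φ Ψ (by rw [hΨ1]; exact h0) hΨ2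
    rw [← h3, hΨ1]

/-- `γ` fixes both vertices of the base edge iff it fixes its first vertex and the edge. Proof:
`→`: `γ (Φ.1 1)` is an edge through both vertices, by uniqueness it is `Φ.1 1`. `←`:
`γ` maps the vertices of `Φ.1 1` to vertices of it; injectivity and `edge_verts`. -/
theorem fix_edge_iff (h : IsPolytope 4 P rk) (hs : SimpleComplete rk) (Φ : Tup P rk)
    (γ : P ≃o P) :
    (γ • vert0 h Φ = vert0 h Φ ∧ γ • vert1 h Φ = vert1 h Φ) ↔
      (γ (Φ.1 0) = Φ.1 0 ∧ γ (Φ.1 1) = Φ.1 1) := by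
  have hne : Φ.1 0 ≠ (adj h 0 Φ).1 0 := (adj_ne h 0 Φ).symm
  have hr0 : rk (Φ.1 0) = 0 := by simpa using Φ.hrk 0
  have hr1 : rk (Φ.1 1) = 1 := by simpa using Φ.hrk 1
  have hrw : rk ((adj h 0 Φ).1 0) = 0 := by simpa using (adj h 0 Φ).hrk 0
  have hv : Φ.1 0 ≤ Φ.1 1 := Φ.le (by decide)
  have hw : (adj h 0 Φ).1 0 ≤ Φ.1 1 := by
    rw [← adj_same h (i := 0) (j := 1) Φ (by decide)]
    exact (adj h 0 Φ).le (by decide)
  constructor
  · rintro ⟨h1, h2⟩
    have h1' : γ (Φ.1 0) = Φ.1 0 := congrArg Subtype.val h1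
    have h2' : γ ((adj h 0 Φ).1 0) = (adj h 0 Φ).1 0 := congrArg Subtype.val h2
    refine ⟨h1', ?_⟩
    refine (hs _ _ hr0 hrw hne).unique ⟨?_, ?_, ?_⟩ ⟨hr1, hv, hw⟩
    · rw [h.rk_map h γ]
      exact hr1
    · have := γ.monotone hv
      rwa [h1'] at this
    · have := γ.monotone hw
      rwa [h2'] at this
  · rintro ⟨h1, h2⟩
    refine ⟨Vert.ext h1, Vert.ext ?_⟩
    show γ ((adj h 0 Φ).1 0) = (adj h 0 Φ).1 0
    have h3 : γ ((adj h 0 Φ).1 0) ≤ Φ.1 1 := by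
      have := γ.monotone hw
      rwa [h2] at this
    have h4 : rk (γ ((adj h 0 Φ).1 0)) = 0 := by
      rw [h.rk_map h γ]
      exact hrw
    rcases edge_verts h Φ h4 h3 with h5 | h5
    · exfalso
      rw [← h1] at h5
      exact hne (γ.injective h5).symm
    · exact h5

/-- There are at least three vertices. Proof: let `e = Φ.1 1` with vertices `v = Φ.1 0`,
`w = (adj h 0 Φ).1 0`, and `Ψ = adj h 1 (adj h 0 Φ)`: its edge `e' = Ψ.1 1 ≠ e` contains `w`. Let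
`u = (adj h 0 Ψ).1 0 ≠ w`, a vertex of `e'`. If `u = v` then `e` and `e'` both contain `v` and `w`,
contradicting uniqueness. So `v, w, u` are distinct (`Finite`: use
`Finite.card_le_of_injective` from `Fin 3` or `Finset.card_le_...`). -/
theorem three_le (h : IsPolytope 4 P rk) [Finite P] (hs : SimpleComplete rk) (Φ : Tup P rk) :
    3 ≤ Nat.card (Vert P) := by
  have hr0 : rk (Φ.1 0) = 0 := by simpa using Φ.hrk 0
  have hr1 : rk (Φ.1 1) = 1 := by simpa using Φ.hrk 1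
  have hrw : rk ((adj h 0 Φ).1 0) = 0 := by simpa using (adj h 0 Φ).hrk 0
  have hv : Φ.1 0 ≤ Φ.1 1 := Φ.le (by decide)
  have hw : (adj h 0 Φ).1 0 ≤ Φ.1 1 := by
    rw [← adj_same h (i := 0) (j := 1) Φ (by decide)]
    exact (adj h 0 Φ).le (by decide)
  set Ψ := adj h 1 (adj h 0 Φ) with hΨ
  have hΨ0 : Ψ.1 0 = (adj h 0 Φ).1 0 := adj_same h (i := 1) (j := 0) (adj h 0 Φ) (by decide)
  have hΨ1 : Ψ.1 1 ≠ Φ.1 1 := by
    have h1 := adj_ne h 1 (adj h 0 Φ)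
    rwa [adj_same h (i := 0) (j := 1) Φ (by decide)] at h1
  have hrΨ : rk (Ψ.1 1) = 1 := by simpa using Ψ.hrk 1
  have hu : (adj h 0 Ψ).1 0 ≤ Ψ.1 1 := by
    rw [← adj_same h (i := 0) (j := 1) Ψ (by decide)]
    exact (adj h 0 Ψ).le (by decide)
  have huw : (adj h 0 Ψ).1 0 ≠ (adj h 0 Φ).1 0 := by
    rw [← hΨ0]
    exact adj_ne h 0 Ψ
  have hvw : Φ.1 0 ≠ (adj h 0 Φ).1 0 := (adj_ne h 0 Φ).symm
  have huv : (adj h 0 Ψ).1 0 ≠ Φ.1 0 := by
    intro he
    apply hΨ1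
    refine (hs _ _ hr0 hrw hvw).unique ⟨hrΨ, ?_, ?_⟩ ⟨hr1, hv, hw⟩
    · rw [← he]
      exact hu
    · rw [← hΨ0]
      exact Ψ.le (by decide)
  have n1 : vert0 h Φ ≠ vert1 h Φ := vert0_ne h Φ
  have n2 : vert0 h Φ ≠ vert1 h Ψ := fun he => huv (congrArg Subtype.val he).symm
  have n3 : vert1 h Φ ≠ vert1 h Ψ := fun he => huw (congrArg Subtype.val he).symm
  have hinj : Function.Injective ![vert0 h Φ, vert1 h Φ, vert1 h Ψ] := by
    intro a b hab
    fin_cases a <;> fin_cases b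
    · rfl
    · exact absurd hab n1
    · exact absurd hab n2
    · exact absurd hab.symm n1
    · rfl
    · exact absurd hab n3
    · exact absurd hab.symm n2
    · exact absurd hab.symm n3
    · rfl
  have := Nat.card_le_card_of_injective _ hinj
  rwa [Nat.card_fin] at this

/-- 2-transitivity on the vertices, for regular and for chiral polytopes.

Proof. Let `x ≠ y`, `x' ≠ y'` be vertices. By `exists_edge_tup` there are tuples `Φ`, `Φ'` with
`vert0 Φ = x`, `vert1 Φ = y`, `vert0 Φ' = x'`, `vert1 Φ' = y'`. The tuple `adj h 3 Φ` has the same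
`vert0` and the same `vert1` (`adj_same`, `adj_comm`). By `hT` one of `Φ`, `adj h 3 Φ` is mapped to
`Φ'` by an automorphism. -/
theorem two_trans (h : IsPolytope 4 P rk) (hs : SimpleComplete rk)
    (hT : ∀ Φ Ψ : Tup P rk, (∃ γ : P ≃o P, tmap h h γ Φ = Ψ) ∨
      ∃ γ : P ≃o P, tmap h h γ (adj h 3 Φ) = Ψ) : TwoTrans (P ≃o P) (Vert P) := by
  intro x y x' y' hxy hxy'
  obtain ⟨Φ, hΦ0, hΦ1⟩ := exists_edge_tup h hs (vert_rk h x) (vert_rk h y)
    (fun he => hxy (Vert.ext he))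
  obtain ⟨Φ', hΦ0', hΦ1'⟩ := exists_edge_tup h hs (vert_rk h x') (vert_rk h y')
    (fun he => hxy' (Vert.ext he))
  have e1 : vert0 h Φ = x := Vert.ext hΦ0
  have e2 : vert1 h Φ = y := Vert.ext hΦ1
  have e3 : vert0 h Φ' = x' := Vert.ext hΦ0'
  have e4 : vert1 h Φ' = y' := Vert.ext hΦ1'
  have e5 : vert0 h (adj h 3 Φ) = x := by
    rw [← e1]
    exact Vert.ext (adj_same h (i := 3) (j := 0) Φ (by decide))
  have e6 : vert1 h (adj h 3 Φ) = y := by
    rw [← e2]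
    unfold vert1
    rw [adj_comm h (i := 0) (j := 3) (by decide) Φ]
    exact Vert.ext (adj_same h (i := 3) (j := 0) _ (by decide))
  rcases hT Φ Φ' with ⟨γ, hγ⟩ | ⟨γ, hγ⟩
  · refine ⟨γ, ?_, ?_⟩
    · rw [← e1, smul_vert0, hγ, e3]
    · rw [← e2, smul_vert1, hγ, e4]
  · refine ⟨γ, ?_, ?_⟩
    · rw [← e5, smul_vert0, hγ, e3]
    · rw [← e6, smul_vert1, hγ, e4]

/-- The number of facets above the base edge.

Proof. Let `e = Φ.1 1`, `G₀ = Φ.1 3`. The map `zpowers σ → {G | e ≤ G ∧ rk G = 3}`,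
`z ↦ z G₀` is well defined (`σ` fixes `e` by `hσe`) and injective: if `z G₀ = z' G₀`, the element
`z⁻¹ z'` fixes `Φ.1 0`, `Φ.1 1`, `Φ.1 3` so it is `1` by `hinj`. It is surjective by `hsurj`.
Therefore `Nat.card (zpowers σ) = ncard`, and `Nat.card_zpowers`. -/
theorem facets_card (h : IsPolytope 4 P rk) [Finite P] (Φ : Tup P rk) (σ : P ≃o P)
    (hσv : σ (Φ.1 0) = Φ.1 0) (hσe : σ (Φ.1 1) = Φ.1 1)
    (hinj : ∀ z ∈ Subgroup.zpowers σ, z (Φ.1 3) = Φ.1 3 → z = 1)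
    (hsurj : ∀ G : P, Φ.1 1 ≤ G → rk G = 3 → ∃ z ∈ Subgroup.zpowers σ, z (Φ.1 3) = G) :
    {G : P | Φ.1 1 ≤ G ∧ rk G = 3}.ncard = orderOf σ := by
  have hfix : ∀ (x : P), σ x = x → ∀ z ∈ Subgroup.zpowers σ, z x = x := by
    intro x hx z hz
    obtain ⟨i, rfl⟩ := Subgroup.mem_zpowers_iff.mp hz
    have h1 : σ ∈ MulAction.stabilizer (P ≃o P) x := hx
    exact (MulAction.stabilizer (P ≃o P) x).zpow_mem h1 i
  have hr3 : rk (Φ.1 3) = 3 := by simpa using Φ.hrk 3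
  let f : Subgroup.zpowers σ → {G : P | Φ.1 1 ≤ G ∧ rk G = 3} := fun z =>
    ⟨z.1 (Φ.1 3), by
      refine ⟨?_, ?_⟩
      · have h1 := z.1.monotone (Φ.le (i := 1) (j := 3) (by decide))
        rwa [hfix _ hσe z.1 z.2] at h1
      · rw [h.rk_map h]
        exact hr3⟩
  have hf : Function.Bijective f := by
    constructor
    · rintro ⟨z, hz⟩ ⟨z', hz'⟩ he
      have h1 : z (Φ.1 3) = z' (Φ.1 3) := congrArg Subtype.val he
      have h2 : (z'⁻¹ * z) (Φ.1 3) = Φ.1 3 := by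
        show z'⁻¹ (z (Φ.1 3)) = Φ.1 3
        rw [h1]
        exact z'.symm_apply_apply _
      have h3 := hinj _ ((Subgroup.zpowers σ).mul_mem ((Subgroup.zpowers σ).inv_mem hz') hz) h2
      exact Subtype.ext (inv_mul_eq_one.mp h3).symm
    · rintro ⟨G, hG1, hG2⟩
      obtain ⟨z, hz, hz2⟩ := hsurj G hG1 hG2
      exact ⟨⟨z, hz⟩, Subtype.ext hz2⟩
  rw [← Nat.card_coe_set_eq, ← Nat.card_eq_of_bijective f hf, Nat.card_zpowers]

end Pool.Agent.H.MP_6268b4_co
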