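import Pool.Agent.H.MP_6268b4_co.TChi
import Pool.Agent.H.MP_6268b4_co.TVert

/-!
Chiral polytopes of rank 4 give the group-theoretic data.
-/

namespace Pool.Agent.H.MP_6268b4_co

variable {P : Type*} [PartialOrder P] [BoundedOrder P] {rk : P → ℤ}

private lemma bridgec_one (h : IsPolytope 4 P rk) {Φ : Tup P rk} {s : Fin 4 → Fin 4 → (P ≃o P)}
    (hs : ∀ i j, tmap h h (s i j) Φ = adj h j (adj h i Φ)) (i : Fin 4) : s i i = 1 :=
  eq_one_of_tmap h (by rw [hs, adj_adj])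

private lemma bridgec_mul (h : IsPolytope 4 P rk) {Φ : Tup P rk} {s : Fin 4 → Fin 4 → (P ≃o P)}
    (hs : ∀ i j, tmap h h (s i j) Φ = adj h j (adj h i Φ)) (i j k : Fin 4) :
    s i j * s j k = s i k := by
  apply eq_of_tmap h (Φ := Φ)
  rw [tmap_mul, hs j k, tmap_adj, tmap_adj, hs i j, adj_adj, hs i k]

private lemma bridgec_inv (h : IsPolytope 4 P rk) {Φ : Tup P rk} {s : Fin 4 → Fin 4 → (P ≃o P)}
    (hs : ∀ i j, tmap h h (s i j) Φ = adj h j (adj h i Φ)) (i j : Fin 4) :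
    (s i j)⁻¹ = s j i := by
  apply inv_eq_of_mul_eq_one_right
  rw [bridgec_mul h hs, bridgec_one h hs]

private lemma bridgec_comm (h : IsPolytope 4 P rk) {Φ : Tup P rk} {s : Fin 4 → Fin 4 → (P ≃o P)}
    (hs : ∀ i j, tmap h h (s i j) Φ = adj h j (adj h i Φ)) {i j : Fin 4}
    (hij : (i : ℕ) + 2 ≤ j) : s i j = s j i := by
  apply eq_of_tmap h (Φ := Φ)
  rw [hs, hs, adj_comm h hij]

private lemma bridgec_fix (h : IsPolytope 4 P rk) {Φ : Tup P rk} {s : Fin 4 → Fin 4 → (P ≃o P)}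
    (hs : ∀ i j, tmap h h (s i j) Φ = adj h j (adj h i Φ)) {i j l : Fin 4} (h1 : l ≠ i)
    (h2 : l ≠ j) : s i j (Φ.1 l) = Φ.1 l := by
  rw [← tmap_apply h h, hs, adj_same h _ h2, adj_same h _ h1]

omit [BoundedOrder P] in
private lemma bridgec_zfix {σ z : P ≃o P} {x : P} (hσ : σ x = x)
    (hz : z ∈ Subgroup.zpowers σ) : z x = x := by
  rw [Subgroup.zpowers_eq_closure] at hz
  induction hz using Subgroup.closure_induction with
  | mem y hy =>
    rw [Set.mem_singleton_iff] at hy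
    rw [hy, hσ]
  | one => rfl
  | mul a b _ _ ha hb =>
    change a (b x) = x
    rw [hb, ha]
  | inv a _ ha =>
    have h1 : a⁻¹ (a x) = x := a.symm_apply_apply x
    rwa [ha] at h1

private lemma bridgec_cl (h : IsPolytope 4 P rk) {Φ : Tup P rk} {s : Fin 4 → Fin 4 → (P ≃o P)}
    (hs : ∀ i j, tmap h h (s i j) Φ = adj h j (adj h i Φ)) (J : Fin 4 → Prop) (a b : Fin 4)
    (hJ : ∀ i, ¬ J i → i = a ∨ i = b) :
    Subgroup.closure {x | ∃ i j, ¬ J i ∧ ¬ J j ∧ x = s i j} ≤ Subgroup.zpowers (s a b) := by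
  rw [Subgroup.closure_le]
  rintro x ⟨i, j, hi, hj, rfl⟩
  rcases hJ i hi with rfl | rfl <;> rcases hJ j hj with rfl | rfl
  · rw [bridgec_one h hs]
    exact one_mem _
  · exact Subgroup.mem_zpowers _
  · rw [← bridgec_inv h hs]
    exact inv_mem (Subgroup.mem_zpowers _)
  · rw [bridgec_one h hs]
    exact one_mem _

/-- Job BridgeC-1. Relations between the generators in the chiral case: all `s i j` are determined
by `eq_of_tmap`.

Proof. Each is proved by `eq_of_tmap h` after computing both sides on `Φ` with `tmap_mul`,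
`tmap_adj`, `adj_adj`, `adj_comm`. E.g. `s i j * s j k = s i k`:
`tmap (s i j * s j k) Φ = tmap (s i j) (adj k (adj j Φ)) = adj k (adj j (tmap (s i j) Φ)) =
adj k (adj j (adj j (adj i Φ))) = adj k (adj i Φ)`. `s i i = 1`: `adj_adj`. `s i j = s j i` for
`|i - j| ≥ 2`: `adj_comm`; with the previous ones `s i j * s i j = s i j * s j i = s i i = 1`.
`s 2 0 * s 3 2 * s 2 0 = (s 3 2)⁻¹ = s 2 3`: the left side applied to `Φ` is
`adj 0 (adj 2 (adj 2 (adj 3 (adj 0 (adj 2 Φ))))) = adj 0 (adj 3 (adj 0 (adj 2 Φ))) =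
adj 3 (adj 2 Φ)`. -/
theorem chi_rel (h : IsPolytope 4 P rk) {Φ : Tup P rk} {s : Fin 4 → Fin 4 → (P ≃o P)}
    (hs : ∀ i j, tmap h h (s i j) Φ = adj h j (adj h i Φ)) :
    (∀ i, s i i = 1) ∧ (∀ i j k, s i j * s j k = s i k) ∧ (∀ i j, (s i j)⁻¹ = s j i) ∧
      s 2 0 * s 2 0 = 1 ∧ s 1 3 * s 1 3 = 1 ∧ s 2 0 * s 3 2 * s 2 0 = (s 3 2)⁻¹ ∧
      s 1 3 = s 3 1 ∧ s 1 3 * s 3 2 = s 1 2 := by
  have h02 : s 0 2 = s 2 0 := bridgec_comm h hs (by decide)
  have h13 : s 1 3 = s 3 1 := bridgec_comm h hs (by decide)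
  refine ⟨bridgec_one h hs, bridgec_mul h hs, bridgec_inv h hs, ?_, ?_, ?_, h13,
    bridgec_mul h hs 1 3 2⟩
  · nth_rewrite 2 [← h02]
    rw [bridgec_mul h hs, bridgec_one h hs]
  · nth_rewrite 2 [h13]
    rw [bridgec_mul h hs, bridgec_one h hs]
  · rw [bridgec_inv h hs]
    apply eq_of_tmap h (Φ := Φ)
    have e1 : tmap h h (s 3 2) (adj h 0 (adj h 2 Φ)) = adj h 0 (adj h 3 Φ) := by
      rw [tmap_adj, tmap_adj, hs 3 2, adj_adj]
    have e2 : tmap h h (s 2 0) (adj h 0 (adj h 3 Φ)) = adj h 3 (adj h 2 Φ) := by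
      rw [tmap_adj, tmap_adj, hs 2 0, ← adj_comm h (i := 0) (j := 3) (by decide), adj_adj]
    rw [tmap_mul, tmap_mul, hs 2 0, e1, e2, hs 2 3]

/-- Job BridgeC-2. `orderOf (s 3 2)` is the number of facets above the base edge.

Proof. `facets_card` with `σ = s 3 2`. `hinj`: `z ∈ zpowers σ` fixes `Φ.1 0`, `Φ.1 1` (as `σ` does,
`tmap_apply`, `adj_same`) and `Φ.1 3`; by `chi_stab` with `J i := i ≠ 2` it is in the closure of
`{s 2 2} = {1}`, so `z = 1`. `hsurj`: let `G` be a facet above `e = Φ.1 1`; take a tuple `Ψ` with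
`Ψ.1 0 = Φ.1 0`, `Ψ.1 1 = Φ.1 1`, `Ψ.1 3 = G` (`exists_tup_mem₂`, `exists_upd`). By `hT` either
`tmap γ Φ = Ψ` or `tmap γ (adj 2 Φ) = Ψ`; in the second case use `adj 2 Ψ` instead of `Ψ` (same
facet): `tmap γ Φ = adj 2 Ψ`. So `γ` fixes `Φ.1 0`, `Φ.1 1` and maps `Φ.1 3` to `G`; by `chi_stab` with
`J i := i = 0 ∨ i = 1`, `γ ∈ closure {s 2 2, s 2 3, s 3 2, s 3 3} ≤ zpowers (s 3 2)`
(`chi_rel`). -/
theorem order_eq_chi (h : IsPolytope 4 P rk) [Finite P] {Φ : Tup P rk}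
    {s : Fin 4 → Fin 4 → (P ≃o P)} (hs : ∀ i j, tmap h h (s i j) Φ = adj h j (adj h i Φ))
    (hc : ∀ (i : Fin 4) (γ : P ≃o P), tmap h h γ Φ ≠ adj h i Φ)
    (hT : ∀ Ψ : Tup P rk, (∃ γ : P ≃o P, tmap h h γ Φ = Ψ) ∨
      ∃ γ : P ≃o P, tmap h h γ (adj h 2 Φ) = Ψ) :
    {G : P | Φ.1 1 ≤ G ∧ rk G = 3}.ncard = orderOf (s 3 2) := by
  have f0 : s 3 2 (Φ.1 0) = Φ.1 0 := bridgec_fix h hs (by decide) (by decide)
  have f1 : s 3 2 (Φ.1 1) = Φ.1 1 := bridgec_fix h hs (by decide) (by decide)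
  apply facets_card h Φ (s 3 2) f0 f1
  · intro z hz hz3
    have hz' := chi_stab h hs hc (fun i => i ≠ 2) (γ := z) (fun i hi => by
      have hi' : i ≠ 2 := hi
      have : i = 0 ∨ i = 1 ∨ i = 3 := by
        revert hi'
        fin_cases i <;> simp
      rcases this with rfl | rfl | rfl
      · exact bridgec_zfix f0 hz
      · exact bridgec_zfix f1 hz
      · exact hz3)
    have hle := bridgec_cl h hs (fun i => i ≠ 2) 2 2 (fun i hi => by
      left
      exact not_not.1 hi)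
    have := hle hz'
    rw [bridgec_one h hs, Subgroup.zpowers_one_eq_bot, Subgroup.mem_bot] at this
    exact this
  · intro G hG hrG
    obtain ⟨Ψ0, hΨ01, hΨ03⟩ := exists_tup_mem₂ h (x := Φ.1 1) (y := G) (i := 1) (j := 3)
      (Φ.hrk 1) (by rw [hrG]; rfl) hG
    obtain ⟨Ψ, hΨ0, hΨ⟩ := exists_upd Ψ0 0 (Φ.1 0) (Φ.hrk 0) (fun k hk => by simp at hk)
      (fun k hk => by
        have hk1 : k = 1 := Fin.ext (by simpa using hk.symm)
        rw [hk1, hΨ01]
        exact Φ.le (by decide))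
    have hΨ1 : Ψ.1 1 = Φ.1 1 := by rw [hΨ 1 (by decide), hΨ01]
    have hΨ3 : Ψ.1 3 = G := by rw [hΨ 3 (by decide), hΨ03]
    obtain ⟨γ, Ψ', hγ, h0, h1, h3⟩ : ∃ (γ : P ≃o P) (Ψ' : Tup P rk), tmap h h γ Φ = Ψ' ∧
        Ψ'.1 0 = Φ.1 0 ∧ Ψ'.1 1 = Φ.1 1 ∧ Ψ'.1 3 = G := by
      rcases hT Ψ with ⟨γ, hγ⟩ | ⟨γ, hγ⟩
      · exact ⟨γ, Ψ, hγ, hΨ0, hΨ1, hΨ3⟩
      · refine ⟨γ, adj h 2 Ψ, ?_, ?_, ?_, ?_⟩
        · rw [← hγ, ← tmap_adj, adj_adj]
        · rw [adj_same h _ (by decide), hΨ0]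
        · rw [adj_same h _ (by decide), hΨ1]
        · rw [adj_same h _ (by decide), hΨ3]
    refine ⟨γ, ?_, ?_⟩
    · have hz' := chi_stab h hs hc (fun i => i = 0 ∨ i = 1) (γ := γ) (fun i hi => by
        rcases hi with rfl | rfl
        · rw [← tmap_apply h h, hγ, h0]
        · rw [← tmap_apply h h, hγ, h1])
      refine bridgec_cl h hs (fun i => i = 0 ∨ i = 1) 3 2 (fun i hi => ?_) hz'
      revert hi
      fin_cases i <;> simp
    · rw [← tmap_apply h h, hγ, h3]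

/-- Job BridgeC-3. The group-theoretic data of a chiral polytope: `τ = s 2 0`, `j = s 1 3`,
`σ = s 3 2`.

Proof. `two`: `two_trans` with `chiral_tup2` (for `i = 3`). `ττ, jj, τσ`: `chi_rel`. `odd`:
`order_eq_chi` and `OddType` (`chiral_tup2` with `i = 2`). `σv`, `σw`: `smul_vert0`, `smul_vert1`,
`hs`, `adj_comm`, `adj_same`. `τv`: `(adj 0 (adj 2 Φ)).1 0 = (adj 2 (adj 0 Φ)).1 0 = (adj 0 Φ).1 0`.
`jv`: `adj_same`. `stab2`: `fix_edge_iff`, then `chi_stab` with `J i := i = 0 ∨ i = 1`, and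
`closure {s 2 2, s 2 3, s 3 2, s 3 3} ≤ zpowers (s 3 2)` by `chi_rel`. `stab1`: `chi_stab` with
`J i := i = 0`; `closure {s i j : i, j ∈ {1, 2, 3}} ≤ closure {s 1 3, s 3 2}`: by `chi_rel` each
`s i j` is a product of `s 1 3`, `s 3 2` and inverses. -/
theorem bridge_C (h : IsPolytope 4 P rk) [Finite P] (hC : IsChiral P) (hs : SimpleComplete rk)
    (ho : OddType rk) {Φ : Tup P rk} {s : Fin 4 → Fin 4 → (P ≃o P)}
    (hs' : ∀ i j, tmap h h (s i j) Φ = adj h j (adj h i Φ)) :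
    CHyp (vert0 h Φ) (vert1 h Φ) (s 2 0) (s 1 3) (s 3 2) := by
  obtain ⟨r1, r2, r3, r4, r5, r6, r7, r8⟩ := chi_rel h hs'
  have hc : ∀ (i : Fin 4) (γ : P ≃o P), tmap h h γ Φ ≠ adj h i Φ :=
    fun i γ => chiral_tup1 h hC Φ i γ
  refine
    { two := two_trans h hs (fun Φ Ψ => chiral_tup2 h hC Φ Ψ 3)
      vw := vert0_ne h Φ
      ττ := r4
      jj := r5
      odd := ?_
      σv := ?_
      σw := ?_
      τv := ?_
      jv := ?_
      τσ := r6
      stab2 := ?_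
      stab1 := ?_ }
  · rw [← order_eq_chi h hs' hc (fun Ψ => chiral_tup2 h hC Φ Ψ 2)]
    exact ho _ (Φ.hrk 1)
  · apply Vert.ext
    rw [smul_vert_val, vert0_val]
    exact bridgec_fix h hs' (by decide) (by decide)
  · rw [smul_vert1, hs']
    apply Vert.ext
    rw [vert1_val, vert1_val, adj_comm h (i := 0) (j := 2) (by decide),
      adj_comm h (i := 0) (j := 3) (by decide), adj_same h _ (by decide),
      adj_same h _ (by decide)]
  · apply Vert.ext
    rw [smul_vert0, hs', vert0_val, vert1_val, adj_comm h (i := 0) (j := 2) (by decide),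
      adj_same h _ (by decide)]
  · apply Vert.ext
    rw [smul_vert_val, vert0_val]
    exact bridgec_fix h hs' (by decide) (by decide)
  · intro g hg1 hg2
    obtain ⟨g0, g1⟩ := (fix_edge_iff h hs Φ g).1 ⟨hg1, hg2⟩
    have hz' := chi_stab h hs' hc (fun i => i = 0 ∨ i = 1) (γ := g) (fun i hi => by
      rcases hi with rfl | rfl
      · exact g0
      · exact g1)
    refine bridgec_cl h hs' (fun i => i = 0 ∨ i = 1) 3 2 (fun i hi => ?_) hz'
    revert hi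
    fin_cases i <;> simp
  · intro g hg
    have g0 : g (Φ.1 0) = Φ.1 0 := congrArg Subtype.val hg
    have hz' := chi_stab h hs' hc (fun i => i = 0) (γ := g) (fun i hi => by
      have hi' : i = 0 := hi
      rw [hi', g0])
    refine (Subgroup.closure_le _).2 ?_ hz'
    have m13 : s 1 3 ∈ Subgroup.closure {s 1 3, s 3 2} :=
      Subgroup.subset_closure (by simp)
    have m32 : s 3 2 ∈ Subgroup.closure {s 1 3, s 3 2} :=
      Subgroup.subset_closure (by simp)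
    have m12 : s 1 2 ∈ Subgroup.closure {s 1 3, s 3 2} := by
      rw [← r8]
      exact mul_mem m13 m32
    have key : ∀ i j : Fin 4, i ≠ 0 → j ≠ 0 → s i j ∈ Subgroup.closure {s 1 3, s 3 2} := by
      intro i j hi hj
      have hi' : i = 1 ∨ i = 2 ∨ i = 3 := by
        revert hi
        fin_cases i <;> simp
      have hj' : j = 1 ∨ j = 2 ∨ j = 3 := by
        revert hj
        fin_cases j <;> simp
      rcases hi' with rfl | rfl | rfl <;> rcases hj' with rfl | rfl | rfl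
      · rw [r1]; exact one_mem _
      · exact m12
      · exact m13
      · rw [← r3 1 2]; exact inv_mem m12
      · rw [r1]; exact one_mem _
      · rw [← r3 3 2]; exact inv_mem m32
      · rw [← r7]; exact m13
      · exact m32
      · rw [r1]; exact one_mem _
    rintro x ⟨i, j, hi, hj, rfl⟩
    exact key i j hi hj

/-- Job BridgeC-4. The stabilizer of the base facet.

Proof. `s 2 0` fixes `Φ.1 3` (`adj_same`); `s 1 3 * s 3 2 = s 1 2` (`chi_rel`) fixes `Φ.1 3`. If `g`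
fixes `Φ.1 3` and `Φ.1 0` then by `chi_stab` with `J i := i = 0 ∨ i = 3`,
`g ∈ closure {s 1 1, s 1 2, s 2 1, s 2 2} ≤ zpowers (s 1 2)`. -/
theorem bridge_S (h : IsPolytope 4 P rk) {Φ : Tup P rk} {s : Fin 4 → Fin 4 → (P ≃o P)}
    (hs' : ∀ i j, tmap h h (s i j) Φ = adj h j (adj h i Φ))
    (hc : ∀ (i : Fin 4) (γ : P ≃o P), tmap h h γ Φ ≠ adj h i Φ) :
    ∃ S : Subgroup (P ≃o P), s 2 0 ∈ S ∧ s 1 3 * s 3 2 ∈ S ∧
      ∀ g ∈ S, g • vert0 h Φ = vert0 h Φ → g ∈ Subgroup.zpowers (s 1 3 * s 3 2) := by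
  have r8 : s 1 3 * s 3 2 = s 1 2 := bridgec_mul h hs' 1 3 2
  let S : Subgroup (P ≃o P) :=
    { carrier := {γ | γ (Φ.1 3) = Φ.1 3}
      mul_mem' := by
        intro a b ha hb
        change a (b (Φ.1 3)) = Φ.1 3
        rw [show b (Φ.1 3) = Φ.1 3 from hb]
        exact ha
      one_mem' := rfl
      inv_mem' := by
        intro a ha
        have h1 : a⁻¹ (a (Φ.1 3)) = Φ.1 3 := a.symm_apply_apply _
        rw [show a (Φ.1 3) = Φ.1 3 from ha] at h1
        exact h1 }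
  rw [r8]
  refine ⟨S, bridgec_fix h hs' (by decide) (by decide), bridgec_fix h hs' (by decide)
    (by decide), ?_⟩
  intro g hg hg0
  have g0 : g (Φ.1 0) = Φ.1 0 := congrArg Subtype.val hg0
  have g3 : g (Φ.1 3) = Φ.1 3 := hg
  have hz' := chi_stab h hs' hc (fun i => i = 0 ∨ i = 3) (γ := g) (fun i hi => by
    rcases hi with rfl | rfl
    · exact g0
    · exact g3)
  refine bridgec_cl h hs' (fun i => i = 0 ∨ i = 3) 1 2 (fun i hi => ?_) hz'
  revert hi
  fin_cases i <;> simp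

end Pool.Agent.H.MP_6268b4_co
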