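import Mathlib

/-!
Facts about groups generated by two involutions whose product has odd order.
-/

namespace Pool.Agent.H.MP_6268b4_co

variable {G : Type*} [Group G] {a b : G}

theorem rdih_inv (ha : a * a = 1) : a⁻¹ = a := inv_eq_of_mul_eq_one_right ha

/-- conjugation of the powers of `a b` by `b` -/
theorem rdih_conj (ha : a * a = 1) (hb : b * b = 1) (i : ℤ) :
    b * (a * b) ^ i = (a * b) ^ (-i) * b := by
  have h1 : b * (a * b) * b⁻¹ = (a * b)⁻¹ := by
    rw [mul_inv_rev, rdih_inv ha, rdih_inv hb, mul_assoc, mul_assoc, hb, mul_one]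
  have h2 : b * (a * b) ^ i * b⁻¹ = (a * b) ^ (-i) := by
    rw [← conj_zpow, h1, inv_zpow, zpow_neg]
  rw [← h2, inv_mul_cancel_right]

theorem rdih_sq {x y : G} (hodd : Odd (orderOf x)) (hy : y ∈ Subgroup.zpowers x)
    (h2 : y * y = 1) : y = 1 := by
  have h3 : orderOf y ∣ orderOf x := orderOf_dvd_of_mem_zpowers hy
  have h4 : orderOf y ∣ 2 := orderOf_dvd_of_pow_eq_one (by rw [pow_two]; exact h2)
  have h5 : Nat.Coprime (orderOf x) 2 := Nat.coprime_two_right.2 hodd
  have h6 : orderOf y ∣ 1 := by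
    have := Nat.dvd_gcd h3 h4
    rwa [Nat.Coprime.gcd_eq_one h5] at this
  exact orderOf_eq_one_iff.1 (Nat.dvd_one.1 h6)

/-- Job RDih-1. The elements of `closure {a, b}` are `(a b)^i` and `(a b)^i b`.

Proof. The set `{(a*b)^i} ∪ {(a*b)^i * b}` (`i : ℤ`) is closed under multiplication by `b` and by
`a = (a*b)*b` on the right: `(ab)^i * b * b = (ab)^i`, `(ab)^i * a = (ab)^(i+1) * b` because
`a = (ab) b⁻¹ = (ab) b`, and `(ab)^i * b * a = (ab)^i * (ab)⁻¹ = (ab)^(i-1)`. Use
`Subgroup.closure_induction_right` or show closure under multiplication and inverses directly. -/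
theorem dih_form (ha : a * a = 1) (hb : b * b = 1) {h : G}
    (hh : h ∈ Subgroup.closure ({a, b} : Set G)) :
    (∃ i : ℤ, h = (a * b) ^ i) ∨ (∃ i : ℤ, h = (a * b) ^ i * b) := by
  induction hh using Subgroup.closure_induction with
  | mem x hx =>
    rcases hx with hx | hx
    · right
      refine ⟨1, ?_⟩
      rw [hx, zpow_one, mul_assoc, hb, mul_one]
    · right
      refine ⟨0, ?_⟩
      rw [Set.mem_singleton_iff] at hx
      rw [hx, zpow_zero, one_mul]
  | one => exact Or.inl ⟨0, (zpow_zero _).symm⟩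
  | mul x y _ _ hx hy =>
    rcases hx with ⟨i, hx⟩ | ⟨i, hx⟩ <;> rcases hy with ⟨j, hy⟩ | ⟨j, hy⟩
    · left
      exact ⟨i + j, by rw [hx, hy, zpow_add]⟩
    · right
      exact ⟨i + j, by rw [hx, hy, zpow_add, mul_assoc]⟩
    · right
      exact ⟨i + -j, by rw [hx, hy, mul_assoc, rdih_conj ha hb, zpow_add, mul_assoc]⟩
    · left
      refine ⟨i + -j, ?_⟩
      rw [hx, hy, mul_assoc, ← mul_assoc b, rdih_conj ha hb, mul_assoc _ b b, hb, mul_one,
        zpow_add]
  | inv x _ hx =>
    rcases hx with ⟨i, hx⟩ | ⟨i, hx⟩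
    · left
      exact ⟨-i, by rw [hx, zpow_neg]⟩
    · right
      refine ⟨i, ?_⟩
      rw [hx, mul_inv_rev, rdih_inv hb, ← zpow_neg, rdih_conj ha hb, neg_neg]

/-- Job RDih-2. Elements `≠ 1` of `closure {a, b}` with square `1` are conjugates of `b` by a power
of `a b`, if `a b` has odd order.

Proof. By `dih_form` `h = x ^ i` or `h = x ^ i * b` with `x = a * b`. In the first case
`h * h = 1` and `orderOf x` odd give `h = 1` (the order of `h` divides the odd number `orderOf x`
and divides `2`). In the second case: `b x b = x⁻¹`. Choose `k` with `x ^ (2 k) = x ^ i`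
(`k = i * (s + 1) / 2`, `s = orderOf x` odd); then `x ^ k * b * x ^ (-k) = x ^ (2k) * b`. -/
theorem dih_refl (ha : a * a = 1) (hb : b * b = 1) (hodd : Odd (orderOf (a * b))) {h : G}
    (hh : h ∈ Subgroup.closure ({a, b} : Set G)) (h2 : h * h = 1) (h1 : h ≠ 1) :
    ∃ k ∈ Subgroup.zpowers (a * b), h = k * b * k⁻¹ := by
  rcases dih_form ha hb hh with ⟨i, hi⟩ | ⟨i, hi⟩
  · exact absurd (rdih_sq hodd ⟨i, hi.symm⟩ h2) h1
  · obtain ⟨t, ht⟩ := hodd
    refine ⟨(a * b) ^ (i * (t + 1)), ⟨_, rfl⟩, ?_⟩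
    have h3 : (a * b) ^ (i * (t + 1)) * (a * b) ^ (i * (t + 1)) = (a * b) ^ i := by
      rw [← zpow_add]
      have e : i * ((t : ℤ) + 1) + i * (t + 1) = ((orderOf (a * b) : ℕ) : ℤ) * i + i := by
        rw [ht]; push_cast; ring
      rw [e, zpow_add, zpow_mul, zpow_natCast, pow_orderOf_eq_one, one_zpow, one_mul]
    rw [hi, ← zpow_neg, mul_assoc, rdih_conj ha hb, neg_neg, ← mul_assoc, h3]

/-- Job RDih-3. The centralizer of `b` in `closure {a, b}` is `{1, b}`.

Proof. `h = x ^ i` commutes with `b`: then `x ^ i = b x^i b = x ^ (-i)`, so `(x^i)^2 = 1`, and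
`x ^ i = 1` as the order is odd. `h = x ^ i * b` commutes with `b`: then `x ^ i` commutes with `b`,
so `x ^ i = 1` and `h = b`. -/
theorem dih_cent (ha : a * a = 1) (hb : b * b = 1) (hodd : Odd (orderOf (a * b))) {h : G}
    (hh : h ∈ Subgroup.closure ({a, b} : Set G)) (hc : h * b = b * h) : h = 1 ∨ h = b := by
  have key : ∀ i : ℤ, (a * b) ^ i * b = b * (a * b) ^ i → (a * b) ^ i = 1 := by
    intro i hi
    apply rdih_sq hodd ⟨i, rfl⟩
    rw [rdih_conj ha hb] at hi
    have h1 := mul_right_cancel hi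
    show (a * b) ^ i * (a * b) ^ i = 1
    nth_rewrite 1 [h1]
    rw [← zpow_add, neg_add_cancel, zpow_zero]
  rcases dih_form ha hb hh with ⟨i, hi⟩ | ⟨i, hi⟩
  · left
    rw [hi] at hc ⊢
    exact key i hc
  · right
    rw [hi] at hc ⊢
    rw [key i, one_mul]
    rw [mul_assoc, hb, mul_one, ← mul_assoc] at hc
    have h1 : (a * b) ^ i * b = b * (a * b) ^ i * b * b := by rw [← hc]
    rwa [mul_assoc _ b b, hb, mul_one] at h1

/-- Job RDih-4. If `3 ≤ orderOf (a b)`, the elements of `closure {a, b}` commuting with a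
nonidentity power of `a b` are powers of `a b`.

Proof. If `h = x ^ i * b` commutes with `y = x ^ k ≠ 1` then `b` commutes with `y`, and
`b y b = y⁻¹` gives `y ^ 2 = 1`, so `y = 1` (odd order), a contradiction. -/
theorem dih_cent_x (ha : a * a = 1) (hb : b * b = 1) (hodd : Odd (orderOf (a * b))) {h y : G}
    (hh : h ∈ Subgroup.closure ({a, b} : Set G)) (hy : y ∈ Subgroup.zpowers (a * b)) (hy1 : y ≠ 1)
    (hc : h * y = y * h) : h ∈ Subgroup.zpowers (a * b) := by
  rcases dih_form ha hb hh with ⟨i, hi⟩ | ⟨i, hi⟩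
  · exact ⟨i, hi.symm⟩
  · exfalso
    apply hy1
    obtain ⟨j, rfl⟩ := hy
    simp only at hc ⊢
    apply rdih_sq hodd ⟨j, rfl⟩
    rw [hi, mul_assoc, rdih_conj ha hb, ← mul_assoc, ← mul_assoc] at hc
    have h1 := mul_right_cancel hc
    rw [← zpow_add, ← zpow_add] at h1
    have h2 : (a * b) ^ (i + -j) * (a * b) ^ (-i + j) = (a * b) ^ (j + i) * (a * b) ^ (-i + j) := by
      rw [h1]
    rw [← zpow_add, ← zpow_add] at h2
    have e1 : i + -j + (-i + j) = 0 := by ring
    have e2 : j + i + (-i + j) = j + j := by ring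
    rw [e1, e2, zpow_zero, zpow_add] at h2
    exact h2.symm

/-- Job RDih-5. Elements of `closure {a, b}` of odd order are powers of `a b` (if `b ≠ 1`).

Proof. `h = x ^ i * b` satisfies `h * h = 1`, so if its order is odd then `h = 1`, hence
`b = x ^ (-i)` is a power of `x` with `b * b = 1`; the order of `b` is odd and divides 2, so
`b = 1`, contradiction. -/
theorem dih_odd (ha : a * a = 1) (hb : b * b = 1) (hb1 : b ≠ 1) (hodd : Odd (orderOf (a * b)))
    {h : G} (hh : h ∈ Subgroup.closure ({a, b} : Set G)) (ho : Odd (orderOf h)) :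
    h ∈ Subgroup.zpowers (a * b) := by
  rcases dih_form ha hb hh with ⟨i, hi⟩ | ⟨i, hi⟩
  · exact ⟨i, hi.symm⟩
  · exfalso
    have h1 : h * h = 1 := by
      rw [hi, mul_assoc, ← mul_assoc b, rdih_conj ha hb, mul_assoc _ b b, hb, mul_one,
        ← zpow_add, add_neg_cancel, zpow_zero]
    have h2 : h = 1 := rdih_sq ho (Subgroup.mem_zpowers h) h1
    rw [h2] at hi
    have h3 : b = (a * b) ^ (-i) := by
      rw [zpow_neg]
      exact eq_inv_of_mul_eq_one_right hi.symm
    exact hb1 (rdih_sq hodd ⟨-i, h3.symm⟩ hb)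

/-- Job RDih-6. `closure {a, b}` has order `2 * orderOf (a b)` (if `b ≠ 1`).

Proof. The elements `x ^ i`, `x ^ i * b` (`0 ≤ i < s`) are distinct because `b` is not a power of
`x` (see `dih_odd`); e.g. `zpowers x` (as a subgroup of `closure {a, b}`) has index `2`, or build
the bijection `ZMod s × Bool`. -/
theorem dih_card [Finite G] (ha : a * a = 1) (hb : b * b = 1) (hb1 : b ≠ 1)
    (hodd : Odd (orderOf (a * b))) :
    Nat.card (Subgroup.closure ({a, b} : Set G)) = 2 * orderOf (a * b) := by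
  classical
  have hbK : b ∉ Subgroup.zpowers (a * b) := fun h => hb1 (rdih_sq hodd h hb)
  have haC : a ∈ Subgroup.closure ({a, b} : Set G) := Subgroup.subset_closure (by simp)
  have hbC : b ∈ Subgroup.closure ({a, b} : Set G) := Subgroup.subset_closure (by simp)
  have hKC : Subgroup.zpowers (a * b) ≤ Subgroup.closure ({a, b} : Set G) := by
    rw [Subgroup.zpowers_le]
    exact mul_mem haC hbC
  have hset : ((Subgroup.closure ({a, b} : Set G) : Subgroup G) : Set G) =
      (Subgroup.zpowers (a * b) : Set G) ∪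
        (fun g => g * b) '' (Subgroup.zpowers (a * b) : Set G) := by
    ext h
    constructor
    · intro hh
      rcases dih_form ha hb hh with ⟨i, hi⟩ | ⟨i, hi⟩
      · exact Or.inl ⟨i, hi.symm⟩
      · exact Or.inr ⟨(a * b) ^ i, ⟨i, rfl⟩, hi.symm⟩
    · rintro (hh | ⟨g, hg, rfl⟩)
      · exact hKC hh
      · exact mul_mem (hKC hg) hbC
  have hdis : Disjoint (Subgroup.zpowers (a * b) : Set G)
      ((fun g => g * b) '' (Subgroup.zpowers (a * b) : Set G)) := by
    rw [Set.disjoint_left]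
    rintro h hh ⟨g, hg, rfl⟩
    apply hbK
    have := mul_mem (inv_mem hg) hh
    rwa [inv_mul_cancel_left] at this
  have h1 : Nat.card (Subgroup.closure ({a, b} : Set G)) =
      ((Subgroup.closure ({a, b} : Set G) : Subgroup G) : Set G).ncard := rfl
  have h2 : (Subgroup.zpowers (a * b) : Set G).ncard = orderOf (a * b) := Nat.card_zpowers (a * b)
  rw [h1, hset, Set.ncard_union_eq hdis (Set.toFinite _) (Set.toFinite _),
    Set.ncard_image_of_injective _ (mul_left_injective b), h2, two_mul]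

end Pool.Agent.H.MP_6268b4_co
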