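import Pool.Agent.H.MP_6268b4_co.TReg
import Pool.Agent.H.MP_6268b4_co.TVert
import Pool.Agent.H.MP_6268b4_co.RDih

/-!
Regular polytopes of rank 4 give the group-theoretic data.
-/

namespace Pool.Agent.H.MP_6268b4_co

variable {P : Type*} [PartialOrder P] [BoundedOrder P] {rk : P → ℤ}

def bridger_fixer (x : P) : Subgroup (P ≃o P) where
  carrier := {g | g x = x}
  mul_mem' := by
    intro a b ha hb
    change a (b x) = x
    rw [hb, ha]
  one_mem' := rfl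
  inv_mem' := by
    intro a ha
    change a.symm x = x
    rw [OrderIso.symm_apply_eq]
    exact ha.symm

theorem bridger_fix {x : P} {σ z : P ≃o P} (hσ : σ x = x) (hz : z ∈ Subgroup.zpowers σ) :
    z x = x := by
  have h1 : Subgroup.zpowers σ ≤ bridger_fixer x := by
    rw [Subgroup.zpowers_le]
    exact hσ
  exact h1 hz

theorem bridger_cl {G : Type*} [Group G] {a z : G} (ha : a * a = 1)
    (hz : z ∈ Subgroup.closure ({a} : Set G)) : z = 1 ∨ z = a := by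
  induction hz using Subgroup.closure_induction with
  | mem x hx => exact Or.inr hx
  | one => exact Or.inl rfl
  | mul x y _ _ hx hy =>
    rcases hx with rfl | rfl <;> rcases hy with rfl | rfl
    · left; rw [mul_one]
    · right; rw [one_mul]
    · right; rw [mul_one]
    · left; exact ha
  | inv x _ hx =>
    rcases hx with rfl | rfl
    · left; exact inv_one
    · right; exact inv_eq_of_mul_eq_one_right ha

theorem bridger_pow {G : Type*} [Group G] {a b : G} (ha : a * a = 1) (hb : b * b = 1)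
    (ha1 : a ≠ 1) (hb1 : b ≠ 1) (h : a ∈ Subgroup.zpowers (a * b)) : False := by
  obtain ⟨k, hk⟩ := h
  simp only at hk
  have hc : a * (a * b) = (a * b) * a := by
    nth_rewrite 1 [← hk]
    nth_rewrite 4 [← hk]
    rw [← zpow_add_one, ← zpow_one_add, add_comm]
  have h1 : a * b * a = b := by
    rw [← hc, ← mul_assoc, ha, one_mul]
  have h2 : (a * b) * (a * b) = 1 := by
    rw [← mul_assoc, h1, hb]
  rcases Int.even_or_odd' k with ⟨m, hm | hm⟩
  · rw [hm, zpow_mul, zpow_two, h2, one_zpow] at hk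
    exact ha1 hk.symm
  · rw [hm, zpow_add_one, zpow_mul, zpow_two, h2, one_zpow, one_mul] at hk
    apply hb1
    exact mul_eq_left.1 hk

/-- Job BridgeR-1. `orderOf (ρ₂ ρ₃)` is the number of facets above the base edge.

Proof. `facets_card` with `σ = ρ 2 * ρ 3` (it fixes `Φ.1 0` and `Φ.1 1` by `reg_fix`).
`hinj`: `z ∈ zpowers (ρ₂ρ₃)` fixes `Φ.1 0`, `Φ.1 1` and `Φ.1 3`, so by `reg_stab` (with
`J i := i ≠ 2`) it is in the closure of `{ρ 2}`, so `z = 1` or `z = ρ 2` (`reg_sq`). If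
`ρ₂ = (ρ₂ρ₃)^k` then `ρ₂` commutes with `ρ₂ρ₃`, so `ρ₂` commutes with `ρ₃` and `(ρ₂ρ₃)^2 = 1`; so
`ρ₂ = 1` or `ρ₂ = ρ₂ρ₃`, i.e. `ρ₂ = 1` or `ρ₃ = 1`, contradicting `reg_ne_one`.
`hsurj`: let `G` be a facet above `e = Φ.1 1`. There is a tuple `Ψ` with `Ψ.1 0 = Φ.1 0`,
`Ψ.1 1 = Φ.1 1`, `Ψ.1 3 = G`: take a tuple containing `e` and `G` (`exists_tup_mem₂`) and replace
its vertex (`exists_upd`). Let `tmap γ Φ = Ψ` (`hT`). By `reg_stab` (`J i := i = 0 ∨ i = 1`)
`γ ∈ closure {ρ 2, ρ 3}`. By `dih_form` (RDih) or directly by induction, `γ = z` or `γ = z * ρ 2`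
with `z ∈ zpowers (ρ 2 * ρ 3)`; `ρ 2` fixes `Φ.1 3`, so `z (Φ.1 3) = γ (Φ.1 3) = G`. -/
theorem order_eq (h : IsPolytope 4 P rk) [Finite P] {Φ : Tup P rk} {ρ : Fin 4 → (P ≃o P)}
    (hρ : ∀ i, tmap h h (ρ i) Φ = adj h i Φ)
    (hT : ∀ Ψ : Tup P rk, ∃ γ : P ≃o P, tmap h h γ Φ = Ψ) :
    {G : P | Φ.1 1 ≤ G ∧ rk G = 3}.ncard = orderOf (ρ 2 * ρ 3) := by
  have hσ0 : (ρ 2 * ρ 3) (Φ.1 0) = Φ.1 0 := by
    change ρ 2 (ρ 3 (Φ.1 0)) = Φ.1 0
    rw [reg_fix h hρ (by decide), reg_fix h hρ (by decide)]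
  have hσ1 : (ρ 2 * ρ 3) (Φ.1 1) = Φ.1 1 := by
    change ρ 2 (ρ 3 (Φ.1 1)) = Φ.1 1
    rw [reg_fix h hρ (by decide), reg_fix h hρ (by decide)]
  apply facets_card h Φ (ρ 2 * ρ 3) hσ0 hσ1
  · intro z hz hz3
    have h0 := bridger_fix hσ0 hz
    have h1 := bridger_fix hσ1 hz
    have h2 := reg_stab h hρ (fun i => i ≠ 2) (γ := z) (by
      intro i hi
      have hi4 : i = 0 ∨ i = 1 ∨ i = 2 ∨ i = 3 := by
        revert i
        decide
      rcases hi4 with rfl | rfl | rfl | rfl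
      · exact h0
      · exact h1
      · exact absurd rfl hi
      · exact hz3)
    have h3 : z ∈ Subgroup.closure ({ρ 2} : Set (P ≃o P)) := by
      refine Subgroup.closure_mono ?_ h2
      rintro x ⟨i, hi, rfl⟩
      rw [not_not] at hi
      rw [hi]
      rfl
    rcases bridger_cl (reg_sq h hρ 2) h3 with h4 | h4
    · exact h4
    · exfalso
      rw [h4] at hz
      exact bridger_pow (reg_sq h hρ 2) (reg_sq h hρ 3) (reg_ne_one h hρ 2) (reg_ne_one h hρ 3) hz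
  · intro G hG hG3
    obtain ⟨Ψ0, hΨ1, hΨ3⟩ := exists_tup_mem₂ h (i := 1) (j := 3) (Φ.hrk 1) (by simpa using hG3) hG
    obtain ⟨Ψ, hΨ0, hΨs⟩ := exists_upd Ψ0 0 (Φ.1 0) (Φ.hrk 0) (fun k hk => by simp at hk)
      (fun k hk => by
        have hk1 : k = 1 := Fin.ext (by simpa using hk.symm)
        rw [hk1, hΨ1]
        exact Φ.le (by decide))
    obtain ⟨γ, hγ⟩ := hT Ψ
    have hγi : ∀ i, γ (Φ.1 i) = Ψ.1 i := by
      intro i
      rw [← hγ]
      rfl
    have h0 : γ (Φ.1 0) = Φ.1 0 := by rw [hγi, hΨ0]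
    have h1 : γ (Φ.1 1) = Φ.1 1 := by rw [hγi, hΨs 1 (by decide), hΨ1]
    have h3 : γ (Φ.1 3) = G := by rw [hγi, hΨs 3 (by decide), hΨ3]
    have h4 := reg_stab h hρ (fun i => i = 0 ∨ i = 1) (γ := γ) (by
      rintro i (rfl | rfl)
      · exact h0
      · exact h1)
    have h5 : γ ∈ Subgroup.closure ({ρ 3, ρ 2} : Set (P ≃o P)) := by
      refine Subgroup.closure_mono ?_ h4
      rintro x ⟨i, hi, rfl⟩
      have hi4 : i = 2 ∨ i = 3 := by
        revert i
        decide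
      rcases hi4 with rfl | rfl
      · exact Or.inr rfl
      · exact Or.inl rfl
    have h6 : ρ 3 * ρ 2 ∈ Subgroup.zpowers (ρ 2 * ρ 3) := by
      have e : ρ 3 * ρ 2 = (ρ 2 * ρ 3)⁻¹ := by
        rw [mul_inv_rev, rdih_inv (reg_sq h hρ 2), rdih_inv (reg_sq h hρ 3)]
      rw [e]
      exact inv_mem (Subgroup.mem_zpowers _)
    rcases dih_form (reg_sq h hρ 3) (reg_sq h hρ 2) h5 with ⟨i, hi⟩ | ⟨i, hi⟩
    · exact ⟨γ, by rw [hi]; exact zpow_mem h6 i, h3⟩
    · refine ⟨(ρ 3 * ρ 2) ^ i, zpow_mem h6 i, ?_⟩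
      rw [← h3, hi]
      change ((ρ 3 * ρ 2) ^ i) (Φ.1 3) = ((ρ 3 * ρ 2) ^ i) (ρ 2 (Φ.1 3))
      rw [reg_fix h hρ (i := 2) (j := 3) (by decide)]

/-- Job BridgeR-2. The group-theoretic data of a regular polytope.

Proof. `two`: `two_trans`. `vw`: `vert0_ne`. Squares: `reg_sq`. `odd`: `order_eq` and `OddType`.
`av, bv, cv`: `reg_fix`, `Vert.ext`. `aw, bw`: `ρ i • vert1 Φ = vert1 (adj i Φ)` (`smul_vert1`),
for `i = 2, 3`: `(adj 0 (adj i Φ)).1 0 = (adj i (adj 0 Φ)).1 0 = (adj 0 Φ).1 0` (`adj_comm`,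
`adj_same`). `tv`: `ρ 0 • vert0 Φ = vert0 (adj 0 Φ) = vert1 Φ`. Commutation: `reg_comm`.
`stab2`: by `fix_edge_iff` `g` fixes `Φ.1 0` and `Φ.1 1`, use `reg_stab` with
`J i := i = 0 ∨ i = 1`. `stab1`: `reg_stab` with `J i := i = 0` (`Subgroup.closure_mono`). -/
theorem bridge_R (h : IsPolytope 4 P rk) [Finite P] (hs : SimpleComplete rk) (ho : OddType rk)
    {Φ : Tup P rk} {ρ : Fin 4 → (P ≃o P)} (hρ : ∀ i, tmap h h (ρ i) Φ = adj h i Φ)
    (hT : ∀ Φ Ψ : Tup P rk, ∃ γ : P ≃o P, tmap h h γ Φ = Ψ) :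
    RHyp (vert0 h Φ) (vert1 h Φ) (ρ 0) (ρ 1) (ρ 2) (ρ 3) := by
  have hv : ∀ i : Fin 4, i ≠ 0 → ρ i • vert0 h Φ = vert0 h Φ := by
    intro i hi
    apply Vert.ext
    rw [smul_vert_val, vert0_val]
    exact reg_fix h hρ (Ne.symm hi)
  have hw : ∀ i : Fin 4, (0 : ℕ) + 2 ≤ i → ρ i • vert1 h Φ = vert1 h Φ := by
    intro i hi
    have hi0 : (0 : Fin 4) ≠ i := by
      rintro rfl
      simp at hi
    rw [smul_vert1, hρ]
    apply Vert.ext
    rw [vert1_val, vert1_val, adj_comm h (i := 0) (j := i) hi, adj_same h _ hi0]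
  exact
    { two := two_trans h hs (fun Φ Ψ => Or.inl (hT Φ Ψ))
      vw := vert0_ne h Φ
      aa := reg_sq h hρ 2
      bb := reg_sq h hρ 3
      cc := reg_sq h hρ 1
      tt := reg_sq h hρ 0
      odd := by
        have h1 := ho (Φ.1 1) (by simpa using Φ.hrk 1)
        rwa [order_eq h hρ (fun Ψ => hT Φ Ψ)] at h1
      av := hv 2 (by decide)
      aw := hw 2 (by decide)
      bv := hv 3 (by decide)
      bw := hw 3 (by decide)
      tv := by
        rw [smul_vert0, hρ]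
        rfl
      cv := hv 1 (by decide)
      ta := reg_comm h hρ (i := 0) (j := 2) (by decide)
      tb := reg_comm h hρ (i := 0) (j := 3) (by decide)
      cb := reg_comm h hρ (i := 1) (j := 3) (by decide)
      stab2 := by
        intro g hg0 hg1
        obtain ⟨h0, h1⟩ := (fix_edge_iff h hs Φ g).1 ⟨hg0, hg1⟩
        have h4 := reg_stab h hρ (fun i => i = 0 ∨ i = 1) (γ := g) (by
          rintro i (rfl | rfl)
          · exact h0
          · exact h1)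
        refine Subgroup.closure_mono ?_ h4
        rintro x ⟨i, hi, rfl⟩
        have hi4 : i = 2 ∨ i = 3 := by
          revert i
          decide
        rcases hi4 with rfl | rfl
        · exact Or.inl rfl
        · exact Or.inr rfl
      stab1 := by
        intro g hg0
        have h0 : g (Φ.1 0) = Φ.1 0 := congrArg Subtype.val hg0
        have h4 := reg_stab h hρ (fun i => i = 0) (γ := g) (by
          rintro i rfl
          exact h0)
        refine Subgroup.closure_mono ?_ h4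
        rintro x ⟨i, hi, rfl⟩
        have hi4 : i = 1 ∨ i = 2 ∨ i = 3 := by
          revert i
          decide
        rcases hi4 with rfl | rfl | rfl
        · exact Or.inl rfl
        · exact Or.inr (Or.inl rfl)
        · exact Or.inr (Or.inr rfl) }

/-- Job BridgeR-3. Proof: `ρ 0` and `ρ 1` fix `Φ.1 3` (`reg_fix`), so `(ρ 0 * ρ 1) ^ 3` fixes it;
`ρ 3` does not (`adj_ne`). -/
theorem bridge_nb (h : IsPolytope 4 P rk) {Φ : Tup P rk} {ρ : Fin 4 → (P ≃o P)}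
    (hρ : ∀ i, tmap h h (ρ i) Φ = adj h i Φ) : (ρ 0 * ρ 1) ^ 3 ≠ ρ 3 := by
  intro he
  have h1 : (ρ 0 * ρ 1) (Φ.1 3) = Φ.1 3 := by
    change ρ 0 (ρ 1 (Φ.1 3)) = Φ.1 3
    rw [reg_fix h hρ (by decide), reg_fix h hρ (by decide)]
  have h2 : ((ρ 0 * ρ 1) ^ 3) (Φ.1 3) = Φ.1 3 :=
    bridger_fix h1 (pow_mem (Subgroup.mem_zpowers _) 3)
  have h3 : ρ 3 (Φ.1 3) = (adj h 3 Φ).1 3 := by
    rw [← hρ 3]
    rfl
  rw [he, h3] at h2
  exact adj_ne h 3 Φ h2

end Pool.Agent.H.MP_6268b4_co
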