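import Pool.Agent.H.MP_6268b4_co.GDefs
import Pool.Agent.H.MP_6268b4_co.RDih

/-!
Chiral case: first consequences of the hypotheses.
-/

namespace Pool.Agent.H.MP_6268b4_co

variable {G Ω : Type*} [Group G] [MulAction G Ω] [Finite G] [Finite Ω] [FaithfulSMul G Ω]
  {v w : Ω} {τ j σ : G}

omit [Finite G] [FaithfulSMul G Ω] in
theorem cbasica_exists_ne (hn : 4 ≤ Nat.card Ω) (a b c : Ω) : ∃ u : Ω, u ≠ a ∧ u ≠ b ∧ u ≠ c := by
  classical
  have : Fintype Ω := Fintype.ofFinite Ω
  by_contra hcon
  push Not at hcon
  have hsub : (Finset.univ : Finset Ω) ⊆ {a, b, c} := by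
    intro u _
    simp only [Finset.mem_insert, Finset.mem_singleton]
    by_cases h1 : u = a
    · exact Or.inl h1
    · by_cases h2 : u = b
      · exact Or.inr (Or.inl h2)
      · exact Or.inr (Or.inr (hcon u h1 h2))
  have h1 := Finset.card_le_card hsub
  have h2 : ({a, b, c} : Finset Ω).card ≤ 3 := Finset.card_le_three
  rw [Finset.card_univ, ← Nat.card_eq_fintype_card] at h1
  omega

omit [Finite G] [Finite Ω] [FaithfulSMul G Ω] in
theorem cbasica_fix_closure {s : Set G} {x : Ω} (hs : ∀ g ∈ s, g • x = x) {g : G}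
    (hg : g ∈ Subgroup.closure s) : g • x = x := by
  have : Subgroup.closure s ≤ MulAction.stabilizer G x := by
    rw [Subgroup.closure_le]
    intro y hy
    exact hs y hy
  exact this hg

/-- Job CBasic-1. `j ≠ 1`, `j w ≠ w`, `3 ≤ orderOf σ`.

Proof. The stabilizer of `v` is `closure {j, σ}` (`stab1`; `j, σ` fix `v`), and it is transitive on
the at least three points `≠ v` (2-transitivity, `hn`). If `j w = w` it would fix `w`. If
`orderOf σ = 1` it would be `{1, j}` and the orbit of `w` would have at most 2 points. `orderOf σ`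
is odd, so it is `≥ 3`. -/
theorem C_basic (h : CHyp v w τ j σ) (hn : 4 ≤ Nat.card Ω) :
    j ≠ 1 ∧ j • w ≠ w ∧ 3 ≤ orderOf σ := by
  obtain ⟨u, huv, huw, huj⟩ := cbasica_exists_ne hn v w (j • w)
  obtain ⟨g, hgv, hgw⟩ := h.two v w v u h.vw huv.symm
  have hg := h.stab1 g hgv
  have hjw : j • w ≠ w := by
    intro hj
    have : g • w = w := by
      apply cbasica_fix_closure _ hg
      intro y hy
      rcases hy with rfl | hy
      · exact hj
      · rw [Set.mem_singleton_iff] at hy
        subst hy
        exact h.σw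
    exact huw (hgw.symm.trans this)
  refine ⟨?_, hjw, ?_⟩
  · intro hj
    apply hjw
    rw [hj, one_smul]
  · have hodd := h.odd
    have h1 : orderOf σ ≠ 1 := by
      intro h1
      have hσ : σ = 1 := orderOf_eq_one_iff.mp h1
      have hle : ∀ x ∈ Subgroup.closure ({j, σ} : Set G), x = 1 ∨ x = j := by
        intro x hx
        induction hx using Subgroup.closure_induction with
        | mem x hx =>
          rcases hx with rfl | hx
          · exact Or.inr rfl
          · rw [Set.mem_singleton_iff] at hx
            exact Or.inl (hx.trans hσ)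
        | one => exact Or.inl rfl
        | mul x y _ _ hx hy =>
          rcases hx with rfl | rfl
          · simpa using hy
          · rcases hy with rfl | rfl
            · exact Or.inr (mul_one _)
            · exact Or.inl h.jj
        | inv x _ hx =>
          rcases hx with rfl | rfl
          · exact Or.inl inv_one
          · exact Or.inr (inv_eq_of_mul_eq_one_right h.jj)
      rcases hle g hg with rfl | rfl
      · exact huw (by rw [← hgw, one_smul])
      · exact huj hgw.symm
    obtain ⟨m, hm⟩ := hodd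
    omega

omit [Finite G] [FaithfulSMul G Ω] in
theorem cbasica_card_offDiag : Nat.card {p : Ω × Ω // p.1 ≠ p.2} =
    Nat.card Ω * (Nat.card Ω - 1) := by
  classical
  have : Fintype Ω := Fintype.ofFinite Ω
  have h1 : Nat.card {p : Ω × Ω // p.1 ≠ p.2} = (Finset.univ : Finset Ω).offDiag.card := by
    rw [Nat.card_eq_fintype_card, Fintype.card_subtype]
    congr 1
    ext p
    simp
  rw [h1, Finset.offDiag_card, Finset.card_univ, ← Nat.card_eq_fintype_card, Nat.mul_sub_one]

/-- Job CBasic-2. Orders: `Nat.card (stabilizer v) = (n - 1) s`, `Nat.card G = n (n - 1) s`, `n` is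
odd.

Proof. The stabilizer of `v` and `w` is `zpowers σ` of order `s` (`stab2`). Orbit-stabilizer twice
(2-transitivity). `j` is an involution fixing `v`, so `2 ∣ (n - 1) s` and `n - 1` is even. -/
theorem C_card (h : CHyp v w τ j σ) (hn : 4 ≤ Nat.card Ω) :
    Nat.card (MulAction.stabilizer G v) = (Nat.card Ω - 1) * orderOf σ ∧
    Nat.card G = Nat.card Ω * ((Nat.card Ω - 1) * orderOf σ) ∧ Odd (Nat.card Ω) := by
  classical
  -- the orbit of the pair
  have horb : MulAction.orbit G ((v, w) : Ω × Ω) = {p : Ω × Ω | p.1 ≠ p.2} := by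
    ext p
    constructor
    · rintro ⟨g, rfl⟩
      intro hc
      exact h.vw (MulAction.injective g hc)
    · intro hp
      obtain ⟨g, h1, h2⟩ := h.two v w p.1 p.2 h.vw hp
      exact ⟨g, Prod.ext h1 h2⟩
  have hstab : MulAction.stabilizer G ((v, w) : Ω × Ω) = Subgroup.zpowers σ := by
    ext g
    rw [MulAction.mem_stabilizer_iff]
    constructor
    · intro hg
      exact h.stab2 g (congrArg Prod.fst hg) (congrArg Prod.snd hg)
    · intro hg
      have hle : Subgroup.zpowers σ ≤ MulAction.stabilizer G ((v, w) : Ω × Ω) := by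
        rw [Subgroup.zpowers_le, MulAction.mem_stabilizer_iff]
        exact Prod.ext h.σv h.σw
      exact hle hg
  have hG : Nat.card G = Nat.card Ω * ((Nat.card Ω - 1) * orderOf σ) := by
    have h1 := Subgroup.index_mul_card (MulAction.stabilizer G ((v, w) : Ω × Ω))
    rw [MulAction.index_stabilizer, horb, hstab, Nat.card_zpowers] at h1
    have h2 : ({p : Ω × Ω | p.1 ≠ p.2}).ncard = Nat.card Ω * (Nat.card Ω - 1) :=
      cbasica_card_offDiag
    rw [h2] at h1
    rw [← h1, mul_assoc]
  have horb1 : MulAction.orbit G v = Set.univ := by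
    ext x
    simp only [Set.mem_univ, iff_true]
    by_cases hx : x = v
    · rw [hx]; exact MulAction.mem_orbit_self v
    · obtain ⟨u, hux, -, -⟩ := cbasica_exists_ne hn x x x
      obtain ⟨g, h1, -⟩ := h.two v w x u h.vw hux.symm
      exact ⟨g, h1⟩
  have hS : Nat.card (MulAction.stabilizer G v) = (Nat.card Ω - 1) * orderOf σ := by
    have h1 := Subgroup.index_mul_card (MulAction.stabilizer G v)
    rw [MulAction.index_stabilizer, horb1, Set.ncard_univ, hG] at h1
    exact Nat.eq_of_mul_eq_mul_left (by omega) h1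
  refine ⟨hS, hG, ?_⟩
  have hj : orderOf j = 2 := by
    apply orderOf_eq_prime
    · rw [pow_two]; exact h.jj
    · exact (C_basic h hn).1
  have h2 : 2 ∣ (Nat.card Ω - 1) * orderOf σ := by
    rw [← hS, ← hj]
    exact Subgroup.orderOf_dvd_natCard _ (MulAction.mem_stabilizer_iff.mpr h.jv)
  obtain ⟨m, hm⟩ := h.odd
  have h3 : 2 ∣ (Nat.card Ω - 1) := by
    rcases (Nat.Prime.dvd_mul Nat.prime_two).mp h2 with h3 | h3
    · exact h3
    · omega
  rw [Nat.odd_iff]
  omega

end Pool.Agent.H.MP_6268b4_co
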