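import Pool.Agent.H.MP_6268b4_co.CBasicA

/-!
Chiral case: first consequences of the hypotheses.
-/

namespace Pool.Agent.H.MP_6268b4_co

variable {G Ω : Type*} [Group G] [MulAction G Ω] [Finite G] [Finite Ω] [FaithfulSMul G Ω]
  {v w : Ω} {τ j σ : G}

omit [Finite G] [Finite Ω] [FaithfulSMul G Ω] in
/-- an element fixing two points has odd order. -/
theorem cbasicb_odd (h : CHyp v w τ j σ) {x y : Ω} (hxy : x ≠ y) {k : G} (hx : k • x = x)
    (hy : k • y = y) : Odd (orderOf k) := by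
  obtain ⟨g, hg1, hg2⟩ := h.two x y v w hxy h.vw
  have h1 : (g * k * g⁻¹) • v = v := by
    rw [← hg1, mul_smul, mul_smul, inv_smul_smul, hx]
  have h2 : (g * k * g⁻¹) • w = w := by
    rw [← hg2, mul_smul, mul_smul, inv_smul_smul, hy]
  have h3 := h.stab2 _ h1 h2
  have h4 : orderOf (g * k * g⁻¹) ∣ orderOf σ := orderOf_dvd_of_mem_zpowers h3
  have h5 : orderOf (g * k * g⁻¹) = orderOf k := by
    rw [← MulAut.conj_apply]
    exact orderOf_injective (MulAut.conj g).toMonoidHom (MulAut.conj g).injective k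
  rw [h5] at h4
  exact Odd.of_dvd_nat h.odd h4

omit [Finite G] [Finite Ω] [FaithfulSMul G Ω] in
theorem cbasicb_one (h : CHyp v w τ j σ) {x y : Ω} (hxy : x ≠ y) {z : G} (hz : z * z = 1)
    (hx : z • x = x) (hy : z • y = y) : z = 1 := by
  have h1 := cbasicb_odd h hxy hx hy
  have h2 : orderOf z ∣ 2 := orderOf_dvd_of_pow_eq_one (by rw [pow_two]; exact hz)
  rcases (Nat.dvd_prime Nat.prime_two).mp h2 with h3 | h3
  · exact orderOf_eq_one_iff.mp h3
  · rw [h3] at h1
    exact absurd h1 (by decide)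

/-- Job CBasic-3. An element of order dividing 2 fixing two points is `1`; every involution fixes
exactly one point.

Proof. If `z` fixes `x ≠ y` conjugate `(x, y)` to `(v, w)`: a conjugate of `z` is in `zpowers σ`,
whose elements have odd order; so `z = 1`. An involution has an odd number of fixed points since
`n` is odd (`C_card`), hence exactly one. -/
theorem C_inv_fix (h : CHyp v w τ j σ) (hn : 4 ≤ Nat.card Ω) :
    (∀ (z : G) (x y : Ω), z * z = 1 → x ≠ y → z • x = x → z • y = y → z = 1) ∧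
    (∀ z : G, z * z = 1 → z ≠ 1 → ∃! x : Ω, z • x = x) := by
  classical
  have hA : ∀ (z : G) (x y : Ω), z * z = 1 → x ≠ y → z • x = x → z • y = y → z = 1 :=
    fun z x y hz hxy hx hy => cbasicb_one h hxy hz hx hy
  refine ⟨hA, ?_⟩
  intro z hz hz1
  have : Fintype Ω := Fintype.ofFinite Ω
  have hodd := (C_card h hn).2.2
  rw [Nat.card_eq_fintype_card] at hodd
  have hinv : Function.Involutive (fun x : Ω => z • x) := fun x => by
    change z • z • x = x
    rw [← mul_smul, hz, one_smul]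
  have hex : ∃ x : Ω, z • x = x := by
    by_contra hcon
    push Not at hcon
    have h1 : ∑ _x : Ω, (1 : ZMod 2) = 0 := by
      apply Finset.sum_involution (fun x _ => z • x)
      · intro a _
        decide
      · intro a _ _
        exact hcon a
      · intro a _
        exact hinv a
      · intro a _
        exact Finset.mem_univ _
    rw [Finset.sum_const, Finset.card_univ, nsmul_eq_mul, mul_one] at h1
    rw [ZMod.natCast_eq_zero_iff] at h1
    obtain ⟨m, hm⟩ := hodd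
    omega
  obtain ⟨x, hx⟩ := hex
  refine ⟨x, hx, ?_⟩
  intro y hy
  by_contra hne
  exact hz1 (hA z y x hz hne hy hx)

omit [Finite G] [Finite Ω] [FaithfulSMul G Ω] in
/-- an involution interchanging `v` and `w` is `τ σ^i`. -/
theorem cbasicb_form (h : CHyp v w τ j σ) {z : G} (hz : z * z = 1) (hzv : z • v = w) :
    ∃ i : ℤ, z = τ * σ ^ i := by
  have hzw : z • w = v := by
    rw [← hzv, ← mul_smul, hz, one_smul]
  have hτw : τ • w = v := by
    rw [← h.τv, ← mul_smul, h.ττ, one_smul]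
  have h1 : (τ * z) • v = v := by rw [mul_smul, hzv, hτw]
  have h2 : (τ * z) • w = w := by rw [mul_smul, hzw, h.τv]
  obtain ⟨i, hi⟩ := Subgroup.mem_zpowers_iff.mp (h.stab2 _ h1 h2)
  refine ⟨i, ?_⟩
  rw [hi, ← mul_assoc, h.ττ, one_mul]

omit [Finite G] [Finite Ω] [FaithfulSMul G Ω] in
theorem cbasicb_τpow (h : CHyp v w τ j σ) (i : ℤ) : τ * σ ^ i * τ = (σ ^ i)⁻¹ := by
  have hτ : τ⁻¹ = τ := inv_eq_of_mul_eq_one_right h.ττ
  have h1 : τ * σ ^ i * τ = (τ * σ * τ⁻¹) ^ i := by
    rw [conj_zpow, hτ]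
  rw [h1, hτ, h.τσ, inv_zpow]

omit [Finite G] [Finite Ω] [FaithfulSMul G Ω] in
theorem cbasicb_inv (h : CHyp v w τ j σ) {k z : G} (hv : k • v = v) (hw : k • w = w)
    (hz : z * z = 1) (hzv : z • v = w) : z * k * z = k⁻¹ := by
  obtain ⟨i, hi⟩ := cbasicb_form h hz hzv
  obtain ⟨l, hl⟩ := Subgroup.mem_zpowers_iff.mp (h.stab2 _ hv hw)
  have hτi := cbasicb_τpow h i
  have hz' : z = (σ ^ i)⁻¹ * τ := by
    rw [← hτi, mul_assoc, h.ττ, mul_one]; exact hi
  calc z * k * z = (τ * σ ^ i) * σ ^ l * ((σ ^ i)⁻¹ * τ) := by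
        rw [← hl]; nth_rewrite 1 [hi]; rw [hz']
    _ = τ * (σ ^ i * σ ^ l * (σ ^ i)⁻¹) * τ := by group
    _ = τ * σ ^ l * τ := by
        congr 2
        rw [← zpow_add, ← zpow_neg, ← zpow_add]
        congr 1
        ring
    _ = k⁻¹ := by rw [cbasicb_τpow h l, hl]

/-- Job CBasic-4. An involution interchanging two points inverts the elements fixing these two
points; and elements fixing two points have odd order.

Proof. Conjugate to `(v, w)`: let `z v = w`, `z z = 1`, `k` fixing `v, w`, so `k ∈ zpowers σ`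
(`stab2`). `τ z` fixes `v` (as `τ w = v`) and `w` (`z w = v`), so `τ z = σ ^ i`, `z = τ σ ^ i`, and
`z k z⁻¹ = τ σ^i k σ^(-i) τ = τ k τ = k⁻¹` (`τσ`). -/
theorem C_invert (h : CHyp v w τ j σ) {x y : Ω} (hxy : x ≠ y) {k : G} (hx : k • x = x)
    (hy : k • y = y) : Odd (orderOf k) ∧ ∀ z : G, z * z = 1 → z • x = y → z * k * z = k⁻¹ := by
  refine ⟨cbasicb_odd h hxy hx hy, ?_⟩
  intro z hz hzx
  obtain ⟨g, hg1, hg2⟩ := h.two x y v w hxy h.vw
  have h1 : (g * k * g⁻¹) • v = v := by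
    rw [← hg1, mul_smul, mul_smul, inv_smul_smul, hx]
  have h2 : (g * k * g⁻¹) • w = w := by
    rw [← hg2, mul_smul, mul_smul, inv_smul_smul, hy]
  have h3 : (g * z * g⁻¹) * (g * z * g⁻¹) = 1 := by
    calc (g * z * g⁻¹) * (g * z * g⁻¹) = g * (z * z) * g⁻¹ := by group
      _ = 1 := by rw [hz]; group
  have h4 : (g * z * g⁻¹) • v = w := by
    rw [← hg1, mul_smul, mul_smul, inv_smul_smul, hzx, hg2]
  have h5 := cbasicb_inv h h1 h2 h3 h4
  have h6 : g * (z * k * z) * g⁻¹ = g * k⁻¹ * g⁻¹ := by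
    calc g * (z * k * z) * g⁻¹ = (g * z * g⁻¹) * (g * k * g⁻¹) * (g * z * g⁻¹) := by group
      _ = (g * k * g⁻¹)⁻¹ := h5
      _ = g * k⁻¹ * g⁻¹ := by group
  exact mul_left_cancel (mul_right_cancel h6)

end Pool.Agent.H.MP_6268b4_co
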