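import Pool.Agent.H.MP_6268b4_co.CBasicB

/-!
Chiral case: first consequences of the hypotheses.
-/

namespace Pool.Agent.H.MP_6268b4_co

variable {G Ω : Type*} [Group G] [MulAction G Ω] [Finite G] [Finite Ω] [FaithfulSMul G Ω]
  {v w : Ω} {τ j σ : G}

/-- conjugation by `g` moves the involutions mapping `x` to `y` to those mapping `g x` to `g y`. -/
theorem cbasicc_conj [Fintype G] [DecidableEq G] [DecidableEq Ω] (g : G) (x y : Ω) :
    (Finset.univ.filter (fun z : G => (z ≠ 1 ∧ z * z = 1) ∧ z • x = y)).card =
    (Finset.univ.filter (fun z : G => (z ≠ 1 ∧ z * z = 1) ∧ z • (g • x) = g • y)).card := by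
  apply Finset.card_nbij' (fun z => g * z * g⁻¹) (fun z => g⁻¹ * z * g)
  · intro z hz
    simp only [Finset.coe_filter, Finset.mem_univ, true_and, Set.mem_setOf_eq] at hz ⊢
    obtain ⟨⟨h1, h2⟩, h3⟩ := hz
    refine ⟨⟨?_, ?_⟩, ?_⟩
    · intro hc
      apply h1
      have : g * z * g⁻¹ = g * 1 * g⁻¹ := by rw [hc]; group
      exact mul_left_cancel (mul_right_cancel this)
    · calc g * z * g⁻¹ * (g * z * g⁻¹) = g * (z * z) * g⁻¹ := by group
        _ = 1 := by rw [h2]; group
    · rw [mul_smul, mul_smul, inv_smul_smul, h3]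
  · intro z hz
    simp only [Finset.coe_filter, Finset.mem_univ, true_and, Set.mem_setOf_eq] at hz ⊢
    obtain ⟨⟨h1, h2⟩, h3⟩ := hz
    refine ⟨⟨?_, ?_⟩, ?_⟩
    · intro hc
      apply h1
      have : g⁻¹ * z * g = g⁻¹ * 1 * g := by rw [hc]; group
      exact mul_left_cancel (mul_right_cancel this)
    · calc g⁻¹ * z * g * (g⁻¹ * z * g) = g⁻¹ * (z * z) * g := by group
        _ = 1 := by rw [h2]; group
    · rw [mul_smul, mul_smul, h3, inv_smul_smul]
  · intro z _
    change g⁻¹ * (g * z * g⁻¹) * g = z
    group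
  · intro z _
    change g * (g⁻¹ * z * g) * g⁻¹ = z
    group

theorem cbasicc_vw [Fintype G] [DecidableEq G] [DecidableEq Ω] (h : CHyp v w τ j σ) :
    (Finset.univ.filter (fun z : G => (z ≠ 1 ∧ z * z = 1) ∧ z • v = w)).card = orderOf σ := by
  have h1 : (Finset.univ.filter (fun z : G => (z ≠ 1 ∧ z * z = 1) ∧ z • v = w)).card =
      (Finset.univ.filter (fun z : G => z ∈ Subgroup.zpowers σ)).card := by
    apply Finset.card_nbij' (fun z => τ * z) (fun z => τ * z)
    · intro z hz
      simp only [Finset.coe_filter, Finset.mem_univ, true_and, Set.mem_setOf_eq] at hz ⊢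
      obtain ⟨⟨-, h2⟩, h3⟩ := hz
      obtain ⟨i, hi⟩ := cbasicb_form h h2 h3
      rw [hi, ← mul_assoc, h.ττ, one_mul]
      exact Subgroup.zpow_mem_zpowers σ i
    · intro z hz
      simp only [Finset.coe_filter, Finset.mem_univ, true_and, Set.mem_setOf_eq] at hz ⊢
      obtain ⟨i, rfl⟩ := Subgroup.mem_zpowers_iff.mp hz
      have hv : (τ * σ ^ i) • v = w := by
        have : σ ^ i • v = v := by
          have hle : Subgroup.zpowers σ ≤ MulAction.stabilizer G v := by
            rw [Subgroup.zpowers_le]; exact h.σv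
          exact hle (Subgroup.zpow_mem_zpowers σ i)
        rw [mul_smul, this, h.τv]
      refine ⟨⟨?_, ?_⟩, hv⟩
      · intro hc
        rw [hc, one_smul] at hv
        exact h.vw hv
      · rw [← mul_assoc, cbasicb_τpow h i, inv_mul_cancel]
    · intro z _
      change τ * (τ * z) = z
      rw [← mul_assoc, h.ττ, one_mul]
    · intro z _
      change τ * (τ * z) = z
      rw [← mul_assoc, h.ττ, one_mul]
  rw [h1, ← Nat.card_zpowers σ, ← Fintype.card_subtype, Nat.card_eq_fintype_card]

/-- Job CBasic-5. There are exactly `s = orderOf σ` involutions fixing `v`.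

Proof. Let `N` be the number of involutions of `G`. Each moves exactly `n - 1` points
(`C_inv_fix`). For `x ≠ y` the number of involutions `z` with `z x = y` is `s`: for `(v, w)` they
are the `s` elements `τ σ ^ i` (see the proof of `C_invert`; `(τ σ^i)^2 = 1` by `τσ`, and
`τ σ^i v = w ≠ v`), in general conjugate. Counting pairs `(z, x)`, `z x ≠ x`:
`N (n - 1) = n (n - 1) s`, so `N = n s`. Each involution fixes exactly one point and by transitivity
all points are fixed by the same number of involutions, so this number is `s`. -/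
theorem C_card_inv (h : CHyp v w τ j σ) (hn : 4 ≤ Nat.card Ω) :
    Nat.card {z : G // z ≠ 1 ∧ z * z = 1 ∧ z • v = v} = orderOf σ := by
  classical
  have : Fintype Ω := Fintype.ofFinite Ω
  have : Fintype G := Fintype.ofFinite G
  set m := (Finset.univ.filter (fun z : G => (z ≠ 1 ∧ z * z = 1) ∧ z • v = v)).card with hm
  have hcard : Nat.card {z : G // z ≠ 1 ∧ z * z = 1 ∧ z • v = v} = m := by
    rw [Nat.card_eq_fintype_card, Fintype.card_subtype, hm]
    congr 1
    ext z
    simp only [Finset.mem_filter, Finset.mem_univ, true_and]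
    tauto
  rw [hcard]
  set F := (Finset.univ.filter (fun z : G => z ≠ 1 ∧ z * z = 1)) with hF
  have hfib : ∀ x y : Ω, F.filter (fun z => z • x = y) =
      Finset.univ.filter (fun z : G => (z ≠ 1 ∧ z * z = 1) ∧ z • x = y) := by
    intro x y
    rw [hF, Finset.filter_filter]
  -- first count
  have h1 : F.card = Nat.card Ω * m := by
    have e1 := Finset.sum_card_bipartiteAbove_eq_sum_card_bipartiteBelow
      (s := F) (t := (Finset.univ : Finset Ω)) (fun z x => z • x = x)
    have e2 : ∀ z ∈ F, ((Finset.univ : Finset Ω).bipartiteAbove (fun z x => z • x = x) z).card =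
        1 := by
      intro z hz
      rw [hF, Finset.mem_filter] at hz
      obtain ⟨x, hx, hu⟩ := (C_inv_fix h hn).2 z hz.2.2 hz.2.1
      rw [Finset.card_eq_one]
      refine ⟨x, ?_⟩
      ext y
      rw [Finset.mem_bipartiteAbove, Finset.mem_singleton]
      constructor
      · rintro ⟨-, hy⟩
        exact hu y hy
      · rintro rfl
        exact ⟨Finset.mem_univ _, hx⟩
    have e3 : ∀ x ∈ (Finset.univ : Finset Ω),
        (F.bipartiteBelow (fun z x => z • x = x) x).card = m := by
      intro x _
      have : F.bipartiteBelow (fun z x => z • x = x) x = F.filter (fun z => z • x = x) := rfl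
      rw [this, hfib, hm]
      obtain ⟨u, hux, -, -⟩ := cbasica_exists_ne hn x x x
      obtain ⟨g, hg, -⟩ := h.two v w x u h.vw hux.symm
      have e4 := cbasicc_conj g v v
      rw [hg] at e4
      exact e4.symm
    rw [Finset.sum_congr rfl e2, Finset.sum_congr rfl e3] at e1
    simpa [Nat.card_eq_fintype_card] using e1
  -- second count
  have h2 : F.card = m + (Nat.card Ω - 1) * orderOf σ := by
    have e1 : F.card = ∑ y : Ω, (F.filter (fun z => z • v = y)).card :=
      Finset.card_eq_sum_card_fiberwise (f := fun z => z • v) (t := Finset.univ)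
        (fun z _ => Finset.mem_univ _)
    rw [e1, ← Finset.add_sum_erase Finset.univ _ (Finset.mem_univ v)]
    congr 1
    · rw [hfib]
    · have e2 : ∀ y ∈ (Finset.univ : Finset Ω).erase v,
          (F.filter (fun z => z • v = y)).card = orderOf σ := by
        intro y hy
        have hy' := Finset.ne_of_mem_erase hy
        obtain ⟨g, hg1, hg2⟩ := h.two v w v y h.vw hy'.symm
        have e4 := cbasicc_conj g v w
        rw [hg1, hg2] at e4
        rw [hfib, ← e4, cbasicc_vw h]
      rw [Finset.sum_congr rfl e2, Finset.sum_const, Finset.card_erase_of_mem (Finset.mem_univ v),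
        Finset.card_univ, smul_eq_mul, Nat.card_eq_fintype_card]
  obtain ⟨n, hn'⟩ : ∃ n, Nat.card Ω = n + 1 := ⟨Nat.card Ω - 1, by omega⟩
  rw [h1, hn'] at h2
  have h3 : n * m = n * orderOf σ := by
    have : (n + 1) * m = m + n * m := by ring
    rw [this, Nat.add_sub_cancel] at h2
    exact Nat.add_left_cancel h2
  exact Nat.eq_of_mul_eq_mul_left (by omega) h3

end Pool.Agent.H.MP_6268b4_co
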