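import Pool.Agent.H.MP_6268b4_co.CBasicB

/-!
Chiral case: first consequences of the hypotheses.
-/

namespace Pool.Agent.H.MP_6268b4_co

variable {G Ω : Type*} [Group G] [MulAction G Ω] [Finite G] [Finite Ω] [FaithfulSMul G Ω]
  {v w : Ω} {τ j σ : G}

omit [MulAction G Ω] [Finite G] [Finite Ω] [FaithfulSMul G Ω] in
/-- conjugation of the powers of a product of two involutions -/
theorem cbasicd_pow {z k : G} (hz : z * z = 1) (hk : k * k = 1) (l : ℕ) :
    z * (z * k) ^ l * z = ((z * k) ^ l)⁻¹ ∧ k * (z * k) ^ l * k = ((z * k) ^ l)⁻¹ := by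
  have hz' : z⁻¹ = z := inv_eq_of_mul_eq_one_right hz
  have hk' : k⁻¹ = k := inv_eq_of_mul_eq_one_right hk
  have e : (z * k)⁻¹ = k * z := by rw [mul_inv_rev, hz', hk']
  constructor
  · calc z * (z * k) ^ l * z = z * (z * k) ^ l * z⁻¹ := by rw [hz']
      _ = (z * (z * k) * z⁻¹) ^ l := by rw [conj_pow]
      _ = (k * z) ^ l := by rw [hz', ← mul_assoc, hz, one_mul]
      _ = ((z * k) ^ l)⁻¹ := by rw [← e, inv_pow]
  · calc k * (z * k) ^ l * k = k * (z * k) ^ l * k⁻¹ := by rw [hk']
      _ = (k * (z * k) * k⁻¹) ^ l := by rw [conj_pow]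
      _ = (k * z) ^ l := by rw [mul_assoc, mul_assoc, mul_inv_cancel, mul_one]
      _ = ((z * k) ^ l)⁻¹ := by rw [← e, inv_pow]

/-- involutions with different fixed points are conjugate -/
theorem cbasicd_ne (h : CHyp v w τ j σ) (hn : 4 ≤ Nat.card Ω) {z k : G} (hz : z * z = 1)
    (hz1 : z ≠ 1) (hk : k * k = 1) (hk1 : k ≠ 1) {x y : Ω} (hx : z • x = x) (hy : k • y = y)
    (hxy : x ≠ y) : IsConj z k := by
  obtain ⟨hA, hB⟩ := C_inv_fix h hn
  have hodd : Odd (orderOf (z * k)) := by
    by_contra hne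
    rw [Nat.not_odd_iff_even] at hne
    obtain ⟨l, hl⟩ := hne
    have hpos : 0 < orderOf (z * k) := orderOf_pos _
    have hm1 : (z * k) ^ l ≠ 1 := pow_ne_one_of_lt_orderOf (by omega) (by omega)
    have hm2 : (z * k) ^ l * (z * k) ^ l = 1 := by
      rw [← pow_add, ← hl, pow_orderOf_eq_one]
    obtain ⟨h1, h2⟩ := cbasicd_pow hz hk l
    generalize (z * k) ^ l = m at hm1 hm2 h1 h2
    have hmi : m⁻¹ = m := inv_eq_of_mul_eq_one_right hm2
    rw [hmi] at h1 h2
    have hzm : z * m = m * z := by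
      calc z * m = z * m * (z * z) := by rw [hz, mul_one]
        _ = z * m * z * z := by rw [mul_assoc (z * m)]
        _ = m * z := by rw [h1]
    have hkm : k * m = m * k := by
      calc k * m = k * m * (k * k) := by rw [hk, mul_one]
        _ = k * m * k * k := by rw [mul_assoc (k * m)]
        _ = m * k := by rw [h2]
    have hmx : m • x = x := by
      refine (hB z hz hz1).unique ?_ hx
      rw [← mul_smul, hzm, mul_smul, hx]
    have hmy : m • y = y := by
      refine (hB k hk hk1).unique ?_ hy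
      rw [← mul_smul, hkm, mul_smul, hy]
    exact hm1 (hA m x y hm2 hxy hmx hmy)
  obtain ⟨c, -, hc⟩ := dih_refl hz hk hodd (Subgroup.subset_closure (Set.mem_insert z {k})) hz hz1
  exact (isConj_iff.2 ⟨c, hc.symm⟩).symm

/-- Job CBasic-6. All involutions are conjugate; two involutions fixing `v` are conjugate by an
element fixing `v`.

Proof. Let `z, k` be involutions with different fixed points `x`, `y`. `z * k` has odd order:
otherwise a power `m` of `z * k` is an involution commuting with `z` and `k` (if `orderOf (zk) = 2l`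
take `m = (zk)^l`; `z m z = m⁻¹ = m`); `m` commutes with `z`, so it maps the unique fixed point `x`
of `z` to a fixed point of `z`: `m x = x`; the same for `y`; but then `m = 1` by `C_inv_fix`,
contradiction. So `z` and `k` are conjugate (`dih_refl` with `a = z`, `b = k`, applied to the
element `z` of `closure {z, k}`). If `z, z'` have the same fixed point, both are conjugate to an
involution `k` with another fixed point (a conjugate of `z`). If `z, z'` both fix `v` and
`g z g⁻¹ = z'`, then `g v` is fixed by `z'`, so `g v = v`. -/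
theorem C_conj (h : CHyp v w τ j σ) (hn : 4 ≤ Nat.card Ω) {z z' : G} (hz : z * z = 1)
    (hz1 : z ≠ 1) (hz' : z' * z' = 1) (hz1' : z' ≠ 1) :
    IsConj z z' ∧ (z • v = v → z' • v = v → ∃ g : G, g • v = v ∧ g * z * g⁻¹ = z') := by
  obtain ⟨-, hB⟩ := C_inv_fix h hn
  obtain ⟨x, hx, -⟩ := hB z hz hz1
  obtain ⟨x', hx', -⟩ := hB z' hz' hz1'
  have hconj : IsConj z z' := by
    by_cases hxx : x = x'
    · subst hxx
      obtain ⟨y, hy⟩ : ∃ y : Ω, x ≠ y := by
        by_cases hxv : x = v
        · exact ⟨w, by rw [hxv]; exact h.vw⟩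
        · exact ⟨v, hxv⟩
      obtain ⟨g, hg, -⟩ := h.two x y y x hy hy.symm
      have hk : g * z * g⁻¹ * (g * z * g⁻¹) = 1 := by
        rw [conj_mul, hz, mul_one, mul_inv_cancel]
      have hk1 : g * z * g⁻¹ ≠ 1 := by
        intro h1
        exact hz1 (conj_eq_one_iff.1 h1)
      have hky : (g * z * g⁻¹) • y = y := by
        rw [← hg, ← mul_smul, inv_mul_cancel_right, mul_smul, hx]
      have h1 := cbasicd_ne h hn hz' hz1' hk hk1 hx' hky hy
      exact (isConj_iff.2 ⟨g, rfl⟩).trans h1.symm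
    · exact cbasicd_ne h hn hz hz1 hz' hz1' hx hx' hxx
  refine ⟨hconj, fun hv hv' => ?_⟩
  obtain ⟨g, hg⟩ := isConj_iff.1 hconj
  refine ⟨g, ?_, hg⟩
  refine (hB z' hz' hz1').unique ?_ hv'
  rw [← hg, ← mul_smul, inv_mul_cancel_right, mul_smul, hv]

end Pool.Agent.H.MP_6268b4_co
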