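import Pool.Agent.H.MP_6268b4_co.CBasicC
import Pool.Agent.H.MP_6268b4_co.CBasicD

/-!
Chiral case: first consequences of the hypotheses.
-/

namespace Pool.Agent.H.MP_6268b4_co

variable {G Ω : Type*} [Group G] [MulAction G Ω] [Finite G] [Finite Ω] [FaithfulSMul G Ω]
  {v w : Ω} {τ j σ : G}

/-- Job CBasic-7. Let `z` be an involution fixing `v`. The centralizer of `z` fixes `v`, has order
`n - 1` and only the identity of it fixes another point.

Proof. `g z = z g` gives `g v = v` as above. If moreover `g x = x`, `x ≠ v`, then `y = z x ≠ x`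
is also fixed by `g`, `z` interchanges `x, y`, so `z g z = g⁻¹` (`C_invert`), so `g = g⁻¹`,
`g g = 1` and `g = 1` (fixes `x ≠ y`, `C_inv_fix`). The stabilizer `G_v` of `v` acts by conjugation
transitively (`C_conj`) on the `s` involutions fixing `v` (`C_card_inv`), so the centralizer of `z`
(which is contained in `G_v`) has order `Nat.card G_v / s = n - 1` (`C_card`). -/
theorem C_centralizer (h : CHyp v w τ j σ) (hn : 4 ≤ Nat.card Ω) {z : G} (hz : z * z = 1)
    (hz1 : z ≠ 1) (hzv : z • v = v) :
    (∀ g : G, g * z = z * g → g • v = v) ∧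
    (∀ (g : G) (x : Ω), g * z = z * g → x ≠ v → g • x = x → g = 1) ∧
    Nat.card (Subgroup.centralizer ({z} : Set G)) = Nat.card Ω - 1 := by
  have h1 : ∀ g : G, g * z = z * g → g • v = v := by
    intro g hg
    obtain ⟨x, hx, hux⟩ := (C_inv_fix h hn).2 z hz hz1
    have hv : v = x := hux v hzv
    have hgv : g • v = x := by
      apply hux
      show z • g • v = g • v
      rw [← mul_smul, ← hg, mul_smul, hzv]
    rw [hgv, hv]
  refine ⟨h1, ?_, ?_⟩
  · intro g x hg hx hgx
    obtain ⟨x0, hx0, hux⟩ := (C_inv_fix h hn).2 z hz hz1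
    have hv : v = x0 := hux v hzv
    have hne : x ≠ z • x := by
      intro h2
      apply hx
      rw [hv]
      exact hux x h2.symm
    have hgy : g • z • x = z • x := by
      rw [← mul_smul, hg, mul_smul, hgx]
    have h3 := (C_invert h hne hgx hgy).2 z hz rfl
    have h4 : z * g * z = g := by
      rw [← hg, mul_assoc, hz, mul_one]
    rw [h4] at h3
    have h5 : g * g = 1 := mul_eq_one_iff_eq_inv.2 h3
    exact (C_inv_fix h hn).1 g x (z • x) h5 hne hgx hgy
  · -- orbit-stabilizer by an explicit bijection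
    have hex : ∀ y : {y : G // y ≠ 1 ∧ y * y = 1 ∧ y • v = v},
        ∃ g : G, g • v = v ∧ g * z * g⁻¹ = y := fun y =>
      (C_conj h hn hz hz1 y.2.2.1 y.2.1).2 hzv y.2.2.2
    choose c hcv hcz using hex
    have hcomm : ∀ g : Subgroup.centralizer ({z} : Set G), (g : G) * z = z * (g : G) := by
      intro g
      exact (Subgroup.mem_centralizer_iff.1 g.2 z rfl).symm
    let Φ : {y : G // y ≠ 1 ∧ y * y = 1 ∧ y • v = v} × Subgroup.centralizer ({z} : Set G) →
        MulAction.stabilizer G v := fun p => ⟨c p.1 * (p.2 : G), by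
      rw [MulAction.mem_stabilizer_iff, mul_smul, h1 _ (hcomm p.2), hcv]⟩
    have hΦ : Function.Bijective Φ := by
      constructor
      · rintro ⟨y, g⟩ ⟨y', g'⟩ he
        have he' : c y * (g : G) = c y' * (g' : G) := congrArg Subtype.val he
        have key : ∀ (y : {y : G // y ≠ 1 ∧ y * y = 1 ∧ y • v = v})
            (g : Subgroup.centralizer ({z} : Set G)),
            (c y * (g : G)) * z * (c y * (g : G))⁻¹ = y := by
          intro y g
          calc (c y * (g : G)) * z * (c y * (g : G))⁻¹
              = c y * ((g : G) * z) * (g : G)⁻¹ * (c y)⁻¹ := by group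
            _ = c y * (z * (g : G)) * (g : G)⁻¹ * (c y)⁻¹ := by rw [hcomm g]
            _ = c y * z * (c y)⁻¹ := by group
            _ = y := hcz y
        have hy : y = y' := by
          apply Subtype.ext
          rw [← key y g, ← key y' g', he']
        subst hy
        have hg : (g : G) = (g' : G) := mul_left_cancel he'
        rw [Subtype.ext hg]
      · intro k
        have hk : (k : G) • v = v := k.2
        have hy1 : (k : G) * z * (k : G)⁻¹ ≠ 1 := by
          intro h2
          apply hz1
          rwa [mul_inv_eq_one, mul_eq_left] at h2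
        have hy2 : ((k : G) * z * (k : G)⁻¹) * ((k : G) * z * (k : G)⁻¹) = 1 := by
          calc ((k : G) * z * (k : G)⁻¹) * ((k : G) * z * (k : G)⁻¹)
              = (k : G) * (z * z) * (k : G)⁻¹ := by group
            _ = 1 := by rw [hz, mul_one, mul_inv_cancel]
        have hk' : (k : G)⁻¹ • v = v := by
          rw [inv_smul_eq_iff, hk]
        have hy3 : ((k : G) * z * (k : G)⁻¹) • v = v := by
          rw [mul_smul, mul_smul, hk', hzv, hk]
        refine ⟨(⟨(k : G) * z * (k : G)⁻¹, hy1, hy2, hy3⟩, ⟨(c ⟨(k : G) * z * (k : G)⁻¹, hy1, hy2,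
          hy3⟩)⁻¹ * (k : G), ?_⟩), ?_⟩
        · rw [Subgroup.mem_centralizer_iff]
          intro z' hz'
          rw [Set.mem_singleton_iff] at hz'
          subst hz'
          have h6 := hcz ⟨(k : G) * z' * (k : G)⁻¹, hy1, hy2, hy3⟩
          have h7 : c ⟨(k : G) * z' * (k : G)⁻¹, hy1, hy2, hy3⟩ * z' *
              (c ⟨(k : G) * z' * (k : G)⁻¹, hy1, hy2, hy3⟩)⁻¹ = (k : G) * z' * (k : G)⁻¹ := h6
          generalize c ⟨(k : G) * z' * (k : G)⁻¹, hy1, hy2, hy3⟩ = d at h7
          calc z' * (d⁻¹ * (k : G)) = d⁻¹ * (d * z' * d⁻¹) * (k : G) := by group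
            _ = d⁻¹ * ((k : G) * z' * (k : G)⁻¹) * (k : G) := by rw [h7]
            _ = d⁻¹ * (k : G) * z' := by group
        · apply Subtype.ext
          show c _ * ((c _)⁻¹ * (k : G)) = (k : G)
          rw [mul_inv_cancel_left]
    have hcard := Nat.card_congr (Equiv.ofBijective Φ hΦ)
    rw [Nat.card_prod, C_card_inv h hn, (C_card h hn).1, mul_comm] at hcard
    have hs : 0 < orderOf σ := by
      have := (C_basic h hn).2.2
      omega
    exact Nat.eq_of_mul_eq_mul_right hs hcard

end Pool.Agent.H.MP_6268b4_co
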