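import Pool.Agent.H.MP_6268b4_co.CBasicE

/-!
Chiral case: first consequences of the hypotheses.
-/

namespace Pool.Agent.H.MP_6268b4_co

variable {G Ω : Type*} [Group G] [MulAction G Ω] [Finite G] [Finite Ω] [FaithfulSMul G Ω]
  {v w : Ω} {τ j σ : G}

omit [Finite G] [Finite Ω] [FaithfulSMul G Ω] in
theorem cbasicf_fix (k : G) (x : Ω) (hk : k • x = x) (g : G) (hg : g ∈ Subgroup.zpowers k) :
    g • x = x := by
  have h1 : k ∈ MulAction.stabilizer G x := hk
  have h2 : Subgroup.zpowers k ≤ MulAction.stabilizer G x := by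
    rw [Subgroup.zpowers_le]
    exact h1
  exact h2 hg

theorem cbasicf_first (h : CHyp v w τ j σ) (hn : 4 ≤ Nat.card Ω) (z : G) (hz : z * z = 1)
    (hz1 : z ≠ 1) (hzv : z • v = v) : ∃ i : ℤ, z = σ ^ i * j * (σ ^ i)⁻¹ := by
  obtain ⟨hj1, -, -⟩ := C_basic h hn
  obtain ⟨-, hcen, -⟩ := C_centralizer h hn h.jj hj1 h.jv
  let f : Subgroup.zpowers σ → {z : G // z ≠ 1 ∧ z * z = 1 ∧ z • v = v} := fun g =>
    ⟨g.1 * j * g.1⁻¹, by
      refine ⟨?_, ?_, ?_⟩
      · intro h1
        apply hj1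
        have h2 : j = g.1⁻¹ * (g.1 * j * g.1⁻¹) * g.1 := by group
        rw [h2, h1]
        group
      · calc g.1 * j * g.1⁻¹ * (g.1 * j * g.1⁻¹) = g.1 * (j * j) * g.1⁻¹ := by group
          _ = 1 := by rw [h.jj]; group
      · have h1 : g.1 • v = v := cbasicf_fix σ v h.σv g.1 g.2
        rw [mul_smul, mul_smul, smul_eq_iff_eq_inv_smul, inv_smul_eq_iff.mpr h1.symm, h.jv]⟩
  have hinj : Function.Injective f := by
    rintro ⟨g, hg⟩ ⟨g', hg'⟩ hgg
    have h1 : g * j * g⁻¹ = g' * j * g'⁻¹ := congrArg Subtype.val hgg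
    have h2 : (g'⁻¹ * g) * j = j * (g'⁻¹ * g) := by
      calc (g'⁻¹ * g) * j = g'⁻¹ * (g * j * g⁻¹) * g := by group
        _ = g'⁻¹ * (g' * j * g'⁻¹) * g := by rw [h1]
        _ = j * (g'⁻¹ * g) := by group
    have h3 : (g'⁻¹ * g) • w = w :=
      cbasicf_fix σ w h.σw _ ((Subgroup.zpowers σ).mul_mem ((Subgroup.zpowers σ).inv_mem hg') hg)
    have h4 := hcen _ w h2 h.vw.symm h3
    have h5 : g' = g := by
      rw [inv_mul_eq_one] at h4
      exact h4
    exact Subtype.ext h5.symm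
  have hcard : Nat.card {z : G // z ≠ 1 ∧ z * z = 1 ∧ z • v = v} ≤ Nat.card (Subgroup.zpowers σ) := by
    rw [C_card_inv h hn, Nat.card_zpowers]
  obtain ⟨⟨g, hg⟩, hfg⟩ := (hinj.bijective_of_nat_card_le hcard).2 ⟨z, hz1, hz, hzv⟩
  obtain ⟨i, hi⟩ := Subgroup.mem_zpowers_iff.mp hg
  refine ⟨i, ?_⟩
  rw [hi]
  exact (congrArg Subtype.val hfg).symm

theorem cbasicf_second (h : CHyp v w τ j σ) (hn : 4 ≤ Nat.card Ω) (z k : G) (hz : z * z = 1)
    (hz1 : z ≠ 1) (hzv : z • v = v) (hkv : k • v = v) (hkw : k • w = w)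
    (hzk : z * k * z⁻¹ ∈ Subgroup.zpowers k) : k = 1 := by
  have hkσ : k ∈ Subgroup.zpowers σ := h.stab2 k hkv hkw
  have hH : Subgroup.zpowers k ≤ Subgroup.zpowers σ := by
    rw [Subgroup.zpowers_le]
    exact hkσ
  have hzi : z⁻¹ = z := inv_eq_of_mul_eq_one_left hz
  -- the conditions for the two generators
  have hPz : ∀ m, m ∈ Subgroup.zpowers k ↔ z * m * z⁻¹ ∈ Subgroup.zpowers k := by
    have hfor : ∀ m, m ∈ Subgroup.zpowers k → z * m * z⁻¹ ∈ Subgroup.zpowers k := by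
      intro m hm
      obtain ⟨i, rfl⟩ := Subgroup.mem_zpowers_iff.mp hm
      rw [← conj_zpow]
      exact (Subgroup.zpowers k).zpow_mem hzk i
    intro m
    refine ⟨hfor m, fun hm => ?_⟩
    have h1 := hfor _ hm
    have h2 : z * (z * m * z⁻¹) * z⁻¹ = m := by
      rw [hzi]
      calc z * (z * m * z) * z = (z * z) * m * (z * z) := by group
        _ = m := by rw [hz]; group
    rwa [h2] at h1
  have hcomm : ∀ m ∈ Subgroup.zpowers σ, ∀ i : ℤ, σ ^ i * m * (σ ^ i)⁻¹ = m := by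
    intro m hm i
    obtain ⟨l, rfl⟩ := Subgroup.mem_zpowers_iff.mp hm
    rw [← zpow_add, add_comm, zpow_add]
    group
  have hPσ : ∀ (i : ℤ) (m : G), m ∈ Subgroup.zpowers k ↔
      σ ^ i * m * (σ ^ i)⁻¹ ∈ Subgroup.zpowers k := by
    intro i m
    constructor
    · intro hm
      rw [hcomm m (hH hm) i]
      exact hm
    · intro hm
      have h1 := hcomm _ (hH hm) (-i)
      have h2 : σ ^ (-i) * (σ ^ i * m * (σ ^ i)⁻¹) * (σ ^ (-i))⁻¹ = m := by group
      rw [h2] at h1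
      rw [h1]
      exact hm
  obtain ⟨i, hi⟩ := cbasicf_first h hn z hz hz1 hzv
  have hj : j = (σ ^ (-i)) * z * (σ ^ i) := by
    rw [hi]
    group
  have hPj : ∀ m, m ∈ Subgroup.zpowers k ↔ j * m * j⁻¹ ∈ Subgroup.zpowers k := by
    intro m
    rw [hPσ i m, hPz, hPσ (-i)]
    have h1 : σ ^ (-i) * (z * (σ ^ i * m * (σ ^ i)⁻¹) * z⁻¹) * (σ ^ (-i))⁻¹ = j * m * j⁻¹ := by
      rw [hj]
      group
    rw [h1]
  have hP : ∀ u ∈ Subgroup.closure {j, σ}, ∀ m, m ∈ Subgroup.zpowers k ↔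
      u * m * u⁻¹ ∈ Subgroup.zpowers k := by
    intro u hu
    induction hu using Subgroup.closure_induction with
    | mem u hu =>
      rcases hu with rfl | hu
      · exact hPj
      · have hu' : u = σ := hu
        subst hu'
        intro m
        have := hPσ 1 m
        rwa [zpow_one] at this
    | one => intro m; simp
    | mul a b _ _ ha hb =>
      intro m
      rw [hb m, ha]
      have h1 : a * (b * m * b⁻¹) * a⁻¹ = a * b * m * (a * b)⁻¹ := by group
      rw [h1]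
    | inv a _ ha =>
      intro m
      rw [ha (a⁻¹ * m * a⁻¹⁻¹)]
      have h1 : a * (a⁻¹ * m * a⁻¹⁻¹) * a⁻¹ = m := by group
      rw [h1]
  have hall : ∀ x : Ω, k • x = x := by
    intro x
    by_cases hx : x = v
    · rw [hx, hkv]
    · obtain ⟨u, hu1, hu2⟩ := h.two v w v x h.vw (Ne.symm hx)
      have hu := (hP u⁻¹ ((Subgroup.closure {j, σ}).inv_mem (h.stab1 u hu1)) k).mp
        (Subgroup.mem_zpowers k)
      have h1 := cbasicf_fix k w hkw _ hu
      rw [inv_inv, mul_smul, mul_smul, hu2, inv_smul_eq_iff, hu2] at h1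
      exact h1
  apply FaithfulSMul.eq_of_smul_eq_smul (α := Ω)
  intro x
  rw [hall x, one_smul]

/-- Job CBasic-8. An involution `z` fixing `x` does not normalize `zpowers k` for any `k ≠ 1` fixing
`x` and another point `y`; and every involution fixing `v` is a conjugate of `j` by a power of `σ`.

Proof. The elements `σ^i j σ^(-i)`, `0 ≤ i < s`, are `s` different involutions fixing `v`: if
`σ^i` commutes with `j` then `σ^i = 1` by `C_centralizer` (it fixes `w ≠ v`). So by `C_card_inv`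
they are all the involutions fixing `v`. For the first part conjugate `(x, y)` to `(v, w)`; so let
`z` fix `v` and let `k ∈ zpowers σ`. `z = σ^i j σ^(-i)`, so `closure {z, σ} = closure {j, σ}` = the
stabilizer of `v`. If `z k z⁻¹ ∈ zpowers k` then `zpowers k` is normalized by `z` and by `σ`, so by
the stabilizer of `v`. For `x' ≠ v` take `g` with `g v = v`, `g w = x'`: `g⁻¹ k g ∈ zpowers k`
fixes `w`, so `k` fixes `x'`. So `k` fixes all points and `k = 1`. -/
theorem C_not_normalize (h : CHyp v w τ j σ) (hn : 4 ≤ Nat.card Ω) :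
    (∀ z : G, z * z = 1 → z ≠ 1 → z • v = v → ∃ i : ℤ, z = σ ^ i * j * (σ ^ i)⁻¹) ∧
    (∀ (z k : G) (x y : Ω), z * z = 1 → z ≠ 1 → x ≠ y → z • x = x → k • x = x → k • y = y →
      k ≠ 1 → z * k * z⁻¹ ∉ Subgroup.zpowers k) := by
  refine ⟨cbasicf_first h hn, ?_⟩
  intro z k x y hz hz1 hxy hzx hkx hky hk1 hmem
  apply hk1
  obtain ⟨g, hg1, hg2⟩ := h.two v w x y h.vw hxy
  have hfix : ∀ (a : G) (p q : Ω), g • p = q → a • q = q → (g⁻¹ * a * g) • p = p := by
    intro a p q hpq haq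
    rw [mul_smul, mul_smul, hpq, haq, ← hpq, inv_smul_smul]
  have hk : g⁻¹ * k * g = 1 := by
    apply cbasicf_second h hn (g⁻¹ * z * g) (g⁻¹ * k * g)
    · calc g⁻¹ * z * g * (g⁻¹ * z * g) = g⁻¹ * (z * z) * g := by group
        _ = 1 := by rw [hz]; group
    · intro h1
      apply hz1
      have h2 : z = g * (g⁻¹ * z * g) * g⁻¹ := by group
      rw [h2, h1]
      group
    · exact hfix z v x hg1 hzx
    · exact hfix k v x hg1 hkx
    · exact hfix k w y hg2 hky
    · obtain ⟨i, hi⟩ := Subgroup.mem_zpowers_iff.mp hmem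
      refine Subgroup.mem_zpowers_iff.mpr ⟨i, ?_⟩
      have h1 : (g⁻¹ * k * g) ^ i = g⁻¹ * k ^ i * g := by
        have := conj_zpow (i := i) (a := g⁻¹) (b := k)
        rwa [inv_inv] at this
      rw [h1, hi]
      group
  have h2 : k = g * (g⁻¹ * k * g) * g⁻¹ := by group
  rw [h2, hk]
  group

end Pool.Agent.H.MP_6268b4_co
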