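import Pool.Agent.H.MP_6268b4_co.CMainC

/-!
Chiral case: coordinates in a finite field of characteristic 2.
-/

namespace Pool.Agent.H.MP_6268b4_co

/-- The elements of square `1` fixing `v`. -/
def ccoorda_A {G Ω : Type} [Group G] [MulAction G Ω] (v : Ω)
    (hc : ∀ z z' : G, z * z = 1 → z' * z' = 1 → z • v = v → z' • v = v → z * z' = z' * z) :
    Subgroup G where
  carrier := {g | g * g = 1 ∧ g • v = v}
  mul_mem' := by
    rintro a b ⟨ha, hav⟩ ⟨hb, hbv⟩
    refine ⟨?_, by rw [mul_smul, hbv, hav]⟩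
    have h1 := hc a b ha hb hav hbv
    calc a * b * (a * b) = a * (b * a) * b := by group
      _ = a * (a * b) * b := by rw [h1]
      _ = (a * a) * (b * b) := by group
      _ = 1 := by rw [ha, hb, one_mul]
  one_mem' := ⟨one_mul 1, one_smul G v⟩
  inv_mem' := by
    rintro a ⟨ha, hav⟩
    have h1 : a⁻¹ = a := inv_eq_of_mul_eq_one_left ha
    rw [h1]
    exact ⟨ha, hav⟩

/-- Conjugation by `σ`. -/
def ccoorda_conj {G Ω : Type} [Group G] [MulAction G Ω] (v : Ω)
    (hc : ∀ z z' : G, z * z = 1 → z' * z' = 1 → z • v = v → z' • v = v → z * z' = z' * z)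
    (σ : G) (hσ : σ • v = v) : ccoorda_A v hc →* ccoorda_A v hc where
  toFun a := ⟨σ * a * σ⁻¹, by
    obtain ⟨a, ha, hav⟩ := a
    refine ⟨?_, ?_⟩
    · change σ * a * σ⁻¹ * (σ * a * σ⁻¹) = 1
      calc σ * a * σ⁻¹ * (σ * a * σ⁻¹) = σ * (a * a) * σ⁻¹ := by group
        _ = 1 := by rw [ha]; group
    · change (σ * a * σ⁻¹) • v = v
      have h1 : σ⁻¹ • v = v := by rw [inv_smul_eq_iff, hσ]
      rw [mul_smul, mul_smul, h1, hav, hσ]⟩
  map_one' := by
    apply Subtype.ext
    simp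
  map_mul' a b := by
    apply Subtype.ext
    simp [mul_assoc]

/-- natural number exponents -/
theorem ccoorda_nat {G : Type} [Group G] [Finite G] (σ : G) (i : ℤ) : ∃ k : ℕ, σ ^ i = σ ^ k := by
  have h1 : σ ^ i ∈ Subgroup.zpowers σ := ⟨i, rfl⟩
  have h2 : σ ^ i ∈ Submonoid.powers σ := mem_powers_iff_mem_zpowers.2 h1
  obtain ⟨k, hk⟩ := h2
  exact ⟨k, hk.symm⟩

/-- coordinates in a finite domain -/
theorem ccoorda_ring {G Ω : Type} [Group G] [MulAction G Ω] [Finite G] [Finite Ω]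
    [FaithfulSMul G Ω] {v w : Ω} {τ j σ : G} (h : CHyp v w τ j σ) (hn : 4 ≤ Nat.card Ω) :
    ∃ (F : Type) (_ : Ring F) (_ : IsDomain F) (_ : Finite F) (ω : F) (ψ : Option F → Ω),
      Function.Bijective ψ ∧ (2 : F) = 0 ∧ (∀ z : F, z ≠ 0 → ∃ i : ℕ, z = ω ^ i) ∧
      ψ none = v ∧ ψ (some 0) = w ∧ (∀ z : F, σ • ψ (some z) = ψ (some (ω * z))) ∧
      (∀ z : F, j • ψ (some z) = ψ (some (z + 1))) := by
  classical
  obtain ⟨hcard, hc⟩ := C_card_eq h hn
  obtain ⟨hj1, hjw, hs3⟩ := C_basic h hn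
  obtain ⟨hreg, -⟩ := C_regular h hn
  obtain ⟨hinv, -⟩ := C_not_normalize h hn
  letI : CommGroup (ccoorda_A v hc) :=
    { (inferInstance : Group (ccoorda_A v hc)) with
      mul_comm := fun a b => Subtype.ext (hc a b a.2.1 b.2.1 a.2.2 b.2.2) }
  let V := Additive (ccoorda_A v hc)
  let φ : AddMonoid.End V := MonoidHom.toAdditive (ccoorda_conj v hc σ h.σv)
  have hφ : ∀ x : V, ((φ x).toMul : G) = σ * (x.toMul : G) * σ⁻¹ := fun x => rfl
  let J : V := Additive.ofMul ⟨j, h.jj, h.jv⟩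
  have hJ : (J.toMul : G) = j := rfl
  have hφn : ∀ (k : ℕ) (x : V), (((φ ^ k) x).toMul : G) = σ ^ k * (x.toMul : G) * (σ ^ k)⁻¹ := by
    intro k
    induction k with
    | zero => intro x; simp
    | succ k ih =>
      intro x
      have h1 : (φ ^ (k + 1)) x = φ ((φ ^ k) x) := by rw [pow_succ']; rfl
      rw [h1, hφ, ih, pow_succ']
      group
  have hext : ∀ x y : V, (x.toMul : G) = (y.toMul : G) → x = y := fun x y hxy =>
    Additive.toMul.injective (Subtype.ext hxy)
  have h0 : ((0 : V).toMul : G) = 1 := rfl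
  have htr0 : ∀ x : V, x ≠ 0 → ∃ k : ℕ, x = (φ ^ k) J := by
    intro x hx
    have hx1 : (x.toMul : G) ≠ 1 := fun hh => hx (hext _ _ (hh.trans h0.symm))
    obtain ⟨i, hi⟩ := hinv (x.toMul : G) x.toMul.2.1 hx1 x.toMul.2.2
    obtain ⟨k, hk⟩ := ccoorda_nat σ i
    refine ⟨k, hext _ _ ?_⟩
    rw [hφn, hJ, hi, hk]
  let F := Subring.closure ({φ} : Set (AddMonoid.End V))
  have hcomm : ∀ r ∈ F, r * φ = φ * r := by
    intro r hr
    have h1 : F ≤ Subring.centralizer ({φ} : Set (AddMonoid.End V)) := by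
      rw [Subring.closure_le]
      rintro _ rfl
      rw [SetLike.mem_coe, Subring.mem_centralizer_iff]
      rintro _ rfl
      rfl
    have h2 := Subring.mem_centralizer_iff.1 (h1 hr) φ rfl
    exact h2.symm
  have hcommk : ∀ r ∈ F, ∀ k : ℕ, r * φ ^ k = φ ^ k * r := by
    intro r hr k
    exact ((show Commute r φ from hcomm r hr).pow_right k).eq
  have hJ0 : J ≠ 0 := by
    intro hh
    apply hj1
    rw [← hJ, hh, h0]
  have hkerJ : ∀ r ∈ F, r J = 0 → r = 0 := by
    intro r hr hrJ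
    refine DFunLike.ext _ _ fun x => ?_
    by_cases hx : x = 0
    · rw [hx]
      exact (map_zero r).trans (map_zero (0 : AddMonoid.End V)).symm
    · obtain ⟨k, rfl⟩ := htr0 x hx
      have h1 : r ((φ ^ k) J) = (r * φ ^ k) J := rfl
      have h2 : (φ ^ k * r) J = (φ ^ k) (r J) := rfl
      rw [h1, hcommk r hr k, h2, hrJ]
      exact map_zero (φ ^ k)
  have hker : ∀ r ∈ F, ∀ x : V, x ≠ 0 → r x = 0 → r = 0 := by
    intro r hr x hx hrx
    obtain ⟨k, rfl⟩ := htr0 x hx
    refine hkerJ r hr ?_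
    have h1 : r ((φ ^ k) J) = (r * φ ^ k) J := rfl
    have h1' : (φ ^ k * r) J = (φ ^ k) (r J) := rfl
    rw [h1, hcommk r hr k, h1'] at hrx
    refine hext _ _ ?_
    have h2 : (((φ ^ k) (r J)).toMul : G) = ((0 : V).toMul : G) := by rw [hrx]
    rw [hφn, h0] at h2
    rw [h0]
    have h3 : ((r J).toMul : G) = (σ ^ k)⁻¹ * (σ ^ k * ((r J).toMul : G) * (σ ^ k)⁻¹) * σ ^ k := by
      group
    rw [h3, h2]
    group
  have hfinV : Finite V := by
    have : Finite (ccoorda_A v hc) := inferInstance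
    exact this
  have hfinE : Finite (AddMonoid.End V) :=
    Finite.of_injective (fun f : AddMonoid.End V => (f : V → V)) DFunLike.coe_injective
  have hfin : Finite F := inferInstance
  have hnt : Nontrivial F := by
    refine ⟨⟨0, 1, fun hh => hJ0 ?_⟩⟩
    have h1 := congrArg (fun r : F => (r : AddMonoid.End V) J) hh
    exact h1.symm
  have hnzd : NoZeroDivisors F := by
    refine ⟨fun {a b} hab => ?_⟩
    by_contra hcon
    rw [not_or] at hcon
    obtain ⟨ha, hb⟩ := hcon
    have h1 : (b : AddMonoid.End V) J ≠ 0 := fun hh => hb (Subtype.ext (hkerJ _ b.2 hh))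
    refine ha (Subtype.ext (hker _ a.2 _ h1 ?_))
    have h2 := congrArg (fun r : F => (r : AddMonoid.End V) J) hab
    exact h2
  have hdom : IsDomain F := NoZeroDivisors.to_isDomain F
  let ω : F := ⟨φ, Subring.subset_closure rfl⟩
  have hωn : ∀ k : ℕ, ((ω ^ k : F) : AddMonoid.End V) = φ ^ k := by
    intro k
    rw [Subring.coe_pow]
  have hevinj : ∀ a b : F, (a : AddMonoid.End V) J = (b : AddMonoid.End V) J → a = b := by
    intro a b hab
    have h1 : ((a - b : F) : AddMonoid.End V) = 0 := by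
      refine hkerJ _ (a - b).2 ?_
      have h2 : ((a - b : F) : AddMonoid.End V) J
          = (a : AddMonoid.End V) J - (b : AddMonoid.End V) J := rfl
      rw [h2, hab, sub_self]
    exact sub_eq_zero.1 (Subtype.ext h1)
  let ψ : Option F → Ω := fun o => match o with
    | none => v
    | some r => ((((r : AddMonoid.End V) J).toMul : ccoorda_A v hc) : G) • w
  have hψs : ∀ r : F, ψ (some r) = ((((r : AddMonoid.End V) J).toMul : ccoorda_A v hc) : G) • w :=
    fun r => rfl
  have hψn : ψ none = v := rfl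
  have hvw := h.vw
  have hfixv : ∀ x : V, (x.toMul : G) • v = v := fun x => x.toMul.2.2
  have hsq : ∀ x : V, (x.toMul : G) * (x.toMul : G) = 1 := fun x => x.toMul.2.1
  have hne : ∀ x : V, (x.toMul : G) • w ≠ v := by
    intro x hx
    have h1 := hfixv x
    exact hvw (smul_left_cancel (x.toMul : G) (h1.trans hx.symm))
  refine ⟨F, inferInstance, hdom, hfin, ω, ψ, ⟨?_, ?_⟩, ?_, ?_, hψn, ?_, ?_, ?_⟩
  · rintro (_ | a) (_ | b) hab
    · rfl
    · exact absurd hab.symm (hne _)
    · exact absurd hab (hne _)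
    · rw [hψs, hψs] at hab
      have h1 := hreg w (((((b : AddMonoid.End V) J).toMul : ccoorda_A v hc) : G) • w)
        hvw.symm (hne _)
      have h2 := h1.unique ⟨hsq _, hfixv _, hab⟩ ⟨hsq _, hfixv _, rfl⟩
      rw [hevinj a b (hext _ _ h2)]
  · intro x
    by_cases hx : x = v
    · exact ⟨none, hx.symm⟩
    · obtain ⟨g, ⟨hg2, hgv, hgw⟩, -⟩ := hreg w x hvw.symm hx
      by_cases hg : g = 1
      · refine ⟨some 0, ?_⟩
        rw [← hgw, hg]
        rfl
      · obtain ⟨i, hi⟩ := hinv g hg2 hg hgv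
        obtain ⟨k, hk⟩ := ccoorda_nat σ i
        refine ⟨some (ω ^ k), ?_⟩
        rw [hψs, hωn, hφn, hJ, ← hgw, hi, hk]
  · refine hevinj _ _ (hext _ _ ?_)
    have h1 : (((2 : F) : AddMonoid.End V) J) = J + J := by
      have h2 : (2 : F) = 1 + 1 := by norm_num
      rw [h2]
      rfl
    rw [h1]
    exact h.jj
  · intro z hz
    have h1 : (z : AddMonoid.End V) J ≠ 0 := fun hh => hz (Subtype.ext (hkerJ _ z.2 hh))
    obtain ⟨k, hk⟩ := htr0 _ h1
    refine ⟨k, hevinj _ _ ?_⟩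
    rw [hk, hωn]
  · rw [hψs]
    exact one_smul G w
  · intro z
    rw [hψs, hψs]
    have h1 : (((((ω * z : F) : AddMonoid.End V) J).toMul : ccoorda_A v hc) : G)
        = σ * ((((z : AddMonoid.End V) J).toMul : ccoorda_A v hc) : G) * σ⁻¹ := rfl
    have h2 : σ⁻¹ • w = w := by rw [inv_smul_eq_iff, h.σw]
    rw [h1, mul_smul, mul_smul, h2]
  · intro z
    rw [hψs, hψs]
    have h1 : (((((z + 1 : F) : AddMonoid.End V) J).toMul : ccoorda_A v hc) : G)
        = ((((z : AddMonoid.End V) J).toMul : ccoorda_A v hc) : G) * j := rfl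
    rw [h1, hc _ j (hsq _) h.jj (hfixv _) h.jv, mul_smul]

/-- the last step -/
theorem ccoorda_field {G Ω F : Type} [Group G] [MulAction G Ω] [Finite G] [Finite Ω]
    [FaithfulSMul G Ω] {v w : Ω} {τ j σ : G} (h : CHyp v w τ j σ) (hn : 4 ≤ Nat.card Ω)
    [Field F] [Finite F] (ω : F) (ψ : Option F → Ω) (hψ : Function.Bijective ψ)
    (h2 : (2 : F) = 0) (hω : ∀ z : F, z ≠ 0 → ∃ i : ℕ, z = ω ^ i) (hv : ψ none = v)
    (hw : ψ (some 0) = w) (hσ : ∀ z : F, σ • ψ (some z) = ψ (some (ω * z)))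
    (hj : ∀ z : F, j • ψ (some z) = ψ (some (z + 1))) :
    ∃ (F : Type) (_ : Field F) (_ : Fintype F) (_ : DecidableEq F) (ω lam : F)
      (β : Ω ≃ Option F), (2 : F) = 0 ∧ Fintype.card F = orderOf σ + 1 ∧ lam ≠ 0 ∧
      (∀ z : F, z ≠ 0 → ∃ i : ℕ, z = ω ^ i) ∧ β v = none ∧ β w = some 0 ∧
      (∀ x, β (σ • x) = (β x).map (fun z => ω * z)) ∧
      (∀ x, β (j • x) = (β x).map (fun z => z + 1)) ∧
      (∀ x, β (τ • x) = mobInv lam (β x)) := by
  classical
  obtain ⟨hcard, -⟩ := C_card_eq h hn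
  obtain ⟨hj1, hjw, hs3⟩ := C_basic h hn
  have : Fintype F := Fintype.ofFinite F
  have hτw : τ • w = v := by
    rw [← h.τv, ← mul_smul, h.ττ, one_smul]
  let β : Ω ≃ Option F := (Equiv.ofBijective ψ hψ).symm
  have hβ : ∀ o, β (ψ o) = o := fun o => Equiv.ofBijective_symm_apply_apply ψ hψ o
  have hψβ : ∀ x, ψ (β x) = x := fun x => Equiv.ofBijective_apply_symm_apply ψ hψ x
  have h1w : ψ (some 1) = j • w := by
    rw [← hw, hj, zero_add]
  have hex : ∃ lam : F, lam ≠ 0 ∧ τ • ψ (some 1) = ψ (some lam) := by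
    obtain ⟨o, ho⟩ := hψ.2 (τ • ψ (some 1))
    cases o with
    | none =>
      exfalso
      rw [hv, h1w] at ho
      apply hjw
      have h3 := congrArg (fun x => τ • x) ho
      simp only [← mul_smul, ← mul_assoc, h.ττ, one_mul] at h3
      rw [h.τv] at h3
      exact h3.symm
    | some lam =>
      refine ⟨lam, ?_, ho.symm⟩
      rintro rfl
      rw [hw, h1w] at ho
      have h3 := congrArg (fun x => τ • x) ho
      simp only [← mul_smul, ← mul_assoc, h.ττ, one_mul] at h3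
      rw [hτw] at h3
      have h4 : j • v = j • w := by rw [h.jv]; exact h3
      exact h.vw (smul_left_cancel j h4)
  obtain ⟨lam, hlam, hτ1⟩ := hex
  have hσn : ∀ (k : ℕ) (z : F), σ ^ k • ψ (some z) = ψ (some (ω ^ k * z)) := by
    intro k
    induction k with
    | zero => intro z; simp
    | succ k ih =>
      intro z
      rw [pow_succ', mul_smul, ih, hσ, pow_succ', mul_assoc]
  have hτσ : ∀ k : ℕ, σ ^ k * (τ * σ ^ k) = τ := by
    have h5 : σ * (τ * σ) = τ := by
      have h6 := h.τσ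
      have h7 : τ * σ = σ⁻¹ * τ := by
        rw [← h6, mul_assoc, mul_assoc, h.ττ, mul_one]
      rw [h7, mul_inv_cancel_left]
    intro k
    induction k with
    | zero => simp
    | succ k ih =>
      calc σ ^ (k + 1) * (τ * σ ^ (k + 1)) = σ ^ k * ((σ * (τ * σ)) * σ ^ k) := by
            have h8 : σ ^ (k + 1) = σ ^ k * σ := pow_succ σ k
            have h9 : σ ^ (k + 1) = σ * σ ^ k := pow_succ' σ k
            nth_rewrite 1 [h8]
            rw [h9]
            simp only [mul_assoc]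
        _ = τ := by rw [h5, ih]
  refine ⟨F, inferInstance, inferInstance, inferInstance, ω, lam, β, h2, ?_, hlam, hω, ?_, ?_,
    ?_, ?_, ?_⟩
  · have h3 := Nat.card_congr β
    rw [hcard, Nat.card_eq_fintype_card, Fintype.card_option] at h3
    omega
  · rw [← hv, hβ]
  · rw [← hw, hβ]
  · intro x
    obtain ⟨o, rfl⟩ := hψ.2 x
    rw [hβ]
    cases o with
    | none => rw [hv, h.σv, ← hv, hβ]; rfl
    | some z => rw [hσ, hβ]; rfl
  · intro x
    obtain ⟨o, rfl⟩ := hψ.2 x
    rw [hβ]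
    cases o with
    | none => rw [hv, h.jv, ← hv, hβ]; rfl
    | some z => rw [hj, hβ]; rfl
  · intro x
    obtain ⟨o, rfl⟩ := hψ.2 x
    rw [hβ]
    cases o with
    | none => rw [hv, h.τv, ← hw, hβ]; rfl
    | some z =>
      by_cases hz : z = 0
      · subst hz
        rw [hw, hτw, ← hv, hβ]
        simp [mobInv]
      · obtain ⟨k, rfl⟩ := hω z hz
        have h4 : ψ (some (ω ^ k)) = σ ^ k • ψ (some 1) := by rw [hσn, mul_one]
        have h5 : σ ^ k • (τ • ψ (some (ω ^ k))) = ψ (some lam) := by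
          rw [h4, ← mul_smul, ← mul_smul, mul_assoc, hτσ, hτ1]
        have h6 : σ ^ k • ψ (some (lam / ω ^ k)) = ψ (some lam) := by
          rw [hσn, mul_div_cancel₀ _ hz]
        have h7 := smul_left_cancel _ (h5.trans h6.symm)
        rw [h7, hβ]
        simp [mobInv, hz]

/-- Job CCoord-1. Coordinates.

Proof. Let `A` be the subgroup of `1` and the involutions fixing `v` (`C_card_eq`); `V = Additive A`
is a module over `ZMod 2`. Conjugation by `σ` is a `ZMod 2`-linear map `φ : V → V` and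
`φ ^ i`, `i ∈ ℕ`, acts transitively on `V ∖ 0` (`C_not_normalize`: every involution fixing `v` is
`σ^i j σ^(-i)`). Let `F = Algebra.adjoin (ZMod 2) {φ} ⊆ Module.End (ZMod 2) V`, a commutative ring.
For `0 ≠ r ∈ F` the kernel of `r` is `φ`-invariant, so it is `0` or `V`, so it is `0`; so `F` is a
finite domain, i.e. a field (`Finite.isField_of_domain` / `Fintype.fieldOfDomain`). The map
`F → V`, `r ↦ r (j)` is bijective: injective because `r j = 0` gives `r = 0` as above, surjective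
because `φ^i j` runs through all nonzero elements. Define `γ : {x // x ≠ v} → F`: `x ↦` the `r` with
`r (j) =` the element of `A` mapping `w` to `x` (`C_regular`), and `β v = none`,
`β x = some (γ x)` else. With `ω = φ`: the element of `A` mapping `w` to `σ x` is
`σ a σ⁻¹` where `a` maps `w` to `x` (as `σ w = w`), so `β (σ x) = ω β x`. The element of `A`
mapping `w` to `j x` is `j a`, so `β (j x) = β x + 1`. `β w = 0`. All nonzero elements of `F` are
powers of `ω`: `r j = φ^i j` gives `r = φ^i`. `τ`: interchanges `v` and `w`; let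
`lam = β (τ (β⁻¹ 1))` (i.e. the value at the point with coordinate `1`); for `x` with coordinate
`ω^i`, `x = σ^i e` with `e = β⁻¹ 1 = j w`, and `τ x = σ^(-i) τ e` has coordinate `ω^(-i) lam`. -/
theorem C_coord {G Ω : Type} [Group G] [MulAction G Ω] [Finite G] [Finite Ω]
    [FaithfulSMul G Ω] {v w : Ω} {τ j σ : G} (h : CHyp v w τ j σ) (hn : 4 ≤ Nat.card Ω) :
    ∃ (F : Type) (_ : Field F) (_ : Fintype F) (_ : DecidableEq F) (ω lam : F)
      (β : Ω ≃ Option F), (2 : F) = 0 ∧ Fintype.card F = orderOf σ + 1 ∧ lam ≠ 0 ∧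
      (∀ z : F, z ≠ 0 → ∃ i : ℕ, z = ω ^ i) ∧ β v = none ∧ β w = some 0 ∧
      (∀ x, β (σ • x) = (β x).map (fun z => ω * z)) ∧
      (∀ x, β (j • x) = (β x).map (fun z => z + 1)) ∧
      (∀ x, β (τ • x) = mobInv lam (β x)) := by
  obtain ⟨F, iR, iD, iF, ω, ψ, hψ, h2, hω, hv, hw, hσ, hj⟩ := ccoorda_ring h hn
  let _ : Field F := (Finite.isDomain_to_isField F).toField
  exact ccoorda_field h hn ω ψ hψ h2 hω hv hw hσ hj

end Pool.Agent.H.MP_6268b4_co
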