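import Pool.Agent.H.MP_6268b4_co.GDefs

/-!
Chiral case: coordinates in a finite field of characteristic 2.
-/

namespace Pool.Agent.H.MP_6268b4_co

theorem ccoordb_two_dvd {G Ω : Type*} [Group G] [MulAction G Ω] {v w : Ω} {τ j σ : G}
    (h : CHyp v w τ j σ) (S : Subgroup G) (hτ : τ ∈ S) : 2 ∣ Nat.card S := by
  have h1 : τ ≠ 1 := by
    intro h1
    have h2 := h.τv
    rw [h1, one_smul] at h2
    exact h.vw h2
  have h2 : orderOf (⟨τ, hτ⟩ : S) = 2 := by
    apply orderOf_eq_prime
    · rw [pow_two]
      exact Subtype.ext h.ττ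
    · intro h3
      exact h1 (congrArg Subtype.val h3)
  rw [← h2]
  exact orderOf_dvd_natCard _

theorem ccoordb_card {G Ω : Type*} [Group G] [MulAction G Ω] [Finite G] [Finite Ω] {v : Ω}
    (S : Subgroup G) (x : G) (n : ℕ) (hx : x ^ n = 1)
    (hS : ∀ g ∈ S, g • v = v → g ∈ Subgroup.zpowers x)
    (htr : ∀ y : Ω, ∃ g ∈ S, g • v = y) :
    ∃ m, m ∣ n ∧ Nat.card S = m * Nat.card Ω := by
  refine ⟨Nat.card (MulAction.stabilizer S v), ?_, ?_⟩
  · have h1 : (MulAction.stabilizer S v).map S.subtype ≤ Subgroup.zpowers x := by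
      rintro g ⟨⟨g', hg'⟩, hs, rfl⟩
      exact hS g' hg' hs
    have h2 := Subgroup.card_dvd_of_le h1
    rw [Subgroup.card_subtype, Nat.card_zpowers] at h2
    exact h2.trans (orderOf_dvd_of_pow_eq_one hx)
  · have h1 := Subgroup.card_mul_index (MulAction.stabilizer S v)
    have h2 : (MulAction.stabilizer S v).index = Nat.card Ω := by
      rw [MulAction.index_stabilizer]
      have h3 : MulAction.orbit S v = Set.univ := by
        ext y
        simp only [Set.mem_univ, iff_true]
        obtain ⟨g, hg, hgy⟩ := htr y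
        exact ⟨⟨g, hg⟩, hgy⟩
      rw [h3, Set.ncard_univ]
    rw [← h1, h2]

/-- Job CCoord-2. The facet condition determines `lam`.

Proof. Let `q = Fintype.card F = s + 1`, even. Since `4 ≤ n = s + 2`, `q ≥ 3`, and `ω ≠ 0`,
`1 + ω ≠ 0` (if `ω = 1` then `F` has at most 2 elements). `j σ` acts as `z ↦ ω z + 1` and fixes
`none` and `u = 1 / (1 + ω)` (characteristic 2); it acts on the other points like `ω` (with
`z = u + y`: `y ↦ ω y`), so `zpowers (j σ)` is transitive on the points `≠ none, u`. Consider the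
orbit `Θ` of `v` under `S`. It contains `w = τ v`, with coordinate `0 ≠ u`, so it contains all
points different from `U = β⁻¹ u`. Suppose some `g ∈ S` moves `U`. Then `Θ` contains `U` as well:
`g⁻¹ U ≠ U` is in `Θ`, so `U = g (g⁻¹ U) ∈ Θ`. So `S` is transitive on `Ω` and
`Nat.card S = (q + 1) * Nat.card (S ∩ G_v)`. `S ∩ G_v = zpowers (j σ)` has order dividing
`q - 1`, odd (the element `j σ` has order `q - 1`; only need: odd, since `(j σ)^(q-1)` acts
trivially); and `q + 1` is odd. So `Nat.card S` is odd, but `τ ∈ S` has order 2: contradiction.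
So all of `S`, in particular `τ`, fixes `U`: `lam / u = u` (`u ≠ 0`), `lam = u ^ 2`,
`lam * (1 + ω) ^ 2 = 1`. -/
theorem C_lam {G Ω : Type*} [Group G] [MulAction G Ω] [Finite G] [Finite Ω]
    [FaithfulSMul G Ω] {v w : Ω} {τ j σ : G} (h : CHyp v w τ j σ) (hn : 4 ≤ Nat.card Ω)
    (S : Subgroup G) (hτ : τ ∈ S) (hjσ : j * σ ∈ S)
    (hS : ∀ g ∈ S, g • v = v → g ∈ Subgroup.zpowers (j * σ))
    {F : Type*} [Field F] [Fintype F] [DecidableEq F] (ω lam : F) (β : Ω ≃ Option F)
    (h2 : (2 : F) = 0) (hcard : Fintype.card F = orderOf σ + 1) (hlam : lam ≠ 0)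
    (hω : ∀ z : F, z ≠ 0 → ∃ i : ℕ, z = ω ^ i) (hv : β v = none) (hw : β w = some 0)
    (hβσ : ∀ x, β (σ • x) = (β x).map (fun z => ω * z))
    (hβj : ∀ x, β (j • x) = (β x).map (fun z => z + 1))
    (hβτ : ∀ x, β (τ • x) = mobInv lam (β x)) : lam * (1 + ω) ^ 2 = 1 := by
  have hqΩ : Nat.card Ω = Fintype.card F + 1 := by
    rw [Nat.card_congr β, Nat.card_eq_fintype_card, Fintype.card_option]
  have hq3 : 3 ≤ Fintype.card F := by omega
  have htwo : ∀ z : F, z + z = 0 := by
    intro z
    have : z + z = 2 * z := by ring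
    rw [this, h2, zero_mul]
  have hω01 : ¬ ∀ z : F, z = 0 ∨ z = 1 := by
    intro hall
    have h3 : (Finset.univ : Finset F) ⊆ {0, 1} := by
      intro z _
      rcases hall z with h4 | h4 <;> simp [h4]
    have h4 := Finset.card_le_card h3
    have h5 : ({0, 1} : Finset F).card ≤ 2 := Finset.card_le_two
    rw [Finset.card_univ] at h4
    omega
  have hω0 : ω ≠ 0 := by
    intro h0
    apply hω01
    intro z
    by_cases hz : z = 0
    · exact Or.inl hz
    · obtain ⟨i, hi⟩ := hω z hz
      rcases Nat.eq_zero_or_pos i with h4 | h4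
      · right
        rw [hi, h4, pow_zero]
      · left
        rw [hi, h0, zero_pow (by omega)]
  have hω1 : 1 + ω ≠ 0 := by
    intro h0
    have h4 : ω = 1 := by
      have h5 := htwo ω
      have h6 : ω = (1 + ω) + 1 - (1 + 1) := by ring
      rw [h0, htwo] at h6
      simpa using h6
    apply hω01
    intro z
    by_cases hz : z = 0
    · exact Or.inl hz
    · obtain ⟨i, hi⟩ := hω z hz
      right
      rw [hi, h4, one_pow]
  have hjσv : ∀ x, β ((j * σ) • x) = (β x).map (fun z => ω * z + 1) := by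
    intro x
    rw [mul_smul, hβj, hβσ, Option.map_map]
    rfl
  -- the fixed point of `j σ`
  obtain ⟨u, hu⟩ : ∃ u : F, u * (1 + ω) = 1 := ⟨(1 + ω)⁻¹, inv_mul_cancel₀ hω1⟩
  have hu0 : u ≠ 0 := by
    intro h0
    rw [h0, zero_mul] at hu
    exact zero_ne_one hu
  have hωu : ω * u + 1 = u := by
    have h4 : ω * u + 1 = u * (1 + ω) - u + 1 := by ring
    rw [h4, hu]
    have h5 : (1 : F) - u + 1 = (1 + 1) - (u + u) + u := by ring
    rw [h5, htwo, htwo]
    ring
  have hpow : ∀ (i : ℕ) (y : F), β ((j * σ) ^ i • β.symm (some (u + y))) = some (u + ω ^ i * y) := by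
    intro i y
    induction i with
    | zero => simp
    | succ i ih =>
      rw [pow_succ', mul_smul, hjσv, ih, Option.map_some]
      congr 1
      have h4 : ω * (u + ω ^ i * y) + 1 = (ω * u + 1) + ω ^ (i + 1) * y := by ring
      rw [h4, hωu]
  have hpown : ∀ i : ℕ, β ((j * σ) ^ i • β.symm none) = none := by
    intro i
    induction i with
    | zero => simp
    | succ i ih => rw [pow_succ', mul_smul, hjσv, ih, Option.map_none]
  -- the power `q - 1` of `j σ` is trivial
  have hone : (j * σ) ^ (Fintype.card F - 1) = 1 := by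
    apply FaithfulSMul.eq_of_smul_eq_smul (M := G) (α := Ω)
    intro x
    rw [one_smul]
    apply β.injective
    obtain ⟨x', rfl⟩ := β.symm.surjective x
    rw [Equiv.apply_symm_apply]
    cases x' with
    | none => exact hpown _
    | some z =>
      have h4 := hpow (Fintype.card F - 1) (z - u)
      rw [FiniteField.pow_card_sub_one_eq_one ω hω0, one_mul] at h4
      have h5 : u + (z - u) = z := by ring
      rw [h5] at h4
      exact h4
  -- the orbit of `v`
  have horb : ∀ x : Ω, x ≠ β.symm (some u) → ∃ g ∈ S, g • v = x := by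
    intro x hx
    obtain ⟨x', rfl⟩ := β.symm.surjective x
    cases x' with
    | none =>
      refine ⟨1, S.one_mem, ?_⟩
      rw [one_smul, ← hv, Equiv.symm_apply_apply]
    | some z =>
      have hz : z - u ≠ 0 := by
        intro h4
        apply hx
        rw [sub_eq_zero.mp h4]
      have hw' : β.symm (some (u + (0 - u))) = w := by
        rw [β.symm_apply_eq, hw]
        congr 1
        ring
      have h0u : (0 : F) - u ≠ 0 := by
        rw [zero_sub]
        exact neg_ne_zero.mpr hu0
      obtain ⟨i, hi⟩ := hω ((z - u) / (0 - u)) (div_ne_zero hz h0u)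
      refine ⟨(j * σ) ^ i * τ, S.mul_mem (S.pow_mem hjσ i) hτ, ?_⟩
      rw [mul_smul, h.τv]
      apply β.injective
      rw [Equiv.apply_symm_apply, ← hw', hpow, ← hi, div_mul_cancel₀ _ h0u]
      congr 1
      ring
  -- all elements of `S` fix `U`
  have hfix : ∀ g ∈ S, g • β.symm (some u) = β.symm (some u) := by
    by_contra hcon
    push Not at hcon
    obtain ⟨g, hg, hgU⟩ := hcon
    have hall : ∀ y : Ω, ∃ g ∈ S, g • v = y := by
      intro y
      by_cases hy : y = β.symm (some u)
      · have h4 : g⁻¹ • β.symm (some u) ≠ β.symm (some u) := by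
          intro h5
          apply hgU
          rw [inv_smul_eq_iff] at h5
          exact h5.symm
        obtain ⟨k, hk, hkv⟩ := horb _ h4
        refine ⟨g * k, S.mul_mem hg hk, ?_⟩
        rw [mul_smul, hkv, smul_inv_smul, hy]
      · exact horb y hy
    obtain ⟨m, hm, hcardS⟩ := ccoordb_card S (j * σ) _ hone hS hall
    have heven : Fintype.card F % 2 = 0 := by
      apply FiniteField.even_card_of_char_two
      exact CharP.ringChar_of_prime_eq_zero Nat.prime_two (by exact_mod_cast h2)
    have h2S := ccoordb_two_dvd h S hτ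
    rw [hcardS, hqΩ] at h2S
    rcases (Nat.Prime.dvd_mul Nat.prime_two).mp h2S with h4 | h4
    · have h5 := h4.trans hm
      omega
    · omega
  have hτU := hfix τ hτ
  have h4 := hβτ (β.symm (some u))
  rw [hτU, Equiv.apply_symm_apply] at h4
  simp only [mobInv, hu0, if_false] at h4
  have h5 : u = lam / u := Option.some.inj h4
  have h6 : lam = u * u := by
    rw [eq_div_iff hu0] at h5
    exact h5.symm
  rw [h6]
  have h7 : u * u * (1 + ω) ^ 2 = (u * (1 + ω)) ^ 2 := by ring
  rw [h7, hu, one_pow]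

end Pool.Agent.H.MP_6268b4_co
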