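import Pool.Agent.H.MP_6268b4_co.CBasicF

/-!
Chiral case: the group is sharply 3-transitive.
-/

namespace Pool.Agent.H.MP_6268b4_co

variable {G Ω : Type*} [Group G] [MulAction G Ω] [Finite G] [Finite Ω] [FaithfulSMul G Ω]
  {v w : Ω} {τ j σ : G}

theorem cmaina_cyc {σ a b : G} (ha : a ∈ Subgroup.zpowers σ) (hb : b ∈ Subgroup.zpowers σ)
    (hab : orderOf a = orderOf b) : b ∈ Subgroup.zpowers a := by
  rw [← mem_powers_iff_mem_zpowers] at ha hb
  obtain ⟨i, rfl⟩ := ha
  obtain ⟨j, rfl⟩ := hb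
  have hN : 0 < orderOf σ := orderOf_pos σ
  simp only at hab ⊢
  rw [orderOf_pow, orderOf_pow] at hab
  have hg : (orderOf σ).gcd i = (orderOf σ).gcd j := by
    have h1 := Nat.gcd_dvd_left (orderOf σ) i
    have h2 := Nat.gcd_dvd_left (orderOf σ) j
    have e1 := Nat.div_mul_cancel h1
    have e2 := Nat.div_mul_cancel h2
    have hp : 0 < orderOf σ / (orderOf σ).gcd j := Nat.div_pos (Nat.le_of_dvd hN h2)
      (Nat.gcd_pos_of_pos_left _ hN)
    apply Nat.eq_of_mul_eq_mul_left hp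
    rw [e2, ← hab, e1]
  obtain ⟨c, hc⟩ : (orderOf σ).gcd i ∣ j := hg ▸ Nat.gcd_dvd_right _ _
  have hbez := Nat.gcd_eq_gcd_ab (orderOf σ) i
  have h3 : σ ^ ((orderOf σ).gcd i) = (σ ^ i) ^ (Nat.gcdB (orderOf σ) i) := by
    rw [← zpow_natCast σ ((orderOf σ).gcd i), hbez, zpow_add, zpow_mul, zpow_mul, zpow_natCast,
      pow_orderOf_eq_one, one_zpow, one_mul, zpow_natCast]
  rw [Subgroup.mem_zpowers_iff]
  refine ⟨Nat.gcdB (orderOf σ) i * c, ?_⟩
  rw [zpow_mul, ← h3, zpow_natCast, ← pow_mul, ← hc]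

theorem cmaina_orderOf_conj (p k : G) : orderOf (p⁻¹ * k * p) = orderOf k := by
  have := orderOf_injective (MulAut.conj p⁻¹).toMonoidHom (MulAut.conj p⁻¹).injective k
  simpa [MulAut.conj_apply] using this

/-- Step (1). -/
theorem cmaina_trans (h : CHyp v w τ j σ) {k : G} {x y x' y' : Ω} (hxy : x ≠ y) (hxy' : x' ≠ y')
    (hx : k • x = x) (hy : k • y = y) (hx' : k • x' = x') (hy' : k • y' = y') :
    ∃ g : G, g • x = x' ∧ g • y = y' ∧ ∃ m : ℤ, g⁻¹ * k * g = k ^ m := by
  obtain ⟨p, hpv, hpw⟩ := h.two v w x y h.vw hxy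
  obtain ⟨g, hgx, hgy⟩ := h.two x y x' y' hxy hxy'
  have hinv : ∀ (q : G) (s t : Ω), q • s = t → q⁻¹ • t = s := by
    intro q s t hq
    rw [← hq, inv_smul_smul]
  refine ⟨g, hgx, hgy, ?_⟩
  have ha : p⁻¹ * k * p ∈ Subgroup.zpowers σ := by
    apply h.stab2
    · rw [mul_smul, mul_smul, hpv, hx]; exact hinv _ _ _ hpv
    · rw [mul_smul, mul_smul, hpw, hy]; exact hinv _ _ _ hpw
  have hb : p⁻¹ * (g⁻¹ * k * g) * p ∈ Subgroup.zpowers σ := by
    apply h.stab2
    · rw [mul_smul, mul_smul, mul_smul, mul_smul, hpv, hgx, hx', hinv _ _ _ hgx]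
      exact hinv _ _ _ hpv
    · rw [mul_smul, mul_smul, mul_smul, mul_smul, hpw, hgy, hy', hinv _ _ _ hgy]
      exact hinv _ _ _ hpw
  have hab := cmaina_cyc ha hb (by
    rw [cmaina_orderOf_conj, cmaina_orderOf_conj, cmaina_orderOf_conj])
  rw [Subgroup.mem_zpowers_iff] at hab
  obtain ⟨m, hm⟩ := hab
  refine ⟨m, ?_⟩
  have h1 : (p⁻¹ * k * p) ^ m = p⁻¹ * k ^ m * p := by
    have := conj_zpow (i := m) (a := p⁻¹) (b := k)
    simpa using this
  rw [h1] at hm
  have h2 := congrArg (fun t => p * t * p⁻¹) hm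
  simp only [mul_assoc, mul_inv_cancel_left, mul_inv_cancel, mul_one] at h2
  rw [← mul_assoc g⁻¹] at h2
  rw [h2]

/-- Job CMain-1. An element `k ≠ 1` fixing `v` and `w` fixes no other point.

Proof. `k ∈ zpowers σ`. Let `N = {g | g k g⁻¹ ∈ zpowers k}` (the normalizer of `zpowers k`),
`Δ` = fixed points of `k`.
(1) `N` acts 2-transitively on `Δ`: for `x' ≠ y'` in `Δ` take `g` with `g v = x'`, `g w = y'`;
`g⁻¹ k g` fixes `v, w`, so it is in the cyclic group `zpowers σ` and has the same order as `k`; so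
`zpowers (g⁻¹ k g) = zpowers k`, and `g ∈ N`.
(2) An involution `z ∈ N` has no fixed point in `Δ`: if `z x = x`, `x ∈ Δ`, take `y ∈ Δ`, `y ≠ x`
(`Δ` has the two points `v, w`), contradiction to `C_not_normalize`.
(3) `τ ∈ N` (`τ k τ = k⁻¹`), `τ ≠ 1`; so `Nat.card Δ` is even (fixed-point-free involution on `Δ`).
(4) Every involution `z ∈ N` inverts `k`: it interchanges some `x ≠ y` in `Δ`; `C_invert`. So the
centralizer `C` of `k` contains no involution (`k = k⁻¹` would give `k k = 1`, `k = 1` since `k`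
has odd order), i.e. `Nat.card C` is odd.
(5) All elements of `C` fix all points of `Δ`: suppose `o ∈ C`, `x ∈ Δ`, `o x = y ≠ x` (`y ∈ Δ`).
For `y' ∈ Δ`, `y' ≠ x` there is `g ∈ N` with `g x = x`, `g y = y'` (by (1)); `g o g⁻¹` is in `C`
(`g` normalizes `zpowers k`, hence its centralizer) and maps `x` to `y'`. So `C` is transitive on
`Δ` and `Nat.card Δ ∣ Nat.card C`, even divides odd, contradiction.
(6) For `g, g' ∈ N` the commutator `g g' g⁻¹ g'⁻¹` centralizes `k` (both act on the cyclic group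
`zpowers k` as power maps), so it acts trivially on `Δ`: `g (g' x) = g' (g x)` for `x ∈ Δ`.
(7) Suppose `y ∈ Δ`, `y ≠ v, w`. Take `g ∈ N` with `g v = v`, `g w = y`. Then
`g (τ v) = τ (g v)`, i.e. `y = g w = τ v = w`, contradiction. -/
theorem C_two_fixed (h : CHyp v w τ j σ) (hn : 4 ≤ Nat.card Ω) {k : G} (hk1 : k ≠ 1)
    (hv : k • v = v) (hw : k • w = w) {x : Ω} (hx : k • x = x) : x = v ∨ x = w := by
  have hττ := h.ττ
  have hτi : τ⁻¹ = τ := inv_eq_of_mul_eq_one_right hττ
  have hτ1 : τ ≠ 1 := by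
    rintro rfl
    exact h.vw (by simpa using h.τv)
  have hτw : τ • w = v := by
    rw [← h.τv, ← mul_smul, hττ, one_smul]
  have hτk : τ * k * τ = k⁻¹ := (C_invert h h.vw hv hw).2 τ hττ h.τv
  have hodd : Odd (orderOf k) := (C_invert h h.vw hv hw).1
  have hkk : k⁻¹ ≠ k := by
    intro he
    have h2 : k ^ 2 = 1 := by
      rw [pow_two]
      nth_rw 1 [← he]
      exact inv_mul_cancel k
    have hd := orderOf_dvd_of_pow_eq_one h2
    rcases (Nat.dvd_prime Nat.prime_two).1 hd with h3 | h3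
    · exact hk1 (orderOf_eq_one_iff.1 h3)
    · rw [h3] at hodd
      exact absurd hodd (by decide)
  have hinv : ∀ (q : G) (s t : Ω), q • s = t → q⁻¹ • t = s := by
    intro q s t hq
    rw [← hq, inv_smul_smul]
  by_contra hcon
  push Not at hcon
  obtain ⟨hxv, hxw⟩ := hcon
  obtain ⟨g, hgv, hgw, m, hm⟩ := cmaina_trans h h.vw (Ne.symm hxv) hv hw hv hx
  -- the commutator
  set o : G := g * τ * g⁻¹ * τ⁻¹ with ho
  have hok : o * k = k * o := by
    have e1 : τ * k ^ m * τ = (k ^ m)⁻¹ := by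
      have := conj_zpow (i := m) (a := τ) (b := k)
      rw [hτi, hτk] at this
      rw [← this, inv_zpow]
    have e2 : g * (k ^ m)⁻¹ * g⁻¹ = k⁻¹ := by
      rw [← hm]
      group
    have e3 : o * k * o⁻¹ = k := by
      have e4 : o * k * o⁻¹ = g * (τ * (g⁻¹ * (τ * k * τ) * g) * τ) * g⁻¹ := by
        rw [ho, hτi]
        simp only [mul_inv_rev, hτi, inv_inv]
        simp only [mul_assoc]
      rw [e4, hτk]
      have e5 : g⁻¹ * k⁻¹ * g = (k ^ m)⁻¹ := by
        rw [← hm]
        group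
      rw [e5]
      have e6 : τ * (k ^ m)⁻¹ * τ = k ^ m := by
        rw [← e1]
        calc τ * (τ * k ^ m * τ) * τ = (τ * τ) * k ^ m * (τ * τ) := by simp only [mul_assoc]
          _ = k ^ m := by rw [hττ, one_mul, mul_one]
      rw [e6, ← hm]
      group
    rw [mul_inv_eq_iff_eq_mul] at e3
    exact e3
  have how : o • w = x := by
    rw [ho, mul_smul, mul_smul, mul_smul, hτi, hτw, hinv _ _ _ hgv, h.τv, hgw]
  let C : Subgroup G := Subgroup.centralizer ({k} : Set G)
  have hmemC : ∀ q : G, q ∈ C ↔ q * k = k * q := by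
    intro q
    rw [Subgroup.mem_centralizer_singleton_iff]
  have hCfix : ∀ q : G, q * k = k * q → ∀ s : Ω, k • s = s → k • (q • s) = q • s := by
    intro q hq s hs
    rw [← mul_smul, ← hq, mul_smul, hs]
  have horb : MulAction.orbit C w = {s : Ω | k • s = s} := by
    ext s
    constructor
    · rintro ⟨⟨q, hq⟩, rfl⟩
      exact hCfix q ((hmemC q).1 hq) w hw
    · intro hs
      have hs : k • s = s := hs
      by_cases hsw : s = w
      · rw [hsw]; exact MulAction.mem_orbit_self w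
      obtain ⟨g', hg'w, hg'x, m', hm'⟩ := cmaina_trans h (Ne.symm hxw) (Ne.symm hsw) hw hx hw hs
      have hmem : g' * o * g'⁻¹ ∈ C := by
        rw [hmemC]
        have e1 : o * k ^ m' = k ^ m' * o := by
          have : Commute o k := hok
          exact this.zpow_right m'
        rw [← hm'] at e1
        have e2 := congrArg (fun t => g' * t * g'⁻¹) e1
        simp only [mul_assoc, mul_inv_cancel_left, mul_inv_cancel, mul_one] at e2
        simp only [mul_assoc]
        exact e2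
      refine ⟨⟨_, hmem⟩, ?_⟩
      change (g' * o * g'⁻¹) • w = s
      rw [mul_smul, mul_smul, hinv _ _ _ hg'w, how, hg'x]
  have hCodd : ¬ 2 ∣ Nat.card C := by
    intro h2
    obtain ⟨⟨z, hz⟩, hz2⟩ := exists_prime_orderOf_dvd_card' 2 h2
    have hz2' : orderOf z = 2 := by
      rw [← hz2]
      exact (Subgroup.orderOf_mk z hz).symm
    have hzz : z * z = 1 := by
      rw [← pow_two, ← hz2', pow_orderOf_eq_one]
    have hz1 : z ≠ 1 := by
      rintro rfl
      rw [orderOf_one] at hz2'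
      exact absurd hz2' (by decide)
    have hzk := (hmemC z).1 hz
    by_cases hzw : z • w = w
    · apply (C_not_normalize h hn).2 z k w v hzz hz1 (Ne.symm h.vw) hzw hw hv hk1
      rw [hzk, mul_inv_cancel_right]
      exact Subgroup.mem_zpowers k
    · have h3 := (C_invert h (Ne.symm hzw) hw (hCfix z hzk w hw)).2 z hzz rfl
      rw [hzk, mul_assoc, hzz, mul_one] at h3
      exact hkk h3.symm
  have hcard : Nat.card {s : Ω // k • s = s} ∣ Nat.card C := by
    have h1 := MulAction.index_stabilizer C w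
    have h2 : (MulAction.stabilizer C w).index ∣ Nat.card C := Subgroup.index_dvd_card _
    rw [h1, horb, ← Nat.card_coe_set_eq] at h2
    exact h2
  have hΔ : ¬ 2 ∣ Nat.card {s : Ω // k • s = s} := fun h2 => hCodd (h2.trans hcard)
  have hτΔ : ∀ s : Ω, k • s = s → k • (τ • s) = τ • s := by
    intro s hs
    have h1 : k * τ = τ * k⁻¹ := by
      rw [← hτk]
      calc k * τ = (τ * τ) * (k * τ) := by rw [hττ, one_mul]
        _ = τ * (τ * k * τ) := by simp only [mul_assoc]
    rw [← mul_smul, h1, mul_smul, hinv _ _ _ hs]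
  haveI : Fintype {s : Ω // k • s = s} := Fintype.ofFinite _
  let T : Equiv.Perm {s : Ω // k • s = s} :=
    { toFun := fun s => ⟨τ • s.1, hτΔ s.1 s.2⟩
      invFun := fun s => ⟨τ • s.1, hτΔ s.1 s.2⟩
      left_inv := by
        intro s
        apply Subtype.ext
        change τ • τ • s.1 = s.1
        rw [← mul_smul, hττ, one_smul]
      right_inv := by
        intro s
        apply Subtype.ext
        change τ • τ • s.1 = s.1
        rw [← mul_smul, hττ, one_smul] }
  have hT2 : T ^ 2 ^ 1 = 1 := by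
    rw [pow_one, pow_two]
    ext s
    change τ • τ • s.1 = s.1
    rw [← mul_smul, hττ, one_smul]
  haveI : Fact (Nat.Prime 2) := ⟨Nat.prime_two⟩
  obtain ⟨⟨s, hs⟩, hTs⟩ := Equiv.Perm.exists_fixed_point_of_prime (p := 2) (n := 1)
    (by rw [← Nat.card_eq_fintype_card]; exact hΔ) hT2
  have hτs : τ • s = s := congrArg Subtype.val hTs
  have hne : ∃ t : Ω, s ≠ t ∧ k • t = t := by
    by_cases hsv : s = v
    · exact ⟨w, hsv ▸ h.vw, hw⟩
    · exact ⟨v, hsv, hv⟩
  obtain ⟨t, hst, ht⟩ := hne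
  apply (C_not_normalize h hn).2 τ k s t hττ hτ1 hst hτs hs ht hk1
  rw [hτi, hτk]
  exact Subgroup.inv_mem _ (Subgroup.mem_zpowers k)

end Pool.Agent.H.MP_6268b4_co
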