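import Pool.Agent.H.MP_6268b4_co.CMainA

/-!
Chiral case: the group is sharply 3-transitive.
-/

namespace Pool.Agent.H.MP_6268b4_co

variable {G Ω : Type*} [Group G] [MulAction G Ω] [Finite G] [Finite Ω] [FaithfulSMul G Ω]
  {v w : Ω} {τ j σ : G}

/-- an element `≠ 1` fixing `v` fixes at most one other point -/
theorem cmainb_two (h : CHyp v w τ j σ) (hn : 4 ≤ Nat.card Ω) {k : G} (hk1 : k ≠ 1)
    (hv : k • v = v) {x y : Ω} (hxv : x ≠ v) (hyv : y ≠ v) (hx : k • x = x) (hy : k • y = y) :
    x = y := by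
  obtain ⟨g, hg1, hg2⟩ := h.two v w v x h.vw hxv.symm
  have hg1' : g⁻¹ • v = v := by rw [inv_smul_eq_iff, hg1]
  have hg2' : g⁻¹ • x = w := by rw [inv_smul_eq_iff, hg2]
  have h1 : (g⁻¹ * k * g) ≠ 1 := by
    intro h2
    apply hk1
    have : k = g * (g⁻¹ * k * g) * g⁻¹ := by group
    rw [this, h2]; group
  have h2 : (g⁻¹ * k * g) • v = v := by
    rw [mul_smul, mul_smul, hg1, hv, hg1']
  have h3 : (g⁻¹ * k * g) • w = w := by
    rw [mul_smul, mul_smul, hg2, hx, hg2']
  have h4 : (g⁻¹ * k * g) • (g⁻¹ • y) = g⁻¹ • y := by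
    rw [mul_smul, mul_smul, smul_inv_smul, hy]
  rcases C_two_fixed h hn h1 h2 h3 h4 with h5 | h5
  · exfalso
    apply hyv
    rw [inv_smul_eq_iff, hg1] at h5
    exact h5
  · rw [inv_smul_eq_iff, hg2] at h5
    exact h5.symm

open Classical in
/-- the number of elements `≠ 1` fixing `v` and no other point -/
theorem cmainb_card (h : CHyp v w τ j σ) (hn : 4 ≤ Nat.card Ω) [Fintype G] [Fintype Ω] :
    (Finset.univ.filter (fun g : G => g ≠ 1 ∧ g • v = v ∧ ∀ y : Ω, y ≠ v → g • y ≠ y)).card =
      Nat.card Ω - 2 := by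
  set s := orderOf σ with hs
  have hspos : 0 < s := orderOf_pos σ
  -- the stabilizer
  set F : Finset G := Finset.univ.filter (fun g : G => g • v = v) with hF
  have hFcard : F.card = (Nat.card Ω - 1) * s := by
    rw [← (C_card h hn).1, Nat.card_eq_fintype_card, Fintype.card_subtype]
    apply congrArg
    ext g
    simp [hF, MulAction.mem_stabilizer_iff]
  -- the other points
  set P : Finset Ω := Finset.univ.filter (fun y : Ω => y ≠ v) with hP
  have hPcard : P.card = Nat.card Ω - 1 := by
    rw [hP, Finset.filter_ne', Finset.card_erase_of_mem (Finset.mem_univ v), Finset.card_univ,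
      Nat.card_eq_fintype_card]
  -- powers of σ different from 1
  set B : Finset G := Finset.univ.filter (fun k : G => k ∈ Subgroup.zpowers σ ∧ k ≠ 1) with hB
  have hBcard : B.card = s - 1 := by
    have h1 : B = (Finset.univ.filter (fun k : G => k ∈ Subgroup.zpowers σ)).erase 1 := by
      ext k
      simp [hB, and_comm]
    have h2 : (Finset.univ.filter (fun k : G => k ∈ Subgroup.zpowers σ)).card = s := by
      rw [hs, ← Nat.card_zpowers, Nat.card_eq_fintype_card, Fintype.card_subtype]
    rw [h1, Finset.card_erase_of_mem (by simp), h2]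
  have hσfix : ∀ k ∈ Subgroup.zpowers σ, k • v = v ∧ k • w = w := by
    intro k hk
    have h1 : Subgroup.zpowers σ ≤ MulAction.stabilizer G v := by
      rw [Subgroup.zpowers_le]; exact h.σv
    have h2 : Subgroup.zpowers σ ≤ MulAction.stabilizer G w := by
      rw [Subgroup.zpowers_le]; exact h.σw
    exact ⟨h1 hk, h2 hk⟩
  -- elements fixing y
  set A : Ω → Finset G := fun y => Finset.univ.filter (fun g : G => g ≠ 1 ∧ g • v = v ∧ g • y = y)
    with hA
  have hAcard : ∀ y ∈ P, (A y).card = s - 1 := by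
    intro y hy
    have hyv : y ≠ v := by simpa [hP] using hy
    obtain ⟨g, hg1, hg2⟩ := h.two v w v y h.vw hyv.symm
    have hg1' : g⁻¹ • v = v := by rw [inv_smul_eq_iff, hg1]
    have hg2' : g⁻¹ • y = w := by rw [inv_smul_eq_iff, hg2]
    rw [← hBcard]
    symm
    apply Finset.card_bij (fun k _ => g * k * g⁻¹)
    · intro k hk
      simp only [hB, Finset.mem_filter, Finset.mem_univ, true_and] at hk
      obtain ⟨f1, f2⟩ := hσfix k hk.1
      simp only [hA, Finset.mem_filter, Finset.mem_univ, true_and]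
      refine ⟨?_, ?_, ?_⟩
      · intro h1
        apply hk.2
        have : k = g⁻¹ * (g * k * g⁻¹) * g := by group
        rw [this, h1]; group
      · rw [mul_smul, mul_smul, hg1', f1, hg1]
      · rw [mul_smul, mul_smul, hg2', f2, hg2]
    · intro k _ k' _ hkk
      have : g * k = g * k' := mul_right_cancel hkk
      exact mul_left_cancel this
    · intro k hk
      simp only [hA, Finset.mem_filter, Finset.mem_univ, true_and] at hk
      obtain ⟨k1, k2, k3⟩ := hk
      refine ⟨g⁻¹ * k * g, ?_, by group⟩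
      simp only [hB, Finset.mem_filter, Finset.mem_univ, true_and]
      refine ⟨?_, ?_⟩
      · apply h.stab2
        · rw [mul_smul, mul_smul, hg1, k2, hg1']
        · rw [mul_smul, mul_smul, hg2, k3, hg2']
      · intro h1
        apply k1
        have : k = g * (g⁻¹ * k * g) * g⁻¹ := by group
        rw [this, h1]; group
  set X : Finset G :=
    Finset.univ.filter (fun g : G => g ≠ 1 ∧ g • v = v ∧ ∀ y : Ω, y ≠ v → g • y ≠ y) with hX
  have hdisj : ∀ y ∈ P, ∀ y' ∈ P, y ≠ y' → Disjoint (A y) (A y') := by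
    intro y hy y' hy' hyy
    rw [Finset.disjoint_left]
    intro g hg hg'
    simp only [hA, Finset.mem_filter, Finset.mem_univ, true_and] at hg hg'
    have hyv : y ≠ v := by simpa [hP] using hy
    have hyv' : y' ≠ v := by simpa [hP] using hy'
    exact hyy (cmainb_two h hn hg.1 hg.2.1 hyv hyv' hg.2.2 hg'.2.2)
  have hU : (P.biUnion A).card = (Nat.card Ω - 1) * (s - 1) := by
    rw [Finset.card_biUnion hdisj, Finset.sum_congr rfl hAcard, Finset.sum_const, smul_eq_mul,
      hPcard]
  have hsplit : F = insert 1 (P.biUnion A ∪ X) := by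
    ext g
    simp only [hF, hA, hX, hP, Finset.mem_filter, Finset.mem_univ, true_and, Finset.mem_insert,
      Finset.mem_union, Finset.mem_biUnion]
    constructor
    · intro hg
      by_cases g1 : g = 1
      · exact Or.inl g1
      · right
        by_cases hy : ∃ y : Ω, y ≠ v ∧ g • y = y
        · obtain ⟨y, hy1, hy2⟩ := hy
          exact Or.inl ⟨y, hy1, g1, hg, hy2⟩
        · right
          push Not at hy
          exact ⟨g1, hg, hy⟩
    · rintro (g1 | ⟨y, _, _, hg, _⟩ | ⟨_, hg, _⟩)
      · rw [g1, one_smul]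
      · exact hg
      · exact hg
  have hd2 : Disjoint (P.biUnion A) X := by
    rw [Finset.disjoint_left]
    intro g hg hg'
    simp only [hA, hX, hP, Finset.mem_filter, Finset.mem_univ, true_and,
      Finset.mem_biUnion] at hg hg'
    obtain ⟨y, hy1, _, _, hy2⟩ := hg
    exact hg'.2.2 y hy1 hy2
  have h1n : (1 : G) ∉ P.biUnion A ∪ X := by
    simp [hA, hX]
  have hcount : F.card = (Nat.card Ω - 1) * (s - 1) + X.card + 1 := by
    rw [hsplit, Finset.card_insert_of_notMem h1n, Finset.card_union_of_disjoint hd2, hU]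
  rw [hFcard] at hcount
  obtain ⟨m, hm⟩ : ∃ m, Nat.card Ω = m + 2 := ⟨Nat.card Ω - 2, by omega⟩
  obtain ⟨q, hq⟩ : ∃ q, s = q + 1 := ⟨s - 1, by omega⟩
  rw [hm, hq] at hcount
  rw [hm]
  have e1 : m + 2 - 1 = m + 1 := by omega
  have e2 : q + 1 - 1 = q := by omega
  rw [e1, e2] at hcount
  have e3 : (m + 1) * (q + 1) = (m + 1) * q + (m + 1) := by ring
  omega

theorem cmainb_comm (h : CHyp v w τ j σ) (hn : 4 ≤ Nat.card Ω) {z z' : G} (hz : z * z = 1)
    (hz' : z' * z' = 1) (hzv : z • v = v) (hzv' : z' • v = v) : z * z' = z' * z := by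
  classical
  by_cases z1 : z = 1
  · rw [z1, one_mul, mul_one]
  by_cases z1' : z' = 1
  · rw [z1', one_mul, mul_one]
  have : Fintype G := Fintype.ofFinite G
  have : Fintype Ω := Fintype.ofFinite Ω
  obtain ⟨c1, c2, c3⟩ := C_centralizer h hn hz z1 hzv
  set X : Finset G :=
    Finset.univ.filter (fun g : G => g ≠ 1 ∧ g • v = v ∧ ∀ y : Ω, y ≠ v → g • y ≠ y) with hX
  set Cz : Finset G := Finset.univ.filter (fun g : G => g ≠ 1 ∧ g * z = z * g) with hCz
  have hsub : Cz ⊆ X := by
    intro g hg
    simp only [hCz, hX, Finset.mem_filter, Finset.mem_univ, true_and] at hg ⊢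
    refine ⟨hg.1, c1 g hg.2, fun y hy hgy => hg.1 (c2 g y hg.2 hy hgy)⟩
  have hCcard : Cz.card = Nat.card Ω - 2 := by
    have h1 : Cz = (Finset.univ.filter
        (fun g : G => g ∈ Subgroup.centralizer ({z} : Set G))).erase 1 := by
      ext g
      simp only [hCz, Finset.mem_filter, Finset.mem_univ, true_and, Finset.mem_erase,
        Subgroup.mem_centralizer_singleton_iff]
    have h2 : (Finset.univ.filter
        (fun g : G => g ∈ Subgroup.centralizer ({z} : Set G))).card = Nat.card Ω - 1 := by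
      rw [← c3, Nat.card_eq_fintype_card, Fintype.card_subtype]
    rw [h1, Finset.card_erase_of_mem (by simp), h2]
    omega
  have hXcard := cmainb_card h hn
  have heq : Cz = X := Finset.eq_of_subset_of_card_le hsub (by rw [hCcard, ← hXcard])
  have hz'X : z' ∈ X := by
    simp only [hX, Finset.mem_filter, Finset.mem_univ, true_and]
    refine ⟨z1', hzv', fun y hy hzy => z1' ?_⟩
    exact (C_inv_fix h hn).1 z' v y hz' hy.symm hzv' hzy
  rw [← heq] at hz'X
  simp only [hCz, Finset.mem_filter, Finset.mem_univ, true_and] at hz'X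
  exact hz'X.2.symm

/-- Job CMain-2. `n = s + 2` and the involutions fixing `v` commute.

Proof. Let `G_v` be the stabilizer of `v`, of order `(n - 1) s`. The elements `≠ 1` of `G_v` fixing
some point `≠ v` fix exactly one such point (`C_two_fixed`, conjugated); for each of the `n - 1`
points `y ≠ v` there are `s - 1` of them; so there are `(n-1)(s-1)` such elements, and the set `X`
of elements `≠ 1` of `G_v` fixing no point `≠ v` has `(n-1)s - 1 - (n-1)(s-1) = n - 2` elements.
Let `z` be an involution fixing `v`. By `C_centralizer` its centralizer has order `n - 1` and all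
its elements `≠ 1` are in `X`: so `X = centralizer {z} ∖ {1}`. Every other involution `z'` fixing
`v` is in `X` (`C_inv_fix`), so it commutes with `z`.
Let `A = {1} ∪ {involutions fixing v}`; it has `s + 1` elements (`C_card_inv`), it is a subgroup
(the product of two commuting involutions fixing `v` is `1` or an involution fixing `v`),
contained in `centralizer {j}`, of order `n - 1`: so `s + 1 ≤ n - 1`. `σ` normalizes `A`, so
`A * zpowers σ` is a subgroup with at most `(s + 1) s` elements, containing `j` and `σ`, hence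
`G_v = closure {j, σ}`: `(n - 1) s ≤ (s + 1) s`. So `n = s + 2`. -/
theorem C_card_eq (h : CHyp v w τ j σ) (hn : 4 ≤ Nat.card Ω) :
    Nat.card Ω = orderOf σ + 2 ∧
    (∀ z z' : G, z * z = 1 → z' * z' = 1 → z • v = v → z' • v = v → z * z' = z' * z) := by
  classical
  refine ⟨?_, fun z z' hz hz' hzv hzv' => cmainb_comm h hn hz hz' hzv hzv'⟩
  have : Fintype G := Fintype.ofFinite G
  have : Fintype Ω := Fintype.ofFinite Ω
  obtain ⟨j1, _, hs3⟩ := C_basic h hn
  -- the subgroup A
  let A : Subgroup G :=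
    { carrier := {g | g * g = 1 ∧ g • v = v}
      one_mem' := ⟨by group, one_smul _ _⟩
      mul_mem' := by
        rintro a b ⟨ha, hav⟩ ⟨hb, hbv⟩
        have hab := cmainb_comm h hn ha hb hav hbv
        refine ⟨?_, by rw [mul_smul, hbv, hav]⟩
        calc a * b * (a * b) = a * (b * a) * b := by group
          _ = (a * a) * (b * b) := by rw [← hab]; group
          _ = 1 := by rw [ha, hb, one_mul]
      inv_mem' := by
        rintro a ⟨ha, hav⟩
        have : a⁻¹ = a := inv_eq_of_mul_eq_one_left ha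
        rw [this]
        exact ⟨ha, hav⟩ }
  have hAmem : ∀ g, g ∈ A ↔ g * g = 1 ∧ g • v = v := fun g => Iff.rfl
  have hAcard : Nat.card A = orderOf σ + 1 := by
    have h1 : (Finset.univ.filter (fun g : G => g ∈ A)) =
        insert 1 (Finset.univ.filter (fun z : G => z ≠ 1 ∧ z * z = 1 ∧ z • v = v)) := by
      ext g
      simp only [Finset.mem_filter, Finset.mem_univ, true_and, Finset.mem_insert, hAmem]
      constructor
      · intro hg
        by_cases g1 : g = 1
        · exact Or.inl g1
        · exact Or.inr ⟨g1, hg.1, hg.2⟩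
      · rintro (g1 | ⟨_, hg, hg'⟩)
        · rw [g1]
          exact ⟨by group, one_smul _ _⟩
        · exact ⟨hg, hg'⟩
    have h2 := C_card_inv h hn
    rw [Nat.card_eq_fintype_card, Fintype.card_subtype] at h2
    rw [Nat.card_eq_fintype_card, Fintype.card_subtype, h1, Finset.card_insert_of_notMem (by simp),
      h2]
  -- A is contained in the centralizer of j
  obtain ⟨_, _, c3⟩ := C_centralizer h hn h.jj j1 h.jv
  have hle : A ≤ Subgroup.centralizer ({j} : Set G) := by
    intro g hg
    rw [hAmem] at hg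
    rw [Subgroup.mem_centralizer_singleton_iff]
    exact cmainb_comm h hn hg.1 h.jj hg.2 h.jv
  have hle1 : orderOf σ + 1 ≤ Nat.card Ω - 1 := by
    rw [← hAcard, ← c3]
    exact Subgroup.card_le_of_le hle
  -- the other inequality
  have hσA : ∀ a ∈ A, σ * a * σ⁻¹ ∈ A := by
    intro a ha
    rw [hAmem] at ha ⊢
    have hσv' : σ⁻¹ • v = v := by rw [inv_smul_eq_iff, h.σv]
    refine ⟨?_, by rw [mul_smul, mul_smul, hσv', ha.2, h.σv]⟩
    calc σ * a * σ⁻¹ * (σ * a * σ⁻¹) = σ * (a * a) * σ⁻¹ := by group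
      _ = 1 := by rw [ha.1]; group
  have hσA' : ∀ a ∈ A, σ⁻¹ * a * σ ∈ A := by
    intro a ha
    rw [hAmem] at ha ⊢
    have hσv' : σ⁻¹ • v = v := by rw [inv_smul_eq_iff, h.σv]
    refine ⟨?_, by rw [mul_smul, mul_smul, h.σv, ha.2, hσv']⟩
    calc σ⁻¹ * a * σ * (σ⁻¹ * a * σ) = σ⁻¹ * (a * a) * σ := by group
      _ = 1 := by rw [ha.1]; group
  have hjA : j ∈ A := ⟨h.jj, h.jv⟩
  have hgen : ∀ g ∈ Subgroup.closure {j, σ}, ∃ a ∈ A, ∃ k ∈ Subgroup.zpowers σ, g = a * k := by
    intro g hg
    induction hg using Subgroup.closure_induction_left with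
    | one => exact ⟨1, A.one_mem, 1, Subgroup.one_mem _, by group⟩
    | mul_left x hx y hy ih =>
      obtain ⟨a, ha, k, hk, rfl⟩ := ih
      rcases hx with rfl | hx
      · exact ⟨_, A.mul_mem hjA ha, k, hk, by group⟩
      · rw [Set.mem_singleton_iff] at hx
        subst hx
        exact ⟨_, hσA a ha, x * k, Subgroup.mul_mem _ (Subgroup.mem_zpowers x) hk, by group⟩
    | inv_mul_cancel x hx y hy ih =>
      obtain ⟨a, ha, k, hk, rfl⟩ := ih
      rcases hx with rfl | hx
      · exact ⟨_, A.mul_mem (A.inv_mem hjA) ha, k, hk, by group⟩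
      · rw [Set.mem_singleton_iff] at hx
        subst hx
        exact ⟨_, hσA' a ha, x⁻¹ * k,
          Subgroup.mul_mem _ (Subgroup.inv_mem _ (Subgroup.mem_zpowers x)) hk, by group⟩
  have hsurj : Nat.card (MulAction.stabilizer G v) ≤ Nat.card (A × Subgroup.zpowers σ) := by
    have hmap : ∀ g : MulAction.stabilizer G v, ∃ p : A × Subgroup.zpowers σ,
        (g : G) = p.1 * p.2 := by
      intro g
      obtain ⟨a, ha, k, hk, hak⟩ := hgen g (h.stab1 g g.2)
      exact ⟨(⟨a, ha⟩, ⟨k, hk⟩), hak⟩
    choose f hf using hmap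
    apply Nat.card_le_card_of_injective f
    intro g g' hgg
    apply Subtype.ext
    rw [hf g, hf g', hgg]
  rw [Nat.card_prod, hAcard, Nat.card_zpowers, (C_card h hn).1] at hsurj
  have hle2 : Nat.card Ω - 1 ≤ orderOf σ + 1 :=
    Nat.le_of_mul_le_mul_right hsurj (orderOf_pos σ)
  omega

end Pool.Agent.H.MP_6268b4_co
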