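import Pool.Agent.H.MP_6268b4_co.CMainB

/-!
Chiral case: the group is sharply 3-transitive.
-/

namespace Pool.Agent.H.MP_6268b4_co

variable {G Ω : Type*} [Group G] [MulAction G Ω] [Finite G] [Finite Ω] [FaithfulSMul G Ω]
  {v w : Ω} {τ j σ : G}

omit [Group G] [MulAction G Ω] [Finite G] [FaithfulSMul G Ω] in
private theorem cmainc_card_ne (v : Ω) : Nat.card {y : Ω // y ≠ v} = Nat.card Ω - 1 := by
  classical
  have := Fintype.ofFinite Ω
  rw [Nat.card_eq_fintype_card, Nat.card_eq_fintype_card, Fintype.card_subtype,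
    Finset.filter_ne', Finset.card_erase_of_mem (Finset.mem_univ v), Finset.card_univ]

omit [Group G] [MulAction G Ω] [Finite G] [FaithfulSMul G Ω] in
private theorem cmainc_card_ne2 {v w : Ω} (hvw : v ≠ w) :
    Nat.card {y : Ω // y ≠ v ∧ y ≠ w} = Nat.card Ω - 2 := by
  classical
  have := Fintype.ofFinite Ω
  have h1 : (Finset.univ.filter fun y : Ω => y ≠ v ∧ y ≠ w) = (Finset.univ.erase v).erase w := by
    ext y
    simp only [Finset.mem_filter, Finset.mem_univ, true_and, Finset.mem_erase, and_true]
    tauto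
  rw [Nat.card_eq_fintype_card, Nat.card_eq_fintype_card, Fintype.card_subtype, h1,
    Finset.card_erase_of_mem (Finset.mem_erase.mpr ⟨hvw.symm, Finset.mem_univ w⟩),
    Finset.card_erase_of_mem (Finset.mem_univ v), Finset.card_univ]
  omega

omit [FaithfulSMul G Ω] [Finite Ω] in
private theorem cmainc_card_A (v : Ω) :
    Nat.card {z : G // z * z = 1 ∧ z • v = v}
      = Nat.card {z : G // z ≠ 1 ∧ z * z = 1 ∧ z • v = v} + 1 := by
  classical
  have := Fintype.ofFinite G
  have h1 : (Finset.univ.filter fun z : G => z * z = 1 ∧ z • v = v)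
      = insert 1 (Finset.univ.filter fun z : G => z ≠ 1 ∧ z * z = 1 ∧ z • v = v) := by
    ext z
    simp only [Finset.mem_filter, Finset.mem_univ, true_and, Finset.mem_insert]
    constructor
    · intro h
      by_cases hz : z = 1
      · exact Or.inl hz
      · exact Or.inr ⟨hz, h.1, h.2⟩
    · rintro (rfl | h)
      · exact ⟨one_mul 1, one_smul G v⟩
      · exact ⟨h.2.1, h.2.2⟩
  rw [Nat.card_eq_fintype_card, Nat.card_eq_fintype_card, Fintype.card_subtype,
    Fintype.card_subtype, h1, Finset.card_insert_of_notMem]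
  simp

/-- Job CMain-3. The subgroup `A` of `1` and the involutions fixing `v` acts simply transitively on
the points different from `v`; and `σ` acts simply transitively on the points different from
`v, w`.

Proof. `A` as in `C_card_eq`, of order `s + 1 = n - 1`; its elements `≠ 1` fix only `v`
(`C_inv_fix`), so for fixed `x ≠ v` the map `A → {points ≠ v}`, `g ↦ g x` is injective, hence
bijective by cardinality. The powers `≠ 1` of `σ` fix only `v, w` (`C_two_fixed`), there are `s` of
them, `s = n - 2`: same argument. -/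
theorem C_regular (h : CHyp v w τ j σ) (hn : 4 ≤ Nat.card Ω) :
    (∀ x y : Ω, x ≠ v → y ≠ v → ∃! g : G, g * g = 1 ∧ g • v = v ∧ g • x = y) ∧
    (∀ x y : Ω, x ≠ v → x ≠ w → y ≠ v → y ≠ w →
      ∃! g : G, g ∈ Subgroup.zpowers σ ∧ g • x = y) := by
  obtain ⟨hcard, hcomm⟩ := C_card_eq h hn
  have hinv := (C_inv_fix h hn).1
  have hci := C_card_inv h hn
  constructor
  · intro x y hx hy
    have hstab : ∀ g : G, g • v = v → g • x ≠ v := by
      intro g hg hc
      apply hx
      have : g • x = g • v := by rw [hc, hg]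
      exact MulAction.injective g this
    let f : {z : G // z * z = 1 ∧ z • v = v} → {y : Ω // y ≠ v} :=
      fun g => ⟨g.1 • x, hstab g.1 g.2.2⟩
    have hf : Function.Injective f := by
      rintro ⟨g, hg1, hg2⟩ ⟨g', hg1', hg2'⟩ hgg
      have hgg' : g • x = g' • x := congrArg Subtype.val hgg
      have hc : g * g' = g' * g := hcomm g g' hg1 hg1' hg2 hg2'
      have h1 : g * g' = 1 := by
        refine hinv (g * g') v x ?_ (Ne.symm hx) ?_ ?_
        · calc g * g' * (g * g') = g * (g' * g) * g' := by group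
            _ = g * (g * g') * g' := by rw [← hc]
            _ = (g * g) * (g' * g') := by group
            _ = 1 := by rw [hg1, hg1', one_mul]
        · rw [mul_smul, hg2', hg2]
        · rw [mul_smul, ← hgg', ← mul_smul, hg1, one_smul]
      have h2 : g' = g := by
        calc g' = (g * g) * g' := by rw [hg1, one_mul]
          _ = g * (g * g') := by group
          _ = g := by rw [h1, mul_one]
      exact Subtype.ext h2.symm
    have hb : Function.Bijective f := by
      apply hf.bijective_of_nat_card_le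
      rw [cmainc_card_ne, cmainc_card_A, hci]
      omega
    obtain ⟨⟨g, hg1, hg2⟩, hg⟩ := hb.2 ⟨y, hy⟩
    refine ⟨g, ⟨hg1, hg2, congrArg Subtype.val hg⟩, ?_⟩
    rintro g' ⟨hg1', hg2', hg3'⟩
    have h3 : f ⟨g', hg1', hg2'⟩ = f ⟨g, hg1, hg2⟩ := by
      rw [hg]
      exact Subtype.ext hg3'
    exact congrArg Subtype.val (hb.1 h3)
  · intro x y hxv hxw hyv hyw
    have hzv : ∀ g ∈ Subgroup.zpowers σ, g • v = v := by
      intro g hg
      have h1 : Subgroup.zpowers σ ≤ MulAction.stabilizer G v := by
        rw [Subgroup.zpowers_le]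
        exact h.σv
      exact h1 hg
    have hzw : ∀ g ∈ Subgroup.zpowers σ, g • w = w := by
      intro g hg
      have h1 : Subgroup.zpowers σ ≤ MulAction.stabilizer G w := by
        rw [Subgroup.zpowers_le]
        exact h.σw
      exact h1 hg
    have hstab : ∀ g ∈ Subgroup.zpowers σ, g • x ≠ v ∧ g • x ≠ w := by
      intro g hg
      refine ⟨fun hc => hxv ?_, fun hc => hxw ?_⟩
      · exact MulAction.injective g (hc.trans (hzv g hg).symm)
      · exact MulAction.injective g (hc.trans (hzw g hg).symm)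
    let f : Subgroup.zpowers σ → {y : Ω // y ≠ v ∧ y ≠ w} :=
      fun g => ⟨g.1 • x, hstab g.1 g.2⟩
    have hf : Function.Injective f := by
      rintro ⟨g, hg⟩ ⟨g', hg'⟩ hgg
      have hgg' : g • x = g' • x := congrArg Subtype.val hgg
      have hm : g⁻¹ * g' ∈ Subgroup.zpowers σ := mul_mem (inv_mem hg) hg'
      have h1 : g⁻¹ * g' = 1 := by
        by_contra hne
        rcases C_two_fixed h hn hne (hzv _ hm) (hzw _ hm) (x := x)
          (by rw [mul_smul, ← hgg', inv_smul_smul]) with h2 | h2
        · exact hxv h2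
        · exact hxw h2
      exact Subtype.ext (inv_mul_eq_one.mp h1)
    have hb : Function.Bijective f := by
      apply hf.bijective_of_nat_card_le
      rw [cmainc_card_ne2 h.vw, Nat.card_zpowers]
      omega
    obtain ⟨⟨g, hg1⟩, hg⟩ := hb.2 ⟨y, hyv, hyw⟩
    refine ⟨g, ⟨hg1, congrArg Subtype.val hg⟩, ?_⟩
    rintro g' ⟨hg1', hg3'⟩
    have h3 : f ⟨g', hg1'⟩ = f ⟨g, hg1⟩ := by
      rw [hg]
      exact Subtype.ext hg3'
    exact congrArg Subtype.val (hb.1 h3)

end Pool.Agent.H.MP_6268b4_co
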