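import Pool.Agent.H.MP_6268b4_co.CMainC

/-!
Chiral case: the group is sharply 3-transitive.
-/

namespace Pool.Agent.H.MP_6268b4_co

variable {G Ω : Type*} [Group G] [MulAction G Ω] [Finite G] [Finite Ω] [FaithfulSMul G Ω]
  {v w : Ω} {τ j σ : G}

section cmaind

variable {G Ω : Type*} [Group G] [MulAction G Ω] {v w : Ω} {τ j σ : G}

/-- the image of the hypotheses in the permutation group -/
theorem cmaind_image [Finite G] (h : CHyp v w τ j σ) :
    CHyp v w ((MulAction.toPermHom G Ω).rangeRestrict τ) ((MulAction.toPermHom G Ω).rangeRestrict j)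
      ((MulAction.toPermHom G Ω).rangeRestrict σ) where
  two := by
    intro x y x' y' h1 h2
    obtain ⟨g, hg1, hg2⟩ := h.two x y x' y' h1 h2
    exact ⟨(MulAction.toPermHom G Ω).rangeRestrict g, hg1, hg2⟩
  vw := h.vw
  ττ := by rw [← map_mul, h.ττ, map_one]
  jj := by rw [← map_mul, h.jj, map_one]
  odd := by
    have h1 : orderOf ((MulAction.toPermHom G Ω).rangeRestrict σ) ∣ orderOf σ :=
      orderOf_map_dvd _ σ
    exact Odd.of_dvd_nat h.odd h1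
  σv := h.σv
  σw := h.σw
  τv := h.τv
  jv := h.jv
  τσ := by rw [← map_mul, ← map_mul, h.τσ, map_inv]
  stab2 := by
    rintro ⟨_, g, rfl⟩ h1 h2
    obtain ⟨i, hi⟩ := Subgroup.mem_zpowers_iff.1 (h.stab2 g h1 h2)
    refine Subgroup.mem_zpowers_iff.2 ⟨i, ?_⟩
    rw [← map_zpow, hi]
    rfl
  stab1 := by
    rintro ⟨_, g, rfl⟩ h1
    have h2 := Subgroup.mem_map_of_mem (MulAction.toPermHom G Ω).rangeRestrict (h.stab1 g h1)
    rw [MonoidHom.map_closure, Set.image_pair] at h2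
    exact h2

theorem cmaind_eq_iff {g g' : G} :
    (MulAction.toPermHom G Ω).rangeRestrict g = (MulAction.toPermHom G Ω).rangeRestrict g' ↔
      ∀ x : Ω, g • x = g' • x := by
  constructor
  · intro h x
    have h1 : ((MulAction.toPermHom G Ω).rangeRestrict g) • x =
      ((MulAction.toPermHom G Ω).rangeRestrict g') • x := by rw [h]
    exact h1
  · intro h
    apply Subtype.ext
    apply Equiv.ext
    intro x
    exact h x

end cmaind

/-- Job CMain-4. Without faithfulness: `n = 3` or the action is faithful.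

Proof. Let `π : G →* Equiv.Perm Ω` be the action, `Gbar = π.range` with its natural faithful
action; `CHyp v w (π τ) (π j) (π σ)` holds for `Gbar`. Suppose `4 ≤ n`. Let `K = π.ker ≤ zpowers σ`
(`stab2`). For `k ∈ K`: `τ k τ = k⁻¹`. The elements `z_i = σ^i j σ^(-i)` act on `K` by conjugation
like `j` (as `σ` commutes with `K` and `j K j = K`). In `Gbar` the images of `j` and of
`z_1 = σ j σ⁻¹` are two different commuting involutions fixing `v` (`C_card_eq`,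
`C_not_normalize` for `Gbar`: `π σ` does not commute with `π j`), so their product is an involution
fixing `v`, hence `= π z_m` for some `m` (`C_not_normalize`): `j z_1 = z_m k₀`, `k₀ ∈ K`.
Conjugation by `j z_1` on `K` is trivial (`j` applied twice), conjugation by `z_m k₀` is that of
`j`. So `j k j = k` for `k ∈ K`. By `C_conj` for `Gbar`, `π τ` and `π j` are conjugate:
`g τ g⁻¹ = j k₁`, `k₁ ∈ K`. For `k ∈ K`: `g τ g⁻¹` inverts `k` (`g⁻¹ k g ∈ K` is inverted by `τ`),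
while `j k₁` centralizes `k`. So `k = k⁻¹`, and `k = 1` (odd order). -/
theorem C_faithful {G Ω : Type*} [Group G] [MulAction G Ω] [Finite G] [Finite Ω]
    {v w : Ω} {τ j σ : G} (h : CHyp v w τ j σ) (hn : 4 ≤ Nat.card Ω) : FaithfulSMul G Ω := by
  classical
  set ρ := (MulAction.toPermHom G Ω).rangeRestrict with hρ
  have hb : CHyp v w (ρ τ) (ρ j) (ρ σ) := cmaind_image h
  haveI : Finite (MulAction.toPermHom G Ω).range := Finite.of_surjective ρ
    (MonoidHom.rangeRestrict_surjective _)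
  haveI : FaithfulSMul (MulAction.toPermHom G Ω).range Ω := by
    refine ⟨?_⟩
    rintro ⟨_, g, rfl⟩ ⟨_, g', rfl⟩ h1
    exact cmaind_eq_iff.2 h1
  -- the kernel
  have hKz : ∀ k : G, (∀ x : Ω, k • x = x) → k ∈ Subgroup.zpowers σ := by
    intro k hk
    exact h.stab2 k (hk v) (hk w)
  have hKc : ∀ (g k : G), (∀ x : Ω, k • x = x) → ∀ x : Ω, (g * k * g⁻¹) • x = x := by
    intro g k hk x
    rw [mul_smul, mul_smul, hk, smul_inv_smul]
  have hKσ : ∀ (i : ℤ) (k : G), (∀ x : Ω, k • x = x) → σ ^ i * k = k * σ ^ i := by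
    intro i k hk
    obtain ⟨l, hl⟩ := Subgroup.mem_zpowers_iff.1 (hKz k hk)
    rw [← hl, ← zpow_add, ← zpow_add, add_comm]
  have hKK : ∀ (k k' : G), (∀ x : Ω, k • x = x) → (∀ x : Ω, k' • x = x) → k * k' = k' * k := by
    intro k k' hk hk'
    obtain ⟨l, hl⟩ := Subgroup.mem_zpowers_iff.1 (hKz k hk)
    rw [← hl]
    exact hKσ l k' hk'
  have hτinv : τ⁻¹ = τ := inv_eq_of_mul_eq_one_left h.ττ
  have hjinv : j⁻¹ = j := inv_eq_of_mul_eq_one_left h.jj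
  have hτk : ∀ k : G, (∀ x : Ω, k • x = x) → τ * k * τ⁻¹ = k⁻¹ := by
    intro k hk
    obtain ⟨l, hl⟩ := Subgroup.mem_zpowers_iff.1 (hKz k hk)
    have h1 : τ * σ * τ⁻¹ = σ⁻¹ := by rw [hτinv]; exact h.τσ
    rw [← hl, ← conj_zpow, h1, inv_zpow]
  -- the product of two involutions
  obtain ⟨hj1, hjw, hσ3⟩ := C_basic hb hn
  obtain ⟨-, hcomm⟩ := C_card_eq hb hn
  obtain ⟨hall, hnn⟩ := C_not_normalize hb hn
  have hσ1 : ρ σ ≠ 1 := by
    intro h1
    rw [h1, orderOf_one] at hσ3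
    omega
  have hne : ρ σ * ρ j * (ρ σ)⁻¹ ≠ ρ j := by
    intro h1
    have h2 := hnn (ρ j) (ρ σ) v w hb.jj hj1 hb.vw hb.jv hb.σv hb.σw hσ1
    apply h2
    have h3 : ρ j * ρ σ * (ρ j)⁻¹ = ρ σ := by
      have h4 : ρ σ * ρ j = ρ j * ρ σ := by
        calc ρ σ * ρ j = (ρ σ * ρ j * (ρ σ)⁻¹) * ρ σ := by group
          _ = ρ j * ρ σ := by rw [h1]
      rw [← h4]
      group
    rw [h3]
    exact Subgroup.mem_zpowers _
  have hz1 : (ρ σ * ρ j * (ρ σ)⁻¹) * (ρ σ * ρ j * (ρ σ)⁻¹) = 1 := by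
    calc (ρ σ * ρ j * (ρ σ)⁻¹) * (ρ σ * ρ j * (ρ σ)⁻¹) = ρ σ * (ρ j * ρ j) * (ρ σ)⁻¹ := by group
      _ = 1 := by rw [hb.jj]; group
  have hσinvv : (ρ σ)⁻¹ • v = v := by
    rw [inv_smul_eq_iff, hb.σv]
  have hzv : (ρ σ * ρ j * (ρ σ)⁻¹) • v = v := by
    rw [mul_smul, mul_smul, hσinvv, hb.jv, hb.σv]
  have hc := hcomm (ρ j) (ρ σ * ρ j * (ρ σ)⁻¹) hb.jj hz1 hb.jv hzv
  have hm1 : (ρ j * (ρ σ * ρ j * (ρ σ)⁻¹)) * (ρ j * (ρ σ * ρ j * (ρ σ)⁻¹)) = 1 := by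
    calc (ρ j * (ρ σ * ρ j * (ρ σ)⁻¹)) * (ρ j * (ρ σ * ρ j * (ρ σ)⁻¹))
        = ρ j * ((ρ σ * ρ j * (ρ σ)⁻¹) * ρ j) * (ρ σ * ρ j * (ρ σ)⁻¹) := by
          simp only [mul_assoc]
      _ = ρ j * (ρ j * (ρ σ * ρ j * (ρ σ)⁻¹)) * (ρ σ * ρ j * (ρ σ)⁻¹) := by rw [← hc]
      _ = (ρ j * ρ j) * ((ρ σ * ρ j * (ρ σ)⁻¹) * (ρ σ * ρ j * (ρ σ)⁻¹)) := by
          simp only [mul_assoc]
      _ = 1 := by rw [hb.jj, hz1, one_mul]
  have hmne : ρ j * (ρ σ * ρ j * (ρ σ)⁻¹) ≠ 1 := by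
    intro h1
    apply hne
    calc ρ σ * ρ j * (ρ σ)⁻¹ = (ρ j * ρ j) * (ρ σ * ρ j * (ρ σ)⁻¹) := by rw [hb.jj, one_mul]
      _ = ρ j * (ρ j * (ρ σ * ρ j * (ρ σ)⁻¹)) := by simp only [mul_assoc]
      _ = ρ j := by rw [h1, mul_one]
  have hmv : (ρ j * (ρ σ * ρ j * (ρ σ)⁻¹)) • v = v := by
    rw [mul_smul, hzv, hb.jv]
  obtain ⟨i, hi⟩ := hall _ hm1 hmne hmv
  -- j centralizes the kernel
  have hjk : ∀ k : G, (∀ x : Ω, k • x = x) → j * k * j⁻¹ = k := by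
    intro k hk
    have hk0 : ∀ x : Ω, ((σ ^ i * j * (σ ^ i)⁻¹)⁻¹ * (j * (σ * j * σ⁻¹))) • x = x := by
      have h1 : ρ ((σ ^ i * j * (σ ^ i)⁻¹)⁻¹ * (j * (σ * j * σ⁻¹))) = ρ 1 := by
        simp only [map_mul, map_inv, map_zpow, map_one]
        rw [hi]
        exact inv_mul_cancel _
      intro x
      have h2 := cmaind_eq_iff.1 h1 x
      rwa [one_smul] at h2
    set k0 := (σ ^ i * j * (σ ^ i)⁻¹)⁻¹ * (j * (σ * j * σ⁻¹)) with hk0def
    have hprod : j * (σ * j * σ⁻¹) = (σ ^ i * j * (σ ^ i)⁻¹) * k0 := by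
      rw [hk0def]; group
    have hjk' : ∀ x : Ω, (j * k * j⁻¹) • x = x := hKc j k hk
    -- conjugation by a power of σ is trivial
    have hcσ : ∀ (l : ℤ) (k : G), (∀ x : Ω, k • x = x) → σ ^ l * k * (σ ^ l)⁻¹ = k := by
      intro l k hk
      rw [hKσ l k hk]
      group
    have hcσ' : ∀ (l : ℤ) (k : G), (∀ x : Ω, k • x = x) → (σ ^ l)⁻¹ * k * σ ^ l = k := by
      intro l k hk
      have := hcσ (-l) k hk
      rwa [zpow_neg, inv_inv] at this
    have e1 : (j * (σ * j * σ⁻¹)) * k * (j * (σ * j * σ⁻¹))⁻¹ = k := by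
      have h1 : σ⁻¹ * k * σ = k := by
        have := hcσ' 1 k hk
        rwa [zpow_one] at this
      have h2 : σ * (j * k * j⁻¹) * σ⁻¹ = j * k * j⁻¹ := by
        have := hcσ 1 _ hjk'
        rwa [zpow_one] at this
      calc (j * (σ * j * σ⁻¹)) * k * (j * (σ * j * σ⁻¹))⁻¹
          = j * (σ * (j * (σ⁻¹ * k * σ) * j⁻¹) * σ⁻¹) * j⁻¹ := by group
        _ = j * (j * k * j⁻¹) * j⁻¹ := by rw [h1, h2]
        _ = (j * j) * k * (j * j)⁻¹ := by group
        _ = k := by rw [h.jj]; group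
    have e2 : ((σ ^ i * j * (σ ^ i)⁻¹) * k0) * k * ((σ ^ i * j * (σ ^ i)⁻¹) * k0)⁻¹ =
        j * k * j⁻¹ := by
      have h1 : k0 * k * k0⁻¹ = k := by
        rw [hKK k0 k hk0 hk]
        group
      calc ((σ ^ i * j * (σ ^ i)⁻¹) * k0) * k * ((σ ^ i * j * (σ ^ i)⁻¹) * k0)⁻¹
          = σ ^ i * (j * ((σ ^ i)⁻¹ * (k0 * k * k0⁻¹) * σ ^ i) * j⁻¹) * (σ ^ i)⁻¹ := by
            simp only [mul_assoc, mul_inv_rev, inv_inv]
        _ = j * k * j⁻¹ := by rw [h1, hcσ' i k hk, hcσ i _ hjk']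
    rw [← e2, ← hprod, e1]
  -- τ and j are conjugate modulo the kernel
  have hτ1 : ρ τ ≠ 1 := by
    intro h1
    have h2 := hb.τv
    rw [h1, one_smul] at h2
    exact h.vw h2
  obtain ⟨hconj, -⟩ := C_conj hb hn hb.ττ hτ1 hb.jj hj1
  obtain ⟨c, hc⟩ := isConj_iff.1 hconj
  obtain ⟨g, rfl⟩ := MonoidHom.rangeRestrict_surjective _ c
  have hk1 : ∀ x : Ω, (j⁻¹ * (g * τ * g⁻¹)) • x = x := by
    have h1 : ρ (j⁻¹ * (g * τ * g⁻¹)) = ρ 1 := by
      simp only [map_mul, map_inv, map_one]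
      rw [← hc]
      exact inv_mul_cancel _
    intro x
    have h2 := cmaind_eq_iff.1 h1 x
    rwa [one_smul] at h2
  have hmain : ∀ k : G, (∀ x : Ω, k • x = x) → k = 1 := by
    intro k hk
    set k1 := j⁻¹ * (g * τ * g⁻¹) with hk1def
    have hprod : g * τ * g⁻¹ = j * k1 := by rw [hk1def]; group
    have e1 : (g * τ * g⁻¹) * k * (g * τ * g⁻¹)⁻¹ = k⁻¹ := by
      have hk' : ∀ x : Ω, (g⁻¹ * k * g) • x = x := by
        have := hKc g⁻¹ k hk
        rwa [inv_inv] at this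
      calc (g * τ * g⁻¹) * k * (g * τ * g⁻¹)⁻¹ = g * (τ * (g⁻¹ * k * g) * τ⁻¹) * g⁻¹ := by group
        _ = g * (g⁻¹ * k * g)⁻¹ * g⁻¹ := by rw [hτk _ hk']
        _ = k⁻¹ := by group
    have e2 : (j * k1) * k * (j * k1)⁻¹ = k := by
      have h1 : k1 * k * k1⁻¹ = k := by
        rw [hKK k1 k hk1 hk]
        group
      calc (j * k1) * k * (j * k1)⁻¹ = j * (k1 * k * k1⁻¹) * j⁻¹ := by
            simp only [mul_assoc, mul_inv_rev]
        _ = k := by rw [h1, hjk k hk]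
    have e3 : k⁻¹ = k := by rw [← e1, hprod, e2]
    have hkk : k ^ 2 = 1 := by
      rw [pow_two]
      calc k * k = k⁻¹ * k := by rw [e3]
        _ = 1 := inv_mul_cancel k
    have ho2 : orderOf k ∣ 2 := orderOf_dvd_of_pow_eq_one hkk
    have hoσ : orderOf k ∣ orderOf σ := orderOf_dvd_of_mem_zpowers (hKz k hk)
    have hodd : Odd (orderOf k) := Odd.of_dvd_nat h.odd hoσ
    have ho1 : orderOf k = 1 := by
      rcases (Nat.dvd_prime Nat.prime_two).1 ho2 with h1 | h1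
      · exact h1
      · rw [h1] at hodd
        exact absurd hodd (by decide)
    exact orderOf_eq_one_iff.1 ho1
  refine ⟨?_⟩
  intro g1 g2 h12
  have h1 : ∀ x : Ω, (g2⁻¹ * g1) • x = x := by
    intro x
    rw [mul_smul, h12 x, inv_smul_smul]
  have h2 := hmain _ h1
  rw [inv_mul_eq_one] at h2
  exact h2.symm

end Pool.Agent.H.MP_6268b4_co
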