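import Pool.Agent.H.MP_6268b4_co.CRMobA

/-!
Automorphisms and the self-duality of the cross-ratio polytopes.
-/

namespace Pool.Agent.H.MP_6268b4_co

namespace CR

variable {F : Type*} [Field F] [DecidableEq F] {ω : F}

/-- the image of a pair of points -/
def mapPair (g : Equiv.Perm (Option F)) (s : {s : Finset (Option F) // s.card = 2}) :
    {s : Finset (Option F) // s.card = 2} :=
  ⟨s.1.map g.toEmbedding, by rw [Finset.card_map]; exact s.2⟩

/-- the map induced by a permutation of the projective line -/
def mapF (g : Equiv.Perm (Option F)) : CR F ω → CR F ω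
  | bot => bot
  | vert a => vert (g a)
  | edge s => edge (mapPair g s)
  | face s => face (mapPair g s)
  | facet y => facet (g y)
  | top => top

theorem crauto_map_symm (g : Equiv.Perm (Option F)) (s : Finset (Option F)) :
    (s.map g.toEmbedding).map g.symm.toEmbedding = s := by
  ext x
  simp only [Finset.mem_map_equiv, Equiv.symm_symm, Equiv.symm_apply_apply]

theorem crauto_symm_map (g : Equiv.Perm (Option F)) (s : Finset (Option F)) :
    (s.map g.symm.toEmbedding).map g.toEmbedding = s := by
  ext x
  simp only [Finset.mem_map_equiv, Equiv.symm_symm, Equiv.apply_symm_apply]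

theorem crauto_map_pair (g : Equiv.Perm (Option F)) (a b : Option F) :
    ({a, b} : Finset (Option F)).map g.toEmbedding = {g a, g b} := by
  rw [Finset.map_insert, Finset.map_singleton]
  rfl

/-- Proof: `Inc ω (s.map g) (s'.map g) ↔ Inc ω s s'` from `Pres` (both directions: unfold `Inc`, the
pair `s.map g = {a, b}` is the image of `{g.symm a, g.symm b}`). -/
theorem inc_map {g : Equiv.Perm (Option F)} (hg : Pres ω g) (s s' : Finset (Option F)) :
    Inc ω (s.map g.toEmbedding) (s'.map g.toEmbedding) ↔ Inc ω s s' := by
  constructor
  · rintro ⟨a, b, y, y', h1, h2, h3⟩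
    refine ⟨g.symm a, g.symm b, g.symm y, g.symm y', ?_, ?_, ?_⟩
    · rw [← crauto_map_symm g s, h1, crauto_map_pair]
    · rw [← crauto_map_symm g s', h2, crauto_map_pair]
    · have := (hg (g.symm a) (g.symm b) (g.symm y) (g.symm y')).1
      simp only [Equiv.apply_symm_apply] at this
      exact this h3
  · rintro ⟨a, b, y, y', rfl, rfl, h3⟩
    exact ⟨g a, g b, g y, g y', crauto_map_pair g a b, crauto_map_pair g y y',
      (hg a b y y').2 h3⟩

omit [DecidableEq F] in
theorem crauto_mapF_symm [DecidableEq F] (g : Equiv.Perm (Option F)) (x : CR F ω) :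
    mapF g.symm (mapF g x) = x := by
  cases x with
  | bot => rfl
  | vert a => simp only [mapF, Equiv.symm_apply_apply]
  | edge s => 
    simp only [mapF]
    congr 1
    exact Subtype.ext (crauto_map_symm g s.1)
  | face s => 
    simp only [mapF]
    congr 1
    exact Subtype.ext (crauto_map_symm g s.1)
  | facet y => simp only [mapF, Equiv.symm_apply_apply]
  | top => rfl

theorem crauto_mapPair_eq (g : Equiv.Perm (Option F))
    (s s' : {s : Finset (Option F) // s.card = 2}) : mapPair g s = mapPair g s' ↔ s = s' := by
  rw [Subtype.ext_iff, Subtype.ext_iff]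
  exact Finset.map_inj

theorem crauto_mem (g : Equiv.Perm (Option F)) (a : Option F)
    (s : {s : Finset (Option F) // s.card = 2}) : g a ∈ (mapPair g s).1 ↔ a ∈ s.1 := by
  simp only [mapPair, Finset.mem_map_equiv, Equiv.symm_apply_apply]

/-- A permutation preserving the cross-ratio induces an automorphism. Proof: `mapF g` and
`mapF g.symm` are inverse to each other, `mapF g x ≤ mapF g y ↔ x ≤ y` by cases on `x` and `y`,
using `inc_map` for (edge, face) and injectivity of `g` otherwise. -/
theorem exists_auto {g : Equiv.Perm (Option F)} (hg : Pres ω g) :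
    ∃ γ : CR F ω ≃o CR F ω, ∀ x, γ x = mapF g x := by
  refine ⟨⟨⟨mapF g, mapF g.symm, crauto_mapF_symm g, ?_⟩, ?_⟩, fun x => rfl⟩
  · intro x
    have := crauto_mapF_symm g.symm x
    rwa [Equiv.symm_symm] at this
  · intro x y
    change le (mapF g x) (mapF g y) ↔ le x y
    have hi : ∀ s s' : {s : Finset (Option F) // s.card = 2},
        Inc ω (mapPair g s).1 (mapPair g s').1 ↔ Inc ω s.1 s'.1 := fun s s' => inc_map hg s.1 s'.1
    cases x <;> cases y <;> simp only [mapF, le, crauto_mapPair_eq, crauto_mem, hi,
      EmbeddingLike.apply_eq_iff_eq, ne_eq]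

omit [DecidableEq F] in
theorem rk_mapF (g : Equiv.Perm (Option F)) (x : CR F ω) : rk (mapF g x) = rk x := by
  cases x <;> rfl

/-- the duality: vertices and facets, edges and faces of rank 2 are interchanged -/
def dual : CR F ω → CR F ω
  | bot => top
  | vert a => facet a
  | edge s => face s
  | face s => edge s
  | facet y => vert y
  | top => bot

omit [DecidableEq F] in
theorem dual_dual (x : CR F ω) : dual (dual x) = x := by
  cases x <;> rfl

omit [DecidableEq F] in
theorem rk_dual (x : CR F ω) : rk (dual x) = 3 - rk x := by
  cases x <;> norm_num [dual, rk]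

/-- Proof: cases on `x` and `y`; `inc_dual` for (edge, face); `eq_comm`, `ne_comm`. -/
theorem dual_le {x y : CR F ω} : dual x ≤ dual y ↔ y ≤ x := by
  change le (dual x) (dual y) ↔ le y x
  cases x <;> cases y <;> simp only [dual, le]
  all_goals first
    | exact eq_comm
    | exact ne_comm
    | exact inc_dual

/-- An automorphism is induced by a permutation of the points: on the vertices and facets by the
same permutation `g`, on the edges and faces of rank 2 by the induced action on pairs, and
`Inc` is preserved.

Proof. `γ` preserves the ranks (use `IsPolytope.rk_map`, or the hypothesis `hrk`); so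
`γ (vert a) = vert (g a)` for a function `g`, a permutation as `γ` is bijective. `γ (facet y)` is a
facet `facet y'`; the only vertex not below `facet y` is `vert y`, so the only vertex not below
`facet y'` is `vert (g y)`, so `y' = g y`. The vertices below `edge s` are the `vert a` with
`a ∈ s`, so `γ (edge s) = edge (g s)`. The facets above `face s` are the `facet y` with `y ∈ s`, so
`γ (face s) = face (g s)`. Finally `Inc ω s s' ↔ edge s ≤ face s' ↔ edge (g s) ≤ face (g s')`. -/
theorem auto_form (γ : CR F ω ≃o CR F ω) (hrk : ∀ x, rk (γ x) = rk x) :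
    ∃ g : Equiv.Perm (Option F), (∀ x, γ x = mapF g x) ∧
      ∀ s s' : {s : Finset (Option F) // s.card = 2},
        Inc ω (mapPair g s).1 (mapPair g s').1 ↔ Inc ω s.1 s'.1 := by
  have hle : ∀ x y : CR F ω, le (γ x) (γ y) ↔ le x y := fun x y => γ.map_rel_iff
  have hvert : ∀ (δ : CR F ω ≃o CR F ω), (∀ x, rk (δ x) = rk x) → ∀ a, ∃ b, δ (vert a) = vert b := by
    intro δ hδ a
    have h := hδ (vert a)
    revert h
    cases δ (vert a) <;> simp [rk]
  have hrk' : ∀ x, rk (γ.symm x) = rk x := by
    intro x
    have := hrk (γ.symm x)
    rw [OrderIso.apply_symm_apply] at this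
    exact this.symm
  choose f hf using hvert γ hrk
  choose f' hf' using hvert γ.symm hrk'
  have e1 : ∀ a, f' (f a) = a := by
    intro a
    have h := hf' (f a)
    rw [← hf a, OrderIso.symm_apply_apply] at h
    injection h with h
    exact h.symm
  have e2 : ∀ a, f (f' a) = a := by
    intro a
    have h := hf (f' a)
    rw [← hf' a, OrderIso.apply_symm_apply] at h
    injection h with h
    exact h.symm
  let g : Equiv.Perm (Option F) := ⟨f, f', e1, e2⟩
  have hg : ∀ a, γ (vert a) = vert (g a) := hf
  have hfacet : ∀ y, γ (facet y) = facet (g y) := by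
    intro y
    have h : ∃ z, γ (facet y) = facet z := by
      have h := hrk (facet y)
      revert h
      cases γ (facet y) <;> simp [rk]
    obtain ⟨z, hz⟩ := h
    have h1 := hle (vert y) (facet y)
    rw [hz, hg y] at h1
    simp only [le, ne_eq, not_true_eq_false, iff_false, not_not] at h1
    rw [hz, h1]
  have hedge : ∀ s, γ (edge s) = edge (mapPair g s) := by
    intro s
    have h : ∃ z, γ (edge s) = edge z := by
      have h := hrk (edge s)
      revert h
      cases γ (edge s) <;> simp [rk]
    obtain ⟨z, hz⟩ := h
    rw [hz]
    congr 1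
    apply Subtype.ext
    ext a
    have h1 := hle (vert (g.symm a)) (edge s)
    rw [hz, hg, Equiv.apply_symm_apply] at h1
    simp only [le] at h1
    rw [h1]
    simp only [mapPair, Finset.mem_map_equiv]
  have hface : ∀ s, γ (face s) = face (mapPair g s) := by
    intro s
    have h : ∃ z, γ (face s) = face z := by
      have h := hrk (face s)
      revert h
      cases γ (face s) <;> simp [rk]
    obtain ⟨z, hz⟩ := h
    rw [hz]
    congr 1
    apply Subtype.ext
    ext a
    have h1 := hle (face s) (facet (g.symm a))
    rw [hz, hfacet, Equiv.apply_symm_apply] at h1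
    simp only [le] at h1
    rw [h1]
    simp only [mapPair, Finset.mem_map_equiv]
  refine ⟨g, ?_, ?_⟩
  · intro x
    cases x with
    | bot => exact γ.map_bot
    | vert a => exact hg a
    | edge s => exact hedge s
    | face s => exact hface s
    | facet y => exact hfacet y
    | top => exact γ.map_top
  · intro s s'
    have h1 := hle (edge s) (face s')
    rw [hedge, hface] at h1
    exact h1

end CR

end Pool.Agent.H.MP_6268b4_co
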