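import Pool.Agent.H.MP_6268b4_co.TReg

/-!
Chiral polytopes of rank 4: orbits and stabilizers in terms of tuples.
-/

namespace Pool.Agent.H.MP_6268b4_co

variable {P : Type*} [PartialOrder P] [BoundedOrder P] {rk : P → ℤ}

set_option maxHeartbeats 400000

/-- The orbits of the flags of two tuples agree iff the tuples are related. -/
lemma tchi_q (h : IsPolytope 4 P rk) (Φ Ψ : Tup P rk) :
    (Quotient.mk (MulAction.orbitRel (P ≃o P) (Flag P)) (ofTup h Φ) =
      Quotient.mk (MulAction.orbitRel (P ≃o P) (Flag P)) (ofTup h Ψ)) ↔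
      ∃ γ : P ≃o P, tmap h h γ Φ = Ψ := by
  constructor
  · intro he
    have h4 : ofTup h Φ ∈ MulAction.orbit (P ≃o P) (ofTup h Ψ) := Quotient.exact he
    obtain ⟨γ, hγ⟩ := h4
    refine ⟨γ⁻¹, ?_⟩
    have h5 : γ • ofTup h Ψ = ofTup h Φ := hγ
    rw [smul_ofTup] at h5
    have h6 := congrArg (toTup h) h5
    rw [toTup_ofTup, toTup_ofTup] at h6
    exact tmap_inv h γ h6
  · rintro ⟨γ, hγ⟩
    apply Quotient.sound
    show ofTup h Φ ∈ MulAction.orbit (P ≃o P) (ofTup h Ψ)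
    refine ⟨γ⁻¹, ?_⟩
    show γ⁻¹ • ofTup h Ψ = ofTup h Φ
    rw [smul_ofTup, tmap_inv h γ hγ]

/-- Products of generators along a word of pairs lie in the closure. -/
lemma tchi_prod {s : Fin 4 → Fin 4 → (P ≃o P)} {J : Fin 4 → Prop} (v : List (Fin 4 × Fin 4))
    (hv : ∀ i ∈ flatw v, ¬ J i) :
    (v.map fun p => s p.1 p.2).prod ∈ Subgroup.closure {x | ∃ i j, ¬ J i ∧ ¬ J j ∧ x = s i j} := by
  induction v with
  | nil => exact one_mem _
  | cons p v ih =>
    rw [List.map_cons, List.prod_cons]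
    apply mul_mem
    · apply Subgroup.subset_closure
      exact ⟨p.1, p.2, hv _ (by simp [flatw]), hv _ (by simp [flatw]), rfl⟩
    · exact ih fun i hi => hv i (by simp [flatw, hi])

/-- Adjacent tuples are not related in a chiral polytope. Proof: `Adj_adj` and `smul_ofTup`. -/
theorem chiral_tup1 (h : IsPolytope 4 P rk) (hC : IsChiral P) (Φ : Tup P rk) (i : Fin 4)
    (γ : P ≃o P) : tmap h h γ Φ ≠ adj h i Φ := by
  intro he
  apply hC.2 _ _ (Adj_adj h Φ i) γ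
  rw [smul_ofTup, he]

/-- Every tuple is related to `Φ` or to `adj h i Φ`. Proof: the orbits of the flags of `Φ` and of
`adj h i Φ` are different (`chiral_tup1`), there are only two orbits (`flagOrbits P = 2`), so the
orbit of the flag of `Ψ` is one of the two (e.g. `Nat.card_eq_two_iff`); translate with
`smul_ofTup`, `toTup_ofTup`, `ofTup_toTup`, `MulAction.orbitRel_apply`. -/
theorem chiral_tup2 (h : IsPolytope 4 P rk) (hC : IsChiral P) (Φ Ψ : Tup P rk) (i : Fin 4) :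
    (∃ γ : P ≃o P, tmap h h γ Φ = Ψ) ∨ ∃ γ : P ≃o P, tmap h h γ (adj h i Φ) = Ψ := by
  have h2 : Nat.card (Quotient (MulAction.orbitRel (P ≃o P) (Flag P))) = 2 := hC.1
  obtain ⟨y, -, hy2⟩ := (Nat.card_eq_two_iff' (Quotient.mk (MulAction.orbitRel (P ≃o P) (Flag P))
    (ofTup h Φ))).1 h2
  by_cases hΨ : Quotient.mk (MulAction.orbitRel (P ≃o P) (Flag P)) (ofTup h Ψ) =
      Quotient.mk (MulAction.orbitRel (P ≃o P) (Flag P)) (ofTup h Φ)
  · exact Or.inl ((tchi_q h Φ Ψ).1 hΨ.symm)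
  · right
    have h3 : Quotient.mk (MulAction.orbitRel (P ≃o P) (Flag P)) (ofTup h (adj h i Φ)) ≠
        Quotient.mk (MulAction.orbitRel (P ≃o P) (Flag P)) (ofTup h Φ) := by
      intro he
      obtain ⟨γ, hγ⟩ := (tchi_q h _ _).1 he.symm
      exact chiral_tup1 h hC Φ i γ hγ
    have h4 := hy2 _ h3
    have h5 := hy2 _ hΨ
    exact (tchi_q h _ _).1 (h4.trans h5.symm)

/-- The generators `s i j`. Proof: by `chiral_tup2` with `Ψ = adj h j (adj h i Φ)` and the same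
`i`; the second case contradicts `chiral_tup1` (for the tuple `adj h i Φ`). -/
theorem chiral_tup3 (h : IsPolytope 4 P rk) (hC : IsChiral P) (Φ : Tup P rk) (i j : Fin 4) :
    ∃ γ : P ≃o P, tmap h h γ Φ = adj h j (adj h i Φ) := by
  rcases chiral_tup2 h hC Φ (adj h j (adj h i Φ)) i with h1 | ⟨γ, hγ⟩
  · exact h1
  · exact absurd hγ (chiral_tup1 h hC (adj h i Φ) j γ)

/-- Stabilizers in the chiral case. Proof: `Ψ = tmap γ Φ` satisfies `Ψ.1 i = Φ.1 i` for `i` with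
`J i`. By `exists_word` there is a word `w`, all of whose letters `i` satisfy `¬ J i`, with
`adjw h w Φ = Ψ`. By `exists_flatw` either `w = flatw v`, then `adjw_chi` and `eq_of_tmap` give
`γ = (v.map fun p => s p.1 p.2).prod`, in the closure (the letters of `flatw v` are the components
of the pairs in `v`); or `w = flatw v ++ [i]`, then `tmap γ Φ = adj h i (tmap δ Φ)` for
`δ = (v.map ..).prod`, so `tmap (δ⁻¹ * γ) Φ = adj h i Φ`, contradicting `chiral_tup1`. -/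
theorem chi_stab (h : IsPolytope 4 P rk) {Φ : Tup P rk} {s : Fin 4 → Fin 4 → (P ≃o P)}
    (hs : ∀ i j, tmap h h (s i j) Φ = adj h j (adj h i Φ))
    (hc : ∀ (i : Fin 4) (γ : P ≃o P), tmap h h γ Φ ≠ adj h i Φ) (J : Fin 4 → Prop) {γ : P ≃o P}
    (hγ : ∀ i, J i → γ (Φ.1 i) = Φ.1 i) :
    γ ∈ Subgroup.closure {x | ∃ i j, ¬ J i ∧ ¬ J j ∧ x = s i j} := by
  obtain ⟨w, hw, he⟩ := exists_word h Φ (tmap h h γ Φ)
  have hw' : ∀ i ∈ w, ¬ J i := by
    intro i hi hJ
    apply hw i hi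
    rw [tmap_apply, hγ i hJ]
  rcases exists_flatw w with ⟨v, rfl⟩ | ⟨v, i, rfl⟩
  · rw [adjw_chi h hs] at he
    rw [← eq_of_tmap h he]
    exact tchi_prod v hw'
  · exfalso
    rw [adjw_append, adjw_chi h hs, adjw_cons, adjw_nil, ← tmap_adj] at he
    apply hc i ((v.map fun p => s p.1 p.2).prod⁻¹ * γ)
    rw [tmap_mul, ← he, ← tmap_mul, inv_mul_cancel, tmap_one]

/-- Criterion for chirality: if the three elements `τ, j, σ` exist and the polytope is not regular,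
it is chiral.

Proof. All `s i j` exist: the relation `i ~ j` iff there is `γ` with
`tmap γ Φ = adj h j (adj h i Φ)` is an equivalence relation: reflexive (`adj_adj`, `γ = 1`); for
`tmap γ Φ = adj j (adj i Φ)` and `tmap δ Φ = adj k (adj j Φ)` we get
`tmap (γ * δ) Φ = tmap γ (adj k (adj j Φ)) = adj k (adj j (adj j (adj i Φ))) = adj k (adj i Φ)`, and
`tmap γ⁻¹ Φ = adj i (adj j Φ)`: `tmap γ (adj i (adj j Φ)) = adj i (adj j (adj j (adj i Φ))) = Φ`. The
three hypotheses give `2 ~ 0`, `1 ~ 3`, `3 ~ 2`. So all are equivalent.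
If some `γ`, `i` has `tmap γ Φ = adj i Φ` then for all `j` there is `δ` with
`tmap δ Φ = adj j Φ`: `δ = s i j' ...`: `tmap (s j i) Φ = adj i (adj j Φ)`, so
`tmap (s j i) (adj i Φ) = adj i (adj i (adj j Φ)) = adj j Φ`, and `δ = s j i * γ`. Then
`regular_of_base` contradicts `hR`. So `tmap γ Φ ≠ adj i Φ` for all `γ`, `i`.
Every tuple is `tmap γ Φ` or `tmap γ (adj 0 Φ)`: by `exists_word`, `exists_flatw`, `adjw_chi`, (and
`adj i Φ = tmap (s i 0) (adj 0 Φ)`). So there are at most two orbits of flags; the orbits of `Φ` and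
`adj 0 Φ` are different; so `flagOrbits P = 2`. If `A`, `B` are adjacent flags, `toTup B =
adj i (toTup A)` (`adj_of_Adj`), `γ • A = B` would give `tmap γ Ψ = adj i Ψ` for `Ψ = toTup A`; write
`Ψ = tmap δ Φ` or `Ψ = tmap δ (adj 0 Φ)`: conjugating gives `tmap γ' Φ = adj i Φ`, a contradiction,
or `tmap γ' (adj 0 Φ) = adj i (adj 0 Φ)`, i.e. (apply `adj 0`) `tmap γ' Φ = adj 0 (adj i (adj 0 Φ))`,
which is `tmap (s 0 i) (adj 0 Φ)`, so `tmap ((s 0 i)⁻¹ * γ') Φ = adj 0 Φ`, a contradiction. -/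
theorem chiral_of_base (h : IsPolytope 4 P rk) (Φ : Tup P rk)
    (h1 : ∃ τ : P ≃o P, tmap h h τ Φ = adj h 0 (adj h 2 Φ))
    (h2 : ∃ j : P ≃o P, tmap h h j Φ = adj h 3 (adj h 1 Φ))
    (h3 : ∃ σ : P ≃o P, tmap h h σ Φ = adj h 2 (adj h 3 Φ)) (hR : ¬ IsRegular P) :
    IsChiral P := by
  have hrefl : ∀ i, ∃ γ : P ≃o P, tmap h h γ Φ = adj h i (adj h i Φ) :=
    fun i => ⟨1, by rw [tmap_one, adj_adj]⟩
  have htrans : ∀ i j k, (∃ γ : P ≃o P, tmap h h γ Φ = adj h j (adj h i Φ)) →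
      (∃ γ : P ≃o P, tmap h h γ Φ = adj h k (adj h j Φ)) →
      ∃ γ : P ≃o P, tmap h h γ Φ = adj h k (adj h i Φ) := by
    rintro i j k ⟨γ, hγ⟩ ⟨δ, hδ⟩
    refine ⟨γ * δ, ?_⟩
    rw [tmap_mul, hδ, tmap_adj, tmap_adj, hγ, adj_adj]
  have hsymm : ∀ i j, (∃ γ : P ≃o P, tmap h h γ Φ = adj h j (adj h i Φ)) →
      ∃ γ : P ≃o P, tmap h h γ Φ = adj h i (adj h j Φ) := by
    rintro i j ⟨γ, hγ⟩
    refine ⟨γ⁻¹, ?_⟩
    apply tmap_inv
    rw [tmap_adj, tmap_adj, hγ, adj_adj, adj_adj]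
  have h23 := hsymm 3 2 h3
  have h21 := htrans 2 3 1 h23 (hsymm 1 3 h2)
  have hbase : ∀ i, ∃ γ : P ≃o P, tmap h h γ Φ = adj h i (adj h 2 Φ) := by
    intro i
    fin_cases i
    · exact h1
    · exact h21
    · exact hrefl 2
    · exact h23
  have hall : ∀ i j, ∃ γ : P ≃o P, tmap h h γ Φ = adj h j (adj h i Φ) :=
    fun i j => htrans i 2 j (hsymm 2 i (hbase i)) (hbase j)
  choose s hs using hall
  have hc : ∀ (i : Fin 4) (γ : P ≃o P), tmap h h γ Φ ≠ adj h i Φ := by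
    intro i γ hγ
    apply hR
    apply regular_of_base h Φ
    intro j
    refine ⟨s j i * γ, ?_⟩
    rw [tmap_mul, hγ, tmap_adj, hs, adj_adj]
  have hcov : ∀ Ψ : Tup P rk, (∃ γ : P ≃o P, tmap h h γ Φ = Ψ) ∨
      ∃ γ : P ≃o P, tmap h h γ (adj h 0 Φ) = Ψ := by
    intro Ψ
    obtain ⟨w, -, he⟩ := exists_word h Φ Ψ
    rcases exists_flatw w with ⟨v, rfl⟩ | ⟨v, i, rfl⟩
    · rw [adjw_chi h hs] at he
      exact Or.inl ⟨_, he⟩
    · right
      rw [adjw_append, adjw_chi h hs, adjw_cons, adjw_nil, ← tmap_adj] at he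
      refine ⟨(v.map fun p => s p.1 p.2).prod * s i 0, ?_⟩
      rw [tmap_mul, tmap_adj h h (s i 0), hs, adj_adj, he]
  refine ⟨?_, ?_⟩
  · show Nat.card (Quotient (MulAction.orbitRel (P ≃o P) (Flag P))) = 2
    rw [Nat.card_eq_two_iff' (Quotient.mk (MulAction.orbitRel (P ≃o P) (Flag P)) (ofTup h Φ))]
    refine ⟨Quotient.mk (MulAction.orbitRel (P ≃o P) (Flag P)) (ofTup h (adj h 0 Φ)), ?_, ?_⟩
    · intro he
      obtain ⟨γ, hγ⟩ := (tchi_q h _ _).1 he.symm
      exact hc 0 γ hγ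
    · intro y
      induction y using Quotient.inductionOn with
      | _ A =>
        intro hA
        have hA2 := ofTup_toTup h A
        rcases hcov (toTup h A) with h4 | h4
        · exfalso
          apply hA
          rw [← hA2]
          exact ((tchi_q h _ _).2 h4).symm
        · rw [← hA2]
          exact ((tchi_q h _ _).2 h4).symm
  · intro A B hAB γ hγ
    obtain ⟨i, hi⟩ := adj_of_Adj h hAB
    have h5 : tmap h h γ (toTup h A) = adj h i (toTup h A) := by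
      rw [← hi, ← hγ]
      conv_rhs => rw [← ofTup_toTup h A]
      rw [smul_ofTup, toTup_ofTup]
    rcases hcov (toTup h A) with ⟨δ, hδ⟩ | ⟨δ, hδ⟩
    · rw [← hδ, ← tmap_adj] at h5
      apply hc i (δ⁻¹ * (γ * δ))
      rw [tmap_mul, tmap_mul, h5, ← tmap_mul, inv_mul_cancel, tmap_one]
    · rw [← hδ, ← tmap_adj] at h5
      have h6 : tmap h h (δ⁻¹ * (γ * δ)) (adj h 0 Φ) = adj h i (adj h 0 Φ) := by
        rw [tmap_mul, tmap_mul, h5, ← tmap_mul, inv_mul_cancel, tmap_one]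
      rw [tmap_adj, ← hs] at h6
      have h7 := congrArg (adj h 0) h6
      rw [adj_adj, ← tmap_adj] at h7
      apply hc 0 ((s 0 i)⁻¹ * (δ⁻¹ * (γ * δ)))
      rw [tmap_mul, h7, ← tmap_mul, inv_mul_cancel, tmap_one]

end Pool.Agent.H.MP_6268b4_co
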