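import Pool.Agent.H.MP_6268b4_co.CRPolyB
import Pool.Agent.H.MP_6268b4_co.TChi
import Pool.Agent.H.MP_6268b4_co.TVDefs

/-!
The cross-ratio polytopes are chiral if the field has at least 8 elements.
-/

namespace Pool.Agent.H.MP_6268b4_co

namespace CR

variable {F : Type*} [Field F] [DecidableEq F] {ω : F}

/-- if two tuples agree at the neighbours of `i` and differ at `i`, the face of rank `i` of the
second tuple is the face of rank `i` of the adjacent tuple -/
lemma crchirala_upd {P : Type*} [PartialOrder P] [BoundedOrder P] {rk : P → ℤ}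
    (h : IsPolytope 4 P rk) (Φ T : Tup P rk) (i : Fin 4) (hT : T.1 i ≠ Φ.1 i)
    (h1 : ∀ k : Fin 4, (k : ℕ) + 1 = i → T.1 k = Φ.1 k)
    (h2 : ∀ k : Fin 4, (i : ℕ) + 1 = k → T.1 k = Φ.1 k) : (adj h i Φ).1 i = T.1 i := by
  obtain ⟨X, hX1, hX2⟩ := exists_upd Φ i (T.1 i) (T.hrk i)
    (fun k hk => by
      rw [← h1 k hk]
      apply T.le
      change (k : ℕ) ≤ i
      omega)
    (fun k hk => by
      rw [← h2 k hk]
      apply T.le
      change (i : ℕ) ≤ k
      omega)
  rw [← adj_unique h i Φ X (by rw [hX1]; exact hT) hX2, hX1]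

/-- two tuples which differ exactly in the faces of the two non-neighbouring ranks `i` and `j` -/
lemma crchirala_two {P : Type*} [PartialOrder P] [BoundedOrder P] {rk : P → ℤ}
    (h : IsPolytope 4 P rk) (Φ T : Tup P rk) (i j : Fin 4) (hij : (i : ℕ) ≠ j)
    (hij1 : (i : ℕ) ≠ j + 1) (hij2 : (j : ℕ) ≠ i + 1) (hi : T.1 i ≠ Φ.1 i) (hj : T.1 j ≠ Φ.1 j)
    (hs : ∀ k, k ≠ i → k ≠ j → T.1 k = Φ.1 k) : T = adj h i (adj h j Φ) := by
  have hne : i ≠ j := fun he => hij (congrArg _ he)
  apply adj_unique
  · rw [adj_same h Φ hne]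
    exact hi
  · intro k hk
    by_cases hkj : k = j
    · subst hkj
      symm
      apply crchirala_upd h Φ T k hj
      · intro l hl
        apply hs
        · rintro rfl
          omega
        · rintro rfl
          omega
      · intro l hl
        apply hs
        · rintro rfl
          omega
        · rintro rfl
          omega
    · rw [adj_same h Φ hkj]
      exact hs k hk hkj

omit [Field F] in
lemma crchirala_mapPair (g : Equiv.Perm (Option F)) (a b : Option F)
    (h : ({a, b} : Finset (Option F)).card = 2) :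
    (mapPair g ⟨{a, b}, h⟩).1 = {g a, g b} := by
  simp [mapPair, Finset.map_insert]

/-- The base flag `vert ∞ < edge {∞, 0} < face {u, u + 1} < facet u` with `u = 1 / (1 + ω)` and the
elements `τ : x ↦ u² / x`, `j : x ↦ x + 1`, `σ : x ↦ ω x`.

Proof. `u + 1 = ω u` and `Inc ω {∞, 0} {u, ω u}` by `inc_iff`, `cross_norm`. The three maps preserve
the cross-ratio (`pres_I`, `pres_T`, `pres_D`), so they induce automorphisms (`exists_auto`).
`τ`: `∞ ↦ 0`, `0 ↦ ∞`, `u ↦ u`, `ω u ↦ u / ω`: the image of the base flag is
`(0, {∞, 0}, {u, u / ω}, u)`, which differs from the base flag in the faces of ranks 0 and 2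
(`ω ≠ ω⁻¹`), so it is `adj 0 (adj 2 Ψ)` (apply `adj_unique` twice, e.g. with an intermediate tuple
from `exists_upd`, or: `adj 0` of the image tuple is the tuple with vertex `∞`, which is `adj 2 Ψ`).
`j`: `∞ ↦ ∞`, `0 ↦ 1`, `u ↔ u + 1`: image `(∞, {∞, 1}, {u, u + 1}, u + 1) = adj 3 (adj 1 Ψ)`.
`σ`: image `(∞, {∞, 0}, {ω u, ω² u}, ω u)`, and `adj 3 Ψ = (∞, {∞, 0}, {u, ω u}, ω u)`, so the image is
`adj 2 (adj 3 Ψ)` (`ω² ≠ 1`). -/
theorem generators (h2 : (2 : F) = 0) (h0 : ω ≠ 0) (h1 : ω ≠ 1)
    (hω : ∀ z : F, z ≠ 0 → ∃ i : ℕ, z = ω ^ i) (lam : F) (hlam : lam * (1 + ω) ^ 2 = 1)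
    (hl : lam ≠ 0) :
    ∃ (Ψ : Tup (CR F ω) rk) (τ j σ : CR F ω ≃o CR F ω),
      Ψ.1 0 = vert none ∧ Ψ.1 1 = edge ⟨{none, some 0}, by simp⟩ ∧
      Ψ.1 3 = facet (some (1 + ω)⁻¹) ∧ (∃ s, Ψ.1 2 = face s ∧ s.1 = {some (1 + ω)⁻¹,
        some (ω * (1 + ω)⁻¹)}) ∧
      tmap (isPolytope h2 h0 h1 hω) (isPolytope h2 h0 h1 hω) τ Ψ =
        adj (isPolytope h2 h0 h1 hω) 0 (adj (isPolytope h2 h0 h1 hω) 2 Ψ) ∧
      tmap (isPolytope h2 h0 h1 hω) (isPolytope h2 h0 h1 hω) j Ψ =
        adj (isPolytope h2 h0 h1 hω) 3 (adj (isPolytope h2 h0 h1 hω) 1 Ψ) ∧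
      tmap (isPolytope h2 h0 h1 hω) (isPolytope h2 h0 h1 hω) σ Ψ =
        adj (isPolytope h2 h0 h1 hω) 2 (adj (isPolytope h2 h0 h1 hω) 3 Ψ) ∧
      (∀ a, τ (vert a) = vert (mobInv lam a)) ∧ (∀ a, j (vert a) = vert (a.map (fun z => z + 1))) ∧
      (∀ a, σ (vert a) = vert (a.map (fun z => ω * z))) := by
  have hw1 : (1 : F) + ω ≠ 0 := by
    intro he
    apply h1
    linear_combination he - h2
  obtain ⟨u, hu⟩ : ∃ u : F, u = (1 + ω)⁻¹ := ⟨_, rfl⟩
  rw [← hu]
  have hu0 : u ≠ 0 := by
    rw [hu]
    exact inv_ne_zero hw1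
  have hu1 : u * (1 + ω) = 1 := by
    rw [hu]
    exact inv_mul_cancel₀ hw1
  have hlu : lam = u ^ 2 := by
    have e1 : lam * (1 + ω) ^ 2 = u ^ 2 * (1 + ω) ^ 2 := by
      rw [hlam, ← mul_pow, hu1, one_pow]
    exact mul_right_cancel₀ (pow_ne_zero 2 hw1) e1
  have hu2 : u + 1 = ω * u := by
    linear_combination u * h2 - hu1
  have hu3 : ω * u + 1 = u := by
    rw [← hu2]
    linear_combination h2
  have huw : ω * u ≠ u := by
    intro he
    apply h1
    exact mul_right_cancel₀ hu0 (by rw [he, one_mul])
  have hsq : ω * ω ≠ 1 := by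
    intro he
    have e1 : (ω + 1) * (ω + 1) = 0 := by linear_combination he + (ω + 1) * h2
    have e2 : ω + 1 = 0 := mul_self_eq_zero.1 e1
    apply hw1
    rw [add_comm, e2]
  have hcard : ({some u, some (ω * u)} : Finset (Option F)).card = 2 := by
    rw [Finset.card_pair]
    intro he
    exact huw (Option.some.inj he).symm
  have hcard0 : ({none, some 0} : Finset (Option F)).card = 2 := by simp
  have hinc : Inc ω ({none, some 0} : Finset (Option F)) {some u, some (ω * u)} :=
    ⟨none, some 0, some u, some (ω * u), rfl, rfl,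
      cross_norm.2 ⟨fun he => huw he.symm, hu0, mul_ne_zero h0 hu0, rfl⟩⟩
  obtain ⟨f, hf⟩ : ∃ f : Fin 4 → CR F ω, f = ![vert none, edge ⟨{none, some 0}, hcard0⟩,
    face ⟨{some u, some (ω * u)}, hcard⟩, facet (some u)] := ⟨_, rfl⟩
  have f0 : f 0 = vert none := by rw [hf]; rfl
  have f1 : f 1 = edge ⟨{none, some 0}, hcard0⟩ := by rw [hf]; rfl
  have f2 : f 2 = face ⟨{some u, some (ω * u)}, hcard⟩ := by rw [hf]; rfl
  have f3 : f 3 = facet (some u) := by rw [hf]; rfl
  have l01 : f 0 ≤ f 1 := by
    rw [f0, f1, le_def]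
    change none ∈ ({none, some 0} : Finset (Option F))
    simp
  have l12 : f 1 ≤ f 2 := by
    rw [f1, f2, le_def]
    exact hinc
  have l23 : f 2 ≤ f 3 := by
    rw [f2, f3, le_def]
    change some u ∈ ({some u, some (ω * u)} : Finset (Option F))
    simp
  have frk : ∀ i : Fin 4, rk (f i) = (i : ℕ) := by
    intro i
    fin_cases i
    · change rk (f 0) = _
      rw [f0]; rfl
    · change rk (f 1) = _
      rw [f1]; rfl
    · change rk (f 2) = _
      rw [f2]; rfl
    · change rk (f 3) = _
      rw [f3]; rfl
  have fmono : ∀ i j : Fin 4, i ≤ j → f i ≤ f j := by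
    intro i j hij
    fin_cases i <;> fin_cases j <;> first
      | exact le_refl _
      | exact l01
      | exact l12
      | exact l23
      | exact l01.trans l12
      | exact l12.trans l23
      | exact (l01.trans l12).trans l23
      | exact absurd hij (by decide)
  obtain ⟨Ψ, hΨ⟩ : ∃ Ψ : Tup (CR F ω) rk, Ψ = ⟨f, frk, fmono⟩ := ⟨_, rfl⟩
  have p0 : Ψ.1 0 = vert none := by rw [hΨ]; exact f0
  have p1 : Ψ.1 1 = edge ⟨{none, some 0}, hcard0⟩ := by rw [hΨ]; exact f1
  have p2 : Ψ.1 2 = face ⟨{some u, some (ω * u)}, hcard⟩ := by rw [hΨ]; exact f2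
  have p3 : Ψ.1 3 = facet (some u) := by rw [hΨ]; exact f3
  obtain ⟨τ, hτ⟩ := exists_auto (pres_I (ω := ω) h2 lam hl)
  obtain ⟨j, hj⟩ := exists_auto (pres_T (ω := ω) h2 1)
  obtain ⟨σ, hσ⟩ := exists_auto (pres_D (ω := ω) ω h0)
  refine ⟨Ψ, τ, j, σ, p0, p1, p3, ⟨_, p2, rfl⟩, ?_, ?_, ?_, ?_, ?_, ?_⟩
  · have e0 : (mobI lam hl) none = some 0 := rfl
    have e1 : (mobI lam hl) (some 0) = none := by
      change mobInv lam (some 0) = none
      simp [mobInv]
    have e2 : (mobI lam hl) (some u) = some u := by
      change mobInv lam (some u) = some u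
      simp only [mobInv, hu0, if_false]
      congr 1
      rw [hlu, pow_two, mul_div_assoc, div_self hu0, mul_one]
    have e3 : (mobI lam hl) (some (ω * u)) = some (u / ω) := by
      change mobInv lam (some (ω * u)) = some (u / ω)
      simp only [mobInv, mul_ne_zero h0 hu0, if_false]
      congr 1
      rw [hlu]
      field_simp
    apply crchirala_two
    · decide
    · decide
    · decide
    · rw [tmap_apply, p0, hτ]
      change (vert ((mobI lam hl) none) : CR F ω) ≠ vert none
      rw [e0]
      intro he
      injection he with he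
      exact absurd he (by simp)
    · rw [tmap_apply, p2, hτ]
      change (face (mapPair (mobI lam hl) _) : CR F ω) ≠ face _
      intro he
      injection he with he
      have he2 := congrArg Subtype.val he
      rw [crchirala_mapPair, e2, e3] at he2
      have he3 : some (ω * u) ∈ ({some u, some (u / ω)} : Finset (Option F)) := by
        rw [he2]
        simp
      rw [Finset.mem_insert, Finset.mem_singleton] at he3
      rcases he3 with he3 | he3
      · exact huw (Option.some.inj he3)
      · have he4 := Option.some.inj he3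
        rw [eq_div_iff h0] at he4
        apply hsq
        apply mul_right_cancel₀ hu0
        linear_combination he4
    · intro k hk1 hk2
      have hk : k = 1 ∨ k = 3 := by
        revert k
        decide
      rcases hk with rfl | rfl
      · rw [tmap_apply, p1, hτ]
        change (edge (mapPair (mobI lam hl) _) : CR F ω) = edge _
        congr 1
        apply Subtype.ext
        rw [crchirala_mapPair, e0, e1]
        exact Finset.pair_comm _ _
      · rw [tmap_apply, p3, hτ]
        change (facet ((mobI lam hl) _) : CR F ω) = facet _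
        rw [e2]
  · have e0 : (mobT (1 : F)) none = none := rfl
    have e1 : (mobT (1 : F)) (some 0) = some 1 := by
      rw [mobT_some, zero_add]
    have e2 : (mobT (1 : F)) (some u) = some (ω * u) := by
      rw [mobT_some, hu2]
    have e3 : (mobT (1 : F)) (some (ω * u)) = some u := by
      rw [mobT_some, hu3]
    apply crchirala_two
    · decide
    · decide
    · decide
    · rw [tmap_apply, p3, hj]
      change (facet ((mobT (1 : F)) _) : CR F ω) ≠ facet _
      rw [e2]
      intro he
      injection he with he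
      exact huw (Option.some.inj he)
    · rw [tmap_apply, p1, hj]
      change (edge (mapPair (mobT (1 : F)) _) : CR F ω) ≠ edge _
      intro he
      injection he with he
      have he2 := congrArg Subtype.val he
      rw [crchirala_mapPair, e0, e1] at he2
      have he3 : some (1 : F) ∈ ({none, some 0} : Finset (Option F)) := by
        have he4 : some (1 : F) ∈ ({none, some 1} : Finset (Option F)) := by simp
        rw [he2] at he4
        exact he4
      rw [Finset.mem_insert, Finset.mem_singleton] at he3
      rcases he3 with he3 | he3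
      · exact absurd he3 (by simp)
      · exact one_ne_zero (Option.some.inj he3)
    · intro k hk1 hk2
      have hk : k = 0 ∨ k = 2 := by
        revert k
        decide
      rcases hk with rfl | rfl
      · rw [tmap_apply, p0, hj]
        rfl
      · rw [tmap_apply, p2, hj]
        change (face (mapPair (mobT (1 : F)) _) : CR F ω) = face _
        congr 1
        apply Subtype.ext
        rw [crchirala_mapPair, e2, e3]
        exact Finset.pair_comm _ _
  · have e0 : (mobD ω h0) none = none := rfl
    have e1 : (mobD ω h0) (some 0) = some 0 := by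
      rw [mobD_some, mul_zero]
    have e2 : (mobD ω h0) (some u) = some (ω * u) := rfl
    have e3 : (mobD ω h0) (some (ω * u)) = some (ω * (ω * u)) := rfl
    obtain ⟨M, hM1, hM2⟩ := exists_upd Ψ 3 (facet (some (ω * u))) rfl
      (fun k hk => by
        have hk' : k = 2 := by
          apply Fin.ext
          change (k : ℕ) + 1 = 3 at hk
          change (k : ℕ) = 2
          omega
        rw [hk', p2, le_def]
        change some (ω * u) ∈ ({some u, some (ω * u)} : Finset (Option F))
        simp)
      (fun k hk => by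
        exfalso
        have := k.2
        change 3 + 1 = (k : ℕ) at hk
        omega)
    have hM : M = adj (isPolytope h2 h0 h1 hω) 3 Ψ := by
      apply adj_unique _ _ _ _ _ hM2
      rw [hM1, p3]
      intro he
      injection he with he
      exact huw (Option.some.inj he)
    rw [← hM]
    apply adj_unique
    · rw [hM2 2 (by decide), tmap_apply, p2, hσ]
      change (face (mapPair (mobD ω h0) _) : CR F ω) ≠ face _
      intro he
      injection he with he
      have he2 := congrArg Subtype.val he
      rw [crchirala_mapPair, e2, e3] at he2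
      have he3 : some u ∈ ({some (ω * u), some (ω * (ω * u))} : Finset (Option F)) := by
        rw [he2]
        simp
      rw [Finset.mem_insert, Finset.mem_singleton] at he3
      rcases he3 with he3 | he3
      · exact huw (Option.some.inj he3).symm
      · have he4 := Option.some.inj he3
        apply hsq
        apply mul_right_cancel₀ hu0
        linear_combination -he4
    · intro k hk
      have hk' : k = 0 ∨ k = 1 ∨ k = 3 := by
        revert k
        decide
      rcases hk' with rfl | rfl | rfl
      · rw [hM2 0 (by decide), tmap_apply, p0, hσ]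
        rfl
      · rw [hM2 1 (by decide), tmap_apply, p1, hσ]
        change (edge (mapPair (mobD ω h0) _) : CR F ω) = edge _
        congr 1
        apply Subtype.ext
        rw [crchirala_mapPair, e0, e1]
      · rw [hM1, tmap_apply, p3, hσ]
        rfl
  · intro a
    rw [hτ]
    rfl
  · intro a
    rw [hj]
    cases a <;> rfl
  · intro a
    rw [hσ]
    cases a <;> rfl

end CR

end Pool.Agent.H.MP_6268b4_co
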