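import Pool.Agent.H.MP_6268b4_co.CRChiralA
import Pool.Agent.H.MP_6268b4_co.TChi

/-!
The cross-ratio polytopes are chiral if the field has at least 8 elements.
-/

namespace Pool.Agent.H.MP_6268b4_co

namespace CR

variable {F : Type*} [Field F] [DecidableEq F] {ω : F}

omit [Field F] in
theorem crchiralb_pair (g : Equiv.Perm (Option F)) (a b : Option F)
    (hab : ({a, b} : Finset (Option F)).card = 2) :
    (mapPair g ⟨{a, b}, hab⟩).1 = {g a, g b} := by
  simp [mapPair, Finset.map_insert]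

omit [DecidableEq F] in
theorem crchiralb_one (h2 : (2 : F) = 0) (h1 : ω ≠ 1) : 1 + ω ≠ 0 := by
  intro h
  apply h1
  have h3 : ω = (1 + ω) + 1 - 2 := by ring
  rw [h3, h, h2]
  ring

/-- Not regular if the field has more than 4 elements.

Proof. Suppose it is regular. By `regular_tup` there is `γ` with `tmap γ Ψ = adj 3 Ψ` for the base
tuple `Ψ` of `generators` (with `lam = (1 + ω)⁻²`). Let `g` be the permutation of `auto_form`
(`IsPolytope.rk_map`). `γ` fixes `vert ∞`, `edge {∞, 0}`, `face {u, ω u}` and maps `facet u` to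
`facet (ω u)` (the other facet above `face {u, ω u}`). So `g ∞ = ∞`, `g 0 = 0`, `g u = ω u`,
`g (ω u) = u`.
For `y ≠ 0`: `Inc ω {∞, 0} {y, ω y}`, so `Inc ω {∞, 0} {g y, g (ω y)}`, so by `inc_iff` and
`cross_norm` `g (ω y) = ω g y` or `ω g (ω y) = g y`. Claim: `g (ω^k u) = ω^(1-k) u` and
`g (ω^(k+1) u) = ω^(-k) u` for all `k : ℕ` (integer exponents). `k = 0`: above. Step: `g (ω^(k+2) u)`
is `ω` times or `ω⁻¹` times `g (ω^(k+1) u) = ω^(-k) u`; the first is `ω^(1-k) u = g (ω^k u)`, impossible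
since `g` is injective and `ω^2 ≠ 1`; so it is `ω^(-k-1) u`. Hence (every nonzero element is
`ω^k u`, as `u ≠ 0`) `g y = K / y` for all `y ≠ 0`, with `K = ω u²`.
Now take `b = 1` and `y' = 1 + ω`: `Inc ω {∞, 1} {0, 1 + ω}` (`inc_norm2`), so
`Inc ω {∞, K} {0, K / (1 + ω)}`, so by `inc_norm2` `K / (1 + ω) = (1 + ω) K`, i.e.
`(1 + ω)^2 = 1`, `ω^2 = 0`, impossible; or `ω K / (1 + ω) = (1 + ω) K`, i.e. `(1 + ω)^2 = ω`,
`ω^2 + ω + 1 = 0`, contradicting `h3`. -/
theorem not_regular (h2 : (2 : F) = 0) (h0 : ω ≠ 0) (h1 : ω ≠ 1)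
    (hω : ∀ z : F, z ≠ 0 → ∃ i : ℕ, z = ω ^ i) (h3 : ω ^ 2 + ω + 1 ≠ 0) :
    ¬ IsRegular (CR F ω) := by
  intro hR
  have h := isPolytope (ω := ω) h2 h0 h1 hω
  have h10 : 1 + ω ≠ 0 := crchiralb_one h2 h1
  have hu : (1 + ω)⁻¹ ≠ 0 := inv_ne_zero h10
  obtain ⟨u, hudef⟩ : ∃ u : F, u = (1 + ω)⁻¹ := ⟨_, rfl⟩
  obtain ⟨Ψ, τ, j, σ, hΨ0, hΨ1, hΨ3, ⟨s, hs, hs'⟩, -⟩ := generators (ω := ω) h2 h0 h1 hω
    ((1 + ω) ^ 2)⁻¹ (inv_mul_cancel₀ (pow_ne_zero 2 h10)) (inv_ne_zero (pow_ne_zero 2 h10))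
  rw [← hudef] at hu hΨ3 hs'
  obtain ⟨γ, hγ⟩ := regular_tup h hR Ψ (adj h 3 Ψ)
  obtain ⟨g, hg, hinc⟩ := auto_form γ (fun x => IsPolytope.rk_map h h γ x)
  have hfix : ∀ i : Fin 4, i ≠ 3 → mapF g (Ψ.1 i) = Ψ.1 i := by
    intro i hi
    rw [← hg, ← tmap_apply h h γ Ψ i, hγ, adj_same h Ψ hi]
  have hmov : mapF g (Ψ.1 3) ≠ Ψ.1 3 := by
    rw [← hg, ← tmap_apply h h γ Ψ 3, hγ]
    exact adj_ne h 3 Ψ
  have gnone : g none = none := by
    have h3 := hfix 0 (by decide)
    rw [hΨ0] at h3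
    injection h3
  have hne : ∀ y : F, ∃ z : F, g (some y) = some z := by
    intro y
    cases hy : g (some y) with
    | none =>
      rw [← gnone] at hy
      exact absurd (g.injective hy) (by simp)
    | some z => exact ⟨z, rfl⟩
  choose G hG using hne
  have Ginj : ∀ {y z : F}, G y = G z → y = z := by
    intro y z hyz
    have h3 : g (some y) = g (some z) := by rw [hG, hG, hyz]
    exact Option.some.inj (g.injective h3)
  have G0 : G 0 = 0 := by
    have h3 := hfix 1 (by decide)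
    rw [hΨ1] at h3
    injection h3 with h3
    have h4 := congrArg Subtype.val h3
    rw [crchiralb_pair, gnone, hG] at h4
    have h5 : (some (G 0) : Option F) ∈ ({none, some 0} : Finset (Option F)) := by
      rw [← show ({none, some (G 0)} : Finset (Option F)) = {none, some 0} from h4]
      simp
    simpa using h5
  have Gne : ∀ {y : F}, y ≠ 0 → G y ≠ 0 := by
    intro y hy h3
    rw [← G0] at h3
    exact hy (Ginj h3)
  have hωu : ω * u ≠ u := by
    intro h3
    apply h1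
    have h4 : (ω - 1) * u = 0 := by
      rw [sub_mul, h3, one_mul, sub_self]
    rcases mul_eq_zero.1 h4 with h4 | h4
    · exact sub_eq_zero.1 h4
    · exact absurd h4 hu
  have hface := hfix 2 (by decide)
  rw [hs] at hface
  injection hface with hface
  have hface' := congrArg Subtype.val hface
  have hmem : ∀ x : Option F, x ∈ s.1 → g x ∈ s.1 := by
    intro x hx
    rw [← hface']
    exact Finset.mem_map_of_mem _ hx
  have Gu : G u = ω * u := by
    have h3 := hmem (some u) (by rw [hs']; simp)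
    rw [hG, hs'] at h3
    simp only [Finset.mem_insert, Finset.mem_singleton, Option.some_inj] at h3
    rcases h3 with h3 | h3
    · exfalso
      apply hmov
      rw [hΨ3]
      show facet (g (some u)) = facet (some u)
      rw [hG, h3]
    · exact h3
  have Gωu : G (ω * u) = u := by
    have h3 := hmem (some (ω * u)) (by rw [hs']; simp)
    rw [hG, hs'] at h3
    simp only [Finset.mem_insert, Finset.mem_singleton, Option.some_inj] at h3
    rcases h3 with h3 | h3
    · exact h3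
    · exfalso
      exact hωu (Ginj (h3.trans Gu.symm))
  have hω1 : ∀ {y : F}, y ≠ 0 → ω * y ≠ y := by
    intro y hy h3
    apply h1
    have h4 : (ω - 1) * y = 0 := by
      rw [sub_mul, h3, one_mul, sub_self]
    rcases mul_eq_zero.1 h4 with h4 | h4
    · exact sub_eq_zero.1 h4
    · exact absurd h4 hy
  have hstep : ∀ {y : F}, y ≠ 0 → G (ω * y) = ω * G y ∨ G y = ω * G (ω * y) := by
    intro y hy
    have hne1 : (none : Option F) ≠ some 0 := by simp
    have hne2 : (some y : Option F) ≠ some (ω * y) := by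
      intro h3
      exact hω1 hy (Option.some.inj h3).symm
    have h3 : Inc ω {none, some 0} {some y, some (ω * y)} :=
      (inc_iff hne1 hne2).2 (Or.inl (cross_norm.2 ⟨(hω1 hy).symm, hy, mul_ne_zero h0 hy, rfl⟩))
    have h4 := (hinc ⟨_, Finset.card_pair hne1⟩ ⟨_, Finset.card_pair hne2⟩).2 h3
    rw [crchiralb_pair, crchiralb_pair, gnone, hG, hG, hG, G0] at h4
    have hne3 : (some (G y) : Option F) ≠ some (G (ω * y)) := by
      intro h5
      exact hω1 hy (Ginj (Option.some.inj h5)).symm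
    rcases (inc_iff hne1 hne3).1 h4 with h5 | h5
    · exact Or.inl (cross_norm.1 h5).2.2.2
    · exact Or.inr (cross_norm.1 h5).2.2.2
  have hω2 : ω * ω ≠ 1 := by
    intro h3
    have h4 : (ω - 1) * (ω - 1) = 0 := by
      have : (ω - 1) * (ω - 1) = ω * ω - 1 - 2 * (ω - 1) := by ring
      rw [this, h3, h2]
      ring
    exact h1 (sub_eq_zero.1 (mul_self_eq_zero.1 h4))
  have hind : ∀ k : ℕ, G (ω ^ k * u) * ω ^ k = ω * u ∧
      G (ω ^ (k + 1) * u) * ω ^ (k + 1) = ω * u := by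
    intro k
    induction k with
    | zero =>
      constructor
      · rw [pow_zero, one_mul, mul_one, Gu]
      · rw [zero_add, pow_one, Gωu, mul_comm]
    | succ k ih =>
      refine ⟨ih.2, ?_⟩
      have hy : ω ^ (k + 1) * u ≠ 0 := mul_ne_zero (pow_ne_zero _ h0) hu
      have e1 : ω * (ω ^ (k + 1) * u) = ω ^ (k + 1 + 1) * u := by ring
      rcases hstep hy with h3 | h3
      · exfalso
        rw [e1] at h3
        have h4 : G (ω ^ k * u) * ω ^ k = ω * G (ω ^ (k + 1) * u) * ω ^ k := by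
          rw [ih.1, ← ih.2]
          ring
        have h5 := mul_right_cancel₀ (pow_ne_zero k h0) h4
        rw [← h3] at h5
        have h6 := Ginj h5
        have h7 := mul_right_cancel₀ hu h6
        have h8 : ω ^ k * (ω * ω) = ω ^ k * 1 := by
          rw [mul_one]
          conv_rhs => rw [h7]
          ring
        exact hω2 (mul_left_cancel₀ (pow_ne_zero k h0) h8)
      · rw [e1] at h3
        rw [h3] at ih
        rw [← ih.2]
        ring
  have hK : ∀ {y : F}, y ≠ 0 → G y * y = ω * u * u := by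
    intro y hy
    obtain ⟨i, hi⟩ := hω (y * u⁻¹) (mul_ne_zero hy (inv_ne_zero hu))
    have hy' : y = ω ^ i * u := by
      rw [← hi, mul_assoc, inv_mul_cancel₀ hu, mul_one]
    rw [hy', ← mul_assoc, (hind i).1]
  have hK0 : ω * u * u ≠ 0 := mul_ne_zero (mul_ne_zero h0 hu) hu
  have e3 : Inc ω {none, some 1} {some 0, some (1 + ω)} :=
    (inc_norm2 h2 h0 h1 one_ne_zero h10).2 (Or.inl (by rw [mul_one]))
  have hn1 : (none : Option F) ≠ some 1 := by simp
  have hn2 : (some 0 : Option F) ≠ some (1 + ω) := by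
    intro h4
    exact h10 (Option.some.inj h4).symm
  have e4 := (hinc ⟨_, Finset.card_pair hn1⟩ ⟨_, Finset.card_pair hn2⟩).2 e3
  rw [crchiralb_pair, crchiralb_pair, gnone, hG, hG, hG, G0] at e4
  have e5 := (inc_norm2 h2 h0 h1 (Gne one_ne_zero) (Gne h10)).1 e4
  have k1 := hK (y := 1) one_ne_zero
  have k2 := hK h10
  rw [mul_one] at k1
  rcases e5 with e5 | e5
  · have h4 : ω ^ 2 * (ω * u * u) = 0 := by
      have h5 : (1 + ω) * (1 + ω) * (ω * u * u) = ω * u * u := by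
        calc (1 + ω) * (1 + ω) * (ω * u * u) = (1 + ω) * G 1 * (1 + ω) := by rw [k1]; ring
          _ = G (1 + ω) * (1 + ω) := by rw [e5]
          _ = ω * u * u := k2
      have h6 : ω ^ 2 * (ω * u * u) = (1 + ω) * (1 + ω) * (ω * u * u) - ω * u * u -
          2 * (ω * (ω * u * u)) := by ring
      rw [h6, h5, h2]
      ring
    rcases mul_eq_zero.1 h4 with h4 | h4
    · exact pow_ne_zero 2 h0 h4
    · exact hK0 h4
  · have h4 : (ω ^ 2 + ω + 1) * (ω * u * u) = 0 := by
      have h5 : (1 + ω) * (1 + ω) * (ω * u * u) = ω * (ω * u * u) := by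
        calc (1 + ω) * (1 + ω) * (ω * u * u) = (1 + ω) * G 1 * (1 + ω) := by rw [k1]; ring
          _ = ω * (G (1 + ω) * (1 + ω)) := by rw [← e5]; ring
          _ = ω * (ω * u * u) := by rw [k2]
      have h6 : (ω ^ 2 + ω + 1) * (ω * u * u) = (1 + ω) * (1 + ω) * (ω * u * u) -
          ω * (ω * u * u) := by ring
      rw [h6, h5, sub_self]
    rcases mul_eq_zero.1 h4 with h4 | h4
    · exact h3 h4
    · exact hK0 h4

/-- Proof: `chiral_of_base`, `generators`, `not_regular`. -/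
theorem chiral (h2 : (2 : F) = 0) (h0 : ω ≠ 0) (h1 : ω ≠ 1)
    (hω : ∀ z : F, z ≠ 0 → ∃ i : ℕ, z = ω ^ i) (h3 : ω ^ 2 + ω + 1 ≠ 0) :
    IsChiral (CR F ω) := by
  have h10 : 1 + ω ≠ 0 := crchiralb_one h2 h1
  obtain ⟨Ψ, τ, j, σ, -, -, -, -, hτ, hj, hσ, -⟩ := generators (ω := ω) h2 h0 h1 hω
    ((1 + ω) ^ 2)⁻¹ (inv_mul_cancel₀ (pow_ne_zero 2 h10)) (inv_ne_zero (pow_ne_zero 2 h10))
  exact chiral_of_base (isPolytope h2 h0 h1 hω) Ψ ⟨τ, hτ⟩ ⟨j, hj⟩ ⟨σ, hσ⟩
    (not_regular h2 h0 h1 hω h3)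

/-- Proof: `auto_form`: if `γ` fixes all vertices (the atoms are the `vert a`) then `g = 1`, and
`mapF 1 = id`. -/
theorem faithful (h2 : (2 : F) = 0) (h0 : ω ≠ 0) (h1 : ω ≠ 1)
    (hω : ∀ z : F, z ≠ 0 → ∃ i : ℕ, z = ω ^ i) :
    FaithfulSMul (CR F ω ≃o CR F ω) (Vert (CR F ω)) := by
  have h := isPolytope (ω := ω) h2 h0 h1 hω
  refine ⟨?_⟩
  intro γ δ hγδ
  obtain ⟨g, hg, -⟩ := auto_form γ (fun x => IsPolytope.rk_map h h γ x)
  obtain ⟨k, hk, -⟩ := auto_form δ (fun x => IsPolytope.rk_map h h δ x)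
  have hgk : g = k := by
    ext1 a
    have h3 := congrArg Subtype.val (hγδ ⟨vert a, (isAtom_iff h _).2 rfl⟩)
    rw [smul_vert_val, smul_vert_val] at h3
    change γ (vert a) = δ (vert a) at h3
    rw [hg, hk] at h3
    injection h3
  apply DFunLike.ext
  intro x
  rw [hg, hk, hgk]

end CR

end Pool.Agent.H.MP_6268b4_co
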