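import Pool.Agent.H.MP_6268b4_co.TWord

/-!
The cross-ratio polytopes over a field of characteristic 2.
-/

namespace Pool.Agent.H.MP_6268b4_co

/-- The difference `a - b` of two points of the projective line `Option F` (characteristic 2), with
the usual conventions for the point `none` at infinity. -/
def br {F : Type*} [Field F] : Option F → Option F → F
  | none, none => 0
  | none, some _ => 1
  | some _, none => 1
  | some a, some b => a + b

/-- The four points are distinct and have cross-ratio `ω`:
`(a - y) (b - y') / ((a - y') (b - y)) = ω`. -/
def Cross {F : Type*} [Field F] (ω : F) (a b y y' : Option F) : Prop :=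
  a ≠ b ∧ y ≠ y' ∧ a ≠ y ∧ a ≠ y' ∧ b ≠ y ∧ b ≠ y' ∧
    br a y * br b y' = ω * (br a y' * br b y)

/-- Incidence of the edge `s` with the 2-face `s'` (two-element subsets of the projective line):
for a suitable ordering of the two pairs the cross-ratio is `ω`. -/
def Inc {F : Type*} [Field F] [DecidableEq F] (ω : F) (s s' : Finset (Option F)) : Prop :=
  ∃ a b y y' : Option F, s = {a, b} ∧ s' = {y, y'} ∧ Cross ω a b y y'

/-- The faces: the vertices and the facets are the points of the projective line, the edges and the
2-faces are the pairs of points. -/
inductive CR (F : Type*) [Field F] (ω : F) : Type _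
  | bot : CR F ω
  | vert : Option F → CR F ω
  | edge : {s : Finset (Option F) // s.card = 2} → CR F ω
  | face : {s : Finset (Option F) // s.card = 2} → CR F ω
  | facet : Option F → CR F ω
  | top : CR F ω

namespace CR

variable {F : Type*} [Field F] [DecidableEq F] {ω : F}

/-- The order. -/
def le : CR F ω → CR F ω → Prop
  | bot, _ => True
  | _, top => True
  | vert a, vert b => a = b
  | vert a, edge s => a ∈ s.1
  | vert a, face s => a ∉ s.1
  | vert a, facet y => a ≠ y
  | edge s, edge s' => s = s'
  | edge s, face s' => Inc ω s.1 s'.1
  | edge s, facet y => y ∉ s.1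
  | face s, face s' => s = s'
  | face s, facet y => y ∈ s.1
  | facet x, facet y => x = y
  | _, _ => False

omit [DecidableEq F] in
/-- The rank. -/
def rk : CR F ω → ℤ
  | bot => -1
  | vert _ => 0
  | edge _ => 1
  | face _ => 2
  | facet _ => 3
  | top => 4

lemma inc_disj {s s' : Finset (Option F)} (h : Inc ω s s') {x : Option F} (hx : x ∈ s)
    (hx' : x ∈ s') : False := by
  obtain ⟨a, b, y, y', rfl, rfl, h1, h2, h3, h4, h5, h6, -⟩ := h
  simp only [Finset.mem_insert, Finset.mem_singleton] at hx hx'
  rcases hx with rfl | rfl <;> rcases hx' with rfl | rfl <;> simp_all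

instance : PartialOrder (CR F ω) where
  le := le
  le_refl x := by cases x <;> simp [le]
  le_trans x y z := by
    cases x <;> cases y <;> cases z <;> simp only [le, imp_self, implies_true, true_imp_iff,
      false_imp_iff, imp_false, not_true_eq_false, not_false_eq_true] <;> intro h1 h2
    all_goals first
      | (subst h1; exact h2)
      | (subst h2; exact h1)
      | (intro h3; exact inc_disj h2 h1 h3)
      | (intro h3; exact inc_disj h1 h3 h2)
      | (rintro rfl; exact h2 h1)
      | (rintro rfl; exact h1 h2)
      | skip
  le_antisymm x y := by
    cases x <;> cases y <;> simp only [le, imp_self, implies_true, true_imp_iff,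
      false_imp_iff, imp_false, not_true_eq_false, not_false_eq_true] <;> intro h1
    all_goals first
      | (subst h1; rfl)
      | (intro h2; subst h1; rfl)
      | skip

instance : BoundedOrder (CR F ω) where
  top := top
  le_top x := by
    change le x top
    cases x <;> simp [le]
  bot := bot
  bot_le x := by
    change le bot x
    cases x <;> simp [le]

lemma le_def (x y : CR F ω) : x ≤ y ↔ le x y := Iff.rfl

lemma top_def : (⊤ : CR F ω) = top := rfl

lemma bot_def : (⊥ : CR F ω) = bot := rfl

end CR

end Pool.Agent.H.MP_6268b4_co
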