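import Mathlib

/-!
Group-theoretic hypotheses for the classification of neighborly regular or chiral 4-polytopes.
-/

namespace Pool.Agent.H.MP_6268b4_co

/-- The action of `G` on `Ω` is 2-transitive. -/
def TwoTrans (G Ω : Type*) [Group G] [MulAction G Ω] : Prop :=
  ∀ x y x' y' : Ω, x ≠ y → x' ≠ y' → ∃ g : G, g • x = x' ∧ g • y = y'

/-- The action of `F` on `Δ` is sharply 2-transitive. -/
def SharpTwo (F Δ : Type*) [Group F] [MulAction F Δ] : Prop :=
  ∀ x y x' y' : Δ, x ≠ y → x' ≠ y' → ∃! g : F, g • x = x' ∧ g • y = y'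

/-- The group-theoretic data coming from a regular 4-polytope `{p, q, r}`, `r` odd, whose edge
graph is a simple complete graph: `v w` are two vertices, `t c a b` are the generating involutions
`ρ₀ ρ₁ ρ₂ ρ₃`. -/
structure RHyp {G Ω : Type*} [Group G] [MulAction G Ω] (v w : Ω) (t c a b : G) : Prop where
  two : TwoTrans G Ω
  vw : v ≠ w
  aa : a * a = 1
  bb : b * b = 1
  cc : c * c = 1
  tt : t * t = 1
  odd : Odd (orderOf (a * b))
  av : a • v = v
  aw : a • w = w
  bv : b • v = v
  bw : b • w = w
  tv : t • v = w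
  cv : c • v = v
  ta : t * a = a * t
  tb : t * b = b * t
  cb : c * b = b * c
  stab2 : ∀ g : G, g • v = v → g • w = w → g ∈ Subgroup.closure {a, b}
  stab1 : ∀ g : G, g • v = v → g ∈ Subgroup.closure {c, a, b}

/-- The group-theoretic data coming from a chiral 4-polytope `{p, q, r}`, `r` odd, whose edge
graph is a simple complete graph. -/
structure CHyp {G Ω : Type*} [Group G] [MulAction G Ω] (v w : Ω) (τ j σ : G) : Prop where
  two : TwoTrans G Ω
  vw : v ≠ w
  ττ : τ * τ = 1
  jj : j * j = 1
  odd : Odd (orderOf σ)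
  σv : σ • v = v
  σw : σ • w = w
  τv : τ • v = w
  jv : j • v = v
  τσ : τ * σ * τ = σ⁻¹
  stab2 : ∀ g : G, g • v = v → g • w = w → g ∈ Subgroup.zpowers σ
  stab1 : ∀ g : G, g • v = v → g ∈ Subgroup.closure {j, σ}

/-- The map `x ↦ lam / x` of the projective line `Option F`. -/
def mobInv {F : Type*} [Field F] [DecidableEq F] (lam : F) : Option F → Option F
  | none => some 0
  | some z => if z = 0 then none else some (lam / z)

end Pool.Agent.H.MP_6268b4_co
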