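import Pool.Agent.H.MP_6268b4_co.CRDefs
import Pool.Agent.H.MP_6268b4_co.GDefs

/-!
Permutations of the projective line preserving the cross-ratio (characteristic 2).
-/

namespace Pool.Agent.H.MP_6268b4_co

variable {F : Type*} [Field F] {ω : F}

/-- The permutation and its inverse preserve the relation `Cross ω`. -/
def Pres (ω : F) (g : Equiv.Perm (Option F)) : Prop :=
  ∀ a b y y', Cross ω (g a) (g b) (g y) (g y') ↔ Cross ω a b y y'

/-- Proof: `br` is symmetric. -/
theorem br_comm (a b : Option F) : br a b = br b a := by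
  cases a <;> cases b <;> simp [br, add_comm]

/-- In characteristic 2 the bracket of two different points is not zero. -/
theorem br_ne (h2 : (2 : F) = 0) {a b : Option F} (hab : a ≠ b) : br a b ≠ 0 := by
  cases a with
  | none =>
    cases b with
    | none => exact absurd rfl hab
    | some b => simp [br]
  | some a =>
    cases b with
    | none => simp [br]
    | some b =>
      intro h
      apply hab
      have h3 : a + b = 0 := h
      have h4 : a = b := by linear_combination h3 - b * h2
      rw [h4]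

/-- Two equal pairs. -/
theorem crmoba_pair [DecidableEq F] {a b c d : Option F} (hab : a ≠ b)
    (h : ({a, b} : Finset (Option F)) = {c, d}) : (a = c ∧ b = d) ∨ (a = d ∧ b = c) := by
  have h1 : a ∈ ({c, d} : Finset (Option F)) := by
    rw [← h]
    exact Finset.mem_insert_self a {b}
  have h2 : b ∈ ({c, d} : Finset (Option F)) := by
    rw [← h]
    exact Finset.mem_insert_of_mem (Finset.mem_singleton_self b)
  rw [Finset.mem_insert, Finset.mem_singleton] at h1 h2
  rcases h1 with h1 | h1
  · rcases h2 with h2 | h2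
    · exact absurd (h1.trans h2.symm) hab
    · exact Or.inl ⟨h1, h2⟩
  · rcases h2 with h2 | h2
    · exact Or.inr ⟨h1, h2⟩
    · exact absurd (h1.trans h2.symm) hab

/-- Symmetries of the cross-ratio relation. Proof: unfold, `br_comm`, commutativity. -/
theorem cross_swap {a b y y' : Option F} : Cross ω b a y' y ↔ Cross ω a b y y' := by
  unfold Cross
  constructor
  · rintro ⟨h1, h2, h3, h4, h5, h6, h7⟩
    refine ⟨h1.symm, h2.symm, h6, h5, h4, h3, ?_⟩
    linear_combination h7
  · rintro ⟨h1, h2, h3, h4, h5, h6, h7⟩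
    refine ⟨h1.symm, h2.symm, h6, h5, h4, h3, ?_⟩
    linear_combination h7

theorem cross_dual {a b y y' : Option F} : Cross ω y y' a b ↔ Cross ω a b y y' := by
  unfold Cross
  rw [br_comm y a, br_comm y' b, br_comm y b, br_comm y' a]
  constructor
  · rintro ⟨h1, h2, h3, h4, h5, h6, h7⟩
    refine ⟨h2, h1, h3.symm, h5.symm, h4.symm, h6.symm, ?_⟩
    linear_combination h7
  · rintro ⟨h1, h2, h3, h4, h5, h6, h7⟩
    refine ⟨h2, h1, h3.symm, h5.symm, h4.symm, h6.symm, ?_⟩
    linear_combination h7

/-- `Inc` for given pairs: `Inc ω {a, b} {y, y'}` iff `Cross ω a b y y'` or `Cross ω a b y' y`.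
Proof: if `{a, b} = {a₁, b₁}` with `a ≠ b` then `(a₁, b₁) = (a, b)` or `(b, a)`
(`Finset` extensionality, or `Sym2`), same for `{y, y'}`; use `cross_swap`. -/
theorem inc_iff [DecidableEq F] {a b y y' : Option F} (hab : a ≠ b) (hyy : y ≠ y') :
    Inc ω {a, b} {y, y'} ↔ Cross ω a b y y' ∨ Cross ω a b y' y := by
  constructor
  · rintro ⟨a1, b1, y1, y1', h1, h2, h3⟩
    rcases crmoba_pair hab h1 with ⟨rfl, rfl⟩ | ⟨rfl, rfl⟩
    · rcases crmoba_pair hyy h2 with ⟨rfl, rfl⟩ | ⟨rfl, rfl⟩
      · exact Or.inl h3
      · exact Or.inr h3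
    · rcases crmoba_pair hyy h2 with ⟨rfl, rfl⟩ | ⟨rfl, rfl⟩
      · exact Or.inr (cross_swap.1 h3)
      · exact Or.inl (cross_swap.1 h3)
  · rintro (h | h)
    · exact ⟨a, b, y, y', rfl, rfl, h⟩
    · exact ⟨a, b, y', y, rfl, Finset.pair_comm _ _, h⟩

theorem inc_dual [DecidableEq F] {s s' : Finset (Option F)} : Inc ω s' s ↔ Inc ω s s' := by
  constructor
  · rintro ⟨a, b, y, y', h1, h2, h3⟩
    exact ⟨y, y', a, b, h2, h1, cross_dual.2 h3⟩
  · rintro ⟨a, b, y, y', h1, h2, h3⟩
    exact ⟨y, y', a, b, h2, h1, cross_dual.2 h3⟩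

/-- Proof: unfold `Pres`. -/
theorem Pres.symm {g : Equiv.Perm (Option F)} (h : Pres ω g) : Pres ω g.symm := by
  intro a b y y'
  have h1 := h (g.symm a) (g.symm b) (g.symm y) (g.symm y')
  simp only [Equiv.apply_symm_apply] at h1
  exact h1.symm

theorem Pres.mul {g k : Equiv.Perm (Option F)} (h : Pres ω g) (h' : Pres ω k) :
    Pres ω (g * k) := by
  intro a b y y'
  simp only [Equiv.Perm.mul_apply]
  exact (h _ _ _ _).trans (h' _ _ _ _)

/-- Normal form: Proof: unfold `Cross` and `br`: `1 * (0 + y') = ω * (1 * (0 + y))`. -/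
theorem cross_norm {y y' : F} :
    Cross ω none (some 0) (some y) (some y') ↔ y ≠ y' ∧ y ≠ 0 ∧ y' ≠ 0 ∧ y' = ω * y := by
  unfold Cross
  constructor
  · rintro ⟨_, h2, _, _, h5, h6, h7⟩
    refine ⟨fun h => h2 (by rw [h]), fun h => h5 (by rw [h]), fun h => h6 (by rw [h]), ?_⟩
    simp only [br] at h7
    linear_combination h7
  · rintro ⟨h2, h5, h6, h7⟩
    refine ⟨by simp, fun h => h2 (Option.some.inj h), by simp, by simp,
      fun h => h5 (Option.some.inj h).symm, fun h => h6 (Option.some.inj h).symm, ?_⟩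
    simp only [br]
    linear_combination h7

/-- Normal form: `Inc {∞, b} {0, y'}` iff `y' = (1 + ω) b` or `ω y' = (1 + ω) b`, for
`b, y' ≠ 0`. Proof: `inc_iff` and unfolding: `Cross ω none (some b) (some 0) (some y')` says
`b + y' = ω * b`, `Cross ω none (some b) (some y') (some 0)` says `b = ω * (b + y')`; characteristic
2; also show `b ≠ y'` in both cases (`ω ≠ 0`, `ω ≠ 1`). -/
theorem inc_norm2 [DecidableEq F] (h2 : (2 : F) = 0) (h0 : ω ≠ 0) (h1 : ω ≠ 1) {b y' : F}
    (hb : b ≠ 0) (hy : y' ≠ 0) :
    Inc ω {none, some b} {some 0, some y'} ↔ (y' = (1 + ω) * b ∨ ω * y' = (1 + ω) * b) := by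
  have hn1 : (none : Option F) ≠ some b := by simp
  have hn2 : (some 0 : Option F) ≠ some y' := fun h => hy (Option.some.inj h).symm
  rw [inc_iff hn1 hn2]
  unfold Cross
  constructor
  · rintro (⟨_, _, _, _, _, _, h7⟩ | ⟨_, _, _, _, _, _, h7⟩)
    · left
      simp only [br] at h7
      linear_combination h7 - b * h2
    · right
      simp only [br] at h7
      linear_combination -h7 - ω * b * h2
  · rintro (h | h)
    · left
      refine ⟨hn1, hn2, by simp, by simp, fun h' => hb (Option.some.inj h'), ?_, ?_⟩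
      · intro h'
        have h3 : b = y' := Option.some.inj h'
        have h4 : ω * b = 0 := by linear_combination -h - h3
        rcases mul_eq_zero.1 h4 with h5 | h5
        · exact h0 h5
        · exact hb h5
      · simp only [br]
        linear_combination h + b * h2
    · right
      refine ⟨hn1, hn2.symm, by simp, by simp, ?_, fun h' => hb (Option.some.inj h'), ?_⟩
      · intro h'
        have h3 : b = y' := Option.some.inj h'
        rw [← h3] at h
        exact hb (by linear_combination -h)
      · simp only [br]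
        linear_combination -h - ω * b * h2

end Pool.Agent.H.MP_6268b4_co
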