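import Pool.Agent.H.MP_6268b4_co.CRMobA

/-!
Moebius maps preserve the cross-ratio (characteristic 2); 3-transitivity.
-/

namespace Pool.Agent.H.MP_6268b4_co

variable {F : Type*} [Field F] {ω : F}

/-- the translation `x ↦ x + c` -/
def mobT (c : F) : Equiv.Perm (Option F) := Equiv.optionCongr (Equiv.addRight c)

/-- the dilation `x ↦ k x` -/
def mobD (k : F) (hk : k ≠ 0) : Equiv.Perm (Option F) := Equiv.optionCongr (Equiv.mulLeft₀ k hk)

theorem mobT_some (c x : F) : mobT c (some x) = some (x + c) := rfl
theorem mobT_none (c : F) : mobT c none = none := rfl
theorem mobD_some (k : F) (hk : k ≠ 0) (x : F) : mobD k hk (some x) = some (k * x) := rfl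
theorem mobD_none (k : F) (hk : k ≠ 0) : mobD k hk none = none := rfl

/-- Proof: `mobInv lam` is an involution: `lam / (lam / z) = z`. -/
theorem mobInv_invol [DecidableEq F] (lam : F) (hl : lam ≠ 0) (x : Option F) :
    mobInv lam (mobInv lam x) = x := by
  cases x with
  | none => simp [mobInv]
  | some z =>
    by_cases hz : z = 0
    · simp [mobInv, hz]
    · have h1 : lam / z ≠ 0 := div_ne_zero hl hz
      have h2 : lam / (lam / z) = z := by field_simp
      simp only [mobInv, hz, if_false, h1, h2]

/-- the map `x ↦ lam / x` as a permutation -/
def mobI [DecidableEq F] (lam : F) (hl : lam ≠ 0) : Equiv.Perm (Option F) where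
  toFun := mobInv lam
  invFun := mobInv lam
  left_inv := mobInv_invol lam hl
  right_inv := mobInv_invol lam hl

/-- A permutation under which the bracket of different points is multiplied by a product of
nonzero factors preserves the cross-ratio. -/
theorem crmobb_pres_of (g : Equiv.Perm (Option F)) (κ : F) (m : Option F → F) (hκ : κ ≠ 0)
    (hm : ∀ x, m x ≠ 0) (h : ∀ a b, a ≠ b → br (g a) (g b) = κ * m a * m b * br a b) :
    Pres ω g := by
  intro a b y y'
  unfold Cross
  simp only [ne_eq, g.injective.eq_iff]
  constructor
  · rintro ⟨h1, h2, h3, h4, h5, h6, h7⟩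
    refine ⟨h1, h2, h3, h4, h5, h6, ?_⟩
    rw [h a y h3, h b y' h6, h a y' h4, h b y h5] at h7
    have hK : κ ^ 2 * (m a * m b * (m y * m y')) ≠ 0 :=
      mul_ne_zero (pow_ne_zero 2 hκ)
        (mul_ne_zero (mul_ne_zero (hm a) (hm b)) (mul_ne_zero (hm y) (hm y')))
    apply mul_left_cancel₀ hK
    linear_combination h7
  · rintro ⟨h1, h2, h3, h4, h5, h6, h7⟩
    refine ⟨h1, h2, h3, h4, h5, h6, ?_⟩
    rw [h a y h3, h b y' h6, h a y' h4, h b y h5]
    linear_combination (κ ^ 2 * (m a * m b * (m y * m y'))) * h7

/-- Proof: brackets do not change under `x ↦ x + c` (`c + c = 0`). -/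
theorem pres_T (h2 : (2 : F) = 0) (c : F) : Pres ω (mobT c) := by
  refine crmobb_pres_of (mobT c) 1 (fun _ => 1) one_ne_zero (fun _ => one_ne_zero) ?_
  intro a b hab
  cases a with
  | none =>
    cases b with
    | none => exact absurd rfl hab
    | some b => simp [mobT_some, mobT_none, br]
  | some a =>
    cases b with
    | none => simp [mobT_some, mobT_none, br]
    | some b =>
      simp only [mobT_some, br]
      linear_combination c * h2

/-- Proof: `br (g a) (g b) = k * m a * m b * br a b` with `m none = k⁻¹` and `m (some _) = 1`, if
`(a, b) ≠ (none, none)`; both sides of the cross-ratio equation are multiplied by the same nonzero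
factor. Or: cases on which of the four points is `none` (at most one, as they are distinct). -/
theorem pres_D (k : F) (hk : k ≠ 0) : Pres ω (mobD k hk) := by
  refine crmobb_pres_of (mobD k hk) k (fun x => match x with | none => k⁻¹ | some _ => 1) hk ?_ ?_
  · intro x
    cases x with
    | none => exact inv_ne_zero hk
    | some x => exact one_ne_zero
  intro a b hab
  cases a with
  | none =>
    cases b with
    | none => exact absurd rfl hab
    | some b => simp [mobD_some, mobD_none, br, hk]
  | some a =>
    cases b with
    | none => simp [mobD_some, mobD_none, br, hk]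
    | some b =>
      simp only [mobD_some, br]
      ring

/-- Proof: for `a, b` different from `some 0`, `none`: `lam / a + lam / b = lam (a + b) / (a b)`.
In general `br (g a) (g b) = lam * m a * m b * br a b` with `m none = lam⁻¹ ...`, suitable; or by
cases on `none`, `some 0`, others (each of `none` and `some 0` occurs at most once among the four
distinct points); `field_simp`, `ring` and `h2`. -/
theorem pres_I [DecidableEq F] (h2 : (2 : F) = 0) (lam : F) (hl : lam ≠ 0) :
    Pres ω (mobI lam hl) := by
  have hmn : mobI lam hl none = some 0 := rfl
  have hm0 : mobI lam hl (some 0) = none := by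
    change mobInv lam (some 0) = none
    simp [mobInv]
  have hms : ∀ z : F, z ≠ 0 → mobI lam hl (some z) = some (lam / z) := by
    intro z hz
    change mobInv lam (some z) = _
    simp [mobInv, hz]
  refine crmobb_pres_of (mobI lam hl) lam
    (fun x => match x with | none => 1 | some z => if z = 0 then lam⁻¹ else z⁻¹) hl ?_ ?_
  · intro x
    cases x with
    | none => exact one_ne_zero
    | some x =>
      by_cases hx : x = 0
      · simp [hx, hl]
      · simp [hx]
  intro a b hab
  cases a with
  | none =>
    cases b with
    | none => exact absurd rfl hab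
    | some b =>
      by_cases hb : b = 0
      · subst hb
        rw [hmn, hm0]
        simp [br, hl]
      · rw [hmn, hms b hb]
        simp only [br, hb, if_false]
        field_simp
        ring
  | some a =>
    cases b with
    | none =>
      by_cases ha : a = 0
      · subst ha
        rw [hmn, hm0]
        simp [br, hl]
      · rw [hmn, hms a ha]
        simp only [br, ha, if_false]
        field_simp
        ring
    | some b =>
      have hab' : a ≠ b := fun e => hab (by rw [e])
      by_cases ha : a = 0
      · subst ha
        have hb : b ≠ 0 := fun e => hab' e.symm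
        rw [hm0, hms b hb]
        simp only [br, hb, if_true, if_false, zero_add]
        field_simp
      · by_cases hb : b = 0
        · subst hb
          rw [hm0, hms a ha]
          simp only [br, ha, if_true, if_false, add_zero]
          field_simp
        · rw [hms a ha, hms b hb]
          simp only [br, ha, hb, if_false]
          field_simp
          ring

/-- 3-transitivity: any three different points can be mapped to `∞, 0, 1`.

Proof. If `a = some a'`: first `mobT a'` maps `a` to `some 0` (`a' + a' = 0`), then `mobI 1` maps it
to `none`. So we may assume `a = none`; then `b = some b'`, and `mobT b'` fixes `none` and maps `b`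
to `some 0`. Then `c = some c'`, `c' ≠ 0`, and `mobD c'⁻¹` maps it to `some 1`. -/
theorem three_trans [DecidableEq F] (h2 : (2 : F) = 0) {a b c : Option F} (hab : a ≠ b)
    (hac : a ≠ c) (hbc : b ≠ c) :
    ∃ g : Equiv.Perm (Option F), Pres ω g ∧ g a = none ∧ g b = some 0 ∧ g c = some 1 := by
  -- the case `a = none`
  have key : ∀ b c : Option F, (none : Option F) ≠ b → (none : Option F) ≠ c → b ≠ c →
      ∃ g : Equiv.Perm (Option F), Pres ω g ∧ g none = none ∧ g b = some 0 ∧ g c = some 1 := by
    intro b c hb hc hbc
    cases b with
    | none => exact absurd rfl hb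
    | some b =>
      cases c with
      | none => exact absurd rfl hc
      | some c =>
        have hcb : c + b ≠ 0 := by
          intro e
          apply hbc
          have : c = b := by linear_combination e - b * h2
          rw [this]
        refine ⟨mobD (c + b)⁻¹ (inv_ne_zero hcb) * mobT b,
          (pres_D _ _).mul (pres_T h2 b), ?_, ?_, ?_⟩
        · rw [Equiv.Perm.mul_apply, mobT_none, mobD_none]
        · rw [Equiv.Perm.mul_apply, mobT_some, mobD_some]
          congr 1
          have : b + b = 0 := by linear_combination b * h2
          rw [this, mul_zero]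
        · rw [Equiv.Perm.mul_apply, mobT_some, mobD_some, inv_mul_cancel₀ hcb]
  cases a with
  | none => exact key b c hab hac hbc
  | some a =>
    have h1 : (mobI (1 : F) one_ne_zero * mobT a) (some a) = none := by
      rw [Equiv.Perm.mul_apply, mobT_some]
      have : a + a = 0 := by linear_combination a * h2
      rw [this]
      change mobInv 1 (some 0) = none
      simp [mobInv]
    set u : Equiv.Perm (Option F) := mobI (1 : F) one_ne_zero * mobT a with hu
    have hpu : Pres ω u := (pres_I h2 1 one_ne_zero).mul (pres_T h2 a)
    have hb : (none : Option F) ≠ u b := by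
      rw [← h1]
      exact fun e => hab (u.injective e)
    have hc : (none : Option F) ≠ u c := by
      rw [← h1]
      exact fun e => hac (u.injective e)
    have hbc' : u b ≠ u c := fun e => hbc (u.injective e)
    obtain ⟨g, hg, g1, g2, g3⟩ := key (u b) (u c) hb hc hbc'
    refine ⟨g * u, hg.mul hpu, ?_, ?_, ?_⟩
    · rw [Equiv.Perm.mul_apply, h1, g1]
    · rw [Equiv.Perm.mul_apply, g2]
    · rw [Equiv.Perm.mul_apply, g3]

end Pool.Agent.H.MP_6268b4_co
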