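import Pool.Agent.H.MP_6268b4_co.MGen

/-!
Connected sections imply strong flag-connectedness.
-/

namespace Pool.Agent.H.MP_6268b4_co

variable {Q : Type*} [PartialOrder Q] [BoundedOrder Q] {rk : Q → ℤ}

private theorem mgenb_rk_ge (hG : Graded4 Q rk) (x : Q) : -1 ≤ rk x := by
  rcases (bot_le : ⊥ ≤ x).lt_or_eq with h | h
  · have := hG.mono _ _ h
    rw [hG.bot] at this
    exact this.le
  · rw [← h, hG.bot]

private theorem mgenb_rk_le (hG : Graded4 Q rk) (x : Q) : rk x ≤ 4 := by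
  rcases (le_top : x ≤ ⊤).lt_or_eq with h | h
  · have := hG.mono _ _ h
    rw [hG.top] at this
    exact this.le
  · rw [h, hG.top]

private theorem mgenb_eq (hG : Graded4 Q rk) {Φ : Flag Q} {x y : Q} (hx : x ∈ Φ) (hy : y ∈ Φ)
    (h : rk x = rk y) : x = y := by
  rcases Φ.le_or_le hx hy with h1 | h1
  · rcases h1.lt_or_eq with h2 | h2
    · exact absurd h (hG.mono _ _ h2).ne
    · exact h2
  · rcases h1.lt_or_eq with h2 | h2
    · exact absurd h.symm (hG.mono _ _ h2).ne
    · exact h2.symm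

private theorem mgenb_lt (hG : Graded4 Q rk) {Φ : Flag Q} {x y : Q} (hx : x ∈ Φ) (hy : y ∈ Φ)
    (h : rk x < rk y) : x < y := by
  rcases Φ.le_or_le hx hy with h1 | h1
  · rcases h1.lt_or_eq with h2 | h2
    · exact h2
    · rw [h2] at h
      exact absurd h (lt_irrefl _)
  · rcases h1.lt_or_eq with h2 | h2
    · have := hG.mono _ _ h2
      omega
    · rw [h2] at h
      exact absurd h (lt_irrefl _)

open Classical in
/-- the ranks from `0` to `3` which do not occur in `J` -/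
private noncomputable def mgenb_mis (rk : Q → ℤ) (J : Set Q) : Finset ℤ :=
  (Finset.Icc (0 : ℤ) 3).filter (fun i => ∀ j ∈ J, rk j ≠ i)

omit [PartialOrder Q] [BoundedOrder Q] in
private theorem mgenb_mem_mis {J : Set Q} {i : ℤ} :
    i ∈ mgenb_mis rk J ↔ (0 ≤ i ∧ i ≤ 3) ∧ ∀ j ∈ J, rk j ≠ i := by
  simp only [mgenb_mis, Finset.mem_filter, Finset.mem_Icc]

omit [PartialOrder Q] [BoundedOrder Q] in
private theorem mgenb_card_lt {J : Set Q} {z : Q} (h0 : 0 ≤ rk z) (h3 : rk z ≤ 3)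
    (hz : ∀ j ∈ J, rk j ≠ rk z) :
    (mgenb_mis rk (insert z J)).card < (mgenb_mis rk J).card := by
  apply Finset.card_lt_card
  rw [Finset.ssubset_iff_of_subset]
  · refine ⟨rk z, mgenb_mem_mis.2 ⟨⟨h0, h3⟩, hz⟩, ?_⟩
    intro h
    exact (mgenb_mem_mis.1 h).2 z (Set.mem_insert _ _) rfl
  · intro i hi
    rw [mgenb_mem_mis] at hi ⊢
    exact ⟨hi.1, fun j hj => hi.2 j (Set.mem_insert_of_mem _ hj)⟩

/-- a face of a flag whose rank occurs in `J` is in `J` -/
private theorem mgenb_mem_of (hG : Graded4 Q rk) {J : Set Q} (hb : ⊥ ∈ J) (ht : ⊤ ∈ J)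
    {Φ : Flag Q} (hΦ : J ⊆ (Φ : Set Q)) {x : Q} (hx : x ∈ Φ) (h : rk x ∉ mgenb_mis rk J) :
    x ∈ J := by
  have h1 := mgenb_rk_ge hG x
  have h2 := mgenb_rk_le hG x
  by_cases h3 : rk x = -1
  · have : x = ⊥ := mgenb_eq hG hx (hΦ hb) (by rw [h3, hG.bot])
    rw [this]
    exact hb
  by_cases h4 : rk x = 4
  · have : x = ⊤ := mgenb_eq hG hx (hΦ ht) (by rw [h4, hG.top])
    rw [this]
    exact ht
  rw [mgenb_mem_mis] at h
  push Not at h
  obtain ⟨j, hj, hjx⟩ := h ⟨by omega, by omega⟩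
  have : x = j := mgenb_eq hG hx (hΦ hj) hjx.symm
  rw [this]
  exact hj

/-- adjacency of flags containing `J` -/
private def mgenb_R (J : Set Q) (A B : Flag Q) : Prop :=
  Adj A B ∧ J ⊆ (A : Set Q) ∧ J ⊆ (B : Set Q)

private theorem mgenb_mono {J J' : Set Q} (h : J ⊆ J') {A B : Flag Q}
    (hAB : Relation.ReflTransGen (mgenb_R J') A B) : Relation.ReflTransGen (mgenb_R J) A B := by
  have h1 : ∀ a b, mgenb_R J' a b → mgenb_R J a b :=
    fun _ _ hc => ⟨hc.1, h.trans hc.2.1, h.trans hc.2.2⟩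
  exact Relation.ReflTransGen.mono h1 _ _ hAB

private theorem mgenb_flag_eq (hG : Graded4 Q rk) {J : Set Q} (hb : ⊥ ∈ J) (ht : ⊤ ∈ J)
    {Φ Ψ : Flag Q} (hΦ : J ⊆ (Φ : Set Q)) (hΨ : J ⊆ (Ψ : Set Q))
    (h1 : ∀ x ∈ Φ, rk x ∉ mgenb_mis rk J) (h2 : ∀ x ∈ Ψ, rk x ∉ mgenb_mis rk J) : Φ = Ψ := by
  apply SetLike.coe_injective
  apply Set.Subset.antisymm
  · intro x hx
    exact hΨ (mgenb_mem_of hG hb ht hΦ hx (h1 x hx))
  · intro x hx
    exact hΦ (mgenb_mem_of hG hb ht hΨ hx (h2 x hx))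

private theorem mgenb_claim (hG : Graded4 Q rk) (hS : SecConn Q rk) (m : ℕ) :
    ∀ J : Set Q, ⊥ ∈ J → ⊤ ∈ J → (mgenb_mis rk J).card ≤ m → ∀ Φ Ψ : Flag Q,
      J ⊆ (Φ : Set Q) → J ⊆ (Ψ : Set Q) → Relation.ReflTransGen (mgenb_R J) Φ Ψ := by
  induction m with
  | zero =>
    intro J hb ht hcard Φ Ψ hΦ hΨ
    have hmis : mgenb_mis rk J = ∅ := Finset.card_eq_zero.1 (Nat.le_zero.1 hcard)
    have := mgenb_flag_eq hG hb ht hΦ hΨ (fun x _ => by rw [hmis]; exact Finset.notMem_empty _)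
      (fun x _ => by rw [hmis]; exact Finset.notMem_empty _)
    rw [this]
  | succ m ih =>
    intro J hb ht hcard Φ Ψ hΦ hΨ
    by_cases hmis : mgenb_mis rk J = ∅
    · have := mgenb_flag_eq hG hb ht hΦ hΨ (fun x _ => by rw [hmis]; exact Finset.notMem_empty _)
        (fun x _ => by rw [hmis]; exact Finset.notMem_empty _)
      rw [this]
    have hne := Finset.nonempty_iff_ne_empty.2 hmis
    obtain ⟨p, hp, hpmin⟩ : ∃ p ∈ mgenb_mis rk J, ∀ i ∈ mgenb_mis rk J, p ≤ i :=
      ⟨_, Finset.min'_mem _ hne, fun i hi => Finset.min'_le _ i hi⟩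
    have hp' := mgenb_mem_mis.1 hp
    -- the face `G`
    obtain ⟨G, hGJ, hpG, hGmin⟩ : ∃ G ∈ J, p < rk G ∧ ∀ j ∈ J, p < rk j → rk G ≤ rk j := by
      classical
      have hne2 : ((Finset.Icc (p + 1) 4).filter fun i => ∃ j ∈ J, rk j = i).Nonempty :=
        ⟨4, Finset.mem_filter.2 ⟨Finset.mem_Icc.2 ⟨by omega, le_refl _⟩, ⊤, ht, hG.top⟩⟩
      have h1 := Finset.mem_filter.1 (Finset.min'_mem _ hne2)
      obtain ⟨G, hGJ, hGr⟩ := h1.2
      have h2 := Finset.mem_Icc.1 h1.1
      refine ⟨G, hGJ, by rw [hGr]; omega, fun j hj hpj => ?_⟩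
      rw [hGr]
      exact Finset.min'_le _ _ (Finset.mem_filter.2
        ⟨Finset.mem_Icc.2 ⟨by omega, mgenb_rk_le hG j⟩, j, hj, rfl⟩)
    -- the face `F`
    obtain ⟨F, hFJ, hF⟩ : ∃ F ∈ J, rk F = p - 1 := by
      by_cases h0 : p = 0
      · exact ⟨⊥, hb, by rw [hG.bot, h0]; norm_num⟩
      · by_contra hcon
        push Not at hcon
        have := hpmin (p - 1) (mgenb_mem_mis.2 ⟨⟨by omega, by omega⟩, hcon⟩)
        omega
    have hGle := mgenb_rk_le hG G
    have hJcases : ∀ j ∈ J, j ≤ F ∨ G ≤ j := by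
      intro j hj
      rcases lt_trichotomy (rk j) p with h | h | h
      · left
        rcases lt_or_eq_of_le (show rk j ≤ rk F by omega) with h1 | h1
        · exact (mgenb_lt hG (hΦ hj) (hΦ hFJ) h1).le
        · exact (mgenb_eq hG (hΦ hj) (hΦ hFJ) h1).le
      · exact absurd h (hp'.2 j hj)
      · right
        rcases lt_or_eq_of_le (hGmin j hj h) with h1 | h1
        · exact (mgenb_lt hG (hΦ hGJ) (hΦ hj) h1).le
        · exact (mgenb_eq hG (hΦ hGJ) (hΦ hj) h1).le
    have hJchain : IsChain (· ≤ ·) J := fun a ha b hb' _ => Φ.le_or_le (hΦ ha) (hΦ hb')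
    -- the faces of rank `p`
    obtain ⟨x, ⟨hxΦ, hxp⟩, -⟩ := graded_full hG Φ p (by omega) (by omega)
    obtain ⟨y, ⟨hyΨ, hyp⟩, -⟩ := graded_full hG Ψ p (by omega) (by omega)
    have hstep : ∀ z : Q, 0 ≤ rk z → rk z ≤ 3 → (∀ j ∈ J, rk j ≠ rk z) → ∀ A B : Flag Q,
        J ⊆ (A : Set Q) → J ⊆ (B : Set Q) → z ∈ A → z ∈ B →
          Relation.ReflTransGen (mgenb_R J) A B := by
      intro z h0 h3 hz A B hA hB hzA hzB
      have h4 := mgenb_card_lt h0 h3 hz
      exact mgenb_mono (Set.subset_insert z J) (ih (insert z J) (Set.mem_insert_of_mem _ hb)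
        (Set.mem_insert_of_mem _ ht) (by omega) A B (Set.insert_subset hzA hA)
        (Set.insert_subset hzB hB))
    by_cases hr : rk G = p + 1
    · by_cases hs : ∃ s ∈ mgenb_mis rk J, s ≠ p
      · obtain ⟨s, hs, hsp⟩ := hs
        have hs' := mgenb_mem_mis.1 hs
        have hps := hpmin s hs
        have hsG : rk G < s := by
          have := hs'.2 G hGJ
          omega
        obtain ⟨u, ⟨huΨ, hus⟩, -⟩ := graded_full hG Ψ s (by omega) (by omega)
        have hxG : x < G := mgenb_lt hG hxΦ (hΦ hGJ) (by omega)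
        have hGu : G < u := mgenb_lt hG (hΨ hGJ) huΨ (by omega)
        have hchain : IsChain (· ≤ ·) (insert x (insert u J)) := by
          apply IsChain.insert
          · apply IsChain.insert hJchain
            intro b hb' _
            exact Ψ.le_or_le huΨ (hΨ hb')
          · intro b hb' _
            rcases hb' with rfl | hb'
            · exact Or.inl (hxG.trans hGu).le
            · exact Φ.le_or_le hxΦ (hΦ hb')
        obtain ⟨Θ, hΘ⟩ := exists_flag_of_chain hchain
        have hxΘ : x ∈ Θ := hΘ (Set.mem_insert _ _)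
        have huΘ : u ∈ Θ := hΘ (Set.mem_insert_of_mem _ (Set.mem_insert _ _))
        have hJΘ : J ⊆ (Θ : Set Q) :=
          ((Set.subset_insert u J).trans (Set.subset_insert x _)).trans hΘ
        exact (hstep x (by omega) (by omega) (fun j hj => by rw [hxp]; exact hp'.2 j hj) Φ Θ hΦ hJΘ
          hxΦ hxΘ).trans (hstep u (by omega) (by omega)
            (fun j hj => by rw [hus]; exact hs'.2 j hj) Θ Ψ hJΘ hΨ huΘ huΨ)
      · push Not at hs
        by_cases hxy : x = y
        · rw [hxy] at hxΦ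
          exact hstep y (by omega) (by omega) (fun j hj => by rw [hyp]; exact hp'.2 j hj) Φ Ψ hΦ hΨ
            hxΦ hyΨ
        · refine Relation.ReflTransGen.single ⟨⟨x, y, hxΦ, hyΨ, hxy, ?_⟩, hΦ, hΨ⟩
          have key : ∀ (A B : Flag Q) (a b : Q), J ⊆ (A : Set Q) → J ⊆ (B : Set Q) → a ∈ A →
              rk a = p → rk b = p → ∀ z ∈ (A : Set Q) \ {a}, z ∈ (B : Set Q) \ {b} := by
            intro A B a b hA hB haA ha hb' z hz
            have h1 : rk z ≠ p := by
              intro h1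
              exact hz.2 (mgenb_eq hG hz.1 haA (h1.trans ha.symm))
            have h2 : z ∈ J := by
              apply mgenb_mem_of hG hb ht hA hz.1
              intro h2
              exact h1 (hs _ h2)
            refine ⟨hB h2, ?_⟩
            intro h3
            rw [Set.mem_singleton_iff] at h3
            rw [h3] at h1
            exact h1 hb'
          apply Set.Subset.antisymm
          · exact fun z hz => key Φ Ψ x y hΦ hΨ hxΦ hxp hyp z hz
          · exact fun z hz => key Ψ Φ y x hΨ hΦ hyΨ hyp hxp z hz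
    · have hFx : F < x := mgenb_lt hG (hΦ hFJ) hxΦ (by omega)
      have hxG : x < G := mgenb_lt hG hxΦ (hΦ hGJ) (by omega)
      have hFy : F < y := mgenb_lt hG (hΨ hFJ) hyΨ (by omega)
      have hyG : y < G := mgenb_lt hG hyΨ (hΨ hGJ) (by omega)
      have hpath := hS F G (hFx.trans hxG) (by omega) x y hFx hxG hFy hyG
      have hmiss : ∀ z : Q, F < z → z < G → 0 ≤ rk z ∧ rk z ≤ 3 ∧ ∀ j ∈ J, rk j ≠ rk z := by
        intro z h1 h2
        have h3 := hG.mono _ _ h1
        have h4 := hG.mono _ _ h2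
        refine ⟨by omega, by omega, fun j hj h5 => ?_⟩
        rcases hJcases j hj with h6 | h6
        · rcases h6.lt_or_eq with h7 | h7
          · have := hG.mono _ _ h7
            omega
          · rw [h7] at h5
            omega
        · rcases h6.lt_or_eq with h7 | h7
          · have := hG.mono _ _ h7
            omega
          · rw [← h7] at h5
            omega
      have hcomp : ∀ z : Q, F < z → z < G → ∀ j ∈ J, z ≤ j ∨ j ≤ z := by
        intro z h1 h2 j hj
        rcases hJcases j hj with h3 | h3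
        · exact Or.inr (h3.trans h1.le)
        · exact Or.inl (h2.le.trans h3)
      have main : ∀ z : Q, Relation.ReflTransGen
          (fun a b : Q => (a ≤ b ∨ b ≤ a) ∧ F < b ∧ b < G) x z → (F < z ∧ z < G) ∧
          ∀ Θ : Flag Q, J ⊆ (Θ : Set Q) → z ∈ Θ → Relation.ReflTransGen (mgenb_R J) Φ Θ := by
        intro z hz
        induction hz with
        | refl =>
          refine ⟨⟨hFx, hxG⟩, fun Θ hΘ hxΘ => ?_⟩
          obtain ⟨h1, h2, h3⟩ := hmiss x hFx hxG
          exact hstep x h1 h2 h3 Φ Θ hΦ hΘ hxΦ hxΘ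
        | tail hab hbc ih2 =>
          rename_i b c
          obtain ⟨⟨hFb, hbG⟩, hb2⟩ := ih2
          obtain ⟨hbc1, hFc, hcG⟩ := hbc
          refine ⟨⟨hFc, hcG⟩, fun Θ hΘ hcΘ => ?_⟩
          have hchain : IsChain (· ≤ ·) (insert b (insert c J)) := by
            apply IsChain.insert
            · apply IsChain.insert hJchain
              intro j hj _
              exact hcomp c hFc hcG j hj
            · intro j hj _
              rcases hj with rfl | hj
              · exact hbc1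
              · exact hcomp b hFb hbG j hj
          obtain ⟨Ξ, hΞ⟩ := exists_flag_of_chain hchain
          have hbΞ : b ∈ Ξ := hΞ (Set.mem_insert _ _)
          have hcΞ : c ∈ Ξ := hΞ (Set.mem_insert_of_mem _ (Set.mem_insert _ _))
          have hJΞ : J ⊆ (Ξ : Set Q) :=
            ((Set.subset_insert c J).trans (Set.subset_insert b _)).trans hΞ
          obtain ⟨h1, h2, h3⟩ := hmiss c hFc hcG
          exact (hb2 Ξ hJΞ hbΞ).trans (hstep c h1 h2 h3 Ξ Θ hJΞ hΘ hcΞ hcΘ)
      exact (main y hpath).2 Ψ hΨ hyΨ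

/-- Job MGenB. Connected sections imply strong flag-connectedness. -/
theorem secConn_conn (hG : Graded4 Q rk) (hD : Diamond Q rk) (hS : SecConn Q rk) (Φ Ψ : Flag Q) :
    Relation.ReflTransGen
      (fun A B : Flag Q => Adj A B ∧ (Φ : Set Q) ∩ Ψ ⊆ A ∧ (Φ : Set Q) ∩ Ψ ⊆ B) Φ Ψ :=
  mgenb_claim hG hS _ ((Φ : Set Q) ∩ Ψ) ⟨Φ.bot_mem, Ψ.bot_mem⟩ ⟨Φ.top_mem, Ψ.top_mem⟩
    le_rfl Φ Ψ Set.inter_subset_left Set.inter_subset_right

theorem isPolytope_of_sec (hG : Graded4 Q rk) (hD : Diamond Q rk) (hS : SecConn Q rk) :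
    IsPolytope 4 Q rk where
  mono := hG.mono
  bot := hG.bot
  top := by rw [hG.top]; norm_num
  full := fun Φ i h1 h2 => graded_full hG Φ i h1 (by push_cast at h2; exact h2)
  conn := secConn_conn hG hD hS
  diamond := hD

end Pool.Agent.H.MP_6268b4_co
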