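import Pool.Agent.H.MP_6268b4_co.CRMobB
import Pool.Agent.H.MP_6268b4_co.CRAuto
import Pool.Agent.H.MP_6268b4_co.MGenB

/-!
The cross-ratio polytopes: graded, diamond condition.
-/

namespace Pool.Agent.H.MP_6268b4_co

namespace CR

variable {F : Type*} [Field F] [DecidableEq F] {ω : F}

theorem crpolya_lt (x y : CR F ω) : x < y ↔ le x y ∧ ¬ le y x := Iff.rfl

theorem crpolya_bot_lt (x : CR F ω) : bot < x ↔ x ≠ bot := by
  rw [crpolya_lt]
  cases x <;> simp [le]

theorem crpolya_lt_top (x : CR F ω) : x < top ↔ x ≠ top := by
  rw [crpolya_lt]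
  cases x <;> simp [le]

theorem crpolya_ve (a : Option F) (s : {s : Finset (Option F) // s.card = 2}) :
    (vert a : CR F ω) < edge s ↔ a ∈ s.1 := by
  rw [crpolya_lt]
  simp [le]

theorem crpolya_vf (a : Option F) (s : {s : Finset (Option F) // s.card = 2}) :
    (vert a : CR F ω) < face s ↔ a ∉ s.1 := by
  rw [crpolya_lt]
  simp [le]

theorem crpolya_vc (a y : Option F) : (vert a : CR F ω) < facet y ↔ a ≠ y := by
  rw [crpolya_lt]
  simp [le]

theorem crpolya_ef (s s' : {s : Finset (Option F) // s.card = 2}) :
    (edge s : CR F ω) < face s' ↔ Inc ω s.1 s'.1 := by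
  rw [crpolya_lt]
  simp [le]

theorem crpolya_ec (s : {s : Finset (Option F) // s.card = 2}) (y : Option F) :
    (edge s : CR F ω) < facet y ↔ y ∉ s.1 := by
  rw [crpolya_lt]
  simp [le]

theorem crpolya_fc (s : {s : Finset (Option F) // s.card = 2}) (y : Option F) :
    (face s : CR F ω) < facet y ↔ y ∈ s.1 := by
  rw [crpolya_lt]
  simp [le]

theorem crpolya_dual_lt {x y : CR F ω} : dual x < dual y ↔ y < x := by
  rw [lt_iff_le_not_ge, lt_iff_le_not_ge, dual_le, dual_le]

omit [DecidableEq F] in
theorem crpolya_pt (s : Finset (Option F)) (hs : s.card ≤ 2) : ∃ x : Option F, x ∉ s := by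
  classical
  by_contra hne
  push Not at hne
  have h1 : ({none, some 0, some 1} : Finset (Option F)) ⊆ s := fun x _ => hne x
  have h2 := Finset.card_le_card h1
  have h3 : ({none, some 0, some 1} : Finset (Option F)).card = 3 := by
    rw [Finset.card_insert_of_notMem, Finset.card_insert_of_notMem, Finset.card_singleton]
    · simp
    · simp
  omega

/-- The edges through a point incident with a face not containing the point. -/
theorem crpolya_two (h2 : (2 : F) = 0) (h0 : ω ≠ 0) (h1 : ω ≠ 1) {a y y' : Option F}
    (hyy : y ≠ y') (hay : a ≠ y) (hay' : a ≠ y') :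
    ∃ b c : Option F, b ≠ c ∧ b ≠ a ∧ c ≠ a ∧
      ∀ d : Option F, d ≠ a → (Inc ω {a, d} {y, y'} ↔ d = b ∨ d = c) := by
  obtain ⟨g, hg, gy, gy', ga⟩ := three_trans (ω := ω) h2 hyy hay.symm hay'.symm
  have hinv : ω ≠ ω⁻¹ := by
    intro h
    have h3 : ω * ω = 1 := by
      nth_rewrite 2 [h]
      exact mul_inv_cancel₀ h0
    have h4 : (ω - 1) * (ω - 1) = 0 := by
      have : (ω - 1) * (ω - 1) = ω * ω - 1 - 2 * (ω - 1) := by ring
      rw [this, h3, h2]
      ring
    exact h1 (sub_eq_zero.1 (mul_self_eq_zero.1 h4))
  have hinv1 : ω⁻¹ ≠ 1 := fun h => h1 (inv_eq_one.1 h)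
  refine ⟨g.symm (some ω), g.symm (some ω⁻¹), ?_, ?_, ?_, ?_⟩
  · intro h
    exact hinv (Option.some.inj (g.symm.injective h))
  · intro h
    rw [Equiv.symm_apply_eq, ga] at h
    exact h1 (Option.some.inj h)
  · intro h
    rw [Equiv.symm_apply_eq, ga] at h
    exact hinv1 (Option.some.inj h)
  · intro d hd
    have e1 : Cross ω a d y y' ↔ g d = some ω := by
      rw [← cross_dual, ← hg, gy, gy', ga]
      cases hgd : g d with
      | none =>
        constructor
        · rintro ⟨-, -, -, h, -⟩
          exact absurd rfl h
        · intro h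
          exact absurd h (by simp)
      | some z =>
        rw [cross_norm, mul_one, Option.some_inj]
        constructor
        · rintro ⟨-, -, -, h⟩
          exact h
        · rintro rfl
          exact ⟨h1.symm, one_ne_zero, h0, rfl⟩
    have e2 : Cross ω a d y' y ↔ g d = some ω⁻¹ := by
      rw [cross_swap, ← cross_dual, ← hg, gy, gy', ga]
      cases hgd : g d with
      | none =>
        constructor
        · rintro ⟨-, -, h, -⟩
          exact absurd rfl h
        · intro h
          exact absurd h (by simp)
      | some z =>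
        rw [cross_norm, Option.some_inj]
        constructor
        · rintro ⟨-, -, -, h⟩
          exact eq_inv_of_mul_eq_one_right h.symm
        · rintro rfl
          exact ⟨hinv1, inv_ne_zero h0, one_ne_zero, (mul_inv_cancel₀ h0).symm⟩
    rw [inc_iff hd.symm hyy, e1, e2, Equiv.eq_symm_apply, Equiv.eq_symm_apply]

theorem crpolya_vface (h2 : (2 : F) = 0) (h0 : ω ≠ 0) (h1 : ω ≠ 1) (a : Option F)
    (s : {s : Finset (Option F) // s.card = 2}) (ha : a ∉ s.1) :
    ∃ x y : CR F ω, x ≠ y ∧ {H : CR F ω | vert a < H ∧ H < face s} = {x, y} := by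
  obtain ⟨y, y', hyy, hs⟩ := Finset.card_eq_two.1 s.2
  have ha' := ha
  rw [hs, Finset.mem_insert, Finset.mem_singleton, not_or] at ha'
  obtain ⟨b, c, hbc, hba, hca, hd⟩ := crpolya_two h2 h0 h1 hyy ha'.1 ha'.2
  refine ⟨edge ⟨{a, b}, Finset.card_pair hba.symm⟩, edge ⟨{a, c}, Finset.card_pair hca.symm⟩,
    ?_, ?_⟩
  · intro h
    injection h with h
    have h3 := congrArg Subtype.val h
    have h4 : b ∈ ({a, c} : Finset (Option F)) := by
      rw [← (show ({a, b} : Finset (Option F)) = {a, c} from h3)]
      simp
    rw [Finset.mem_insert, Finset.mem_singleton] at h4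
    rcases h4 with h4 | h4
    · exact hba h4
    · exact hbc h4
  · ext H
    rw [Set.mem_setOf_eq, Set.mem_insert_iff, Set.mem_singleton_iff]
    constructor
    · rintro ⟨h3, h4⟩
      cases H with
      | bot => rw [crpolya_lt] at h3; simp [le] at h3
      | vert b' =>
        rw [crpolya_lt] at h3
        simp only [le] at h3
        exact absurd h3.1.symm h3.2
      | edge t =>
        rw [crpolya_ve] at h3
        rw [crpolya_ef, hs] at h4
        obtain ⟨u, v, huv, ht⟩ := Finset.card_eq_two.1 t.2
        have key : ∃ d, d ≠ a ∧ t.1 = {a, d} := by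
          rw [ht, Finset.mem_insert, Finset.mem_singleton] at h3
          rcases h3 with rfl | rfl
          · exact ⟨v, huv.symm, ht⟩
          · exact ⟨u, huv, by rw [ht, Finset.pair_comm]⟩
        obtain ⟨d, hda, htd⟩ := key
        rw [htd, hd d hda] at h4
        rcases h4 with rfl | rfl
        · left
          congr 1
          exact Subtype.ext htd
        · right
          congr 1
          exact Subtype.ext htd
      | face t =>
        rw [crpolya_lt] at h4
        simp only [le] at h4
        exact absurd h4.1.symm h4.2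
      | facet t => rw [crpolya_lt] at h4; simp [le] at h4
      | top => rw [crpolya_lt] at h4; simp [le] at h4
    · rintro (rfl | rfl)
      · rw [crpolya_ve, crpolya_ef, hs]
        exact ⟨by simp, (hd b hba).2 (Or.inl rfl)⟩
      · rw [crpolya_ve, crpolya_ef, hs]
        exact ⟨by simp, (hd c hca).2 (Or.inr rfl)⟩

theorem crpolya_mono (x y : CR F ω) (h : x < y) : rk x < rk y := by
  rw [crpolya_lt] at h
  obtain ⟨h3, h4⟩ := h
  cases x <;> cases y <;> simp_all [le, rk]

/-- Proof. `mono`: if `x < y` then `le x y` and not `le y x`; by cases on `x`, `y` the rank of `x` is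
smaller. `dense`: cases on `x < y` with `rk x + 1 < rk y`. Between `bot` and anything of rank at least
1 there is a vertex: below `edge s` a point of `s`; below `face s` a point not in `s` (there are at
least 3 points `none, some 0, some 1`, `s` has only two); below `facet y` a point `≠ y`; below `top`
any. By duality (`dual_le`, `rk_dual`) there is a facet between anything of rank at most 2 and `top`.
Between `vert a` and `facet y` (`a ≠ y`) there is `edge {a, b}`, `b ≠ a, y` (there are at least three
points). Between `vert a` and `face {y, y'}` (`a ≠ y, y'`) there is `edge {a, b}`: by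
`three_trans` there is `g` with `g y = none`, `g y' = some 0`, `g a = some 1`; take
`b = g⁻¹ (some ω)`: `cross_norm` gives `Cross ω none (some 0) (some 1) (some ω)` (`ω ≠ 0, 1`), so
`Cross ω y y' a b`, hence `Cross ω a b y y'` (`cross_dual`). Between `edge s` and `facet y`: the
dual statement. -/
theorem graded (h2 : (2 : F) = 0) (h0 : ω ≠ 0) (h1 : ω ≠ 1) : Graded4 (CR F ω) rk := by
  refine ⟨crpolya_mono, rfl, rfl, ?_⟩
  intro x y h h'
  have hv : ∀ a : Option F, ∃ b : Option F, b ≠ a := by
    intro a
    obtain ⟨b, hb⟩ := crpolya_pt ({a} : Finset (Option F)) (by simp)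
    exact ⟨b, by simpa using hb⟩
  cases x with
  | bot =>
    cases y with
    | bot => exact absurd h (lt_irrefl _)
    | vert b => simp [rk] at h'
    | edge s =>
      obtain ⟨a, b, hab, hs⟩ := Finset.card_eq_two.1 s.2
      exact ⟨vert a, (crpolya_bot_lt _).2 (by simp), (crpolya_ve _ _).2 (by rw [hs]; simp)⟩
    | face s =>
      obtain ⟨a, ha⟩ := crpolya_pt s.1 s.2.le
      exact ⟨vert a, (crpolya_bot_lt _).2 (by simp), (crpolya_vf _ _).2 ha⟩
    | facet y =>
      obtain ⟨a, ha⟩ := hv y
      exact ⟨vert a, (crpolya_bot_lt _).2 (by simp), (crpolya_vc _ _).2 ha⟩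
    | top => exact ⟨vert none, (crpolya_bot_lt _).2 (by simp), (crpolya_lt_top _).2 (by simp)⟩
  | vert a =>
    cases y with
    | bot => simp [rk] at h'
    | vert b => simp [rk] at h'
    | edge s => simp [rk] at h'
    | face s =>
      obtain ⟨u, v, -, huv⟩ := crpolya_vface h2 h0 h1 a s ((crpolya_vf _ _).1 h)
      have : u ∈ {H : CR F ω | vert a < H ∧ H < face s} := by rw [huv]; simp
      exact ⟨u, this⟩
    | facet y =>
      obtain ⟨b, hb⟩ := crpolya_pt ({a, y} : Finset (Option F)) Finset.card_le_two
      rw [Finset.mem_insert, Finset.mem_singleton, not_or] at hb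
      refine ⟨edge ⟨{a, b}, Finset.card_pair (Ne.symm hb.1)⟩, (crpolya_ve _ _).2 (by simp),
        (crpolya_ec _ _).2 ?_⟩
      rw [Finset.mem_insert, Finset.mem_singleton, not_or]
      exact ⟨((crpolya_vc _ _).1 h).symm, Ne.symm hb.2⟩
    | top =>
      obtain ⟨b, hb⟩ := hv a
      exact ⟨facet b, (crpolya_vc _ _).2 hb.symm, (crpolya_lt_top _).2 (by simp)⟩
  | edge s =>
    cases y with
    | bot => simp [rk] at h'
    | vert b => simp [rk] at h'
    | edge s => simp [rk] at h'
    | face s => simp [rk] at h'
    | facet y =>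
      obtain ⟨u, v, -, huv⟩ := crpolya_vface h2 h0 h1 y s ((crpolya_ec _ _).1 h)
      have h3 : u ∈ {H : CR F ω | vert y < H ∧ H < face s} := by rw [huv]; simp
      refine ⟨dual u, ?_, ?_⟩
      · have := (crpolya_dual_lt (x := face s) (y := u)).2 h3.2
        exact this
      · have := (crpolya_dual_lt (x := u) (y := vert y)).2 h3.1
        exact this
    | top =>
      obtain ⟨a, ha⟩ := crpolya_pt s.1 s.2.le
      exact ⟨facet a, (crpolya_ec _ _).2 ha, (crpolya_lt_top _).2 (by simp)⟩
  | face s =>
    cases y with
    | bot => simp [rk] at h'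
    | vert b => simp [rk] at h'
    | edge s => simp [rk] at h'
    | face s => simp [rk] at h'
    | facet y => simp [rk] at h'
    | top =>
      obtain ⟨a, b, hab, hs⟩ := Finset.card_eq_two.1 s.2
      exact ⟨facet a, (crpolya_fc _ _).2 (by rw [hs]; simp), (crpolya_lt_top _).2 (by simp)⟩
  | facet a => cases y <;> simp [rk] at h'
  | top => cases y <;> simp [rk] at h'

/-- Proof. Cases on `x < y` with `rk y - rk x = 2`. `(bot, edge {a, b})`: the two vertices
`vert a`, `vert b`. `(face {y, y'}, top)`: `facet y`, `facet y'` (or duality). `(vert a, face {y, y'})`: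
the elements strictly between are the edges `{a, b}` with `Inc ω {a, b} {y, y'}` (an edge `s` with
`a ∈ s`); let `g` be as in `graded`: `g y = none`, `g y' = some 0`, `g a = some 1`; by `inc_iff`,
`cross_dual` and `Pres`, `Inc ω {a, b} {y, y'}` iff `Cross ω none (some 0) (some 1) (g b)` or
`Cross ω none (some 0) (g b) (some 1)` iff `g b = some ω` or `g b = some ω⁻¹` (`cross_norm`). As
`ω ^ 2 ≠ 1`, `ω ≠ ω⁻¹`; so there are exactly two such edges. `(edge s, facet y)`: by duality
(`dual` maps the interval bijectively onto the dual interval). -/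
theorem diamond (h2 : (2 : F) = 0) (h0 : ω ≠ 0) (h1 : ω ≠ 1) : Diamond (CR F ω) rk := by
  intro x y h h'
  cases x with
  | bot =>
    cases y with
    | bot => simp [rk] at h'
    | vert b => simp [rk] at h'
    | edge s =>
      obtain ⟨a, b, hab, hs⟩ := Finset.card_eq_two.1 s.2
      rw [Set.ncard_eq_two]
      refine ⟨vert a, vert b, by simpa using hab, ?_⟩
      ext H
      rw [Set.mem_setOf_eq, Set.mem_insert_iff, Set.mem_singleton_iff]
      constructor
      · rintro ⟨h3, h4⟩
        cases H with
        | bot => exact absurd h3 (lt_irrefl _)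
        | vert c =>
          rw [crpolya_ve, hs, Finset.mem_insert, Finset.mem_singleton] at h4
          rcases h4 with rfl | rfl
          · exact Or.inl rfl
          · exact Or.inr rfl
        | edge t =>
          rw [crpolya_lt] at h4
          simp only [le] at h4
          exact absurd h4.1.symm h4.2
        | face t => rw [crpolya_lt] at h4; simp [le] at h4
        | facet t => rw [crpolya_lt] at h4; simp [le] at h4
        | top => rw [crpolya_lt] at h4; simp [le] at h4
      · rintro (rfl | rfl)
        · exact ⟨(crpolya_bot_lt _).2 (by simp), (crpolya_ve _ _).2 (by rw [hs]; simp)⟩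
        · exact ⟨(crpolya_bot_lt _).2 (by simp), (crpolya_ve _ _).2 (by rw [hs]; simp)⟩
    | face s => norm_num [rk] at h'
    | facet y => norm_num [rk] at h'
    | top => norm_num [rk] at h'
  | vert a =>
    cases y with
    | bot => simp [rk] at h'
    | vert b => simp [rk] at h'
    | edge s => simp [rk] at h'
    | face s =>
      obtain ⟨u, v, huv, huv'⟩ := crpolya_vface h2 h0 h1 a s ((crpolya_vf _ _).1 h)
      rw [Set.ncard_eq_two]
      exact ⟨u, v, huv, huv'⟩
    | facet y => norm_num [rk] at h'
    | top => norm_num [rk] at h'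
  | edge s =>
    cases y with
    | bot => norm_num [rk] at h'
    | vert b => norm_num [rk] at h'
    | edge s => norm_num [rk] at h'
    | face s => norm_num [rk] at h'
    | facet y =>
      obtain ⟨u, v, huv, huv'⟩ := crpolya_vface h2 h0 h1 y s ((crpolya_ec _ _).1 h)
      have hinj : Function.Injective (dual : CR F ω → CR F ω) := by
        intro p q hpq
        rw [← dual_dual p, hpq, dual_dual]
      have himg : {H : CR F ω | edge s < H ∧ H < facet y} =
          dual '' {H : CR F ω | vert y < H ∧ H < face s} := by
        ext H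
        constructor
        · rintro ⟨h3, h4⟩
          refine ⟨dual H, ⟨?_, ?_⟩, dual_dual H⟩
          · have := (crpolya_dual_lt (x := facet y) (y := H)).2 h4
            exact this
          · have := (crpolya_dual_lt (x := H) (y := edge s)).2 h3
            exact this
        · rintro ⟨G, ⟨h3, h4⟩, rfl⟩
          refine ⟨?_, ?_⟩
          · have := (crpolya_dual_lt (x := face s) (y := G)).2 h4
            exact this
          · have := (crpolya_dual_lt (x := G) (y := vert y)).2 h3
            exact this
      rw [himg, Set.ncard_image_of_injective _ hinj, Set.ncard_eq_two]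
      exact ⟨u, v, huv, huv'⟩
    | top => norm_num [rk] at h'
  | face s =>
    cases y with
    | bot => norm_num [rk] at h'
    | vert b => norm_num [rk] at h'
    | edge s => norm_num [rk] at h'
    | face s => norm_num [rk] at h'
    | facet y => norm_num [rk] at h'
    | top =>
      obtain ⟨a, b, hab, hs⟩ := Finset.card_eq_two.1 s.2
      rw [Set.ncard_eq_two]
      refine ⟨facet a, facet b, by simpa using hab, ?_⟩
      ext H
      rw [Set.mem_setOf_eq, Set.mem_insert_iff, Set.mem_singleton_iff]
      constructor
      · rintro ⟨h3, h4⟩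
        cases H with
        | bot => rw [crpolya_lt] at h3; simp [le] at h3
        | vert c => rw [crpolya_lt] at h3; simp [le] at h3
        | edge t => rw [crpolya_lt] at h3; simp [le] at h3
        | face t =>
          rw [crpolya_lt] at h3
          simp only [le] at h3
          exact absurd h3.1.symm h3.2
        | facet t =>
          rw [crpolya_fc, hs, Finset.mem_insert, Finset.mem_singleton] at h3
          rcases h3 with rfl | rfl
          · exact Or.inl rfl
          · exact Or.inr rfl
        | top => exact absurd h4 (lt_irrefl _)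
      · rintro (rfl | rfl)
        · exact ⟨(crpolya_fc _ _).2 (by rw [hs]; simp), (crpolya_lt_top _).2 (by simp)⟩
        · exact ⟨(crpolya_fc _ _).2 (by rw [hs]; simp), (crpolya_lt_top _).2 (by simp)⟩
  | facet a => cases y <;> norm_num [rk] at h'
  | top => cases y <;> norm_num [rk] at h'

end CR

end Pool.Agent.H.MP_6268b4_co
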