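import Pool.Agent.H.MP_6268b4_co.CRPolyA

/-!
The cross-ratio polytopes: connected sections.
-/

namespace Pool.Agent.H.MP_6268b4_co

namespace CR

variable {F : Type*} [Field F] [DecidableEq F] {ω : F}

/-- the relation in `SecConn` -/
def crpolyb_R (A B : CR F ω) (a b : CR F ω) : Prop := (a ≤ b ∨ b ≤ a) ∧ A < b ∧ b < B

/-- connected sections -/
def crpolyb_C (A B : CR F ω) : Prop :=
  ∀ x y : CR F ω, A < x → x < B → A < y → y < B → Relation.ReflTransGen (crpolyb_R A B) x y

lemma crpolyb_lt {x y : CR F ω} : x < y ↔ le x y ∧ x ≠ y := lt_iff_le_and_ne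

lemma crpolyb_symm {A B x y : CR F ω} (hx : A < x ∧ x < B)
    (h : Relation.ReflTransGen (crpolyb_R A B) x y) :
    Relation.ReflTransGen (crpolyb_R A B) y x ∧ (A < y ∧ y < B) := by
  induction h with
  | refl => exact ⟨Relation.ReflTransGen.refl, hx⟩
  | tail _ hbc ih => exact ⟨Relation.ReflTransGen.head ⟨hbc.1.symm, ih.2⟩ ih.1, hbc.2⟩

/-- it is enough to connect everything with one face -/
lemma crpolyb_conn {A B z : CR F ω}
    (hz : ∀ x, A < x → x < B → Relation.ReflTransGen (crpolyb_R A B) x z) : crpolyb_C A B := by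
  intro x y hx hx' hy hy'
  exact (hz x hx hx').trans (crpolyb_symm ⟨hy, hy'⟩ (hz y hy hy')).1

lemma crpolyb_auto (γ : CR F ω ≃o CR F ω) {A B : CR F ω} (h : crpolyb_C (γ A) (γ B)) :
    crpolyb_C A B := by
  intro x y hx hx' hy hy'
  have h1 := h (γ x) (γ y) (γ.lt_iff_lt.2 hx) (γ.lt_iff_lt.2 hx') (γ.lt_iff_lt.2 hy)
    (γ.lt_iff_lt.2 hy')
  have hmono : ∀ a b : CR F ω, crpolyb_R (γ A) (γ B) a b →
      crpolyb_R A B (γ.symm a) (γ.symm b) := by
    intro a b hab
    obtain ⟨h3, h4, h5⟩ := hab
    refine ⟨?_, ?_, ?_⟩
    · rcases h3 with h3 | h3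
      · exact Or.inl (γ.symm.le_iff_le.2 h3)
      · exact Or.inr (γ.symm.le_iff_le.2 h3)
    · rw [← γ.lt_iff_lt, γ.apply_symm_apply]; exact h4
    · rw [← γ.lt_iff_lt, γ.apply_symm_apply]; exact h5
  have key : ∀ b : CR F ω, Relation.ReflTransGen (crpolyb_R (γ A) (γ B)) (γ x) b →
      Relation.ReflTransGen (crpolyb_R A B) x (γ.symm b) := by
    intro b hb
    induction hb with
    | refl => rw [γ.symm_apply_apply]
    | tail _ hbc ih => exact ih.tail (hmono _ _ hbc)
  have h2 := key _ h1
  rwa [γ.symm_apply_apply] at h2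

lemma crpolyb_dual_lt {x y : CR F ω} : dual x < dual y ↔ y < x := by
  rw [lt_iff_le_not_ge, lt_iff_le_not_ge, dual_le, dual_le]

lemma crpolyb_dual {A B : CR F ω} (h : crpolyb_C (dual B) (dual A)) : crpolyb_C A B := by
  intro x y hx hx' hy hy'
  have h1 := h (dual x) (dual y) (crpolyb_dual_lt.2 hx') (crpolyb_dual_lt.2 hx)
    (crpolyb_dual_lt.2 hy') (crpolyb_dual_lt.2 hy)
  have hmono : ∀ a b : CR F ω, crpolyb_R (dual B) (dual A) a b →
      crpolyb_R A B (dual a) (dual b) := by
    intro a b hab
    obtain ⟨h3, h4, h5⟩ := hab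
    refine ⟨?_, ?_, ?_⟩
    · rcases h3 with h3 | h3
      · exact Or.inr (dual_le.2 h3)
      · exact Or.inl (dual_le.2 h3)
    · rw [← crpolyb_dual_lt, dual_dual]; exact h5
    · rw [← crpolyb_dual_lt, dual_dual]; exact h4
  have key : ∀ b : CR F ω, Relation.ReflTransGen (crpolyb_R (dual B) (dual A)) (dual x) b →
      Relation.ReflTransGen (crpolyb_R A B) x (dual b) := by
    intro b hb
    induction hb with
    | refl => rw [dual_dual]
    | tail _ hbc ih => exact ih.tail (hmono _ _ hbc)
  have h2 := key _ h1
  rwa [dual_dual] at h2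

/-- a pair of different points -/
def crpolyb_pair (a b : Option F) (h : a ≠ b) : {s : Finset (Option F) // s.card = 2} :=
  ⟨{a, b}, Finset.card_pair h⟩

/-- a point outside of a set with at most two elements -/
lemma crpolyb_out (s : Finset (Option F)) (hs : s.card ≤ 2) : ∃ a, a ∉ s := by
  by_contra hno
  push Not at hno
  have h3 : ({none, some 0, some 1} : Finset (Option F)).card = 3 := by
    rw [Finset.card_insert_of_notMem, Finset.card_pair]
    · simp
    · simp
  have h4 : ({none, some 0, some 1} : Finset (Option F)) ⊆ s := fun x _ => hno x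
  have := Finset.card_le_card h4
  omega

lemma crpolyb_out2 (a b : Option F) : ∃ c, a ≠ c ∧ b ≠ c := by
  obtain ⟨c, hc⟩ := crpolyb_out {a, b} (Finset.card_le_two)
  simp only [Finset.mem_insert, Finset.mem_singleton, not_or] at hc
  exact ⟨c, Ne.symm hc.1, Ne.symm hc.2⟩

lemma crpolyb_mapPair (g : Equiv.Perm (Option F)) (s : {s : Finset (Option F) // s.card = 2})
    {a b : Option F} (hs : s.1 = {a, b}) : (mapPair g s).1 = {g a, g b} := by
  unfold mapPair
  simp only [hs, Finset.map_insert, Finset.map_singleton, Equiv.coe_toEmbedding]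

/-- The section `face s / bot`: Proof. `s = {y, y'}`; by `three_trans` (third point arbitrary) and
`exists_auto` we may assume `s = {none, some 0}` (an automorphism maps the interval onto the
interval). The elements strictly between `bot` and `face {none, some 0}` are the vertices
`some a`, `a ≠ 0`, and the edges `{a, b}` with `Inc`; by `inc_iff`, `cross_dual`, `cross_norm` these are
the edges `{some a, some (ω a)}`, `a ≠ 0`. Each edge is comparable with its vertices, so it suffices
to connect vertices; `some a` and `some (ω * a)` are connected through the edge; every nonzero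
element is `ω ^ i` (`hω`), so all are connected with `some 1`. -/
theorem sec_face (h2 : (2 : F) = 0) (h0 : ω ≠ 0) (h1 : ω ≠ 1)
    (hω : ∀ z : F, z ≠ 0 → ∃ i : ℕ, z = ω ^ i) (s : {s : Finset (Option F) // s.card = 2})
    (x y : CR F ω) (hx1 : bot < x) (hx2 : x < face s) (hy1 : bot < y) (hy2 : y < face s) :
    Relation.ReflTransGen
      (fun a b : CR F ω => (a ≤ b ∨ b ≤ a) ∧ bot < b ∧ b < face s) x y := by
  suffices hC : crpolyb_C (bot : CR F ω) (face s) from hC x y hx1 hx2 hy1 hy2
  clear hx1 hx2 hy1 hy2 x y
  obtain ⟨u, v, huv, hs⟩ := Finset.card_eq_two.1 s.2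
  obtain ⟨c, hc1, hc2⟩ := crpolyb_out2 u v
  obtain ⟨g, hg, hgu, hgv, -⟩ := three_trans (ω := ω) h2 huv hc1 hc2
  obtain ⟨γ, hγ⟩ := exists_auto hg
  apply crpolyb_auto γ
  rw [hγ, hγ]
  change crpolyb_C bot (face (mapPair g s))
  have hm := crpolyb_mapPair g s hs
  rw [hgu, hgv] at hm
  set t := mapPair g s with ht
  clear_value t
  clear ht
  -- vertices
  have hvert : ∀ z : F, z ≠ 0 → (bot : CR F ω) < vert (some z) ∧
      (vert (some z) : CR F ω) < face t := by
    intro z hz
    refine ⟨crpolyb_lt.2 ⟨trivial, by simp⟩, crpolyb_lt.2 ⟨?_, by simp⟩⟩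
    change some z ∉ t.1
    rw [hm]
    simp [hz]
  have hedge : ∀ w : F, ∀ hw : w ≠ 0, ∀ hne : (some w : Option F) ≠ some (ω * w),
      (bot : CR F ω) < edge (crpolyb_pair _ _ hne) ∧
      (edge (crpolyb_pair _ _ hne) : CR F ω) < face t := by
    intro w hw hne
    refine ⟨crpolyb_lt.2 ⟨trivial, by simp⟩, crpolyb_lt.2 ⟨?_, by simp⟩⟩
    change Inc ω {some w, some (ω * w)} t.1
    rw [hm, inc_iff hne (by simp)]
    left
    rw [cross_dual, cross_norm]
    exact ⟨fun h => hne (by rw [← h]), hw, mul_ne_zero h0 hw, rfl⟩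
  have hpow : ∀ i : ℕ, Relation.ReflTransGen (crpolyb_R (bot : CR F ω) (face t))
      (vert (some (ω ^ i))) (vert (some 1)) := by
    intro i
    induction i with
    | zero => rw [pow_zero]
    | succ i ih =>
      have hw : ω ^ i ≠ 0 := pow_ne_zero i h0
      have hne : (some (ω ^ i) : Option F) ≠ some (ω * ω ^ i) := by
        intro h
        apply h1
        have h' : ω ^ i = ω * ω ^ i := Option.some_injective _ h
        have : (ω - 1) * ω ^ i = 0 := by linear_combination -h'
        rcases mul_eq_zero.1 this with h3 | h3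
        · linear_combination h3
        · exact absurd h3 hw
      rw [pow_succ']
      refine Relation.ReflTransGen.head (b := edge (crpolyb_pair _ _ hne)) ⟨Or.inl ?_,
        hedge _ hw hne⟩ (Relation.ReflTransGen.head (b := vert (some (ω ^ i))) ⟨Or.inr ?_,
        hvert _ hw⟩ ih)
      · change some (ω * ω ^ i) ∈ ({some (ω ^ i), some (ω * ω ^ i)} : Finset (Option F))
        simp
      · change some (ω ^ i) ∈ ({some (ω ^ i), some (ω * ω ^ i)} : Finset (Option F))
        simp
  have hv1 : ∀ a : Option F, a ∉ t.1 → Relation.ReflTransGen (crpolyb_R (bot : CR F ω) (face t))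
      (vert a) (vert (some 1)) := by
    intro a ha
    rw [hm] at ha
    cases a with
    | none => exact absurd (by simp) ha
    | some z =>
      have hz : z ≠ 0 := by
        rintro rfl
        exact ha (by simp)
      obtain ⟨i, hi⟩ := hω z hz
      rw [hi]
      exact hpow i
  refine crpolyb_conn (z := vert (some 1)) ?_
  intro x hx hx'
  cases x with
  | bot => exact absurd hx (lt_irrefl _)
  | vert a => exact hv1 a (crpolyb_lt.1 hx').1
  | edge r =>
    have hi : Inc ω r.1 t.1 := (crpolyb_lt.1 hx').1
    have hne : r.1.Nonempty := by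
      rw [← Finset.card_pos, r.2]
      norm_num
    obtain ⟨a, ha⟩ := hne
    have hat : a ∉ t.1 := fun h => inc_disj hi ha h
    refine Relation.ReflTransGen.head (b := vert a) ⟨Or.inr ha, crpolyb_lt.2 ⟨trivial, by simp⟩,
      crpolyb_lt.2 ⟨hat, by simp⟩⟩ (hv1 a hat)
  | face r =>
    have h3 := crpolyb_lt.1 hx'
    have h4 : r = t := h3.1
    exact absurd (by rw [h4]) h3.2
  | facet a => exact absurd (crpolyb_lt.1 hx').1 (by simp [le])
  | top => exact absurd (crpolyb_lt.1 hx').1 (by simp [le])

/-- The section `facet y / vert a`: Proof. By `three_trans` and `exists_auto` we may assume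
`a = none`, `y = some 0`. The elements strictly between are the edges `{none, some b}`, `b ≠ 0`, and
the faces `{some 0, some y'}`, `y' ≠ 0`; incidence by `inc_norm2`. Every face is above some edge
(`b = y' / (1 + ω)`), so it suffices to connect the edges. The edges `b` and `ω b` are both below the
face with `y' = (1 + ω) b`: `ω y' = (1 + ω) (ω b)`. Every nonzero element is a power of `ω`. -/
theorem sec_mid (h2 : (2 : F) = 0) (h0 : ω ≠ 0) (h1 : ω ≠ 1)
    (hω : ∀ z : F, z ≠ 0 → ∃ i : ℕ, z = ω ^ i) (c d : Option F) (hcd : c ≠ d)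
    (x y : CR F ω) (hx1 : vert c < x) (hx2 : x < facet d) (hy1 : vert c < y)
    (hy2 : y < facet d) :
    Relation.ReflTransGen
      (fun a b : CR F ω => (a ≤ b ∨ b ≤ a) ∧ vert c < b ∧ b < facet d) x y := by
  suffices hC : crpolyb_C (vert c : CR F ω) (facet d) from hC x y hx1 hx2 hy1 hy2
  clear hx1 hx2 hy1 hy2 x y
  obtain ⟨e, he1, he2⟩ := crpolyb_out2 c d
  obtain ⟨g, hg, hgu, hgv, -⟩ := three_trans (ω := ω) h2 hcd he1 he2
  obtain ⟨γ, hγ⟩ := exists_auto hg
  apply crpolyb_auto γ
  rw [hγ, hγ]
  change crpolyb_C (vert (g c)) (facet (g d))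
  rw [hgu, hgv]
  have hω1 : 1 + ω ≠ 0 := by
    intro h
    apply h1
    linear_combination h - h2
  have hedge : ∀ b : F, b ≠ 0 → (vert none : CR F ω) < edge (crpolyb_pair none (some b) (by simp)) ∧
      (edge (crpolyb_pair none (some b) (by simp)) : CR F ω) < facet (some 0) := by
    intro b hb
    refine ⟨crpolyb_lt.2 ⟨?_, by simp⟩, crpolyb_lt.2 ⟨?_, by simp⟩⟩
    · change none ∈ ({none, some b} : Finset (Option F))
      simp
    · change some 0 ∉ ({none, some b} : Finset (Option F))
      simp [Ne.symm hb]
  have hface : ∀ b : F, ∀ hb : (some 0 : Option F) ≠ some b,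
      (vert none : CR F ω) < face (crpolyb_pair (some 0) (some b) hb) ∧
      (face (crpolyb_pair (some 0) (some b) hb) : CR F ω) < facet (some 0) := by
    intro b hb
    refine ⟨crpolyb_lt.2 ⟨?_, by simp⟩, crpolyb_lt.2 ⟨?_, by simp⟩⟩
    · change none ∉ ({some 0, some b} : Finset (Option F))
      simp
    · change some 0 ∈ ({some 0, some b} : Finset (Option F))
      simp
  have hpow : ∀ i : ℕ, Relation.ReflTransGen (crpolyb_R (vert none : CR F ω) (facet (some 0)))
      (edge (crpolyb_pair none (some (ω ^ i)) (by simp)))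
      (edge (crpolyb_pair none (some 1) (by simp))) := by
    intro i
    induction i with
    | zero => simp only [pow_zero]; exact Relation.ReflTransGen.refl
    | succ i ih =>
      have hw : ω ^ i ≠ 0 := pow_ne_zero i h0
      have hw' : ω ^ (i + 1) ≠ 0 := pow_ne_zero _ h0
      have hy : (1 + ω) * ω ^ i ≠ 0 := mul_ne_zero hω1 hw
      have hne : (some 0 : Option F) ≠ some ((1 + ω) * ω ^ i) := by
        intro h
        exact hy (Option.some_injective _ h).symm
      refine Relation.ReflTransGen.head (b := face (crpolyb_pair _ _ hne)) ⟨Or.inl ?_,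
        hface _ hne⟩ (Relation.ReflTransGen.head
        (b := edge (crpolyb_pair none (some (ω ^ i)) (by simp))) ⟨Or.inr ?_, hedge _ hw⟩ ih)
      · change Inc ω {none, some (ω ^ (i + 1))} {some 0, some ((1 + ω) * ω ^ i)}
        rw [inc_norm2 h2 h0 h1 hw' hy]
        right
        ring
      · change Inc ω {none, some (ω ^ i)} {some 0, some ((1 + ω) * ω ^ i)}
        rw [inc_norm2 h2 h0 h1 hw hy]
        left
        rfl
  have hall : ∀ b : F, b ≠ 0 → Relation.ReflTransGen
      (crpolyb_R (vert none : CR F ω) (facet (some 0)))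
      (edge (crpolyb_pair none (some b) (by simp)))
      (edge (crpolyb_pair none (some 1) (by simp))) := by
    intro b hb
    obtain ⟨i, rfl⟩ := hω b hb
    exact hpow i
  refine crpolyb_conn (z := edge (crpolyb_pair none (some 1) (by simp))) ?_
  intro x hx hx'
  cases x with
  | bot => exact absurd (crpolyb_lt.1 hx).1 (by simp [le])
  | vert a =>
    have h3 := crpolyb_lt.1 hx
    have h4 : none = a := h3.1
    exact absurd (by rw [h4]) h3.2
  | edge r =>
    have h3 : none ∈ r.1 := (crpolyb_lt.1 hx).1
    have h4 : some 0 ∉ r.1 := (crpolyb_lt.1 hx').1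
    obtain ⟨a, b, hab, hr⟩ := Finset.card_eq_two.1 r.2
    obtain ⟨e, he, hre⟩ : ∃ e : Option F, none ≠ e ∧ r.1 = {none, e} := by
      rw [hr] at h3
      simp only [Finset.mem_insert, Finset.mem_singleton] at h3
      rcases h3 with rfl | rfl
      · exact ⟨b, hab, hr⟩
      · exact ⟨a, hab.symm, by rw [hr, Finset.pair_comm]⟩
    cases e with
    | none => exact absurd rfl he
    | some b =>
      have hb : b ≠ 0 := by
        rintro rfl
        apply h4
        rw [hre]
        simp
      have h5 : r = crpolyb_pair none (some b) (by simp) := Subtype.ext hre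
      rw [h5]
      exact hall b hb
  | face r =>
    have h3 : none ∉ r.1 := (crpolyb_lt.1 hx).1
    have h4 : some 0 ∈ r.1 := (crpolyb_lt.1 hx').1
    obtain ⟨a, b, hab, hr⟩ := Finset.card_eq_two.1 r.2
    obtain ⟨e, he, hre⟩ : ∃ e : Option F, some 0 ≠ e ∧ r.1 = {some 0, e} := by
      rw [hr] at h4
      simp only [Finset.mem_insert, Finset.mem_singleton] at h4
      rcases h4 with rfl | rfl
      · exact ⟨b, hab, hr⟩
      · exact ⟨a, hab.symm, by rw [hr, Finset.pair_comm]⟩
    cases e with
    | none =>
      exfalso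
      apply h3
      rw [hre]
      simp
    | some y' =>
      have hy : y' ≠ 0 := fun h => he (by rw [h])
      have hb : y' / (1 + ω) ≠ 0 := div_ne_zero hy hω1
      refine Relation.ReflTransGen.head
        (b := edge (crpolyb_pair none (some (y' / (1 + ω))) (by simp))) ⟨Or.inr ?_, hedge _ hb⟩
        (hall _ hb)
      change Inc ω {none, some (y' / (1 + ω))} r.1
      rw [hre, inc_norm2 h2 h0 h1 hb hy]
      left
      field_simp
  | facet a =>
    have h3 := crpolyb_lt.1 hx'
    have h4 : a = some 0 := h3.1
    exact absurd (by rw [h4]) h3.2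
  | top => exact absurd (crpolyb_lt.1 hx').1 (by simp [le])

/-- every face different from the least one is above a vertex -/
lemma crpolyb_below (x : CR F ω) (hx : bot < x) : ∃ a, (vert a : CR F ω) ≤ x := by
  cases x with
  | bot => exact absurd hx (lt_irrefl _)
  | vert a => exact ⟨a, le_refl _⟩
  | edge r =>
    have hne : r.1.Nonempty := by
      rw [← Finset.card_pos, r.2]
      norm_num
    obtain ⟨a, ha⟩ := hne
    exact ⟨a, ha⟩
  | face r =>
    obtain ⟨a, ha⟩ := crpolyb_out r.1 r.2.le
    exact ⟨a, ha⟩
  | facet y =>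
    obtain ⟨a, ha⟩ := crpolyb_out {y} (by simp)
    refine ⟨a, ?_⟩
    change a ≠ y
    simpa using ha
  | top => exact ⟨none, trivial⟩

/-- the sections below a facet or the greatest face -/
lemma crpolyb_bot {G : CR F ω} (hG : (vert none : CR F ω) < G ∨ (vert (some 0) : CR F ω) < G)
    (hE : ∀ a b : Option F, ∀ hab : a ≠ b, (vert a : CR F ω) < G → (vert b : CR F ω) < G →
      (edge (crpolyb_pair a b hab) : CR F ω) < G) : crpolyb_C bot G := by
  have hb : ∀ a : Option F, (bot : CR F ω) < vert a := fun a =>
    crpolyb_lt.2 ⟨trivial, by simp⟩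
  have hb' : ∀ r, (bot : CR F ω) < edge r := fun a =>
    crpolyb_lt.2 ⟨trivial, by simp⟩
  have key : ∀ c : Option F, (vert c : CR F ω) < G → crpolyb_C bot G := by
    intro c hc
    have hcon : ∀ a : Option F, (vert a : CR F ω) < G →
        Relation.ReflTransGen (crpolyb_R (bot : CR F ω) G) (vert a) (vert c) := by
      intro a ha
      by_cases hac : a = c
      · rw [hac]
      · refine Relation.ReflTransGen.head (b := edge (crpolyb_pair a c hac)) ⟨Or.inl ?_,
          hb' _, hE a c hac ha hc⟩ (Relation.ReflTransGen.single ⟨Or.inr ?_, hb _, hc⟩)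
        · change a ∈ ({a, c} : Finset (Option F))
          simp
        · change c ∈ ({a, c} : Finset (Option F))
          simp
    refine crpolyb_conn (z := vert c) ?_
    intro x hx hx'
    obtain ⟨a, ha⟩ := crpolyb_below x hx
    have haG : (vert a : CR F ω) < G := lt_of_le_of_lt ha hx'
    exact Relation.ReflTransGen.head ⟨Or.inr ha, hb a, haG⟩ (hcon a haG)
  rcases hG with h | h
  · exact key _ h
  · exact key _ h

lemma crpolyb_bot_facet (y : Option F) : crpolyb_C (bot : CR F ω) (facet y) := by
  apply crpolyb_bot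
  · by_cases hy : y = none
    · right
      refine crpolyb_lt.2 ⟨?_, by simp⟩
      change some 0 ≠ y
      rw [hy]; simp
    · left
      refine crpolyb_lt.2 ⟨?_, by simp⟩
      change none ≠ y
      exact Ne.symm hy
  · intro a b hab ha hb
    refine crpolyb_lt.2 ⟨?_, by simp⟩
    change y ∉ ({a, b} : Finset (Option F))
    have ha' : a ≠ y := (crpolyb_lt.1 ha).1
    have hb' : b ≠ y := (crpolyb_lt.1 hb).1
    simp [ha'.symm, hb'.symm]

lemma crpolyb_bot_top : crpolyb_C (bot : CR F ω) top := by
  apply crpolyb_bot
  · left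
    exact crpolyb_lt.2 ⟨trivial, by simp⟩
  · intro a b hab ha hb
    exact crpolyb_lt.2 ⟨trivial, by simp⟩

/-- Proof. Let `F₀ < G₀` with `rk G₀ ≥ rk F₀ + 3`.
`F₀ = bot`: if `G₀ = face s`: `sec_face`. If `G₀ = facet y` or `top`: every element strictly between
is above a vertex `vert a` (with `a ≠ y` in the first case; `graded`), and two different vertices
`vert a`, `vert b` are below `edge {a, b}` which is strictly below `G₀`.
`F₀ = vert c`: if `G₀ = facet d`: `sec_mid`. `G₀ = top`: by duality (`dual_le`, `dual_dual`,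
`rk_dual`) this is the case `(bot, facet c)`. `F₀ = edge s`, `G₀ = top`: by duality the case
`(bot, face s)`. -/
theorem secConn (h2 : (2 : F) = 0) (h0 : ω ≠ 0) (h1 : ω ≠ 1)
    (hω : ∀ z : F, z ≠ 0 → ∃ i : ℕ, z = ω ^ i) : SecConn (CR F ω) rk := by
  intro A B hAB hrk x y hx hx' hy hy'
  suffices hC : crpolyb_C A B from hC x y hx hx' hy hy'
  clear hx hx' hy hy' x y
  cases A with
  | bot =>
    cases B with
    | bot => simp [rk] at hrk
    | vert a => simp [rk] at hrk
    | edge s => simp [rk] at hrk
    | face s => exact fun x y hx hx' hy hy' => sec_face h2 h0 h1 hω s x y hx hx' hy hy'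
    | facet y => exact crpolyb_bot_facet y
    | top => exact crpolyb_bot_top
  | vert c =>
    cases B with
    | bot => simp [rk] at hrk
    | vert a => simp [rk] at hrk
    | edge s => simp [rk] at hrk
    | face s => simp [rk] at hrk
    | facet d =>
      exact fun x y hx hx' hy hy' => sec_mid h2 h0 h1 hω c d (crpolyb_lt.1 hAB).1 x y hx hx' hy hy'
    | top => exact crpolyb_dual (crpolyb_bot_facet c)
  | edge s =>
    cases B with
    | bot => simp [rk] at hrk
    | vert a => simp [rk] at hrk
    | edge s => simp [rk] at hrk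
    | face s => simp [rk] at hrk
    | facet d => simp [rk] at hrk
    | top =>
      exact crpolyb_dual (fun x y hx hx' hy hy' => sec_face h2 h0 h1 hω s x y hx hx' hy hy')
  | face s => cases B <;> simp [rk] at hrk
  | facet s => cases B <;> simp [rk] at hrk
  | top => cases B <;> simp [rk] at hrk

theorem isPolytope (h2 : (2 : F) = 0) (h0 : ω ≠ 0) (h1 : ω ≠ 1)
    (hω : ∀ z : F, z ≠ 0 → ∃ i : ℕ, z = ω ^ i) : IsPolytope 4 (CR F ω) rk :=
  isPolytope_of_sec (graded h2 h0 h1) (diamond h2 h0 h1) (secConn h2 h0 h1 hω)

theorem simple : SimpleComplete (rk : CR F ω → ℤ) := by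
  intro x y hx hy hxy
  cases x with
  | vert a =>
    cases y with
    | vert b =>
      have hab : a ≠ b := fun h => hxy (by rw [h])
      refine ⟨edge (crpolyb_pair a b hab), ⟨rfl, ?_, ?_⟩, ?_⟩
      · change a ∈ ({a, b} : Finset (Option F))
        simp
      · change b ∈ ({a, b} : Finset (Option F))
        simp
      · rintro e ⟨he, he1, he2⟩
        cases e with
        | edge r =>
          have h1 : a ∈ r.1 := he1
          have h2 : b ∈ r.1 := he2
          have h3 : ({a, b} : Finset (Option F)) = r.1 := by
            apply Finset.eq_of_subset_of_card_le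
            · intro z hz
              simp only [Finset.mem_insert, Finset.mem_singleton] at hz
              rcases hz with rfl | rfl
              · exact h1
              · exact h2
            · rw [r.2, Finset.card_pair hab]
          have h4 : r = crpolyb_pair a b hab := Subtype.ext h3.symm
          rw [h4]
        | bot => simp [rk] at he
        | vert j => simp [rk] at he
        | face j => simp [rk] at he
        | facet j => simp [rk] at he
        | top => simp [rk] at he
    | bot => simp [rk] at hy
    | edge j => simp [rk] at hy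
    | face j => simp [rk] at hy
    | facet j => simp [rk] at hy
    | top => simp [rk] at hy
  | bot => simp [rk] at hx
  | edge j => simp [rk] at hx
  | face j => simp [rk] at hx
  | facet j => simp [rk] at hx
  | top => simp [rk] at hx

/-- Proof: the facets above `edge s` are the `facet y` with `y ∉ s`, so there are
`Fintype.card F + 1 - 2` of them, which is odd since `Fintype.card F` is even (characteristic 2:
`FiniteField.card` or the involution `x ↦ x + 1` without fixed points). -/
theorem oddType [Fintype F] (h2 : (2 : F) = 0) : OddType (rk : CR F ω → ℤ) := by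
  intro e he
  cases e with
  | edge s =>
    have hset : {G : CR F ω | (edge s : CR F ω) ≤ G ∧ rk G = 3} =
        facet '' ((Finset.univ \ s.1 : Finset (Option F)) : Set (Option F)) := by
      ext G
      simp only [Set.mem_setOf_eq, Set.mem_image, Finset.coe_sdiff, Finset.coe_univ,
        Set.mem_diff, Set.mem_univ, true_and, Finset.mem_coe]
      constructor
      · rintro ⟨h1, h3⟩
        cases G with
        | facet y => exact ⟨y, h1, rfl⟩
        | bot => simp [rk] at h3
        | vert j => simp [rk] at h3
        | edge j => simp [rk] at h3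
        | face j => simp [rk] at h3
        | top => simp [rk] at h3
      · rintro ⟨y, hy, rfl⟩
        exact ⟨hy, rfl⟩
    rw [hset, Set.ncard_image_of_injective _ (by intro a b hab; simpa using hab),
      Set.ncard_coe_finset, Finset.card_sdiff_of_subset (Finset.subset_univ _), s.2,
      Finset.card_univ, Fintype.card_option]
    have hev : Even (Fintype.card F) := by
      by_contra hodd
      rw [Nat.not_even_iff_odd] at hodd
      obtain ⟨k, hk⟩ := hodd
      have h3 : ((Fintype.card F : ℕ) : F) = 0 := Nat.cast_card_eq_zero F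
      rw [hk] at h3
      push_cast at h3
      rw [h2, zero_mul, zero_add] at h3
      exact one_ne_zero h3
    obtain ⟨k, hk⟩ := hev
    have hpos : 0 < Fintype.card F := Fintype.card_pos
    refine ⟨k - 1, ?_⟩
    omega
  | bot => simp [rk] at he
  | vert j => simp [rk] at he
  | face j => simp [rk] at he
  | facet j => simp [rk] at he
  | top => simp [rk] at he

/-- Finiteness. Proof: an injection into `Fin 6 × Option F × Finset (Option F)`. -/
theorem finite [Finite F] : Finite (CR F ω) := by
  let f : CR F ω → Fin 6 × Option F × Finset (Option F) := fun x =>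
    match x with
    | bot => (0, none, ∅)
    | vert a => (1, a, ∅)
    | edge s => (2, none, s.1)
    | face s => (3, none, s.1)
    | facet a => (4, a, ∅)
    | top => (5, none, ∅)
  refine Finite.of_injective f ?_
  intro x y hxy
  cases x <;> cases y <;> simp [f] at hxy ⊢
  all_goals first
    | exact hxy
    | exact Subtype.ext hxy

end CR

end Pool.Agent.H.MP_6268b4_co
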