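import Mathlib

/-!
Basic definitions about abstract polytopes (for MP_6268b4_co).
-/

namespace Pool.Agent.H.MP_6268b4_co

/-- Two flags are adjacent if they differ in exactly one face. -/
def Adj {P : Type*} [PartialOrder P] (A B : Flag P) : Prop :=
  ∃ x y : P, x ∈ A ∧ y ∈ B ∧ x ≠ y ∧ (A : Set P) \ {x} = (B : Set P) \ {y}

/-- The bounded poset `P` with rank function `rk` is an abstract `n`-polytope: the rank function is
strictly increasing, it is `-1` at the least face and `n` at the greatest face, every flag has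
exactly one face of each rank `-1, ..., n`, any two flags are joined by a sequence of successively
adjacent flags all of which contain the common faces of the two flags (strong flag-connectedness),
and the diamond condition holds. -/
structure IsPolytope (n : ℕ) (P : Type*) [PartialOrder P] [BoundedOrder P] (rk : P → ℤ) :
    Prop where
  mono : ∀ x y : P, x < y → rk x < rk y
  bot : rk ⊥ = -1
  top : rk ⊤ = n
  full : ∀ (Φ : Flag P) (i : ℤ), -1 ≤ i → i ≤ n → ∃! x : P, x ∈ Φ ∧ rk x = i
  conn : ∀ Φ Ψ : Flag P, Relation.ReflTransGen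
    (fun A B : Flag P => Adj A B ∧ (Φ : Set P) ∩ Ψ ⊆ A ∧ (Φ : Set P) ∩ Ψ ⊆ B) Φ Ψ
  diamond : ∀ F G : P, F < G → rk G - rk F = 2 → {H : P | F < H ∧ H < G}.ncard = 2

/-- No section of rank `2` is a digon: for `F < G` with `rk G - rk F = 3` the number of vertices of
the section `G / F` is not `2`. -/
def NoDigon (P : Type*) [PartialOrder P] (rk : P → ℤ) : Prop :=
  ∀ F G : P, F < G → rk G - rk F = 3 → {H : P | F < H ∧ H < G ∧ rk H = rk F + 1}.ncard ≠ 2

/-- The number of orbits of the automorphism group on the flags. -/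
noncomputable def flagOrbits (P : Type*) [PartialOrder P] : ℕ :=
  Nat.card (MulAction.orbitRel.Quotient (P ≃o P) (Flag P))

section basic

variable {n : ℕ} {P : Type*} [PartialOrder P] [BoundedOrder P] {rk : P → ℤ}

lemma IsPolytope.mono_le (h : IsPolytope n P rk) {x y : P} (hxy : x ≤ y) : rk x ≤ rk y := by
  rcases hxy.lt_or_eq with h1 | h1
  · exact (h.mono _ _ h1).le
  · rw [h1]

lemma IsPolytope.eq_of_le (h : IsPolytope n P rk) {x y : P} (hxy : x ≤ y) (hr : rk x = rk y) :
    x = y := by
  rcases hxy.lt_or_eq with h1 | h1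
  · exact absurd hr (h.mono _ _ h1).ne
  · exact h1

lemma IsPolytope.rk_ge (h : IsPolytope n P rk) (x : P) : -1 ≤ rk x := by
  have := h.mono_le (bot_le : ⊥ ≤ x)
  rwa [h.bot] at this

lemma IsPolytope.rk_le (h : IsPolytope n P rk) (x : P) : rk x ≤ n := by
  have := h.mono_le (le_top : x ≤ ⊤)
  rwa [h.top] at this

lemma IsPolytope.eq_bot (h : IsPolytope n P rk) {x : P} (hx : rk x = -1) : x = ⊥ :=
  (h.eq_of_le bot_le (by rw [h.bot, hx])).symm

lemma IsPolytope.eq_top (h : IsPolytope n P rk) {x : P} (hx : rk x = n) : x = ⊤ :=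
  h.eq_of_le le_top (by rw [h.top, hx])

lemma IsPolytope.eq_of_mem (h : IsPolytope n P rk) {Φ : Flag P} {x y : P} (hx : x ∈ Φ)
    (hy : y ∈ Φ) (hr : rk x = rk y) : x = y := by
  rcases Φ.le_or_le hx hy with h1 | h1
  · exact h.eq_of_le h1 hr
  · exact (h.eq_of_le h1 hr.symm).symm

end basic

end Pool.Agent.H.MP_6268b4_co
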