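import Pool.Agent.H.MP_6268b4_co.TWord

/-!
The 11-cell: 11 vertices, all 55 pairs of vertices as edges, 55 triangles, 11 facets
(hemi-icosahedra).
-/

namespace Pool.Agent.H.MP_6268b4_co

/-- The vertex sets of the facets of the 11-cell: the translates modulo 11 of
`{0, 2, 6, 7, 8, 10}`, the complement of the set `{1, 3, 4, 5, 9}` of the nonzero squares. -/
def blk (i : Fin 11) : Finset (Fin 11) := {i, i + 2, i + 6, i + 7, i + 8, i + 10}

/-- The vertex sets of the faces of the 11-cell: the sets with at most two elements, the
intersections of two different blocks, the blocks, and the set of all vertices. -/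
def IsFace11 (S : Finset (Fin 11)) : Prop :=
  S.card ≤ 2 ∨ (∃ i j, i ≠ j ∧ S = blk i ∩ blk j) ∨ (∃ i, S = blk i) ∨ S = Finset.univ

instance : DecidablePred IsFace11 := fun S => by
  unfold IsFace11
  infer_instance

/-- The 11-cell, its faces ordered by inclusion of their vertex sets. -/
abbrev ElevenCell : Type := {S : Finset (Fin 11) // IsFace11 S}

namespace ElevenCell

instance : BoundedOrder ElevenCell where
  top := ⟨Finset.univ, Or.inr (Or.inr (Or.inr rfl))⟩
  le_top x := Finset.subset_univ x.1
  bot := ⟨∅, Or.inl (by simp)⟩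
  bot_le x := Finset.empty_subset x.1

/-- The rank of a face: faces of rank `-1, 0, 1, 2, 3, 4` have `0, 1, 2, 3, 6, 11` vertices. -/
def rk (x : ElevenCell) : ℤ :=
  if x.1.card ≤ 3 then (x.1.card : ℤ) - 1 else if x.1.card ≤ 6 then 3 else 4

end ElevenCell

end Pool.Agent.H.MP_6268b4_co
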