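import Pool.Agent.H.MP_6268b4_co.E11Defs
import Pool.Agent.H.MP_6268b4_co.MGenB

/-!
The 11-cell is a polytope.
-/

namespace Pool.Agent.H.MP_6268b4_co

namespace ElevenCell

private theorem e11poly_1 : ∀ i, (blk i).card = 6 := by decide +kernel

private theorem e11poly_2 : ∀ i j, i ≠ j → (blk i ∩ blk j).card = 3 := by decide +kernel

private theorem e11poly_3 : ∀ i j k, i ≠ j → blk i ∩ blk j ⊆ blk k → (k = i ∨ k = j) := by
  decide +kernel

private theorem e11poly_4 : ∀ x y : Fin 11, x ≠ y →
    ((Finset.univ : Finset (Fin 11)).filter fun i => x ∈ blk i ∧ y ∈ blk i).card = 3 := by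
  decide +kernel

private theorem e11poly_5 : ∀ i j, blk i = blk j → i = j := by decide +kernel

/-- Facts about the blocks, all by `decide` (plain `decide` or `decide +kernel`, both are fine for
the axioms; `native_decide` is not allowed; a representation of subsets of `Fin 11` by bit masks in
`ℕ`, or `fin_cases` on some variables may be useful for speed). -/
theorem blk_facts :
    (∀ i, (blk i).card = 6) ∧ (∀ i j, i ≠ j → (blk i ∩ blk j).card = 3) ∧
    (∀ i j k l, i ≠ j → k ≠ l → blk i ∩ blk j ⊆ blk k → (k = i ∨ k = j)) ∧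
    (∀ x y : Fin 11, x ≠ y → ((Finset.univ : Finset (Fin 11)).filter
      fun i => x ∈ blk i ∧ y ∈ blk i).card = 3) ∧
    (∀ i j, blk i = blk j → i = j) :=
  ⟨e11poly_1, e11poly_2, fun i j k _ h _ hs => e11poly_3 i j k h hs, e11poly_4, e11poly_5⟩

/-- Every pair and every face of rank 2: characterization of the faces of each rank. Proof: from
`blk_facts` and `IsFace11`. -/
theorem rk_cases (x : ElevenCell) :
    (rk x = -1 ∧ x.1 = ∅) ∨ (rk x = 0 ∧ ∃ a, x.1 = {a}) ∨ (rk x = 1 ∧ ∃ a b, a ≠ b ∧ x.1 = {a, b}) ∨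
    (rk x = 2 ∧ ∃ i j, i ≠ j ∧ x.1 = blk i ∩ blk j) ∨ (rk x = 3 ∧ ∃ i, x.1 = blk i) ∨
    (rk x = 4 ∧ x.1 = Finset.univ) := by
  rcases x.2 with h | ⟨i, j, hij, h⟩ | ⟨i, h⟩ | h
  · have h3 : x.1.card = 0 ∨ x.1.card = 1 ∨ x.1.card = 2 := by omega
    rcases h3 with h3 | h3 | h3
    · left
      exact ⟨by simp [rk, h3], Finset.card_eq_zero.1 h3⟩
    · right; left
      exact ⟨by simp [rk, h3], Finset.card_eq_one.1 h3⟩
    · right; right; left
      exact ⟨by simp [rk, h3], Finset.card_eq_two.1 h3⟩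
  · right; right; right; left
    have h3 : x.1.card = 3 := by rw [h]; exact e11poly_2 i j hij
    exact ⟨by simp [rk, h3], i, j, hij, h⟩
  · right; right; right; right; left
    have h3 : x.1.card = 6 := by rw [h]; exact e11poly_1 i
    exact ⟨by simp [rk, h3], i, h⟩
  · right; right; right; right; right
    have h3 : x.1.card = 11 := by rw [h]; rfl
    exact ⟨by simp [rk, h3], h⟩

private theorem e11poly_card (x : ElevenCell) :
    (rk x = -1 ∧ x.1.card = 0) ∨ (rk x = 0 ∧ x.1.card = 1) ∨ (rk x = 1 ∧ x.1.card = 2) ∨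
    (rk x = 2 ∧ x.1.card = 3) ∨ (rk x = 3 ∧ x.1.card = 6) ∨ (rk x = 4 ∧ x.1.card = 11) := by
  rcases rk_cases x with ⟨h, hx⟩ | ⟨h, a, hx⟩ | ⟨h, a, b, hab, hx⟩ | ⟨h, i, j, hij, hx⟩ |
    ⟨h, i, hx⟩ | ⟨h, hx⟩
  · exact Or.inl ⟨h, by rw [hx]; rfl⟩
  · exact Or.inr (Or.inl ⟨h, by rw [hx]; exact Finset.card_singleton a⟩)
  · exact Or.inr (Or.inr (Or.inl ⟨h, by rw [hx]; exact Finset.card_pair hab⟩))
  · exact Or.inr (Or.inr (Or.inr (Or.inl ⟨h, by rw [hx]; exact e11poly_2 i j hij⟩)))
  · exact Or.inr (Or.inr (Or.inr (Or.inr (Or.inl ⟨h, by rw [hx]; exact e11poly_1 i⟩))))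
  · exact Or.inr (Or.inr (Or.inr (Or.inr (Or.inr ⟨h, by rw [hx]; rfl⟩))))

private theorem e11poly_lt {x y : ElevenCell} (h : x.1 ⊆ y.1) (hc : x.1.card < y.1.card) :
    x < y := by
  have h1 : x.1 ⊂ y.1 := by
    refine ⟨h, fun h2 => ?_⟩
    have := Finset.card_le_card h2
    omega
  exact h1

private theorem e11poly_sub {x y : ElevenCell} (h : x < y) : x.1 ⊆ y.1 ∧ x.1.card < y.1.card := by
  have h1 : x.1 ⊂ y.1 := h
  exact ⟨h1.1, Finset.card_lt_card h1⟩

private theorem e11poly_block {a b : Fin 11} (hab : a ≠ b) (i : Fin 11) :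
    ∃ j, j ≠ i ∧ a ∈ blk j ∧ b ∈ blk j := by
  have h1 := e11poly_4 a b hab
  by_contra hcon
  push Not at hcon
  have h2 : ((Finset.univ : Finset (Fin 11)).filter fun k => a ∈ blk k ∧ b ∈ blk k) ⊆ {i} := by
    intro k hk
    rw [Finset.mem_filter] at hk
    rw [Finset.mem_singleton]
    by_contra hki
    exact hcon k hki hk.2.1 hk.2.2
  have h3 := Finset.card_le_card h2
  rw [h1, Finset.card_singleton] at h3
  omega

/-- Proof. `mono`: `x < y` gives `x.1.card < y.1.card` (`Finset.card_lt_card`) and the cardinalities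
are among `0, 1, 2, 3, 6, 11` with ranks `-1, .., 4`. `dense`: use `rk_cases`: if `x` has rank
`≤ 0`, `x < y`, `rk x + 1 < rk y`: add one element of `y \ x` to `x`. If `x = {a, b}` and `y` has rank 3,
`y = blk i`: by `blk_facts` there is `j ≠ i` with `a, b ∈ blk j`, take `blk i ∩ blk j`. If `x = {a, b}`
and `y = ⊤`: take a block containing `a, b`. If `x = blk i ∩ blk j` and `y = ⊤`: take `blk i`. -/
theorem graded : Graded4 ElevenCell rk where
  mono := by
    intro x y hxy
    have h1 := (e11poly_sub hxy).2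
    rcases e11poly_card x with h2 | h2 | h2 | h2 | h2 | h2 <;>
    rcases e11poly_card y with h3 | h3 | h3 | h3 | h3 | h3 <;> omega
  bot := by
    rcases e11poly_card ⊥ with h2 | h2 | h2 | h2 | h2 | h2
    · exact h2.1
    all_goals
      have h3 : ((⊥ : ElevenCell).1).card = 0 := rfl
      omega
  top := by
    have h3 : ((⊤ : ElevenCell).1).card = 11 := rfl
    rcases e11poly_card ⊤ with h2 | h2 | h2 | h2 | h2 | h2 <;> omega
  dense := by
    intro x y hxy hr
    obtain ⟨hsub, hc⟩ := e11poly_sub hxy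
    have hy := e11poly_card y
    rcases rk_cases x with ⟨h, hx⟩ | ⟨h, a, hx⟩ | ⟨h, a, b, hab, hx⟩ | ⟨h, i, j, hij, hx⟩ |
      ⟨h, i, hx⟩ | ⟨h, hx⟩
    · have hyc : 2 ≤ y.1.card := by omega
      obtain ⟨a, ha⟩ : y.1.Nonempty := Finset.card_pos.1 (by omega)
      refine ⟨⟨{a}, Or.inl (by simp)⟩, e11poly_lt ?_ ?_, e11poly_lt ?_ ?_⟩
      · rw [hx]
        exact Finset.empty_subset _
      · rw [hx]
        simp
      · simpa using ha
      · simp only [Finset.card_singleton]
        omega
    · have hyc : 3 ≤ y.1.card := by omega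
      have haY : a ∈ y.1 := hsub (by rw [hx]; exact Finset.mem_singleton_self a)
      obtain ⟨b, hb, hba⟩ : ∃ b ∈ y.1, b ≠ a := Finset.exists_mem_ne (by omega) a
      refine ⟨⟨{a, b}, Or.inl (by rw [Finset.card_pair hba.symm])⟩, e11poly_lt ?_ ?_,
        e11poly_lt ?_ ?_⟩
      · rw [hx]
        simp
      · rw [hx, Finset.card_singleton, Finset.card_pair hba.symm]
        norm_num
      · intro c hc'
        rw [Finset.mem_insert, Finset.mem_singleton] at hc'
        rcases hc' with rfl | rfl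
        · exact haY
        · exact hb
      · simp only [Finset.card_pair hba.symm]
        omega
    · have haY : a ∈ y.1 := hsub (by rw [hx]; simp)
      have hbY : b ∈ y.1 := hsub (by rw [hx]; simp)
      rcases rk_cases y with ⟨h', hy'⟩ | ⟨h', a', hy'⟩ | ⟨h', a', b', hab', hy'⟩ |
        ⟨h', i, j, hij, hy'⟩ | ⟨h', i, hy'⟩ | ⟨h', hy'⟩
      · omega
      · omega
      · omega
      · omega
      · obtain ⟨j, hji, haj, hbj⟩ := e11poly_block hab i
        refine ⟨⟨blk i ∩ blk j, Or.inr (Or.inl ⟨i, j, hji.symm, rfl⟩)⟩, e11poly_lt ?_ ?_,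
          e11poly_lt ?_ ?_⟩
        · rw [hx]
          rw [hy'] at haY hbY
          intro c hc'
          rw [Finset.mem_insert, Finset.mem_singleton] at hc'
          rw [Finset.mem_inter]
          rcases hc' with rfl | rfl
          · exact ⟨haY, haj⟩
          · exact ⟨hbY, hbj⟩
        · rw [hx, Finset.card_pair hab]
          simp only [e11poly_2 i j hji.symm]
          norm_num
        · rw [hy']
          exact Finset.inter_subset_left
        · rw [hy', e11poly_1]
          simp only [e11poly_2 i j hji.symm]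
          norm_num
      · obtain ⟨j, -, haj, hbj⟩ := e11poly_block hab 0
        refine ⟨⟨blk j, Or.inr (Or.inr (Or.inl ⟨j, rfl⟩))⟩, e11poly_lt ?_ ?_, e11poly_lt ?_ ?_⟩
        · rw [hx]
          intro c hc'
          rw [Finset.mem_insert, Finset.mem_singleton] at hc'
          rcases hc' with rfl | rfl
          · exact haj
          · exact hbj
        · rw [hx, Finset.card_pair hab]
          simp only [e11poly_1 j]
          norm_num
        · rw [hy']
          exact Finset.subset_univ _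
        · rw [hy']
          simp only [e11poly_1 j, Finset.card_univ, Fintype.card_fin]
          norm_num
    · refine ⟨⟨blk i, Or.inr (Or.inr (Or.inl ⟨i, rfl⟩))⟩, e11poly_lt ?_ ?_, e11poly_lt ?_ ?_⟩
      · rw [hx]
        exact Finset.inter_subset_left
      · rw [hx, e11poly_2 i j hij]
        simp only [e11poly_1 i]
        norm_num
      · have hyu : y.1 = Finset.univ := by
          rcases rk_cases y with ⟨h', hy'⟩ | ⟨h', a', hy'⟩ | ⟨h', a', b', hab', hy'⟩ |
            ⟨h', i, j, hij, hy'⟩ | ⟨h', i, hy'⟩ | ⟨h', hy'⟩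
          · omega
          · omega
          · omega
          · omega
          · omega
          · exact hy'
        rw [hyu]
        exact Finset.subset_univ _
      · simp only [e11poly_1 i]
        omega
    · omega
    · omega

end ElevenCell

end Pool.Agent.H.MP_6268b4_co
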