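import Pool.Agent.H.MP_6268b4_co.GDefs
import Pool.Agent.H.MP_6268b4_co.RDih

/-!
Regular case: explicit permutations.
-/

namespace Pool.Agent.H.MP_6268b4_co

/-- explicit permutations of the vertices of the 11-cell -/
def T11 : Fin 11 → Fin 11 := ![1, 0, 5, 3, 4, 2, 10, 7, 9, 8, 6]
def C11 : Fin 11 → Fin 11 := ![0, 3, 5, 1, 10, 2, 6, 9, 8, 7, 4]
def A11 : Fin 11 → Fin 11 := ![0, 1, 8, 4, 3, 9, 10, 7, 2, 5, 6]
def B11 : Fin 11 → Fin 11 := ![0, 1, 5, 3, 7, 2, 8, 4, 6, 10, 9]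

/-- explicit permutations of the vertices of the 4-simplex -/
def T5 : Fin 5 → Fin 5 := ![1, 0, 2, 3, 4]
def C5 : Fin 5 → Fin 5 := ![0, 2, 1, 3, 4]
def A5 : Fin 5 → Fin 5 := ![0, 1, 3, 2, 4]
def B5 : Fin 5 → Fin 5 := ![0, 1, 2, 4, 3]

end Pool.Agent.H.MP_6268b4_co
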