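import Pool.Agent.H.MP_6268b4_co.TWord

/-!
Regular polytopes of rank 4: orbits and stabilizers in terms of tuples.
-/

namespace Pool.Agent.H.MP_6268b4_co

variable {P : Type*} [PartialOrder P] [BoundedOrder P] {rk : P → ℤ}

/-- The action on flags and on tuples. Proof: `Flag.ext`-style; the carrier of `γ • A` is the image
of the carrier of `A` under `γ`; or use `toTup_eq`: the faces `γ (Φ.1 i)` lie in `γ • ofTup h Φ`, so
`toTup h (γ • ofTup h Φ) = tmap h h γ Φ`, and apply `ofTup_toTup`. -/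
theorem smul_ofTup (h : IsPolytope 4 P rk) (γ : P ≃o P) (Φ : Tup P rk) :
    γ • ofTup h Φ = ofTup h (tmap h h γ Φ) := by
  have h1 : toTup h (γ • ofTup h Φ) = tmap h h γ Φ := by
    apply Tup.ext
    intro i
    refine toTup_eq h ?_ ((tmap h h γ Φ).hrk i)
    rw [← SetLike.mem_coe, Flag.coe_smul]
    exact ⟨Φ.1 i, mem_ofTup h Φ i, rfl⟩
  rw [← h1, ofTup_toTup]

/-- In a regular polytope all tuples are related. Proof: `smul_ofTup`, `toTup_ofTup`. -/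
theorem regular_tup (h : IsPolytope 4 P rk) (hR : IsRegular P) (Φ Ψ : Tup P rk) :
    ∃ γ : P ≃o P, tmap h h γ Φ = Ψ := by
  obtain ⟨γ, hγ⟩ := hR (ofTup h Φ) (ofTup h Ψ)
  refine ⟨γ, ?_⟩
  rw [smul_ofTup] at hγ
  have := congrArg (toTup h) hγ
  rwa [toTup_ofTup, toTup_ofTup] at this

/-- Criterion for regularity. Proof: choose `ρ i` with `tmap (ρ i) Φ = adj i Φ`; by `exists_word`
and `adjw_reg` every tuple is of the form `tmap γ Φ`; then `ofTup_toTup` and `smul_ofTup`. -/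
theorem regular_of_base (h : IsPolytope 4 P rk) (Φ : Tup P rk)
    (hΦ : ∀ i, ∃ γ : P ≃o P, tmap h h γ Φ = adj h i Φ) : IsRegular P := by
  choose ρ hρ using hΦ
  have key : ∀ A : Flag P, ∃ γ : P ≃o P, γ • ofTup h Φ = A := by
    intro A
    obtain ⟨w, -, hw⟩ := exists_word h Φ (toTup h A)
    refine ⟨(w.map ρ).prod, ?_⟩
    rw [smul_ofTup, ← adjw_reg h hρ, hw, ofTup_toTup]
  intro A B
  obtain ⟨γ, hγ⟩ := key A
  obtain ⟨δ, hδ⟩ := key B
  refine ⟨δ * γ⁻¹, ?_⟩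
  rw [← hγ, ← hδ, mul_smul, inv_smul_smul]

/-- Stabilizers are generated by the obvious generators. Proof: `Ψ = tmap γ Φ` satisfies
`Ψ.1 i = Φ.1 i` for `i` with `J i`. By `exists_word` there is a word `w` with letters `i` satisfying
`Φ.1 i ≠ Ψ.1 i`, in particular `¬ J i`, with `adjw h w Φ = Ψ`. By `adjw_reg`
`tmap (w.map ρ).prod Φ = tmap γ Φ`, so `γ = (w.map ρ).prod` (`eq_of_tmap`), which is in the
closure (`Subgroup.list_prod_mem` or induction). -/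
theorem reg_stab (h : IsPolytope 4 P rk) {Φ : Tup P rk} {ρ : Fin 4 → (P ≃o P)}
    (hρ : ∀ i, tmap h h (ρ i) Φ = adj h i Φ) (J : Fin 4 → Prop) {γ : P ≃o P}
    (hγ : ∀ i, J i → γ (Φ.1 i) = Φ.1 i) :
    γ ∈ Subgroup.closure {x | ∃ i, ¬ J i ∧ x = ρ i} := by
  obtain ⟨w, hw, hw2⟩ := exists_word h Φ (tmap h h γ Φ)
  rw [adjw_reg h hρ] at hw2
  have h1 : (w.map ρ).prod = γ := eq_of_tmap h hw2
  rw [← h1]
  apply Subgroup.list_prod_mem
  intro x hx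
  obtain ⟨i, hi, rfl⟩ := List.mem_map.1 hx
  apply Subgroup.subset_closure
  refine ⟨i, fun hJ => hw i hi ?_, rfl⟩
  rw [tmap_apply, hγ i hJ]

/-- The generators are involutions. Proof: `eq_of_tmap` and
`tmap (ρ i * ρ i) Φ = tmap (ρ i) (adj i Φ) = adj i (tmap (ρ i) Φ) = adj i (adj i Φ) = Φ`. -/
theorem reg_sq (h : IsPolytope 4 P rk) {Φ : Tup P rk} {ρ : Fin 4 → (P ≃o P)}
    (hρ : ∀ i, tmap h h (ρ i) Φ = adj h i Φ) (i : Fin 4) : ρ i * ρ i = 1 := by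
  apply eq_one_of_tmap h (Φ := Φ)
  rw [tmap_mul, hρ, tmap_adj, hρ, adj_adj]

/-- The generators are not the identity. Proof: `adj_ne`. -/
theorem reg_ne_one (h : IsPolytope 4 P rk) {Φ : Tup P rk} {ρ : Fin 4 → (P ≃o P)}
    (hρ : ∀ i, tmap h h (ρ i) Φ = adj h i Φ) (i : Fin 4) : ρ i ≠ 1 := by
  intro h1
  have h2 := hρ i
  rw [h1, tmap_one] at h2
  apply adj_ne h i Φ
  rw [← h2]

/-- Commutation. Proof: `eq_of_tmap`, `tmap_adj` and `adj_comm`. -/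
theorem reg_comm (h : IsPolytope 4 P rk) {Φ : Tup P rk} {ρ : Fin 4 → (P ≃o P)}
    (hρ : ∀ i, tmap h h (ρ i) Φ = adj h i Φ) {i j : Fin 4} (hij : (i : ℕ) + 2 ≤ j) :
    ρ i * ρ j = ρ j * ρ i := by
  apply eq_of_tmap h (Φ := Φ)
  rw [tmap_mul, tmap_mul, hρ, hρ, tmap_adj, tmap_adj, hρ, hρ, adj_comm h hij]

/-- `ρ i` fixes the face `Φ.1 j` for `j ≠ i`. Proof: `tmap_apply` and `adj_same`. -/
theorem reg_fix (h : IsPolytope 4 P rk) {Φ : Tup P rk} {ρ : Fin 4 → (P ≃o P)}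
    (hρ : ∀ i, tmap h h (ρ i) Φ = adj h i Φ) {i j : Fin 4} (hij : j ≠ i) :
    ρ i (Φ.1 j) = Φ.1 j := by
  rw [← tmap_apply h h (ρ i) Φ j, hρ, adj_same h Φ hij]

end Pool.Agent.H.MP_6268b4_co
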