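import Pool.Agent.H.MP_6268b4_co.E11Sec
import Pool.Agent.H.MP_6268b4_co.TVDefs
import Pool.Agent.H.MP_6268b4_co.TReg
import Pool.Agent.H.MP_6268b4_co.RLabelDefs

/-!
The 11-cell is a regular polytope.
-/

namespace Pool.Agent.H.MP_6268b4_co

namespace ElevenCell

set_option maxHeartbeats 400000

/-- The permutations `T11, C11, A11, B11` are involutions and permute the blocks. Proof:
`decide`. -/
theorem perm_facts :
    (∀ x, T11 (T11 x) = x) ∧ (∀ x, C11 (C11 x) = x) ∧ (∀ x, A11 (A11 x) = x) ∧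
    (∀ x, B11 (B11 x) = x) ∧
    (∀ i, ∃ j, (blk i).image T11 = blk j) ∧ (∀ i, ∃ j, (blk i).image C11 = blk j) ∧
    (∀ i, ∃ j, (blk i).image A11 = blk j) ∧ (∀ i, ∃ j, (blk i).image B11 = blk j) := by
  refine ⟨?_, ?_, ?_, ?_, ?_, ?_, ?_, ?_⟩ <;> decide +kernel

theorem e11reg_face {f : Fin 11 → Fin 11} (hf : ∀ x, f (f x) = x)
    (hb : ∀ i, ∃ j, (blk i).image f = blk j) {S : Finset (Fin 11)} (hS : IsFace11 S) :
    IsFace11 (S.image f) := by
  have hinj : Function.Injective f := Function.LeftInverse.injective (g := f) hf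
  have hsurj : Function.Surjective f := fun x => ⟨f x, hf x⟩
  rcases hS with h | ⟨i, j, hij, rfl⟩ | ⟨i, rfl⟩ | rfl
  · exact Or.inl (Finset.card_image_le.trans h)
  · right
    left
    obtain ⟨i', hi'⟩ := hb i
    obtain ⟨j', hj'⟩ := hb j
    refine ⟨i', j', ?_, ?_⟩
    · rintro rfl
      apply hij
      apply blk_facts.2.2.2.2
      exact Finset.image_injective hinj (hi'.trans hj'.symm)
    · rw [Finset.image_inter _ _ hinj, hi', hj']
  · right
    right
    left
    exact hb i
  · right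
    right
    right
    exact Finset.image_univ_of_surjective hsurj

theorem e11reg_invol {f : Fin 11 → Fin 11} (hf : ∀ x, f (f x) = x) (S : Finset (Fin 11)) :
    (S.image f).image f = S := by
  rw [Finset.image_image]
  have h : f ∘ f = id := funext hf
  rw [h, Finset.image_id]

/-- An involution of the points permuting the blocks gives an automorphism of the 11-cell. Proof:
`S ↦ S.image f`; images of intersections are intersections of images (`f` injective). -/
theorem exists_auto (f : Fin 11 → Fin 11) (hf : ∀ x, f (f x) = x)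
    (hb : ∀ i, ∃ j, (blk i).image f = blk j) :
    ∃ γ : ElevenCell ≃o ElevenCell, ∀ x, (γ x).1 = x.1.image f := by
  have hinj : Function.Injective f := Function.LeftInverse.injective (g := f) hf
  refine ⟨{ toFun := fun x => ⟨x.1.image f, e11reg_face hf hb x.2⟩
            invFun := fun x => ⟨x.1.image f, e11reg_face hf hb x.2⟩
            left_inv := fun x => Subtype.ext (e11reg_invol hf x.1)
            right_inv := fun x => Subtype.ext (e11reg_invol hf x.1)
            map_rel_iff' := ?_ }, fun x => rfl⟩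
  intro x y
  show x.1.image f ⊆ y.1.image f ↔ x.1 ⊆ y.1
  exact Finset.image_subset_image_iff hinj

/-- the faces of the base flag -/
def e11reg_bs : Fin 4 → Finset (Fin 11) := ![{0}, {0, 1}, {0, 1, 3}, blk 4]

/-- the four generators -/
def e11reg_gen : Fin 4 → Fin 11 → Fin 11 := ![T11, C11, A11, B11]

theorem e11reg_isFace : ∀ i, IsFace11 (e11reg_bs i) := by
  intro i
  fin_cases i
  · exact Or.inl (by decide +kernel)
  · exact Or.inl (by decide +kernel)
  · exact Or.inr (Or.inl ⟨1, 4, by decide +kernel, by decide +kernel⟩)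
  · exact Or.inr (Or.inr (Or.inl ⟨4, rfl⟩))

theorem e11reg_fix : ∀ i k : Fin 4, (e11reg_bs k).image (e11reg_gen i) = e11reg_bs k ↔ k ≠ i := by
  decide +kernel

theorem e11reg_card : (e11reg_bs 0).card = 1 ∧ (e11reg_bs 1).card = 2 ∧ (e11reg_bs 2).card = 3 ∧
    (e11reg_bs 3).card = 6 := by
  decide +kernel

theorem e11reg_sub : ∀ i j : Fin 4, i ≤ j → e11reg_bs i ⊆ e11reg_bs j := by
  decide +kernel

theorem e11reg_rk : ∀ i : Fin 4, rk ⟨e11reg_bs i, e11reg_isFace i⟩ = (i : ℕ) := by
  obtain ⟨h0, h1, h2, h3⟩ := e11reg_card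
  intro i
  fin_cases i
  · show (if (e11reg_bs 0).card ≤ 3 then ((e11reg_bs 0).card : ℤ) - 1 else
      if (e11reg_bs 0).card ≤ 6 then 3 else 4) = 0
    rw [h0]
    rfl
  · show (if (e11reg_bs 1).card ≤ 3 then ((e11reg_bs 1).card : ℤ) - 1 else
      if (e11reg_bs 1).card ≤ 6 then 3 else 4) = 1
    rw [h1]
    rfl
  · show (if (e11reg_bs 2).card ≤ 3 then ((e11reg_bs 2).card : ℤ) - 1 else
      if (e11reg_bs 2).card ≤ 6 then 3 else 4) = 2
    rw [h2]
    rfl
  · show (if (e11reg_bs 3).card ≤ 3 then ((e11reg_bs 3).card : ℤ) - 1 else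
      if (e11reg_bs 3).card ≤ 6 then 3 else 4) = 3
    rw [h3]
    rfl

/-- The generators: base flag `{0} < {0,1} < {0,1,3} < blk 4 = {0,1,3,4,6,10}`. Each generator
fixes three of the faces of the base flag and moves the fourth one (`decide`), so it maps the base
flag to the adjacent one by `adj_unique`. (`{0,1,3} = blk 1 ∩ blk 4`.) -/
theorem generators : ∃ (Ψ : Tup ElevenCell rk) (ρ : Fin 4 → (ElevenCell ≃o ElevenCell)),
    (∀ i, tmap isPolytope isPolytope (ρ i) Ψ = adj isPolytope i Ψ) ∧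
    (∀ x, (ρ 0 x).1 = x.1.image T11) ∧ (∀ x, (ρ 1 x).1 = x.1.image C11) ∧
    (∀ x, (ρ 2 x).1 = x.1.image A11) ∧ (∀ x, (ρ 3 x).1 = x.1.image B11) := by
  obtain ⟨t1, t2, t3, t4, t5, t6, t7, t8⟩ := perm_facts
  have hex : ∀ i : Fin 4, ∃ γ : ElevenCell ≃o ElevenCell,
      ∀ x, (γ x).1 = x.1.image (e11reg_gen i) := by
    intro i
    fin_cases i
    · exact exists_auto T11 t1 t5
    · exact exists_auto C11 t2 t6
    · exact exists_auto A11 t3 t7
    · exact exists_auto B11 t4 t8
  choose ρ hρ using hex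
  refine ⟨⟨fun i => ⟨e11reg_bs i, e11reg_isFace i⟩, e11reg_rk, fun i j hij => e11reg_sub i j hij⟩,
    ρ, fun i => ?_, hρ 0, hρ 1, hρ 2, hρ 3⟩
  refine adj_unique isPolytope i _ _ ?_ ?_
  · intro h
    have h1 := congrArg Subtype.val h
    rw [tmap_apply, hρ] at h1
    exact ((e11reg_fix i i).1 h1) rfl
  · intro k hk
    apply Subtype.ext
    rw [tmap_apply, hρ]
    exact (e11reg_fix i k).2 hk

/-- Proof: `regular_of_base` and `generators`. -/
theorem regular : IsRegular ElevenCell := by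
  obtain ⟨Ψ, ρ, hρ, -⟩ := generators
  exact regular_of_base isPolytope Ψ fun i => ⟨ρ i, hρ i⟩

theorem e11reg_atom (a : Fin 11) :
    IsAtom (⟨{a}, Or.inl (by rw [Finset.card_singleton]; norm_num)⟩ : ElevenCell) := by
  rw [isAtom_iff isPolytope]
  show (if ({a} : Finset (Fin 11)).card ≤ 3 then ((({a} : Finset (Fin 11)).card : ℕ) : ℤ) - 1 else
      if ({a} : Finset (Fin 11)).card ≤ 6 then 3 else 4) = 0
  rw [Finset.card_singleton]
  rfl

theorem e11reg_le {γ γ' : ElevenCell ≃o ElevenCell}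
    (h : ∀ v : Vert ElevenCell, γ • v = γ' • v) (x : ElevenCell) : (γ x).1 ⊆ (γ' x).1 := by
  intro a ha
  have hat := e11reg_atom a
  have hle : (⟨{a}, Or.inl (by rw [Finset.card_singleton]; norm_num)⟩ : ElevenCell) ≤ γ x := by
    show ({a} : Finset (Fin 11)) ⊆ (γ x).1
    rw [Finset.singleton_subset_iff]
    exact ha
  generalize hA : (⟨{a}, Or.inl (by rw [Finset.card_singleton]; norm_num)⟩ : ElevenCell) = A
    at hat hle
  have hv : IsAtom (γ.symm A) := (OrderIso.isAtom_iff γ.symm A).2 hat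
  have h1 : γ.symm A ≤ x := by
    have h2 := γ.symm.monotone hle
    rwa [OrderIso.symm_apply_apply] at h2
  have h3 := h ⟨γ.symm A, hv⟩
  have h4 : γ (γ.symm A) = γ' (γ.symm A) := congrArg Subtype.val h3
  rw [OrderIso.apply_symm_apply] at h4
  have h5 : A ≤ γ' x := by
    rw [h4]
    exact γ'.monotone h1
  rw [← hA] at h5
  have h6 : ({a} : Finset (Fin 11)) ⊆ (γ' x).1 := h5
  rwa [Finset.singleton_subset_iff] at h6

/-- Proof: a face is determined by the vertices (singletons) below it. -/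
theorem faithful : FaithfulSMul (ElevenCell ≃o ElevenCell) (Vert ElevenCell) := by
  refine ⟨fun {γ γ'} h => ?_⟩
  apply DFunLike.ext
  intro x
  apply Subtype.ext
  exact Finset.Subset.antisymm (e11reg_le h x) (e11reg_le (fun v => (h v).symm) x)

end ElevenCell

end Pool.Agent.H.MP_6268b4_co
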