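import Pool.Agent.H.MP_6268b4_co.E11Poly

/-!
The 11-cell is a polytope: diamond condition and connected sections.
-/

namespace Pool.Agent.H.MP_6268b4_co

namespace ElevenCell

private theorem e11sec_card (x : ElevenCell) :
    (rk x = -1 ∧ x.1.card = 0) ∨ (rk x = 0 ∧ x.1.card = 1) ∨ (rk x = 1 ∧ x.1.card = 2) ∨
    (rk x = 2 ∧ x.1.card = 3) ∨ (rk x = 3 ∧ x.1.card = 6) ∨ (rk x = 4 ∧ x.1.card = 11) := by
  rcases rk_cases x with ⟨h, hx⟩ | ⟨h, a, hx⟩ | ⟨h, a, b, hab, hx⟩ | ⟨h, i, j, hij, hx⟩ |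
    ⟨h, i, hx⟩ | ⟨h, hx⟩
  · exact Or.inl ⟨h, by rw [hx]; rfl⟩
  · exact Or.inr (Or.inl ⟨h, by rw [hx]; exact Finset.card_singleton a⟩)
  · exact Or.inr (Or.inr (Or.inl ⟨h, by rw [hx]; exact Finset.card_pair hab⟩))
  · exact Or.inr (Or.inr (Or.inr (Or.inl ⟨h, by rw [hx]; exact blk_facts.2.1 i j hij⟩)))
  · exact Or.inr (Or.inr (Or.inr (Or.inr (Or.inl ⟨h, by rw [hx]; exact blk_facts.1 i⟩))))
  · exact Or.inr (Or.inr (Or.inr (Or.inr (Or.inr ⟨h, by rw [hx]; rfl⟩))))

private theorem e11sec_lt {x y : ElevenCell} (h : x.1 ⊆ y.1) (hc : x.1.card < y.1.card) :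
    x < y := by
  have h1 : x.1 ⊂ y.1 := by
    refine ⟨h, fun h2 => ?_⟩
    have := Finset.card_le_card h2
    omega
  exact h1

private theorem e11sec_sub {x y : ElevenCell} (h : x < y) : x.1 ⊆ y.1 ∧ x.1.card < y.1.card := by
  have h1 : x.1 ⊂ y.1 := h
  exact ⟨h1.1, Finset.card_lt_card h1⟩

/-- the vertex `a` -/
private def e11sec_v (a : Fin 11) : ElevenCell := ⟨{a}, Or.inl (by simp)⟩

/-- the edge `a, b` -/
private def e11sec_e (a b : Fin 11) : ElevenCell :=
  ⟨{a, b}, Or.inl (Finset.card_le_two)⟩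

/-- the triangle `i, j` -/
private def e11sec_t (i j : Fin 11) (h : i ≠ j) : ElevenCell :=
  ⟨blk i ∩ blk j, Or.inr (Or.inl ⟨i, j, h, rfl⟩)⟩

/-- the facet `i` -/
private def e11sec_b (i : Fin 11) : ElevenCell := ⟨blk i, Or.inr (Or.inr (Or.inl ⟨i, rfl⟩))⟩

private theorem e11sec_pair_sub {a b : Fin 11} {S : Finset (Fin 11)} (ha : a ∈ S) (hb : b ∈ S) :
    ({a, b} : Finset (Fin 11)) ⊆ S := by
  intro c hc
  rw [Finset.mem_insert, Finset.mem_singleton] at hc
  rcases hc with rfl | rfl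
  · exact ha
  · exact hb

private theorem e11sec_ncard {S : Set ElevenCell} {x y : ElevenCell} (hxy : x.1 ≠ y.1)
    (hx : x ∈ S) (hy : y ∈ S) (h : ∀ z ∈ S, z.1 = x.1 ∨ z.1 = y.1) : S.ncard = 2 := by
  have h1 : S = {x, y} := by
    apply Set.Subset.antisymm
    · intro z hz
      rcases h z hz with h2 | h2
      · exact Or.inl (Subtype.ext h2)
      · exact Or.inr (Subtype.ext h2)
    · rintro z (rfl | rfl)
      · exact hx
      · exact hy
  rw [h1]
  exact Set.ncard_pair fun h2 => hxy (congrArg Subtype.val h2)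

private theorem e11sec_ne : ∀ i : Fin 11, i ≠ i + 1 := by decide

/-- the three blocks containing two points -/
private theorem e11sec_three {a b : Fin 11} (hab : a ≠ b) {i : Fin 11} (ha : a ∈ blk i)
    (hb : b ∈ blk i) : ∃ j k, j ≠ i ∧ k ≠ i ∧ j ≠ k ∧ a ∈ blk j ∧ b ∈ blk j ∧ a ∈ blk k ∧
      b ∈ blk k ∧ ∀ l, a ∈ blk l → b ∈ blk l → l = i ∨ l = j ∨ l = k := by
  have h1 := blk_facts.2.2.2.1 a b hab
  have hi : i ∈ (Finset.univ : Finset (Fin 11)).filter fun i => a ∈ blk i ∧ b ∈ blk i :=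
    Finset.mem_filter.2 ⟨Finset.mem_univ _, ha, hb⟩
  have h2 := Finset.card_erase_of_mem hi
  rw [h1] at h2
  obtain ⟨j, k, hjk, h3⟩ := Finset.card_eq_two.1 h2
  have hj : j ∈ ((Finset.univ : Finset (Fin 11)).filter
      fun i => a ∈ blk i ∧ b ∈ blk i).erase i := by
    rw [h3]
    exact Finset.mem_insert_self _ _
  have hk : k ∈ ((Finset.univ : Finset (Fin 11)).filter
      fun i => a ∈ blk i ∧ b ∈ blk i).erase i := by
    rw [h3]
    exact Finset.mem_insert_of_mem (Finset.mem_singleton_self _)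
  rw [Finset.mem_erase, Finset.mem_filter] at hj hk
  refine ⟨j, k, hj.1, hk.1, hjk, hj.2.2.1, hj.2.2.2, hk.2.2.1, hk.2.2.2, fun l hla hlb => ?_⟩
  by_cases hl : l = i
  · exact Or.inl hl
  · right
    have h4 : l ∈ ((Finset.univ : Finset (Fin 11)).filter
        fun i => a ∈ blk i ∧ b ∈ blk i).erase i := by
      rw [Finset.mem_erase, Finset.mem_filter]
      exact ⟨hl, Finset.mem_univ _, hla, hlb⟩
    rw [h3, Finset.mem_insert, Finset.mem_singleton] at h4
    exact h4

/-- Proof. Cases by ranks (`rk_cases`). `(-1, 1)`: `G = {a, b}`, the faces between are `{a}`, `{b}`.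
`(0, 2)`: `F = {a} ⊆ G`, `G` has 3 elements `a, b, c`; the faces between are `{a, b}`, `{a, c}`.
`(1, 3)`: `F = {a, b} ⊆ G = blk i`; the faces strictly between have rank 2 and are `blk i ∩ blk j`
(a face `blk k ∩ blk l ⊆ blk i` has `i ∈ {k, l}` by `blk_facts`) with `a, b ∈ blk j`, `j ≠ i`; there
are exactly two such `j` by `blk_facts`, and `blk i ∩ blk j ≠ blk i ∩ blk j'` for `j ≠ j'`
(otherwise `blk i ∩ blk j ⊆ blk j'`). `(2, 4)`: `F = blk i ∩ blk j`, the faces between are `blk i`
and `blk j` (`blk_facts`). -/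
theorem diamond : Diamond ElevenCell rk := by
  intro F G hFG hr
  obtain ⟨hsub, hc⟩ := e11sec_sub hFG
  rcases rk_cases F with ⟨h, hF⟩ | ⟨h, a, hF⟩ | ⟨h, a, b, hab, hF⟩ | ⟨h, i, j, hij, hF⟩ |
    ⟨h, i, hF⟩ | ⟨h, hF⟩
  · rcases rk_cases G with ⟨h', hG⟩ | ⟨h', a, hG⟩ | ⟨h', a, b, hab, hG⟩ | ⟨h', i, j, hij, hG⟩ |
      ⟨h', i, hG⟩ | ⟨h', hG⟩
    · omega
    · omega
    · refine e11sec_ncard (x := e11sec_v a) (y := e11sec_v b) ?_ ⟨e11sec_lt ?_ ?_,
        e11sec_lt ?_ ?_⟩ ⟨e11sec_lt ?_ ?_, e11sec_lt ?_ ?_⟩ ?_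
      · intro h1
        exact hab (Finset.singleton_injective h1)
      · rw [hF]; exact Finset.empty_subset _
      · rw [hF]; simp [e11sec_v]
      · rw [hG]; simp [e11sec_v]
      · rw [hG, Finset.card_pair hab]; simp [e11sec_v]
      · rw [hF]; exact Finset.empty_subset _
      · rw [hF]; simp [e11sec_v]
      · rw [hG]; simp [e11sec_v]
      · rw [hG, Finset.card_pair hab]; simp [e11sec_v]
      · rintro z ⟨h1, h2⟩
        have h3 := (e11sec_sub h1).2
        obtain ⟨h4, h5⟩ := e11sec_sub h2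
        rw [hF, Finset.card_empty] at h3
        rw [hG, Finset.card_pair hab] at h5
        obtain ⟨c, hcz⟩ := Finset.card_eq_one.1 (show z.1.card = 1 by omega)
        rw [hcz, hG, Finset.singleton_subset_iff, Finset.mem_insert, Finset.mem_singleton] at h4
        rw [hcz]
        rcases h4 with rfl | rfl
        · exact Or.inl rfl
        · exact Or.inr rfl
    · omega
    · omega
    · omega
  · have hG3 : G.1.card = 3 := by
      rcases e11sec_card G with h1 | h1 | h1 | h1 | h1 | h1 <;> omega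
    have haG : a ∈ G.1 := hsub (by rw [hF]; exact Finset.mem_singleton_self a)
    have h2 := Finset.card_erase_of_mem haG
    rw [hG3] at h2
    obtain ⟨b, c, hbc, h3⟩ := Finset.card_eq_two.1 h2
    have hb : b ∈ G.1.erase a := by rw [h3]; exact Finset.mem_insert_self _ _
    have hc' : c ∈ G.1.erase a := by
      rw [h3]; exact Finset.mem_insert_of_mem (Finset.mem_singleton_self _)
    rw [Finset.mem_erase] at hb hc'
    refine e11sec_ncard (x := e11sec_e a b) (y := e11sec_e a c) ?_ ⟨e11sec_lt ?_ ?_,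
      e11sec_lt ?_ ?_⟩ ⟨e11sec_lt ?_ ?_, e11sec_lt ?_ ?_⟩ ?_
    · intro h1
      have h4 : b ∈ ({a, c} : Finset (Fin 11)) := by
        have h5 : ({a, b} : Finset (Fin 11)) = {a, c} := h1
        rw [← h5]
        simp
      rw [Finset.mem_insert, Finset.mem_singleton] at h4
      rcases h4 with h4 | h4
      · exact hb.1 h4
      · exact hbc h4
    · rw [hF]; simp [e11sec_e]
    · rw [hF, Finset.card_singleton]
      change 1 < ({a, b} : Finset (Fin 11)).card
      rw [Finset.card_pair hb.1.symm]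
      norm_num
    · exact e11sec_pair_sub haG hb.2
    · change ({a, b} : Finset (Fin 11)).card < _
      rw [Finset.card_pair hb.1.symm]
      omega
    · rw [hF]; simp [e11sec_e]
    · rw [hF, Finset.card_singleton]
      change 1 < ({a, c} : Finset (Fin 11)).card
      rw [Finset.card_pair hc'.1.symm]
      norm_num
    · exact e11sec_pair_sub haG hc'.2
    · change ({a, c} : Finset (Fin 11)).card < _
      rw [Finset.card_pair hc'.1.symm]
      omega
    · rintro z ⟨h1, h4⟩
      obtain ⟨h5, h6⟩ := e11sec_sub h1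
      obtain ⟨h7, h8⟩ := e11sec_sub h4
      rw [hF] at h5
      rw [hF, Finset.card_singleton] at h6
      have haz : a ∈ z.1 := h5 (Finset.mem_singleton_self a)
      have h9 := Finset.card_erase_of_mem haz
      obtain ⟨d, hd⟩ := Finset.card_eq_one.1 (show (z.1.erase a).card = 1 by omega)
      have h10 : z.1 = {a, d} := by
        rw [← Finset.insert_erase haz, hd]
      have hd' : d ∈ z.1.erase a := by rw [hd]; exact Finset.mem_singleton_self d
      rw [Finset.mem_erase] at hd'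
      have h11 : d ∈ G.1.erase a := Finset.mem_erase.2 ⟨hd'.1, h7 hd'.2⟩
      rw [h3, Finset.mem_insert, Finset.mem_singleton] at h11
      rw [h10]
      rcases h11 with rfl | rfl
      · exact Or.inl rfl
      · exact Or.inr rfl
  · rcases rk_cases G with ⟨h', hG⟩ | ⟨h', a', hG⟩ | ⟨h', a', b', hab', hG⟩ |
      ⟨h', i, j, hij, hG⟩ | ⟨h', i, hG⟩ | ⟨h', hG⟩
    · omega
    · omega
    · omega
    · omega
    · have ha : a ∈ blk i := by rw [← hG]; exact hsub (by rw [hF]; simp)
      have hb : b ∈ blk i := by rw [← hG]; exact hsub (by rw [hF]; simp)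
      obtain ⟨j, k, hji, hki, hjk, haj, hbj, hak, hbk, hall⟩ := e11sec_three hab ha hb
      have hmem : ∀ l, ∀ hl : i ≠ l, a ∈ blk l → b ∈ blk l →
          F < e11sec_t i l hl ∧ e11sec_t i l hl < G := by
        intro l hl hal hbl
        refine ⟨e11sec_lt ?_ ?_, e11sec_lt ?_ ?_⟩
        · rw [hF]
          exact e11sec_pair_sub (Finset.mem_inter.2 ⟨ha, hal⟩) (Finset.mem_inter.2 ⟨hb, hbl⟩)
        · rw [hF, Finset.card_pair hab]
          change 2 < (blk i ∩ blk l).card
          rw [blk_facts.2.1 i l hl]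
          norm_num
        · rw [hG]
          exact Finset.inter_subset_left
        · rw [hG, blk_facts.1]
          change (blk i ∩ blk l).card < 6
          rw [blk_facts.2.1 i l hl]
          norm_num
      refine e11sec_ncard (x := e11sec_t i j hji.symm) (y := e11sec_t i k hki.symm) ?_
        (hmem j hji.symm haj hbj) (hmem k hki.symm hak hbk) ?_
      · intro h1
        have h2 : blk i ∩ blk j ⊆ blk k := by
          have h3 : blk i ∩ blk j = blk i ∩ blk k := h1
          rw [h3]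
          exact Finset.inter_subset_right
        rcases blk_facts.2.2.1 i j k i hji.symm hki h2 with h3 | h3
        · exact hki h3
        · exact hjk h3.symm
      · rintro z ⟨h1, h2⟩
        obtain ⟨h3, h4⟩ := e11sec_sub h1
        obtain ⟨h5, h6⟩ := e11sec_sub h2
        rw [hF, Finset.card_pair hab] at h4
        rw [hG, blk_facts.1] at h6
        rcases rk_cases z with ⟨_, hz⟩ | ⟨_, a', hz⟩ | ⟨_, a', b', hab', hz⟩ |
          ⟨_, k', l', hkl, hz⟩ | ⟨_, i', hz⟩ | ⟨_, hz⟩
        · rw [hz] at h4; simp at h4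
        · rw [hz] at h4; simp at h4
        · rw [hz, Finset.card_pair hab'] at h4; omega
        · have haz : a ∈ blk k' ∩ blk l' := by rw [← hz]; exact h3 (by rw [hF]; simp)
          have hbz : b ∈ blk k' ∩ blk l' := by rw [← hz]; exact h3 (by rw [hF]; simp)
          rw [Finset.mem_inter] at haz hbz
          rw [hz, hG] at h5
          obtain ⟨m, hm⟩ : ∃ m : Fin 11, i ≠ m := ⟨i + 1, e11sec_ne i⟩
          rw [hz]
          rcases blk_facts.2.2.1 k' l' i m hkl hm h5 with rfl | rfl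
          · rcases hall l' haz.2 hbz.2 with rfl | rfl | rfl
            · exact absurd rfl hkl
            · exact Or.inl rfl
            · exact Or.inr rfl
          · rcases hall k' haz.1 hbz.1 with rfl | rfl | rfl
            · exact absurd rfl hkl
            · exact Or.inl (Finset.inter_comm _ _)
            · exact Or.inr (Finset.inter_comm _ _)
        · rw [hz, blk_facts.1] at h6; omega
        · rw [hz] at h6; simp at h6
    · omega
  · have hG : G.1 = Finset.univ := by
      rcases rk_cases G with ⟨h', hG⟩ | ⟨h', a', hG⟩ | ⟨h', a', b', hab', hG⟩ |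
        ⟨h', i, j, hij, hG⟩ | ⟨h', i, hG⟩ | ⟨h', hG⟩
      · omega
      · omega
      · omega
      · omega
      · omega
      · exact hG
    have hGc : G.1.card = 11 := by rw [hG]; rfl
    have hmem : ∀ l, blk i ∩ blk j ⊆ blk l → F < e11sec_b l ∧ e11sec_b l < G := by
      intro l hl
      refine ⟨e11sec_lt ?_ ?_, e11sec_lt ?_ ?_⟩
      · rw [hF]
        exact hl
      · rw [hF, blk_facts.2.1 i j hij]
        change 3 < (blk l).card
        rw [blk_facts.1]
        norm_num
      · rw [hG]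
        exact Finset.subset_univ _
      · rw [hGc]
        change (blk l).card < 11
        rw [blk_facts.1]
        norm_num
    refine e11sec_ncard (x := e11sec_b i) (y := e11sec_b j) ?_
      (hmem i Finset.inter_subset_left) (hmem j Finset.inter_subset_right) ?_
    · intro h1
      exact hij (blk_facts.2.2.2.2 i j h1)
    · rintro z ⟨h1, h2⟩
      obtain ⟨h3, h4⟩ := e11sec_sub h1
      obtain ⟨h5, h6⟩ := e11sec_sub h2
      rw [hF, blk_facts.2.1 i j hij] at h4
      rw [hGc] at h6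
      rcases rk_cases z with ⟨_, hz⟩ | ⟨_, a', hz⟩ | ⟨_, a', b', hab', hz⟩ |
        ⟨_, k', l', hkl, hz⟩ | ⟨_, i', hz⟩ | ⟨_, hz⟩
      · rw [hz] at h4; simp at h4
      · rw [hz] at h4; simp at h4
      · rw [hz, Finset.card_pair hab'] at h4; omega
      · rw [hz, blk_facts.2.1 k' l' hkl] at h4; omega
      · rw [hF, hz] at h3
        obtain ⟨m, hm⟩ : ∃ m : Fin 11, i' ≠ m := ⟨i' + 1, e11sec_ne i'⟩
        rw [hz]
        rcases blk_facts.2.2.1 i j i' m hij hm h3 with rfl | rfl
        · exact Or.inl rfl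
        · exact Or.inr rfl
      · rw [hz] at h6; simp at h6
  · rcases e11sec_card G with h1 | h1 | h1 | h1 | h1 | h1 <;> omega
  · rcases e11sec_card G with h1 | h1 | h1 | h1 | h1 | h1 <;> omega

private theorem e11sec_tr : ∀ i x j : Fin 11, x ∈ blk j ↔ x - i ∈ blk (j - i) := by
  decide +kernel

private theorem e11sec_p0 : ∀ x y z : Fin 11, x ∈ blk 0 → y ∈ blk 0 → z ∈ blk 0 → x ≠ y →
    x ≠ z → y ≠ z → (∃ j, j ≠ 0 ∧ x ∈ blk j ∧ y ∈ blk j ∧ z ∈ blk j) ∨
    ∃ u, u ∈ blk 0 ∧ u ≠ x ∧ (∃ j, j ≠ 0 ∧ x ∈ blk j ∧ y ∈ blk j ∧ u ∈ blk j) ∧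
      ∃ k, k ≠ 0 ∧ x ∈ blk k ∧ z ∈ blk k ∧ u ∈ blk k := by
  decide +kernel

/-- In the vertex figure of a facet (a pentagon) any two edges are at distance at most 2: if
`x, y, z ∈ blk i` are distinct then there are `u` and `j, k ≠ i` with `x, y, u ∈ blk i ∩ blk j` and
`x, z, u ∈ blk i ∩ blk k` or there is `j ≠ i` with `x, y, z ∈ blk j`. Proof: `decide` (it may be
faster to do `i = 0` by `decide` and use that the translation by `1` permutes the blocks, or to do
each `i` separately by `fin_cases i`). -/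
theorem pentagon (i x y z : Fin 11) (hx : x ∈ blk i) (hy : y ∈ blk i) (hz : z ∈ blk i)
    (hxy : x ≠ y) (hxz : x ≠ z) (hyz : y ≠ z) :
    (∃ j, j ≠ i ∧ x ∈ blk j ∧ y ∈ blk j ∧ z ∈ blk j) ∨
    ∃ u j k, u ∈ blk i ∧ u ≠ x ∧ j ≠ i ∧ k ≠ i ∧ x ∈ blk j ∧ y ∈ blk j ∧ u ∈ blk j ∧ x ∈ blk k ∧
      z ∈ blk k ∧ u ∈ blk k := by
  have tr : ∀ a j : Fin 11, a - i ∈ blk j ↔ a ∈ blk (j + i) := by
    intro a j
    rw [e11sec_tr i a (j + i), add_sub_cancel_right]
  have tr2 : ∀ a j : Fin 11, a ∈ blk j ↔ a + i ∈ blk (j + i) := by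
    intro a j
    rw [e11sec_tr i (a + i) (j + i), add_sub_cancel_right, add_sub_cancel_right]
  have h0 : ∀ a : Fin 11, a ∈ blk i → a - i ∈ blk 0 := by
    intro a ha
    rw [tr, zero_add]
    exact ha
  have hne : ∀ j : Fin 11, j ≠ 0 → j + i ≠ i := by
    intro j hj h1
    exact hj (by simpa using h1)
  rcases e11sec_p0 (x - i) (y - i) (z - i) (h0 x hx) (h0 y hy) (h0 z hz)
    (fun h => hxy (sub_left_injective h)) (fun h => hxz (sub_left_injective h))
    (fun h => hyz (sub_left_injective h)) with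
    ⟨j, hj, h1, h2, h3⟩ | ⟨u, hu, hux, ⟨j, hj, h1, h2, h3⟩, k, hk, h4, h5, h6⟩
  · left
    exact ⟨j + i, hne j hj, (tr _ _).1 h1, (tr _ _).1 h2, (tr _ _).1 h3⟩
  · right
    refine ⟨u + i, j + i, k + i, ?_, ?_, hne j hj, hne k hk, (tr _ _).1 h1, (tr _ _).1 h2,
      (tr2 _ _).1 h3, (tr _ _).1 h4, (tr _ _).1 h5, (tr2 _ _).1 h6⟩
    · have := (tr2 u 0).1 hu
      rwa [zero_add] at this
    · intro h
      exact hux (by rw [← h, add_sub_cancel_right])

/-- the step relation in a section -/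
private def e11sec_R (F G : ElevenCell) (a b : ElevenCell) : Prop :=
  (a ≤ b ∨ b ≤ a) ∧ F < b ∧ b < G

private theorem e11sec_up {F G a b : ElevenCell} (h : a ≤ b) (h1 : F < b) (h2 : b < G) :
    Relation.ReflTransGen (e11sec_R F G) a b :=
  Relation.ReflTransGen.single ⟨Or.inl h, h1, h2⟩

private theorem e11sec_dn {F G a b : ElevenCell} (h : b ≤ a) (h1 : F < b) (h2 : b < G) :
    Relation.ReflTransGen (e11sec_R F G) a b :=
  Relation.ReflTransGen.single ⟨Or.inr h, h1, h2⟩

/-- Proof. Let `F < G`, `rk G ≥ rk F + 3`.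
If `F = ⊥` (rank `-1`): every face strictly between `⊥` and `G` contains a vertex `{a}`, and two
vertices `{a}`, `{b}` with `a, b ∈ G` are below the edge `{a, b}`, which is strictly below `G`
(rank of `G` at least 2).
If `G = ⊤` (rank 4), `rk F ≤ 1`: every face strictly between `F` and `⊤` lies below a facet
containing `F`; two facets `blk i`, `blk j` (`i ≠ j`) containing `F` both contain
`blk i ∩ blk j`, a face of rank 2 containing `F`, different from `F` (cardinality).
There remains `rk F = 0`, `rk G = 3`: `F = {x}`, `G = blk i`. Faces strictly between: edges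
`{x, y}`, and faces of rank 2 `blk i ∩ blk j` containing `x`, which contain an edge `{x, y}`. Two
edges `{x, y}`, `{x, z}`: by `pentagon` they are connected through the faces
`blk i ∩ blk j` and the edge `{x, u}`. -/
theorem secConn : SecConn ElevenCell rk := by
  intro F G hFG hr x y hFx hxG hFy hyG
  change Relation.ReflTransGen (e11sec_R F G) x y
  obtain ⟨hsub, hc⟩ := e11sec_sub hFG
  obtain ⟨hFx1, hFx2⟩ := e11sec_sub hFx
  obtain ⟨hxG1, hxG2⟩ := e11sec_sub hxG
  obtain ⟨hFy1, hFy2⟩ := e11sec_sub hFy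
  obtain ⟨hyG1, hyG2⟩ := e11sec_sub hyG
  have hFc := e11sec_card F
  have hGc := e11sec_card G
  by_cases hF : rk F = -1
  · -- `F = ⊥`
    have hF0 : F.1.card = 0 := by omega
    have hF1 : F.1 = ∅ := Finset.card_eq_zero.1 hF0
    have hG3 : 3 ≤ G.1.card := by omega
    have hv : ∀ a ∈ G.1, F < e11sec_v a ∧ e11sec_v a < G := by
      intro a ha
      refine ⟨e11sec_lt ?_ ?_, e11sec_lt ?_ ?_⟩
      · rw [hF1]; exact Finset.empty_subset _
      · rw [hF0]; simp [e11sec_v]
      · simpa [e11sec_v] using ha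
      · simp only [e11sec_v, Finset.card_singleton]; omega
    obtain ⟨a, ha⟩ : x.1.Nonempty := Finset.card_pos.1 (by omega)
    obtain ⟨b, hb⟩ : y.1.Nonempty := Finset.card_pos.1 (by omega)
    have hax : e11sec_v a ≤ x := by
      change ({a} : Finset (Fin 11)) ⊆ x.1
      simpa using ha
    have hby : e11sec_v b ≤ y := by
      change ({b} : Finset (Fin 11)) ⊆ y.1
      simpa using hb
    have h1 := hv a (hxG1 ha)
    have h2 := hv b (hyG1 hb)
    refine (e11sec_dn hax h1.1 h1.2).trans (Relation.ReflTransGen.trans ?_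
      (e11sec_up hby hFy hyG))
    by_cases hab : a = b
    · rw [hab]
    · have h3 : e11sec_e a b < G := by
        apply e11sec_lt
        · exact e11sec_pair_sub (hxG1 ha) (hyG1 hb)
        · change ({a, b} : Finset (Fin 11)).card < _
          rw [Finset.card_pair hab]
          omega
      have h4 : e11sec_v a ≤ e11sec_e a b := by
        change ({a} : Finset (Fin 11)) ⊆ {a, b}
        simp
      have h5 : e11sec_v b ≤ e11sec_e a b := by
        change ({b} : Finset (Fin 11)) ⊆ {a, b}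
        simp
      exact (e11sec_up h4 (h1.1.trans_le h4) h3).trans (e11sec_dn h5 h2.1 h2.2)
  by_cases hG : rk G = 4
  · -- `G = ⊤`
    have hG11 : G.1.card = 11 := by omega
    have hGu : ∀ a, a ∈ G.1 := by
      have : G.1 = Finset.univ := Finset.eq_univ_of_card _ (by rw [hG11]; rfl)
      intro a
      rw [this]
      exact Finset.mem_univ a
    have hF2 : F.1.card ≤ 2 := by omega
    have hb : ∀ i, F.1 ⊆ blk i → F < e11sec_b i ∧ e11sec_b i < G := by
      intro i hi
      refine ⟨e11sec_lt hi ?_, e11sec_lt (fun a _ => hGu a) ?_⟩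
      · change _ < (blk i).card
        rw [blk_facts.1]
        omega
      · change (blk i).card < _
        rw [blk_facts.1]
        omega
    have hcov : ∀ z : ElevenCell, F < z → z < G → ∃ i, z ≤ e11sec_b i := by
      intro z _ hz2
      obtain ⟨-, hz3⟩ := e11sec_sub hz2
      rw [hG11] at hz3
      rcases rk_cases z with ⟨_, hz⟩ | ⟨_, a', hz⟩ | ⟨_, a', b', hab', hz⟩ |
        ⟨_, k', l', hkl, hz⟩ | ⟨_, i', hz⟩ | ⟨_, hz⟩
      · refine ⟨0, ?_⟩
        change z.1 ⊆ _
        rw [hz]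
        exact Finset.empty_subset _
      · refine ⟨a', ?_⟩
        change z.1 ⊆ blk a'
        rw [hz]
        simp [blk]
      · have h1 := blk_facts.2.2.2.1 a' b' hab'
        obtain ⟨i, hi⟩ : ((Finset.univ : Finset (Fin 11)).filter
            fun i => a' ∈ blk i ∧ b' ∈ blk i).Nonempty := Finset.card_pos.1 (by omega)
        rw [Finset.mem_filter] at hi
        refine ⟨i, ?_⟩
        change z.1 ⊆ blk i
        rw [hz]
        exact e11sec_pair_sub hi.2.1 hi.2.2
      · refine ⟨k', ?_⟩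
        change z.1 ⊆ blk k'
        rw [hz]
        exact Finset.inter_subset_left
      · refine ⟨i', ?_⟩
        change z.1 ⊆ blk i'
        rw [hz]
      · rw [hz] at hz3
        simp at hz3
    obtain ⟨i, hi⟩ := hcov x hFx hxG
    obtain ⟨j, hj⟩ := hcov y hFy hyG
    have h1 := hb i (hFx1.trans hi)
    have h2 := hb j (hFy1.trans hj)
    refine (e11sec_up hi h1.1 h1.2).trans (Relation.ReflTransGen.trans ?_
      (e11sec_dn hj hFy hyG))
    by_cases hij : i = j
    · rw [hij]
    · have h3 : F < e11sec_t i j hij := by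
        apply e11sec_lt
        · exact Finset.subset_inter (hFx1.trans hi) (hFy1.trans hj)
        · change _ < (blk i ∩ blk j).card
          rw [blk_facts.2.1 i j hij]
          omega
      have h4 : e11sec_t i j hij ≤ e11sec_b i := by
        change blk i ∩ blk j ⊆ blk i
        exact Finset.inter_subset_left
      have h5 : e11sec_t i j hij ≤ e11sec_b j := by
        change blk i ∩ blk j ⊆ blk j
        exact Finset.inter_subset_right
      exact (e11sec_dn h4 h3 (lt_of_le_of_lt h4 h1.2)).trans (e11sec_up h5 h2.1 h2.2)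
  -- `rk F = 0`, `rk G = 3`
  have hF0 : F.1.card = 1 := by omega
  have hG6 : G.1.card = 6 := by omega
  obtain ⟨c, hFc'⟩ := Finset.card_eq_one.1 hF0
  obtain ⟨i, hGi⟩ : ∃ i, G.1 = blk i := by
    rcases rk_cases G with ⟨h', hG⟩ | ⟨h', a', hG⟩ | ⟨h', a', b', hab', hG⟩ |
      ⟨h', i, j, hij, hG⟩ | ⟨h', i, hG⟩ | ⟨h', hG⟩
    · omega
    · omega
    · omega
    · omega
    · exact ⟨i, hG⟩
    · omega
  have hcG : c ∈ blk i := by rw [← hGi]; exact hsub (by rw [hFc']; exact Finset.mem_singleton_self c)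
  have he : ∀ a, a ∈ blk i → a ≠ c → F < e11sec_e c a ∧ e11sec_e c a < G := by
    intro a ha hac
    have h1 : (e11sec_e c a).1.card = 2 := Finset.card_pair hac.symm
    refine ⟨e11sec_lt ?_ (by omega), e11sec_lt ?_ (by omega)⟩
    · rw [hFc']
      simp [e11sec_e]
    · rw [hGi]
      exact e11sec_pair_sub hcG ha
  have ht : ∀ j, ∀ hj : i ≠ j, c ∈ blk j → F < e11sec_t i j hj ∧ e11sec_t i j hj < G := by
    intro j hj hcj
    have h1 : (e11sec_t i j hj).1.card = 3 := blk_facts.2.1 i j hj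
    refine ⟨e11sec_lt ?_ (by omega), e11sec_lt ?_ (by omega)⟩
    · rw [hFc', Finset.singleton_subset_iff]
      exact Finset.mem_inter.2 ⟨hcG, hcj⟩
    · rw [hGi]
      exact Finset.inter_subset_left
  have het : ∀ a j, ∀ hj : i ≠ j, c ∈ blk j → a ∈ blk i → a ∈ blk j →
      e11sec_e c a ≤ e11sec_t i j hj := by
    intro a j hj hcj hai haj
    exact e11sec_pair_sub (Finset.mem_inter.2 ⟨hcG, hcj⟩) (Finset.mem_inter.2 ⟨hai, haj⟩)
  have hex : ∀ z : ElevenCell, F < z → z < G → ∃ a, a ∈ blk i ∧ a ≠ c ∧ e11sec_e c a ≤ z := by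
    intro z hz1 hz2
    obtain ⟨h1, h2⟩ := e11sec_sub hz1
    obtain ⟨h3, h4⟩ := e11sec_sub hz2
    obtain ⟨a, ha, hac⟩ : ∃ b ∈ z.1, b ≠ c := Finset.exists_mem_ne (by omega) c
    refine ⟨a, by rw [← hGi]; exact h3 ha, hac, ?_⟩
    exact e11sec_pair_sub (h1 (by rw [hFc']; exact Finset.mem_singleton_self c)) ha
  obtain ⟨a, hai, hac, hax⟩ := hex x hFx hxG
  obtain ⟨b, hbi, hbc, hby⟩ := hex y hFy hyG
  refine (e11sec_dn hax (he a hai hac).1 (he a hai hac).2).trans (Relation.ReflTransGen.trans ?_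
    (e11sec_up hby hFy hyG))
  by_cases hab : a = b
  · rw [hab]
  rcases pentagon i c a b hcG hai hbi hac.symm hbc.symm hab with ⟨j, hj, h1, h2, h3⟩ |
    ⟨u, j, k, hu, huc, hj, hk, h1, h2, h3, h4, h5, h6⟩
  · exact (e11sec_up (het a j hj.symm h1 hai h2) (ht j hj.symm h1).1 (ht j hj.symm h1).2).trans
      (e11sec_dn (het b j hj.symm h1 hbi h3) (he b hbi hbc).1 (he b hbi hbc).2)
  · exact (((e11sec_up (het a j hj.symm h1 hai h2) (ht j hj.symm h1).1 (ht j hj.symm h1).2).trans
      (e11sec_dn (het u j hj.symm h1 hu h3) (he u hu huc).1 (he u hu huc).2)).trans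
      (e11sec_up (het u k hk.symm h4 hu h6) (ht k hk.symm h4).1 (ht k hk.symm h4).2)).trans
      (e11sec_dn (het b k hk.symm h4 hbi h5) (he b hbi hbc).1 (he b hbi hbc).2)

theorem isPolytope : IsPolytope 4 ElevenCell rk :=
  isPolytope_of_sec graded diamond secConn

theorem simple : SimpleComplete rk := by
  intro x y hx hy hxy
  have hcx := e11sec_card x
  have hcy := e11sec_card y
  obtain ⟨a, ha⟩ := Finset.card_eq_one.1 (show x.1.card = 1 by omega)
  obtain ⟨b, hb⟩ := Finset.card_eq_one.1 (show y.1.card = 1 by omega)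
  have hab : a ≠ b := by
    rintro rfl
    exact hxy (Subtype.ext (ha.trans hb.symm))
  have hc2 : (e11sec_e a b).1.card = 2 := Finset.card_pair hab
  refine ⟨e11sec_e a b, ⟨?_, ?_, ?_⟩, ?_⟩
  · rcases e11sec_card (e11sec_e a b) with h1 | h1 | h1 | h1 | h1 | h1 <;> omega
  · change x.1 ⊆ _
    rw [ha]
    simp [e11sec_e]
  · change y.1 ⊆ _
    rw [hb]
    simp [e11sec_e]
  · rintro e ⟨he1, hxe, hye⟩
    have h1 : x.1 ⊆ e.1 := hxe
    have h2 : y.1 ⊆ e.1 := hye
    rw [ha, Finset.singleton_subset_iff] at h1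
    rw [hb, Finset.singleton_subset_iff] at h2
    have hce := e11sec_card e
    apply Subtype.ext
    symm
    apply Finset.eq_of_subset_of_card_le
    · exact e11sec_pair_sub h1 h2
    · omega

/-- Proof: an edge `{a, b}` is contained in exactly 3 blocks (`blk_facts`). -/
theorem oddType : OddType rk := by
  intro e he
  have hce := e11sec_card e
  obtain ⟨a, b, hab, hab2⟩ := Finset.card_eq_two.1 (show e.1.card = 2 by omega)
  have h1 : {G : ElevenCell | e ≤ G ∧ rk G = 3} = e11sec_b ''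
      (((Finset.univ : Finset (Fin 11)).filter fun i => a ∈ blk i ∧ b ∈ blk i : Finset (Fin 11)) :
        Set (Fin 11)) := by
    apply Set.Subset.antisymm
    · rintro G ⟨h2, h3⟩
      obtain ⟨i, hi⟩ : ∃ i, G.1 = blk i := by
        rcases rk_cases G with ⟨h', hG⟩ | ⟨h', a', hG⟩ | ⟨h', a', b', hab', hG⟩ |
          ⟨h', i, j, hij, hG⟩ | ⟨h', i, hG⟩ | ⟨h', hG⟩
        · omega
        · omega
        · omega
        · omega
        · exact ⟨i, hG⟩
        · omega
      have h4 : e.1 ⊆ G.1 := h2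
      refine ⟨i, ?_, Subtype.ext hi.symm⟩
      rw [Finset.mem_coe, Finset.mem_filter, ← hi]
      exact ⟨Finset.mem_univ _, h4 (by rw [hab2]; simp), h4 (by rw [hab2]; simp)⟩
    · rintro G ⟨i, hi, rfl⟩
      rw [Finset.mem_coe, Finset.mem_filter] at hi
      refine ⟨?_, ?_⟩
      · change e.1 ⊆ blk i
        rw [hab2]
        exact e11sec_pair_sub hi.2.1 hi.2.2
      · have h4 : (e11sec_b i).1.card = 6 := blk_facts.1 i
        rcases e11sec_card (e11sec_b i) with h1 | h1 | h1 | h1 | h1 | h1 <;> omega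
  rw [h1, Set.ncard_image_of_injective _ (fun i j hij => blk_facts.2.2.2.2 i j
    (congrArg Subtype.val hij)), Set.ncard_coe_finset, blk_facts.2.2.2.1 a b hab]
  decide

end ElevenCell

end Pool.Agent.H.MP_6268b4_co
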