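import Pool.Agent.H.MP_6268b4_co.F4Defs
import Pool.Agent.H.MP_6268b4_co.CMainA

/-!
First consequences of `FHyp`.
-/

namespace Pool.Agent.H.MP_6268b4_co

variable {G Ω : Type*} [Group G] [MulAction G Ω]

/-- Job F4A1-1. `g` interchanges `x, y`, so it inverts their stabilizer.

Proof. `g * g = 1` (`swap`) and `g * k` also interchanges `x` and `y`, so `(g * k) * (g * k) = 1`.
Multiply by `k⁻¹` on the right: `g * k * g = k⁻¹`. -/
theorem f4_inv (h : FHyp G Ω) {x y : Ω} (hxy : x ≠ y) {g k : G} (h1 : g • x = y)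
    (h2 : g • y = x) (hk1 : k • x = x) (hk2 : k • y = y) : g * k * g = k⁻¹ := by
  have e : (g * k) * (g * k) = 1 := by
    apply h.swap x y (g * k) hxy
    · rw [mul_smul, hk1, h1]
    · rw [mul_smul, hk2, h2]
  have e2 : (g * k * g) * k = 1 := by
    rw [← e]
    simp only [mul_assoc]
  exact eq_inv_of_mul_eq_one_left e2

/-- Job F4A1-2. The stabilizer of two points is commutative (it is cyclic). -/
theorem f4_comm (h : FHyp G Ω) {x y : Ω} (hxy : x ≠ y) {k k' : G} (hk1 : k • x = x)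
    (hk2 : k • y = y) (hk1' : k' • x = x) (hk2' : k' • y = y) : k * k' = k' * k := by
  obtain ⟨s, _, _, hs⟩ := h.cyc x y hxy
  obtain ⟨a, ha⟩ := Subgroup.mem_zpowers_iff.1 (hs k hk1 hk2)
  obtain ⟨b, hb⟩ := Subgroup.mem_zpowers_iff.1 (hs k' hk1' hk2')
  rw [← ha, ← hb, ← zpow_add, ← zpow_add, add_comm]

/-- Job F4A1-3. If `g` does not have square one, then `g` and `g * g` have the same fixed points:
if `g • x ≠ x` then `g` interchanges `x` and `g • x`, so `g * g = 1` by `swap`. -/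
theorem f4_sqfix (h : FHyp G Ω) {g : G} (hg : g * g ≠ 1) {x : Ω} (hx : g • g • x = x) :
    g • x = x := by
  by_contra hne
  exact hg (h.swap x (g • x) g (Ne.symm hne) rfl hx)

/-- Job F4A1-4. A cyclic group has only one subgroup of each order (`cmaina_cyc`). -/
theorem f4_mem [Finite G] (h : FHyp G Ω) {x y : Ω} (hxy : x ≠ y) {k k' : G} (hk1 : k • x = x)
    (hk2 : k • y = y) (hk1' : k' • x = x) (hk2' : k' • y = y) (ho : orderOf k = orderOf k') :
    k' ∈ Subgroup.zpowers k := by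
  obtain ⟨s, _, _, hs⟩ := h.cyc x y hxy
  exact cmaina_cyc (hs k hk1 hk2) (hs k' hk1' hk2') ho

theorem f4a1_inv_smul {q : G} {s t : Ω} (hq : q • s = t) : q⁻¹ • t = s := by
  rw [← hq, inv_smul_smul]

theorem f4a1_orderOf_conj (p k : G) : orderOf (p * k * p⁻¹) = orderOf k := by
  have := orderOf_injective (MulAut.conj p).toMonoidHom (MulAut.conj p).injective k
  simpa [MulAut.conj_apply] using this

/-- Job F4A1-5. If `k` fixes `x ≠ y` and `x' ≠ y'` and `g` maps `x, y` to `x', y'` then `g`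
normalizes `zpowers k`: `g * k * g⁻¹` and `k` fix `x'` and `y'` and have the same order
(`f4_mem`); for the second statement take `g⁻¹`, which maps `x', y'` to `x, y`. -/
theorem f4_norm [Finite G] (h : FHyp G Ω) {x y x' y' : Ω} (hxy : x ≠ y) (hxy' : x' ≠ y') {k g : G}
    (hk1 : k • x = x) (hk2 : k • y = y) (hk1' : k • x' = x') (hk2' : k • y' = y')
    (hg1 : g • x = x') (hg2 : g • y = y') :
    g * k * g⁻¹ ∈ Subgroup.zpowers k ∧ g⁻¹ * k * g ∈ Subgroup.zpowers k := by
  constructor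
  · apply f4_mem h hxy' hk1' hk2'
    · rw [mul_smul, mul_smul, f4a1_inv_smul hg1, hk1, hg1]
    · rw [mul_smul, mul_smul, f4a1_inv_smul hg2, hk2, hg2]
    · rw [f4a1_orderOf_conj]
  · apply f4_mem h hxy hk1 hk2
    · rw [mul_smul, mul_smul, hg1, hk1', f4a1_inv_smul hg1]
    · rw [mul_smul, mul_smul, hg2, hk2', f4a1_inv_smul hg2]
    · have := f4a1_orderOf_conj g⁻¹ k
      rw [inv_inv] at this
      exact this.symm

theorem f4a1_orderOf_inv {z : G} (hz : IsInv z) : orderOf z = 2 := by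
  apply orderOf_eq_prime
  · rw [pow_two]; exact hz.2
  · exact hz.1

/-- Job F4A1-6. The stabilizer of two points contains at most one involution: `z' ∈ zpowers z` by
`f4_mem` (both have order 2), `z' = 1` or `z' = z`. -/
theorem f4_inv_unique [Finite G] (h : FHyp G Ω) {x y : Ω} (hxy : x ≠ y) {z z' : G}
    (hz : IsInv z) (hz' : IsInv z') (hk1 : z • x = x) (hk2 : z • y = y) (hk1' : z' • x = x)
    (hk2' : z' • y = y) : z = z' := by
  have hm := f4_mem h hxy hk1 hk2 hk1' hk2'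
    (by rw [f4a1_orderOf_inv hz, f4a1_orderOf_inv hz'])
  obtain ⟨m, hm⟩ := Subgroup.mem_zpowers_iff.1 hm
  have hz2 : z ^ (2 : ℤ) = 1 := by
    rw [zpow_two]; exact hz.2
  rcases Int.even_or_odd' m with ⟨c, hc | hc⟩
  · exfalso
    apply hz'.1
    rw [← hm, hc, zpow_mul, hz2, one_zpow]
  · rw [← hm, hc, zpow_add, zpow_mul, hz2, one_zpow, one_mul, zpow_one]

/-- Job F4A1-7. No element commuting with `k`, `k * k ≠ 1`, interchanges two fixed points of `k`:
by `f4_inv`, `g * k * g = k⁻¹`, and `g * g = 1` by `swap`, so `k = g * g * k = g * k * g = k⁻¹`. -/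
theorem f4_noswap (h : FHyp G Ω) {x y : Ω} (hxy : x ≠ y) {g k : G} (hk : k * k ≠ 1)
    (hk1 : k • x = x) (hk2 : k • y = y) (hgk : g * k = k * g) (hg1 : g • x = y)
    (hg2 : g • y = x) : False := by
  have e1 := f4_inv h hxy hg1 hg2 hk1 hk2
  have e2 := h.swap x y g hxy hg1 hg2
  rw [hgk, mul_assoc, e2, mul_one] at e1
  apply hk
  nth_rw 1 [e1]
  exact inv_mul_cancel k

/-- Job F4A1-8. `QHyp` gives `FHyp4`.

Proof. For `x ≠ y` take `p` with `p • v = x`, `p • w = y` (`two`); the stabilizer of `x, y` is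
`p * zpowers σ * p⁻¹`, so `s = p * σ * p⁻¹` for `cyc`; if `g` interchanges `x` and `y` then
`τ * (p⁻¹ * g * p)` fixes `v` and `w` (`τ • w = v` because `τ * τ = 1`), so `p⁻¹ * g * p = τ * σ ^ i`
and its square is `τ * σ^i * τ * σ^i = (τ * σ * τ)^i * σ^i = 1`. `four`: an element of order
`orderOf σ`, divisible by 4, has a power of order 4 (`σ ^ (orderOf σ / 4)`,
`orderOf_pow_of_dvd`), conjugate by `p` (`orderOf` is invariant under conjugation). -/
theorem f4_of_Q [Finite G] {v w : Ω} {τ j σ : G} (h : QHyp v w τ j σ) : FHyp4 G Ω := by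
  have hτi : τ⁻¹ = τ := inv_eq_of_mul_eq_one_right h.ττ
  have hτw : τ • w = v := by
    rw [← h.τv, ← mul_smul, h.ττ, one_smul]
  refine ⟨⟨h.two, ?_, ?_⟩, ?_⟩
  · intro x y hxy
    obtain ⟨p, hpv, hpw⟩ := h.two v w x y h.vw hxy
    refine ⟨p * σ * p⁻¹, ?_, ?_, ?_⟩
    · rw [mul_smul, mul_smul, f4a1_inv_smul hpv, h.σv, hpv]
    · rw [mul_smul, mul_smul, f4a1_inv_smul hpw, h.σw, hpw]
    · intro g hgx hgy
      have h1 : p⁻¹ * g * p ∈ Subgroup.zpowers σ := by
        apply h.stab2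
        · rw [mul_smul, mul_smul, hpv, hgx, f4a1_inv_smul hpv]
        · rw [mul_smul, mul_smul, hpw, hgy, f4a1_inv_smul hpw]
      obtain ⟨m, hm⟩ := Subgroup.mem_zpowers_iff.1 h1
      rw [Subgroup.mem_zpowers_iff]
      refine ⟨m, ?_⟩
      rw [conj_zpow, hm]
      group
  · intro x y g hxy hgx hgy
    obtain ⟨p, hpv, hpw⟩ := h.two v w x y h.vw hxy
    have h1 : τ * (p⁻¹ * g * p) ∈ Subgroup.zpowers σ := by
      apply h.stab2
      · rw [mul_smul, mul_smul, mul_smul, hpv, hgx, f4a1_inv_smul hpw, hτw]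
      · rw [mul_smul, mul_smul, mul_smul, hpw, hgy, f4a1_inv_smul hpv, h.τv]
    obtain ⟨m, hm⟩ := Subgroup.mem_zpowers_iff.1 h1
    have h2 : p⁻¹ * g * p = τ * σ ^ m := by
      rw [hm, ← mul_assoc, h.ττ, one_mul]
    have h3 : τ * σ ^ m * τ = (σ ^ m)⁻¹ := by
      have := conj_zpow (i := m) (a := τ) (b := σ)
      rw [hτi, h.τσ] at this
      rw [← this, inv_zpow]
    have h4 : (p⁻¹ * g * p) * (p⁻¹ * g * p) = 1 := by
      rw [h2, ← mul_assoc, h3, inv_mul_cancel]
    have h5 : p⁻¹ * (g * g) * p = 1 := by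
      rw [← h4]
      group
    have h6 : g * g = p * (p⁻¹ * (g * g) * p) * p⁻¹ := by group
    rw [h6, h5, mul_one, mul_inv_cancel]
  · intro x y hxy
    obtain ⟨p, hpv, hpw⟩ := h.two v w x y h.vw hxy
    have hpow : ∀ n : ℕ, ∀ u : Ω, σ • u = u → σ ^ n • u = u := by
      intro n u hu
      induction n with
      | zero => rw [pow_zero, one_smul]
      | succ n ih => rw [pow_succ, mul_smul, hu, ih]
    have hN : 0 < orderOf σ := orderOf_pos σ
    refine ⟨p * σ ^ (orderOf σ / 4) * p⁻¹, ?_, ?_, ?_⟩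
    · rw [mul_smul, mul_smul, f4a1_inv_smul hpv, hpow _ _ h.σv, hpv]
    · rw [mul_smul, mul_smul, f4a1_inv_smul hpw, hpow _ _ h.σw, hpw]
    · rw [f4a1_orderOf_conj]
      obtain ⟨c, hc⟩ := h.four
      have hc0 : c ≠ 0 := by
        rintro rfl
        omega
      have h4c : orderOf σ / 4 = c := by omega
      rw [h4c, orderOf_pow_of_dvd hc0 ⟨4, by rw [hc, mul_comm]⟩, hc]
      exact Nat.mul_div_cancel _ (Nat.pos_of_ne_zero hc0)

end Pool.Agent.H.MP_6268b4_co
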