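import Pool.Agent.H.MP_6268b4_co.F4A1

/-!
2-elements of a two-point stabilizer; restriction of a group action to an invariant subset.
-/

namespace Pool.Agent.H.MP_6268b4_co

variable {G Ω : Type*} [Group G] [MulAction G Ω]

/-- Job F4A2-1. Let `z` be the involution fixing `x ≠ y` and `k ≠ 1` a 2-element fixing `x, y`. Then
the fixed points of `z` are fixed points of `k`.

Proof. Induction on `m`. If `k * k = 1` then `k = z` (`f4_inv_unique`). Otherwise `k' = k * k ≠ 1`
fixes `x, y` and `k' ^ 2 ^ (m - 1) = 1` (`m ≠ 0` because `k ≠ 1`), so `k' • u = u` by induction and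
`k • u = u` by `f4_sqfix`. -/
theorem f4_fix2 [Finite G] (h : FHyp G Ω) {x y : Ω} (hxy : x ≠ y) {z : G} (hz : IsInv z)
    (hz1 : z • x = x) (hz2 : z • y = y) {u : Ω} (hu : z • u = u) (m : ℕ) :
    ∀ k : G, k • x = x → k • y = y → k ^ 2 ^ m = 1 → k ≠ 1 → k • u = u := by
  induction m with
  | zero =>
    intro k _ _ hk hne
    exact absurd (by simpa using hk) hne
  | succ m ih =>
    intro k hk1 hk2 hk hne
    by_cases hkk : k * k = 1
    · have hzk : z = k := f4_inv_unique h hxy hz ⟨hne, hkk⟩ hz1 hz2 hk1 hk2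
      rw [← hzk]
      exact hu
    · have h1 := ih (k * k) (by rw [mul_smul, hk1, hk1]) (by rw [mul_smul, hk2, hk2])
        (by rw [← pow_two, ← pow_mul, ← pow_succ']; exact hk) hkk
      rw [mul_smul] at h1
      exact f4_sqfix h hkk h1

/-- Job F4A2-2. Restriction of a subgroup to an invariant subset.

Proof. `f g` is the permutation `x ↦ ⟨g • x, _⟩` of `Δ` with inverse `x ↦ ⟨g⁻¹ • x, _⟩`. -/
theorem f4_restrict (N : Subgroup G) (Δ : Set Ω) (hΔ : ∀ g ∈ N, ∀ x ∈ Δ, g • x ∈ Δ) :
    ∃ f : N →* Equiv.Perm Δ, ∀ (g : N) (x : Δ), ((f g x : Δ) : Ω) = (g : G) • (x : Ω) := by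
  let e : N → Equiv.Perm Δ := fun g =>
    { toFun := fun x => ⟨(g : G) • (x : Ω), hΔ g g.2 x x.2⟩
      invFun := fun x => ⟨(g : G)⁻¹ • (x : Ω), hΔ _ (N.inv_mem g.2) x x.2⟩
      left_inv := fun x => Subtype.ext (inv_smul_smul _ _)
      right_inv := fun x => Subtype.ext (smul_inv_smul _ _) }
  have he : ∀ (g : N) (x : Δ), ((e g x : Δ) : Ω) = (g : G) • (x : Ω) := fun g x => rfl
  refine ⟨MonoidHom.mk' e fun a b => ?_, fun g x => he g x⟩
  ext x
  rw [Equiv.Perm.mul_apply, he, he, he, Subgroup.coe_mul, mul_smul]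

/-- Job F4A2-3. An involution of a finite set of odd size has a fixed point; more generally the
number of fixed points has the parity of the size of the set.

Proof. E.g. `Equiv.Perm.exists_fixed_point_of_prime`, `Equiv.Perm.card_fixedPoints_modEq` for the
permutation `x ↦ t • x` of `Ω`, with `p = 2`, `n = 1`. -/
theorem f4_parity [Finite Ω] {t : G} (ht : t * t = 1) :
    Nat.card {u : Ω // t • u = u} % 2 = Nat.card Ω % 2 := by
  classical
  have : Fintype Ω := Fintype.ofFinite Ω
  have hp : Fact (Nat.Prime 2) := ⟨Nat.prime_two⟩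
  let f : Function.End Ω := fun u => t • u
  have hf : f ^ 2 ^ 1 = 1 := by
    funext u
    change t • (t • u) = u
    rw [smul_smul, ht, one_smul]
  have h1 := Equiv.Perm.card_fixedPoints_modEq (p := 2) (n := 1) hf
  rw [Nat.card_eq_fintype_card, Nat.card_eq_fintype_card]
  have h2 : Fintype.card {u : Ω // t • u = u} = Fintype.card (Function.fixedPoints f) :=
    Fintype.card_congr (Equiv.refl _)
  rw [h2]
  exact h1.symm

end Pool.Agent.H.MP_6268b4_co
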