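import Pool.Agent.H.MP_6268b4_co.F4Om5
import Pool.Agent.H.MP_6268b4_co.F4A2

/-!
The fixed points of the elements of a two-point stabilizer.
-/

namespace Pool.Agent.H.MP_6268b4_co

variable {G Ω : Type*} [Group G] [MulAction G Ω]

/-- The normalizer of `zpowers s`. -/
def f4a3_N (s : G) : Subgroup G where
  carrier := {g | g * s * g⁻¹ ∈ Subgroup.zpowers s ∧ g⁻¹ * s * g ∈ Subgroup.zpowers s}
  one_mem' := by simp
  mul_mem' := by
    rintro a b ⟨ha1, ha2⟩ ⟨hb1, hb2⟩
    obtain ⟨i, hi⟩ := Subgroup.mem_zpowers_iff.1 ha1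
    obtain ⟨i', hi'⟩ := Subgroup.mem_zpowers_iff.1 ha2
    obtain ⟨j, hj⟩ := Subgroup.mem_zpowers_iff.1 hb1
    obtain ⟨j', hj'⟩ := Subgroup.mem_zpowers_iff.1 hb2
    constructor
    · have h1 : a * b * s * (a * b)⁻¹ = a * (b * s * b⁻¹) * a⁻¹ := by group
      rw [h1, ← hj, ← conj_zpow, ← hi, ← zpow_mul]
      exact Subgroup.zpow_mem_zpowers s _
    · have h1 : (a * b)⁻¹ * s * (a * b) = b⁻¹ * (a⁻¹ * s * a) * b⁻¹⁻¹ := by group
      have h2 : b⁻¹ * s * b⁻¹⁻¹ = b⁻¹ * s * b := by group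
      rw [h1, ← hi', ← conj_zpow, h2, ← hj', ← zpow_mul]
      exact Subgroup.zpow_mem_zpowers s _
  inv_mem' := by
    rintro a ⟨ha1, ha2⟩
    exact ⟨by simpa using ha2, by simpa using ha1⟩

theorem f4a3_mem {s g : G} : g ∈ f4a3_N s ↔
    g * s * g⁻¹ ∈ Subgroup.zpowers s ∧ g⁻¹ * s * g ∈ Subgroup.zpowers s := Iff.rfl

/-- An element commuting with `s` is in the normalizer. -/
theorem f4a3_comm {s g : G} (h : g * s = s * g) : g ∈ f4a3_N s := by
  rw [f4a3_mem]
  have h1 : g * s * g⁻¹ = s := by rw [h]; group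
  have h2 : g⁻¹ * s * g = s := by rw [mul_assoc, ← h]; group
  rw [h1, h2]
  exact ⟨Subgroup.mem_zpowers s, Subgroup.mem_zpowers s⟩

/-- A power of `s` fixes what `s` fixes. -/
theorem f4a3_zpow {s g : G} (hg : g ∈ Subgroup.zpowers s) {u : Ω} (hu : s • u = u) :
    g • u = u := by
  obtain ⟨k, rfl⟩ := Subgroup.mem_zpowers_iff.1 hg
  have h1 : s ∈ MulAction.stabilizer G u := hu
  exact Subgroup.zpow_mem _ h1 k

/-- The normalizer preserves the fixed points. -/
theorem f4a3_pres {s g : G} (hg : g ∈ f4a3_N s) {u : Ω} (hu : s • u = u) : s • g • u = g • u := by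
  have h1 := f4a3_zpow hg.2 hu
  have h2 : s • g • u = g • ((g⁻¹ * s * g) • u) := by
    simp only [smul_smul]
    congr 1
    group
  rw [h2, h1]

/-- Commutators of elements of the normalizer commute with `s`. -/
theorem f4a3_commutator {s g k : G} (hg : g ∈ f4a3_N s) (hk : k ∈ f4a3_N s) :
    (g * k * g⁻¹ * k⁻¹) * s = s * (g * k * g⁻¹ * k⁻¹) := by
  obtain ⟨a, ha⟩ := Subgroup.mem_zpowers_iff.1 hg.2
  obtain ⟨b, hb⟩ := Subgroup.mem_zpowers_iff.1 hk.2
  have e1 : g⁻¹ * (k⁻¹ * s * k) * g = s ^ (a * b) := by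
    have h2 : g⁻¹ * s * g⁻¹⁻¹ = g⁻¹ * s * g := by group
    have h3 : g⁻¹ * (s ^ b) * g = g⁻¹ * (s ^ b) * g⁻¹⁻¹ := by group
    rw [← hb, h3, ← conj_zpow, h2, ← ha, ← zpow_mul]
  have e2 : k⁻¹ * (g⁻¹ * s * g) * k = s ^ (a * b) := by
    have h2 : k⁻¹ * s * k⁻¹⁻¹ = k⁻¹ * s * k := by group
    have h3 : k⁻¹ * (s ^ a) * k = k⁻¹ * (s ^ a) * k⁻¹⁻¹ := by group
    rw [← ha, h3, ← conj_zpow, h2, ← hb, ← zpow_mul, mul_comm]
  have e3 : g⁻¹ * (k⁻¹ * s * k) * g = k⁻¹ * (g⁻¹ * s * g) * k := e1.trans e2.symm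
  have e4 : s = k * g * (g⁻¹ * (k⁻¹ * s * k) * g) * (k * g)⁻¹ := by group
  rw [e3] at e4
  -- s = k g k⁻¹ g⁻¹ s g k g⁻¹ k⁻¹
  have e5 : k * g * (k⁻¹ * (g⁻¹ * s * g) * k) * (k * g)⁻¹ =
      (g * k * g⁻¹ * k⁻¹)⁻¹ * s * (g * k * g⁻¹ * k⁻¹) := by group
  rw [e5] at e4
  calc (g * k * g⁻¹ * k⁻¹) * s
      = (g * k * g⁻¹ * k⁻¹) * ((g * k * g⁻¹ * k⁻¹)⁻¹ * s * (g * k * g⁻¹ * k⁻¹)) := by rw [← e4]
    _ = s * (g * k * g⁻¹ * k⁻¹) := by group

/-- Job F4A3-1. Let `s` fix `x ≠ y`, `orderOf s = 4`, and suppose `s` has at least three fixed points.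
Then the number of fixed points of `s` is odd and all `g` fixing `x` and `y` fix all of them.

Proof. Let `Δ = {u | s • u = u}`, `z = s * s` the involution fixing `x, y` (`f4_inv_unique`). Since
`s * s ≠ 1`, `z` has the same fixed points as `s` (`f4_sqfix`). Let `N = {g | g * s * g⁻¹ ∈ zpowers s and
g⁻¹ * s * g ∈ zpowers s}` (the normalizer) and `C ≤ N` the elements commuting with `s`. `N` preserves
`Δ`. Let `f : N →* Perm Δ` be the restriction (`f4_restrict`), `X = f.range` and `Y` the image of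
`C`. `OHyp X Y`: `two`: for pairs in `Δ` take `g` by `h.two`, then `g ∈ N` by `f4_norm`. `cyc`: take the
generator `s₁` of the stabilizer of `x', y' ∈ Δ`; it commutes with `s ∈ zpowers s₁`, so is in `N`.
`swap`: from `h.swap`. `odd`: let `g ∈ N` fix `x' ≠ y'` in `Δ`, `orderOf g = 2 ^ i * m`, `m` odd
(`Nat.exists_eq_two_pow_mul_odd`). `g ^ m` is `1` or a 2-element `≠ 1` fixing `x', y'`, so it acts
trivially on `Δ` by `f4_fix2` (`z` fixes all points of `Δ`); so `f g ^ m = 1` and
`orderOf (f g)` divides `m`. `comm`: for `g, k ∈ N`: `g * s * g⁻¹ = s ^ a`, `k * s * k⁻¹ = s ^ b`, so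
`g * k * g⁻¹ * k⁻¹` commutes with `s` (both products `g k` and `k g` conjugate `s` to `s ^ (a b)`).
`noswap`: `f4_noswap` with `k = s`. Now `om_Y` gives the parity and `om_omega` that elements of `X`
fixing two points of `Δ` are trivial; `g` fixing `x, y` commutes with `s` (`f4_comm`), so it is in `N`,
and `f g = 1`. -/
theorem f4_lam4 [Finite G] [Finite Ω] (h : FHyp4 G Ω) {x y : Ω} (hxy : x ≠ y) {s : G}
    (hs : orderOf s = 4) (hsx : s • x = x) (hsy : s • y = y)
    (h3 : ∃ u : Ω, u ≠ x ∧ u ≠ y ∧ s • u = u) :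
    Odd (Nat.card {u : Ω // s • u = u}) ∧
    ∀ g : G, g • x = x → g • y = y → ∀ u : Ω, s • u = u → g • u = u := by
  have h' : FHyp G Ω := h.toFHyp
  have hss : s * s ≠ 1 := by
    intro he
    have h1 : s ^ 2 = 1 := by rw [pow_two]; exact he
    have := orderOf_dvd_of_pow_eq_one h1
    rw [hs] at this
    exact absurd this (by decide)
  have hzinv : IsInv (s * s) := by
    refine ⟨hss, ?_⟩
    have := pow_orderOf_eq_one s
    rw [hs] at this
    calc s * s * (s * s) = s ^ 4 := by simp [pow_succ, mul_assoc]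
      _ = 1 := this
  set Δ : Set Ω := {u | s • u = u} with hΔ
  have hpres : ∀ g ∈ f4a3_N s, ∀ u ∈ Δ, g • u ∈ Δ := fun g hg u hu => f4a3_pres hg hu
  obtain ⟨f, hf⟩ := f4_restrict (f4a3_N s) Δ hpres
  have hzfix : ∀ u ∈ Δ, (s * s) • u = u := by
    intro u hu
    have hu' : s • u = u := hu
    rw [mul_smul, hu', hu']
  set X : Subgroup (Equiv.Perm Δ) := f.range with hX
  set Y : Subgroup (Equiv.Perm Δ) :=
    ((Subgroup.centralizer {s}).comap (f4a3_N s).subtype).map f with hY
  have hcen : ∀ g : G, g ∈ Subgroup.centralizer {s} ↔ g * s = s * g := by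
    intro g
    rw [Subgroup.mem_centralizer_iff]
    constructor
    · intro h1
      exact (h1 s rfl).symm
    · intro h1 k hk
      rw [Set.mem_singleton_iff] at hk
      rw [hk, h1]
  have hO : OHyp X Y := by
    refine ⟨?_, ?_, ?_, ?_, ?_, ?_, ?_⟩
    · intro a b a' b' hab hab'
      have hne : (a : Ω) ≠ b := fun e => hab (Subtype.ext e)
      have hne' : (a' : Ω) ≠ b' := fun e => hab' (Subtype.ext e)
      obtain ⟨g, hg1, hg2⟩ := h.two a b a' b' hne hne'
      have hgN : g ∈ f4a3_N s := f4_norm h' hne hne' a.2 b.2 a'.2 b'.2 hg1 hg2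
      refine ⟨f ⟨g, hgN⟩, ⟨_, rfl⟩, ?_, ?_⟩
      · exact Subtype.ext ((hf _ _).trans hg1)
      · exact Subtype.ext ((hf _ _).trans hg2)
    · intro a b hab
      have hne : (a : Ω) ≠ b := fun e => hab (Subtype.ext e)
      obtain ⟨s₁, h1, h2, h4⟩ := h.cyc a b hne
      have hs1 : s ∈ Subgroup.zpowers s₁ := h4 s a.2 b.2
      obtain ⟨k, hk⟩ := Subgroup.mem_zpowers_iff.1 hs1
      have hc : s₁ * s = s * s₁ := by
        rw [← hk]
        exact (Commute.refl s₁).zpow_right k
      have hN : s₁ ∈ f4a3_N s := f4a3_comm hc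
      refine ⟨f ⟨s₁, hN⟩, ⟨_, rfl⟩, Subtype.ext ((hf _ _).trans h1),
        Subtype.ext ((hf _ _).trans h2), ?_⟩
      rintro _ ⟨g, rfl⟩ hga hgb
      have hga' : (g : G) • (a : Ω) = a := by
        rw [← hf g a, hga]
      have hgb' : (g : G) • (b : Ω) = b := by
        rw [← hf g b, hgb]
      obtain ⟨i, hi⟩ := Subgroup.mem_zpowers_iff.1 (h4 g hga' hgb')
      rw [Subgroup.mem_zpowers_iff]
      refine ⟨i, ?_⟩
      rw [← map_zpow]
      congr 1
      exact Subtype.ext hi
    · rintro a b _ ⟨g, rfl⟩ hab hga hgb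
      have hne : (a : Ω) ≠ b := fun e => hab (Subtype.ext e)
      have hga' : (g : G) • (a : Ω) = b := by
        rw [← hf g a, hga]
      have hgb' : (g : G) • (b : Ω) = a := by
        rw [← hf g b, hgb]
      have h1 := h.swap a b g hne hga' hgb'
      rw [← map_mul]
      have h2 : g * g = 1 := Subtype.ext h1
      rw [h2, map_one]
    · rintro a b _ ⟨g, rfl⟩ hab hga hgb
      have hne : (a : Ω) ≠ b := fun e => hab (Subtype.ext e)
      have hga' : (g : G) • (a : Ω) = a := by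
        rw [← hf g a, hga]
      have hgb' : (g : G) • (b : Ω) = b := by
        rw [← hf g b, hgb]
      have hpos : 0 < orderOf (g : G) := orderOf_pos _
      obtain ⟨i, m, hm, him⟩ := Nat.exists_eq_two_pow_mul_odd hpos.ne'
      have h1 : f g ^ m = 1 := by
        rw [← map_pow]
        ext u
        rw [hf]
        show ((g ^ m : f4a3_N s) : G) • (u : Ω) = u
        rw [Subgroup.coe_pow]
        by_cases h4 : (g : G) ^ m = 1
        · rw [h4, one_smul]
        · have hfa : ((g : G) ^ m) • (a : Ω) = a := by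
            have : (g : G) ∈ MulAction.stabilizer G (a : Ω) := hga'
            exact Subgroup.pow_mem _ this m
          have hfb : ((g : G) ^ m) • (b : Ω) = b := by
            have : (g : G) ∈ MulAction.stabilizer G (b : Ω) := hgb'
            exact Subgroup.pow_mem _ this m
          have h5 : ((g : G) ^ m) ^ 2 ^ i = 1 := by
            rw [← pow_mul, mul_comm, ← him]
            exact pow_orderOf_eq_one _
          exact f4_fix2 h' hne hzinv (hzfix a a.2) (hzfix b b.2) (hzfix u u.2) i _ hfa hfb h5 h4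
      have h2 := orderOf_dvd_of_pow_eq_one h1
      exact Odd.of_dvd_nat hm h2
    · rintro _ ⟨g, _, rfl⟩
      exact ⟨g, rfl⟩
    · rintro _ ⟨g, rfl⟩ _ ⟨k, rfl⟩
      refine ⟨g * k * g⁻¹ * k⁻¹, ?_, by simp⟩
      show ((g * k * g⁻¹ * k⁻¹ : f4a3_N s) : G) ∈ Subgroup.centralizer {s}
      rw [hcen]
      have := f4a3_commutator g.2 k.2
      simpa using this
    · rintro _ ⟨g, hg, rfl⟩ a b hab hga hgb
      have hne : (a : Ω) ≠ b := fun e => hab (Subtype.ext e)
      have hga' : (g : G) • (a : Ω) = b := by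
        rw [← hf g a, hga]
      have hgb' : (g : G) • (b : Ω) = a := by
        rw [← hf g b, hgb]
      have hg' : (g : G) ∈ Subgroup.centralizer {s} := hg
      rw [hcen] at hg'
      exact f4_noswap h' hne hss a.2 b.2 hg' hga' hgb'
  have hcard : 3 ≤ Nat.card Δ := by
    obtain ⟨u, hux, huy, hu⟩ := h3
    have hinj : Function.Injective (fun i : Fin 3 => (![⟨x, hsx⟩, ⟨y, hsy⟩, ⟨u, hu⟩] i : Δ)) := by
      intro i j hij
      fin_cases i <;> fin_cases j <;> simp_all [Subtype.ext_iff, Ne.symm, eq_comm]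
    have := Nat.card_le_card_of_injective _ hinj
    simpa using this
  have hYr := om_Y hO hcard
  refine ⟨hYr.2.2, ?_⟩
  intro g hgx hgy u hu
  have hc : g * s = s * g := f4_comm h' hxy hgx hgy hsx hsy
  have hN : g ∈ f4a3_N s := f4a3_comm hc
  have hne : (⟨x, hsx⟩ : Δ) ≠ ⟨y, hsy⟩ := fun e => hxy (congrArg Subtype.val e)
  have h1 := om_omega (Nat.card Δ) Δ X Y rfl hcard hO (f ⟨g, hN⟩) ⟨_, rfl⟩ ⟨x, hsx⟩ ⟨y, hsy⟩ hne
    (Subtype.ext ((hf _ _).trans hgx)) (Subtype.ext ((hf _ _).trans hgy))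
  have h2 := hf ⟨g, hN⟩ ⟨u, hu⟩
  rw [h1] at h2
  exact h2.symm

/-- Job F4A3-2. Nontrivial elements fixing `x ≠ y` have the same fixed points, and their number is 2
or odd.

Proof. Let `s` be of order 4, fixing `x, y` (`four`), `z = s * s`. (1) Every `g` fixing `x, y` fixes all
fixed points of `s`: if `s` fixes only `x, y` clear, otherwise `f4_lam4`. (2) If `g ≠ 1` fixes `x, y` and
`g • u = u` then `s • u = u`: if `g * g = 1` then `g = z` (`f4_inv_unique`), `z • u = u` and `s • u = u`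
by `f4_sqfix`. If `g * g ≠ 1` and `z • u ≠ u`: `z` commutes with `g` (`f4_comm`), so `g` fixes `u` and
`z • u`, and `z` interchanges them: contradiction to `f4_noswap` (with `k = g`). So `z • u = u` and
`s • u = u`. Now `g • u = u` gives `s • u = u` and `g' • u = u`. For the number: the fixed points of `g`
are those of `s`. -/
theorem f4_fix [Finite G] [Finite Ω] (h : FHyp4 G Ω) {x y : Ω} (hxy : x ≠ y) {g : G}
    (hg : g ≠ 1) (hgx : g • x = x) (hgy : g • y = y) :
    (∀ g' : G, g' • x = x → g' • y = y → ∀ u : Ω, g • u = u → g' • u = u) ∧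
    ((∀ u : Ω, g • u = u → u = x ∨ u = y) ∨ Odd (Nat.card {u : Ω // g • u = u})) := by
  have h' : FHyp G Ω := h.toFHyp
  obtain ⟨s, hsx, hsy, hs⟩ := h.four x y hxy
  have hss : s * s ≠ 1 := by
    intro he
    have h1 : s ^ 2 = 1 := by rw [pow_two]; exact he
    have := orderOf_dvd_of_pow_eq_one h1
    rw [hs] at this
    exact absurd this (by decide)
  have hzinv : IsInv (s * s) := by
    refine ⟨hss, ?_⟩
    have := pow_orderOf_eq_one s
    rw [hs] at this
    calc s * s * (s * s) = s ^ 4 := by simp [pow_succ, mul_assoc]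
      _ = 1 := this
  have hzx : (s * s) • x = x := by rw [mul_smul, hsx, hsx]
  have hzy : (s * s) • y = y := by rw [mul_smul, hsy, hsy]
  have hzs : ∀ u : Ω, (s * s) • u = u → s • u = u := by
    intro u hu
    rw [mul_smul] at hu
    exact f4_sqfix h' hss hu
  -- (1)
  have p1 : ∀ g' : G, g' • x = x → g' • y = y → ∀ u : Ω, s • u = u → g' • u = u := by
    intro g' hx' hy' u hu
    by_cases h3 : ∃ u : Ω, u ≠ x ∧ u ≠ y ∧ s • u = u
    · exact (f4_lam4 h hxy hs hsx hsy h3).2 g' hx' hy' u hu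
    · by_cases hux : u = x
      · rw [hux]; exact hx'
      · by_cases huy : u = y
        · rw [huy]; exact hy'
        · exact absurd ⟨u, hux, huy, hu⟩ h3
  -- (2)
  have p2 : ∀ u : Ω, g • u = u → s • u = u := by
    intro u hu
    by_cases hgg : g * g = 1
    · have h1 : g = s * s := f4_inv_unique h' hxy ⟨hg, hgg⟩ hzinv hgx hgy hzx hzy
      rw [h1] at hu
      exact hzs u hu
    · by_cases hzu : (s * s) • u = u
      · exact hzs u hzu
      · exfalso
        have hc : (s * s) * g = g * (s * s) := f4_comm h' hxy hzx hzy hgx hgy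
        have h1 : g • ((s * s) • u) = (s * s) • u := by
          rw [smul_smul, ← hc, mul_smul, hu]
        have h2 : (s * s) • ((s * s) • u) = u := by
          rw [smul_smul, hzinv.2, one_smul]
        exact f4_noswap h' (x := u) (y := (s * s) • u) (g := s * s) (k := g)
          (Ne.symm hzu) hgg hu h1 hc rfl h2
  refine ⟨fun g' hx' hy' u hu => p1 g' hx' hy' u (p2 u hu), ?_⟩
  by_cases h3 : ∃ u : Ω, u ≠ x ∧ u ≠ y ∧ s • u = u
  · right
    have h1 := (f4_lam4 h hxy hs hsx hsy h3).1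
    have h2 : Nat.card {u : Ω // g • u = u} = Nat.card {u : Ω // s • u = u} := by
      apply Nat.card_congr
      exact Equiv.subtypeEquivRight fun u => ⟨p2 u, p1 g hgx hgy u⟩
    rw [h2]
    exact h1
  · left
    intro u hu
    by_contra hn
    rw [not_or] at hn
    exact h3 ⟨u, hn.1, hn.2, p2 u hu⟩

/-- Job F4A3-3. Two cases.

Proof. If there are `g ≠ 1` and three different points fixed by `g` then `LHyp`: all two-point
stabilizers are conjugate (`two`), so for every `x ≠ y` there is `g ≠ 1` fixing `x, y` and a third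
point; by `f4_fix` every nontrivial element fixing `x, y` has the same fixed points, at least three, so
the second alternative of `f4_fix` holds. Otherwise `ZHyp`. -/
theorem f4_cases [Finite G] [Finite Ω] (h : FHyp4 G Ω) : LHyp G Ω ∨ ZHyp G Ω := by
  by_cases hex : ∃ (g : G) (x y u : Ω), g ≠ 1 ∧ x ≠ y ∧ x ≠ u ∧ y ≠ u ∧ g • x = x ∧ g • y = y ∧
      g • u = u
  · left
    obtain ⟨g₀, a, b, c, hg₀, hab, hac, hbc, ha, hb, hc⟩ := hex
    refine ⟨h, ?_, ?_⟩
    · intro g g' x y u hxy hg hgx hgy hgx' hgy' hu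
      exact (f4_fix h hxy hg hgx hgy).1 g' hgx' hgy' u hu
    · intro g x y hxy hg hgx hgy
      rcases (f4_fix h hxy hg hgx hgy).2 with h1 | h1
      · exfalso
        obtain ⟨p, hpa, hpb⟩ := h.two a b x y hab hxy
        have e1 : (p * g₀ * p⁻¹) • x = x := by
          rw [← hpa, smul_smul]
          have : p * g₀ * p⁻¹ * p = p * g₀ := by group
          rw [this, mul_smul, ha]
        have e2 : (p * g₀ * p⁻¹) • y = y := by
          rw [← hpb, smul_smul]
          have : p * g₀ * p⁻¹ * p = p * g₀ := by group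
          rw [this, mul_smul, hb]
        have e3 : (p * g₀ * p⁻¹) • (p • c) = p • c := by
          rw [smul_smul]
          have : p * g₀ * p⁻¹ * p = p * g₀ := by group
          rw [this, mul_smul, hc]
        have e4 : p * g₀ * p⁻¹ ≠ 1 := by
          intro he
          apply hg₀
          have : g₀ = p⁻¹ * (p * g₀ * p⁻¹) * p := by group
          rw [this, he]
          group
        have e5 := (f4_fix h hxy e4 e1 e2).1 g hgx hgy (p • c) e3
        rcases h1 (p • c) e5 with h2 | h2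
        · rw [← hpa] at h2
          exact hac (MulAction.injective p h2).symm
        · rw [← hpb] at h2
          exact hbc (MulAction.injective p h2).symm
      · exact h1
  · right
    refine ⟨h, ?_⟩
    intro g x y u hxy hxu hyu hgx hgy hgu
    by_contra hg
    exact hex ⟨g, x, y, u, hg, hxy, hxu, hyu, hgx, hgy, hgu⟩

end Pool.Agent.H.MP_6268b4_co
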