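import Pool.Agent.H.MP_6268b4_co.F4A2

/-!
Involutions in a group with `LHyp`.
-/

namespace Pool.Agent.H.MP_6268b4_co

variable {G Ω : Type*} [Group G] [MulAction G Ω]

/-- Job F4B1-1. Proof: `s * s` for `s` of order 4 (`four`). -/
theorem lb_exists_inv (h : FHyp4 G Ω) {x y : Ω} (hxy : x ≠ y) :
    ∃ z : G, IsInv z ∧ z • x = x ∧ z • y = y := by
  obtain ⟨s, h1, h2, h4⟩ := h.four x y hxy
  refine ⟨s * s, ⟨?_, ?_⟩, ?_, ?_⟩
  · intro he
    have h3 : s ^ 2 = 1 := by rw [pow_two]; exact he
    have h5 := orderOf_dvd_of_pow_eq_one h3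
    rw [h4] at h5
    exact absurd h5 (by decide)
  · have h5 := pow_orderOf_eq_one s
    rw [h4] at h5
    calc s * s * (s * s) = s ^ 4 := by simp [pow_succ, mul_assoc]
      _ = 1 := h5
  · rw [mul_smul, h1, h1]
  · rw [mul_smul, h2, h2]

/-- Job F4B1-2. Let `t` be an involution fixing `x ≠ y` and also `g • x`, `g • y`. Then `g` commutes
with `t`: `g * t * g⁻¹` and `t` are involutions fixing `g • x ≠ g • y` (`f4_inv_unique`). -/
theorem lb_comm_of [Finite G] (h : FHyp G Ω) {x y : Ω} (hxy : x ≠ y) {t g : G} (ht : IsInv t)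
    (hx : t • x = x) (hy : t • y = y) (hgx : t • g • x = g • x) (hgy : t • g • y = g • y) :
    g * t = t * g := by
  have hne : g • x ≠ g • y := fun e => hxy (MulAction.injective g e)
  have h1 : (g * t * g⁻¹) • g • x = g • x := by
    rw [mul_smul, mul_smul, inv_smul_smul, hx]
  have h2 : (g * t * g⁻¹) • g • y = g • y := by
    rw [mul_smul, mul_smul, inv_smul_smul, hy]
  have hi : IsInv (g * t * g⁻¹) := by
    refine ⟨?_, ?_⟩
    · intro e
      apply ht.1
      calc t = g⁻¹ * (g * t * g⁻¹) * g := by group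
        _ = 1 := by rw [e]; group
    · calc g * t * g⁻¹ * (g * t * g⁻¹) = g * (t * t) * g⁻¹ := by group
        _ = 1 := by rw [ht.2]; group
  have h3 := f4_inv_unique h hne hi ht h1 h2 hgx hgy
  calc g * t = (g * t * g⁻¹) * g := by group
    _ = t * g := by rw [h3]

/-- Job F4B1-3. An element interchanging two fixed points of `t` commutes with `t`
(`lb_comm_of`). -/
theorem lb_swap_comm [Finite G] (h : FHyp G Ω) {x y : Ω} (hxy : x ≠ y) {t g : G}
    (ht : IsInv t) (hx : t • x = x) (hy : t • y = y) (h1 : g • x = y) (h2 : g • y = x) :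
    g * t = t * g := by
  apply lb_comm_of h hxy ht hx hy
  · rw [h1]; exact hy
  · rw [h2]; exact hx

/-- Job F4B1-4. `Ω` has odd size: an involution fixing two points has an odd number of fixed points
(`LHyp.odd`), and the parity is that of `Nat.card Ω` (`f4_parity`). -/
theorem lb_card_odd [Finite G] [Finite Ω] (h : LHyp G Ω) (hne : ∃ x y : Ω, x ≠ y) :
    Odd (Nat.card Ω) := by
  obtain ⟨x, y, hxy⟩ := hne
  obtain ⟨z, hz, hzx, hzy⟩ := lb_exists_inv h.toFHyp4 hxy
  have h1 := h.odd z x y hxy hz.1 hzx hzy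
  have h2 := f4_parity (Ω := Ω) hz.2
  rw [Nat.odd_iff] at h1 ⊢
  rw [← h2]; exact h1

/-- Job F4B1-5. Every involution has an odd number of fixed points, in particular at least one
(`lb_card_odd`, `f4_parity`). -/
theorem lb_fixed_odd [Finite G] [Finite Ω] (h : LHyp G Ω) (hne : ∃ x y : Ω, x ≠ y) {t : G}
    (ht : t * t = 1) : Odd (Nat.card {u : Ω // t • u = u}) ∧ ∃ u : Ω, t • u = u := by
  have h1 := lb_card_odd h hne
  have h2 := f4_parity (Ω := Ω) ht
  have h3 : Odd (Nat.card {u : Ω // t • u = u}) := by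
    rw [Nat.odd_iff] at h1 ⊢
    rw [h2]; exact h1
  refine ⟨h3, ?_⟩
  have h4 : Nat.card {u : Ω // t • u = u} ≠ 0 := by
    intro e
    rw [e] at h3
    exact absurd h3 (by decide)
  obtain ⟨⟨⟨u, hu⟩⟩, _⟩ := Nat.card_ne_zero.1 h4
  exact ⟨u, hu⟩

/-- Job F4B1-6. Let `t` be an involution with two fixed points and `e * e = 1`, `e` commuting with
`t`. Then `t` and `e` have a common fixed point.

Proof. `e` acts on the set of fixed points of `t`, of odd size (`LHyp.odd`), so it has a fixed
point there (`f4_parity` for the action of `zpowers e` or of the centralizer of `t` on this set, or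
`Equiv.Perm.exists_fixed_point_of_prime`). -/
theorem lb_common [Finite G] [Finite Ω] (h : LHyp G Ω) {x y : Ω} (hxy : x ≠ y) {t e : G}
    (ht : IsInv t) (hx : t • x = x) (hy : t • y = y) (he : e * e = 1) (hte : t * e = e * t) :
    ∃ c : Ω, t • c = c ∧ e • c = c := by
  classical
  have : Fintype Ω := Fintype.ofFinite Ω
  have hp : Fact (Nat.Prime 2) := ⟨Nat.prime_two⟩
  have hmap : ∀ u : Ω, t • u = u → t • e • u = e • u := by
    intro u hu
    rw [← mul_smul, hte, mul_smul, hu]
  let f : Function.End {u : Ω // t • u = u} := fun u => ⟨e • (u : Ω), hmap u u.2⟩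
  have hf : f ^ 2 ^ 1 = 1 := by
    funext u
    apply Subtype.ext
    change e • (e • (u : Ω)) = u
    rw [smul_smul, he, one_smul]
  have h1 := Equiv.Perm.card_fixedPoints_modEq (p := 2) (n := 1) hf
  have h2 := h.odd t x y hxy ht.1 hx hy
  rw [Nat.card_eq_fintype_card] at h2
  have h3 : Fintype.card (Function.fixedPoints f) ≠ 0 := by
    intro e0
    rw [e0] at h1
    rw [Nat.odd_iff] at h2
    have h5 : Fintype.card {u : Ω // t • u = u} % 2 = 0 % 2 := h1
    rw [h2] at h5
    exact absurd h5 (by decide)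
  have h4 : 0 < Fintype.card (Function.fixedPoints f) := Nat.pos_of_ne_zero h3
  obtain ⟨⟨u, hu⟩⟩ := Fintype.card_pos_iff.1 h4
  refine ⟨u, u.2, ?_⟩
  have h5 : f u = u := hu
  exact congrArg Subtype.val h5

/-- Job F4B1-7. Different involutions have at most one common fixed point (`f4_inv_unique`). -/
theorem lb_common_unique [Finite G] (h : FHyp G Ω) {t e : G} (ht : IsInv t) (he : IsInv e)
    (hte : t ≠ e) {c c' : Ω} (h1 : t • c = c) (h2 : e • c = c) (h3 : t • c' = c')
    (h4 : e • c' = c') : c = c' := by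
  by_contra hne
  exact hte (f4_inv_unique h hne ht he h1 h3 h2 h4)

end Pool.Agent.H.MP_6268b4_co
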