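import Pool.Agent.H.MP_6268b4_co.F4B8

/-!
The case `π ∣ r`: every `π`-subgroup is contained in one of the groups `R f`.
-/

namespace Pool.Agent.H.MP_6268b4_co

variable {G Ω : Type*} [Group G] [MulAction G Ω]

/-- The number of pairs of different points. -/
theorem f4b9_pairs [Finite Ω] :
    Nat.card {p : Ω × Ω // p.1 ≠ p.2} = Nat.card Ω * (Nat.card Ω - 1) := by
  classical
  have : Fintype Ω := Fintype.ofFinite Ω
  have h1 : Nat.card {p : Ω × Ω // p.1 ≠ p.2} = (Finset.univ : Finset Ω).offDiag.card := by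
    rw [Nat.card_eq_fintype_card, Fintype.card_subtype]
    congr 1
    ext p
    simp
  rw [h1, Finset.offDiag_card, Finset.card_univ, Nat.card_eq_fintype_card, Nat.mul_sub,
    Nat.mul_one]

/-- The order of the group. -/
theorem f4b9_card [Finite G] [Finite Ω] (h : TwoTrans G Ω)
    (hne : ∃ x y : Ω, x ≠ y) {r : ℕ}
    (hr : ∀ x y : Ω, x ≠ y → Nat.card {g : G // g • x = x ∧ g • y = y} = r) :
    Nat.card G = Nat.card Ω * (Nat.card Ω - 1) * r := by
  classical
  obtain ⟨x, y, hxy⟩ := hne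
  have hP : Fintype {p : Ω × Ω // p.1 ≠ p.2} := Fintype.ofFinite _
  let φ : G → {p : Ω × Ω // p.1 ≠ p.2} := fun g =>
    ⟨(g • x, g • y), fun e => hxy (MulAction.injective g e)⟩
  have h1 : Nat.card G = Nat.card (Σ p, {g : G // φ g = p}) :=
    (Nat.card_congr (Equiv.sigmaFiberEquiv φ)).symm
  have h2 : ∀ p, Nat.card {g : G // φ g = p} = r := by
    rintro ⟨⟨a, b⟩, hab⟩
    obtain ⟨g0, hg1, hg2⟩ := h x y a b hxy hab
    rw [← hr x y hxy]
    apply Nat.card_congr
    exact
      { toFun := fun g => ⟨g0⁻¹ * (g : G), by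
          have h3 := congrArg Subtype.val g.2
          have h4 : (g : G) • x = a := congrArg Prod.fst h3
          rw [mul_smul, h4, ← hg1, inv_smul_smul], by
          have h3 := congrArg Subtype.val g.2
          have h4 : (g : G) • y = b := congrArg Prod.snd h3
          rw [mul_smul, h4, ← hg2, inv_smul_smul]⟩
        invFun := fun g => ⟨g0 * (g : G), by
          apply Subtype.ext
          apply Prod.ext
          · show (g0 * (g : G)) • x = a
            rw [mul_smul, g.2.1, hg1]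
          · show (g0 * (g : G)) • y = b
            rw [mul_smul, g.2.2, hg2]⟩
        left_inv := fun g => Subtype.ext (mul_inv_cancel_left _ _)
        right_inv := fun g => Subtype.ext (inv_mul_cancel_left _ _) }
  rw [h1, Nat.card_sigma, Finset.sum_congr rfl (fun p _ => h2 p), Finset.sum_const,
    Finset.card_univ, smul_eq_mul, ← Nat.card_eq_fintype_card, f4b9_pairs]

theorem f4b9_isInv {t : G} (g : G) (ht : IsInv t) : IsInv (g⁻¹ * t * g) := by
  refine ⟨?_, ?_⟩
  · intro h1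
    apply ht.1
    calc t = g * (g⁻¹ * t * g) * g⁻¹ := by group
      _ = 1 := by rw [h1]; group
  · calc g⁻¹ * t * g * (g⁻¹ * t * g) = g⁻¹ * (t * t) * g := by group
      _ = 1 := by rw [ht.2]; group

theorem f4b9_perp {t e : G} (g : G) (h : Perp t e) : Perp (g⁻¹ * t * g) (g⁻¹ * e * g) := by
  refine ⟨f4b9_isInv g h.1, f4b9_isInv g h.2.1, ?_, ?_⟩
  · intro h1
    apply h.2.2.1
    calc t = g * (g⁻¹ * t * g) * g⁻¹ := by group
      _ = g * (g⁻¹ * e * g) * g⁻¹ := by rw [h1]
      _ = e := by group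
  · calc g⁻¹ * t * g * (g⁻¹ * e * g) = g⁻¹ * (t * e) * g := by group
      _ = g⁻¹ * (e * t) * g := by rw [h.2.2.2]
      _ = g⁻¹ * e * g * (g⁻¹ * t * g) := by group

theorem f4b9_carrier {π : ℕ} {R : G → Subgroup G}
    (hR : ∀ t : G, IsInv t → RProp Ω π t (R t)) {t : G} (ht : IsInv t) {g k : G}
    (hk : g * k * g⁻¹ ∈ R t) : k ∈ R (g⁻¹ * t * g) := by
  obtain ⟨e, e', he, he', h1⟩ := ((hR t ht).carrier _).1 hk
  rw [(hR _ (f4b9_isInv g ht)).carrier]
  refine ⟨g⁻¹ * e * g, g⁻¹ * e' * g, f4b9_perp g he, f4b9_perp g he', ?_⟩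
  calc k = g⁻¹ * (g * k * g⁻¹) * g := by group
    _ = g⁻¹ * (e * e') * g := by rw [h1]
    _ = g⁻¹ * e * g * (g⁻¹ * e' * g) := by group

theorem f4b9_zpowers {π : ℕ} {k : G} (hk : k ^ π = 1) : IsPGroup π (Subgroup.zpowers k) := by
  rintro ⟨x, hx⟩
  obtain ⟨i, rfl⟩ := Subgroup.mem_zpowers_iff.1 hx
  refine ⟨1, Subtype.ext ?_⟩
  show (k ^ i) ^ π ^ 1 = 1
  rw [pow_one, ← zpow_natCast, ← zpow_mul, mul_comm, zpow_mul, zpow_natCast, hk, one_zpow]

theorem f4b9_sup {π : ℕ} {k u : G} (hk : k ^ π = 1) (hu : u ^ π = 1) (hku : k * u = u * k) :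
    IsPGroup π (Subgroup.zpowers k ⊔ Subgroup.zpowers u : Subgroup G) := by
  apply IsPGroup.to_sup_of_normal_right' (f4b9_zpowers hk) (f4b9_zpowers hu)
  rw [Subgroup.zpowers_le, Subgroup.mem_normalizer_iff]
  have hcom : ∀ j : ℤ, k * u ^ j = u ^ j * k := fun j => (Commute.zpow_right hku j).eq
  intro x
  constructor
  · intro hx
    obtain ⟨j, rfl⟩ := Subgroup.mem_zpowers_iff.1 hx
    rw [hcom, mul_inv_cancel_right]
    exact hx
  · intro hx
    obtain ⟨j, hj⟩ := Subgroup.mem_zpowers_iff.1 hx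
    have h1 : x = u ^ j := by
      calc x = k⁻¹ * (k * x * k⁻¹) * k := by group
        _ = k⁻¹ * (u ^ j * k) := by rw [← hj, mul_assoc]
        _ = u ^ j := by rw [← hcom, inv_mul_cancel_left]
    rw [h1]
    exact Subgroup.mem_zpowers_iff.2 ⟨j, rfl⟩

open scoped Pointwise in
/-- Job F4B9.

Proof. `Nat.card G = n * (n - 1) * r` with `n = Nat.card Ω` (orbit-stabilizer twice, or the map
`g ↦ (g • x, g • y)` from `G` onto the pairs of different points, fibres of size `r`), where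
`n = l * (1 + r * (l - 1))` and `n - 1 = (l - 1) * (1 + l * r)`. `π` divides `l` and `r`, so it does not
divide `1 + r * (l - 1)`, `l - 1`, `1 + l * r`. So the exponent of `π` in `Nat.card G` is that in
`l * r = Nat.card (R t)` (`lb_l_pow`), where `t` is some involution (`lb_exists_inv`). Let `S` be a Sylow
`π`-subgroup of `R t`, considered as a subgroup of `G`: its order is the full power of `π` dividing
`Nat.card G`. `k` and `u` commute and `k ^ π = u ^ π = 1`, so the subgroup generated by `k` and `u` is a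
`π`-group (all its elements are `k ^ i * u ^ j`), contained in a Sylow `π`-subgroup `S'` of `G`
(`IsPGroup.exists_le_sylow`); `S'` and `S` have the same order, so they are conjugate
(`Sylow.ofCard`, `MulAction.exists_smul_eq G`). So `g * k * g⁻¹ ∈ R t` and `g * u * g⁻¹ ∈ R t` for some `g`.
Let `f = g⁻¹ * t * g`. By `RProp.carrier` (`g * k * g⁻¹ = e * e'` with `Perp t e`, `Perp t e'`; conjugate
with `g⁻¹`) `k ∈ R f`, and similarly `u ∈ R f`. -/
theorem lb_sylow [Finite G] [Finite Ω] [FaithfulSMul G Ω] (h : LHyp G Ω)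
    (hne : ∃ x y : Ω, x ≠ y) {r l : ℕ} (hN : NHyp G Ω r l) {π : ℕ} (hπ : π.Prime)
    {R : G → Subgroup G} (hR : ∀ t : G, IsInv t → RProp Ω π t (R t)) (hdvd : π ∣ r)
    {k u : G} (hk : k ^ π = 1) (hu : u ^ π = 1) (hku : k * u = u * k) :
    ∃ f : G, IsInv f ∧ k ∈ R f ∧ u ∈ R f := by
  classical
  obtain ⟨x, y, hxy⟩ := hne
  obtain ⟨t, ht, htx, hty⟩ := lb_exists_inv h.toFHyp4 hxy
  obtain ⟨⟨m, hm0, hm⟩, hπodd, hRc⟩ := lb_l_pow h ⟨x, y, hxy⟩ hN hπ ht (hR t ht)
  have : Fact π.Prime := ⟨hπ⟩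
  have hcG := f4b9_card h.toFHyp4.toFHyp.two ⟨x, y, hxy⟩ hN.stab2
  have hl3 := hN.three
  have hr0 : 0 < r := by
    rcases Nat.eq_zero_or_pos r with h0 | h0
    · exfalso
      rw [h0, Nat.mul_zero] at hcG
      exact Nat.card_pos.ne' hcG
    · exact h0
  obtain ⟨l', rfl⟩ : ∃ l', l = l' + 1 := ⟨l - 1, by omega⟩
  have hΩ : Nat.card Ω = (l' + 1) * (1 + r * l') := by
    have := hN.card
    simpa using this
  have hΩ1 : Nat.card Ω - 1 = l' * (1 + (l' + 1) * r) := by
    rw [hΩ]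
    have : (l' + 1) * (1 + r * l') = l' * (1 + (l' + 1) * r) + 1 := by ring
    rw [this, Nat.add_sub_cancel]
  have hcG' : Nat.card G = ((l' + 1) * r) * ((1 + r * l') * (l' * (1 + (l' + 1) * r))) := by
    rw [hcG, hΩ1, hΩ]
    ring
  have hdl : π ∣ l' + 1 := by
    rw [hm]
    exact dvd_pow_self π hm0.ne'
  have hnl : ¬ π ∣ l' := by
    intro h1
    exact hπ.one_lt.ne' (Nat.dvd_one.1 ((Nat.dvd_add_right h1).1 hdl))
  have hn1 : ¬ π ∣ 1 + r * l' := by
    intro h1
    exact hπ.one_lt.ne' (Nat.dvd_one.1 ((Nat.dvd_add_left (hdvd.mul_right l')).1 h1))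
  have hn2 : ¬ π ∣ 1 + (l' + 1) * r := by
    intro h1
    exact hπ.one_lt.ne' (Nat.dvd_one.1 ((Nat.dvd_add_left (hdvd.mul_left (l' + 1))).1 h1))
  have hl'0 : l' ≠ 0 := by omega
  have hfac : (Nat.card G).factorization π = (Nat.card (R t)).factorization π := by
    rw [hcG', hRc, Nat.factorization_mul (by positivity)
      (mul_ne_zero (by positivity) (mul_ne_zero hl'0 (by positivity)))]
    rw [Finsupp.add_apply]
    have h1 : ((1 + r * l') * (l' * (1 + (l' + 1) * r))).factorization π = 0 := by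
      apply Nat.factorization_eq_zero_of_not_dvd
      intro h1
      rcases (Nat.Prime.dvd_mul hπ).1 h1 with h2 | h2
      · exact hn1 h2
      · rcases (Nat.Prime.dvd_mul hπ).1 h2 with h3 | h3
        · exact hnl h3
        · exact hn2 h3
    rw [h1, add_zero]
  obtain ⟨S0⟩ : Nonempty (Sylow π (R t)) := inferInstance
  have hS0 := S0.card_eq_multiplicity
  have hQ : Nat.card ((S0 : Subgroup (R t)).map (R t).subtype) =
      π ^ (Nat.card G).factorization π := by
    rw [hfac, ← hS0]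
    exact Nat.card_congr
      ((S0 : Subgroup (R t)).equivMapOfInjective _ (R t).subtype_injective).symm.toEquiv
  have hQR : ∀ z ∈ (S0 : Subgroup (R t)).map (R t).subtype, z ∈ R t := by
    rintro z ⟨w, -, rfl⟩
    exact w.2
  obtain ⟨S', hS'⟩ := (f4b9_sup hk hu hku).exists_le_sylow
  obtain ⟨g, hg⟩ := MulAction.exists_smul_eq G S' (Sylow.ofCard _ hQ)
  have hconj : ∀ z ∈ S', g * z * g⁻¹ ∈ R t := by
    intro z hz
    apply hQR
    have h1 : MulAut.conj g • z ∈ MulAut.conj g • (S' : Subgroup G) :=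
      Subgroup.smul_mem_pointwise_smul _ _ _ hz
    rw [← Sylow.coe_subgroup_smul, hg, Sylow.coe_ofCard] at h1
    exact h1
  refine ⟨g⁻¹ * t * g, f4b9_isInv g ht, ?_, ?_⟩
  · exact f4b9_carrier hR ht
      (hconj k (hS' (Subgroup.mem_sup_left (Subgroup.mem_zpowers k))))
  · exact f4b9_carrier hR ht
      (hconj u (hS' (Subgroup.mem_sup_right (Subgroup.mem_zpowers u))))

end Pool.Agent.H.MP_6268b4_co
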