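import Pool.Agent.H.MP_6268b4_co.F4B7
import Pool.Agent.H.MP_6268b4_co.F4B9

/-!
`π` does not divide `r`.
-/

namespace Pool.Agent.H.MP_6268b4_co

variable {G Ω : Type*} [Group G] [MulAction G Ω]

/-- Job F4B10-1. Let `k` be without fixed points. Involutions `f ≠ f'` with `k ∈ R f`, `k ∈ R f'` do not
commute.

Proof. Suppose `Perp f f'`. They have a unique common fixed point `c` (`lb_common`, `lb_two`,
`lb_common_unique`). `k` commutes with `f` and `f'` (`RProp.comm`), so `k • c` is also a common fixed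
point, `k • c = c`, a contradiction. -/
theorem lb_not_perp [Finite G] [Finite Ω] [FaithfulSMul G Ω] (h : LHyp G Ω)
    (hne : ∃ x y : Ω, x ≠ y) {π : ℕ}
    {R : G → Subgroup G} (hR : ∀ t : G, IsInv t → RProp Ω π t (R t)) {k : G}
    (hfree : ∀ x : Ω, k • x ≠ x) {f f' : G} (hf : IsInv f) (hf' : IsInv f') (hk : k ∈ R f)
    (hk' : k ∈ R f') : ¬ Perp f f' := by
  intro hp
  obtain ⟨x, y, hxy, hx, hy⟩ := lb_two h hne hf
  obtain ⟨c, hc, hc'⟩ := lb_common h hxy hf hx hy hf'.2 hp.2.2.2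
  apply hfree c
  have h1 := (hR f hf).comm k hk
  have h2 := (hR f' hf').comm k hk'
  refine (lb_common_unique h.toFHyp4.toFHyp hf hf' hp.2.2.1 hc hc' ?_ ?_).symm
  · rw [← mul_smul, ← h1, mul_smul, hc]
  · rw [← mul_smul, ← h2, mul_smul, hc']

/-- Conjugation preserves `Perp`. -/
theorem f4b10_perp_conj {t e : G} (h : Perp t e) (g : G) :
    Perp (g * t * g⁻¹) (g * e * g⁻¹) := by
  obtain ⟨ht, he, hte, hc⟩ := h
  refine ⟨f4b2_conj_inv ht g, f4b2_conj_inv he g, ?_, ?_⟩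
  · intro h1
    exact hte (mul_left_cancel (mul_right_cancel h1))
  · calc g * t * g⁻¹ * (g * e * g⁻¹) = g * (t * e) * g⁻¹ := by group
      _ = g * (e * t) * g⁻¹ := by rw [hc]
      _ = g * e * g⁻¹ * (g * t * g⁻¹) := by group

/-- Conjugation carries `R f` to `R (g * f * g⁻¹)`. -/
theorem f4b10_R_conj {π : ℕ} {R : G → Subgroup G}
    (hR : ∀ t : G, IsInv t → RProp Ω π t (R t)) {f k : G} (hf : IsInv f) (hk : k ∈ R f) (g : G) :
    g * k * g⁻¹ ∈ R (g * f * g⁻¹) := by
  obtain ⟨e, e', he, he', hk'⟩ := ((hR f hf).carrier k).1 hk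
  refine ((hR _ (f4b2_conj_inv hf g)).carrier _).2
    ⟨g * e * g⁻¹, g * e' * g⁻¹, f4b10_perp_conj he g, f4b10_perp_conj he' g, ?_⟩
  rw [hk']
  group

/-- The number of fixed points of an involutory map has the parity of the set. -/
theorem f4b10_inv_card {S : Type*} [Finite S] (φ : S → S) (h : ∀ s, φ (φ s) = s) :
    Nat.card S ≡ Nat.card {s // φ s = s} [MOD 2] := by
  classical
  have := Fintype.ofFinite S
  have h2 : Fact (Nat.Prime 2) := ⟨Nat.prime_two⟩
  let ψ : Function.End S := φ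
  have h3 : ψ ^ 2 ^ 1 = 1 := by
    rw [pow_one, pow_two]
    funext s
    exact h s
  have h4 := Equiv.Perm.card_fixedPoints_modEq h3
  rw [← Nat.card_eq_fintype_card, ← Nat.card_eq_fintype_card] at h4
  exact h4

/-- Job F4B10-2. `π` does not divide `r`.

Proof. Suppose it does. Take a rectangle `t, t', e, e'` (`lb_rect`), `k = t * t'`, `u = e * e'`. `t, t'`
commute with `e, e'`, so `k` commutes with `u`, `e`, `e'` and `u` commutes with `t`, `t'`. `k ∈ R e`, `k ∈ R e'`,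
`u ∈ R t`, `u ∈ R t'` by `RProp.carrier`. `k ^ π = 1`, `u ^ π = 1` (`lb_pow`); `k` and `u` have no fixed points
(`lb_free`), in particular `k, u ≠ 1`, and `k * k ≠ 1`, `u * u ≠ 1` since `π` is odd (`lb_l_pow`). `t * k * t = k⁻¹`
(`t * (t * t') * t = t' * t`), `e * u * e = u⁻¹`.
Let `𝒮` be the set of involutions `f` with `k ∈ R f` and `u ∈ R f`. It is not empty (`lb_sylow`).
(1) `Nat.card 𝒮` is odd: take `f₀ ∈ 𝒮`. Conjugation with `f₀` maps `𝒮` to itself: `f₀` commutes with `k` and `u`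
(`RProp.comm`), and `k ∈ R f` gives `k = f₀ * k * f₀⁻¹ ∈ R (f₀ * f * f₀⁻¹)` by `RProp.carrier`. Its only
fixed point on `𝒮` is `f₀`: another one would be `f` with `Perp f₀ f`, against `lb_not_perp`. Use
`Equiv.Perm.card_fixedPoints_modEq` or pair off the other elements.
(2) `t` and `e` act on `𝒮` by conjugation: for `f ∈ 𝒮`, `k⁻¹ = t * k * t ∈ R (t * f * t)` so
`k ∈ R (t * f * t)`, and `u = t * u * t ∈ R (t * f * t)`; the same for `e`. `t` and `e` commute, so they
generate a 2-group acting on the set `𝒮` of odd size; there is a common fixed point `f ∈ 𝒮`: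
first the set `𝒮₁` of the fixed points of (conjugation with) `t` on `𝒮` has odd size, `e` acts on `𝒮₁`, and it has a
fixed point there.
(3) So `f` commutes with `t` and `e`. `f ≠ t`: otherwise `k ∈ R t` commutes with `t`, but `t * k * t = k⁻¹ ≠ k`.
`f ≠ e` similarly with `u`; `f ≠ t * e`: otherwise `u ∈ R (t * e)` commutes with `t * e`, and it commutes
with `t`, so it commutes with `e`, a contradiction. So `Perp f t`, `Perp f e`. Let `p` be the common fixed
point of `f` and `t` (`lb_common`, `lb_two`). `e` commutes with `f` and `t`, so `e • p = p` by uniqueness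
(`lb_common_unique`). By `lb_perp` (second part, for the involution `f`, `c = p`) `t * e` acts trivially on
the fixed points of `f`, of which there are at least two (`lb_two`), so the involutions `t * e`
(`perp_mul`) and `f` are equal (`f4_inv_unique`), a contradiction. -/
theorem lb_ndvd [Finite G] [Finite Ω] [FaithfulSMul G Ω] (h : LHyp G Ω)
    (hne : ∃ x y : Ω, x ≠ y) {r l : ℕ} (hN : NHyp G Ω r l) {π : ℕ} (hπ : π.Prime)
    {R : G → Subgroup G} (hR : ∀ t : G, IsInv t → RProp Ω π t (R t)) : ¬ π ∣ r := by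
  classical
  intro hdvd
  have hF : FHyp G Ω := h.toFHyp4.toFHyp
  obtain ⟨t, t', e, e', hte, hte', ht'e, ht'e', htt', hee', hdt, hde⟩ := lb_rect h hne hN
  have ht : IsInv t := hte.1
  have ht' : IsInv t' := ht'e.1
  have he : IsInv e := hte.2.1
  have he' : IsInv e' := hte'.2.1
  have hinv : ∀ {a : G}, IsInv a → a⁻¹ = a := fun {a} ha => inv_eq_of_mul_eq_one_right ha.2
  have hkE : t * t' ∈ R e :=
    ((hR e he).carrier _).2 ⟨t, t', perp_symm hte, perp_symm ht'e, rfl⟩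
  have hkE' : t * t' ∈ R e' :=
    ((hR e' he').carrier _).2 ⟨t, t', perp_symm hte', perp_symm ht'e', rfl⟩
  have huT : e * e' ∈ R t := ((hR t ht).carrier _).2 ⟨e, e', hte, hte', rfl⟩
  have huT' : e * e' ∈ R t' := ((hR t' ht').carrier _).2 ⟨e, e', ht'e, ht'e', rfl⟩
  have hkπ : (t * t') ^ π = 1 := lb_pow h hne he he' (hR e he) (hR e' he') hde hkE hkE'
  have huπ : (e * e') ^ π = 1 := lb_pow h hne ht ht' (hR t ht) (hR t' ht') hdt huT huT'
  have hkfree : ∀ x : Ω, (t * t') • x ≠ x := lb_free h ht ht' hdt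
  have hufree : ∀ x : Ω, (e * e') • x ≠ x := lb_free h he he' hde
  have hπodd : Odd π := (lb_l_pow h hne hN hπ ht (hR t ht)).2.1
  have hsq : ∀ a : G, a ^ π = 1 → (∀ x : Ω, a • x ≠ x) → a⁻¹ = a → False := by
    intro a ha hfree haa
    obtain ⟨m, hm⟩ := hπodd
    have h1 : a * a = 1 := by
      nth_rewrite 1 [← haa]
      rw [inv_mul_cancel]
    have h2 : a = 1 := by
      rw [hm, pow_succ, pow_mul, pow_two, h1, one_pow, one_mul] at ha
      exact ha
    obtain ⟨x, -, -⟩ := hne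
    exact hfree x (by rw [h2, one_smul])
  have hku : (t * t') * (e * e') = (e * e') * (t * t') := by
    have h1 := (hR t ht).comm _ huT
    have h2 := (hR t' ht').comm _ huT'
    rw [mul_assoc, ← h2, ← mul_assoc, ← h1, mul_assoc]
  -- conjugation with the involutions
  have htk : t * (t * t') * t⁻¹ = (t * t')⁻¹ := by
    rw [mul_inv_rev, hinv ht', ← mul_assoc, ht.2, one_mul]
  have heu : e * (e * e') * e⁻¹ = (e * e')⁻¹ := by
    rw [mul_inv_rev, hinv he', ← mul_assoc, he.2, one_mul]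
  have htu : t * (e * e') * t⁻¹ = e * e' := by
    rw [← (hR t ht).comm _ huT, mul_inv_cancel_right]
  have hek : e * (t * t') * e⁻¹ = t * t' := by
    rw [← (hR e he).comm _ hkE, mul_inv_cancel_right]
  -- the set of the involutions
  let S : Type _ := {f : G // IsInv f ∧ t * t' ∈ R f ∧ e * e' ∈ R f}
  have hSfin : Finite S := inferInstanceAs (Finite {f : G // IsInv f ∧ t * t' ∈ R f ∧ e * e' ∈ R f})
  have hconj : ∀ g : G, (g * (t * t') * g⁻¹ = t * t' ∨ g * (t * t') * g⁻¹ = (t * t')⁻¹) →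
      (g * (e * e') * g⁻¹ = e * e' ∨ g * (e * e') * g⁻¹ = (e * e')⁻¹) → ∀ f : G,
      (IsInv f ∧ t * t' ∈ R f ∧ e * e' ∈ R f) →
      (IsInv (g * f * g⁻¹) ∧ t * t' ∈ R (g * f * g⁻¹) ∧ e * e' ∈ R (g * f * g⁻¹)) := by
    intro g hg1 hg2 f hf
    refine ⟨f4b2_conj_inv hf.1 g, ?_, ?_⟩
    · have h1 := f4b10_R_conj hR hf.1 hf.2.1 g
      rcases hg1 with hg1 | hg1
      · rwa [hg1] at h1
      · rw [hg1] at h1
        exact (Subgroup.inv_mem_iff _).1 h1
    · have h1 := f4b10_R_conj hR hf.1 hf.2.2 g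
      rcases hg2 with hg2 | hg2
      · rwa [hg2] at h1
      · rw [hg2] at h1
        exact (Subgroup.inv_mem_iff _).1 h1
  have hcc : ∀ {g : G}, IsInv g → ∀ f : G, g * (g * f * g⁻¹) * g⁻¹ = f := by
    intro g hg f
    rw [hinv hg]
    calc g * (g * f * g) * g = (g * g) * f * (g * g) := by group
      _ = f := by rw [hg.2, one_mul, mul_one]
  obtain ⟨f₀, hf₀, hkf₀, huf₀⟩ := lb_sylow h hne hN hπ hR hdvd hkπ huπ hku
  have hSodd : Nat.card S ≡ 1 [MOD 2] := by
    have hc1 := (hR f₀ hf₀).comm _ hkf₀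
    have hc2 := (hR f₀ hf₀).comm _ huf₀
    let φ : S → S := fun f => ⟨f₀ * f.1 * f₀⁻¹, hconj f₀
      (Or.inl (by rw [← hc1, mul_inv_cancel_right])) (Or.inl (by rw [← hc2, mul_inv_cancel_right]))
      f.1 f.2⟩
    have hφ : ∀ s, φ (φ s) = s := fun s => Subtype.ext (hcc hf₀ s.1)
    refine (f4b10_inv_card φ hφ).trans ?_
    have h1 : Nat.card {s // φ s = s} = 1 := by
      rw [Nat.card_eq_one_iff_unique]
      refine ⟨⟨?_⟩, ⟨⟨⟨f₀, hf₀, hkf₀, huf₀⟩, Subtype.ext (by
        show f₀ * f₀ * f₀⁻¹ = f₀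
        rw [mul_inv_cancel_right])⟩⟩⟩
      have hall : ∀ s : S, φ s = s → s.1 = f₀ := by
        intro s hs
        by_contra hsf
        have h2 : f₀ * s.1 * f₀⁻¹ = s.1 := congrArg Subtype.val hs
        have h3 : f₀ * s.1 = s.1 * f₀ := mul_inv_eq_iff_eq_mul.1 h2
        exact lb_not_perp h hne hR hkfree hf₀ s.2.1 hkf₀ s.2.2.1
          ⟨hf₀, s.2.1, fun h4 => hsf h4.symm, h3⟩
      rintro ⟨s, hs⟩ ⟨s', hs'⟩
      exact Subtype.ext (Subtype.ext ((hall s hs).trans (hall s' hs').symm))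
    rw [h1]
  let φt : S → S := fun f => ⟨t * f.1 * t⁻¹, hconj t (Or.inr htk) (Or.inl htu) f.1 f.2⟩
  have hφt : ∀ s, φt (φt s) = s := fun s => Subtype.ext (hcc ht s.1)
  let φe : S → S := fun f => ⟨e * f.1 * e⁻¹, hconj e (Or.inl hek) (Or.inr heu) f.1 f.2⟩
  have hφe : ∀ s, φe (φe s) = s := fun s => Subtype.ext (hcc he s.1)
  have hte1 : t * e = e * t := hte.2.2.2
  have hφte : ∀ s, φt (φe s) = φe (φt s) := by
    intro s
    apply Subtype.ext
    show t * (e * s.1 * e⁻¹) * t⁻¹ = e * (t * s.1 * t⁻¹) * e⁻¹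
    calc t * (e * s.1 * e⁻¹) * t⁻¹ = (t * e) * s.1 * (t * e)⁻¹ := by group
      _ = (e * t) * s.1 * (e * t)⁻¹ := by rw [hte1]
      _ = e * (t * s.1 * t⁻¹) * e⁻¹ := by group
  let ψ : {s // φt s = s} → {s // φt s = s} := fun s => ⟨φe s.1, by rw [hφte, s.2]⟩
  have hψ : ∀ s, ψ (ψ s) = s := fun s => Subtype.ext (hφe s.1)
  have hc1 := f4b10_inv_card φt hφt
  have hc2 := f4b10_inv_card ψ hψ
  have hc3 : Nat.card {s // ψ s = s} ≡ 1 [MOD 2] := (hc2.symm.trans hc1.symm).trans hSodd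
  have hc4 : Nat.card {s // ψ s = s} ≠ 0 := by
    intro h0
    rw [h0] at hc3
    exact absurd hc3 (by decide)
  have hne' : Nonempty {s // ψ s = s} := (Nat.card_ne_zero.1 hc4).1
  obtain ⟨⟨⟨⟨f, hf, hkf, huf⟩, hft⟩, hfe⟩⟩ := hne'
  have hft1 : t * f = f * t := mul_inv_eq_iff_eq_mul.1 (congrArg Subtype.val hft)
  have hfe1 : e * f = f * e :=
    mul_inv_eq_iff_eq_mul.1 (congrArg Subtype.val (congrArg Subtype.val hfe))
  have hf_t : f ≠ t := by
    rintro rfl
    refine hsq _ hkπ hkfree ?_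
    rw [← htk, ← (hR _ hf).comm _ hkf, mul_inv_cancel_right]
  have hf_e : f ≠ e := by
    rintro rfl
    refine hsq _ huπ hufree ?_
    rw [← heu, ← (hR _ hf).comm _ huf, mul_inv_cancel_right]
  have hf_te : f ≠ t * e := by
    intro hfte
    refine hsq _ huπ hufree ?_
    have h1 := (hR _ hf).comm _ huf
    rw [hfte] at h1
    have h2 : (e * e') * e = e * (e * e') := by
      refine mul_left_cancel (a := t) ?_
      rw [← mul_assoc, ← (hR t ht).comm _ huT, mul_assoc, h1, mul_assoc]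
    rw [← heu, ← h2, mul_inv_cancel_right]
  have hpft : Perp f t := ⟨hf, ht, hf_t, hft1.symm⟩
  have hpfe : Perp f e := ⟨hf, he, hf_e, hfe1.symm⟩
  obtain ⟨x, y, hxy, hx, hy⟩ := lb_two h hne hf
  obtain ⟨p, hfp, htp⟩ := lb_common h hxy hf hx hy ht.2 hft1.symm
  have hep : e • p = p := by
    refine (lb_common_unique hF hf ht hf_t hfp htp ?_ ?_).symm
    · rw [← mul_smul, ← hfe1, mul_smul, hfp]
    · rw [← mul_smul, hte1, mul_smul, htp]
  have hact := (lb_perp h hne hf).2.1 p t e hfp hpft hpfe htp hep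
  exact hf_te (f4_inv_unique hF hxy hf (perp_mul hte).1.2.1 hx hy (hact x hx) (hact y hy))

end Pool.Agent.H.MP_6268b4_co
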