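import Pool.Agent.H.MP_6268b4_co.F4B8

/-!
The elements of order `π` in `R t` if `π` does not divide `r`.
-/

namespace Pool.Agent.H.MP_6268b4_co

variable {G Ω : Type*} [Group G] [MulAction G Ω]

/-- Job F4B11-1. An element `z` acting trivially on the fixed points of the involution `t` satisfies
`z ^ r = 1`; so if moreover `z ^ π = 1`, `π ∤ r`, then `z = 1`.

Proof. `z` is in the stabilizer of two fixed points of `t` (`lb_two`), a group of order `r`
(`hN.stab2`). `orderOf z` divides `r` and `π`, which are coprime. -/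
theorem lb_z_one [Finite G] [Finite Ω] [FaithfulSMul G Ω] (h : LHyp G Ω)
    (hne : ∃ x y : Ω, x ≠ y) {r l : ℕ} (hN : NHyp G Ω r l) {π : ℕ} (hπ : π.Prime)
    (hndvd : ¬ π ∣ r) {t : G} (ht : IsInv t) {z : G} (hz : ∀ u : Ω, t • u = u → z • u = u) :
    z ^ r = 1 ∧ (z ^ π = 1 → z = 1) := by
  obtain ⟨x, y, hxy, hx, hy⟩ := lb_two h hne ht
  let S : Subgroup G := MulAction.stabilizer G x ⊓ MulAction.stabilizer G y
  have hzS : z ∈ S := Subgroup.mem_inf.2 ⟨MulAction.mem_stabilizer_iff.2 (hz x hx),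
    MulAction.mem_stabilizer_iff.2 (hz y hy)⟩
  have hS : Nat.card S = r := hN.stab2 x y hxy
  have h1 : z ^ r = 1 := by
    have h2 : (⟨z, hzS⟩ : S) ^ Nat.card S = 1 := pow_card_eq_one'
    have h3 := congrArg Subtype.val h2
    rw [hS] at h3
    exact h3
  refine ⟨h1, fun h2 => ?_⟩
  have h3 : orderOf z ∣ Nat.gcd r π :=
    Nat.dvd_gcd (orderOf_dvd_of_pow_eq_one h1) (orderOf_dvd_of_pow_eq_one h2)
  have h4 : Nat.Coprime r π := ((Nat.Prime.coprime_iff_not_dvd hπ).2 hndvd).symm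
  rw [h4] at h3
  exact orderOf_eq_one_iff.1 (Nat.dvd_one.1 h3)

/-- Job F4B11-2. Every element of `R t` is the product of an element of order dividing `π` and one
acting trivially on the fixed points of `t`.

Proof. `g ^ π` acts trivially on the fixed points of `t` (`RProp.prime`), so `g ^ (π * r) = 1`
(`lb_z_one`). Let `a * r = 1 + b * π` with natural numbers `a, b` (`π` and `r` are coprime). Put
`q = g ^ (a * r)` and `z = g ^ (b * π)`; then `q = g * z`, `q ^ π = 1` and `z = (g ^ π) ^ b` acts trivially. -/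
theorem lb_q_exists [Finite G] [Finite Ω] [FaithfulSMul G Ω] (h : LHyp G Ω)
    (hne : ∃ x y : Ω, x ≠ y) {r l : ℕ} (hN : NHyp G Ω r l) {π : ℕ} (hπ : π.Prime)
    (hndvd : ¬ π ∣ r) {t : G} (ht : IsInv t) {R : Subgroup G} (hR : RProp Ω π t R) {g : G}
    (hg : g ∈ R) : ∃ z : G, (∀ u : Ω, t • u = u → z • u = u) ∧ g * z ∈ R ∧ (g * z) ^ π = 1 := by
  have h4 : Nat.Coprime r π := ((Nat.Prime.coprime_iff_not_dvd hπ).2 hndvd).symm
  obtain ⟨m, hm⟩ := Nat.exists_mul_mod_eq_one_of_coprime h4 hπ.one_lt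
  have h5 : 1 + π * (r * m / π) = r * m := by
    have h6 := Nat.mod_add_div (r * m) π
    omega
  have h7 : (g ^ π) ^ r = 1 := (lb_z_one h hne hN hπ hndvd ht (fun u hu => hR.prime g hg u hu)).1
  have h8 : g * (g ^ π) ^ (r * m / π) = g ^ (r * m) := by
    rw [← pow_mul, ← pow_succ', add_comm, h5]
  refine ⟨(g ^ π) ^ (r * m / π), ?_, ?_, ?_⟩
  · intro u hu
    have h9 : ∀ n : ℕ, (g ^ π) ^ n • u = u := by
      intro n
      induction n with
      | zero => rw [pow_zero, one_smul]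
      | succ n ih => rw [pow_succ', mul_smul, ih, hR.prime g hg u hu]
    exact h9 _
  · rw [h8]
    exact R.pow_mem hg _
  · rw [h8, ← pow_mul, mul_comm (r * m) π, ← mul_assoc, pow_mul, pow_mul, h7, one_pow]

/-- Job F4B11-3. The elements `q ∈ R t` with `q ^ π = 1` form a set in bijection with the fixed points of
`t`.

Proof. Fix a fixed point `c` of `t`. The map `q ↦ q • c` to the fixed points of `t` is injective: if
`q • c = q' • c` then `q⁻¹ * q' ∈ R` fixes `c`, so it acts trivially on the fixed points of `t` (`RProp.fp`),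
and `(q⁻¹ * q') ^ π = 1` as `R` is abelian, so it is `1` (`lb_z_one`). It is surjective by `RProp.trans` and
`lb_q_exists` (`(g * z) • c = g • c`). -/
theorem lb_q_card [Finite G] [Finite Ω] [FaithfulSMul G Ω] (h : LHyp G Ω)
    (hne : ∃ x y : Ω, x ≠ y) {r l : ℕ} (hN : NHyp G Ω r l) {π : ℕ} (hπ : π.Prime)
    (hndvd : ¬ π ∣ r) {t : G} (ht : IsInv t) {R : Subgroup G} (hR : RProp Ω π t R) :
    Nat.card {q : G // q ∈ R ∧ q ^ π = 1} = l ∧
    ∀ q ∈ R, q ^ π = 1 → (∃ c : Ω, t • c = c ∧ q • c = c) → q = 1 := by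
  have key : ∀ q ∈ R, q ^ π = 1 → (∃ c : Ω, t • c = c ∧ q • c = c) → q = 1 := by
    rintro q hq hq1 ⟨c, hc, hqc⟩
    exact (lb_z_one h hne hN hπ hndvd ht (hR.fp q hq c hc hqc)).2 hq1
  refine ⟨?_, key⟩
  obtain ⟨c, -, -, hc, -⟩ := lb_two h hne ht
  rw [← hN.fixc t ht]
  have hf : ∀ q : {q : G // q ∈ R ∧ q ^ π = 1}, t • (q.1 • c) = q.1 • c := by
    intro q
    rw [← mul_smul, ← hR.comm q.1 q.2.1, mul_smul, hc]
  refine Nat.card_congr (Equiv.ofBijective
    (fun q : {q : G // q ∈ R ∧ q ^ π = 1} => (⟨q.1 • c, hf q⟩ : {u : Ω // t • u = u})) ⟨?_, ?_⟩)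
  · intro q q' hqq
    have h1 : q.1 • c = q'.1 • c := congrArg Subtype.val hqq
    have h2 : q.1⁻¹ * q'.1 = 1 := by
      refine key _ (R.mul_mem (R.inv_mem q.2.1) q'.2.1) ?_ ⟨c, hc, ?_⟩
      · have h3 : Commute q.1⁻¹ q'.1 :=
          (show Commute q.1 q'.1 from hR.ab q.1 q.2.1 q'.1 q'.2.1).inv_left
        rw [h3.mul_pow, inv_pow, q.2.2, q'.2.2, inv_one, one_mul]
      · rw [mul_smul, ← h1, inv_smul_smul]
    exact Subtype.ext (inv_mul_eq_one.1 h2)
  · rintro ⟨u, hu⟩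
    obtain ⟨g, hg, hgc⟩ := hR.trans c u hc hu
    obtain ⟨z, hz, hz1, hz2⟩ := lb_q_exists h hne hN hπ hndvd ht hR hg
    refine ⟨⟨g * z, hz1, hz2⟩, Subtype.ext ?_⟩
    show (g * z) • c = u
    rw [mul_smul, hz c hc, hgc]

end Pool.Agent.H.MP_6268b4_co
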