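import Pool.Agent.H.MP_6268b4_co.F4B6

/-!
Existence of rectangles.
-/

namespace Pool.Agent.H.MP_6268b4_co

variable {G Ω : Type*} [Group G] [MulAction G Ω]

theorem f4b7_card {α : Type*} [Fintype α] (p : α → Prop) [DecidablePred p] :
    Nat.card {x : α // p x} = (Finset.univ.filter p).card := by
  rw [Nat.card_eq_fintype_card, Fintype.card_subtype]

theorem f4b7_symm {G : Type*} [Group G] {t e : G} (h : Perp t e) : Perp e t :=
  ⟨h.2.1, h.1, h.2.2.1.symm, h.2.2.2.symm⟩

theorem f4b7_arith {D l r : ℕ} (hl : 3 ≤ l)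
    (h : D + (l * (l * r) + 1) = (1 + r * (l - 1)) * (1 + l * r)) :
    D = (l - 1) * r * (1 + l * r - l) := by
  obtain ⟨a, rfl⟩ : ∃ a, l = a + 1 := ⟨l - 1, by omega⟩
  rcases r with _ | b
  · simp at h ⊢
    exact h
  · have h1 : 1 + (a + 1) * (b + 1) - (a + 1) = 1 + (a + 1) * b := by
      have : (a + 1) * (b + 1) = (a + 1) * b + (a + 1) := by ring
      omega
    rw [h1]
    simp only [Nat.add_sub_cancel] at h ⊢
    have h2 : (1 + (b + 1) * a) * (1 + (a + 1) * (b + 1)) =
        a * (b + 1) * (1 + (a + 1) * b) + ((a + 1) * ((a + 1) * (b + 1)) + 1) := by ring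
    rw [h2] at h
    exact Nat.add_right_cancel h

/-- Job F4B7-1. The number of involutions `t'` without common fixed point with `t`.

Proof. `hN.inv` involutions; `t` itself; the `t' ≠ t` having a common fixed point with `t` are in
bijection with the pairs `(c, t')`, `t • c = c`, `t' ≠ t` an involution fixing `c` (`lb_common_unique`):
`l * (l * r)` (`hN.invc`, `hN.fixc`). So the number is
`(1 + r * (l - 1)) * (1 + l * r) - 1 - l * (l * r) = (l - 1) * r * (1 + l * r - l)`. -/
theorem lb_disj_card [Finite G] [Finite Ω] [FaithfulSMul G Ω] (h : LHyp G Ω) {r l : ℕ}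
    (hN : NHyp G Ω r l) {t : G} (ht : IsInv t) :
    Nat.card {t' : G // IsInv t' ∧ ∀ c : Ω, t • c = c → t' • c = c → False} =
      (l - 1) * r * (1 + l * r - l) := by
  classical
  have hG : Fintype G := Fintype.ofFinite G
  have hΩ : Fintype Ω := Fintype.ofFinite Ω
  have hB := hN.inv
  rw [f4b7_card] at hB ⊢
  set S : Finset G := Finset.univ.filter fun t' : G => IsInv t' with hS
  set D : Finset G := Finset.univ.filter fun t' : G =>
    IsInv t' ∧ ∀ c : Ω, t • c = c → t' • c = c → False with hD
  set U : Finset G := (Finset.univ.filter fun c : Ω => t • c = c).biUnion fun c =>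
    Finset.univ.filter fun t' : G => (IsInv t' ∧ t' • c = c) ∧ t' ≠ t with hU
  have hUc : U.card = l * (l * r) := by
    rw [hU, Finset.card_biUnion]
    · have h1 : ∀ c ∈ (Finset.univ.filter fun c : Ω => t • c = c),
          (Finset.univ.filter fun t' : G => (IsInv t' ∧ t' • c = c) ∧ t' ≠ t).card = l * r := by
        intro c hc
        have hc' : t • c = c := (Finset.mem_filter.1 hc).2
        have h2 := hN.invc c
        rw [f4b7_card] at h2
        have h3 : (Finset.univ.filter fun t' : G => (IsInv t' ∧ t' • c = c) ∧ t' ≠ t) =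
            (Finset.univ.filter fun t' : G => IsInv t' ∧ t' • c = c).erase t := by
          ext t'
          simp only [Finset.mem_filter, Finset.mem_univ, true_and, Finset.mem_erase]
          tauto
        rw [h3, Finset.card_erase_of_mem, h2]
        · omega
        · exact Finset.mem_filter.2 ⟨Finset.mem_univ _, ht, hc'⟩
      rw [Finset.sum_congr rfl h1, Finset.sum_const, smul_eq_mul]
      have h4 := hN.fixc t ht
      rw [f4b7_card] at h4
      rw [h4]
    · intro c hc c' hc' hcc
      rw [Function.onFun, Finset.disjoint_left]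
      intro t' h1 h2
      have h1' := (Finset.mem_filter.1 h1).2
      have h2' := (Finset.mem_filter.1 h2).2
      exact hcc (lb_common_unique h.toFHyp ht h1'.1.1 h1'.2.symm (Finset.mem_filter.1 hc).2
        h1'.1.2 (Finset.mem_filter.1 hc').2 h2'.1.2)
  have hSU : S = D ∪ insert t U := by
    ext t'
    simp only [hS, hD, hU, Finset.mem_union, Finset.mem_insert, Finset.mem_biUnion,
      Finset.mem_filter, Finset.mem_univ, true_and]
    constructor
    · intro h1
      by_cases h2 : ∀ c : Ω, t • c = c → t' • c = c → False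
      · exact Or.inl ⟨h1, h2⟩
      · push Not at h2
        obtain ⟨c, hc1, hc2⟩ := h2
        by_cases h3 : t' = t
        · exact Or.inr (Or.inl h3)
        · exact Or.inr (Or.inr ⟨c, hc1, ⟨h1, hc2.1⟩, h3⟩)
    · rintro (h1 | rfl | ⟨c, _, ⟨h1, _⟩, _⟩)
      · exact h1.1
      · exact ht
      · exact h1
  have htU : t ∉ U := by
    simp only [hU, Finset.mem_biUnion, Finset.mem_filter, Finset.mem_univ, true_and]
    rintro ⟨c, _, _, h1⟩
    exact h1 rfl
  have hdis : Disjoint D (insert t U) := by
    rw [Finset.disjoint_left]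
    intro t' h1 h2
    have h1' := (Finset.mem_filter.1 h1).2.2
    rcases Finset.mem_insert.1 h2 with rfl | h3
    · have h4 := hN.fixc t' ht
      have h5 : Nat.card {u : Ω // t' • u = u} ≠ 0 := by
        have := hN.three
        omega
      obtain ⟨⟨⟨u, hu⟩⟩, _⟩ := Nat.card_ne_zero.1 h5
      exact h1' u hu hu
    · simp only [hU, Finset.mem_biUnion, Finset.mem_filter, Finset.mem_univ, true_and] at h3
      obtain ⟨c, hc, ⟨_, h4⟩, _⟩ := h3
      exact h1' c hc h4
  have hcard : S.card = D.card + (l * (l * r) + 1) := by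
    rw [hSU, Finset.card_union_of_disjoint hdis, Finset.card_insert_of_notMem htU, hUc]
  rw [hcard] at hB
  exact f4b7_arith hN.three hB

/-- Job F4B7-2. If `Perp e t`, `Perp e t'` and `c, c'` are the common fixed points of `e` and `t`, resp.
`e` and `t'`, then `t` and `t'` have no common fixed point iff `c ≠ c'`.

Proof. If `c = c'` then `c` is a common fixed point. Let `c ≠ c'` and suppose `x` is a common fixed
point. If `e • x = x` then `x = c` and `x = c'` (`lb_common_unique`). Otherwise `e • x ≠ x` is another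
common fixed point of `t` and `t'` (`e` commutes with both), so `t = t'`, hence `c = c'`. -/
theorem lb_disj_iff [Finite G] (h : FHyp G Ω) {e t t' : G} (h1 : Perp e t) (h2 : Perp e t')
    {c c' : Ω} (hec : e • c = c) (htc : t • c = c) (hec' : e • c' = c') (htc' : t' • c' = c') :
    (∀ x : Ω, t • x = x → t' • x = x → False) ↔ c ≠ c' := by
  constructor
  · rintro h3 rfl
    exact h3 c htc htc'
  · intro hcc x hx hx'
    by_cases hex : e • x = x
    · have e1 := lb_common_unique h h1.1 h1.2.1 h1.2.2.1 hex hx hec htc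
      have e2 := lb_common_unique h h2.1 h2.2.1 h2.2.2.1 hex hx' hec' htc'
      exact hcc (e1.symm.trans e2)
    · have e1 : t • e • x = e • x := by
        rw [← mul_smul, ← h1.2.2.2, mul_smul, hx]
      have e2 : t' • e • x = e • x := by
        rw [← mul_smul, ← h2.2.2.2, mul_smul, hx']
      have e3 := f4_inv_unique h hex h1.2.1 h2.2.1 e1 hx e2 hx'
      subst e3
      exact hcc (lb_common_unique h h1.1 h1.2.1 h1.2.2.1 hec htc hec' htc')

/-- Job F4B7-3. Existence of a rectangle.

Proof. Count the triples `(e, t, t')` with `Perp e t`, `Perp e t'` and `t, t'` without common fixed point: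
for each of the `B` involutions `e` there are `l * r` choices of `t` (`hN.perp`), with common fixed point
`c` (`lb_common`, `lb_two`), and `t'` can be any of the `l * r - r` elements with `Perp e t'` and
`t' • c ≠ c` (`lb_disj_iff`, `hN.perpc`). So there are `B * (l * r) * ((l - 1) * r)` triples. The number of
pairs `(t, t')` of involutions without common fixed point is `B * ((l - 1) * r * (1 + l * r - l))`
(`lb_disj_card`), which is smaller since `1 + l * r - l < l * r` and `B, l - 1, r > 0`. So there are
`t, t'` without common fixed point with two different `e ≠ e'` such that `Perp e t, Perp e t',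
Perp e' t, Perp e' t'`. (`Perp` is symmetric.) Finally let `x` be a common fixed point of `e` and `e'`. If
`t • x ≠ x` then `x` and `t • x` are two common fixed points of `e` and `e'`, so `e = e'`
(`f4_inv_unique`). So `t • x = x`, similarly `t' • x = x`, a contradiction. -/
theorem lb_rect [Finite G] [Finite Ω] [FaithfulSMul G Ω] (h : LHyp G Ω)
    (hne : ∃ x y : Ω, x ≠ y) {r l : ℕ} (hN : NHyp G Ω r l) :
    ∃ t t' e e' : G, Perp t e ∧ Perp t e' ∧ Perp t' e ∧ Perp t' e' ∧ t ≠ t' ∧ e ≠ e' ∧
      (∀ c : Ω, t • c = c → t' • c = c → False) ∧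
      (∀ c : Ω, e • c = c → e' • c = c → False) := by
  classical
  have hG : Fintype G := Fintype.ofFinite G
  have hΩ : Fintype Ω := Fintype.ofFinite Ω
  have hF : FHyp G Ω := h.toFHyp
  -- it suffices to find two different `e`
  suffices hs : ∃ t t' e e' : G, Perp e t ∧ Perp e t' ∧ Perp e' t ∧ Perp e' t' ∧ e ≠ e' ∧
      (∀ c : Ω, t • c = c → t' • c = c → False) by
    obtain ⟨t, t', e, e', h1, h2, h3, h4, h5, h6⟩ := hs
    refine ⟨t, t', e, e', f4b7_symm h1, f4b7_symm h3, f4b7_symm h2, f4b7_symm h4, ?_, h5, h6, ?_⟩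
    · rintro rfl
      obtain ⟨x, _, _, hx, _⟩ := lb_two h hne h1.2.1
      exact h6 x hx hx
    · intro x hx hx'
      have h7 : ∀ s : G, Perp e s → Perp e' s → s • x = x := by
        intro s hs hs'
        by_contra hsx
        have e1 : e • s • x = s • x := by
          rw [← mul_smul, hs.2.2.2, mul_smul, hx]
        have e2 : e' • s • x = s • x := by
          rw [← mul_smul, hs'.2.2.2, mul_smul, hx']
        exact h5 (f4_inv_unique hF hsx hs.1 hs'.1 e1 hx e2 hx')
      exact h6 x (h7 t h1 h3) (h7 t' h2 h4)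
  by_contra hcon
  set S : Finset G := Finset.univ.filter fun t : G => IsInv t with hS
  let P : G → Finset G := fun e => Finset.univ.filter fun t : G => Perp e t
  let Q : G → G → Finset G := fun e t => Finset.univ.filter fun t' : G =>
    Perp e t' ∧ ∀ c : Ω, t • c = c → t' • c = c → False
  let D : G → Finset G := fun t => Finset.univ.filter fun t' : G =>
    IsInv t' ∧ ∀ c : Ω, t • c = c → t' • c = c → False
  have hP : ∀ e ∈ S, (P e).card = l * r := by
    intro e he
    have h1 := hN.perp e (Finset.mem_filter.1 he).2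
    rw [f4b7_card] at h1
    exact h1
  have hQ : ∀ e ∈ S, ∀ t ∈ P e, (Q e t).card = (l - 1) * r := by
    intro e he t ht
    have he' : IsInv e := (Finset.mem_filter.1 he).2
    have ht' : Perp e t := (Finset.mem_filter.1 ht).2
    have hcf : ∀ s : G, Perp e s → ∃ c : Ω, e • c = c ∧ s • c = c := by
      intro s hs
      obtain ⟨x, y, hxy, hx, hy⟩ := lb_two h hne he'
      exact lb_common h hxy he' hx hy hs.2.1.2 hs.2.2.2
    obtain ⟨c, hc1, hc2⟩ := hcf t ht'
    have h1 : Q e t = P e \ Finset.univ.filter fun t' : G => Perp e t' ∧ t' • c = c := by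
      ext t'
      simp only [Q, P, Finset.mem_sdiff, Finset.mem_filter, Finset.mem_univ, true_and]
      constructor
      · rintro ⟨h2, h3⟩
        exact ⟨h2, fun h4 => h3 c hc2 h4.2⟩
      · rintro ⟨h2, h3⟩
        refine ⟨h2, ?_⟩
        obtain ⟨c', hc1', hc2'⟩ := hcf t' h2
        rw [lb_disj_iff hF ht' h2 hc1 hc2 hc1' hc2']
        rintro rfl
        exact h3 ⟨h2, hc2'⟩
    have h2 := hN.perpc e c he' hc1
    rw [f4b7_card] at h2
    rw [h1, Finset.card_sdiff_of_subset, hP e he, h2, Nat.sub_mul, one_mul]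
    intro t' h3
    exact Finset.mem_filter.2 ⟨Finset.mem_univ _, (Finset.mem_filter.1 h3).2.1⟩
  have hDc : ∀ t ∈ S, (D t).card = (l - 1) * r * (1 + l * r - l) := by
    intro t ht
    have h1 := lb_disj_card h hN (Finset.mem_filter.1 ht).2
    rw [f4b7_card] at h1
    exact h1
  have hle : (S.sigma fun e => (P e).sigma fun t => Q e t).card ≤ (S.sigma fun t => D t).card := by
    apply Finset.card_le_card_of_injOn (fun x => ⟨x.2.1, x.2.2⟩)
    · rintro ⟨e, t, t'⟩ hx
      simp only [Finset.coe_sigma, Set.mem_sigma_iff, Finset.mem_coe, Finset.mem_sigma, P, Q,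
        Finset.mem_filter, Finset.mem_univ, true_and] at hx
      simp only [Finset.coe_sigma, Set.mem_sigma_iff, Finset.mem_coe, D, hS,
        Finset.mem_filter, Finset.mem_univ, true_and]
      exact ⟨hx.2.1.2.1, hx.2.2.1.2.1, hx.2.2.2⟩
    · rintro ⟨e, t, t'⟩ hx ⟨e', s, s'⟩ hx' hxx
      simp only [Finset.coe_sigma, Set.mem_sigma_iff, Finset.mem_coe, Finset.mem_sigma, P, Q,
        Finset.mem_filter, Finset.mem_univ, true_and] at hx hx'
      simp only [Sigma.mk.injEq, heq_eq_eq] at hxx
      obtain ⟨rfl, rfl⟩ := hxx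
      have : e = e' := by
        by_contra hee
        exact hcon ⟨t, t', e, e', hx.2.1, hx.2.2.1, hx'.2.1, hx'.2.2.1, hee, hx.2.2.2⟩
      subst this
      rfl
  have hl1 : (S.sigma fun e => (P e).sigma fun t => Q e t).card =
      S.card * (l * r * ((l - 1) * r)) := by
    rw [Finset.card_sigma]
    rw [Finset.sum_congr rfl (g := fun _ => l * r * ((l - 1) * r)), Finset.sum_const, smul_eq_mul]
    intro e he
    rw [Finset.card_sigma, Finset.sum_congr rfl (hQ e he), Finset.sum_const, smul_eq_mul, hP e he]
  have hl2 : (S.sigma fun t => D t).card = S.card * ((l - 1) * r * (1 + l * r - l)) := by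
    rw [Finset.card_sigma, Finset.sum_congr rfl hDc, Finset.sum_const, smul_eq_mul]
  rw [hl1, hl2] at hle
  obtain ⟨x, y, hxy⟩ := hne
  have hSpos : 0 < S.card := by
    obtain ⟨z, hz, _, _⟩ := lb_exists_inv h.toFHyp4 hxy
    exact Finset.card_pos.2 ⟨z, Finset.mem_filter.2 ⟨Finset.mem_univ _, hz⟩⟩
  have hrpos : 0 < r := by
    rw [← hN.stab2 x y hxy, Nat.card_pos_iff]
    exact ⟨⟨⟨1, one_smul _ _, one_smul _ _⟩⟩, inferInstance⟩
  have h3 := hN.three
  have h4 := Nat.le_of_mul_le_mul_left hle hSpos
  have h5 : l * r * ((l - 1) * r) = (l - 1) * r * (l * r) := Nat.mul_comm _ _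
  rw [h5] at h4
  have h6 : 0 < (l - 1) * r := Nat.mul_pos (by omega) hrpos
  have h7 := Nat.le_of_mul_le_mul_left h4 h6
  have h8 : l ≤ l * r := Nat.le_mul_of_pos_right l hrpos
  omega

end Pool.Agent.H.MP_6268b4_co
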