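import Pool.Agent.H.MP_6268b4_co.F4B11
import Pool.Agent.H.MP_6268b4_co.F4B7

/-!
The key count if `π` does not divide `r`.
-/

namespace Pool.Agent.H.MP_6268b4_co

variable {G Ω : Type*} [Group G] [MulAction G Ω]

/-- Job F4B12-1. Let `t, t'` be involutions without common fixed point, `e ≠ e'` with `Perp t e`,
`Perp t' e`, `Perp t e'`, `Perp t' e'`. Then `e` and `e'` have different common fixed points with `t` (and
no common fixed point at all).

Proof. If `x` is a common fixed point of `e` and `e'` then `t • x` is one as well, so `t • x = x`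
(`lb_common_unique`), similarly `t' • x = x`, a contradiction. -/
theorem lb_perp_disj [Finite G] (h : FHyp G Ω) {t t' e e' : G}
    (hd : ∀ c : Ω, t • c = c → t' • c = c → False) (h1 : Perp t e) (h2 : Perp t' e)
    (h3 : Perp t e') (h4 : Perp t' e') (hee : e ≠ e') (x : Ω) (hx : e • x = x)
    (hx' : e' • x = x) : False := by
  have he := h1.2.1
  have he' := h3.2.1
  have key : ∀ s : G, Perp s e → Perp s e' → s • x = x := by
    intro s hs hs'
    have k1 : e • s • x = s • x := by
      rw [← mul_smul, ← hs.2.2.2, mul_smul, hx]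
    have k2 : e' • s • x = s • x := by
      rw [← mul_smul, ← hs'.2.2.2, mul_smul, hx']
    exact lb_common_unique h he he' hee k1 k2 hx hx'
  exact hd x (key t h1 h3) (key t' h2 h4)

/-- the common fixed point -/
theorem f4b12_cfp [Finite G] [Finite Ω] [FaithfulSMul G Ω] (h : LHyp G Ω)
    (hne : ∃ x y : Ω, x ≠ y) {t e : G} (hp : Perp e t) : ∃ c : Ω, t • c = c ∧ e • c = c := by
  obtain ⟨x, y, hxy, hx, hy⟩ := lb_two h hne hp.2.1
  exact lb_common h hxy hp.2.1 hx hy hp.1.2 hp.2.2.2.symm

theorem f4b12_disj [Finite G] [Finite Ω] [FaithfulSMul G Ω] (h : LHyp G Ω)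
    (hne : ∃ x y : Ω, x ≠ y) {e t t' : G} (h1 : Perp e t) (h2 : Perp e t') {c : Ω}
    (hec : e • c = c) (htc : t • c = c) :
    (∀ x : Ω, t • x = x → t' • x = x → False) ↔ ¬ t' • c = c := by
  have hF : FHyp G Ω := h.toFHyp4.toFHyp
  obtain ⟨c', hc1, hc2⟩ := f4b12_cfp h hne h2
  rw [lb_disj_iff hF h1 h2 hec htc hc2 hc1]
  constructor
  · intro hcc htc'
    exact hcc (lb_common_unique hF h2.1 h2.2.1 h2.2.2.1 hec htc' hc2 hc1)
  · rintro hn rfl
    exact hn hc1

/-- at most `l` common neighbours -/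
theorem f4b12_le [Finite G] [Finite Ω] [FaithfulSMul G Ω] (h : LHyp G Ω)
    (hne : ∃ x y : Ω, x ≠ y) {t t' : G}
    (hd : ∀ c : Ω, t • c = c → t' • c = c → False)
    (f : {e : G // Perp e t ∧ Perp e t'} → {c : Ω // t • c = c})
    (hf : ∀ e : {e : G // Perp e t ∧ Perp e t'}, (e : G) • (f e : Ω) = f e) :
    Function.Injective f := by
  rintro e e' hee
  by_contra hne'
  have h1 : (e : G) ≠ e' := fun h2 => hne' (Subtype.ext h2)
  refine lb_perp_disj h.toFHyp4.toFHyp hd (perp_symm e.2.1) (perp_symm e.2.2)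
    (perp_symm e'.2.1) (perp_symm e'.2.2) h1 (f e) (hf e) ?_
  rw [hee]
  exact hf e'

theorem f4b12_prod [Finite G] {e t t' : G} {π : ℕ} {R : Subgroup G} (hR : RProp Ω π e R)
    (h1 : Perp e t) (h2 : Perp e t') : t * t' ∈ R :=
  (hR.carrier _).2 ⟨t, t', h1, h2, rfl⟩

theorem f4b12_cancel {t : G} (ht : IsInv t) (k : G) : t * (t * k) = k := by
  rw [← mul_assoc, ht.2, one_mul]

/-- the number of the pairs with product of order `π` -/
theorem f4b12_nC [Finite G] [Finite Ω] [FaithfulSMul G Ω] (h : LHyp G Ω)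
    (hne : ∃ x y : Ω, x ≠ y) {r l : ℕ} (hN : NHyp G Ω r l) {π : ℕ} (hπ : π.Prime)
    (hndvd : ¬ π ∣ r) {e t : G} {R : Subgroup G} (hR : RProp Ω π e R) (het : Perp e t) :
    Nat.card {t' : G // Perp e t' ∧ (∀ c : Ω, t • c = c → t' • c = c → False) ∧
      (t * t') ^ π = 1} = l - 1 := by
  classical
  have hF : FHyp G Ω := h.toFHyp4.toFHyp
  obtain ⟨c, hc1, hc2⟩ := f4b12_cfp h hne het
  obtain ⟨hq1, hq2⟩ := lb_q_card h hne hN hπ hndvd het.1 hR
  have : Fintype G := Fintype.ofFinite G
  have e1 : Nat.card {t' : G // Perp e t' ∧ (∀ c : Ω, t • c = c → t' • c = c → False) ∧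
      (t * t') ^ π = 1} = Nat.card {q : G // (q ∈ R ∧ q ^ π = 1) ∧ q ≠ 1} := by
    refine Nat.card_congr ((Equiv.mulLeft t).subtypeEquiv ?_)
    intro t'
    rw [Equiv.coe_mulLeft]
    constructor
    · rintro ⟨a1, a2, a3⟩
      refine ⟨⟨f4b12_prod hR het a1, a3⟩, ?_⟩
      intro h1
      have h2 : t' = t := by
        have h1' : t * t' = 1 := h1
        have := f4b12_cancel het.2.1 t'
        rw [h1', mul_one] at this
        exact this.symm
      rw [h2] at a2
      exact a2 c hc1 hc1
    · rintro ⟨⟨a1, a2⟩, a3⟩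
      have b1 : Perp e t' := by
        have := hR.perp t het _ a1
        rw [f4b12_cancel het.2.1] at this
        exact this
      refine ⟨b1, ?_, a2⟩
      rw [f4b12_disj h hne het b1 hc2 hc1]
      intro h1
      apply a3
      refine hq2 _ a1 a2 ⟨c, hc2, ?_⟩
      rw [mul_smul, h1, hc1]
  rw [e1, ← hq1, Nat.card_eq_fintype_card, Nat.card_eq_fintype_card, Fintype.card_subtype,
    Fintype.card_subtype]
  have e2 : (Finset.univ.filter fun q : G => (q ∈ R ∧ q ^ π = 1) ∧ q ≠ 1) =
      (Finset.univ.filter fun q : G => q ∈ R ∧ q ^ π = 1).erase 1 := by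
    ext q
    simp only [Finset.mem_filter, Finset.mem_univ, true_and, Finset.mem_erase]
    tauto
  rw [e2, Finset.card_erase_of_mem]
  simp [R.one_mem]

/-- the number of all pairs -/
theorem f4b12_nP [Finite G] [Finite Ω] [FaithfulSMul G Ω] (h : LHyp G Ω)
    (hne : ∃ x y : Ω, x ≠ y) {r l : ℕ} (hN : NHyp G Ω r l) {e t : G} (het : Perp e t) :
    Nat.card {t' : G // Perp e t' ∧ (∀ c : Ω, t • c = c → t' • c = c → False)} + r =
      l * r := by
  classical
  obtain ⟨c, hc1, hc2⟩ := f4b12_cfp h hne het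
  have : Fintype G := Fintype.ofFinite G
  rw [← hN.perp e het.1]
  rw [← hN.perpc e c het.1 hc2]
  rw [Nat.card_eq_fintype_card, Nat.card_eq_fintype_card, Nat.card_eq_fintype_card,
    Fintype.card_subtype, Fintype.card_subtype, Fintype.card_subtype]
  have e1 : (Finset.univ.filter fun t' : G => Perp e t' ∧
      (∀ c : Ω, t • c = c → t' • c = c → False)) =
      (Finset.univ.filter fun t' : G => Perp e t').filter (fun t' => ¬ t' • c = c) := by
    ext t'
    simp only [Finset.mem_filter, Finset.mem_univ, true_and]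
    constructor
    · rintro ⟨a1, a2⟩
      exact ⟨a1, (f4b12_disj h hne het a1 hc2 hc1).1 a2⟩
    · rintro ⟨a1, a2⟩
      exact ⟨a1, (f4b12_disj h hne het a1 hc2 hc1).2 a2⟩
  have e2 : (Finset.univ.filter fun t' : G => Perp e t' ∧ t' • c = c) =
      (Finset.univ.filter fun t' : G => Perp e t').filter (fun t' => t' • c = c) := by
    rw [Finset.filter_filter]
  rw [e1, e2, add_comm, Finset.card_filter_add_card_filter_not]

/-- double counting -/
theorem f4b12_double {G : Type*} [Group G] [Fintype G] [DecidableEq G] (X : G → G → Prop)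
    [DecidableRel X] [DecidableRel (Perp : G → G → Prop)] [DecidablePred (IsInv : G → Prop)]
    {B m n : ℕ}
    (hB : (Finset.univ.filter fun e : G => IsInv e).card = B)
    (hm : ∀ e : G, IsInv e → (Finset.univ.filter fun t : G => Perp e t).card = m)
    (hn : ∀ e t : G, Perp e t → (Finset.univ.filter fun t' : G => Perp e t' ∧ X t t').card = n) :
    ∑ p ∈ (Finset.univ : Finset (G × G)).filter (fun p => X p.1 p.2),
      (Finset.univ.filter fun e : G => Perp e p.1 ∧ Perp e p.2).card = B * (m * n) := by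
  have h1 : ∑ p ∈ (Finset.univ : Finset (G × G)).filter (fun p => X p.1 p.2),
      (Finset.univ.filter fun e : G => Perp e p.1 ∧ Perp e p.2).card =
      ∑ t : G, ∑ t' : G, ∑ e : G, if (X t t' ∧ Perp e t ∧ Perp e t') then 1 else 0 := by
    rw [Finset.sum_filter, Fintype.sum_prod_type]
    refine Finset.sum_congr rfl fun t _ => Finset.sum_congr rfl fun t' _ => ?_
    by_cases hX : X t t'
    · simp only [hX, if_true, true_and]
      rw [Finset.card_filter]
    · simp [hX]
  have h2 : ∑ t : G, ∑ t' : G, ∑ e : G, (if (X t t' ∧ Perp e t ∧ Perp e t') then 1 else 0) =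
      ∑ e : G, ∑ t : G, ∑ t' : G, if (X t t' ∧ Perp e t ∧ Perp e t') then 1 else 0 := by
    calc ∑ t : G, ∑ t' : G, ∑ e : G, (if (X t t' ∧ Perp e t ∧ Perp e t') then 1 else 0)
        = ∑ t : G, ∑ e : G, ∑ t' : G, (if (X t t' ∧ Perp e t ∧ Perp e t') then 1 else 0) :=
          Finset.sum_congr rfl fun t' _ => Finset.sum_comm
      _ = ∑ e : G, ∑ t : G, ∑ t' : G, (if (X t t' ∧ Perp e t ∧ Perp e t') then 1 else 0) :=
          Finset.sum_comm
  have h3 : ∀ e : G, ∑ t : G, ∑ t' : G, (if (X t t' ∧ Perp e t ∧ Perp e t') then 1 else 0) =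
      if IsInv e then m * n else 0 := by
    intro e
    by_cases he : IsInv e
    · rw [if_pos he]
      have h4 : ∀ t : G, ∑ t' : G, (if (X t t' ∧ Perp e t ∧ Perp e t') then 1 else 0) =
          if Perp e t then n else 0 := by
        intro t
        by_cases ht : Perp e t
        · rw [if_pos ht, ← hn e t ht, Finset.card_filter]
          refine Finset.sum_congr rfl fun t' _ => ?_
          have : (X t t' ∧ Perp e t ∧ Perp e t') ↔ (Perp e t' ∧ X t t') := by tauto
          simp only [this]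
        · rw [if_neg ht]
          exact Finset.sum_eq_zero fun t' _ => if_neg (fun h => ht h.2.1)
      rw [Finset.sum_congr rfl fun t _ => h4 t, ← Finset.sum_filter, Finset.sum_const, hm e he,
        smul_eq_mul]
    · rw [if_neg he]
      exact Finset.sum_eq_zero fun t _ => Finset.sum_eq_zero fun t' _ =>
        if_neg (fun h => he h.2.1.1)
  rw [h1, h2, Finset.sum_congr rfl fun e _ => h3 e, ← Finset.sum_filter, Finset.sum_const, hB,
    smul_eq_mul]

/-- the final arithmetic -/
theorem f4b12_arith {B r l a c s : ℕ} (hl : 3 ≤ l) (hr : 4 ≤ r)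
    (hP : a + c = B * ((l - 1) * r * (1 + l * r - l)))
    (hA : B * (l * r * ((l - 1) * (r - 1))) ≤ a)
    (hs : s = B * (l * r * (l - 1))) : l * c ≤ s := by
  obtain ⟨l', rfl⟩ : ∃ l', l = l' + 1 := ⟨l - 1, by omega⟩
  obtain ⟨r', rfl⟩ : ∃ r', r = r' + 1 := ⟨r - 1, by omega⟩
  have e1 : 1 + (l' + 1) * (r' + 1) - (l' + 1) = 1 + (l' + 1) * r' := by
    have : (l' + 1) * (r' + 1) = (l' + 1) * r' + (l' + 1) := by ring
    omega
  rw [e1, Nat.add_sub_cancel] at hP
  rw [Nat.add_sub_cancel, Nat.add_sub_cancel] at hA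
  rw [Nat.add_sub_cancel] at hs
  have h1 : c ≤ B * (l' * (r' + 1)) := by
    have h2 : B * (l' * (r' + 1) * (1 + (l' + 1) * r')) =
        B * ((l' + 1) * (r' + 1) * (l' * r')) + B * (l' * (r' + 1)) := by ring
    omega
  rw [hs]
  calc (l' + 1) * c ≤ (l' + 1) * (B * (l' * (r' + 1))) := Nat.mul_le_mul_left _ h1
    _ = B * ((l' + 1) * (r' + 1) * l') := by ring

/-- Job F4B12-2. Let `Perp e t`, `k ∈ R e`, `k ^ π = 1`, `k ≠ 1` and `t' = t * k`. Then for each fixed point `c`
of `t` there is `e₁` with `Perp t e₁`, `Perp t' e₁`, `e₁ • c = c`.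

Proof. Let `I` be the set of involutions, `B = Nat.card I`. Let `𝒫` be the set of pairs `(t, t') ∈ I × I`
without common fixed point, `Nat.card 𝒫 = B * ((l - 1) * r * (1 + l * r - l))` (`lb_disj_card`). For
`(t, t') ∈ 𝒫` let `ρ(t, t')` be the number of `e` with `Perp e t`, `Perp e t'`. By `lb_perp_disj`
different such `e` have different common fixed points with `t`, so `ρ(t, t') ≤ l`.
For an involution `e` the map `(t, k) ↦ (t, t * k)` is a bijection from the pairs with `Perp e t`, `k ∈ R e`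
to the pairs `(t, t')` with `Perp e t`, `Perp e t'` (`RProp.perp`, `RProp.carrier`); `t` and `t * k` have no
common fixed point iff `k` acts nontrivially on the fixed points of `e` (if `k` acts trivially then the
common fixed point of `e` and `t` is fixed by `t * k`; otherwise `k` moves it by `RProp.fp`, so
`t * k` does not fix it, and `lb_disj_iff`).
(a) The triples `(e, t, t')` with `Perp e t`, `Perp e t'`, `(t, t') ∈ 𝒫`, `(t * t') ^ π ≠ 1`: given `e` and
`t` the number of `k = t * t' ∈ R e` acting nontrivially with `k ^ π ≠ 1` is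
`l * r - r - (l - 1) = (l - 1) * (r - 1)` (`Nat.card (R e) = l * r` by `lb_l_pow`, `r` elements act
trivially, and `l - 1` of the elements with `k ^ π = 1` act nontrivially, by `lb_q_card`, `lb_z_one`). For
such a pair `(t, t')` the element `e` is unique: if `e ≠ e'` then they have no common fixed point
(`lb_perp_disj`), `t * t' ∈ R e`, `t * t' ∈ R e'` and `lb_pow` gives `(t * t') ^ π = 1`. So the number of
pairs of this kind is `B * (l * r) * ((l - 1) * (r - 1))`.
(b) Hence the number of the remaining pairs `(t, t') ∈ 𝒫` with `(t * t') ^ π = 1` (and some common `e`) is at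
most `B * (l - 1) * r * (1 + l * r - l) - B * (l * r) * (l - 1) * (r - 1) = B * (l - 1) * r`.
(c) The triples `(e, t, t')` with `Perp e t`, `Perp e t'`, `(t, t') ∈ 𝒫`, `(t * t') ^ π = 1`: given `e` and `t`
there are `l - 1` elements `k`, so there are `B * (l * r) * (l - 1)` triples, i.e. the sum of `ρ(t, t')` over the
pairs in (b) is `B * (l * r) * (l - 1)`. As `ρ ≤ l` on at most `B * (l - 1) * r` pairs, `ρ(t, t') = l` for all
pairs in (b).
(d) In the situation of the statement `(t, t')` is a pair as in (b) (`t * t' = k` up to `t * (t * k) = k`;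
`k ≠ 1`, `k ^ π = 1` so it acts nontrivially, `lb_z_one`), so the injective map
`e₁ ↦` the common fixed point of `e₁` and `t` from the `l` elements `e₁` with `Perp t e₁`, `Perp t' e₁` to the `l`
fixed points of `t` is surjective. -/
theorem lb_key [Finite G] [Finite Ω] [FaithfulSMul G Ω] (h : LHyp G Ω)
    (hne : ∃ x y : Ω, x ≠ y) {r l : ℕ} (hN : NHyp G Ω r l) {π : ℕ} (hπ : π.Prime)
    (hndvd : ¬ π ∣ r) {R : G → Subgroup G} (hR : ∀ t : G, IsInv t → RProp Ω π t (R t))
    {e t k : G} (het : Perp e t) (hk : k ∈ R e) (hkπ : k ^ π = 1) (hk1 : k ≠ 1) {c : Ω}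
    (hc : t • c = c) : ∃ e₁ : G, Perp t e₁ ∧ Perp (t * k) e₁ ∧ e₁ • c = c := by
  classical
  have hFG : Fintype G := Fintype.ofFinite G
  have hFO : Fintype Ω := Fintype.ofFinite Ω
  have hF : FHyp G Ω := h.toFHyp4.toFHyp
  have hr4 : 4 ≤ r := by
    have h0 := hN.four
    have h1 : 0 < r := by
      obtain ⟨x, y, hxy⟩ := hne
      rw [← hN.stab2 x y hxy]
      have : Nonempty {g : G // g • x = x ∧ g • y = y} := ⟨⟨1, one_smul _ _, one_smul _ _⟩⟩
      exact Nat.card_pos
    exact Nat.le_of_dvd h1 h0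
  -- the relations
  let XP : G → G → Prop := fun a b => IsInv a ∧ IsInv b ∧ ∀ c : Ω, a • c = c → b • c = c → False
  let XC : G → G → Prop := fun a b => XP a b ∧ (a * b) ^ π = 1
  let XA : G → G → Prop := fun a b => XP a b ∧ ¬ (a * b) ^ π = 1
  let ρ : G × G → ℕ := fun p => (Finset.univ.filter fun e : G => Perp e p.1 ∧ Perp e p.2).card
  obtain ⟨B, hB⟩ : ∃ B : ℕ, (Finset.univ.filter fun e : G => IsInv e).card = B := ⟨_, rfl⟩
  have hm : ∀ e : G, IsInv e → (Finset.univ.filter fun t : G => Perp e t).card = l * r := by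
    intro e he
    rw [← hN.perp e he, Nat.card_eq_fintype_card, Fintype.card_subtype]
  have hnC : ∀ e t : G, Perp e t →
      (Finset.univ.filter fun t' : G => Perp e t' ∧ XC t t').card = l - 1 := by
    intro e t het
    rw [← f4b12_nC h hne hN hπ hndvd (hR e het.1) het, Nat.card_eq_fintype_card,
      Fintype.card_subtype]
    congr 1
    ext t'
    simp only [Finset.mem_filter, Finset.mem_univ, true_and, XC, XP]
    constructor
    · rintro ⟨a1, ⟨-, -, a2⟩, a3⟩
      exact ⟨a1, a2, a3⟩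
    · rintro ⟨a1, a2, a3⟩
      exact ⟨a1, ⟨het.2.1, a1.2.1, a2⟩, a3⟩
  have hnA : ∀ e t : G, Perp e t →
      (Finset.univ.filter fun t' : G => Perp e t' ∧ XA t t').card = (l - 1) * (r - 1) := by
    intro e t het
    have h1 := f4b12_nP h hne hN het
    rw [Nat.card_eq_fintype_card, Fintype.card_subtype] at h1
    have h2 := hnC e t het
    have h3 : (Finset.univ.filter fun t' : G => Perp e t' ∧
        (∀ c : Ω, t • c = c → t' • c = c → False)) =
        (Finset.univ.filter fun t' : G => Perp e t' ∧ XC t t') ∪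
        (Finset.univ.filter fun t' : G => Perp e t' ∧ XA t t') := by
      ext t'
      simp only [Finset.mem_filter, Finset.mem_univ, true_and, Finset.mem_union, XC, XA, XP]
      constructor
      · rintro ⟨a1, a2⟩
        by_cases hp : (t * t') ^ π = 1
        · exact Or.inl ⟨a1, ⟨het.2.1, a1.2.1, a2⟩, hp⟩
        · exact Or.inr ⟨a1, ⟨het.2.1, a1.2.1, a2⟩, hp⟩
      · rintro (⟨a1, ⟨-, -, a2⟩, -⟩ | ⟨a1, ⟨-, -, a2⟩, -⟩)
        · exact ⟨a1, a2⟩
        · exact ⟨a1, a2⟩
    have h4 : Disjoint (Finset.univ.filter fun t' : G => Perp e t' ∧ XC t t')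
        (Finset.univ.filter fun t' : G => Perp e t' ∧ XA t t') := by
      rw [Finset.disjoint_left]
      intro t' a1 a2
      exact (Finset.mem_filter.1 a2).2.2.2 (Finset.mem_filter.1 a1).2.2.2
    rw [h3, Finset.card_union_of_disjoint h4, h2] at h1
    have h5 := hN.three
    obtain ⟨l', rfl⟩ : ∃ l', l = l' + 1 := ⟨l - 1, by omega⟩
    obtain ⟨r', rfl⟩ : ∃ r', r = r' + 1 := ⟨r - 1, by omega⟩
    rw [Nat.add_sub_cancel] at h1 ⊢
    rw [Nat.add_sub_cancel]
    have h6 : (l' + 1) * (r' + 1) = l' * r' + l' + (r' + 1) := by ring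
    omega
  have hsC := f4b12_double XC hB hm hnC
  have hsA := f4b12_double XA hB hm hnA
  set PA := (Finset.univ : Finset (G × G)).filter (fun p => XA p.1 p.2) with hPA
  set PC := (Finset.univ : Finset (G × G)).filter (fun p => XC p.1 p.2) with hPC
  -- the number of the pairs
  have hcard : PA.card + PC.card = B * ((l - 1) * r * (1 + l * r - l)) := by
    have h1 : PA.card + PC.card =
        ((Finset.univ : Finset (G × G)).filter (fun p => XP p.1 p.2)).card := by
      rw [← Finset.card_union_of_disjoint]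
      · congr 1
        ext p
        simp only [hPA, hPC, Finset.mem_union, Finset.mem_filter, Finset.mem_univ, true_and, XA,
          XC]
        tauto
      · rw [Finset.disjoint_left]
        intro p a1 a2
        exact (Finset.mem_filter.1 a1).2.2 (Finset.mem_filter.1 a2).2.2
    rw [h1, Finset.card_filter, Fintype.sum_prod_type]
    have h2 : ∀ t : G, ∑ t' : G, (if XP t t' then 1 else 0) =
        if IsInv t then (l - 1) * r * (1 + l * r - l) else 0 := by
      intro t
      by_cases ht : IsInv t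
      · rw [if_pos ht, ← lb_disj_card h hN ht, Nat.card_eq_fintype_card, Fintype.card_subtype,
          Finset.card_filter]
        refine Finset.sum_congr rfl fun t' _ => ?_
        have : XP t t' ↔ (IsInv t' ∧ ∀ c : Ω, t • c = c → t' • c = c → False) :=
          ⟨fun a => a.2, fun a => ⟨ht, a⟩⟩
        simp only [this]
      · rw [if_neg ht]
        exact Finset.sum_eq_zero fun t' _ => if_neg (fun a => ht a.1)
    rw [Finset.sum_congr rfl fun t _ => h2 t, ← Finset.sum_filter, Finset.sum_const, hB,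
      smul_eq_mul]
  -- `ρ ≤ 1` on `PA`
  have hρA : ∀ p ∈ PA, ρ p ≤ 1 := by
    rintro ⟨a, b⟩ hp
    obtain ⟨⟨-, -, hd⟩, hpow⟩ := (Finset.mem_filter.1 hp).2
    rw [Finset.card_le_one]
    intro e1 he1 e2 he2
    obtain ⟨-, u1, u2⟩ := Finset.mem_filter.1 he1
    obtain ⟨-, v1, v2⟩ := Finset.mem_filter.1 he2
    by_contra hee
    apply hpow
    exact lb_pow h hne u1.1 v1.1 (hR e1 u1.1) (hR e2 v1.1)
      (fun c c1 c2 => lb_perp_disj hF hd (perp_symm u1) (perp_symm u2) (perp_symm v1)
        (perp_symm v2) hee c c1 c2)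
      (f4b12_prod (hR e1 u1.1) u1 u2) (f4b12_prod (hR e2 v1.1) v1 v2)
  have hA : B * (l * r * ((l - 1) * (r - 1))) ≤ PA.card := by
    rw [← hsA]
    calc ∑ p ∈ PA, (Finset.univ.filter fun e : G => Perp e p.1 ∧ Perp e p.2).card
        ≤ ∑ _p ∈ PA, 1 := Finset.sum_le_sum hρA
      _ = PA.card := by rw [Finset.sum_const, smul_eq_mul, mul_one]
  have hineq := f4b12_arith hN.three hr4 hcard hA hsC
  -- `ρ ≤ l` on `PC`
  have hsome : ∀ p : G × G, ∃ f : {e : G // Perp e p.1 ∧ Perp e p.2} → {c : Ω // p.1 • c = c},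
      ∀ e : {e : G // Perp e p.1 ∧ Perp e p.2}, (e : G) • (f e : Ω) = f e := by
    intro p
    have h1 : ∀ e : {e : G // Perp e p.1 ∧ Perp e p.2}, ∃ c : {c : Ω // p.1 • c = c},
        (e : G) • (c : Ω) = c := by
      intro e
      obtain ⟨c, c1, c2⟩ := f4b12_cfp h hne e.2.1
      exact ⟨⟨c, c1⟩, c2⟩
    choose f hf using h1
    exact ⟨f, hf⟩
  have hρcard : ∀ p : G × G, ρ p = Nat.card {e : G // Perp e p.1 ∧ Perp e p.2} := by
    intro p
    rw [Nat.card_eq_fintype_card, Fintype.card_subtype]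
  have hρC : ∀ p ∈ PC, ρ p ≤ l := by
    intro p hp
    obtain ⟨⟨hi, -, hd⟩, -⟩ := (Finset.mem_filter.1 hp).2
    obtain ⟨f, hf⟩ := hsome p
    rw [hρcard, ← hN.fixc p.1 hi]
    exact Nat.card_le_card_of_injective f (f4b12_le h hne hd f hf)
  have hρeq : ∀ p ∈ PC, ρ p = l := by
    have h1 : ∑ p ∈ PC, ρ p = ∑ _p ∈ PC, l := by
      apply le_antisymm (Finset.sum_le_sum hρC)
      rw [Finset.sum_const, smul_eq_mul, mul_comm]
      exact hineq
    exact (Finset.sum_eq_sum_iff_of_le hρC).1 h1
  -- the pair of the statement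
  have ht := het.2.1
  obtain ⟨c0, hc1, hc2⟩ := f4b12_cfp h hne het
  have hek : Perp e (t * k) := (hR e het.1).perp t het k hk
  have hdisj : ∀ x : Ω, t • x = x → (t * k) • x = x → False := by
    rw [f4b12_disj h hne het hek hc2 hc1]
    intro h1
    apply hk1
    refine (lb_q_card h hne hN hπ hndvd het.1 (hR e het.1)).2 k hk hkπ ⟨c0, hc2, ?_⟩
    rw [mul_smul] at h1
    have h2 : t • t • k • c0 = t • c0 := congrArg (fun x => t • x) h1
    rw [← mul_smul, ht.2, one_smul, hc1] at h2
    exact h2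
  have hmem : (t, t * k) ∈ PC := by
    rw [hPC, Finset.mem_filter]
    refine ⟨Finset.mem_univ _, ⟨ht, hek.2.1, hdisj⟩, ?_⟩
    show (t * (t * k)) ^ π = 1
    rw [f4b12_cancel ht, hkπ]
  have h1 := hρeq _ hmem
  rw [hρcard] at h1
  obtain ⟨f, hf⟩ := hsome (t, t * k)
  have hinj := f4b12_le h hne hdisj f hf
  have hbij : Function.Bijective f := by
    rw [Fintype.bijective_iff_injective_and_card]
    refine ⟨hinj, ?_⟩
    rw [← Nat.card_eq_fintype_card, ← Nat.card_eq_fintype_card, h1, hN.fixc t ht]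
  obtain ⟨e1, he1⟩ := hbij.2 ⟨c, hc⟩
  refine ⟨e1, perp_symm e1.2.1, perp_symm e1.2.2, ?_⟩
  have h2 := hf e1
  rw [he1] at h2
  exact h2

end Pool.Agent.H.MP_6268b4_co
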