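import Pool.Agent.H.MP_6268b4_co.F4B12

/-!
Commuting elements of order `π`; `l + 1 ≤ r`.
-/

namespace Pool.Agent.H.MP_6268b4_co

variable {G Ω : Type*} [Group G] [MulAction G Ω]

/-- Job F4B13-1. If `Perp t e`, `u ∈ R t`, `u ^ π = 1`, `k ∈ R e`, `k ^ π = 1` then `k` and `u` commute.

Proof. We may assume `k ≠ 1`, `u ≠ 1`. `Perp t (e * u)` (`RProp.perp`); let `c₁` be the common fixed point of `t`
and `e * u` (`lb_common`, `lb_two`). Let `e₁` be as in `lb_key` for `c = c₁`: `Perp t e₁`, `Perp (t * k) e₁`,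
`e₁ • c₁ = c₁`. Let `u₁ = e * e₁ ∈ R t` (`RProp.carrier`). `e₁` commutes with `t` and `t * k`, hence with `k`; `e`
commutes with `k` (`RProp.comm`); so `u₁` commutes with `k`. `e₁ * (e * u) = u₁⁻¹ * u` acts trivially on the
fixed points of `t` (`lb_perp`, second part: `e₁` and `e * u` both fix `c₁`).
Claim `u₁ ^ π = 1`: `z = u₁ ^ π` acts trivially on the fixed points of `t` (`RProp.prime`) and commutes
with `k`. Suppose `z ≠ 1`. Let `c₀` be the common fixed point of `t` and `e`. `z` fixes all fixed points of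
`t`, in particular `c₀` and another fixed point `x` of `t` (`lb_two'`); as `z` commutes with `k` it also
fixes `k • c₀` and `k • x`. By `LHyp.fix` (`g = z ≠ 1`, `g' = t`) `t` fixes `k • c₀`. `k` commutes with `e`, so
`e` fixes `k • c₀` as well; so `k • c₀ = c₀` (`lb_common_unique`) and `k = 1` by `lb_q_card` (second part,
for `e`), a contradiction.
So `u₁⁻¹ * u` acts trivially on the fixed points of `t` and has `π`-th power `1` (`R t` is abelian), so it is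
`1` by `lb_z_one`; `u = u₁` commutes with `k`. -/
theorem lb_QQ [Finite G] [Finite Ω] [FaithfulSMul G Ω] (h : LHyp G Ω)
    (hne : ∃ x y : Ω, x ≠ y) {r l : ℕ} (hN : NHyp G Ω r l) {π : ℕ} (hπ : π.Prime)
    (hndvd : ¬ π ∣ r) {R : G → Subgroup G} (hR : ∀ t : G, IsInv t → RProp Ω π t (R t))
    {e t k u : G} (hte : Perp t e) (hk : k ∈ R e) (hkπ : k ^ π = 1) (hu : u ∈ R t)
    (huπ : u ^ π = 1) : k * u = u * k := by
  by_cases hk1 : k = 1
  · rw [hk1, one_mul, mul_one]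
  have ht : IsInv t := hte.1
  have he : IsInv e := hte.2.1
  have hRt := hR t ht
  have hRe := hR e he
  have hpeu : Perp t (e * u) := hRt.perp e hte u hu
  obtain ⟨x, y, hxy, hx, hy⟩ := lb_two h hne ht
  obtain ⟨c₁, hc1, hc1'⟩ := lb_common h hxy ht hx hy hpeu.2.1.2 hpeu.2.2.2
  obtain ⟨e₁, g1, g2, g3⟩ := lb_key h hne hN hπ hndvd hR (perp_symm hte) hk hkπ hk1 hc1
  have hu1 : e * e₁ ∈ R t := (hRt.carrier _).2 ⟨e, e₁, hte, g1, rfl⟩
  have hke₁ : k * e₁ = e₁ * k := by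
    have i1 : t * k * e₁ = e₁ * (t * k) := g2.2.2.2
    rw [← mul_assoc, ← g1.2.2.2, mul_assoc, mul_assoc] at i1
    exact mul_left_cancel i1
  have hke : k * e = e * k := hRe.comm k hk
  have hcomm : Commute (e * e₁) k := by
    change e * e₁ * k = k * (e * e₁)
    rw [mul_assoc, ← hke₁, ← mul_assoc, ← hke, mul_assoc]
  have e2 : e₁⁻¹ = e₁ := inv_eq_of_mul_eq_one_left g1.2.1.2
  have e3 : e⁻¹ = e := inv_eq_of_mul_eq_one_left he.2
  have htriv : ∀ w : Ω, t • w = w → ((e * e₁)⁻¹ * u) • w = w := by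
    have i1 := (lb_perp h hne ht).2.1 c₁ e₁ (e * u) hc1 g1 hpeu g3 hc1'
    have i2 : (e * e₁)⁻¹ * u = e₁ * (e * u) := by
      rw [mul_inv_rev, e2, e3, mul_assoc]
    rw [i2]
    exact i1
  have hz : (e * e₁) ^ π = 1 := by
    by_contra hz1
    have hzt := hRt.prime _ hu1
    obtain ⟨c₀, hc0, hc0'⟩ := lb_common h hxy ht hx hy he.2 hte.2.2.2
    obtain ⟨y', hy'c, hy't⟩ := lb_two' h hne ht c₀
    have hzk : Commute ((e * e₁) ^ π) k := hcomm.pow_left π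
    have i1 : (e * e₁) ^ π • k • c₀ = k • c₀ := by
      rw [smul_smul, hzk.eq, mul_smul, hzt c₀ hc0]
    have i2 := h.fix _ t c₀ y' (k • c₀) hy'c.symm hz1 (hzt c₀ hc0) (hzt y' hy't) hc0 hy't i1
    have i3 : e • k • c₀ = k • c₀ := by
      rw [smul_smul, ← hke, mul_smul, hc0']
    have i4 := lb_common_unique h.toFHyp4.toFHyp ht he hte.2.2.1 i2 i3 hc0 hc0'
    exact hk1 ((lb_q_card h hne hN hπ hndvd he hRe).2 k hk hkπ ⟨c₀, hc0', i4⟩)
  have hab : Commute (e * e₁)⁻¹ u := by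
    have i1 : Commute (e * e₁) u := hRt.ab _ hu1 u hu
    exact i1.inv_left
  have hone : (e * e₁)⁻¹ * u = 1 := by
    apply (lb_z_one h hne hN hπ hndvd ht htriv).2
    rw [hab.mul_pow, inv_pow, hz, huπ, inv_one, one_mul]
  have hue : u = e * e₁ := (inv_mul_eq_one.1 hone).symm
  rw [hue]
  exact hcomm.eq.symm

/-- If `a ∈ R t` and `b` commute, `t` inverts `b`, and `a * b` fixes a fixed point `c` of `t`, then
`a = 1`. -/
theorem f4b13_sq [Finite G] [Finite Ω] [FaithfulSMul G Ω] (h : LHyp G Ω)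
    (hne : ∃ x y : Ω, x ≠ y) {r l : ℕ} (hN : NHyp G Ω r l) {π : ℕ} (hπ : π.Prime)
    (hndvd : ¬ π ∣ r) {t : G} (ht : IsInv t) {R : Subgroup G} (hR : RProp Ω π t R) {c : Ω}
    (hc : t • c = c) {a b : G} (ha : a ∈ R) (haπ : a ^ π = 1) (hb : t * b * t = b⁻¹)
    (hab : a * b = b * a) (hfix : (a * b) • c = c) : a = 1 := by
  have i1 : (t * (a * b) * t) • c = c := by
    rw [mul_smul, mul_smul, hc, hfix, hc]
  have i2 : t * (a * b) * t = a * b⁻¹ := by
    have i3 : t * (a * b) * t = a * (t * b * t) := by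
      rw [← mul_assoc, ← hR.comm a ha]
      simp only [mul_assoc]
    rw [i3, hb]
  have i4 : (a * b) * (a * b⁻¹) = a * a := by
    have i5 : (a * b) * (a * b⁻¹) = a * (b * a) * b⁻¹ := by simp only [mul_assoc]
    rw [i5, ← hab]
    group
  have i6 : (a * a) • c = c := by
    rw [← i4, mul_smul, ← i2, i1, hfix]
  have i7 : a * a = 1 := by
    refine (lb_q_card h hne hN hπ hndvd ht hR).2 (a * a) (R.mul_mem ha ha) ?_ ⟨c, hc, i6⟩
    have i8 : Commute a a := Commute.refl a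
    rw [i8.mul_pow, haπ, one_mul]
  obtain ⟨m, hm⟩ := (lb_l_pow h hne hN hπ ht hR).2.1
  have i9 : a ^ π = a := by
    rw [hm, pow_succ, pow_mul, pow_two, i7, one_pow, one_mul]
  rw [← i9, haπ]

/-- `e` inverts the elements of `R t` if `Perp t e`. -/
theorem f4b13_inv {π : ℕ} {t e : G} {R : Subgroup G} (hR : RProp Ω π t R) (hte : Perp t e)
    {g : G} (hg : g ∈ R) : e * g * e = g⁻¹ := by
  have i1 := (hR.perp e hte g hg).2.1.2
  have i2 : e * g * e * g = 1 := by rw [← i1]; simp only [mul_assoc]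
  exact eq_inv_of_mul_eq_one_left i2

theorem f4b13_triple [Finite G] [Finite Ω] [FaithfulSMul G Ω] (h : LHyp G Ω)
    (hne : ∃ x y : Ω, x ≠ y) {r l : ℕ} (hN : NHyp G Ω r l) {π : ℕ} (hπ : π.Prime)
    (hndvd : ¬ π ∣ r) {R : G → Subgroup G} (hR : ∀ t : G, IsInv t → RProp Ω π t (R t))
    {t e f : G} (hte : Perp t e) (htf : Perp t f) (hef : Perp e f) {c : Ω} (hct : t • c = c)
    (hce : e • c = c) (hcf : f • c = c) {a1 a2 a3 : G} (h1 : a1 ∈ R t) (h1' : a1 ^ π = 1)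
    (h2 : a2 ∈ R e) (h2' : a2 ^ π = 1) (h3 : a3 ∈ R f) (h3' : a3 ^ π = 1)
    (hfix : (a1 * (a2 * a3)) • c = c) : a1 = 1 ∧ a2 = 1 ∧ a3 = 1 := by
  have ht := hte.1
  have he := hte.2.1
  have hf := htf.2.1
  have c12 : a2 * a1 = a1 * a2 := lb_QQ h hne hN hπ hndvd hR hte h2 h2' h1 h1'
  have c13 : a3 * a1 = a1 * a3 := lb_QQ h hne hN hπ hndvd hR htf h3 h3' h1 h1'
  have c23 : a3 * a2 = a2 * a3 := lb_QQ h hne hN hπ hndvd hR hef h3 h3' h2 h2'
  have k1 : a1 = 1 := by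
    refine f4b13_sq h hne hN hπ hndvd ht (hR t ht) hct h1 h1' ?_ ?_ hfix
    · have i1 := f4b13_inv (hR e he) (perp_symm hte) h2
      have i2 := f4b13_inv (hR f hf) (perp_symm htf) h3
      have i3 : t * (a2 * a3) * t = (t * a2 * t) * (t * a3 * t) := by
        have i4 : (t * a2 * t) * (t * a3 * t) = t * a2 * (t * t) * a3 * t := by
          simp only [mul_assoc]
        rw [i4, ht.2]
        simp only [mul_assoc, mul_one]
      rw [i3, i1, i2, ← c23, mul_inv_rev]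
    · rw [← mul_assoc, ← c12, mul_assoc, ← c13, mul_assoc]
  rw [k1, one_mul] at hfix
  have k2 : a2 = 1 := by
    refine f4b13_sq h hne hN hπ hndvd he (hR e he) hce h2 h2' ?_ c23.symm hfix
    exact f4b13_inv (hR f hf) (perp_symm hef) h3
  rw [k2, one_mul] at hfix
  exact ⟨k1, k2, (lb_q_card h hne hN hπ hndvd hf (hR f hf)).2 a3 h3 h3' ⟨c, hcf, hfix⟩⟩

theorem f4b13_div {π : ℕ} {t : G} {R : Subgroup G} (hR : RProp Ω π t R) {a b : G}
    (ha : a ∈ R) (haπ : a ^ π = 1) (hb : b ∈ R) (hbπ : b ^ π = 1) : (a⁻¹ * b) ^ π = 1 := by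
  have i1 : Commute a b := hR.ab a ha b hb
  rw [i1.inv_left.mul_pow, inv_pow, haπ, hbπ, inv_one, one_mul]

/-- Job F4B13-2. `l + 1 ≤ r`.

Proof. Let `t` be an involution (`lb_exists_inv`), `c` a fixed point, `e` with `Perp t e`, `e • c = c` (`lb_perp`).
`f = t * e` is an involution, `Perp t f`, `Perp e f` (`perp_mul`), `f • c = c`. Let `Q_t = {q ∈ R t | q ^ π = 1}`,
and similarly `Q_e`, `Q_f`; each has `l` elements (`lb_q_card`); elements of different ones commute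
(`lb_QQ`), elements of the same one as well (`RProp.ab`). The map `Q_t × Q_e × Q_f → Ω`,
`(q₁, q₂, q₃) ↦ (q₁ * q₂ * q₃) • c` is injective: if two triples have the same image then, as all the
elements commute, `g = q₁ * q₂ * q₃` with `q₁ ∈ Q_t, q₂ ∈ Q_e, q₃ ∈ Q_f` the quotients fixes `c`. `t` commutes
with `q₁` (`RProp.comm`) and inverts `q₂` and `q₃` (`RProp.perp` for `Perp e t`, `Perp f t`:
`(t * q₂) * (t * q₂) = 1`). So `t * g * t = q₁ * q₂⁻¹ * q₃⁻¹` fixes `c` and so does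
`g * (t * g * t) = q₁ * q₁ ∈ Q_t`; by `lb_q_card` (second part) `q₁ * q₁ = 1`, and as `q₁ ^ π = 1` with `π` odd
(`lb_l_pow`), `q₁ = 1`. Using `e` instead of `t`: `q₂ = 1`. Then `q₃ = g` fixes `c`, `q₃ = 1`.
So `l * l * l ≤ Nat.card Ω = l * (1 + r * (l - 1))`, `l * l ≤ 1 + r * (l - 1)`,
`(l + 1) * (l - 1) ≤ r * (l - 1)`. -/
theorem lb_r_ge [Finite G] [Finite Ω] [FaithfulSMul G Ω] (h : LHyp G Ω)
    (hne : ∃ x y : Ω, x ≠ y) {r l : ℕ} (hN : NHyp G Ω r l) {π : ℕ} (hπ : π.Prime)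
    (hndvd : ¬ π ∣ r) {R : G → Subgroup G} (hR : ∀ t : G, IsInv t → RProp Ω π t (R t)) :
    l + 1 ≤ r := by
  classical
  obtain ⟨x, y, hxy⟩ := hne
  obtain ⟨t, ht, htx, _⟩ := lb_exists_inv h.toFHyp4 hxy
  have hne : ∃ x y : Ω, x ≠ y := ⟨x, y, hxy⟩
  obtain ⟨e, hte, hex⟩ := (lb_perp h hne ht).1 x htx
  obtain ⟨htf, hef⟩ := perp_mul hte
  have he := hte.2.1
  have hf := htf.2.1
  have hfx : (t * e) • x = x := by rw [mul_smul, hex, htx]
  have ct := (lb_q_card h hne hN hπ hndvd ht (hR t ht)).1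
  have ce := (lb_q_card h hne hN hπ hndvd he (hR e he)).1
  have cf := (lb_q_card h hne hN hπ hndvd hf (hR _ hf)).1
  have hinj : Function.Injective (fun p : {q : G // q ∈ R t ∧ q ^ π = 1} ×
      ({q : G // q ∈ R e ∧ q ^ π = 1} × {q : G // q ∈ R (t * e) ∧ q ^ π = 1}) =>
      ((p.1 : G) * ((p.2.1 : G) * (p.2.2 : G))) • x) := by
    rintro ⟨⟨a1, h1, h1'⟩, ⟨a2, h2, h2'⟩, ⟨a3, h3, h3'⟩⟩
      ⟨⟨b1, g1, g1'⟩, ⟨b2, g2, g2'⟩, ⟨b3, g3, g3'⟩⟩ heq
    have heq' : (a1 * (a2 * a3)) • x = (b1 * (b2 * b3)) • x := heq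
    have c12 : Commute a1 a2 := (lb_QQ h hne hN hπ hndvd hR hte h2 h2' h1 h1').symm
    have c13 : Commute a1 a3 := (lb_QQ h hne hN hπ hndvd hR htf h3 h3' h1 h1').symm
    have c23 : Commute a2 a3 := (lb_QQ h hne hN hπ hndvd hR hef h3 h3' h2 h2').symm
    have d12 : Commute b1 b2 := (lb_QQ h hne hN hπ hndvd hR hte g2 g2' g1 g1').symm
    have d13 : Commute b1 b3 := (lb_QQ h hne hN hπ hndvd hR htf g3 g3' g1 g1').symm
    have d23 : Commute b2 b3 := (lb_QQ h hne hN hπ hndvd hR hef g3 g3' g2 g2').symm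
    have f12 : Commute b2 a1 := lb_QQ h hne hN hπ hndvd hR hte g2 g2' h1 h1'
    have f13 : Commute b3 a1 := lb_QQ h hne hN hπ hndvd hR htf g3 g3' h1 h1'
    have f23 : Commute b3 a2 := lb_QQ h hne hN hπ hndvd hR hef g3 g3' h2 h2'
    have key : (b1⁻¹ * a1) * ((b2⁻¹ * a2) * (b3⁻¹ * a3)) =
        (b1 * (b2 * b3))⁻¹ * (a1 * (a2 * a3)) := by
      have k1 : (b1 * (b2 * b3))⁻¹ = b1⁻¹ * (b2⁻¹ * b3⁻¹) := by
        have k2 : b1 * (b2 * b3) = b3 * (b2 * b1) := by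
          rw [← mul_assoc, (d13.mul_left d23).eq, d12.eq]
        rw [k2]
        simp only [mul_inv_rev, mul_assoc]
      have k3 : b3⁻¹ * a1 = a1 * b3⁻¹ := f13.inv_left.eq
      have k4 : b2⁻¹ * a1 = a1 * b2⁻¹ := f12.inv_left.eq
      have k5 : b3⁻¹ * a2 = a2 * b3⁻¹ := f23.inv_left.eq
      rw [k1]
      calc (b1⁻¹ * a1) * ((b2⁻¹ * a2) * (b3⁻¹ * a3))
          = b1⁻¹ * (a1 * b2⁻¹) * (a2 * b3⁻¹) * a3 := by simp only [mul_assoc]
        _ = b1⁻¹ * (b2⁻¹ * a1) * (b3⁻¹ * a2) * a3 := by rw [k4, k5]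
        _ = b1⁻¹ * b2⁻¹ * (a1 * b3⁻¹) * a2 * a3 := by simp only [mul_assoc]
        _ = b1⁻¹ * b2⁻¹ * (b3⁻¹ * a1) * a2 * a3 := by rw [k3]
        _ = b1⁻¹ * (b2⁻¹ * b3⁻¹) * (a1 * (a2 * a3)) := by simp only [mul_assoc]
    have hfix : ((b1⁻¹ * a1) * ((b2⁻¹ * a2) * (b3⁻¹ * a3))) • x = x := by
      rw [key, mul_smul, heq', inv_smul_smul]
    obtain ⟨r1, r2, r3⟩ := f4b13_triple h hne hN hπ hndvd hR hte htf hef htx hex hfx
      ((R t).mul_mem ((R t).inv_mem g1) h1) (f4b13_div (hR t ht) g1 g1' h1 h1')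
      ((R e).mul_mem ((R e).inv_mem g2) h2) (f4b13_div (hR e he) g2 g2' h2 h2')
      ((R (t * e)).mul_mem ((R (t * e)).inv_mem g3) h3) (f4b13_div (hR _ hf) g3 g3' h3 h3')
      hfix
    have s1 : b1 = a1 := inv_mul_eq_one.1 r1
    have s2 : b2 = a2 := inv_mul_eq_one.1 r2
    have s3 : b3 = a3 := inv_mul_eq_one.1 r3
    subst s1 s2 s3
    rfl
  have hcard := Nat.card_le_card_of_injective _ hinj
  rw [Nat.card_prod, Nat.card_prod, ct, ce, cf, hN.card] at hcard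
  have hl := hN.three
  have hcard2 : l * l ≤ 1 + r * (l - 1) := Nat.le_of_mul_le_mul_left hcard (by omega)
  obtain ⟨m, rfl⟩ : ∃ m, l = m + 1 := ⟨l - 1, by omega⟩
  have hm : m + 1 - 1 = m := by omega
  rw [hm] at hcard2
  have hcard3 : (m + 2) * m ≤ r * m := by nlinarith only [hcard2]
  have := Nat.le_of_mul_le_mul_right hcard3 (by omega)
  omega

end Pool.Agent.H.MP_6268b4_co
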