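import Pool.Agent.H.MP_6268b4_co.F4B8
import Mathlib.LinearAlgebra.Matrix.Charpoly.FiniteField

/-!
A form of the friendship theorem, and the final contradiction.
-/

namespace Pool.Agent.H.MP_6268b4_co

/-- Job F4B14-1. A congruence form of the friendship theorem.

Proof. Let `M` be the adjacency matrix of `A` over `ZMod p` (`M v w = 1` if `A v w`, else `0`). By `hdeg` and
`hcom` `M * M = J`, the matrix with all entries `1` (the diagonal entries are the degrees, `A` is
symmetric). `M * J = J` by `hdeg`. So `M ^ m = J` for all `m ≥ 2` (`M ^ (m + 1) = M * M ^ m = M * J = J`), and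
`M ^ p = J`. The trace of `J` is `Fintype.card V = 1` in `ZMod p`. But
`trace (M ^ p) = (trace M) ^ p` (`ZMod.trace_pow_card`) and `trace M = 0` by `hirr`. So `1 = 0` in `ZMod p`. -/
theorem f4_friend {V : Type*} [Fintype V] [DecidableEq V] {p : ℕ} (hp : p.Prime)
    (A : V → V → Prop) [DecidableRel A] (hsymm : ∀ v w, A v w → A w v)
    (hirr : ∀ v, ¬ A v v)
    (hdeg : ∀ v, (Finset.univ.filter (fun w => A v w)).card ≡ 1 [MOD p])
    (hcom : ∀ v w, v ≠ w →
      (Finset.univ.filter (fun x => A v x ∧ A x w)).card ≡ 1 [MOD p])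
    (hcard : Fintype.card V ≡ 1 [MOD p]) : False := by
  have : Fact p.Prime := ⟨hp⟩
  have hcast : ∀ {a : ℕ}, a ≡ 1 [MOD p] → (a : ZMod p) = 1 := by
    intro a ha
    have := (ZMod.natCast_eq_natCast_iff a 1 p).mpr ha
    simpa using this
  let M : Matrix V V (ZMod p) := Matrix.of fun v w => if A v w then 1 else 0
  let J : Matrix V V (ZMod p) := Matrix.of fun _ _ => 1
  have hMM : M * M = J := by
    ext v w
    rw [Matrix.mul_apply]
    have h1 : ∀ x, M v x * M x w = if (A v x ∧ A x w) then 1 else 0 := by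
      intro x
      simp only [M, Matrix.of_apply]
      by_cases h1 : A v x <;> by_cases h2 : A x w <;> simp [h1, h2]
    rw [Finset.sum_congr rfl fun x _ => h1 x, ← Finset.sum_filter, Finset.sum_const,
      nsmul_eq_mul, mul_one]
    show _ = (1 : ZMod p)
    by_cases hvw : v = w
    · subst hvw
      have h2 : (Finset.univ.filter fun x => A v x ∧ A x v) =
          Finset.univ.filter (fun x => A v x) := by
        refine Finset.filter_congr fun x _ => ⟨fun h => h.1, fun h => ⟨h, hsymm _ _ h⟩⟩
      rw [h2]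
      exact hcast (hdeg v)
    · exact hcast (hcom v w hvw)
  have hMJ : M * J = J := by
    ext v w
    rw [Matrix.mul_apply]
    have h1 : ∀ x, M v x * J x w = if A v x then 1 else 0 := by
      intro x
      simp only [M, J, Matrix.of_apply, mul_one]
    rw [Finset.sum_congr rfl fun x _ => h1 x, ← Finset.sum_filter, Finset.sum_const,
      nsmul_eq_mul, mul_one]
    exact hcast (hdeg v)
  have hpow : ∀ m : ℕ, M ^ (m + 2) = J := by
    intro m
    induction m with
    | zero => rw [zero_add, pow_two, hMM]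
    | succ m ih => rw [show m + 1 + 2 = (m + 2) + 1 from rfl, pow_succ', ih, hMJ]
  have h2p : p - 2 + 2 = p := Nat.sub_add_cancel hp.two_le
  have hMp : M ^ p = J := (congrArg (fun m : ℕ => M ^ m) h2p).symm.trans (hpow (p - 2))
  have htr := ZMod.trace_pow_card (p := p) M
  rw [hMp] at htr
  have htJ : Matrix.trace J = 1 := by
    simp only [Matrix.trace, Matrix.diag, J, Matrix.of_apply, Finset.sum_const, Finset.card_univ,
      nsmul_eq_mul, mul_one]
    exact hcast hcard
  have htM : Matrix.trace M = 0 := by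
    simp only [Matrix.trace, Matrix.diag, M, Matrix.of_apply]
    refine Finset.sum_eq_zero fun v _ => if_neg (hirr v)
  rw [htJ, htM, zero_pow hp.ne_zero] at htr
  exact one_ne_zero htr

variable {G Ω : Type*} [Group G] [MulAction G Ω]

/-- Job F4B14-2. `l + 1 ≤ r` is impossible.

Proof. Let `c ∈ Ω` and `V` the set of the `1 + l * r` involutions fixing `c` (`hN.invc`), with the relation
`Perp`. Each `t ∈ V` has exactly `r` neighbours in `V` (`hN.perpc`). (1) Two different `t, t' ∈ V` have at most
one common neighbour in `V`: suppose `e, e' ∈ V` are adjacent to both. By `lb_perp` (second part, for `e`)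
`g = t * t' ≠ 1` acts trivially on the fixed points of `e`, and similarly of `e'`. Let `y ≠ c` be a fixed
point of `e` (`lb_two'`); for every fixed point `x` of `e'`, `g` fixes `c, y, x`, so by `LHyp.fix` (`g`, `g' = e`) `e`
fixes `x`. So `e, e'` have two common fixed points (`lb_two`) and `e = e'` (`f4_inv_unique`). (2) For a
fixed `t ∈ V` the pairs `(e, t')` in `V × V` with `Perp t e`, `Perp e t'`, `t' ≠ t` are `r * (r - 1)` in number and
by (1) `t'` determines `e`; so `r * (r - 1) ≤ Nat.card V - 1 = l * r`, `r - 1 ≤ l`. So `r = l + 1`, and equality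
holds: every `t' ≠ t` in `V` has exactly one common neighbour with `t`. Now use `f4_friend` with `p = π`,
`π ∣ l`: degrees are `r = l + 1 ≡ 1`, common neighbours `1`, and
`Nat.card V = 1 + l * r ≡ 1` modulo `π`. -/
theorem lb_r_lt [Finite G] [Finite Ω] [FaithfulSMul G Ω] (h : LHyp G Ω)
    (hne : ∃ x y : Ω, x ≠ y) {r l : ℕ} (hN : NHyp G Ω r l) {π : ℕ} (hπ : π.Prime)
    (hπl : π ∣ l) : ¬ (l + 1 ≤ r) := by
  classical
  intro hlr
  obtain ⟨c, c', hcc⟩ := hne
  have hne : ∃ x y : Ω, x ≠ y := ⟨c, c', hcc⟩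
  let V := {t : G // IsInv t ∧ t • c = c}
  have : Fintype V := Fintype.ofFinite V
  have hcardV : Fintype.card V = 1 + l * r := by
    rw [← Nat.card_eq_fintype_card]
    exact hN.invc c
  let A : V → V → Prop := fun v w => Perp v.1 w.1
  have hsymm : ∀ v w, A v w → A w v := fun v w hvw => perp_symm hvw
  have hirr : ∀ v, ¬ A v v := fun v hv => hv.2.2.1 rfl
  have hdeg : ∀ v : V, (Finset.univ.filter (fun w => A v w)).card = r := by
    intro v
    rw [← hN.perpc v.1 c v.2.1 v.2.2, ← Fintype.card_subtype, ← Nat.card_eq_fintype_card]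
    refine Nat.card_congr ⟨fun w => ⟨w.1.1, w.2, w.1.2.2⟩,
      fun e => ⟨⟨e.1, e.2.1.2.1, e.2.2⟩, e.2.1⟩, fun w => ?_, fun e => ?_⟩
    · rfl
    · rfl
  -- two different elements have at most one common neighbour
  have huni : ∀ v w : V, v ≠ w → ∀ x y : V, A v x → A x w → A v y → A y w → x = y := by
    intro v w hvw x y hvx hxw hvy hyw
    have hvw' : v.1 ≠ w.1 := fun hh => hvw (Subtype.ext hh)
    set g : G := v.1 * w.1 with hg
    have hg1 : g ≠ 1 := by
      intro hh
      apply hvw'
      have h1 : v.1 = w.1⁻¹ := eq_inv_of_mul_eq_one_left hh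
      have h2 : w.1⁻¹ = w.1 := inv_eq_of_mul_eq_one_left w.2.1.2
      rw [h1, h2]
    have hgx : ∀ u : Ω, x.1 • u = u → g • u = u :=
      (lb_perp h hne x.2.1).2.1 c v.1 w.1 x.2.2 (perp_symm hvx) hxw v.2.2 w.2.2
    have hgy : ∀ u : Ω, y.1 • u = u → g • u = u :=
      (lb_perp h hne y.2.1).2.1 c v.1 w.1 y.2.2 (perp_symm hvy) hyw v.2.2 w.2.2
    obtain ⟨a, hac, hxa⟩ := lb_two' h hne x.2.1 c
    have hall : ∀ u : Ω, y.1 • u = u → x.1 • u = u := fun u hu =>
      h.fix g x.1 c a u hac.symm hg1 (hgx c x.2.2) (hgx a hxa) x.2.2 hxa (hgy u hu)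
    obtain ⟨b, hbc, hyb⟩ := lb_two' h hne y.2.1 c
    by_contra hxy
    have hxy' : x.1 ≠ y.1 := fun hh => hxy (Subtype.ext hh)
    exact hbc (lb_common_unique h.toFHyp4.toFHyp x.2.1 y.2.1 hxy' (hall b hyb) hyb x.2.2 y.2.2)
  have hle : ∀ v w : V, v ≠ w →
      (Finset.univ.filter (fun x => A v x ∧ A x w)).card ≤ 1 := by
    intro v w hvw
    rw [Finset.card_le_one]
    intro x hx y hy
    rw [Finset.mem_filter] at hx hy
    exact huni v w hvw x y hx.2.1 hx.2.2 hy.2.1 hy.2.2
  have hsum : ∀ v : V, ∑ w ∈ Finset.univ.erase v,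
      (Finset.univ.filter (fun x => A v x ∧ A x w)).card = r * (r - 1) := by
    intro v
    have h1 : ∀ w : V, (Finset.univ.filter (fun x => A v x ∧ A x w)).card =
        ∑ x ∈ Finset.univ.filter (fun x => A v x), if A x w then 1 else 0 := by
      intro w
      rw [← Finset.sum_filter, Finset.filter_filter, Finset.card_eq_sum_ones]
    rw [Finset.sum_congr rfl fun w _ => h1 w, Finset.sum_comm]
    have h2 : ∀ x ∈ Finset.univ.filter (fun x => A v x),
        (∑ w ∈ Finset.univ.erase v, if A x w then 1 else 0) = r - 1 := by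
      intro x hx
      rw [Finset.mem_filter] at hx
      rw [← Finset.sum_filter, ← Finset.card_eq_sum_ones, Finset.filter_erase,
        Finset.card_erase_of_mem (by
          rw [Finset.mem_filter]
          exact ⟨Finset.mem_univ _, hsymm _ _ hx.2⟩), hdeg x]
    rw [Finset.sum_congr rfl h2, Finset.sum_const, hdeg v, smul_eq_mul]
  have hcard1 : ∀ v : V, (Finset.univ.erase v).card = l * r := by
    intro v
    rw [Finset.card_erase_of_mem (Finset.mem_univ _), Finset.card_univ, hcardV]
    omega
  -- a base point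
  have hVne : Nonempty V := by
    rw [← Fintype.card_pos_iff, hcardV]
    omega
  obtain ⟨v₀⟩ := hVne
  have hrl : r = l + 1 := by
    have h1 : r * (r - 1) ≤ l * r := by
      rw [← hsum v₀, ← hcard1 v₀, Finset.card_eq_sum_ones]
      refine Finset.sum_le_sum fun w hw => hle v₀ w ?_
      exact (Finset.ne_of_mem_erase hw).symm
    have h2 : r * (r - 1) ≤ r * l := by rw [mul_comm r l]; exact h1
    have h3 : r - 1 ≤ l := Nat.le_of_mul_le_mul_left h2 (by omega)
    omega
  have hcom : ∀ v w : V, v ≠ w →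
      (Finset.univ.filter (fun x => A v x ∧ A x w)).card = 1 := by
    intro v w hvw
    have h1 : ∑ w ∈ Finset.univ.erase v, (Finset.univ.filter (fun x => A v x ∧ A x w)).card =
        ∑ _w ∈ Finset.univ.erase v, 1 := by
      rw [hsum v, ← Finset.card_eq_sum_ones, hcard1 v, hrl]
      simp only [Nat.add_sub_cancel]
      ring
    have h2 := (Finset.sum_eq_sum_iff_of_le (fun w hw =>
      hle v w (Finset.ne_of_mem_erase hw).symm)).mp h1
    exact h2 w (Finset.mem_erase.mpr ⟨hvw.symm, Finset.mem_univ _⟩)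
  have hl1 : l + 1 ≡ 1 [MOD π] := by
    have : l ≡ 0 [MOD π] := (Nat.modEq_zero_iff_dvd).mpr hπl
    simpa using this.add_right 1
  refine f4_friend hπ A hsymm hirr (fun v => ?_) (fun v w hvw => ?_) ?_
  · rw [hdeg v, hrl]
    exact hl1
  · rw [hcom v w hvw]
  · rw [hcardV]
    have : l * r ≡ 0 [MOD π] := (Nat.modEq_zero_iff_dvd).mpr (dvd_mul_of_dvd_left hπl r)
    simpa using this.add_left 1

end Pool.Agent.H.MP_6268b4_co
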