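import Pool.Agent.H.MP_6268b4_co.F4B10
import Pool.Agent.H.MP_6268b4_co.F4B13
import Pool.Agent.H.MP_6268b4_co.F4B14
import Pool.Agent.H.MP_6268b4_co.F4A3

/-!
The case of an odd number of fixed points does not occur.
-/

namespace Pool.Agent.H.MP_6268b4_co

variable {G Ω : Type*} [Group G] [MulAction G Ω]

/-- Job F4B15-1.

Proof. `lb_R` gives `π` and `R`, `lb_N` gives `r, l`. There is an involution `t` (`lb_exists_inv`), so
`π ∣ l` by `lb_l_pow`. `lb_ndvd`, `lb_r_ge`, `lb_r_lt`. -/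
theorem lb_false [Finite G] [Finite Ω] [FaithfulSMul G Ω] (h : LHyp G Ω)
    (hne : ∃ x y : Ω, x ≠ y) : False := by
  obtain ⟨π, hπ, R, hR⟩ := lb_R h hne
  obtain ⟨r, l, hN⟩ := lb_N h hne
  obtain ⟨x, y, hxy⟩ := hne
  obtain ⟨t, ht, _, _⟩ := lb_exists_inv h.toFHyp4 hxy
  obtain ⟨⟨m, hm, hlm⟩, _, _⟩ := lb_l_pow h ⟨x, y, hxy⟩ hN hπ ht (hR t ht)
  have hπl : π ∣ l := by
    rw [hlm]
    exact dvd_pow_self π (by omega)
  exact lb_r_lt h ⟨x, y, hxy⟩ hN hπ hπl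
    (lb_r_ge h ⟨x, y, hxy⟩ hN hπ (lb_ndvd h ⟨x, y, hxy⟩ hN hπ hR) hR)

/-- Job F4B15-2. Only the identity fixes three points (`f4_cases`, `lb_false`). -/
theorem f4_Z [Finite G] [Finite Ω] [FaithfulSMul G Ω] (h : FHyp4 G Ω)
    (hne : ∃ x y : Ω, x ≠ y) : ZHyp G Ω := by
  rcases f4_cases h with h1 | h1
  · exact (lb_false h1 hne).elim
  · exact h1

end Pool.Agent.H.MP_6268b4_co
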