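import Pool.Agent.H.MP_6268b4_co.F4B1

/-!
Every involution has at least two (hence three) fixed points.
-/

namespace Pool.Agent.H.MP_6268b4_co

variable {G Ω : Type*} [Group G] [MulAction G Ω]

theorem f4b2_inv_smul {q : G} {s t : Ω} (hq : q • s = t) : q⁻¹ • t = s := by
  rw [← hq, inv_smul_smul]

theorem f4b2_conj_inv {t : G} (ht : IsInv t) (g : G) : IsInv (g * t * g⁻¹) := by
  refine ⟨?_, ?_⟩
  · intro h1
    apply ht.1
    have h2 : t = g⁻¹ * (g * t * g⁻¹) * g := by group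
    rw [h2, h1, mul_one, inv_mul_cancel]
  · have h2 : g * t * g⁻¹ * (g * t * g⁻¹) = g * (t * t) * g⁻¹ := by group
    rw [h2, ht.2, mul_one, mul_inv_cancel]

theorem f4b2_step1 [Finite G] [Finite Ω] (h : LHyp G Ω) {t z : G} {v x : Ω} (ht : IsInv t)
    (hu : ∀ u : Ω, t • u = u → u = v) (hxv : x ≠ v) (hz : IsInv z) (hzv : z • v = v)
    (hzx : z • x = x) : t * z = z * t := by
  have hne : x ≠ t • x := fun h1 => hxv (hu x h1.symm)
  obtain ⟨z0, hz0, h1, h2⟩ := lb_exists_inv h.toFHyp4 hne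
  have htt : t • t • x = x := by rw [← mul_smul, ht.2, one_smul]
  have hc := lb_swap_comm h.toFHyp4.toFHyp hne hz0 h1 h2 rfl htt
  obtain ⟨c, hc1, hc2⟩ := lb_common h hne hz0 h1 h2 ht.2 hc.symm
  have hcv := hu c hc2
  rw [hcv] at hc1
  have : z0 = z := f4_inv_unique h.toFHyp4.toFHyp hxv hz0 hz h1 hc1 hzx hzv
  rw [← this]
  exact hc

theorem f4b2_step2 [Finite G] [Finite Ω] (h : LHyp G Ω) {t z : G} {v x : Ω} (ht : IsInv t)
    (hu : ∀ u : Ω, t • u = u → u = v) (hxv : x ≠ v) (hz : IsInv z) (hzv : z • v = v)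
    (hzx : z • x = x) : IsInv (t * z) ∧ ∀ u : Ω, (t * z) • u = u → u = v := by
  have htz := f4b2_step1 h ht hu hxv hz hzv hzx
  obtain ⟨s, hs1, hs2, hs4⟩ := h.four v x hxv.symm
  have hss : IsInv (s * s) := by
    refine ⟨?_, ?_⟩
    · intro h1
      have h2 : orderOf s ∣ 2 := orderOf_dvd_of_pow_eq_one (by rw [pow_two]; exact h1)
      rw [hs4] at h2
      omega
    · have h1 : s ^ 4 = 1 := by rw [← hs4]; exact pow_orderOf_eq_one s
      rw [← h1]
      simp only [pow_succ, pow_zero, one_mul, mul_assoc]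
  have hsz : s * s = z := f4_inv_unique h.toFHyp4.toFHyp hxv hss hz
    (by rw [mul_smul, hs2, hs2]) (by rw [mul_smul, hs1, hs1]) hzx hzv
  have hne : x ≠ t • x := fun h1 => hxv (hu x h1.symm)
  have h1 : z • (t • x) = t • x := by
    rw [← mul_smul, ← htz, mul_smul, hzx]
  have h2 : s • (t • x) = t • x :=
    h.fix z s v x (t • x) hxv.symm hz.1 hzv hzx hs1 hs2 h1
  have htt : t • t • x = x := by rw [← mul_smul, ht.2, one_smul]
  have h3 := f4_inv h.toFHyp4.toFHyp hne (g := t) (k := s) rfl htt hs2 h2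
  have h4 : s * t * s⁻¹ = t * z := by
    have h5 : s * t * s⁻¹ = (t * t) * (s * t * s⁻¹) := by rw [ht.2, one_mul]
    have h6 : (t * t) * (s * t * s⁻¹) = t * (t * s * t) * s⁻¹ := by
      simp only [mul_assoc]
    have h7 : t * s⁻¹ * s⁻¹ = t * (s * s)⁻¹ := by rw [mul_inv_rev, mul_assoc]
    have h8 : z⁻¹ = z := inv_eq_of_mul_eq_one_right hz.2
    rw [h5, h6, h3, h7, hsz, h8]
  refine ⟨h4 ▸ f4b2_conj_inv ht s, ?_⟩
  intro u hu1
  rw [← h4, mul_smul, mul_smul] at hu1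
  have h5 : t • s⁻¹ • u = s⁻¹ • u := (f4b2_inv_smul hu1).symm
  have h6 := hu _ h5
  rw [← hs1, ← h6, smul_inv_smul]

theorem f4b2_step3 [Finite G] [Finite Ω] (h : LHyp G Ω) {t z z' : G} {v x y : Ω}
    (ht : IsInv t) (hu : ∀ u : Ω, t • u = u → u = v) (hxv : x ≠ v) (hyv : y ≠ v)
    (hz : IsInv z) (hzv : z • v = v) (hzx : z • x = x)
    (hz' : IsInv z') (hzv' : z' • v = v) (hzy' : z' • y = y) : z * z' = z' * z := by
  have h1 := f4b2_step2 h ht hu hxv hz hzv hzx
  have h2 := f4b2_step1 h ht hu hyv hz' hzv' hzy'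
  have h3 := f4b2_step1 h h1.1 h1.2 hyv hz' hzv' hzy'
  have h4 : z = t * (t * z) := by rw [← mul_assoc, ht.2, one_mul]
  rw [h4, mul_assoc, h3, ← mul_assoc, h2, mul_assoc]

theorem f4b2_step4 [Finite G] [Finite Ω] (h : LHyp G Ω) {t z z' : G} {v w x y : Ω}
    (ht : IsInv t) (hu : ∀ u : Ω, t • u = u → u = v) (hxw : x ≠ w) (hyw : y ≠ w)
    (hne : ∃ x y : Ω, x ≠ y)
    (hz : IsInv z) (hzw : z • w = w) (hzx : z • x = x)
    (hz' : IsInv z') (hzw' : z' • w = w) (hzy' : z' • y = y) : z * z' = z' * z := by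
  obtain ⟨v0, hv0⟩ : ∃ v0 : Ω, v0 ≠ v := by
    obtain ⟨a, b, hab⟩ := hne
    by_cases hav : a = v
    · exact ⟨b, fun hb => hab (hav.trans hb.symm)⟩
    · exact ⟨a, hav⟩
  obtain ⟨g, hg1, hg2⟩ := h.two w x v v0 hxw.symm hv0.symm
  have e1 : g⁻¹ • v = w := f4b2_inv_smul hg1
  have hcon : ∀ k : G, ∀ a b : Ω, k • a = a → g • a = b → (g * k * g⁻¹) • b = b := by
    intro k a b hk hab
    rw [mul_smul, mul_smul, f4b2_inv_smul hab, hk, hab]
  have hcom := f4b2_step3 h (z := g * z * g⁻¹) (z' := g * z' * g⁻¹) (x := g • x) (y := g • y)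
    ht hu
    (fun hh => hxw (by rw [← e1, ← hh, inv_smul_smul]))
    (fun hh => hyw (by rw [← e1, ← hh, inv_smul_smul]))
    (f4b2_conj_inv hz g) (hcon z w v hzw hg1) (hcon z x _ hzx rfl)
    (f4b2_conj_inv hz' g) (hcon z' w v hzw' hg1) (hcon z' y _ hzy' rfl)
  have h1 : z * z' = g⁻¹ * ((g * z * g⁻¹) * (g * z' * g⁻¹)) * g := by group
  have h2 : z' * z = g⁻¹ * ((g * z' * g⁻¹) * (g * z * g⁻¹)) * g := by group
  rw [h1, h2, hcom]

/-- Job F4B2.

Proof. For `a ≠ b` let `z_{ab}` be the unique involution fixing `a, b` (`lb_exists_inv`,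
`f4_inv_unique`). Suppose `t` is an involution with at most one fixed point; it has exactly one, `v`
(`lb_fixed_odd`).
(1) Let `t'` be an involution whose only fixed point is `v'`, and `x ≠ v'`. Then `t'` commutes with
`z_{v' x}`: `t' • x ≠ x`, let `z` be the involution fixing `x` and `t' • x`. `t'` interchanges these
points, so it commutes with `z` (`lb_swap_comm`) and has a common fixed point with `z` (`lb_common`),
which is `v'`. So `z` fixes `v'` and `x`, `z = z_{v' x}`.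
(2) Let `x ≠ v`, `z = z_{v x}`, `s` of order 4 fixing `v, x` (`four`); `s * s = z` (`f4_inv_unique`). `t`
commutes with `z` by (1), so `t • x ≠ x` is also fixed by `z`, hence also by `s` (`LHyp.fix` with
`g = z`, `g' = s`). `t` interchanges the points `x`, `t • x` fixed by `s`, so `t * s * t = s⁻¹` (`f4_inv`)
and `s * t * s⁻¹ = t * (t * s * t) * s⁻¹ = t * s⁻¹ * s⁻¹ = t * z`. So `t * z` is an involution with the
only fixed point `s • v = v`. By (1) both `t` and `t * z` commute with `z_{v y}` for all `y ≠ v`, and so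
does `z = t * (t * z)`. So: `z_{v x}` and `z_{v y}` commute for all `x, y ≠ v`.
(3) By conjugation (`two`: for every point `w` there is `g` with `g • v = w`) `z_{w x}` and `z_{w y}`
commute for all `w`, `x, y ≠ w`.
(4) Take `y ≠ v`, `z = z_{v y}`. As `z ≠ 1` and the action is faithful there is `x` with `z • x ≠ x`;
`x ≠ v`, `x ≠ y`. By (3) `z` commutes with `a = z_{v x}` (common point `v`) and with `b = z_{y x}` (common
point `y`). So `a` and `b` both fix `x` and `z • x ≠ x`, `a = b` (`f4_inv_unique`); so `a` fixes `v` and `y`,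
`a = z`; but `a • x = x`, `z • x ≠ x`, a contradiction. -/
theorem lb_two [Finite G] [Finite Ω] [FaithfulSMul G Ω] (h : LHyp G Ω)
    (hne : ∃ x y : Ω, x ≠ y) {t : G} (ht : IsInv t) :
    ∃ x y : Ω, x ≠ y ∧ t • x = x ∧ t • y = y := by
  obtain ⟨v, htv⟩ := (lb_fixed_odd h hne ht.2).2
  by_contra hcon
  have hu : ∀ u : Ω, t • u = u → u = v := by
    intro u hu1
    by_contra huv
    exact hcon ⟨u, v, huv, hu1, htv⟩
  obtain ⟨y, hyv⟩ : ∃ v0 : Ω, v0 ≠ v := by
    obtain ⟨a, b, hab⟩ := hne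
    by_cases hav : a = v
    · exact ⟨b, fun hb => hab (hav.trans hb.symm)⟩
    · exact ⟨a, hav⟩
  obtain ⟨z, hz, hzv, hzy⟩ := lb_exists_inv h.toFHyp4 hyv.symm
  obtain ⟨x, hzx⟩ : ∃ x : Ω, z • x ≠ x := by
    by_contra hall
    push Not at hall
    apply hz.1
    apply FaithfulSMul.eq_of_smul_eq_smul (α := Ω)
    intro a
    rw [hall a, one_smul]
  have hxv : x ≠ v := fun hh => hzx (by rw [hh, hzv])
  have hxy : x ≠ y := fun hh => hzx (by rw [hh, hzy])
  obtain ⟨a, ha, hav, hax⟩ := lb_exists_inv h.toFHyp4 hxv.symm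
  obtain ⟨b, hb, hby, hbx⟩ := lb_exists_inv h.toFHyp4 hxy.symm
  have hza := f4b2_step4 h ht hu (w := v) (x := y) (y := x) hyv hxv hne hz hzv hzy ha hav hax
  have hzb := f4b2_step4 h ht hu (w := y) (x := v) (y := x) hyv.symm hxy hne hz hzy hzv hb hby hbx
  have hab : a = b := by
    apply f4_inv_unique h.toFHyp4.toFHyp (x := x) (y := z • x) hzx.symm ha hb hax
    · rw [← mul_smul, ← hza, mul_smul, hax]
    · exact hbx
    · rw [← mul_smul, ← hzb, mul_smul, hbx]
  have haz : a = z := by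
    apply f4_inv_unique h.toFHyp4.toFHyp (x := v) (y := y) hyv.symm ha hz hav
    · rw [hab]; exact hby
    · exact hzv
    · exact hzy
  apply hzx
  rw [← haz]
  exact hax

/-- Job F4B2-2. If moreover `c` is a fixed point there is another one. -/
theorem lb_two' [Finite G] [Finite Ω] [FaithfulSMul G Ω] (h : LHyp G Ω)
    (hne : ∃ x y : Ω, x ≠ y) {t : G} (ht : IsInv t) (c : Ω) :
    ∃ y : Ω, y ≠ c ∧ t • y = y := by
  obtain ⟨x, y, hxy, hx, hy⟩ := lb_two h hne ht
  by_cases hxc : x = c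
  · exact ⟨y, fun hyc => hxy (hxc.trans hyc.symm), hy⟩
  · exact ⟨x, hxc, hx⟩

/-- Job F4B2-3. Any two involutions are conjugate: they fix two points each; `two` and
`f4_inv_unique`. -/
theorem lb_conj [Finite G] [Finite Ω] [FaithfulSMul G Ω] (h : LHyp G Ω)
    (hne : ∃ x y : Ω, x ≠ y) {t t' : G} (ht : IsInv t) (ht' : IsInv t') :
    ∃ g : G, g * t * g⁻¹ = t' := by
  obtain ⟨x, y, hxy, hx, hy⟩ := lb_two h hne ht
  obtain ⟨x', y', hxy', hx', hy'⟩ := lb_two h hne ht'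
  obtain ⟨g, hg1, hg2⟩ := h.two x y x' y' hxy hxy'
  refine ⟨g, ?_⟩
  apply f4_inv_unique h.toFHyp4.toFHyp hxy' (f4b2_conj_inv ht g) ht'
  · rw [mul_smul, mul_smul, f4b2_inv_smul hg1, hx, hg1]
  · rw [mul_smul, mul_smul, f4b2_inv_smul hg2, hy, hg2]
  · exact hx'
  · exact hy'

end Pool.Agent.H.MP_6268b4_co
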