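import Pool.Agent.H.MP_6268b4_co.RSharp

/-!
Sharply 2-transitive groups of odd degree: the regular abelian normal subgroup.
-/

namespace Pool.Agent.H.MP_6268b4_co

variable {F Δ : Type*} [Group F] [MulAction F Δ]

/-- An element fixing two different points is trivial. -/
theorem rsharpe_fix2 (h : SharpTwo F Δ) {x y : Δ} (hxy : x ≠ y) {g : F} (hx : g • x = x)
    (hy : g • y = y) : g = 1 := by
  obtain ⟨u, _, hu⟩ := h x y x y hxy hxy
  rw [hu g ⟨hx, hy⟩, hu 1 ⟨one_smul _ _, one_smul _ _⟩]

/-- Every involution has a fixed point. -/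
theorem rsharpe_inv_fix [Finite Δ] (hodd : Odd (Nat.card Δ)) (u : F) (hu : u * u = 1) :
    ∃ x : Δ, u • x = x := by
  classical
  haveI := Fintype.ofFinite Δ
  have : Fact (Nat.Prime 2) := ⟨Nat.prime_two⟩
  have hnd : ¬ 2 ∣ Fintype.card Δ := by
    rw [← Nat.card_eq_fintype_card]
    intro hd
    exact (Nat.not_even_iff_odd.mpr hodd) (even_iff_two_dvd.mpr hd)
  have hσ : (MulAction.toPerm u : Equiv.Perm Δ) ^ 2 ^ 1 = 1 := by
    ext z
    simp [pow_two, smul_smul, hu]
  obtain ⟨a, ha⟩ := Equiv.Perm.exists_fixed_point_of_prime (p := 2) (n := 1) hnd hσ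
  exact ⟨a, by simpa using ha⟩

/-- The number of fixed-point-free elements, plus one, is the degree. -/
theorem rsharpe_card [Fintype F] [Fintype Δ] [DecidableEq F] [DecidableEq Δ] (h : SharpTwo F Δ)
    (h3 : 3 ≤ Nat.card Δ) :
    (Finset.univ.filter (fun g : F => g = 1 ∨ ∀ z : Δ, g • z ≠ z)).card = Fintype.card Δ := by
  classical
  have hcard : 3 ≤ Fintype.card Δ := by rwa [Nat.card_eq_fintype_card] at h3
  have hpre : MulAction.IsPretransitive F Δ := by
    refine ⟨fun x y => ?_⟩
    obtain ⟨x', hx'⟩ : ∃ x' : Δ, x' ≠ x :=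
      Fintype.exists_ne_of_one_lt_card (by omega) x
    obtain ⟨y', hy'⟩ : ∃ y' : Δ, y' ≠ y :=
      Fintype.exists_ne_of_one_lt_card (by omega) y
    obtain ⟨g, ⟨hg, _⟩, _⟩ := h x x' y y' hx'.symm hy'.symm
    exact ⟨g, hg⟩
  have : Nonempty Δ := Fintype.card_pos_iff.mp (by omega)
  obtain ⟨x0⟩ := ‹Nonempty Δ›
  have : Subsingleton (MulAction.orbitRel.Quotient F Δ) :=
    MulAction.pretransitive_iff_subsingleton_quotient F Δ |>.mp hpre
  have : Nonempty (MulAction.orbitRel.Quotient F Δ) := ⟨Quotient.mk'' x0⟩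
  haveI : Fintype (MulAction.orbitRel.Quotient F Δ) := Fintype.ofFinite _
  have hB := MulAction.sum_card_fixedBy_eq_card_orbits_mul_card_group F Δ
  have hone : Fintype.card (MulAction.orbitRel.Quotient F Δ) = 1 := by
    rw [Fintype.card_eq_one_iff_nonempty_unique]
    exact ⟨uniqueOfSubsingleton (Quotient.mk'' x0)⟩
  rw [hone, one_mul] at hB
  -- the number of fixed points
  have hf1 : Fintype.card (MulAction.fixedBy Δ (1 : F)) = Fintype.card Δ := by
    have : MulAction.fixedBy Δ (1 : F) = Set.univ := by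
      ext z; simp
    simp [this]
  have hfg : ∀ g : F, g ≠ 1 →
      Fintype.card (MulAction.fixedBy Δ g) + (if (∀ z : Δ, g • z ≠ z) then 1 else 0) = 1 := by
    intro g hg
    split_ifs with hz
    · have : IsEmpty (MulAction.fixedBy Δ g) := ⟨fun z => hz z.1 z.2⟩
      rw [Fintype.card_eq_zero]
    · push Not at hz
      obtain ⟨z, hz⟩ := hz
      rw [add_zero, Fintype.card_eq_one_iff]
      refine ⟨⟨z, hz⟩, fun y => ?_⟩
      by_contra hne
      apply hg
      refine rsharpe_fix2 h (x := y.1) (y := z) ?_ y.2 hz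
      intro he
      exact hne (Subtype.ext he)
  have hsum : ∑ g ∈ Finset.univ.erase (1 : F), (Fintype.card (MulAction.fixedBy Δ g) +
      (if (∀ z : Δ, g • z ≠ z) then 1 else 0)) = Fintype.card F - 1 := by
    rw [Finset.sum_congr rfl (fun g hg => hfg g (Finset.ne_of_mem_erase hg))]
    simp [Finset.card_erase_of_mem]
  rw [Finset.sum_add_distrib] at hsum
  have hB2 : Fintype.card (MulAction.fixedBy Δ (1 : F)) +
      ∑ g ∈ Finset.univ.erase (1 : F), Fintype.card (MulAction.fixedBy Δ g) = Fintype.card F := by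
    rw [← hB]
    exact Finset.add_sum_erase Finset.univ (fun g : F => Fintype.card (MulAction.fixedBy Δ g))
      (Finset.mem_univ 1)
  rw [hf1] at hB2
  have hfilter : (Finset.univ.filter (fun g : F => g = 1 ∨ ∀ z : Δ, g • z ≠ z)) =
      insert 1 ((Finset.univ.erase (1 : F)).filter (fun g : F => ∀ z : Δ, g • z ≠ z)) := by
    ext g
    simp only [Finset.mem_filter, Finset.mem_univ, true_and, Finset.mem_insert,
      Finset.mem_erase, and_true]
    tauto
  rw [hfilter, Finset.card_insert_of_notMem (by simp), Finset.card_filter]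
  have hFpos : 0 < Fintype.card F := Fintype.card_pos
  omega

/-- Job RSharp-2. A sharply 2-transitive group of odd degree `≥ 3` has an abelian subgroup `E`
acting simply transitively, containing all products of two involutions, with `C_F(e) = E` for
`1 ≠ e ∈ E`, whose nonidentity elements have prime order.

Proof. Let `r = Nat.card Δ` and for `x : Δ` let `i x` be the unique involution fixing `x`
(`sharp_unique_inv`); `i x` fixes no other point (an element fixing two points is `1`).
(1) For `x ≠ y` the element `i x * i y` has no fixed point: if `i x (i y z) = z` then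
`i y z = i x z =: z'`; if `z' = z` then `z` is fixed by both, so `z = x` and `z = y`; otherwise both
`i x` and `i y` interchange `z` and `z'`, so `i x = i y` by uniqueness, and `x = y`.
(2) Counting: `Nat.card F = r (r - 1)` (orbit-stabilizer for ordered pairs; or the map
`g ↦ (g x, g y)` for fixed `x ≠ y` is a bijection onto the pairs of distinct points). For each `x`
the stabilizer of `x` has `r - 1` elements (`g ↦ g y` is a bijection to the points `≠ x`). So the
number of elements with exactly one fixed point is `r (r - 2)`, there is one element with more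
fixed points (the identity), and the number of fixed-point-free elements is
`r (r-1) - 1 - r (r-2) = r - 1`.
(3) For fixed `x` the `r - 1` elements `i x * i y`, `y ≠ x`, are distinct and fixed-point-free, so
they are all the fixed-point-free elements; the same for the elements `i y * i x`.
(4) Let `E = {g | g = 1 ∨ ∀ z, g z ≠ z}`. By (3), for each `x`, `E = {i x * i y | y}` and
`E = {i y * i x | y}`. If `e = i y * i x` and `e' = i x * i z` then `e * e' = i y * i z ∈ E`;
`(i x * i y)⁻¹ = i y * i x ∈ E`. So `E` is a subgroup, obviously closed under conjugation.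
(5) Fix `x`. Conjugation by `i x` maps `i x * i y` to `i y * i x = (i x * i y)⁻¹`; so inversion is
an automorphism of `E`, and `E` is abelian.
(6) `Nat.card E = r`, and for `x : Δ` the map `E → Δ`, `e ↦ e x` is injective (an element of `E`
with a fixed point is `1`), so bijective: simply transitive.
(7) All involutions are of the form `i x`, so products of two involutions are in `E`.
(8) Let `1 ≠ e ∈ E` and `g * e = e * g`. Take any `x`, let `e' ∈ E` with `e' x = g x`;
`n = e'⁻¹ g` fixes `x` and commutes with `e`, so it fixes `e x ≠ x` as well; `n = 1`, `g = e' ∈ E`.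
(9) Let `e, e' ∈ E ∖ {1}`, `x : Δ`. There is `g` with `g x = x`, `g (e x) = e' x`. Then
`g e g⁻¹ ∈ E` maps `x` to `e' x`, so `g e g⁻¹ = e'` by (6). So all nonidentity elements of `E`
have the same order `m > 1`; if `ℓ` is a prime divisor of `m` then `e ^ (m / ℓ)` has order `ℓ`
and is in `E ∖ {1}`, so `m = ℓ`. -/
theorem sharp_exists_E [Finite F] [Finite Δ] (h : SharpTwo F Δ) (hodd : Odd (Nat.card Δ))
    (h3 : 3 ≤ Nat.card Δ) : ∃ E : Subgroup F,
      (∀ e ∈ E, ∀ e' ∈ E, e * e' = e' * e) ∧
      (∀ x y : Δ, ∃! e : F, e ∈ E ∧ e • x = y) ∧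
      (∀ p q : F, p ≠ 1 → q ≠ 1 → p * p = 1 → q * q = 1 → p * q ∈ E) ∧
      (∀ e ∈ E, e ≠ 1 → ∀ g : F, g * e = e * g → g ∈ E) ∧
      (∀ e ∈ E, e ≠ 1 → (orderOf e).Prime) := by
  classical
  haveI := Fintype.ofFinite F
  haveI := Fintype.ofFinite Δ
  have hcard : 3 ≤ Fintype.card Δ := by rwa [Nat.card_eq_fintype_card] at h3
  obtain ⟨x0⟩ : Nonempty Δ := Fintype.card_pos_iff.mp (by omega)
  choose i hi hiu using fun x => sharp_unique_inv h hodd h3 x
  have hi1 : ∀ x, i x ≠ 1 := fun x => (hi x).1
  have hii : ∀ x, i x * i x = 1 := fun x => (hi x).2.1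
  have hix : ∀ x, i x • x = x := fun x => (hi x).2.2
  have hiinv : ∀ x, (i x)⁻¹ = i x := fun x => inv_eq_of_mul_eq_one_left (hii x)
  have hfix : ∀ x z, i x • z = z → z = x := by
    intro x z hz
    by_contra hne
    exact hi1 x (rsharpe_fix2 h hne hz (hix x))
  have hinj : ∀ x y, i x = i y → x = y := by
    intro x y hxy
    apply hfix
    rw [← hxy]; exact hix x
  have hall : ∀ u : F, u ≠ 1 → u * u = 1 → ∃ x, u = i x := by
    intro u hu1 huu
    obtain ⟨x, hx⟩ := rsharpe_inv_fix hodd u huu
    exact ⟨x, hiu x u ⟨hu1, huu, hx⟩⟩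
  have hsm : ∀ x z : Δ, i x • i x • z = z := fun x z => by rw [smul_smul, hii, one_smul]
  -- step (1)
  have hfpf : ∀ x y, x ≠ y → ∀ z : Δ, (i x * i y) • z ≠ z := by
    intro x y hxy z hz
    have h1 : i y • z = i x • z := by
      rw [mul_smul] at hz
      calc i y • z = i x • (i x • i y • z) := (hsm x _).symm
        _ = i x • z := by rw [hz]
    by_cases hz' : i y • z = z
    · have e1 := hfix y z hz'
      have e2 := hfix x z (by rw [← h1]; exact hz')
      exact hxy (e2.symm.trans e1)
    · obtain ⟨g, _, hg⟩ := h z (i y • z) (i y • z) z (Ne.symm hz') hz'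
      have a1 := hg (i y) ⟨rfl, hsm y z⟩
      have a2 := hg (i x) ⟨h1.symm, by rw [h1]; exact hsm x z⟩
      exact hxy (hinj x y (a2.trans a1.symm))
  have hpE : ∀ x y, (i x * i y = 1 ∨ ∀ z : Δ, (i x * i y) • z ≠ z) := by
    intro x y
    by_cases hxy : x = y
    · left; rw [hxy]; exact hii y
    · right; exact hfpf x y hxy
  set E0 : Finset F := Finset.univ.filter (fun g : F => g = 1 ∨ ∀ z : Δ, g • z ≠ z) with hE0
  have hmemE0 : ∀ g, g ∈ E0 ↔ (g = 1 ∨ ∀ z : Δ, g • z ≠ z) := by
    intro g; simp [hE0]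
  have hE0card : E0.card = Fintype.card Δ := rsharpe_card h h3
  have hright : ∀ x, ∀ e ∈ E0, ∃ y, e = i x * i y := by
    intro x e he
    have him : Finset.univ.image (fun y => i x * i y) = E0 := by
      apply Finset.eq_of_subset_of_card_le
      · intro g hg
        obtain ⟨y, _, rfl⟩ := Finset.mem_image.mp hg
        exact (hmemE0 _).mpr (hpE x y)
      · rw [hE0card, Finset.card_image_of_injective]
        · exact le_of_eq rfl
        · intro y y' hyy
          exact hinj _ _ (mul_left_cancel hyy)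
    rw [← him] at he
    obtain ⟨y, _, rfl⟩ := Finset.mem_image.mp he
    exact ⟨y, rfl⟩
  have hleft : ∀ x, ∀ e ∈ E0, ∃ y, e = i y * i x := by
    intro x e he
    have him : Finset.univ.image (fun y => i y * i x) = E0 := by
      apply Finset.eq_of_subset_of_card_le
      · intro g hg
        obtain ⟨y, _, rfl⟩ := Finset.mem_image.mp hg
        exact (hmemE0 _).mpr (hpE y x)
      · rw [hE0card, Finset.card_image_of_injective]
        · exact le_of_eq rfl
        · intro y y' hyy
          exact hinj _ _ (mul_right_cancel hyy)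
    rw [← him] at he
    obtain ⟨y, _, rfl⟩ := Finset.mem_image.mp he
    exact ⟨y, rfl⟩
  have hpE' : ∀ x y, i x * i y ∈ E0 := fun x y => (hmemE0 _).mpr (hpE x y)
  have hmul : ∀ e ∈ E0, ∀ e' ∈ E0, e * e' ∈ E0 := by
    intro e he e' he'
    obtain ⟨y, rfl⟩ := hleft x0 e he
    obtain ⟨z, rfl⟩ := hright x0 e' he'
    have : i y * i x0 * (i x0 * i z) = i y * i z := by
      calc i y * i x0 * (i x0 * i z) = i y * (i x0 * i x0) * i z := by group
        _ = i y * i z := by rw [hii, mul_one]
    rw [this]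
    exact hpE' y z
  have hinv : ∀ e ∈ E0, e⁻¹ ∈ E0 := by
    intro e he
    obtain ⟨y, rfl⟩ := hleft x0 e he
    rw [mul_inv_rev, hiinv, hiinv]
    exact hpE' _ _
  have hone : (1 : F) ∈ E0 := (hmemE0 _).mpr (Or.inl rfl)
  have hconjE : ∀ g : F, ∀ e ∈ E0, g * e * g⁻¹ ∈ E0 := by
    intro g e he
    rcases (hmemE0 e).mp he with h1 | h1
    · rw [h1]; simpa using hone
    · refine (hmemE0 _).mpr (Or.inr ?_)
      intro z hz
      apply h1 (g⁻¹ • z)
      rw [mul_smul, mul_smul] at hz
      calc e • g⁻¹ • z = g⁻¹ • (g • e • g⁻¹ • z) := (inv_smul_smul g _).symm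
        _ = g⁻¹ • z := by rw [hz]
  have hfixE : ∀ e ∈ E0, ∀ z : Δ, e • z = z → e = 1 := by
    intro e he z hz
    rcases (hmemE0 e).mp he with h1 | h1
    · exact h1
    · exact absurd hz (h1 z)
  have hconj : ∀ e ∈ E0, i x0 * e * i x0 = e⁻¹ := by
    intro e he
    obtain ⟨y, rfl⟩ := hright x0 e he
    rw [mul_inv_rev, hiinv, hiinv]
    calc i x0 * (i x0 * i y) * i x0 = (i x0 * i x0) * i y * i x0 := by group
      _ = i y * i x0 := by rw [hii, one_mul]
  have hcomm : ∀ e ∈ E0, ∀ e' ∈ E0, e * e' = e' * e := by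
    intro e he e' he'
    have h1 := hconj _ (hmul e he e' he')
    have h2 : i x0 * (e * e') * i x0 = (i x0 * e * i x0) * (i x0 * e' * i x0) := by
      calc i x0 * (e * e') * i x0 = i x0 * e * 1 * e' * i x0 := by group
        _ = i x0 * e * (i x0 * i x0) * e' * i x0 := by rw [hii]
        _ = (i x0 * e * i x0) * (i x0 * e' * i x0) := by group
    rw [h2, hconj e he, hconj e' he'] at h1
    have h3' := congrArg (fun t => t⁻¹) h1
    simp only [mul_inv_rev, inv_inv] at h3'
    exact h3'.symm
  have htrans : ∀ x y : Δ, ∃ e ∈ E0, e • x = y := by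
    intro x y
    by_cases hxy : x = y
    · exact ⟨1, hone, by rw [one_smul]; exact hxy⟩
    · obtain ⟨g, ⟨hg1, hg2⟩, _⟩ := h x y y x hxy (Ne.symm hxy)
      have hgne : g ≠ 1 := by
        rintro rfl
        rw [one_smul] at hg1
        exact hxy hg1
      have hgg : g * g = 1 := by
        apply rsharpe_fix2 h hxy
        · rw [mul_smul, hg1, hg2]
        · rw [mul_smul, hg2, hg1]
      obtain ⟨z, rfl⟩ := hall g hgne hgg
      exact ⟨i z * i x, hpE' z x, by rw [mul_smul, hix, hg1]⟩
  have huniq : ∀ e ∈ E0, ∀ e' ∈ E0, ∀ x : Δ, e • x = e' • x → e = e' := by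
    intro e he e' he' x hxx
    have : e'⁻¹ * e = 1 := by
      apply hfixE _ (hmul _ (hinv e' he') _ he) x
      rw [mul_smul, hxx, inv_smul_smul]
    exact (inv_mul_eq_one.mp this).symm
  refine ⟨{ carrier := {g | g ∈ E0}
            mul_mem' := fun {a b} ha hb => hmul a ha b hb
            one_mem' := hone
            inv_mem' := fun {a} ha => hinv a ha }, ?_, ?_, ?_, ?_, ?_⟩
  · intro e he e' he'
    exact hcomm e he e' he'
  · intro x y
    obtain ⟨e, he, hex⟩ := htrans x y
    refine ⟨e, ⟨he, hex⟩, ?_⟩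
    rintro e' ⟨he', hex'⟩
    exact huniq e' he' e he x (hex'.trans hex.symm)
  · intro p q hp hq hpp hqq
    obtain ⟨x, rfl⟩ := hall p hp hpp
    obtain ⟨y, rfl⟩ := hall q hq hqq
    exact hpE' x y
  · intro e he hne g hge
    obtain ⟨e', he', hex⟩ := htrans x0 (g • x0)
    have hce : e'⁻¹ * e = e * e'⁻¹ := hcomm _ (hinv e' he') _ he
    have hn : e'⁻¹ * g = 1 := by
      have hx : (e'⁻¹ * g) • x0 = x0 := by
        rw [mul_smul, ← hex, inv_smul_smul]
      refine rsharpe_fix2 h (x := x0) (y := e • x0) ?_ hx ?_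
      · intro hh
        exact hne (hfixE e he x0 hh.symm)
      · have : (e'⁻¹ * g) * e = e * (e'⁻¹ * g) := by
          calc (e'⁻¹ * g) * e = e'⁻¹ * (g * e) := by group
            _ = e'⁻¹ * (e * g) := by rw [hge]
            _ = (e'⁻¹ * e) * g := by group
            _ = e * (e'⁻¹ * g) := by rw [hce]; group
        rw [smul_smul, this, ← smul_smul, hx]
    have : g = e' := (inv_mul_eq_one.mp hn).symm
    rw [this]
    exact he'
  · intro e he hne
    -- all nonidentity elements are conjugate
    have hcj : ∀ e ∈ E0, e ≠ 1 → ∀ e' ∈ E0, e' ≠ 1 → ∃ g : F, g * e * g⁻¹ = e' := by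
      intro e he hne e' he' hne'
      have n1 : x0 ≠ e • x0 := fun hh => hne (hfixE e he x0 hh.symm)
      have n2 : x0 ≠ e' • x0 := fun hh => hne' (hfixE e' he' x0 hh.symm)
      obtain ⟨g, ⟨hg1, hg2⟩, _⟩ := h x0 (e • x0) x0 (e' • x0) n1 n2
      refine ⟨g, ?_⟩
      apply huniq _ (hconjE g e he) _ he' x0
      have : g⁻¹ • x0 = x0 := by
        conv_lhs => rw [← hg1]
        rw [inv_smul_smul]
      rw [mul_smul, mul_smul, this, hg2]
    have hpow : ∀ n : ℕ, e ^ n ∈ E0 := by
      intro n
      induction n with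
      | zero => rw [pow_zero]; exact hone
      | succ n ih => rw [pow_succ]; exact hmul _ ih _ he
    have hm1 : orderOf e ≠ 1 := by
      intro hh
      exact hne (orderOf_eq_one_iff.mp hh)
    obtain ⟨l, hl, hdvd⟩ := Nat.exists_prime_and_dvd hm1
    have hpos : 0 < orderOf e := orderOf_pos e
    have hord : orderOf (e ^ (orderOf e / l)) = l := orderOf_pow_orderOf_div hpos.ne' hdvd
    have hne2 : e ^ (orderOf e / l) ≠ 1 := by
      intro hh
      rw [hh, orderOf_one] at hord
      exact hl.one_lt.ne hord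
    obtain ⟨g, hg⟩ := hcj e he hne _ (hpow _) hne2
    have : orderOf e = orderOf (e ^ (orderOf e / l)) := by
      rw [← hg]
      have := orderOf_injective (MulAut.conj g).toMonoidHom (MulAut.conj g).injective e
      simpa using this.symm
    rw [this, hord]
    exact hl

end Pool.Agent.H.MP_6268b4_co
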