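import Pool.Agent.H.MP_6268b4_co.F4B2
import Pool.Agent.H.MP_6268b4_co.RSharpE

/-!
The centralizer of an involution acts on its fixed points as a sharply 2-transitive group.
-/

namespace Pool.Agent.H.MP_6268b4_co

variable {G Ω : Type*} [Group G] [MulAction G Ω]

/-- The centralizer of `t`. -/
def f4b3_N (t : G) : Subgroup G where
  carrier := {g | g * t = t * g}
  one_mem' := by
    show 1 * t = t * 1
    rw [one_mul, mul_one]
  mul_mem' := by
    intro a b ha hb
    show a * b * t = t * (a * b)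
    have ha' : a * t = t * a := ha
    have hb' : b * t = t * b := hb
    rw [mul_assoc, hb', ← mul_assoc, ha', mul_assoc]
  inv_mem' := by
    intro a ha
    show a⁻¹ * t = t * a⁻¹
    have ha' : a * t = t * a := ha
    rw [inv_mul_eq_iff_eq_mul, ← mul_assoc, ha', mul_assoc, mul_inv_cancel, mul_one]

theorem f4b3_inv {t g : G} (hg : g * t = t * g) {x : Ω} (hx : t • x = x) :
    t • g • x = g • x := by
  rw [← mul_smul, ← hg, mul_smul, hx]

/-- Job F4B3-1.

Proof. The number of fixed points is odd (`LHyp.odd`, `lb_two`) and at least 2, so at least 3. `D` is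
the image of the centralizer of `t` under restriction to the fixed points of `t` (`f4_restrict`;
if `g` commutes with `t` then `g` preserves the fixed points of `t`). `SharpTwo`: for pairs
`(x, y)`, `(x', y')` of different fixed points take `g` with `g • x = x'`, `g • y = y'` (`two`); it
commutes with `t` (`lb_comm_of`). If `d, d' ∈ D` both map `x, y` to `x', y'`, lift them to `g, g'`;
`k = g'⁻¹ * g` fixes `x, y`, so by `LHyp.fix` (with `g = t`, `g' = k`) it fixes all fixed points of `t`,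
hence `d = d'`. -/
theorem lb_sharp [Finite G] [Finite Ω] [FaithfulSMul G Ω] (h : LHyp G Ω)
    (hne : ∃ x y : Ω, x ≠ y) {t : G} (ht : IsInv t) :
    Odd (Nat.card {u : Ω // t • u = u}) ∧ 3 ≤ Nat.card {u : Ω // t • u = u} ∧
    ∃ D : Subgroup (Equiv.Perm {u : Ω // t • u = u}),
      SharpTwo D {u : Ω // t • u = u} ∧
      (∀ d ∈ D, ∃ g : G, g * t = t * g ∧
        ∀ u : {u : Ω // t • u = u}, ((d u : {u : Ω // t • u = u}) : Ω) = g • (u : Ω)) ∧
      (∀ g : G, g * t = t * g → ∃ d ∈ D,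
        ∀ u : {u : Ω // t • u = u}, ((d u : {u : Ω // t • u = u}) : Ω) = g • (u : Ω)) := by
  classical
  obtain ⟨x0, y0, hxy0, hx0, hy0⟩ := lb_two h hne ht
  have hF : FHyp G Ω := h.toFHyp4.toFHyp
  have hodd := h.odd t x0 y0 hxy0 ht.1 hx0 hy0
  have h3 : 3 ≤ Nat.card {u : Ω // t • u = u} := by
    have h1 : 1 < Nat.card {u : Ω // t • u = u} := by
      rw [Finite.one_lt_card_iff_nontrivial]
      exact ⟨⟨x0, hx0⟩, ⟨y0, hy0⟩, fun e => hxy0 (congrArg Subtype.val e)⟩
    obtain ⟨k, hk⟩ := hodd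
    omega
  obtain ⟨f, hf⟩ := f4_restrict (f4b3_N t) {u : Ω | t • u = u}
    (fun g hg x hx => f4b3_inv hg hx)
  refine ⟨hodd, h3, f.range, ?_, ?_, ?_⟩
  · intro x y x' y' hxy hxy'
    have hxy1 : (x : Ω) ≠ y := fun e => hxy (Subtype.ext e)
    have hxy1' : (x' : Ω) ≠ y' := fun e => hxy' (Subtype.ext e)
    obtain ⟨g, hg1, hg2⟩ := hF.two x y x' y' hxy1 hxy1'
    have hgN : g * t = t * g := lb_comm_of hF hxy1 ht x.2 y.2 (by rw [hg1]; exact x'.2)
      (by rw [hg2]; exact y'.2)
    refine ⟨⟨f ⟨g, hgN⟩, ⟨g, hgN⟩, rfl⟩, ⟨Subtype.ext ?_, Subtype.ext ?_⟩, ?_⟩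
    · exact (hf _ _).trans hg1
    · exact (hf _ _).trans hg2
    · rintro ⟨d, ⟨g', hg'N⟩, rfl⟩ ⟨h1, h2⟩
      apply Subtype.ext
      apply Equiv.ext
      intro u
      apply Subtype.ext
      have e1 : g' • (x : Ω) = x' := (hf ⟨g', hg'N⟩ x).symm.trans (congrArg Subtype.val h1)
      have e2 : g' • (y : Ω) = y' := (hf ⟨g', hg'N⟩ y).symm.trans (congrArg Subtype.val h2)
      have e3 := h.fix t (g⁻¹ * g') x y u hxy1 ht.1 x.2 y.2
        (by rw [mul_smul, e1, ← hg1, inv_smul_smul]) (by rw [mul_smul, e2, ← hg2, inv_smul_smul])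
        u.2
      rw [mul_smul, inv_smul_eq_iff] at e3
      exact (hf ⟨g', hg'N⟩ u).trans (e3.trans (hf ⟨g, hgN⟩ u).symm)
  · rintro d ⟨g, rfl⟩
    exact ⟨g, g.2, fun u => hf g u⟩
  · intro g hg
    exact ⟨f ⟨g, hg⟩, ⟨⟨g, hg⟩, rfl⟩, fun u => hf ⟨g, hg⟩ u⟩

/-- Job F4B3-2. Let `c` be a fixed point of the involution `t`. There is `e` with `Perp t e` and
`e • c = c`; for two such elements `e, e'` the product `e * e'` acts trivially on the fixed points of
`t`; conversely if `Perp t e` and `z` acts trivially on the fixed points of `t` then `Perp t (e * z)`.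

Proof. Let `D` be as in `lb_sharp`. (a) Let `d ∈ D` be the involution fixing `c` (`sharp_unique_inv`) and
`e` a lift of `d`. There is a fixed point `x ≠ c` of `t` (`3 ≤`), `e • x ≠ x` (otherwise `d` fixes two points)
and `e • e • x = x`, so `e` interchanges `x` and `e • x` and `e * e = 1` (`swap`). `e ≠ 1`, `e ≠ t` because
`e • x ≠ x`. (b) For `e` with `Perp t e` the restriction `d` of `e` to the fixed points of `t` is not the
identity (otherwise `e` and `t` are involutions with two common fixed points, `f4_inv_unique`), so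
it is an involution. If `e, e'` fix `c` then `d = d'` by `sharp_unique_inv`; so `e * e'` acts as
`d * d = 1`. (c) The restriction `d` of `e` is not the identity: there is a fixed point `x` of `t` with
`e • x ≠ x`; `e * z` maps `x` to `e • x` and `e • x` (also a fixed point of `t`) to `x`. So
`(e * z) * (e * z) = 1` (`swap`); `e * z ≠ 1`, `≠ t` as it moves `x`; it commutes with `t`: `z` commutes with
`t` by `lb_comm_of`. -/
theorem lb_perp [Finite G] [Finite Ω] [FaithfulSMul G Ω] (h : LHyp G Ω)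
    (hne : ∃ x y : Ω, x ≠ y) {t : G} (ht : IsInv t) :
    (∀ c : Ω, t • c = c → ∃ e : G, Perp t e ∧ e • c = c) ∧
    (∀ (c : Ω) (e e' : G), t • c = c → Perp t e → Perp t e' → e • c = c → e' • c = c →
      ∀ u : Ω, t • u = u → (e * e') • u = u) ∧
    (∀ e z : G, Perp t e → (∀ u : Ω, t • u = u → z • u = u) → Perp t (e * z)) := by
  classical
  obtain ⟨x0, y0, hxy0, hx0, hy0⟩ := lb_two h hne ht
  have hF : FHyp G Ω := h.toFHyp4.toFHyp
  obtain ⟨hodd, h3, D, hD, hlift, hres⟩ := lb_sharp h hne ht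
  have hmove : ∀ e : G, Perp t e → ∃ x : Ω, t • x = x ∧ e • x ≠ x := by
    intro e he
    by_contra hcon
    push Not at hcon
    exact he.2.2.1 (f4_inv_unique hF hxy0 ht he.2.1 hx0 hy0 (hcon x0 hx0) (hcon y0 hy0))
  refine ⟨?_, ?_, ?_⟩
  · intro c hc
    obtain ⟨⟨d, hdD⟩, ⟨hd1, hd2, hd3⟩, -⟩ := sharp_unique_inv hD hodd h3 ⟨c, hc⟩
    obtain ⟨e, het, he⟩ := hlift d hdD
    obtain ⟨x, hxc, hx⟩ := lb_two' h hne ht c
    have hex : e • x ≠ x := by
      intro h1
      apply hd1
      refine rsharp_fix hD (x := ⟨x, hx⟩) (y := ⟨c, hc⟩) (fun e => hxc (congrArg Subtype.val e)) ?_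
        hd3
      apply Subtype.ext
      exact (he ⟨x, hx⟩).trans h1
    have hdd : ∀ u : {u : Ω // t • u = u}, d (d u) = u := by
      intro u
      have h1 := congrArg (fun k : D => (k : Equiv.Perm {u : Ω // t • u = u}) u) hd2
      exact h1
    have heex : e • e • x = x := by
      have h1 := congrArg Subtype.val (hdd ⟨x, hx⟩)
      rw [he, he] at h1
      exact h1
    have hee : e * e = 1 := hF.swap x (e • x) e (Ne.symm hex) rfl heex
    refine ⟨e, ⟨ht, ⟨?_, hee⟩, ?_, het.symm⟩, ?_⟩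
    · rintro rfl
      exact hex (one_smul _ _)
    · rintro rfl
      exact hex hx
    · rw [← he ⟨c, hc⟩]
      exact congrArg Subtype.val hd3
  · intro c e e' hc he he' hec hec' u hu
    obtain ⟨d, hdD, hd⟩ := hres e he.2.2.2.symm
    obtain ⟨d', hdD', hd'⟩ := hres e' he'.2.2.2.symm
    have hinvo : ∀ (e : G), Perp t e → e • c = c → ∀ d (hdD : d ∈ D),
        (∀ u : {u : Ω // t • u = u}, ((d u : {u : Ω // t • u = u}) : Ω) = e • (u : Ω)) →
        (⟨d, hdD⟩ : D) ≠ 1 ∧ (⟨d, hdD⟩ : D) * ⟨d, hdD⟩ = 1 ∧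
          (⟨d, hdD⟩ : D) • (⟨c, hc⟩ : {u : Ω // t • u = u}) = ⟨c, hc⟩ := by
      intro e he hec d hdD hd
      refine ⟨?_, ?_, ?_⟩
      · intro h1
        obtain ⟨x, hx, hex⟩ := hmove e he
        apply hex
        rw [← hd ⟨x, hx⟩]
        have h2 : d = 1 := congrArg Subtype.val h1
        rw [h2]
        rfl
      · apply Subtype.ext
        apply Equiv.ext
        intro u
        apply Subtype.ext
        show ((d (d u) : {u : Ω // t • u = u}) : Ω) = u
        rw [hd, hd, smul_smul, he.2.1.2, one_smul]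
      · apply Subtype.ext
        exact (hd ⟨c, hc⟩).trans hec
    have heq := (sharp_unique_inv hD hodd h3 ⟨c, hc⟩).unique (hinvo e he hec d hdD hd)
      (hinvo e' he' hec' d' hdD' hd')
    have hdd' : d = d' := congrArg Subtype.val heq
    have hdu : ∀ u : Ω, t • u = u → e • u = e' • u := by
      intro u hu
      rw [← hd ⟨u, hu⟩, ← hd' ⟨u, hu⟩, hdd']
    rw [mul_smul, ← hdu u hu, smul_smul, he.2.1.2, one_smul]
  · intro e z he hz
    obtain ⟨x, hx, hex⟩ := hmove e he
    have hte : e * t = t * e := he.2.2.2.symm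
    have hfx : t • e • x = e • x := f4b3_inv hte hx
    have h1 : (e * z) • x = e • x := by rw [mul_smul, hz x hx]
    have h2 : (e * z) • (e • x) = x := by
      rw [mul_smul, hz (e • x) hfx, smul_smul, he.2.1.2, one_smul]
    have h3 : (e * z) * (e * z) = 1 := hF.swap x (e • x) (e * z) (Ne.symm hex) h1 h2
    have hzt : z * t = t * z := lb_comm_of hF hxy0 ht hx0 hy0
      (by rw [hz x0 hx0, hx0]) (by rw [hz y0 hy0, hy0])
    refine ⟨ht, ⟨?_, h3⟩, ?_, ?_⟩
    · intro h4
      rw [h4, one_smul] at h1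
      exact hex h1.symm
    · intro h4
      rw [← h4, hx] at h1
      exact hex h1.symm
    · rw [← mul_assoc, ← hte, mul_assoc, ← hzt, mul_assoc]

end Pool.Agent.H.MP_6268b4_co
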