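import Pool.Agent.H.MP_6268b4_co.F4B3

/-!
The abelian subgroup `R` belonging to an involution `t`.
-/

namespace Pool.Agent.H.MP_6268b4_co

variable {G Ω : Type*} [Group G] [MulAction G Ω]

/-- `g` acts on the fixed points of `t` as `e`. -/
def F4b4Acts {t : G} {D : Subgroup (Equiv.Perm {u : Ω // t • u = u})} (g : G) (e : D) : Prop :=
  ∀ u : {u : Ω // t • u = u}, ((e • u : {u : Ω // t • u = u}) : Ω) = g • (u : Ω)

section Acts

variable {t : G} {D : Subgroup (Equiv.Perm {u : Ω // t • u = u})}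

theorem f4b4_one : F4b4Acts (D := D) (1 : G) 1 := by
  intro u
  rw [one_smul, one_smul]

theorem f4b4_mul {g g' : G} {e e' : D} (h : F4b4Acts g e) (h' : F4b4Acts g' e') :
    F4b4Acts (g * g') (e * e') := by
  intro u
  rw [mul_smul, mul_smul, h, h']

theorem f4b4_inv {g : G} {e : D} (h : F4b4Acts g e) : F4b4Acts g⁻¹ e⁻¹ := by
  intro u
  have h1 := h (e⁻¹ • u)
  rw [smul_inv_smul] at h1
  rw [h1, inv_smul_smul]

theorem f4b4_uniq {g : G} {e e' : D} (h : F4b4Acts g e) (h' : F4b4Acts g e') : e = e' := by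
  apply Subtype.ext
  apply Equiv.ext
  intro u
  apply Subtype.ext
  exact (h u).trans (h' u).symm

theorem f4b4_pow {g : G} {e : D} (h : F4b4Acts g e) (n : ℕ) : F4b4Acts (g ^ n) (e ^ n) := by
  induction n with
  | zero => rw [pow_zero, pow_zero]; exact f4b4_one
  | succ n ih => rw [pow_succ, pow_succ]; exact f4b4_mul ih h

end Acts

/-- In a sharply 2-transitive group as in `sharp_exists_E`: the product of an involution and an
element of `E` is an involution. -/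
theorem f4b4_key {F Δ : Type*} [Group F] [MulAction F Δ] [Finite F] [Finite Δ]
    (h : SharpTwo F Δ) (hodd : Odd (Nat.card Δ)) (h3 : 3 ≤ Nat.card Δ) {E : Subgroup F}
    (hE1 : ∀ x y : Δ, ∃! e : F, e ∈ E ∧ e • x = y)
    (hE2 : ∀ p q : F, p ≠ 1 → q ≠ 1 → p * p = 1 → q * q = 1 → p * q ∈ E)
    {i : F} (hi : i ≠ 1) (hii : i * i = 1) {d : F} (hd : d ∈ E) :
    i * d ≠ 1 ∧ (i * d) * (i * d) = 1 ∧ ∃ x : Δ, (i * d) • x = x := by
  classical
  choose j hj hju using fun x => sharp_unique_inv h hodd h3 x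
  have hx0 : Nonempty Δ := by
    by_contra hn
    rw [not_nonempty_iff] at hn
    rw [Nat.card_of_isEmpty] at h3
    omega
  obtain ⟨x0⟩ := hx0
  -- the bijection of `E` with `Δ`
  have hbij : Function.Bijective (fun e : E => (e : F) • x0) := by
    constructor
    · intro e e' hee
      have h1 := (hE1 x0 ((e : F) • x0)).unique ⟨e.2, rfl⟩ ⟨e'.2, hee.symm⟩
      exact Subtype.ext h1
    · intro y
      obtain ⟨e, ⟨he, hey⟩, _⟩ := hE1 x0 y
      exact ⟨⟨e, he⟩, hey⟩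
  have hcard : Nat.card E = Nat.card Δ := Nat.card_congr (Equiv.ofBijective _ hbij)
  have hj1 : ∀ x, j x ≠ 1 := fun x => (hj x).1
  have hj2 : ∀ x, j x * j x = 1 := fun x => (hj x).2.1
  have hj3 : ∀ x, j x • x = x := fun x => (hj x).2.2
  let f : Δ → E := fun x => ⟨i * j x, hE2 i (j x) hi (hj1 x) hii (hj2 x)⟩
  have hf : Function.Injective f := by
    intro x y hxy
    have h1 : i * j x = i * j y := congrArg Subtype.val hxy
    have h2 : j x = j y := mul_left_cancel h1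
    by_contra hne
    have h4 := (h x y x y hne hne).unique ⟨hj3 x, by rw [h2]; exact hj3 y⟩
      ⟨one_smul F x, one_smul F y⟩
    exact hj1 x h4
  have hfs : Function.Surjective f := by
    have := (Nat.bijective_iff_injective_and_card f).2 ⟨hf, hcard.symm⟩
    exact this.2
  obtain ⟨x, hx⟩ := hfs ⟨d, hd⟩
  have hx' : i * j x = d := congrArg Subtype.val hx
  have hid : i * d = j x := by
    rw [← hx', ← mul_assoc, hii, one_mul]
  rw [hid]
  exact ⟨hj1 x, hj2 x, x, hj3 x⟩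

/-- Job F4B4-1. Existence of `R` for one involution.

Proof. Let `D` be as in `lb_sharp` and `E ≤ D` as in `sharp_exists_E`: `E` is abelian, simply transitive
on `Δ = {u | t • u = u}`, contains all products of two involutions of `D`, contains the centralizer
(in `D`) of each of its nonidentity elements, which have prime order. Let `R` be the subgroup of all
`g` commuting with `t` whose restriction to `Δ` is in `E`.
`π`: `E ≠ 1` (it is transitive on `Δ`, `3 ≤ Nat.card Δ`); all nonidentity elements of `E` have the same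
order: let `e₁, e₂ ∈ E ∖ {1}` and `c ∈ Δ`; there is `d ∈ D` with `d c = c`, `d (e₁ c) = e₂ c`; then
`d * e₁ * d⁻¹` maps `c` to `e₂ c`. It is in `E`: `e₁` is a product of two involutions (see `carrier`
below), so `d * e₁ * d⁻¹` is one as well; so it equals `e₂` (simply transitive). Let `π` be this common
order.
`triv`: the restriction is `1`. `comm`: by definition. `fp`: the restriction is an element of `E`
with a fixed point, so it is `1`. `trans`: `E` is transitive; lift. `prime`: the restriction has order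
`1` or `π`. `cent`: the restriction of `g` is in `E ∖ {1}`, the restriction of `k` commutes with it, so it
is in `E`.
`carrier`: if `Perp t e`, `Perp t e'` then the restrictions of `e, e'` to `Δ` are involutions of `D`
(they are not `1` as in `lb_perp` (b)), so the restriction of `e * e'` is in `E`. Conversely let `g ∈ R` and
take any `e` with `Perp t e` (`lb_perp`; `Δ` is not empty). Let `d, i` be the restrictions of `g, e`. For each
`x ∈ Δ` let `i_x` be the involution of `D` fixing `x`. The products `i * i_x`, `x ∈ Δ`, are in `E`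
(they are products of involutions, or `1` if `i_x = i`) and they are different for different `x`; since
`Nat.card E = Nat.card Δ` (simply transitive) every element of `E` is of this form; so
`d = i * i_x` for some `x`, `i * d = i_x` is an involution, `e * g` acts on `Δ` as `i_x`. Let `e₁` be a lift of `i_x`
with `Perp t e₁` (`lb_perp`); `z = e₁ * (e * g)` acts trivially on `Δ`, so `e' = e₁ * z = e * g` satisfies
`Perp t e'` (`lb_perp`) and `g = e * e'`. This also proves `perp`: for `Perp t e`, `g ∈ R` we have found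
`Perp t (e * g)`.
`ab`: let `g, k ∈ R` and `Perp t e`. By `perp` `e`, `e * g`, `e * k`, `e * (g * k)` are involutions, so
`e * g * e = g⁻¹`, `e * k * e = k⁻¹`, `e * (g * k) * e = (g * k)⁻¹ = k⁻¹ * g⁻¹`, while
`e * (g * k) * e = (e * g * e) * (e * k * e) = g⁻¹ * k⁻¹`. So `g⁻¹` and `k⁻¹` commute. -/
theorem lb_R_one [Finite G] [Finite Ω] [FaithfulSMul G Ω] (h : LHyp G Ω)
    (hne : ∃ x y : Ω, x ≠ y) {t : G} (ht : IsInv t) :
    ∃ π : ℕ, π.Prime ∧ ∃ R : Subgroup G, RProp Ω π t R := by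
  classical
  have h4 : FHyp4 G Ω := h.toFHyp4
  have h' : FHyp G Ω := h4.toFHyp
  obtain ⟨hodd, h3, D, hD, hdown, hup⟩ := lb_sharp h hne ht
  obtain ⟨E, hEab, hEtr, hEinv, hEcent, hEprime⟩ := sharp_exists_E hD hodd h3
  obtain ⟨hp1, hp2, hp3⟩ := lb_perp h hne ht
  -- two fixed points
  have htwo : ∃ x y : {u : Ω // t • u = u}, x ≠ y := by
    by_contra hn
    push Not at hn
    have : Subsingleton {u : Ω // t • u = u} := ⟨hn⟩
    have := Finite.card_le_one_iff_subsingleton.2 this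
    omega
  obtain ⟨x₀, y₀, hxy₀⟩ := htwo
  have hxy₀' : (x₀ : Ω) ≠ y₀ := fun e => hxy₀ (Subtype.ext e)
  -- restrictions and lifts
  have hres : ∀ g : G, g * t = t * g → ∃ d : D, F4b4Acts g d := by
    intro g hg
    obtain ⟨d, hd, hdu⟩ := hup g hg
    exact ⟨⟨d, hd⟩, hdu⟩
  have hlift : ∀ d : D, ∃ g : G, g * t = t * g ∧ F4b4Acts g d := by
    intro d
    obtain ⟨g, hg, hgu⟩ := hdown d d.2
    exact ⟨g, hg, hgu⟩
  have hPinv : ∀ e : G, Perp t e → ∃ i : D, F4b4Acts e i ∧ i ≠ 1 ∧ i * i = 1 := by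
    intro e he
    obtain ⟨i, hi⟩ := hres e he.2.2.2.symm
    refine ⟨i, hi, ?_, ?_⟩
    · intro h1
      have e1 : e • (x₀ : Ω) = x₀ := by
        rw [← hi x₀, h1, one_smul]
      have e2 : e • (y₀ : Ω) = y₀ := by
        rw [← hi y₀, h1, one_smul]
      exact he.2.2.1 (f4_inv_unique h' hxy₀' ht he.2.1 x₀.2 y₀.2 e1 e2)
    · have h1 := f4b4_mul hi hi
      rw [he.2.1.2] at h1
      exact f4b4_uniq h1 f4b4_one
  let R : Subgroup G :=
    { carrier := {g | g * t = t * g ∧ ∃ e ∈ E, F4b4Acts g e}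
      one_mem' := ⟨by rw [one_mul, mul_one], 1, E.one_mem, f4b4_one⟩
      mul_mem' := by
        rintro a b ⟨ha, e, he, hae⟩ ⟨hb, e', he', hbe⟩
        refine ⟨?_, e * e', E.mul_mem he he', f4b4_mul hae hbe⟩
        rw [mul_assoc, hb, ← mul_assoc, ha, mul_assoc]
      inv_mem' := by
        rintro a ⟨ha, e, he, hae⟩
        refine ⟨?_, e⁻¹, E.inv_mem he, f4b4_inv hae⟩
        calc a⁻¹ * t = a⁻¹ * (t * a) * a⁻¹ := by group
          _ = a⁻¹ * (a * t) * a⁻¹ := by rw [ha]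
          _ = t * a⁻¹ := by group }
  have hR : ∀ g, g ∈ R ↔ g * t = t * g ∧ ∃ e ∈ E, F4b4Acts g e := fun g => Iff.rfl
  have hE1 : ∀ (e : D) (c : {u : Ω // t • u = u}), e ∈ E → e • c = c → e = 1 := by
    intro e c he hec
    exact (hEtr c c).unique ⟨he, hec⟩ ⟨E.one_mem, one_smul _ _⟩
  -- perp
  have hperp : ∀ e : G, Perp t e → ∀ g ∈ R, Perp t (e * g) := by
    intro e he g hg
    obtain ⟨hgt, d, hd, hgd⟩ := (hR g).1 hg
    obtain ⟨i, hei, hi1, hii⟩ := hPinv e he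
    obtain ⟨k1, k2, x, hx⟩ := f4b4_key hD hodd h3 hEtr hEinv hi1 hii hd
    obtain ⟨e₁, he₁, he₁x⟩ := hp1 x x.2
    obtain ⟨i₁, hei₁, hi₁1, hii₁⟩ := hPinv e₁ he₁
    have hi₁x : i₁ • x = x := Subtype.ext ((hei₁ x).trans he₁x)
    have heq : i₁ = i * d := by
      have hu := sharp_unique_inv hD hodd h3 x
      exact hu.unique ⟨hi₁1, hii₁, hi₁x⟩ ⟨k1, k2, hx⟩
    have hz : ∀ u : Ω, t • u = u → (e₁ * (e * g)) • u = u := by
      intro u hu
      have h1 := f4b4_mul hei₁ (f4b4_mul hei hgd)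
      rw [heq, k2] at h1
      have h2 := h1 ⟨u, hu⟩
      rw [one_smul] at h2
      exact h2.symm
    have h5 := hp3 e₁ _ he₁ hz
    have h6 : e₁ * (e₁ * (e * g)) = e * g := by
      rw [← mul_assoc, he₁.2.1.2, one_mul]
    rwa [h6] at h5
  have hcomm : ∀ g ∈ R, g * t = t * g := fun g hg => ((hR g).1 hg).1
  obtain ⟨e₀, he₀, _⟩ := hp1 x₀ x₀.2
  -- all nontrivial elements of `E` have the same order
  obtain ⟨ε, ⟨hεE, hεx⟩, _⟩ := hEtr x₀ y₀
  have hε1 : ε ≠ 1 := by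
    intro h1
    rw [h1, one_smul] at hεx
    exact hxy₀ hεx
  obtain ⟨i₀, hei₀, hi₀1, hii₀⟩ := hPinv e₀ he₀
  have hord : ∀ e ∈ E, e ≠ 1 → orderOf e = orderOf ε := by
    intro e he he1
    have hne1 : x₀ ≠ ε • x₀ := by rw [hεx]; exact hxy₀
    have hne2 : x₀ ≠ e • x₀ := fun h1 => he1 (hE1 e x₀ he h1.symm)
    obtain ⟨d, ⟨hd1, hd2⟩, _⟩ := hD x₀ (ε • x₀) x₀ (e • x₀) hne1 hne2
    have hmem : d * ε * d⁻¹ ∈ E := by
      obtain ⟨k1, k2, _⟩ := f4b4_key hD hodd h3 hEtr hEinv hi₀1 hii₀ hεE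
      have h1 : d * ε * d⁻¹ = (d * i₀ * d⁻¹) * (d * (i₀ * ε) * d⁻¹) := by
        calc d * ε * d⁻¹ = d * ((i₀ * i₀) * ε) * d⁻¹ := by rw [hii₀, one_mul]
          _ = _ := by group
      rw [h1]
      apply hEinv
      · intro h2
        exact hi₀1 (by rwa [conj_eq_one_iff] at h2)
      · intro h2
        exact k1 (by rwa [conj_eq_one_iff] at h2)
      · calc d * i₀ * d⁻¹ * (d * i₀ * d⁻¹) = d * (i₀ * i₀) * d⁻¹ := by group
          _ = 1 := by rw [hii₀]; group
      · calc d * (i₀ * ε) * d⁻¹ * (d * (i₀ * ε) * d⁻¹) = d * ((i₀ * ε) * (i₀ * ε)) * d⁻¹ := by group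
          _ = 1 := by rw [k2]; group
    have hmap : (d * ε * d⁻¹) • x₀ = e • x₀ := by
      have h1 : d⁻¹ • x₀ = x₀ := by
        rw [inv_smul_eq_iff, hd1]
      rw [mul_smul, h1, mul_smul, hd2]
    have heq : d * ε * d⁻¹ = e := (hEtr x₀ (e • x₀)).unique ⟨hmem, hmap⟩ ⟨he, rfl⟩
    rw [← heq]
    have h2 : d * ε * d⁻¹ = MulAut.conj d ε := rfl
    rw [h2]
    exact orderOf_injective (MulAut.conj d).toMonoidHom (MulAut.conj d).injective ε
  refine ⟨orderOf ε, hEprime ε hεE hε1, R, ?_⟩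
  refine ⟨?_, hcomm, ?_, ?_, hperp, ?_, ?_, ?_, ?_⟩
  · -- carrier
    intro g
    constructor
    · intro hg
      refine ⟨e₀, e₀ * g, he₀, hperp e₀ he₀ g hg, ?_⟩
      rw [← mul_assoc, he₀.2.1.2, one_mul]
    · rintro ⟨e, e', he, he', rfl⟩
      rw [hR]
      obtain ⟨i, hei, hi1, hii⟩ := hPinv e he
      obtain ⟨i', hei', hi1', hii'⟩ := hPinv e' he'
      refine ⟨?_, i * i', hEinv i i' hi1 hi1' hii hii', f4b4_mul hei hei'⟩
      rw [mul_assoc, ← he'.2.2.2, ← mul_assoc, ← he.2.2.2, mul_assoc]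
  · -- ab
    intro g hg k hk
    have i1 := (hperp e₀ he₀ g hg).2.1.2
    have i2 := (hperp e₀ he₀ k hk).2.1.2
    have i3 := (hperp e₀ he₀ (g * k) (R.mul_mem hg hk)).2.1.2
    have hee := he₀.2.1.2
    have j1 : e₀ * g * e₀ = g⁻¹ := by
      calc e₀ * g * e₀ = (e₀ * g * (e₀ * g)) * g⁻¹ := by group
        _ = g⁻¹ := by rw [i1, one_mul]
    have j2 : e₀ * k * e₀ = k⁻¹ := by
      calc e₀ * k * e₀ = (e₀ * k * (e₀ * k)) * k⁻¹ := by group
        _ = k⁻¹ := by rw [i2, one_mul]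
    have j3 : e₀ * (g * k) * e₀ = (g * k)⁻¹ := by
      calc e₀ * (g * k) * e₀ = (e₀ * (g * k) * (e₀ * (g * k))) * (g * k)⁻¹ := by group
        _ = (g * k)⁻¹ := by rw [i3, one_mul]
    have j4 : e₀ * (g * k) * e₀ = g⁻¹ * k⁻¹ := by
      calc e₀ * (g * k) * e₀ = e₀ * g * (1 : G) * k * e₀ := by group
        _ = e₀ * g * (e₀ * e₀) * k * e₀ := by rw [hee]
        _ = (e₀ * g * e₀) * (e₀ * k * e₀) := by group
        _ = g⁻¹ * k⁻¹ := by rw [j1, j2]
    have j5 : (g * k)⁻¹ = (k * g)⁻¹ := by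
      rw [← j3, j4, mul_inv_rev]
    exact inv_injective j5
  · -- triv
    intro g hg
    rw [hR]
    have hgx : g • (x₀ : Ω) = x₀ := hg x₀ x₀.2
    have hgy : g • (y₀ : Ω) = y₀ := hg y₀ y₀.2
    refine ⟨?_, 1, E.one_mem, ?_⟩
    · apply lb_comm_of h' hxy₀' ht x₀.2 y₀.2
      · rw [hgx]; exact x₀.2
      · rw [hgy]; exact y₀.2
    · intro u
      rw [one_smul]
      exact (hg u u.2).symm
  · -- fp
    intro g hg c hc hgc u hu
    obtain ⟨_, e, he, hge⟩ := (hR g).1 hg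
    have h1 : e • (⟨c, hc⟩ : {u : Ω // t • u = u}) = ⟨c, hc⟩ :=
      Subtype.ext ((hge ⟨c, hc⟩).trans hgc)
    have h2 := hE1 e _ he h1
    have h5 := hge ⟨u, hu⟩
    rw [h2, one_smul] at h5
    exact h5.symm
  · -- cent
    intro g hg u hu hgu k hkt hkg
    obtain ⟨_, e, he, hge⟩ := (hR g).1 hg
    obtain ⟨d, hkd⟩ := hres k hkt
    rw [hR]
    refine ⟨hkt, d, ?_, hkd⟩
    apply hEcent e he
    · intro h1
      have h5 := hge ⟨u, hu⟩
      rw [h1, one_smul] at h5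
      exact hgu h5.symm
    · have h1 := f4b4_mul hkd hge
      have h2 := f4b4_mul hge hkd
      rw [hkg] at h1
      exact f4b4_uniq h1 h2
  · -- trans
    intro c c' hc hc'
    obtain ⟨e, ⟨he, hec⟩, _⟩ := hEtr ⟨c, hc⟩ ⟨c', hc'⟩
    obtain ⟨g, hgt, hge⟩ := hlift e
    refine ⟨g, (hR g).2 ⟨hgt, e, he, hge⟩, ?_⟩
    have h1 := hge ⟨c, hc⟩
    rw [hec] at h1
    exact h1.symm
  · -- prime
    intro g hg u hu
    obtain ⟨_, e, he, hge⟩ := (hR g).1 hg
    have h1 : e ^ orderOf ε = 1 := by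
      by_cases he1 : e = 1
      · rw [he1, one_pow]
      · rw [← hord e he he1]
        exact pow_orderOf_eq_one e
    have h2 := f4b4_pow hge (orderOf ε) ⟨u, hu⟩
    rw [h1, one_smul] at h2
    exact h2.symm

theorem f4b4_isInv {g t : G} : IsInv (g * t * g⁻¹) ↔ IsInv t := by
  unfold IsInv
  rw [Ne, conj_eq_one_iff]
  have h1 : g * t * g⁻¹ * (g * t * g⁻¹) = g * (t * t) * g⁻¹ := by group
  rw [h1, conj_eq_one_iff]

theorem f4b4_perp {g t e : G} : Perp (g * t * g⁻¹) e ↔ Perp t (g⁻¹ * e * g) := by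
  have he : e = g * (g⁻¹ * e * g) * g⁻¹ := by group
  set e' := g⁻¹ * e * g with he'
  rw [he]
  unfold Perp
  rw [f4b4_isInv, f4b4_isInv]
  have h1 : g * t * g⁻¹ * (g * e' * g⁻¹) = g * (t * e') * g⁻¹ := by group
  have h2 : g * e' * g⁻¹ * (g * t * g⁻¹) = g * (e' * t) * g⁻¹ := by group
  rw [h1, h2]
  have h3 : g * t * g⁻¹ = g * e' * g⁻¹ ↔ t = e' := by
    constructor
    · intro h
      exact mul_left_cancel (mul_right_cancel h)
    · intro h
      rw [h]
  have h5 : g * (t * e') * g⁻¹ = g * (e' * t) * g⁻¹ ↔ t * e' = e' * t := by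
    constructor
    · intro h
      exact mul_left_cancel (mul_right_cancel h)
    · intro h
      rw [h]
  rw [Ne, h3, h5]

/-- Conjugation of `RProp`. -/
theorem f4b4_conj {π : ℕ} {t : G} {R : Subgroup G} (h : RProp Ω π t R) (g : G) :
    ∃ R' : Subgroup G, RProp Ω π (g * t * g⁻¹) R' := by
  let R' : Subgroup G := R.comap (MulAut.conj g⁻¹).toMonoidHom
  have hR' : ∀ x, x ∈ R' ↔ g⁻¹ * x * g ∈ R := by
    intro x
    show g⁻¹ * x * g⁻¹⁻¹ ∈ R ↔ _
    rw [inv_inv]
  have hfix : ∀ u : Ω, (g * t * g⁻¹) • u = u ↔ t • (g⁻¹ • u) = g⁻¹ • u := by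
    intro u
    rw [mul_smul, mul_smul, ← eq_inv_smul_iff]
  have hcomm : ∀ x : G, x * (g * t * g⁻¹) = (g * t * g⁻¹) * x ↔
      (g⁻¹ * x * g) * t = t * (g⁻¹ * x * g) := by
    intro x
    constructor
    · intro hx
      calc (g⁻¹ * x * g) * t = g⁻¹ * (x * (g * t * g⁻¹)) * g := by group
        _ = g⁻¹ * ((g * t * g⁻¹) * x) * g := by rw [hx]
        _ = t * (g⁻¹ * x * g) := by group
    · intro hx
      calc x * (g * t * g⁻¹) = g * ((g⁻¹ * x * g) * t) * g⁻¹ := by group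
        _ = g * (t * (g⁻¹ * x * g)) * g⁻¹ := by rw [hx]
        _ = (g * t * g⁻¹) * x := by group
  have hact : ∀ (x : G) (u : Ω), x • u = g • ((g⁻¹ * x * g) • (g⁻¹ • u)) := by
    intro x u
    simp only [smul_smul]
    congr 1
    group
  have hact2 : ∀ (x : G) (u : Ω), x • u = u ↔ (g⁻¹ * x * g) • (g⁻¹ • u) = g⁻¹ • u := by
    intro x u
    rw [eq_inv_smul_iff, ← hact]
  refine ⟨R', ?_, ?_, ?_, ?_, ?_, ?_, ?_, ?_, ?_⟩
  · intro x
    rw [hR', h.carrier]
    constructor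
    · rintro ⟨e, e', he, he', hx⟩
      refine ⟨g * e * g⁻¹, g * e' * g⁻¹, ?_, ?_, ?_⟩
      · rw [f4b4_perp]
        have : g⁻¹ * (g * e * g⁻¹) * g = e := by group
        rwa [this]
      · rw [f4b4_perp]
        have : g⁻¹ * (g * e' * g⁻¹) * g = e' := by group
        rwa [this]
      · calc x = g * (g⁻¹ * x * g) * g⁻¹ := by group
          _ = g * (e * e') * g⁻¹ := by rw [hx]
          _ = _ := by group
    · rintro ⟨e, e', he, he', rfl⟩
      refine ⟨g⁻¹ * e * g, g⁻¹ * e' * g, f4b4_perp.1 he, f4b4_perp.1 he', by group⟩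
  · intro x hx
    rw [hcomm]
    exact h.comm _ ((hR' x).1 hx)
  · intro x hx y hy
    have := h.ab _ ((hR' x).1 hx) _ ((hR' y).1 hy)
    calc x * y = g * ((g⁻¹ * x * g) * (g⁻¹ * y * g)) * g⁻¹ := by group
      _ = g * ((g⁻¹ * y * g) * (g⁻¹ * x * g)) * g⁻¹ := by rw [this]
      _ = y * x := by group
  · intro x hx
    rw [hR']
    apply h.triv
    intro u hu
    have h1 : (g * t * g⁻¹) • (g • u) = g • u := by
      rw [hfix, inv_smul_smul]
      exact hu
    have h2 := hx (g • u) h1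
    rw [hact2, inv_smul_smul] at h2
    exact h2
  · intro e he x hx
    rw [f4b4_perp] at he ⊢
    have h1 := h.perp _ he _ ((hR' x).1 hx)
    have h2 : g⁻¹ * e * g * (g⁻¹ * x * g) = g⁻¹ * (e * x) * g := by group
    rwa [h2] at h1
  · intro x hx c hc hxc u hu
    rw [hact2]
    exact h.fp _ ((hR' x).1 hx) (g⁻¹ • c) ((hfix c).1 hc) ((hact2 x c).1 hxc) _ ((hfix u).1 hu)
  · intro x hx u hu hxu k hk hkx
    rw [hR']
    apply h.cent _ ((hR' x).1 hx) (g⁻¹ • u) ((hfix u).1 hu)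
    · intro h1
      exact hxu ((hact2 x u).2 h1)
    · exact (hcomm k).1 hk
    · calc (g⁻¹ * k * g) * (g⁻¹ * x * g) = g⁻¹ * (k * x) * g := by group
        _ = g⁻¹ * (x * k) * g := by rw [hkx]
        _ = _ := by group
  · intro c c' hc hc'
    obtain ⟨y, hy, hyc⟩ := h.trans (g⁻¹ • c) (g⁻¹ • c') ((hfix c).1 hc) ((hfix c').1 hc')
    refine ⟨g * y * g⁻¹, ?_, ?_⟩
    · rw [hR']
      have : g⁻¹ * (g * y * g⁻¹) * g = y := by group
      rwa [this]
    · rw [mul_smul, mul_smul, hyc, smul_inv_smul]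
  · intro x hx u hu
    rw [hact2]
    have h1 := h.prime _ ((hR' x).1 hx) _ ((hfix u).1 hu)
    have h2 : (g⁻¹ * x * g) ^ π = g⁻¹ * x ^ π * g := by
      have h3 : g⁻¹ * x * g = g⁻¹ * x * g⁻¹⁻¹ := by rw [inv_inv]
      rw [h3, conj_pow, inv_inv]
    rwa [h2] at h1

/-- Job F4B4-2. The same prime for all involutions.

Proof. If there is no involution take `π = 2`. Otherwise fix one, `t₀`, with `π, R₀`. For
`t = g * t₀ * g⁻¹` (`lb_conj`) let `R = g R₀ g⁻¹` (`R₀.map (MulAut.conj g).toMonoidHom`); all the properties are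
invariant under conjugation (`Perp (g t g⁻¹) (g e g⁻¹) ↔ Perp t e`; `u` is a fixed point of `t` iff
`g⁻¹ • u` is one of `t₀`). -/
theorem lb_R [Finite G] [Finite Ω] [FaithfulSMul G Ω] (h : LHyp G Ω)
    (hne : ∃ x y : Ω, x ≠ y) :
    ∃ π : ℕ, π.Prime ∧ ∃ R : G → Subgroup G, ∀ t : G, IsInv t → RProp Ω π t (R t) := by
  classical
  by_cases hex : ∃ t₀ : G, IsInv t₀
  · obtain ⟨t₀, ht₀⟩ := hex
    obtain ⟨π, hπ, R₀, hR₀⟩ := lb_R_one h hne ht₀
    refine ⟨π, hπ, ?_⟩
    have h1 : ∀ t : G, ∃ R' : Subgroup G, IsInv t → RProp Ω π t R' := by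
      intro t
      by_cases ht : IsInv t
      · obtain ⟨g, hg⟩ := lb_conj h hne ht₀ ht
        obtain ⟨R', hR'⟩ := f4b4_conj hR₀ g
        rw [hg] at hR'
        exact ⟨R', fun _ => hR'⟩
      · exact ⟨⊤, fun h2 => absurd h2 ht⟩
    choose R hR using h1
    exact ⟨R, hR⟩
  · exact ⟨2, Nat.prime_two, fun _ => ⊤, fun t ht => absurd ⟨t, ht⟩ hex⟩

end Pool.Agent.H.MP_6268b4_co
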