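import Pool.Agent.H.MP_6268b4_co.F4B3

/-!
Counting, first part.
-/

namespace Pool.Agent.H.MP_6268b4_co

variable {G Ω : Type*} [Group G] [MulAction G Ω]

/-- Job F4B5-1. The constants `r` and `l`.

Proof. `r` is the order of the stabilizer of two points: all these stabilizers are conjugate (`two`).
It is divisible by 4 (`four`, Lagrange: `orderOf_dvd_natCard` in the subgroup of elements fixing
`x, y`). `l` is the number of fixed points of an involution (`lb_conj`; an involution exists,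
`lb_exists_inv`); odd and at least 3 by `lb_sharp`. -/
theorem lb_const [Finite G] [Finite Ω] [FaithfulSMul G Ω] (h : LHyp G Ω)
    (hne : ∃ x y : Ω, x ≠ y) :
    ∃ r l : ℕ, 4 ∣ r ∧ Odd l ∧ 3 ≤ l ∧
      (∀ t : G, IsInv t → Nat.card {u : Ω // t • u = u} = l) ∧
      (∀ x y : Ω, x ≠ y → Nat.card {g : G // g • x = x ∧ g • y = y} = r) := by
  obtain ⟨x₀, y₀, hxy₀⟩ := hne
  obtain ⟨z₀, hz₀, -, -⟩ := lb_exists_inv h.toFHyp4 hxy₀
  refine ⟨Nat.card {g : G // g • x₀ = x₀ ∧ g • y₀ = y₀}, Nat.card {u : Ω // z₀ • u = u},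
    ?_, (lb_sharp h ⟨x₀, y₀, hxy₀⟩ hz₀).1, (lb_sharp h ⟨x₀, y₀, hxy₀⟩ hz₀).2.1, ?_, ?_⟩
  · obtain ⟨s, hs1, hs2, hs⟩ := h.four x₀ y₀ hxy₀
    let S : Subgroup G := MulAction.stabilizer G x₀ ⊓ MulAction.stabilizer G y₀
    have hsS : s ∈ S := Subgroup.mem_inf.2 ⟨MulAction.mem_stabilizer_iff.2 hs1,
      MulAction.mem_stabilizer_iff.2 hs2⟩
    have h1 : orderOf (⟨s, hsS⟩ : S) ∣ Nat.card S := orderOf_dvd_natCard _
    rw [Subgroup.orderOf_mk, hs] at h1
    exact h1
  · intro t ht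
    obtain ⟨g, hg⟩ := lb_conj h ⟨x₀, y₀, hxy₀⟩ hz₀ ht
    refine (Nat.card_congr ?_).symm
    refine (MulAction.toPerm g).subtypeEquiv ?_
    intro u
    rw [MulAction.toPerm_apply, ← hg, mul_smul, mul_smul, inv_smul_smul, smul_left_cancel_iff]
  · intro x y hxy
    obtain ⟨g, hg1, hg2⟩ := h.two x₀ y₀ x y hxy₀ hxy
    refine (Nat.card_congr ?_).symm
    refine (MulAut.conj g).toEquiv.subtypeEquiv ?_
    intro k
    show _ ↔ (g * k * g⁻¹) • x = x ∧ (g * k * g⁻¹) • y = y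
    rw [← hg1, ← hg2, mul_smul, mul_smul, mul_smul, mul_smul, inv_smul_smul, inv_smul_smul,
      smul_left_cancel_iff, smul_left_cancel_iff]

/-- Job F4B5-2. The elements acting trivially on the fixed points of `t` are the elements fixing two
given ones.

Proof. `LHyp.fix` with `g = t`. -/
theorem lb_triv_iff [Finite G] [Finite Ω] [FaithfulSMul G Ω] (h : LHyp G Ω)
    {t : G} (ht : IsInv t) {x y : Ω} (hxy : x ≠ y) (hx : t • x = x) (hy : t • y = y) (z : G) :
    (∀ u : Ω, t • u = u → z • u = u) ↔ z • x = x ∧ z • y = y := by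
  constructor
  · intro h1
    exact ⟨h1 x hx, h1 y hy⟩
  · rintro ⟨h1, h2⟩ u hu
    exact h.fix t z x y u hxy ht.1 hx hy h1 h2 hu

/-- Job F4B5-3. The number of `e` with `Perp t e` and `e • c = c` is `r`.

Proof. Take `e₀` with `Perp t e₀`, `e₀ • c = c` (`lb_perp`) and a fixed point `y ≠ c` of `t` (`lb_two'`). By
`lb_perp` the map `z ↦ e₀ * z` is a bijection from the set of elements acting trivially on the fixed
points of `t`, i.e. (`lb_triv_iff`) of the elements fixing `c` and `y`, to the set in question: for `e` in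
the set, `z = e₀ * e` acts trivially. (`z` fixes `c`, so `(e₀ * z) • c = c`.) -/
theorem lb_perpc [Finite G] [Finite Ω] [FaithfulSMul G Ω] (h : LHyp G Ω)
    (hne : ∃ x y : Ω, x ≠ y) {r : ℕ}
    (hr : ∀ x y : Ω, x ≠ y → Nat.card {g : G // g • x = x ∧ g • y = y} = r)
    {t : G} {c : Ω} (ht : IsInv t) (hc : t • c = c) :
    Nat.card {e : G // Perp t e ∧ e • c = c} = r := by
  obtain ⟨p1, p2, p3⟩ := lb_perp h hne ht
  obtain ⟨e₀, he₀, he₀c⟩ := p1 c hc
  obtain ⟨y, hyc, hy⟩ := lb_two' h hne ht c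
  rw [← hr c y hyc.symm]
  have he1 : e₀ * e₀ = 1 := he₀.2.1.2
  symm
  apply Nat.card_congr
  refine (Equiv.mulLeft e₀).subtypeEquiv ?_
  intro z
  rw [← lb_triv_iff h ht hyc.symm hc hy z, Equiv.coe_mulLeft]
  constructor
  · intro hz
    refine ⟨p3 e₀ z he₀ hz, ?_⟩
    rw [mul_smul, hz c hc, he₀c]
  · rintro ⟨h1, h2⟩ u hu
    have h3 := p2 c e₀ (e₀ * z) hc he₀ h1 he₀c h2 u hu
    rwa [← mul_assoc, he1, one_mul] at h3

/-- Job F4B5-4. The number of `e` with `Perp t e` is `l * r`: each such `e` has exactly one common fixed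
point `c` with `t` (`lb_common`, `lb_common_unique`, `lb_two`), so the set is in bijection with the
pairs `(c, e)` with `t • c = c`, `Perp t e`, `e • c = c`. -/
theorem lb_perp_card [Finite G] [Finite Ω] [FaithfulSMul G Ω] (h : LHyp G Ω)
    (hne : ∃ x y : Ω, x ≠ y) {r l : ℕ}
    (hl : ∀ t : G, IsInv t → Nat.card {u : Ω // t • u = u} = l)
    (hr : ∀ x y : Ω, x ≠ y → Nat.card {g : G // g • x = x ∧ g • y = y} = r)
    {t : G} (ht : IsInv t) : Nat.card {e : G // Perp t e} = l * r := by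
  classical
  have hex : ∀ e : {e : G // Perp t e}, ∃ c : Ω, t • c = c ∧ (e : G) • c = c := by
    rintro ⟨e, he⟩
    obtain ⟨x, y, hxy, hx, hy⟩ := lb_two h hne ht
    exact lb_common h hxy ht hx hy he.2.1.2 he.2.2.2
  choose f hf1 hf2 using hex
  let F : {e : G // Perp t e} → (c : {u : Ω // t • u = u}) × {e : G // Perp t e ∧ e • (c : Ω) = c} :=
    fun e => ⟨⟨f e, hf1 e⟩, ⟨e, e.2, hf2 e⟩⟩
  have hF : Function.Bijective F := by
    constructor
    · intro e e' hee
      have h1 : ((F e).2 : G) = (F e').2 := by rw [hee]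
      exact Subtype.ext h1
    · rintro ⟨⟨c, hc⟩, ⟨e, he, hec⟩⟩
      refine ⟨⟨e, he⟩, ?_⟩
      have h1 : f ⟨e, he⟩ = c :=
        lb_common_unique h.toFHyp ht he.2.1 he.2.2.1 (hf1 ⟨e, he⟩) (hf2 ⟨e, he⟩) hc hec
      subst h1
      rfl
  rw [Nat.card_congr (Equiv.ofBijective F hF)]
  have := Fintype.ofFinite {u : Ω // t • u = u}
  rw [Nat.card_sigma, Finset.sum_congr rfl fun c _ => lb_perpc h hne hr ht c.2,
    Finset.sum_const, Finset.card_univ, smul_eq_mul, ← Nat.card_eq_fintype_card, hl t ht]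

end Pool.Agent.H.MP_6268b4_co
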