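import Pool.Agent.H.MP_6268b4_co.F4B5

/-!
Counting, second part.
-/

namespace Pool.Agent.H.MP_6268b4_co

variable {G Ω : Type*} [Group G] [MulAction G Ω]

/-- Double counting with constant fibres. -/
theorem f4b6_count {α β : Type*} [Finite α] [Finite β] (R : α → β → Prop) (m n : ℕ)
    (h1 : ∀ a, Nat.card {b // R a b} = m) (h2 : ∀ b, Nat.card {a // R a b} = n) :
    Nat.card α * m = Nat.card β * n := by
  classical
  have := Fintype.ofFinite α
  have := Fintype.ofFinite β
  have e : (Σ a, {b // R a b}) ≃ (Σ b, {a // R a b}) :=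
    { toFun := fun p => ⟨p.2.1, ⟨p.1, p.2.2⟩⟩
      invFun := fun p => ⟨p.2.1, ⟨p.1, p.2.2⟩⟩
      left_inv := fun _ => rfl
      right_inv := fun _ => rfl }
  have h3 := Nat.card_congr e
  rw [Nat.card_sigma, Nat.card_sigma] at h3
  simp only [h1, h2, Finset.sum_const, Finset.card_univ, smul_eq_mul] at h3
  rw [Nat.card_eq_fintype_card, Nat.card_eq_fintype_card]
  exact h3

/-- Removing one point. -/
theorem f4b6_remove {α : Type*} [Finite α] (p : α → Prop) (c : α) (hc : p c) :
    Nat.card {x // p x ∧ x ≠ c} + 1 = Nat.card {x // p x} := by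
  classical
  have := Fintype.ofFinite α
  rw [Nat.card_eq_fintype_card, Nat.card_eq_fintype_card, Fintype.card_subtype,
    Fintype.card_subtype]
  have h1 : (Finset.univ.filter (fun x => p x ∧ x ≠ c)) =
      (Finset.univ.filter (fun x => p x)).erase c := by
    ext x
    simp only [Finset.mem_filter, Finset.mem_univ, true_and, Finset.mem_erase]
    exact and_comm
  rw [h1]
  exact Finset.card_erase_add_one (by simpa using hc)

/-- A subtype of a subtype. -/
theorem f4b6_sub {α : Type*} (p q : α → Prop) :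
    Nat.card {b : {x // p x} // q b.1} = Nat.card {x // p x ∧ q x} :=
  Nat.card_congr (Equiv.subtypeSubtypeEquivSubtypeInter p q)

/-- A subtype with exactly one element. -/
theorem f4b6_one {α : Type*} (p : α → Prop) (h : ∃! x, p x) : Nat.card {x // p x} = 1 := by
  obtain ⟨x, hx, hu⟩ := h
  rw [Nat.card_eq_one_iff_unique]
  exact ⟨⟨fun a b => Subtype.ext ((hu _ a.2).trans (hu _ b.2).symm)⟩, ⟨⟨x, hx⟩⟩⟩

/-- Job F4B6-1. Let `t • x ≠ x`. There is exactly one `e` with `Perp t e` and `e • x = x`.

Proof. Let `e` be the involution fixing `x` and `t • x` (`lb_exists_inv`). `t` interchanges these points,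
so `t` commutes with `e` (`lb_swap_comm`); `e ≠ t`. Uniqueness: if `Perp t e'` and `e' • x = x` then
`e' • (t • x) = t • x`, so `e' = e` (`f4_inv_unique`). -/
theorem lb_foot [Finite G] (h : FHyp4 G Ω) {t : G} (ht : IsInv t)
    {x : Ω} (hx : t • x ≠ x) : ∃! e : G, Perp t e ∧ e • x = x := by
  obtain ⟨z, hz, hzx, hzy⟩ := lb_exists_inv h (Ne.symm hx)
  have hF : FHyp G Ω := h.toFHyp
  have htx : t • (t • x) = x := by rw [smul_smul, ht.2, one_smul]
  have hc : t * z = z * t := lb_swap_comm hF (Ne.symm hx) hz hzx hzy rfl htx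
  refine ⟨z, ⟨⟨ht, hz, ?_, hc⟩, hzx⟩, ?_⟩
  · rintro rfl
    exact hx hzx
  · rintro e ⟨he, hex⟩
    refine f4_inv_unique hF (Ne.symm hx) he.2.1 hz hex ?_ hzx hzy
    rw [smul_smul, ← he.2.2.2, mul_smul, hex]

/-- Job F4B6-2. The numbers of points and of involutions.

Proof. Take `r, l` from `lb_const` and use `lb_perpc`, `lb_perp_card`. Let `t` be an involution.
`card`: the points moved by `t` are in bijection with the pairs `(e, x)`, `Perp t e`, `e • x = x`,
`t • x ≠ x` (`lb_foot`); for each of the `l * r` elements `e` with `Perp t e` there are `l - 1` such `x` (the `l`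
fixed points of `e` except the one common fixed point of `e` and `t`, `lb_common`, `lb_common_unique`).
So `Nat.card Ω = l + (l * r) * (l - 1)`.
`invc`: the points `x ≠ c` are in bijection with the pairs `(t, x)`, `t` an involution with `t • c = c`,
`x ≠ c`, `t • x = x` (`lb_exists_inv`, `f4_inv_unique`); for each `t` there are `l - 1` such `x`. So
`Nat.card Ω - 1 = (l - 1) * Nat.card {t | IsInv t ∧ t • c = c}` and `Nat.card Ω - 1 =
(l - 1) * (1 + l * r)`; `l - 1 ≠ 0`.
`inv`: the pairs `(t, c)` with `IsInv t`, `t • c = c`: `l * Nat.card {t | IsInv t} =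
Nat.card Ω * (1 + l * r)`; cancel `l`. -/
theorem lb_N [Finite G] [Finite Ω] [FaithfulSMul G Ω] (h : LHyp G Ω)
    (hne : ∃ x y : Ω, x ≠ y) : ∃ r l : ℕ, NHyp G Ω r l := by
  classical
  obtain ⟨r, l, h4r, hodd, h3l, hfix, hstab⟩ := lb_const h hne
  have hF : FHyp G Ω := h.toFHyp4.toFHyp
  have hperp : ∀ t : G, IsInv t → Nat.card {e : G // Perp t e} = l * r :=
    fun t ht => lb_perp_card h hne hfix hstab ht
  -- fixed points of an involution except one
  have hrem : ∀ (e : G) (c : Ω), IsInv e → e • c = c →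
      Nat.card {x : Ω // e • x = x ∧ x ≠ c} = l - 1 := by
    intro e c he hc
    have h1 := f4b6_remove (fun x : Ω => e • x = x) c hc
    rw [hfix e he] at h1
    omega
  have hcard : Nat.card Ω = l * (1 + r * (l - 1)) := by
    obtain ⟨x0, y0, hxy0⟩ := hne
    obtain ⟨t, ht, -, -⟩ := lb_exists_inv h.toFHyp4 hxy0
    obtain ⟨x1, y1, hxy1, hx1, hy1⟩ := lb_two h ⟨x0, y0, hxy0⟩ ht
    have h1 := f4b6_count (α := {e : G // Perp t e}) (β := {x : Ω // t • x ≠ x})
      (fun e x => e.1 • x.1 = x.1) (l - 1) 1 (by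
        rintro ⟨e, he⟩
        rw [f4b6_sub (fun x : Ω => t • x ≠ x) (fun x : Ω => e • x = x)]
        obtain ⟨c, hc1, hc2⟩ := lb_common h hxy1 ht hx1 hy1 he.2.1.2 he.2.2.2
        rw [← hrem e c he.2.1 hc2]
        apply Nat.card_congr
        apply Equiv.subtypeEquivRight
        intro x
        constructor
        · rintro ⟨h2, h3⟩
          refine ⟨h3, ?_⟩
          rintro rfl
          exact h2 hc1
        · rintro ⟨h2, h3⟩
          refine ⟨fun h4 => h3 ?_, h2⟩
          exact lb_common_unique hF ht he.2.1 he.2.2.1 h4 h2 hc1 hc2) (by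
        rintro ⟨x, hx⟩
        rw [f4b6_sub (fun e : G => Perp t e) (fun e : G => e • x = x)]
        exact f4b6_one _ (lb_foot h.toFHyp4 ht hx))
    rw [hperp t ht, mul_one] at h1
    have h2 : Nat.card Ω = Nat.card {x : Ω // t • x = x} + Nat.card {x : Ω // t • x ≠ x} := by
      rw [← Nat.card_sum]
      exact (Nat.card_congr (Equiv.sumCompl (fun x : Ω => t • x = x))).symm
    rw [h2, hfix t ht, ← h1]
    ring
  have hinvc : ∀ c : Ω, Nat.card {t : G // IsInv t ∧ t • c = c} = 1 + l * r := by
    intro c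
    have h1 := f4b6_count (α := {t : G // IsInv t ∧ t • c = c}) (β := {x : Ω // x ≠ c})
      (fun t x => t.1 • x.1 = x.1) (l - 1) 1 (by
        rintro ⟨t, ht, htc⟩
        rw [f4b6_sub (fun x : Ω => x ≠ c) (fun x : Ω => t • x = x), ← hrem t c ht htc]
        apply Nat.card_congr
        apply Equiv.subtypeEquivRight
        intro x
        exact and_comm) (by
        rintro ⟨x, hx⟩
        rw [f4b6_sub (fun t : G => IsInv t ∧ t • c = c) (fun t : G => t • x = x)]
        obtain ⟨z, hz, hzx, hzc⟩ := lb_exists_inv h.toFHyp4 hx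
        refine f4b6_one _ ⟨z, ⟨⟨hz, hzc⟩, hzx⟩, ?_⟩
        rintro z' ⟨⟨hz', hzc'⟩, hzx'⟩
        exact f4_inv_unique hF hx hz' hz hzx' hzc' hzx hzc)
    rw [mul_one] at h1
    have h2 : Nat.card {x : Ω // x ≠ c} + 1 = Nat.card Ω := by
      have h3 := f4b6_remove (fun _ : Ω => True) c trivial
      have h4 : Nat.card {x : Ω // True ∧ x ≠ c} = Nat.card {x : Ω // x ≠ c} := by
        apply Nat.card_congr
        apply Equiv.subtypeEquivRight
        intro x
        exact Iff.intro (fun h => h.2) (fun h => ⟨trivial, h⟩)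
      have h5 : Nat.card {x : Ω // True} = Nat.card Ω :=
        Nat.card_congr (Equiv.subtypeUnivEquiv fun _ => trivial)
      rw [h4, h5] at h3
      exact h3
    rw [← h1, hcard] at h2
    obtain ⟨k, rfl⟩ : ∃ k, l = k + 1 := ⟨l - 1, by omega⟩
    rw [Nat.add_sub_cancel] at h2
    have hk : 0 < k := by omega
    apply Nat.eq_of_mul_eq_mul_right hk
    have h6 : (k + 1) * (1 + r * k) = (1 + (k + 1) * r) * k + 1 := by ring
    rw [h6] at h2
    omega
  have hinv : Nat.card {t : G // IsInv t} = (1 + r * (l - 1)) * (1 + l * r) := by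
    have h1 := f4b6_count (α := {t : G // IsInv t}) (β := Ω)
      (fun t x => t.1 • x = x) l (1 + l * r) (by
        rintro ⟨t, ht⟩
        exact hfix t ht) (by
        intro c
        rw [f4b6_sub (fun t : G => IsInv t) (fun t : G => t • c = c)]
        exact hinvc c)
    have hl : 0 < l := by omega
    apply Nat.eq_of_mul_eq_mul_right hl
    rw [h1, hcard]
    ring
  exact ⟨r, l, ⟨h4r, hodd, h3l, hfix, hstab, fun t c ht hc => lb_perpc h hne hstab ht hc, hperp,
    hinvc, hcard, hinv⟩⟩

end Pool.Agent.H.MP_6268b4_co
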