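import Pool.Agent.H.MP_6268b4_co.F4B4

/-!
Products of two involutions without common fixed point.
-/

namespace Pool.Agent.H.MP_6268b4_co

variable {G Ω : Type*} [Group G] [MulAction G Ω]

/-- Symmetry. Proof: unfold. -/
theorem perp_symm {t e : G} (h : Perp t e) : Perp e t := by
  exact ⟨h.2.1, h.1, h.2.2.1.symm, h.2.2.2.symm⟩

/-- The third involution. Proof: unfold; `t * e ≠ 1` since `t ≠ e`. -/
theorem perp_mul {t e : G} (h : Perp t e) : Perp t (t * e) ∧ Perp e (t * e) := by
  obtain ⟨ht, he, hte, hc⟩ := h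
  have h1 : t * e ≠ 1 := by
    intro h1
    apply hte
    rw [← ht.2] at h1
    exact (mul_left_cancel h1).symm
  have h2 : (t * e) * (t * e) = 1 := by
    calc (t * e) * (t * e) = t * (e * t) * e := by group
      _ = t * (t * e) * e := by rw [hc]
      _ = (t * t) * (e * e) := by group
      _ = 1 := by rw [ht.2, he.2, one_mul]
  refine ⟨⟨ht, ⟨h1, h2⟩, ?_, ?_⟩, ⟨he, ⟨h1, h2⟩, ?_, ?_⟩⟩
  · intro h3
    exact he.1 (left_eq_mul.1 h3)
  · rw [mul_assoc, ← hc]
  · intro h3
    exact ht.1 (right_eq_mul.1 h3)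
  · rw [← mul_assoc, ← hc]

/-- Job F4B8-1. The product of two involutions without common fixed point has no fixed point.

Proof. Let `(t * t') • x = x`, so `t' • x = t • x =: y`. If `y = x` it is a common fixed point. So `t` and
`t'` both interchange `x, y`. Let `z` be the involution fixing `x, y` (`lb_exists_inv`). `t` commutes with `z`
(`lb_swap_comm`), so there is `c` with `z • c = c`, `t • c = c` (`lb_common`). `t * t'` fixes `x, y`, so by
`LHyp.fix` (with `g = z`, `g' = t * t'`) it fixes `c`; hence `t' • c = t • c = c`, a contradiction. -/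
theorem lb_free [Finite G] [Finite Ω] (h : LHyp G Ω) {t t' : G} (ht : IsInv t)
    (ht' : IsInv t') (hd : ∀ c : Ω, t • c = c → t' • c = c → False) (x : Ω) :
    (t * t') • x ≠ x := by
  intro hx
  have hF : FHyp G Ω := h.toFHyp4.toFHyp
  have htt : ∀ u : Ω, t • t • u = u := fun u => by rw [smul_smul, ht.2, one_smul]
  have htt' : ∀ u : Ω, t' • t' • u = u := fun u => by rw [smul_smul, ht'.2, one_smul]
  have h1 : t' • x = t • x := by
    rw [mul_smul] at hx
    calc t' • x = t • t • t' • x := (htt _).symm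
      _ = t • x := by rw [hx]
  by_cases hy : t • x = x
  · exact hd x hy (h1.trans hy)
  · have h2 : t' • (t • x) = x := by rw [← h1, htt']
    obtain ⟨z, hz, hzx, hzy⟩ := lb_exists_inv h.toFHyp4 (x := x) (y := t • x) (Ne.symm hy)
    have hc : t * z = z * t := lb_swap_comm hF (Ne.symm hy) hz hzx hzy rfl (htt x)
    obtain ⟨c, hzc, htc⟩ := lb_common h (Ne.symm hy) hz hzx hzy ht.2 hc.symm
    have h3 := h.fix z (t * t') x (t • x) c (Ne.symm hy) hz.1 hzx hzy hx
      (by rw [mul_smul, h2]) hzc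
    apply hd c htc
    rw [mul_smul] at h3
    calc t' • c = t • t • t' • c := (htt _).symm
      _ = c := by rw [h3, htc]

/-- Job F4B8-2. Let `e, e'` be involutions without common fixed point, `g ∈ R e`, `g ∈ R e'`. Then
`g ^ π = 1`.

Proof. By `RProp.prime` `g ^ π` fixes all fixed points of `e` and all fixed points of `e'`. Let `x ≠ y` be
fixed points of `e` and `c` one of `e'` (`lb_two`). If `g ^ π ≠ 1` then by `LHyp.fix` (with `g ^ π` and
`g' = e`) `e • c = c`, a contradiction. -/
theorem lb_pow [Finite G] [Finite Ω] [FaithfulSMul G Ω] (h : LHyp G Ω)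
    (hne : ∃ x y : Ω, x ≠ y) {π : ℕ} {e e' : G} (he : IsInv e) (he' : IsInv e')
    {R R' : Subgroup G} (hR : RProp Ω π e R) (hR' : RProp Ω π e' R')
    (hd : ∀ c : Ω, e • c = c → e' • c = c → False) {g : G} (hg : g ∈ R) (hg' : g ∈ R') :
    g ^ π = 1 := by
  by_contra hcon
  obtain ⟨x, y, hxy, hx, hy⟩ := lb_two h hne he
  obtain ⟨c, -, -, hc, -⟩ := lb_two h hne he'
  exact hd c (h.fix (g ^ π) e x y c hxy hcon (hR.prime g hg x hx) (hR.prime g hg y hy) hx hy
    (hR'.prime g hg' c hc)) hc

/-- Job F4B8-3. `l` is a power of `π`, in particular `π` is odd and divides `l`.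

Proof. Let `K` be the set of `g ∈ R` acting trivially on the fixed points of `t`, a subgroup of `R`. The
quotient `R / K` acts simply transitively on the `l` fixed points of `t` (`trans`, `fp`), so it has
order `l`, and all its elements have order `1` or `π` (`prime`). So `l` is a power of `π`
(`IsPGroup.iff_card`, or: every prime divisor of `l` is `π` by Cauchy,
`Nat.eq_prime_pow_of_unique_prime_dvd`). `l ≥ 3` is odd, so `π` is odd and divides `l`. Also
`Nat.card R = l * r`: the fibre of `R → R / K` has `r` elements: `K` is the stabilizer of two points. -/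
theorem lb_l_pow [Finite G] [Finite Ω] [FaithfulSMul G Ω] (h : LHyp G Ω)
    (hne : ∃ x y : Ω, x ≠ y) {r l : ℕ} (hN : NHyp G Ω r l) {π : ℕ} (hπ : π.Prime) {t : G}
    (ht : IsInv t) {R : Subgroup G} (hR : RProp Ω π t R) :
    (∃ m : ℕ, 0 < m ∧ l = π ^ m) ∧ Odd π ∧ Nat.card R = l * r := by
  classical
  obtain ⟨x, y, hxy, hx, hy⟩ := lb_two h hne ht
  obtain ⟨f, hf⟩ := f4_restrict R {u : Ω | t • u = u}
    (fun g hg u hu => f4b3_inv (hR.comm g hg) hu)
  have hrange : Nat.card f.range = l := by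
    rw [← hN.fixc t ht]
    apply Nat.card_congr
    refine Equiv.ofBijective (fun d : f.range =>
      (d : Equiv.Perm {u : Ω | t • u = u}) ⟨x, hx⟩) ⟨?_, ?_⟩
    · rintro ⟨_, ⟨g, rfl⟩⟩ ⟨_, ⟨g', rfl⟩⟩ hgg
      have h1 : (g : G) • x = (g' : G) • x :=
        ((hf g ⟨x, hx⟩).symm.trans (congrArg Subtype.val hgg)).trans (hf g' ⟨x, hx⟩)
      apply Subtype.ext
      apply Equiv.ext
      intro u
      apply Subtype.ext
      have h2 := hR.fp ((g' : G)⁻¹ * g) (R.mul_mem (R.inv_mem g'.2) g.2) x hx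
        (by rw [mul_smul, h1, inv_smul_smul]) u u.2
      rw [mul_smul, inv_smul_eq_iff] at h2
      exact (hf g u).trans (h2.trans (hf g' u).symm)
    · rintro ⟨c, hc⟩
      obtain ⟨g, hg, hgc⟩ := hR.trans x c hx hc
      refine ⟨⟨f ⟨g, hg⟩, ⟨g, hg⟩, rfl⟩, Subtype.ext ?_⟩
      exact (hf ⟨g, hg⟩ ⟨x, hx⟩).trans hgc
  have hker : Nat.card f.ker = r := by
    rw [← hN.stab2 x y hxy]
    have hk : ∀ g : f.ker, ∀ u : Ω, t • u = u → ((g : R) : G) • u = u := by
      intro g u hu
      have h1 : f g = 1 := g.2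
      have h2 := hf g ⟨u, hu⟩
      rw [h1] at h2
      exact h2.symm
    have hall : ∀ g : {g : G // g • x = x ∧ g • y = y}, ∀ u : Ω, t • u = u → (g : G) • u = u :=
      fun g u hu => h.fix t g x y u hxy ht.1 hx hy g.2.1 g.2.2 hu
    apply Nat.card_congr
    exact
      { toFun := fun g => ⟨((g : R) : G), hk g x hx, hk g y hy⟩
        invFun := fun g => ⟨⟨(g : G), hR.triv g (hall g)⟩, by
          rw [MonoidHom.mem_ker]
          apply Equiv.ext
          intro u
          apply Subtype.ext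
          exact (hf _ u).trans (hall g u u.2)⟩
        left_inv := fun g => rfl
        right_inv := fun g => rfl }
  have hcard : Nat.card R = l * r := by
    rw [Subgroup.card_eq_card_quotient_mul_card_subgroup f.ker,
      Nat.card_congr (QuotientGroup.quotientKerEquivRange f).toEquiv, hrange, hker]
  have hpg : IsPGroup π f.range := by
    rintro ⟨_, ⟨g, rfl⟩⟩
    refine ⟨1, ?_⟩
    apply Subtype.ext
    apply Equiv.ext
    intro u
    apply Subtype.ext
    rw [pow_one]
    have h1 : (((⟨f g, ⟨g, rfl⟩⟩ : f.range) ^ π : f.range) : Equiv.Perm {u : Ω | t • u = u})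
        = f (g ^ π) := by
      rw [map_pow]
      rfl
    rw [h1]
    refine (hf _ u).trans ?_
    exact hR.prime g g.2 u u.2
  have : Fact π.Prime := ⟨hπ⟩
  obtain ⟨m, hm⟩ := IsPGroup.iff_card.1 hpg
  rw [hrange] at hm
  have hm0 : 0 < m := by
    rcases Nat.eq_zero_or_pos m with h0 | h0
    · rw [h0, pow_zero] at hm
      have := hN.three
      omega
    · exact h0
  refine ⟨⟨m, hm0, hm⟩, ?_, hcard⟩
  have h1 := hN.odd
  rw [hm] at h1
  rcases Nat.even_or_odd π with h2 | h2
  · exact absurd (h2.pow_of_ne_zero hm0.ne') (Nat.not_even_iff_odd.2 h1)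
  · exact h2

end Pool.Agent.H.MP_6268b4_co
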