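import Pool.Agent.H.MP_6268b4_co.F4CDefs

/-!
Involutions in a group in which only the identity fixes three points.
-/

namespace Pool.Agent.H.MP_6268b4_co

variable {G Ω : Type*} [Group G] [MulAction G Ω]

/-- Job F4C1-1. `Ω` has even size.

Proof. Let `z` be an involution fixing `x` and `y` (`lb_exists_inv h.toFHyp4`). By `h.three` its fixed
points are exactly `x` and `y`, so their number is 2, and the number of fixed points has the parity of
`Nat.card Ω` (`f4_parity`). -/
theorem z_even [Finite G] [Finite Ω] (h : ZHyp G Ω) {x y : Ω} (hxy : x ≠ y) :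
    Even (Nat.card Ω) := by
  classical
  have : Fintype Ω := Fintype.ofFinite Ω
  obtain ⟨z, hz, hzx, hzy⟩ := lb_exists_inv h.toFHyp4 hxy
  have h2 := f4_parity (Ω := Ω) hz.2
  have hset : ∀ u : Ω, z • u = u ↔ u = x ∨ u = y := by
    intro u
    constructor
    · intro hu
      by_contra hne
      have h1 : u ≠ x := fun e => hne (Or.inl e)
      have h3 : u ≠ y := fun e => hne (Or.inr e)
      exact hz.1 (h.three z x y u hxy (Ne.symm h1) (Ne.symm h3) hzx hzy hu)
    · rintro (rfl | rfl)
      · exact hzx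
      · exact hzy
  have hc : Nat.card {u : Ω // z • u = u} = 2 := by
    have h4 : Nat.card {u : Ω // z • u = u} = Nat.card (({x, y} : Finset Ω) : Set Ω) := by
      apply Nat.card_congr
      apply Equiv.subtypeEquivRight
      intro u
      rw [hset u]
      simp
    rw [h4]
    simp only [Nat.card_eq_fintype_card, Fintype.card_coe, SetLike.coe_sort_coe]
    exact Finset.card_pair hxy
  rw [hc] at h2
  rw [Nat.even_iff]
  omega

/-- Job F4C1-2. An involution `t` fixing a point `c` fixes exactly one other point `d`.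

Proof. The number of fixed points of `t` is even (`f4_parity`, `z_even`) and at least 1, so there is
another fixed point `d`. If there were a third fixed point `u` then `t = 1` by `h.three`. -/
theorem z_fix_two [Finite G] [Finite Ω] (h : ZHyp G Ω) {t : G} (ht : IsInv t) {c c' : Ω}
    (hcc' : c ≠ c') (hc : t • c = c) :
    ∃ d : Ω, d ≠ c ∧ t • d = d ∧ ∀ u : Ω, t • u = u → u = c ∨ u = d := by
  classical
  have he := z_even h hcc'
  have h2 := f4_parity (Ω := Ω) ht.2
  rw [Nat.even_iff] at he
  have hd : ∃ d : Ω, d ≠ c ∧ t • d = d := by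
    by_contra hno
    have h3 : ∀ u : Ω, t • u = u → u = c := by
      intro u hu
      by_contra hne
      exact hno ⟨u, hne, hu⟩
    have h4 : Nat.card {u : Ω // t • u = u} = 1 := by
      rw [Nat.card_eq_one_iff_unique]
      constructor
      · constructor
        intro a b
        apply Subtype.ext
        rw [h3 a.1 a.2, h3 b.1 b.2]
      · exact ⟨⟨c, hc⟩⟩
    omega
  obtain ⟨d, hdc, hd⟩ := hd
  refine ⟨d, hdc, hd, ?_⟩
  intro u hu
  by_contra hne
  have h1 : u ≠ c := fun e => hne (Or.inl e)
  have h3 : u ≠ d := fun e => hne (Or.inr e)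
  exact ht.1 (h.three t c d u (Ne.symm hdc) (Ne.symm h1) (Ne.symm h3) hc hd hu)

/-- Job F4C1-3. There are `n - 1` involutions fixing `v`.

Proof. The map from these involutions to `{x // x ≠ v}`, `t ↦` the other fixed point (`z_fix_two`), is
bijective: injective by `f4_inv_unique`, surjective by `lb_exists_inv`. And
`Nat.card {x // x ≠ v} + 1 = Nat.card Ω`. -/
theorem z_inv_card [Finite G] [Finite Ω] (h : ZHyp G Ω) {v w : Ω} (hvw : v ≠ w) :
    Nat.card {t : G // IsInv t ∧ t • v = v} + 1 = Nat.card Ω := by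
  classical
  have : Fintype Ω := Fintype.ofFinite Ω
  have hone : Nat.card {x : Ω // x ≠ v} + 1 = Nat.card Ω := by
    have h1 : Nat.card {x : Ω // x ≠ v} = Nat.card Ω - 1 := by
      rw [Nat.card_eq_fintype_card, Nat.card_eq_fintype_card]
      rw [Fintype.card_subtype_compl, Fintype.card_subtype_eq]
    have h2 : 0 < Nat.card Ω := Nat.card_pos_iff.2 ⟨⟨v⟩, inferInstance⟩
    omega
  rw [← hone]
  congr 1
  have hex : ∀ t : {t : G // IsInv t ∧ t • v = v}, ∃ d : Ω, d ≠ v ∧ t.1 • d = d := by
    intro t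
    obtain ⟨d, h1, h2, _⟩ := z_fix_two h t.2.1 hvw t.2.2
    exact ⟨d, h1, h2⟩
  choose f hf1 hf2 using hex
  apply Nat.card_congr
  refine Equiv.ofBijective (fun t => ⟨f t, hf1 t⟩) ⟨?_, ?_⟩
  · intro t t' htt
    have e : f t = f t' := congrArg Subtype.val htt
    apply Subtype.ext
    apply f4_inv_unique h.toFHyp (Ne.symm (hf1 t)) t.2.1 t'.2.1 t.2.2 (hf2 t) t'.2.2
    rw [e]
    exact hf2 t'
  · rintro ⟨x, hx⟩
    obtain ⟨z, hz, hzv, hzx⟩ := lb_exists_inv h.toFHyp4 (Ne.symm hx)
    refine ⟨⟨z, hz, hzv⟩, ?_⟩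
    apply Subtype.ext
    change f ⟨z, hz, hzv⟩ = x
    by_contra hne
    exact hz.1 (h.three z v x (f ⟨z, hz, hzv⟩) (Ne.symm hx) (Ne.symm (hf1 _)) (Ne.symm hne) hzv hzx
      (hf2 ⟨z, hz, hzv⟩))

/-- Job F4C1-4. The product of two involutions fixing `v` is `1` or fixes no other point.

Proof. Let `x ≠ v`, `(t * t') • x = x`, and `x' = t' • x`; then `t • x = x'` too (`t • t' • x = x`, apply
`t`). If `x' = x` then `t` and `t'` both fix `v` and `x`, so `t = t'` (`f4_inv_unique`) and
`t * t' = t * t = 1`. If `x' ≠ x`: `x' ≠ v` (`t • x' = x ≠ v = t • v`), and `t * t'` fixes `v`, `x` and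
`x'` (`t' • x' = x`, `t • x = x'`). So `t * t' = 1` by `h.three`. -/
theorem z_prod [Finite G] (h : ZHyp G Ω) {v : Ω} {t t' : G} (ht : IsInv t)
    (ht' : IsInv t') (hv : t • v = v) (hv' : t' • v = v) : IsE v (t * t') := by
  refine ⟨by rw [mul_smul, hv', hv], ?_⟩
  intro x hx hfx
  rw [mul_smul] at hfx
  have h1 : t • x = t' • x := by
    have h2 : t • t • t' • x = t • x := by rw [hfx]
    rw [← mul_smul, ht.2, one_smul] at h2
    exact h2.symm
  by_cases hxx : t' • x = x
  · have h3 : t = t' := by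
      apply f4_inv_unique h.toFHyp (Ne.symm hx) ht ht' hv _ hv' hxx
      rw [h1, hxx]
    rw [← h3]
    exact ht.2
  · have h4 : t' • x ≠ v := by
      intro e
      apply hx
      apply MulAction.injective t'
      change t' • x = t' • v
      rw [e, hv']
    apply h.three (t * t') v x (t' • x) (Ne.symm hx) (Ne.symm h4) (Ne.symm hxx)
    · rw [mul_smul, hv', hv]
    · rw [mul_smul, hfx]
    · rw [mul_smul, ← mul_smul t' t' x, ht'.2, one_smul, h1]

end Pool.Agent.H.MP_6268b4_co
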