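import Pool.Agent.H.MP_6268b4_co.F4C1

/-!
The number of elements of the stabilizer of `v` without another fixed point.
-/

namespace Pool.Agent.H.MP_6268b4_co

variable {G Ω : Type*} [Group G] [MulAction G Ω]

/-- Elements of the stabilizer of `v` that move `w` to `y` correspond to those that fix `y`. -/
theorem f4c2_fiber [Fintype G] [DecidableEq Ω] (h : TwoTrans G Ω) {v w : Ω} (hvw : v ≠ w) {y : Ω}
    (hy : y ≠ v) :
    ((Finset.univ.filter (fun g : G => g • v = v)).filter (fun g => g • w = y)).card =
      ((Finset.univ.filter (fun g : G => g • v = v)).filter (fun g => g • y = y)).card := by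
  obtain ⟨k, hk1, hk2⟩ := h v w v y hvw (Ne.symm hy)
  have hk3 : k⁻¹ • v = v := inv_smul_eq_iff.2 hk1.symm
  have hk4 : k⁻¹ • y = w := inv_smul_eq_iff.2 hk2.symm
  refine Finset.card_bij' (fun g _ => g * k⁻¹) (fun g _ => g * k) ?_ ?_ ?_ ?_
  · intro g hg
    simp only [Finset.mem_filter, Finset.mem_univ, true_and] at hg ⊢
    rw [mul_smul, mul_smul, hk3, hk4]
    exact hg
  · intro g hg
    simp only [Finset.mem_filter, Finset.mem_univ, true_and] at hg ⊢
    rw [mul_smul, mul_smul, hk1, hk2]
    exact hg
  · intro g _
    simp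
  · intro g _
    simp

/-- Job F4C2-1.

Proof (Frobenius count). -/
theorem z_count_E [Finite G] [Finite Ω] (h : ZHyp G Ω) {v w : Ω} (hvw : v ≠ w) :
    Nat.card {g : G // IsE v g} + 1 = Nat.card Ω := by
  classical
  have : Fintype G := Fintype.ofFinite G
  have : Fintype Ω := Fintype.ofFinite Ω
  set A : Finset G := Finset.univ.filter (fun g : G => g • v = v) with hA
  set B : Finset Ω := Finset.univ.filter (fun x : Ω => x ≠ v) with hB
  have hBc : B.card + 1 = Nat.card Ω := by
    have h1 : B = Finset.univ.erase v := by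
      ext x
      simp [hB]
    rw [h1, Finset.card_erase_of_mem (Finset.mem_univ v), Finset.card_univ, Nat.card_eq_fintype_card]
    have : 0 < Fintype.card Ω := Fintype.card_pos_iff.2 ⟨v⟩
    omega
  have h1 : A.card = ∑ y ∈ B, (A.filter (fun g => g • y = y)).card := by
    rw [Finset.card_eq_sum_card_fiberwise (f := fun g : G => g • w) (t := B)]
    · apply Finset.sum_congr rfl
      intro y hy
      rw [hB, Finset.mem_filter] at hy
      exact f4c2_fiber h.two hvw hy.2
    · intro g hg
      simp only [hA, hB, Finset.coe_filter, Finset.mem_univ, true_and, Set.mem_ofPred_eq] at hg ⊢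
      intro he
      have h2 : g • w = g • v := by rw [he, hg]
      exact hvw (MulAction.injective g h2).symm
  have h2 : ∑ y ∈ B, (A.filter (fun g => g • y = y)).card =
      ∑ g ∈ A, (B.filter (fun y => g • y = y)).card := by
    simp only [Finset.card_filter]
    exact Finset.sum_comm
  have h3 : ∀ g ∈ A, (B.filter (fun y => g • y = y)).card + (if IsE v g then 1 else 0) =
      (if g = 1 then B.card else 0) + 1 := by
    intro g hg
    rw [hA, Finset.mem_filter] at hg
    rcases eq_or_ne g 1 with rfl | hg1
    · have e1 : IsE v (1 : G) := ⟨one_smul G v, fun _ _ _ => rfl⟩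
      rw [if_pos e1, if_pos rfl]
      congr 2
      apply Finset.filter_true_of_mem
      intro y _
      exact one_smul G y
    · rw [if_neg hg1]
      by_cases hE : IsE v g
      · rw [if_pos hE]
        have e2 : B.filter (fun y => g • y = y) = ∅ := by
          rw [Finset.filter_eq_empty_iff]
          intro y hy hgy
          rw [hB, Finset.mem_filter] at hy
          exact hg1 (hE.2 y hy.2 hgy)
        rw [e2, Finset.card_empty]
      · rw [if_neg hE, add_zero, zero_add]
        have e3 : ∃ x : Ω, x ≠ v ∧ g • x = x := by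
          by_contra hne
          push Not at hne
          exact hE ⟨hg.2, fun x hx hgx => absurd hgx (hne x hx)⟩
        obtain ⟨x, hx, hgx⟩ := e3
        rw [Finset.card_eq_one]
        refine ⟨x, ?_⟩
        ext y
        rw [Finset.mem_filter, Finset.mem_singleton, hB, Finset.mem_filter]
        constructor
        · rintro ⟨⟨-, hy⟩, hgy⟩
          by_contra hyx
          exact hg1 (h.three g v x y (Ne.symm hx) (Ne.symm hy) (Ne.symm hyx) hg.2 hgx hgy)
        · rintro rfl
          exact ⟨⟨Finset.mem_univ _, hx⟩, hgx⟩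
  have h4 := Finset.sum_congr (rfl : A = A) h3
  rw [Finset.sum_add_distrib, Finset.sum_add_distrib, ← h2, ← h1] at h4
  have h5 : ∑ g ∈ A, (if g = 1 then B.card else 0) = B.card := by
    rw [Finset.sum_ite_eq' A (1 : G) (fun _ => B.card), if_pos]
    rw [hA, Finset.mem_filter]
    exact ⟨Finset.mem_univ _, one_smul G v⟩
  have h6 : ∑ g ∈ A, (if IsE v g then 1 else 0) = Nat.card {g : G // IsE v g} := by
    rw [← Finset.card_filter, Nat.card_eq_fintype_card, Fintype.card_subtype]
    congr 1
    ext g
    rw [hA, Finset.mem_filter, Finset.mem_filter, Finset.mem_filter]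
    constructor
    · rintro ⟨-, hg⟩
      exact ⟨Finset.mem_univ _, hg⟩
    · rintro ⟨-, hg⟩
      exact ⟨⟨Finset.mem_univ _, hg.1⟩, hg⟩
  rw [h5, h6, Finset.sum_const, smul_eq_mul, mul_one] at h4
  omega

end Pool.Agent.H.MP_6268b4_co
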