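import Pool.Agent.H.MP_6268b4_co.F4C2

/-!
The Frobenius kernel of the stabilizer of `v`.
-/

namespace Pool.Agent.H.MP_6268b4_co

variable {G Ω : Type*} [Group G] [MulAction G Ω]

/-- Job F4C3-1. For every involution `t` fixing `v`, every `g` with `IsE v g` is `t * t'` and `t'' * t` for
involutions `t'`, `t''` fixing `v`.

Proof. The map `t' ↦ t * t'` from the involutions fixing `v` to the set `{g // IsE v g}` is well defined
(`z_prod`) and injective, and both sets have `n - 1` elements (`z_inv_card`, `z_count_E`), so it is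
surjective. The same for `t'' ↦ t'' * t`. -/
theorem z_E_eq [Finite G] [Finite Ω] (h : ZHyp G Ω) {v w : Ω} (hvw : v ≠ w) {t g : G}
    (ht : IsInv t) (htv : t • v = v) (hg : IsE v g) :
    (∃ t' : G, IsInv t' ∧ t' • v = v ∧ g = t * t') ∧
    ∃ t' : G, IsInv t' ∧ t' • v = v ∧ g = t' * t := by
  have hcard : Nat.card {g : G // IsE v g} = Nat.card {t : G // IsInv t ∧ t • v = v} := by
    have h1 := z_inv_card h hvw
    have h2 := z_count_E h hvw
    omega
  constructor
  · let f : {t : G // IsInv t ∧ t • v = v} → {g : G // IsE v g} :=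
      fun t' => ⟨t * t'.1, z_prod h ht t'.2.1 htv t'.2.2⟩
    have hf : Function.Injective f := by
      intro a b hab
      apply Subtype.ext
      have h1 : t * a.1 = t * b.1 := congrArg Subtype.val hab
      exact mul_left_cancel h1
    have hb := hf.bijective_of_nat_card_le hcard.le
    obtain ⟨a, ha⟩ := hb.2 ⟨g, hg⟩
    exact ⟨a.1, a.2.1, a.2.2, (congrArg Subtype.val ha).symm⟩
  · let f : {t : G // IsInv t ∧ t • v = v} → {g : G // IsE v g} :=
      fun t' => ⟨t'.1 * t, z_prod h t'.2.1 ht t'.2.2 htv⟩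
    have hf : Function.Injective f := by
      intro a b hab
      apply Subtype.ext
      have h1 : a.1 * t = b.1 * t := congrArg Subtype.val hab
      exact mul_right_cancel h1
    have hb := hf.bijective_of_nat_card_le hcard.le
    obtain ⟨a, ha⟩ := hb.2 ⟨g, hg⟩
    exact ⟨a.1, a.2.1, a.2.2, (congrArg Subtype.val ha).symm⟩

/-- Job F4C3-2. The kernel.

Proof. Let `K = {g | IsE v g}`. Let `t` be some involution fixing `v` (`lb_exists_inv`). `K` is a
subgroup: `1 ∈ K`; if `g, g' ∈ K` write `g = t' * t` and `g' = t * t''` (`z_E_eq`), then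
`g * g' = t' * t''` (`t * t = 1`) is in `K` by `z_prod`; the inverse of `t * t'` is `t' * t`. `fix`: clear.
`prod`: `z_prod`. `inv`: let `t` be any involution fixing `v`, `k = t * t'`; `t * k * t = t' * t = k⁻¹`.
`ab`: with an involution `t` fixing `v`: `k * k' = t * (t * (k * k') * t) * t = t * (k * k')⁻¹ * t =
t * k'⁻¹ * k⁻¹ * t = (t * k'⁻¹ * t) * (t * k⁻¹ * t) = k' * k`. `norm`: `g * k * g⁻¹` fixes `v`; if it fixes
`x ≠ v` then `k` fixes `g⁻¹ • x ≠ v`, so `k = 1`. `reg`: for fixed `x ≠ v` the map `k ↦ k • x` from `K` to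
`{y // y ≠ v}` is injective: if `k • x = k' • x` then `k⁻¹ * k' ∈ K` fixes `x`, so it is `1`. Both sets
have `n - 1` elements (`z_count_E`). -/
theorem z_K [Finite G] [Finite Ω] (h : ZHyp G Ω) {v w : Ω} (hvw : v ≠ w) :
    ∃ K : Subgroup G, KProp Ω v K := by
  classical
  obtain ⟨t, ht, htv, -⟩ := lb_exists_inv h.toFHyp4 hvw
  have hone : IsE v (1 : G) := ⟨one_smul _ _, fun _ _ _ => rfl⟩
  have hinv : ∀ g : G, IsE v g → IsE v g⁻¹ := by
    rintro g ⟨h1, h2⟩
    refine ⟨?_, ?_⟩
    · rw [inv_smul_eq_iff, h1]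
    · intro x hx hgx
      rw [inv_smul_eq_iff] at hgx
      rw [h2 x hx hgx.symm, inv_one]
  have hmul : ∀ g g' : G, IsE v g → IsE v g' → IsE v (g * g') := by
    intro g g' hg hg'
    obtain ⟨-, t1, ht1, ht1v, e1⟩ := z_E_eq h hvw ht htv hg
    obtain ⟨⟨t2, ht2, ht2v, e2⟩, -⟩ := z_E_eq h hvw ht htv hg'
    have h3 : g * g' = t1 * t2 := by
      rw [e1, e2]
      calc t1 * t * (t * t2) = t1 * (t * t) * t2 := by group
        _ = t1 * t2 := by rw [ht.2, mul_one]
    rw [h3]
    exact z_prod h ht1 ht2 ht1v ht2v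
  let K : Subgroup G :=
    { carrier := {g | IsE v g}
      one_mem' := hone
      mul_mem' := fun {a b} ha hb => hmul a b ha hb
      inv_mem' := fun {a} ha => hinv a ha }
  have hK : ∀ g : G, g ∈ K ↔ IsE v g := fun g => Iff.rfl
  have hKinv : ∀ t : G, IsInv t → t • v = v → ∀ k ∈ K, t * k * t = k⁻¹ := by
    intro t ht htv k hk
    obtain ⟨⟨t', ht', -, e⟩, -⟩ := z_E_eq h hvw ht htv ((hK k).1 hk)
    have hti : t⁻¹ = t := inv_eq_of_mul_eq_one_left ht.2
    have hti' : t'⁻¹ = t' := inv_eq_of_mul_eq_one_left ht'.2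
    rw [e, mul_inv_rev, hti, hti']
    calc t * (t * t') * t = (t * t) * t' * t := by group
      _ = t' * t := by rw [ht.2, one_mul]
  refine ⟨K, ?_, ?_, ?_, hKinv, ?_, ?_⟩
  · intro k hk
    exact hk.1
  · intro x y hx hy
    let f : {g : G // IsE v g} → {z : Ω // z ≠ v} := fun k => ⟨k.1 • x, by
      intro e
      apply hx
      have h1 : k.1 • x = k.1 • v := by rw [e, k.2.1]
      exact MulAction.injective k.1 h1⟩
    have hf : Function.Injective f := by
      intro a b hab
      apply Subtype.ext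
      have h1 : a.1 • x = b.1 • x := congrArg Subtype.val hab
      have h2 : IsE v (a.1⁻¹ * b.1) := hmul _ _ (hinv _ a.2) b.2
      have h3 := h2.2 x hx (by rw [mul_smul, ← h1, inv_smul_smul])
      exact inv_mul_eq_one.1 h3
    have hc : Nat.card {z : Ω // z ≠ v} ≤ Nat.card {g : G // IsE v g} := by
      have h1 := z_count_E h hvw
      have h2 : Nat.card {z : Ω // z ≠ v} + 1 = Nat.card Ω := by
        have : Fintype Ω := Fintype.ofFinite Ω
        have h3 : Fintype.card {z : Ω // z ≠ v} = Fintype.card Ω - 1 := by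
          simp [Fintype.card_subtype_compl]
        have h4 : 0 < Fintype.card Ω := Fintype.card_pos_iff.2 ⟨v⟩
        rw [Nat.card_eq_fintype_card, Nat.card_eq_fintype_card]
        omega
      omega
    have hb := hf.bijective_of_nat_card_le hc
    obtain ⟨a, ha⟩ := hb.2 ⟨y, hy⟩
    refine ⟨a.1, ⟨a.2, congrArg Subtype.val ha⟩, ?_⟩
    rintro b ⟨hb1, hb2⟩
    have h5 : (⟨b, hb1⟩ : {g : G // IsE v g}) = a := by
      apply hf
      rw [ha]
      apply Subtype.ext
      exact hb2
    exact congrArg Subtype.val h5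
  · intro k hk k' hk'
    have h1 := hKinv t ht htv (k * k') (K.mul_mem hk hk')
    have h2 := hKinv t ht htv k hk
    have h3 := hKinv t ht htv k' hk'
    have h4 : t * (k * k') * t = (t * k * t) * (t * k' * t) := by
      calc t * (k * k') * t = t * k * 1 * k' * t := by group
        _ = t * k * (t * t) * k' * t := by rw [ht.2]
        _ = (t * k * t) * (t * k' * t) := by group
    rw [h4, h2, h3] at h1
    have h5 := congrArg (fun z => z⁻¹) h1
    simp only [mul_inv_rev, inv_inv] at h5
    exact h5.symm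
  · intro g hg k hk
    refine ⟨?_, ?_⟩
    · have h1 : g⁻¹ • v = v := by rw [inv_smul_eq_iff, hg]
      rw [mul_smul, mul_smul, h1, hk.1, hg]
    · intro x hx hgx
      have h1 : k • g⁻¹ • x = g⁻¹ • x := by
        rw [eq_inv_smul_iff, ← mul_smul, ← mul_smul]
        exact hgx
      have h2 : g⁻¹ • x ≠ v := by
        intro e
        rw [inv_smul_eq_iff, hg] at e
        exact hx e
      rw [hk.2 _ h2 h1]
      group
  · intro t t' ht ht' htv htv'
    exact z_prod h ht ht' htv htv'

end Pool.Agent.H.MP_6268b4_co
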