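import Pool.Agent.H.MP_6268b4_co.F4C1

/-!
The number of points is `r + 2` or `2 r + 2`.
-/

namespace Pool.Agent.H.MP_6268b4_co

variable {G Ω : Type*} [Group G] [MulAction G Ω]

/-- the number of pairs of different points -/
private theorem f4c4_offdiag [Finite Ω] :
    Nat.card {p : Ω × Ω // p.1 ≠ p.2} = Nat.card Ω * (Nat.card Ω - 1) := by
  classical
  have := Fintype.ofFinite Ω
  have h1 : Nat.card {p : Ω × Ω // p.1 ≠ p.2} = (Finset.univ : Finset Ω).offDiag.card := by
    rw [Nat.card_eq_fintype_card, Fintype.card_subtype]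
    congr 1
    ext p
    simp
  rw [h1, Finset.offDiag_card, Finset.card_univ, ← Nat.card_eq_fintype_card, Nat.mul_sub, mul_one]

private theorem f4c4_other {x y : Ω} (hxy : x ≠ y) (c : Ω) : ∃ w : Ω, c ≠ w := by
  by_cases h : c = x
  · exact ⟨y, h ▸ hxy⟩
  · exact ⟨x, h⟩

/-- an involution with a fixed point has exactly two -/
private theorem f4c4_two [Finite G] [Finite Ω] (h : ZHyp G Ω) {x y : Ω} (hxy : x ≠ y) {t : G}
    (ht : IsInv t) (hc : ∃ c : Ω, t • c = c) : Nat.card {u : Ω // t • u = u} = 2 := by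
  obtain ⟨c, hc⟩ := hc
  obtain ⟨w, hw⟩ := f4c4_other hxy c
  obtain ⟨d, hd, hd1, hd2⟩ := z_fix_two h ht hw hc
  have h1 : {u : Ω | t • u = u} = {c, d} := by
    ext u
    constructor
    · exact fun hu => hd2 u hu
    · rintro (rfl | rfl)
      · exact hc
      · exact hd1
  change Nat.card ({u : Ω | t • u = u} : Set Ω) = 2
  rw [h1, Nat.card_coe_set_eq, Set.ncard_pair (Ne.symm hd)]

/-- the number of points moved -/
private theorem f4c4_moved [Finite Ω] {t : G} (h2 : Nat.card {u : Ω // t • u = u} = 2) :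
    Nat.card {u : Ω // t • u ≠ u} = Nat.card Ω - 2 := by
  classical
  have h3 := Nat.card_congr (Equiv.sumCompl (fun u : Ω => t • u = u))
  rw [Nat.card_sum, h2] at h3
  change Nat.card {u : Ω // ¬ t • u = u} = Nat.card Ω - 2
  omega

/-- Job F4C4-1. The number of involutions with a fixed point: `2 |T| = n (n - 1)`.

Proof. Count the pairs `(t, c)`, `t` an involution, `t • c = c`. For each `c` there are `n - 1`
(`z_inv_card`), so their number is `n (n - 1)`. For each involution `t` with a fixed point there are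
exactly two (`z_fix_two`). -/
theorem z_T_card [Finite G] [Finite Ω] (h : ZHyp G Ω) {x y : Ω} (hxy : x ≠ y) :
    2 * Nat.card {t : G // IsInv t ∧ ∃ c : Ω, t • c = c} = Nat.card Ω * (Nat.card Ω - 1) := by
  classical
  have := Fintype.ofFinite Ω
  have := Fintype.ofFinite {t : G // IsInv t ∧ ∃ c : Ω, t • c = c}
  let e1 : (Σ c : Ω, {t : G // IsInv t ∧ t • c = c}) ≃
      (Σ t : {t : G // IsInv t ∧ ∃ c : Ω, t • c = c}, {c : Ω // (t : G) • c = c}) :=
    { toFun := fun q => ⟨⟨q.2.1, q.2.2.1, q.1, q.2.2.2⟩, ⟨q.1, q.2.2.2⟩⟩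
      invFun := fun q => ⟨q.2.1, ⟨q.1.1, q.1.2.1, q.2.2⟩⟩
      left_inv := fun _ => rfl
      right_inv := fun _ => rfl }
  have h1 := Nat.card_congr e1
  rw [Nat.card_sigma, Nat.card_sigma] at h1
  have h2 : ∀ c : Ω, Nat.card {t : G // IsInv t ∧ t • c = c} = Nat.card Ω - 1 := by
    intro c
    obtain ⟨w, hw⟩ := f4c4_other hxy c
    have := z_inv_card h hw
    omega
  have h3 : ∀ t : {t : G // IsInv t ∧ ∃ c : Ω, t • c = c},
      Nat.card {c : Ω // (t : G) • c = c} = 2 := fun t => f4c4_two h hxy t.2.1 t.2.2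
  rw [Finset.sum_congr rfl (fun c _ => h2 c), Finset.sum_congr rfl (fun t _ => h3 t),
    Finset.sum_const, Finset.sum_const, Finset.card_univ, Finset.card_univ,
    ← Nat.card_eq_fintype_card, ← Nat.card_eq_fintype_card, smul_eq_mul, smul_eq_mul] at h1
  rw [h1, mul_comm]

/-- conjugation of the set counted in `z_swap_count` -/
private theorem f4c4_conj (h : ZHyp G Ω) {x y p p' : Ω} (hxy : x ≠ y) (hp : p ≠ p') :
    Nat.card {t : G // (IsInv t ∧ ∃ c : Ω, t • c = c) ∧ t • p = p'} =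
      Nat.card {t : G // (IsInv t ∧ ∃ c : Ω, t • c = c) ∧ t • x = y} := by
  obtain ⟨g, hg1, hg2⟩ := h.two x y p p' hxy hp
  have key : ∀ (g : G) (x y p p' : Ω), g • x = p → g • y = p' → ∀ t : G,
      ((IsInv t ∧ ∃ c : Ω, t • c = c) ∧ t • x = y) →
      ((IsInv (g * t * g⁻¹) ∧ ∃ c : Ω, (g * t * g⁻¹) • c = c) ∧ (g * t * g⁻¹) • p = p') := by
    rintro g x y p p' rfl rfl t ⟨⟨⟨h1, h2⟩, c, hc⟩, h3⟩
    refine ⟨⟨⟨?_, ?_⟩, g • c, ?_⟩, ?_⟩
    · intro he
      apply h1
      have : t = g⁻¹ * (g * t * g⁻¹) * g := by group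
      rw [this, he]
      group
    · have : g * t * g⁻¹ * (g * t * g⁻¹) = g * (t * t) * g⁻¹ := by group
      rw [this, h2]
      group
    · rw [mul_smul, mul_smul, inv_smul_smul, hc]
    · rw [mul_smul, mul_smul, inv_smul_smul, h3]
  have hg1' : g⁻¹ • p = x := by rw [← hg1, inv_smul_smul]
  have hg2' : g⁻¹ • p' = y := by rw [← hg2, inv_smul_smul]
  refine Nat.card_congr
    { toFun := fun t => ⟨g⁻¹ * t.1 * g⁻¹⁻¹, key g⁻¹ p p' x y hg1' hg2' t.1 t.2⟩
      invFun := fun t => ⟨g * t.1 * g⁻¹, key g x y p p' hg1 hg2 t.1 t.2⟩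
      left_inv := fun t => Subtype.ext (by
        change g * (g⁻¹ * t.1 * g⁻¹⁻¹) * g⁻¹ = t.1
        group)
      right_inv := fun t => Subtype.ext (by
        change g⁻¹ * (g * t.1 * g⁻¹) * g⁻¹⁻¹ = t.1
        group) }

/-- Job F4C4-2. The number `s` of involutions `t` with a fixed point and `t • x = y` satisfies
`2 s = n - 2`.

Proof. Count the pairs `(t, p)`, `t ∈ T`, `T` the set of involutions with a fixed point, `p` a point with
`t • p ≠ p`. Each `t ∈ T` has exactly two fixed points (`z_fix_two`), so the number of pairs is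
`|T| (n - 2)`. On the other hand the pairs `(t, p)` correspond to the triples `(t, p, p')` with `p ≠ p'`,
`t • p = p'`, and for each of the `n (n - 1)` pairs `p ≠ p'` the number of `t ∈ T` with `t • p = p'` is
`s`: conjugation by `g` with `g • x = p`, `g • y = p'` (`h.two`) maps the `t` for `x, y` bijectively
onto those for `p, p'`. So `|T| (n - 2) = n (n - 1) s`, and `2 |T| = n (n - 1)` by `z_T_card`, so
`n (n - 1) (n - 2) = 2 n (n - 1) s`; cancel `n (n - 1) > 0`. -/
theorem z_swap_count [Finite G] [Finite Ω] (h : ZHyp G Ω) {x y : Ω} (hxy : x ≠ y) :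
    2 * Nat.card {t : G // (IsInv t ∧ ∃ c : Ω, t • c = c) ∧ t • x = y} + 2 = Nat.card Ω := by
  classical
  have := Fintype.ofFinite Ω
  have := Fintype.ofFinite {t : G // IsInv t ∧ ∃ c : Ω, t • c = c}
  let e1 : (Σ t : {t : G // IsInv t ∧ ∃ c : Ω, t • c = c}, {u : Ω // (t : G) • u ≠ u}) ≃
      (Σ p : {p : Ω × Ω // p.1 ≠ p.2},
        {t : G // (IsInv t ∧ ∃ c : Ω, t • c = c) ∧ t • p.1.1 = p.1.2}) :=
    { toFun := fun q => ⟨⟨(q.2.1, q.1.1 • q.2.1), fun he => q.2.2 he.symm⟩, ⟨q.1.1, q.1.2, rfl⟩⟩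
      invFun := fun q => ⟨⟨q.2.1, q.2.2.1⟩, ⟨q.1.1.1, fun he => q.1.2 (he.symm.trans q.2.2.2)⟩⟩
      left_inv := fun _ => rfl
      right_inv := by
        rintro ⟨⟨⟨p, p'⟩, hp⟩, ⟨t, ht, htp⟩⟩
        dsimp only at htp hp
        subst htp
        rfl }
  have h1 := Nat.card_congr e1
  rw [Nat.card_sigma, Nat.card_sigma] at h1
  have h2 : ∀ t : {t : G // IsInv t ∧ ∃ c : Ω, t • c = c},
      Nat.card {u : Ω // (t : G) • u ≠ u} = Nat.card Ω - 2 := fun t =>
    f4c4_moved (f4c4_two h hxy t.2.1 t.2.2)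
  have h3 : ∀ p : {p : Ω × Ω // p.1 ≠ p.2},
      Nat.card {t : G // (IsInv t ∧ ∃ c : Ω, t • c = c) ∧ t • p.1.1 = p.1.2} =
      Nat.card {t : G // (IsInv t ∧ ∃ c : Ω, t • c = c) ∧ t • x = y} := fun p =>
    f4c4_conj h hxy p.2
  rw [Finset.sum_congr rfl (fun t _ => h2 t), Finset.sum_congr rfl (fun p _ => h3 p),
    Finset.sum_const, Finset.sum_const, Finset.card_univ, Finset.card_univ,
    ← Nat.card_eq_fintype_card, ← Nat.card_eq_fintype_card, smul_eq_mul, smul_eq_mul,
    f4c4_offdiag] at h1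
  have h4 := z_T_card h hxy
  have hn : 2 ≤ Nat.card Ω := by
    rw [Nat.card_eq_fintype_card]
    exact Fintype.one_lt_card_iff.2 ⟨x, y, hxy⟩
  obtain ⟨m, hm⟩ : ∃ m, Nat.card Ω = m + 2 := ⟨Nat.card Ω - 2, by omega⟩
  rw [hm] at h1 h4 ⊢
  have h5 : m + 2 - 1 = m + 1 := rfl
  have h6 : m + 2 - 2 = m := rfl
  rw [h5] at h1 h4
  rw [h6] at h1
  generalize Nat.card {t : G // IsInv t ∧ ∃ c : Ω, t • c = c} = T at h1 h4
  generalize Nat.card {t : G // (IsInv t ∧ ∃ c : Ω, t • c = c) ∧ t • x = y} = s at h1 ⊢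
  have h7 : (m + 2) * (m + 1) * m = (m + 2) * (m + 1) * (2 * s) := by
    calc (m + 2) * (m + 1) * m = 2 * (T * m) := by rw [← h4]; ring
      _ = 2 * ((m + 2) * (m + 1) * s) := by rw [h1]
      _ = (m + 2) * (m + 1) * (2 * s) := by ring
  have h8 : m = 2 * s := Nat.eq_of_mul_eq_mul_left (by positivity) h7
  omega

/-- Job F4C4-3. Proof. The stabilizer `H` of `x` and `y` (of order `r`) acts on the `n - 2` points
different from `x, y`, and by `h.three` only `1 ∈ H` has a fixed point there, so all orbits have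
size `r`. -/
theorem z_dvd [Finite G] [Finite Ω] (h : ZHyp G Ω) {x y : Ω} (hxy : x ≠ y) :
    Nat.card {g : G // g • x = x ∧ g • y = y} ∣ Nat.card Ω - 2 := by
  classical
  have := Fintype.ofFinite Ω
  let H : Subgroup G := MulAction.stabilizer G x ⊓ MulAction.stabilizer G y
  have hH : ∀ g : H, (g : G) • x = x ∧ (g : G) • y = y := fun g => g.2
  let act : MulAction H {u : Ω // u ≠ x ∧ u ≠ y} :=
    { smul := fun g u => ⟨(g : G) • u.1,
        fun he => u.2.1 (smul_left_cancel (g : G) (he.trans (hH g).1.symm)),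
        fun he => u.2.2 (smul_left_cancel (g : G) (he.trans (hH g).2.symm))⟩
      one_smul := fun u => Subtype.ext (one_smul G u.1)
      mul_smul := fun g k u => Subtype.ext (mul_smul (g : G) (k : G) u.1) }
  have hcard : Nat.card {u : Ω // u ≠ x ∧ u ≠ y} = Nat.card Ω - 2 := by
    have h3 := Nat.card_congr (Equiv.sumCompl (fun u : Ω => u = x ∨ u = y))
    rw [Nat.card_sum] at h3
    have h4 : Nat.card {u : Ω // u = x ∨ u = y} = 2 := by
      change Nat.card ({x, y} : Set Ω) = 2
      rw [Nat.card_coe_set_eq, Set.ncard_pair hxy]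
    have h5 : Nat.card {u : Ω // ¬ (u = x ∨ u = y)} = Nat.card {u : Ω // u ≠ x ∧ u ≠ y} :=
      Nat.card_congr (Equiv.subtypeEquivRight fun u => by rw [not_or])
    omega
  have e1 := MulAction.selfEquivSigmaOrbitsQuotientStabilizer H {u : Ω // u ≠ x ∧ u ≠ y}
  have h1 := Nat.card_congr e1
  have := Fintype.ofFinite (Quotient (MulAction.orbitRel H {u : Ω // u ≠ x ∧ u ≠ y}))
  rw [Nat.card_sigma, hcard] at h1
  rw [h1]
  refine Finset.dvd_sum fun w _ => ?_
  have hs : MulAction.stabilizer H w.out = ⊥ := by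
    rw [eq_bot_iff]
    intro g hg
    have hg1 : (g : G) • (w.out : Ω) = w.out := congrArg Subtype.val hg
    rw [Subgroup.mem_bot]
    exact Subtype.ext (h.three (g : G) x y w.out.1 hxy (Ne.symm w.out.2.1) (Ne.symm w.out.2.2)
      (hH g).1 (hH g).2 hg1)
  rw [hs]
  have h6 : Nat.card (H ⧸ (⊥ : Subgroup H)) = Nat.card {g : G // g • x = x ∧ g • y = y} :=
    Nat.card_congr (QuotientGroup.quotientBot (G := H)).toEquiv
  rw [h6]

/-- conjugation of two-point stabilizers -/
private theorem f4c4_stab (h : ZHyp G Ω) {x y p p' : Ω} (hxy : x ≠ y) (hp : p ≠ p') :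
    Nat.card {g : G // g • p = p ∧ g • p' = p'} = Nat.card {g : G // g • x = x ∧ g • y = y} := by
  obtain ⟨g, hg1, hg2⟩ := h.two x y p p' hxy hp
  have key : ∀ (g : G) (x y p p' : Ω), g • x = p → g • y = p' → ∀ t : G,
      (t • x = x ∧ t • y = y) →
      ((g * t * g⁻¹) • p = p ∧ (g * t * g⁻¹) • p' = p') := by
    rintro g x y p p' rfl rfl t ⟨h1, h2⟩
    constructor
    · rw [mul_smul, mul_smul, inv_smul_smul, h1]
    · rw [mul_smul, mul_smul, inv_smul_smul, h2]
  have hg1' : g⁻¹ • p = x := by rw [← hg1, inv_smul_smul]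
  have hg2' : g⁻¹ • p' = y := by rw [← hg2, inv_smul_smul]
  refine Nat.card_congr
    { toFun := fun t => ⟨g⁻¹ * t.1 * g⁻¹⁻¹, key g⁻¹ p p' x y hg1' hg2' t.1 t.2⟩
      invFun := fun t => ⟨g * t.1 * g⁻¹, key g x y p p' hg1 hg2 t.1 t.2⟩
      left_inv := fun t => Subtype.ext (by
        change g * (g⁻¹ * t.1 * g⁻¹⁻¹) * g⁻¹ = t.1
        group)
      right_inv := fun t => Subtype.ext (by
        change g⁻¹ * (g * t.1 * g⁻¹) * g⁻¹⁻¹ = t.1
        group) }

/-- the elements interchanging two points form a coset of the stabilizer -/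
private theorem f4c4_coset (h : ZHyp G Ω) {x y : Ω} (hxy : x ≠ y) :
    Nat.card {g : G // g • x = y ∧ g • y = x} = Nat.card {g : G // g • x = x ∧ g • y = y} := by
  obtain ⟨g, hg1, hg2⟩ := h.two x y y x hxy (Ne.symm hxy)
  have hg1' : g⁻¹ • y = x := by rw [← hg1, inv_smul_smul]
  have hg2' : g⁻¹ • x = y := by rw [← hg2, inv_smul_smul]
  refine Nat.card_congr
    { toFun := fun t => ⟨g⁻¹ * t.1, by rw [mul_smul, t.2.1, hg1'], by
        rw [mul_smul, t.2.2, hg2']⟩
      invFun := fun t => ⟨g * t.1, by rw [mul_smul, t.2.1, hg1], by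
        rw [mul_smul, t.2.2, hg2]⟩
      left_inv := fun t => Subtype.ext (mul_inv_cancel_left g t.1)
      right_inv := fun t => Subtype.ext (inv_mul_cancel_left g t.1) }

/-- the inclusion of the set counted in `z_swap_count` -/
private def f4c4_inc (x y : Ω) :
    {t : G // (IsInv t ∧ ∃ c : Ω, t • c = c) ∧ t • x = y} → {g : G // g • x = y ∧ g • y = x} :=
  fun t => ⟨t.1, t.2.2, by
    have h1 := congrArg (fun u => (t.1 : G) • u) t.2.2
    have h2 := t.2.1.1.2
    simp only [smul_smul, h2, one_smul] at h1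
    exact h1.symm⟩

private theorem f4c4_inc_inj (x y : Ω) : Function.Injective (f4c4_inc (G := G) x y) := by
  intro a b hab
  exact Subtype.ext (congrArg (fun t : {g : G // g • x = y ∧ g • y = x} => t.1) hab)

/-- Job F4C4-4.

Proof. Let `n = Nat.card Ω`, `s` as in `z_swap_count`: `2 s + 2 = n`. The involutions counted by `s`
interchange `x` and `y`, and the elements interchanging `x` and `y` form a coset `g₀ H` of the stabilizer
`H` of `x, y` (there is one, by `h.two`), of size `r`; so `s ≤ r` and `n - 2 = 2 s ≤ 2 r`. Since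
`r ∣ n - 2` (`z_dvd`) and `n - 2 > 0`, `n - 2 = r` or `n - 2 = 2 r`. In the second case `s = r`, so every
`g` interchanging `x` and `y` is an involution with a fixed point; since `x, y` was an arbitrary pair
(the number `r` does not depend on it by 2-transitivity, or repeat the argument: `n - 2 = 2 s'` and
`s' ≤ r'`, the numbers `r'`, `s'` for the pair `p, t • p` are equal to `r` and `s` by conjugation) this
holds for every pair: if `t` is an involution, there is `p` with `t • p ≠ p` or `t` fixes everything (then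
it has a fixed point, `x`); `t` interchanges `p` and `t • p`, so it has a fixed point. -/
theorem z_card [Finite G] [Finite Ω] (h : ZHyp G Ω) (h3 : 3 ≤ Nat.card Ω) {x y : Ω}
    (hxy : x ≠ y) {r : ℕ} (hr : Nat.card {g : G // g • x = x ∧ g • y = y} = r) :
    Nat.card Ω = r + 2 ∨
    (Nat.card Ω = 2 * r + 2 ∧ ∀ t : G, IsInv t → ∃ c : Ω, t • c = c) := by
  classical
  have hs := z_swap_count h hxy
  have hle := Nat.card_le_card_of_injective _ (f4c4_inc_inj (G := G) x y)
  rw [f4c4_coset h hxy, hr] at hle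
  obtain ⟨k, hk⟩ := z_dvd h hxy
  rw [hr] at hk
  have hk0 : k ≠ 0 := by
    rintro rfl
    omega
  have hr0 : 0 < r := by
    rcases Nat.eq_zero_or_pos r with h0 | h0
    · subst h0
      omega
    · exact h0
  have hk2 : k ≤ 2 := by
    by_contra hcon
    push Not at hcon
    have : r * 3 ≤ r * k := Nat.mul_le_mul_left r hcon
    omega
  have hk12 : k = 1 ∨ k = 2 := by omega
  rcases hk12 with rfl | rfl
  · left
    omega
  · right
    have hn : Nat.card Ω = 2 * r + 2 := by omega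
    refine ⟨hn, fun t ht => ?_⟩
    by_cases hx : t • x = x
    · exact ⟨x, hx⟩
    · have hp : x ≠ t • x := fun he => hx he.symm
      have hs' := z_swap_count h hp
      have hc1 := f4c4_coset h hp
      rw [f4c4_stab h hxy hp, hr] at hc1
      have hsurj : Function.Surjective (f4c4_inc (G := G) x (t • x)) := by
        have hbij := (Nat.bijective_iff_injective_and_card (f4c4_inc (G := G) x (t • x))).2
          ⟨f4c4_inc_inj _ _, by omega⟩
        exact hbij.2
      obtain ⟨t', ht'⟩ := hsurj ⟨t, rfl, by rw [smul_smul, ht.2, one_smul]⟩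
      have h5 : t'.1 = t :=
        congrArg (fun g : {g : G // g • x = t • x ∧ g • (t • x) = x} => g.1) ht'
      rw [← h5]
      exact t'.2.1.2

end Pool.Agent.H.MP_6268b4_co
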