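import Pool.Agent.H.MP_6268b4_co.F4C3
import Pool.Agent.H.MP_6268b4_co.F4C4

/-!
First consequences of `QHyp` and `ZHyp`.
-/

namespace Pool.Agent.H.MP_6268b4_co

variable {G Ω : Type*} [Group G] [MulAction G Ω]

/-- A third point. -/
theorem f4c5_third [Finite Ω] {v w : Ω} (hn : 3 ≤ Nat.card Ω) : ∃ x : Ω, x ≠ v ∧ x ≠ w := by
  by_contra hcon
  push Not at hcon
  have h1 : (Set.univ : Set Ω) ⊆ {v, w} := by
    intro x _
    by_cases hx : x = v
    · exact Or.inl hx
    · exact Or.inr (hcon x hx)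
  have h2 := Set.ncard_le_ncard h1 (Set.toFinite _)
  rw [Set.ncard_univ] at h2
  have h3 := Set.ncard_insert_le v {w}
  rw [Set.ncard_singleton] at h3
  omega

/-- The number of points different from `v`. -/
theorem f4c5_card_ne [Finite Ω] (v : Ω) : Nat.card {x : Ω // x ≠ v} + 1 = Nat.card Ω := by
  classical
  have h1 := Nat.card_congr (Equiv.sumCompl (fun x : Ω => x = v))
  rw [Nat.card_sum] at h1
  have h2 : Nat.card {x : Ω // x = v} = 1 := Nat.card_unique
  rw [h2] at h1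
  rw [← h1, add_comm]

theorem f4c5_zpow {x : Ω} {σ : G} (h : σ • x = x) (i : ℤ) : σ ^ i • x = x :=
  (MulAction.stabilizer G x).zpow_mem (MulAction.mem_stabilizer_iff.2 h) i

/-- Job F4C5-1.

Proof. The stabilizer of `v` is contained in `closure {j, σ}` (`stab1`) and it is transitive on the at
least two points `≠ v` (2-transitivity, `hn`). If `j • w = w` then all elements of `closure {j, σ}` fix
`w`, contradiction. So `j • w ≠ w` and `j ≠ 1`. `4 ≤ orderOf σ` because `4 ∣ orderOf σ` and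
`0 < orderOf σ`. The stabilizer of `v` and `w` is `zpowers σ` (`stab2`, `σv`, `σw`), of order
`orderOf σ` (`Nat.card_zpowers`). -/
theorem z_basic [Finite G] [Finite Ω] {v w : Ω} {τ j σ : G} (h : QHyp v w τ j σ)
    (hn : 3 ≤ Nat.card Ω) :
    IsInv j ∧ j • w ≠ w ∧ 4 ≤ orderOf σ ∧
    Nat.card {g : G // g • v = v ∧ g • w = w} = orderOf σ := by
  have hjw : j • w ≠ w := by
    intro hj
    obtain ⟨x, hxv, hxw⟩ := f4c5_third (v := v) (w := w) hn
    obtain ⟨g, hg1, hg2⟩ := h.two v w v x h.vw hxv.symm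
    have h1 : Subgroup.closure {j, σ} ≤ MulAction.stabilizer G w := by
      rw [Subgroup.closure_le]
      intro a ha
      rcases ha with ha | ha
      · rw [ha]
        exact MulAction.mem_stabilizer_iff.2 hj
      · rw [Set.mem_singleton_iff.1 ha]
        exact MulAction.mem_stabilizer_iff.2 h.σw
    have h2 := MulAction.mem_stabilizer_iff.1 (h1 (h.stab1 g hg1))
    exact hxw (hg2.symm.trans h2)
  refine ⟨⟨?_, h.jj⟩, hjw, Nat.le_of_dvd (orderOf_pos σ) h.four, ?_⟩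
  · intro hj
    exact hjw (by rw [hj, one_smul])
  · rw [← Nat.card_zpowers σ]
    refine Nat.card_congr (Equiv.subtypeEquivRight fun g => ⟨fun hg => h.stab2 g hg.1 hg.2, ?_⟩)
    rintro hg
    obtain ⟨i, rfl⟩ := Subgroup.mem_zpowers_iff.1 hg
    exact ⟨f4c5_zpow h.σv i, f4c5_zpow h.σw i⟩

/-- Job F4C5-2.

Proof. A power of `σ` fixing a point `x ≠ v, w` is `1` (`hz.three`). -/
theorem z_pow_fix {v w : Ω} {τ j σ : G} (h : QHyp v w τ j σ) (hz : ZHyp G Ω) {x : Ω}
    (hxv : x ≠ v) (hxw : x ≠ w) {i : ℤ} (hx : σ ^ i • x = x) : σ ^ i = 1 := by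
  exact hz.three (σ ^ i) v w x h.vw hxv.symm hxw.symm (f4c5_zpow h.σv i) (f4c5_zpow h.σw i) hx

/-- Job F4C5-3. `σ` acts irreducibly on `K`.

Proof. `K` has `n - 1` elements (`K → {x // x ≠ v}`, `k ↦ k • w`, is bijective by `hK.reg`), and
`n - 1 ≤ 2 r + 1` by `z_card`, `r = orderOf σ` (`z_basic`). Let `1 ≠ m ∈ M`. The `r` elements
`σ ^ i * m * σ ^ (-i)`, `0 ≤ i < r`, are in `M`, different from `1`, and they are different:
otherwise some `σ ^ i ≠ 1` commutes with `m`, so `σ ^ i` fixes `v`, `w` and `m • w` (`σ ^ i • m • w =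
m • σ ^ i • w = m • w`), where `m • w ≠ w` (as `m ≠ 1`, uniqueness in `hK.reg`) and `m • w ≠ v`,
contradicting `z_pow_fix`. So `Nat.card M ≥ r + 1`, and `Nat.card M` divides
`Nat.card K ≤ 2 r + 1 < 2 (r + 1)`. So `Nat.card M = Nat.card K` and `M = K`. -/
theorem z_irred [Finite G] [Finite Ω] {v w : Ω} {τ j σ : G} (h : QHyp v w τ j σ)
    (hz : ZHyp G Ω) (hn : 3 ≤ Nat.card Ω) {K : Subgroup G} (hK : KProp Ω v K)
    {M : Subgroup G} (hMK : M ≤ K) (hM : ∀ m ∈ M, σ * m * σ⁻¹ ∈ M) (hM1 : ∃ m ∈ M, m ≠ 1) :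
    M = K := by
  classical
  obtain ⟨hjI, hjw, h4, hr⟩ := z_basic h hn
  set r := orderOf σ with hrdef
  obtain ⟨m, hmM, hm1⟩ := hM1
  have hmK : m ∈ K := hMK hmM
  -- the size of `K`
  have hKne : ∀ k ∈ K, k • w ≠ v := by
    intro k hk hkw
    have h1 : k⁻¹ • v = v := hK.fix _ (K.inv_mem hk)
    have h2 : w = k⁻¹ • v := by rw [← hkw, inv_smul_smul]
    exact h.vw (h1.symm.trans h2.symm)
  have hcardK : Nat.card K + 1 = Nat.card Ω := by
    rw [← f4c5_card_ne v]
    congr 1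
    refine Nat.card_congr (Equiv.ofBijective
      (fun k : K => (⟨(k : G) • w, hKne k k.2⟩ : {x : Ω // x ≠ v})) ⟨?_, ?_⟩)
    · intro a b hab
      have hab' : (a : G) • w = (b : G) • w := congrArg Subtype.val hab
      obtain ⟨k, _, hk⟩ := hK.reg w ((a : G) • w) h.vw.symm (hKne a a.2)
      have h1 := hk a ⟨a.2, rfl⟩
      have h2 := hk b ⟨b.2, hab'.symm⟩
      exact Subtype.ext (h1.trans h2.symm)
    · rintro ⟨y, hy⟩
      obtain ⟨k, ⟨hk1, hk2⟩, _⟩ := hK.reg w y h.vw.symm hy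
      exact ⟨⟨k, hk1⟩, Subtype.ext hk2⟩
  have hKle : Nat.card K ≤ 2 * r + 1 := by
    rcases z_card hz hn h.vw hr with h1 | ⟨h1, _⟩ <;> omega
  -- the conjugates of `m`
  have hconj : ∀ i : ℕ, σ ^ i * m * (σ ^ i)⁻¹ ∈ M := by
    intro i
    induction i with
    | zero => simpa using hmM
    | succ i ih =>
      have h1 := hM _ ih
      have h2 : σ * (σ ^ i * m * (σ ^ i)⁻¹) * σ⁻¹ = σ ^ (i + 1) * m * (σ ^ (i + 1))⁻¹ := by
        rw [pow_succ' σ i, mul_inv_rev]
        simp only [mul_assoc]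
      rwa [h2] at h1
  have hmw : m • w ≠ w := by
    intro hm
    obtain ⟨k, _, hk⟩ := hK.reg w w h.vw.symm h.vw.symm
    have h1 := hk m ⟨hmK, hm⟩
    have h2 := hk 1 ⟨K.one_mem, one_smul _ _⟩
    exact hm1 (h1.trans h2.symm)
  have hinj : ∀ a b : ℕ, a < r → b < r →
      σ ^ a * m * (σ ^ a)⁻¹ = σ ^ b * m * (σ ^ b)⁻¹ → a = b := by
    intro a b ha hb hab
    set s : G := σ ^ ((a : ℤ) - b) with hs
    have hs' : s = (σ ^ b)⁻¹ * σ ^ a := by
      rw [hs, sub_eq_neg_add, zpow_add, zpow_neg, zpow_natCast, zpow_natCast]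
    have hcomm : s * m = m * s := by
      rw [hs']
      have h1 : (σ ^ b)⁻¹ * (σ ^ a * m * (σ ^ a)⁻¹) * σ ^ a
          = (σ ^ b)⁻¹ * (σ ^ b * m * (σ ^ b)⁻¹) * σ ^ a := by rw [hab]
      simpa [mul_assoc] using h1
    have hfix : s • (m • w) = m • w := by
      rw [← mul_smul, hcomm, mul_smul]
      congr 1
      exact f4c5_zpow h.σw _
    have h1 : s = 1 := z_pow_fix h hz (hKne m hmK) hmw hfix
    have h2 : σ ^ a = σ ^ b := by
      rw [hs'] at h1
      exact (inv_mul_eq_one.1 h1).symm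
    exact pow_injOn_Iio_orderOf (Set.mem_Iio.2 ha) (Set.mem_Iio.2 hb) h2
  have hcardM : r + 1 ≤ Nat.card M := by
    have h1 : Function.Injective (fun o : Option (Fin r) =>
        (o.elim (1 : M) (fun i => ⟨σ ^ (i : ℕ) * m * (σ ^ (i : ℕ))⁻¹, hconj i⟩))) := by
      intro o o' ho
      have hne : ∀ i : ℕ, σ ^ i * m * (σ ^ i)⁻¹ ≠ 1 := by
        intro i hi
        apply hm1
        rw [mul_inv_eq_one] at hi
        exact mul_left_cancel (hi.trans (mul_one _).symm)
      rcases o with _ | a <;> rcases o' with _ | b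
      · rfl
      · exact absurd (congrArg Subtype.val ho).symm (hne b)
      · exact absurd (congrArg Subtype.val ho) (hne a)
      · have h2 := hinj a b a.2 b.2 (congrArg Subtype.val ho)
        rw [Fin.ext h2]
    have h2 := Nat.card_le_card_of_injective _ h1
    rwa [Nat.card_eq_fintype_card, Fintype.card_option, Fintype.card_fin] at h2
  obtain ⟨c, hc⟩ := Subgroup.card_dvd_of_le hMK
  have hc0 : c ≠ 0 := by
    rintro rfl
    rw [mul_zero] at hc
    exact Nat.card_pos.ne' hc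
  have hc1 : c = 1 := by
    by_contra hne
    have h2 : 2 ≤ c := by omega
    have h3 : Nat.card M * 2 ≤ Nat.card M * c := Nat.mul_le_mul_left _ h2
    omega
  rw [hc1, mul_one] at hc
  exact Subgroup.eq_of_le_of_card_ge hMK hc.le

/-- Job F4C5-4. Let `z` be the involution fixing `v` and `w`. Then `j * z ∈ K`, `(j * z) • w = j • w`,
and `j * k * j = k⁻¹` for `k ∈ K`, so `j • k • w = k⁻¹ • j • w`.

Proof. `z` is an involution fixing `v, w` (`lb_exists_inv`), `hK.prod`, `hK.inv` (`z_basic`). -/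
theorem z_j [Finite G] [Finite Ω] {v w : Ω} {τ j σ : G} (h : QHyp v w τ j σ)
    (hz : ZHyp G Ω) (hn : 3 ≤ Nat.card Ω) {K : Subgroup G} (hK : KProp Ω v K) :
    ∃ c ∈ K, c ≠ 1 ∧ c • w = j • w ∧ ∀ k ∈ K, j • k • w = k⁻¹ • c • w := by
  obtain ⟨hjI, hjw, _, _⟩ := z_basic h hn
  obtain ⟨z, hzI, hzv, hzw⟩ := lb_exists_inv hz.toFHyp4 h.vw
  have hcw : (j * z) • w = j • w := by rw [mul_smul, hzw]
  refine ⟨j * z, hK.prod j z hjI hzI h.jv hzv, ?_, hcw, ?_⟩
  · intro hc
    rw [hc, one_smul] at hcw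
    exact hjw hcw.symm
  · intro k hk
    have h1 := hK.inv j hjI h.jv k hk
    have h2 : j * k = k⁻¹ * j := by
      rw [← h1, mul_assoc (j * k) j j, h.jj, mul_one]
    rw [hcw, ← mul_smul, h2, mul_smul]

end Pool.Agent.H.MP_6268b4_co
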