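import Pool.Agent.H.MP_6268b4_co.F4C5

/-!
Coordinates.
-/

namespace Pool.Agent.H.MP_6268b4_co

/-- Conjugation by `σ` on the subgroup `K`. -/
def f4c6_conj {G : Type} [Group G] (K : Subgroup G) (σ : G) (hσ : ∀ k ∈ K, σ * k * σ⁻¹ ∈ K) :
    K →* K where
  toFun a := ⟨σ * a * σ⁻¹, hσ a a.2⟩
  map_one' := by
    apply Subtype.ext
    simp
  map_mul' a b := by
    apply Subtype.ext
    simp [mul_assoc]

/-- Job F4C6-1. Coordinates in a finite domain.

Proof. Very similar to `ccoorda_ring` in the file `CCoordA.lean` (read it first; its proof can be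
copied and adapted; do not import the file). Let `K` be as in `z_K`, a commutative group by `hK.ab`,
`V = Additive K`, `φ : AddMonoid.End V` the conjugation `k ↦ σ * k * σ⁻¹` (`hK.norm`), `J : V` the element
`c` of `z_j`. Let `F = Subring.closure {φ}`. All elements of `F` commute with `φ` (they are in the
centralizer of `φ`). (1) If `r ∈ F`, `0 ≠ x ∈ V` and `r x = 0` then `r = 0`: the kernel of `r`, as a
subgroup of `G` (`{g | ∃ k ∈ K, g = k, r k = 0}`), is contained in `K`, `≠ 1`, and invariant under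
conjugation by `σ` because `r` commutes with `φ`; so it is `K` by `z_irred`. (2) So `F` is a domain
(`NoZeroDivisors`: if `a b = 0` and `b ≠ 0` then `b J ≠ 0` by (1) and `a (b J) = 0`, so `a = 0`), finite,
and `r ↦ r J` is injective. (3) `r ↦ r J` is surjective onto `V`: the set of the elements `r J`, `r ∈ F`, is
a subgroup of `K`, `≠ 1` and invariant under conjugation by `σ` (`φ (r J) = (φ r) J`, `φ r ∈ F`); so it
is `K` by `z_irred`. Put `ω = φ` and `ψ none = v`, `ψ (some r) = (r J) • w`. `ψ` is bijective by `hK.reg`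
and (2), (3). `ψ (some 0) = 1 • w = w`. `σ • ψ (some z) = σ * (z J) * σ⁻¹ • w = ψ (some (ω z))`
(`σ⁻¹ • w = w`). `j • ψ (some z) = (z J)⁻¹ • J • w = ψ (some (1 - z))` by `z_j`. For `a ∈ F` take
`k = a J`: `k • ψ (some z) = ψ (some (z + a))` and `k • v = v`. `orderOf ω = orderOf σ`:
`ω ^ i = 1` iff `σ ^ i` commutes with all elements of `K`, iff `σ ^ i = 1` (if `σ ^ i` commutes with `J`
then it fixes `J • w = j • w`, which is different from `v, w`; `z_pow_fix`); use
`orderOf_eq_orderOf_iff` or the like. -/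
theorem z_ring {G Ω : Type} [Group G] [MulAction G Ω] [Finite G] [Finite Ω] {v w : Ω}
    {τ j σ : G} (h : QHyp v w τ j σ) (hz : ZHyp G Ω) (hn : 3 ≤ Nat.card Ω) :
    ∃ (F : Type) (_ : Ring F) (_ : IsDomain F) (_ : Finite F) (ω : F) (ψ : Option F → Ω),
      Function.Bijective ψ ∧ orderOf ω = orderOf σ ∧ ψ none = v ∧ ψ (some 0) = w ∧
      (∀ z : F, σ • ψ (some z) = ψ (some (ω * z))) ∧
      (∀ z : F, j • ψ (some z) = ψ (some (1 - z))) ∧
      (∀ a : F, ∃ k : G, k • v = v ∧ ∀ z : F, k • ψ (some z) = ψ (some (z + a))) := by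
  classical
  obtain ⟨K, hK⟩ := z_K hz h.vw
  obtain ⟨hj1, hjw, hs4, hst⟩ := z_basic h hn
  obtain ⟨c, hcK, hc1, hcw, hjk⟩ := z_j h hz hn hK
  have hnorm : ∀ k ∈ K, σ * k * σ⁻¹ ∈ K := hK.norm σ h.σv
  let _ : CommGroup K :=
    { (inferInstance : Group K) with
      mul_comm := fun a b => Subtype.ext (hK.ab a a.2 b b.2) }
  let V := Additive K
  let φ : AddMonoid.End V := MonoidHom.toAdditive (f4c6_conj K σ hnorm)
  have hφ : ∀ x : V, ((φ x).toMul : G) = σ * (x.toMul : G) * σ⁻¹ := fun x => rfl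
  let J : V := Additive.ofMul ⟨c, hcK⟩
  have hJ : (J.toMul : G) = c := rfl
  have hφn : ∀ (k : ℕ) (x : V), (((φ ^ k) x).toMul : G) = σ ^ k * (x.toMul : G) * (σ ^ k)⁻¹ := by
    intro k
    induction k with
    | zero => intro x; simp
    | succ k ih =>
      intro x
      have h1 : (φ ^ (k + 1)) x = φ ((φ ^ k) x) := by rw [pow_succ']; rfl
      rw [h1, hφ, ih, pow_succ']
      group
  have hext : ∀ x y : V, (x.toMul : G) = (y.toMul : G) → x = y := fun x y hxy =>
    Additive.toMul.injective (Subtype.ext hxy)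
  have h0 : ((0 : V).toMul : G) = 1 := rfl
  let F := Subring.closure ({φ} : Set (AddMonoid.End V))
  have hφF : φ ∈ F := Subring.subset_closure rfl
  have hcomm : ∀ r ∈ F, r * φ = φ * r := by
    intro r hr
    have h1 : F ≤ Subring.centralizer ({φ} : Set (AddMonoid.End V)) := by
      rw [Subring.closure_le]
      rintro _ rfl
      rw [SetLike.mem_coe, Subring.mem_centralizer_iff]
      rintro _ rfl
      rfl
    have h2 := Subring.mem_centralizer_iff.1 (h1 hr) φ rfl
    exact h2.symm
  have hJ0 : J ≠ 0 := by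
    intro hh
    apply hc1
    rw [← hJ, hh, h0]
  have hker : ∀ r ∈ F, ∀ x : V, x ≠ 0 → r x = 0 → r = 0 := by
    intro r hr x hx hrx
    let M : Subgroup G :=
      { carrier := {g | ∃ y : V, (y.toMul : G) = g ∧ r y = 0}
        mul_mem' := by
          rintro _ _ ⟨y, rfl, hy⟩ ⟨y', rfl, hy'⟩
          exact ⟨y + y', rfl, by rw [map_add, hy, hy', add_zero]⟩
        one_mem' := ⟨0, rfl, map_zero r⟩
        inv_mem' := by
          rintro _ ⟨y, rfl, hy⟩
          exact ⟨-y, rfl, by rw [map_neg, hy, neg_zero]⟩ }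
    have hM : M = K := by
      refine z_irred h hz hn hK ?_ ?_ ?_
      · rintro _ ⟨y, rfl, hy⟩
        exact y.toMul.2
      · rintro _ ⟨y, rfl, hy⟩
        refine ⟨φ y, hφ y, ?_⟩
        have h1 : r (φ y) = (r * φ) y := rfl
        have h2 : (φ * r) y = φ (r y) := rfl
        rw [h1, hcomm r hr, h2, hy]
        exact map_zero φ
      · refine ⟨(x.toMul : G), ⟨x, rfl, hrx⟩, fun hh => hx (hext _ _ (hh.trans h0.symm))⟩
    refine DFunLike.ext _ _ fun y => ?_
    have h1 : (y.toMul : G) ∈ M := by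
      rw [hM]
      exact y.toMul.2
    obtain ⟨y', hy', hy0⟩ := h1
    have h2 : y' = y := hext _ _ hy'
    rw [← h2, hy0]
    rfl
  have hkerJ : ∀ r ∈ F, r J = 0 → r = 0 := fun r hr hrJ => hker r hr J hJ0 hrJ
  have hsur : ∀ x : V, ∃ r ∈ F, r J = x := by
    intro x
    let M : Subgroup G :=
      { carrier := {g | ∃ r ∈ F, ((r J).toMul : G) = g}
        mul_mem' := by
          rintro _ _ ⟨r, hr, rfl⟩ ⟨r', hr', rfl⟩
          exact ⟨r + r', F.add_mem hr hr', rfl⟩
        one_mem' := ⟨0, F.zero_mem, rfl⟩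
        inv_mem' := by
          rintro _ ⟨r, hr, rfl⟩
          exact ⟨-r, F.neg_mem hr, rfl⟩ }
    have hM : M = K := by
      refine z_irred h hz hn hK ?_ ?_ ?_
      · rintro _ ⟨r, hr, rfl⟩
        exact (r J).toMul.2
      · rintro _ ⟨r, hr, rfl⟩
        exact ⟨φ * r, F.mul_mem hφF hr, hφ (r J)⟩
      · exact ⟨c, ⟨1, F.one_mem, hJ⟩, hc1⟩
    have h1 : (x.toMul : G) ∈ M := by
      rw [hM]
      exact x.toMul.2
    obtain ⟨r, hr, hrx⟩ := h1
    exact ⟨r, hr, hext _ _ hrx⟩
  have hfinV : Finite V := by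
    have : Finite K := inferInstance
    exact this
  have hfinE : Finite (AddMonoid.End V) :=
    Finite.of_injective (fun f : AddMonoid.End V => (f : V → V)) DFunLike.coe_injective
  have hfin : Finite F := inferInstance
  have hnt : Nontrivial F := by
    refine ⟨⟨0, 1, fun hh => hJ0 ?_⟩⟩
    have h1 := congrArg (fun r : F => (r : AddMonoid.End V) J) hh
    exact h1.symm
  have hnzd : NoZeroDivisors F := by
    refine ⟨fun {a b} hab => ?_⟩
    by_contra hcon
    rw [not_or] at hcon
    obtain ⟨ha, hb⟩ := hcon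
    have h1 : (b : AddMonoid.End V) J ≠ 0 := fun hh => hb (Subtype.ext (hkerJ _ b.2 hh))
    refine ha (Subtype.ext (hker _ a.2 _ h1 ?_))
    have h2 := congrArg (fun r : F => (r : AddMonoid.End V) J) hab
    exact h2
  have hdom : IsDomain F := NoZeroDivisors.to_isDomain F
  let ω : F := ⟨φ, hφF⟩
  have hωn : ∀ k : ℕ, ((ω ^ k : F) : AddMonoid.End V) = φ ^ k := by
    intro k
    rw [Subring.coe_pow]
  have hevinj : ∀ a b : F, (a : AddMonoid.End V) J = (b : AddMonoid.End V) J → a = b := by
    intro a b hab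
    have h1 : ((a - b : F) : AddMonoid.End V) = 0 := by
      refine hkerJ _ (a - b).2 ?_
      have h2 : ((a - b : F) : AddMonoid.End V) J
          = (a : AddMonoid.End V) J - (b : AddMonoid.End V) J := rfl
      rw [h2, hab, sub_self]
    exact sub_eq_zero.1 (Subtype.ext h1)
  let ψ : Option F → Ω := fun o => match o with
    | none => v
    | some r => ((((r : AddMonoid.End V) J).toMul : K) : G) • w
  have hψs : ∀ r : F, ψ (some r) = ((((r : AddMonoid.End V) J).toMul : K) : G) • w :=
    fun r => rfl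
  have hψn : ψ none = v := rfl
  have hvw := h.vw
  have hfixv : ∀ x : V, (x.toMul : G) • v = v := fun x => hK.fix _ x.toMul.2
  have hne : ∀ x : V, (x.toMul : G) • w ≠ v := by
    intro x hx
    have h1 := hfixv x
    exact hvw (smul_left_cancel (x.toMul : G) (h1.trans hx.symm))
  refine ⟨F, inferInstance, hdom, hfin, ω, ψ, ⟨?_, ?_⟩, ?_, hψn, ?_, ?_, ?_, ?_⟩
  · rintro (_ | a) (_ | b) hab
    · rfl
    · exact absurd hab.symm (hne _)
    · exact absurd hab (hne _)
    · rw [hψs, hψs] at hab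
      have h1 := hK.reg w (((((b : AddMonoid.End V) J).toMul : K) : G) • w) hvw.symm (hne _)
      have h2 := h1.unique ⟨((a : AddMonoid.End V) J).toMul.2, hab⟩
        ⟨((b : AddMonoid.End V) J).toMul.2, rfl⟩
      rw [hevinj a b (hext _ _ h2)]
  · intro x
    by_cases hx : x = v
    · exact ⟨none, hx.symm⟩
    · obtain ⟨g, ⟨hgK, hgw⟩, -⟩ := hK.reg w x hvw.symm hx
      obtain ⟨r, hr, hrg⟩ := hsur (Additive.ofMul ⟨g, hgK⟩)
      refine ⟨some ⟨r, hr⟩, ?_⟩
      rw [hψs]
      change ((r J).toMul : G) • w = x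
      rw [hrg]
      exact hgw
  · rw [orderOf_eq_orderOf_iff]
    intro i
    constructor
    · intro hi
      have h1 : (φ ^ i) J = J := by
        have h2 := hωn i
        rw [hi] at h2
        rw [← h2]
        rfl
      have h3 : σ ^ i * c * (σ ^ i)⁻¹ = c := by
        have h4 := hφn i J
        rw [h1, hJ] at h4
        exact h4.symm
      have h5 : σ ^ i * c = c * σ ^ i := by
        rw [← eq_mul_inv_iff_mul_eq.1 h3.symm]
      have hwi : ∀ k : ℕ, σ ^ k • w = w := by
        intro k
        induction k with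
        | zero => simp
        | succ k ih => rw [pow_succ, mul_smul, h.σw, ih]
      have h6 : σ ^ i • (j • w) = j • w := by
        rw [← hcw, ← mul_smul, h5, mul_smul, hwi]
      have hjv : j • w ≠ v := by
        intro hh
        have h7 : j • w = j • v := hh.trans h.jv.symm
        exact hvw (smul_left_cancel j h7).symm
      have h8 := z_pow_fix h hz (x := j • w) hjv hjw (i := (i : ℤ)) (by rw [zpow_natCast]; exact h6)
      rw [zpow_natCast] at h8
      exact h8
    · intro hi
      refine hevinj _ _ (hext _ _ ?_)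
      rw [hωn, hφn, hi]
      simp
  · rw [hψs]
    exact one_smul G w
  · intro z
    rw [hψs, hψs]
    have h1 : (((((ω * z : F) : AddMonoid.End V) J).toMul : K) : G)
        = σ * ((((z : AddMonoid.End V) J).toMul : K) : G) * σ⁻¹ := rfl
    have h2 : σ⁻¹ • w = w := by rw [inv_smul_eq_iff, h.σw]
    rw [h1, mul_smul, mul_smul, h2]
  · intro z
    rw [hψs, hψs, hjk _ ((z : AddMonoid.End V) J).toMul.2, ← mul_smul]
    have h1 : (((((1 - z : F) : AddMonoid.End V) J).toMul : K) : G)
        = c * ((((z : AddMonoid.End V) J).toMul : K) : G)⁻¹ := by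
      have h2 : ((1 - z : F) : AddMonoid.End V) J = J - (z : AddMonoid.End V) J := rfl
      rw [h2, sub_eq_add_neg]
      rfl
    rw [h1, hK.ab c hcK _ (K.inv_mem ((z : AddMonoid.End V) J).toMul.2)]
  · intro a
    refine ⟨((((a : AddMonoid.End V) J).toMul : K) : G), hfixv _, fun z => ?_⟩
    rw [hψs, hψs, ← mul_smul]
    have h1 : (((((z + a : F) : AddMonoid.End V) J).toMul : K) : G)
        = ((((z : AddMonoid.End V) J).toMul : K) : G) *
          ((((a : AddMonoid.End V) J).toMul : K) : G) := rfl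
    rw [h1, hK.ab _ ((z : AddMonoid.End V) J).toMul.2 _ ((a : AddMonoid.End V) J).toMul.2]

/-- Job F4C6-2. Squares are powers of an element of order at least `(q - 1) / 2`.

Proof. `F` has `q - 1` units, `zpowers` of the unit `ω` has order `orderOf ω`, so index 1 or 2 in the
group of units, and squares are in a subgroup of index 1 or 2
(`Subgroup.mul_self_mem_of_index_two` or similar). -/
theorem z_squares {F : Type*} [Field F] [Fintype F] {ω : F} (hω : ω ≠ 0)
    (hcard : Fintype.card F = orderOf ω + 1 ∨ Fintype.card F = 2 * orderOf ω + 1) :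
    ∀ z : F, z ≠ 0 → ∃ i : ℕ, z * z = ω ^ i := by
  classical
  intro z hz
  let u : Fˣ := Units.mk0 ω hω
  let y : Fˣ := Units.mk0 z hz
  have hu : orderOf u = orderOf ω := by
    rw [← orderOf_units]
    rfl
  have hcu : Nat.card Fˣ = Fintype.card F - 1 := by
    rw [Nat.card_eq_fintype_card, Fintype.card_units]
  have hidx := (Subgroup.zpowers u).card_mul_index
  rw [Nat.card_zpowers, hcu, hu] at hidx
  have hpos : 0 < orderOf ω := by
    rw [← hu]
    exact orderOf_pos u
  have hmem : y * y ∈ Subgroup.zpowers u := by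
    rcases hcard with hc | hc
    · rw [hc, Nat.add_sub_cancel] at hidx
      have h1 : (Subgroup.zpowers u).index = 1 := by
        have h2 : orderOf ω * (Subgroup.zpowers u).index = orderOf ω * 1 := by
          rw [hidx, mul_one]
        exact Nat.eq_of_mul_eq_mul_left hpos h2
      rw [Subgroup.index_eq_one.1 h1]
      exact Subgroup.mem_top _
    · rw [hc, Nat.add_sub_cancel] at hidx
      have h1 : (Subgroup.zpowers u).index = 2 := by
        have h2 : orderOf ω * (Subgroup.zpowers u).index = orderOf ω * 2 := by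
          rw [hidx, mul_comm]
        exact Nat.eq_of_mul_eq_mul_left hpos h2
      exact Subgroup.mul_self_mem_of_index_two h1 y
  have hmem2 : y * y ∈ Submonoid.powers u := mem_powers_iff_mem_zpowers.2 hmem
  obtain ⟨i, hi⟩ := hmem2
  refine ⟨i, ?_⟩
  have h3 := congrArg (fun t : Fˣ => (t : F)) hi
  simp only [Units.val_pow_eq_pow_val, Units.val_mul] at h3
  exact h3.symm

/-- Job F4C6-3. Coordinates in a finite field.

Proof. Take `F`, `ψ` from `z_ring`; `F` is a field (`Finite.isDomain_to_isField`, as in `C_coord` in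
`CCoordA.lean`), `β` the inverse of `ψ`. `card`: `Nat.card Ω = Fintype.card F + 1` and `z_card` with
`r = orderOf σ` (`z_basic`). `ω ≠ 0` because `orderOf ω = orderOf σ ≥ 4` (`orderOf (0 : F) = 0`), with
`0 < orderOf σ`. -/
theorem z_coord {G Ω : Type} [Group G] [MulAction G Ω] [Finite G] [Finite Ω] {v w : Ω}
    {τ j σ : G} (h : QHyp v w τ j σ) (hz : ZHyp G Ω) (hn : 3 ≤ Nat.card Ω) :
    ∃ (F : Type) (_ : Field F) (_ : Fintype F) (_ : DecidableEq F) (ω : F)
      (β : Ω ≃ Option F), ω ≠ 0 ∧ orderOf ω = orderOf σ ∧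
      (Fintype.card F = orderOf ω + 1 ∨ Fintype.card F = 2 * orderOf ω + 1) ∧
      β v = none ∧ β w = some 0 ∧ (∀ x, β (σ • x) = (β x).map (fun z => ω * z)) ∧
      (∀ x, β (j • x) = (β x).map (fun z => 1 - z)) ∧
      (∀ a : F, ∃ k : G, ∀ x, β (k • x) = (β x).map (fun z => z + a)) := by
  classical
  obtain ⟨F, iR, iD, iF, ω, ψ, hψ, hord, hv, hw, hσ, hj, htr⟩ := z_ring h hz hn
  obtain ⟨-, -, hs4, hst⟩ := z_basic h hn
  let iFd : Field F := (Finite.isDomain_to_isField F).toField
  have : Fintype F := Fintype.ofFinite F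
  let β : Ω ≃ Option F := (Equiv.ofBijective ψ hψ).symm
  have hβ : ∀ o, β (ψ o) = o := fun o => Equiv.ofBijective_symm_apply_apply ψ hψ o
  refine ⟨F, iFd, this, inferInstance, ω, β, ?_, hord, ?_, ?_, ?_, ?_, ?_, ?_⟩
  · rintro hh
    rw [hh] at hord
    have h1 : orderOf (0 : F) = 0 := orderOf_zero F
    rw [h1] at hord
    omega
  · have h3 : Nat.card Ω = Fintype.card F + 1 := by
      rw [Nat.card_congr β, Nat.card_eq_fintype_card, Fintype.card_option]
    rcases z_card hz hn h.vw hst with h4 | ⟨h4, -⟩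
    · left
      omega
    · right
      omega
  · rw [← hv, hβ]
  · rw [← hw, hβ]
  · intro x
    obtain ⟨o, rfl⟩ := hψ.2 x
    rw [hβ]
    cases o with
    | none => rw [hv, h.σv, ← hv, hβ]; rfl
    | some z => rw [hσ, hβ]; rfl
  · intro x
    obtain ⟨o, rfl⟩ := hψ.2 x
    rw [hβ]
    cases o with
    | none => rw [hv, h.jv, ← hv, hβ]; rfl
    | some z => rw [hj, hβ]; rfl
  · intro a
    obtain ⟨k, hkv, hk⟩ := htr a
    refine ⟨k, fun x => ?_⟩
    obtain ⟨o, rfl⟩ := hψ.2 x
    rw [hβ]
    cases o with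
    | none => rw [hv, hkv, ← hv, hβ]; rfl
    | some z => rw [hk, hβ]; rfl

end Pool.Agent.H.MP_6268b4_co
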