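import Pool.Agent.H.MP_6268b4_co.F4CDefs

/-!
The involution `τ` in coordinates, first part: the function `f`.
-/

namespace Pool.Agent.H.MP_6268b4_co

/-- Job F4C7-1. The function `f` with `τ x = f x`.

Proof. `τ` interchanges `v` and `w`, i.e. `none` and `some 0` (`τ • w = v` because `τ * τ = 1`), so it maps
the other points to points with coordinates `some y`, `y ≠ 0`. `τ * τ = 1` gives `f (f x) = x`. From
`τ * σ * τ = σ⁻¹` we get `σ * τ * σ = τ` and `σ ^ i * τ * σ ^ i = τ` (induction on `i`), which in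
coordinates is `ω ^ i * f (ω ^ i * x) = f x`. -/
theorem z_f {G Ω F : Type*} [Group G] [MulAction G Ω] [Field F] [DecidableEq F] {v w : Ω}
    {τ j σ : G} (h : QHyp v w τ j σ) {ω : F} (hω : ω ≠ 0) (β : Ω ≃ Option F) (hv : β v = none)
    (hw : β w = some 0) (hσ : ∀ x, β (σ • x) = (β x).map (fun z => ω * z)) :
    ∃ f : F → F, (∀ x, x ≠ 0 → f x ≠ 0) ∧
      (∀ x, x ≠ 0 → β (τ • β.symm (some x)) = some (f x)) ∧ (∀ x, x ≠ 0 → f (f x) = x) ∧
      ∀ x, x ≠ 0 → ∀ i : ℕ, ω ^ i * f (ω ^ i * x) = f x := by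
  have hτw : τ • w = v := by
    rw [← h.τv, ← mul_smul, h.ττ, one_smul]
  have hne : ∀ x : F, x ≠ 0 → ∃ y : F, y ≠ 0 ∧ β (τ • β.symm (some x)) = some y := by
    intro x hx
    cases hy : β (τ • β.symm (some x)) with
    | none =>
      exfalso
      have h1 : τ • β.symm (some x) = τ • w := by
        rw [hτw]
        apply β.injective
        rw [hy, hv]
      have h2 : β.symm (some x) = w := smul_left_cancel _ h1
      have h3 : some x = some (0 : F) := by
        rw [← hw, ← h2, Equiv.apply_symm_apply]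
      exact hx (Option.some.inj h3)
    | some y =>
      refine ⟨y, ?_, rfl⟩
      rintro rfl
      have h1 : τ • β.symm (some x) = τ • v := by
        rw [h.τv]
        apply β.injective
        rw [hy, hw]
      have h2 : β.symm (some x) = v := smul_left_cancel _ h1
      have h3 : some x = (none : Option F) := by
        rw [← hv, ← h2, Equiv.apply_symm_apply]
      exact Option.some_ne_none _ h3
  let f : F → F := fun x => (β (τ • β.symm (some x))).getD 0
  have hf0 : ∀ x, x ≠ 0 → f x ≠ 0 := by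
    intro x hx
    obtain ⟨y, hy0, hy⟩ := hne x hx
    show (β (τ • β.symm (some x))).getD 0 ≠ 0
    rw [hy]
    exact hy0
  have hfτ : ∀ x, x ≠ 0 → β (τ • β.symm (some x)) = some (f x) := by
    intro x hx
    obtain ⟨y, hy0, hy⟩ := hne x hx
    show _ = some ((β (τ • β.symm (some x))).getD 0)
    rw [hy]
    rfl
  have hff : ∀ x, x ≠ 0 → f (f x) = x := by
    intro x hx
    have h1 := hfτ (f x) (hf0 x hx)
    rw [← hfτ x hx, Equiv.symm_apply_apply, ← mul_smul, h.ττ, one_smul,
      Equiv.apply_symm_apply] at h1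
    exact (Option.some.inj h1).symm
  have hστσ : σ * τ * σ = τ := by
    have h1 : σ * (τ * σ * τ) = 1 := by rw [h.τσ, mul_inv_cancel]
    calc σ * τ * σ = σ * (τ * σ * τ) * τ⁻¹ := by group
      _ = τ⁻¹ := by rw [h1, one_mul]
      _ = τ := inv_eq_of_mul_eq_one_right h.ττ
  have hstep : ∀ x, x ≠ 0 → ω * f (ω * x) = f x := by
    intro x hx
    have h1 : σ • β.symm (some x) = β.symm (some (ω * x)) := by
      apply β.injective
      rw [hσ, Equiv.apply_symm_apply, Equiv.apply_symm_apply]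
      rfl
    have h2 : β (σ • τ • σ • β.symm (some x)) = some (ω * f (ω * x)) := by
      rw [hσ, h1, hfτ _ (mul_ne_zero hω hx)]
      rfl
    rw [← mul_smul, ← mul_smul, hστσ, hfτ x hx] at h2
    exact (Option.some.inj h2).symm
  refine ⟨f, hf0, hfτ, hff, ?_⟩
  intro x hx i
  induction i with
  | zero => rw [pow_zero, one_mul, one_mul]
  | succ i ih =>
    have h1 := hstep (ω ^ i * x) (mul_ne_zero (pow_ne_zero i hω) hx)
    rw [pow_succ, mul_assoc, mul_assoc, mul_left_comm (ω ^ i) ω x, h1, ih]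

/-- Job F4C7-2. `-1` is a power of `ω`.

Proof. Let `r = orderOf ω`, even and positive, `x = ω ^ (r / 2)`. `x * x = ω ^ r = 1` and `x ≠ 1`
(`0 < r / 2 < r`), so `(x - 1) (x + 1) = 0` gives `x = -1`. -/
theorem z_neg_one {F : Type*} [Field F] {ω : F} (h2 : 2 ∣ orderOf ω) (h0 : 0 < orderOf ω) :
    ∃ i : ℕ, (-1 : F) = ω ^ i := by
  obtain ⟨k, hk⟩ := h2
  refine ⟨k, ?_⟩
  have h1 : ω ^ k * ω ^ k = 1 := by
    rw [← pow_add, ← two_mul, ← hk, pow_orderOf_eq_one]
  have h3 : ω ^ k ≠ 1 := by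
    intro h4
    have h5 := Nat.le_of_dvd (by omega) (orderOf_dvd_of_pow_eq_one h4)
    omega
  rcases mul_self_eq_one_iff.1 h1 with h4 | h4
  · exact absurd h4 h3
  · exact h4.symm

/-- Job F4C7-3. The functional equation of `f`.

Proof. For `a : F` let `k a : G` be the translation by `a` (`htr`). Let `y ≠ 0` and `a = f y`, so
`f a = y`. By `hf1` and `hneg`, `f (-x) = - f x` for `x ≠ 0` (with `-1 = ω ^ i`: `ω ^ i * f (ω ^ i * x) =
f x`). Let `g = k (-y) * τ * k a * τ * k (-y)`. In coordinates `τ * g` maps `none`: `k (-y)`: `none`;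
`τ`: `0`; `k a`: `a`; `τ`: `f a = y`; `k (-y)`: `0`; `τ`: `none`. And `0`: `k (-y)`: `-y`; `τ`:
`f (-y) = -a`; `k a`: `0`; `τ`: `none`; `k (-y)`: `none`; `τ`: `0`. So `τ * g` fixes `v` and `w` and
`τ * g = σ ^ i`, `i : ℕ` (`h.stab2`, `G` finite), `g = τ * σ ^ i`. Evaluate both sides on `y`: `g`:
`k (-y)`: `0`; `τ`: `none`; `k a`: `none`; `τ`: `0`; `k (-y)`: `-y`. And `τ * σ ^ i`: `f (ω ^ i * y)`, with
`ω ^ i * f (ω ^ i * y) = f y = a`. So `ω ^ i * (-y) = a`, i.e. `f y = - ω ^ i * y`; this gives the first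
claim (absorb the sign and invert: `y = - ω ^ (-i) * f y`; `ω` has finite order so `ω ^ (-i)` is
a natural power). Now let also `x ≠ 0`, `x + y ≠ 0`. Evaluate both sides on `x + y`: `g`: `k (-y)`: `x`;
`τ`: `f x`; `k a`: `f x + f y` which is `≠ 0` (otherwise `f x = - f y = f (-y)` and `x = -y` by applying
`f`); `τ`: `f (f x + f y)`; `k (-y)`: `f (f x + f y) - y`. And `τ * σ ^ i`: `f (ω ^ i * (x + y))`, where
`ω ^ i * f (ω ^ i * (x + y)) = f (x + y)`. So `ω ^ i * (f (f x + f y) - y) = f (x + y)`, and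
`ω ^ i = - f y / y`. -/
theorem z_feq {G Ω F : Type*} [Group G] [MulAction G Ω] [Finite G] [Field F] [Fintype F]
    [DecidableEq F] {v w : Ω} {τ j σ : G} (h : QHyp v w τ j σ) {ω : F} (hω : ω ≠ 0)
    (hneg : ∃ i : ℕ, (-1 : F) = ω ^ i) (β : Ω ≃ Option F) (hv : β v = none)
    (hw : β w = some 0) (hσ : ∀ x, β (σ • x) = (β x).map (fun z => ω * z))
    (htr : ∀ a : F, ∃ k : G, ∀ x, β (k • x) = (β x).map (fun z => z + a)) {f : F → F}
    (hf0 : ∀ x, x ≠ 0 → f x ≠ 0) (hfτ : ∀ x, x ≠ 0 → β (τ • β.symm (some x)) = some (f x))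
    (hff : ∀ x, x ≠ 0 → f (f x) = x)
    (hf1 : ∀ x, x ≠ 0 → ∀ i : ℕ, ω ^ i * f (ω ^ i * x) = f x) :
    (∀ y, y ≠ 0 → ∃ i : ℕ, y = ω ^ i * f y) ∧
    ∀ x y, x ≠ 0 → y ≠ 0 → x + y ≠ 0 → f (x + y) = f y - f y / y * f (f x + f y) := by
  obtain ⟨e, he⟩ := hneg
  have hfneg : ∀ x, x ≠ 0 → f (-x) = - f x := by
    intro x hx
    have h1 := hf1 x hx e
    rw [← he, neg_one_mul, neg_one_mul] at h1
    rw [← h1, neg_neg]
  choose k hk using htr
  have hτw : τ • w = v := by
    rw [← h.τv, ← mul_smul, h.ττ, one_smul]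
  have hPv : β.symm none = v := by rw [← hv, Equiv.symm_apply_apply]
  have hPw : β.symm (some 0) = w := by rw [← hw, Equiv.symm_apply_apply]
  have k0 : ∀ a, k a • β.symm none = β.symm none := by
    intro a
    apply β.injective
    rw [hk, Equiv.apply_symm_apply]
    rfl
  have k1 : ∀ a z, k a • β.symm (some z) = β.symm (some (z + a)) := by
    intro a z
    apply β.injective
    rw [hk, Equiv.apply_symm_apply, Equiv.apply_symm_apply]
    rfl
  have t0 : τ • β.symm none = β.symm (some 0) := by rw [hPv, hPw, h.τv]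
  have t1 : τ • β.symm (some 0) = β.symm none := by rw [hPv, hPw, hτw]
  have t2 : ∀ x, x ≠ 0 → τ • β.symm (some x) = β.symm (some (f x)) := by
    intro x hx
    apply β.injective
    rw [hfτ x hx, Equiv.apply_symm_apply]
  have s1 : ∀ (i : ℕ) (z : F), σ ^ i • β.symm (some z) = β.symm (some (ω ^ i * z)) := by
    intro i
    induction i with
    | zero =>
      intro z
      rw [pow_zero, one_smul, pow_zero, one_mul]
    | succ i ih =>
      intro z
      rw [pow_succ', mul_smul, ih]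
      apply β.injective
      rw [hσ, Equiv.apply_symm_apply, Equiv.apply_symm_apply, pow_succ', mul_assoc]
      rfl
  have hinj : ∀ z z' : F, β.symm (some z) = β.symm (some z') → z = z' := by
    intro z z' hzz
    exact Option.some.inj (β.symm.injective hzz)
  -- the element
  have main : ∀ y, y ≠ 0 → ∃ i : ℕ,
      k (-y) * (τ * (k (f y) * (τ * k (-y)))) = τ * σ ^ i ∧ f y = - (ω ^ i * y) := by
    intro y hy
    have hfy := hf0 y hy
    have h1 : (τ * (k (-y) * (τ * (k (f y) * (τ * k (-y)))))) • v = v := by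
      rw [← hPv]
      simp only [mul_smul]
      rw [k0, t0, k1, zero_add, t2 _ hfy, hff y hy, k1, add_neg_cancel, t1]
    have h2 : (τ * (k (-y) * (τ * (k (f y) * (τ * k (-y)))))) • w = w := by
      rw [← hPw]
      simp only [mul_smul]
      rw [k1, zero_add, t2 _ (neg_ne_zero.2 hy), hfneg y hy, k1, neg_add_cancel, t1, k0, t0]
    obtain ⟨i, hi⟩ := (mem_powers_iff_mem_zpowers.2 (h.stab2 _ h1 h2) :
      τ * (k (-y) * (τ * (k (f y) * (τ * k (-y))))) ∈ Submonoid.powers σ)
    have hi' : σ ^ i = τ * (k (-y) * (τ * (k (f y) * (τ * k (-y))))) := hi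
    have h3 : k (-y) * (τ * (k (f y) * (τ * k (-y)))) = τ * σ ^ i := by
      rw [hi', ← mul_assoc τ τ, h.ττ, one_mul]
    refine ⟨i, h3, ?_⟩
    have h4 : (k (-y) * (τ * (k (f y) * (τ * k (-y))))) • β.symm (some y) =
        β.symm (some (-y)) := by
      simp only [mul_smul]
      rw [k1, add_neg_cancel, t1, k0, t0, k1, zero_add]
    rw [h3, mul_smul, s1, t2 _ (mul_ne_zero (pow_ne_zero i hω) hy)] at h4
    have h5 := hinj _ _ h4
    have h6 := hf1 y hy i
    rw [h5] at h6
    rw [← h6]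
    ring
  refine ⟨?_, ?_⟩
  · intro y hy
    obtain ⟨i, -, hi⟩ := main y hy
    have hN : ω ^ (Fintype.card F - 1) = 1 := FiniteField.pow_card_sub_one_eq_one ω hω
    have hNpos : 0 < Fintype.card F - 1 := by
      have := Fintype.one_lt_card (α := F)
      omega
    refine ⟨(e + i) * (Fintype.card F - 1 - 1), ?_⟩
    have h1 : (e + i) * (Fintype.card F - 1 - 1) + (e + i) = (Fintype.card F - 1) * (e + i) := by
      obtain ⟨r, hr⟩ : ∃ r, Fintype.card F - 1 = r + 1 := ⟨Fintype.card F - 1 - 1, by omega⟩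
      rw [hr, Nat.add_sub_cancel]
      ring
    have h2 : f y = ω ^ (e + i) * y := by
      rw [hi, pow_add, ← he]
      ring
    rw [h2, ← mul_assoc, ← pow_add, h1, pow_mul, hN, one_pow, one_mul]
  · intro x y hx hy hxy
    obtain ⟨i, h3, hi⟩ := main y hy
    have hfy := hf0 y hy
    have hfx := hf0 x hx
    have hsum : f x + f y ≠ 0 := by
      intro h0
      have h1 : f x = f (-y) := by
        rw [hfneg y hy]
        exact eq_neg_of_add_eq_zero_left h0
      have h2 : x = -y := by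
        rw [← hff x hx, h1, hff _ (neg_ne_zero.2 hy)]
      exact hxy (by rw [h2, neg_add_cancel])
    have h4 : (k (-y) * (τ * (k (f y) * (τ * k (-y))))) • β.symm (some (x + y)) =
        β.symm (some (f (f x + f y) + -y)) := by
      simp only [mul_smul]
      rw [k1, add_neg_cancel_right, t2 _ hx, k1, t2 _ hsum, k1]
    rw [h3, mul_smul, s1, t2 _ (mul_ne_zero (pow_ne_zero i hω) hxy)] at h4
    have h5 := hinj _ _ h4
    have h6 := hf1 (x + y) hxy i
    rw [h5] at h6
    have h7 : ω ^ i = - f y / y := by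
      rw [hi, neg_neg, mul_div_cancel_right₀ _ hy]
    rw [← h6, h7]
    field_simp
    ring

end Pool.Agent.H.MP_6268b4_co
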