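import Pool.Agent.H.MP_6268b4_co.F4CDefs

/-!
The involution `τ` in coordinates, second part: `f x = lam / x`.
-/

namespace Pool.Agent.H.MP_6268b4_co

/-- The powers of `ω`, with `0`. -/
theorem f4c8_card {F : Type*} [Field F] [DecidableEq F] {ω : F} (hω : ω ≠ 0) :
    (insert 0 ((Finset.range (orderOf ω)).image (fun i => ω ^ i))).card = orderOf ω + 1 := by
  rw [Finset.card_insert_of_notMem, Finset.card_image_of_injOn, Finset.card_range]
  · intro i hi k hk hik
    have hi' : i < orderOf ω := by simpa using hi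
    have hk' : k < orderOf ω := by simpa using hk
    exact pow_injOn_Iio_orderOf hi' hk' hik
  · intro h
    obtain ⟨i, -, hi⟩ := Finset.mem_image.1 h
    exact pow_ne_zero i hω hi

theorem f4c8_mem {F : Type*} [Field F] [DecidableEq F] {ω : F} (hpos : 0 < orderOf ω) (x : F) :
    x ∈ insert 0 ((Finset.range (orderOf ω)).image (fun i => ω ^ i)) ↔
      x = 0 ∨ ∃ l : ℕ, x = ω ^ l := by
  rw [Finset.mem_insert, Finset.mem_image]
  constructor
  · rintro (h | ⟨i, -, hi⟩)
    · exact Or.inl h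
    · exact Or.inr ⟨i, hi.symm⟩
  · rintro (h | ⟨l, hl⟩)
    · exact Or.inl h
    · refine Or.inr ⟨l % orderOf ω, Finset.mem_range.2 (Nat.mod_lt _ hpos), ?_⟩
      rw [hl]
      exact pow_mod_orderOf ω l

theorem f4c8_inv {F : Type*} [Field F] {ω : F} (hpos : 0 < orderOf ω) (i : ℕ) :
    ∃ k : ℕ, (ω ^ i)⁻¹ = ω ^ k := by
  refine ⟨i * (orderOf ω - 1), ?_⟩
  refine inv_eq_of_mul_eq_one_right ?_
  rw [← pow_add]
  have h1 : i + i * (orderOf ω - 1) = orderOf ω * i := by
    obtain ⟨r, hr⟩ : ∃ r, orderOf ω = r + 1 := ⟨orderOf ω - 1, by omega⟩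
    rw [hr, Nat.add_sub_cancel]
    ring
  rw [h1, pow_mul, pow_orderOf_eq_one, one_pow]

/-- Job F4C8-1. If the powers of `ω` are half of the nonzero elements, some sum of two powers is
nonzero and not a power.

Proof. Otherwise `D ∪ {0}`, `D` the set of powers of `ω`, is closed under addition; since `-1 ∈ D` it is an
additive subgroup of `F`, with `orderOf ω + 1` elements. So `orderOf ω + 1` divides
`Fintype.card F = 2 * orderOf ω + 1`, hence divides `2 * (orderOf ω + 1) - (2 * orderOf ω + 1) = 1`,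
contradiction to `orderOf ω > 0`. -/
theorem z_sum {F : Type*} [Field F] [Fintype F] [DecidableEq F] {ω : F} (hω : ω ≠ 0)
    (hcard : Fintype.card F = 2 * orderOf ω + 1) (hneg : ∃ i : ℕ, (-1 : F) = ω ^ i) :
    ∃ i k : ℕ, ω ^ i + ω ^ k ≠ 0 ∧ ∀ l : ℕ, ω ^ i + ω ^ k ≠ ω ^ l := by
  by_contra hcon
  push Not at hcon
  have hpos : 0 < orderOf ω := by
    by_contra h0
    have h1 : 1 < Fintype.card F := Fintype.one_lt_card
    omega
  obtain ⟨e, he⟩ := hneg
  let S : AddSubgroup F :=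
    { carrier := {x | x = 0 ∨ ∃ l : ℕ, x = ω ^ l}
      zero_mem' := Or.inl rfl
      add_mem' := by
        rintro a b (ha | ⟨i, ha⟩) (hb | ⟨k, hb⟩)
        · left
          rw [ha, hb, add_zero]
        · right
          exact ⟨k, by rw [ha, zero_add, hb]⟩
        · right
          exact ⟨i, by rw [hb, add_zero, ha]⟩
        · by_cases h0 : ω ^ i + ω ^ k = 0
          · left
            rw [ha, hb, h0]
          · right
            obtain ⟨l, hl⟩ := hcon i k h0
            exact ⟨l, by rw [ha, hb, hl]⟩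
      neg_mem' := by
        rintro a (ha | ⟨i, ha⟩)
        · left
          rw [ha, neg_zero]
        · right
          exact ⟨e + i, by rw [ha, pow_add, ← he]; ring⟩ }
  have hS : (S : Set F) =
      ↑(insert 0 ((Finset.range (orderOf ω)).image (fun i => ω ^ i)) : Finset F) := by
    ext x
    rw [Finset.mem_coe, f4c8_mem hpos]
    rfl
  have hcS : Nat.card S = orderOf ω + 1 := by
    have h1 : Nat.card S = (S : Set F).ncard := rfl
    rw [h1, hS, Set.ncard_coe_finset, f4c8_card hω]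
  have hdvd : Nat.card S ∣ Nat.card F := AddSubgroup.card_addSubgroup_dvd_card S
  rw [hcS, Nat.card_eq_fintype_card, hcard] at hdvd
  have h2 : orderOf ω + 1 ∣ 2 * (orderOf ω + 1) - (2 * orderOf ω + 1) :=
    Nat.dvd_sub (Dvd.intro_left 2 rfl) hdvd
  have h3 : 2 * (orderOf ω + 1) - (2 * orderOf ω + 1) = 1 := by omega
  rw [h3, Nat.dvd_one] at h2
  omega

/-- Job F4C8-2. Two nonzero elements which are not powers of `ω` differ by a power of `ω`.

Proof. The unit `ω` generates a subgroup `D` of index 2 in the group of units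
(`Fintype.card F - 1 = 2 * orderOf ω`), so `x / s ∈ D` for `x, s ∉ D`
(`Subgroup.mul_mem_iff_of_index_two`). -/
theorem z_coset {F : Type*} [Field F] [Fintype F] [DecidableEq F] {ω : F} (hω : ω ≠ 0)
    (hcard : Fintype.card F = 2 * orderOf ω + 1) {x s : F} (hx0 : x ≠ 0) (hs0 : s ≠ 0)
    (hx : ∀ l : ℕ, x ≠ ω ^ l) (hs : ∀ l : ℕ, s ≠ ω ^ l) : ∃ i : ℕ, x = ω ^ i * s := by
  have hpos : 0 < orderOf ω := by
    by_contra h0
    have h1 : 1 < Fintype.card F := Fintype.one_lt_card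
    omega
  let u : Fˣ := Units.mk0 ω hω
  have huω : orderOf u = orderOf ω := by
    rw [← orderOf_units]
    rfl
  have hD : Nat.card (Subgroup.zpowers u) = orderOf ω := by
    rw [Nat.card_zpowers, huω]
  have hU : Nat.card Fˣ = 2 * orderOf ω := by
    rw [Nat.card_eq_fintype_card, Fintype.card_units, hcard, Nat.add_sub_cancel]
  have hidx : (Subgroup.zpowers u).index = 2 := by
    have h1 := Subgroup.card_mul_index (Subgroup.zpowers u)
    rw [hD, hU, mul_comm] at h1
    exact Nat.eq_of_mul_eq_mul_right hpos h1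
  have hmem : ∀ y : Fˣ, y ∈ Subgroup.zpowers u → ∃ l : ℕ, (y : F) = ω ^ l := by
    intro y hy
    obtain ⟨l, hl⟩ := (mem_powers_iff_mem_zpowers.2 hy : y ∈ Submonoid.powers u)
    refine ⟨l, ?_⟩
    have h2 : ((u ^ l : Fˣ) : F) = (y : F) := congrArg Units.val hl
    rw [← h2, Units.val_pow_eq_pow_val]
    rfl
  have h3 : Units.mk0 x hx0 * (Units.mk0 s hs0)⁻¹ ∈ Subgroup.zpowers u := by
    rw [Subgroup.mul_mem_iff_of_index_two hidx]
    constructor
    · intro h4
      obtain ⟨l, hl⟩ := hmem _ h4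
      exact absurd hl (hx l)
    · intro h4
      obtain ⟨l, hl⟩ := hmem _ ((Subgroup.inv_mem_iff _).1 h4)
      exact absurd hl (hs l)
  obtain ⟨l, hl⟩ := hmem _ h3
  refine ⟨l, ?_⟩
  rw [← hl, Units.val_mul, Units.val_inv_eq_inv_val, Units.val_mk0, Units.val_mk0, mul_assoc,
    inv_mul_cancel₀ hs0, mul_one]

/-- Job F4C8-3. `f x = lam / x`.

Proof. Let `lam = f 1`. `hf2` gives `1 = ω ^ i * lam`, so `lam` is a power of `ω` (`ω` has finite
order). For `x = ω ^ i`, `hf1` (with `x = 1`) gives `x * f x = lam`. If `Fintype.card F = orderOf ω + 1` then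
every nonzero element is a power of `ω` and we are done. Otherwise take `x₀ = ω ^ i`, `y₀ = ω ^ k` from
`z_sum`, `s = x₀ + y₀` and `mu = s * f s`. Every nonzero `x` which is not a power of `ω` is `ω ^ l * s`
(`z_coset`) and `hf1` gives `x * f x = mu`. Now `f x₀ + f y₀ = lam / x₀ + lam / y₀ = lam s / (x₀ y₀)` is
nonzero and not a power of `ω`, so `f (f x₀ + f y₀) = mu x₀ y₀ / (lam s)`. `hf3` says
`mu / s = lam / y₀ - (lam / y₀ ^ 2) * (mu x₀ y₀ / (lam s)) = lam / y₀ - mu x₀ / (y₀ s)`; multiply by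
`y₀ s`: `mu y₀ = lam s - mu x₀`, i.e. `mu s = lam s`, `mu = lam`. -/
theorem z_flam {F : Type*} [Field F] [Fintype F] [DecidableEq F] {ω : F} (hω : ω ≠ 0)
    (hcard : Fintype.card F = orderOf ω + 1 ∨ Fintype.card F = 2 * orderOf ω + 1)
    (hneg : ∃ i : ℕ, (-1 : F) = ω ^ i) {f : F → F} (hf0 : ∀ x, x ≠ 0 → f x ≠ 0)
    (hf1 : ∀ x, x ≠ 0 → ∀ i : ℕ, ω ^ i * f (ω ^ i * x) = f x)
    (hf2 : ∀ y, y ≠ 0 → ∃ i : ℕ, y = ω ^ i * f y)
    (hf3 : ∀ x y, x ≠ 0 → y ≠ 0 → x + y ≠ 0 → f (x + y) = f y - f y / y * f (f x + f y)) :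
    ∃ lam : F, (∃ i : ℕ, lam = ω ^ i) ∧ ∀ x, x ≠ 0 → f x = lam / x := by
  have hpos : 0 < orderOf ω := by
    by_contra h0
    have h1 : 1 < Fintype.card F := Fintype.one_lt_card
    omega
  have hlamD : ∃ i : ℕ, f 1 = ω ^ i := by
    obtain ⟨i, hi⟩ := hf2 1 one_ne_zero
    obtain ⟨k, hk⟩ := f4c8_inv hpos i
    refine ⟨k, ?_⟩
    rw [← hk]
    exact (inv_eq_of_mul_eq_one_right hi.symm).symm
  have hD : ∀ i : ℕ, f (ω ^ i) = f 1 / ω ^ i := by
    intro i
    have h1 := hf1 1 one_ne_zero i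
    rw [mul_one] at h1
    rw [eq_div_iff (pow_ne_zero i hω), ← h1, mul_comm]
  refine ⟨f 1, hlamD, ?_⟩
  rcases hcard with hcard | hcard
  · have huniv : insert 0 ((Finset.range (orderOf ω)).image (fun i => ω ^ i)) = Finset.univ := by
      apply Finset.eq_univ_of_card
      rw [f4c8_card hω, hcard]
    intro x hx
    have h1 : x ∈ insert 0 ((Finset.range (orderOf ω)).image (fun i => ω ^ i)) := by
      rw [huniv]
      exact Finset.mem_univ x
    rcases (f4c8_mem hpos x).1 h1 with h2 | ⟨l, hl⟩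
    · exact absurd h2 hx
    · rw [hl]
      exact hD l
  · obtain ⟨i, k, hs0, hsD⟩ := z_sum hω hcard hneg
    set x₀ : F := ω ^ i with hx₀
    set y₀ : F := ω ^ k with hy₀
    set s : F := x₀ + y₀ with hs
    have hx0 : x₀ ≠ 0 := pow_ne_zero i hω
    have hy0 : y₀ ≠ 0 := pow_ne_zero k hω
    have hlam0 : f 1 ≠ 0 := hf0 1 one_ne_zero
    have hmu : ∀ x, x ≠ 0 → (∀ l : ℕ, x ≠ ω ^ l) → f x = s * f s / x := by
      intro x hx hxD
      obtain ⟨l, hl⟩ := z_coset hω hcard hx hs0 hxD hsD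
      have h1 := hf1 s hs0 l
      rw [← hl] at h1
      rw [eq_div_iff hx, ← h1]
      nth_rewrite 2 [hl]
      ring
    have hfx : f x₀ = f 1 / x₀ := hD i
    have hfy : f y₀ = f 1 / y₀ := hD k
    have hsum : f x₀ + f y₀ = f 1 * s / (x₀ * y₀) := by
      rw [hfx, hfy, hs]
      field_simp
      ring
    have hsum0 : f x₀ + f y₀ ≠ 0 := by
      rw [hsum]
      exact div_ne_zero (mul_ne_zero hlam0 hs0) (mul_ne_zero hx0 hy0)
    have hsumD : ∀ l : ℕ, f x₀ + f y₀ ≠ ω ^ l := by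
      intro l hl
      obtain ⟨a, ha⟩ := hlamD
      obtain ⟨b, hb⟩ := f4c8_inv hpos a
      refine hsD (b + (i + (k + l))) ?_
      rw [pow_add, pow_add, pow_add, ← hl, hsum, ← hb, ← ha, ← hx₀, ← hy₀]
      field_simp
    have h3 := hf3 x₀ y₀ hx0 hy0 hs0
    rw [← hs, hmu _ hsum0 hsumD, hsum, hfy] at h3
    have hmueq : s * f s = f 1 := by
      have h4 : f s * s * y₀ = f 1 * s - (s * f s) * x₀ := by
        have h5 : f s * (s * y₀) = (f 1 / y₀ - f 1 / y₀ / y₀ * (s * f s / (f 1 * s / (x₀ * y₀)))) *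
            (s * y₀) := by
          rw [← h3]
        rw [mul_assoc, h5]
        field_simp
      have h6 : (s * f s) * s = f 1 * s := by
        have h7 : (s * f s) * s = (f s * s * y₀) + (s * f s) * x₀ := by
          rw [hs]
          ring
        rw [h7, h4]
        ring
      exact mul_right_cancel₀ hs0 h6
    intro x hx
    by_cases hxD : ∃ l : ℕ, x = ω ^ l
    · obtain ⟨l, hl⟩ := hxD
      rw [hl]
      exact hD l
    · push Not at hxD
      rw [hmu x hx hxD, hmueq]

end Pool.Agent.H.MP_6268b4_co
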