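import Pool.Agent.H.MP_6268b4_co.F4C6
import Pool.Agent.H.MP_6268b4_co.F4C7
import Pool.Agent.H.MP_6268b4_co.F4C8

/-!
Coordinates for `σ`, `j` and `τ`.
-/

namespace Pool.Agent.H.MP_6268b4_co

/-- Job F4C9-1. Proof: `z_coord`, `z_squares`, `z_f`, `z_neg_one`, `z_feq`, `z_flam`. -/
theorem z_coord1 {G Ω : Type} [Group G] [MulAction G Ω] [Finite G] [Finite Ω] {v w : Ω}
    {τ j σ : G} (h : QHyp v w τ j σ) (hz : ZHyp G Ω) (hn : 3 ≤ Nat.card Ω) :
    ∃ (F : Type) (_ : Field F) (_ : Fintype F) (_ : DecidableEq F) (ω lam : F)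
      (β : Ω ≃ Option F), FCoord v w τ j σ 1 ω lam β := by
  obtain ⟨F, fF, fi, de, ω, β, h0, hord, hcard, hv, hw, hσ, hj, htr⟩ := z_coord h hz hn
  have hpos : 0 < orderOf ω := by rw [hord]; exact orderOf_pos σ
  have h2 : 2 ∣ orderOf ω := by
    rw [hord]
    exact (by decide : 2 ∣ 4).trans h.four
  have hneg := z_neg_one h2 hpos
  obtain ⟨f, f0, fτ, ff, f1⟩ := z_f h h0 β hv hw hσ
  obtain ⟨f2, f3⟩ := z_feq h h0 hneg β hv hw hσ htr f0 fτ ff f1
  obtain ⟨lam, hlam, hfl⟩ := z_flam h0 hcard hneg f0 f1 f2 f3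
  refine ⟨F, fF, fi, de, ω, lam, β, ⟨h0, hord, hcard, z_squares h0 hcard, hlam, hv, hw, hσ, hj, ?_⟩⟩
  intro x
  obtain ⟨y, rfl⟩ := β.symm.surjective x
  rw [Equiv.apply_symm_apply]
  cases y with
  | none =>
    have h1 : β.symm none = v := by rw [← hv, Equiv.symm_apply_apply]
    rw [h1, h.τv, hw]
    rfl
  | some z =>
    by_cases hz0 : z = 0
    · subst hz0
      have h1 : β.symm (some 0) = w := by rw [← hw, Equiv.symm_apply_apply]
      have h3 : τ • w = v := by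
        rw [← h.τv, ← mul_smul, h.ττ, one_smul]
      rw [h1, h3, hv]
      simp [mobInv]
    · rw [fτ z hz0, hfl z hz0]
      simp [mobInv, hz0]

/-- Job F4C9-2. The normalization: `j` is `z ↦ 1 + ω - z`.

Proof. Take the coordinates of `z_coord1` and multiply all finite coordinates by `1 + ω`:
`β' x = (β x).map (fun z => (1 + ω) * z)`. `1 + ω ≠ 0` because `ω ^ 2 ≠ 1` (`4 ∣ orderOf σ = orderOf ω`).
`σ` is still `z ↦ ω z`, `j` becomes `z ↦ (1 + ω) - z` and `τ` becomes `z ↦ lam' / z`,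
`lam' = (1 + ω) ^ 2 * lam`, which is a power of `ω` by `sq`. -/
theorem z_coord2 {G Ω : Type} [Group G] [MulAction G Ω] [Finite G] [Finite Ω] {v w : Ω}
    {τ j σ : G} (h : QHyp v w τ j σ) (hz : ZHyp G Ω) (hn : 3 ≤ Nat.card Ω) :
    ∃ (F : Type) (_ : Field F) (_ : Fintype F) (_ : DecidableEq F) (ω lam : F)
      (β : Ω ≃ Option F), FCoord v w τ j σ (1 + ω) ω lam β := by
  obtain ⟨F, fF, fi, de, ω, lam, β, H⟩ := z_coord1 h hz hn
  have hc : (1 + ω) ≠ 0 := by
    intro e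
    have e1 : ω = -1 := by linear_combination e
    have e2 : ω ^ 2 = 1 := by rw [e1]; ring
    have e3 := orderOf_dvd_of_pow_eq_one e2
    have e4 : 4 ∣ orderOf ω := by rw [H.ord]; exact h.four
    exact absurd (e4.trans e3) (by decide)
  have hβ : ∀ x, (β.trans (Equiv.optionCongr (Equiv.mulLeft₀ (1 + ω) hc))) x =
      (β x).map (fun z => (1 + ω) * z) := fun x => rfl
  obtain ⟨i, hi⟩ := H.sq (1 + ω) hc
  obtain ⟨k, hk⟩ := H.lamD
  refine ⟨F, fF, fi, de, ω, (1 + ω) * (1 + ω) * lam,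
    β.trans (Equiv.optionCongr (Equiv.mulLeft₀ (1 + ω) hc)),
    ⟨H.ω0, H.ord, H.card, H.sq, ⟨i + k, by rw [hi, hk, pow_add]⟩, ?_, ?_, ?_, ?_, ?_⟩⟩
  · rw [hβ, H.βv]; rfl
  · rw [hβ, H.βw]; simp
  · intro x
    rw [hβ, hβ, H.βσ]
    cases β x with
    | none => rfl
    | some z => simp only [Option.map_some]; congr 1; ring
  · intro x
    rw [hβ, hβ, H.βj]
    cases β x with
    | none => rfl
    | some z => simp only [Option.map_some]; congr 1; ring
  · intro x
    rw [hβ, hβ, H.βτ]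
    cases β x with
    | none => simp [mobInv]
    | some z =>
      by_cases hz0 : z = 0
      · simp [mobInv, hz0]
      · have h1 : (1 + ω) * z ≠ 0 := mul_ne_zero hc hz0
        simp only [mobInv, hz0, if_false, Option.map_some, h1]
        congr 1
        field_simp

end Pool.Agent.H.MP_6268b4_co
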