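import Pool.Agent.H.MP_6268b4_co.F4B1

/-!
Definitions for the case in which only the identity fixes three points.
-/

namespace Pool.Agent.H.MP_6268b4_co

/-- `g` fixes `v` and is `1` or fixes no other point. -/
def IsE {G Ω : Type*} [Group G] [MulAction G Ω] (v : Ω) (g : G) : Prop :=
  g • v = v ∧ ∀ x : Ω, x ≠ v → g • x = x → g = 1

/-- `K` is an abelian normal subgroup of the stabilizer of `v`, inverted by the involutions fixing
`v`, and regular on the points different from `v`. -/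
structure KProp {G : Type*} (Ω : Type*) [Group G] [MulAction G Ω] (v : Ω) (K : Subgroup G) :
    Prop where
  fix : ∀ k ∈ K, k • v = v
  reg : ∀ x y : Ω, x ≠ v → y ≠ v → ∃! k : G, k ∈ K ∧ k • x = y
  ab : ∀ k ∈ K, ∀ k' ∈ K, k * k' = k' * k
  inv : ∀ t : G, IsInv t → t • v = v → ∀ k ∈ K, t * k * t = k⁻¹
  norm : ∀ g : G, g • v = v → ∀ k ∈ K, g * k * g⁻¹ ∈ K
  prod : ∀ t t' : G, IsInv t → IsInv t' → t • v = v → t' • v = v → t * t' ∈ K

/-- Coordinates for the vertices, in which `σ` is the multiplication by `ω`, `j` is `z ↦ c - z` and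
`τ` is `z ↦ lam / z`. -/
structure FCoord {G Ω F : Type*} [Group G] [MulAction G Ω] [Field F] [Fintype F] [DecidableEq F]
    (v w : Ω) (τ j σ : G) (c ω lam : F) (β : Ω ≃ Option F) : Prop where
  ω0 : ω ≠ 0
  ord : orderOf ω = orderOf σ
  card : Fintype.card F = orderOf ω + 1 ∨ Fintype.card F = 2 * orderOf ω + 1
  sq : ∀ z : F, z ≠ 0 → ∃ i : ℕ, z * z = ω ^ i
  lamD : ∃ i : ℕ, lam = ω ^ i
  βv : β v = none
  βw : β w = some 0
  βσ : ∀ x, β (σ • x) = (β x).map (fun z => ω * z)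
  βj : ∀ x, β (j • x) = (β x).map (fun z => c - z)
  βτ : ∀ x, β (τ • x) = mobInv lam (β x)

end Pool.Agent.H.MP_6268b4_co
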