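import Pool.Agent.H.MP_6268b4_co.F4CDefs

/-!
The element `j * σ` in coordinates.
-/

namespace Pool.Agent.H.MP_6268b4_co

variable {G Ω F : Type*} [Group G] [MulAction G Ω] [Field F] [Fintype F] [DecidableEq F]
  {v w : Ω} {τ j σ : G} {ω lam : F} {β : Ω ≃ Option F}

/-- Half of the order: `ω ^ (r / 2) = -1`. -/
theorem f4d1_half (h4 : 4 ∣ orderOf ω) (h0 : 0 < orderOf ω) :
    ω ^ (orderOf ω / 2) = -1 ∧ (-1 : F) ≠ 1 := by
  obtain ⟨m, hm⟩ := h4
  have hr : orderOf ω / 2 = 2 * m := by omega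
  have hm0 : 0 < m := by omega
  have h1 : ω ^ (orderOf ω / 2) ≠ 1 := by
    intro h
    have := orderOf_dvd_of_pow_eq_one h
    have := Nat.le_of_dvd (by omega) this
    omega
  have h2 : ω ^ (orderOf ω / 2) * ω ^ (orderOf ω / 2) = 1 := by
    rw [← pow_add, show orderOf ω / 2 + orderOf ω / 2 = orderOf ω by omega, pow_orderOf_eq_one]
  rcases mul_self_eq_one_iff.1 h2 with h3 | h3
  · exact absurd h3 h1
  · exact ⟨h3, by rw [← h3]; exact h1⟩

/-- Job F4D1-2. -/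
theorem fd_neg (h4 : 4 ∣ orderOf ω) (h0 : 0 < orderOf ω) :
    orderOf (-ω) = orderOf ω ∧ (∀ i : ℕ, ∃ k : ℕ, ω ^ i = (-ω) ^ k) ∧
      (∃ k : ℕ, (-ω) ^ k = -1) ∧ ∃ k : ℕ, (-1 : F) = ω ^ k := by
  obtain ⟨h1, h2⟩ := f4d1_half h4 h0
  obtain ⟨m, hm⟩ := h4
  have hr : orderOf ω / 2 = 2 * m := by omega
  rw [hr] at h1
  have hev : Even (2 * m) := ⟨m, by ring⟩
  have h3 : (-ω) ^ (2 * m) = -1 := by rw [hev.neg_pow, h1]
  have h4 : -ω = ω ^ (1 + 2 * m) := by rw [pow_add, h1, pow_one]; ring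
  have h5 : ω = (-ω) ^ (1 + 2 * m) := by rw [pow_add, h3, pow_one]; ring
  refine ⟨?_, ?_, ⟨2 * m, h3⟩, ⟨2 * m, h1.symm⟩⟩
  · apply Nat.dvd_antisymm
    · have := orderOf_pow_dvd (x := ω) (1 + 2 * m)
      rwa [← h4] at this
    · have := orderOf_pow_dvd (x := -ω) (1 + 2 * m)
      rwa [← h5] at this
  · intro i
    refine ⟨(1 + 2 * m) * i, ?_⟩
    rw [pow_mul, ← h5]

/-- Job F4D1-1. -/
theorem fd_ω [Finite G] (h : QHyp v w τ j σ) (hc : FCoord v w τ j σ (1 + ω) ω lam β) :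
    4 ∣ orderOf ω ∧ 0 < orderOf ω ∧ ω ≠ 1 ∧ 1 + ω ≠ 0 ∧ ω * ω ≠ 1 ∧ (2 : F) ≠ 0 ∧ lam ≠ 0 := by
  have h4 : 4 ∣ orderOf ω := by rw [hc.ord]; exact h.four
  have h0 : 0 < orderOf ω := by rw [hc.ord]; exact orderOf_pos σ
  have hsq : ω * ω ≠ 1 := by
    intro hh
    have h1 : ω ^ 2 = 1 := by rw [pow_two]; exact hh
    have := Nat.le_of_dvd (by norm_num) (orderOf_dvd_of_pow_eq_one h1)
    have := Nat.le_of_dvd h0 h4
    omega
  obtain ⟨-, h2⟩ := f4d1_half h4 h0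
  refine ⟨h4, h0, ?_, ?_, hsq, ?_, ?_⟩
  · rintro h1
    apply hsq
    rw [h1, one_mul]
  · intro h1
    apply hsq
    have : ω = -1 := by linear_combination h1
    rw [this]; ring
  · intro h1
    apply h2
    linear_combination -h1
  · obtain ⟨i, hi⟩ := hc.lamD
    rw [hi]
    exact pow_ne_zero _ hc.ω0

theorem f4d1_step (hc : FCoord v w τ j σ (1 + ω) ω lam β) (x : Ω) :
    β ((j * σ) • x) = (β x).map (fun z => 1 + (-ω) * (z - 1)) := by
  rw [mul_smul, hc.βj, hc.βσ, Option.map_map]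
  congr 1
  funext z
  simp only [Function.comp]
  ring

/-- Job F4D1-3. `(j * σ) ^ i` is `z ↦ 1 + (-ω) ^ i * (z - 1)`. -/
theorem fd_pow (hc : FCoord v w τ j σ (1 + ω) ω lam β) (i : ℕ) (x : Ω) :
    β ((j * σ) ^ i • x) = (β x).map (fun z => 1 + (-ω) ^ i * (z - 1)) := by
  induction i with
  | zero =>
    rw [pow_zero, one_smul]
    have : (fun z : F => 1 + (-ω) ^ 0 * (z - 1)) = id := by
      funext z
      simp
    rw [this, Option.map_id]
    rfl
  | succ i ih =>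
    rw [pow_succ', mul_smul, f4d1_step hc, ih, Option.map_map]
    congr 1
    funext z
    simp only [Function.comp]
    rw [pow_succ]
    ring

theorem f4d1_exists_pow [Finite G] {g : G} (hg : g ∈ Subgroup.zpowers (j * σ)) :
    ∃ i : ℕ, (j * σ) ^ i = g := by
  rw [← mem_powers_iff_mem_zpowers] at hg
  obtain ⟨i, hi⟩ := hg
  exact ⟨i, hi⟩

theorem f4d1_triv [FaithfulSMul G Ω] (hc : FCoord v w τ j σ (1 + ω) ω lam β)
    {i : ℕ} (hi : (-ω) ^ i = 1) : (j * σ) ^ i = 1 := by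
  apply FaithfulSMul.eq_of_smul_eq_smul (α := Ω)
  intro x
  apply β.injective
  rw [fd_pow hc, hi, one_smul]
  have : (fun z : F => 1 + 1 * (z - 1)) = id := by
    funext z
    simp
  rw [this, Option.map_id]
  rfl

/-- Job F4D1-4. -/
theorem fd_fix [Finite G] [FaithfulSMul G Ω] (hc : FCoord v w τ j σ (1 + ω) ω lam β) {g : G}
    (hg : g ∈ Subgroup.zpowers (j * σ)) {x : Ω} {z : F} (hx : β x = some z) (hz : z ≠ 1)
    (hgx : g • x = x) : g = 1 := by
  obtain ⟨i, rfl⟩ := f4d1_exists_pow hg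
  apply f4d1_triv hc
  have h1 := fd_pow hc i x
  rw [hgx, hx, Option.map_some, Option.some_inj] at h1
  have h2 : z - 1 ≠ 0 := sub_ne_zero.2 hz
  have h3 : (-ω) ^ i * (z - 1) = 1 * (z - 1) := by linear_combination -h1
  exact mul_right_cancel₀ h2 h3

/-- Job F4D1-5. Elements of square one. -/
theorem fd_sq [Finite G] [FaithfulSMul G Ω] (hc : FCoord v w τ j σ (1 + ω) ω lam β) {g : G}
    (hg : g ∈ Subgroup.zpowers (j * σ)) (hgg : g * g = 1) :
    g = 1 ∨ ∀ x, β (g • x) = (β x).map (fun z => 2 - z) := by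
  obtain ⟨i, rfl⟩ := f4d1_exists_pow hg
  have h1 : (j * σ) ^ (i + i) = 1 := by rw [pow_add]; exact hgg
  have h2 := fd_pow hc (i + i) w
  rw [h1, one_smul, hc.βw, Option.map_some, Option.some_inj] at h2
  have h3 : (-ω) ^ i * (-ω) ^ i = 1 := by
    rw [← pow_add]
    linear_combination h2
  rcases mul_self_eq_one_iff.1 h3 with h4 | h4
  · exact Or.inl (f4d1_triv hc h4)
  · right
    intro x
    rw [fd_pow hc, h4]
    congr 1
    funext z
    ring

/-- Job F4D1-6. The involution in `zpowers (j * σ)`. -/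
theorem fd_z0 [Finite G] [FaithfulSMul G Ω] (h : QHyp v w τ j σ)
    (hc : FCoord v w τ j σ (1 + ω) ω lam β) :
    ∃ z0 ∈ Subgroup.zpowers (j * σ), IsInv z0 ∧ ∀ x, β (z0 • x) = (β x).map (fun z => 2 - z) := by
  obtain ⟨h4, h0, -, -, -, h2, -⟩ := fd_ω h hc
  obtain ⟨-, -, ⟨k, hk⟩, -⟩ := fd_neg h4 h0
  have hx : ∀ x, β ((j * σ) ^ k • x) = (β x).map (fun z => 2 - z) := by
    intro x
    rw [fd_pow hc, hk]
    congr 1
    funext z
    ring
  refine ⟨(j * σ) ^ k, Subgroup.npow_mem_zpowers _ _, ⟨?_, ?_⟩, hx⟩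
  · intro h1
    have h5 := hx w
    rw [h1, one_smul, hc.βw, Option.map_some, Option.some_inj] at h5
    apply h2
    linear_combination -h5
  · rw [← pow_add]
    apply f4d1_triv hc
    rw [pow_add, hk]
    ring

/-- Job F4D1-7. Orbits of `zpowers (j * σ)`. -/
theorem fd_orb [Finite G] (h : QHyp v w τ j σ) (hc : FCoord v w τ j σ (1 + ω) ω lam β)
    {x y : Ω} {z z' : F} (hx : β x = some z) (hy : β y = some z') {i : ℕ}
    (hi : z' - 1 = ω ^ i * (z - 1)) : ∃ g ∈ Subgroup.zpowers (j * σ), g • x = y := by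
  obtain ⟨h4, h0, -, -, -, -, -⟩ := fd_ω h hc
  obtain ⟨-, h5, -, -⟩ := fd_neg h4 h0
  obtain ⟨k, hk⟩ := h5 i
  refine ⟨(j * σ) ^ k, Subgroup.npow_mem_zpowers _ _, ?_⟩
  apply β.injective
  rw [fd_pow hc, hx, hy, Option.map_some, Option.some_inj, ← hk]
  linear_combination -hi

end Pool.Agent.H.MP_6268b4_co
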