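import Pool.Agent.H.MP_6268b4_co.F4D1

/-!
The facet stabilizer `S`, first case: the point with coordinate `1` is in the orbit of `v`.
-/

namespace Pool.Agent.H.MP_6268b4_co

variable {G Ω F : Type*} [Group G] [MulAction G Ω] [Field F] [Fintype F] [DecidableEq F]
  {v w : Ω} {τ j σ : G} {ω lam : F} {β : Ω ≃ Option F}

/-- The elements of `zpowers (j * σ)` fix the point with coordinate `1`. -/
theorem f4d2_fix (hc : FCoord v w τ j σ (1 + ω) ω lam β) {x : Ω} (hx : β x = some 1) {g : G}
    (hg : g ∈ Subgroup.zpowers (j * σ)) : g • x = x := by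
  have h1 : (j * σ) • x = x := by
    apply β.injective
    have h2 := fd_pow hc 1 x
    rw [pow_one] at h2
    rw [h2, hx]
    simp
  have h2 : Subgroup.zpowers (j * σ) ≤ MulAction.stabilizer G x := by
    rw [Subgroup.zpowers_le]
    exact h1
  exact h2 hg

/-- Job F4D2-1. Let `p = s • v` be the point with coordinate `1`.

Proof. Let `ρ = j * σ`, `R = zpowers ρ`. `ρ` fixes `v` and `p` (`fd_pow` with `i = 1`, coordinate `1`), and
no other point: `1 - ω (z - 1) = z` gives `(1 + ω) (z - 1) = 0`, `z = 1`. If `g ∈ S` fixes `p` then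
`s⁻¹ * g * s ∈ S` fixes `v`, so it is in `R`; i.e. `g ∈ s R s⁻¹`. In particular `ρ ∈ s R s⁻¹`, so
`R ≤ s R s⁻¹`, and both have the same order, so `R = s R s⁻¹` (use `Subgroup.map` by the conjugation
`MulAut.conj s`, or argue with `cmaina_cyc` or `f4_mem`-like statements: two elements of the cyclic group
`s R s⁻¹` of the same order generate the same subgroup). This gives the first claim. Also
`s⁻¹ * ρ * s ∈ R`, so it fixes `p = s • v`: `ρ • s • s • v = s • s • v`. So `s • s • v` is `v` or `p`, and it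
is not `p = s • v` since `s • v ≠ v` (`β v = none`). -/
theorem fd_p [Finite G] [FaithfulSMul G Ω] (h : QHyp v w τ j σ)
    (hc : FCoord v w τ j σ (1 + ω) ω lam β) (S : Subgroup G) (hjσ : j * σ ∈ S)
    (hS : ∀ g ∈ S, g • v = v → g ∈ Subgroup.zpowers (j * σ)) {s : G} (hs : s ∈ S)
    (hs1 : β (s • v) = some 1) :
    (∀ g ∈ S, g • s • v = s • v → g ∈ Subgroup.zpowers (j * σ)) ∧ s • s • v = v := by
  have hp := f4d2_fix hc hs1 (Subgroup.mem_zpowers (j * σ))
  have hconj : ∀ g ∈ S, g • s • v = s • v → s⁻¹ * g * s ∈ Subgroup.zpowers (j * σ) := by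
    intro g hg hgp
    apply hS _ (S.mul_mem (S.mul_mem (S.inv_mem hs) hg) hs)
    rw [mul_smul, mul_smul, hgp, inv_smul_smul]
  have hρ := hconj _ hjσ hp
  have ho : orderOf (s⁻¹ * (j * σ) * s) = orderOf (j * σ) := by
    have h1 := orderOf_injective (MulAut.conj s⁻¹).toMonoidHom (MulAut.conj s⁻¹).injective (j * σ)
    simpa [MulAut.conj_apply] using h1
  have hmem : j * σ ∈ Subgroup.zpowers (s⁻¹ * (j * σ) * s) :=
    cmaina_cyc hρ (Subgroup.mem_zpowers _) ho
  have hle : Subgroup.zpowers (j * σ) ≤ Subgroup.zpowers (s⁻¹ * (j * σ) * s) := by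
    rw [Subgroup.zpowers_le]
    exact hmem
  refine ⟨?_, ?_⟩
  · intro g hg hgp
    obtain ⟨i, hi⟩ := Subgroup.mem_zpowers_iff.1 (hle (hconj g hg hgp))
    have h1 : (s⁻¹ * (j * σ) * s) ^ i = s⁻¹ * (j * σ) ^ i * s := by
      have h2 := conj_zpow (i := i) (a := s⁻¹) (b := j * σ)
      rwa [inv_inv] at h2
    rw [h1] at hi
    have h2 : (j * σ) ^ i = g := mul_left_cancel (mul_right_cancel hi)
    rw [← h2]
    exact Subgroup.zpow_mem_zpowers _ i
  · have h1 : (s⁻¹ * (j * σ) * s) • s • v = s • v := f4d2_fix hc hs1 hρ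
    rw [mul_smul, mul_smul, inv_smul_eq_iff] at h1
    cases hx : β (s • s • v) with
    | none => exact β.injective (hx.trans hc.βv.symm)
    | some z =>
      exfalso
      have h2 := fd_pow hc 1 (s • s • v)
      rw [pow_one, pow_one, h1, hx, Option.map_some] at h2
      have h3 : z = 1 + -ω * (z - 1) := Option.some.inj h2
      obtain ⟨-, -, -, h4, -⟩ := fd_ω h hc
      have h5 : (1 + ω) * (z - 1) = 0 := by linear_combination h3
      have h6 : z = 1 := by
        rcases mul_eq_zero.1 h5 with h6 | h6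
        · exact absurd h6 h4
        · exact sub_eq_zero.1 h6
      rw [h6, ← hs1] at hx
      have h7 : s • s • v = s • v := β.injective hx
      have h8 : s • v = v := smul_left_cancel s h7
      rw [h8, hc.βv] at hs1
      exact absurd hs1 (by simp)

/-- Job F4D2-2. Let `p = s • v` be the point with coordinate `1`. The pair `g • v`, `g • p`.

Proof. (a) `g⁻¹ * g'` fixes `v`, so it is in `zpowers (j * σ)` and fixes `p` (coordinate 1, `fd_pow`).
(b) `g • v = g' • s • v = (g' * s) • v`, so by (a) `g • s • v = (g' * s) • s • v = g' • (s • s • v) = g' • v`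
(`fd_p`). -/
theorem fd_pair [Finite G] [FaithfulSMul G Ω] (h : QHyp v w τ j σ)
    (hc : FCoord v w τ j σ (1 + ω) ω lam β) (S : Subgroup G) (hjσ : j * σ ∈ S)
    (hS : ∀ g ∈ S, g • v = v → g ∈ Subgroup.zpowers (j * σ)) {s : G} (hs : s ∈ S)
    (hs1 : β (s • v) = some 1) {g g' : G} (hg : g ∈ S) (hg' : g' ∈ S) :
    (g • v = g' • v → g • s • v = g' • s • v) ∧
    (g • v = g' • s • v → g • s • v = g' • v) := by
  have key : ∀ a ∈ S, ∀ b ∈ S, a • v = b • v → a • s • v = b • s • v := by
    intro a ha b hb hab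
    have h1 : a⁻¹ * b ∈ Subgroup.zpowers (j * σ) := by
      apply hS _ (S.mul_mem (S.inv_mem ha) hb)
      rw [mul_smul, ← hab, inv_smul_smul]
    have h2 := f4d2_fix hc hs1 h1
    rw [mul_smul, inv_smul_eq_iff] at h2
    exact h2.symm
  refine ⟨key g hg g' hg', ?_⟩
  intro h1
  rw [← mul_smul] at h1
  have h2 := key g hg (g' * s) (S.mul_mem hg' hs) h1
  rw [h2, mul_smul, (fd_p h hc S hjσ hS hs hs1).2]

end Pool.Agent.H.MP_6268b4_co
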