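import Pool.Agent.H.MP_6268b4_co.F4D2
import Pool.Agent.H.MP_6268b4_co.F4C4
import Pool.Agent.H.MP_6268b4_co.F4C8

/-!
The facet stabilizer `S`, first case, second part: `lam = 2` and `ω` has order 4.
-/

namespace Pool.Agent.H.MP_6268b4_co

variable {G Ω F : Type*} [Group G] [MulAction G Ω] [Field F] [Fintype F] [DecidableEq F]
  {v w : Ω} {τ j σ : G} {ω lam : F} {β : Ω ≃ Option F}

theorem f4d3_not_pow {F : Type*} [Field F] [Fintype F] [DecidableEq F] {ω : F} (hω : ω ≠ 0)
    (hpos : 0 < orderOf ω)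
    (hcard : Fintype.card F = orderOf ω + 1 ∨ Fintype.card F = 2 * orderOf ω + 1) {x : F}
    (hx0 : x ≠ 0) (hx : ∀ l : ℕ, x ≠ ω ^ l) : Fintype.card F = 2 * orderOf ω + 1 := by
  rcases hcard with h1 | h1
  · exfalso
    have h2 : insert 0 ((Finset.range (orderOf ω)).image (fun i => ω ^ i)) = Finset.univ := by
      rw [← Finset.card_eq_iff_eq_univ, f4c8_card hω, h1]
    have h3 := (f4c8_mem hpos x).1 (by rw [h2]; exact Finset.mem_univ x)
    rcases h3 with h3 | ⟨l, hl⟩
    · exact hx0 h3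
    · exact hx l hl
  · exact h1

theorem f4d3_fixv (h : QHyp v w τ j σ) {g : G} (hg : g ∈ Subgroup.zpowers (j * σ)) : g • v = v := by
  have h1 : Subgroup.zpowers (j * σ) ≤ MulAction.stabilizer G v := by
    rw [Subgroup.zpowers_le, MulAction.mem_stabilizer_iff, mul_smul, h.σv, h.jv]
  exact MulAction.mem_stabilizer_iff.1 (h1 hg)

theorem f4d3_stabcard [Finite G] (h : QHyp v w τ j σ) :
    Nat.card {g : G // g • v = v ∧ g • w = w} = orderOf σ := by
  rw [← Nat.card_zpowers]
  refine Nat.card_congr (Equiv.subtypeEquivRight fun g => ⟨fun hg => h.stab2 g hg.1 hg.2,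
    fun hg => ?_⟩)
  have h1 : Subgroup.zpowers σ ≤ MulAction.stabilizer G v := by
    rw [Subgroup.zpowers_le, MulAction.mem_stabilizer_iff, h.σv]
  have h2 : Subgroup.zpowers σ ≤ MulAction.stabilizer G w := by
    rw [Subgroup.zpowers_le, MulAction.mem_stabilizer_iff, h.σw]
  exact ⟨MulAction.mem_stabilizer_iff.1 (h1 hg), MulAction.mem_stabilizer_iff.1 (h2 hg)⟩

theorem f4d3_mob {lam z : F} (hz : z ≠ 0) : mobInv lam (some z) = some (lam / z) := by
  simp [mobInv, hz]

/-- Job F4D3-1.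

Proof. Let `ρ = j * σ`, `R = zpowers ρ`, `p = s • v` (coordinate 1), `u = τ • p`; its coordinate is
`lam / 1 = lam` (`hc.βτ`). Let `z0` be as in `fd_z0`, `z0 • w` has coordinate `2 - 0 = 2`. We show
`u = z0 • w`; then `lam = 2`.
`u ≠ v` (else `p = τ • v = w`, coordinates `1 ≠ 0`); `u ≠ p`: if `τ • p = p` then by `fd_p` `τ ∈ R` and `τ`
fixes `v`, but `τ • v = w`.
Case 1: `u = g₁ • w` with `g₁ ∈ R`. Take `g = g₁ * τ`, `g' = τ` in `fd_pair` (b): `g • v = g₁ • w = u =
g' • p`, so `g • p = g' • v`, i.e. `g₁ • u = w`, `(g₁ * g₁) • w = w`. `w` has coordinate `0 ≠ 1`, so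
`g₁ * g₁ = 1` (`fd_fix`). By `fd_sq` `g₁ = 1` or `g₁` acts like `z0`. In the first case
`τ • p = w = τ • v` and `p = v`, contradiction. In the second case `u = g₁ • w` has coordinate 2.
Case 2: there is no such `g₁`. Then `u` has coordinate `lam`, and `lam - 1 ≠ 0` (`u ≠ p`) is not a power of
`ω` (else `fd_orb` with `x = w`, `y = u`: `lam - 1 = ω ^ i * (0 - 1)` for a suitable `i`, since `-1` is a
power of `ω`, `fd_neg`). So `Fintype.card F ≠ orderOf ω + 1`, i.e. `Fintype.card F = 2 * orderOf ω + 1`,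
(if `Fintype.card F = orderOf ω + 1` every nonzero element is a power of `ω`; count). So
`Nat.card Ω = Fintype.card F + 1 = 2 * orderOf σ + 2` and by `z_card` (with `x = v`, `y = w`,
`r = orderOf σ`, the stabilizer of `v`, `w` being `zpowers σ`) every involution has a fixed point (the
first alternative would give `2 * r + 2 = r + 2`). Every point `c` different from `v` and `p` is of the
form `g₁ • w` or `g₁ • u` with `g₁ ∈ R`: if `z ≠ 1` is the coordinate of `c` then `z - 1` is a power of `ω`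
(then `fd_orb` from `w`) or not (then `z - 1 = ω ^ i * (lam - 1)` by `z_coset`, `fd_orb` from `u`).
Now `s` interchanges `v` and `p` (`fd_p`), so it is an involution (`hz.swap`), and it has a fixed point
`c`; `c ≠ v, p`. Let `z0` be the involution in `R`. `s` and `s * z0` both interchange `v` and `p`
(`z0` fixes both), so `s * z0 * s * z0 = 1` and `s`, `z0` commute. If `c = g₁ • w = (g₁ * τ) • v`: put
`g = g₁ * τ ∈ S`, `c' = g • p = g₁ • u`. If `c = g₁ • u = (g₁ * τ * s) • v`: put `g = g₁ * τ * s`,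
`c' = g • p = g₁ • w` (`s • p = v`). In both cases `s • c = c`, so by `fd_pair` (a) for `s * g` and `g`:
`s • c' = c'`. Also `s` fixes `z0 • c` (`s`, `z0` commute), `z0 • c ≠ c` (`c ≠ v, p`, `fd_fix`), and
`c' ≠ c` (`g • p ≠ g • v`). By `z_fix_two` (or `hz.three`) `s` has only two fixed points, so
`z0 • c = c'`. In the first case `z0 • g₁ • w = g₁ • u`, so `u = (g₁⁻¹ * z0 * g₁) • w`, in the second case
`z0 • g₁ • u = g₁ • w`, `u = (g₁⁻¹ * z0⁻¹ * g₁) • w`: contradiction to the assumption of case 2. -/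
theorem fd_lam2 [Finite G] [Finite Ω] [FaithfulSMul G Ω] (h : QHyp v w τ j σ)
    (hz : ZHyp G Ω) (hc : FCoord v w τ j σ (1 + ω) ω lam β) (S : Subgroup G) (hτ : τ ∈ S)
    (hjσ : j * σ ∈ S) (hS : ∀ g ∈ S, g • v = v → g ∈ Subgroup.zpowers (j * σ)) {s : G}
    (hs : s ∈ S) (hs1 : β (s • v) = some 1) : lam = 2 := by
  classical
  obtain ⟨h4, hpos, hω1, h1ω, hωω, h2F, hlam0⟩ := fd_ω h hc
  obtain ⟨-, -, -, k1, hk1⟩ := fd_neg (ω := ω) h4 hpos
  obtain ⟨z0, hz0R, hz0i, hz0β⟩ := fd_z0 h hc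
  have hRS : Subgroup.zpowers (j * σ) ≤ S := by
    rw [Subgroup.zpowers_le]
    exact hjσ
  obtain ⟨p, hp⟩ : ∃ p, p = s • v := ⟨_, rfl⟩
  obtain ⟨u, hu⟩ : ∃ u, u = τ • p := ⟨_, rfl⟩
  have hβp : β p = some 1 := by rw [hp]; exact hs1
  have hβu : β u = some lam := by
    rw [hu, hc.βτ, hβp, f4d3_mob one_ne_zero, div_one]
  have hpv : p ≠ v := by
    intro e
    rw [e, hc.βv] at hβp
    exact absurd hβp (by simp)
  obtain ⟨hfp, hssv⟩ := fd_p h hc S hjσ hS hs hs1
  rw [← hp] at hfp hssv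
  by_cases hcase : ∃ g₁ ∈ Subgroup.zpowers (j * σ), g₁ • w = u
  · obtain ⟨g₁, hg₁, hg₁w⟩ := hcase
    have hg : g₁ * τ ∈ S := mul_mem (hRS hg₁) hτ
    have h1 := (fd_pair h hc S hjσ hS hs hs1 hg hτ).2 (by
      rw [mul_smul, h.τv, hg₁w, hu, hp])
    rw [← hp, mul_smul, ← hu, h.τv] at h1
    have h2 : (g₁ * g₁) • w = w := by rw [mul_smul, hg₁w, h1]
    have h3 : g₁ * g₁ = 1 := fd_fix hc (mul_mem hg₁ hg₁) hc.βw zero_ne_one h2
    rcases fd_sq hc hg₁ h3 with h5 | h5
    · exfalso
      rw [h5, one_smul] at hg₁w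
      have h6 : τ • v = τ • p := by rw [h.τv, hg₁w, hu]
      exact hpv (MulAction.injective τ h6).symm
    · have h6 := h5 w
      rw [hg₁w, hβu, hc.βw] at h6
      simp only [Option.map_some, sub_zero, Option.some.injEq] at h6
      exact h6
  · exfalso
    have hup : u ≠ p := by
      intro e
      have h1 : τ • p = p := by rw [← hu, e]
      have h2 := f4d3_fixv h (hfp τ hτ h1)
      rw [h.τv] at h2
      exact h.vw h2.symm
    have hlam1 : lam - 1 ≠ 0 := by
      intro e
      apply hup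
      apply β.injective
      rw [hβu, hβp, sub_eq_zero.1 e]
    have hlamP : ∀ i : ℕ, lam - 1 ≠ ω ^ i := by
      intro i hi
      apply hcase
      refine fd_orb h hc hc.βw hβu (i := i + k1) ?_
      rw [pow_add, ← hk1, hi]
      ring
    have hcard := f4d3_not_pow hc.ω0 hpos hc.card hlam1 hlamP
    have hΩ : Nat.card Ω = 2 * orderOf σ + 2 := by
      rw [Nat.card_congr β, Nat.card_eq_fintype_card, Fintype.card_option, hcard, hc.ord]
    have hσpos : 0 < orderOf σ := by rw [← hc.ord]; exact hpos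
    have hfix : ∀ t : G, IsInv t → ∃ c : Ω, t • c = c := by
      rcases z_card hz (by omega) h.vw (f4d3_stabcard h) with h1 | h1
      · omega
      · exact h1.2
    have horb : ∀ c : Ω, c ≠ v → c ≠ p → (∃ g₁ ∈ Subgroup.zpowers (j * σ), g₁ • w = c) ∨
        ∃ g₁ ∈ Subgroup.zpowers (j * σ), g₁ • u = c := by
      intro c hcv hcp
      cases hβc : β c with
      | none =>
        exfalso
        apply hcv
        apply β.injective
        rw [hβc, hc.βv]
      | some z =>
        have hz1 : z - 1 ≠ 0 := by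
          intro e
          apply hcp
          apply β.injective
          rw [hβc, hβp, sub_eq_zero.1 e]
        by_cases hzP : ∃ i : ℕ, z - 1 = ω ^ i
        · left
          obtain ⟨i, hi⟩ := hzP
          refine fd_orb h hc hc.βw hβc (i := i + k1) ?_
          rw [pow_add, ← hk1, hi]
          ring
        · right
          push Not at hzP
          obtain ⟨i, hi⟩ := z_coset hc.ω0 hcard hz1 hlam1 hzP hlamP
          exact fd_orb h hc hβu hβc hi
    have hsv : s • v = p := hp.symm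
    have hss : s * s = 1 := hz.swap v p s (Ne.symm hpv) hsv hssv
    have hs1' : s ≠ 1 := by
      rintro rfl
      rw [one_smul] at hsv
      exact hpv hsv.symm
    have hsi : IsInv s := ⟨hs1', hss⟩
    obtain ⟨c, hcs⟩ := hfix s hsi
    have hcv : c ≠ v := by
      rintro rfl
      rw [hsv] at hcs
      exact hpv hcs
    have hcp : c ≠ p := by
      rintro rfl
      rw [hssv] at hcs
      exact hpv hcs.symm
    have hz0v : z0 • v = v := f4d3_fixv h hz0R
    have hz0p : z0 • p = p := by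
      apply β.injective
      rw [hz0β, hβp]
      norm_num
    have hcomm : s * z0 = z0 * s := by
      have h1 : (s * z0) * (s * z0) = 1 := hz.swap v p (s * z0) (Ne.symm hpv)
        (by rw [mul_smul, hz0v, hsv]) (by rw [mul_smul, hz0p, hssv])
      have h2 : s * z0 = (s * z0)⁻¹ := eq_inv_of_mul_eq_one_left h1
      have h3 : z0⁻¹ = z0 := inv_eq_of_mul_eq_one_left hz0i.2
      have h5 : s⁻¹ = s := inv_eq_of_mul_eq_one_left hss
      rw [mul_inv_rev, h3, h5] at h2
      exact h2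
    have hz0c : z0 • c ≠ c := by
      intro e
      cases hβc : β c with
      | none =>
        apply hcv
        apply β.injective
        rw [hβc, hc.βv]
      | some z =>
        have hz1 : z ≠ 1 := by
          intro e1
          apply hcp
          apply β.injective
          rw [hβc, hβp, e1]
        exact hz0i.1 (fd_fix hc hz0R hβc hz1 e)
    have hsz0c : s • (z0 • c) = z0 • c := by
      rw [← mul_smul, hcomm, mul_smul, hcs]
    -- the second fixed point
    have key : ∀ g ∈ S, g • v = c → g • p = z0 • c := by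
      intro g hg hgv
      have h1 := (fd_pair h hc S hjσ hS hs hs1 (mul_mem hs hg) hg).1 (by
        rw [mul_smul, hgv, hcs])
      rw [← hp, mul_smul] at h1
      have h2 : g • p ≠ c := by
        intro e
        rw [← hgv] at e
        exact hpv (MulAction.injective g e)
      obtain ⟨d, _, _, hd⟩ := z_fix_two hz hsi hcp hcs
      have h3 : g • p = d := (hd _ h1).resolve_left h2
      have h5 : z0 • c = d := (hd _ hsz0c).resolve_left hz0c
      rw [h3, h5]
    rcases horb c hcv hcp with ⟨g₁, hg₁, hg₁c⟩ | ⟨g₁, hg₁, hg₁c⟩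
    · have h1 := key (g₁ * τ) (mul_mem (hRS hg₁) hτ) (by rw [mul_smul, h.τv, hg₁c])
      rw [mul_smul, ← hu, ← hg₁c] at h1
      apply hcase
      refine ⟨g₁⁻¹ * z0 * g₁, mul_mem (mul_mem (inv_mem hg₁) hz0R) hg₁, ?_⟩
      rw [mul_smul, mul_smul, ← h1, inv_smul_smul]
    · have h1 := key (g₁ * τ * s) (mul_mem (mul_mem (hRS hg₁) hτ) hs) (by
        rw [mul_smul, mul_smul, hsv, ← hu, hg₁c])
      rw [mul_smul, mul_smul, hssv, h.τv, ← hg₁c] at h1
      apply hcase
      refine ⟨g₁⁻¹ * z0⁻¹ * g₁, mul_mem (mul_mem (inv_mem hg₁) (inv_mem hz0R)) hg₁, ?_⟩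
      rw [mul_smul, mul_smul, h1, inv_smul_smul, inv_smul_smul]

/-- Job F4D3-2.

Proof. Let `ρ = j * σ`, `p = s • v` (coordinate 1). `τ • v = w` has coordinate 0 and `τ • p` coordinate
`lam / 1 = 2`. So for `k : ℕ`, `g = ρ ^ k * τ ∈ S` maps `v` to the point with coordinate `1 - (-ω) ^ k` and
`p` to the point with coordinate `1 + (-ω) ^ k` (`fd_pow`). For `k = 1` these are `1 + ω` and `1 - ω`. Both
are nonzero, so `g₁ = τ * ρ * τ` maps `v, p` to the points with coordinates `2 / (1 + ω) = 1 + a` and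
`2 / (1 - ω) = 1 + 1 / a`, where `a = (1 - ω) / (1 + ω) ≠ 0`. We claim `a ^ 2 = -1`.
If `a` is a power of `ω`: then `-a = (-ω) ^ k` for some `k` (`fd_neg`), and `g = ρ ^ k * τ` maps `v, p` to the
points with coordinates `1 + a`, `1 - a`; by `fd_pair` (a) `1 + 1 / a = 1 - a`, `a ^ 2 = -1`.
If `a` is not a power of `ω`: then also `1 / a` is not, `Fintype.card F = 2 * orderOf ω + 1` (in the other
case every nonzero element is a power of `ω`) and `1 / a = d * a` with `d` a power of `ω` (`z_coset`), hence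
`d = (-ω) ^ m` (`fd_neg`). `g = ρ ^ m * g₁` maps `v` to the point `1 + d a = 1 + 1 / a` and `p` to the point
`1 + d / a`. So `g • v = g₁ • p`, and by `fd_pair` (b) `g • p = g₁ • v`, i.e. `1 + d / a = 1 + a`, `d = a ^ 2`.
So `1 / a = a ^ 3`, `a ^ 4 = 1`, `a ^ 2 = 1` or `a ^ 2 = -1`. If `a = 1` then `1 - ω = 1 + ω`, `2 ω = 0`; if
`a = -1` then `1 - ω = -1 - ω`, `2 = 0`; both impossible. So `a ^ 2 = -1`.
Now `(1 - ω) ^ 2 = - (1 + ω) ^ 2`, `2 + 2 ω ^ 2 = 0`, `ω ^ 2 = -1`, `ω ^ 4 = 1`, so `orderOf ω ∣ 4`, and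
`4 ∣ orderOf ω`. -/
theorem fd_ord4 [Finite G] [FaithfulSMul G Ω] (h : QHyp v w τ j σ)
    (hc : FCoord v w τ j σ (1 + ω) ω lam β) (S : Subgroup G) (hτ : τ ∈ S)
    (hjσ : j * σ ∈ S) (hS : ∀ g ∈ S, g • v = v → g ∈ Subgroup.zpowers (j * σ)) {s : G}
    (hs : s ∈ S) (hs1 : β (s • v) = some 1) (hlam : lam = 2) : orderOf ω = 4 := by
  classical
  obtain ⟨h4, hpos, hω1, h1ω, hωω, h2F, hlam0⟩ := fd_ω h hc
  obtain ⟨-, hneg, ⟨k0, hk0⟩, k1, hk1⟩ := fd_neg (ω := ω) h4 hpos
  have h1mω : (1 : F) - ω ≠ 0 := by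
    intro e
    exact hω1 (sub_eq_zero.1 e).symm
  have hβτp : β (τ • s • v) = some 2 := by
    rw [hc.βτ, hs1, f4d3_mob one_ne_zero, div_one, hlam]
  have hβτv : β (τ • v) = some 0 := by rw [h.τv, hc.βw]
  have hρS : ∀ k : ℕ, (j * σ) ^ k ∈ S := fun k => pow_mem hjσ k
  have hgv : ∀ k : ℕ, β (((j * σ) ^ k * τ) • v) = some (1 - (-ω) ^ k) := by
    intro k
    rw [mul_smul, fd_pow hc, hβτv, Option.map_some]
    congr 1
    ring
  have hgp : ∀ k : ℕ, β (((j * σ) ^ k * τ) • s • v) = some (1 + (-ω) ^ k) := by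
    intro k
    rw [mul_smul, fd_pow hc, hβτp, Option.map_some]
    congr 1
    ring
  obtain ⟨a, ha⟩ : ∃ a : F, a = (1 - ω) / (1 + ω) := ⟨_, rfl⟩
  have ha0 : a ≠ 0 := by rw [ha]; exact div_ne_zero h1mω h1ω
  have hg1S : τ * ((j * σ) ^ 1 * τ) ∈ S := mul_mem hτ (mul_mem (hρS 1) hτ)
  have hg1v : β ((τ * ((j * σ) ^ 1 * τ)) • v) = some (1 + a) := by
    have h1 : (1 : F) - (-ω) ^ 1 ≠ 0 := by rw [pow_one, sub_neg_eq_add]; exact h1ω
    rw [mul_smul, hc.βτ, hgv, f4d3_mob h1, hlam, ha]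
    congr 1
    rw [pow_one, sub_neg_eq_add]
    field_simp
    ring
  have hg1p : β ((τ * ((j * σ) ^ 1 * τ)) • s • v) = some (1 + a⁻¹) := by
    have h1 : (1 : F) + (-ω) ^ 1 ≠ 0 := by rw [pow_one, ← sub_eq_add_neg]; exact h1mω
    rw [mul_smul, hc.βτ, hgp, f4d3_mob h1, hlam, ha]
    congr 1
    rw [pow_one, ← sub_eq_add_neg, inv_div]
    field_simp
    ring
  have hsq : a * a = -1 := by
    by_cases haP : ∃ i : ℕ, a = ω ^ i
    · obtain ⟨i, hi⟩ := haP
      obtain ⟨m, hm⟩ := hneg i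
      have hK : (-ω) ^ (m + k0) = -a := by
        rw [pow_add, hk0, ← hm, ← hi]
        ring
      have h1 := (fd_pair h hc S hjσ hS hs hs1 (mul_mem (hρS (m + k0)) hτ) hg1S).1 (by
        apply β.injective
        rw [hgv, hg1v, hK, sub_neg_eq_add])
      have h2 := congrArg β h1
      rw [hgp, hg1p, hK] at h2
      simp only [Option.some.injEq, add_right_inj] at h2
      have h3 : a * a⁻¹ = 1 := mul_inv_cancel₀ ha0
      rw [← h2] at h3
      linear_combination -h3
    · push Not at haP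
      have hinvP : ∀ l : ℕ, a⁻¹ ≠ ω ^ l := by
        intro l hl
        obtain ⟨k, hk⟩ := f4c8_inv hpos l
        apply haP k
        rw [← hk, ← hl, inv_inv]
      have hcard := f4d3_not_pow hc.ω0 hpos hc.card ha0 haP
      obtain ⟨i, hi⟩ := z_coset hc.ω0 hcard (inv_ne_zero ha0) ha0 hinvP haP
      obtain ⟨m, hm⟩ := hneg i
      obtain ⟨d, hd⟩ : ∃ d : F, d = ω ^ i := ⟨_, rfl⟩
      rw [← hd] at hi hm
      have h1 := (fd_pair h hc S hjσ hS hs hs1 (mul_mem (hρS m) hg1S) hg1S).2 (by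
        apply β.injective
        rw [mul_smul, fd_pow hc, hg1v, hg1p, Option.map_some, ← hm, hi]
        congr 1
        ring)
      have h2 := congrArg β h1
      rw [mul_smul, fd_pow hc, hg1p, hg1v, Option.map_some, ← hm] at h2
      simp only [Option.some.injEq, add_right_inj, add_sub_cancel_left] at h2
      have h3 : a * a⁻¹ = 1 := mul_inv_cancel₀ ha0
      have h5 : d = a * a := by
        calc d = d * (a * a⁻¹) := by rw [h3, mul_one]
          _ = a * (d * a⁻¹) := by ring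
          _ = a * a := by rw [h2]
      have h6 : (a * a) * (a * a) = 1 := by
        rw [hi, h5] at h3
        linear_combination h3
      rcases mul_self_eq_one_iff.1 h6 with h7 | h7
      · exfalso
        have h8 : a * (1 + ω) = 1 - ω := by rw [ha, div_mul_cancel₀ _ h1ω]
        rcases mul_self_eq_one_iff.1 h7 with h9 | h9
        · rw [h9, one_mul] at h8
          have h10 : 2 * ω = 0 := by linear_combination h8
          rcases mul_eq_zero.1 h10 with h11 | h11
          · exact h2F h11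
          · exact hc.ω0 h11
        · rw [h9] at h8
          exact h2F (by linear_combination -h8)
      · exact h7
  have h8 : a * (1 + ω) = 1 - ω := by rw [ha, div_mul_cancel₀ _ h1ω]
  have h9 : (1 - ω) * (1 - ω) = -((1 + ω) * (1 + ω)) := by
    rw [← h8]
    linear_combination (1 + ω) * (1 + ω) * hsq
  have h10 : (2 : F) * (1 + ω * ω) = 0 := by linear_combination h9
  have h11 : ω * ω = -1 := by
    rcases mul_eq_zero.1 h10 with h12 | h12
    · exact absurd h12 h2F
    · linear_combination h12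
  have h12 : ω ^ 4 = 1 := by
    calc ω ^ 4 = (ω * ω) * (ω * ω) := by ring
      _ = 1 := by rw [h11]; ring
  exact Nat.dvd_antisymm (orderOf_dvd_of_pow_eq_one h12) h4

end Pool.Agent.H.MP_6268b4_co
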