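import Pool.Agent.H.MP_6268b4_co.F4D1
import Pool.Agent.H.MP_6268b4_co.F4C8
import Pool.Agent.H.MP_6268b4_co.RSharpE

/-!
The facet stabilizer `S`, second case: the point with coordinate `1` is not in the orbit of `v`.
-/

namespace Pool.Agent.H.MP_6268b4_co

variable {G Ω F : Type*} [Group G] [MulAction G Ω] [Field F] [Fintype F] [DecidableEq F]
  {v w : Ω} {τ j σ : G} {ω lam : F} {β : Ω ≃ Option F}

/-- Job F4D4-1. The element `u = z0 * (τ * (z0 * τ))`.

Proof. For `v` (coordinate `none`): `τ`: `0`; `z0`: `2`; `τ`: `lam / 2`; `z0`: `2 - lam / 2` (`2 ≠ 0`,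
`fd_ω`). For `z = 0`: `τ`: `none`; `z0`: `none`; `τ`: `0`; `z0`: `2`, and the formula gives
`(-2 lam) / (-lam) = 2`. For `z ≠ 0`: `τ`: `lam / z`; `z0`: `2 - lam / z = (2 z - lam) / z ≠ 0`; `τ`:
`lam z / (2 z - lam)`; `z0`: `2 - lam z / (2 z - lam)`. -/
theorem fd_u [Finite G] (h : QHyp v w τ j σ) (hc : FCoord v w τ j σ (1 + ω) ω lam β) {z0 : G}
    (hz0 : ∀ x, β (z0 • x) = (β x).map (fun z => 2 - z)) :
    β ((z0 * (τ * (z0 * τ))) • v) = some (2 - lam / 2) ∧
    ∀ (x : Ω) (z : F), β x = some z → 2 * z ≠ lam →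
      β ((z0 * (τ * (z0 * τ))) • x) = some (((4 - lam) * z - 2 * lam) / (2 * z - lam)) := by
  obtain ⟨-, -, -, -, -, h2, hl⟩ := fd_ω h hc
  constructor
  · rw [mul_smul, mul_smul, mul_smul, hz0, hc.βτ, hz0, hc.βτ, hc.βv]
    simp [mobInv, h2]
  · intro x z hx hz
    rw [mul_smul, mul_smul, mul_smul, hz0, hc.βτ, hz0, hc.βτ, hx]
    have h3 : 2 * z - lam ≠ 0 := sub_ne_zero.2 hz
    by_cases h0 : z = 0
    · subst h0
      simp only [mobInv, if_true, Option.map_none, Option.map_some, Option.some_inj]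
      field_simp
      ring
    · have h4 : 2 - lam / z = (2 * z - lam) / z := by field_simp
      have h5 : (2 * z - lam) / z ≠ 0 := div_ne_zero h3 h0
      simp only [mobInv, if_neg h0, Option.map_some, h4, if_neg h5, Option.some_inj]
      field_simp
      ring

omit [Field F] [Fintype F] [DecidableEq F] in
theorem f4d4_pt {u ρ : G} (h1 : ρ⁻¹ • v = v) (h2 : u * (ρ * u * ρ⁻¹) = (ρ * u * ρ⁻¹) * u) :
    u • (ρ • (u • v)) = ρ • (u • (ρ⁻¹ • (u • v))) := by
  have h3 : (u * (ρ * u * ρ⁻¹)) • v = ((ρ * u * ρ⁻¹) * u) • v := by rw [h2]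
  rw [mul_smul, mul_smul, mul_smul, mul_smul, mul_smul, mul_smul, h1] at h3
  exact h3

/-- `j * σ` fixes `v`. -/
theorem f4d4_fixv (h : QHyp v w τ j σ) {g : G} (hg : g ∈ Subgroup.zpowers (j * σ)) :
    g • v = v := by
  have h1 : Subgroup.zpowers (j * σ) ≤ MulAction.stabilizer G v := by
    rw [Subgroup.zpowers_le, MulAction.mem_stabilizer_iff, mul_smul, h.σv, h.jv]
  exact MulAction.mem_stabilizer_iff.1 (h1 hg)

/-- The order of `j * σ`. -/
theorem f4d4_order [Finite G] [FaithfulSMul G Ω] (h : QHyp v w τ j σ)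
    (hc : FCoord v w τ j σ (1 + ω) ω lam β) : orderOf (j * σ) = orderOf ω := by
  obtain ⟨h4, h0, -, -, -, -, -⟩ := fd_ω h hc
  obtain ⟨h5, -, -, -⟩ := fd_neg h4 h0
  rw [← h5, orderOf_eq_orderOf_iff]
  intro n
  constructor
  · intro hn
    have h6 := fd_pow hc n w
    rw [hn, one_smul, hc.βw, Option.map_some, Option.some_inj] at h6
    linear_combination h6
  · intro hn
    exact f4d1_triv hc hn

/-- Sharp 2-transitivity on the orbit of `v`. -/
theorem f4d4_sharp [Finite G] [FaithfulSMul G Ω] (h : QHyp v w τ j σ)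
    (hc : FCoord v w τ j σ (1 + ω) ω lam β) (S : Subgroup G)
    (hjσ : j * σ ∈ S) (hS : ∀ g ∈ S, g • v = v → g ∈ Subgroup.zpowers (j * σ))
    (hO : ∀ g ∈ S, g • v = v ∨ ∃ k ∈ Subgroup.zpowers (j * σ), k • w = g • v) :
    SharpTwo S (MulAction.orbit S v) := by
  have hRS : Subgroup.zpowers (j * σ) ≤ S := by
    rw [Subgroup.zpowers_le]
    exact hjσ
  have hC : ∀ n : S, n • v = v → n • w = w → n = 1 := by
    intro n hnv hnw
    apply Subtype.ext
    exact fd_fix hc (hS n n.2 hnv) hc.βw (zero_ne_one) hnw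
  have hB : ∀ x y : MulAction.orbit S v, x ≠ y → ∃ g : S, g • v = (x : Ω) ∧ g • w = (y : Ω) := by
    rintro ⟨x, hx⟩ ⟨y, hy⟩ hxy
    obtain ⟨g1, hg1⟩ := hx
    obtain ⟨g2, hg2⟩ := hy
    have hg1' : g1 • v = x := hg1
    have hg2' : g2 • v = y := hg2
    have hne : x ≠ y := fun he => hxy (Subtype.ext he)
    rcases hO (g1⁻¹ * g2 : S) (g1⁻¹ * g2 : S).2 with h1 | ⟨k, hk, h1⟩
    · exfalso
      apply hne
      have h2 : (g1⁻¹ * g2) • v = v := h1
      rw [mul_smul, inv_smul_eq_iff] at h2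
      rw [← hg1', ← hg2', h2]
    · refine ⟨g1 * ⟨k, hRS hk⟩, ?_, ?_⟩
      · rw [mul_smul]
        have h2 : (⟨k, hRS hk⟩ : S) • v = v := f4d4_fixv h hk
        rw [h2, hg1']
      · rw [mul_smul]
        have h2 : (⟨k, hRS hk⟩ : S) • w = (g1⁻¹ * g2) • v := h1
        rw [h2, mul_smul, smul_inv_smul, hg2']
  intro x y x' y' hxy hxy'
  obtain ⟨g, hg1, hg2⟩ := hB x y hxy
  obtain ⟨g', hg1', hg2'⟩ := hB x' y' hxy'
  have hsub : ∀ (n : S) (a b : MulAction.orbit S v), n • a = b ↔ n • (a : Ω) = (b : Ω) := by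
    intro n a b
    rw [Subtype.ext_iff]
    rfl
  refine ⟨g' * g⁻¹, ⟨?_, ?_⟩, ?_⟩
  · show (g' * g⁻¹) • x = x'
    rw [hsub, mul_smul, ← hg1, inv_smul_smul, hg1']
  · show (g' * g⁻¹) • y = y'
    rw [hsub, mul_smul, ← hg2, inv_smul_smul, hg2']
  · rintro n ⟨h1, h2⟩
    rw [hsub] at h1 h2
    have h3 : g'⁻¹ * (n * g) = 1 := by
      apply hC
      · rw [mul_smul, mul_smul, hg1, h1, ← hg1', inv_smul_smul]
      · rw [mul_smul, mul_smul, hg2, h2, ← hg2', inv_smul_smul]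
    rw [inv_mul_eq_one] at h3
    rw [h3, mul_assoc, mul_inv_cancel, mul_one]

/-- The number of points in the orbit of `v`. -/
theorem f4d4_card [Finite G] [Finite Ω] [FaithfulSMul G Ω] (h : QHyp v w τ j σ)
    (hc : FCoord v w τ j σ (1 + ω) ω lam β) (S : Subgroup G) (hτ : τ ∈ S)
    (hjσ : j * σ ∈ S)
    (hO : ∀ g ∈ S, g • v = v ∨ ∃ k ∈ Subgroup.zpowers (j * σ), k • w = g • v) :
    Nat.card (MulAction.orbit S v) = orderOf ω + 1 := by
  have hRS : Subgroup.zpowers (j * σ) ≤ S := by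
    rw [Subgroup.zpowers_le]
    exact hjσ
  have hcR : Nat.card (Subgroup.zpowers (j * σ)) = orderOf ω := by
    rw [Nat.card_zpowers, f4d4_order h hc]
  have hmem : ∀ k : Subgroup.zpowers (j * σ), (k : G) • w ∈ MulAction.orbit S v := by
    intro k
    refine ⟨⟨k, hRS k.2⟩ * ⟨τ, hτ⟩, ?_⟩
    show ((k : G) * τ) • v = (k : G) • w
    rw [mul_smul, h.τv]
  let f : Option (Subgroup.zpowers (j * σ)) → MulAction.orbit S v := fun o =>
    match o with
    | none => ⟨v, MulAction.mem_orbit_self v⟩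
    | some k => ⟨(k : G) • w, hmem k⟩
  have hf : Function.Bijective f := by
    constructor
    · rintro (_ | k) (_ | k') he
      · rfl
      · exfalso
        have h1 : v = (k' : G) • w := congrArg Subtype.val he
        rw [← inv_smul_eq_iff, f4d4_fixv h (inv_mem k'.2)] at h1
        exact h.vw h1
      · exfalso
        have h1 : (k : G) • w = v := congrArg Subtype.val he
        rw [← eq_inv_smul_iff, f4d4_fixv h (inv_mem k.2)] at h1
        exact h.vw h1.symm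
      · have h1 : (k : G) • w = (k' : G) • w := congrArg Subtype.val he
        have h2 : ((k' : G)⁻¹ * (k : G)) • w = w := by
          rw [mul_smul, h1, inv_smul_smul]
        have h3 := fd_fix hc (mul_mem (inv_mem k'.2) k.2) hc.βw (zero_ne_one) h2
        rw [inv_mul_eq_one] at h3
        rw [Subtype.ext h3.symm]
    · rintro ⟨x, g, hg⟩
      have hg' : (g : G) • v = x := hg
      rcases hO g g.2 with h1 | ⟨k, hk, h1⟩
      · refine ⟨none, Subtype.ext ?_⟩
        show v = x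
        rw [← hg', h1]
      · refine ⟨some ⟨k, hk⟩, Subtype.ext ?_⟩
        show k • w = x
        rw [← hg', h1]
  rw [← Nat.card_congr (Equiv.ofBijective f hf), Finite.card_option, hcR]

/-- Job F4D4-2. Let the orbit `O` of `v` under `S` be `{v} ∪ R w`, `R = zpowers (j * σ)`.

Proof. `S` acts on `O` (as the type `MulAction.orbit S v`), sharply 2-transitively (`SharpTwo`): `S` is
transitive on `O`, and the stabilizer of `v` in `S` is `R` (`hS`; `j * σ` fixes `v`), which is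
transitive on `O ∖ {v}`; an element of `S` fixing `v` and `w` is in `R` and fixes `w` (coordinate
`0 ≠ 1`), so it is `1` (`fd_fix`). From this one gets `∃!` for arbitrary pairs. `O` has `1 + r` points,
`r = orderOf ω`: `R → R w` is injective by `fd_fix` and `Nat.card R = orderOf (j * σ) = r` (`fd_pow`,
`fd_neg`: `(j * σ) ^ i = 1` iff `(-ω) ^ i = 1`, faithfulness). So `Nat.card O` is odd and at least 5
(`4 ∣ r`, `0 < r`). Let `E` be from `sharp_exists_E` (for the group `S` acting on `O`). `z0` and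
`τ * z0 * τ` are involutions in `S`, so `u = z0 * (τ * z0 * τ) ∈ E`. And `ρ * u * ρ⁻¹`, `ρ = j * σ`, is the
product of the involutions `ρ * z0 * ρ⁻¹` and `ρ * τ * z0 * τ * ρ⁻¹`, so it is in `E` as well. `E` is
commutative. -/
theorem fd_comm [Finite G] [Finite Ω] [FaithfulSMul G Ω] (h : QHyp v w τ j σ)
    (hc : FCoord v w τ j σ (1 + ω) ω lam β) (S : Subgroup G) (hτ : τ ∈ S)
    (hjσ : j * σ ∈ S) (hS : ∀ g ∈ S, g • v = v → g ∈ Subgroup.zpowers (j * σ))
    (hO : ∀ g ∈ S, g • v = v ∨ ∃ k ∈ Subgroup.zpowers (j * σ), k • w = g • v) {z0 : G}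
    (hz0 : z0 ∈ Subgroup.zpowers (j * σ)) (hi : IsInv z0) :
    (z0 * (τ * (z0 * τ))) * ((j * σ) * (z0 * (τ * (z0 * τ))) * (j * σ)⁻¹) =
    ((j * σ) * (z0 * (τ * (z0 * τ))) * (j * σ)⁻¹) * (z0 * (τ * (z0 * τ))) := by
  obtain ⟨h4, h0, -, -, -, -, -⟩ := fd_ω h hc
  have hsharp := f4d4_sharp h hc S hjσ hS hO
  have hcard := f4d4_card h hc S hτ hjσ hO
  have hRS : Subgroup.zpowers (j * σ) ≤ S := by
    rw [Subgroup.zpowers_le]
    exact hjσ
  have hodd : Odd (Nat.card (MulAction.orbit S v)) := by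
    rw [hcard]
    obtain ⟨m, hm⟩ := h4
    exact ⟨2 * m, by omega⟩
  have h3 : 3 ≤ Nat.card (MulAction.orbit S v) := by
    rw [hcard]
    obtain ⟨m, hm⟩ := h4
    omega
  obtain ⟨E, hE1, -, hE3, -, -⟩ := sharp_exists_E hsharp hodd h3
  let p : S := ⟨z0, hRS hz0⟩
  let t : S := ⟨τ, hτ⟩
  let ρ : S := ⟨j * σ, hjσ⟩
  have hp1 : p ≠ 1 := fun he => hi.1 (congrArg Subtype.val he)
  have hpp : p * p = 1 := Subtype.ext hi.2
  have htt : t * t = 1 := Subtype.ext h.ττ
  have hconj : ∀ (g q : S), q ≠ 1 → q * q = 1 → g * q * g⁻¹ ≠ 1 ∧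
      (g * q * g⁻¹) * (g * q * g⁻¹) = 1 := by
    intro g q hq1 hqq
    constructor
    · intro he
      apply hq1
      rwa [mul_inv_eq_one, mul_eq_left] at he
    · calc (g * q * g⁻¹) * (g * q * g⁻¹) = g * (q * q) * g⁻¹ := by group
        _ = 1 := by rw [hqq, mul_one, mul_inv_cancel]
  have hti : t⁻¹ = t := inv_eq_of_mul_eq_one_right htt
  have hq := hconj t p hp1 hpp
  have hq1 := hconj ρ p hp1 hpp
  have hq2 := hconj ρ (t * p * t⁻¹) hq.1 hq.2
  have hu : p * (t * (p * t)) ∈ E := by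
    have h5 := hE3 p (t * p * t⁻¹) hp1 hq.1 hpp hq.2
    rwa [hti, mul_assoc t p t] at h5
  have hu' : ρ * (p * (t * (p * t))) * ρ⁻¹ ∈ E := by
    have h5 := hE3 _ _ hq1.1 hq2.1 hq1.2 hq2.2
    have h6 : ρ * p * ρ⁻¹ * (ρ * (t * p * t⁻¹) * ρ⁻¹) = ρ * (p * (t * (p * t))) * ρ⁻¹ := by
      rw [hti]
      group
    rwa [h6] at h5
  exact congrArg Subtype.val (hE1 _ hu _ hu')

/-- The powers of `ω` are all nonzero elements. -/
theorem f4d4_all (h0 : 0 < orderOf ω) (hω : ω ≠ 0) (hcard : Fintype.card F = orderOf ω + 1)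
    {z : F} (hz : z ≠ 0) : ∃ l : ℕ, z = ω ^ l := by
  have h1 : insert 0 ((Finset.range (orderOf ω)).image (fun i => ω ^ i)) = Finset.univ := by
    apply Finset.eq_univ_of_card
    rw [f4c8_card hω, hcard]
  have h2 : z ∈ insert 0 ((Finset.range (orderOf ω)).image (fun i => ω ^ i)) := by
    rw [h1]
    exact Finset.mem_univ z
  rcases (f4c8_mem h0 z).1 h2 with h3 | h3
  · exact absurd h3 hz
  · exact h3

omit [Fintype F] [DecidableEq F] in
/-- The computation in the first case. -/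
theorem f4d4_alg {X X1 X2 : F} (h2 : (2 : F) ≠ 0) (hω1 : ω ≠ 1)
    (hωω : ω * ω ≠ 1) (hl : lam ≠ 2) (hX : X = 2 - lam / 2) (hX1 : X1 = 1 + (-ω) * (X - 1))
    (hX2 : 1 + (-ω) * (X2 - 1) = X) : 2 * X1 ≠ lam ∧ 2 * X2 ≠ lam ∧
    (((4 - lam) * X1 - 2 * lam) / (2 * X1 - lam) =
      1 + (-ω) * (((4 - lam) * X2 - 2 * lam) / (2 * X2 - lam) - 1) → lam = 1) := by
  have hXX : 2 * X = 4 - lam := by
    rw [hX]
    field_simp
    ring
  have hd1 : 2 * X1 - lam = (2 - lam) * (1 - ω) := by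
    rw [hX1]
    linear_combination (-ω) * hXX
  have hd2 : ω * (2 * X2 - lam) = (2 - lam) * (ω - 1) := by
    linear_combination (-2) * hX2 - hXX
  have hl2 : 2 - lam ≠ 0 := sub_ne_zero.2 hl.symm
  have hw1 : 1 - ω ≠ 0 := sub_ne_zero.2 hω1.symm
  have hw2 : ω - 1 ≠ 0 := sub_ne_zero.2 hω1
  have hn1 : 2 * X1 - lam ≠ 0 := by
    rw [hd1]
    exact mul_ne_zero hl2 hw1
  have hn2 : 2 * X2 - lam ≠ 0 := by
    intro he
    rw [he, mul_zero] at hd2
    exact mul_ne_zero hl2 hw2 hd2.symm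
  refine ⟨sub_ne_zero.1 hn1, sub_ne_zero.1 hn2, ?_⟩
  intro he
  have h3 : ((4 - lam) * X1 - 2 * lam) * (2 * X2 - lam) =
      ((2 * X2 - lam) + (-ω) * (((4 - lam) * X2 - 2 * lam) - (2 * X2 - lam))) *
        (2 * X1 - lam) := by
    rw [div_eq_iff hn1] at he
    have hcan := div_mul_cancel₀ ((4 - lam) * X2 - 2 * lam) hn2
    linear_combination (2 * X2 - lam) * he + (-ω) * (2 * X1 - lam) * hcan
  have hd12 : ω * (2 * X2 - lam) + (2 * X1 - lam) = 0 := by
    rw [hd1, hd2]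
    ring
  have h31 : (2 * X1 - lam) * ((((4 - lam) * X1 - 2 * lam) - (2 * X1 - lam)) -
      ω * ω * (((4 - lam) * X2 - 2 * lam) - (2 * X2 - lam))) = 0 := by
    linear_combination (-ω) * h3 + (((4 - lam) * X1 - 2 * lam) - (2 * X1 - lam)) * hd12
  have h32 : 2 * ((((4 - lam) * X1 - 2 * lam) - (2 * X1 - lam)) -
      ω * ω * (((4 - lam) * X2 - 2 * lam) - (2 * X2 - lam))) =
      4 * (1 - lam) * (1 - ω * ω) := by
    linear_combination (2 - lam) * hd1 - ω * (2 - lam) * hd2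
  have h4 : 4 * (2 - lam) * (1 - ω) * (1 - lam) * (1 - ω * ω) = 0 := by
    linear_combination 2 * h31 - (2 * X1 - lam) * h32 - (4 * (1 - lam) * (1 - ω * ω)) * hd1
  have h5 : (4 : F) ≠ 0 := by
    have : (4 : F) = 2 * 2 := by norm_num
    rw [this]
    exact mul_ne_zero h2 h2
  have h6 : 1 - ω * ω ≠ 0 := sub_ne_zero.2 (Ne.symm hωω)
  rcases mul_eq_zero.1 h4 with h7 | h7
  · rcases mul_eq_zero.1 h7 with h8 | h8
    · exact absurd h8 (mul_ne_zero (mul_ne_zero h5 hl2) hw1)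
    · exact (sub_eq_zero.1 h8).symm
  · exact absurd h7 h6

/-- Job F4D4-3.

Proof. Let `p` be the point with coordinate `1`; `hp` says `p ∉ O`, `O = S v` the orbit of `v` under `S`.
Let `R = zpowers (j * σ)`.
Case A: `O ⊆ {v} ∪ R w`. Take `z0` from `fd_z0`, `u = z0 * (τ * (z0 * τ))`, `ρ = j * σ`. By `fd_comm`
`u • ρ • u • ρ⁻¹ • v = ρ • u • ρ⁻¹ • u • v`, i.e. (as `ρ⁻¹ • v = v`) `u • (ρ • P) = ρ • u • (ρ⁻¹ • P)` with
`P = u • v`, of coordinate `X = 2 - lam / 2`. If `lam = 2` then `X = 1`, `P = p ∈ O` (`u ∈ S`),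
contradiction. So `lam ≠ 2`. `ρ • P` has coordinate `X₁ = 1 - ω (X - 1)`, `ρ⁻¹ • P` has coordinate
`X₂ = 1 - (X - 1) / ω` (it is mapped to `P` by `ρ`). `2 X₁ - lam = (2 - lam) (1 - ω) ≠ 0` and
`2 X₂ - lam = (2 - lam) (1 - 1 / ω) ≠ 0`. With `fd_u` we get
`U X₁ = 1 - ω (U X₂ - 1)`, `U z = ((4 - lam) z - 2 lam) / (2 z - lam)`. Clearing denominators this is
`(1 - lam) (1 - ω ^ 2) = 0` up to nonzero factors: in terms of `y = z - 1`, `U` is
`y ↦ ((2 - lam) y + 2 (1 - lam)) / (2 y + 2 - lam)`; with `Y = X - 1 = (2 - lam) / 2`, `a = -ω`: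
`((2 - lam) a Y + 2 (1 - lam)) / (2 a Y + 2 - lam) = a ((2 - lam) Y / a + 2 (1 - lam)) / (2 Y / a + 2 - lam)`,
where `2 a Y + 2 - lam = (2 - lam) (1 + a)` and `2 Y / a + 2 - lam = (2 - lam) (1 + a) / a`; so
`(2 - lam) a Y + 2 (1 - lam) = a ^ 2 ((2 - lam) Y / a + 2 (1 - lam))`, i.e. `2 (1 - lam) (1 - a ^ 2) = 0`.
As `a ^ 2 = ω ^ 2 ≠ 1` (`fd_ω`), `lam = 1`.
Case B: some `x ∈ O` is `≠ v` and not in `R w`. Its coordinate `z` is `≠ 1` (`hp`) and `z - 1` is not a
power of `ω` (`fd_orb` from `w`, using that `-1` is a power of `ω`, `fd_neg`). So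
`Fintype.card F = 2 * orderOf ω + 1` (otherwise every nonzero element is a power of `ω`). All points
different from `p` are in `O`: if `z' ≠ 1` is the coordinate of `y` then `z' - 1` is a power of `ω` and
`y ∈ R w ⊆ O` (`w = τ • v`), or `z' - 1 = ω ^ i * (z - 1)` (`z_coset`) and `y ∈ R x ⊆ O` (`fd_orb`).
So `τ • p = p`: otherwise `τ • p ∈ O` and `p = τ • (τ • p) ∈ O`. The coordinate of `τ • p` is
`lam / 1`, so `lam = 1`. -/
theorem fd_lam1 [Finite G] [Finite Ω] [FaithfulSMul G Ω] (h : QHyp v w τ j σ)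
    (hc : FCoord v w τ j σ (1 + ω) ω lam β) (S : Subgroup G) (hτ : τ ∈ S)
    (hjσ : j * σ ∈ S) (hS : ∀ g ∈ S, g • v = v → g ∈ Subgroup.zpowers (j * σ))
    (hp : ∀ g ∈ S, β (g • v) ≠ some 1) : lam = 1 := by
  obtain ⟨h4, h0, hω1, -, hωω, h2, hlam⟩ := fd_ω h hc
  obtain ⟨-, -, -, ⟨e, he⟩⟩ := fd_neg h4 h0
  have hRS : Subgroup.zpowers (j * σ) ≤ S := by
    rw [Subgroup.zpowers_le]
    exact hjσ
  by_cases hO : ∀ g ∈ S, g • v = v ∨ ∃ k ∈ Subgroup.zpowers (j * σ), k • w = g • v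
  · obtain ⟨z0, hz0, hinv, hz⟩ := fd_z0 h hc
    have hcomm := fd_comm h hc S hτ hjσ hS hO hz0 hinv
    obtain ⟨hu1, hu2⟩ := fd_u h hc hz
    generalize hu : z0 * (τ * (z0 * τ)) = u at *
    have huS : u ∈ S := by
      rw [← hu]
      exact mul_mem (hRS hz0) (mul_mem hτ (mul_mem (hRS hz0) hτ))
    have hl2 : lam ≠ 2 := by
      intro hl
      apply hp u huS
      rw [hu1, hl, div_self h2]
      congr 1
      norm_num
    have hP := f4d1_step hc (u • v)
    rw [hu1, Option.map_some] at hP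
    have hQ := f4d1_step hc ((j * σ)⁻¹ • (u • v))
    rw [smul_inv_smul, hu1] at hQ
    cases hQc : β ((j * σ)⁻¹ • (u • v)) with
    | none =>
      rw [hQc] at hQ
      simp at hQ
    | some X2 =>
      rw [hQc, Option.map_some, Option.some_inj] at hQ
      obtain ⟨ha1, ha2, ha3⟩ := f4d4_alg (lam := lam) (ω := ω) h2 hω1 hωω hl2 rfl rfl
        hQ.symm
      apply ha3
      have h5 : u • ((j * σ) • (u • v)) = (j * σ) • (u • ((j * σ)⁻¹ • (u • v))) := by
        have h6 : (j * σ)⁻¹ • v = v := f4d4_fixv h (inv_mem (Subgroup.mem_zpowers _))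
        exact f4d4_pt h6 hcomm
      have h7 := congrArg β h5
      rw [hu2 _ _ hP ha1, f4d1_step hc, hu2 _ _ hQc ha2, Option.map_some, Option.some_inj] at h7
      exact h7
  · push Not at hO
    obtain ⟨g, hgS, hgv, hgk⟩ := hO
    cases hgz : β (g • v) with
    | none =>
      exfalso
      apply hgv
      apply β.injective
      rw [hgz, hc.βv]
    | some z =>
      have hz1 : z ≠ 1 := by
        rintro rfl
        exact hp g hgS hgz
      have hz1' : z - 1 ≠ 0 := sub_ne_zero.2 hz1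
      have hpow : ∀ (y : Ω) (z' : F) (l : ℕ), β y = some z' → z' - 1 = ω ^ l →
          ∃ k ∈ Subgroup.zpowers (j * σ), k • w = y := by
        intro y z' l hy hl
        apply fd_orb h hc hc.βw hy (i := l + e)
        rw [hl, pow_add, ← he]
        ring
      have hzn : ∀ l : ℕ, z - 1 ≠ ω ^ l := by
        intro l hl
        obtain ⟨k, hk, hkw⟩ := hpow (g • v) z l hgz hl
        exact hgk k hk hkw
      have hcard : Fintype.card F = 2 * orderOf ω + 1 := by
        rcases hc.card with h5 | h5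
        · exfalso
          obtain ⟨l, hl⟩ := f4d4_all h0 hc.ω0 h5 hz1'
          exact hzn l hl
        · exact h5
      have hin : ∀ y : Ω, β y ≠ some 1 → ∃ k ∈ S, k • v = y := by
        intro y hy
        cases hyz : β y with
        | none =>
          refine ⟨1, one_mem S, ?_⟩
          rw [one_smul]
          apply β.injective
          rw [hyz, hc.βv]
        | some z' =>
          have hz'1 : z' - 1 ≠ 0 := by
            intro h5
            apply hy
            rw [hyz, sub_eq_zero.1 h5]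
          by_cases hl : ∃ l : ℕ, z' - 1 = ω ^ l
          · obtain ⟨l, hl⟩ := hl
            obtain ⟨k, hk, hkw⟩ := hpow y z' l hyz hl
            refine ⟨k * τ, mul_mem (hRS hk) hτ, ?_⟩
            rw [mul_smul, h.τv, hkw]
          · push Not at hl
            obtain ⟨i, hi⟩ := z_coset hc.ω0 hcard hz'1 hz1' hl hzn
            obtain ⟨k, hk, hkx⟩ := fd_orb h hc hgz hyz hi
            refine ⟨k * g, mul_mem (hRS hk) hgS, ?_⟩
            rw [mul_smul, hkx]
      have hτp : β (τ • (β.symm (some 1))) = some 1 := by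
        by_contra hne
        obtain ⟨k, hk, hkv⟩ := hin _ hne
        apply hp (τ * k) (mul_mem hτ hk)
        rw [mul_smul, hkv, ← mul_smul, h.ττ, one_smul, Equiv.apply_symm_apply]
      rw [hc.βτ, Equiv.apply_symm_apply] at hτp
      simpa [mobInv] using hτp

end Pool.Agent.H.MP_6268b4_co
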