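import Pool.Agent.H.MP_6268b4_co.F4D3
import Pool.Agent.H.MP_6268b4_co.F4D4

/-!
The facet condition.
-/

namespace Pool.Agent.H.MP_6268b4_co

variable {G Ω F : Type*} [Group G] [MulAction G Ω] [Field F] [Fintype F] [DecidableEq F]
  {v w : Ω} {τ j σ : G} {ω lam : F} {β : Ω ≃ Option F}

/-- Job F4D5-1. Proof: `fd_lam1` if no `g ∈ S` maps `v` to the point with coordinate `1`, otherwise
`fd_lam2`, `fd_ord4` and `hc.card`. -/
theorem fd_main [Finite G] [Finite Ω] [FaithfulSMul G Ω] (h : QHyp v w τ j σ)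
    (hz : ZHyp G Ω) (hc : FCoord v w τ j σ (1 + ω) ω lam β) (S : Subgroup G) (hτ : τ ∈ S)
    (hjσ : j * σ ∈ S) (hS : ∀ g ∈ S, g • v = v → g ∈ Subgroup.zpowers (j * σ)) :
    lam = 1 ∨ (lam = 2 ∧ orderOf ω = 4 ∧ (Fintype.card F = 5 ∨ Fintype.card F = 9)) := by
  by_cases hp : ∀ g ∈ S, β (g • v) ≠ some 1
  · exact Or.inl (fd_lam1 h hc S hτ hjσ hS hp)
  · push Not at hp
    obtain ⟨s, hs, hs1⟩ := hp
    have hlam : lam = 2 := fd_lam2 h hz hc S hτ hjσ hS hs hs1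
    have hord : orderOf ω = 4 := fd_ord4 h hc S hτ hjσ hS hs hs1 hlam
    refine Or.inr ⟨hlam, hord, ?_⟩
    have hcard := hc.card
    rw [hord] at hcard
    omega

end Pool.Agent.H.MP_6268b4_co
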