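import Pool.Agent.H.MP_6268b4_co.TIso
import Pool.Agent.H.MP_6268b4_co.TVDefs

/-!
Isomorphism criteria in terms of the action on the vertices.
-/

namespace Pool.Agent.H.MP_6268b4_co

variable {P : Type*} [PartialOrder P] [BoundedOrder P] {rk : P → ℤ}
  {Q : Type*} [PartialOrder Q] [BoundedOrder Q] {rk' : Q → ℤ}

/-- a bijection of the vertices intertwining two automorphisms detects the identity -/
lemma tisov_one (hf : FaithfulSMul (P ≃o P) (Vert P)) (hf' : FaithfulSMul (Q ≃o Q) (Vert Q))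
    (β : Vert P ≃ Vert Q) {g : P ≃o P} {g' : Q ≃o Q} (h : ∀ x, β (g • x) = g' • β x) :
    g = 1 ↔ g' = 1 := by
  constructor
  · intro h1
    refine hf'.eq_of_smul_eq_smul (fun y => ?_)
    obtain ⟨x, rfl⟩ := β.surjective y
    rw [← h, h1, one_smul, one_smul]
  · intro h1
    refine hf.eq_of_smul_eq_smul (fun x => ?_)
    apply β.injective
    rw [h, h1, one_smul, one_smul]

/-- `tmap g Φ = Φ` iff `g = 1` -/
lemma tisov_tmap (h : IsPolytope 4 P rk) {Φ : Tup P rk} {g : P ≃o P} :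
    tmap h h g Φ = Φ ↔ g = 1 := by
  constructor
  · exact fun h1 => eq_one_of_tmap h h1
  · rintro rfl
    exact tmap_one h Φ

/-- the relation `i ~ j` -/
def TisovRel (h : IsPolytope 4 P rk) (h' : IsPolytope 4 Q rk') (Φ : Tup P rk)
    (Ψ : Tup Q rk') (β : Vert P ≃ Vert Q) (i j : Fin 4) : Prop :=
  ∃ (γ : P ≃o P) (γ' : Q ≃o Q), tmap h h γ Φ = adj h j (adj h i Φ) ∧
    tmap h' h' γ' Ψ = adj h' j (adj h' i Ψ) ∧ ∀ x, β (γ • x) = γ' • β x

lemma tisov_symm0 (h : IsPolytope 4 P rk) {Φ : Tup P rk} {i j : Fin 4} {γ : P ≃o P}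
    (hγ : tmap h h γ Φ = adj h j (adj h i Φ)) :
    tmap h h γ⁻¹ Φ = adj h i (adj h j Φ) := by
  apply tmap_inv h γ
  rw [tmap_adj, tmap_adj, hγ, adj_adj, adj_adj]

lemma tisov_trans0 (h : IsPolytope 4 P rk) {Φ : Tup P rk} {i j k : Fin 4} {γ δ : P ≃o P}
    (hγ : tmap h h γ Φ = adj h j (adj h i Φ)) (hδ : tmap h h δ Φ = adj h k (adj h j Φ)) :
    tmap h h (γ * δ) Φ = adj h k (adj h i Φ) := by
  rw [tmap_mul, hδ, tmap_adj, tmap_adj, hγ, adj_adj]

lemma tisov_refl (h : IsPolytope 4 P rk) (h' : IsPolytope 4 Q rk') (Φ : Tup P rk)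
    (Ψ : Tup Q rk') (β : Vert P ≃ Vert Q) (i : Fin 4) : TisovRel h h' Φ Ψ β i i := by
  refine ⟨1, 1, ?_, ?_, fun x => ?_⟩
  · rw [tmap_one, adj_adj]
  · rw [tmap_one, adj_adj]
  · rw [one_smul, one_smul]

lemma tisov_symm (h : IsPolytope 4 P rk) (h' : IsPolytope 4 Q rk') {Φ : Tup P rk}
    {Ψ : Tup Q rk'} {β : Vert P ≃ Vert Q} {i j : Fin 4} (hij : TisovRel h h' Φ Ψ β i j) :
    TisovRel h h' Φ Ψ β j i := by
  obtain ⟨γ, γ', h1, h2, h3⟩ := hij
  refine ⟨γ⁻¹, γ'⁻¹, tisov_symm0 h h1, tisov_symm0 h' h2, fun x => ?_⟩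
  rw [eq_inv_smul_iff, ← h3, smul_inv_smul]

lemma tisov_trans (h : IsPolytope 4 P rk) (h' : IsPolytope 4 Q rk') {Φ : Tup P rk}
    {Ψ : Tup Q rk'} {β : Vert P ≃ Vert Q} {i j k : Fin 4} (hij : TisovRel h h' Φ Ψ β i j)
    (hjk : TisovRel h h' Φ Ψ β j k) : TisovRel h h' Φ Ψ β i k := by
  obtain ⟨γ, γ', h1, h2, h3⟩ := hij
  obtain ⟨δ, δ', g1, g2, g3⟩ := hjk
  refine ⟨γ * δ, γ' * δ', tisov_trans0 h h1 g1, tisov_trans0 h' h2 g2, fun x => ?_⟩
  rw [mul_smul, mul_smul, h3, g3]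

lemma tisov_odd (h : IsPolytope 4 P rk) {Φ : Tup P rk} {s : Fin 4 → Fin 4 → (P ≃o P)}
    (hs : ∀ i j, tmap h h (s i j) Φ = adj h j (adj h i Φ))
    (hc : ∀ (i : Fin 4) (γ : P ≃o P), tmap h h γ Φ ≠ adj h i Φ) (v : List (Fin 4 × Fin 4))
    (i : Fin 4) : adjw h (flatw v ++ [i]) Φ ≠ Φ := by
  intro h1
  rw [adjw_append, adjw_chi h hs v, adjw_cons, adjw_nil, ← tmap_adj h h] at h1
  have h2 := tmap_inv h _ h1
  exact hc i _ h2

/-- Regular polytopes with the same action on the vertices are isomorphic.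

Proof. `iso_of_words`: by `adjw_reg` and `eq_of_tmap`/`eq_one_of_tmap`, `adjw h w Φ = Φ` iff
`(w.map ρ).prod = 1`, and the same for `Q`. By induction on `w`,
`β ((w.map ρ).prod • x) = (w.map ρ').prod • β x` for all `x`. If one product is `1` then the other
acts trivially on all vertices (`β` is bijective), so it is `1` by faithfulness
(`FaithfulSMul.eq_of_smul_eq_smul`). -/
theorem iso_of_vert (h : IsPolytope 4 P rk) (h' : IsPolytope 4 Q rk') (Φ : Tup P rk)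
    (Ψ : Tup Q rk') (ρ : Fin 4 → (P ≃o P)) (ρ' : Fin 4 → (Q ≃o Q))
    (hρ : ∀ i, tmap h h (ρ i) Φ = adj h i Φ) (hρ' : ∀ i, tmap h' h' (ρ' i) Ψ = adj h' i Ψ)
    (hf : FaithfulSMul (P ≃o P) (Vert P)) (hf' : FaithfulSMul (Q ≃o Q) (Vert Q))
    (β : Vert P ≃ Vert Q) (hβ : ∀ i x, β (ρ i • x) = ρ' i • β x) : Nonempty (P ≃o Q) := by
  refine iso_of_words h h' Φ Ψ (fun w => ?_)
  have key : ∀ (w : List (Fin 4)) (x : Vert P),
      β ((w.map ρ).prod • x) = (w.map ρ').prod • β x := by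
    intro w
    induction w with
    | nil =>
      intro x
      rw [List.map_nil, List.map_nil, List.prod_nil, List.prod_nil, one_smul, one_smul]
    | cons i w ih =>
      intro x
      rw [List.map_cons, List.map_cons, List.prod_cons, List.prod_cons, mul_smul, mul_smul, hβ, ih]
  rw [adjw_reg h hρ w, adjw_reg h' hρ' w, tisov_tmap, tisov_tmap]
  exact tisov_one hf hf' β (key w)

/-- Chiral polytopes with the same action on the vertices are isomorphic.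

Proof. `iso_of_words`. (1) Elements `s i j` of `P ≃o P` with
`tmap (s i j) Φ = adj j (adj i Φ)` exist for all `i, j`, and elements `s' i j` of `Q ≃o Q` such
that `β (s i j • x) = s' i j • β x`: the relation `i ~ j` iff there are `γ : P ≃o P`,
`γ' : Q ≃o Q` with `tmap γ Φ = adj j (adj i Φ)`, `tmap γ' Ψ = adj j (adj i Ψ)` and
`β (γ • x) = γ' • β x` for all `x`, is reflexive (`adj_adj`, `1`), symmetric (inverses:
`tmap γ (adj i (adj j Φ)) = adj i (adj j (adj j (adj i Φ))) = Φ`) and transitive (products: for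
`γ` for `i ~ j` and `δ` for `j ~ k`: `tmap (γ * δ) Φ = tmap γ (adj k (adj j Φ)) =
adj k (adj j (adj j (adj i Φ))) = adj k (adj i Φ)`); `τ, j, σ` give `2 ~ 0`, `1 ~ 3`, `3 ~ 2`, so
all are equivalent.
(2) Words `w` of odd length: `w = flatw v ++ [i]` (`exists_flatw`), `adjw h w Φ = adj i (tmap g Φ)
= tmap g (adj i Φ)` with `g = (v.map ..).prod` (`adjw_chi`); equal to `Φ` would give
`tmap g⁻¹ Φ = adj i Φ`, excluded by `hc`; the same for `Q`. So neither side of the equivalence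
`hw` holds.
(3) Words of even length `w = flatw v`: `adjw h w Φ = tmap g Φ = Φ` iff `g = 1`, and
`adjw h' w Ψ = Ψ` iff `g' = 1` for the corresponding product; `β (g • x) = g' • β x`, so
`g = 1 ↔ g' = 1` by faithfulness. -/
theorem iso_of_vert_chi_base (h : IsPolytope 4 P rk) (h' : IsPolytope 4 Q rk') (Φ : Tup P rk)
    (Ψ : Tup Q rk') (τ j σ : P ≃o P) (τ' j' σ' : Q ≃o Q)
    (hτ : tmap h h τ Φ = adj h 0 (adj h 2 Φ)) (hj : tmap h h j Φ = adj h 3 (adj h 1 Φ))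
    (hσ : tmap h h σ Φ = adj h 2 (adj h 3 Φ))
    (hτ' : tmap h' h' τ' Ψ = adj h' 0 (adj h' 2 Ψ))
    (hj' : tmap h' h' j' Ψ = adj h' 3 (adj h' 1 Ψ))
    (hσ' : tmap h' h' σ' Ψ = adj h' 2 (adj h' 3 Ψ))
    (hc : ∀ (i : Fin 4) (γ : P ≃o P), tmap h h γ Φ ≠ adj h i Φ)
    (hc' : ∀ (i : Fin 4) (γ : Q ≃o Q), tmap h' h' γ Ψ ≠ adj h' i Ψ)
    (hf : FaithfulSMul (P ≃o P) (Vert P)) (hf' : FaithfulSMul (Q ≃o Q) (Vert Q))
    (β : Vert P ≃ Vert Q) (hβτ : ∀ x, β (τ • x) = τ' • β x) (hβj : ∀ x, β (j • x) = j' • β x)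
    (hβσ : ∀ x, β (σ • x) = σ' • β x) : ∃ f : P ≃o Q, tmap h h' f Φ = Ψ := by
  have r20 : TisovRel h h' Φ Ψ β 2 0 := ⟨τ, τ', hτ, hτ', hβτ⟩
  have r13 : TisovRel h h' Φ Ψ β 1 3 := ⟨j, j', hj, hj', hβj⟩
  have r32 : TisovRel h h' Φ Ψ β 3 2 := ⟨σ, σ', hσ, hσ', hβσ⟩
  have rk2 : ∀ i : Fin 4, TisovRel h h' Φ Ψ β i 2 := by
    intro i
    fin_cases i
    · exact tisov_symm h h' r20
    · exact tisov_trans h h' r13 r32
    · exact tisov_refl h h' Φ Ψ β 2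
    · exact r32
  have rel : ∀ i k : Fin 4, TisovRel h h' Φ Ψ β i k := fun i k =>
    tisov_trans h h' (rk2 i) (tisov_symm h h' (rk2 k))
  choose s s' hs hs' hβs using rel
  refine iso_of_words_base h h' Φ Ψ (fun w => ?_)
  rcases exists_flatw w with ⟨v, rfl⟩ | ⟨v, i, rfl⟩
  · have key : ∀ (v : List (Fin 4 × Fin 4)) (x : Vert P),
        β ((v.map fun p => s p.1 p.2).prod • x) = (v.map fun p => s' p.1 p.2).prod • β x := by
      intro v
      induction v with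
      | nil =>
        intro x
        rw [List.map_nil, List.map_nil, List.prod_nil, List.prod_nil, one_smul, one_smul]
      | cons p v ih =>
        intro x
        rw [List.map_cons, List.map_cons, List.prod_cons, List.prod_cons, mul_smul, mul_smul,
          hβs, ih]
    rw [adjw_chi h hs v, adjw_chi h' hs' v, tisov_tmap, tisov_tmap]
    exact tisov_one hf hf' β (key v)
  · exact iff_of_false (tisov_odd h hs hc v i) (tisov_odd h' hs' hc' v i)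

/-- Chiral polytopes with the same action on the vertices are isomorphic. -/
theorem iso_of_vert_chi (h : IsPolytope 4 P rk) (h' : IsPolytope 4 Q rk') (Φ : Tup P rk)
    (Ψ : Tup Q rk') (τ j σ : P ≃o P) (τ' j' σ' : Q ≃o Q)
    (hτ : tmap h h τ Φ = adj h 0 (adj h 2 Φ)) (hj : tmap h h j Φ = adj h 3 (adj h 1 Φ))
    (hσ : tmap h h σ Φ = adj h 2 (adj h 3 Φ))
    (hτ' : tmap h' h' τ' Ψ = adj h' 0 (adj h' 2 Ψ))
    (hj' : tmap h' h' j' Ψ = adj h' 3 (adj h' 1 Ψ))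
    (hσ' : tmap h' h' σ' Ψ = adj h' 2 (adj h' 3 Ψ))
    (hc : ∀ (i : Fin 4) (γ : P ≃o P), tmap h h γ Φ ≠ adj h i Φ)
    (hc' : ∀ (i : Fin 4) (γ : Q ≃o Q), tmap h' h' γ Ψ ≠ adj h' i Ψ)
    (hf : FaithfulSMul (P ≃o P) (Vert P)) (hf' : FaithfulSMul (Q ≃o Q) (Vert Q))
    (β : Vert P ≃ Vert Q) (hβτ : ∀ x, β (τ • x) = τ' • β x) (hβj : ∀ x, β (j • x) = j' • β x)
    (hβσ : ∀ x, β (σ • x) = σ' • β x) : Nonempty (P ≃o Q) := by
  obtain ⟨f, -⟩ := iso_of_vert_chi_base h h' Φ Ψ τ j σ τ' j' σ' hτ hj hσ hτ' hj' hσ' hc hc' hf hf' β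
    hβτ hβj hβσ
  exact ⟨f⟩

end Pool.Agent.H.MP_6268b4_co
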