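import Pool.Agent.H.MP_6268b4_co.F4CDefs
import Pool.Agent.H.MP_6268b4_co.TIsoV
import Pool.Agent.H.MP_6268b4_co.BridgeC

/-!
The field with nine elements.
-/

namespace Pool.Agent.H.MP_6268b4_co

variable {P : Type*} [PartialOrder P] [BoundedOrder P] {rk : P → ℤ}

/-- `mobInv` composed with the map `z ↦ ω * z ^ 3`, for `lam * lam = 1`. -/
lemma f4d6_cube {F : Type*} [Field F] [DecidableEq F] {ω lam : F} (hω : ω ≠ 0)
    (hl : lam * lam = 1) (c : Option F) :
    (mobInv lam c).map (fun z => ω * z ^ 3) =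
      ((mobInv lam (c.map (fun z => ω * z ^ 3))).map (fun z => ω * z)).map (fun z => ω * z) := by
  cases c with
  | none =>
    simp [mobInv]
  | some z =>
    by_cases hz : z = 0
    · subst hz
      simp [mobInv]
    · have hz3 : ω * z ^ 3 ≠ 0 := mul_ne_zero hω (pow_ne_zero 3 hz)
      simp only [mobInv, Option.map_some, if_neg hz, if_neg hz3]
      congr 1
      field_simp
      linear_combination lam * hl

/-- The map `z ↦ ω * z ^ 3` as a permutation of a finite field of characteristic three. -/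
lemma f4d6_bij {F : Type*} [Field F] [Fintype F] {ω : F} (hω : ω ≠ 0) (h3 : (3 : F) = 0) :
    Function.Bijective (fun z : F => ω * z ^ 3) := by
  rw [← Finite.injective_iff_bijective]
  intro z w hzw
  have h1 : z ^ 3 = w ^ 3 := mul_left_cancel₀ hω hzw
  have h4 : (z - w) ^ 3 = 0 := by linear_combination h1 + (z * w ^ 2 - z ^ 2 * w) * h3
  exact sub_eq_zero.1 ((pow_eq_zero_iff three_ne_zero).1 h4)

/-- The polytope and the tuples. -/
lemma f4d6_tup (h : IsPolytope 4 P rk) {Φ : Tup P rk} {s : Fin 4 → Fin 4 → (P ≃o P)}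
    (hs : ∀ i j, tmap h h (s i j) Φ = adj h j (adj h i Φ)) :
    tmap h h (s 3 2 * s 3 2 * s 2 0) (adj h 3 Φ) = adj h 0 (adj h 2 (adj h 3 Φ)) ∧
      tmap h h (s 1 3) (adj h 3 Φ) = adj h 3 (adj h 1 (adj h 3 Φ)) ∧
      tmap h h (s 3 2)⁻¹ (adj h 3 Φ) = adj h 2 (adj h 3 (adj h 3 Φ)) := by
  refine ⟨?_, ?_, ?_⟩
  · have e1 : tmap h h (s 3 2 * s 3 2) Φ = adj h 2 (adj h 3 (adj h 2 (adj h 3 Φ))) := by
      rw [tmap_mul, hs 3 2, tmap_adj, tmap_adj, hs 3 2]
    have e2 : tmap h h (s 2 0) (adj h 3 Φ) = adj h 3 (adj h 0 (adj h 2 Φ)) := by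
      rw [tmap_adj, hs 2 0]
    have e3 : tmap h h (s 3 2 * s 3 2) (adj h 3 (adj h 0 (adj h 2 Φ))) =
        adj h 3 (adj h 0 (adj h 2 (tmap h h (s 3 2 * s 3 2) Φ))) := by
      rw [tmap_adj, tmap_adj, tmap_adj]
    rw [tmap_mul, e2, e3, e1, adj_adj, adj_comm h (i := 0) (j := 3) (by decide), adj_adj]
  · rw [tmap_adj, hs 1 3, adj_adj, ← adj_comm h (i := 1) (j := 3) (by decide), adj_adj]
  · rw [(chi_rel h hs).2.2.1, tmap_adj, hs 2 3, adj_adj, adj_adj]

/-- Job F4D6-1. The field with nine elements does not give a chiral polytope with `orderOf ω = 4`.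

Proof. (Compare `chi_no_four` and `idchiral_tup` in the file `IdChiral.lean`; read them first, but do not
import the file; `idchiral_tup` can be copied under the name `f4d6_tup`.) In `F`: `3 = 0` (`9 = 0` by
`FiniteField.cast_card_eq_zero` or similar), `ω ^ 2 = -1` (`ω ^ 4 = 1`, `ω ^ 2 ≠ 1`), `lam * lam = 1` (`lam` is
`1` or `2 = -1`). Let `τ = s 2 0`, `j = s 1 3`, `σ = s 3 2`, `β` from `hc` (`hc.βσ`, `hc.βj`, `hc.βτ`), and
`φ : Vert P ≃ Vert P` the map with `β (φ x) = (β x).map (fun z => ω * z ^ 3)`; `z ↦ ω * z ^ 3` is injective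
(`z ^ 3 = z' ^ 3` gives `(z - z') ^ 3 = 0` in characteristic 3), hence bijective. Apply
`iso_of_vert_chi_base` with `Q = P`, `Ψ = adj 3 Φ`, `τ' = σ * σ * τ`, `j' = j`, `σ' = σ⁻¹` and the bijection
`φ`: `φ (τ x) = τ' (φ x)`: for the coordinate `z ≠ 0` the left side is `ω * (lam / z) ^ 3 = lam * ω / z ^ 3`
and the right side `ω ^ 2 * (lam / (ω * z ^ 3)) = lam * ω / z ^ 3`; also check `z = none` and `z = 0`.
`φ (j x) = j (φ x)`: `ω * (1 + ω - z) ^ 3 = ω * (1 + ω ^ 3 - z ^ 3) = ω + ω ^ 4 - ω z ^ 3 =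
1 + ω - ω z ^ 3`. `φ (σ x) = σ⁻¹ (φ x)`: `σ (φ (σ x))` has coordinate `ω * (ω * (ω z) ^ 3) =
ω ^ 4 * (ω * z ^ 3)`, wait: `ω * ω * ω ^ 3 * z ^ 3 = ω ^ 4 * ω * z ^ 3 = ω * z ^ 3`. The three conditions on
tuples are those of `idchiral_tup`. The resulting `f` satisfies `tmap f Φ = adj 3 Φ`, contradicting
chirality (`chiral_tup1`). -/
theorem chi_no_nine (h : IsPolytope 4 P rk) {Φ : Tup P rk} {s : Fin 4 → Fin 4 → (P ≃o P)}
    (hs : ∀ i j, tmap h h (s i j) Φ = adj h j (adj h i Φ)) (hC : IsChiral P)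
    (hf : FaithfulSMul (P ≃o P) (Vert P))
    {F : Type*} [Field F] [Fintype F] [DecidableEq F] {ω lam : F} {β : Vert P ≃ Option F}
    (hc : FCoord (vert0 h Φ) (vert1 h Φ) (s 2 0) (s 1 3) (s 3 2) (1 + ω) ω lam β)
    (h4 : orderOf ω = 4) (h9 : Fintype.card F = 9) (hlam : lam = 1 ∨ lam = 2) : False := by
  have h3 : (3 : F) = 0 := by
    have e1 : ((Fintype.card F : ℕ) : F) = 0 := FiniteField.cast_card_eq_zero F
    rw [h9] at e1
    have e2 : (3 : F) * 3 = 0 := by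
      rw [← e1]
      norm_num
    exact mul_self_eq_zero.1 e2
  have hω4 : ω ^ 4 = 1 := by
    rw [← h4]
    exact pow_orderOf_eq_one ω
  have hl : lam * lam = 1 := by
    rcases hlam with e | e
    · rw [e, mul_one]
    · rw [e]
      linear_combination h3
  have h0 := hc.ω0
  set e : F ≃ F := Equiv.ofBijective _ (f4d6_bij h0 h3) with he
  set φ : Vert P ≃ Vert P := (β.trans e.optionCongr).trans β.symm with hφ
  have hφv : ∀ x, β (φ x) = (β x).map (fun z => ω * z ^ 3) := by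
    intro x
    rw [hφ]
    simp only [Equiv.trans_apply, Equiv.apply_symm_apply]
    rfl
  obtain ⟨t1, t2, t3⟩ := f4d6_tup h hs
  obtain ⟨f, hfΦ⟩ := iso_of_vert_chi_base h h Φ (adj h 3 Φ) (s 2 0) (s 1 3) (s 3 2)
    (s 3 2 * s 3 2 * s 2 0) (s 1 3) (s 3 2)⁻¹ (hs 2 0) (hs 1 3) (hs 3 2) t1 t2 t3
    (fun i γ => chiral_tup1 h hC Φ i γ) (fun i γ => chiral_tup1 h hC (adj h 3 Φ) i γ) hf hf φ
    (by
      intro x
      apply β.injective
      rw [hφv, hc.βτ, mul_smul, mul_smul, hc.βσ, hc.βσ, hc.βτ, hφv]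
      exact f4d6_cube h0 hl (β x))
    (by
      intro x
      apply β.injective
      rw [hφv, hc.βj, hc.βj, hφv, Option.map_map, Option.map_map]
      congr 1
      funext z
      show ω * (1 + ω - z) ^ 3 = 1 + ω - ω * z ^ 3
      linear_combination hω4 + (ω ^ 2 + ω ^ 3 - ω * (1 + ω) ^ 2 * z + ω * (1 + ω) * z ^ 2) * h3)
    (by
      intro x
      rw [eq_inv_smul_iff]
      apply β.injective
      rw [hc.βσ, hφv, hc.βσ, hφv, Option.map_map, Option.map_map]
      congr 1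
      funext z
      show ω * (ω * (ω * z) ^ 3) = ω * z ^ 3
      linear_combination ω * z ^ 3 * hω4)
  exact chiral_tup1 h hC Φ 3 f hfΦ

end Pool.Agent.H.MP_6268b4_co
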