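import Pool.Agent.H.MP_6268b4_co.GDefs

/-!
Group-theoretic hypotheses for the classification of neighborly chiral 4-polytopes `{p, q, r}`
with `4 ∣ r`.
-/

namespace Pool.Agent.H.MP_6268b4_co

/-- The group-theoretic data coming from a chiral 4-polytope `{p, q, r}`, `4 ∣ r`, whose edge
graph is a simple complete graph. -/
structure QHyp {G Ω : Type*} [Group G] [MulAction G Ω] (v w : Ω) (τ j σ : G) : Prop where
  two : TwoTrans G Ω
  vw : v ≠ w
  ττ : τ * τ = 1
  jj : j * j = 1
  four : 4 ∣ orderOf σ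
  σv : σ • v = v
  σw : σ • w = w
  τv : τ • v = w
  jv : j • v = v
  τσ : τ * σ * τ = σ⁻¹
  stab2 : ∀ g : G, g • v = v → g • w = w → g ∈ Subgroup.zpowers σ
  stab1 : ∀ g : G, g • v = v → g ∈ Subgroup.closure {j, σ}

/-- A 2-transitive action with cyclic two-point stabilizers in which every element that
interchanges two points has square `1`. -/
structure FHyp (G Ω : Type*) [Group G] [MulAction G Ω] : Prop where
  two : TwoTrans G Ω
  cyc : ∀ x y : Ω, x ≠ y → ∃ s : G, s • x = x ∧ s • y = y ∧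
    ∀ g : G, g • x = x → g • y = y → g ∈ Subgroup.zpowers s
  swap : ∀ (x y : Ω) (g : G), x ≠ y → g • x = y → g • y = x → g * g = 1

/-- `FHyp`, and the two-point stabilizers contain elements of order `4`. -/
structure FHyp4 (G Ω : Type*) [Group G] [MulAction G Ω] : Prop extends FHyp G Ω where
  four : ∀ x y : Ω, x ≠ y → ∃ s : G, s • x = x ∧ s • y = y ∧ orderOf s = 4

/-- Hypotheses for a permutation group `X` with a subgroup `Y` (of odd order, with abelian
quotient). -/
structure OHyp {Λ : Type*} (X Y : Subgroup (Equiv.Perm Λ)) : Prop where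
  two : ∀ x y x' y' : Λ, x ≠ y → x' ≠ y' → ∃ g ∈ X, g x = x' ∧ g y = y'
  cyc : ∀ x y : Λ, x ≠ y → ∃ s ∈ X, s x = x ∧ s y = y ∧
    ∀ g ∈ X, g x = x → g y = y → g ∈ Subgroup.zpowers s
  swap : ∀ x y : Λ, ∀ g ∈ X, x ≠ y → g x = y → g y = x → g * g = 1
  odd : ∀ x y : Λ, ∀ g ∈ X, x ≠ y → g x = x → g y = y → Odd (orderOf g)
  sub : Y ≤ X
  comm : ∀ g ∈ X, ∀ k ∈ X, g * k * g⁻¹ * k⁻¹ ∈ Y
  noswap : ∀ y ∈ Y, ∀ x x' : Λ, x ≠ x' → y x = x' → y x' = x → False

/-- `FHyp4`, and the nontrivial elements of a two-point stabilizer have all the same set of fixed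
points, of odd size. (This is the case that will be excluded.) -/
structure LHyp (G Ω : Type*) [Group G] [MulAction G Ω] : Prop extends FHyp4 G Ω where
  fix : ∀ (g g' : G) (x y u : Ω), x ≠ y → g ≠ 1 → g • x = x → g • y = y → g' • x = x →
    g' • y = y → g • u = u → g' • u = u
  odd : ∀ (g : G) (x y : Ω), x ≠ y → g ≠ 1 → g • x = x → g • y = y →
    Odd (Nat.card {u : Ω // g • u = u})

/-- `FHyp4`, and only the identity fixes three points. -/
structure ZHyp (G Ω : Type*) [Group G] [MulAction G Ω] : Prop extends FHyp4 G Ω where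
  three : ∀ (g : G) (x y u : Ω), x ≠ y → x ≠ u → y ≠ u → g • x = x → g • y = y → g • u = u →
    g = 1

/-- `t` is an involution. -/
def IsInv {G : Type*} [Group G] (t : G) : Prop := t ≠ 1 ∧ t * t = 1

/-- `t` and `e` are different commuting involutions. -/
def Perp {G : Type*} [Group G] (t e : G) : Prop := IsInv t ∧ IsInv e ∧ t ≠ e ∧ t * e = e * t

/-- The subgroup `R` belonging to the involution `t`: the products of two involutions `≠ t`
commuting with `t`; `π` is a prime. -/
structure RProp {G : Type*} (Ω : Type*) [Group G] [MulAction G Ω] (π : ℕ) (t : G)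
    (R : Subgroup G) : Prop where
  carrier : ∀ g : G, g ∈ R ↔ ∃ e e' : G, Perp t e ∧ Perp t e' ∧ g = e * e'
  comm : ∀ g ∈ R, g * t = t * g
  ab : ∀ g ∈ R, ∀ k ∈ R, g * k = k * g
  triv : ∀ g : G, (∀ u : Ω, t • u = u → g • u = u) → g ∈ R
  perp : ∀ e : G, Perp t e → ∀ g ∈ R, Perp t (e * g)
  fp : ∀ g ∈ R, ∀ c : Ω, t • c = c → g • c = c → ∀ u : Ω, t • u = u → g • u = u
  cent : ∀ g ∈ R, ∀ u : Ω, t • u = u → g • u ≠ u → ∀ k : G, k * t = t * k → k * g = g * k →
    k ∈ R
  trans : ∀ c c' : Ω, t • c = c → t • c' = c' → ∃ g ∈ R, g • c = c'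
  prime : ∀ g ∈ R, ∀ u : Ω, t • u = u → g ^ π • u = u

/-- The numerical constants: `r` is the order of the two-point stabilizers and `l` the number of
fixed points of an involution. -/
structure NHyp (G Ω : Type*) [Group G] [MulAction G Ω] (r l : ℕ) : Prop where
  four : 4 ∣ r
  odd : Odd l
  three : 3 ≤ l
  fixc : ∀ t : G, IsInv t → Nat.card {u : Ω // t • u = u} = l
  stab2 : ∀ x y : Ω, x ≠ y → Nat.card {g : G // g • x = x ∧ g • y = y} = r
  perpc : ∀ (t : G) (c : Ω), IsInv t → t • c = c → Nat.card {e : G // Perp t e ∧ e • c = c} = r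
  perp : ∀ t : G, IsInv t → Nat.card {e : G // Perp t e} = l * r
  invc : ∀ c : Ω, Nat.card {t : G // IsInv t ∧ t • c = c} = 1 + l * r
  card : Nat.card Ω = l * (1 + r * (l - 1))
  inv : Nat.card {t : G // IsInv t} = (1 + r * (l - 1)) * (1 + l * r)

end Pool.Agent.H.MP_6268b4_co
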