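import Pool.Agent.H.MP_6268b4_co.F4EDefs
import Pool.Agent.H.MP_6268b4_co.F4D1

/-!
Powers of `ω`.
-/

namespace Pool.Agent.H.MP_6268b4_co

variable {F : Type*} [Field F] [Fintype F] {ω : F}

/-- `z` is a power of `ω`. -/
def PW {F : Type*} [Field F] (ω z : F) : Prop := ∃ i : ℕ, z = ω ^ i

theorem f4e1_pos (h : XHyp ω) : 0 < orderOf ω := by
  rw [orderOf_pos_iff, isOfFinOrder_iff_pow_eq_one]
  exact ⟨Fintype.card F - 1, by have := Fintype.one_lt_card (α := F); omega,
    FiniteField.pow_card_sub_one_eq_one ω h.ne⟩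

/-- Job F4E1-1. Proof: `ω ≠ 0` in a finite field has finite order (`ω ^ (q - 1) = 1`), divisible by
4. `ω * ω ≠ 1` so `ω ≠ 1`, `ω ≠ -1`. If `2 = 0` then `x * x = 1` implies `x = 1`, but `ω ^ (r / 2)` has square
one and is not one (`r = orderOf ω`). -/
theorem xh_basic (h : XHyp ω) : 0 < orderOf ω ∧ 4 ≤ orderOf ω ∧ ω ≠ 1 ∧ ω * ω ≠ 1 ∧
    1 + ω ≠ 0 ∧ 1 - ω ≠ 0 ∧ (2 : F) ≠ 0 := by
  classical
  have h0 := f4e1_pos h
  have h4 : 4 ≤ orderOf ω := Nat.le_of_dvd h0 h.four
  have hsq : ω * ω ≠ 1 := by
    intro hh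
    have h1 : ω ^ 2 = 1 := by rw [pow_two]; exact hh
    have := Nat.le_of_dvd (by norm_num) (orderOf_dvd_of_pow_eq_one h1)
    omega
  obtain ⟨-, h2⟩ := f4d1_half h.four h0
  refine ⟨h0, h4, ?_, hsq, ?_, ?_, ?_⟩
  · rintro h1
    apply hsq
    rw [h1, one_mul]
  · intro h1
    apply hsq
    have : ω = -1 := by linear_combination h1
    rw [this]; ring
  · intro h1
    apply hsq
    have : ω = 1 := by linear_combination -h1
    rw [this]; ring
  · intro h1
    apply h2
    linear_combination -h1

/-- Job F4E1-2. Proof: `fd_neg`. -/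
theorem xh_neg (h : XHyp ω) : PW ω (-1) ∧ ∀ i : ℕ, ∃ k : ℕ, ω ^ i = (-ω) ^ k := by
  classical
  obtain ⟨-, h1, -, h2⟩ := fd_neg h.four (f4e1_pos h)
  exact ⟨h2, h1⟩

/-- Job F4E1-3. Closure properties of the set of powers of `ω` (`ω` has finite order
`r > 0`: `(ω ^ i)⁻¹ = ω ^ (r * i - i)`). -/
theorem pw_ne (h : XHyp ω) {z : F} (hz : PW ω z) : z ≠ 0 := by
  obtain ⟨i, rfl⟩ := hz
  exact pow_ne_zero _ h.ne

theorem pw_mul {z z' : F} (hz : PW ω z) (hz' : PW ω z') : PW ω (z * z') := by
  obtain ⟨i, rfl⟩ := hz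
  obtain ⟨k, rfl⟩ := hz'
  exact ⟨i + k, (pow_add ω i k).symm⟩

theorem pw_inv (h : XHyp ω) {z : F} (hz : PW ω z) : PW ω z⁻¹ := by
  obtain ⟨i, rfl⟩ := hz
  have h0 := f4e1_pos h
  refine ⟨orderOf ω * i - i, ?_⟩
  have h1 : ω ^ (orderOf ω * i - i) * ω ^ i = 1 := by
    rw [← pow_add, Nat.sub_add_cancel (Nat.le_mul_of_pos_left i h0), pow_mul,
      pow_orderOf_eq_one, one_pow]
  exact inv_eq_of_mul_eq_one_left h1

theorem pw_one : PW ω 1 := ⟨0, (pow_zero ω).symm⟩

theorem pw_self : PW ω ω := ⟨1, (pow_one ω).symm⟩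

theorem pw_sq (h : XHyp ω) {z : F} (hz : z ≠ 0) : PW ω (z * z) := h.sq z hz

/-- Proof: `pw_mul`, `pw_inv`. -/
theorem pw_mul_iff (h : XHyp ω) {d z : F} (hd : PW ω d) : PW ω (d * z) ↔ PW ω z := by
  constructor
  · intro h1
    have h2 := pw_mul (pw_inv h hd) h1
    rwa [← mul_assoc, inv_mul_cancel₀ (pw_ne h hd), one_mul] at h2
  · exact pw_mul hd

/-- Proof: `-z = (-1) * z`, `xh_neg`. -/
theorem pw_neg_iff (h : XHyp ω) {z : F} : PW ω (-z) ↔ PW ω z := by
  rw [← neg_one_mul]
  exact pw_mul_iff h (xh_neg h).1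

/-- Proof: `x * y` a power of `ω`: if `x` is one then so is `y = x⁻¹ * (x * y)`. -/
theorem pw_iff_of_mul (h : XHyp ω) {x y : F} (hxy : PW ω (x * y)) : PW ω x ↔ PW ω y := by
  constructor
  · intro h1
    exact (pw_mul_iff h h1).1 hxy
  · intro h1
    rw [mul_comm] at hxy
    exact (pw_mul_iff h h1).1 hxy

/-- Job F4E1-4. Proof: if `z` is not a power of `ω` then `z` is not a square (`h.sq`), and neither is `n`;
the product of two nonsquares of a finite field of odd order is a square (e.g. with
`quadraticChar`), so `n * z = w * w` is a power of `ω`. -/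
theorem pw_or (h : XHyp ω) {n z : F} (hn : n ≠ 0) (hn' : ¬ PW ω n) (hz : z ≠ 0) :
    PW ω z ∨ PW ω (n * z) := by
  classical
  by_cases hz' : PW ω z
  · exact Or.inl hz'
  · right
    have h2 : ringChar F ≠ 2 := by
      intro hc
      apply (xh_basic h).2.2.2.2.2.2
      have : ((ringChar F : ℕ) : F) = 0 := ringChar.Nat.cast_ringChar
      rw [hc] at this
      exact_mod_cast this
    have h3 : ¬ IsSquare n := by
      rintro ⟨w, rfl⟩
      exact hn' (h.sq w (left_ne_zero_of_mul hn))
    have h4 : ¬ IsSquare z := by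
      rintro ⟨w, rfl⟩
      exact hz' (h.sq w (left_ne_zero_of_mul hz))
    have h5 : quadraticChar F n = -1 := (quadraticChar_neg_one_iff_not_isSquare).2 h3
    have h6 : quadraticChar F z = -1 := (quadraticChar_neg_one_iff_not_isSquare).2 h4
    have h7 : quadraticChar F (n * z) = 1 := by rw [map_mul, h5, h6]; norm_num
    obtain ⟨w, hw⟩ := (quadraticChar_one_iff_isSquare (mul_ne_zero hn hz)).1 h7
    rw [hw]
    apply h.sq
    rintro rfl
    exact mul_ne_zero hn hz (by rw [hw, zero_mul])

/-- The set of powers of `ω` with exponents below the order has `orderOf ω` elements. -/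
theorem f4e1_card [DecidableEq F] (ω : F) :
    ((Finset.range (orderOf ω)).image (fun i => ω ^ i)).card = orderOf ω := by
  rw [Finset.card_image_of_injOn, Finset.card_range]
  intro i hi k hk hik
  exact pow_injOn_Iio_orderOf (by simpa using hi) (by simpa using hk) hik

theorem f4e1_mem [DecidableEq F] (h : XHyp ω) {z : F} (hz : PW ω z) :
    z ∈ (Finset.range (orderOf ω)).image (fun i => ω ^ i) := by
  obtain ⟨i, rfl⟩ := hz
  rw [Finset.mem_image]
  exact ⟨i % orderOf ω, Finset.mem_range.2 (Nat.mod_lt _ (f4e1_pos h)), pow_mod_orderOf ω i⟩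

/-- Job F4E1-5. Proof: the unit `ω` generates a subgroup of the group of units containing all squares,
so its index is 1 or 2 (the squares have index 2 in the cyclic group of units, the order of which is
even; or use `pw_or`: there are at most two cosets). -/
theorem xh_card (h : XHyp ω) :
    Fintype.card F = orderOf ω + 1 ∨ Fintype.card F = 2 * orderOf ω + 1 := by
  classical
  set P := (Finset.range (orderOf ω)).image (fun i => ω ^ i) with hP
  have hPc : P.card = orderOf ω := f4e1_card ω
  have hP0 : (0 : F) ∉ P := by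
    intro h0
    rw [hP, Finset.mem_image] at h0
    obtain ⟨i, -, hi⟩ := h0
    exact pow_ne_zero _ h.ne hi
  have hPm : ∀ z, z ∈ P → PW ω z := by
    intro z hz
    rw [hP, Finset.mem_image] at hz
    obtain ⟨i, -, hi⟩ := hz
    exact ⟨i, hi.symm⟩
  by_cases hall : ∀ z : F, z ≠ 0 → PW ω z
  · left
    have : (Finset.univ : Finset F) = insert 0 P := by
      ext z
      simp only [Finset.mem_univ, Finset.mem_insert, true_iff]
      by_cases hz : z = 0
      · exact Or.inl hz
      · exact Or.inr (f4e1_mem h (hall z hz))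
    rw [← Finset.card_univ, this, Finset.card_insert_of_notMem hP0, hPc]
  · right
    push Not at hall
    obtain ⟨n, hn, hn'⟩ := hall
    have hinj : Function.Injective (fun z : F => n⁻¹ * z) := by
      intro x y hxy
      exact mul_left_cancel₀ (inv_ne_zero hn) hxy
    have hdis : Disjoint P (P.image (fun z => n⁻¹ * z)) := by
      rw [Finset.disjoint_left]
      intro z hz hz2
      rw [Finset.mem_image] at hz2
      obtain ⟨y, hy, rfl⟩ := hz2
      apply hn'
      have h1 := hPm _ hz
      have h2 := hPm _ hy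
      have h3 := pw_mul (pw_inv h h1) h2
      have h4 : (n⁻¹ * y)⁻¹ * y = n := by
        have := pw_ne h h2
        field_simp
      rwa [h4] at h3
    have hU : (Finset.univ : Finset F) = insert 0 (P ∪ P.image (fun z => n⁻¹ * z)) := by
      ext z
      simp only [Finset.mem_univ, Finset.mem_insert, Finset.mem_union, true_iff]
      by_cases hz : z = 0
      · exact Or.inl hz
      · right
        rcases pw_or h hn hn' hz with h1 | h1
        · exact Or.inl (f4e1_mem h h1)
        · right
          rw [Finset.mem_image]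
          refine ⟨n * z, f4e1_mem h h1, ?_⟩
          rw [← mul_assoc, inv_mul_cancel₀ hn, one_mul]
    have h0 : (0 : F) ∉ P ∪ P.image (fun z => n⁻¹ * z) := by
      intro h00
      rcases Finset.mem_union.1 h00 with h1 | h1
      · exact hP0 h1
      · obtain ⟨y, hy, h1⟩ := Finset.mem_image.1 h1
        rcases mul_eq_zero.1 h1 with h2 | h2
        · exact inv_ne_zero hn h2
        · exact pw_ne h (hPm _ hy) h2
    rw [← Finset.card_univ, hU, Finset.card_insert_of_notMem h0,
      Finset.card_union_of_disjoint hdis, Finset.card_image_of_injective _ hinj, hPc]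
    ring

/-- Job F4E1-6. `t * ω ^ i` generate the additive group.

Proof. `S` contains `0` and the `orderOf ω` different elements `t * ω ^ i`, `i < orderOf ω`. So
`Nat.card S ≥ orderOf ω + 1`, and it divides `Fintype.card F ≤ 2 * orderOf ω + 1 < 2 (orderOf ω + 1)`
(`xh_card`), so `Nat.card S = Fintype.card F`. -/
theorem xh_gen (h : XHyp ω) {t : F} (ht : t ≠ 0) (S : AddSubgroup F)
    (hS : ∀ i : ℕ, t * ω ^ i ∈ S) : ∀ z : F, z ∈ S := by
  classical
  set P := (Finset.range (orderOf ω)).image (fun i => ω ^ i) with hP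
  have hPc : P.card = orderOf ω := f4e1_card ω
  have hinj : Function.Injective (fun z : F => t * z) := by
    intro x y hxy
    exact mul_left_cancel₀ ht hxy
  have h0 : (0 : F) ∉ P.image (fun z => t * z) := by
    rw [Finset.mem_image]
    rintro ⟨y, hy, h1⟩
    rw [hP, Finset.mem_image] at hy
    obtain ⟨i, -, rfl⟩ := hy
    exact mul_ne_zero ht (pow_ne_zero _ h.ne) h1
  have hsub : ((insert 0 (P.image (fun z => t * z)) : Finset F) : Set F) ⊆ (S : Set F) := by
    intro z hz
    rw [Finset.mem_coe, Finset.mem_insert, Finset.mem_image] at hz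
    rcases hz with rfl | ⟨y, hy, rfl⟩
    · exact S.zero_mem
    · rw [hP, Finset.mem_image] at hy
      obtain ⟨i, -, rfl⟩ := hy
      exact hS i
  have h1 : orderOf ω + 1 ≤ Nat.card S := by
    have h2 : (insert 0 (P.image (fun z => t * z)) : Finset F).card = orderOf ω + 1 := by
      rw [Finset.card_insert_of_notMem h0, Finset.card_image_of_injective _ hinj, hPc]
    have h2' : ((insert 0 (P.image (fun z => t * z)) : Finset F) : Set F).ncard ≤
        (S : Set F).ncard := Set.ncard_le_ncard hsub (Set.toFinite _)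
    rw [Set.ncard_coe_finset, h2] at h2'
    exact h2'
  have h3 : Nat.card S ∣ Nat.card F := AddSubgroup.card_addSubgroup_dvd_card S
  have h4 : Nat.card S = Nat.card F := by
    rw [Nat.card_eq_fintype_card (α := F)] at h3 ⊢
    obtain ⟨m, hm⟩ := h3
    have hF : Fintype.card F ≤ 2 * orderOf ω + 1 := by
      rcases xh_card h with h5 | h5 <;> omega
    have hm0 : m ≠ 0 := by
      rintro rfl
      have := Fintype.card_pos (α := F)
      omega
    have hm2 : m < 2 := by
      by_contra hc
      have : 2 * (orderOf ω + 1) ≤ Nat.card S * m := by nlinarith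
      omega
    have : m = 1 := by omega
    rw [hm, this, mul_one]
  have h5 : S = ⊤ := AddSubgroup.eq_top_of_card_eq S h4
  intro z
  rw [h5]
  exact AddSubgroup.mem_top z

end Pool.Agent.H.MP_6268b4_co
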