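import Pool.Agent.H.MP_6268b4_co.F4E6

/-!
The cross-ratio polytopes: connected sections, first part.
-/

namespace Pool.Agent.H.MP_6268b4_co

variable {F : Type*} [Field F] [Fintype F] [DecidableEq F] {ω t : F}

/-- a pair of different points -/
def f4e8_pair {X : Type*} [DecidableEq X] (a b : X) (h : a ≠ b) :
    {s : Finset X // s.card = 2} :=
  ⟨{a, b}, Finset.card_pair h⟩

omit [Field F] [Fintype F] in
theorem f4e8_map_pair (g : Equiv.Perm (Option F)) (s : {s : Finset (Option F) // s.card = 2})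
    {a b : Option F} (hs : s.1 = {a, b}) : (GP.mapPair g s).1 = {g a, g b} := by
  unfold GP.mapPair
  simp only [hs, Finset.map_insert, Finset.map_singleton, Equiv.coe_toEmbedding]

omit [Field F] [Fintype F] in
/-- The other element of a pair. -/
theorem f4e8_other {s : Finset (Option F)} (hs : s.card = 2) {u : Option F} (hu : u ∈ s) :
    ∃ e, u ≠ e ∧ s = {u, e} := by
  obtain ⟨a, b, hab, hr⟩ := Finset.card_eq_two.1 hs
  rw [hr] at hu
  simp only [Finset.mem_insert, Finset.mem_singleton] at hu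
  rcases hu with rfl | rfl
  · exact ⟨b, hab, hr⟩
  · exact ⟨a, hab.symm, by rw [hr, Finset.pair_comm]⟩

/-- Job F4E8-1. The section of a 2-face.

Proof (see `CR.sec_face` in `CRPolyB.lean`). Write `s'.1 = {u, v}`, `u ≠ v`; by `xt_auto` and `GP.C_auto` we
may assume `s'.1 = {none, some 0}`. The edges below `face s'` are the pairs `{some a, some (ω * a)}` with
`PW ω (t * (1 - ω) * a)` (`incx_zero'`; both points of the edge are finite by `incx_disj`). A vertex
below `face s'` is on such an edge (`GP.lt_vf`), so it is `vert (some a)` with `PW ω (t * (1 - ω) * a)`,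
i.e. `a = a₀ * ω ^ i`, `a₀ = (t * (1 - ω))⁻¹`. Use `GP.C_of` with `z = vert (some a₀)`: the vertices
`a₀ * ω ^ (i + 1)` and `a₀ * ω ^ i` are both on the edge `{a₀ ω ^ i, a₀ ω ^ (i + 1)}`, induction on `i`; an
edge in the interval is comparable with its vertices, which are in the interval. -/
theorem xt_sec_face (h : XHyp ω) (ht : t ≠ 0) (s' : {s : Finset (Option F) // s.card = 2}) :
    GP.C (GP.bot : XT F ω t) (GP.face s') := by
  have h1 : 1 - ω ≠ 0 := (xh_basic h).2.2.2.2.2.1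
  obtain ⟨u, v, huv, hs⟩ := Finset.card_eq_two.1 s'.2
  obtain ⟨g, γ, hγ, hgu, hgv⟩ := xt_auto (t := t) h huv
  apply GP.C_auto γ
  rw [hγ, hγ]
  change GP.C (GP.bot : XT F ω t) (GP.face (GP.mapPair g s'))
  have hm : (GP.mapPair g s').1 = {none, some 0} := by
    rw [f4e8_map_pair g s' hs, hgu, hgv]
  generalize GP.mapPair g s' = r' at hm
  set a₀ : F := (t * (1 - ω))⁻¹ with ha₀
  have hta : t * (1 - ω) * a₀ = 1 := mul_inv_cancel₀ (mul_ne_zero ht h1)
  have ha₀0 : a₀ ≠ 0 := inv_ne_zero (mul_ne_zero ht h1)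
  have hwne : ∀ i : ℕ, a₀ * ω ^ i ≠ 0 := fun i => mul_ne_zero ha₀0 (pow_ne_zero i h.ne)
  have hpw : ∀ i : ℕ, PW ω (t * (1 - ω) * (a₀ * ω ^ i)) := by
    intro i
    refine ⟨i, ?_⟩
    rw [← mul_assoc, hta, one_mul]
  have hne : ∀ i : ℕ, (some (a₀ * ω ^ i) : Option F) ≠ some (a₀ * ω ^ (i + 1)) := by
    intro i hi
    have h2 : a₀ * ω ^ i = a₀ * ω ^ (i + 1) := Option.some_injective _ hi
    rw [pow_succ, ← mul_assoc] at h2
    have h3 : (a₀ * ω ^ i) * (1 - ω) = 0 := by linear_combination h2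
    exact mul_ne_zero (hwne i) h1 h3
  have hinc : ∀ i : ℕ, IncX ω t (f4e8_pair _ _ (hne i)).1 r'.1 := by
    intro i
    rw [hm]
    change IncX ω t {some (a₀ * ω ^ i), some (a₀ * ω ^ (i + 1))} {none, some 0}
    rw [incx_zero' h ht (fun hh => hne i (by rw [hh]))]
    refine ⟨hpw i, Or.inl ?_⟩
    rw [pow_succ]
    ring
  have hedge : ∀ i : ℕ, (GP.bot : XT F ω t) < GP.edge (f4e8_pair _ _ (hne i)) ∧
      (GP.edge (f4e8_pair _ _ (hne i)) : XT F ω t) < GP.face r' := fun i =>
    ⟨(GP.bot_lt' _).2 (by simp), (GP.lt_ef _ _).2 (hinc i)⟩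
  have hvert : ∀ i : ℕ, (GP.bot : XT F ω t) < GP.vert (some (a₀ * ω ^ i)) ∧
      (GP.vert (some (a₀ * ω ^ i)) : XT F ω t) < GP.face r' := fun i =>
    ⟨(GP.bot_lt' _).2 (by simp), (GP.lt_vf _ _).2 ⟨f4e8_pair _ _ (hne i), by simp [f4e8_pair],
      hinc i⟩⟩
  have hpow : ∀ i : ℕ, Relation.ReflTransGen (GP.R (GP.bot : XT F ω t) (GP.face r'))
      (GP.vert (some (a₀ * ω ^ i))) (GP.vert (some a₀)) := by
    intro i
    induction i with
    | zero => simp only [pow_zero, mul_one]; exact Relation.ReflTransGen.refl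
    | succ i ih =>
      refine Relation.ReflTransGen.head (b := GP.edge (f4e8_pair _ _ (hne i))) ⟨Or.inl ?_,
        hedge i⟩ (Relation.ReflTransGen.head (b := GP.vert (some (a₀ * ω ^ i))) ⟨Or.inr ?_,
        hvert i⟩ ih)
      · exact ((GP.lt_ve _ _).2 (by simp [f4e8_pair])).le
      · exact ((GP.lt_ve _ _).2 (by simp [f4e8_pair])).le
  -- every vertex below an edge of the 2-face
  have hv1 : ∀ (r : {s : Finset (Option F) // s.card = 2}) (a : Option F), a ∈ r.1 →
      IncX ω t r.1 r'.1 → ∃ i : ℕ, a = some (a₀ * ω ^ i) := by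
    intro r a ha hi
    obtain ⟨b, hab, hr⟩ := f4e8_other r.2 ha
    have hb : b ∈ r.1 := by rw [hr]; simp
    have hn : ∀ x, x ∈ r.1 → x ≠ none := by
      rintro x hx rfl
      exact incx_disj hi hx (by rw [hm]; simp)
    obtain ⟨a', rfl⟩ := Option.ne_none_iff_exists'.1 (hn a ha)
    obtain ⟨b', rfl⟩ := Option.ne_none_iff_exists'.1 (hn b hb)
    rw [hr, hm, incx_zero' h ht (fun hh => hab (by rw [hh]))] at hi
    obtain ⟨⟨i, hi⟩, -⟩ := hi
    refine ⟨i, ?_⟩
    congr 1
    rw [← hi, ha₀]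
    field_simp
  refine GP.C_of (z := GP.vert (some a₀)) ?_
  intro x hx hx'
  cases x with
  | bot => exact absurd hx (lt_irrefl _)
  | vert a =>
    obtain ⟨r, har, hi⟩ := (GP.lt_vf _ _).1 hx'
    obtain ⟨i, rfl⟩ := hv1 r a har hi
    exact hpow i
  | edge r =>
    have hi : IncX ω t r.1 r'.1 := (GP.lt_ef _ _).1 hx'
    have hne : r.1.Nonempty := by
      rw [← Finset.card_pos, r.2]
      norm_num
    obtain ⟨a, ha⟩ := hne
    obtain ⟨i, rfl⟩ := hv1 r a ha hi
    exact Relation.ReflTransGen.head (b := GP.vert (some (a₀ * ω ^ i)))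
      ⟨Or.inr ((GP.lt_ve _ _).2 ha).le, hvert i⟩ (hpow i)
  | face r =>
    have h3 := GP.rk_lt _ _ hx'
    simp [GP.rk] at h3
  | facet a =>
    have h3 := GP.rk_lt _ _ hx'
    simp [GP.rk] at h3
  | top =>
    have h3 := GP.rk_lt _ _ hx'
    simp [GP.rk] at h3

/-- Job F4E8-2. The section between a vertex and a facet.

Proof (see `CR.sec_mid` in `CRPolyB.lean`). By `xt_auto` and `GP.C_auto` we may assume `c = none`,
`d = some 0`. The elements of the interval: edges `{none, some b}` with `PW ω (t * b)` (`xt_ec`) and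
2-faces `{some 0, some y}` with `PW ω (t * (y / (1 - ω)))` (`xt_vf`). `z = edge {none, some t⁻¹}`. By
`incx_inf` (with `y = 0`, `y' = (1 - ω) * b`) the edges `{none, some b}` and `{none, some (-ω * b)}` are both
below the 2-face `{some 0, some ((1 - ω) * b)}`, which is in the interval if `PW ω (t * b)`. So for all
`k` the edge with `b = t⁻¹ * (-ω) ^ k` is connected to `z` (induction on `k`), and every `b` with
`PW ω (t * b)` is of this form (`xh_neg`). A 2-face `{some 0, some y}` in the interval is above the edge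
with `b = y / (1 - ω)`. -/
theorem xt_sec_mid (h : XHyp ω) (ht : t ≠ 0) {c d : Option F} (hcd : c ≠ d) :
    GP.C (GP.vert c : XT F ω t) (GP.facet d) := by
  have h1 : 1 - ω ≠ 0 := (xh_basic h).2.2.2.2.2.1
  obtain ⟨g, γ, hγ, hgc, hgd⟩ := xt_auto (t := t) h hcd
  apply GP.C_auto γ
  rw [hγ, hγ]
  change GP.C (GP.vert (g c) : XT F ω t) (GP.facet (g d))
  rw [hgc, hgd]
  have hmω : -ω ≠ 0 := neg_ne_zero.2 h.ne
  have hnb : ∀ b : F, (none : Option F) ≠ some b := fun b => by simp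
  -- the 2-face of a nonzero element
  have hne : ∀ b : F, b ≠ 0 → (some 0 : Option F) ≠ some ((1 - ω) * b) := by
    intro b hb hh
    exact mul_ne_zero h1 hb (Option.some_injective _ hh).symm
  have hne' : ∀ b : F, b ≠ 0 → (0 : F) ≠ (1 - ω) * b := fun b hb => (mul_ne_zero h1 hb).symm
  have hedge : ∀ b : F, PW ω (t * b) →
      (GP.vert none : XT F ω t) < GP.edge (f4e8_pair none (some b) (hnb b)) ∧
      (GP.edge (f4e8_pair none (some b) (hnb b)) : XT F ω t) < GP.facet (some 0) := by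
    intro b hb
    exact ⟨(GP.lt_ve _ _).2 (by simp [f4e8_pair]), (xt_ec h ht _ rfl).2 hb⟩
  have hface : ∀ b : F, ∀ hb0 : b ≠ 0, PW ω (t * b) →
      (GP.vert none : XT F ω t) < GP.face (f4e8_pair (some 0) (some ((1 - ω) * b)) (hne b hb0)) ∧
      (GP.face (f4e8_pair (some 0) (some ((1 - ω) * b)) (hne b hb0)) : XT F ω t)
        < GP.facet (some 0) := by
    intro b hb0 hb
    refine ⟨(xt_vf h ht (hne' b hb0) _ rfl).2 ?_, (GP.lt_fc _ _).2 (by simp [f4e8_pair])⟩
    have e : ((1 - ω) * b - 0) / (1 - ω) = b := by field_simp; ring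
    rw [e]
    exact hb
  have hinc1 : ∀ b : F, b ≠ 0 → PW ω (t * b) →
      IncX ω t {none, some b} {some 0, some ((1 - ω) * b)} := by
    intro b hb0 hb
    rw [incx_inf h ht (hne' b hb0)]
    have e : ((1 - ω) * b - 0) / (1 - ω) = b := by field_simp; ring
    have e2 : ((1 - ω) * b - ω * 0) / (1 - ω) = b := by field_simp; ring
    rw [e, e2]
    exact ⟨hb, Or.inl rfl⟩
  have hinc2 : ∀ b : F, b ≠ 0 → PW ω (t * b) →
      IncX ω t {none, some (-ω * b)} {some 0, some ((1 - ω) * b)} := by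
    intro b hb0 hb
    rw [incx_inf h ht (hne' b hb0)]
    have e : ((1 - ω) * b - 0) / (1 - ω) = b := by field_simp; ring
    have e2 : (0 - ω * ((1 - ω) * b)) / (1 - ω) = -ω * b := by field_simp; ring
    rw [e, e2]
    exact ⟨hb, Or.inr rfl⟩
  have hb0 : ∀ k : ℕ, t⁻¹ * (-ω) ^ k ≠ 0 := fun k =>
    mul_ne_zero (inv_ne_zero ht) (pow_ne_zero k hmω)
  have hpw : ∀ k : ℕ, PW ω (t * (t⁻¹ * (-ω) ^ k)) := by
    intro k
    rw [← mul_assoc, mul_inv_cancel₀ ht, one_mul]
    induction k with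
    | zero => rw [pow_zero]; exact pw_one
    | succ k ih =>
      rw [pow_succ]
      exact pw_mul ih ((pw_neg_iff h).2 pw_self)
  have hpow : ∀ k : ℕ, Relation.ReflTransGen
      (GP.R (GP.vert none : XT F ω t) (GP.facet (some 0)))
      (GP.edge (f4e8_pair none (some (t⁻¹ * (-ω) ^ k)) (hnb _)))
      (GP.edge (f4e8_pair none (some t⁻¹) (hnb _))) := by
    intro k
    induction k with
    | zero => simp only [pow_zero, mul_one]; exact Relation.ReflTransGen.refl
    | succ k ih =>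
      refine Relation.ReflTransGen.head
        (b := GP.face (f4e8_pair (some 0) (some ((1 - ω) * (t⁻¹ * (-ω) ^ k)))
          (hne _ (hb0 k)))) ⟨Or.inl ?_,
        hface _ (hb0 k) (hpw k)⟩ (Relation.ReflTransGen.head
        (b := GP.edge (f4e8_pair none (some (t⁻¹ * (-ω) ^ k)) (hnb _))) ⟨Or.inr ?_,
          hedge _ (hpw k)⟩ ih)
      · refine ((GP.lt_ef _ _).2 ?_).le
        change IncX ω t {none, some (t⁻¹ * (-ω) ^ (k + 1))}
          {some 0, some ((1 - ω) * (t⁻¹ * (-ω) ^ k))}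
        have e : t⁻¹ * (-ω) ^ (k + 1) = -ω * (t⁻¹ * (-ω) ^ k) := by rw [pow_succ]; ring
        rw [e]
        exact hinc2 _ (hb0 k) (hpw k)
      · refine ((GP.lt_ef _ _).2 ?_).le
        exact hinc1 _ (hb0 k) (hpw k)
  have hall : ∀ b : F, PW ω (t * b) → Relation.ReflTransGen
      (GP.R (GP.vert none : XT F ω t) (GP.facet (some 0)))
      (GP.edge (f4e8_pair none (some b) (hnb _)))
      (GP.edge (f4e8_pair none (some t⁻¹) (hnb _))) := by
    intro b hb
    obtain ⟨i, hi⟩ := hb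
    obtain ⟨k, hk⟩ := (xh_neg h).2 i
    have e : b = t⁻¹ * (-ω) ^ k := by
      rw [← hk, ← hi, ← mul_assoc, inv_mul_cancel₀ ht, one_mul]
    rw [e]
    exact hpow k
  refine GP.C_of (z := GP.edge (f4e8_pair none (some t⁻¹) (hnb _))) ?_
  intro x hx hx'
  cases x with
  | bot =>
    have h3 := GP.rk_lt _ _ hx
    simp [GP.rk] at h3
  | vert a =>
    have h3 := GP.rk_lt _ _ hx
    simp [GP.rk] at h3
  | edge r =>
    have h3 : none ∈ r.1 := (GP.lt_ve _ _).1 hx
    obtain ⟨e, he, hre⟩ := f4e8_other r.2 h3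
    obtain ⟨b, rfl⟩ := Option.ne_none_iff_exists'.1 (Ne.symm he)
    have hb : PW ω (t * b) := (xt_ec h ht r hre).1 hx'
    have h5 : r = f4e8_pair none (some b) (hnb b) := Subtype.ext hre
    rw [h5]
    exact hall b hb
  | face r =>
    have h4 : some 0 ∈ r.1 := (GP.lt_fc _ _).1 hx'
    obtain ⟨e, he, hre⟩ := f4e8_other r.2 h4
    have hen : e ≠ none := by
      rintro rfl
      obtain ⟨s, hs1, hs2⟩ := (GP.lt_vf _ _).1 hx
      exact incx_disj hs2 hs1 (by rw [hre]; simp)
    obtain ⟨y, rfl⟩ := Option.ne_none_iff_exists'.1 hen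
    have hy : (0 : F) ≠ y := fun hh => he (by rw [hh])
    have hb : PW ω (t * ((y - 0) / (1 - ω))) := (xt_vf h ht hy r hre).1 hx
    rw [sub_zero] at hb
    have hb0' : y / (1 - ω) ≠ 0 := div_ne_zero (Ne.symm hy) h1
    refine Relation.ReflTransGen.head
      (b := GP.edge (f4e8_pair none (some (y / (1 - ω))) (hnb _))) ⟨Or.inr ?_, hedge _ hb⟩
      (hall _ hb)
    refine ((GP.lt_ef _ _).2 ?_).le
    have h5 := hinc1 _ hb0' hb
    rw [mul_div_cancel₀ _ h1] at h5
    rw [hre]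
    exact h5
  | facet a =>
    have h3 := GP.rk_lt _ _ hx'
    simp [GP.rk] at h3
  | top =>
    have h3 := GP.rk_lt _ _ hx'
    simp [GP.rk] at h3

end Pool.Agent.H.MP_6268b4_co
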