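import Pool.Agent.H.MP_6268b4_co.F4E6

/-!
The cross-ratio polytopes: connected sections, second part.
-/

namespace Pool.Agent.H.MP_6268b4_co

variable {F : Type*} [Field F] [Fintype F] [DecidableEq F] {ω t : F}

omit [Fintype F] in
theorem f4e9_edge (s : {s : Finset (Option F) // s.card = 2}) :
    ∃ a, (GP.vert a : XT F ω t) < GP.edge s := by
  obtain ⟨a, b, -, hs⟩ := Finset.card_eq_two.1 s.2
  exact ⟨a, (GP.lt_ve a s).2 (by rw [hs]; exact Finset.mem_insert_self _ _)⟩

theorem f4e9_face (h : XHyp ω) (ht : t ≠ 0) (s : {s : Finset (Option F) // s.card = 2}) :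
    ∃ s₁, (GP.edge s₁ : XT F ω t) < GP.face s := by
  obtain ⟨s₁, h1⟩ := (incx_exists h ht s).1
  exact ⟨s₁, (GP.lt_ef s₁ s).2 h1⟩

omit [Fintype F] in
theorem f4e9_bot (x : XT F ω t) (hx : x ≠ GP.bot) : GP.bot < x := (GP.bot_lt' x).2 hx

/-- The vertices of the facet at infinity. -/
theorem f4e9_vert (h : XHyp ω) (ht : t ≠ 0) (c : F) : ∀ a : F,
    Relation.ReflTransGen (GP.R (GP.bot : XT F ω t) (GP.facet none)) (GP.vert (some a))
      (GP.vert (some (a + c))) := by
  have hv : ∀ a : F, (GP.bot : XT F ω t) < GP.vert (some a) ∧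
      (GP.vert (some a) : XT F ω t) < GP.facet none := fun a =>
    ⟨f4e9_bot _ (by simp), (xt_vc h ht (some a) none).2 (by simp)⟩
  set S : AddSubgroup F :=
    { carrier := {c | ∀ a : F,
        Relation.ReflTransGen (GP.R (GP.bot : XT F ω t) (GP.facet none)) (GP.vert (some a))
          (GP.vert (some (a + c)))}
      zero_mem' := fun a => by rw [add_zero]
      add_mem' := by
        intro c c' hc hc' a
        have h1 := (hc a).trans (hc' (a + c))
        rwa [add_assoc] at h1
      neg_mem' := by
        intro c hc a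
        have h1 := hc (a + -c)
        rw [neg_add_cancel_right] at h1
        exact (GP.f4e5_symm (hv (a + -c)) h1).1 } with hS
  have key : ∀ z : F, z ∈ S := by
    refine xh_gen h (inv_ne_zero ht) S ?_
    intro i a
    have hc : t⁻¹ * ω ^ i ≠ 0 := mul_ne_zero (inv_ne_zero ht) (pow_ne_zero _ h.ne)
    have hab : a ≠ a + t⁻¹ * ω ^ i := by
      intro h1
      exact hc (by linear_combination -h1)
    have hab' : (some a : Option F) ≠ some (a + t⁻¹ * ω ^ i) := fun h1 =>
      hab (Option.some.inj h1)
    set s : {s : Finset (Option F) // s.card = 2} :=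
      ⟨{some a, some (a + t⁻¹ * ω ^ i)}, Finset.card_pair hab'⟩ with hs
    have h1 : (GP.edge s : XT F ω t) < GP.facet none := by
      refine (xt_ec' h ht hab s rfl).2 ⟨i, ?_⟩
      field_simp
      ring
    have h2 : (GP.vert (some a) : XT F ω t) < GP.edge s :=
      (GP.lt_ve _ s).2 (Finset.mem_insert_self _ _)
    have h3 : (GP.vert (some (a + t⁻¹ * ω ^ i)) : XT F ω t) < GP.edge s :=
      (GP.lt_ve _ s).2 (Finset.mem_insert_of_mem (Finset.mem_singleton_self _))
    refine Relation.ReflTransGen.tail (b := GP.edge s) (Relation.ReflTransGen.single ?_) ?_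
    · exact ⟨Or.inl h2.le, f4e9_bot _ (by simp), h1⟩
    · exact ⟨Or.inr h3.le, hv _⟩
  exact key c

/-- Job F4E9-1. The section of a facet.

Proof. By `xt_auto` and `GP.C_auto` we may assume `y = none`. Use `GP.C_of` with `z = vert (some 0)`. A face
`face s'` in the interval has an edge below it (`incx_exists`), which is in the interval; an edge in the
interval has a vertex, which is in the interval. So it suffices to connect the vertices of the
interval, which are the `vert (some a)`, `a : F` (`xt_vc`). If `c = t⁻¹ * ω ^ i` then for every `a` the edge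
`{some a, some (a + c)}` is in the interval (`xt_ec'`: `t * c = ω ^ i`; `c ≠ 0`), so `vert (some a)` and
`vert (some (a + c))` are connected. The set of all `c` such that for all `a` `vert (some a)` and
`vert (some (a + c))` are connected is an additive subgroup (the connection relation on the
interval is symmetric and transitive), so it is everything by `xh_gen` (with `t⁻¹`). -/
theorem xt_sec_facet (h : XHyp ω) (ht : t ≠ 0) (y : Option F) :
    GP.C (GP.bot : XT F ω t) (GP.facet y) := by
  obtain ⟨b, hb⟩ := exists_ne y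
  obtain ⟨g, γ, hγ, hg, -⟩ := xt_auto (t := t) h hb.symm
  refine GP.C_auto γ ?_
  rw [hγ, hγ]
  change GP.C (GP.bot : XT F ω t) (GP.facet (g y))
  rw [hg]
  refine GP.C_of (z := GP.vert (some 0)) ?_
  have hvert : ∀ a : Option F, (GP.vert a : XT F ω t) < GP.facet none →
      Relation.ReflTransGen (GP.R (GP.bot : XT F ω t) (GP.facet none)) (GP.vert a)
        (GP.vert (some 0)) := by
    intro a ha
    cases a with
    | none => exact absurd rfl ((xt_vc h ht none none).1 ha)
    | some a =>
      have h1 := f4e9_vert h ht (-a) a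
      rwa [add_neg_cancel] at h1
  have hedge : ∀ s : {s : Finset (Option F) // s.card = 2},
      (GP.edge s : XT F ω t) < GP.facet none →
      Relation.ReflTransGen (GP.R (GP.bot : XT F ω t) (GP.facet none)) (GP.edge s)
        (GP.vert (some 0)) := by
    intro s hs
    obtain ⟨a, ha⟩ := f4e9_edge (ω := ω) (t := t) s
    exact Relation.ReflTransGen.head
      ⟨Or.inr ha.le, f4e9_bot _ (by simp), ha.trans hs⟩ (hvert a (ha.trans hs))
  intro x hx hx'
  cases x with
  | bot => exact absurd hx (lt_irrefl _)
  | vert a => exact hvert a hx'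
  | edge s => exact hedge s hx'
  | face s =>
    obtain ⟨s₁, h1⟩ := f4e9_face h ht s
    exact Relation.ReflTransGen.head
      ⟨Or.inr h1.le, f4e9_bot _ (by simp), h1.trans hx'⟩ (hedge s₁ (h1.trans hx'))
  | facet y' =>
    have := GP.rk_lt _ _ hx'
    simp [GP.rk] at this
  | top =>
    have := GP.rk_lt _ _ hx'
    simp [GP.rk] at this

/-- Job F4E9-2. The whole poset. Proof. `GP.C_of` with `z = vert none`. Two different vertices are
connected by the edge `{a, b}`. Every edge has a vertex, every 2-face has an edge below it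
(`incx_exists`), every facet `y` is above a 2-face `{y, y'}`. -/
theorem xt_sec_all (h : XHyp ω) (ht : t ≠ 0) : GP.C (GP.bot : XT F ω t) GP.top := by
  refine GP.C_of (z := GP.vert none) ?_
  have hin : ∀ x : XT F ω t, x ≠ GP.bot → x ≠ GP.top → GP.bot < x ∧ x < GP.top := fun x h1 h2 =>
    ⟨f4e9_bot x h1, (GP.lt_top' x).2 h2⟩
  have hvert : ∀ a : Option F,
      Relation.ReflTransGen (GP.R (GP.bot : XT F ω t) GP.top) (GP.vert a) (GP.vert none) := by
    intro a
    by_cases ha : a = none
    · rw [ha]
    · set s : {s : Finset (Option F) // s.card = 2} := ⟨{a, none}, Finset.card_pair ha⟩ with hs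
      have h2 : (GP.vert a : XT F ω t) < GP.edge s :=
        (GP.lt_ve _ s).2 (Finset.mem_insert_self _ _)
      have h3 : (GP.vert none : XT F ω t) < GP.edge s :=
        (GP.lt_ve _ s).2 (Finset.mem_insert_of_mem (Finset.mem_singleton_self _))
      refine Relation.ReflTransGen.tail (b := GP.edge s) (Relation.ReflTransGen.single ?_) ?_
      · exact ⟨Or.inl h2.le, hin _ (by simp) (by simp)⟩
      · exact ⟨Or.inr h3.le, hin _ (by simp) (by simp)⟩
  have hedge : ∀ s : {s : Finset (Option F) // s.card = 2},
      Relation.ReflTransGen (GP.R (GP.bot : XT F ω t) GP.top) (GP.edge s) (GP.vert none) := by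
    intro s
    obtain ⟨a, ha⟩ := f4e9_edge (ω := ω) (t := t) s
    exact Relation.ReflTransGen.head ⟨Or.inr ha.le, hin _ (by simp) (by simp)⟩ (hvert a)
  have hface : ∀ s : {s : Finset (Option F) // s.card = 2},
      Relation.ReflTransGen (GP.R (GP.bot : XT F ω t) GP.top) (GP.face s) (GP.vert none) := by
    intro s
    obtain ⟨s₁, h1⟩ := f4e9_face h ht s
    exact Relation.ReflTransGen.head ⟨Or.inr h1.le, hin _ (by simp) (by simp)⟩ (hedge s₁)
  intro x hx hx'
  cases x with
  | bot => exact absurd hx (lt_irrefl _)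
  | vert a => exact hvert a
  | edge s => exact hedge s
  | face s => exact hface s
  | facet y =>
    obtain ⟨b, hb⟩ := exists_ne y
    set s : {s : Finset (Option F) // s.card = 2} := ⟨{y, b}, Finset.card_pair hb.symm⟩ with hs
    have h2 : (GP.face s : XT F ω t) < GP.facet y :=
      (GP.lt_fc s _).2 (Finset.mem_insert_self _ _)
    exact Relation.ReflTransGen.head ⟨Or.inr h2.le, hin _ (by simp) (by simp)⟩ (hface s)
  | top => exact absurd hx' (lt_irrefl _)

end Pool.Agent.H.MP_6268b4_co
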