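import Pool.Agent.H.MP_6268b4_co.TWord

/-!
The properties considered are invariant under isomorphism.
-/

namespace Pool.Agent.H.MP_6268b4_co

section transport_aux

variable {P : Type*} [PartialOrder P] {Q : Type*} [PartialOrder Q] {R : Type*} [PartialOrder R]

lemma transport_mem (f : P ≃o Q) (A : Flag P) (y : Q) : y ∈ Flag.map f A ↔ f.symm y ∈ A := by
  constructor
  · rintro ⟨x, hx, rfl⟩
    rw [f.symm_apply_apply]
    exact hx
  · intro h
    exact ⟨f.symm y, h, f.apply_symm_apply y⟩

lemma transport_mem' (f : P ≃o Q) (A : Flag P) (x : P) : f x ∈ Flag.map f A ↔ x ∈ A := by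
  rw [transport_mem, f.symm_apply_apply]

lemma transport_ext {A B : Flag P} (h : ∀ x, x ∈ A ↔ x ∈ B) : A = B :=
  Flag.ext (Set.ext h)

lemma transport_trans (f : P ≃o Q) (g : Q ≃o R) (A : Flag P) :
    Flag.map (f.trans g) A = Flag.map g (Flag.map f A) := by
  apply transport_ext
  intro x
  rw [transport_mem, transport_mem, transport_mem]
  rfl

lemma transport_symm (f : P ≃o Q) (A : Flag P) : Flag.map f.symm (Flag.map f A) = A := by
  apply transport_ext
  intro x
  rw [transport_mem, transport_mem, OrderIso.symm_symm, f.symm_apply_apply]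

lemma transport_smul (e : P ≃o P) (A : Flag P) : e • A = Flag.map e A := rfl

lemma transport_adj (f : P ≃o Q) {A B : Flag P} (h : Adj A B) :
    Adj (Flag.map f A) (Flag.map f B) := by
  obtain ⟨x, y, hx, hy, hxy, he⟩ := h
  refine ⟨f x, f y, (transport_mem' f A x).2 hx, (transport_mem' f B y).2 hy,
    fun h => hxy (f.injective h), ?_⟩
  ext z
  have h1 := Set.ext_iff.1 he (f.symm z)
  simp only [Set.mem_sdiff, SetLike.mem_coe, Set.mem_singleton_iff] at h1 ⊢
  rw [transport_mem, transport_mem, ← f.symm_apply_eq, ← f.symm_apply_eq]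
  exact h1

/-- conjugation -/
lemma transport_conj (f : P ≃o Q) {A B : Flag P} {γ : Q ≃o Q}
    (h : γ • Flag.map f A = Flag.map f B) : ((f.trans γ).trans f.symm) • A = B := by
  rw [transport_smul, transport_trans, transport_trans, ← transport_smul γ, h, transport_symm]

lemma transport_conj' (f : P ≃o Q) {A B : Flag P} {γ : P ≃o P} (h : γ • A = B) :
    ((f.symm.trans γ).trans f) • Flag.map f A = Flag.map f B := by
  rw [transport_smul, transport_trans, transport_trans, transport_symm, ← transport_smul γ, h]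

end transport_aux

variable {P : Type*} [PartialOrder P] [BoundedOrder P]
  {Q : Type*} [PartialOrder Q] [BoundedOrder Q] {rk' : Q → ℤ} {n : ℕ}

/-- Proof: transport along `f`; flags of `P` correspond to flags of `Q` (`Flag.map f` or the
equivalence `Flag.map`), adjacency and inclusion are preserved; `OrderIso.map_bot`,
`OrderIso.map_top`; for `conn` use `rtg_lift`. -/
theorem transport_poly (f : P ≃o Q) (h : IsPolytope n Q rk') : IsPolytope n P (rk' ∘ f) where
  mono := by
    intro x y hxy
    exact h.mono _ _ (f.strictMono hxy)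
  bot := by
    show rk' (f ⊥) = -1
    rw [f.map_bot, h.bot]
  top := by
    show rk' (f ⊤) = n
    rw [f.map_top, h.top]
  full := by
    intro Φ i h1 h2
    obtain ⟨y, ⟨hy1, hy2⟩, hy3⟩ := h.full (Flag.map f Φ) i h1 h2
    refine ⟨f.symm y, ⟨(transport_mem f Φ y).1 hy1, ?_⟩, ?_⟩
    · show rk' (f (f.symm y)) = i
      rw [f.apply_symm_apply, hy2]
    · rintro x ⟨hx1, hx2⟩
      have h3 := hy3 (f x) ⟨(transport_mem' f Φ x).2 hx1, hx2⟩
      rw [← h3, f.symm_apply_apply]
  conn := by
    intro Φ Ψ
    have h1 := h.conn (Flag.map f Φ) (Flag.map f Ψ)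
    have h2 := rtg_lift (p := fun A B : Flag P => Adj A B ∧ (Φ : Set P) ∩ Ψ ⊆ A ∧
      (Φ : Set P) ∩ Ψ ⊆ B) (fun A => Flag.map f.symm A) (by
        rintro A B ⟨hAB, hA, hB⟩
        refine ⟨transport_adj f.symm hAB, ?_, ?_⟩
        · rintro x ⟨hx1, hx2⟩
          exact (transport_mem f.symm A x).2
            (hA ⟨(transport_mem' f Φ x).2 hx1, (transport_mem' f Ψ x).2 hx2⟩)
        · rintro x ⟨hx1, hx2⟩
          exact (transport_mem f.symm B x).2
            (hB ⟨(transport_mem' f Φ x).2 hx1, (transport_mem' f Ψ x).2 hx2⟩)) h1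
    rw [transport_symm, transport_symm] at h2
    exact h2
  diamond := by
    intro F G hFG hr
    have h1 := h.diamond (f F) (f G) (f.strictMono hFG) hr
    have h2 : {H : Q | f F < H ∧ H < f G} = f '' {H : P | F < H ∧ H < G} := by
      ext H
      constructor
      · rintro ⟨ha, hb⟩
        refine ⟨f.symm H, ⟨?_, ?_⟩, f.apply_symm_apply H⟩
        · rw [← f.lt_iff_lt, f.apply_symm_apply]
          exact ha
        · rw [← f.lt_iff_lt, f.apply_symm_apply]
          exact hb
      · rintro ⟨x, ⟨ha, hb⟩, rfl⟩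
        exact ⟨f.strictMono ha, f.strictMono hb⟩
    rw [h2, Set.ncard_image_of_injective _ f.injective] at h1
    exact h1

/-- Proof: conjugate automorphisms by `f`. -/
theorem transport_regular (f : P ≃o Q) (h : IsRegular Q) : IsRegular P := by
  intro A B
  obtain ⟨γ, hγ⟩ := h (Flag.map f A) (Flag.map f B)
  exact ⟨_, transport_conj f hγ⟩

/-- Proof: conjugate automorphisms by `f`; the orbit quotients correspond. -/
theorem transport_chiral (f : P ≃o Q) (h : IsChiral Q) : IsChiral P := by
  constructor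
  · rw [← h.1]
    unfold flagOrbits
    refine Nat.card_congr (Quotient.congr (Flag.map f) ?_)
    intro A B
    constructor
    · rintro ⟨γ, hγ⟩
      exact ⟨_, transport_conj' f hγ⟩
    · rintro ⟨γ, hγ⟩
      exact ⟨_, transport_conj f hγ⟩
  · intro A B hAB γ hγ
    exact h.2 _ _ (transport_adj f hAB) _ (transport_conj' f hγ)

theorem transport_simple (f : P ≃o Q) (h : SimpleComplete rk') : SimpleComplete (rk' ∘ f) := by
  intro x y hx hy hxy
  obtain ⟨e, ⟨h1, h2, h3⟩, h4⟩ := h (f x) (f y) hx hy (fun h => hxy (f.injective h))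
  refine ⟨f.symm e, ⟨?_, ?_, ?_⟩, ?_⟩
  · show rk' (f (f.symm e)) = 1
    rw [f.apply_symm_apply, h1]
  · rw [f.le_symm_apply]
    exact h2
  · rw [f.le_symm_apply]
    exact h3
  · rintro z ⟨hz1, hz2, hz3⟩
    have h5 := h4 (f z) ⟨hz1, f.monotone hz2, f.monotone hz3⟩
    rw [← h5, f.symm_apply_apply]

theorem transport_odd (f : P ≃o Q) (h : OddType rk') : OddType (rk' ∘ f) := by
  intro e he
  have h1 := h (f e) he
  have h2 : {G : Q | f e ≤ G ∧ rk' G = 3} = f '' {G : P | e ≤ G ∧ (rk' ∘ f) G = 3} := by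
    ext H
    constructor
    · rintro ⟨ha, hb⟩
      refine ⟨f.symm H, ⟨?_, ?_⟩, f.apply_symm_apply H⟩
      · rw [f.le_symm_apply]
        exact ha
      · show rk' (f (f.symm H)) = 3
        rw [f.apply_symm_apply]
        exact hb
    · rintro ⟨x, ⟨ha, hb⟩, rfl⟩
      exact ⟨f.monotone ha, hb⟩
  rw [h2, Set.ncard_image_of_injective _ f.injective] at h1
  exact h1

end Pool.Agent.H.MP_6268b4_co
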