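import Pool.Agent.H.MP_6268b4_co.F4CDefs
import Pool.Agent.H.MP_6268b4_co.BridgeC
import Pool.Agent.H.MP_6268b4_co.Transport

/-!
Chiral polytopes of rank 4 with the number of facets above an edge divisible by 4 give the
group-theoretic data.
-/

namespace Pool.Agent.H.MP_6268b4_co

/-- The number of facets above each edge is divisible by 4 (rank 4). -/
def FourType {P : Type*} [PartialOrder P] (rk : P → ℤ) : Prop :=
  ∀ e : P, rk e = 1 → 4 ∣ {G : P | e ≤ G ∧ rk G = 3}.ncard

section f4f3_aux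

variable {P : Type*} [PartialOrder P] [BoundedOrder P] {rk : P → ℤ}

lemma f4f3_one (h : IsPolytope 4 P rk) {Φ : Tup P rk} {s : Fin 4 → Fin 4 → (P ≃o P)}
    (hs : ∀ i j, tmap h h (s i j) Φ = adj h j (adj h i Φ)) (i : Fin 4) : s i i = 1 :=
  eq_one_of_tmap h (by rw [hs, adj_adj])

lemma f4f3_mul (h : IsPolytope 4 P rk) {Φ : Tup P rk} {s : Fin 4 → Fin 4 → (P ≃o P)}
    (hs : ∀ i j, tmap h h (s i j) Φ = adj h j (adj h i Φ)) (i j k : Fin 4) :
    s i j * s j k = s i k := by
  apply eq_of_tmap h (Φ := Φ)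
  rw [tmap_mul, hs j k, tmap_adj, tmap_adj, hs i j, adj_adj, hs i k]

lemma f4f3_inv (h : IsPolytope 4 P rk) {Φ : Tup P rk} {s : Fin 4 → Fin 4 → (P ≃o P)}
    (hs : ∀ i j, tmap h h (s i j) Φ = adj h j (adj h i Φ)) (i j : Fin 4) :
    (s i j)⁻¹ = s j i := by
  apply inv_eq_of_mul_eq_one_right
  rw [f4f3_mul h hs, f4f3_one h hs]

lemma f4f3_comm (h : IsPolytope 4 P rk) {Φ : Tup P rk} {s : Fin 4 → Fin 4 → (P ≃o P)}
    (hs : ∀ i j, tmap h h (s i j) Φ = adj h j (adj h i Φ)) {i j : Fin 4}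
    (hij : (i : ℕ) + 2 ≤ j) : s i j = s j i := by
  apply eq_of_tmap h (Φ := Φ)
  rw [hs, hs, adj_comm h hij]

lemma f4f3_fix (h : IsPolytope 4 P rk) {Φ : Tup P rk} {s : Fin 4 → Fin 4 → (P ≃o P)}
    (hs : ∀ i j, tmap h h (s i j) Φ = adj h j (adj h i Φ)) {i j l : Fin 4} (h1 : l ≠ i)
    (h2 : l ≠ j) : s i j (Φ.1 l) = Φ.1 l := by
  rw [← tmap_apply h h, hs, adj_same h _ h2, adj_same h _ h1]

omit [BoundedOrder P] in
lemma f4f3_zfix {σ z : P ≃o P} {x : P} (hσ : σ x = x)
    (hz : z ∈ Subgroup.zpowers σ) : z x = x := by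
  rw [Subgroup.zpowers_eq_closure] at hz
  induction hz using Subgroup.closure_induction with
  | mem y hy =>
    rw [Set.mem_singleton_iff] at hy
    rw [hy, hσ]
  | one => rfl
  | mul a b _ _ ha hb =>
    change a (b x) = x
    rw [hb, ha]
  | inv a _ ha =>
    have h1 : a⁻¹ (a x) = x := a.symm_apply_apply x
    rwa [ha] at h1

lemma f4f3_cl (h : IsPolytope 4 P rk) {Φ : Tup P rk} {s : Fin 4 → Fin 4 → (P ≃o P)}
    (hs : ∀ i j, tmap h h (s i j) Φ = adj h j (adj h i Φ)) (J : Fin 4 → Prop) (a b : Fin 4)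
    (hJ : ∀ i, ¬ J i → i = a ∨ i = b) :
    Subgroup.closure {x | ∃ i j, ¬ J i ∧ ¬ J j ∧ x = s i j} ≤ Subgroup.zpowers (s a b) := by
  rw [Subgroup.closure_le]
  rintro x ⟨i, j, hi, hj, rfl⟩
  rcases hJ i hi with rfl | rfl <;> rcases hJ j hj with rfl | rfl
  · rw [f4f3_one h hs]
    exact one_mem _
  · exact Subgroup.mem_zpowers _
  · rw [← f4f3_inv h hs]
    exact inv_mem (Subgroup.mem_zpowers _)
  · rw [f4f3_one h hs]
    exact one_mem _

end f4f3_aux

/-- Job F4F3-1. The group-theoretic data: `τ = s 2 0`, `j = s 1 3`, `σ = s 3 2`.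

Proof. Exactly as `bridge_C` in the file `BridgeC.lean` (copy its proof; the private lemmas
`bridgec_fix`, `bridgec_one`, `bridgec_cl`, ... have to be copied too, with the prefix `f4f3_`); only the
field `four` instead of `odd` is different: `order_eq_chi` and `ho`. -/
theorem bridge_Q {P : Type*} [PartialOrder P] [BoundedOrder P] {rk : P → ℤ}
    (h : IsPolytope 4 P rk) [Finite P] (hC : IsChiral P) (hs : SimpleComplete rk)
    (ho : FourType rk) {Φ : Tup P rk} {s : Fin 4 → Fin 4 → (P ≃o P)}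
    (hs' : ∀ i j, tmap h h (s i j) Φ = adj h j (adj h i Φ)) :
    QHyp (vert0 h Φ) (vert1 h Φ) (s 2 0) (s 1 3) (s 3 2) := by
  obtain ⟨r1, r2, r3, r4, r5, r6, r7, r8⟩ := chi_rel h hs'
  have hc : ∀ (i : Fin 4) (γ : P ≃o P), tmap h h γ Φ ≠ adj h i Φ :=
    fun i γ => chiral_tup1 h hC Φ i γ
  refine
    { two := two_trans h hs (fun Φ Ψ => chiral_tup2 h hC Φ Ψ 3)
      vw := vert0_ne h Φ
      ττ := r4
      jj := r5
      four := ?_
      σv := ?_
      σw := ?_
      τv := ?_
      jv := ?_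
      τσ := r6
      stab2 := ?_
      stab1 := ?_ }
  · rw [← order_eq_chi h hs' hc (fun Ψ => chiral_tup2 h hC Φ Ψ 2)]
    exact ho _ (Φ.hrk 1)
  · apply Vert.ext
    rw [smul_vert_val, vert0_val]
    exact f4f3_fix h hs' (by decide) (by decide)
  · rw [smul_vert1, hs']
    apply Vert.ext
    rw [vert1_val, vert1_val, adj_comm h (i := 0) (j := 2) (by decide),
      adj_comm h (i := 0) (j := 3) (by decide), adj_same h _ (by decide),
      adj_same h _ (by decide)]
  · apply Vert.ext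
    rw [smul_vert0, hs', vert0_val, vert1_val, adj_comm h (i := 0) (j := 2) (by decide),
      adj_same h _ (by decide)]
  · apply Vert.ext
    rw [smul_vert_val, vert0_val]
    exact f4f3_fix h hs' (by decide) (by decide)
  · intro g hg1 hg2
    obtain ⟨g0, g1⟩ := (fix_edge_iff h hs Φ g).1 ⟨hg1, hg2⟩
    have hz' := chi_stab h hs' hc (fun i => i = 0 ∨ i = 1) (γ := g) (fun i hi => by
      rcases hi with rfl | rfl
      · exact g0
      · exact g1)
    refine f4f3_cl h hs' (fun i => i = 0 ∨ i = 1) 3 2 (fun i hi => ?_) hz'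
    revert hi
    fin_cases i <;> simp
  · intro g hg
    have g0 : g (Φ.1 0) = Φ.1 0 := congrArg Subtype.val hg
    have hz' := chi_stab h hs' hc (fun i => i = 0) (γ := g) (fun i hi => by
      have hi' : i = 0 := hi
      rw [hi', g0])
    refine (Subgroup.closure_le _).2 ?_ hz'
    have m13 : s 1 3 ∈ Subgroup.closure {s 1 3, s 3 2} :=
      Subgroup.subset_closure (by simp)
    have m32 : s 3 2 ∈ Subgroup.closure {s 1 3, s 3 2} :=
      Subgroup.subset_closure (by simp)
    have m12 : s 1 2 ∈ Subgroup.closure {s 1 3, s 3 2} := by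
      rw [← r8]
      exact mul_mem m13 m32
    have key : ∀ i j : Fin 4, i ≠ 0 → j ≠ 0 → s i j ∈ Subgroup.closure {s 1 3, s 3 2} := by
      intro i j hi hj
      have hi' : i = 1 ∨ i = 2 ∨ i = 3 := by
        revert hi
        fin_cases i <;> simp
      have hj' : j = 1 ∨ j = 2 ∨ j = 3 := by
        revert hj
        fin_cases j <;> simp
      rcases hi' with rfl | rfl | rfl <;> rcases hj' with rfl | rfl | rfl
      · rw [r1]; exact one_mem _
      · exact m12
      · exact m13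
      · rw [← r3 1 2]; exact inv_mem m12
      · rw [r1]; exact one_mem _
      · rw [← r3 3 2]; exact inv_mem m32
      · rw [← r7]; exact m13
      · exact m32
      · rw [r1]; exact one_mem _
    rintro x ⟨i, j, hi, hj, rfl⟩
    exact key i j hi hj

/-- Job F4F3-2. As `transport_odd` in the file `Transport.lean` (copy and adapt its proof). -/
theorem transport_four {P : Type*} [PartialOrder P] {Q : Type*} [PartialOrder Q]
    {rk' : Q → ℤ} (f : P ≃o Q) (h : FourType rk') : FourType (rk' ∘ f) := by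
  intro e he
  have h1 := h (f e) he
  have h2 : {G : Q | f e ≤ G ∧ rk' G = 3} = f '' {G : P | e ≤ G ∧ (rk' ∘ f) G = 3} := by
    ext H
    constructor
    · rintro ⟨ha, hb⟩
      refine ⟨f.symm H, ⟨?_, ?_⟩, f.apply_symm_apply H⟩
      · rw [f.le_symm_apply]
        exact ha
      · show rk' (f (f.symm H)) = 3
        rw [f.apply_symm_apply]
        exact hb
    · rintro ⟨x, ⟨ha, hb⟩, rfl⟩
      exact ⟨f.monotone ha, hb⟩
  rw [h2, Set.ncard_image_of_injective _ f.injective] at h1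
  exact h1

end Pool.Agent.H.MP_6268b4_co
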