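import Pool.Agent.H.MP_6268b4_co.F4E7
import Pool.Agent.H.MP_6268b4_co.F4E8
import Pool.Agent.H.MP_6268b4_co.F4E9
import Pool.Agent.H.MP_6268b4_co.F4F3

/-!
The cross-ratio polytopes are polytopes; number of facets above an edge.
-/

namespace Pool.Agent.H.MP_6268b4_co

variable {F : Type*} [Field F] [Fintype F] [DecidableEq F] {ω t : F}

/-- Job F4E10-1. Proof. Cases on `A < B` with `rk A + 3 ≤ rk B` (the relation in `SecConn` is
`GP.R A B`): `(bot, face)`: `xt_sec_face`; `(bot, facet)`: `xt_sec_facet`; `(bot, top)`:
`xt_sec_all`; `(vert, facet)`: `xt_sec_mid` (`xt_vc`); `(vert, top)`: `GP.C_dual` (with `incx_dual`) and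
`xt_sec_facet` for `t * (1 - ω)`; `(edge, top)`: `GP.C_dual` and `xt_sec_face` for `t * (1 - ω)`. -/
theorem xt_secConn (h : XHyp ω) (ht : t ≠ 0) : SecConn (XT F ω t) GP.rk := by
  intro A B hAB hrk x y hx hx' hy hy'
  suffices hC : GP.C A B from hC x y hx hx' hy hy'
  clear hx hx' hy hy' x y
  have ht' : t * (1 - ω) ≠ 0 := mul_ne_zero ht (xh_basic h).2.2.2.2.2.1
  cases A with
  | bot =>
    cases B with
    | bot => simp [GP.rk] at hrk
    | vert a => simp [GP.rk] at hrk
    | edge s => simp [GP.rk] at hrk
    | face s => exact xt_sec_face h ht s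
    | facet y => exact xt_sec_facet h ht y
    | top => exact xt_sec_all h ht
  | vert c =>
    cases B with
    | bot => simp [GP.rk] at hrk
    | vert a => simp [GP.rk] at hrk
    | edge s => simp [GP.rk] at hrk
    | face s => simp [GP.rk] at hrk
    | facet d => exact xt_sec_mid h ht ((xt_vc h ht c d).1 hAB)
    | top => exact GP.C_dual (incx_dual h ht) (xt_sec_facet h ht' c)
  | edge s =>
    cases B with
    | bot => simp [GP.rk] at hrk
    | vert a => simp [GP.rk] at hrk
    | edge s => simp [GP.rk] at hrk
    | face s => simp [GP.rk] at hrk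
    | facet d => simp [GP.rk] at hrk
    | top => exact GP.C_dual (incx_dual h ht) (xt_sec_face h ht' s)
  | face s => cases B <;> simp [GP.rk] at hrk
  | facet s => cases B <;> simp [GP.rk] at hrk
  | top => cases B <;> simp [GP.rk] at hrk

theorem xt_isPolytope (h : XHyp ω) (ht : t ≠ 0) : IsPolytope 4 (XT F ω t) GP.rk :=
  isPolytope_of_sec (xt_graded h ht) (xt_diamond h ht) (xt_secConn h ht)

/-- Job F4E10-2. Proof: the faces of rank 0 are the `vert a`, those of rank 1 the `edge s`; the only
pair containing `a ≠ b` is `{a, b}`. -/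
theorem gp_simple {X : Type*} [DecidableEq X] {I : Finset X → Finset X → Prop} :
    SimpleComplete (GP.rk : GP X I → ℤ) := by
  intro x y hx hy hxy
  cases x with
  | vert a =>
    cases y with
    | vert b =>
      have hab : a ≠ b := fun h => hxy (by rw [h])
      refine ⟨GP.edge ⟨{a, b}, Finset.card_pair hab⟩, ⟨rfl, ?_, ?_⟩, ?_⟩
      · change a ∈ ({a, b} : Finset X)
        simp
      · change b ∈ ({a, b} : Finset X)
        simp
      · rintro e ⟨he, he1, he2⟩
        cases e with
        | edge r =>
          have h1 : a ∈ r.1 := he1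
          have h2 : b ∈ r.1 := he2
          have h3 : ({a, b} : Finset X) = r.1 := by
            apply Finset.eq_of_subset_of_card_le
            · intro z hz
              simp only [Finset.mem_insert, Finset.mem_singleton] at hz
              rcases hz with rfl | rfl
              · exact h1
              · exact h2
            · rw [r.2, Finset.card_pair hab]
          have h4 : r = ⟨{a, b}, Finset.card_pair hab⟩ := Subtype.ext h3.symm
          rw [h4]
        | bot => simp [GP.rk] at he
        | vert j => simp [GP.rk] at he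
        | face j => simp [GP.rk] at he
        | facet j => simp [GP.rk] at he
        | top => simp [GP.rk] at he
    | bot => simp [GP.rk] at hy
    | edge j => simp [GP.rk] at hy
    | face j => simp [GP.rk] at hy
    | facet j => simp [GP.rk] at hy
    | top => simp [GP.rk] at hy
  | bot => simp [GP.rk] at hx
  | edge j => simp [GP.rk] at hx
  | face j => simp [GP.rk] at hx
  | facet j => simp [GP.rk] at hx
  | top => simp [GP.rk] at hx

theorem f4e10_rk_mapF {X : Type*} {I : Finset X → Finset X → Prop} (g : Equiv.Perm X)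
    (x : GP X I) : GP.rk (GP.mapF g x) = GP.rk x := by
  cases x <;> rfl

/-- The facets above the edge `{∞, 0}`. -/
theorem f4e10_zero (h : XHyp ω) (ht : t ≠ 0) (s : {s : Finset (Option F) // s.card = 2})
    (hs : s.1 = {none, some 0}) :
    {G : XT F ω t | (GP.edge s : XT F ω t) ≤ G ∧ GP.rk G = 3}.ncard = orderOf ω := by
  have hset : {G : XT F ω t | (GP.edge s : XT F ω t) ≤ G ∧ GP.rk G = 3} =
      (fun i : ℕ => (GP.facet (some (t⁻¹ * ω ^ i)) : XT F ω t)) ''
        ((Finset.range (orderOf ω) : Finset ℕ) : Set ℕ) := by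
    ext G
    simp only [Set.mem_ofPred_eq, Set.mem_image, Finset.mem_coe, Finset.mem_range]
    constructor
    · rintro ⟨h1, h3⟩
      cases G with
      | facet y =>
        have hlt : (GP.edge s : XT F ω t) < GP.facet y := by
          refine lt_of_le_of_ne h1 ?_
          intro he
          cases he
        cases y with
        | none =>
          exfalso
          have h4 : (GP.vert none : XT F ω t) < GP.edge s := by
            rw [GP.lt_ve, hs]
            simp
          exact (xt_vc h ht none none).1 (h4.trans hlt) rfl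
        | some y =>
          obtain ⟨i, hi⟩ := (xt_ec0 h ht s hs).1 hlt
          refine ⟨i % orderOf ω, Nat.mod_lt _ (xh_basic h).1, ?_⟩
          rw [pow_mod_orderOf, ← hi, ← mul_assoc, inv_mul_cancel₀ ht, one_mul]
      | bot => simp [GP.rk] at h3
      | vert j => simp [GP.rk] at h3
      | edge j => simp [GP.rk] at h3
      | face j => simp [GP.rk] at h3
      | top => simp [GP.rk] at h3
    · rintro ⟨i, -, rfl⟩
      refine ⟨le_of_lt ((xt_ec0 h ht s hs).2 ⟨i, ?_⟩), rfl⟩
      rw [← mul_assoc, mul_inv_cancel₀ ht, one_mul]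
  rw [hset, Set.InjOn.ncard_image, Set.ncard_coe_finset, Finset.card_range]
  intro i hi k hk hik
  have h1 : t⁻¹ * ω ^ i = t⁻¹ * ω ^ k := by
    have h2 : (GP.facet (some (t⁻¹ * ω ^ i)) : XT F ω t) = GP.facet (some (t⁻¹ * ω ^ k)) := hik
    injection h2 with h3
    exact Option.some.inj h3
  exact pow_injOn_Iio_orderOf (by simpa using hi) (by simpa using hk)
    (mul_left_cancel₀ (inv_ne_zero ht) h1)

/-- Job F4E10-3. Proof. The faces of rank 1 are the `edge s`, `s.1 = {a, b}`, `a ≠ b`. By `xt_auto` we may
assume `s.1 = {none, some 0}` (the automorphism maps the set of facets above `edge s` bijectively to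
that above its image; ranks are preserved by `GP.mapF`). The facets above it are the
`facet (some y)` with `PW ω (t * y)` (`xt_ec0`; `facet none` is not above it, `xt_vc`), i.e.
`y = t⁻¹ * ω ^ i`; their number is `orderOf ω`, divisible by 4. -/
theorem xt_fourType (h : XHyp ω) (ht : t ≠ 0) : FourType (GP.rk : XT F ω t → ℤ) := by
  intro e he
  cases e with
  | edge s =>
    obtain ⟨a, b, hab, hs⟩ := Finset.card_eq_two.1 s.2
    obtain ⟨g, γ, hγ, hga, hgb⟩ := xt_auto (t := t) h hab
    have hsg : (GP.mapPair g s).1 = {none, some 0} := by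
      change s.1.map g.toEmbedding = _
      rw [hs, f4e4_map_pair, hga, hgb]
    have h1 := f4e10_zero h ht (GP.mapPair g s) hsg
    have h2 : {G : XT F ω t | (GP.edge (GP.mapPair g s) : XT F ω t) ≤ G ∧ GP.rk G = 3} =
        γ '' {G : XT F ω t | (GP.edge s : XT F ω t) ≤ G ∧ GP.rk G = 3} := by
      have he' : (GP.edge (GP.mapPair g s) : XT F ω t) = γ (GP.edge s) :=
        (hγ (GP.edge s)).symm
      rw [he']
      ext H
      constructor
      · rintro ⟨ha, hb⟩
        refine ⟨γ.symm H, ⟨?_, ?_⟩, γ.apply_symm_apply H⟩
        · rw [γ.le_symm_apply]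
          exact ha
        · have h5 : GP.rk (γ (γ.symm H)) = 3 := by
            rw [γ.apply_symm_apply]
            exact hb
          rwa [hγ, f4e10_rk_mapF] at h5
      · rintro ⟨x, ⟨ha, hb⟩, rfl⟩
        refine ⟨γ.monotone ha, ?_⟩
        rw [hγ, f4e10_rk_mapF]
        exact hb
    rw [h2, Set.ncard_image_of_injective _ γ.injective] at h1
    rw [h1]
    exact h.four
  | bot => simp [GP.rk] at he
  | vert j => simp [GP.rk] at he
  | face j => simp [GP.rk] at he
  | facet j => simp [GP.rk] at he
  | top => simp [GP.rk] at he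

end Pool.Agent.H.MP_6268b4_co
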