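import Pool.Agent.H.MP_6268b4_co.F4E10
import Pool.Agent.H.MP_6268b4_co.TVDefs
import Pool.Agent.H.MP_6268b4_co.TVert

/-!
Automorphisms of the cross-ratio polytopes.
-/

namespace Pool.Agent.H.MP_6268b4_co

variable {F : Type*} [Field F] [Fintype F] [DecidableEq F] {ω t : F}

/-- Job F4E11-1. An automorphism induces the same permutation of the points on the vertices and on the
facets.

Proof (see `CR.auto_form` in `CRAuto.lean`). `γ` preserves the ranks (`IsPolytope.rk_map`), so
`γ (vert a) = vert (g a)` for a permutation `g` (use `γ.symm` for the inverse) and `γ (facet y)` is a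
facet `facet y'`; the only vertex not below `facet y` is `vert y` (`xt_vc`), so the only vertex not below
`facet y'` is `vert (g y)`, so `y' = g y`. The vertices below `edge s` are the `vert a`, `a ∈ s`, so
`γ (edge s) = edge (g s)`; the facets above `face s` are the `facet y`, `y ∈ s`, so
`γ (face s) = face (g s)`. -/
theorem xt_auto_form (h : XHyp ω) (ht : t ≠ 0) (γ : XT F ω t ≃o XT F ω t) :
    ∃ g : Equiv.Perm (Option F), ∀ x, γ x = GP.mapF g x := by
  have hP := xt_isPolytope h ht
  have hrk : ∀ (δ : XT F ω t ≃o XT F ω t) (x : XT F ω t), GP.rk (δ x) = GP.rk x :=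
    fun δ x => IsPolytope.rk_map hP hP δ x
  have hle : ∀ x y : XT F ω t, γ x ≤ γ y ↔ x ≤ y := fun x y => γ.le_iff_le
  have hvert : ∀ (δ : XT F ω t ≃o XT F ω t), ∀ a, ∃ b, δ (GP.vert a) = GP.vert b := by
    intro δ a
    have h := hrk δ (GP.vert a)
    revert h
    cases δ (GP.vert a) <;> simp [GP.rk]
  choose f hf using hvert γ
  choose f' hf' using hvert γ.symm
  have e1 : ∀ a, f' (f a) = a := by
    intro a
    have h := hf' (f a)
    rw [← hf a, OrderIso.symm_apply_apply] at h
    injection h with h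
    exact h.symm
  have e2 : ∀ a, f (f' a) = a := by
    intro a
    have h := hf (f' a)
    rw [← hf' a, OrderIso.apply_symm_apply] at h
    injection h with h
    exact h.symm
  let g : Equiv.Perm (Option F) := ⟨f, f', e1, e2⟩
  have hg : ∀ a, γ (GP.vert a) = GP.vert (g a) := hf
  have hfacet : ∀ y, γ (GP.facet y) = GP.facet (g y) := by
    intro y
    have h2 : ∃ z, γ (GP.facet y) = GP.facet z := by
      have h := hrk γ (GP.facet y)
      revert h
      cases γ (GP.facet y) <;> simp [GP.rk]
    obtain ⟨z, hz⟩ := h2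
    have h1 : γ (GP.vert y) < γ (GP.facet y) ↔ (GP.vert y : XT F ω t) < GP.facet y :=
      γ.lt_iff_lt
    rw [hz, hg y, xt_vc h ht, xt_vc h ht] at h1
    have h3 : g y = z := by
      by_contra h4
      exact (h1.1 h4) rfl
    rw [hz, h3]
  have hedge : ∀ s, γ (GP.edge s) = GP.edge (GP.mapPair g s) := by
    intro s
    have h2 : ∃ z, γ (GP.edge s) = GP.edge z := by
      have h := hrk γ (GP.edge s)
      revert h
      cases γ (GP.edge s) <;> simp [GP.rk]
    obtain ⟨z, hz⟩ := h2
    rw [hz]
    congr 1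
    apply Subtype.ext
    ext a
    have h1 := hle (GP.vert (g.symm a)) (GP.edge s)
    rw [hz, hg, Equiv.apply_symm_apply] at h1
    have h3 : a ∈ z.1 ↔ g.symm a ∈ s.1 := h1
    rw [h3]
    simp only [GP.mapPair, Finset.mem_map_equiv]
  have hface : ∀ s, γ (GP.face s) = GP.face (GP.mapPair g s) := by
    intro s
    have h2 : ∃ z, γ (GP.face s) = GP.face z := by
      have h := hrk γ (GP.face s)
      revert h
      cases γ (GP.face s) <;> simp [GP.rk]
    obtain ⟨z, hz⟩ := h2
    rw [hz]
    congr 1
    apply Subtype.ext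
    ext a
    have h1 := hle (GP.face s) (GP.facet (g.symm a))
    rw [hz, hfacet, Equiv.apply_symm_apply] at h1
    have h3 : a ∈ z.1 ↔ g.symm a ∈ s.1 := h1
    rw [h3]
    simp only [GP.mapPair, Finset.mem_map_equiv]
  refine ⟨g, ?_⟩
  intro x
  cases x with
  | bot => exact γ.map_bot
  | vert a => exact hg a
  | edge s => exact hedge s
  | face s => exact hface s
  | facet y => exact hfacet y
  | top => exact γ.map_top

/-- Job F4E11-2. Proof: `xt_auto_form`: if `γ` and `δ` agree on all vertices (the atoms are the `vert a`,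
`isAtom_iff`) then the permutations are equal (see `CR.faithful` in `CRChiralB.lean`). -/
theorem xt_faithful (h : XHyp ω) (ht : t ≠ 0) :
    FaithfulSMul (XT F ω t ≃o XT F ω t) (Vert (XT F ω t)) := by
  have hP := xt_isPolytope h ht
  refine ⟨?_⟩
  intro γ δ hγδ
  obtain ⟨g, hg⟩ := xt_auto_form h ht γ
  obtain ⟨k, hk⟩ := xt_auto_form h ht δ
  have hgk : g = k := by
    ext1 a
    have h3 := congrArg Subtype.val (hγδ ⟨GP.vert a, (isAtom_iff hP _).2 rfl⟩)
    rw [smul_vert_val, smul_vert_val] at h3
    change γ (GP.vert a) = δ (GP.vert a) at h3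
    rw [hg, hk] at h3
    injection h3
  apply DFunLike.ext
  intro x
  rw [hg, hk, hgk]

/-- Job F4E11-3. The vertices. Proof: as `idchiral_vert` in `IdChiral.lean`. -/
theorem xt_vert (h : XHyp ω) (ht : t ≠ 0) :
    ∃ δ : Option F ≃ Vert (XT F ω t), ∀ a, (δ a).1 = GP.vert a := by
  have hP := xt_isPolytope h ht
  refine ⟨Equiv.ofBijective (fun a => ⟨GP.vert a, (isAtom_iff hP _).2 rfl⟩) ⟨?_, ?_⟩,
    fun a => rfl⟩
  · intro a b hab
    have h1 : (GP.vert a : XT F ω t) = GP.vert b := congrArg Subtype.val hab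
    exact GP.vert.inj h1
  · rintro ⟨x, hx⟩
    have h1 := (isAtom_iff hP x).1 hx
    cases x with
    | vert a => exact ⟨a, rfl⟩
    | bot => simp [GP.rk] at h1
    | edge s => simp [GP.rk] at h1
    | face s => simp [GP.rk] at h1
    | facet a => simp [GP.rk] at h1
    | top => simp [GP.rk] at h1

end Pool.Agent.H.MP_6268b4_co
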