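import Pool.Agent.H.MP_6268b4_co.TBase

/-!
Words of adjacencies; regular and chiral polytopes; words of automorphisms.
-/

namespace Pool.Agent.H.MP_6268b4_co

set_option maxHeartbeats 400000

/-- Regular: any two flags are related by an automorphism. -/
def IsRegular (P : Type*) [PartialOrder P] : Prop :=
  ∀ A B : Flag P, ∃ γ : P ≃o P, γ • A = B

/-- Chiral: exactly two orbits on flags, and adjacent flags lie in different orbits. -/
def IsChiral (P : Type*) [PartialOrder P] : Prop :=
  flagOrbits P = 2 ∧ ∀ A B : Flag P, Adj A B → ∀ γ : P ≃o P, γ • A ≠ B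

/-- Any two vertices lie on exactly one common edge (the edge graph is a simple complete graph). -/
def SimpleComplete {P : Type*} [PartialOrder P] (rk : P → ℤ) : Prop :=
  ∀ x y : P, rk x = 0 → rk y = 0 → x ≠ y → ∃! e : P, rk e = 1 ∧ x ≤ e ∧ y ≤ e

/-- Every edge lies in an odd number of facets (rank 4). -/
def OddType {P : Type*} [PartialOrder P] (rk : P → ℤ) : Prop :=
  ∀ e : P, rk e = 1 → Odd {G : P | e ≤ G ∧ rk G = 3}.ncard

section words

variable {P : Type*} [PartialOrder P] [BoundedOrder P] {rk : P → ℤ}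
  {Q : Type*} [PartialOrder Q] [BoundedOrder Q] {rk' : Q → ℤ}

/-- apply a word of adjacencies, first letter first -/
noncomputable def adjw (h : IsPolytope 4 P rk) : List (Fin 4) → Tup P rk → Tup P rk
  | [], Φ => Φ
  | i :: w, Φ => adjw h w (adj h i Φ)

lemma adjw_nil (h : IsPolytope 4 P rk) (Φ : Tup P rk) : adjw h [] Φ = Φ := rfl

lemma adjw_cons (h : IsPolytope 4 P rk) (i : Fin 4) (w : List (Fin 4)) (Φ : Tup P rk) :
    adjw h (i :: w) Φ = adjw h w (adj h i Φ) := rfl

lemma adjw_append (h : IsPolytope 4 P rk) (w w' : List (Fin 4)) (Φ : Tup P rk) :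
    adjw h (w ++ w') Φ = adjw h w' (adjw h w Φ) := by
  induction w generalizing Φ with
  | nil => rfl
  | cons i w ih => rw [List.cons_append, adjw_cons, adjw_cons, ih]

lemma adjw_reverse (h : IsPolytope 4 P rk) (w : List (Fin 4)) (Φ : Tup P rk) :
    adjw h w.reverse (adjw h w Φ) = Φ := by
  induction w generalizing Φ with
  | nil => rfl
  | cons i w ih =>
    rw [List.reverse_cons, adjw_append, adjw_cons h i w, ih, adjw_cons, adjw_nil, adj_adj]

lemma adjw_eq_iff (h : IsPolytope 4 P rk) (w w' : List (Fin 4)) (Φ : Tup P rk) :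
    adjw h w Φ = adjw h w' Φ ↔ adjw h (w ++ w'.reverse) Φ = Φ := by
  rw [adjw_append]
  constructor
  · intro h1
    rw [h1, adjw_reverse]
  · intro h1
    have := congrArg (adjw h w') h1
    rw [← this]
    have h2 := adjw_reverse h w'.reverse (adjw h w Φ)
    rw [List.reverse_reverse] at h2
    exact h2.symm

lemma tmap_adjw (h : IsPolytope 4 P rk) (h' : IsPolytope 4 Q rk') (γ : P ≃o Q)
    (w : List (Fin 4)) (Φ : Tup P rk) :
    tmap h h' γ (adjw h w Φ) = adjw h' w (tmap h h' γ Φ) := by
  induction w generalizing Φ with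
  | nil => rfl
  | cons i w ih => rw [adjw_cons, ih, tmap_adj, adjw_cons]

/-- a word in the letters `i` with `J i` joining two flags which agree outside `J` -/
lemma exists_word (h : IsPolytope 4 P rk) (Φ Ψ : Tup P rk) :
    ∃ w : List (Fin 4), (∀ i ∈ w, Φ.1 i ≠ Ψ.1 i) ∧ adjw h w Φ = Ψ := by
  have key : ∀ (J : Fin 4 → Prop) (A : Tup P rk),
      Relation.ReflTransGen (fun A B : Tup P rk => ∃ i, J i ∧ B = adj h i A) Φ A →
      ∃ w : List (Fin 4), (∀ i ∈ w, J i) ∧ adjw h w Φ = A := by
    intro J A hA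
    induction hA with
    | refl => exact ⟨[], by simp, rfl⟩
    | tail _ hbc ih =>
      obtain ⟨i, hi, rfl⟩ := hbc
      obtain ⟨w, hw, rfl⟩ := ih
      refine ⟨w ++ [i], ?_, ?_⟩
      · intro k hk
        rw [List.mem_append, List.mem_singleton] at hk
        rcases hk with hk | rfl
        · exact hw k hk
        · exact hi
      · rw [adjw_append]
        rfl
  exact key _ Ψ (conn_tup h Φ Ψ)

lemma adjw_same (h : IsPolytope 4 P rk) {w : List (Fin 4)} {i : Fin 4} (hw : i ∉ w)
    (Φ : Tup P rk) : (adjw h w Φ).1 i = Φ.1 i := by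
  induction w generalizing Φ with
  | nil => rfl
  | cons k w ih =>
    rw [List.mem_cons, not_or] at hw
    rw [adjw_cons, ih hw.2, adj_same h Φ hw.1]

/-- regular polytopes: words of adjacencies are words in the generators -/
lemma adjw_reg (h : IsPolytope 4 P rk) {Φ : Tup P rk} {ρ : Fin 4 → (P ≃o P)}
    (hρ : ∀ i, tmap h h (ρ i) Φ = adj h i Φ) (w : List (Fin 4)) :
    adjw h w Φ = tmap h h (w.map ρ).prod Φ := by
  induction w with
  | nil => rfl
  | cons i w ih =>
    rw [adjw_cons, ← hρ i, ← tmap_adjw, ih, ← tmap_mul, List.map_cons, List.prod_cons]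

/-- the word of pairs -/
def flatw : List (Fin 4 × Fin 4) → List (Fin 4)
  | [] => []
  | p :: w => p.1 :: p.2 :: flatw w

/-- chiral polytopes: words of even length are words in the generators -/
lemma adjw_chi (h : IsPolytope 4 P rk) {Φ : Tup P rk} {s : Fin 4 → Fin 4 → (P ≃o P)}
    (hs : ∀ i j, tmap h h (s i j) Φ = adj h j (adj h i Φ)) (w : List (Fin 4 × Fin 4)) :
    adjw h (flatw w) Φ = tmap h h (w.map fun p => s p.1 p.2).prod Φ := by
  induction w with
  | nil => rfl
  | cons p w ih =>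
    rw [flatw, adjw_cons, adjw_cons, ← hs p.1 p.2, ← tmap_adjw, ih, ← tmap_mul, List.map_cons,
      List.prod_cons]

lemma exists_flatw (w : List (Fin 4)) : (∃ v, w = flatw v) ∨ ∃ v i, w = flatw v ++ [i] := by
  induction w using List.reverseRecOn with
  | nil => exact Or.inl ⟨[], rfl⟩
  | append_singleton w i ih =>
    rcases ih with ⟨v, rfl⟩ | ⟨v, k, rfl⟩
    · exact Or.inr ⟨v, i, rfl⟩
    · left
      refine ⟨v ++ [(k, i)], ?_⟩
      have : ∀ v : List (Fin 4 × Fin 4), flatw (v ++ [(k, i)]) = flatw v ++ [k, i] := by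
        intro v
        induction v with
        | nil => rfl
        | cons p v ih => rw [List.cons_append, flatw, flatw, ih]; rfl
      rw [this]
      simp

lemma exists_edge_tup (h : IsPolytope 4 P rk) (hs : SimpleComplete rk) {x y : P}
    (hx : rk x = 0) (hy : rk y = 0) (hxy : x ≠ y) :
    ∃ Φ : Tup P rk, Φ.1 0 = x ∧ (adj h 0 Φ).1 0 = y := by
  obtain ⟨e, ⟨he, hxe, hye⟩, -⟩ := hs x y hx hy hxy
  obtain ⟨Φ, h1, h2⟩ := exists_tup_mem₂ h (i := 0) (j := 1) (by simpa using hx)
    (by simpa using he) hxe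
  refine ⟨Φ, h1, ?_⟩
  obtain ⟨Ψ, hΨ1, hΨ2⟩ := exists_upd Φ 0 y (by simpa using hy) (fun k hk => by simp at hk)
    (fun k hk => by
      have : k = 1 := Fin.ext (by simpa using hk.symm)
      rw [this, h2]
      exact hye)
  have h3 := adj_unique h 0 Φ Ψ (by rw [hΨ1, h1]; exact hxy.symm) hΨ2
  rw [← h3, hΨ1]

end words

end Pool.Agent.H.MP_6268b4_co
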