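import Pool.Agent.H.MP_6268b4_co.F4E10
import Pool.Agent.H.MP_6268b4_co.TWord

/-!
Generators of the automorphism groups of the cross-ratio polytopes.
-/

namespace Pool.Agent.H.MP_6268b4_co

variable {F : Type*} [Field F] [Fintype F] [DecidableEq F] {ω : F}

/-- if two tuples agree at the neighbours of `i` and differ at `i`, the face of rank `i` of the
second tuple is the face of rank `i` of the adjacent tuple -/
lemma f4e12_upd {P : Type*} [PartialOrder P] [BoundedOrder P] {rk : P → ℤ}
    (h : IsPolytope 4 P rk) (Φ T : Tup P rk) (i : Fin 4) (hT : T.1 i ≠ Φ.1 i)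
    (h1 : ∀ k : Fin 4, (k : ℕ) + 1 = i → T.1 k = Φ.1 k)
    (h2 : ∀ k : Fin 4, (i : ℕ) + 1 = k → T.1 k = Φ.1 k) : (adj h i Φ).1 i = T.1 i := by
  obtain ⟨X, hX1, hX2⟩ := exists_upd Φ i (T.1 i) (T.hrk i)
    (fun k hk => by
      rw [← h1 k hk]
      apply T.le
      change (k : ℕ) ≤ i
      omega)
    (fun k hk => by
      rw [← h2 k hk]
      apply T.le
      change (i : ℕ) ≤ k
      omega)
  rw [← adj_unique h i Φ X (by rw [hX1]; exact hT) hX2, hX1]

/-- two tuples which differ exactly in the faces of the two non-neighbouring ranks `i` and `j` -/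
lemma f4e12_two {P : Type*} [PartialOrder P] [BoundedOrder P] {rk : P → ℤ}
    (h : IsPolytope 4 P rk) (Φ T : Tup P rk) (i j : Fin 4) (hij : (i : ℕ) ≠ j)
    (hij1 : (i : ℕ) ≠ j + 1) (hij2 : (j : ℕ) ≠ i + 1) (hi : T.1 i ≠ Φ.1 i) (hj : T.1 j ≠ Φ.1 j)
    (hs : ∀ k, k ≠ i → k ≠ j → T.1 k = Φ.1 k) : T = adj h i (adj h j Φ) := by
  have hne : i ≠ j := fun he => hij (congrArg _ he)
  apply adj_unique
  · rw [adj_same h Φ hne]
    exact hi
  · intro k hk
    by_cases hkj : k = j
    · subst hkj
      symm
      apply f4e12_upd h Φ T k hj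
      · intro l hl
        apply hs
        · rintro rfl
          omega
        · rintro rfl
          omega
      · intro l hl
        apply hs
        · rintro rfl
          omega
        · rintro rfl
          omega
    · rw [adj_same h Φ hkj]
      exact hs k hk hkj

omit [Field F] [Fintype F] in
lemma f4e12_mapPair (g : Equiv.Perm (Option F)) (a b : Option F)
    (h : ({a, b} : Finset (Option F)).card = 2) :
    (GP.mapPair g ⟨{a, b}, h⟩).1 = {g a, g b} := by
  simp [GP.mapPair, Finset.map_insert]

/-- Job F4E12-1. The base flag `vert ∞ < edge {∞, 0} < face {1, ω} < facet 1` of `XR F ω` and the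
elements `τ : x ↦ 1 / x`, `j : x ↦ 1 + ω - x`, `σ : x ↦ ω x`.

Proof (see `CR.generators` and the lemmas `crchirala_two`, `crchirala_upd` in `CRChiralA.lean`: copy
`crchirala_upd` and `crchirala_two` with the prefix `f4e12_`, do not import the file). `IncX ω 1 {∞, 0}
{1, ω}` by `incx_zero`. The three maps `mobI 1`, `mobT (1 + ω) * mobD (-1)`, `mobD ω` preserve the
incidence (`presx_I`, `presx_T`, `presx_D`, `PresX.mul`, `incx_map`), so they induce automorphisms
(`GP.exists_auto`). `τ`: `∞ ↦ 0`, `0 ↦ ∞`, `1 ↦ 1`, `ω ↦ 1 / ω`: the image of the base flag is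
`(0, {∞, 0}, {1, 1 / ω}, 1)`, which differs from the base flag exactly in the faces of ranks 0 and 2
(`ω ≠ 1 / ω`, `xh_basic`), so it is `adj 0 (adj 2 Ψ)`. `j`: `∞ ↦ ∞`, `0 ↦ 1 + ω`, `1 ↔ ω`: the image is
`(∞, {∞, 1 + ω}, {1, ω}, ω) = adj 3 (adj 1 Ψ)` (`1 + ω ≠ 0`, `ω ≠ 1`). `σ`: the image is
`(∞, {∞, 0}, {ω, ω ^ 2}, ω)`, and `adj 3 Ψ = (∞, {∞, 0}, {1, ω}, ω)`, so the image is `adj 2 (adj 3 Ψ)`
(`ω ^ 2 ≠ 1`). -/
theorem xr_generators (h : XHyp ω) (hp : IsPolytope 4 (XR F ω) GP.rk) :
    ∃ (Ψ : Tup (XR F ω) GP.rk) (τ j σ : XR F ω ≃o XR F ω),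
      Ψ.1 0 = GP.vert none ∧ (∃ s, Ψ.1 1 = GP.edge s ∧ s.1 = {none, some 0}) ∧
      (∃ s, Ψ.1 2 = GP.face s ∧ s.1 = {some 1, some ω}) ∧ Ψ.1 3 = GP.facet (some 1) ∧
      tmap hp hp τ Ψ = adj hp 0 (adj hp 2 Ψ) ∧ tmap hp hp j Ψ = adj hp 3 (adj hp 1 Ψ) ∧
      tmap hp hp σ Ψ = adj hp 2 (adj hp 3 Ψ) ∧
      (∀ a, τ (GP.vert a) = GP.vert (mobInv 1 a)) ∧
      (∀ a, j (GP.vert a) = GP.vert (a.map (fun z => 1 + ω - z))) ∧
      (∀ a, σ (GP.vert a) = GP.vert (a.map (fun z => ω * z))) := by
  obtain ⟨-, -, hw1, hsq, hw, -, -⟩ := xh_basic h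
  have h0 := h.ne
  have hcard : ({some 1, some ω} : Finset (Option F)).card = 2 := by
    rw [Finset.card_pair]
    intro he
    exact hw1 (Option.some.inj he).symm
  have hcard0 : ({none, some 0} : Finset (Option F)).card = 2 := by simp
  have hinc : IncX ω 1 ({none, some 0} : Finset (Option F)) {some 1, some ω} := by
    rw [incx_zero h one_ne_zero (Ne.symm hw1)]
    exact ⟨by rw [one_mul]; exact pw_one, Or.inl (mul_one ω).symm⟩
  obtain ⟨f, hf⟩ : ∃ f : Fin 4 → XR F ω, f = ![GP.vert none, GP.edge ⟨{none, some 0}, hcard0⟩,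
    GP.face ⟨{some 1, some ω}, hcard⟩, GP.facet (some 1)] := ⟨_, rfl⟩
  have f0 : f 0 = GP.vert none := by rw [hf]; rfl
  have f1 : f 1 = GP.edge ⟨{none, some 0}, hcard0⟩ := by rw [hf]; rfl
  have f2 : f 2 = GP.face ⟨{some 1, some ω}, hcard⟩ := by rw [hf]; rfl
  have f3 : f 3 = GP.facet (some 1) := by rw [hf]; rfl
  have l01 : f 0 ≤ f 1 := by
    rw [f0, f1, GP.le_def]
    change none ∈ ({none, some 0} : Finset (Option F))
    simp
  have l12 : f 1 ≤ f 2 := by
    rw [f1, f2, GP.le_def]
    exact hinc
  have l23 : f 2 ≤ f 3 := by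
    rw [f2, f3, GP.le_def]
    change some 1 ∈ ({some 1, some ω} : Finset (Option F))
    simp
  have frk : ∀ i : Fin 4, GP.rk (f i) = (i : ℕ) := by
    intro i
    fin_cases i
    · change GP.rk (f 0) = _
      rw [f0]; rfl
    · change GP.rk (f 1) = _
      rw [f1]; rfl
    · change GP.rk (f 2) = _
      rw [f2]; rfl
    · change GP.rk (f 3) = _
      rw [f3]; rfl
  have fmono : ∀ i j : Fin 4, i ≤ j → f i ≤ f j := by
    intro i j hij
    fin_cases i <;> fin_cases j <;> first
      | exact le_refl _
      | exact l01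
      | exact l12
      | exact l23
      | exact l01.trans l12
      | exact l12.trans l23
      | exact (l01.trans l12).trans l23
      | exact absurd hij (by decide)
  obtain ⟨Ψ, hΨ⟩ : ∃ Ψ : Tup (XR F ω) GP.rk, Ψ = ⟨f, frk, fmono⟩ := ⟨_, rfl⟩
  have p0 : Ψ.1 0 = GP.vert none := by rw [hΨ]; exact f0
  have p1 : Ψ.1 1 = GP.edge ⟨{none, some 0}, hcard0⟩ := by rw [hΨ]; exact f1
  have p2 : Ψ.1 2 = GP.face ⟨{some 1, some ω}, hcard⟩ := by rw [hΨ]; exact f2
  have p3 : Ψ.1 3 = GP.facet (some 1) := by rw [hΨ]; exact f3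
  have hm1 : (-1 : F) ≠ 0 := neg_ne_zero.2 one_ne_zero
  obtain ⟨τ, hτ⟩ := GP.exists_auto (I := IncX ω 1) (incx_map
    (presx_I (t := 1) h 1 one_ne_zero pw_one))
  obtain ⟨j, hj⟩ := GP.exists_auto (I := IncX ω 1) (incx_map
    ((presx_T (t := 1) h (1 + ω)).mul (presx_D h (-1) hm1 (xh_neg h).1)))
  obtain ⟨σ, hσ⟩ := GP.exists_auto (I := IncX ω 1) (incx_map (presx_D (t := 1) h ω h0 pw_self))
  have gj : ∀ z : F, (mobT (1 + ω) * mobD (-1) hm1) (some z) = some (1 + ω - z) := by
    intro z
    rw [Equiv.Perm.mul_apply, mobD_some, mobT_some]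
    congr 1
    ring
  have gj' : (mobT (1 + ω) * mobD (-1) hm1) none = none := by
    rw [Equiv.Perm.mul_apply, mobD_none, mobT_none]
  refine ⟨Ψ, τ, j, σ, p0, ⟨_, p1, rfl⟩, ⟨_, p2, rfl⟩, p3, ?_, ?_, ?_, ?_, ?_, ?_⟩
  · have e0 : (mobI (1 : F) one_ne_zero) none = some 0 := rfl
    have e1 : (mobI (1 : F) one_ne_zero) (some 0) = none := by
      change mobInv 1 (some 0) = none
      simp [mobInv]
    have e2 : (mobI (1 : F) one_ne_zero) (some 1) = some 1 := by
      change mobInv 1 (some 1) = some 1
      simp [mobInv]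
    have e3 : (mobI (1 : F) one_ne_zero) (some ω) = some (1 / ω) := by
      change mobInv 1 (some ω) = some (1 / ω)
      simp [mobInv, h0]
    apply f4e12_two
    · decide
    · decide
    · decide
    · rw [tmap_apply, p0, hτ]
      change (GP.vert ((mobI (1 : F) one_ne_zero) none) : XR F ω) ≠ GP.vert none
      rw [e0]
      intro he
      injection he with he
      exact absurd he (by simp)
    · rw [tmap_apply, p2, hτ]
      change (GP.face (GP.mapPair (mobI (1 : F) one_ne_zero) _) : XR F ω) ≠ GP.face _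
      intro he
      injection he with he
      have he2 := congrArg Subtype.val he
      rw [f4e12_mapPair, e2, e3] at he2
      have he3 : some ω ∈ ({some 1, some (1 / ω)} : Finset (Option F)) := by
        rw [he2]
        simp
      rw [Finset.mem_insert, Finset.mem_singleton] at he3
      rcases he3 with he3 | he3
      · exact hw1 (Option.some.inj he3)
      · have he4 := Option.some.inj he3
        rw [eq_div_iff h0] at he4
        exact hsq he4
    · intro k hk1 hk2
      have hk : k = 1 ∨ k = 3 := by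
        revert k
        decide
      rcases hk with rfl | rfl
      · rw [tmap_apply, p1, hτ]
        change (GP.edge (GP.mapPair (mobI (1 : F) one_ne_zero) _) : XR F ω) = GP.edge _
        congr 1
        apply Subtype.ext
        rw [f4e12_mapPair, e0, e1]
        exact Finset.pair_comm _ _
      · rw [tmap_apply, p3, hτ]
        change (GP.facet ((mobI (1 : F) one_ne_zero) _) : XR F ω) = GP.facet _
        rw [e2]
  · have e1 : (mobT (1 + ω) * mobD (-1) hm1) (some 0) = some (1 + ω) := by
      rw [gj, sub_zero]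
    have e2 : (mobT (1 + ω) * mobD (-1) hm1) (some 1) = some ω := by
      rw [gj]
      congr 1
      ring
    have e3 : (mobT (1 + ω) * mobD (-1) hm1) (some ω) = some 1 := by
      rw [gj]
      congr 1
      ring
    apply f4e12_two
    · decide
    · decide
    · decide
    · rw [tmap_apply, p3, hj]
      change (GP.facet ((mobT (1 + ω) * mobD (-1) hm1) _) : XR F ω) ≠ GP.facet _
      rw [e2]
      intro he
      injection he with he
      exact hw1 (Option.some.inj he)
    · rw [tmap_apply, p1, hj]
      change (GP.edge (GP.mapPair (mobT (1 + ω) * mobD (-1) hm1) _) : XR F ω) ≠ GP.edge _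
      intro he
      injection he with he
      have he2 := congrArg Subtype.val he
      rw [f4e12_mapPair, gj', e1] at he2
      have he3 : some (1 + ω) ∈ ({none, some 0} : Finset (Option F)) := by
        have he4 : some (1 + ω) ∈ ({none, some (1 + ω)} : Finset (Option F)) := by simp
        rw [he2] at he4
        exact he4
      rw [Finset.mem_insert, Finset.mem_singleton] at he3
      rcases he3 with he3 | he3
      · exact absurd he3 (by simp)
      · exact hw (Option.some.inj he3)
    · intro k hk1 hk2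
      have hk : k = 0 ∨ k = 2 := by
        revert k
        decide
      rcases hk with rfl | rfl
      · rw [tmap_apply, p0, hj]
        change (GP.vert ((mobT (1 + ω) * mobD (-1) hm1) none) : XR F ω) = GP.vert none
        rw [gj']
      · rw [tmap_apply, p2, hj]
        change (GP.face (GP.mapPair (mobT (1 + ω) * mobD (-1) hm1) _) : XR F ω) = GP.face _
        congr 1
        apply Subtype.ext
        rw [f4e12_mapPair, e2, e3]
        exact Finset.pair_comm _ _
  · have e0 : (mobD ω h0) none = none := rfl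
    have e1 : (mobD ω h0) (some 0) = some 0 := by
      rw [mobD_some, mul_zero]
    have e2 : (mobD ω h0) (some 1) = some ω := by
      rw [mobD_some, mul_one]
    have e3 : (mobD ω h0) (some ω) = some (ω * ω) := rfl
    obtain ⟨M, hM1, hM2⟩ := exists_upd Ψ 3 (GP.facet (some ω)) rfl
      (fun k hk => by
        have hk' : k = 2 := by
          apply Fin.ext
          change (k : ℕ) + 1 = 3 at hk
          change (k : ℕ) = 2
          omega
        rw [hk', p2, GP.le_def]
        change some ω ∈ ({some 1, some ω} : Finset (Option F))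
        simp)
      (fun k hk => by
        exfalso
        have := k.2
        change 3 + 1 = (k : ℕ) at hk
        omega)
    have hM : M = adj hp 3 Ψ := by
      apply adj_unique _ _ _ _ _ hM2
      rw [hM1, p3]
      intro he
      injection he with he
      exact hw1 (Option.some.inj he)
    rw [← hM]
    apply adj_unique
    · rw [hM2 2 (by decide), tmap_apply, p2, hσ]
      change (GP.face (GP.mapPair (mobD ω h0) _) : XR F ω) ≠ GP.face _
      intro he
      injection he with he
      have he2 := congrArg Subtype.val he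
      rw [f4e12_mapPair, e2, e3] at he2
      have he3 : some 1 ∈ ({some ω, some (ω * ω)} : Finset (Option F)) := by
        rw [he2]
        simp
      rw [Finset.mem_insert, Finset.mem_singleton] at he3
      rcases he3 with he3 | he3
      · exact hw1 (Option.some.inj he3).symm
      · exact hsq (Option.some.inj he3).symm
    · intro k hk
      have hk' : k = 0 ∨ k = 1 ∨ k = 3 := by
        revert k
        decide
      rcases hk' with rfl | rfl | rfl
      · rw [hM2 0 (by decide), tmap_apply, p0, hσ]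
        rfl
      · rw [hM2 1 (by decide), tmap_apply, p1, hσ]
        change (GP.edge (GP.mapPair (mobD ω h0) _) : XR F ω) = GP.edge _
        congr 1
        apply Subtype.ext
        rw [f4e12_mapPair, e0, e1]
      · rw [hM1, tmap_apply, p3, hσ]
        change (GP.facet ((mobD ω h0) (some 1)) : XR F ω) = GP.facet _
        rw [e2]
  · intro a
    rw [hτ]
    rfl
  · intro a
    rw [hj]
    change GP.vert ((mobT (1 + ω) * mobD (-1) hm1) a) = _
    cases a with
    | none => rw [gj']; rfl
    | some z => rw [gj]; rfl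
  · intro a
    rw [hσ]
    cases a <;> rfl

end Pool.Agent.H.MP_6268b4_co
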