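import Pool.Agent.H.MP_6268b4_co.F4E1

/-!
A lemma on sums of two squares.
-/

namespace Pool.Agent.H.MP_6268b4_co

variable {F : Type*} [Field F] [Fintype F] [DecidableEq F] {ω : F}

theorem f4e13_case1 (h : XHyp ω) (h4 : 4 ≤ orderOf ω) (hF : Fintype.card F = orderOf ω + 1) :
    ∃ x : F, x ≠ 1 ∧ x ≠ ω ∧ PW ω x ∧ PW ω (1 + ω - x) := by
  set P := (Finset.range (orderOf ω)).image (fun i => ω ^ i) with hP
  have hPc : P.card = orderOf ω := f4e1_card ω
  have hPsub : P ⊆ Finset.univ.erase 0 := by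
    intro z hz
    rw [hP, Finset.mem_image] at hz
    obtain ⟨i, -, rfl⟩ := hz
    exact Finset.mem_erase.2 ⟨pow_ne_zero _ h.ne, Finset.mem_univ _⟩
  have hPe : P = Finset.univ.erase 0 := by
    apply Finset.eq_of_subset_of_card_le hPsub
    rw [Finset.card_erase_of_mem (Finset.mem_univ _), Finset.card_univ, hF, hPc]
    omega
  have hall : ∀ z : F, z ≠ 0 → PW ω z := by
    intro z hz
    have h1 : z ∈ P := by
      rw [hPe]
      exact Finset.mem_erase.2 ⟨hz, Finset.mem_univ _⟩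
    rw [hP, Finset.mem_image] at h1
    obtain ⟨i, -, hi⟩ := h1
    exact ⟨i, hi.symm⟩
  obtain ⟨x, hx⟩ : ∃ x : F, x ∉ ({0, 1, ω, 1 + ω} : Finset F) := by
    by_contra hcon
    push Not at hcon
    have h1 : (Finset.univ : Finset F) ⊆ {0, 1, ω, 1 + ω} := fun x _ => hcon x
    have h2 := Finset.card_le_card h1
    have h3 : ({0, 1, ω, 1 + ω} : Finset F).card ≤ 4 := Finset.card_le_four
    rw [Finset.card_univ] at h2
    omega
  simp only [Finset.mem_insert, Finset.mem_singleton, not_or] at hx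
  obtain ⟨hx0, hx1, hxw, hxc⟩ := hx
  refine ⟨x, hx1, hxw, hall x hx0, hall _ fun h5 => hxc ?_⟩
  linear_combination -h5

theorem f4e13_i (h : XHyp ω) : ∃ i : F, i * i = -1 := by
  have h0 := f4e1_pos h
  obtain ⟨h1, -⟩ := f4d1_half h.four h0
  obtain ⟨m, hm⟩ := h.four
  refine ⟨ω ^ m, ?_⟩
  have e1 : orderOf ω / 2 = m + m := by omega
  rw [← pow_add, ← e1]
  exact h1

open Polynomial in
theorem f4e13_U {c ω : F} (hc : c ≠ 0) (hF : 17 ≤ Fintype.card F) :
    ∃ U : F, U ≠ 0 ∧ U ^ 2 - c ≠ 0 ∧ U ^ 2 + c ≠ 0 ∧ (U ^ 2 + c) ^ 2 ≠ 4 * U ^ 2 ∧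
      (U ^ 2 + c) ^ 2 ≠ 4 * U ^ 2 * ω := by
  set q3 : F[X] := (X ^ 2 + C c) ^ 2 - C 4 * X ^ 2 with hq3
  set q4 : F[X] := (X ^ 2 + C c) ^ 2 - C (4 * ω) * X ^ 2 with hq4
  set q : F[X] := X * (X ^ 2 - C c) * (X ^ 2 + C c) * q3 * q4 with hq
  have n3 : q3 ≠ 0 := by
    intro h1
    have h2 := congrArg (eval 0) h1
    rw [hq3] at h2
    simp at h2
    exact hc h2
  have n4 : q4 ≠ 0 := by
    intro h1
    have h2 := congrArg (eval 0) h1
    rw [hq4] at h2
    simp at h2
    exact hc h2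
  have n0 : q ≠ 0 := by
    rw [hq]
    refine mul_ne_zero (mul_ne_zero (mul_ne_zero (mul_ne_zero X_ne_zero ?_) ?_) n3) n4
    · exact (monic_X_pow_sub_C c (by norm_num)).ne_zero
    · exact (monic_X_pow_add_C c (by norm_num)).ne_zero
  have d3 : q3.natDegree ≤ 4 := by
    rw [hq3]
    compute_degree
  have d4 : q4.natDegree ≤ 4 := by
    rw [hq4]
    compute_degree
  have hdeg : q.natDegree ≤ 13 := by
    rw [hq]
    have e1 : (X : F[X]).natDegree ≤ 1 := natDegree_X_le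
    have e2 : (X ^ 2 - C c : F[X]).natDegree ≤ 2 := by compute_degree
    have e3 : (X ^ 2 + C c : F[X]).natDegree ≤ 2 := by compute_degree
    have e4 := natDegree_mul_le_of_le e1 e2
    have e5 := natDegree_mul_le_of_le e4 e3
    have e6 := natDegree_mul_le_of_le e5 d3
    exact natDegree_mul_le_of_le e6 d4
  obtain ⟨U, hU⟩ : ∃ U : F, q.eval U ≠ 0 := by
    by_contra hcon
    push Not at hcon
    have h1 : (Finset.univ : Finset F) ⊆ q.roots.toFinset := by
      intro U _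
      rw [Multiset.mem_toFinset, mem_roots n0]
      exact hcon U
    have h2 := Finset.card_le_card h1
    have h3 : q.roots.toFinset.card ≤ q.roots.card := Multiset.toFinset_card_le _
    have h4 := card_roots' q
    rw [Finset.card_univ] at h2
    omega
  rw [hq] at hU
  simp only [eval_mul, eval_X, eval_sub, eval_pow, eval_C, eval_add] at hU
  have hU5 := right_ne_zero_of_mul hU
  have hU' := left_ne_zero_of_mul hU
  have hU4 := right_ne_zero_of_mul hU'
  have hU'' := left_ne_zero_of_mul hU'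
  have hU3 := right_ne_zero_of_mul hU''
  have hU2 := right_ne_zero_of_mul (left_ne_zero_of_mul hU'')
  have hU1 := left_ne_zero_of_mul (left_ne_zero_of_mul hU'')
  refine ⟨U, hU1, hU2, hU3, ?_, ?_⟩
  · intro h5
    apply hU4
    rw [hq3]
    simp only [eval_mul, eval_X, eval_sub, eval_pow, eval_C, eval_add]
    linear_combination h5
  · intro h5
    apply hU5
    rw [hq4]
    simp only [eval_mul, eval_X, eval_sub, eval_pow, eval_C, eval_add]
    linear_combination h5

/-- Job F4E13-1.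

Proof. `orderOf ω ≥ 4` is divisible by 4. Case 1, `Fintype.card F = orderOf ω + 1`: all nonzero elements
are powers of `ω` (count, or: the powers of `ω` and `0` are all elements), and since
`Fintype.card F ≥ 5` there is `x` different from `0, 1, ω, 1 + ω`.
Case 2, `Fintype.card F = 2 * orderOf ω + 1` (`xh_card`): `orderOf ω ≠ 4` by `h9`, so `orderOf ω ≥ 8` and
`Fintype.card F ≥ 17`. Let `c = 1 + ω ≠ 0` and let `i` be a power of `ω` with `i * i = -1`
(`i = ω ^ (r / 4)`, `r = orderOf ω`: `(i * i) * (i * i) = 1` and `i * i ≠ 1`). The polynomial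
`X * (X ^ 2 - c) * (X ^ 2 + c) * ((X ^ 2 + c) ^ 2 - 4 X ^ 2) * ((X ^ 2 + c) ^ 2 - 4 ω X ^ 2)` is nonzero
(product of monic polynomials) of degree 13 < 17, so there is `U : F` which is not a root
(`Polynomial.exists_eval_ne_zero_of_natDegree_lt_card` or `Polynomial.card_roots'`). Let
`A = (U ^ 2 + c) / (2 U)`, `B = (U ^ 2 - c) / (2 U i)`. Then `A ^ 2 + B ^ 2 = c`, `A, B ≠ 0`. Put
`x = A ^ 2`; `1 + ω - x = B ^ 2`; both are nonzero and powers of `ω` (`h.sq`). `x ≠ 1` since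
`(U ^ 2 + c) ^ 2 ≠ 4 U ^ 2`, and `x ≠ ω` since `(U ^ 2 + c) ^ 2 ≠ 4 ω U ^ 2`. -/
theorem xh_exists (h : XHyp ω) (h9 : ¬ (Fintype.card F = 9 ∧ orderOf ω = 4)) :
    ∃ x : F, x ≠ 1 ∧ x ≠ ω ∧ PW ω x ∧ PW ω (1 + ω - x) := by
  obtain ⟨h0, h4, hw1, hww, hc, -, h2⟩ := xh_basic h
  rcases xh_card h with hF | hF
  · exact f4e13_case1 h h4 hF
  · have h8 : 8 ≤ orderOf ω := by
      have h41 : orderOf ω ≠ 4 := by
        intro h5
        exact h9 ⟨by rw [hF, h5], h5⟩
      have h5 := h.four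
      omega
    obtain ⟨i, hi⟩ := f4e13_i h
    obtain ⟨U, hU0, hU1, hU2, hU3, hU4⟩ := f4e13_U (F := F) (c := 1 + ω) (ω := ω) hc (by omega)
    have hi0 : i ≠ 0 := by
      rintro rfl
      rw [mul_zero] at hi
      have : (1 : F) = 0 := by linear_combination hi
      exact one_ne_zero this
    set A : F := (U ^ 2 + (1 + ω)) / (2 * U) with hA
    set B : F := (U ^ 2 - (1 + ω)) / (2 * U * i) with hB
    have hAB : 1 + ω - A * A = B * B := by
      rw [hA, hB]
      field_simp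
      linear_combination (((1 + ω) * 4 * U ^ 2 - (U ^ 2 + (1 + ω)) ^ 2)) * hi
    have hA0 : A ≠ 0 := div_ne_zero hU2 (mul_ne_zero h2 hU0)
    have hB0 : B ≠ 0 := div_ne_zero hU1 (mul_ne_zero (mul_ne_zero h2 hU0) hi0)
    refine ⟨A * A, ?_, ?_, h.sq A hA0, ?_⟩
    · intro h5
      apply hU3
      have h6 : A * (2 * U) = U ^ 2 + (1 + ω) := div_mul_cancel₀ _ (mul_ne_zero h2 hU0)
      rw [← h6]
      linear_combination (4 * U ^ 2) * h5
    · intro h5
      apply hU4
      have h6 : A * (2 * U) = U ^ 2 + (1 + ω) := div_mul_cancel₀ _ (mul_ne_zero h2 hU0)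
      rw [← h6]
      linear_combination (4 * U ^ 2) * h5
    · rw [hAB]
      exact h.sq B hB0

end Pool.Agent.H.MP_6268b4_co
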