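import Pool.Agent.H.MP_6268b4_co.F4E11
import Pool.Agent.H.MP_6268b4_co.F4E12
import Pool.Agent.H.MP_6268b4_co.F4E13
import Pool.Agent.H.MP_6268b4_co.TChi

/-!
The cross-ratio polytopes are chiral.
-/

namespace Pool.Agent.H.MP_6268b4_co

variable {F : Type*} [Field F] [Fintype F] [DecidableEq F] {ω : F}

/-- Job F4E14-1. Not regular.

Proof. Let `hp` be `xt_isPolytope h one_ne_zero`, and take `Ψ, τ, j, σ` from `xr_generators`. Suppose
`XR F ω` is regular. By `regular_tup` there is `γ` with `tmap γ Ψ = adj 3 Ψ`; `γ x = mapF g x`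
(`xt_auto_form`). `γ` fixes `Ψ.1 0 = vert none`, so `g none = none` and `g (some z) = some (G z)` for a
function `G : F → F`; `γ` fixes `Ψ.1 1 = edge {none, some 0}`, so `G 0 = 0`; `γ` fixes
`Ψ.1 2 = face {some 1, some ω}` and moves `Ψ.1 3 = facet (some 1)` (`adj_ne`), so `G 1 = ω` (`G 1 ∈ {1, ω}`).
`γ * σ = σ⁻¹ * γ`: by `eq_of_tmap`; `tmap (γ * σ) Ψ = tmap γ (adj 2 (adj 3 Ψ)) = adj 2 (adj 3 (adj 3 Ψ)) =
adj 2 Ψ` and `tmap (σ⁻¹ * γ) Ψ = adj 3 (tmap σ⁻¹ Ψ) = adj 3 (adj 3 (adj 2 Ψ)) = adj 2 Ψ`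
(`tmap σ (adj 3 (adj 2 Ψ)) = adj 3 (adj 2 (adj 2 (adj 3 Ψ))) = Ψ`). `γ * j = j * γ`: `tmap (γ * j) Ψ =
adj 3 (adj 1 (adj 3 Ψ)) = adj 1 Ψ` (`adj_comm`, `adj_adj`) and `tmap (j * γ) Ψ = adj 3 (adj 3 (adj 1 Ψ)) =
adj 1 Ψ`. Applied to `vert (some z)`: `ω * G (ω * z) = G z` and `G (1 + ω - z) = 1 + ω - G z`. So
`ω ^ i * G (ω ^ i) = G 1 = ω`, i.e. `x * G x = ω` if `x` is a power of `ω`. Take `x` from `xh_exists`:
`G x = ω / x` and `G (1 + ω - x) = ω / (1 + ω - x)`, so `ω / (1 + ω - x) = 1 + ω - ω / x`. Multiply by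
`x (1 + ω - x)`: `ω x = (1 + ω) x (1 + ω - x) - ω (1 + ω - x)`, i.e.
`(1 + ω) (x - 1) (x - ω) = 0`; contradiction (`1 + ω ≠ 0` by `xh_basic`). -/
theorem xr_not_regular (h : XHyp ω) (h9 : ¬ (Fintype.card F = 9 ∧ orderOf ω = 4)) :
    ¬ IsRegular (XR F ω) := by
  intro hR
  have hp : IsPolytope 4 (XR F ω) GP.rk := xt_isPolytope h one_ne_zero
  obtain ⟨Ψ, τ, j, σ, hΨ0, -, ⟨s, hs, hs'⟩, hΨ3, -, hj, hσ, -, hj', hσ'⟩ := xr_generators h hp
  obtain ⟨γ, hγ⟩ := regular_tup hp hR Ψ (adj hp 3 Ψ)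
  obtain ⟨g, hg⟩ := xt_auto_form h one_ne_zero γ
  have hfix : ∀ i : Fin 4, i ≠ 3 → GP.mapF g (Ψ.1 i) = Ψ.1 i := by
    intro i hi
    rw [← hg, ← tmap_apply hp hp γ Ψ i, hγ, adj_same hp Ψ hi]
  have hmov : GP.mapF g (Ψ.1 3) ≠ Ψ.1 3 := by
    rw [← hg, ← tmap_apply hp hp γ Ψ 3, hγ]
    exact adj_ne hp 3 Ψ
  have gnone : g none = none := by
    have h3 := hfix 0 (by decide)
    rw [hΨ0] at h3
    injection h3
  have hne : ∀ y : F, ∃ z : F, g (some y) = some z := by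
    intro y
    cases hy : g (some y) with
    | none =>
      rw [← gnone] at hy
      exact absurd (g.injective hy) (by simp)
    | some z => exact ⟨z, rfl⟩
  choose G hG using hne
  have G1 : G 1 = ω := by
    have hface := hfix 2 (by decide)
    rw [hs] at hface
    injection hface with hface
    have hface' := congrArg Subtype.val hface
    have hmem : g (some 1) ∈ s.1 := by
      rw [← hface']
      exact Finset.mem_map_of_mem _ (by rw [hs']; simp)
    rw [hG, hs'] at hmem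
    simp only [Finset.mem_insert, Finset.mem_singleton, Option.some_inj] at hmem
    rcases hmem with h3 | h3
    · exfalso
      apply hmov
      rw [hΨ3]
      show GP.facet (g (some 1)) = GP.facet (some 1)
      rw [hG, h3]
    · exact h3
  have hm1 : σ * (γ * σ) = γ := by
    apply eq_of_tmap hp (Φ := Ψ)
    simp only [tmap_mul, hσ, tmap_adj, hγ, adj_adj]
  have hm2 : γ * j = j * γ := by
    apply eq_of_tmap hp (Φ := Ψ)
    simp only [tmap_mul, hj, tmap_adj, hγ, adj_adj]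
    rw [adj_comm hp (i := 1) (j := 3) (by decide), adj_adj]
  have hgv : ∀ z : F, γ (GP.vert (some z)) = GP.vert (some (G z)) := by
    intro z
    rw [hg]
    show GP.vert (g (some z)) = GP.vert (some (G z))
    rw [hG]
  have e1 : ∀ z : F, ω * G (ω * z) = G z := by
    intro z
    have h3 : σ (γ (σ (GP.vert (some z)))) = γ (GP.vert (some z)) := by
      conv_rhs => rw [← hm1]
      rfl
    rw [hσ', Option.map_some, hgv, hσ', Option.map_some, hgv] at h3
    injection h3 with h3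
    exact Option.some.inj h3
  have e2 : ∀ z : F, G (1 + ω - z) = 1 + ω - G z := by
    intro z
    have h3 : γ (j (GP.vert (some z))) = j (γ (GP.vert (some z))) :=
      congrArg (fun δ : XR F ω ≃o XR F ω => δ (GP.vert (some z))) hm2
    rw [hj', Option.map_some, hgv, hgv, hj', Option.map_some] at h3
    injection h3 with h3
    exact Option.some.inj h3
  have e3 : ∀ i : ℕ, ω ^ i * G (ω ^ i) = ω := by
    intro i
    induction i with
    | zero => rw [pow_zero, one_mul, G1]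
    | succ i ih =>
      have h3 := e1 (ω ^ i)
      have h4 : ω ^ (i + 1) = ω * ω ^ i := by ring
      rw [h4, mul_comm ω, mul_assoc, mul_comm (ω ^ i) ω, h3, ih]
  have e4 : ∀ x : F, PW ω x → x * G x = ω := by
    rintro x ⟨i, rfl⟩
    exact e3 i
  obtain ⟨x, hx1, hx2, hx3, hx4⟩ := xh_exists h h9
  have k1 := e4 x hx3
  have k2 := e4 _ hx4
  rw [e2] at k2
  have k3 : (1 + ω) * ((x - 1) * (x - ω)) = 0 := by
    linear_combination (-(1 + ω - x)) * k1 - x * k2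
  obtain ⟨-, -, -, -, h10, -⟩ := xh_basic h
  rcases mul_eq_zero.1 k3 with h3 | h3
  · exact h10 h3
  · rcases mul_eq_zero.1 h3 with h3 | h3
    · exact hx1 (sub_eq_zero.1 h3)
    · exact hx2 (sub_eq_zero.1 h3)

/-- Job F4E14-2. Proof: `chiral_of_base`, `xr_generators`, `xr_not_regular`. -/
theorem xr_chiral (h : XHyp ω) (h9 : ¬ (Fintype.card F = 9 ∧ orderOf ω = 4)) :
    IsChiral (XR F ω) := by
  have hp : IsPolytope 4 (XR F ω) GP.rk := xt_isPolytope h one_ne_zero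
  obtain ⟨Ψ, τ, j, σ, -, -, -, -, hτ, hj, hσ, -⟩ := xr_generators h hp
  exact chiral_of_base hp Ψ ⟨τ, hτ⟩ ⟨j, hj⟩ ⟨σ, hσ⟩ (xr_not_regular h h9)

end Pool.Agent.H.MP_6268b4_co
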