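import Pool.Agent.H.MP_6268b4_co.F4E1
import Pool.Agent.H.MP_6268b4_co.CRMobB

/-!
Moebius maps preserve the incidence relation.
-/

namespace Pool.Agent.H.MP_6268b4_co

variable {F : Type*} [Field F] {ω t : F}

/-- The permutation and its inverse preserve the relation defining `IncX ω t`. -/
def PresX (ω t : F) (g : Equiv.Perm (Option F)) : Prop :=
  ∀ a b y y', (CrossX ω (g a) (g b) (g y) (g y') ∧ TriX ω t (g a) (g b) (g y)) ↔
    (CrossX ω a b y y' ∧ TriX ω t a b y)

/-- Job F4E2-1. Proof: cases on `none`. -/
theorem brk_neg (a b : Option F) : brk b a = -brk a b := by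
  cases a <;> cases b <;> simp [brk]

theorem brk_ne {a b : Option F} (hab : a ≠ b) : brk a b ≠ 0 := by
  cases a with
  | none =>
    cases b with
    | none => exact absurd rfl hab
    | some b => simp [brk]
  | some a =>
    cases b with
    | none => simp [brk]
    | some b =>
      have h1 : a ≠ b := fun e => hab (by rw [e])
      exact sub_ne_zero.2 h1

/-- Plücker relation. Proof: cases on which of the points are `none`, `simp [brk]`, `ring`. -/
theorem brk_plucker (a b y y' : Option F) :
    brk a b * brk y y' = brk a y * brk b y' - brk a y' * brk b y := by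
  cases a <;> cases b <;> cases y <;> cases y' <;> simp only [brk] <;> ring

/-- Job F4E2-2. Proof: as in `Pres.symm` and `Pres.mul` in `CRMobA.lean`. -/
theorem PresX.symm {g : Equiv.Perm (Option F)} (h : PresX ω t g) : PresX ω t g.symm := by
  intro a b y y'
  have h1 := h (g.symm a) (g.symm b) (g.symm y) (g.symm y')
  simp only [Equiv.apply_symm_apply] at h1
  exact h1.symm

theorem PresX.mul {g k : Equiv.Perm (Option F)} (h : PresX ω t g) (h' : PresX ω t k) :
    PresX ω t (g * k) := by
  intro a b y y'
  simp only [Equiv.Perm.mul_apply]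
  exact (h _ _ _ _).trans (h' _ _ _ _)

/-- Job F4E2-3. A permutation multiplying the determinants by suitable factors.

Proof (see `crmobb_pres_of` in `CRMobB.lean`). The distinctness conditions are preserved because `g` is
injective. The equation of `CrossX` is multiplied by the nonzero factor
`κ ^ 2 * m a * m b * m y * m y'`. In `TriX` the number `t * (brk a b * brk b y * brk y a)` is multiplied by
`κ ^ 3 * (m a * m b * m y) ^ 2`, a power of `ω` by `h.sq`, so `pw_mul_iff` gives the claim. -/
theorem presx_of [Fintype F] (h : XHyp ω) (g : Equiv.Perm (Option F)) (κ : F)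
    (m : Option F → F) (hκ : PW ω κ) (hm : ∀ x, m x ≠ 0)
    (hg : ∀ a b, brk (g a) (g b) = κ * m a * m b * brk a b) : PresX ω t g := by
  have hκ0 : κ ≠ 0 := pw_ne h hκ
  intro a b y y'
  have hC : CrossX ω (g a) (g b) (g y) (g y') ↔ CrossX ω a b y y' := by
    unfold CrossX
    simp only [ne_eq, g.injective.eq_iff]
    constructor
    · rintro ⟨h1, h2, h3, h4, h5, h6, h7⟩
      refine ⟨h1, h2, h3, h4, h5, h6, ?_⟩
      rw [hg a y, hg b y', hg a y', hg b y] at h7
      have hK : κ ^ 2 * (m a * m b * (m y * m y')) ≠ 0 :=
        mul_ne_zero (pow_ne_zero 2 hκ0)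
          (mul_ne_zero (mul_ne_zero (hm a) (hm b)) (mul_ne_zero (hm y) (hm y')))
      apply mul_left_cancel₀ hK
      linear_combination h7
    · rintro ⟨h1, h2, h3, h4, h5, h6, h7⟩
      refine ⟨h1, h2, h3, h4, h5, h6, ?_⟩
      rw [hg a y, hg b y', hg a y', hg b y]
      linear_combination (κ ^ 2 * (m a * m b * (m y * m y'))) * h7
  have hT : TriX ω t (g a) (g b) (g y) ↔ TriX ω t a b y := by
    change PW ω (t * (brk (g a) (g b) * brk (g b) (g y) * brk (g y) (g a))) ↔
      PW ω (t * (brk a b * brk b y * brk y a))
    have h1 : t * (brk (g a) (g b) * brk (g b) (g y) * brk (g y) (g a)) =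
        (κ * κ * κ * ((m a * m b * m y) * (m a * m b * m y))) *
          (t * (brk a b * brk b y * brk y a)) := by
      rw [hg, hg, hg]
      ring
    rw [h1]
    exact pw_mul_iff h (pw_mul (pw_mul (pw_mul hκ hκ) hκ)
      (pw_sq h (mul_ne_zero (mul_ne_zero (hm a) (hm b)) (hm y))))
  rw [hC, hT]

/-- Job F4E2-4. Proof: `presx_of` with `κ = 1`, `m = 1`. -/
theorem presx_T [Fintype F] (h : XHyp ω) (c : F) : PresX ω t (mobT c) := by
  refine presx_of h (mobT c) 1 (fun _ => 1) pw_one (fun _ => one_ne_zero) ?_
  intro a b
  cases a <;> cases b <;> simp [mobT_some, mobT_none, brk]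

/-- Job F4E2-5. Proof: `presx_of` with `κ = k`, `m none = k⁻¹`, `m (some _) = 1`. -/
theorem presx_D [Fintype F] (h : XHyp ω) (k : F) (hk : k ≠ 0) (hk' : PW ω k) :
    PresX ω t (mobD k hk) := by
  refine presx_of h (mobD k hk) k (fun x => match x with | none => k⁻¹ | some _ => 1) hk' ?_ ?_
  · intro x
    cases x with
    | none => exact inv_ne_zero hk
    | some x => exact one_ne_zero
  intro a b
  cases a with
  | none =>
    cases b with
    | none => simp [mobD_none, brk]
    | some b => simp [mobD_some, mobD_none, brk, hk]
  | some a =>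
    cases b with
    | none => simp [mobD_some, mobD_none, brk, hk]
    | some b =>
      simp only [mobD_some, brk]
      ring

/-- Job F4E2-6. Proof: `presx_of` with `κ = -lam`, `m none = 1`, `m (some 0) = lam⁻¹`,
`m (some z) = z⁻¹`: `lam / a - lam / b = - lam (a - b) / (a b)`; check the cases `none`, `some 0`. -/
theorem presx_I [Fintype F] [DecidableEq F] (h : XHyp ω) (lam : F) (hl : lam ≠ 0)
    (hl' : PW ω lam) : PresX ω t (mobI lam hl) := by
  have hmn : mobI lam hl none = some 0 := rfl
  have hm0 : mobI lam hl (some 0) = none := by
    change mobInv lam (some 0) = none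
    simp [mobInv]
  have hms : ∀ z : F, z ≠ 0 → mobI lam hl (some z) = some (lam / z) := by
    intro z hz
    change mobInv lam (some z) = _
    simp [mobInv, hz]
  refine presx_of h (mobI lam hl) (-lam)
    (fun x => match x with | none => 1 | some z => if z = 0 then lam⁻¹ else z⁻¹)
    ((pw_neg_iff h).2 hl') ?_ ?_
  · intro x
    cases x with
    | none => exact one_ne_zero
    | some x =>
      by_cases hx : x = 0
      · simp [hx, hl]
      · simp [hx]
  intro a b
  cases a with
  | none =>
    cases b with
    | none => simp [hmn, brk]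
    | some b =>
      by_cases hb : b = 0
      · subst hb
        rw [hmn, hm0]
        simp [brk, hl]
      · rw [hmn, hms b hb]
        simp only [brk, hb, if_false]
        field_simp
        ring
  | some a =>
    cases b with
    | none =>
      by_cases ha : a = 0
      · subst ha
        rw [hmn, hm0]
        simp [brk, hl]
      · rw [hmn, hms a ha]
        simp only [brk, ha, if_false]
        field_simp
        ring
    | some b =>
      by_cases ha : a = 0
      · subst ha
        by_cases hb : b = 0
        · subst hb
          rw [hm0]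
          simp [brk]
        · rw [hm0, hms b hb]
          simp only [brk, hb, if_true, if_false]
          field_simp
          ring
      · by_cases hb : b = 0
        · subst hb
          rw [hm0, hms a ha]
          simp only [brk, ha, if_true, if_false]
          field_simp
          ring
        · rw [hms a ha, hms b hb]
          simp only [brk, ha, hb, if_false]
          field_simp
          ring

/-- Job F4E2-7. 2-transitivity.

Proof. If `a = some a'`: `mobT (-a')` maps `a` to `some 0`, then `mobI 1` maps it to `none`. So we may
assume `a = none`; then `b = some b'`, and `mobT (-b')` fixes `none` and maps `b` to `some 0`. -/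
theorem x_two_trans [Fintype F] [DecidableEq F] (h : XHyp ω) {a b : Option F} (hab : a ≠ b) :
    ∃ g : Equiv.Perm (Option F), PresX ω t g ∧ g a = none ∧ g b = some 0 := by
  have key : ∀ b : Option F, (none : Option F) ≠ b →
      ∃ g : Equiv.Perm (Option F), PresX ω t g ∧ g none = none ∧ g b = some 0 := by
    intro b hb
    cases b with
    | none => exact absurd rfl hb
    | some b =>
      refine ⟨mobT (-b), presx_T h (-b), mobT_none _, ?_⟩
      rw [mobT_some, add_neg_cancel]
  cases a with
  | none => exact key b hab
  | some a =>
    set k : Equiv.Perm (Option F) := mobI 1 one_ne_zero * mobT (-a) with hk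
    have hkP : PresX ω t k := (presx_I h 1 one_ne_zero pw_one).mul (presx_T h (-a))
    have hka : k (some a) = none := by
      rw [hk, Equiv.Perm.mul_apply, mobT_some, add_neg_cancel]
      change mobInv 1 (some 0) = none
      simp [mobInv]
    have hkb : none ≠ k b := by
      rw [← hka]
      intro e
      exact hab (k.injective e)
    obtain ⟨g, hg, hg1, hg2⟩ := key (k b) hkb
    refine ⟨g * k, hg.mul hkP, ?_, ?_⟩
    · rw [Equiv.Perm.mul_apply, hka, hg1]
    · rw [Equiv.Perm.mul_apply, hg2]

end Pool.Agent.H.MP_6268b4_co
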