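import Pool.Agent.H.MP_6268b4_co.F4E2

/-!
The incidence relation between edges and 2-faces: symmetries and duality.
-/

namespace Pool.Agent.H.MP_6268b4_co

variable {F : Type*} [Field F] {ω t : F}

/-- Job F4E3-1. Proof: unfold, `brk_neg`; multiply out. -/
theorem crossx_swap {a b y y' : Option F} : CrossX ω b a y' y ↔ CrossX ω a b y y' := by
  unfold CrossX
  constructor
  · rintro ⟨h1, h2, h3, h4, h5, h6, h7⟩
    refine ⟨h1.symm, h2.symm, h6, h5, h4, h3, ?_⟩
    linear_combination h7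
  · rintro ⟨h1, h2, h3, h4, h5, h6, h7⟩
    refine ⟨h1.symm, h2.symm, h6, h5, h4, h3, ?_⟩
    linear_combination h7

theorem crossx_dual {a b y y' : Option F} : CrossX ω y y' a b ↔ CrossX ω a b y y' := by
  unfold CrossX
  rw [brk_neg a y, brk_neg b y', brk_neg b y, brk_neg a y']
  constructor
  · rintro ⟨h1, h2, h3, h4, h5, h6, h7⟩
    refine ⟨h2, h1, h3.symm, h5.symm, h4.symm, h6.symm, ?_⟩
    linear_combination h7
  · rintro ⟨h1, h2, h3, h4, h5, h6, h7⟩
    refine ⟨h2, h1, h3.symm, h5.symm, h4.symm, h6.symm, ?_⟩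
    linear_combination h7

/-- Job F4E3-2. Write `ab` for `brk a b`. The product of `ba * ay' * y'b` and `ab * by * ya` is
`- ab ^ 2 * (ay * by') * (ay' * by) = - ω * (ab * ay' * by) ^ 2` by the equation in `CrossX` and
`brk_neg`; so the product of the two numbers in `TriX` is `t ^ 2` times this, a power of `ω` (all
brackets are nonzero, `brk_ne`; `xh_neg`, `pw_sq`). Use `pw_iff_of_mul`. -/
theorem crossx_tri [Fintype F] (h : XHyp ω) (ht : t ≠ 0) {a b y y' : Option F}
    (hc : CrossX ω a b y y') : TriX ω t b a y' ↔ TriX ω t a b y := by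
  obtain ⟨hab, hyy, hay, hay', hby, hby', he⟩ := hc
  change PW ω (t * (brk b a * brk a y' * brk y' b)) ↔ PW ω (t * (brk a b * brk b y * brk y a))
  apply pw_iff_of_mul h
  have h1 : t * (brk b a * brk a y' * brk y' b) * (t * (brk a b * brk b y * brk y a)) =
      -1 * (ω * ((t * brk a b * brk a y' * brk b y) * (t * brk a b * brk a y' * brk b y))) := by
    rw [brk_neg a b, brk_neg b y', brk_neg a y]
    linear_combination (-(t * t * brk a b * brk a b * brk a y' * brk b y)) * he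
  rw [h1]
  apply pw_mul (xh_neg h).1
  apply pw_mul pw_self
  apply pw_sq h
  exact mul_ne_zero (mul_ne_zero (mul_ne_zero ht (brk_ne hab)) (brk_ne hay')) (brk_ne hby)

/-- Job F4E3-3. Write `ab` for `brk a b`. By `brk_plucker` and `CrossX`,
`ab * yy' = ay * by' - ay' * by = (ω - 1) * ay' * by`. So the product of `yy' * y'a * ay` and
`ab * by * ya` is `(ω - 1) * ay' * by * (y'a * ay) * (by * ya) = (ω - 1) * (ay' * by * ay) ^ 2`, and the
product of the two numbers in `TriX` is `- (1 - ω) ^ 2 * t ^ 2 * (ay' * by * ay) ^ 2`, a power of `ω`.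
Use `pw_iff_of_mul`. -/
theorem crossx_tri_dual [Fintype F] (h : XHyp ω) (ht : t ≠ 0) {a b y y' : Option F}
    (hc : CrossX ω a b y y') : TriX ω (t * (1 - ω)) y y' a ↔ TriX ω t a b y := by
  obtain ⟨hab, hyy, hay, hay', hby, hby', he⟩ := hc
  change PW ω (t * (1 - ω) * (brk y y' * brk y' a * brk a y)) ↔
    PW ω (t * (brk a b * brk b y * brk y a))
  apply pw_iff_of_mul h
  have h1 : t * (1 - ω) * (brk y y' * brk y' a * brk a y) * (t * (brk a b * brk b y * brk y a)) =
      -1 * ((t * (1 - ω) * brk a y' * brk b y * brk a y) *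
        (t * (1 - ω) * brk a y' * brk b y * brk a y)) := by
    rw [brk_neg a y', brk_neg a y]
    have hp := brk_plucker a b y y'
    linear_combination (t * t * (1 - ω) * brk a y' * brk a y * brk a y * brk b y) * hp +
      (t * t * (1 - ω) * brk a y' * brk a y * brk a y * brk b y) * he
  rw [h1]
  apply pw_mul (xh_neg h).1
  apply pw_sq h
  have h2 : 1 - ω ≠ 0 := (xh_basic h).2.2.2.2.2.1
  exact mul_ne_zero (mul_ne_zero (mul_ne_zero (mul_ne_zero ht h2) (brk_ne hay')) (brk_ne hby))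
    (brk_ne hay)

/-- Job F4E3-4. Proof: as `inc_iff` in `CRMobA.lean` (with `crmoba_pair`): the ordered pairs
`(a₁, b₁)` with `{a₁, b₁} = {a, b}` are `(a, b)` and `(b, a)`, etc.; use `crossx_swap` and
`crossx_tri`. -/
theorem incx_iff [Fintype F] [DecidableEq F] (h : XHyp ω) (ht : t ≠ 0) {a b y y' : Option F}
    (hab : a ≠ b) (hyy : y ≠ y') :
    IncX ω t {a, b} {y, y'} ↔ (CrossX ω a b y y' ∧ TriX ω t a b y) ∨
      (CrossX ω a b y' y ∧ TriX ω t a b y') := by
  constructor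
  · rintro ⟨a1, b1, y1, y1', h1, h2, h3, h4⟩
    rcases crmoba_pair hab h1 with ⟨rfl, rfl⟩ | ⟨rfl, rfl⟩
    · rcases crmoba_pair hyy h2 with ⟨rfl, rfl⟩ | ⟨rfl, rfl⟩
      · exact Or.inl ⟨h3, h4⟩
      · exact Or.inr ⟨h3, h4⟩
    · rcases crmoba_pair hyy h2 with ⟨rfl, rfl⟩ | ⟨rfl, rfl⟩
      · have h5 := crossx_swap.1 h3
        exact Or.inr ⟨h5, (crossx_tri h ht h5).1 h4⟩
      · have h5 := crossx_swap.1 h3
        exact Or.inl ⟨h5, (crossx_tri h ht h5).1 h4⟩
  · rintro (⟨h1, h2⟩ | ⟨h1, h2⟩)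
    · exact ⟨a, b, y, y', rfl, rfl, h1, h2⟩
    · exact ⟨a, b, y', y, rfl, Finset.pair_comm _ _, h1, h2⟩

/-- Job F4E3-5. Duality. Proof: unfold `IncX`, `crossx_dual`, `crossx_tri_dual`. -/
theorem incx_dual [Fintype F] [DecidableEq F] (h : XHyp ω) (ht : t ≠ 0)
    (s s' : Finset (Option F)) : IncX ω (t * (1 - ω)) s' s ↔ IncX ω t s s' := by
  constructor
  · rintro ⟨a, b, y, y', h1, h2, h3, h4⟩
    have h5 := crossx_dual.2 h3
    exact ⟨y, y', a, b, h2, h1, h5, (crossx_tri_dual h ht h5).1 h4⟩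
  · rintro ⟨a, b, y, y', h1, h2, h3, h4⟩
    exact ⟨y, y', a, b, h2, h1, crossx_dual.2 h3, (crossx_tri_dual h ht h3).2 h4⟩

/-- Job F4E3-6. Proof: unfold; the four points are different. -/
theorem incx_disj [DecidableEq F] {s s' : Finset (Option F)} (hi : IncX ω t s s')
    {x : Option F} (hx : x ∈ s) (hx' : x ∈ s') : False := by
  obtain ⟨a, b, y, y', rfl, rfl, ⟨-, -, h3, h4, h5, h6, -⟩, -⟩ := hi
  rw [Finset.mem_insert, Finset.mem_singleton] at hx hx'
  rcases hx with rfl | rfl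
  · rcases hx' with h | h
    · exact h3 h
    · exact h4 h
  · rcases hx' with h | h
    · exact h5 h
    · exact h6 h

end Pool.Agent.H.MP_6268b4_co
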