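import Pool.Agent.H.MP_6268b4_co.F4E3

/-!
The incidence relation between edges and 2-faces in coordinates.
-/

namespace Pool.Agent.H.MP_6268b4_co

variable {F : Type*} [Field F] [Fintype F] [DecidableEq F] {ω t : F}

theorem f4e4_aux (h : XHyp ω) {b y y' : F} (hyy : y ≠ y') :
    (CrossX ω none (some b) (some y) (some y') ∧ TriX ω t none (some b) (some y)) ↔
      (b = (y' - ω * y) / (1 - ω) ∧ PW ω (t * ((y' - y) / (1 - ω)))) := by
  have h1 : 1 - ω ≠ 0 := (xh_basic h).2.2.2.2.2.1
  have hyy' : y' - y ≠ 0 := sub_ne_zero.2 (Ne.symm hyy)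
  constructor
  · rintro ⟨⟨-, -, -, -, -, -, h2⟩, i, h3⟩
    have h2' : (1 : F) * (b - y') = ω * (1 * (b - y)) := h2
    have hb : b = (y' - ω * y) / (1 - ω) := by
      rw [eq_div_iff h1]
      linear_combination h2'
    refine ⟨hb, ?_⟩
    rw [← pw_neg_iff h]
    refine ⟨i, ?_⟩
    rw [← h3]
    have h4 : b - y = (y' - y) / (1 - ω) := by
      rw [hb]
      field_simp
      ring
    change _ = t * (1 * (b - y) * (-1))
    rw [h4]
    ring
  · rintro ⟨hb, hp⟩
    have h4 : b - y = (y' - y) / (1 - ω) := by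
      rw [hb]
      field_simp
      ring
    have h5 : b - y' = ω * ((y' - y) / (1 - ω)) := by
      rw [hb]
      field_simp
      ring
    have h6 : (y' - y) / (1 - ω) ≠ 0 := div_ne_zero hyy' h1
    refine ⟨⟨by simp, by simpa using hyy, by simp, by simp, ?_, ?_, ?_⟩, ?_⟩
    · intro h7
      apply h6
      rw [← h4, Option.some.inj h7, sub_self]
    · intro h7
      apply mul_ne_zero h.ne h6
      rw [← h5, Option.some.inj h7, sub_self]
    · change (1 : F) * (b - y') = ω * (1 * (b - y))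
      rw [h4, h5, one_mul, one_mul]
    · obtain ⟨i, hi⟩ := (pw_neg_iff h).2 hp
      refine ⟨i, ?_⟩
      rw [← hi]
      change t * (1 * (b - y) * (-1)) = _
      rw [h4]
      ring

/-- Job F4E4-1. The edges through the point at infinity.

Proof. `incx_iff` (`none ≠ some b`, `some y ≠ some y'`). `CrossX ω none (some b) (some y) (some y')` says
`b - y' = ω * (b - y)` and the distinctness, i.e. (`1 - ω ≠ 0`) `b = (y' - ω * y) / (1 - ω)`;
distinctness: `b - y = (y' - y) / (1 - ω) ≠ 0` and `b - y' = ω (b - y) ≠ 0` follow. Then `TriX ω t none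
(some b) (some y)` says that `t * (1 * (b - y) * (-1)) = -t * (y' - y) / (1 - ω)` is a power of `ω`; use
`pw_neg_iff`. In the second alternative `y` and `y'` are exchanged: `b = (y - ω * y') / (1 - ω)` and
`-t * (y - y') / (1 - ω) = t * (y' - y) / (1 - ω)`. -/
theorem incx_inf (h : XHyp ω) (ht : t ≠ 0) {b y y' : F} (hyy : y ≠ y') :
    IncX ω t {none, some b} {some y, some y'} ↔
      PW ω (t * ((y' - y) / (1 - ω))) ∧
        (b = (y' - ω * y) / (1 - ω) ∨ b = (y - ω * y') / (1 - ω)) := by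
  rw [incx_iff h ht (by simp) (by simpa using hyy), f4e4_aux h hyy, f4e4_aux h (Ne.symm hyy)]
  have e : t * ((y - y') / (1 - ω)) = -(t * ((y' - y) / (1 - ω))) := by ring
  rw [e, pw_neg_iff h]
  tauto

/-- Job F4E4-2. The 2-faces on the pair `{∞, y}`. Proof: `incx_dual` (in the direction from right to
left) and `incx_inf` with `t * (1 - ω)` in the place of `t`:
`t * (1 - ω) * ((b - a) / (1 - ω)) = t * (b - a)`. -/
theorem incx_inf' (h : XHyp ω) (ht : t ≠ 0) {a b y : F} (hab : a ≠ b) :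
    IncX ω t {some a, some b} {none, some y} ↔
      PW ω (t * (b - a)) ∧ (y = (b - ω * a) / (1 - ω) ∨ y = (a - ω * b) / (1 - ω)) := by
  have h1 : 1 - ω ≠ 0 := (xh_basic h).2.2.2.2.2.1
  rw [← incx_dual h ht, incx_inf h (mul_ne_zero ht h1) hab]
  have e : t * (1 - ω) * ((b - a) / (1 - ω)) = t * (b - a) := by
    field_simp
  rw [e]

/-- Job F4E4-3. The 2-faces above the edge `{∞, 0}`. Proof: `incx_inf` with `b = 0`: the second condition
is `y' = ω * y` or `y = ω * y'`; in the first case `(y' - y) / (1 - ω) = -y`, in the second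
`(y' - y) / (1 - ω) = y'` and `t * y = ω * (t * y')`; use `pw_neg_iff`, `pw_mul_iff`, `pw_self`. -/
theorem incx_zero (h : XHyp ω) (ht : t ≠ 0) {y y' : F} (hyy : y ≠ y') :
    IncX ω t {none, some 0} {some y, some y'} ↔ PW ω (t * y) ∧ (y' = ω * y ∨ y = ω * y') := by
  have h1 : 1 - ω ≠ 0 := (xh_basic h).2.2.2.2.2.1
  rw [incx_inf h ht hyy]
  have e1 : (0 : F) = (y' - ω * y) / (1 - ω) ↔ y' = ω * y := by
    rw [eq_div_iff h1, zero_mul, eq_comm, sub_eq_zero]
  have e2 : (0 : F) = (y - ω * y') / (1 - ω) ↔ y = ω * y' := by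
    rw [eq_div_iff h1, zero_mul, eq_comm, sub_eq_zero]
  rw [e1, e2]
  have k1 : y' = ω * y → (PW ω (t * ((y' - y) / (1 - ω))) ↔ PW ω (t * y)) := by
    intro hy
    have e : t * ((y' - y) / (1 - ω)) = -(t * y) := by
      rw [hy]
      field_simp
      ring
    rw [e, pw_neg_iff h]
  have k2 : y = ω * y' → (PW ω (t * ((y' - y) / (1 - ω))) ↔ PW ω (t * y)) := by
    intro hy
    have e : t * ((y' - y) / (1 - ω)) = t * y' := by
      rw [hy]
      field_simp
    have e' : t * y = ω * (t * y') := by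
      rw [hy]
      ring
    rw [e, e', pw_mul_iff h pw_self]
  tauto

/-- Job F4E4-4. The edges below the 2-face `{∞, 0}`. Proof: `incx_dual` and `incx_zero`. -/
theorem incx_zero' (h : XHyp ω) (ht : t ≠ 0) {a b : F} (hab : a ≠ b) :
    IncX ω t {some a, some b} {none, some 0} ↔
      PW ω (t * (1 - ω) * a) ∧ (b = ω * a ∨ a = ω * b) := by
  have h1 : 1 - ω ≠ 0 := (xh_basic h).2.2.2.2.2.1
  rw [← incx_dual h ht, incx_zero h (mul_ne_zero ht h1) hab]

omit [Field F] [Fintype F] [DecidableEq F] in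
theorem f4e4_map_symm (g : Equiv.Perm (Option F)) (s : Finset (Option F)) :
    (s.map g.toEmbedding).map g.symm.toEmbedding = s := by
  ext x
  simp only [Finset.mem_map_equiv, Equiv.symm_symm, Equiv.symm_apply_apply]

omit [Field F] [Fintype F] in
theorem f4e4_map_pair (g : Equiv.Perm (Option F)) (a b : Option F) :
    ({a, b} : Finset (Option F)).map g.toEmbedding = {g a, g b} := by
  rw [Finset.map_insert, Finset.map_singleton]
  rfl

/-- Job F4E4-6. `IncX` is preserved by the maps in `PresX` (see `inc_map` in `CRAuto.lean`). -/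
theorem incx_map {g : Equiv.Perm (Option F)} (hg : PresX ω t g) (s s' : Finset (Option F)) :
    IncX ω t (s.map g.toEmbedding) (s'.map g.toEmbedding) ↔ IncX ω t s s' := by
  constructor
  · rintro ⟨a, b, y, y', h1, h2, h3⟩
    refine ⟨g.symm a, g.symm b, g.symm y, g.symm y', ?_, ?_, ?_⟩
    · rw [← f4e4_map_symm g s, h1, f4e4_map_pair]
    · rw [← f4e4_map_symm g s', h2, f4e4_map_pair]
    · have := (hg (g.symm a) (g.symm b) (g.symm y) (g.symm y')).1
      simp only [Equiv.apply_symm_apply] at this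
      exact this h3
  · rintro ⟨a, b, y, y', rfl, rfl, h3⟩
    exact ⟨g a, g b, g y, g y', f4e4_map_pair g a b, f4e4_map_pair g y y',
      (hg a b y y').2 h3⟩

/-- Job F4E4-5. Every pair `s'` is incident with some pair `s`, and conversely.

Proof. `s' = {y, y'}`; by `x_two_trans` there is `g` preserving the relation with `g y = none`,
`g y' = some 0`. By `incx_zero'` with `a = (t * (1 - ω))⁻¹`, `b = ω * a`, `{some a, some b}` is incident
with `{none, some 0}`; apply `g⁻¹` (`PresX.symm`; `IncX` is preserved: unfold `IncX`). The second claim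
in the same way from `incx_zero`. -/
theorem incx_exists (h : XHyp ω) (ht : t ≠ 0) (s : {s : Finset (Option F) // s.card = 2}) :
    (∃ s₁ : {s : Finset (Option F) // s.card = 2}, IncX ω t s₁.1 s.1) ∧
    ∃ s₁ : {s : Finset (Option F) // s.card = 2}, IncX ω t s.1 s₁.1 := by
  have h1 : 1 - ω ≠ 0 := (xh_basic h).2.2.2.2.2.1
  have hω1 : ω ≠ 1 := (xh_basic h).2.2.1
  obtain ⟨y, y', hyy, hs⟩ := Finset.card_eq_two.1 s.2
  obtain ⟨g, hg, hgy, hgy'⟩ := x_two_trans (t := t) h hyy
  have hsg : s.1.map g.toEmbedding = {none, some 0} := by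
    rw [hs, f4e4_map_pair, hgy, hgy']
  have hpair : ∀ c : F, c ≠ 0 → c ≠ ω * c := by
    intro c hc h2
    apply hω1
    have h3 : (ω - 1) * c = 0 := by linear_combination -h2
    rcases mul_eq_zero.1 h3 with h4 | h4
    · exact sub_eq_zero.1 h4
    · exact absurd h4 hc
  have hpull : ∀ c : F, c ≠ 0 → ∃ s₁ : {s : Finset (Option F) // s.card = 2},
      s₁.1.map g.toEmbedding = {some c, some (ω * c)} := by
    intro c hc
    refine ⟨⟨{g.symm (some c), g.symm (some (ω * c))}, ?_⟩, ?_⟩
    · rw [Finset.card_pair]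
      intro h2
      exact hpair c hc (Option.some.inj (g.symm.injective h2))
    · rw [f4e4_map_pair, Equiv.apply_symm_apply, Equiv.apply_symm_apply]
  constructor
  · have ha : (t * (1 - ω))⁻¹ ≠ 0 := inv_ne_zero (mul_ne_zero ht h1)
    obtain ⟨s₁, hs₁⟩ := hpull _ ha
    refine ⟨s₁, ?_⟩
    rw [← incx_map hg, hs₁, hsg, incx_zero' h ht (hpair _ ha)]
    refine ⟨?_, Or.inl rfl⟩
    rw [mul_inv_cancel₀ (mul_ne_zero ht h1)]
    exact pw_one
  · have ha : t⁻¹ ≠ 0 := inv_ne_zero ht
    obtain ⟨s₁, hs₁⟩ := hpull _ ha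
    refine ⟨s₁, ?_⟩
    rw [← incx_map hg, hs₁, hsg, incx_zero h ht (hpair _ ha)]
    refine ⟨?_, Or.inl rfl⟩
    rw [mul_inv_cancel₀ ht]
    exact pw_one

end Pool.Agent.H.MP_6268b4_co
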