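import Pool.Agent.H.MP_6268b4_co.F4EDefs

/-!
General facts about the posets `GP X I`: strict order, automorphisms, duality, connectedness.
-/

namespace Pool.Agent.H.MP_6268b4_co

namespace GP

variable {X : Type*} {I I' : Finset X → Finset X → Prop}

/-- Job F4E5-1. The strict order. Proof: unfold, cases (see `crpolya_lt` etc. in `CRPolyA.lean`). -/
theorem lt_def (x y : GP X I) : x < y ↔ le x y ∧ x ≠ y := by
  exact lt_iff_le_and_ne

theorem bot_lt' (x : GP X I) : bot < x ↔ x ≠ bot := by
  rw [lt_def]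
  cases x <;> simp [le]

theorem lt_top' (x : GP X I) : x < top ↔ x ≠ top := by
  rw [lt_def]
  cases x <;> simp [le]

theorem lt_ve (a : X) (s : {s : Finset X // s.card = 2}) :
    (vert a : GP X I) < edge s ↔ a ∈ s.1 := by
  rw [lt_def]
  simp [le]

theorem lt_vf (a : X) (s' : {s : Finset X // s.card = 2}) :
    (vert a : GP X I) < face s' ↔
      ∃ s : {s : Finset X // s.card = 2}, a ∈ s.1 ∧ I s.1 s'.1 := by
  rw [lt_def]
  simp [le]

theorem lt_vc (a y : X) : (vert a : GP X I) < facet y ↔
    ∃ s s' : {s : Finset X // s.card = 2}, a ∈ s.1 ∧ I s.1 s'.1 ∧ y ∈ s'.1 := by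
  rw [lt_def]
  simp [le]

theorem lt_ef (s s' : {s : Finset X // s.card = 2}) :
    (edge s : GP X I) < face s' ↔ I s.1 s'.1 := by
  rw [lt_def]
  simp [le]

theorem lt_ec (s : {s : Finset X // s.card = 2}) (y : X) : (edge s : GP X I) < facet y ↔
    ∃ s' : {s : Finset X // s.card = 2}, I s.1 s'.1 ∧ y ∈ s'.1 := by
  rw [lt_def]
  simp [le]

theorem lt_fc (s : {s : Finset X // s.card = 2}) (y : X) :
    (face s : GP X I) < facet y ↔ y ∈ s.1 := by
  rw [lt_def]
  simp [le]

/-- Proof: cases; if `x < y` then `le x y` and `x ≠ y`. -/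
theorem rk_lt (x y : GP X I) (h : x < y) : rk x < rk y := by
  rw [lt_def] at h
  cases x <;> cases y <;> simp_all [le, rk]

/-- The image of a pair. -/
def mapPair (g : Equiv.Perm X) (s : {s : Finset X // s.card = 2}) :
    {s : Finset X // s.card = 2} :=
  ⟨s.1.map g.toEmbedding, by rw [Finset.card_map]; exact s.2⟩

/-- The map induced by a permutation. -/
def mapF (g : Equiv.Perm X) : GP X I → GP X I
  | bot => bot
  | vert a => vert (g a)
  | edge s => edge (mapPair g s)
  | face s => face (mapPair g s)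
  | facet y => facet (g y)
  | top => top

theorem f4e5_map_symm (g : Equiv.Perm X) (s : Finset X) :
    (s.map g.toEmbedding).map g.symm.toEmbedding = s := by
  ext x
  simp only [Finset.mem_map_equiv, Equiv.symm_symm, Equiv.symm_apply_apply]

theorem f4e5_mapF_symm (g : Equiv.Perm X) (x : GP X I) : mapF g.symm (mapF g x) = x := by
  cases x with
  | bot => rfl
  | vert a => simp only [mapF, Equiv.symm_apply_apply]
  | edge s =>
    simp only [mapF]
    congr 1
    exact Subtype.ext (f4e5_map_symm g s.1)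
  | face s =>
    simp only [mapF]
    congr 1
    exact Subtype.ext (f4e5_map_symm g s.1)
  | facet y => simp only [mapF, Equiv.symm_apply_apply]
  | top => rfl

theorem f4e5_mapPair_eq (g : Equiv.Perm X)
    (s s' : {s : Finset X // s.card = 2}) : mapPair g s = mapPair g s' ↔ s = s' := by
  rw [Subtype.ext_iff, Subtype.ext_iff]
  exact Finset.map_inj

theorem f4e5_mem (g : Equiv.Perm X) (a : X)
    (s : {s : Finset X // s.card = 2}) : g a ∈ (mapPair g s).1 ↔ a ∈ s.1 := by
  simp only [mapPair, Finset.mem_map_equiv, Equiv.symm_apply_apply]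

theorem f4e5_surj (g : Equiv.Perm X) (s : {s : Finset X // s.card = 2}) :
    ∃ s', mapPair g s' = s := by
  refine ⟨mapPair g.symm s, Subtype.ext ?_⟩
  have := f4e5_map_symm g.symm s.1
  rwa [Equiv.symm_symm] at this

/-- Job F4E5-2. Automorphisms (see `exists_auto` in `CRAuto.lean`). Proof: `mapF g` and `mapF g.symm` are
inverse to each other; the order is preserved by cases, the existential quantifiers are transported
by `mapPair g` and `mapPair g.symm`. -/
theorem exists_auto {g : Equiv.Perm X}
    (hg : ∀ s s' : Finset X, I (s.map g.toEmbedding) (s'.map g.toEmbedding) ↔ I s s') :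
    ∃ γ : GP X I ≃o GP X I, ∀ x, γ x = mapF g x := by
  refine ⟨⟨⟨mapF g, mapF g.symm, f4e5_mapF_symm g, ?_⟩, ?_⟩, fun x => rfl⟩
  · intro x
    have := f4e5_mapF_symm g.symm x
    rwa [Equiv.symm_symm] at this
  · intro x y
    change le (mapF g x) (mapF g y) ↔ le x y
    have hi : ∀ s s' : {s : Finset X // s.card = 2},
        I (mapPair g s).1 (mapPair g s').1 ↔ I s.1 s'.1 := fun s s' => hg s.1 s'.1
    have hex : ∀ P : {s : Finset X // s.card = 2} → Prop,
        (∃ s, P s) ↔ ∃ s, P (mapPair g s) := by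
      intro P
      constructor
      · rintro ⟨s, hs⟩
        obtain ⟨s', rfl⟩ := f4e5_surj g s
        exact ⟨s', hs⟩
      · rintro ⟨s, hs⟩
        exact ⟨_, hs⟩
    cases x <;> cases y
    case vert.face a s' =>
      simp only [mapF, le]
      rw [hex]
      simp only [f4e5_mem, hi]
    case vert.facet a y =>
      simp only [mapF, le]
      rw [hex]
      refine exists_congr fun s => ?_
      rw [hex]
      simp only [f4e5_mem, hi]
    case edge.facet s y =>
      simp only [mapF, le]
      rw [hex]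
      simp only [f4e5_mem, hi]
    all_goals simp only [mapF, le, f4e5_mapPair_eq, f4e5_mem, hi, EmbeddingLike.apply_eq_iff_eq]

/-- The duality map: vertices and facets, edges and 2-faces are interchanged. -/
def dual : GP X I → GP X I'
  | bot => top
  | vert a => facet a
  | edge s => face s
  | face s => edge s
  | facet y => vert y
  | top => bot

/-- Job F4E5-3. Duality. Proof: cases. -/
theorem dual_dual (x : GP X I) : dual (dual x : GP X I') = x := by
  cases x <;> rfl

theorem rk_dual (x : GP X I) : rk (dual x : GP X I') = 3 - rk x := by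
  cases x <;> norm_num [dual, rk]

theorem dual_le (hI : ∀ s s' : Finset X, I' s' s ↔ I s s') (x y : GP X I) :
    (dual x : GP X I') ≤ dual y ↔ y ≤ x := by
  change le (dual x) (dual y) ↔ le y x
  cases x <;> cases y
  case vert.facet a y =>
    simp only [dual, le]
  case facet.vert y a =>
    simp only [dual, le]
    constructor
    · rintro ⟨s, s', h1, h2, h3⟩
      exact ⟨s', s, h3, (hI _ _).1 h2, h1⟩
    · rintro ⟨s, s', h1, h2, h3⟩
      exact ⟨s', s, h3, (hI _ _).2 h2, h1⟩
  case face.vert s a =>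
    simp only [dual, le]
    constructor
    · rintro ⟨s', h1, h2⟩
      exact ⟨s', h2, (hI _ _).1 h1⟩
    · rintro ⟨s', h1, h2⟩
      exact ⟨s', (hI _ _).2 h2, h1⟩
  case facet.edge y s =>
    simp only [dual, le]
    constructor
    · rintro ⟨s', h1, h2⟩
      exact ⟨s', (hI _ _).1 h2, h1⟩
    · rintro ⟨s', h1, h2⟩
      exact ⟨s', h2, (hI _ _).2 h1⟩
  case face.edge s s' =>
    simp only [dual, le]
    exact hI _ _
  all_goals simp only [dual, le]
  all_goals exact eq_comm

theorem dual_lt (hI : ∀ s s' : Finset X, I' s' s ↔ I s s') (x y : GP X I) :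
    (dual x : GP X I') < dual y ↔ y < x := by
  rw [lt_iff_le_not_ge, lt_iff_le_not_ge, dual_le hI, dual_le hI]

/-- The relation in `SecConn`. -/
def R (A B : GP X I) (a b : GP X I) : Prop := (a ≤ b ∨ b ≤ a) ∧ A < b ∧ b < B

/-- Connected sections. -/
def C (A B : GP X I) : Prop :=
  ∀ x y : GP X I, A < x → x < B → A < y → y < B → Relation.ReflTransGen (R A B) x y

theorem f4e5_symm {A B x y : GP X I} (hx : A < x ∧ x < B)
    (h : Relation.ReflTransGen (R A B) x y) :
    Relation.ReflTransGen (R A B) y x ∧ (A < y ∧ y < B) := by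
  induction h with
  | refl => exact ⟨Relation.ReflTransGen.refl, hx⟩
  | tail _ hbc ih => exact ⟨Relation.ReflTransGen.head ⟨hbc.1.symm, ih.2⟩ ih.1, hbc.2⟩

/-- Job F4E5-4. Proof: the relation `R A B` is symmetric on the interval (see `crpolyb_symm`,
`crpolyb_conn` in `CRPolyB.lean`). -/
theorem C_of {A B z : GP X I}
    (hz : ∀ x, A < x → x < B → Relation.ReflTransGen (R A B) x z) : C A B := by
  intro x y hx hx' hy hy'
  exact (hz x hx hx').trans (f4e5_symm ⟨hy, hy'⟩ (hz y hy hy')).1

/-- Job F4E5-5. Proof: see `crpolyb_auto`. -/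
theorem C_auto (γ : GP X I ≃o GP X I) {A B : GP X I} (h : C (γ A) (γ B)) : C A B := by
  intro x y hx hx' hy hy'
  have h1 := h (γ x) (γ y) (γ.lt_iff_lt.2 hx) (γ.lt_iff_lt.2 hx') (γ.lt_iff_lt.2 hy)
    (γ.lt_iff_lt.2 hy')
  have hmono : ∀ a b : GP X I, R (γ A) (γ B) a b → R A B (γ.symm a) (γ.symm b) := by
    intro a b hab
    obtain ⟨h3, h4, h5⟩ := hab
    refine ⟨?_, ?_, ?_⟩
    · rcases h3 with h3 | h3
      · exact Or.inl (γ.symm.le_iff_le.2 h3)
      · exact Or.inr (γ.symm.le_iff_le.2 h3)
    · rw [← γ.lt_iff_lt, γ.apply_symm_apply]; exact h4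
    · rw [← γ.lt_iff_lt, γ.apply_symm_apply]; exact h5
  have key : ∀ b : GP X I, Relation.ReflTransGen (R (γ A) (γ B)) (γ x) b →
      Relation.ReflTransGen (R A B) x (γ.symm b) := by
    intro b hb
    induction hb with
    | refl => rw [γ.symm_apply_apply]
    | tail _ hbc ih => exact ih.tail (hmono _ _ hbc)
  have h2 := key _ h1
  rwa [γ.symm_apply_apply] at h2

/-- Job F4E5-6. Proof: see `crpolyb_dual`. -/
theorem C_dual (hI : ∀ s s' : Finset X, I' s' s ↔ I s s') {A B : GP X I}
    (h : C (dual B : GP X I') (dual A)) : C A B := by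
  have hI' : ∀ s s' : Finset X, I s' s ↔ I' s s' := fun s s' => (hI s' s).symm
  intro x y hx hx' hy hy'
  have h1 := h (dual x) (dual y) ((dual_lt hI _ _).2 hx') ((dual_lt hI _ _).2 hx)
    ((dual_lt hI _ _).2 hy') ((dual_lt hI _ _).2 hy)
  have hmono : ∀ a b : GP X I', R (dual B : GP X I') (dual A) a b →
      R A B (dual a : GP X I) (dual b) := by
    intro a b hab
    obtain ⟨h3, h4, h5⟩ := hab
    refine ⟨?_, ?_, ?_⟩
    · rcases h3 with h3 | h3
      · exact Or.inr ((dual_le hI' _ _).2 h3)
      · exact Or.inl ((dual_le hI' _ _).2 h3)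
    · rw [← dual_lt hI, dual_dual]; exact h5
    · rw [← dual_lt hI, dual_dual]; exact h4
  have key : ∀ b : GP X I', Relation.ReflTransGen (R (dual B : GP X I') (dual A)) (dual x) b →
      Relation.ReflTransGen (R A B) x (dual b) := by
    intro b hb
    induction hb with
    | refl => rw [dual_dual]
    | tail _ hbc ih => exact ih.tail (hmono _ _ hbc)
  have h2 := key _ h1
  rwa [dual_dual] at h2

end GP

end Pool.Agent.H.MP_6268b4_co
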