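import Pool.Agent.H.MP_6268b4_co.F4E4
import Pool.Agent.H.MP_6268b4_co.F4E5

/-!
The incidences in the cross-ratio polytopes.
-/

namespace Pool.Agent.H.MP_6268b4_co

/-- The poset with the twisted incidence relation. -/
abbrev XT (F : Type*) [Field F] [DecidableEq F] (ω t : F) : Type _ := GP (Option F) (IncX ω t)

variable {F : Type*} [Field F] [Fintype F] [DecidableEq F] {ω t : F}

/-- Job F4E6-1. Proof: `x_two_trans`, `incx_map`, `GP.exists_auto`. -/
theorem xt_auto (h : XHyp ω) {a b : Option F} (hab : a ≠ b) :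
    ∃ (g : Equiv.Perm (Option F)) (γ : XT F ω t ≃o XT F ω t),
      (∀ x, γ x = GP.mapF g x) ∧ g a = none ∧ g b = some 0 := by
  obtain ⟨g, hg, h1, h2⟩ := x_two_trans (t := t) h hab
  obtain ⟨γ, hγ⟩ := GP.exists_auto (incx_map hg)
  exact ⟨g, γ, hγ, h1, h2⟩

/-- Job F4E6-2. The duality. Proof: `GP.dual_le`, `incx_dual`. -/
theorem xt_dual_le (h : XHyp ω) (ht : t ≠ 0) (x y : XT F ω t) :
    (GP.dual x : XT F ω (t * (1 - ω))) ≤ GP.dual y ↔ y ≤ x :=
  GP.dual_le (incx_dual h ht) x y

omit [Field F] [Fintype F] in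
/-- A pair with a given element. -/
theorem f4e6_pair {s : Finset (Option F)} (hs : s.card = 2) {x : Option F} (hx : x ∈ s) :
    ∃ y, x ≠ y ∧ s = {x, y} := by
  obtain ⟨a, b, hab, rfl⟩ := Finset.card_eq_two.1 hs
  rw [Finset.mem_insert, Finset.mem_singleton] at hx
  rcases hx with rfl | rfl
  · exact ⟨b, hab, rfl⟩
  · exact ⟨a, hab.symm, Finset.pair_comm _ _⟩

omit [Field F] [Fintype F] in
/-- The pair of two elements. -/
theorem f4e6_mk {a b : Option F} (hab : a ≠ b) :
    ∃ s : {s : Finset (Option F) // s.card = 2}, s.1 = {a, b} :=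
  ⟨⟨{a, b}, Finset.card_pair hab⟩, rfl⟩

/-- Job F4E6-3. Points and 2-faces.

Proof. `GP.lt_vf`. If `none ∈ s` and `IncX ω t s s'` then `s = {none, some b}` (`s` has two elements), and
`incx_inf` gives `PW`. Conversely take `s = {none, some ((y' - ω * y) / (1 - ω))}`. -/
theorem xt_vf (h : XHyp ω) (ht : t ≠ 0) {y y' : F} (hyy : y ≠ y')
    (s' : {s : Finset (Option F) // s.card = 2}) (hs' : s'.1 = {some y, some y'}) :
    (GP.vert none : XT F ω t) < GP.face s' ↔ PW ω (t * ((y' - y) / (1 - ω))) := by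
  rw [GP.lt_vf]
  constructor
  · rintro ⟨s, hs, hi⟩
    obtain ⟨z, hz, hsz⟩ := f4e6_pair s.2 hs
    cases z with
    | none => exact absurd rfl hz
    | some b =>
      rw [hsz, hs', incx_inf h ht hyy] at hi
      exact hi.1
  · intro hp
    obtain ⟨s, hs⟩ := f4e6_mk (a := (none : Option F)) (b := some ((y' - ω * y) / (1 - ω)))
      (by simp)
    refine ⟨s, ?_, ?_⟩
    · rw [hs]
      exact Finset.mem_insert_self _ _
    · rw [hs, hs', incx_inf h ht hyy]
      exact ⟨hp, Or.inl rfl⟩

/-- Job F4E6-4. Edges and facets.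

Proof. `GP.lt_ec`. If `some 0 ∈ s'` and `IncX ω t s s'` then `s' = {some 0, some y'}` (`none ∉ s'` by
`incx_disj`) and `incx_inf` with `y = 0` gives that `t * (y' / (1 - ω))` is a power of `ω` and
`b = y' / (1 - ω)` or `b = -ω * y' / (1 - ω)`; so `t * b` is a power of `ω` (`pw_neg_iff`, `pw_mul`).
Conversely take `s' = {some 0, some ((1 - ω) * b)}` (`b ≠ 0` by `pw_ne`). -/
theorem xt_ec (h : XHyp ω) (ht : t ≠ 0) {b : F} (s : {s : Finset (Option F) // s.card = 2})
    (hs : s.1 = {none, some b}) :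
    (GP.edge s : XT F ω t) < GP.facet (some 0) ↔ PW ω (t * b) := by
  have h1 : 1 - ω ≠ 0 := (xh_basic h).2.2.2.2.2.1
  rw [GP.lt_ec]
  constructor
  · rintro ⟨s', hi, hs'⟩
    obtain ⟨z, hz, hsz⟩ := f4e6_pair s'.2 hs'
    cases z with
    | none =>
      exfalso
      refine incx_disj hi (x := none) ?_ ?_
      · rw [hs]; exact Finset.mem_insert_self _ _
      · rw [hsz]; exact Finset.mem_insert_of_mem (Finset.mem_singleton_self _)
    | some y' =>
      have hyy : (0 : F) ≠ y' := fun h2 => hz (by rw [h2])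
      rw [hs, hsz, incx_inf h ht hyy] at hi
      obtain ⟨h2, h3⟩ := hi
      rw [sub_zero] at h2
      rcases h3 with h3 | h3
      · have e : b = y' / (1 - ω) := by rw [h3, mul_zero, sub_zero]
        rw [e]
        exact h2
      · have e : t * b = -(ω * (t * (y' / (1 - ω)))) := by
          rw [h3]
          ring
        rw [e, pw_neg_iff h]
        exact pw_mul pw_self h2
  · intro hp
    have hb : b ≠ 0 := fun h2 => pw_ne h hp (by rw [h2, mul_zero])
    have hyy : (0 : F) ≠ (1 - ω) * b := (mul_ne_zero h1 hb).symm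
    obtain ⟨s', hs'⟩ := f4e6_mk (a := some (0 : F)) (b := some ((1 - ω) * b))
      (fun h2 => hyy (Option.some.inj h2))
    refine ⟨s', ?_, ?_⟩
    · rw [hs, hs', incx_inf h ht hyy]
      have e : ((1 - ω) * b - 0) / (1 - ω) = b := by
        rw [sub_zero, mul_div_assoc, mul_comm, div_mul_cancel₀ _ h1]
      rw [e]
      refine ⟨hp, Or.inl ?_⟩
      rw [mul_zero, e]
    · rw [hs']
      exact Finset.mem_insert_self _ _

/-- Job F4E6-5. Proof: `GP.lt_ec`. If `none ∈ s'` and `IncX ω t s s'` then `s' = {none, some y}` and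
`incx_inf'` gives `PW`. Conversely take `s' = {none, some ((b - ω * a) / (1 - ω))}`. -/
theorem xt_ec' (h : XHyp ω) (ht : t ≠ 0) {a b : F} (hab : a ≠ b)
    (s : {s : Finset (Option F) // s.card = 2}) (hs : s.1 = {some a, some b}) :
    (GP.edge s : XT F ω t) < GP.facet none ↔ PW ω (t * (b - a)) := by
  rw [GP.lt_ec]
  constructor
  · rintro ⟨s', hi, hs'⟩
    obtain ⟨z, hz, hsz⟩ := f4e6_pair s'.2 hs'
    cases z with
    | none => exact absurd rfl hz
    | some y =>
      rw [hs, hsz, incx_inf' h ht hab] at hi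
      exact hi.1
  · intro hp
    obtain ⟨s', hs'⟩ := f4e6_mk (a := (none : Option F)) (b := some ((b - ω * a) / (1 - ω)))
      (by simp)
    refine ⟨s', ?_, ?_⟩
    · rw [hs, hs', incx_inf' h ht hab]
      exact ⟨hp, Or.inl rfl⟩
    · rw [hs']
      exact Finset.mem_insert_self _ _

/-- Job F4E6-6. The facets above the edge `{∞, 0}`. Proof: `GP.lt_ec`. If `y ∈ s'` and `IncX ω t s s'`
then `s' = {y, y'}` and both `y`, `y'` are finite (`incx_disj`); `incx_zero` gives `PW ω (t * y)` or
`PW ω (t * y')` with `y = ω * y'`, or `y' = ω * y`; so in each case `PW ω (t * y)`. Conversely take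
`s' = {some y, some (ω * y)}`. -/
theorem xt_ec0 (h : XHyp ω) (ht : t ≠ 0) {y : F} (s : {s : Finset (Option F) // s.card = 2})
    (hs : s.1 = {none, some 0}) :
    (GP.edge s : XT F ω t) < GP.facet (some y) ↔ PW ω (t * y) := by
  have hω1 : ω ≠ 1 := (xh_basic h).2.2.1
  rw [GP.lt_ec]
  constructor
  · rintro ⟨s', hi, hs'⟩
    obtain ⟨z, hz, hsz⟩ := f4e6_pair s'.2 hs'
    cases z with
    | none =>
      exfalso
      refine incx_disj hi (x := none) ?_ ?_
      · rw [hs]; exact Finset.mem_insert_self _ _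
      · rw [hsz]; exact Finset.mem_insert_of_mem (Finset.mem_singleton_self _)
    | some y' =>
      have hyy : y ≠ y' := fun h2 => hz (by rw [h2])
      rw [hs, hsz, incx_zero h ht hyy] at hi
      exact hi.1
  · intro hp
    have hy : y ≠ 0 := fun h2 => pw_ne h hp (by rw [h2, mul_zero])
    have hyy : y ≠ ω * y := by
      intro h2
      apply hω1
      have h3 : (ω - 1) * y = 0 := by linear_combination -h2
      rcases mul_eq_zero.1 h3 with h4 | h4
      · exact sub_eq_zero.1 h4
      · exact absurd h4 hy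
    obtain ⟨s', hs'⟩ := f4e6_mk (a := some y) (b := some (ω * y))
      (fun h2 => hyy (Option.some.inj h2))
    refine ⟨s', ?_, ?_⟩
    · rw [hs, hs', incx_zero h ht hyy]
      exact ⟨hp, Or.inl rfl⟩
    · rw [hs']
      exact Finset.mem_insert_self _ _

/-- Job F4E6-7. Vertices and facets.

Proof. `GP.lt_vc`; `→`: `incx_disj`. `←`: by `xt_auto` there is an automorphism `γ` mapping `vert a` to
`vert none` and `facet y` to `facet (some 0)`; `vert none < edge {none, some t⁻¹} < facet (some 0)` by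
`xt_ec` (`t * t⁻¹ = 1`), so `vert a < facet y` (`γ` is an order isomorphism). -/
theorem xt_vc (h : XHyp ω) (ht : t ≠ 0) (a y : Option F) :
    (GP.vert a : XT F ω t) < GP.facet y ↔ a ≠ y := by
  constructor
  · intro h1 h2
    rw [GP.lt_vc] at h1
    obtain ⟨s, s', h3, h4, h5⟩ := h1
    subst h2
    exact incx_disj h4 h3 h5
  · intro hay
    obtain ⟨g, γ, hγ, hga, hgy⟩ := xt_auto (t := t) h hay
    rw [← γ.lt_iff_lt, hγ, hγ]
    change (GP.vert (g a) : XT F ω t) < GP.facet (g y)
    rw [hga, hgy]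
    obtain ⟨s, hs⟩ := f4e6_mk (a := (none : Option F)) (b := some (t⁻¹)) (by simp)
    have h1 : (GP.vert none : XT F ω t) < GP.edge s := by
      rw [GP.lt_ve, hs]
      exact Finset.mem_insert_self _ _
    have h2 : (GP.edge s : XT F ω t) < GP.facet (some 0) := by
      rw [xt_ec h ht s hs, mul_inv_cancel₀ ht]
      exact pw_one
    exact h1.trans h2

end Pool.Agent.H.MP_6268b4_co
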