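import Pool.Agent.H.MP_6268b4_co.F4E6

/-!
The cross-ratio polytopes: graded, diamond condition.
-/

namespace Pool.Agent.H.MP_6268b4_co

variable {F : Type*} [Field F] [Fintype F] [DecidableEq F] {ω t : F}

omit [Fintype F] [DecidableEq F] in
theorem f4e7_pt (a : Option F) : ∃ b : Option F, b ≠ a := by
  cases a with
  | none => exact ⟨some 0, by simp⟩
  | some z => exact ⟨none, by simp⟩

/-- Job F4E7-1. Proof. `mono`: `GP.rk_lt`; `bot`, `top`: `rfl`. `dense`, by cases on `x < y` with
`rk x + 1 < rk y`: `bot < edge s`: a vertex of `s`. `bot < face s`: an edge below it (`incx_exists`).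
`bot < facet y`: `face {y, y'}` for some `y' ≠ y` (`Option F` has at least three elements `none`,
`some 0`, `some 1`). `bot < top`: any vertex. `vert a < face s'` and `vert a < facet y`: an edge, by the
definition of the order (`GP.lt_vf`, `GP.lt_vc`). `vert a < top`: `edge {a, b}`, `b ≠ a`.
`edge s < facet y`: a face, by definition (`GP.lt_ec`). `edge s < top`: a face above it
(`incx_exists`). `face s < top`: `facet y`, `y ∈ s`. -/
theorem xt_graded (h : XHyp ω) (ht : t ≠ 0) : Graded4 (XT F ω t) GP.rk := by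
  refine ⟨GP.rk_lt, rfl, rfl, ?_⟩
  intro x y hxy h'
  cases x with
  | bot =>
    cases y with
    | bot => exact absurd hxy (lt_irrefl _)
    | vert b => simp [GP.rk] at h'
    | edge s =>
      obtain ⟨a, b, hab, hs⟩ := Finset.card_eq_two.1 s.2
      exact ⟨GP.vert a, (GP.bot_lt' _).2 (by simp), (GP.lt_ve _ _).2 (by rw [hs]; simp)⟩
    | face s =>
      obtain ⟨⟨s₁, hs₁⟩, -⟩ := incx_exists h ht s
      exact ⟨GP.edge s₁, (GP.bot_lt' _).2 (by simp), (GP.lt_ef _ _).2 hs₁⟩
    | facet y =>
      obtain ⟨b, hb⟩ := f4e7_pt y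
      exact ⟨GP.face ⟨{y, b}, Finset.card_pair (Ne.symm hb)⟩, (GP.bot_lt' _).2 (by simp),
        (GP.lt_fc _ _).2 (by simp)⟩
    | top => exact ⟨GP.vert none, (GP.bot_lt' _).2 (by simp), (GP.lt_top' _).2 (by simp)⟩
  | vert a =>
    cases y with
    | bot => simp [GP.rk] at h'
    | vert b => simp [GP.rk] at h'
    | edge s => simp [GP.rk] at h'
    | face s =>
      obtain ⟨s₁, h1, h2⟩ := (GP.lt_vf _ _).1 hxy
      exact ⟨GP.edge s₁, (GP.lt_ve _ _).2 h1, (GP.lt_ef _ _).2 h2⟩
    | facet y =>
      obtain ⟨s₁, s₂, h1, h2, h3⟩ := (GP.lt_vc _ _).1 hxy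
      exact ⟨GP.edge s₁, (GP.lt_ve _ _).2 h1, (GP.lt_ec _ _).2 ⟨s₂, h2, h3⟩⟩
    | top =>
      obtain ⟨b, hb⟩ := f4e7_pt a
      exact ⟨GP.edge ⟨{a, b}, Finset.card_pair (Ne.symm hb)⟩, (GP.lt_ve _ _).2 (by simp),
        (GP.lt_top' _).2 (by simp)⟩
  | edge s =>
    cases y with
    | bot => simp [GP.rk] at h'
    | vert b => simp [GP.rk] at h'
    | edge s => simp [GP.rk] at h'
    | face s => simp [GP.rk] at h'
    | facet y =>
      obtain ⟨s₁, h1, h2⟩ := (GP.lt_ec _ _).1 hxy
      exact ⟨GP.face s₁, (GP.lt_ef _ _).2 h1, (GP.lt_fc _ _).2 h2⟩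
    | top =>
      obtain ⟨-, ⟨s₁, hs₁⟩⟩ := incx_exists h ht s
      exact ⟨GP.face s₁, (GP.lt_ef _ _).2 hs₁, (GP.lt_top' _).2 (by simp)⟩
  | face s =>
    cases y with
    | bot => simp [GP.rk] at h'
    | vert b => simp [GP.rk] at h'
    | edge s => simp [GP.rk] at h'
    | face s => simp [GP.rk] at h'
    | facet y => simp [GP.rk] at h'
    | top =>
      obtain ⟨a, b, hab, hs⟩ := Finset.card_eq_two.1 s.2
      exact ⟨GP.facet a, (GP.lt_fc _ _).2 (by rw [hs]; simp), (GP.lt_top' _).2 (by simp)⟩
  | facet a => cases y <;> simp [GP.rk] at h'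
  | top => cases y <;> simp [GP.rk] at h'

theorem f4e7_none (h : XHyp ω) (ht : t ≠ 0)
    (s' : {s : Finset (Option F) // s.card = 2})
    (has : (GP.vert none : XT F ω t) < GP.face s') :
    ∃ x y : XT F ω t, x ≠ y ∧ {H : XT F ω t | GP.vert none < H ∧ H < GP.face s'} = {x, y} := by
  obtain ⟨-, -, -, -, hp, hm, -⟩ := xh_basic h
  have hnone : none ∉ s'.1 := by
    obtain ⟨s, h1, h2⟩ := (GP.lt_vf _ _).1 has
    exact fun h3 => incx_disj h2 h1 h3
  obtain ⟨u, v, huv, hs⟩ := Finset.card_eq_two.1 s'.2
  obtain ⟨y, rfl⟩ : ∃ y, u = some y := by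
    cases u with
    | none => exact absurd (by rw [hs]; simp) hnone
    | some y => exact ⟨y, rfl⟩
  obtain ⟨y', rfl⟩ : ∃ y', v = some y' := by
    cases v with
    | none => exact absurd (by rw [hs]; simp) hnone
    | some y => exact ⟨y, rfl⟩
  have hyy : y ≠ y' := fun e => huv (by rw [e])
  have hPW := (xt_vf h ht hyy s' hs).1 has
  obtain ⟨b₁, hb₁⟩ : ∃ b₁, b₁ = (y' - ω * y) / (1 - ω) := ⟨_, rfl⟩
  obtain ⟨b₂, hb₂⟩ : ∃ b₂, b₂ = (y - ω * y') / (1 - ω) := ⟨_, rfl⟩
  have hd : ∀ d : F, IncX ω t {none, some d} s'.1 ↔ d = b₁ ∨ d = b₂ := by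
    intro d
    rw [hs, incx_inf h ht hyy, ← hb₁, ← hb₂]
    exact ⟨fun h1 => h1.2, fun h1 => ⟨hPW, h1⟩⟩
  have hbb : b₁ ≠ b₂ := by
    intro e
    have h1 : (y' - y) * (1 + ω) = 0 := by
      have h2 : b₁ * (1 - ω) = b₂ * (1 - ω) := by rw [e]
      rw [hb₁, hb₂, div_mul_cancel₀ _ hm, div_mul_cancel₀ _ hm] at h2
      linear_combination h2
    rcases mul_eq_zero.1 h1 with h2 | h2
    · exact hyy (sub_eq_zero.1 h2).symm
    · exact hp h2
  have hc : ∀ d : F, ({none, some d} : Finset (Option F)).card = 2 := fun d =>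
    Finset.card_pair (by simp)
  refine ⟨GP.edge ⟨{none, some b₁}, hc b₁⟩, GP.edge ⟨{none, some b₂}, hc b₂⟩, ?_, ?_⟩
  · intro h1
    injection h1 with h1
    have h3 := congrArg Subtype.val h1
    have h4 : some b₁ ∈ ({none, some b₂} : Finset (Option F)) := by
      rw [← (show ({none, some b₁} : Finset (Option F)) = {none, some b₂} from h3)]
      simp
    rw [Finset.mem_insert, Finset.mem_singleton] at h4
    rcases h4 with h4 | h4
    · exact absurd h4 (by simp)
    · exact hbb (Option.some.inj h4)
  · ext H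
    rw [Set.mem_ofPred_eq, Set.mem_insert_iff, Set.mem_singleton_iff]
    constructor
    · rintro ⟨h3, h4⟩
      cases H with
      | bot => rw [GP.lt_def] at h3; simp [GP.le] at h3
      | vert b' =>
        rw [GP.lt_def] at h3
        simp only [GP.le] at h3
        exact absurd (congrArg GP.vert h3.1) h3.2
      | edge r =>
        rw [GP.lt_ve] at h3
        rw [GP.lt_ef] at h4
        obtain ⟨u, v, huv', hr⟩ := Finset.card_eq_two.1 r.2
        have key : ∃ d : F, r.1 = {none, some d} := by
          rw [hr, Finset.mem_insert, Finset.mem_singleton] at h3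
          rcases h3 with rfl | rfl
          · cases v with
            | none => exact absurd rfl huv'
            | some d => exact ⟨d, hr⟩
          · cases u with
            | none => exact absurd rfl huv'
            | some d => exact ⟨d, by rw [hr, Finset.pair_comm]⟩
        obtain ⟨d, hrd⟩ := key
        rw [hrd, hd d] at h4
        rcases h4 with rfl | rfl
        · left
          congr 1
          exact Subtype.ext hrd
        · right
          congr 1
          exact Subtype.ext hrd
      | face r =>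
        rw [GP.lt_def] at h4
        simp only [GP.le] at h4
        exact absurd (congrArg GP.face h4.1) h4.2
      | facet r => rw [GP.lt_def] at h4; simp [GP.le] at h4
      | top => rw [GP.lt_def] at h4; simp [GP.le] at h4
    · rintro (rfl | rfl)
      · rw [GP.lt_ve, GP.lt_ef]
        exact ⟨by simp, (hd b₁).2 (Or.inl rfl)⟩
      · rw [GP.lt_ve, GP.lt_ef]
        exact ⟨by simp, (hd b₂).2 (Or.inr rfl)⟩

/-- Job F4E7-2. The two edges between a vertex and a 2-face.

Proof. By `xt_auto` (with any `b ≠ a`) we may assume `a = none` (the automorphism maps the interval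
bijectively to the interval, transport the two elements back with `γ.symm`). `none ∉ s'.1`
(`GP.lt_vf`, `incx_disj`), so `s'.1 = {some y, some y'}`, `y ≠ y'`, and `PW ω (t * ((y' - y) / (1 - ω)))` by
`xt_vf`. By `incx_inf` the edges in the interval are the `{none, some b}` with `b = b₁` or `b = b₂`,
`b₁ = (y' - ω * y) / (1 - ω)`, `b₂ = (y - ω * y') / (1 - ω)`, and
`b₁ - b₂ = (y' - y) (1 + ω) / (1 - ω) ≠ 0`. All elements strictly between `vert none` and `face s'`
are edges (ranks, `GP.rk_lt`). -/
theorem xt_two (h : XHyp ω) (ht : t ≠ 0) (a : Option F)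
    (s' : {s : Finset (Option F) // s.card = 2}) (has : (GP.vert a : XT F ω t) < GP.face s') :
    ∃ x y : XT F ω t, x ≠ y ∧ {H : XT F ω t | GP.vert a < H ∧ H < GP.face s'} = {x, y} := by
  obtain ⟨b, hb⟩ := f4e7_pt a
  obtain ⟨g, γ, hγ, ga, -⟩ := xt_auto (t := t) h (Ne.symm hb)
  have e1 : γ (GP.vert a) = GP.vert none := by
    rw [hγ]
    simp only [GP.mapF, ga]
  have e2 : γ (GP.face s') = GP.face (GP.mapPair g s') := by
    rw [hγ]
    rfl
  have has' : (GP.vert none : XT F ω t) < GP.face (GP.mapPair g s') := by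
    rw [← e1, ← e2]
    exact γ.lt_iff_lt.2 has
  obtain ⟨x, y, hxy, hset⟩ := f4e7_none h ht _ has'
  refine ⟨γ.symm x, γ.symm y, fun e => hxy (γ.symm.injective e), ?_⟩
  ext H
  have h1 : γ H ∈ {H : XT F ω t | GP.vert none < H ∧ H < GP.face (GP.mapPair g s')} ↔
      γ H ∈ ({x, y} : Set (XT F ω t)) := by rw [hset]
  rw [Set.mem_ofPred_eq, ← e1, ← e2, γ.lt_iff_lt, γ.lt_iff_lt, Set.mem_insert_iff,
    Set.mem_singleton_iff] at h1
  rw [Set.mem_ofPred_eq, h1, Set.mem_insert_iff, Set.mem_singleton_iff]
  constructor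
  · rintro (rfl | rfl)
    · left
      rw [γ.symm_apply_apply]
    · right
      rw [γ.symm_apply_apply]
  · rintro (rfl | rfl)
    · left
      rw [γ.apply_symm_apply]
    · right
      rw [γ.apply_symm_apply]

/-- Job F4E7-3. Proof. Cases on `x < y` with `rk y - rk x = 2`: `(bot, edge {a, b})`: `vert a`, `vert b`.
`(vert a, face s')`: `xt_two`. `(edge s, facet y)`: the duality `GP.dual` to `XT F ω (t * (1 - ω))`
(`GP.dual_lt`, `incx_dual`, `GP.dual_dual`) maps the interval bijectively to the interval between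
`vert y` and `face s` there: `xt_two` with `t * (1 - ω)`. `(face {a, b}, top)`: `facet a`, `facet b`. See
`CR.diamond` in `CRPolyA.lean` for a similar proof. -/
theorem xt_diamond (h : XHyp ω) (ht : t ≠ 0) : Diamond (XT F ω t) GP.rk := by
  intro x y hxy h'
  cases x with
  | bot =>
    cases y with
    | bot => simp [GP.rk] at h'
    | vert b => simp [GP.rk] at h'
    | edge s =>
      obtain ⟨a, b, hab, hs⟩ := Finset.card_eq_two.1 s.2
      rw [Set.ncard_eq_two]
      refine ⟨GP.vert a, GP.vert b, by simpa using hab, ?_⟩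
      ext H
      rw [Set.mem_ofPred_eq, Set.mem_insert_iff, Set.mem_singleton_iff]
      constructor
      · rintro ⟨h3, h4⟩
        cases H with
        | bot => exact absurd h3 (lt_irrefl _)
        | vert c =>
          rw [GP.lt_ve, hs, Finset.mem_insert, Finset.mem_singleton] at h4
          rcases h4 with rfl | rfl
          · exact Or.inl rfl
          · exact Or.inr rfl
        | edge r =>
          rw [GP.lt_def] at h4
          simp only [GP.le] at h4
          exact absurd (congrArg GP.edge h4.1) h4.2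
        | face r => rw [GP.lt_def] at h4; simp [GP.le] at h4
        | facet r => rw [GP.lt_def] at h4; simp [GP.le] at h4
        | top => rw [GP.lt_def] at h4; simp [GP.le] at h4
      · rintro (rfl | rfl)
        · exact ⟨(GP.bot_lt' _).2 (by simp), (GP.lt_ve _ _).2 (by rw [hs]; simp)⟩
        · exact ⟨(GP.bot_lt' _).2 (by simp), (GP.lt_ve _ _).2 (by rw [hs]; simp)⟩
    | face s => norm_num [GP.rk] at h'
    | facet y => norm_num [GP.rk] at h'
    | top => norm_num [GP.rk] at h'
  | vert a =>
    cases y with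
    | bot => simp [GP.rk] at h'
    | vert b => simp [GP.rk] at h'
    | edge s => simp [GP.rk] at h'
    | face s =>
      obtain ⟨u, v, huv, huv'⟩ := xt_two h ht a s hxy
      rw [Set.ncard_eq_two]
      exact ⟨u, v, huv, huv'⟩
    | facet y => norm_num [GP.rk] at h'
    | top => norm_num [GP.rk] at h'
  | edge s =>
    cases y with
    | bot => norm_num [GP.rk] at h'
    | vert b => norm_num [GP.rk] at h'
    | edge s => norm_num [GP.rk] at h'
    | face s => norm_num [GP.rk] at h'
    | facet y =>
      obtain ⟨-, -, -, -, -, hm, -⟩ := xh_basic h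
      have hI := incx_dual h ht
      have hdl := fun p q : XT F ω t => GP.dual_lt hI p q
      have has : (GP.vert y : XT F ω (t * (1 - ω))) < GP.face s :=
        (hdl (GP.facet y) (GP.edge s)).2 hxy
      obtain ⟨u, v, huv, huv'⟩ := xt_two h (mul_ne_zero ht hm) y s has
      have hinj : Function.Injective
          (GP.dual : XT F ω (t * (1 - ω)) → XT F ω t) := by
        intro p q hpq
        have h1 : (GP.dual (GP.dual p : XT F ω t) : XT F ω (t * (1 - ω))) =
            GP.dual (GP.dual q : XT F ω t) := by rw [hpq]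
        rwa [GP.dual_dual, GP.dual_dual] at h1
      have himg : {H : XT F ω t | GP.edge s < H ∧ H < GP.facet y} =
          (GP.dual : XT F ω (t * (1 - ω)) → XT F ω t) ''
            {H : XT F ω (t * (1 - ω)) | GP.vert y < H ∧ H < GP.face s} := by
        ext H
        constructor
        · rintro ⟨h3, h4⟩
          refine ⟨GP.dual H, ⟨?_, ?_⟩, GP.dual_dual H⟩
          · exact (hdl (GP.facet y) H).2 h4
          · exact (hdl H (GP.edge s)).2 h3
        · rintro ⟨G, ⟨h3, h4⟩, rfl⟩
          refine ⟨?_, ?_⟩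
          · have h5 := hdl (GP.dual G) (GP.edge s)
            rw [GP.dual_dual] at h5
            exact h5.1 h4
          · have h5 := hdl (GP.facet y) (GP.dual G)
            rw [GP.dual_dual] at h5
            exact h5.1 h3
      rw [himg, Set.ncard_image_of_injective _ hinj, Set.ncard_eq_two]
      exact ⟨u, v, huv, huv'⟩
    | top => norm_num [GP.rk] at h'
  | face s =>
    cases y with
    | bot => norm_num [GP.rk] at h'
    | vert b => norm_num [GP.rk] at h'
    | edge s => norm_num [GP.rk] at h'
    | face s => norm_num [GP.rk] at h'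
    | facet y => norm_num [GP.rk] at h'
    | top =>
      obtain ⟨a, b, hab, hs⟩ := Finset.card_eq_two.1 s.2
      rw [Set.ncard_eq_two]
      refine ⟨GP.facet a, GP.facet b, by simpa using hab, ?_⟩
      ext H
      rw [Set.mem_ofPred_eq, Set.mem_insert_iff, Set.mem_singleton_iff]
      constructor
      · rintro ⟨h3, h4⟩
        cases H with
        | bot => rw [GP.lt_def] at h3; simp [GP.le] at h3
        | vert c => rw [GP.lt_def] at h3; simp [GP.le] at h3
        | edge r => rw [GP.lt_def] at h3; simp [GP.le] at h3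
        | face r =>
          rw [GP.lt_def] at h3
          simp only [GP.le] at h3
          exact absurd (congrArg GP.face h3.1) h3.2
        | facet r =>
          rw [GP.lt_fc, hs, Finset.mem_insert, Finset.mem_singleton] at h3
          rcases h3 with rfl | rfl
          · exact Or.inl rfl
          · exact Or.inr rfl
        | top => exact absurd h4 (lt_irrefl _)
      · rintro (rfl | rfl)
        · exact ⟨(GP.lt_fc _ _).2 (by rw [hs]; simp), (GP.lt_top' _).2 (by simp)⟩
        · exact ⟨(GP.lt_fc _ _).2 (by rw [hs]; simp), (GP.lt_top' _).2 (by simp)⟩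
  | facet a => cases y <;> norm_num [GP.rk] at h'
  | top => cases y <;> norm_num [GP.rk] at h'

end Pool.Agent.H.MP_6268b4_co
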