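import Pool.Agent.H.MP_6268b4_co.F4CDefs
import Pool.Agent.H.MP_6268b4_co.MGenB

/-!
Posets of rank 4 whose vertices and facets are the elements of a set `X` and whose edges and
2-faces are the pairs of elements of `X`; the cross-ratio polytopes over a field of odd order.
-/

namespace Pool.Agent.H.MP_6268b4_co

/-- The faces of the poset defined by a relation `I` between the pairs of elements of `X`: the
vertices and the facets are the elements of `X`, the edges and the 2-faces are the pairs. -/
inductive GP (X : Type*) (I : Finset X → Finset X → Prop) : Type _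
  | bot : GP X I
  | vert : X → GP X I
  | edge : {s : Finset X // s.card = 2} → GP X I
  | face : {s : Finset X // s.card = 2} → GP X I
  | facet : X → GP X I
  | top : GP X I

namespace GP

variable {X : Type*} {I : Finset X → Finset X → Prop}

/-- The order: a vertex `a` is on the edge `s` if `a ∈ s`, an edge `s` is on the 2-face `s'` if
`I s s'`, a 2-face `s'` is on the facet `y` if `y ∈ s'`; the other incidences are those implied by
these. -/
def le : GP X I → GP X I → Prop
  | bot, _ => True
  | _, top => True
  | vert a, vert b => a = b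
  | vert a, edge s => a ∈ s.1
  | vert a, face s' => ∃ s : {s : Finset X // s.card = 2}, a ∈ s.1 ∧ I s.1 s'.1
  | vert a, facet y => ∃ s s' : {s : Finset X // s.card = 2}, a ∈ s.1 ∧ I s.1 s'.1 ∧ y ∈ s'.1
  | edge s, edge s' => s = s'
  | edge s, face s' => I s.1 s'.1
  | edge s, facet y => ∃ s' : {s : Finset X // s.card = 2}, I s.1 s'.1 ∧ y ∈ s'.1
  | face s, face s' => s = s'
  | face s, facet y => y ∈ s.1
  | facet x, facet y => x = y
  | _, _ => False

/-- The rank. -/
def rk : GP X I → ℤ
  | bot => -1
  | vert _ => 0
  | edge _ => 1
  | face _ => 2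
  | facet _ => 3
  | top => 4

instance : PartialOrder (GP X I) where
  le := le
  le_refl x := by cases x <;> simp [le]
  le_trans x y z := by
    cases x <;> cases y <;> cases z <;> simp only [le, imp_self, implies_true, true_imp_iff,
      false_imp_iff, imp_false, not_true_eq_false, not_false_eq_true] <;> intro h1 h2
    all_goals first
      | (subst h1; exact h2)
      | (subst h2; exact h1)
      | exact ⟨_, h1, h2⟩
      | (obtain ⟨s', h3, h4⟩ := h2; exact ⟨_, s', h1, h3, h4⟩)
      | (obtain ⟨s, h3, h4⟩ := h1; exact ⟨s, _, h3, h4, h2⟩)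
  le_antisymm x y := by
    cases x <;> cases y <;> simp only [le, imp_self, implies_true, true_imp_iff,
      false_imp_iff, imp_false, not_true_eq_false, not_false_eq_true] <;> intro h1
    all_goals first
      | (subst h1; rfl)
      | (intro h2; subst h1; rfl)
      | skip

instance : BoundedOrder (GP X I) where
  top := top
  le_top x := by
    change le x top
    cases x <;> simp [le]
  bot := bot
  bot_le x := by
    change le bot x
    cases x <;> simp [le]

lemma le_def (x y : GP X I) : x ≤ y ↔ le x y := Iff.rfl

lemma top_def : (⊤ : GP X I) = top := rfl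

lemma bot_def : (⊥ : GP X I) = bot := rfl

end GP

/-- The determinant of two points of the projective line `Option F` (`none` is the point at
infinity with homogeneous coordinates `(1, 0)`, the point `x` has coordinates `(x, 1)`). -/
def brk {F : Type*} [Field F] : Option F → Option F → F
  | none, none => 0
  | none, some _ => 1
  | some _, none => -1
  | some a, some b => a - b

/-- The four points are distinct and have cross-ratio `ω`:
`(a - y) (b - y') / ((a - y') (b - y)) = ω`. -/
def CrossX {F : Type*} [Field F] (ω : F) (a b y y' : Option F) : Prop :=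
  a ≠ b ∧ y ≠ y' ∧ a ≠ y ∧ a ≠ y' ∧ b ≠ y ∧ b ≠ y' ∧
    brk a y * brk b y' = ω * (brk a y' * brk b y)

/-- `t (a - b) (b - c) (c - a)` is a power of `ω`. -/
def TriX {F : Type*} [Field F] (ω t : F) (a b c : Option F) : Prop :=
  ∃ i : ℕ, t * (brk a b * brk b c * brk c a) = ω ^ i

/-- Incidence of the edge `s` with the 2-face `s'`. -/
def IncX {F : Type*} [Field F] [DecidableEq F] (ω t : F) (s s' : Finset (Option F)) : Prop :=
  ∃ a b y y' : Option F, s = {a, b} ∧ s' = {y, y'} ∧ CrossX ω a b y y' ∧ TriX ω t a b y

/-- The cross-ratio polytope of `F` and `ω`. -/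
abbrev XR (F : Type*) [Field F] [DecidableEq F] (ω : F) : Type _ := GP (Option F) (IncX ω 1)

/-- The hypotheses on `ω`. -/
structure XHyp {F : Type*} [Field F] (ω : F) : Prop where
  ne : ω ≠ 0
  four : 4 ∣ orderOf ω
  sq : ∀ z : F, z ≠ 0 → ∃ i : ℕ, z * z = ω ^ i

end Pool.Agent.H.MP_6268b4_co
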