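import Pool.Agent.H.MP_6268b4_co.F4F1

/-!
Faithfulness.
-/

namespace Pool.Agent.H.MP_6268b4_co

/-- Job F4F2-1.

Proof. Let `ρ : G →* Equiv.Perm Ω` be the action (`MulAction.toPermHom`), `r = orderOf σ`,
`m = orderOf (ρ σ)` (`orderOf` in the range is the same). `σ ^ m` acts trivially.
If `m` is odd: `q_odd_image` gives `σ ^ m * σ ^ m = 1`, so `r ∣ 2 * m`; as `4 ∣ r`, `4 ∣ 2 * m`, `m` is even,
contradiction. So `m` is even, and positive. Let `z = σ ^ (m / 2)`. It does not act trivially, so there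
is `x` with `y = z • x ≠ x`, and `z • y = σ ^ m • x = x`. Take `g` with `g • v = x`, `g • w = y` (`h.two`).
`t = g⁻¹ * z * g` interchanges `v` and `w`, so `τ * t` fixes `v` and `w` (`τ • w = v`) and
`τ * t = σ ^ i`, `t = τ * σ ^ i`, `t * t = τ * σ ^ i * τ * σ ^ i = 1` because `τ * σ ^ i * τ = σ ^ (-i)`. So
`z * z = σ ^ m = 1` and `r ∣ m`, i.e. `r = m`. If `k` acts trivially then `k = σ ^ l` (`h.stab2`) and
`(ρ σ) ^ l = 1`, so `m ∣ l` and `k = 1`. So the action is faithful. -/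
theorem q_faithful {G Ω : Type*} [Group G] [MulAction G Ω] [Finite G] [Finite Ω]
    {v w : Ω} {τ j σ : G} (h : QHyp v w τ j σ) (hn : 4 ≤ Nat.card Ω) : FaithfulSMul G Ω := by
  classical
  set ρ := (MulAction.toPermHom G Ω).rangeRestrict with hρ
  haveI : Finite (MulAction.toPermHom G Ω).range := Finite.of_surjective ρ
    (MonoidHom.rangeRestrict_surjective _)
  have hρ1 : ∀ g : G, ρ g = 1 ↔ ∀ x : Ω, g • x = x := by
    intro g
    have h1 := cmaind_eq_iff (Ω := Ω) (g := g) (g' := 1)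
    rw [map_one] at h1
    rw [← hρ] at h1
    rw [h1]
    simp only [one_smul]
  set m := orderOf (ρ σ) with hm
  have hm0 : 0 < m := orderOf_pos _
  have hσm : ∀ x : Ω, (σ ^ m) • x = x := by
    rw [← hρ1, map_pow, hm, pow_orderOf_eq_one]
  have h4 : 4 ∣ orderOf σ := h.four
  have hτinv : τ⁻¹ = τ := inv_eq_of_mul_eq_one_left h.ττ
  have hτw : τ • w = v := by
    rw [← h.τv, ← mul_smul, h.ττ, one_smul]
  have hσm1 : σ ^ m = 1 := by
    rcases Nat.even_or_odd m with he | ho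
    · -- the even case
      obtain ⟨n, hn2⟩ := he
      have hn0 : 0 < n := by omega
      have hz : ¬ ∀ x : Ω, (σ ^ n) • x = x := by
        rw [← hρ1, map_pow]
        intro h1
        have h2 := orderOf_dvd_of_pow_eq_one h1
        rw [← hm] at h2
        have h3 := Nat.le_of_dvd hn0 h2
        omega
      push Not at hz
      obtain ⟨x, hx⟩ := hz
      have hy : (σ ^ n) • ((σ ^ n) • x) = x := by
        rw [← mul_smul, ← pow_add, ← hn2]
        exact hσm x
      obtain ⟨g, hg1, hg2⟩ := h.two v w x ((σ ^ n) • x) h.vw (Ne.symm hx)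
      have ht1 : (g⁻¹ * σ ^ n * g) • v = w := by
        rw [mul_smul, mul_smul, hg1, ← hg2, inv_smul_smul]
      have ht2 : (g⁻¹ * σ ^ n * g) • w = v := by
        rw [mul_smul, mul_smul, hg2, hy, ← hg1, inv_smul_smul]
      have h1 : (τ * (g⁻¹ * σ ^ n * g)) ∈ Subgroup.zpowers σ := by
        refine h.stab2 _ ?_ ?_
        · rw [mul_smul, ht1, hτw]
        · rw [mul_smul, ht2, h.τv]
      obtain ⟨i, hi⟩ := Subgroup.mem_zpowers_iff.1 h1
      have ht : g⁻¹ * σ ^ n * g = τ * σ ^ i := by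
        rw [hi, ← mul_assoc, h.ττ, one_mul]
      have hτσi : τ * σ ^ i * τ = (σ ^ i)⁻¹ := by
        have h2 : τ * σ * τ⁻¹ = σ⁻¹ := by rw [hτinv]; exact h.τσ
        have h3 : τ * σ ^ i * τ⁻¹ = (τ * σ * τ⁻¹) ^ i := (conj_zpow).symm
        rw [hτinv] at h3 h2
        rw [h3, h2, inv_zpow]
      have htt : (g⁻¹ * σ ^ n * g) * (g⁻¹ * σ ^ n * g) = 1 := by
        rw [ht]
        calc τ * σ ^ i * (τ * σ ^ i) = (τ * σ ^ i * τ) * σ ^ i := by simp only [mul_assoc]
          _ = 1 := by rw [hτσi, inv_mul_cancel]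
      have hzz : g⁻¹ * (σ ^ n * σ ^ n) * g = 1 := by
        rw [← htt]; group
      have hzz2 : σ ^ n * σ ^ n = 1 := by
        calc σ ^ n * σ ^ n = g * (g⁻¹ * (σ ^ n * σ ^ n) * g) * g⁻¹ := by group
          _ = 1 := by rw [hzz]; group
      rw [hn2, pow_add]
      exact hzz2
    · exfalso
      have h1 := q_odd_image h hn ho (σ ^ m) hσm
      have h2 : σ ^ (m + m) = 1 := by rw [pow_add]; exact h1
      have h3 := orderOf_dvd_of_pow_eq_one h2
      obtain ⟨a, ha⟩ := h4.trans h3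
      obtain ⟨b, hb⟩ := ho
      omega
  have hmr : orderOf σ ∣ m := orderOf_dvd_of_pow_eq_one hσm1
  have hmain : ∀ k : G, (∀ x : Ω, k • x = x) → k = 1 := by
    intro k hk
    obtain ⟨l, hl⟩ := Subgroup.mem_zpowers_iff.1 (h.stab2 k (hk v) (hk w))
    have h1 : (ρ σ) ^ l = 1 := by
      rw [← map_zpow, hl]
      exact (hρ1 k).2 hk
    have h2 : (m : ℤ) ∣ l := orderOf_dvd_iff_zpow_eq_one.2 h1
    have h3 : ((orderOf σ : ℕ) : ℤ) ∣ l := (Int.natCast_dvd_natCast.2 hmr).trans h2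
    rw [← hl]
    exact orderOf_dvd_iff_zpow_eq_one.1 h3
  refine ⟨?_⟩
  intro g1 g2 h12
  have h1 : ∀ x : Ω, (g2⁻¹ * g1) • x = x := by
    intro x
    rw [mul_smul, h12 x, inv_smul_smul]
  have h2 := hmain _ h1
  rw [inv_mul_eq_one] at h2
  exact h2.symm

end Pool.Agent.H.MP_6268b4_co
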