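import Pool.Agent.H.MP_6268b4_co.F4E14
import Pool.Agent.H.MP_6268b4_co.TIsoV

/-!
Identification of the cross-ratio polytopes.
-/

namespace Pool.Agent.H.MP_6268b4_co

/-- Job F4G1-1. Identification.

Proof. As `id_chiral_coord` in `IdChiral.lean`: `iso_of_vert_chi` with `Q = XR F ω`,
`xt_isPolytope hX one_ne_zero`, `xr_generators`, `xt_faithful`, `xr_chiral` (`chiral_tup1`) and the
bijection `β` composed with `xt_vert`; the three conditions are `hc.βτ` (with `lam = 1`), `hc.βj`,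
`hc.βσ`. -/
theorem id_xr {P : Type*} [PartialOrder P] [BoundedOrder P] {rk : P → ℤ}
    (h : IsPolytope 4 P rk) {Φ : Tup P rk} {s : Fin 4 → Fin 4 → (P ≃o P)}
    (hs : ∀ i j, tmap h h (s i j) Φ = adj h j (adj h i Φ)) (hC : IsChiral P)
    (hf : FaithfulSMul (P ≃o P) (Vert P))
    {F : Type*} [Field F] [Fintype F] [DecidableEq F] {ω : F} {β : Vert P ≃ Option F}
    (hc : FCoord (vert0 h Φ) (vert1 h Φ) (s 2 0) (s 1 3) (s 3 2) (1 + ω) ω 1 β)
    (hX : XHyp ω) (h9 : ¬ (Fintype.card F = 9 ∧ orderOf ω = 4)) :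
    Nonempty (P ≃o XR F ω) := by
  set hQ : IsPolytope 4 (XR F ω) GP.rk := xt_isPolytope hX one_ne_zero with hQdef
  obtain ⟨Ψ, τ', j', σ', -, -, -, -, t1, t2, t3, e1, e2, e3⟩ := xr_generators hX hQ
  have hC' : IsChiral (XR F ω) := xr_chiral hX h9
  have hf' := xt_faithful hX (one_ne_zero (α := F))
  obtain ⟨δ, hδ⟩ := xt_vert hX (one_ne_zero (α := F))
  refine iso_of_vert_chi h hQ Φ Ψ (s 2 0) (s 1 3) (s 3 2) τ' j' σ' (hs 2 0) (hs 1 3) (hs 3 2)
    t1 t2 t3 (fun i γ => chiral_tup1 h hC Φ i γ) (fun i γ => chiral_tup1 hQ hC' Ψ i γ) hf hf'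
    (β.trans δ) ?_ ?_ ?_
  · intro x
    apply Vert.ext
    rw [smul_vert_val, Equiv.trans_apply, Equiv.trans_apply, hδ, hδ, e1, hc.βτ]
  · intro x
    apply Vert.ext
    rw [smul_vert_val, Equiv.trans_apply, Equiv.trans_apply, hδ, hδ, e2, hc.βj]
  · intro x
    apply Vert.ext
    rw [smul_vert_val, Equiv.trans_apply, Equiv.trans_apply, hδ, hδ, e3, hc.βσ]

end Pool.Agent.H.MP_6268b4_co
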