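import Pool.Agent.H.MP_6268b4_co.F4X4
import Pool.Agent.H.MP_6268b4_co.F4CDefs
import Pool.Agent.H.MP_6268b4_co.TIsoV

/-!
Identification of the exceptional polytope.
-/

namespace Pool.Agent.H.MP_6268b4_co

/-- `mobInv` commutes with ring isomorphisms -/
lemma f4x5_mob {F F' : Type*} [Field F] [Field F'] [DecidableEq F] [DecidableEq F']
    (e : F ≃+* F') (lam : F) (y : Option F) :
    mobInv (e lam) (y.map e) = (mobInv lam y).map e := by
  cases y with
  | none => simp [mobInv]
  | some z =>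
    by_cases hz : z = 0
    · subst hz
      simp [mobInv]
    · have hz' : e z ≠ 0 := fun h => hz ((map_eq_zero_iff e e.injective).1 h)
      simp [mobInv, hz, hz']

instance f4x5_fact : Fact (Nat.Prime 5) := ⟨by norm_num⟩

/-- the inversion `x ↦ 2 / x` -/
lemma f4x5_inv (y : Option (ZMod 5)) : mobInv (2 : ZMod 5) y =
    (match y with
    | none => some 0
    | some z => if z = 0 then none else some (2 * z ^ 3)) := by
  cases y with
  | none => simp [mobInv]
  | some z =>
    by_cases hz : z = 0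
    · subst hz
      simp [mobInv]
    · simp only [mobInv, if_neg hz]
      congr 1
      rw [div_eq_iff hz]
      revert z
      decide

/-- the two labellings -/
def f4x5_lab0 : Option (ZMod 5) ≃ Fin 6 := finSuccEquivLast.symm

/-- multiplication by two -/
def f4x5_dbl : ZMod 5 ≃ ZMod 5 where
  toFun z := 2 * z
  invFun z := 3 * z
  left_inv := by decide
  right_inv := by decide

theorem x6_lab {F : Type*} [Field F] [Fintype F] [DecidableEq F] {ω : F}
    (h5 : Fintype.card F = 5) (h4 : orderOf ω = 4) :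
    ∃ lab : Option F ≃ Fin 6,
      ((∀ x, lab (mobInv 2 x) = ![5, 2, 1, 4, 3, 0] (lab x)) ∧
      (∀ x, lab (x.map (fun z => 1 + ω - z)) = ![3, 2, 1, 0, 4, 5] (lab x)) ∧
      (∀ x, lab (x.map (fun z => ω * z)) = ![0, 2, 4, 1, 3, 5] (lab x))) ∨
      ((∀ x, lab (mobInv 2 x) = ![5, 3, 4, 1, 2, 0] (lab x)) ∧
      (∀ x, lab (x.map (fun z => 1 + ω - z)) = ![3, 2, 1, 0, 4, 5] (lab x)) ∧
      (∀ x, lab (x.map (fun z => ω * z)) = ![0, 3, 1, 4, 2, 5] (lab x))) := by
  set e : ZMod 5 ≃+* F := ZMod.ringEquivOfPrime F (by norm_num) h5 with he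
  obtain ⟨u, rfl⟩ := e.surjective ω
  have hu4 : orderOf u = 4 := by
    have h := orderOf_injective e.toMonoidHom e.injective u
    rw [← h4]
    exact h.symm
  have hu : u = 2 ∨ u = 3 := by
    have h1 : u ^ 4 = 1 := by rw [← hu4, pow_orderOf_eq_one]
    have h2 : u ^ 2 ≠ 1 := by
      intro h
      have := orderOf_dvd_of_pow_eq_one h
      rw [hu4] at this
      omega
    revert h1 h2
    clear h4 hu4
    revert u
    decide
  have key : ∀ x : Option F, ∃ y : Option (ZMod 5), x = y.map e := by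
    intro x
    cases x with
    | none => exact ⟨none, rfl⟩
    | some z =>
      obtain ⟨w, rfl⟩ := e.surjective z
      exact ⟨some w, rfl⟩
  have hlabs : ∀ (L : Option (ZMod 5) ≃ Fin 6) (y : Option (ZMod 5)),
      ((e.symm.toEquiv.optionCongr).trans L) (y.map e) = L y := by
    intro L y
    rw [Equiv.trans_apply]
    congr 1
    cases y with
    | none => rfl
    | some z => exact congrArg some (e.symm_apply_apply z)
  have h2F : (2 : F) = e 2 := by rw [map_ofNat]
  rcases hu with rfl | rfl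
  · refine ⟨(e.symm.toEquiv.optionCongr).trans f4x5_lab0, Or.inl ⟨?_, ?_, ?_⟩⟩
    · intro x
      obtain ⟨y, rfl⟩ := key x
      rw [h2F, f4x5_mob, hlabs, hlabs, f4x5_inv]
      revert y
      decide
    · intro x
      obtain ⟨y, rfl⟩ := key x
      have h1 : (y.map e).map (fun z => 1 + e 2 - z) = (y.map (fun z => 1 + 2 - z)).map e := by
        cases y <;> simp
      rw [h1, hlabs, hlabs]
      clear h1
      revert y
      decide
    · intro x
      obtain ⟨y, rfl⟩ := key x
      have h1 : (y.map e).map (fun z => e 2 * z) = (y.map (fun z => 2 * z)).map e := by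
        cases y <;> simp
      rw [h1, hlabs, hlabs]
      clear h1
      revert y
      decide
  · refine ⟨(e.symm.toEquiv.optionCongr).trans (f4x5_dbl.optionCongr.trans f4x5_lab0),
      Or.inr ⟨?_, ?_, ?_⟩⟩
    · intro x
      obtain ⟨y, rfl⟩ := key x
      rw [h2F, f4x5_mob, hlabs, hlabs, f4x5_inv]
      revert y
      decide
    · intro x
      obtain ⟨y, rfl⟩ := key x
      have h1 : (y.map e).map (fun z => 1 + e 3 - z) = (y.map (fun z => 1 + 3 - z)).map e := by
        cases y <;> simp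
      rw [h1, hlabs, hlabs]
      clear h1
      revert y
      decide
    · intro x
      obtain ⟨y, rfl⟩ := key x
      have h1 : (y.map e).map (fun z => e 3 * z) = (y.map (fun z => 3 * z)).map e := by
        cases y <;> simp
      rw [h1, hlabs, hlabs]
      clear h1
      revert y
      decide

/-- Job F4X5-2. Identification. -/
theorem id_x6 {P : Type*} [PartialOrder P] [BoundedOrder P] {rk : P → ℤ}
    (h : IsPolytope 4 P rk) {Φ : Tup P rk} {s : Fin 4 → Fin 4 → (P ≃o P)}
    (hs : ∀ i j, tmap h h (s i j) Φ = adj h j (adj h i Φ)) (hC : IsChiral P)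
    (hf : FaithfulSMul (P ≃o P) (Vert P))
    {F : Type*} [Field F] [Fintype F] [DecidableEq F] {ω : F} {β : Vert P ≃ Option F}
    (hc : FCoord (vert0 h Φ) (vert1 h Φ) (s 2 0) (s 1 3) (s 3 2) (1 + ω) ω 2 β)
    (h4 : orderOf ω = 4) (h5 : Fintype.card F = 5) : Nonempty (P ≃o X6) := by
  obtain ⟨δ, hδ⟩ := X6.exists_vert
  obtain ⟨lab, ⟨l1, l2, l3⟩ | ⟨l1, l2, l3⟩⟩ := x6_lab h5 h4
  · obtain ⟨Ψ, τ', j', σ', -, -, -, -, t1, t2, t3, e1, e2, e3⟩ := X6.generators
    refine iso_of_vert_chi h X6.isPolytope Φ Ψ (s 2 0) (s 1 3) (s 3 2) τ' j' σ'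
      (hs 2 0) (hs 1 3) (hs 3 2) t1 t2 t3 (fun i γ => chiral_tup1 h hC Φ i γ)
      (fun i γ => chiral_tup1 X6.isPolytope X6.chiral Ψ i γ) hf X6.faithful
      ((β.trans lab).trans δ) ?_ ?_ ?_
    · intro x
      apply Vert.ext
      rw [smul_vert_val, Equiv.trans_apply, Equiv.trans_apply, Equiv.trans_apply,
        Equiv.trans_apply, hδ, hδ, e1, hc.βτ, l1]
    · intro x
      apply Vert.ext
      rw [smul_vert_val, Equiv.trans_apply, Equiv.trans_apply, Equiv.trans_apply,
        Equiv.trans_apply, hδ, hδ, e2, hc.βj, l2]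
    · intro x
      apply Vert.ext
      rw [smul_vert_val, Equiv.trans_apply, Equiv.trans_apply, Equiv.trans_apply,
        Equiv.trans_apply, hδ, hδ, e3, hc.βσ, l3]
  · obtain ⟨Ψ, τ', j', σ', t1, t2, t3, e1, e2, e3⟩ := X6.generators'
    refine iso_of_vert_chi h X6.isPolytope Φ Ψ (s 2 0) (s 1 3) (s 3 2) τ' j' σ'
      (hs 2 0) (hs 1 3) (hs 3 2) t1 t2 t3 (fun i γ => chiral_tup1 h hC Φ i γ)
      (fun i γ => chiral_tup1 X6.isPolytope X6.chiral Ψ i γ) hf X6.faithful
      ((β.trans lab).trans δ) ?_ ?_ ?_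
    · intro x
      apply Vert.ext
      rw [smul_vert_val, Equiv.trans_apply, Equiv.trans_apply, Equiv.trans_apply,
        Equiv.trans_apply, hδ, hδ, e1, hc.βτ, l1]
    · intro x
      apply Vert.ext
      rw [smul_vert_val, Equiv.trans_apply, Equiv.trans_apply, Equiv.trans_apply,
        Equiv.trans_apply, hδ, hδ, e2, hc.βj, l2]
    · intro x
      apply Vert.ext
      rw [smul_vert_val, Equiv.trans_apply, Equiv.trans_apply, Equiv.trans_apply,
        Equiv.trans_apply, hδ, hδ, e3, hc.βσ, l3]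

end Pool.Agent.H.MP_6268b4_co
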