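import Pool.Agent.H.MP_6268b4_co.TVert
import Pool.Agent.H.MP_6268b4_co.TChi

/-!
Polytopes of rank 4 with three vertices and a simple complete edge graph.
-/

namespace Pool.Agent.H.MP_6268b4_co

variable {P : Type*} [PartialOrder P] [BoundedOrder P] {rk : P → ℤ}

/-- If there are three vertices `a, b, c`, there are no others. -/
lemma ttri_three (h : IsPolytope 4 P rk) [Finite P] (h3 : Nat.card (Vert P) = 3) {a b c : P}
    (ha : rk a = 0) (hb : rk b = 0) (hc : rk c = 0) (hab : a ≠ b) (hac : a ≠ c) (hbc : b ≠ c)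
    {y : P} (hy : rk y = 0) : y = a ∨ y = b ∨ y = c := by
  have h1 : Nat.card (Vert P) = {x : P | IsAtom x}.ncard := Nat.card_coe_set_eq {x : P | IsAtom x}
  have h2 : ({a, b, c} : Set P).ncard = 3 := Set.ncard_eq_three.2 ⟨a, b, c, hab, hac, hbc, rfl⟩
  have hsub : ({a, b, c} : Set P) ⊆ {x : P | IsAtom x} := by
    intro x hx
    rcases hx with rfl | rfl | rfl
    · exact (isAtom_iff h _).2 ha
    · exact (isAtom_iff h _).2 hb
    · exact (isAtom_iff h _).2 hc
  have he := Set.eq_of_subset_of_ncard_le hsub (by rw [h2, ← h1, h3]) (Set.toFinite _)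
  have hy2 : y ∈ ({a, b, c} : Set P) := by
    rw [he]
    exact (isAtom_iff h _).2 hy
  simpa using hy2

/-- An edge has exactly two vertices. -/
lemma ttri_edge (h : IsPolytope 4 P rk) {e : P} (he : rk e = 1) :
    ∃ a b : P, rk a = 0 ∧ rk b = 0 ∧ a ≠ b ∧ a ≤ e ∧ b ≤ e ∧
      ∀ x, rk x = 0 → x ≤ e → x = a ∨ x = b := by
  obtain ⟨Ψ, hΨ⟩ := exists_tup_mem h (i := 1) (by simpa using he)
  refine ⟨Ψ.1 0, (adj h 0 Ψ).1 0, by simpa using Ψ.hrk 0, by simpa using (adj h 0 Ψ).hrk 0,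
    (adj_ne h 0 Ψ).symm, ?_, ?_, ?_⟩
  · rw [← hΨ]
    exact Ψ.le (by decide)
  · rw [← hΨ, ← adj_same h (i := 0) (j := 1) Ψ (by decide)]
    exact (adj h 0 Ψ).le (by decide)
  · intro x hx hxe
    exact edge_verts h Ψ hx (by rw [hΨ]; exact hxe)

/-- Three distinct vertices are not on a common edge. -/
lemma ttri_not (h : IsPolytope 4 P rk) {e a b c : P} (he : rk e = 1)
    (ha : rk a = 0) (hb : rk b = 0) (hc : rk c = 0) (hab : a ≠ b) (hac : a ≠ c) (hbc : b ≠ c)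
    (hae : a ≤ e) (hbe : b ≤ e) : ¬ c ≤ e := by
  intro hce
  obtain ⟨p, q, -, -, -, -, -, hpq⟩ := ttri_edge h he
  rcases hpq a ha hae with h1 | h1 <;> rcases hpq b hb hbe with h2 | h2 <;>
    rcases hpq c hc hce with h3 | h3
  · exact hab (h1.trans h2.symm)
  · exact hab (h1.trans h2.symm)
  · exact hac (h1.trans h3.symm)
  · exact hbc (h2.trans h3.symm)
  · exact hbc (h2.trans h3.symm)
  · exact hac (h1.trans h3.symm)
  · exact hab (h1.trans h2.symm)
  · exact hab (h1.trans h2.symm)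

/-- The triangle of a tuple. -/
lemma ttri_tri (h : IsPolytope 4 P rk) [Finite P] (hs : SimpleComplete rk)
    (h3 : Nat.card (Vert P) = 3) (Φ : Tup P rk) :
    ∃ u ev ew : P, rk u = 0 ∧ u ≠ Φ.1 0 ∧ u ≠ (adj h 0 Φ).1 0 ∧ rk ev = 1 ∧ rk ew = 1 ∧
      (adj h 0 Φ).1 0 ≤ ev ∧ u ≤ ev ∧ Φ.1 0 ≤ ew ∧ u ≤ ew ∧ ev ≤ Φ.1 2 ∧ ew ≤ Φ.1 2 := by
  have hne01 : (0 : Fin 4) ≠ 1 := by decide
  have hne10 : (1 : Fin 4) ≠ 0 := by decide
  have hne20 : (2 : Fin 4) ≠ 0 := by decide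
  have hne21 : (2 : Fin 4) ≠ 1 := by decide
  have r0 : ∀ Ψ : Tup P rk, rk (Ψ.1 0) = 0 := fun Ψ => by simpa using Ψ.hrk 0
  have r1 : ∀ Ψ : Tup P rk, rk (Ψ.1 1) = 1 := fun Ψ => by simpa using Ψ.hrk 1
  have l01 : ∀ Ψ : Tup P rk, Ψ.1 0 ≤ Ψ.1 1 := fun Ψ => Ψ.le (by decide)
  have l12 : ∀ Ψ : Tup P rk, Ψ.1 1 ≤ Ψ.1 2 := fun Ψ => Ψ.le (by decide)
  obtain ⟨Φ1, hΦ1⟩ : ∃ X, X = adj h 0 Φ := ⟨_, rfl⟩
  obtain ⟨Φ2, hΦ2⟩ : ∃ X, X = adj h 1 Φ1 := ⟨_, rfl⟩
  obtain ⟨Φ3, hΦ3⟩ : ∃ X, X = adj h 0 Φ2 := ⟨_, rfl⟩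
  obtain ⟨Φ4, hΦ4⟩ : ∃ X, X = adj h 1 Φ3 := ⟨_, rfl⟩
  obtain ⟨Φ5, hΦ5⟩ : ∃ X, X = adj h 0 Φ4 := ⟨_, rfl⟩
  have a1 : Φ1.1 1 = Φ.1 1 := by rw [hΦ1]; exact adj_same h Φ hne10
  have b1 : Φ1.1 2 = Φ.1 2 := by rw [hΦ1]; exact adj_same h Φ hne20
  have a2 : Φ2.1 0 = Φ1.1 0 := by rw [hΦ2]; exact adj_same h Φ1 hne01
  have b2 : Φ2.1 2 = Φ.1 2 := by rw [← b1, hΦ2]; exact adj_same h Φ1 hne21
  have a3 : Φ3.1 1 = Φ2.1 1 := by rw [hΦ3]; exact adj_same h Φ2 hne10
  have b3 : Φ3.1 2 = Φ.1 2 := by rw [← b2, hΦ3]; exact adj_same h Φ2 hne20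
  have a4 : Φ4.1 0 = Φ3.1 0 := by rw [hΦ4]; exact adj_same h Φ3 hne01
  have b4 : Φ4.1 2 = Φ.1 2 := by rw [← b3, hΦ4]; exact adj_same h Φ3 hne21
  have a5 : Φ5.1 1 = Φ4.1 1 := by rw [hΦ5]; exact adj_same h Φ4 hne10
  have n1 : Φ1.1 0 ≠ Φ.1 0 := by rw [hΦ1]; exact adj_ne h 0 Φ
  have n2 : Φ2.1 1 ≠ Φ1.1 1 := by rw [hΦ2]; exact adj_ne h 1 Φ1
  have n3 : Φ3.1 0 ≠ Φ2.1 0 := by rw [hΦ3]; exact adj_ne h 0 Φ2
  have n4 : Φ4.1 1 ≠ Φ3.1 1 := by rw [hΦ4]; exact adj_ne h 1 Φ3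
  have n5 : Φ5.1 0 ≠ Φ4.1 0 := by rw [hΦ5]; exact adj_ne h 0 Φ4
  have uw : Φ3.1 0 ≠ Φ1.1 0 := by rw [← a2]; exact n3
  have ue : Φ3.1 0 ≤ Φ2.1 1 := by rw [← a3]; exact l01 Φ3
  have we : Φ1.1 0 ≤ Φ2.1 1 := by rw [← a2]; exact l01 Φ2
  have uv : Φ3.1 0 ≠ Φ.1 0 := by
    intro he
    apply n2
    refine (hs _ _ (r0 Φ) (r0 Φ1) n1.symm).unique ⟨r1 Φ2, ?_, we⟩ ⟨r1 Φ1, ?_, l01 Φ1⟩
    · rw [← he]; exact ue
    · rw [a1]; exact l01 Φ
  have ue3 : Φ3.1 0 ≤ Φ4.1 1 := by rw [← a4]; exact l01 Φ4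
  have xe3 : Φ5.1 0 ≤ Φ4.1 1 := by rw [← a5]; exact l01 Φ5
  have xu : Φ5.1 0 ≠ Φ3.1 0 := by rw [← a4]; exact n5
  have xw : Φ5.1 0 ≠ Φ1.1 0 := by
    intro he
    apply n4
    rw [a3]
    refine (hs _ _ (r0 Φ3) (r0 Φ1) uw).unique ⟨r1 Φ4, ue3, ?_⟩ ⟨r1 Φ2, ue, we⟩
    rw [← he]; exact xe3
  have xv : Φ5.1 0 = Φ.1 0 := by
    rcases ttri_three h h3 (r0 Φ) (r0 Φ1) (r0 Φ3) n1.symm uv.symm uw.symm (r0 Φ5) with h1 | h1 | h1
    · exact h1
    · exact absurd h1 xw
    · exact absurd h1 xu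
  refine ⟨Φ3.1 0, Φ2.1 1, Φ4.1 1, r0 Φ3, uv, ?_, r1 Φ2, r1 Φ4, ?_, ue, ?_, ue3, ?_, ?_⟩
  · rw [← hΦ1]; exact uw
  · rw [← hΦ1]; exact we
  · rw [← xv]; exact xe3
  · rw [← b2]; exact l12 Φ2
  · rw [← b4]; exact l12 Φ4

/-- If there are three vertices, joined by the edges `eab, eac, ebc`, there are no other edges. -/
lemma ttri_edges (h : IsPolytope 4 P rk) [Finite P] (hs : SimpleComplete rk)
    (h3 : Nat.card (Vert P) = 3) {a b c eab eac ebc : P}
    (ha : rk a = 0) (hb : rk b = 0) (hc : rk c = 0) (hab : a ≠ b) (hac : a ≠ c) (hbc : b ≠ c)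
    (r1 : rk eab = 1) (r2 : rk eac = 1) (r3 : rk ebc = 1) (h1 : a ≤ eab) (h2 : b ≤ eab)
    (h4 : a ≤ eac) (h5 : c ≤ eac) (h6 : b ≤ ebc) (h7 : c ≤ ebc) {e : P} (he : rk e = 1) :
    e = eab ∨ e = eac ∨ e = ebc := by
  obtain ⟨p, q, hp, hq, hpq, hpe, hqe, -⟩ := ttri_edge h he
  have key : ∀ {x y f : P}, rk x = 0 → rk y = 0 → x ≠ y → rk f = 1 → x ≤ f → y ≤ f → x ≤ e →
      y ≤ e → e = f := by
    intro x y f hx hy hxy hf hxf hyf hxe hye
    exact (hs x y hx hy hxy).unique ⟨he, hxe, hye⟩ ⟨hf, hxf, hyf⟩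
  rcases ttri_three h h3 ha hb hc hab hac hbc hp with rfl | rfl | rfl <;>
    rcases ttri_three h h3 ha hb hc hab hac hbc hq with rfl | rfl | rfl
  · exact absurd rfl hpq
  · exact Or.inl (key ha hb hab r1 h1 h2 hpe hqe)
  · exact Or.inr (Or.inl (key ha hc hac r2 h4 h5 hpe hqe))
  · exact Or.inl (key ha hb hab r1 h1 h2 hqe hpe)
  · exact absurd rfl hpq
  · exact Or.inr (Or.inr (key hb hc hbc r3 h6 h7 hpe hqe))
  · exact Or.inr (Or.inl (key ha hc hac r2 h4 h5 hqe hpe))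
  · exact Or.inr (Or.inr (key hb hc hbc r3 h6 h7 hqe hpe))
  · exact absurd rfl hpq

/-- Job TTri-1. If there are only three vertices, every edge lies below every face of rank 2.

Proof. Let `F` have rank 2; take a tuple `Φ` with `Φ.1 2 = F` (`exists_tup_mem`). Consider
`Φ, adj 0 Φ, adj 1 (adj 0 Φ), adj 0 (..), adj 1 (..), adj 0 (..)`, all with face `F`. Let `v = Φ.1 0`,
`e₁ = Φ.1 1`, `w = (adj 0 Φ).1 0`, then `e₂ ≠ e₁` through `w`, with other vertex `u ≠ w`; `u ≠ v`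
since otherwise `e₁`, `e₂` would both contain `v`, `w`; then `e₃ ≠ e₂` through `u`, with other
vertex `x ≠ u`, and `x ≠ w` since otherwise `e₂`, `e₃` would both contain `u`, `w`. As there are only
three vertices, `x = v`. So `e₁, e₂, e₃ ≤ F` are edges through `{v, w}`, `{w, u}`, `{u, v}`. Every
edge `e` contains two vertices (take a tuple `Ψ` with `Ψ.1 1 = e`: `Ψ.1 0`, `(adj 0 Ψ).1 0`), which
are two of `v, w, u`, so by uniqueness `e` is one of `e₁, e₂, e₃`. -/
theorem tri_all (h : IsPolytope 4 P rk) [Finite P] (hs : SimpleComplete rk)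
    (h3 : Nat.card (Vert P) = 3) {e F : P} (he : rk e = 1) (hF : rk F = 2) : e ≤ F := by
  obtain ⟨Φ, hΦ⟩ := exists_tup_mem h (i := 2) (by simpa using hF)
  obtain ⟨u, ev, ew, ru, huv, huw, rev, rew, hwev, huev, hvew, huew, hevF, hewF⟩ :=
    ttri_tri h hs h3 Φ
  have hr0 : rk (Φ.1 0) = 0 := by simpa using Φ.hrk 0
  have hr1 : rk (Φ.1 1) = 1 := by simpa using Φ.hrk 1
  have hrw : rk ((adj h 0 Φ).1 0) = 0 := by simpa using (adj h 0 Φ).hrk 0
  have hv : Φ.1 0 ≤ Φ.1 1 := Φ.le (by decide)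
  have hw : (adj h 0 Φ).1 0 ≤ Φ.1 1 := by
    rw [← adj_same h (i := 0) (j := 1) Φ (by decide)]
    exact (adj h 0 Φ).le (by decide)
  rw [← hΦ]
  rcases ttri_edges h hs h3 hr0 hrw ru (adj_ne h 0 Φ).symm huv.symm huw.symm hr1 rew rev hv hw
    hvew huew hwev huev he with rfl | rfl | rfl
  · exact Φ.le (by decide)
  · exact hewF
  · exact hevF

/-- If there are only three vertices, every face of rank at most one lies below every face of rank
at least two. -/
lemma ttri_below (h : IsPolytope 4 P rk) [Finite P] (hs : SimpleComplete rk)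
    (h3 : Nat.card (Vert P) = 3) {z y : P} (hz : rk z ≤ 1) (hy : 2 ≤ rk y) : z ≤ y := by
  -- an edge above `z`
  obtain ⟨e, he, hze⟩ : ∃ e : P, rk e = 1 ∧ z ≤ e := by
    have h1 := h.rk_ge z
    have h2 : rk z = -1 ∨ rk z = 0 ∨ rk z = 1 := by omega
    rcases h2 with h2 | h2 | h2
    · obtain ⟨A, -⟩ := exists_flag_mem z
      refine ⟨(toTup h A).1 1, by simpa using (toTup h A).hrk 1, ?_⟩
      rw [h.eq_bot h2]
      exact bot_le
    · obtain ⟨Ψ, hΨ⟩ := exists_tup_mem h (i := 0) (by simpa using h2)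
      refine ⟨Ψ.1 1, by simpa using Ψ.hrk 1, ?_⟩
      rw [← hΨ]
      exact Ψ.le (by decide)
    · exact ⟨z, h2, le_refl _⟩
  -- a face of rank two below `y`
  obtain ⟨F, hF, hFy⟩ : ∃ F : P, rk F = 2 ∧ F ≤ y := by
    have h1 := h.rk_le y
    have h2 : rk y = 2 ∨ rk y = 3 ∨ rk y = 4 := by push_cast at h1; omega
    rcases h2 with h2 | h2 | h2
    · exact ⟨y, h2, le_refl _⟩
    · obtain ⟨F, hF1, hF2⟩ := h.exists_lt (x := y) (by omega)
      exact ⟨F, by omega, hF1.le⟩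
    · obtain ⟨A, -⟩ := exists_flag_mem z
      refine ⟨(toTup h A).1 2, by simpa using (toTup h A).hrk 2, ?_⟩
      have hyt : y = ⊤ := h.eq_top (by rw [h2]; norm_num)
      rw [hyt]
      exact le_top
  exact hze.trans ((tri_all h hs h3 he hF).trans hFy)

/-- Job TTri-2. A chiral polytope has at least four vertices.

Proof. By `three_le` there are at least 3; suppose there are exactly 3. Every vertex and every edge
lies below every face of rank 2 and of rank 3 (`tri_all`; a facet has a face of rank 2 below it,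
`IsPolytope.exists_lt`; a vertex has an edge above it: take a tuple). Let `Φ` be a tuple, `v = Φ.1 0`,
`w = (adj 0 Φ).1 0`, `u` the third vertex, `e_u = Φ.1 1`, `e_v`, `e_w` the edges through `{w, u}`,
`{v, u}`. These are all the edges, and vertex `x` is on edge `e_y` iff `x ≠ y` (`edge_verts`-style: an
edge has exactly two vertices). Define `γ : P → P` interchanging `v` and `w`, interchanging
`e_v` and `e_w`, and fixing all other faces (`Equiv.swap v w * Equiv.swap e_v e_w` as a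
permutation of `P`). It preserves the order: check the pairs of faces; the moved faces have rank 0
and 1, their relations to faces of rank `-1`, `2`, `3`, `4` are always `≤` resp. `≥`, and among the
six faces of rank 0, 1 the relation is `x ≤ e_y iff x ≠ y`. So `γ` is an automorphism, and
`tmap γ Φ = adj 0 Φ` (`adj_unique`), contradicting `chiral_tup1`. -/
theorem chi_four_le (h : IsPolytope 4 P rk) [Finite P] (hs : SimpleComplete rk)
    (hC : IsChiral P) (Φ : Tup P rk) : 4 ≤ Nat.card (Vert P) := by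
  classical
  by_contra hlt
  have h3 : Nat.card (Vert P) = 3 := by
    have := three_le h hs Φ
    omega
  obtain ⟨u, ev, ew, ru, huv, huw, rev, rew, hwev, huev, hvew, huew, -, -⟩ :=
    ttri_tri h hs h3 Φ
  obtain ⟨v, hvdef⟩ : ∃ v, v = Φ.1 0 := ⟨_, rfl⟩
  obtain ⟨w, hwdef⟩ : ∃ w, w = (adj h 0 Φ).1 0 := ⟨_, rfl⟩
  obtain ⟨eu, heudef⟩ : ∃ eu, eu = Φ.1 1 := ⟨_, rfl⟩
  have rv : rk v = 0 := by rw [hvdef]; simpa using Φ.hrk 0
  have reu : rk eu = 1 := by rw [heudef]; simpa using Φ.hrk 1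
  have rw' : rk w = 0 := by rw [hwdef]; simpa using (adj h 0 Φ).hrk 0
  have hveu : v ≤ eu := by rw [hvdef, heudef]; exact Φ.le (by decide)
  have hweu : w ≤ eu := by
    rw [hwdef, heudef, ← adj_same h (i := 0) (j := 1) Φ (by decide)]
    exact (adj h 0 Φ).le (by decide)
  have hvw : v ≠ w := by rw [hvdef, hwdef]; exact (adj_ne h 0 Φ).symm
  rw [← hvdef] at huv hvew
  rw [← hwdef] at huw hwev
  have nv : ¬ v ≤ ev := ttri_not h rev rw' ru rv huw.symm hvw.symm huv hwev huev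
  have nw : ¬ w ≤ ew := ttri_not h rew rv ru rw' huv.symm hvw huw hvew huew
  have nu : ¬ u ≤ eu := ttri_not h reu rv rw' ru hvw huv.symm huw.symm hveu hweu
  have eneq : ev ≠ ew := by rintro rfl; exact nv hvew
  have euv : eu ≠ ev := by rintro rfl; exact nu huev
  have euw : eu ≠ ew := by rintro rfl; exact nu huew
  have hne : ∀ {x y : P}, rk x = 0 → rk y = 1 → x ≠ y := by
    rintro x y hx hy rfl
    omega
  obtain ⟨f, hf⟩ : ∃ f : P → P, f = fun x => if x = v then w else if x = w then v else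
    if x = ev then ew else if x = ew then ev else x := ⟨_, rfl⟩
  have fv : f v = w := by rw [hf]; simp
  have fw : f w = v := by rw [hf]; simp [hvw.symm]
  have fev : f ev = ew := by
    rw [hf]; simp [(hne rv rev).symm, (hne rw' rev).symm]
  have few : f ew = ev := by
    rw [hf]; simp [(hne rv rew).symm, (hne rw' rew).symm, eneq.symm]
  have fo : ∀ x, x ≠ v → x ≠ w → x ≠ ev → x ≠ ew → f x = x := by
    intro x h1 h2 h4 h5
    rw [hf]; simp [h1, h2, h4, h5]
  have hcases : ∀ x : P, x = v ∨ x = w ∨ x = ev ∨ x = ew ∨ f x = x := by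
    intro x
    by_cases h1 : x = v
    · exact Or.inl h1
    by_cases h2 : x = w
    · exact Or.inr (Or.inl h2)
    by_cases h4 : x = ev
    · exact Or.inr (Or.inr (Or.inl h4))
    by_cases h5 : x = ew
    · exact Or.inr (Or.inr (Or.inr (Or.inl h5)))
    · exact Or.inr (Or.inr (Or.inr (Or.inr (fo x h1 h2 h4 h5))))
  have hinv : ∀ x, f (f x) = x := by
    intro x
    rcases hcases x with rfl | rfl | rfl | rfl | h1
    · rw [fv, fw]
    · rw [fw, fv]
    · rw [fev, few]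
    · rw [few, fev]
    · rw [h1, h1]
  have hfrk : ∀ x, rk (f x) = rk x := by
    intro x
    rcases hcases x with rfl | rfl | rfl | rfl | h1
    · rw [fv, rv, rw']
    · rw [fw, rv, rw']
    · rw [fev, rev, rew]
    · rw [few, rev, rew]
    · rw [h1]
  have hbig : ∀ x, 2 ≤ rk x → f x = x := by
    intro x hx
    apply fo
    · rintro rfl; omega
    · rintro rfl; omega
    · rintro rfl; omega
    · rintro rfl; omega
  have fu : f u = u := fo u huv huw (hne ru rev) (hne ru rew)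
  have feu : f eu = eu := fo eu (hne rv reu).symm (hne rw' reu).symm euv euw
  have hmono : ∀ x y, x ≤ y → f x ≤ f y := by
    intro x y hxy
    by_cases hy : 2 ≤ rk y
    · by_cases hx : 2 ≤ rk x
      · rw [hbig x hx, hbig y hy]
        exact hxy
      · exact ttri_below h hs h3 (by rw [hfrk]; omega) (by rw [hfrk]; exact hy)
    · by_cases hxr : rk x = rk y
      · rw [h.eq_of_le hxy hxr]
      · have hle := h.mono_le hxy
        have hge := h.rk_ge x
        by_cases hx1 : rk x = -1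
        · have : rk (f x) = -1 := by rw [hfrk, hx1]
          rw [h.eq_bot this]
          exact bot_le
        · have hx0 : rk x = 0 := by omega
          have hy1 : rk y = 1 := by omega
          rcases ttri_three h h3 rv rw' ru hvw huv.symm huw.symm hx0 with rfl | rfl | rfl <;>
            rcases ttri_edges h hs h3 rv rw' ru hvw huv.symm huw.symm reu rew rev hveu hweu
              hvew huew hwev huev hy1 with rfl | rfl | rfl
          · rw [fv, feu]; exact hweu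
          · rw [fv, few]; exact hwev
          · exact absurd hxy nv
          · rw [fw, feu]; exact hveu
          · exact absurd hxy nw
          · rw [fw, fev]; exact hvew
          · exact absurd hxy nu
          · rw [fu, few]; exact huev
          · rw [fu, fev]; exact huew
  let γ : P ≃o P :=
    { toFun := f
      invFun := f
      left_inv := hinv
      right_inv := hinv
      map_rel_iff' := by
        intro a b
        constructor
        · intro hab
          have := hmono _ _ hab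
          change f (f a) ≤ f (f b) at this
          rwa [hinv, hinv] at this
        · exact hmono a b }
  have hγ : ∀ x, γ x = f x := fun x => rfl
  apply chiral_tup1 h hC Φ 0 γ
  apply adj_unique
  · rw [tmap_apply, hγ, ← hvdef, fv]
    exact hvw.symm
  · intro j hj
    rw [tmap_apply, hγ]
    fin_cases j
    · exact absurd rfl hj
    · show f (Φ.1 1) = Φ.1 1
      rw [← heudef]; exact feu
    · show f (Φ.1 2) = Φ.1 2
      apply hbig
      have := Φ.hrk 2
      simp at this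
      omega
    · show f (Φ.1 3) = Φ.1 3
      apply hbig
      have := Φ.hrk 3
      simp at this
      omega

end Pool.Agent.H.MP_6268b4_co
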