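import Pool.Agent.H.MP_6268b4_co.F4G1
import Pool.Agent.H.MP_6268b4_co.F4X5
import Pool.Agent.H.MP_6268b4_co.F4F2
import Pool.Agent.H.MP_6268b4_co.F4B15
import Pool.Agent.H.MP_6268b4_co.F4C9
import Pool.Agent.H.MP_6268b4_co.F4D5
import Pool.Agent.H.MP_6268b4_co.F4D6
import Pool.Agent.H.MP_6268b4_co.TTri
import Pool.Agent.H.MP_6268b4_co.Transport

/-!
The classification of the neighborly chiral 4-polytopes `{p, q, r}` with `4 ∣ r`.
-/

namespace Pool.Agent.H.MP_6268b4_co

/-- Job F4G2-1.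

Proof (compare `chiral_forward` in `FinC.lean`). Let `Φ` be a tuple, `s i j` as in `chiral_tup3`.
`bridge_Q` gives `hQ : QHyp ..`, `chi_four_le` gives `4 ≤ n`, `q_faithful` faithfulness, `f4_of_Q` and `f4_Z`
give `ZHyp` (`vert0 ≠ vert1`, `vert0_ne`), `z_coord2` the coordinates `hc : FCoord ..`, `bridge_S` the
subgroup `S`, `fd_main`: `lam = 1` or (`lam = 2`, `orderOf ω = 4` and `Fintype.card F = 5` or `9`). The
case `Fintype.card F = 9`, `orderOf ω = 4` is excluded by `chi_no_nine` (in both cases for `lam`). So: if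
`lam = 1` use `id_xr` (`XHyp ω`: `hc.ω0`, `hc.ord` and `hQ.four`, `hc.sq`), if `lam = 2` use `id_x6`. -/
theorem four_forward {P : Type} [PartialOrder P] [BoundedOrder P] [Finite P] {rk : P → ℤ}
    (h : IsPolytope 4 P rk) (hC : IsChiral P) (hs : SimpleComplete rk) (ho : FourType rk) :
    (∃ (F : Type) (_ : Field F) (_ : Fintype F) (_ : DecidableEq F) (ω : F), XHyp ω ∧
      ¬ (Fintype.card F = 9 ∧ orderOf ω = 4) ∧ Nonempty (P ≃o XR F ω)) ∨
    Nonempty (P ≃o X6) := by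
  classical
  obtain ⟨A, -⟩ := exists_flag_mem (⊥ : P)
  obtain ⟨Φ, -⟩ : ∃ Φ : Tup P rk, Φ = toTup h A := ⟨_, rfl⟩
  choose s hs' using fun i j => chiral_tup3 h hC Φ i j
  have hH := bridge_Q h hC hs ho hs'
  have hn : 4 ≤ Nat.card (Vert P) := chi_four_le h hs hC Φ
  haveI hf : FaithfulSMul (P ≃o P) (Vert P) := q_faithful hH hn
  have hz : ZHyp (P ≃o P) (Vert P) := f4_Z (f4_of_Q hH) ⟨_, _, vert0_ne h Φ⟩
  obtain ⟨F, iF, iFt, iD, ω, lam, β, hc⟩ := z_coord2 hH hz (by omega)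
  obtain ⟨S, hτ, hjσ, hS⟩ := bridge_S h hs' (fun i γ => chiral_tup1 h hC Φ i γ)
  have hX : XHyp ω := ⟨hc.ω0, by rw [hc.ord]; exact hH.four, hc.sq⟩
  have hmain := fd_main hH hz hc S hτ hjσ hS
  have h9 : ¬ (Fintype.card F = 9 ∧ orderOf ω = 4) := by
    rintro ⟨h9, h4⟩
    refine chi_no_nine h hs' hC hf hc h4 h9 ?_
    rcases hmain with hl | ⟨hl, -⟩
    · exact Or.inl hl
    · exact Or.inr hl
  rcases hmain with hl | ⟨hl, h4, h59⟩
  · left
    subst hl
    exact ⟨F, iF, iFt, iD, ω, hX, h9, id_xr h hs' hC hf hc hX h9⟩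
  · right
    subst hl
    rcases h59 with h5 | h5
    · exact id_x6 h hs' hC hf hc h4 h5
    · exact absurd ⟨h5, h4⟩ h9

/-- Job F4G2-2.

Proof (compare `chiral_backward` in `FinC.lean`). `xt_isPolytope`, `xr_chiral`, `gp_simple`,
`xt_fourType` (with `t = 1`), transported along `f` with `transport_poly`, `transport_chiral`,
`transport_simple`, `transport_four`. -/
theorem four_backward {P : Type*} [PartialOrder P] [BoundedOrder P] {F : Type*} [Field F]
    [Fintype F] [DecidableEq F] {ω : F} (hX : XHyp ω)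
    (h9 : ¬ (Fintype.card F = 9 ∧ orderOf ω = 4)) (f : P ≃o XR F ω) :
    ∃ rk : P → ℤ, IsPolytope 4 P rk ∧ IsChiral P ∧ SimpleComplete rk ∧ FourType rk :=
  ⟨GP.rk ∘ f, transport_poly f (xt_isPolytope hX one_ne_zero),
    transport_chiral f (xr_chiral hX h9), transport_simple f gp_simple,
    transport_four f (xt_fourType hX one_ne_zero)⟩

/-- Job F4G2-3. Proof: the same with `X6.isPolytope`, `X6.chiral`, `X6.simple`, `X6.fourType`. -/
theorem four_backward' {P : Type*} [PartialOrder P] [BoundedOrder P] (f : P ≃o X6) :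
    ∃ rk : P → ℤ, IsPolytope 4 P rk ∧ IsChiral P ∧ SimpleComplete rk ∧ FourType rk :=
  ⟨X6.rk ∘ f, transport_poly f X6.isPolytope, transport_chiral f X6.chiral,
    transport_simple f X6.simple, transport_four f X6.fourType⟩

end Pool.Agent.H.MP_6268b4_co
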