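import Pool.Agent.H.MP_6268b4_co.F4Defs

/-!
Permutation groups with a normal subgroup of odd order with abelian quotient: `Y`.
-/

namespace Pool.Agent.H.MP_6268b4_co

variable {Λ : Type*} {X Y : Subgroup (Equiv.Perm Λ)}

/-- Job F4Om1-1. `Y` has odd order, is transitive, and `Λ` has odd size.

Proof. (1) `Nat.card Y` is odd: otherwise there is `y ∈ Y` of order 2 (Cauchy,
`exists_prime_orderOf_dvd_card`), `y a ≠ a` for some `a`, and `y` interchanges `a` and `y a`, against
`noswap`. (2) `Y` is not trivial: suppose all elements of `Y` are `1`; then any two elements of `X`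
commute (`comm`: `g * k * g⁻¹ * k⁻¹ = 1`). Take three different points `a, b, c`, `g ∈ X` with
`g a = a`, `g b = c` and `k ∈ X` with `k a = b`, `k b = a`. Then `g b = g (k a) = k (g a) = k a = b`,
but `g b = c ≠ b`. (3) So there are `y ∈ Y` and `a` with `y a ≠ a`. For `x ≠ x'` take `g ∈ X` with
`g a = x`, `g (y a) = x'` (`two`). Then `g * y * g⁻¹ = (g * y * g⁻¹ * y⁻¹) * y ∈ Y` (`comm`, `sub`) maps
`x` to `x'`. For `x = x'` take `1`. (4) `Y` is transitive on `Λ`, so `Nat.card Λ` divides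
`Nat.card Y` (orbit-stabilizer, e.g. `MulAction.card_orbit_mul_card_stabilizer_eq_card_group` for
the natural action of `Y` on `Λ`), hence it is odd. -/
theorem om_Y [Finite Λ] (h : OHyp X Y) (h3 : 3 ≤ Nat.card Λ) :
    Odd (Nat.card Y) ∧ (∀ x y : Λ, ∃ g ∈ Y, g x = y) ∧ Odd (Nat.card Λ) := by
  classical
  have : Fintype Λ := Fintype.ofFinite Λ
  have hodd : Odd (Nat.card Y) := by
    by_contra hne
    rw [Nat.not_odd_iff_even] at hne
    have h2 : 2 ∣ Nat.card Y := hne.two_dvd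
    have : Fact (Nat.Prime 2) := ⟨Nat.prime_two⟩
    obtain ⟨y, hy⟩ := exists_prime_orderOf_dvd_card' 2 h2
    have hy2 : (y : Equiv.Perm Λ) * y = 1 := by
      have h3 := pow_orderOf_eq_one y
      rw [hy, sq] at h3
      exact_mod_cast congrArg Subtype.val h3
    have hy1 : (y : Equiv.Perm Λ) ≠ 1 := by
      intro h3
      have h4 : y = 1 := Subtype.ext h3
      rw [h4, orderOf_one] at hy
      omega
    obtain ⟨a, ha⟩ : ∃ a, (y : Equiv.Perm Λ) a ≠ a := by
      by_contra hc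
      push Not at hc
      exact hy1 (Equiv.ext hc)
    exact h.noswap y y.2 a ((y : Equiv.Perm Λ) a) (Ne.symm ha) rfl
      (by rw [← Equiv.Perm.mul_apply, hy2, Equiv.Perm.one_apply])
  have htr : ∀ x y : Λ, ∃ g ∈ Y, g x = y := by
    have h3' : 2 < Fintype.card Λ := by
      rw [← Nat.card_eq_fintype_card]; omega
    obtain ⟨a, b, c, hab, hac, hbc⟩ := Fintype.two_lt_card_iff.1 h3'
    have hex : ∃ y ∈ Y, ∃ a, (y : Equiv.Perm Λ) a ≠ a := by
      by_contra hcon
      push Not at hcon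
      have hall : ∀ y ∈ Y, y = 1 := fun y hy => Equiv.ext (hcon y hy)
      obtain ⟨g, hg, hga, hgb⟩ := h.two a b a c hab hac
      obtain ⟨k, hk, hka, hkb⟩ := h.two a b b a hab hab.symm
      have h4 := hall _ (h.comm g hg k hk)
      have h5 : g * k = k * g := by
        have h6 : g * k * g⁻¹ = k := by
          rw [← mul_inv_eq_one]; exact h4
        calc g * k = g * k * g⁻¹ * g := by group
          _ = k * g := by rw [h6]
      have h7 : g b = b := by
        have h8 : (g * k) a = (k * g) a := by rw [h5]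
        rw [Equiv.Perm.mul_apply, Equiv.Perm.mul_apply, hka, hga, hka] at h8
        exact h8
      exact hbc (h7.symm.trans hgb)
    obtain ⟨y, hy, a', ha'⟩ := hex
    intro x x'
    by_cases hxx : x = x'
    · exact ⟨1, Y.one_mem, by simpa using hxx⟩
    obtain ⟨g, hg, hg1, hg2⟩ := h.two a' (y a') x x' (Ne.symm ha') hxx
    refine ⟨g * y * g⁻¹, ?_, ?_⟩
    · have h4 := Y.mul_mem (h.comm g hg y (h.sub hy)) hy
      have h5 : g * y * g⁻¹ * y⁻¹ * y = g * y * g⁻¹ := by group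
      rwa [h5] at h4
    · have h6 : g⁻¹ x = a' := by rw [← hg1]; simp
      rw [Equiv.Perm.mul_apply, Equiv.Perm.mul_apply, h6, hg2]
  refine ⟨hodd, htr, ?_⟩
  have hne : Nonempty Λ := by
    by_contra hc
    rw [not_nonempty_iff] at hc
    have : Nat.card Λ = 0 := Nat.card_of_isEmpty
    omega
  obtain ⟨b⟩ := hne
  have hpre : MulAction.IsPretransitive Y Λ := ⟨fun x y => by
    obtain ⟨g, hg, hgx⟩ := htr x y
    exact ⟨⟨g, hg⟩, hgx⟩⟩
  have h4 : Nat.card Λ ∣ Nat.card Y := by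
    rw [← MulAction.index_stabilizer_of_transitive Y b]
    exact Subgroup.index_dvd_card _
  exact hodd.of_dvd_nat h4

/-- Job F4Om1-2. `t * g * t = g⁻¹` if `t` interchanges two points fixed by `g`.

Proof. `t * t = 1` and `(t * g) * (t * g) = 1` by `swap`. -/
theorem om_inv (h : OHyp X Y) {x y : Λ} (hxy : x ≠ y) {t g : Equiv.Perm Λ} (ht : t ∈ X)
    (htx : t x = y) (hty : t y = x) (hg : g ∈ X) (hgx : g x = x) (hgy : g y = y) :
    t * g * t = g⁻¹ := by
  have h1 : t * t = 1 := h.swap x y t ht hxy htx hty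
  have h2 : (t * g) * (t * g) = 1 := by
    refine h.swap x y (t * g) (X.mul_mem ht hg) hxy ?_ ?_
    · rw [Equiv.Perm.mul_apply, hgx, htx]
    · rw [Equiv.Perm.mul_apply, hgy, hty]
  rw [eq_inv_iff_mul_eq_one, mul_assoc]
  exact h2

/-- Job F4Om1-3. The elements fixing two points are in `Y`.

Proof. Take `t ∈ X` interchanging `x` and `y` (`two`). `t * g * t⁻¹ * g⁻¹ ∈ Y` (`comm`), `t⁻¹ = t`
(`swap`), so by `om_inv` `g⁻¹ * g⁻¹ ∈ Y`, `g * g ∈ Y`. `orderOf g = 2 * m + 1` is odd (`odd`), so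
`g = g ^ (2 * m + 2) = (g * g) ^ (m + 1) ∈ Y`. -/
theorem om_mem_Y (h : OHyp X Y) {x y : Λ} (hxy : x ≠ y) {g : Equiv.Perm Λ} (hg : g ∈ X)
    (hgx : g x = x) (hgy : g y = y) : g ∈ Y := by
  obtain ⟨t, ht, htx, hty⟩ := h.two x y y x hxy hxy.symm
  have h1 : t * t = 1 := h.swap x y t ht hxy htx hty
  have hti : t⁻¹ = t := by rw [inv_eq_iff_mul_eq_one]; exact h1
  have h2 := om_inv h hxy ht htx hty hg hgx hgy
  have h3 := h.comm t ht g hg
  rw [hti, h2] at h3
  have h4 : g * g ∈ Y := by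
    have h5 := Y.inv_mem h3
    have h6 : (g⁻¹ * g⁻¹)⁻¹ = g * g := by rw [mul_inv_rev, inv_inv]
    rwa [h6] at h5
  obtain ⟨m, hm⟩ := h.odd x y g hg hxy hgx hgy
  have h5 : g = (g * g) ^ (m + 1) := by
    rw [← sq, ← pow_mul]
    have h6 : 2 * (m + 1) = orderOf g + 1 := by omega
    rw [h6, pow_add, pow_orderOf_eq_one, one_mul, pow_one]
  rw [h5]
  exact Y.pow_mem h4 _

/-- Job F4Om1-4. An involution in `X` has exactly one fixed point.

Proof. At least one since `Nat.card Λ` is odd (`om_Y`; `Equiv.Perm.exists_fixed_point_of_prime`).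
If it fixes `x ≠ y` its order is odd (`odd`), but the order is `2`. -/
theorem om_fix [Finite Λ] (h : OHyp X Y) (h3 : 3 ≤ Nat.card Λ) {t : Equiv.Perm Λ} (ht : t ∈ X)
    (ht1 : t ≠ 1) (htt : t * t = 1) : ∃! c : Λ, t c = c := by
  classical
  have : Fintype Λ := Fintype.ofFinite Λ
  obtain ⟨-, -, hodd⟩ := om_Y h h3
  have : Fact (Nat.Prime 2) := ⟨Nat.prime_two⟩
  have h2 : ¬ 2 ∣ Fintype.card Λ := by
    rw [← Nat.card_eq_fintype_card]
    intro hd
    exact (Nat.not_even_iff_odd.2 hodd) (even_iff_two_dvd.2 hd)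
  obtain ⟨c, hc⟩ := Equiv.Perm.exists_fixed_point_of_prime (n := 1) h2
    (by rw [pow_one, sq]; exact htt : t ^ 2 ^ 1 = 1)
  refine ⟨c, hc, fun c' hc' => ?_⟩
  by_contra hne
  have h4 := h.odd c' c t ht hne hc' hc
  have h5 : orderOf t = 2 := orderOf_eq_prime (by rw [sq]; exact htt) ht1
  rw [h5] at h4
  exact absurd h4 (by decide)

end Pool.Agent.H.MP_6268b4_co
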