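import Pool.Agent.H.MP_6268b4_co.F4Om1
import Pool.Agent.H.MP_6268b4_co.F4A2

/-!
Restriction to the fixed points of an element.
-/

namespace Pool.Agent.H.MP_6268b4_co

variable {Λ : Type*} {X Y : Subgroup (Equiv.Perm Λ)}

/-- Job F4Om2-1. Two elements of `X` with the same order fixing `x ≠ y` generate the same subgroup
(`cyc`, `cmaina_cyc`). -/
theorem om_mem [Finite Λ] (h : OHyp X Y) {x y : Λ} (hxy : x ≠ y) {g k : Equiv.Perm Λ}
    (hg : g ∈ X) (hgx : g x = x) (hgy : g y = y) (hk : k ∈ X) (hkx : k x = x) (hky : k y = y)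
    (ho : orderOf g = orderOf k) : k ∈ Subgroup.zpowers g := by
  obtain ⟨s, -, -, -, hs⟩ := h.cyc x y hxy
  exact cmaina_cyc (hs g hg hgx hgy) (hs k hk hkx hky) ho

theorem f4om2_ai {A : Type*} (g : Equiv.Perm A) (u : A) : g (g⁻¹ u) = u :=
  Equiv.apply_symm_apply g u

theorem f4om2_ia {A : Type*} (g : Equiv.Perm A) (u : A) : g⁻¹ (g u) = u :=
  Equiv.symm_apply_apply g u

theorem f4om2_conj {G : Type*} [Group G] {a c k : G} (h : a * k * a⁻¹ ∈ Subgroup.zpowers k)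
    (hc : c ∈ Subgroup.zpowers k) : a * c * a⁻¹ ∈ Subgroup.zpowers k := by
  obtain ⟨m, rfl⟩ := Subgroup.mem_zpowers_iff.1 hc
  rw [← conj_zpow]
  exact Subgroup.zpow_mem _ h m

theorem f4om2_order {G : Type*} [Group G] (a k : G) : orderOf (a * k * a⁻¹) = orderOf k := by
  have := orderOf_injective (MulAut.conj a).toMonoidHom (MulAut.conj a).injective k
  simpa [MulAut.conj_apply] using this

theorem f4om2_symm {G : Type*} [Group G] [Finite G] {a k : G}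
    (h : a * k * a⁻¹ ∈ Subgroup.zpowers k) : a⁻¹ * k * a ∈ Subgroup.zpowers k := by
  have h1 := cmaina_cyc h (Subgroup.mem_zpowers k) (f4om2_order a k)
  obtain ⟨m, hm⟩ := Subgroup.mem_zpowers_iff.1 h1
  rw [conj_zpow] at hm
  have h2 : a⁻¹ * k * a = k ^ m := by
    rw [mul_assoc, inv_mul_eq_iff_eq_mul]
    nth_rewrite 1 [← hm]
    group
  rw [h2]
  exact Subgroup.zpow_mem _ (Subgroup.mem_zpowers k) m

/-- The elements of `M` normalizing `zpowers k`. -/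
def f4om2_N (k : Equiv.Perm Λ) (M : Subgroup (Equiv.Perm Λ)) : Subgroup (Equiv.Perm Λ) where
  carrier := {g | g ∈ M ∧ g * k * g⁻¹ ∈ Subgroup.zpowers k ∧ g⁻¹ * k * g ∈ Subgroup.zpowers k}
  mul_mem' := by
    rintro a b ⟨ha, ha1, ha2⟩ ⟨hb, hb1, hb2⟩
    refine ⟨M.mul_mem ha hb, ?_, ?_⟩
    · have h1 := f4om2_conj ha1 hb1
      have h2 : a * b * k * (a * b)⁻¹ = a * (b * k * b⁻¹) * a⁻¹ := by group
      rw [h2]; exact h1
    · have hb2' : b⁻¹ * k * b⁻¹⁻¹ ∈ Subgroup.zpowers k := by rwa [inv_inv]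
      have h1 := f4om2_conj hb2' ha2
      have h2 : (a * b)⁻¹ * k * (a * b) = b⁻¹ * (a⁻¹ * k * a) * b⁻¹⁻¹ := by group
      rw [h2]; exact h1
  one_mem' := by
    refine ⟨M.one_mem, ?_, ?_⟩ <;> simp
  inv_mem' := by
    rintro a ⟨ha, ha1, ha2⟩
    exact ⟨M.inv_mem ha, by rwa [inv_inv], by rwa [inv_inv]⟩

theorem f4om2_mem_N {k g : Equiv.Perm Λ} {M : Subgroup (Equiv.Perm Λ)} :
    g ∈ f4om2_N k M ↔ g ∈ M ∧ g * k * g⁻¹ ∈ Subgroup.zpowers k ∧
      g⁻¹ * k * g ∈ Subgroup.zpowers k := Iff.rfl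

theorem f4om2_fix {k c : Equiv.Perm Λ} (hc : c ∈ Subgroup.zpowers k) {u : Λ} (hu : k u = u) :
    c u = u := by
  obtain ⟨m, rfl⟩ := Subgroup.mem_zpowers_iff.1 hc
  exact Equiv.Perm.zpow_apply_eq_self_of_apply_eq_self hu m

/-- The restrictions of the elements of `M` to the fixed points of `k`. -/
def f4om2_R (k : Equiv.Perm Λ) (M : Subgroup (Equiv.Perm Λ)) :
    Subgroup (Equiv.Perm {u : Λ // k u = u}) where
  carrier := {g' | ∃ g ∈ M, ∀ u, ((g' u : {u : Λ // k u = u}) : Λ) = g u}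
  mul_mem' := by
    rintro a b ⟨a', ha, ha1⟩ ⟨b', hb, hb1⟩
    refine ⟨a' * b', M.mul_mem ha hb, fun u => ?_⟩
    rw [Equiv.Perm.mul_apply, ha1, hb1, Equiv.Perm.mul_apply]
  one_mem' := ⟨1, M.one_mem, fun u => rfl⟩
  inv_mem' := by
    rintro a ⟨a', ha, ha1⟩
    refine ⟨a'⁻¹, M.inv_mem ha, fun u => ?_⟩
    rw [Equiv.Perm.eq_inv_iff_eq, ← ha1, f4om2_ai]

theorem f4om2_mem_R {k : Equiv.Perm Λ} {g' : Equiv.Perm {u : Λ // k u = u}}
    {M : Subgroup (Equiv.Perm Λ)} :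
    g' ∈ f4om2_R k M ↔ ∃ g ∈ M, ∀ u, ((g' u : {u : Λ // k u = u}) : Λ) = g u := Iff.rfl

theorem f4om2_inv {k g : Equiv.Perm Λ} {g' : Equiv.Perm {u : Λ // k u = u}}
    (h : ∀ u, ((g' u : {u : Λ // k u = u}) : Λ) = g u) (u : {u : Λ // k u = u}) :
    ((g'⁻¹ u : {u : Λ // k u = u}) : Λ) = g⁻¹ u := by
  rw [Equiv.Perm.eq_inv_iff_eq, ← h, f4om2_ai]

theorem f4om2_mul {k g l : Equiv.Perm Λ} {g' l' : Equiv.Perm {u : Λ // k u = u}}
    (h : ∀ u, ((g' u : {u : Λ // k u = u}) : Λ) = g u)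
    (h2 : ∀ u, ((l' u : {u : Λ // k u = u}) : Λ) = l u) (u : {u : Λ // k u = u}) :
    (((g' * l') u : {u : Λ // k u = u}) : Λ) = (g * l) u := by
  rw [Equiv.Perm.mul_apply, h, h2, Equiv.Perm.mul_apply]

theorem f4om2_pow {k g : Equiv.Perm Λ} {g' : Equiv.Perm {u : Λ // k u = u}}
    (h : ∀ u, ((g' u : {u : Λ // k u = u}) : Λ) = g u) (m : ℕ) :
    ∀ u : {u : Λ // k u = u}, (((g' ^ m) u : {u : Λ // k u = u}) : Λ) = (g ^ m) u := by
  induction m with
  | zero => intro u; rfl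
  | succ m ih =>
    intro u
    rw [pow_succ, pow_succ]
    exact f4om2_mul ih h u

theorem f4om2_zpow {k g : Equiv.Perm Λ} {g' : Equiv.Perm {u : Λ // k u = u}}
    (h : ∀ u, ((g' u : {u : Λ // k u = u}) : Λ) = g u) (m : ℤ) :
    ∀ u : {u : Λ // k u = u}, (((g' ^ m) u : {u : Λ // k u = u}) : Λ) = (g ^ m) u := by
  obtain ⟨n, rfl | rfl⟩ := m.eq_nat_or_neg
  · intro u
    rw [zpow_natCast, zpow_natCast]
    exact f4om2_pow h n u
  · intro u
    rw [zpow_neg, zpow_neg, zpow_natCast, zpow_natCast]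
    exact f4om2_inv (f4om2_pow h n) u

theorem f4om2_ext {k : Equiv.Perm Λ} {g' l' : Equiv.Perm {u : Λ // k u = u}}
    (h : ∀ u, ((g' u : {u : Λ // k u = u}) : Λ) = ((l' u : {u : Λ // k u = u}) : Λ)) :
    g' = l' := Equiv.ext fun u => Subtype.ext (h u)

theorem f4om2_exists {k g : Equiv.Perm Λ} (hg1 : g * k * g⁻¹ ∈ Subgroup.zpowers k)
    (hg2 : g⁻¹ * k * g ∈ Subgroup.zpowers k) :
    ∃ g' : Equiv.Perm {u : Λ // k u = u}, ∀ u, ((g' u : {u : Λ // k u = u}) : Λ) = g u := by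
  have key : ∀ a : Equiv.Perm Λ, a⁻¹ * k * a ∈ Subgroup.zpowers k →
      ∀ u : Λ, k u = u → k (a u) = a u := by
    intro a ha u hu
    have h1 := f4om2_fix ha hu
    rw [Equiv.Perm.mul_apply, Equiv.Perm.mul_apply, Equiv.Perm.inv_eq_iff_eq] at h1
    exact h1
  refine ⟨⟨fun u => ⟨g u, key g hg2 u u.2⟩, fun u => ⟨g⁻¹ u, key g⁻¹ (by rwa [inv_inv]) u u.2⟩,
    fun u => Subtype.ext ?_, fun u => Subtype.ext ?_⟩, fun u => rfl⟩
  · exact f4om2_ia g u
  · exact f4om2_ai g u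

/-- Job F4Om2-2. Let `k ∈ X` fix two different points. The normalizer of `zpowers k` in `X`, restricted
to the set of fixed points of `k`, satisfies `OHyp` again.

Proof. Let `Δ = {u | k u = u}`, `N` the subgroup of all `g ∈ X` with `g * k * g⁻¹ ∈ zpowers k` and
`g⁻¹ * k * g ∈ zpowers k` (the intersection of `X` with the normalizer of `zpowers k`; for a finite
group the second condition follows from the first: `zpowers (g * k * g⁻¹) ≤ zpowers k` have the same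
finite cardinality, so `k ∈ zpowers (g * k * g⁻¹)`). `N` preserves `Δ`: for `u ∈ Δ`,
`k (g u) = g ((g⁻¹ * k * g) u) = g u`. Let `f : N →* Perm Δ` be the restriction (`f4_restrict` for the
natural action of `Perm Λ` on `Λ`), `X'` its range and `Y'` the image of `{g ∈ N | g ∈ Y}`.
`two`: for pairs in `Δ` take `g ∈ X` by `h.two`; `g * k * g⁻¹` and `k` are in `X`, fix `x', y'` and have
the same order, so `g * k * g⁻¹ ∈ zpowers k` (`om_mem`), similarly for `g⁻¹`; so `g ∈ N`.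
`cyc`: for `x ≠ y` in `Δ` take `s` from `h.cyc`; `k ∈ zpowers s`, so `s` commutes with `k`, `s ∈ N`,
and an element of `X'` fixing `x, y` is `f g` with `g ∈ N ≤ X` fixing `x, y`, so `g ∈ zpowers s` and
`f g ∈ zpowers (f s)`. `swap`, `noswap`: lift. `odd`: lift to `g`; `orderOf (f g)` divides `orderOf g`.
`comm`: lift to `g, k' ∈ N`, the commutator is in `N` and in `Y`. The last two statements hold by the
definition of `X'`. -/
theorem om_restrict [Finite Λ] (h : OHyp X Y) {k : Equiv.Perm Λ} (hk : k ∈ X) {x y : Λ}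
    (hxy : x ≠ y) (hkx : k x = x) (hky : k y = y) :
    ∃ X' Y' : Subgroup (Equiv.Perm {u : Λ // k u = u}), OHyp X' Y' ∧
      (∀ g' ∈ X', ∃ g ∈ X, ∀ u, ((g' u : {u : Λ // k u = u}) : Λ) = g u) ∧
      (∀ g ∈ X, g * k * g⁻¹ ∈ Subgroup.zpowers k →
        ∃ g' ∈ X', ∀ u, ((g' u : {u : Λ // k u = u}) : Λ) = g u) := by
  have hex : ∀ g ∈ X, g * k * g⁻¹ ∈ Subgroup.zpowers k →
      ∃ g' ∈ f4om2_R k (f4om2_N k X), ∀ u, ((g' u : {u : Λ // k u = u}) : Λ) = g u := by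
    intro g hg hg1
    obtain ⟨g', hg'⟩ := f4om2_exists hg1 (f4om2_symm hg1)
    exact ⟨g', ⟨g, ⟨hg, hg1, f4om2_symm hg1⟩, hg'⟩, hg'⟩
  refine ⟨f4om2_R k (f4om2_N k X), f4om2_R k (f4om2_N k Y), ?_, ?_, hex⟩
  · constructor
    · intro a b a' b' hab hab'
      have hab1 : (a : Λ) ≠ b := fun e => hab (Subtype.ext e)
      have hab1' : (a' : Λ) ≠ b' := fun e => hab' (Subtype.ext e)
      obtain ⟨g, hg, hga, hgb⟩ := h.two a b a' b' hab1 hab1'
      have hk' : g * k * g⁻¹ ∈ X := X.mul_mem (X.mul_mem hg hk) (X.inv_mem hg)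
      have h1 : (g * k * g⁻¹) (a' : Λ) = a' := by
        rw [Equiv.Perm.mul_apply, Equiv.Perm.mul_apply, ← hga, f4om2_ia, a.2]
      have h2 : (g * k * g⁻¹) (b' : Λ) = b' := by
        rw [Equiv.Perm.mul_apply, Equiv.Perm.mul_apply, ← hgb, f4om2_ia, b.2]
      obtain ⟨g', hg', hg1'⟩ := hex g hg
        (om_mem h hab1' hk a'.2 b'.2 hk' h1 h2 (f4om2_order g k).symm)
      refine ⟨g', hg', Subtype.ext ?_, Subtype.ext ?_⟩
      · rw [hg1', hga]
      · rw [hg1', hgb]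
    · intro a b hab
      have hab1 : (a : Λ) ≠ b := fun e => hab (Subtype.ext e)
      obtain ⟨s, hs, hsa, hsb, hsall⟩ := h.cyc a b hab1
      obtain ⟨m, hm⟩ := Subgroup.mem_zpowers_iff.1 (hsall k hk a.2 b.2)
      have hs1 : s * k * s⁻¹ ∈ Subgroup.zpowers k := by
        have : s * k * s⁻¹ = k := by
          rw [← hm, ← zpow_one_add, ← zpow_sub_one]
          congr 1
          ring
        rw [this]
        exact Subgroup.mem_zpowers k
      obtain ⟨s', hs', hs1'⟩ := hex s hs hs1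
      refine ⟨s', hs', Subtype.ext ?_, Subtype.ext ?_, ?_⟩
      · rw [hs1', hsa]
      · rw [hs1', hsb]
      · rintro g' ⟨g, ⟨hg, -, -⟩, hg'⟩ hga hgb
        have h1 : g a = a := by rw [← hg', hga]
        have h2 : g b = b := by rw [← hg', hgb]
        obtain ⟨n, hn⟩ := Subgroup.mem_zpowers_iff.1 (hsall g hg h1 h2)
        refine Subgroup.mem_zpowers_iff.2 ⟨n, f4om2_ext fun u => ?_⟩
        rw [f4om2_zpow hs1' n u, hn, hg']
    · rintro a b g' ⟨g, ⟨hg, -, -⟩, hg'⟩ hab hga hgb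
      have hab1 : (a : Λ) ≠ b := fun e => hab (Subtype.ext e)
      have h1 : g a = b := by rw [← hg', hga]
      have h2 : g b = a := by rw [← hg', hgb]
      have h3 := h.swap a b g hg hab1 h1 h2
      refine f4om2_ext fun u => ?_
      rw [f4om2_mul hg' hg' u, h3]
      rfl
    · rintro a b g' ⟨g, ⟨hg, -, -⟩, hg'⟩ hab hga hgb
      have hab1 : (a : Λ) ≠ b := fun e => hab (Subtype.ext e)
      have h1 : g a = a := by rw [← hg', hga]
      have h2 : g b = b := by rw [← hg', hgb]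
      have h3 := h.odd a b g hg hab1 h1 h2
      refine h3.of_dvd_nat (orderOf_dvd_of_pow_eq_one (f4om2_ext fun u => ?_))
      rw [f4om2_pow hg' _ u, pow_orderOf_eq_one]
      rfl
    · rintro g' ⟨g, ⟨hg, hg1, hg2⟩, hg'⟩
      exact ⟨g, ⟨h.sub hg, hg1, hg2⟩, hg'⟩
    · rintro g' ⟨g, hg, hg'⟩ l' ⟨l, hl, hl'⟩
      have hN : g * l * g⁻¹ * l⁻¹ ∈ f4om2_N k X :=
        Subgroup.mul_mem _ (Subgroup.mul_mem _ (Subgroup.mul_mem _ hg hl)
          (Subgroup.inv_mem _ hg)) (Subgroup.inv_mem _ hl)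
      refine ⟨g * l * g⁻¹ * l⁻¹, ⟨h.comm g hg.1 l hl.1, hN.2.1, hN.2.2⟩, ?_⟩
      exact f4om2_mul (f4om2_mul (f4om2_mul hg' hl') (f4om2_inv hg')) (f4om2_inv hl')
    · rintro g' ⟨g, ⟨hg, -, -⟩, hg'⟩ a b hab hga hgb
      have hab1 : (a : Λ) ≠ b := fun e => hab (Subtype.ext e)
      exact h.noswap g hg a b hab1 (by rw [← hg', hga]) (by rw [← hg', hgb])
  · rintro g' ⟨g, ⟨hg, -, -⟩, hg'⟩
    exact ⟨g, hg, hg'⟩

end Pool.Agent.H.MP_6268b4_co
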