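import Pool.Agent.H.MP_6268b4_co.F4Om1

/-!
The case where only the identity fixes three points.
-/

namespace Pool.Agent.H.MP_6268b4_co

variable {Λ : Type*} {X Y : Subgroup (Equiv.Perm Λ)}

open scoped Classical in
/-- The two-point stabilizer as a finite set. -/
noncomputable def f4om3_S [Fintype Λ] (X : Subgroup (Equiv.Perm Λ)) (a b : Λ) :
    Finset (Equiv.Perm Λ) :=
  Finset.univ.filter fun g => g ∈ X ∧ g a = a ∧ g b = b

theorem f4om3_mem [Fintype Λ] {a b : Λ} {g : Equiv.Perm Λ} :
    g ∈ f4om3_S X a b ↔ g ∈ X ∧ g a = a ∧ g b = b := by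
  classical
  unfold f4om3_S
  rw [Finset.mem_filter]
  exact ⟨fun h => h.2, fun h => ⟨Finset.mem_univ _, h⟩⟩

theorem f4om3_card_le [Fintype Λ] (h : OHyp X Y) {a b a' b' : Λ} (hab : a ≠ b) (hab' : a' ≠ b') :
    (f4om3_S X a b).card ≤ (f4om3_S X a' b').card := by
  obtain ⟨k, hk, hka, hkb⟩ := h.two a b a' b' hab hab'
  have hka' : k⁻¹ a' = a := by rw [← hka]; simp
  have hkb' : k⁻¹ b' = b := by rw [← hkb]; simp
  refine Finset.card_le_card_of_injOn (fun g => k * g * k⁻¹) ?_ ?_
  · intro g hg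
    rw [Finset.mem_coe, f4om3_mem] at hg
    rw [Finset.mem_coe, f4om3_mem]
    refine ⟨X.mul_mem (X.mul_mem hk hg.1) (X.inv_mem hk), ?_, ?_⟩
    · simp only [Equiv.Perm.mul_apply]
      rw [hka', hg.2.1, hka]
    · simp only [Equiv.Perm.mul_apply]
      rw [hkb', hg.2.2, hkb]
  · intro g _ g' _ hgg
    simpa using hgg

/-- Job F4Om3. If only the identity of `X` fixes three points then only the identity fixes two.

Proof. Let `N = Nat.card Λ ≥ 3`. All two-point stabilizers are conjugate (`two`), let `d` be their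
common order. Suppose `d ≠ 1` (i.e. some `g ≠ 1` in `X` fixes two points). Every element of a two-point
stabilizer has odd order (`odd`), so `d ≥ 3` (an element `g ≠ 1` of odd order gives three different
elements `1, g, g * g`). Let `t ∈ X` be an involution: it interchanges two points (`two`, `swap`); it
fixes exactly one point `c` (`om_fix`). Consider the stabilizers `X_c` and `Y_c` of `c` in `X` and `Y`.
(1) `Nat.card X_c = (N - 1) * d` (orbit-stabilizer: `X_c` is transitive on the `N - 1` points `≠ c`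
with stabilizers of order `d`; or: the map `X_c → {x // x ≠ c}`, `g ↦ g b` (for fixed `b ≠ c`) is
surjective with fibres of size `d`).
(2) `Nat.card Y_c ≥ 1 + (N - 1) * (d - 1)`: the pairs `(x, g)` with `x ≠ c`, `g ∈ X`, `g ≠ 1`, `g c = c`,
`g x = x` are `(N - 1) * (d - 1)` in number, `g ∈ Y` for them (`om_mem_Y`), and `g` determines `x`
because `g ≠ 1` does not fix three points; add the identity.
(3) `Y_c ≤ X_c` and `t ∈ X_c`, `t ∉ Y_c` (the order of `Y` is odd, `om_Y`, and `t` has order 2: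
`orderOf_dvd_natCard`), so the index is at least 2: `2 * Nat.card Y_c ≤ Nat.card X_c` (the sets `Y_c`
and `t Y_c` are disjoint subsets of `X_c`).
So `2 + 2 (N - 1) (d - 1) ≤ (N - 1) d`, i.e. `2 + (N - 1) (d - 2) ≤ 0`, impossible for `d ≥ 3`. -/
theorem om_caseA [Finite Λ] (h : OHyp X Y) (h3 : 3 ≤ Nat.card Λ)
    (hfix : ∀ g ∈ X, ∀ x y z : Λ, x ≠ y → x ≠ z → y ≠ z → g x = x → g y = y → g z = z → g = 1) :
    ∀ g ∈ X, ∀ x y : Λ, x ≠ y → g x = x → g y = y → g = 1 := by
  classical
  have : Fintype Λ := Fintype.ofFinite Λ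
  intro g₀ hg₀ x₀ y₀ hxy₀ hgx₀ hgy₀
  by_contra hne
  -- an involution
  obtain ⟨t, ht, htx, hty⟩ := h.two x₀ y₀ y₀ x₀ hxy₀ hxy₀.symm
  have htt : t * t = 1 := h.swap x₀ y₀ t ht hxy₀ htx hty
  have ht1 : t ≠ 1 := by
    intro h0
    rw [h0] at htx
    exact hxy₀ htx
  obtain ⟨c, hc, -⟩ := om_fix h h3 ht ht1 htt
  obtain ⟨hYodd, -, -⟩ := om_Y h h3
  have htY : t ∉ Y := by
    intro htY
    have h1 : orderOf (⟨t, htY⟩ : Y) ∣ Nat.card Y := orderOf_dvd_natCard _
    have h2 : orderOf (⟨t, htY⟩ : Y) = 2 := by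
      rw [Subgroup.orderOf_mk]
      exact orderOf_eq_prime (by rw [sq]; exact htt) ht1
    rw [h2] at h1
    exact (Nat.not_even_iff_odd.2 hYodd) (even_iff_two_dvd.2 h1)
  -- a second point
  obtain ⟨b, hb⟩ : ∃ b : Λ, b ≠ c := by
    by_contra hcon
    push Not at hcon
    exact hxy₀ ((hcon x₀).trans (hcon y₀).symm)
  set d := (f4om3_S X c b).card with hd
  have hdeq : ∀ x, x ≠ c → (f4om3_S X c x).card = d := fun x hx =>
    le_antisymm (f4om3_card_le h hx.symm hb.symm) (f4om3_card_le h hb.symm hx.symm)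
  have hd2 : 2 ≤ d := by
    have h1 : (f4om3_S X x₀ y₀).card ≤ d := f4om3_card_le h hxy₀ hb.symm
    refine le_trans ?_ h1
    have h2 : ({1, g₀} : Finset (Equiv.Perm Λ)) ⊆ f4om3_S X x₀ y₀ := by
      intro g hg
      rw [Finset.mem_insert, Finset.mem_singleton] at hg
      rcases hg with rfl | rfl
      · rw [f4om3_mem]; exact ⟨X.one_mem, rfl, rfl⟩
      · rw [f4om3_mem]; exact ⟨hg₀, hgx₀, hgy₀⟩
    calc 2 = ({1, g₀} : Finset (Equiv.Perm Λ)).card := by
            rw [Finset.card_pair (Ne.symm hne)]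
      _ ≤ _ := Finset.card_le_card h2
  set Xc : Finset (Equiv.Perm Λ) := Finset.univ.filter fun g => g ∈ X ∧ g c = c with hXc
  set Yc : Finset (Equiv.Perm Λ) := Finset.univ.filter fun g => g ∈ Y ∧ g c = c with hYc
  have mX : ∀ g, g ∈ Xc ↔ g ∈ X ∧ g c = c := fun g => by
    rw [hXc, Finset.mem_filter]
    exact ⟨fun h => h.2, fun h => ⟨Finset.mem_univ _, h⟩⟩
  have mY : ∀ g, g ∈ Yc ↔ g ∈ Y ∧ g c = c := fun g => by
    rw [hYc, Finset.mem_filter]
    exact ⟨fun h => h.2, fun h => ⟨Finset.mem_univ _, h⟩⟩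
  set P : Finset Λ := Finset.univ.erase c with hP
  have mP : ∀ x, x ∈ P ↔ x ≠ c := fun x => by simp [hP]
  -- (1)
  have h1 : Xc.card ≤ d * P.card := by
    refine Finset.card_le_mul_card_image_of_maps_to (f := fun g : Equiv.Perm Λ => g b) ?_ d ?_
    · intro g hg
      rw [mX] at hg
      rw [mP]
      intro h0
      have : g b = g c := by rw [h0, hg.2]
      exact hb (g.injective this)
    · intro x hx
      rw [mP] at hx
      obtain ⟨k, hk, hkc, hkb⟩ := h.two c b c x hb.symm hx.symm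
      have hkc' : k⁻¹ c = c := by
        have : k⁻¹ (k c) = c := by simp
        rwa [hkc] at this
      have hkx' : k⁻¹ x = b := by rw [← hkb]; simp
      refine Finset.card_le_card_of_injOn (fun g => k⁻¹ * g) ?_ ?_
      · intro g hg
        rw [Finset.mem_coe, Finset.mem_filter, mX] at hg
        rw [Finset.mem_coe, f4om3_mem]
        refine ⟨X.mul_mem (X.inv_mem hk) hg.1.1, ?_, ?_⟩
        · rw [Equiv.Perm.mul_apply, hg.1.2, hkc']
        · rw [Equiv.Perm.mul_apply, hg.2, hkx']
      · intro g _ g' _ hgg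
        simpa using hgg
  -- (2)
  have h2 : P.card * (d - 1) + 1 ≤ Yc.card := by
    have hsub : (P.biUnion fun x => (f4om3_S X c x).erase 1) ⊆ Yc.erase 1 := by
      intro g hg
      rw [Finset.mem_biUnion] at hg
      obtain ⟨x, hx, hg⟩ := hg
      rw [mP] at hx
      rw [Finset.mem_erase, f4om3_mem] at hg
      rw [Finset.mem_erase, mY]
      exact ⟨hg.1, om_mem_Y h hx.symm hg.2.1 hg.2.2.1 hg.2.2.2, hg.2.2.1⟩
    have hcard : (P.biUnion fun x => (f4om3_S X c x).erase 1).card = P.card * (d - 1) := by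
      rw [Finset.card_biUnion]
      · rw [Finset.sum_congr rfl (g := fun _ => d - 1)]
        · rw [Finset.sum_const, smul_eq_mul]
        · intro x hx
          rw [mP] at hx
          rw [Finset.card_erase_of_mem (by rw [f4om3_mem]; exact ⟨X.one_mem, rfl, rfl⟩), hdeq x hx]
      · intro x hx y hy hxy
        rw [Finset.mem_coe, mP] at hx hy
        change Disjoint ((f4om3_S X c x).erase 1) ((f4om3_S X c y).erase 1)
        rw [Finset.disjoint_left]
        intro g hg hg'
        rw [Finset.mem_erase, f4om3_mem] at hg hg'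
        exact hg.1 (hfix g hg.2.1 c x y hx.symm hy.symm hxy hg.2.2.1 hg.2.2.2 hg'.2.2.2)
    have h1Y : (1 : Equiv.Perm Λ) ∈ Yc := by rw [mY]; exact ⟨Y.one_mem, rfl⟩
    have h2Y := Finset.card_le_card hsub
    rw [hcard, Finset.card_erase_of_mem h1Y] at h2Y
    have h3Y : 0 < Yc.card := Finset.card_pos.2 ⟨1, h1Y⟩
    omega
  -- (3)
  have h3' : Yc.card + Yc.card ≤ Xc.card := by
    have hdisj : Disjoint Yc (Yc.image fun g => t * g) := by
      rw [Finset.disjoint_left]
      intro g hg hg'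
      rw [Finset.mem_image] at hg'
      obtain ⟨k, hk, rfl⟩ := hg'
      rw [mY] at hg hk
      apply htY
      have := Y.mul_mem hg.1 (Y.inv_mem hk.1)
      simpa using this
    have himg : (Yc.image fun g => t * g).card = Yc.card :=
      Finset.card_image_of_injective _ (mul_right_injective t)
    calc Yc.card + Yc.card = (Yc ∪ (Yc.image fun g => t * g)).card := by
            rw [Finset.card_union_of_disjoint hdisj, himg]
      _ ≤ Xc.card := by
          refine Finset.card_le_card ?_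
          intro g hg
          rw [Finset.mem_union, Finset.mem_image] at hg
          rw [mX]
          rcases hg with hg | ⟨k, hk, rfl⟩
          · rw [mY] at hg
            exact ⟨h.sub hg.1, hg.2⟩
          · rw [mY] at hk
            refine ⟨X.mul_mem ht (h.sub hk.1), ?_⟩
            rw [Equiv.Perm.mul_apply, hk.2, hc]
  obtain ⟨e, he⟩ : ∃ e, d = e + 2 := ⟨d - 2, by omega⟩
  rw [he] at h1 h2
  have e1 : e + 2 - 1 = e + 1 := by omega
  rw [e1] at h2
  nlinarith

end Pool.Agent.H.MP_6268b4_co
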