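import Pool.Agent.H.MP_6268b4_co.GDefs

/-!
Sharply 2-transitive groups of odd degree.
-/

namespace Pool.Agent.H.MP_6268b4_co

variable {F Δ : Type*} [Group F] [MulAction F Δ]

/-- an element fixing two different points is trivial -/
theorem rsharp_fix (h : SharpTwo F Δ) {x y : Δ} (hxy : x ≠ y) {g : F} (h1 : g • x = x)
    (h2 : g • y = y) : g = 1 :=
  (h x y x y hxy hxy).unique ⟨h1, h2⟩ ⟨one_smul F x, one_smul F y⟩

theorem rsharp_swap (h : SharpTwo F Δ) {x y : Δ} (hxy : x ≠ y) :
    ∃ g : F, g ≠ 1 ∧ g * g = 1 ∧ g • x = y := by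
  obtain ⟨g, ⟨h1, h2⟩, -⟩ := h x y y x hxy hxy.symm
  refine ⟨g, ?_, ?_, h1⟩
  · rintro rfl
    rw [one_smul] at h1
    exact hxy h1
  · apply rsharp_fix h hxy
    · rw [mul_smul, h1, h2]
    · rw [mul_smul, h2, h1]

theorem rsharp_swap_unique (h : SharpTwo F Δ) {x y : Δ} (hxy : x ≠ y) {g g' : F}
    (hg : g * g = 1) (hg' : g' * g' = 1) (h1 : g • x = y) (h2 : g' • x = y) : g = g' := by
  apply (h x y y x hxy hxy.symm).unique
  · refine ⟨h1, ?_⟩
    rw [← h1, ← mul_smul, hg, one_smul]
  · refine ⟨h2, ?_⟩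
    rw [← h2, ← mul_smul, hg', one_smul]

theorem rsharp_exists_fix [Finite Δ] (hodd : Odd (Nat.card Δ)) {g : F} (hg : g * g = 1) :
    ∃ x : Δ, g • x = x := by
  classical
  haveI : Fintype Δ := Fintype.ofFinite Δ
  have h1 : ¬ 2 ∣ Fintype.card Δ := by
    rw [← Nat.card_eq_fintype_card]
    intro h2
    exact (Nat.not_even_iff_odd.2 hodd) (even_iff_two_dvd.2 h2)
  have h2 : (MulAction.toPerm g : Equiv.Perm Δ) ^ 2 ^ 1 = 1 := by
    ext x
    rw [pow_one, pow_two, Equiv.Perm.mul_apply, MulAction.toPerm_apply, MulAction.toPerm_apply,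
      ← mul_smul, hg, one_smul]
    rfl
  obtain ⟨a, ha⟩ := Equiv.Perm.exists_fixed_point_of_prime (p := 2) (n := 1) h1 h2
  exact ⟨a, ha⟩

open Classical in
theorem rsharp_count [Fintype F] [Fintype Δ] (h : SharpTwo F Δ) (hodd : Odd (Nat.card Δ))
    (h3 : 3 ≤ Nat.card Δ) :
    ((Finset.univ : Finset F).filter (fun u => u ≠ 1 ∧ u * u = 1)).card = Fintype.card Δ := by
  have hr : 3 ≤ Fintype.card Δ := by rwa [Nat.card_eq_fintype_card] at h3
  have hmoved : ∀ u : F, u ≠ 1 ∧ u * u = 1 →
      ((Finset.univ : Finset Δ).filter (fun x => u • x ≠ x)).card = Fintype.card Δ - 1 := by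
    intro u hu
    obtain ⟨p, hp⟩ := rsharp_exists_fix hodd hu.2
    have h1 : (Finset.univ : Finset Δ).filter (fun x => u • x ≠ x) = Finset.univ.erase p := by
      ext x
      rw [Finset.mem_filter, Finset.mem_erase]
      constructor
      · rintro ⟨_, hx⟩
        refine ⟨?_, Finset.mem_univ x⟩
        rintro rfl
        exact hx hp
      · rintro ⟨hx, _⟩
        refine ⟨Finset.mem_univ x, ?_⟩
        intro hux
        exact hu.1 (rsharp_fix h hx hux hp)
    rw [h1, Finset.card_erase_of_mem (Finset.mem_univ p), Finset.card_univ]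
  have hS : (((Finset.univ : Finset F).filter (fun u => u ≠ 1 ∧ u * u = 1)).sigma
      (fun u => (Finset.univ : Finset Δ).filter (fun x => u • x ≠ x))).card =
      ((Finset.univ : Finset F).filter (fun u => u ≠ 1 ∧ u * u = 1)).card *
        (Fintype.card Δ - 1) := by
    rw [Finset.card_sigma, Finset.sum_const_nat]
    intro u hu
    exact hmoved u (Finset.mem_filter.1 hu).2
  have hT : (((Finset.univ : Finset F).filter (fun u => u ≠ 1 ∧ u * u = 1)).sigma
      (fun u => (Finset.univ : Finset Δ).filter (fun x => u • x ≠ x))).card =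
      (Finset.univ : Finset Δ).offDiag.card := by
    apply Finset.card_bij (fun p _ => (p.2, p.1 • p.2))
    · rintro ⟨u, x⟩ hp
      rw [Finset.mem_sigma, Finset.mem_filter, Finset.mem_filter] at hp
      rw [Finset.mem_offDiag]
      exact ⟨Finset.mem_univ _, Finset.mem_univ _, fun h' => hp.2.2 h'.symm⟩
    · rintro ⟨u, x⟩ hp ⟨u', x'⟩ hp' he
      rw [Finset.mem_sigma, Finset.mem_filter, Finset.mem_filter] at hp hp'
      simp only [Prod.mk.injEq] at he
      obtain ⟨rfl, he⟩ := he
      have h1 : u = u' := rsharp_swap_unique h (fun h' => hp.2.2 h'.symm) hp.1.2.2 hp'.1.2.2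
        rfl he.symm
      rw [h1]
    · rintro ⟨x, y⟩ hxy
      rw [Finset.mem_offDiag] at hxy
      obtain ⟨g, h1, h2, h4⟩ := rsharp_swap h hxy.2.2
      refine ⟨⟨g, x⟩, ?_, ?_⟩
      · rw [Finset.mem_sigma, Finset.mem_filter, Finset.mem_filter]
        refine ⟨⟨Finset.mem_univ _, h1, h2⟩, Finset.mem_univ _, ?_⟩
        show g • x ≠ x
        rw [h4]
        exact fun h' => hxy.2.2 h'.symm
      · show (x, g • x) = (x, y)
        rw [h4]
  rw [hS, Finset.offDiag_card, Finset.card_univ] at hT
  have h5 : Fintype.card Δ * Fintype.card Δ - Fintype.card Δ =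
      Fintype.card Δ * (Fintype.card Δ - 1) := by
    rw [Nat.mul_sub, Nat.mul_one]
  rw [h5] at hT
  exact Nat.eq_of_mul_eq_mul_right (by omega) hT

/-- Job RSharp-1. In a sharply 2-transitive group of odd degree `≥ 3` every point is fixed by
exactly one involution.

Proof. Write `r = Nat.card Δ`. (i) an element fixing two different points is `1` (uniqueness part
of `h`). (ii) For `x ≠ y` there is a unique `g` with `g x = y`, `g y = x`; `g * g` fixes `x, y` so
`g * g = 1`, and `g ≠ 1`. So each ordered pair `(x, y)`, `x ≠ y`, is swapped by exactly one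
involution (an involution `u` with `u x = y` also has `u y = x`). (iii) An involution `u` has at
most one fixed point by (i); as `r` is odd it has at least one (the number of non-fixed points of
an involution is even; e.g. `Equiv.Perm.card_fixedPoints_modEq` or
`MulAction.card_modEq_card_fixedPoints` for the group `zpowers u` of order 2), so exactly one and
it moves `r - 1` points. (iv) Count pairs `(u, x)` with `u` an involution and `u x ≠ x`: there are
`I * (r - 1)` of them, and they are in bijection with the ordered pairs `(x, y)`, `x ≠ y`, by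
`(u, x) ↦ (x, u x)`; so `I * (r - 1) = r * (r - 1)`, i.e. `I = r`. (v) The map
{involutions} → Δ, `u ↦` its fixed point, is surjective (there is an involution by (ii), it fixes
some point `p`, and conjugates `g u g⁻¹` fix `g p`; `F` is transitive), between finite sets of the
same cardinality, so it is injective. -/
theorem sharp_unique_inv [Finite F] [Finite Δ] (h : SharpTwo F Δ) (hodd : Odd (Nat.card Δ))
    (h3 : 3 ≤ Nat.card Δ) (x : Δ) : ∃! u : F, u ≠ 1 ∧ u * u = 1 ∧ u • x = x := by
  classical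
  haveI : Fintype Δ := Fintype.ofFinite Δ
  haveI : Fintype F := Fintype.ofFinite F
  have hcount := rsharp_count h hodd h3
  have hr : 3 ≤ Fintype.card Δ := by rwa [Nat.card_eq_fintype_card] at h3
  -- the fixed point of an involution
  choose fp hfp using fun u : {u : F // u ≠ 1 ∧ u * u = 1} =>
    rsharp_exists_fix (Δ := Δ) hodd u.2.2
  have hcard : Fintype.card {u : F // u ≠ 1 ∧ u * u = 1} = Fintype.card Δ := by
    rw [← hcount, Fintype.card_subtype]
  have huniq : ∀ (u : {u : F // u ≠ 1 ∧ u * u = 1}) (y : Δ), (u : F) • y = y → y = fp u := by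
    intro u y hy
    by_contra hne
    exact u.2.1 (rsharp_fix h hne hy (hfp u))
  have hsurj : Function.Surjective fp := by
    intro y
    haveI : Nontrivial Δ := Fintype.one_lt_card_iff_nontrivial.1 (by omega)
    obtain ⟨z, hz⟩ := exists_ne y
    obtain ⟨u, hu1, hu2, -⟩ := rsharp_swap h hz
    obtain ⟨p, hp⟩ := rsharp_exists_fix (Δ := Δ) hodd hu2
    obtain ⟨q, hq⟩ := exists_ne p
    obtain ⟨g, ⟨hg, -⟩, -⟩ := h p q y z (Ne.symm hq) (Ne.symm hz)
    have h1 : g * u * g⁻¹ ≠ 1 := by
      intro h2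
      apply hu1
      rwa [mul_inv_eq_one, mul_eq_left] at h2
    have h2 : (g * u * g⁻¹) * (g * u * g⁻¹) = 1 := by
      calc (g * u * g⁻¹) * (g * u * g⁻¹) = g * (u * u) * g⁻¹ := by group
        _ = 1 := by rw [hu2, mul_one, mul_inv_cancel]
    refine ⟨⟨g * u * g⁻¹, h1, h2⟩, ?_⟩
    symm
    apply huniq
    show (g * u * g⁻¹) • y = y
    rw [mul_smul, mul_smul, ← hg, inv_smul_smul, hp]
  have hbij : Function.Bijective fp :=
    (Fintype.bijective_iff_surjective_and_card fp).2 ⟨hsurj, hcard⟩
  obtain ⟨u, hu⟩ := hbij.2 x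
  refine ⟨(u : F), ⟨u.2.1, u.2.2, ?_⟩, ?_⟩
  · rw [← hu]
    exact hfp u
  · rintro v ⟨hv1, hv2, hv3⟩
    have h1 : fp ⟨v, hv1, hv2⟩ = fp u := by
      rw [hu]
      exact (huniq ⟨v, hv1, hv2⟩ x hv3).symm
    exact congrArg Subtype.val (hbij.1 h1)

end Pool.Agent.H.MP_6268b4_co
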