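import Pool.Agent.H.MP_6268b4_co.F4Om2
import Pool.Agent.H.MP_6268b4_co.RSharp

/-!
The case where the stabilizer of two points has a third fixed point.
-/

namespace Pool.Agent.H.MP_6268b4_co

variable {Λ : Type*} {X Y : Subgroup (Equiv.Perm Λ)}

/-- an involution of `X` does not fix two points -/
theorem f4om4_ne (h : OHyp X Y) {x y : Λ} (hxy : x ≠ y) {t : Equiv.Perm Λ} (ht : t ∈ X)
    (ht1 : t ≠ 1) (htt : t * t = 1) (hx : t x = x) : t y ≠ y := by
  intro hy
  have h1 := h.odd x y t ht hxy hx hy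
  have h2 : orderOf t = 2 := orderOf_eq_prime (by rw [sq]; exact htt) ht1
  rw [h2] at h1
  exact absurd h1 (by decide)

/-- generators of two-point stabilizers have orders dividing each other -/
theorem f4om4_dvd (h : OHyp X Y) {x y x' y' : Λ} (hxy : x ≠ y) (hxy' : x' ≠ y')
    {s s' : Equiv.Perm Λ} (hs : s ∈ X) (hsx : s x = x) (hsy : s y = y)
    (hgen' : ∀ g ∈ X, g x' = x' → g y' = y' → g ∈ Subgroup.zpowers s') :
    orderOf s ∣ orderOf s' := by
  obtain ⟨p, hp, hpx, hpy⟩ := h.two x y x' y' hxy hxy'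
  have hpx' : p⁻¹ x' = x := by rw [← hpx]; simp
  have hpy' : p⁻¹ y' = y := by rw [← hpy]; simp
  have h1 : p * s * p⁻¹ ∈ Subgroup.zpowers s' := by
    refine hgen' _ (X.mul_mem (X.mul_mem hp hs) (X.inv_mem hp)) ?_ ?_
    · simp only [Equiv.Perm.mul_apply]
      rw [hpx', hsx, hpx]
    · simp only [Equiv.Perm.mul_apply]
      rw [hpy', hsy, hpy]
  have h2 : orderOf (p * s * p⁻¹) = orderOf s := by
    have := orderOf_injective (MulAut.conj p).toMonoidHom (MulAut.conj p).injective s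
    simpa using this
  rw [← h2]
  exact orderOf_dvd_of_mem_zpowers h1

/-- If the generator `s` of the stabilizer of `x ≠ y` fixes `a ≠ b` then it generates the stabilizer
of `a, b`. -/
theorem f4om4_gen [Finite Λ] (h : OHyp X Y) {x y : Λ} (hxy : x ≠ y) {s : Equiv.Perm Λ}
    (hs : s ∈ X) (hsx : s x = x) (hsy : s y = y)
    (hgen : ∀ g ∈ X, g x = x → g y = y → g ∈ Subgroup.zpowers s) {a b : Λ} (hab : a ≠ b)
    (hsa : s a = a) (hsb : s b = b) :
    ∀ g ∈ X, g a = a → g b = b → g ∈ Subgroup.zpowers s := by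
  intro g hg hga hgb
  obtain ⟨s', hs', hsa', hsb', hgen'⟩ := h.cyc a b hab
  have h1 : orderOf s = orderOf s' := Nat.dvd_antisymm
    (f4om4_dvd h hxy hab hs hsx hsy hgen')
    (f4om4_dvd h hab hxy hs' hsa' hsb' hgen)
  have h2 : s' ∈ Subgroup.zpowers s := om_mem h hab hs hsa hsb hs' hsa' hsb' h1
  exact (Subgroup.zpowers_le.2 h2) (hgen' g hg hga hgb)

theorem f4om4_fix {s g : Equiv.Perm Λ} (hg : g ∈ Subgroup.zpowers s) {u : Λ} (hu : s u = u) :
    g u = u := by
  obtain ⟨n, rfl⟩ := Subgroup.mem_zpowers_iff.1 hg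
  exact Equiv.Perm.zpow_apply_eq_self_of_apply_eq_self hu n

theorem f4om4_three [Finite Λ] {s : Equiv.Perm Λ} {x y z : Λ} (hxy : x ≠ y) (hzx : z ≠ x)
    (hzy : z ≠ y) (hx : s x = x) (hy : s y = y) (hz : s z = z) :
    3 ≤ Nat.card {u : Λ // s u = u} := by
  classical
  have : Fintype {u : Λ // s u = u} := Fintype.ofFinite _
  rw [Nat.card_eq_fintype_card]
  have h1 : ({⟨x, hx⟩, ⟨y, hy⟩, ⟨z, hz⟩} : Finset {u : Λ // s u = u}).card = 3 := by
    rw [Finset.card_eq_three]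
    refine ⟨⟨x, hx⟩, ⟨y, hy⟩, ⟨z, hz⟩, ?_, ?_, ?_, rfl⟩
    · intro h0; exact hxy (congrArg Subtype.val h0)
    · intro h0; exact hzx (congrArg Subtype.val h0).symm
    · intro h0; exact hzy (congrArg Subtype.val h0).symm
  rw [← h1]
  exact Finset.card_le_univ _

/-- Job F4Om4-1. Let `s` generate the stabilizer of `x ≠ y` in `X`, and suppose that `s` has a third
fixed point. Then the set `Δ` of fixed points of `s` has odd size and for `c ∈ Δ` two involutions
`t, t' ∈ X` with `t c = c`, `t' c = c` which normalize `zpowers s` agree on `Δ`.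

Proof. Take `X', Y'` as in `om_restrict` for `k = s`. `3 ≤ Nat.card Δ`. By `om_Y` for `X', Y'` the size of
`Δ` is odd. `X'` is sharply 2-transitive on `Δ`: transitive on pairs by `two`; if `g' ∈ X'` fixes
`a ≠ b` in `Δ`, lift it to `g ∈ X` with `g a = a`, `g b = b`. There is `p ∈ X` with `p x = a`, `p y = b`,
so the stabilizer of `a, b` in `X` is generated by `p * s * p⁻¹`, an element of the same order as `s`
which also fixes `a, b`; so `p * s * p⁻¹ ∈ zpowers s` (`om_mem`), hence `g ∈ zpowers s` and `g` acts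
trivially on `Δ`; `g' = 1`. The restrictions of `t` and `t'` to `Δ` are in `X'` (last part of
`om_restrict`; `t * s * t⁻¹ ∈ zpowers s`); if `t` were trivial on `Δ` it would fix two points, so the
order of `t` would be odd (`odd`), but `t` has order 2; so both restrictions are involutions fixing
`c`, and they are equal by `sharp_unique_inv` (for the group `X'` acting on `Δ`; the action of
a subgroup of `Equiv.Perm Δ` on `Δ` is `g • u = g u`). -/
theorem om_line [Finite Λ] (h : OHyp X Y) {x y : Λ} (hxy : x ≠ y) {s : Equiv.Perm Λ}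
    (hs : s ∈ X) (hsx : s x = x) (hsy : s y = y)
    (hgen : ∀ g ∈ X, g x = x → g y = y → g ∈ Subgroup.zpowers s)
    (hthird : ∃ z : Λ, z ≠ x ∧ z ≠ y ∧ s z = z) :
    Odd (Nat.card {u : Λ // s u = u}) ∧
    ∀ t ∈ X, ∀ t' ∈ X, t ≠ 1 → t * t = 1 → t' ≠ 1 → t' * t' = 1 →
      t * s * t⁻¹ ∈ Subgroup.zpowers s → t' * s * t'⁻¹ ∈ Subgroup.zpowers s →
      ∀ c : Λ, s c = c → t c = c → t' c = c → ∀ u : Λ, s u = u → t u = t' u := by
  obtain ⟨z, hzx, hzy, hsz⟩ := hthird
  have h3 := f4om4_three hxy hzx hzy hsx hsy hsz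
  obtain ⟨X', Y', hO, hlift, hres⟩ := om_restrict h hs hxy hsx hsy
  have hodd := (om_Y hO h3).2.2
  refine ⟨hodd, ?_⟩
  -- only the identity of `X'` fixes two points
  have htriv : ∀ g' ∈ X', ∀ a b : {u : Λ // s u = u}, a ≠ b → g' a = a → g' b = b → g' = 1 := by
    intro g' hg' a b hab hga hgb
    obtain ⟨g, hg, hgu⟩ := hlift g' hg'
    have hab' : (a : Λ) ≠ b := fun h0 => hab (Subtype.ext h0)
    have h1 : g a = a := by rw [← hgu a, hga]
    have h2 : g b = b := by rw [← hgu b, hgb]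
    have h4 := f4om4_gen h hxy hs hsx hsy hgen hab' a.2 b.2 g hg h1 h2
    refine Equiv.ext (fun u => Subtype.ext ?_)
    rw [hgu u, f4om4_fix h4 u.2]
    rfl
  have hsharp : SharpTwo X' {u : Λ // s u = u} := by
    intro a b a' b' hab hab'
    obtain ⟨g', hg', hga, hgb⟩ := hO.two a b a' b' hab hab'
    refine ⟨⟨g', hg'⟩, ⟨hga, hgb⟩, ?_⟩
    rintro ⟨k', hk'⟩ ⟨hka, hkb⟩
    have hka' : k' a = a' := hka
    have hkb' : k' b = b' := hkb
    have h1 : g'⁻¹ * k' = 1 := by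
      refine htriv _ (X'.mul_mem (X'.inv_mem hg') hk') a b hab ?_ ?_
      · rw [Equiv.Perm.mul_apply, hka', ← hga]; simp
      · rw [Equiv.Perm.mul_apply, hkb', ← hgb]; simp
    apply Subtype.ext
    exact (inv_mul_eq_one.1 h1).symm
  intro t ht t' ht' ht1 htt ht1' htt' hts hts' c hc htc htc' u hu
  obtain ⟨τ, hτ, hτu⟩ := hres t ht hts
  obtain ⟨τ', hτ', hτu'⟩ := hres t' ht' hts'
  have haux : ∀ (r : Equiv.Perm Λ) (ρ : Equiv.Perm {u : Λ // s u = u}), r ∈ X → r ≠ 1 →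
      r * r = 1 → r c = c → (∀ u, ((ρ u : {u : Λ // s u = u}) : Λ) = r u) →
      ρ ≠ 1 ∧ ρ * ρ = 1 ∧ ρ ⟨c, hc⟩ = ⟨c, hc⟩ := by
    intro r ρ hr hr1 hrr hrc hρ
    refine ⟨?_, ?_, ?_⟩
    · rintro rfl
      have h1 : r x = x := by
        have := hρ ⟨x, hsx⟩
        exact this.symm
      have h2 : r y = y := by
        have := hρ ⟨y, hsy⟩
        exact this.symm
      exact f4om4_ne h hxy hr hr1 hrr h1 h2
    · refine Equiv.ext (fun u => Subtype.ext ?_)
      rw [Equiv.Perm.mul_apply, hρ, hρ, ← Equiv.Perm.mul_apply, hrr]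
      rfl
    · exact Subtype.ext ((hρ ⟨c, hc⟩).trans hrc)
  obtain ⟨a1, a2, a3⟩ := haux t τ ht ht1 htt htc hτu
  obtain ⟨b1, b2, b3⟩ := haux t' τ' ht' ht1' htt' htc' hτu'
  have huniq := sharp_unique_inv hsharp hodd h3 ⟨c, hc⟩
  have heq : (⟨τ, hτ⟩ : X') = ⟨τ', hτ'⟩ := by
    refine huniq.unique ⟨?_, ?_, a3⟩ ⟨?_, ?_, b3⟩
    · intro h0; exact a1 (congrArg Subtype.val h0)
    · exact Subtype.ext a2
    · intro h0; exact b1 (congrArg Subtype.val h0)
    · exact Subtype.ext b2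
  have heq' : τ = τ' := congrArg Subtype.val heq
  rw [← hτu ⟨u, hu⟩, heq', hτu' ⟨u, hu⟩]

/-- Step (1): the generator of the stabilizer of `x, t x` fixes the fixed point of `t`. -/
theorem f4om4_step1 [Finite Λ] (h : OHyp X Y) (h3 : 3 ≤ Nat.card Λ)
    (hline : ∀ x y : Λ, x ≠ y → ∃ z : Λ, z ≠ x ∧ z ≠ y ∧ ∀ g ∈ X, g x = x → g y = y → g z = z)
    {t : Equiv.Perm Λ} (ht : t ∈ X) (ht1 : t ≠ 1) (htt : t * t = 1) {c x : Λ} (htc : t c = c)
    (hxc : x ≠ c) {s : Equiv.Perm Λ} (hs : s ∈ X) (hsx : s x = x) (hsy : s (t x) = t x)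
    (hgen : ∀ g ∈ X, g x = x → g (t x) = t x → g ∈ Subgroup.zpowers s) : s c = c := by
  classical
  have hxy : x ≠ t x := fun h0 => f4om4_ne h hxc.symm ht ht1 htt htc h0.symm
  have hty : t (t x) = x := by
    rw [← Equiv.Perm.mul_apply, htt]; rfl
  have hinv := om_inv h hxy ht rfl hty hs hsx hsy
  obtain ⟨z, hzx, hzy, hz⟩ := hline x (t x) hxy
  have hodd := (om_line h hxy hs hsx hsy hgen ⟨z, hzx, hzy, hz s hs hsx hsy⟩).1
  have hst : s * t = t * s⁻¹ := by
    rw [← hinv, ← mul_assoc, ← mul_assoc, htt, one_mul]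
  have hpres : ∀ u, s u = u → s (t u) = t u := by
    intro u hu
    have hu' : s⁻¹ u = u := by
      conv_lhs => rw [← hu]
      simp
    rw [← Equiv.Perm.mul_apply, hst, Equiv.Perm.mul_apply, hu']
  have hiff : ∀ u, s (t u) = t u ↔ s u = u := by
    intro u
    refine ⟨fun h0 => ?_, hpres u⟩
    have h1 := hpres (t u) h0
    have h2 : t (t u) = u := by rw [← Equiv.Perm.mul_apply, htt]; rfl
    rwa [h2] at h1
  have : Fintype {u : Λ // s u = u} := Fintype.ofFinite _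
  have hτ : (t.subtypePerm hiff : Equiv.Perm {u : Λ // s u = u}) ^ 2 ^ 1 = 1 := by
    refine Equiv.ext (fun u => Subtype.ext ?_)
    rw [pow_one, sq, Equiv.Perm.mul_apply]
    change t (t (u : Λ)) = u
    rw [← Equiv.Perm.mul_apply, htt]
    rfl
  have hnd : ¬ 2 ∣ Fintype.card {u : Λ // s u = u} := by
    rw [← Nat.card_eq_fintype_card]
    exact fun h0 => (Nat.not_even_iff_odd.2 hodd) (even_iff_two_dvd.2 h0)
  obtain ⟨u, hu⟩ := Equiv.Perm.exists_fixed_point_of_prime hnd hτ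
  have hu' : t (u : Λ) = u := congrArg Subtype.val hu
  have huc : (u : Λ) = c := (om_fix h h3 ht ht1 htt).unique hu' htc
  rw [← huc]
  exact u.2

/-- Step (2): involutions with the same fixed point are equal. -/
theorem f4om4_step2 [Finite Λ] (h : OHyp X Y) (h3 : 3 ≤ Nat.card Λ)
    (hline : ∀ x y : Λ, x ≠ y → ∃ z : Λ, z ≠ x ∧ z ≠ y ∧ ∀ g ∈ X, g x = x → g y = y → g z = z)
    {t t' : Equiv.Perm Λ} (ht : t ∈ X) (ht1 : t ≠ 1) (htt : t * t = 1) (ht' : t' ∈ X)
    (ht1' : t' ≠ 1) (htt' : t' * t' = 1) {c : Λ} (htc : t c = c) (htc' : t' c = c) : t = t' := by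
  have key : ∀ r ∈ X, r ≠ 1 → r * r = 1 → r c = c → ∀ x, x ≠ c → ∀ s ∈ X, s x = x → s c = c →
      (∀ g ∈ X, g x = x → g c = c → g ∈ Subgroup.zpowers s) →
      r * s * r⁻¹ ∈ Subgroup.zpowers s := by
    intro r hr hr1 hrr hrc x hxc s hs hsx hsc hgen
    have hxy : x ≠ r x := fun h0 => f4om4_ne h hxc.symm hr hr1 hrr hrc h0.symm
    have hry : r (r x) = x := by rw [← Equiv.Perm.mul_apply, hrr]; rfl
    obtain ⟨s1, hs1, hs1x, hs1y, hgen1⟩ := h.cyc x (r x) hxy
    have hs1c : s1 c = c := f4om4_step1 h h3 hline hr hr1 hrr hrc hxc hs1 hs1x hs1y hgen1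
    have hinv := om_inv h hxy hr rfl hry hs1 hs1x hs1y
    have h1 : s1 ∈ Subgroup.zpowers s := hgen s1 hs1 hs1x hs1c
    have h2 : s ∈ Subgroup.zpowers s1 :=
      f4om4_gen h hxy hs1 hs1x hs1y hgen1 hxc hs1x hs1c s hs hsx hsc
    have hr' : r⁻¹ = r := inv_eq_of_mul_eq_one_left hrr
    obtain ⟨n, hn⟩ := Subgroup.mem_zpowers_iff.1 h2
    have h3' : r * s * r⁻¹ = (s1⁻¹) ^ n := by
      rw [← hn, ← conj_zpow, hr', hinv]
    rw [h3']
    exact (Subgroup.zpowers s).zpow_mem ((Subgroup.zpowers s).inv_mem h1) n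
  refine Equiv.ext (fun x => ?_)
  by_cases hxc : x = c
  · rw [hxc, htc, htc']
  · obtain ⟨s, hs, hsx, hsc, hgen⟩ := h.cyc x c hxc
    obtain ⟨z, hzx, hzc, hz⟩ := hline x c hxc
    exact (om_line h hxc hs hsx hsc hgen ⟨z, hzx, hzc, hz s hs hsx hsc⟩).2 t ht t' ht' ht1 htt ht1'
      htt' (key t ht ht1 htt htc x hxc s hs hsx hsc hgen)
      (key t' ht' ht1' htt' htc' x hxc s hs hsx hsc hgen) c hsc htc htc' x hsx

/-- Job F4Om4-2. If the stabilizer of two points always has a third fixed point then it is trivial.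

Proof. For `x ≠ y` let `s_{xy}` be a generator of the stabilizer `X_{xy}` (`cyc`); all `s_{xy}` have the
same order (conjugation), so if `s_{xy}` fixes `c ≠ x` then `zpowers s_{xy} = zpowers s_{xc}` (`om_mem`).
(1) Let `t ∈ X` be an involution, `c` its fixed point (`om_fix`; `3 ≤ Nat.card Λ` follows from `hline`
or from `h3`), `x ≠ c`, `y = t x ≠ x`. `t` interchanges `x, y`, so it inverts `s = s_{xy}` (`om_inv`). The
set `Δ` of fixed points of `s` has odd size (`om_line`) and is preserved by `t` (`s (t u) = t (s⁻¹ u)`), so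
`t` has a fixed point in `Δ`: `s c = c`. (2) Let `t, t' ∈ X` be involutions with the same fixed
point `c`. Then `t = t'`: for `x = c` clear; for `x ≠ c` by (1) `s_{x,tx}` and `s_{x,t'x}` fix `c`, so both
generate the same subgroup as `s = s_{xc}`; `t` and `t'` normalize it; `t x = t' x` by `om_line` for
the pair `x, c` (`t` fixes `c`; `s x = x`). (3) Let `g ∈ X` fix `x ≠ y`, and let `t ∈ X` interchange `x`
and `y` (`two`); `t` is an involution (`swap`), as well as `t * g`, which also interchanges them. Let `c`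
be the fixed point of `t`; by (1) `s_{xy} c = c`, so `g c = c` (`g ∈ zpowers s_{xy}`) and
`(t * g) c = c`. By (2) `t * g = t`, `g = 1`. -/
theorem om_caseB [Finite Λ] (h : OHyp X Y) (h3 : 3 ≤ Nat.card Λ)
    (hline : ∀ x y : Λ, x ≠ y → ∃ z : Λ, z ≠ x ∧ z ≠ y ∧ ∀ g ∈ X, g x = x → g y = y → g z = z) :
    ∀ g ∈ X, ∀ x y : Λ, x ≠ y → g x = x → g y = y → g = 1 := by
  intro g hg x y hxy hgx hgy
  obtain ⟨t, ht, htx, hty⟩ := h.two x y y x hxy hxy.symm
  have htt : t * t = 1 := h.swap x y t ht hxy htx hty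
  have ht1 : t ≠ 1 := by
    rintro rfl
    exact hxy htx
  have htg : t * g ∈ X := X.mul_mem ht hg
  have htgx : (t * g) x = y := by rw [Equiv.Perm.mul_apply, hgx, htx]
  have htgy : (t * g) y = x := by rw [Equiv.Perm.mul_apply, hgy, hty]
  have htgg : (t * g) * (t * g) = 1 := h.swap x y _ htg hxy htgx htgy
  have htg1 : t * g ≠ 1 := by
    intro h0
    rw [h0] at htgx
    exact hxy htgx
  obtain ⟨c, hc, -⟩ := om_fix h h3 ht ht1 htt
  have hxc : x ≠ c := by
    rintro rfl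
    exact hxy (hc.symm.trans htx)
  obtain ⟨s, hs, hsx, hsy, hgen⟩ := h.cyc x y hxy
  have hsc : s c = c := by
    refine f4om4_step1 h h3 hline ht ht1 htt hc hxc hs hsx ?_ ?_
    · rw [htx, hsy]
    · rw [htx]; exact hgen
  have hgc : g c = c := f4om4_fix (hgen g hg hgx hgy) hsc
  have htgc : (t * g) c = c := by rw [Equiv.Perm.mul_apply, hgc, hc]
  have heq : t * g = t := f4om4_step2 h h3 hline htg htg1 htgg ht ht1 htt htgc hc
  simpa using heq

end Pool.Agent.H.MP_6268b4_co
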