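import Pool.Agent.H.MP_6268b4_co.F4Om3
import Pool.Agent.H.MP_6268b4_co.F4Om4

/-!
A 2-transitive group with cyclic two-point stabilizers of odd order, inverted by the elements
interchanging the two points, with a normal subgroup of odd order with abelian quotient, is sharply
2-transitive.
-/

namespace Pool.Agent.H.MP_6268b4_co

/-- Job F4Om5.

Proof. Strong induction on `N`. If only the identity of `X` fixes three points use `om_caseA`.
Otherwise there are `g₀ ∈ X`, `g₀ ≠ 1`, and three different points `a, b, c` fixed by `g₀`. Take `X', Y'`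
from `om_restrict` for `k = g₀` and `Δ = {u | g₀ u = u}`: `3 ≤ Nat.card Δ < N` (`g₀ ≠ 1`). By induction
only the identity of `X'` fixes two points of `Δ`. So every `g ∈ X` with `g a = a`, `g b = b` fixes `c`:
`g` commutes with `g₀` (both are powers of the generator of the stabilizer of `a, b`, `cyc`), so
its restriction `g'` to `Δ` is in `X'` and fixes `a, b`, so `g' = 1`, `g c = c`. For any `x ≠ y` take
`p ∈ X` with `p a = x`, `p b = y`; then `z = p c` is different from `x, y` and fixed by all `g ∈ X` fixing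
`x` and `y` (`p⁻¹ * g * p` fixes `a, b`). Use `om_caseB`. -/
theorem om_omega : ∀ (N : ℕ) (Λ : Type*) [Finite Λ] (X Y : Subgroup (Equiv.Perm Λ)),
    Nat.card Λ = N → 3 ≤ N → OHyp X Y →
    ∀ g ∈ X, ∀ x y : Λ, x ≠ y → g x = x → g y = y → g = 1 := by
  intro N
  induction N using Nat.strong_induction_on with
  | _ N ih =>
  intro Λ _ X Y hN h3 h
  by_cases hfix : ∀ g ∈ X, ∀ x y z : Λ, x ≠ y → x ≠ z → y ≠ z → g x = x → g y = y →
      g z = z → g = 1
  · exact om_caseA h (by omega) hfix
  push Not at hfix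
  obtain ⟨g₀, hg₀, a, b, c, hab, hac, hbc, ha, hb, hc, hne⟩ := hfix
  obtain ⟨X', Y', h', hX1, hX2⟩ := om_restrict h hg₀ hab ha hb
  have hlt : Nat.card {u : Λ // g₀ u = u} < N := by
    rw [← hN]
    have hex : ∃ u, ¬ (g₀ u = u) := by
      by_contra hcon
      push Not at hcon
      exact hne (Equiv.ext hcon)
    obtain ⟨u, hu⟩ := hex
    exact Finite.card_subtype_lt hu
  have h3' : 3 ≤ Nat.card {u : Λ // g₀ u = u} := by
    classical
    have := Fintype.ofFinite {u : Λ // g₀ u = u}
    have h3c : ({⟨a, ha⟩, ⟨b, hb⟩, ⟨c, hc⟩} : Finset {u : Λ // g₀ u = u}).card = 3 := by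
      rw [Finset.card_eq_three]
      refine ⟨⟨a, ha⟩, ⟨b, hb⟩, ⟨c, hc⟩, ?_, ?_, ?_, rfl⟩
      · exact fun hcon => hab (congrArg Subtype.val hcon)
      · exact fun hcon => hac (congrArg Subtype.val hcon)
      · exact fun hcon => hbc (congrArg Subtype.val hcon)
    rw [Nat.card_eq_fintype_card, ← h3c]
    exact Finset.card_le_univ _
  have key : ∀ g ∈ X, g a = a → g b = b → g c = c := by
    intro g hg hga hgb
    obtain ⟨s, hs, hsa, hsb, hgen⟩ := h.cyc a b hab
    obtain ⟨i, hi⟩ := Subgroup.mem_zpowers_iff.1 (hgen g hg hga hgb)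
    obtain ⟨k, hk⟩ := Subgroup.mem_zpowers_iff.1 (hgen g₀ hg₀ ha hb)
    have hcomm : g * g₀ * g⁻¹ = g₀ := by
      rw [← hi, ← hk, ← zpow_add, ← zpow_neg, ← zpow_add]
      congr 1
      ring
    obtain ⟨g', hg', hgg'⟩ := hX2 g hg (by rw [hcomm]; exact Subgroup.mem_zpowers g₀)
    have h1 : g' = 1 := by
      refine ih _ hlt _ X' Y' rfl h3' h' g' hg' ⟨a, ha⟩ ⟨b, hb⟩ ?_ ?_ ?_
      · intro hcon
        exact hab (congrArg Subtype.val hcon)
      · apply Subtype.ext
        rw [hgg']
        exact hga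
      · apply Subtype.ext
        rw [hgg']
        exact hgb
    have h2 := hgg' ⟨c, hc⟩
    rw [h1] at h2
    simpa using h2.symm
  refine om_caseB h (by omega) ?_
  intro x y hxy
  obtain ⟨p, hp, hpa, hpb⟩ := h.two a b x y hab hxy
  refine ⟨p c, ?_, ?_, ?_⟩
  · rw [← hpa]
    intro hcon
    exact hac (p.injective hcon).symm
  · rw [← hpb]
    intro hcon
    exact hbc (p.injective hcon).symm
  · intro g hg hgx hgy
    have hmem : p⁻¹ * g * p ∈ X := X.mul_mem (X.mul_mem (X.inv_mem hp) hg) hp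
    have h4 := key (p⁻¹ * g * p) hmem (by
      rw [Equiv.Perm.mul_apply, Equiv.Perm.mul_apply, hpa, hgx, ← hpa]
      exact Equiv.symm_apply_apply p a) (by
      rw [Equiv.Perm.mul_apply, Equiv.Perm.mul_apply, hpb, hgy, ← hpb]
      exact Equiv.symm_apply_apply p b)
    rw [Equiv.Perm.mul_apply, Equiv.Perm.mul_apply] at h4
    have h5 : p (p⁻¹ (g (p c))) = g (p c) := Equiv.apply_symm_apply p _
    rw [h4] at h5
    exact h5.symm

end Pool.Agent.H.MP_6268b4_co
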