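import Pool.Agent.H.MP_6268b4_co.F4XDefs

/-!
The exceptional polytope: graded, diamond condition.
-/

namespace Pool.Agent.H.MP_6268b4_co

/-- Job F4X1-1. Facts about `syn`, all by `decide`. -/
theorem syn_facts :
    (∀ y a, syn y (syn y a) = a) ∧ (∀ y a, syn y a ≠ a) ∧
    (∀ a b, a ≠ b → ∃ y, syn y a = b) ∧ (∀ a x y, syn x a = syn y a → x = y) := by
  refine ⟨?_, ?_, ?_, ?_⟩ <;> decide

theorem f4x1_symm (y : Fin 5) (a b : Fin 6) : syn y a = b ↔ syn y b = a := by
  constructor
  · rintro rfl
    exact syn_facts.1 y a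
  · rintro rfl
    exact syn_facts.1 y b

/-- a pair of different points -/
def f4x1_pair (a b : Fin 6) (h : a ≠ b) : {s : Finset (Fin 6) // s.card = 2} :=
  ⟨{a, b}, Finset.card_pair h⟩

/-- a triple of different points -/
def f4x1_trip (a b c : Fin 6) (hab : a ≠ b) (hac : a ≠ c) (hbc : b ≠ c) :
    {s : Finset (Fin 6) // s.card = 3} :=
  ⟨{a, b, c}, Finset.card_eq_three.2 ⟨a, b, c, hab, hac, hbc, rfl⟩⟩

theorem f4x1_second {r : Finset (Fin 6)} (hr : r.card = 2) {a : Fin 6} (ha : a ∈ r) :
    ∃ e, a ≠ e ∧ r = {a, e} := by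
  obtain ⟨u, v, huv, rfl⟩ := Finset.card_eq_two.1 hr
  rw [Finset.mem_insert, Finset.mem_singleton] at ha
  rcases ha with rfl | rfl
  · exact ⟨v, huv, rfl⟩
  · exact ⟨u, huv.symm, Finset.pair_comm _ _⟩

theorem f4x1_third {r : Finset (Fin 6)} (hr : r.card = 3) {a b : Fin 6} (ha : a ∈ r) (hb : b ∈ r)
    (hab : a ≠ b) : ∃ e, a ≠ e ∧ b ≠ e ∧ r = {a, b, e} := by
  have h1 : (r.erase a).card = 2 := by rw [Finset.card_erase_of_mem ha, hr]
  obtain ⟨e, hbe, h2⟩ := f4x1_second h1 (Finset.mem_erase.2 ⟨hab.symm, hb⟩)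
  have he : e ∈ r.erase a := by rw [h2]; simp
  refine ⟨e, (Finset.ne_of_mem_erase he).symm, hbe, ?_⟩
  rw [← Finset.insert_erase ha, h2]

theorem f4x1_triple {r : Finset (Fin 6)} (hr : r.card = 3) {a : Fin 6} (ha : a ∈ r) :
    ∃ b c, a ≠ b ∧ a ≠ c ∧ b ≠ c ∧ r = {a, b, c} := by
  have h1 : (r.erase a).card = 2 := by rw [Finset.card_erase_of_mem ha, hr]
  obtain ⟨b, c, hbc, h2⟩ := Finset.card_eq_two.1 h1
  have hb : b ∈ r.erase a := by rw [h2]; simp
  have hc : c ∈ r.erase a := by rw [h2]; simp
  refine ⟨b, c, (Finset.ne_of_mem_erase hb).symm, (Finset.ne_of_mem_erase hc).symm, hbc, ?_⟩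
  rw [← Finset.insert_erase ha, h2]

theorem f4x1_ex1 : ∀ (y : Fin 5) (a : Fin 6), ∃ b, a ≠ b ∧ syn y a ≠ b := by decide

theorem f4x1_ex2 : ∀ (y : Fin 5) (a b : Fin 6), a ≠ b → syn y a ≠ b →
    ∃ c d : Fin 6, c ≠ d ∧ ∀ e : Fin 6, (a ≠ e ∧ b ≠ e ∧ syn y a ≠ e ∧ syn y b ≠ e) ↔
      (e = c ∨ e = d) := by decide +kernel

theorem f4x1_ex3 : ∀ (a b c : Fin 6), a ≠ b → a ≠ c → b ≠ c →
    ∃ x y : Fin 5, x ≠ y ∧ ∀ z : Fin 5, (syn z a ≠ b ∧ syn z a ≠ c ∧ syn z b ≠ c) ↔
      (z = x ∨ z = y) := by decide +kernel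

theorem f4x1_ex4 : ∀ a : Fin 6, ∃ b, a ≠ b := by decide

theorem f4x1_ex5 : ∀ a b : Fin 6, ∃ c, a ≠ c ∧ b ≠ c := by decide

namespace X6

/-- Job F4X1-2. The strict order. Proof: unfold, cases. -/
theorem lt_def (x y : X6) : x < y ↔ le x y ∧ x ≠ y := by
  exact lt_iff_le_and_ne

theorem rk_lt (x y : X6) (h : x < y) : rk x < rk y := by
  rw [lt_def] at h
  cases x <;> cases y <;> simp_all [le, rk]

/-- Job F4X1-3. A pair `{a, b}`, `a ≠ b`, is on the facet `y` iff `syn y a ≠ b`; a triple `{a, b, c}` iff
`syn y a ≠ b`, `syn y a ≠ c`, `syn y b ≠ c` (`syn y` is an involution without fixed points). -/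
theorem edge_facet {a b : Fin 6} (s : {s : Finset (Fin 6) // s.card = 2})
    (hs : s.1 = {a, b}) (y : Fin 5) : edge s < facet y ↔ syn y a ≠ b := by
  rw [lt_def]
  have h1 : le (edge s) (facet y) ↔ ∀ x ∈ s.1, syn y x ∉ s.1 := Iff.rfl
  rw [h1, hs]
  simp only [Finset.mem_insert, Finset.mem_singleton, forall_eq_or_imp, forall_eq, not_or]
  have ha := syn_facts.2.1 y a
  have hb := syn_facts.2.1 y b
  have h2 := f4x1_symm y b a
  constructor
  · rintro ⟨⟨h3, -⟩, -⟩
    exact h3.2
  · intro h3
    exact ⟨⟨⟨ha, h3⟩, ⟨fun h4 => h3 (h2.1 h4), hb⟩⟩, by simp⟩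

theorem face_facet {a b c : Fin 6} (s : {s : Finset (Fin 6) // s.card = 3})
    (hs : s.1 = {a, b, c}) (y : Fin 5) :
    face s < facet y ↔ syn y a ≠ b ∧ syn y a ≠ c ∧ syn y b ≠ c := by
  rw [lt_def]
  have h1 : le (face s) (facet y) ↔ ∀ x ∈ s.1, syn y x ∉ s.1 := Iff.rfl
  rw [h1, hs]
  simp only [Finset.mem_insert, Finset.mem_singleton, forall_eq_or_imp, forall_eq, not_or]
  have ha := syn_facts.2.1 y a
  have hb := syn_facts.2.1 y b
  have hc := syn_facts.2.1 y c
  have h2 := f4x1_symm y b a
  have h3 := f4x1_symm y c a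
  have h4 := f4x1_symm y c b
  constructor
  · rintro ⟨⟨h5, h6, -⟩, -⟩
    exact ⟨h5.2.1, h5.2.2, h6.2.2⟩
  · rintro ⟨h5, h6, h7⟩
    exact ⟨⟨⟨ha, h5, h6⟩, ⟨fun h => h5 (h2.1 h), hb, h7⟩,
      ⟨fun h => h6 (h3.1 h), fun h => h7 (h4.1 h), hc⟩⟩, by simp⟩

theorem f4x1_vert_edge (a : Fin 6) (s : {s : Finset (Fin 6) // s.card = 2}) :
    vert a < edge s ↔ a ∈ s.1 := by
  rw [lt_def]
  simp [le]

theorem f4x1_vert_face (a : Fin 6) (s : {s : Finset (Fin 6) // s.card = 3}) :
    vert a < face s ↔ a ∈ s.1 := by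
  rw [lt_def]
  simp [le]

theorem f4x1_edge_face (s : {s : Finset (Fin 6) // s.card = 2})
    (s' : {s : Finset (Fin 6) // s.card = 3}) : edge s < face s' ↔ s.1 ⊆ s'.1 := by
  rw [lt_def]
  simp [le]

theorem f4x1_vert_facet (a : Fin 6) (y : Fin 5) : vert a < facet y := by
  rw [lt_def]
  simp [le]

theorem f4x1_bot (x : X6) (hx : x ≠ bot) : bot < x := by
  rw [lt_def]
  exact ⟨by cases x <;> simp [le], hx.symm⟩

theorem f4x1_top (x : X6) (hx : x ≠ top) : x < top := by
  rw [lt_def]
  exact ⟨by cases x <;> simp [le], hx⟩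

/-- Job F4X1-4. Proof. `mono`: `rk_lt`. `dense`, by cases on `x < y` with `rk x + 1 < rk y`: between `bot` and
anything of rank at least 1 there is a vertex; between `vert a` and `face s` the edge `{a, b}`, `b ∈ s`;
between `vert a` and `facet y` the edge `{a, b}`, `b ≠ a, syn y a`; between `vert a` and `top` any edge
containing `a`; between `edge {a, b}` and `facet y` the triple `{a, b, c}` with
`c ≠ a, b, syn y a, syn y b` (there are 6 points); between `edge s` and `top` any triple containing `s`;
between `face {a, b, c}` and `top` a facet `y` with `syn y a ≠ b, c`, `syn y b ≠ c` (exactly three of the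
five facets are excluded; by `decide` for all `a, b, c`). -/
theorem graded : Graded4 X6 rk where
  mono := rk_lt
  bot := rfl
  top := rfl
  dense := by
    intro x y hxy hr
    cases x with
    | bot =>
      cases y with
      | bot => simp [rk] at hr
      | vert a => simp [rk] at hr
      | edge s =>
        obtain ⟨a, ha⟩ : s.1.Nonempty := Finset.card_pos.1 (by rw [s.2]; norm_num)
        exact ⟨vert a, f4x1_bot _ (by simp), (f4x1_vert_edge _ _).2 ha⟩
      | face s =>
        obtain ⟨a, ha⟩ : s.1.Nonempty := Finset.card_pos.1 (by rw [s.2]; norm_num)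
        exact ⟨vert a, f4x1_bot _ (by simp), (f4x1_vert_face _ _).2 ha⟩
      | facet y => exact ⟨vert 0, f4x1_bot _ (by simp), f4x1_vert_facet _ _⟩
      | top => exact ⟨vert 0, f4x1_bot _ (by simp), f4x1_top _ (by simp)⟩
    | vert a =>
      cases y with
      | bot => simp [rk] at hr
      | vert a => simp [rk] at hr
      | edge s => simp [rk] at hr
      | face s =>
        have ha := (f4x1_vert_face _ _).1 hxy
        obtain ⟨b, c, hab, hac, hbc, hs⟩ := f4x1_triple s.2 ha
        refine ⟨edge (f4x1_pair a b hab), (f4x1_vert_edge _ _).2 (by simp [f4x1_pair]),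
          (f4x1_edge_face _ _).2 ?_⟩
        rw [hs]
        intro z hz
        have hz' : z ∈ ({a, b} : Finset (Fin 6)) := hz
        simp only [Finset.mem_insert, Finset.mem_singleton] at hz' ⊢
        rcases hz' with h | h
        · exact Or.inl h
        · exact Or.inr (Or.inl h)
      | facet y =>
        obtain ⟨b, hab, hb⟩ := f4x1_ex1 y a
        exact ⟨edge (f4x1_pair a b hab), (f4x1_vert_edge _ _).2 (by simp [f4x1_pair]),
          (edge_facet _ rfl y).2 hb⟩
      | top =>
        obtain ⟨b, hab⟩ := f4x1_ex4 a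
        exact ⟨edge (f4x1_pair a b hab), (f4x1_vert_edge _ _).2 (by simp [f4x1_pair]),
          f4x1_top _ (by simp)⟩
    | edge s =>
      cases y with
      | bot => simp [rk] at hr
      | vert a => simp [rk] at hr
      | edge s => simp [rk] at hr
      | face s => simp [rk] at hr
      | facet y =>
        obtain ⟨a, b, hab, hs⟩ := Finset.card_eq_two.1 s.2
        have h1 := (edge_facet s hs y).1 hxy
        obtain ⟨c, d, -, h2⟩ := f4x1_ex2 y a b hab h1
        obtain ⟨h3, h4, h5, h6⟩ := (h2 c).2 (Or.inl rfl)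
        refine ⟨face (f4x1_trip a b c hab h3 h4), (f4x1_edge_face _ _).2 ?_,
          (face_facet _ rfl y).2 ⟨h1, h5, h6⟩⟩
        rw [hs]
        intro z hz
        change z ∈ ({a, b, c} : Finset (Fin 6))
        simp only [Finset.mem_insert, Finset.mem_singleton] at hz ⊢
        rcases hz with h | h
        · exact Or.inl h
        · exact Or.inr (Or.inl h)
      | top =>
        obtain ⟨a, b, hab, hs⟩ := Finset.card_eq_two.1 s.2
        obtain ⟨c, h3, h4⟩ := f4x1_ex5 a b
        refine ⟨face (f4x1_trip a b c hab h3 h4), (f4x1_edge_face _ _).2 ?_,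
          f4x1_top _ (by simp)⟩
        rw [hs]
        intro z hz
        change z ∈ ({a, b, c} : Finset (Fin 6))
        simp only [Finset.mem_insert, Finset.mem_singleton] at hz ⊢
        rcases hz with h | h
        · exact Or.inl h
        · exact Or.inr (Or.inl h)
    | face s =>
      cases y with
      | bot => simp [rk] at hr
      | vert a => simp [rk] at hr
      | edge s => simp [rk] at hr
      | face s => simp [rk] at hr
      | facet y => simp [rk] at hr
      | top =>
        obtain ⟨a, b, c, hab, hac, hbc, hs⟩ := Finset.card_eq_three.1 s.2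
        obtain ⟨x, y, -, h2⟩ := f4x1_ex3 a b c hab hac hbc
        exact ⟨facet x, (face_facet _ hs x).2 ((h2 x).2 (Or.inl rfl)), f4x1_top _ (by simp)⟩
    | facet w => cases y <;> simp [rk] at hr
    | top => cases y <;> simp [rk] at hr

theorem f4x1_ncard {S : Set X6} {x y : X6} (hxy : x ≠ y) (hx : x ∈ S) (hy : y ∈ S)
    (h : ∀ z ∈ S, z = x ∨ z = y) : S.ncard = 2 := by
  have h1 : S = {x, y} := by
    apply Set.Subset.antisymm
    · intro z hz
      exact h z hz
    · rintro z (rfl | rfl)
      · exact hx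
      · exact hy
  rw [h1]
  exact Set.ncard_pair hxy

/-- Job F4X1-5. Proof. By cases. `(bot, edge {a, b})`: `vert a, vert b`. `(vert a, face {a, b, c})`: the edges
`{a, b}`, `{a, c}`. `(edge {a, b}, facet y)`: the triples `{a, b, c}` for the two
`c ≠ a, b, syn y a, syn y b` (by `decide`: for all `a, b, y` with `a ≠ b`, `syn y a ≠ b` there are `c ≠ d` with
`∀ e, (e ≠ a ∧ e ≠ b ∧ syn y a ≠ e ∧ syn y b ≠ e) ↔ (e = c ∨ e = d)`). `(face {a, b, c}, top)`: the two
facets `y` with `syn y a ≠ b`, `syn y a ≠ c`, `syn y b ≠ c` (by `decide` for all different `a, b, c`). -/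
theorem diamond : Diamond X6 rk := by
  intro F G hFG hr
  cases F with
  | bot =>
    cases G with
    | edge s =>
      obtain ⟨a, b, hab, hs⟩ := Finset.card_eq_two.1 s.2
      refine f4x1_ncard (x := vert a) (y := vert b) (by simpa using hab)
        ⟨f4x1_bot _ (by simp), (f4x1_vert_edge _ _).2 (by rw [hs]; simp)⟩
        ⟨f4x1_bot _ (by simp), (f4x1_vert_edge _ _).2 (by rw [hs]; simp)⟩ ?_
      rintro z ⟨h1, h2⟩
      have h3 := rk_lt _ _ h1
      have h4 := rk_lt _ _ h2
      cases z with
      | vert v =>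
        have h5 := (f4x1_vert_edge _ _).1 h2
        rw [hs, Finset.mem_insert, Finset.mem_singleton] at h5
        rcases h5 with rfl | rfl
        · exact Or.inl rfl
        · exact Or.inr rfl
      | bot => simp [rk] at h3
      | edge r => simp [rk] at h4
      | face r => simp [rk] at h4
      | facet r => simp [rk] at h4
      | top => simp [rk] at h4
    | bot => simp [rk] at hr
    | vert a => simp [rk] at hr
    | face s => simp [rk] at hr
    | facet y => simp [rk] at hr
    | top => simp [rk] at hr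
  | vert a =>
    cases G with
    | face s =>
      have ha := (f4x1_vert_face _ _).1 hFG
      obtain ⟨b, c, hab, hac, hbc, hs⟩ := f4x1_triple s.2 ha
      have hne : edge (f4x1_pair a b hab) ≠ edge (f4x1_pair a c hac) := by
        intro h
        have h1 : ({a, b} : Finset (Fin 6)) = {a, c} := by
          have h2 := edge.inj h
          exact congrArg Subtype.val h2
        have h3 : b ∈ ({a, c} : Finset (Fin 6)) := by rw [← h1]; simp
        rw [Finset.mem_insert, Finset.mem_singleton] at h3
        rcases h3 with h3 | h3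
        · exact hab h3.symm
        · exact hbc h3
      have hsub : ∀ d (had : a ≠ d), d ∈ s.1 → (f4x1_pair a d had).1 ⊆ s.1 := by
        intro d had hd z hz
        have hz' : z ∈ ({a, d} : Finset (Fin 6)) := hz
        rw [Finset.mem_insert, Finset.mem_singleton] at hz'
        rcases hz' with rfl | rfl
        · exact ha
        · exact hd
      refine f4x1_ncard hne
        ⟨(f4x1_vert_edge _ _).2 (by simp [f4x1_pair]),
          (f4x1_edge_face _ _).2 (hsub b hab (by rw [hs]; simp))⟩
        ⟨(f4x1_vert_edge _ _).2 (by simp [f4x1_pair]),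
          (f4x1_edge_face _ _).2 (hsub c hac (by rw [hs]; simp))⟩ ?_
      rintro z ⟨h1, h2⟩
      have h3 := rk_lt _ _ h1
      have h4 := rk_lt _ _ h2
      cases z with
      | edge r =>
        have h5 := (f4x1_vert_edge _ _).1 h1
        have h6 := (f4x1_edge_face _ _).1 h2
        obtain ⟨e, hae, hr'⟩ := f4x1_second r.2 h5
        have h7 : e ∈ s.1 := h6 (by rw [hr']; simp)
        rw [hs] at h7
        simp only [Finset.mem_insert, Finset.mem_singleton] at h7
        rcases h7 with rfl | rfl | rfl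
        · exact absurd rfl hae
        · left
          congr 1
          exact Subtype.ext hr'
        · right
          congr 1
          exact Subtype.ext hr'
      | bot => simp [rk] at h3
      | vert r => simp [rk] at h3
      | face r => simp [rk] at h4
      | facet r => simp [rk] at h4
      | top => simp [rk] at h4
    | bot => simp [rk] at hr
    | vert a => simp [rk] at hr
    | edge s => simp [rk] at hr
    | facet y => simp [rk] at hr
    | top => simp [rk] at hr
  | edge s =>
    cases G with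
    | facet y =>
      obtain ⟨a, b, hab, hs⟩ := Finset.card_eq_two.1 s.2
      have h1 := (edge_facet s hs y).1 hFG
      obtain ⟨c, d, hcd, h2⟩ := f4x1_ex2 y a b hab h1
      obtain ⟨c1, c2, c3, c4⟩ := (h2 c).2 (Or.inl rfl)
      obtain ⟨d1, d2, d3, d4⟩ := (h2 d).2 (Or.inr rfl)
      have hsub : ∀ e (hae : a ≠ e) (hbe : b ≠ e), s.1 ⊆ (f4x1_trip a b e hab hae hbe).1 := by
        intro e hae hbe z hz
        rw [hs] at hz
        change z ∈ ({a, b, e} : Finset (Fin 6))
        simp only [Finset.mem_insert, Finset.mem_singleton] at hz ⊢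
        rcases hz with h | h
        · exact Or.inl h
        · exact Or.inr (Or.inl h)
      have hne : face (f4x1_trip a b c hab c1 c2) ≠ face (f4x1_trip a b d hab d1 d2) := by
        intro h
        have h3 : ({a, b, c} : Finset (Fin 6)) = {a, b, d} := by
          have h4 := face.inj h
          exact congrArg Subtype.val h4
        have h5 : c ∈ ({a, b, d} : Finset (Fin 6)) := by rw [← h3]; simp
        simp only [Finset.mem_insert, Finset.mem_singleton] at h5
        rcases h5 with h5 | h5 | h5
        · exact c1 h5.symm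
        · exact c2 h5.symm
        · exact hcd h5
      refine f4x1_ncard hne
        ⟨(f4x1_edge_face _ _).2 (hsub c c1 c2), (face_facet _ rfl y).2 ⟨h1, c3, c4⟩⟩
        ⟨(f4x1_edge_face _ _).2 (hsub d d1 d2), (face_facet _ rfl y).2 ⟨h1, d3, d4⟩⟩ ?_
      rintro z ⟨h3, h4⟩
      have h5 := rk_lt _ _ h3
      have h6 := rk_lt _ _ h4
      cases z with
      | face r =>
        have h7 := (f4x1_edge_face _ _).1 h3
        have ha : a ∈ r.1 := h7 (by rw [hs]; simp)
        have hb : b ∈ r.1 := h7 (by rw [hs]; simp)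
        obtain ⟨e, hae, hbe, hr'⟩ := f4x1_third r.2 ha hb hab
        obtain ⟨-, h8, h9⟩ := (face_facet r hr' y).1 h4
        rcases (h2 e).1 ⟨hae, hbe, h8, h9⟩ with rfl | rfl
        · left
          congr 1
          exact Subtype.ext hr'
        · right
          congr 1
          exact Subtype.ext hr'
      | bot => simp [rk] at h5
      | vert r => simp [rk] at h5
      | edge r => simp [rk] at h5
      | facet r => simp [rk] at h6
      | top => simp [rk] at h6
    | bot => simp [rk] at hr
    | vert a => simp [rk] at hr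
    | edge s => simp [rk] at hr
    | face s => simp [rk] at hr
    | top => simp [rk] at hr
  | face s =>
    cases G with
    | top =>
      obtain ⟨a, b, c, hab, hac, hbc, hs⟩ := Finset.card_eq_three.1 s.2
      obtain ⟨x, y, hxy, h2⟩ := f4x1_ex3 a b c hab hac hbc
      refine f4x1_ncard (x := facet x) (y := facet y) (by simpa using hxy)
        ⟨(face_facet _ hs x).2 ((h2 x).2 (Or.inl rfl)), f4x1_top _ (by simp)⟩
        ⟨(face_facet _ hs y).2 ((h2 y).2 (Or.inr rfl)), f4x1_top _ (by simp)⟩ ?_
      rintro z ⟨h3, h4⟩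
      have h5 := rk_lt _ _ h3
      have h6 := rk_lt _ _ h4
      cases z with
      | facet r =>
        rcases (h2 r).1 ((face_facet _ hs r).1 h3) with rfl | rfl
        · exact Or.inl rfl
        · exact Or.inr rfl
      | bot => simp [rk] at h5
      | vert r => simp [rk] at h5
      | edge r => simp [rk] at h5
      | face r => simp [rk] at h5
      | top => simp [rk] at h6
    | bot => simp [rk] at hr
    | vert a => simp [rk] at hr
    | edge s => simp [rk] at hr
    | face s => simp [rk] at hr
    | facet y => simp [rk] at hr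
  | facet y => cases G <;> simp [rk] at hr
  | top => cases G <;> simp [rk] at hr

end X6

end Pool.Agent.H.MP_6268b4_co
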