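import Pool.Agent.H.MP_6268b4_co.F4X1

/-!
The exceptional polytope: connected sections.
-/

namespace Pool.Agent.H.MP_6268b4_co

namespace X6

/-- The relation in `SecConn`. -/
def R (A B : X6) (a b : X6) : Prop := (a ≤ b ∨ b ≤ a) ∧ A < b ∧ b < B

/-- Connected sections. -/
def C (A B : X6) : Prop :=
  ∀ x y : X6, A < x → x < B → A < y → y < B → Relation.ReflTransGen (R A B) x y

/-- Job F4X2-1. Proof: as `crpolyb_conn` in `CRPolyB.lean`: the relation `R A B` is symmetric on the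
interval. -/
theorem C_of {A B z : X6}
    (hz : ∀ x, A < x → x < B → Relation.ReflTransGen (R A B) x z) : C A B := by
  have hsymm : ∀ x y : X6, (A < x ∧ x < B) → Relation.ReflTransGen (R A B) x y →
      Relation.ReflTransGen (R A B) y x ∧ (A < y ∧ y < B) := by
    intro x y hx h
    induction h with
    | refl => exact ⟨Relation.ReflTransGen.refl, hx⟩
    | tail _ hbc ih => exact ⟨Relation.ReflTransGen.head ⟨hbc.1.symm, ih.2⟩ ih.1, hbc.2⟩
  intro x y hx hx' hy hy'
  exact (hz x hx hx').trans (hsymm y z ⟨hy, hy'⟩ (hz y hy hy')).1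

/-- two steps through `m` -/
lemma f4x2_step {A B x m y : X6} (h1 : x ≤ m ∨ m ≤ x) (hm : A < m ∧ m < B)
    (h2 : m ≤ y ∨ y ≤ m) (hy : A < y ∧ y < B) : Relation.ReflTransGen (R A B) x y :=
  Relation.ReflTransGen.head ⟨h1, hm⟩ (Relation.ReflTransGen.single ⟨h2, hy⟩)

/-- the pair `{a, b}` -/
def f4x2_pr (a b : Fin 6) (h : a ≠ b) : {s : Finset (Fin 6) // s.card = 2} :=
  ⟨{a, b}, Finset.card_pair h⟩

/-- the triple `{a, b, c}` -/
def f4x2_tr (a b c : Fin 6) (hab : a ≠ b) (hac : a ≠ c) (hbc : b ≠ c) :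
    {s : Finset (Fin 6) // s.card = 3} :=
  ⟨{a, b, c}, Finset.card_eq_three.2 ⟨a, b, c, hab, hac, hbc, rfl⟩⟩

lemma f4x2_edge {r : {s : Finset (Fin 6) // s.card = 2}} {a : Fin 6} (ha : a ∈ r.1) :
    ∃ b, ∃ h : a ≠ b, r = f4x2_pr a b h := by
  obtain ⟨u, v, huv, hr⟩ := Finset.card_eq_two.1 r.2
  rw [hr] at ha
  simp only [Finset.mem_insert, Finset.mem_singleton] at ha
  rcases ha with rfl | rfl
  · exact ⟨v, huv, Subtype.ext hr⟩
  · exact ⟨u, huv.symm, Subtype.ext (by rw [hr]; exact Finset.pair_comm _ _)⟩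

lemma f4x2_face {t : {s : Finset (Fin 6) // s.card = 3}} {a : Fin 6} (ha : a ∈ t.1) :
    ∃ b c, ∃ (hab : a ≠ b) (hac : a ≠ c) (hbc : b ≠ c), t = f4x2_tr a b c hab hac hbc := by
  have h1 : (t.1.erase a).card = 2 := by
    rw [Finset.card_erase_of_mem ha, t.2]
  obtain ⟨b, c, hbc, ht⟩ := Finset.card_eq_two.1 h1
  have hb : b ∈ t.1.erase a := by rw [ht]; simp
  have hc : c ∈ t.1.erase a := by rw [ht]; simp
  refine ⟨b, c, (Finset.ne_of_mem_erase hb).symm, (Finset.ne_of_mem_erase hc).symm, hbc, ?_⟩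
  apply Subtype.ext
  change t.1 = {a, b, c}
  rw [← Finset.insert_erase ha, ht]

lemma f4x2_face2 {t : {s : Finset (Fin 6) // s.card = 3}} {a b : Fin 6} (hab : a ≠ b)
    (ha : a ∈ t.1) (hb : b ∈ t.1) :
    ∃ c, ∃ (hac : a ≠ c) (hbc : b ≠ c), t = f4x2_tr a b c hab hac hbc := by
  have h0 : b ∈ t.1.erase a := Finset.mem_erase.2 ⟨hab.symm, hb⟩
  have h1 : ((t.1.erase a).erase b).card = 1 := by
    rw [Finset.card_erase_of_mem h0, Finset.card_erase_of_mem ha, t.2]
  obtain ⟨c, ht⟩ := Finset.card_eq_one.1 h1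
  have hc : c ∈ (t.1.erase a).erase b := by rw [ht]; simp
  have hcb := Finset.ne_of_mem_erase hc
  have hca := Finset.ne_of_mem_erase (Finset.mem_of_mem_erase hc)
  refine ⟨c, hca.symm, hcb.symm, ?_⟩
  apply Subtype.ext
  change t.1 = {a, b, c}
  rw [← Finset.insert_erase ha, ← Finset.insert_erase h0, ht]

/-- every face different from the least one is above a vertex -/
lemma f4x2_below (x : X6) (hx : bot < x) : ∃ a, vert a ≤ x := by
  cases x with
  | bot => exact absurd hx (lt_irrefl _)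
  | vert a => exact ⟨a, le_refl _⟩
  | edge r =>
    obtain ⟨a, b, hab, hr⟩ := Finset.card_eq_two.1 r.2
    refine ⟨a, ?_⟩
    change a ∈ r.1
    rw [hr]
    simp
  | face r =>
    obtain ⟨a, b, c, hab, hac, hbc, hr⟩ := Finset.card_eq_three.1 r.2
    refine ⟨a, ?_⟩
    change a ∈ r.1
    rw [hr]
    simp
  | facet y => exact ⟨0, trivial⟩
  | top => exact ⟨0, trivial⟩

lemma f4x2_bot_vert (a : Fin 6) : bot < vert a := (lt_def _ _).2 ⟨trivial, by simp⟩

lemma f4x2_bot_edge (r : {s : Finset (Fin 6) // s.card = 2}) : bot < edge r :=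
  (lt_def _ _).2 ⟨trivial, by simp⟩

lemma f4x2_vert_pr_left (a b : Fin 6) (h : a ≠ b) : vert a ≤ edge (f4x2_pr a b h) := by
  change a ∈ ({a, b} : Finset (Fin 6))
  simp

lemma f4x2_vert_pr_right (a b : Fin 6) (h : a ≠ b) : vert b ≤ edge (f4x2_pr a b h) := by
  change b ∈ ({a, b} : Finset (Fin 6))
  simp

/-- the sections above the least face -/
lemma f4x2_bot {G : X6} (c : Fin 6)
    (h : ∀ a, vert a < G → Relation.ReflTransGen (R bot G) (vert a) (vert c)) : C bot G := by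
  refine C_of (z := vert c) ?_
  intro x hx hx'
  obtain ⟨a, ha⟩ := f4x2_below x hx
  have haG : vert a < G := lt_of_le_of_lt ha hx'
  exact Relation.ReflTransGen.head ⟨Or.inr ha, f4x2_bot_vert a, haG⟩ (h a haG)

/-- two vertices joined by an edge below `G` -/
lemma f4x2_bot_step {G : X6} {a c : Fin 6} (hac : a ≠ c) (hG : edge (f4x2_pr a c hac) < G)
    (hc : vert c < G) : Relation.ReflTransGen (R bot G) (vert a) (vert c) :=
  f4x2_step (Or.inl (f4x2_vert_pr_left a c hac)) ⟨f4x2_bot_edge _, hG⟩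
    (Or.inr (f4x2_vert_pr_right a c hac)) ⟨f4x2_bot_vert c, hc⟩

/-- Job F4X2-2. The section of a triangle. Proof: `s = {a, b, c}`; the vertices `a, b` are connected by the
edge `{a, b}` etc. -/
theorem sec_face (s : {s : Finset (Fin 6) // s.card = 3}) : C bot (face s) := by
  obtain ⟨c, u, v, hcu, hcv, huv, hs⟩ := Finset.card_eq_three.1 s.2
  have hc : c ∈ s.1 := by rw [hs]; simp
  refine f4x2_bot c ?_
  intro a ha
  have ha' : a ∈ s.1 := ((lt_def _ _).1 ha).1
  by_cases hac : a = c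
  · rw [hac]
  · refine f4x2_bot_step hac ((lt_def _ _).2 ⟨?_, by simp⟩) ((lt_def _ _).2 ⟨hc, by simp⟩)
    change ({a, c} : Finset (Fin 6)) ⊆ s.1
    intro z hz
    simp only [Finset.mem_insert, Finset.mem_singleton] at hz
    rcases hz with rfl | rfl
    · exact ha'
    · exact hc

/-- Job F4X2-3. The section of an octahedron. Proof: `C_of` with `z = vert 0`. Every 2-face and every edge
in the interval is comparable with a vertex. Two vertices `a ≠ b` with `syn y a ≠ b` are connected by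
the edge `{a, b}`; if `syn y a = b` take a third point `c ≠ a, b` and the edges `{a, c}`, `{c, b}`. -/
theorem sec_facet (y : Fin 5) : C bot (facet y) := by
  have hv : ∀ a, vert a < facet y := fun a => (lt_def _ _).2 ⟨trivial, by simp⟩
  have hE : ∀ a b : Fin 6, ∀ hab : a ≠ b, syn y a ≠ b →
      Relation.ReflTransGen (R bot (facet y)) (vert a) (vert b) := by
    intro a b hab h
    exact f4x2_bot_step hab ((edge_facet (f4x2_pr a b hab) rfl y).2 h) (hv b)
  refine f4x2_bot 0 ?_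
  intro a _
  by_cases ha : a = 0
  · rw [ha]
  by_cases hs : syn y a = 0
  · obtain ⟨d, h1, h2, h3, h4⟩ : ∃ d : Fin 6, a ≠ d ∧ d ≠ 0 ∧ syn y a ≠ d ∧ syn y d ≠ 0 := by
      have key : ∀ (y : Fin 5) (a : Fin 6), ∃ d : Fin 6, syn y a = 0 →
          (a ≠ d ∧ d ≠ 0 ∧ syn y a ≠ d ∧ syn y d ≠ 0) := by decide
      obtain ⟨d, hd⟩ := key y a
      exact ⟨d, hd hs⟩
    exact (hE a d h1 h3).trans (hE d 0 h2 h4)
  · exact hE a 0 ha hs

/-- Job F4X2-4. Proof. Any two vertices are connected by an edge. -/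
theorem sec_all : C bot top := by
  refine f4x2_bot 0 ?_
  intro a _
  by_cases ha : a = 0
  · rw [ha]
  · exact f4x2_bot_step ha ((lt_def _ _).2 ⟨trivial, by simp⟩) ((lt_def _ _).2 ⟨trivial, by simp⟩)

lemma f4x2_pr_tr1 {a b c : Fin 6} (hab : a ≠ b) (hac : a ≠ c) (hbc : b ≠ c) :
    edge (f4x2_pr a b hab) ≤ face (f4x2_tr a b c hab hac hbc) := by
  change ({a, b} : Finset (Fin 6)) ⊆ {a, b, c}
  intro z hz
  simp only [Finset.mem_insert, Finset.mem_singleton] at hz ⊢
  rcases hz with rfl | rfl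
  · exact Or.inl rfl
  · exact Or.inr (Or.inl rfl)

lemma f4x2_pr_tr2 {a b c : Fin 6} (hab : a ≠ b) (hac : a ≠ c) (hbc : b ≠ c) :
    edge (f4x2_pr a c hac) ≤ face (f4x2_tr a b c hab hac hbc) := by
  change ({a, c} : Finset (Fin 6)) ⊆ {a, b, c}
  intro z hz
  simp only [Finset.mem_insert, Finset.mem_singleton] at hz ⊢
  rcases hz with rfl | rfl
  · exact Or.inl rfl
  · exact Or.inr (Or.inr rfl)

lemma f4x2_vert_edge {a b : Fin 6} (hab : a ≠ b) : vert a < edge (f4x2_pr a b hab) :=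
  (lt_def _ _).2 ⟨f4x2_vert_pr_left a b hab, by simp⟩

lemma f4x2_vert_face {a b c : Fin 6} (hab : a ≠ b) (hac : a ≠ c) (hbc : b ≠ c) :
    vert a < face (f4x2_tr a b c hab hac hbc) := by
  refine (lt_def _ _).2 ⟨?_, by simp⟩
  change a ∈ ({a, b, c} : Finset (Fin 6))
  simp

/-- Job F4X2-5. The vertex figure of an octahedron (a 4-cycle). Proof. The elements of the interval are
the edges `{a, b}`, `b ≠ a, syn y a`, and the triples `{a, b, c}` with `b, c ≠ a, syn y a`, `b ≠ c`,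
`syn y b ≠ c`. A triple is comparable with an edge of the interval. The edges `{a, b}`, `{a, c}` with
`syn y b ≠ c` are connected by the triple `{a, b, c}`; if `syn y b = c` take `d` different from
`a, syn y a, b, c` and go through `{a, d}`. -/
theorem sec_mid (a : Fin 6) (y : Fin 5) : C (vert a) (facet y) := by
  have hedge : ∀ b : Fin 6, ∀ hab : a ≠ b, syn y a ≠ b →
      vert a < edge (f4x2_pr a b hab) ∧ edge (f4x2_pr a b hab) < facet y := fun b hab h =>
    ⟨f4x2_vert_edge hab, (edge_facet (f4x2_pr a b hab) rfl y).2 h⟩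
  have hcon1 : ∀ b c : Fin 6, ∀ (hab : a ≠ b) (hac : a ≠ c) (hbc : b ≠ c), syn y a ≠ b →
      syn y a ≠ c → syn y b ≠ c → Relation.ReflTransGen (R (vert a) (facet y))
        (edge (f4x2_pr a b hab)) (edge (f4x2_pr a c hac)) := by
    intro b c hab hac hbc h1 h2 h3
    exact f4x2_step (Or.inl (f4x2_pr_tr1 hab hac hbc)) ⟨f4x2_vert_face hab hac hbc,
      (face_facet (f4x2_tr a b c hab hac hbc) rfl y).2 ⟨h1, h2, h3⟩⟩
      (Or.inr (f4x2_pr_tr2 hab hac hbc)) (hedge c hac h2)
  have hcon : ∀ b c : Fin 6, ∀ (hab : a ≠ b) (hac : a ≠ c), syn y a ≠ b →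
      syn y a ≠ c → Relation.ReflTransGen (R (vert a) (facet y))
        (edge (f4x2_pr a b hab)) (edge (f4x2_pr a c hac)) := by
    intro b c hab hac h1 h2
    by_cases hbc : b = c
    · subst hbc
      exact Relation.ReflTransGen.refl
    by_cases h3 : syn y b = c
    · obtain ⟨d, k1, k2, k3, k4, k5, k6⟩ : ∃ d : Fin 6, a ≠ d ∧ b ≠ d ∧ d ≠ c ∧ syn y a ≠ d ∧
          syn y b ≠ d ∧ syn y d ≠ c := by
        have key : ∀ (y : Fin 5) (a b : Fin 6), a ≠ b → syn y a ≠ b → ∃ d : Fin 6,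
            a ≠ d ∧ b ≠ d ∧ d ≠ syn y b ∧ syn y a ≠ d ∧ syn y b ≠ d ∧ syn y d ≠ syn y b := by
          decide
        obtain ⟨d, hd⟩ := key y a b hab h1
        rw [← h3]
        exact ⟨d, hd⟩
      exact (hcon1 b d hab k1 k2 h1 k4 k5).trans (hcon1 d c k1 hac k3 k4 h2 k6)
    · exact hcon1 b c hab hac hbc h1 h2 h3
  obtain ⟨b0, hb0, hb0'⟩ : ∃ b0 : Fin 6, a ≠ b0 ∧ syn y a ≠ b0 := by
    have key : ∀ (y : Fin 5) (a : Fin 6), ∃ b : Fin 6, a ≠ b ∧ syn y a ≠ b := by decide
    exact key y a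
  refine C_of (z := edge (f4x2_pr a b0 hb0)) ?_
  intro x hx hx'
  cases x with
  | bot => exact absurd ((lt_def _ _).1 hx).1 (by simp [le])
  | vert v =>
    have h1 := (lt_def _ _).1 hx
    have h2 : a = v := h1.1
    exact absurd (by rw [h2]) h1.2
  | edge r =>
    have h1 : a ∈ r.1 := ((lt_def _ _).1 hx).1
    obtain ⟨b, hab, rfl⟩ := f4x2_edge h1
    exact hcon b b0 hab hb0 ((edge_facet (f4x2_pr a b hab) rfl y).1 hx') hb0'
  | face t =>
    have h1 : a ∈ t.1 := ((lt_def _ _).1 hx).1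
    obtain ⟨b, c, hab, hac, hbc, rfl⟩ := f4x2_face h1
    obtain ⟨k1, k2, k3⟩ := (face_facet (f4x2_tr a b c hab hac hbc) rfl y).1 hx'
    exact Relation.ReflTransGen.head ⟨Or.inr (f4x2_pr_tr1 hab hac hbc), hedge b hab k1⟩
      (hcon b b0 hab hb0 k1 hb0')
  | facet y' =>
    have h1 := (lt_def _ _).1 hx'
    have h2 : y' = y := h1.1
    exact absurd (by rw [h2]) h1.2
  | top => exact absurd ((lt_def _ _).1 hx').1 (by simp [le])

/-- Job F4X2-6. The section `top / edge`: a cycle of four facets and four triples.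

Proof. `s = {a, b}`. The elements of the interval: triples `{a, b, c}`, four facets `y` with `syn y a ≠ b`.
Each triple is comparable with a facet of the interval (`graded` or `decide`). Each two facets `x, y` with
`syn x a ≠ b`, `syn y a ≠ b` are connected by a path: for all `a ≠ b` and such `x, y` there are facets
`y₁` and points `c, d` such that `{a, b, c}` is on `x` and `y₁`, and `{a, b, d}` is on `y₁` and `y`
(allowing `y₁ = x` or `y₁ = y`); this is checked by `decide` (in the cycle of length four any two facets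
have distance at most two). -/
theorem sec_edge (s : {s : Finset (Fin 6) // s.card = 2}) : C (edge s) top := by
  obtain ⟨a, b, hab, hs⟩ := Finset.card_eq_two.1 s.2
  obtain rfl : s = f4x2_pr a b hab := Subtype.ext hs
  have hfc : ∀ y : Fin 5, syn y a ≠ b → edge (f4x2_pr a b hab) < facet y ∧ facet y < top :=
    fun y h => ⟨(edge_facet (f4x2_pr a b hab) rfl y).2 h, (lt_def _ _).2 ⟨trivial, by simp⟩⟩
  have hface : ∀ c : Fin 6, ∀ (hac : a ≠ c) (hbc : b ≠ c),
      edge (f4x2_pr a b hab) < face (f4x2_tr a b c hab hac hbc) ∧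
      face (f4x2_tr a b c hab hac hbc) < top := fun c hac hbc =>
    ⟨(lt_def _ _).2 ⟨f4x2_pr_tr1 hab hac hbc, by simp⟩, (lt_def _ _).2 ⟨trivial, by simp⟩⟩
  have hle : ∀ (c : Fin 6) (hac : a ≠ c) (hbc : b ≠ c) (y : Fin 5), syn y a ≠ b → syn y a ≠ c →
      syn y b ≠ c → face (f4x2_tr a b c hab hac hbc) ≤ facet y := fun c hac hbc y h1 h2 h3 =>
    ((face_facet (f4x2_tr a b c hab hac hbc) rfl y).2 ⟨h1, h2, h3⟩).le
  have hcon : ∀ x y : Fin 5, syn x a ≠ b → syn y a ≠ b →
      Relation.ReflTransGen (R (edge (f4x2_pr a b hab)) top) (facet x) (facet y) := by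
    intro x y hx hy
    obtain ⟨y1, c, d, k1, k2, k3, k4, k5, k6, k7, k8, k9, k10, k11, k12, k13⟩ :
        ∃ (y1 : Fin 5) (c d : Fin 6), syn y1 a ≠ b ∧ a ≠ c ∧ b ≠ c ∧ a ≠ d ∧ b ≠ d ∧
          syn x a ≠ c ∧ syn x b ≠ c ∧ syn y1 a ≠ c ∧ syn y1 b ≠ c ∧
          syn y1 a ≠ d ∧ syn y1 b ≠ d ∧ syn y a ≠ d ∧ syn y b ≠ d := by
      have key : ∀ (a b : Fin 6) (x y : Fin 5), a ≠ b → syn x a ≠ b → syn y a ≠ b →
          ∃ (y1 : Fin 5) (c d : Fin 6), syn y1 a ≠ b ∧ a ≠ c ∧ b ≠ c ∧ a ≠ d ∧ b ≠ d ∧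
            syn x a ≠ c ∧ syn x b ≠ c ∧ syn y1 a ≠ c ∧ syn y1 b ≠ c ∧
            syn y1 a ≠ d ∧ syn y1 b ≠ d ∧ syn y a ≠ d ∧ syn y b ≠ d := by
        decide +kernel
      exact key a b x y hab hx hy
    exact (f4x2_step (Or.inr (hle c k2 k3 x hx k6 k7)) (hface c k2 k3)
      (Or.inl (hle c k2 k3 y1 k1 k8 k9)) (hfc y1 k1)).trans
      (f4x2_step (Or.inr (hle d k4 k5 y1 k1 k10 k11)) (hface d k4 k5)
      (Or.inl (hle d k4 k5 y hy k12 k13)) (hfc y hy))
  obtain ⟨y0, hy0⟩ : ∃ y0 : Fin 5, syn y0 a ≠ b := by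
    have key : ∀ a b : Fin 6, ∃ y : Fin 5, syn y a ≠ b := by decide
    exact key a b
  refine C_of (z := facet y0) ?_
  intro x hx hx'
  cases x with
  | bot => exact absurd ((lt_def _ _).1 hx).1 (by simp [le])
  | vert v => exact absurd ((lt_def _ _).1 hx).1 (by simp [le])
  | edge r =>
    have h1 := (lt_def _ _).1 hx
    have h2 : f4x2_pr a b hab = r := h1.1
    exact absurd (by rw [h2]) h1.2
  | face t =>
    have h1 : ({a, b} : Finset (Fin 6)) ⊆ t.1 := ((lt_def _ _).1 hx).1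
    obtain ⟨c, hac, hbc, rfl⟩ := f4x2_face2 hab (h1 (by simp)) (h1 (by simp))
    obtain ⟨y, k1, k2, k3⟩ : ∃ y : Fin 5, syn y a ≠ b ∧ syn y a ≠ c ∧ syn y b ≠ c := by
      have key : ∀ a b c : Fin 6, ∃ y : Fin 5, syn y a ≠ b ∧ syn y a ≠ c ∧ syn y b ≠ c := by
        decide +kernel
      exact key a b c
    exact Relation.ReflTransGen.head ⟨Or.inl (hle c hac hbc y k1 k2 k3), hfc y k1⟩
      (hcon y y0 k1 hy0)
  | facet y => exact hcon y y0 ((edge_facet (f4x2_pr a b hab) rfl y).1 hx) hy0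
  | top => exact absurd hx' (lt_irrefl _)

/-- Job F4X2-7. The vertex figure. Proof. In the interval `(vert a, top)` every triple is comparable
with an edge, every facet `y` with an edge `{a, b}`, `b ≠ a, syn y a`, and the edges `{a, b}`, `{a, c}` are
connected by the triple `{a, b, c}`. -/
theorem sec_vert (a : Fin 6) : C (vert a) top := by
  have hedge : ∀ b : Fin 6, ∀ hab : a ≠ b,
      vert a < edge (f4x2_pr a b hab) ∧ edge (f4x2_pr a b hab) < top := fun b hab =>
    ⟨f4x2_vert_edge hab, (lt_def _ _).2 ⟨trivial, by simp⟩⟩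
  have hcon : ∀ b c : Fin 6, ∀ (hab : a ≠ b) (hac : a ≠ c),
      Relation.ReflTransGen (R (vert a) top)
        (edge (f4x2_pr a b hab)) (edge (f4x2_pr a c hac)) := by
    intro b c hab hac
    by_cases hbc : b = c
    · subst hbc
      exact Relation.ReflTransGen.refl
    exact f4x2_step (Or.inl (f4x2_pr_tr1 hab hac hbc)) ⟨f4x2_vert_face hab hac hbc,
      (lt_def _ _).2 ⟨trivial, by simp⟩⟩ (Or.inr (f4x2_pr_tr2 hab hac hbc)) (hedge c hac)
  obtain ⟨b0, hb0⟩ : ∃ b0 : Fin 6, a ≠ b0 := by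
    have key : ∀ (a : Fin 6), ∃ b : Fin 6, a ≠ b := by decide
    exact key a
  refine C_of (z := edge (f4x2_pr a b0 hb0)) ?_
  intro x hx hx'
  cases x with
  | bot => exact absurd ((lt_def _ _).1 hx).1 (by simp [le])
  | vert v =>
    have h1 := (lt_def _ _).1 hx
    have h2 : a = v := h1.1
    exact absurd (by rw [h2]) h1.2
  | edge r =>
    have h1 : a ∈ r.1 := ((lt_def _ _).1 hx).1
    obtain ⟨b, hab, rfl⟩ := f4x2_edge h1
    exact hcon b b0 hab hb0
  | face t =>
    have h1 : a ∈ t.1 := ((lt_def _ _).1 hx).1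
    obtain ⟨b, c, hab, hac, hbc, rfl⟩ := f4x2_face h1
    exact Relation.ReflTransGen.head ⟨Or.inr (f4x2_pr_tr1 hab hac hbc), hedge b hab⟩
      (hcon b b0 hab hb0)
  | facet y =>
    obtain ⟨b, hab, hb⟩ : ∃ b : Fin 6, a ≠ b ∧ syn y a ≠ b := by
      have key : ∀ (y : Fin 5) (a : Fin 6), ∃ b : Fin 6, a ≠ b ∧ syn y a ≠ b := by decide
      exact key y a
    exact Relation.ReflTransGen.head
      ⟨Or.inr ((edge_facet (f4x2_pr a b hab) rfl y).2 hb).le, hedge b hab⟩
      (hcon b b0 hab hb0)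
  | top => exact absurd hx' (lt_irrefl _)

/-- Job F4X2-8. Proof: cases on the ranks (gap at least 3): `(bot, face)`, `(bot, facet)`, `(bot, top)`,
`(vert, facet)`, `(vert, top)`, `(edge, top)`. -/
theorem secConn : SecConn X6 rk := by
  intro A B hAB hrk x y hx hx' hy hy'
  suffices hC : C A B from hC x y hx hx' hy hy'
  clear hx hx' hy hy' x y
  cases A with
  | bot =>
    cases B with
    | bot => simp [rk] at hrk
    | vert a => simp [rk] at hrk
    | edge s => simp [rk] at hrk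
    | face s => exact sec_face s
    | facet y => exact sec_facet y
    | top => exact sec_all
  | vert c =>
    cases B with
    | bot => simp [rk] at hrk
    | vert a => simp [rk] at hrk
    | edge s => simp [rk] at hrk
    | face s => simp [rk] at hrk
    | facet d => exact sec_mid c d
    | top => exact sec_vert c
  | edge s =>
    cases B with
    | bot => simp [rk] at hrk
    | vert a => simp [rk] at hrk
    | edge s => simp [rk] at hrk
    | face s => simp [rk] at hrk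
    | facet d => simp [rk] at hrk
    | top => exact sec_edge s
  | face s => cases B <;> simp [rk] at hrk
  | facet s => cases B <;> simp [rk] at hrk
  | top => cases B <;> simp [rk] at hrk

theorem isPolytope : IsPolytope 4 X6 rk := isPolytope_of_sec graded diamond secConn

end X6

end Pool.Agent.H.MP_6268b4_co
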