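import Pool.Agent.H.MP_6268b4_co.F4X2
import Pool.Agent.H.MP_6268b4_co.F4F3
import Pool.Agent.H.MP_6268b4_co.TVDefs

/-!
The exceptional polytope: automorphisms.
-/

namespace Pool.Agent.H.MP_6268b4_co

namespace X6

/-- the image of a set of points of fixed size -/
def f4x3_mapS {n : ℕ} (g : Equiv.Perm (Fin 6)) (s : {s : Finset (Fin 6) // s.card = n}) :
    {s : Finset (Fin 6) // s.card = n} :=
  ⟨s.1.map g.toEmbedding, by rw [Finset.card_map]; exact s.2⟩

/-- the map induced by permutations of the points and the facets -/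
def f4x3_mapF (g : Equiv.Perm (Fin 6)) (k : Equiv.Perm (Fin 5)) : X6 → X6
  | bot => bot
  | vert a => vert (g a)
  | edge s => edge (f4x3_mapS g s)
  | face s => face (f4x3_mapS g s)
  | facet y => facet (k y)
  | top => top

theorem f4x3_map_symm (g : Equiv.Perm (Fin 6)) (s : Finset (Fin 6)) :
    (s.map g.toEmbedding).map g.symm.toEmbedding = s := by
  ext x
  simp only [Finset.mem_map_equiv, Equiv.symm_symm, Equiv.symm_apply_apply]

theorem f4x3_mapF_symm (g : Equiv.Perm (Fin 6)) (k : Equiv.Perm (Fin 5)) (x : X6) :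
    f4x3_mapF g.symm k.symm (f4x3_mapF g k x) = x := by
  cases x with
  | bot => rfl
  | vert a => simp only [f4x3_mapF, Equiv.symm_apply_apply]
  | edge s =>
    simp only [f4x3_mapF]
    congr 1
    exact Subtype.ext (f4x3_map_symm g s.1)
  | face s =>
    simp only [f4x3_mapF]
    congr 1
    exact Subtype.ext (f4x3_map_symm g s.1)
  | facet y => simp only [f4x3_mapF, Equiv.symm_apply_apply]
  | top => rfl

theorem f4x3_mapS_eq {n : ℕ} (g : Equiv.Perm (Fin 6))
    (s s' : {s : Finset (Fin 6) // s.card = n}) : f4x3_mapS g s = f4x3_mapS g s' ↔ s = s' := by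
  rw [Subtype.ext_iff, Subtype.ext_iff]
  exact Finset.map_inj

theorem f4x3_mem {n : ℕ} (g : Equiv.Perm (Fin 6)) (a : Fin 6)
    (s : {s : Finset (Fin 6) // s.card = n}) : g a ∈ (f4x3_mapS g s).1 ↔ a ∈ s.1 := by
  simp only [f4x3_mapS, Finset.mem_map_equiv, Equiv.symm_apply_apply]

theorem f4x3_sub {n m : ℕ} (g : Equiv.Perm (Fin 6)) (s : {s : Finset (Fin 6) // s.card = n})
    (s' : {s : Finset (Fin 6) // s.card = m}) :
    (f4x3_mapS g s).1 ⊆ (f4x3_mapS g s').1 ↔ s.1 ⊆ s'.1 :=
  Finset.map_subset_map

theorem f4x3_syn {n : ℕ} {g : Equiv.Perm (Fin 6)} {k : Equiv.Perm (Fin 5)}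
    (h : ∀ y a, g (syn y a) = syn (k y) (g a)) (s : {s : Finset (Fin 6) // s.card = n})
    (y : Fin 5) : (∀ a ∈ (f4x3_mapS g s).1, syn (k y) a ∉ (f4x3_mapS g s).1) ↔
      ∀ a ∈ s.1, syn y a ∉ s.1 := by
  constructor
  · intro h1 a ha h2
    refine h1 (g a) ((f4x3_mem g a s).2 ha) ?_
    rw [← h]
    exact (f4x3_mem g _ s).2 h2
  · intro h1 a ha h2
    have e : g (g.symm a) = a := g.apply_symm_apply a
    rw [← e, f4x3_mem] at ha
    rw [← e, ← h, f4x3_mem] at h2
    exact h1 _ ha h2

/-- Job F4X3-1. A permutation `g` of the points and a permutation `k` of the facets compatible with `syn`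
give an automorphism.

Proof. `bot ↦ bot`, `vert a ↦ vert (g a)`, `edge s ↦ edge (s.map g)`, `face s ↦ face (s.map g)`,
`facet y ↦ facet (k y)`, `top ↦ top`; the inverse is given by `g.symm`, `k.symm`
(`g.symm (syn (k y) (g a)) = syn y a`). The order is preserved by cases. -/
theorem exists_auto (g : Equiv.Perm (Fin 6)) (k : Equiv.Perm (Fin 5))
    (h : ∀ y a, g (syn y a) = syn (k y) (g a)) :
    ∃ γ : X6 ≃o X6, (∀ a, γ (vert a) = vert (g a)) ∧
      (∀ s, ∃ s', γ (edge s) = edge s' ∧ s'.1 = s.1.map g.toEmbedding) ∧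
      (∀ s, ∃ s', γ (face s) = face s' ∧ s'.1 = s.1.map g.toEmbedding) ∧
      ∀ y, γ (facet y) = facet (k y) := by
  refine ⟨⟨⟨f4x3_mapF g k, f4x3_mapF g.symm k.symm, f4x3_mapF_symm g k, ?_⟩, ?_⟩, fun a => rfl,
    fun s => ⟨f4x3_mapS g s, rfl, rfl⟩, fun s => ⟨f4x3_mapS g s, rfl, rfl⟩, fun y => rfl⟩
  · intro x
    have := f4x3_mapF_symm g.symm k.symm x
    rwa [Equiv.symm_symm, Equiv.symm_symm] at this
  · intro x y
    change le (f4x3_mapF g k x) (f4x3_mapF g k y) ↔ le x y
    cases x <;> cases y <;> simp only [f4x3_mapF, le, f4x3_mapS_eq, f4x3_mem, f4x3_sub,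
      f4x3_syn h, EmbeddingLike.apply_eq_iff_eq]

/-- Job F4X3-2. Every automorphism is of this form.

Proof (compare `CR.auto_form` in `CRAuto.lean`). `γ` preserves the ranks (`IsPolytope.rk_map` with
`isPolytope`), so it maps vertices to vertices and facets to facets, giving `g` and `k` (bijective by
using `γ.symm`). An edge is mapped to an edge, and its vertices to the vertices of the image, so
`γ (edge s) = edge (s.map g)`; same for 2-faces (`vert a ≤ face s ↔ a ∈ s`). The edge `{a, b}` is on the
facet `y` iff `syn y a ≠ b` (`edge_facet`); so for `a ≠ b`: `syn y a = b ↔ syn (k y) (g a) = g b`. Take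
`b = syn y a`. -/
theorem auto_form (γ : X6 ≃o X6) :
    ∃ (g : Equiv.Perm (Fin 6)) (k : Equiv.Perm (Fin 5)), (∀ a, γ (vert a) = vert (g a)) ∧
      (∀ s, ∃ s', γ (edge s) = edge s' ∧ s'.1 = s.1.map g.toEmbedding) ∧
      (∀ s, ∃ s', γ (face s) = face s' ∧ s'.1 = s.1.map g.toEmbedding) ∧
      (∀ y, γ (facet y) = facet (k y)) ∧ ∀ y a, g (syn y a) = syn (k y) (g a) := by
  have h := isPolytope
  have hle : ∀ x y : X6, le (γ x) (γ y) ↔ le x y := fun x y => γ.map_rel_iff
  have hrk : ∀ (δ : X6 ≃o X6) (x : X6), rk (δ x) = rk x := fun δ x => IsPolytope.rk_map h h δ x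
  have hvert : ∀ (δ : X6 ≃o X6), ∀ a, ∃ b, δ (vert a) = vert b := by
    intro δ a
    have h := hrk δ (vert a)
    revert h
    cases δ (vert a) <;> simp [rk]
  have hfac : ∀ (δ : X6 ≃o X6), ∀ a, ∃ b, δ (facet a) = facet b := by
    intro δ a
    have h := hrk δ (facet a)
    revert h
    cases δ (facet a) <;> simp [rk]
  choose f hf using hvert γ
  choose f' hf' using hvert γ.symm
  choose l hl using hfac γ
  choose l' hl' using hfac γ.symm
  have e1 : ∀ a, f' (f a) = a := by
    intro a
    have h := hf' (f a)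
    rw [← hf a, OrderIso.symm_apply_apply] at h
    injection h with h
    exact h.symm
  have e2 : ∀ a, f (f' a) = a := by
    intro a
    have h := hf (f' a)
    rw [← hf' a, OrderIso.apply_symm_apply] at h
    injection h with h
    exact h.symm
  have e3 : ∀ a, l' (l a) = a := by
    intro a
    have h := hl' (l a)
    rw [← hl a, OrderIso.symm_apply_apply] at h
    injection h with h
    exact h.symm
  have e4 : ∀ a, l (l' a) = a := by
    intro a
    have h := hl (l' a)
    rw [← hl' a, OrderIso.apply_symm_apply] at h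
    injection h with h
    exact h.symm
  let g : Equiv.Perm (Fin 6) := ⟨f, f', e1, e2⟩
  let k : Equiv.Perm (Fin 5) := ⟨l, l', e3, e4⟩
  have hg : ∀ a, γ (vert a) = vert (g a) := hf
  have hk : ∀ y, γ (facet y) = facet (k y) := hl
  have hedge : ∀ s, γ (edge s) = edge (f4x3_mapS g s) := by
    intro s
    have h : ∃ z, γ (edge s) = edge z := by
      have h := hrk γ (edge s)
      revert h
      cases γ (edge s) <;> simp [rk]
    obtain ⟨z, hz⟩ := h
    rw [hz]
    congr 1
    apply Subtype.ext
    ext a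
    have h1 := hle (vert (g.symm a)) (edge s)
    rw [hz, hg, Equiv.apply_symm_apply] at h1
    simp only [le] at h1
    rw [h1]
    simp only [f4x3_mapS, Finset.mem_map_equiv]
  have hface : ∀ s, γ (face s) = face (f4x3_mapS g s) := by
    intro s
    have h : ∃ z, γ (face s) = face z := by
      have h := hrk γ (face s)
      revert h
      cases γ (face s) <;> simp [rk]
    obtain ⟨z, hz⟩ := h
    rw [hz]
    congr 1
    apply Subtype.ext
    ext a
    have h1 := hle (vert (g.symm a)) (face s)
    rw [hz, hg, Equiv.apply_symm_apply] at h1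
    simp only [le] at h1
    rw [h1]
    simp only [f4x3_mapS, Finset.mem_map_equiv]
  refine ⟨g, k, hg, fun s => ⟨_, hedge s, rfl⟩, fun s => ⟨_, hface s, rfl⟩, hk, ?_⟩
  intro y a
  obtain ⟨s1, s2, -, -⟩ := syn_facts
  have hab : a ≠ syn y a := fun h => s2 y a h.symm
  let s : {s : Finset (Fin 6) // s.card = 2} := ⟨{a, syn y a}, Finset.card_pair hab⟩
  have ha : a ∈ s.1 := Finset.mem_insert_self _ _
  have hb : syn y a ∈ s.1 := Finset.mem_insert_of_mem (Finset.mem_singleton_self _)
  have h1 := hle (edge s) (facet y)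
  rw [hedge, hk] at h1
  have h2 : ¬ le (edge s) (facet y) := fun h3 => h3 a ha hb
  have h3 : ¬ ∀ c ∈ (f4x3_mapS g s).1, syn (k y) c ∉ (f4x3_mapS g s).1 := fun h4 => h2 (h1.1 h4)
  push Not at h3
  obtain ⟨c, hc, hc'⟩ := h3
  have h5 : ∀ d ∈ (f4x3_mapS g s).1, d = g a ∨ d = g (syn y a) := by
    intro d hd
    have e : g (g.symm d) = d := g.apply_symm_apply d
    rw [← e, f4x3_mem] at hd
    rcases Finset.mem_insert.1 hd with h6 | h6
    · left
      rw [← h6, e]
    · right
      rw [← Finset.mem_singleton.1 h6, e]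
  rcases h5 c hc with rfl | rfl <;> rcases h5 _ hc' with h6 | h6
  · exact absurd h6 (s2 _ _)
  · exact h6.symm
  · rw [← h6, s1]
  · exact absurd h6 (s2 _ _)

/-- Job F4X3-3. Proof: `auto_form`: if `γ` and `δ` agree on all vertices then the permutations `g` of the
vertices are equal, hence the images of edges and 2-faces are equal, and the permutations of the facets
are equal: `syn (k y) (g a) = g (syn y a) = syn (k' y) (g a)`, so `k y = k' y` (`syn_facts`). -/
theorem faithful : FaithfulSMul (X6 ≃o X6) (Vert X6) := by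
  have h := isPolytope
  refine ⟨?_⟩
  intro γ δ hγδ
  obtain ⟨g, k, hg1, hg2, hg3, hg4, hg5⟩ := auto_form γ
  obtain ⟨g', k', hg1', hg2', hg3', hg4', hg5'⟩ := auto_form δ
  have hgk : g = g' := by
    ext1 a
    have h3 := congrArg Subtype.val (hγδ ⟨vert a, (isAtom_iff h _).2 rfl⟩)
    rw [smul_vert_val, smul_vert_val] at h3
    change γ (vert a) = δ (vert a) at h3
    rw [hg1, hg1'] at h3
    injection h3
  subst hgk
  apply DFunLike.ext
  intro x
  cases x with
  | bot => exact γ.map_bot.trans δ.map_bot.symm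
  | vert a => rw [hg1, hg1']
  | edge s =>
    obtain ⟨t, ht, ht1⟩ := hg2 s
    obtain ⟨t', ht', ht1'⟩ := hg2' s
    rw [ht, ht']
    congr 1
    exact Subtype.ext (ht1.trans ht1'.symm)
  | face s =>
    obtain ⟨t, ht, ht1⟩ := hg3 s
    obtain ⟨t', ht', ht1'⟩ := hg3' s
    rw [ht, ht']
    congr 1
    exact Subtype.ext (ht1.trans ht1'.symm)
  | facet y =>
    rw [hg4, hg4']
    congr 1
    exact syn_facts.2.2.2 (g 0) _ _ ((hg5 y 0).symm.trans (hg5' y 0))
  | top => exact γ.map_top.trans δ.map_top.symm

/-- Job F4X3-4. Proof: as `idchiral_vert` in `IdChiral.lean`. -/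
theorem exists_vert : ∃ δ : Fin 6 ≃ Vert X6, ∀ a, (δ a).1 = vert a := by
  refine ⟨Equiv.ofBijective (fun a => ⟨vert a, (isAtom_iff isPolytope _).2 rfl⟩) ⟨?_, ?_⟩,
    fun a => rfl⟩
  · intro a b hab
    have h1 := congrArg Subtype.val hab
    exact vert.inj h1
  · rintro ⟨x, hx⟩
    have h1 := (isAtom_iff isPolytope x).1 hx
    cases x with
    | vert a => exact ⟨a, rfl⟩
    | bot => simp [rk] at h1
    | edge s => simp [rk] at h1
    | face s => simp [rk] at h1
    | facet a => simp [rk] at h1
    | top => simp [rk] at h1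

/-- Job F4X3-5. Proof: the only pair containing `a ≠ b` is `{a, b}`. -/
theorem simple : SimpleComplete rk := by
  intro x y hx hy hxy
  cases x with
  | vert a =>
    cases y with
    | vert b =>
      have hab : a ≠ b := fun h => hxy (by rw [h])
      refine ⟨edge ⟨{a, b}, Finset.card_pair hab⟩, ⟨rfl, ?_, ?_⟩, ?_⟩
      · change a ∈ ({a, b} : Finset (Fin 6))
        simp
      · change b ∈ ({a, b} : Finset (Fin 6))
        simp
      · rintro e ⟨he, he1, he2⟩
        cases e with
        | edge r =>
          have h1 : a ∈ r.1 := he1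
          have h2 : b ∈ r.1 := he2
          have h3 : ({a, b} : Finset (Fin 6)) = r.1 := by
            apply Finset.eq_of_subset_of_card_le
            · intro z hz
              simp only [Finset.mem_insert, Finset.mem_singleton] at hz
              rcases hz with rfl | rfl
              · exact h1
              · exact h2
            · rw [r.2, Finset.card_pair hab]
          have h4 : r = ⟨{a, b}, Finset.card_pair hab⟩ := Subtype.ext h3.symm
          rw [h4]
        | bot => simp [rk] at he
        | vert j => simp [rk] at he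
        | face j => simp [rk] at he
        | facet j => simp [rk] at he
        | top => simp [rk] at he
    | bot => simp [rk] at hy
    | edge j => simp [rk] at hy
    | face j => simp [rk] at hy
    | facet j => simp [rk] at hy
    | top => simp [rk] at hy
  | bot => simp [rk] at hx
  | edge j => simp [rk] at hx
  | face j => simp [rk] at hx
  | facet j => simp [rk] at hx
  | top => simp [rk] at hx

theorem f4x3_four (a b : Fin 6) (h : a ≠ b) :
    (Finset.univ.filter fun y : Fin 5 => ∀ c ∈ ({a, b} : Finset (Fin 6)),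
      syn y c ∉ ({a, b} : Finset (Fin 6))).card = 4 := by
  revert a b
  decide

/-- Job F4X3-6. Proof: for `a ≠ b` there are exactly 4 facets `y` with `syn y a ≠ b` (`decide`). -/
theorem fourType : FourType rk := by
  intro e he
  cases e with
  | edge s =>
    obtain ⟨a, b, hab, hs⟩ := Finset.card_eq_two.1 s.2
    have hset : {G : X6 | edge s ≤ G ∧ rk G = 3} =
        facet '' ((Finset.univ.filter fun y : Fin 5 => ∀ c ∈ ({a, b} : Finset (Fin 6)),
      syn y c ∉ ({a, b} : Finset (Fin 6)) : Finset (Fin 5)) : Set (Fin 5)) := by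
      ext G
      constructor
      · rintro ⟨h1, h2⟩
        cases G with
        | facet y =>
          refine ⟨y, ?_, rfl⟩
          have h3 : ∀ c ∈ s.1, syn y c ∉ s.1 := h1
          rw [hs] at h3
          simpa using h3
        | bot => simp [rk] at h2
        | vert a => simp [rk] at h2
        | edge s => simp [rk] at h2
        | face s => simp [rk] at h2
        | top => simp [rk] at h2
      · rintro ⟨y, hy, rfl⟩
        refine ⟨?_, rfl⟩
        change ∀ c ∈ s.1, syn y c ∉ s.1
        rw [hs]
        exact (Finset.mem_filter.1 (Finset.mem_coe.1 hy)).2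
    rw [hset, Set.ncard_image_of_injective _ (fun y y' h => facet.inj h),
      Set.ncard_coe_finset, f4x3_four a b hab]
  | bot => simp [rk] at he
  | vert a => simp [rk] at he
  | face s => simp [rk] at he
  | facet y => simp [rk] at he
  | top => simp [rk] at he

end X6

end Pool.Agent.H.MP_6268b4_co
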