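import Pool.Agent.H.MP_6268b4_co.F4X3
import Pool.Agent.H.MP_6268b4_co.TChi

/-!
The exceptional polytope: generators, chirality.
-/

namespace Pool.Agent.H.MP_6268b4_co

/-- if two tuples agree at the neighbours of `i` and differ at `i`, the face of rank `i` of the
second tuple is the face of rank `i` of the adjacent tuple -/
lemma f4x4_upd {P : Type*} [PartialOrder P] [BoundedOrder P] {rk : P → ℤ}
    (h : IsPolytope 4 P rk) (Φ T : Tup P rk) (i : Fin 4) (hT : T.1 i ≠ Φ.1 i)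
    (h1 : ∀ k : Fin 4, (k : ℕ) + 1 = i → T.1 k = Φ.1 k)
    (h2 : ∀ k : Fin 4, (i : ℕ) + 1 = k → T.1 k = Φ.1 k) : (adj h i Φ).1 i = T.1 i := by
  obtain ⟨X, hX1, hX2⟩ := exists_upd Φ i (T.1 i) (T.hrk i)
    (fun k hk => by
      rw [← h1 k hk]
      apply T.le
      change (k : ℕ) ≤ i
      omega)
    (fun k hk => by
      rw [← h2 k hk]
      apply T.le
      change (i : ℕ) ≤ k
      omega)
  rw [← adj_unique h i Φ X (by rw [hX1]; exact hT) hX2, hX1]

/-- two tuples which differ exactly in the faces of the two non-neighbouring ranks `i` and `j` -/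
lemma f4x4_two {P : Type*} [PartialOrder P] [BoundedOrder P] {rk : P → ℤ}
    (h : IsPolytope 4 P rk) (Φ T : Tup P rk) (i j : Fin 4) (hij : (i : ℕ) ≠ j)
    (hij1 : (i : ℕ) ≠ j + 1) (hij2 : (j : ℕ) ≠ i + 1) (hi : T.1 i ≠ Φ.1 i) (hj : T.1 j ≠ Φ.1 j)
    (hs : ∀ k, k ≠ i → k ≠ j → T.1 k = Φ.1 k) : T = adj h i (adj h j Φ) := by
  have hne : i ≠ j := fun he => hij (congrArg _ he)
  apply adj_unique
  · rw [adj_same h Φ hne]
    exact hi
  · intro k hk
    by_cases hkj : k = j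
    · subst hkj
      symm
      apply f4x4_upd h Φ T k hj
      · intro l hl
        apply hs
        · rintro rfl
          omega
        · rintro rfl
          omega
      · intro l hl
        apply hs
        · rintro rfl
          omega
        · rintro rfl
          omega
    · rw [adj_same h Φ hkj]
      exact hs k hk hkj

namespace X6

/-- The edge `{5, 0}`. -/
def f4x4_e : {s : Finset (Fin 6) // s.card = 2} := ⟨{5, 0}, by decide⟩

/-- The face `{5, 0, 3}`. -/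
def f4x4_f : {s : Finset (Fin 6) // s.card = 3} := ⟨{5, 0, 3}, by decide⟩

/-- The tuple `vert 5 < edge {5, 0} < face {5, 0, 3} < facet y`. -/
lemma f4x4_base (y : Fin 5) (hy : syn y 5 ≠ 0 ∧ syn y 5 ≠ 3 ∧ syn y 0 ≠ 3) :
    ∃ Ψ : Tup X6 rk, Ψ.1 0 = vert 5 ∧ Ψ.1 1 = edge f4x4_e ∧ Ψ.1 2 = face f4x4_f ∧
      Ψ.1 3 = facet y := by
  obtain ⟨f, hf⟩ : ∃ f : Fin 4 → X6, f = ![vert 5, edge f4x4_e, face f4x4_f, facet y] := ⟨_, rfl⟩
  have f0 : f 0 = vert 5 := by rw [hf]; rfl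
  have f1 : f 1 = edge f4x4_e := by rw [hf]; rfl
  have f2 : f 2 = face f4x4_f := by rw [hf]; rfl
  have f3 : f 3 = facet y := by rw [hf]; rfl
  have l01 : f 0 ≤ f 1 := by
    rw [f0, f1, le_def]
    change (5 : Fin 6) ∈ ({5, 0} : Finset (Fin 6))
    decide
  have l12 : f 1 ≤ f 2 := by
    rw [f1, f2, le_def]
    change ({5, 0} : Finset (Fin 6)) ⊆ {5, 0, 3}
    decide
  have l23 : f 2 ≤ f 3 := by
    rw [f2, f3]
    exact ((face_facet f4x4_f rfl y).2 hy).le
  have frk : ∀ i : Fin 4, rk (f i) = (i : ℕ) := by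
    intro i
    fin_cases i
    · change rk (f 0) = _
      rw [f0]; rfl
    · change rk (f 1) = _
      rw [f1]; rfl
    · change rk (f 2) = _
      rw [f2]; rfl
    · change rk (f 3) = _
      rw [f3]; rfl
  have fmono : ∀ i j : Fin 4, i ≤ j → f i ≤ f j := by
    intro i j hij
    fin_cases i <;> fin_cases j <;> first
      | exact le_refl _
      | exact l01
      | exact l12
      | exact l23
      | exact l01.trans l12
      | exact l12.trans l23
      | exact (l01.trans l12).trans l23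
      | exact absurd hij (by decide)
  exact ⟨⟨f, frk, fmono⟩, f0, f1, f2, f3⟩

/-- the image of the edge `{5, 0}` -/
lemma f4x4_edge (γ : X6 ≃o X6) (g : Equiv.Perm (Fin 6))
    (h2 : ∀ s, ∃ s', γ (edge s) = edge s' ∧ s'.1 = s.1.map g.toEmbedding) :
    ∃ s', γ (edge f4x4_e) = edge s' ∧ s'.1 = {g 5, g 0} := by
  obtain ⟨s', h3, h4⟩ := h2 f4x4_e
  refine ⟨s', h3, ?_⟩
  rw [h4]
  change (({5, 0} : Finset (Fin 6)).map g.toEmbedding) = _
  simp [Finset.map_insert]

/-- the image of the face `{5, 0, 3}` -/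
lemma f4x4_face (γ : X6 ≃o X6) (g : Equiv.Perm (Fin 6))
    (h2 : ∀ s, ∃ s', γ (face s) = face s' ∧ s'.1 = s.1.map g.toEmbedding) :
    ∃ s', γ (face f4x4_f) = face s' ∧ s'.1 = {g 5, g 0, g 3} := by
  obtain ⟨s', h3, h4⟩ := h2 f4x4_f
  refine ⟨s', h3, ?_⟩
  rw [h4]
  change (({5, 0, 3} : Finset (Fin 6)).map g.toEmbedding) = _
  simp [Finset.map_insert]

lemma f4x4_edge_eq {s s' : {s : Finset (Fin 6) // s.card = 2}} (h : (edge s : X6) = edge s') :
    s.1 = s'.1 := by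
  injection h with h
  exact congrArg Subtype.val h

lemma f4x4_face_eq {s s' : {s : Finset (Fin 6) // s.card = 3}} (h : (face s : X6) = face s') :
    s.1 = s'.1 := by
  injection h with h
  exact congrArg Subtype.val h

/-- the element `τ` -/
lemma f4x4_tau (Ψ : Tup X6 rk) (y : Fin 5) (p0 : Ψ.1 0 = vert 5) (p1 : Ψ.1 1 = edge f4x4_e)
    (p2 : Ψ.1 2 = face f4x4_f) (p3 : Ψ.1 3 = facet y) (γ : X6 ≃o X6) (g : Equiv.Perm (Fin 6))
    (k : Equiv.Perm (Fin 5)) (h1 : ∀ a, γ (vert a) = vert (g a))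
    (h2 : ∀ s, ∃ s', γ (edge s) = edge s' ∧ s'.1 = s.1.map g.toEmbedding)
    (h3 : ∀ s, ∃ s', γ (face s) = face s' ∧ s'.1 = s.1.map g.toEmbedding)
    (h4 : ∀ y, γ (facet y) = facet (k y)) (g5 : g 5 = 0) (g0 : g 0 = 5) (g3 : g 3 ≠ 3)
    (ky : k y = y) :
    tmap isPolytope isPolytope γ Ψ = adj isPolytope 0 (adj isPolytope 2 Ψ) := by
  apply f4x4_two
  · decide
  · decide
  · decide
  · rw [tmap_apply, p0, h1, g5]
    simp
  · obtain ⟨s', h5, h6⟩ := f4x4_face γ g h3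
    rw [tmap_apply, p2, h5]
    intro he
    have he2 := f4x4_face_eq he
    rw [h6, g5, g0] at he2
    change ({0, 5, g 3} : Finset (Fin 6)) = {5, 0, 3} at he2
    have he3 : (3 : Fin 6) ∈ ({0, 5, g 3} : Finset (Fin 6)) := by
      rw [he2]
      decide
    simp only [Finset.mem_insert, Finset.mem_singleton] at he3
    rcases he3 with he3 | he3 | he3
    · exact absurd he3 (by decide)
    · exact absurd he3 (by decide)
    · exact g3 he3.symm
  · intro k' hk1 hk2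
    have hk : k' = 1 ∨ k' = 3 := by
      revert k'
      decide
    rcases hk with rfl | rfl
    · obtain ⟨s', h5, h6⟩ := f4x4_edge γ g h2
      rw [tmap_apply, p1, h5]
      congr 1
      apply Subtype.ext
      rw [h6, g5, g0]
      change ({0, 5} : Finset (Fin 6)) = {5, 0}
      decide
    · rw [tmap_apply, p3, h4, ky]

/-- the element `j` -/
lemma f4x4_j (Ψ : Tup X6 rk) (y : Fin 5) (p0 : Ψ.1 0 = vert 5) (p1 : Ψ.1 1 = edge f4x4_e)
    (p2 : Ψ.1 2 = face f4x4_f) (p3 : Ψ.1 3 = facet y) (γ : X6 ≃o X6) (g : Equiv.Perm (Fin 6))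
    (k : Equiv.Perm (Fin 5)) (h1 : ∀ a, γ (vert a) = vert (g a))
    (h2 : ∀ s, ∃ s', γ (edge s) = edge s' ∧ s'.1 = s.1.map g.toEmbedding)
    (h3 : ∀ s, ∃ s', γ (face s) = face s' ∧ s'.1 = s.1.map g.toEmbedding)
    (h4 : ∀ y, γ (facet y) = facet (k y)) (g5 : g 5 = 5) (g0 : g 0 = 3) (g3 : g 3 = 0)
    (ky : k y ≠ y) :
    tmap isPolytope isPolytope γ Ψ = adj isPolytope 3 (adj isPolytope 1 Ψ) := by
  apply f4x4_two
  · decide
  · decide
  · decide
  · rw [tmap_apply, p3, h4]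
    intro he
    injection he with he
    exact ky he
  · obtain ⟨s', h5, h6⟩ := f4x4_edge γ g h2
    rw [tmap_apply, p1, h5]
    intro he
    have he2 := f4x4_edge_eq he
    rw [h6, g5, g0] at he2
    change ({5, 3} : Finset (Fin 6)) = {5, 0} at he2
    exact absurd he2 (by decide)
  · intro k' hk1 hk2
    have hk : k' = 0 ∨ k' = 2 := by
      revert k'
      decide
    rcases hk with rfl | rfl
    · rw [tmap_apply, p0, h1, g5]
    · obtain ⟨s', h5, h6⟩ := f4x4_face γ g h3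
      rw [tmap_apply, p2, h5]
      congr 1
      apply Subtype.ext
      rw [h6, g5, g0, g3]
      change ({5, 3, 0} : Finset (Fin 6)) = {5, 0, 3}
      decide

/-- the element `σ` -/
lemma f4x4_sigma (Ψ : Tup X6 rk) (y : Fin 5) (p0 : Ψ.1 0 = vert 5) (p1 : Ψ.1 1 = edge f4x4_e)
    (p2 : Ψ.1 2 = face f4x4_f) (p3 : Ψ.1 3 = facet y) (γ : X6 ≃o X6) (g : Equiv.Perm (Fin 6))
    (k : Equiv.Perm (Fin 5)) (h1 : ∀ a, γ (vert a) = vert (g a))
    (h2 : ∀ s, ∃ s', γ (edge s) = edge s' ∧ s'.1 = s.1.map g.toEmbedding)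
    (h3 : ∀ s, ∃ s', γ (face s) = face s' ∧ s'.1 = s.1.map g.toEmbedding)
    (h4 : ∀ y, γ (facet y) = facet (k y)) (g5 : g 5 = 5) (g0 : g 0 = 0) (g3 : g 3 ≠ 3)
    (ky : k y ≠ y) (hy : syn (k y) 5 ≠ 0 ∧ syn (k y) 5 ≠ 3 ∧ syn (k y) 0 ≠ 3) :
    tmap isPolytope isPolytope γ Ψ = adj isPolytope 2 (adj isPolytope 3 Ψ) := by
  obtain ⟨M, m0, m1, m2, m3⟩ := f4x4_base (k y) hy
  have hM : M = adj isPolytope 3 Ψ := by
    apply adj_unique
    · rw [m3, p3]
      intro he
      injection he with he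
      exact ky he
    · intro k' hk1
      have hk : k' = 0 ∨ k' = 1 ∨ k' = 2 := by
        revert k'
        decide
      rcases hk with rfl | rfl | rfl
      · rw [m0, p0]
      · rw [m1, p1]
      · rw [m2, p2]
  rw [← hM]
  apply adj_unique
  · obtain ⟨s', h5, h6⟩ := f4x4_face γ g h3
    rw [tmap_apply, p2, m2, h5]
    intro he
    have he2 := f4x4_face_eq he
    rw [h6, g5, g0] at he2
    change ({5, 0, g 3} : Finset (Fin 6)) = {5, 0, 3} at he2
    have he3 : (3 : Fin 6) ∈ ({5, 0, g 3} : Finset (Fin 6)) := by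
      rw [he2]
      decide
    simp only [Finset.mem_insert, Finset.mem_singleton] at he3
    rcases he3 with he3 | he3 | he3
    · exact absurd he3 (by decide)
    · exact absurd he3 (by decide)
    · exact g3 he3.symm
  · intro k' hk1
    have hk : k' = 0 ∨ k' = 1 ∨ k' = 3 := by
      revert k'
      decide
    rcases hk with rfl | rfl | rfl
    · rw [tmap_apply, p0, m0, h1, g5]
    · obtain ⟨s', h5, h6⟩ := f4x4_edge γ g h2
      rw [tmap_apply, p1, m1, h5]
      congr 1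
      apply Subtype.ext
      rw [h6, g5, g0]
      rfl
    · rw [tmap_apply, p3, m3, h4]

/-- Job F4X4-1. Generators for the base flag `vert 5 < edge {5, 0} < face {5, 0, 3} < facet 0`.

Proof. The base tuple `Ψ`: `5 ∈ {5, 0} ⊆ {5, 0, 3}`, and `syn 0` maps `5, 0, 3` to `1, 2, 4`. Let (as functions
given by their values at `0, 1, 2, 3, 4, 5`) `gτ = (5, 2, 1, 4, 3, 0)`, `kτ = (0, 2, 1, 3, 4)`;
`gj = (3, 2, 1, 0, 4, 5)`, `kj = (1, 0, 4, 3, 2)`; `gσ = (0, 2, 4, 1, 3, 5)`, `kσ = (1, 3, 0, 2, 4)`. They are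
permutations and compatible with `syn` (`decide`), so `exists_auto` gives automorphisms `τ, j, σ`.
`τ Ψ = (0, {5, 0}, {5, 0, 4}, facet 0)` differs from `Ψ` exactly in ranks 0 and 2, so it is
`adj 0 (adj 2 Ψ)`. `j Ψ = (5, {5, 3}, {5, 0, 3}, facet 1)` is `adj 3 (adj 1 Ψ)`. `σ Ψ = (5, {5, 0}, {5, 0, 1},
facet 1)`; `adj 3 Ψ = (5, {5, 0}, {5, 0, 3}, facet 1)`, so `σ Ψ = adj 2 (adj 3 Ψ)`. (See `CR.generators` and
the lemmas `crchirala_two`, `crchirala_upd` in `CRChiralA.lean`; copy these lemmas with the prefix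
`f4x4_`, do not import the file.) -/
theorem generators :
    ∃ (Ψ : Tup X6 rk) (τ j σ : X6 ≃o X6),
      Ψ.1 0 = vert 5 ∧ (∃ s, Ψ.1 1 = edge s ∧ s.1 = {5, 0}) ∧
      (∃ s, Ψ.1 2 = face s ∧ s.1 = {5, 0, 3}) ∧ Ψ.1 3 = facet 0 ∧
      tmap isPolytope isPolytope τ Ψ = adj isPolytope 0 (adj isPolytope 2 Ψ) ∧
      tmap isPolytope isPolytope j Ψ = adj isPolytope 3 (adj isPolytope 1 Ψ) ∧
      tmap isPolytope isPolytope σ Ψ = adj isPolytope 2 (adj isPolytope 3 Ψ) ∧
      (∀ a, τ (vert a) = vert (![5, 2, 1, 4, 3, 0] a)) ∧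
      (∀ a, j (vert a) = vert (![3, 2, 1, 0, 4, 5] a)) ∧
      (∀ a, σ (vert a) = vert (![0, 2, 4, 1, 3, 5] a)) := by
  obtain ⟨Ψ, p0, p1, p2, p3⟩ := f4x4_base 0 (by decide)
  obtain ⟨τ, t1, t2, t3, t4⟩ := exists_auto
    ⟨![5, 2, 1, 4, 3, 0], ![5, 2, 1, 4, 3, 0], by unfold Function.LeftInverse; decide,
      by unfold Function.RightInverse Function.LeftInverse; decide⟩
    ⟨![0, 2, 1, 3, 4], ![0, 2, 1, 3, 4], by unfold Function.LeftInverse; decide,
      by unfold Function.RightInverse Function.LeftInverse; decide⟩ (by decide)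
  obtain ⟨j, j1, j2, j3, j4⟩ := exists_auto
    ⟨![3, 2, 1, 0, 4, 5], ![3, 2, 1, 0, 4, 5], by unfold Function.LeftInverse; decide,
      by unfold Function.RightInverse Function.LeftInverse; decide⟩
    ⟨![1, 0, 4, 3, 2], ![1, 0, 4, 3, 2], by unfold Function.LeftInverse; decide,
      by unfold Function.RightInverse Function.LeftInverse; decide⟩ (by decide)
  obtain ⟨σ, s1, s2, s3, s4⟩ := exists_auto
    ⟨![0, 2, 4, 1, 3, 5], ![0, 3, 1, 4, 2, 5], by unfold Function.LeftInverse; decide,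
      by unfold Function.RightInverse Function.LeftInverse; decide⟩
    ⟨![1, 3, 0, 2, 4], ![2, 0, 3, 1, 4], by unfold Function.LeftInverse; decide,
      by unfold Function.RightInverse Function.LeftInverse; decide⟩ (by decide)
  exact ⟨Ψ, τ, j, σ, p0, ⟨_, p1, rfl⟩, ⟨_, p2, rfl⟩, p3,
    f4x4_tau Ψ 0 p0 p1 p2 p3 τ _ _ t1 t2 t3 t4 (by decide) (by decide) (by decide) (by decide),
    f4x4_j Ψ 0 p0 p1 p2 p3 j _ _ j1 j2 j3 j4 (by decide) (by decide) (by decide) (by decide),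
    f4x4_sigma Ψ 0 p0 p1 p2 p3 σ _ _ s1 s2 s3 s4 (by decide) (by decide) (by decide) (by decide)
      (by decide), t1, j1, s1⟩

/-- Job F4X4-2. Generators for the base flag `vert 5 < edge {5, 0} < face {5, 0, 3} < facet 1`.

Proof. As before, with `gτ = (5, 3, 4, 1, 2, 0)`, `kτ = (3, 1, 2, 0, 4)`; `gj = (3, 2, 1, 0, 4, 5)`,
`kj = (1, 0, 4, 3, 2)`; `gσ = (0, 3, 1, 4, 2, 5)`, `kσ = (2, 0, 3, 1, 4)`. (Alternatively: if `Ψ, τ, j, σ` are
as in `generators` take `adj 3 Ψ`, `σ * σ * τ`, `j`, `σ⁻¹`; see `idchiral_tup` in `IdChiral.lean`.) -/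
theorem generators' :
    ∃ (Ψ : Tup X6 rk) (τ j σ : X6 ≃o X6),
      tmap isPolytope isPolytope τ Ψ = adj isPolytope 0 (adj isPolytope 2 Ψ) ∧
      tmap isPolytope isPolytope j Ψ = adj isPolytope 3 (adj isPolytope 1 Ψ) ∧
      tmap isPolytope isPolytope σ Ψ = adj isPolytope 2 (adj isPolytope 3 Ψ) ∧
      (∀ a, τ (vert a) = vert (![5, 3, 4, 1, 2, 0] a)) ∧
      (∀ a, j (vert a) = vert (![3, 2, 1, 0, 4, 5] a)) ∧
      (∀ a, σ (vert a) = vert (![0, 3, 1, 4, 2, 5] a)) := by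
  obtain ⟨Ψ, p0, p1, p2, p3⟩ := f4x4_base 1 (by decide)
  obtain ⟨τ, t1, t2, t3, t4⟩ := exists_auto
    ⟨![5, 3, 4, 1, 2, 0], ![5, 3, 4, 1, 2, 0], by unfold Function.LeftInverse; decide,
      by unfold Function.RightInverse Function.LeftInverse; decide⟩
    ⟨![3, 1, 2, 0, 4], ![3, 1, 2, 0, 4], by unfold Function.LeftInverse; decide,
      by unfold Function.RightInverse Function.LeftInverse; decide⟩ (by decide)
  obtain ⟨j, j1, j2, j3, j4⟩ := exists_auto
    ⟨![3, 2, 1, 0, 4, 5], ![3, 2, 1, 0, 4, 5], by unfold Function.LeftInverse; decide,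
      by unfold Function.RightInverse Function.LeftInverse; decide⟩
    ⟨![1, 0, 4, 3, 2], ![1, 0, 4, 3, 2], by unfold Function.LeftInverse; decide,
      by unfold Function.RightInverse Function.LeftInverse; decide⟩ (by decide)
  obtain ⟨σ, s1, s2, s3, s4⟩ := exists_auto
    ⟨![0, 3, 1, 4, 2, 5], ![0, 2, 4, 1, 3, 5], by unfold Function.LeftInverse; decide,
      by unfold Function.RightInverse Function.LeftInverse; decide⟩
    ⟨![2, 0, 3, 1, 4], ![1, 3, 0, 2, 4], by unfold Function.LeftInverse; decide,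
      by unfold Function.RightInverse Function.LeftInverse; decide⟩ (by decide)
  exact ⟨Ψ, τ, j, σ,
    f4x4_tau Ψ 1 p0 p1 p2 p3 τ _ _ t1 t2 t3 t4 (by decide) (by decide) (by decide) (by decide),
    f4x4_j Ψ 1 p0 p1 p2 p3 j _ _ j1 j2 j3 j4 (by decide) (by decide) (by decide) (by decide),
    f4x4_sigma Ψ 1 p0 p1 p2 p3 σ _ _ s1 s2 s3 s4 (by decide) (by decide) (by decide) (by decide)
      (by decide), t1, j1, s1⟩

/-- Job F4X4-3. Proof. `chiral_of_base` with `generators`; not regular: suppose it is regular. By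
`regular_tup` there is `γ` with `tmap γ Ψ = adj 3 Ψ`, `Ψ` as in `generators`. Let `g, k` be from
`auto_form`. `g 5 = 5`, `g 0 = 0` (edge `{5, 0}` is fixed), `g 3 = 3` (face `{5, 0, 3}` is fixed), and
`k 0 ≠ 0` (`adj_ne`); the face `{5, 0, 3}` is on `facet (k 0)`, so `syn (k 0) 5 ≠ 0, 3`, `syn (k 0) 0 ≠ 3`, so
`k 0 = 1` (`decide`). Then `g 1 = g (syn 0 5) = syn 1 5 = 2`, `g 2 = g (syn 0 0) = syn 1 0 = 4`,
`g 4 = g (syn 0 3) = syn 1 3 = 1`. With `x = k 1`: `4 = g 2 = g (syn 1 5) = syn x 5`, so `x = 3`, and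
`g (syn 1 0) = g 4 = 1`, but `syn 3 (g 0) = syn 3 0 = 3`: contradiction. -/
theorem chiral : IsChiral X6 := by
  obtain ⟨Ψ, τ, j, σ, p0, ⟨s1, p1, hs1⟩, ⟨s2, p2, hs2⟩, p3, hτ, hj, hσ, -, -, -⟩ := generators
  apply chiral_of_base isPolytope Ψ ⟨τ, hτ⟩ ⟨j, hj⟩ ⟨σ, hσ⟩
  intro hR
  obtain ⟨γ, hγ⟩ := regular_tup isPolytope hR Ψ (adj isPolytope 3 Ψ)
  obtain ⟨g, k, h1, h2, h3, h4, h5⟩ := auto_form γ
  have q : ∀ i, γ (Ψ.1 i) = (adj isPolytope 3 Ψ).1 i := by
    intro i
    rw [← hγ, tmap_apply]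
  have e1 : s1 = f4x4_e := Subtype.ext hs1
  have e2 : s2 = f4x4_f := Subtype.ext hs2
  subst e1
  subst e2
  have g5 : g 5 = 5 := by
    have q0 := q 0
    rw [adj_same isPolytope Ψ (by decide), p0, h1] at q0
    injection q0
  have g0 : g 0 = 0 := by
    have q1 := q 1
    rw [adj_same isPolytope Ψ (by decide), p1] at q1
    obtain ⟨s', h6, h7⟩ := f4x4_edge γ g h2
    rw [h6] at q1
    have q2 := f4x4_edge_eq q1
    rw [h7, g5] at q2
    have q3 : g 0 ∈ ({5, g 0} : Finset (Fin 6)) := by simp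
    rw [q2] at q3
    have q4 : g 0 ∈ ({5, 0} : Finset (Fin 6)) := q3
    rw [Finset.mem_insert, Finset.mem_singleton] at q4
    rcases q4 with q4 | q4
    · rw [← g5] at q4
      exact absurd (g.injective q4) (by decide)
    · exact q4
  have g3 : g 3 = 3 := by
    have q1 := q 2
    rw [adj_same isPolytope Ψ (by decide), p2] at q1
    obtain ⟨s', h6, h7⟩ := f4x4_face γ g h3
    rw [h6] at q1
    have q2 := f4x4_face_eq q1
    rw [h7, g5, g0] at q2
    have q3 : g 3 ∈ ({5, 0, g 3} : Finset (Fin 6)) := by simp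
    rw [q2] at q3
    have q4 : g 3 ∈ ({5, 0, 3} : Finset (Fin 6)) := q3
    simp only [Finset.mem_insert, Finset.mem_singleton] at q4
    rcases q4 with q4 | q4 | q4
    · rw [← g5] at q4
      exact absurd (g.injective q4) (by decide)
    · rw [← g0] at q4
      exact absurd (g.injective q4) (by decide)
    · exact q4
  have q3 := q 3
  rw [p3, h4] at q3
  have k0 : k 0 ≠ 0 := by
    intro he
    rw [he, ← p3] at q3
    exact adj_ne isPolytope 3 Ψ q3.symm
  have hf : face f4x4_f < facet (k 0) := by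
    have h8 := (adj isPolytope 3 Ψ).lt (i := 2) (j := 3) (by decide)
    rw [← q3, adj_same isPolytope Ψ (by decide), p2] at h8
    exact h8
  have hf2 := (face_facet f4x4_f rfl (k 0)).1 hf
  have hk : k 0 = 1 := by
    revert k0 hf2
    generalize k 0 = x
    revert x
    decide
  have g1 : g 1 = 2 := by
    have h8 := h5 0 5
    rw [hk, g5] at h8
    exact h8
  have g2 : g 2 = 4 := by
    have h8 := h5 0 0
    rw [hk, g0] at h8
    exact h8
  have g4 : g 4 = 1 := by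
    have h8 := h5 0 3
    rw [hk, g3] at h8
    exact h8
  have h9 := h5 1 5
  have h10 := h5 1 0
  rw [g5] at h9
  rw [g0] at h10
  have h11 : syn (k 1) 5 = 4 := by
    rw [← h9]
    exact g2
  have h12 : syn (k 1) 0 = 1 := by
    rw [← h10]
    exact g4
  revert h11 h12
  generalize k 1 = x
  revert x
  decide

end X6

end Pool.Agent.H.MP_6268b4_co
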