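import Pool.Agent.H.MP_6268b4_co.MGenB
import Pool.Agent.H.MP_6268b4_co.GDefs

/-!
The exceptional polytope with 6 vertices, 15 edges, 20 triangles and 5 octahedral facets.
-/

namespace Pool.Agent.H.MP_6268b4_co

/-- Five partitions of `{0, 1, 2, 3, 4, 5}` into three pairs such that each pair occurs in exactly one
of the partitions: `syn y a` is the element paired with `a` in the partition `y`. -/
def syn : Fin 5 → Fin 6 → Fin 6 :=
  ![![2, 5, 0, 4, 3, 1], ![4, 3, 5, 1, 0, 2], ![1, 0, 4, 5, 2, 3], ![3, 2, 1, 0, 5, 4],
    ![5, 4, 3, 2, 1, 0]]

/-- The faces of the exceptional polytope: the edges are the pairs of vertices, the 2-faces are the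
triples of vertices, the facets are the five partitions. -/
inductive X6 : Type
  | bot : X6
  | vert : Fin 6 → X6
  | edge : {s : Finset (Fin 6) // s.card = 2} → X6
  | face : {s : Finset (Fin 6) // s.card = 3} → X6
  | facet : Fin 5 → X6
  | top : X6

namespace X6

/-- The order: vertices, edges and 2-faces are ordered by inclusion; all vertices are on all facets;
an edge or a 2-face is on a facet if it does not contain a pair of the partition. -/
def le : X6 → X6 → Prop
  | bot, _ => True
  | _, top => True
  | vert a, vert b => a = b
  | vert a, edge s => a ∈ s.1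
  | vert a, face s => a ∈ s.1
  | vert _, facet _ => True
  | edge s, edge s' => s = s'
  | edge s, face s' => s.1 ⊆ s'.1
  | edge s, facet y => ∀ a ∈ s.1, syn y a ∉ s.1
  | face s, face s' => s = s'
  | face s, facet y => ∀ a ∈ s.1, syn y a ∉ s.1
  | facet x, facet y => x = y
  | _, _ => False

/-- The rank. -/
def rk : X6 → ℤ
  | bot => -1
  | vert _ => 0
  | edge _ => 1
  | face _ => 2
  | facet _ => 3
  | top => 4

instance : PartialOrder X6 where
  le := le
  le_refl x := by cases x <;> simp [le]
  le_trans x y z := by
    cases x <;> cases y <;> cases z <;> simp only [le, imp_self, implies_true, true_imp_iff,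
      false_imp_iff, imp_false, not_true_eq_false, not_false_eq_true] <;> intro h1 h2
    all_goals first
      | (subst h1; exact h2)
      | (subst h2; exact h1)
      | exact h2 h1
      | (intro a ha h3; exact h2 a (h1 ha) (h1 h3))
  le_antisymm x y := by
    cases x <;> cases y <;> simp only [le, imp_self, implies_true, true_imp_iff,
      false_imp_iff, imp_false, not_true_eq_false, not_false_eq_true] <;> intro h1
    all_goals first
      | (subst h1; rfl)
      | (intro h2; subst h1; rfl)
      | skip

instance : BoundedOrder X6 where
  top := top
  le_top x := by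
    change le x top
    cases x <;> simp [le]
  bot := bot
  bot_le x := by
    change le bot x
    cases x <;> simp [le]

lemma le_def (x y : X6) : x ≤ y ↔ le x y := Iff.rfl

lemma top_def : (⊤ : X6) = top := rfl

lemma bot_def : (⊥ : X6) = bot := rfl

end X6

end Pool.Agent.H.MP_6268b4_co
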