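import Pool.Agent.H.MP_6268b4_co.IdChiral
import Pool.Agent.H.MP_6268b4_co.TTri
import Pool.Agent.H.MP_6268b4_co.CCoordA
import Pool.Agent.H.MP_6268b4_co.CCoordB
import Pool.Agent.H.MP_6268b4_co.CMainD
import Pool.Agent.H.MP_6268b4_co.Transport

/-!
The classification of the chiral polytopes.
-/

namespace Pool.Agent.H.MP_6268b4_co

theorem finc_le_two {F : Type*} [Field F] [Fintype F] [DecidableEq F] {ω : F}
    (hω : ∀ z : F, z ≠ 0 → ∃ i : ℕ, z = ω ^ i) (h : ω = 0 ∨ ω = 1) : Fintype.card F ≤ 2 := by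
  have h1 : (Finset.univ : Finset F) ⊆ {0, 1} := by
    intro z _
    rw [Finset.mem_insert, Finset.mem_singleton]
    by_cases hz : z = 0
    · exact Or.inl hz
    · right
      obtain ⟨i, hi⟩ := hω z hz
      rcases h with h | h
      · rw [h] at hi
        rcases Nat.eq_zero_or_pos i with h0 | h0
        · rw [hi, h0, pow_zero]
        · rw [zero_pow (by omega)] at hi
          exact absurd hi hz
      · rw [hi, h, one_pow]
  have h2 := Finset.card_le_card h1
  rw [Finset.card_univ] at h2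
  exact h2.trans Finset.card_le_two

theorem finc_le_four {F : Type*} [Field F] [Fintype F] [DecidableEq F] {ω : F}
    (hω : ∀ z : F, z ≠ 0 → ∃ i : ℕ, z = ω ^ i) (h : ω ^ 3 = 1) : Fintype.card F ≤ 4 := by
  have h1 : (Finset.univ : Finset F) ⊆ {0, 1, ω, ω ^ 2} := by
    intro z _
    simp only [Finset.mem_insert, Finset.mem_singleton]
    by_cases hz : z = 0
    · exact Or.inl hz
    · right
      obtain ⟨i, hi⟩ := hω z hz
      have h3 : ω ^ i = ω ^ (i % 3) := by
        conv_lhs => rw [← Nat.div_add_mod i 3, pow_add, pow_mul, h, one_pow, one_mul]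
      rw [hi, h3]
      have h4 : i % 3 < 3 := Nat.mod_lt _ (by norm_num)
      interval_cases i % 3
      · left; exact pow_zero _
      · right; left; exact pow_one _
      · right; right; rfl
  have h2 := Finset.card_le_card h1
  rw [Finset.card_univ] at h2
  exact h2.trans Finset.card_le_four

theorem finc_pow_three {F : Type*} [Field F] {ω : F} (h2 : (2 : F) = 0)
    (h : ω ^ 2 + ω + 1 = 0) : ω ^ 3 = 1 := by
  have h3 : ω ^ 3 - 1 = (ω - 1) * (ω ^ 2 + ω + 1) := by ring
  rw [h, mul_zero] at h3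
  exact sub_eq_zero.1 h3

/-- Job FinC-1.

Proof. Let `Φ` be a tuple (`toTup` of some flag; flags exist, `exists_flag_mem ⊥`), `s i j` as in
`chiral_tup3`. `bridge_C` gives `CHyp`, `chi_four_le` gives `4 ≤ n`, `C_faithful` faithfulness,
`C_coord` the coordinates, `bridge_S` and `C_lam` give `lam * (1 + ω)^2 = 1`. `ω ≠ 0`, `ω ≠ 1`: if
`ω = 1` (or `0`) then every nonzero element is `1` (or there is no element `≠ 0, 1`; with
`0 ^ 0 = 1`), so `Fintype.card F ≤ 2`, but `Fintype.card F = n - 1 ≥ 3`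
(`Nat.card Ω = card F + 1` by `β`). By `chi_no_four` `ω^2 + ω + 1 ≠ 0`. `id_chiral_coord`.
`8 ≤ Fintype.card F`: the cardinality is a power of `2` (`FiniteField.card'`,
characteristic 2 from `h2`), at least 3, and not 4: if it is 4 then `ω^3 = 1` (`pow_card_sub_one`
: `FiniteField.pow_card_sub_one_eq_one`), `(ω + 1) (ω^2 + ω + 1) = ω^3 + 1 = 0` (char 2) so
`ω^2 + ω + 1 = 0`. -/
theorem chiral_forward {P : Type} [PartialOrder P] [BoundedOrder P] [Finite P] {rk : P → ℤ}
    (h : IsPolytope 4 P rk) (hC : IsChiral P) (hs : SimpleComplete rk) (ho : OddType rk) :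
    ∃ (F : Type) (_ : Field F) (_ : Fintype F) (_ : DecidableEq F) (ω : F), (2 : F) = 0 ∧
      8 ≤ Fintype.card F ∧ (∀ z : F, z ≠ 0 → ∃ i : ℕ, z = ω ^ i) ∧ Nonempty (P ≃o CR F ω) := by
  classical
  obtain ⟨A, -⟩ := exists_flag_mem (⊥ : P)
  obtain ⟨Φ, -⟩ : ∃ Φ : Tup P rk, Φ = toTup h A := ⟨_, rfl⟩
  choose s hs' using fun i j => chiral_tup3 h hC Φ i j
  have hH := bridge_C h hC hs ho hs'
  have hn : 4 ≤ Nat.card (Vert P) := chi_four_le h hs hC Φ
  have hf : FaithfulSMul (P ≃o P) (Vert P) := C_faithful hH hn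
  obtain ⟨F, iF, iFt, iD, ω, lam, β, h2, hcard, hlam, hω, hv, hw, hβσ, hβj, hβτ⟩ :=
    C_coord hH hn
  obtain ⟨S, hτ, hjσ, hS⟩ := bridge_S h hs' (fun i γ => chiral_tup1 h hC Φ i γ)
  have hl := C_lam hH hn S hτ hjσ hS ω lam β h2 hcard hlam hω hv hw hβσ hβj hβτ
  have hq : Nat.card (Vert P) = Fintype.card F + 1 := by
    rw [Nat.card_congr β, Nat.card_eq_fintype_card, Fintype.card_option]
  have hq3 : 3 ≤ Fintype.card F := by omega
  have h0 : ω ≠ 0 := by
    intro h0
    have := finc_le_two hω (Or.inl h0)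
    omega
  have h1 : ω ≠ 1 := by
    intro h1
    have := finc_le_two hω (Or.inr h1)
    omega
  have hω3 : ω ^ 2 + ω + 1 ≠ 0 := fun h3 =>
    chi_no_four h hs' hC hf β h2 h3 hl hβσ hβj hβτ
  refine ⟨F, iF, iFt, iD, ω, h2, ?_, hω,
    id_chiral_coord h hs' hC hf β h2 h0 h1 hω hω3 hl hlam hβσ hβj hβτ⟩
  haveI : CharP F 2 := CharTwo.of_one_ne_zero_of_two_eq_zero one_ne_zero h2
  obtain ⟨n, -, hn2⟩ := FiniteField.card F 2
  have h4 : Fintype.card F ≠ 4 := by
    intro h4
    have h5 := FiniteField.pow_card_sub_one_eq_one ω h0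
    rw [h4] at h5
    have h6 : (ω - 1) * (ω ^ 2 + ω + 1) = 0 := by
      have : (ω - 1) * (ω ^ 2 + ω + 1) = ω ^ (4 - 1) - 1 := by
        norm_num
        ring
      rw [this, h5, sub_self]
    rcases mul_eq_zero.1 h6 with h7 | h7
    · exact h1 (sub_eq_zero.1 h7)
    · exact hω3 h7
  have h5 : 3 ≤ (n : ℕ) := by
    by_contra h5
    push Not at h5
    have h6 : (n : ℕ) = 1 ∨ (n : ℕ) = 2 := by
      have := n.pos
      omega
    rcases h6 with h6 | h6
    · rw [h6] at hn2
      omega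
    · rw [h6] at hn2
      omega
  rw [hn2]
  calc 8 = 2 ^ 3 := by norm_num
    _ ≤ 2 ^ (n : ℕ) := Nat.pow_le_pow_right (by norm_num) h5

/-- Job FinC-2.

Proof. `ω ≠ 0`, `ω ≠ 1` and `ω^2 + ω + 1 ≠ 0` because `ω` has `Fintype.card F - 1 ≥ 7` different
powers (otherwise `ω^3 = 1` and at most `3` nonzero elements). `CR.isPolytope`, `CR.chiral`,
`CR.simple`, `CR.oddType`; transport along `P ≃o CR F ω` with `transport_poly`,
`transport_chiral`, `transport_simple`, `transport_odd`. -/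
theorem chiral_backward {P : Type*} [PartialOrder P] [BoundedOrder P] {F : Type*} [Field F]
    [Fintype F] [DecidableEq F] {ω : F} (h2 : (2 : F) = 0) (h8 : 8 ≤ Fintype.card F)
    (hω : ∀ z : F, z ≠ 0 → ∃ i : ℕ, z = ω ^ i) (f : P ≃o CR F ω) :
    ∃ rk : P → ℤ, IsPolytope 4 P rk ∧ IsChiral P ∧ SimpleComplete rk ∧ OddType rk := by
  have h0 : ω ≠ 0 := by
    intro h0
    have := finc_le_two hω (Or.inl h0)
    omega
  have h1 : ω ≠ 1 := by
    intro h1
    have := finc_le_two hω (Or.inr h1)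
    omega
  have hω3 : ω ^ 2 + ω + 1 ≠ 0 := by
    intro h3
    have := finc_le_four hω (finc_pow_three h2 h3)
    omega
  exact ⟨CR.rk ∘ f, transport_poly f (CR.isPolytope h2 h0 h1 hω),
    transport_chiral f (CR.chiral h2 h0 h1 hω hω3), transport_simple f CR.simple,
    transport_odd f (CR.oddType h2)⟩

end Pool.Agent.H.MP_6268b4_co
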