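import Pool.Agent.H.MP_6268b4_co.TVDefs
import Pool.Agent.H.MP_6268b4_co.TReg
import Pool.Agent.H.MP_6268b4_co.MGenB
import Pool.Agent.H.MP_6268b4_co.RLabelDefs

/-!
The 4-simplex `Finset (Fin 5)` is a regular polytope.
-/

namespace Pool.Agent.H.MP_6268b4_co

namespace Simplex

/-- the rank -/
def rk (S : Finset (Fin 5)) : ℤ := (S.card : ℤ) - 1

/-- Proof: `Finset.card_lt_card`; for `dense` insert one element of `G \ F` into `F`. -/
theorem graded : Graded4 (Finset (Fin 5)) rk := by
  refine ⟨?_, ?_, ?_, ?_⟩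
  · intro x y hxy
    have := Finset.card_lt_card hxy
    unfold rk
    omega
  · simp [rk]
  · simp [rk]
  · intro x y hxy h
    unfold rk at h
    obtain ⟨a, hay, hax⟩ := Finset.exists_of_ssubset hxy
    refine ⟨insert a x, Finset.ssubset_insert hax, ?_⟩
    refine lt_of_le_of_ne (Finset.insert_subset hay hxy.1) ?_
    intro he
    have h1 := Finset.card_insert_of_notMem hax
    rw [he] at h1
    omega

theorem simplexpoly_lt_insert {F : Finset (Fin 5)} {a : Fin 5} (ha : a ∉ F) : F < insert a F :=
  Finset.ssubset_insert ha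

theorem simplexpoly_insert_lt {F G : Finset (Fin 5)} {a : Fin 5} (hFG : F < G) (ha : a ∈ G)
    (hc : F.card + 2 ≤ G.card) : insert a F < G := by
  refine lt_of_le_of_ne (Finset.insert_subset ha hFG.1) ?_
  intro he
  have h1 := Finset.card_insert_le a F
  rw [he] at h1
  omega

theorem simplexpoly_insert2_lt {F G : Finset (Fin 5)} {a b : Fin 5} (hFG : F < G) (ha : a ∈ G)
    (hb : b ∈ G) (hc : F.card + 3 ≤ G.card) : insert a (insert b F) < G := by
  refine lt_of_le_of_ne (Finset.insert_subset ha (Finset.insert_subset hb hFG.1)) ?_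
  intro he
  have h1 := Finset.card_insert_le a (insert b F)
  have h2 := Finset.card_insert_le b F
  rw [he] at h1
  omega

/-- Proof: `G \ F = {a, b}`, and the sets strictly between are `insert a F`, `insert b F`. -/
theorem diamond : Diamond (Finset (Fin 5)) rk := by
  intro F G hFG hr
  unfold rk at hr
  have hc : (G \ F).card = 2 := by
    rw [Finset.card_sdiff_of_subset hFG.1]
    omega
  obtain ⟨a, b, hab, hset⟩ := Finset.card_eq_two.1 hc
  have hmem : ∀ c, (c ∈ G ∧ c ∉ F) ↔ (c = a ∨ c = b) := by
    intro c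
    have := Finset.ext_iff.1 hset c
    simpa using this
  have ha := (hmem a).2 (Or.inl rfl)
  have hb := (hmem b).2 (Or.inr rfl)
  rw [Set.ncard_eq_two]
  refine ⟨insert a F, insert b F, ?_, ?_⟩
  · intro he
    have h1 : a ∈ insert b F := by
      rw [← he]
      exact Finset.mem_insert_self a F
    rcases Finset.mem_insert.1 h1 with h2 | h2
    · exact hab h2
    · exact ha.2 h2
  · ext H
    simp only [Set.mem_ofPred_eq, Set.mem_insert_iff, Set.mem_singleton_iff]
    constructor
    · rintro ⟨h1, h2⟩
      obtain ⟨c, hc1, hc2⟩ := Finset.exists_of_ssubset h1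
      have h3 := Finset.card_lt_card h1
      have h4 := Finset.card_lt_card h2
      have h5 : insert c F = H := by
        apply Finset.eq_of_subset_of_card_le (Finset.insert_subset hc1 h1.1)
        rw [Finset.card_insert_of_notMem hc2]
        omega
      rcases (hmem c).1 ⟨h2.1 hc1, hc2⟩ with h6 | h6
      · left
        rw [← h5, h6]
      · right
        rw [← h5, h6]
    · rintro (h1 | h1)
      · subst h1
        exact ⟨simplexpoly_lt_insert ha.2, simplexpoly_insert_lt hFG ha.1 (by omega)⟩
      · subst h1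
        exact ⟨simplexpoly_lt_insert hb.2, simplexpoly_insert_lt hFG hb.1 (by omega)⟩

/-- Proof: `G \ F` has at least 3 elements. For `x` strictly between `F` and `G` choose
`a ∈ x \ F`, then `insert a F ≤ x`. Two sets `insert a F`, `insert b F` with
`a, b ∈ G \ F` are both below `insert a (insert b F) ≠ G`. -/
theorem secConn : SecConn (Finset (Fin 5)) rk := by
  intro F G hFG hr x y hx1 hx2 hy1 hy2
  unfold rk at hr
  obtain ⟨a, hax, haF⟩ := Finset.exists_of_ssubset hx1
  obtain ⟨b, hby, hbF⟩ := Finset.exists_of_ssubset hy1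
  have haG : a ∈ G := hx2.1 hax
  have hbG : b ∈ G := hy2.1 hby
  have e1 : insert a F ≤ x := Finset.insert_subset hax hx1.1
  have e2 : insert a F ≤ insert a (insert b F) :=
    Finset.insert_subset_insert a (Finset.subset_insert b F)
  have e3 : insert b F ≤ insert a (insert b F) := Finset.subset_insert a _
  have e4 : insert b F ≤ y := Finset.insert_subset hby hy1.1
  have s1 : F < insert a F := simplexpoly_lt_insert haF
  have s2 : F < insert b F := simplexpoly_lt_insert hbF
  have g3 : insert a (insert b F) < G := simplexpoly_insert2_lt hFG haG hbG (by omega)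
  refine Relation.ReflTransGen.tail (Relation.ReflTransGen.tail (Relation.ReflTransGen.tail
    (Relation.ReflTransGen.single (b := insert a F) ⟨Or.inr e1, s1, e2.trans_lt g3⟩)
    (c := insert a (insert b F)) ⟨Or.inl e2, s1.trans_le e2, g3⟩)
    (c := insert b F) ⟨Or.inr e3, s2, e3.trans_lt g3⟩) ⟨Or.inl e4, hy1, hy2⟩

theorem isPolytope : IsPolytope 4 (Finset (Fin 5)) rk :=
  isPolytope_of_sec graded diamond secConn

theorem simple : SimpleComplete rk := by
  intro x y hx hy hxy
  unfold rk at hx hy
  have hx' : x.card = 1 := by omega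
  have hy' : y.card = 1 := by omega
  obtain ⟨a, rfl⟩ := Finset.card_eq_one.1 hx'
  obtain ⟨b, rfl⟩ := Finset.card_eq_one.1 hy'
  have hab : a ≠ b := by
    rintro rfl
    exact hxy rfl
  have hc : ({a, b} : Finset (Fin 5)).card = 2 := Finset.card_pair hab
  refine ⟨{a, b}, ⟨?_, ?_, ?_⟩, ?_⟩
  · simp [rk, hc]
  · intro c hc'
    rw [Finset.mem_singleton] at hc'
    rw [hc']
    simp
  · intro c hc'
    rw [Finset.mem_singleton] at hc'
    rw [hc']
    simp
  · rintro e ⟨h1, h2, h3⟩
    unfold rk at h1
    symm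
    apply Finset.eq_of_subset_of_card_le
    · intro c hc'
      rw [Finset.mem_insert, Finset.mem_singleton] at hc'
      rcases hc' with rfl | rfl
      · exact h2 (Finset.mem_singleton_self _)
      · exact h3 (Finset.mem_singleton_self _)
    · rw [hc]
      omega

theorem simplexpoly_count : ∀ e : Finset (Fin 5), e.card = 2 →
    (Finset.univ.filter fun G : Finset (Fin 5) => e ⊆ G ∧ G.card = 4).card = 3 := by
  decide +kernel

/-- Proof: there are 3 facets (sets with 4 elements) above a set with 2 elements (`decide` or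
counting). -/
theorem oddType : OddType rk := by
  intro e he
  unfold rk at he
  have h1 := simplexpoly_count e (by omega)
  have h2 : {G : Finset (Fin 5) | e ≤ G ∧ rk G = 3} =
      ((Finset.univ.filter fun G : Finset (Fin 5) => e ⊆ G ∧ G.card = 4 : Finset _) : Set _) := by
    ext G
    simp only [Set.mem_ofPred_eq, Finset.coe_filter, Finset.mem_univ, true_and, rk]
    constructor
    · rintro ⟨h3, h4⟩
      exact ⟨h3, by omega⟩
    · rintro ⟨h3, h4⟩
      exact ⟨h3, by omega⟩
  rw [h2, Set.ncard_coe_finset, h1]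
  decide

/-- The automorphism given by a permutation of the vertices. -/
def auto (π : Equiv.Perm (Fin 5)) : Finset (Fin 5) ≃o Finset (Fin 5) where
  toEquiv := Equiv.finsetCongr π
  map_rel_iff' := by
    intro a b
    simp

/-- The base flag. -/
def simplexpoly_base : Fin 4 → Finset (Fin 5) := ![{0}, {0, 1}, {0, 1, 2}, {0, 1, 2, 3}]

/-- The permutations. -/
def simplexpoly_perm : Fin 4 → Equiv.Perm (Fin 5) :=
  ![Equiv.swap 0 1, Equiv.swap 1 2, Equiv.swap 2 3, Equiv.swap 3 4]

/-- The generators `ρ₀, .., ρ₃`: the base flag is `{0} < {0,1} < {0,1,2} < {0,1,2,3}`, and the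
permutations are `(0 1)`, `(1 2)`, `(2 3)`, `(3 4)`, i.e. `T5, C5, A5, B5`. -/
theorem generators : ∃ (Ψ : Tup (Finset (Fin 5)) rk) (ρ : Fin 4 → (Finset (Fin 5) ≃o Finset (Fin 5))),
    (∀ i, tmap isPolytope isPolytope (ρ i) Ψ = adj isPolytope i Ψ) ∧
    (vert0 isPolytope Ψ).1 = {0} ∧
    (∀ x : Fin 5, ρ 0 {x} = {T5 x} ∧ ρ 1 {x} = {C5 x} ∧ ρ 2 {x} = {A5 x} ∧ ρ 3 {x} = {B5 x}) := by
  refine ⟨⟨simplexpoly_base, ?_, ?_⟩, fun i => auto (simplexpoly_perm i), ?_, rfl, ?_⟩
  · intro i
    unfold rk
    fin_cases i <;> decide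
  · intro i j
    revert i j
    decide +kernel
  · intro i
    apply adj_unique
    · rw [tmap_apply]
      revert i
      decide +kernel
    · intro j
      rw [tmap_apply]
      revert i j
      decide +kernel
  · decide +kernel

/-- Proof: `regular_of_base` and `generators`. -/
theorem regular : IsRegular (Finset (Fin 5)) := by
  obtain ⟨Ψ, ρ, h, -, -⟩ := generators
  exact regular_of_base isPolytope Ψ fun i => ⟨ρ i, h i⟩

theorem simplexpoly_atom (a : Fin 5) : IsAtom ({a} : Finset (Fin 5)) := by
  rw [Finset.isAtom_iff]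
  exact ⟨a, rfl⟩

/-- Proof: a set is the union (supremum) of the singletons below it. -/
theorem faithful : FaithfulSMul (Finset (Fin 5) ≃o Finset (Fin 5)) (Vert (Finset (Fin 5))) := by
  refine ⟨fun {γ δ} h => ?_⟩
  have h1 : ∀ a : Fin 5, γ {a} = δ {a} := fun a =>
    congrArg Subtype.val (h ⟨{a}, simplexpoly_atom a⟩)
  refine DFunLike.ext _ _ fun S => ?_
  have h2 : S.sup (fun a => ({a} : Finset (Fin 5))) = S := Finset.sup_singleton_eq_self S
  rw [← h2, map_finset_sup, map_finset_sup]
  apply Finset.sup_congr rfl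
  intro a _
  exact h1 a

end Simplex

end Pool.Agent.H.MP_6268b4_co
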