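import Pool.Agent.H.MP_6268b4_co.TIsoV
import Pool.Agent.H.MP_6268b4_co.SimplexPoly
import Pool.Agent.H.MP_6268b4_co.E11Reg

/-!
Regular polytopes of rank 4 with the same action on the vertices as the 4-simplex or the 11-cell.
-/

namespace Pool.Agent.H.MP_6268b4_co

set_option maxHeartbeats 400000

variable {P : Type*} [PartialOrder P] [BoundedOrder P] {rk : P → ℤ}

/-- the vertices of the 4-simplex -/
def idfive_v5 (x : Fin 5) : Vert (Finset (Fin 5)) := ⟨{x}, Simplex.simplexpoly_atom x⟩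

theorem idfive_v5_bij : Function.Bijective idfive_v5 := by
  constructor
  · intro x y h
    have h1 := congrArg Subtype.val h
    exact Finset.singleton_injective h1
  · rintro ⟨S, hS⟩
    obtain ⟨a, ha⟩ := Finset.isAtom_iff.1 hS
    exact ⟨a, Vert.ext ha.symm⟩

/-- the vertices of the 11-cell, as faces -/
def idfive_f11 (x : Fin 11) : ElevenCell :=
  ⟨{x}, Or.inl (by rw [Finset.card_singleton]; norm_num)⟩

/-- the vertices of the 11-cell -/
def idfive_v11 (x : Fin 11) : Vert ElevenCell := ⟨idfive_f11 x, ElevenCell.e11reg_atom x⟩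

theorem idfive_v11_bij : Function.Bijective idfive_v11 := by
  constructor
  · intro x y h
    have h1 := congrArg Subtype.val h
    have h2 : ({x} : Finset (Fin 11)) = {y} := congrArg Subtype.val h1
    exact Finset.singleton_injective h2
  · rintro ⟨S, hS⟩
    have h1 := (isAtom_iff ElevenCell.isPolytope S).1 hS
    have h2 : S.1.card = 1 := by
      unfold ElevenCell.rk at h1
      split_ifs at h1 with h3 h4
      · omega
      · exact absurd h1 (by norm_num)
      · exact absurd h1 (by norm_num)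
    obtain ⟨a, ha⟩ := Finset.card_eq_one.1 h2
    exact ⟨a, Vert.ext (Subtype.ext ha.symm)⟩

/-- Job IdFive-1.

Proof. `iso_of_vert` with `Q = Finset (Fin 5)`, `Simplex.isPolytope`, `Simplex.generators`,
`Simplex.faithful`. The vertices (atoms) of `Finset (Fin 5)` are the singletons
(`Finset.isAtom_iff`), so `Fin 5 ≃ Vert (Finset (Fin 5))`, `x ↦ {x}`; compose with `β`. -/
theorem id_five (h : IsPolytope 4 P rk) {Φ : Tup P rk} {ρ : Fin 4 → (P ≃o P)}
    (hρ : ∀ i, tmap h h (ρ i) Φ = adj h i Φ) (hf : FaithfulSMul (P ≃o P) (Vert P))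
    (β : Vert P ≃ Fin 5) (h0 : ∀ x, β (ρ 0 • x) = T5 (β x)) (h1 : ∀ x, β (ρ 1 • x) = C5 (β x))
    (h2 : ∀ x, β (ρ 2 • x) = A5 (β x)) (h3 : ∀ x, β (ρ 3 • x) = B5 (β x)) :
    Nonempty (P ≃o Finset (Fin 5)) := by
  obtain ⟨Ψ, ρ', hρ', -, hx⟩ := Simplex.generators
  refine iso_of_vert h Simplex.isPolytope Φ Ψ ρ ρ' hρ hρ' hf Simplex.faithful
    (β.trans (Equiv.ofBijective idfive_v5 idfive_v5_bij)) ?_
  intro i x
  apply Vert.ext
  rw [smul_vert_val]
  show ({β (ρ i • x)} : Finset (Fin 5)) = ρ' i {β x}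
  obtain ⟨e0, e1, e2, e3⟩ := hx (β x)
  fin_cases i
  · exact (congrArg _ (h0 x)).trans e0.symm
  · exact (congrArg _ (h1 x)).trans e1.symm
  · exact (congrArg _ (h2 x)).trans e2.symm
  · exact (congrArg _ (h3 x)).trans e3.symm

/-- Job IdFive-2.

Proof. `iso_of_vert` with `Q = ElevenCell`, `ElevenCell.isPolytope`, `ElevenCell.generators`,
`ElevenCell.faithful`. The vertices (atoms) of `ElevenCell` are the singletons, so
`Fin 11 ≃ Vert ElevenCell`, `x ↦ {x}`; compose with `β`. -/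
theorem id_eleven (h : IsPolytope 4 P rk) {Φ : Tup P rk} {ρ : Fin 4 → (P ≃o P)}
    (hρ : ∀ i, tmap h h (ρ i) Φ = adj h i Φ) (hf : FaithfulSMul (P ≃o P) (Vert P))
    (β : Vert P ≃ Fin 11) (h0 : ∀ x, β (ρ 0 • x) = T11 (β x))
    (h1 : ∀ x, β (ρ 1 • x) = C11 (β x)) (h2 : ∀ x, β (ρ 2 • x) = A11 (β x))
    (h3 : ∀ x, β (ρ 3 • x) = B11 (β x)) : Nonempty (P ≃o ElevenCell) := by
  obtain ⟨Ψ, ρ', hρ', g0, g1, g2, g3⟩ := ElevenCell.generators
  refine iso_of_vert h ElevenCell.isPolytope Φ Ψ ρ ρ' hρ hρ' hf ElevenCell.faithful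
    (β.trans (Equiv.ofBijective idfive_v11 idfive_v11_bij)) ?_
  intro i x
  apply Vert.ext
  rw [smul_vert_val]
  apply Subtype.ext
  show ({β (ρ i • x)} : Finset (Fin 11)) = (ρ' i (idfive_f11 (β x))).1
  have e0 : ∀ f : Fin 11 → Fin 11, (idfive_f11 (β x)).1.image f = {f (β x)} := fun f =>
    Finset.image_singleton f (β x)
  fin_cases i
  · exact (congrArg _ (h0 x)).trans ((g0 _).trans (e0 T11)).symm
  · exact (congrArg _ (h1 x)).trans ((g1 _).trans (e0 C11)).symm
  · exact (congrArg _ (h2 x)).trans ((g2 _).trans (e0 A11)).symm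
  · exact (congrArg _ (h3 x)).trans ((g3 _).trans (e0 B11)).symm

end Pool.Agent.H.MP_6268b4_co
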