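import Pool.Agent.H.MP_6268b4_co.M32Defs
import Pool.Agent.H.MP_6268b4_co.MGenB
import Pool.Agent.H.MP_6268b4_co.TReg

/-!
`{3, 2, r}` is a polytope.
-/

namespace Pool.Agent.H.MP_6268b4_co

set_option maxHeartbeats 400000

namespace M32

variable {r : ℕ}

lemma m32poly_lt (x y : M32 r) : x < y ↔ le x y ∧ ¬ le y x := lt_iff_le_not_ge

lemma m32poly_succ_ne (j : Fin 3) : j + 1 ≠ j := by
  revert j; decide

/-- Proof: case analysis on the constructors of `x` and `y`; `x < y` iff `le x y` and not
`le y x`. For `dense`: `⊥ < vertex`-type gaps: below an edge `j` there are vertices `i ≠ j`, below a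
face/facet/top there is `vert 0`; between `vert i` and `face`, `facet`, `top` there is an edge
`j ≠ i`; between `edge i` and `facet j` there is `face j`; between `edge i` and `top` there is
`face 0`; between `face i` and `top` there is `facet i`. -/
theorem graded : Graded4 (M32 r) rk where
  mono := by
    intro x y h
    rw [m32poly_lt] at h
    cases x <;> cases y <;> simp [le, rk] at h ⊢
    all_goals exact h.2 h.1.symm
  bot := rfl
  top := rfl
  dense := by
    intro x y h hr
    rw [m32poly_lt] at h
    cases x with
    | bot =>
      cases y with
      | edge j =>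
        exact ⟨vert (j + 1), by simp [m32poly_lt, le], by
          simpa [m32poly_lt, le] using m32poly_succ_ne j⟩
      | face j => exact ⟨vert 0, by simp [m32poly_lt, le], by simp [m32poly_lt, le]⟩
      | facet j => exact ⟨vert 0, by simp [m32poly_lt, le], by simp [m32poly_lt, le]⟩
      | top => exact ⟨vert 0, by simp [m32poly_lt, le], by simp [m32poly_lt, le]⟩
      | bot => simp [rk] at hr
      | vert j => simp [rk] at hr
    | vert i =>
      cases y with
      | face j =>
        exact ⟨edge (i + 1), by simpa [m32poly_lt, le] using (m32poly_succ_ne i).symm,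
          by simp [m32poly_lt, le]⟩
      | facet j =>
        exact ⟨edge (i + 1), by simpa [m32poly_lt, le] using (m32poly_succ_ne i).symm,
          by simp [m32poly_lt, le]⟩
      | top =>
        exact ⟨edge (i + 1), by simpa [m32poly_lt, le] using (m32poly_succ_ne i).symm,
          by simp [m32poly_lt, le]⟩
      | bot => simp [rk] at hr
      | vert j => simp [rk] at hr
      | edge j => simp [rk] at hr
    | edge i =>
      cases y with
      | facet j => exact ⟨face j, by simp [m32poly_lt, le], by simp [m32poly_lt, le]⟩
      | top => exact ⟨face 0, by simp [m32poly_lt, le], by simp [m32poly_lt, le]⟩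
      | bot => simp [rk] at hr
      | vert j => simp [rk] at hr
      | edge j => simp [rk] at hr
      | face j => simp [rk] at hr
    | face i =>
      cases y with
      | top => exact ⟨facet i, by simp [m32poly_lt, le], by simp [m32poly_lt, le]⟩
      | bot => simp [rk] at hr
      | vert j => simp [rk] at hr
      | edge j => simp [rk] at hr
      | face j => simp [rk] at hr
      | facet j => simp [rk] at hr
    | facet i =>
      cases y <;> simp [rk] at hr
    | top =>
      cases y <;> simp [rk] at hr

lemma m32poly_one_ne (hr : 3 ≤ r) : (1 : ZMod r) ≠ 0 := by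
  have : Fact (1 < r) := ⟨by omega⟩
  exact one_ne_zero

/-- Proof. Rank pairs `(-1, 1)`: the vertices `≠ j` of the edge `j`. `(0, 2)`: the edges `≠ i`
through `vert i`. `(1, 3)`: the faces `j`, `j - 1` below the facet `j` (different because
`3 ≤ r`, `(1 : ZMod r) ≠ 0`). `(2, 4)`: the facets `i`, `i + 1`. -/
theorem diamond (hr : 3 ≤ r) : Diamond (M32 r) rk := by
  have h1 := m32poly_one_ne hr
  have h3 : ∀ i j : Fin 3, (i ≠ j ↔ i = j + 1 ∨ i = j + 2) := by decide
  have h4 : ∀ j : Fin 3, j + 1 ≠ j + 2 := by decide
  intro F G hFG hrk
  cases F with
  | bot =>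
    cases G with
    | edge j =>
      have : {H : M32 r | bot < H ∧ H < edge j} = {vert (j + 1), vert (j + 2)} := by
        ext H
        cases H with
        | vert k => simp [m32poly_lt, le]; exact h3 _ _
        | edge k => simp [m32poly_lt, le]; exact fun h5 => h5.symm
        | bot => simp [m32poly_lt, le]
        | face k => simp [m32poly_lt, le]
        | facet k => simp [m32poly_lt, le]
        | top => simp [m32poly_lt, le]
      rw [this, Set.ncard_pair]
      simpa using h4 j
    | bot => simp [rk] at hrk
    | vert j => simp [rk] at hrk
    | face j => simp [rk] at hrk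
    | facet j => simp [rk] at hrk
    | top => simp [rk] at hrk
  | vert i =>
    cases G with
    | face j =>
      have : {H : M32 r | vert i < H ∧ H < face j} = {edge (i + 1), edge (i + 2)} := by
        ext H
        cases H with
        | edge k =>
          simp [m32poly_lt, le]
          rw [← h3]
          exact ne_comm
        | vert k => simp [m32poly_lt, le]; exact fun h5 => h5.symm
        | bot => simp [m32poly_lt, le]
        | face k => simp [m32poly_lt, le]; exact fun h5 => h5.symm
        | facet k => simp [m32poly_lt, le]
        | top => simp [m32poly_lt, le]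
      rw [this, Set.ncard_pair]
      simpa using h4 i
    | bot => simp [rk] at hrk
    | vert j => simp [rk] at hrk
    | edge j => simp [rk] at hrk
    | facet j => simp [rk] at hrk
    | top => simp [rk] at hrk
  | edge i =>
    cases G with
    | facet j =>
      have : {H : M32 r | edge i < H ∧ H < facet j} = {face j, face (j - 1)} := by
        ext H
        cases H with
        | edge k => simp [m32poly_lt, le]; exact fun h5 => h5.symm
        | vert k => simp [m32poly_lt, le]
        | bot => simp [m32poly_lt, le]
        | face k =>
          simp [m32poly_lt, le]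
          constructor
          · rintro (h5 | h5)
            · exact Or.inl h5.symm
            · exact Or.inr (by rw [h5]; ring)
          · rintro (h5 | h5)
            · exact Or.inl h5.symm
            · exact Or.inr (by rw [h5]; ring)
        | facet k => simp [m32poly_lt, le]; exact fun h5 => h5.symm
        | top => simp [m32poly_lt, le]
      rw [this, Set.ncard_pair]
      intro h5
      injection h5 with h6
      apply h1
      linear_combination h6
    | bot => simp [rk] at hrk
    | vert j => simp [rk] at hrk
    | edge j => simp [rk] at hrk
    | face j => simp [rk] at hrk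
    | top => simp [rk] at hrk
  | face i =>
    cases G with
    | top =>
      have : {H : M32 r | face i < H ∧ H < top} = {facet i, facet (i + 1)} := by
        ext H
        cases H with
        | edge k => simp [m32poly_lt, le]
        | vert k => simp [m32poly_lt, le]
        | bot => simp [m32poly_lt, le]
        | face k => simp [m32poly_lt, le]; exact fun h5 => h5.symm
        | facet k => simp [m32poly_lt, le]
        | top => simp [m32poly_lt, le]
      rw [this, Set.ncard_pair]
      intro h5
      injection h5 with h6
      apply h1
      linear_combination -h6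
    | bot => simp [rk] at hrk
    | vert j => simp [rk] at hrk
    | edge j => simp [rk] at hrk
    | face j => simp [rk] at hrk
    | facet j => simp [rk] at hrk
  | facet i => cases G <;> simp [rk] at hrk
  | top => cases G <;> simp [rk] at hrk

/-- the relation in `SecConn` -/
def m32poly_R (F G : M32 r) (a b : M32 r) : Prop := (a ≤ b ∨ b ≤ a) ∧ F < b ∧ b < G

lemma m32poly_symm {F G x y : M32 r} (hx : F < x ∧ x < G)
    (h : Relation.ReflTransGen (m32poly_R F G) x y) :
    Relation.ReflTransGen (m32poly_R F G) y x ∧ (F < y ∧ y < G) := by
  induction h with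
  | refl => exact ⟨Relation.ReflTransGen.refl, hx⟩
  | tail _ hbc ih => exact ⟨Relation.ReflTransGen.head ⟨hbc.1.symm, ih.2⟩ ih.1, hbc.2⟩

/-- it is enough to connect everything with one face -/
lemma m32poly_conn {F G z : M32 r}
    (hz : ∀ x, F < x → x < G → Relation.ReflTransGen (m32poly_R F G) x z)
    (x y : M32 r) (hx : F < x) (hx' : x < G) (hy : F < y) (hy' : y < G) :
    Relation.ReflTransGen (m32poly_R F G) x y :=
  (hz x hx hx').trans (m32poly_symm ⟨hy, hy'⟩ (hz y hy hy')).1

lemma m32poly_conn2 {F G z1 z2 : M32 r} (h1 : F < z1 ∧ z1 < G) (h2 : F < z2 ∧ z2 < G)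
    (h12 : z1 ≤ z2)
    (hc : ∀ x, F < x → x < G → (x ≤ z1 ∨ z1 ≤ x) ∨ (x ≤ z2 ∨ z2 ≤ x))
    (x y : M32 r) (hx : F < x) (hx' : x < G) (hy : F < y) (hy' : y < G) :
    Relation.ReflTransGen (m32poly_R F G) x y := by
  refine m32poly_conn (z := z1) ?_ x y hx hx' hy hy'
  intro x hx hx'
  rcases hc x hx hx' with h | h
  · exact Relation.ReflTransGen.single ⟨h, h1⟩
  · exact (Relation.ReflTransGen.single ⟨h, h2⟩ : Relation.ReflTransGen (m32poly_R F G) x z2).tail
      ⟨Or.inr h12, h1⟩

/-- Proof. Let `F < G` with `rk G ≥ rk F + 3`, and `x, y` strictly between. Vertices and edges are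
comparable with all faces of rank 2 and 3. If the interval contains a proper face of rank 0 or 1 and
a proper face of rank 2 or 3, say `z₁` of rank 0 or 1 and `z₂` of rank 2 or 3, then every element of
the interval is comparable with `z₁` or with `z₂`, and `z₁ ≤ z₂`: connected. This is the case for
the rank pairs `(-1, 3)`, `(-1, 4)`, `(0, 3)`, `(0, 4)`. There remain the rank pairs `(-1, 2)`
(triangle: the interval consists of all vertices and edges; any two vertices are on a common edge
and each edge contains a vertex) and `(1, 4)`: the interval consists of all faces of rank 2 and all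
facets; `face i ≤ facet (i+1)`, `face (i+1) ≤ facet (i+1)`, so by induction on `k : ℕ` the face `i`
is connected with the face `i + k`, and `ZMod r` consists of the natural numbers `k` (`r ≠ 0`,
`ZMod.natCast_zmod_val`). -/
theorem secConn (hr : 3 ≤ r) : SecConn (M32 r) rk := by
  intro F G hFG hrk x y hx hx' hy hy'
  change Relation.ReflTransGen (m32poly_R F G) x y
  revert x y
  cases F with
  | bot =>
    cases G with
    | face k =>
      intro x y hx hx' hy hy'
      refine m32poly_conn (z := vert 0) ?_ x y hx hx' hy hy'
      intro x hx hx'
      have hv : ∀ i : Fin 3, (bot : M32 r) < vert i ∧ (vert i : M32 r) < face k := by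
        intro i; simp [m32poly_lt, le]
      have he : ∀ i : Fin 3, (bot : M32 r) < edge i ∧ (edge i : M32 r) < face k := by
        intro i; simp [m32poly_lt, le]
      have hve : ∀ i j : Fin 3, i ≠ j → (vert i : M32 r) ≤ edge j := fun i j hij => hij
      have h3 : ∀ i : Fin 3, ∃ j : Fin 3, i ≠ j ∧ 0 ≠ j := by decide
      have hvert : ∀ i : Fin 3,
          Relation.ReflTransGen (m32poly_R (bot : M32 r) (face k)) (vert i) (vert 0) := by
        intro i
        obtain ⟨j, hj1, hj2⟩ := h3 i
        exact (Relation.ReflTransGen.single ⟨Or.inl (hve i j hj1), he j⟩ :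
          Relation.ReflTransGen (m32poly_R (bot : M32 r) (face k)) (vert i) (edge j)).tail
          ⟨Or.inr (hve 0 j hj2), hv 0⟩
      cases x with
      | bot => simp [m32poly_lt, le] at hx
      | vert i => exact hvert i
      | edge j =>
        exact Relation.ReflTransGen.head ⟨Or.inr (hve (j + 1) j (m32poly_succ_ne j)), hv _⟩
          (hvert (j + 1))
      | face j =>
        simp [m32poly_lt, le] at hx'
        exact absurd hx'.1.symm hx'.2
      | facet j => simp [m32poly_lt, le] at hx'
      | top => simp [m32poly_lt, le] at hx'
    | facet k =>
      intro x y hx hx' hy hy'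
      refine m32poly_conn2 (z1 := vert 0) (z2 := face k) (by simp [m32poly_lt, le])
        (by simp [m32poly_lt, le]) trivial ?_ x y hx hx' hy hy'
      intro x hx hx'
      cases x with
      | bot => simp [m32poly_lt, le] at hx
      | vert i => exact Or.inr (Or.inl trivial)
      | edge j => exact Or.inr (Or.inl trivial)
      | face j => exact Or.inl (Or.inr trivial)
      | facet j => exact Or.inl (Or.inr trivial)
      | top => simp [m32poly_lt, le] at hx'
    | top =>
      intro x y hx hx' hy hy'
      refine m32poly_conn2 (z1 := vert 0) (z2 := face 0) (by simp [m32poly_lt, le])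
        (by simp [m32poly_lt, le]) trivial ?_ x y hx hx' hy hy'
      intro x hx hx'
      cases x with
      | bot => simp [m32poly_lt, le] at hx
      | vert i => exact Or.inr (Or.inl trivial)
      | edge j => exact Or.inr (Or.inl trivial)
      | face j => exact Or.inl (Or.inr trivial)
      | facet j => exact Or.inl (Or.inr trivial)
      | top => simp [m32poly_lt, le] at hx'
    | bot => simp [rk] at hrk
    | vert j => simp [rk] at hrk
    | edge j => simp [rk] at hrk
  | vert i =>
    have hi : (vert i : M32 r) < edge (i + 1) := by
      simpa [m32poly_lt, le] using (m32poly_succ_ne i).symm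
    cases G with
    | facet k =>
      intro x y hx hx' hy hy'
      refine m32poly_conn2 (z1 := edge (i + 1)) (z2 := face k) ⟨hi, by simp [m32poly_lt, le]⟩
        (by simp [m32poly_lt, le]) trivial ?_ x y hx hx' hy hy'
      intro x hx hx'
      cases x with
      | bot => simp [m32poly_lt, le] at hx
      | vert i => exact Or.inr (Or.inl trivial)
      | edge j => exact Or.inr (Or.inl trivial)
      | face j => exact Or.inl (Or.inr trivial)
      | facet j => exact Or.inl (Or.inr trivial)
      | top => simp [m32poly_lt, le] at hx'
    | top =>
      intro x y hx hx' hy hy'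
      refine m32poly_conn2 (z1 := edge (i + 1)) (z2 := face 0) ⟨hi, by simp [m32poly_lt, le]⟩
        (by simp [m32poly_lt, le]) trivial ?_ x y hx hx' hy hy'
      intro x hx hx'
      cases x with
      | bot => simp [m32poly_lt, le] at hx
      | vert i => exact Or.inr (Or.inl trivial)
      | edge j => exact Or.inr (Or.inl trivial)
      | face j => exact Or.inl (Or.inr trivial)
      | facet j => exact Or.inl (Or.inr trivial)
      | top => simp [m32poly_lt, le] at hx'
    | bot => simp [rk] at hrk
    | vert j => simp [rk] at hrk
    | edge j => simp [rk] at hrk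
    | face j => simp [rk] at hrk
  | edge i =>
    cases G with
    | top =>
      intro x y hx hx' hy hy'
      refine m32poly_conn (z := face 0) ?_ x y hx hx' hy hy'
      intro x hx hx'
      have hf : ∀ k : ZMod r, (edge i : M32 r) < face k ∧ (face k : M32 r) < top := by
        intro k; simp [m32poly_lt, le]
      have hg : ∀ k : ZMod r, (edge i : M32 r) < facet k ∧ (facet k : M32 r) < top := by
        intro k; simp [m32poly_lt, le]
      have hfg : ∀ k : ZMod r, (face k : M32 r) ≤ facet k := fun k => Or.inl rfl
      have hfg' : ∀ k : ZMod r, (face k : M32 r) ≤ facet (k + 1) := fun k => Or.inr rfl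
      have hnat : ∀ n : ℕ, Relation.ReflTransGen (m32poly_R (edge i : M32 r) top)
          (face (n : ZMod r)) (face 0) := by
        intro n
        induction n with
        | zero => rw [Nat.cast_zero]
        | succ n ih =>
          rw [Nat.cast_succ]
          exact Relation.ReflTransGen.head ⟨Or.inl (hfg _), hg _⟩
            (Relation.ReflTransGen.head ⟨Or.inr (hfg' _), hf _⟩ ih)
      have : NeZero r := ⟨by omega⟩
      have hface : ∀ k : ZMod r, Relation.ReflTransGen (m32poly_R (edge i : M32 r) top)
          (face k) (face 0) := by
        intro k
        have := hnat k.val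
        rwa [ZMod.natCast_zmod_val] at this
      cases x with
      | bot => simp [m32poly_lt, le] at hx
      | vert i => simp [m32poly_lt, le] at hx
      | edge j =>
        simp [m32poly_lt, le] at hx
        exact absurd hx.1.symm hx.2
      | face j => exact hface j
      | facet j => exact Relation.ReflTransGen.head ⟨Or.inr (hfg j), hf j⟩ (hface j)
      | top => simp [m32poly_lt, le] at hx'
    | bot => simp [rk] at hrk
    | vert j => simp [rk] at hrk
    | edge j => simp [rk] at hrk
    | face j => simp [rk] at hrk
    | facet j => simp [rk] at hrk
  | face i => cases G <;> simp [rk] at hrk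
  | facet i => cases G <;> simp [rk] at hrk
  | top => cases G <;> simp [rk] at hrk

theorem isPolytope (hr : 3 ≤ r) : IsPolytope 4 (M32 r) rk :=
  isPolytope_of_sec graded (diamond hr) (secConn hr)

/-- Proof: the vertices `i ≠ j` lie on the edge `k` with `k ≠ i, j` only. -/
theorem simple : SimpleComplete (rk : M32 r → ℤ) := by
  have h3 : ∀ i j : Fin 3, i ≠ j → ∃ k, i ≠ k ∧ j ≠ k ∧ ∀ k', i ≠ k' → j ≠ k' → k' = k := by
    decide
  intro x y hx hy hxy
  cases x with
  | vert i =>
    cases y with
    | vert j =>
      obtain ⟨k, hk1, hk2, hk3⟩ := h3 i j (fun h => hxy (by rw [h]))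
      refine ⟨edge k, ⟨rfl, hk1, hk2⟩, ?_⟩
      rintro e ⟨he, he1, he2⟩
      cases e with
      | edge k' => rw [hk3 k' he1 he2]
      | bot => simp [rk] at he
      | vert j => simp [rk] at he
      | face j => simp [rk] at he
      | facet j => simp [rk] at he
      | top => simp [rk] at he
    | bot => simp [rk] at hy
    | edge j => simp [rk] at hy
    | face j => simp [rk] at hy
    | facet j => simp [rk] at hy
    | top => simp [rk] at hy
  | bot => simp [rk] at hx
  | edge j => simp [rk] at hx
  | face j => simp [rk] at hx
  | facet j => simp [rk] at hx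
  | top => simp [rk] at hx

/-- Proof: the facets above an edge are all the `r` facets. -/
theorem oddType (hr : Odd r) : OddType (rk : M32 r → ℤ) := by
  intro e he
  cases e with
  | edge i =>
    have h1 : {G : M32 r | edge i ≤ G ∧ rk G = 3} = Set.range facet := by
      ext G
      cases G with
      | facet j => simp [rk, le_def, le]
      | bot => simp [rk]
      | vert j => simp [rk]
      | edge j => simp [rk]
      | face j => simp [rk]
      | top => simp [rk]
    rw [h1, ← Set.image_univ, Set.ncard_image_of_injective _ (fun a b h => by injection h),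
      Set.ncard_univ, Nat.card_zmod]
    exact hr
  | bot => simp [rk] at he
  | vert j => simp [rk] at he
  | face j => simp [rk] at he
  | facet j => simp [rk] at he
  | top => simp [rk] at he

/-- action of the permutations on the vertices and edges -/
def m32poly_fA (π : Equiv.Perm (Fin 3)) : M32 r → M32 r
  | bot => bot
  | vert i => vert (π i)
  | edge i => edge (π i)
  | face i => face i
  | facet i => facet i
  | top => top

def m32poly_autA (π : Equiv.Perm (Fin 3)) : M32 r ≃o M32 r where
  toFun := m32poly_fA π
  invFun := m32poly_fA π⁻¹
  left_inv x := by cases x <;> simp [m32poly_fA]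
  right_inv x := by cases x <;> simp [m32poly_fA]
  map_rel_iff' {x y} := by
    change le (m32poly_fA π x) (m32poly_fA π y) ↔ le x y
    cases x <;> cases y <;> simp [m32poly_fA, le]

/-- reflections of the `r`-gon -/
def m32poly_fB (c : ZMod r) : M32 r → M32 r
  | bot => bot
  | vert i => vert i
  | edge i => edge i
  | face i => face (c - i)
  | facet i => facet (c + 1 - i)
  | top => top

def m32poly_autB (c : ZMod r) : M32 r ≃o M32 r where
  toFun := m32poly_fB c
  invFun := m32poly_fB c
  left_inv x := by cases x <;> simp [m32poly_fB]
  right_inv x := by cases x <;> simp [m32poly_fB]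
  map_rel_iff' {x y} := by
    change le (m32poly_fB c x) (m32poly_fB c y) ↔ le x y
    cases x <;> cases y <;> simp [m32poly_fB, le]
    rename_i i j
    constructor
    · rintro (h | h)
      · right; linear_combination -h
      · left; linear_combination -h
    · rintro (h | h)
      · right; linear_combination -h
      · left; linear_combination -h

/-- the base tuple -/
def m32poly_base : Tup (M32 r) rk :=
  ⟨fun i => if i = 0 then vert 0 else if i = 1 then edge 2 else if i = 2 then face 0 else facet 1,
    by
      intro i
      fin_cases i <;> simp [rk],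
    by
      intro i j hij
      fin_cases i <;> fin_cases j <;> simp [le_def, le] at hij ⊢⟩

/-- Proof. First construct automorphisms: for `π : Equiv.Perm (Fin 3)` the map acting as `π` on the
vertices and edges and trivially on the rest; for `c : ZMod r` the map `face i ↦ face (c - i)`,
`facet j ↦ facet (c + 1 - j)` and trivial on the vertices and edges; and for `c : ZMod r` the map
`face i ↦ face (i + c)`, `facet j ↦ facet (j + c)`. Then for any two flags, i.e. any two tuples
`Φ`, `Ψ` (`toTup`, `ofTup_toTup`, `regular_of_base`; or show directly that every tuple has the form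
`(vert i, edge j, face k, facet l)`, `i ≠ j`, `l = k ∨ l = k + 1`): use `regular_of_base` (in
`TReg`, import it) with the base tuple `(vert 0, edge 2, face 0, facet 1)`: `ρ₀`: `π = (0 1)`;
`ρ₁`: `π = (1 2)`; `ρ₂`: reflection with `c = 1`; `ρ₃`: reflection with `c = 0`; each maps the base
tuple to the adjacent one by `adj_unique`. -/
theorem regular (hr : 3 ≤ r) : IsRegular (M32 r) := by
  have h1 := m32poly_one_ne hr
  have h := isPolytope hr
  apply regular_of_base h m32poly_base
  intro i
  fin_cases i
  · refine ⟨m32poly_autA (Equiv.swap 0 1), ?_⟩
    apply adj_unique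
    · simp [tmap_apply, m32poly_base, m32poly_autA, m32poly_fA]
    · intro j hj
      fin_cases j <;> simp [tmap_apply, m32poly_base, m32poly_autA, m32poly_fA] at hj ⊢
      decide
  · refine ⟨m32poly_autA (Equiv.swap 1 2), ?_⟩
    apply adj_unique
    · simp [tmap_apply, m32poly_base, m32poly_autA, m32poly_fA]
    · intro j hj
      fin_cases j <;> simp [tmap_apply, m32poly_base, m32poly_autA, m32poly_fA] at hj ⊢
      decide
  · refine ⟨m32poly_autB 1, ?_⟩
    apply adj_unique
    · simp [tmap_apply, m32poly_base, m32poly_autB, m32poly_fB, h1]
    · intro j hj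
      fin_cases j <;> simp [tmap_apply, m32poly_base, m32poly_autB, m32poly_fB] at hj ⊢
  · refine ⟨m32poly_autB 0, ?_⟩
    apply adj_unique
    · simp [tmap_apply, m32poly_base, m32poly_autB, m32poly_fB]
      exact fun h2 => h1 h2.symm
    · intro j hj
      fin_cases j <;> simp [tmap_apply, m32poly_base, m32poly_autB, m32poly_fB] at hj ⊢

end M32

end Pool.Agent.H.MP_6268b4_co
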