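import Pool.Agent.H.MP_6268b4_co.RLabelDefs

/-!
Regular case: explicit permutations.
-/

namespace Pool.Agent.H.MP_6268b4_co


/-- the permutation `t` in the old labels -/
def rlabel11_T : Fin 11 → Fin 11 := ![1, 0, 2, 3, 4, 6, 5, 8, 7, 10, 9]
/-- the permutation `a` in the old labels -/
def rlabel11_A : Fin 11 → Fin 11 := ![0, 1, 3, 2, 4, 7, 8, 5, 6, 10, 9]
/-- the permutation `b` in the old labels -/
def rlabel11_B : Fin 11 → Fin 11 := ![0, 1, 2, 4, 3, 6, 5, 9, 10, 7, 8]
/-- the permutation `c` in the old labels -/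
def rlabel11_C (x3 x5 x7 x8 : Fin 11) : Fin 11 → Fin 11 :=
  ![0, 2, 1, x3, rlabel11_B x3, x5, rlabel11_B x5, x7, x8, rlabel11_B x7, rlabel11_B x8]
/-- the relabelling in the first case -/
def rlabel11_s1 : Fin 11 → Fin 11 := ![0, 1, 3, 4, 7, 2, 5, 8, 9, 6, 10]
/-- the relabelling in the second case -/
def rlabel11_s2 : Fin 11 → Fin 11 := ![0, 1, 3, 4, 7, 5, 2, 9, 8, 10, 6]

/-- the conditions on `c` -/
def rlabel11_ok (C : Fin 11 → Fin 11) : Prop :=
    (∀ i, C (C i) = i) ∧ (Finset.univ.filter (fun i => C i = i)).card = 3 ∧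
    ((Finset.univ.filter (fun i => rlabel11_A (C (rlabel11_A (C (rlabel11_A (C i))))) = i)).card ≤ 3 ∨
      ∀ i, rlabel11_A (C (rlabel11_A (C (rlabel11_A (C i))))) = i) ∧
    ((Finset.univ.filter (fun i => rlabel11_B (C (rlabel11_T (C (rlabel11_T i)))) = i)).card ≤ 3 ∨
      ∀ i, rlabel11_B (C (rlabel11_T (C (rlabel11_T i)))) = i) ∧
    ¬ (∀ i, rlabel11_T (C (rlabel11_T (C (rlabel11_T (C i))))) = rlabel11_B i)

instance (C : Fin 11 → Fin 11) : Decidable (rlabel11_ok C) := by
  unfold rlabel11_ok
  infer_instance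

/-- the finite check -/
theorem rlabel11_check : ∀ x3 : Fin 11, 5 ≤ x3 →
    ∀ x5 : Fin 11, (x3 = 5 → x5 = 3) → (x3 = 6 → x5 = 4) →
    ∀ x7 : Fin 11, (x3 = 7 → x7 = 3) → (x3 = 9 → x7 = 4) →
    ∀ x8 : Fin 11, (x3 = 8 → x8 = 3) → (x3 = 10 → x8 = 4) →
    rlabel11_ok (rlabel11_C x3 x5 x7 x8) →
    (x3 = 10 ∧ x5 = 6 ∧ x7 = 7 ∧ x8 = 4) ∨ (x3 = 9 ∧ x5 = 6 ∧ x7 = 4 ∧ x8 = 8) := by
  decide +kernel

theorem rlabel11_fix {G Ω : Type*} [Group G] [MulAction G Ω] (e : Fin 11 ≃ Ω) (g : G)
    (W : Fin 11 → Fin 11) (hW : ∀ i, g • e i = e (W i)) :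
    Nat.card {x : Ω // g • x = x} = (Finset.univ.filter (fun i => W i = i)).card := by
  have e1 : {i : Fin 11 // W i = i} ≃ {x : Ω // g • x = x} :=
    Equiv.subtypeEquiv e (by intro i; rw [hW, e.injective.eq_iff])
  rw [← Nat.card_congr e1, Nat.card_eq_fintype_card, Fintype.card_subtype]

theorem rlabel11_s1_bij : Function.Bijective rlabel11_s1 := by
  decide +kernel

theorem rlabel11_s2_bij : Function.Bijective rlabel11_s2 := by
  decide +kernel

theorem rlabel11_s1_T : ∀ i, rlabel11_s1 (rlabel11_T i) = T11 (rlabel11_s1 i) := by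
  decide +kernel
theorem rlabel11_s1_A : ∀ i, rlabel11_s1 (rlabel11_A i) = A11 (rlabel11_s1 i) := by
  decide +kernel
theorem rlabel11_s1_B : ∀ i, rlabel11_s1 (rlabel11_B i) = B11 (rlabel11_s1 i) := by
  decide +kernel
theorem rlabel11_s1_C : ∀ i, rlabel11_s1 (rlabel11_C 10 6 7 4 i) = C11 (rlabel11_s1 i) := by
  decide +kernel
theorem rlabel11_s2_T : ∀ i, rlabel11_s2 (rlabel11_T i) = T11 (rlabel11_s2 i) := by
  decide +kernel
theorem rlabel11_s2_A : ∀ i, rlabel11_s2 (rlabel11_A i) = A11 (rlabel11_s2 i) := by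
  decide +kernel
theorem rlabel11_s2_B : ∀ i, rlabel11_s2 (rlabel11_B i) = B11 (rlabel11_s2 i) := by
  decide +kernel
theorem rlabel11_s2_C : ∀ i, rlabel11_s2 (rlabel11_C 9 6 4 8 i) = C11 (rlabel11_s2 i) := by
  decide +kernel


theorem rlabel11_third {G Ω : Type*} [Group G] [MulAction G Ω] [Finite Ω] {v w : Ω} {b : G}
    (hvw : v ≠ w) (hv : b • v = v) (hw : b • w = w)
    (hb : Nat.card {x : Ω // b • x = x} = 3) :
    ∃ p : Ω, p ≠ v ∧ p ≠ w ∧ b • p = p ∧ ∀ x : Ω, b • x = x → x = v ∨ x = w ∨ x = p := by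
  classical
  have hΩ : Fintype Ω := Fintype.ofFinite Ω
  rw [Nat.card_eq_fintype_card, Fintype.card_subtype] at hb
  have h1 : v ∈ Finset.univ.filter (fun x : Ω => b • x = x) := by simp [hv]
  have h2 : w ∈ (Finset.univ.filter (fun x : Ω => b • x = x)).erase v := by
    simp [hw, hvw.symm]
  have h3 := Finset.card_erase_of_mem h1
  have h4 := Finset.card_erase_of_mem h2
  rw [h3, hb] at h4
  obtain ⟨p, hp⟩ := Finset.card_eq_one.1 h4
  have hp1 : p ∈ ((Finset.univ.filter (fun x : Ω => b • x = x)).erase v).erase w := by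
    rw [hp]; simp
  simp only [Finset.mem_erase, Finset.mem_filter, Finset.mem_univ, true_and] at hp1
  refine ⟨p, hp1.2.1, hp1.1, hp1.2.2, ?_⟩
  intro x hx
  by_cases hxv : x = v
  · exact Or.inl hxv
  by_cases hxw : x = w
  · exact Or.inr (Or.inl hxw)
  right; right
  have : x ∈ ((Finset.univ.filter (fun x : Ω => b • x = x)).erase v).erase w := by
    simp [hx, hxv, hxw]
  rw [hp] at this
  simpa using this

theorem rlabel11_two {G Ω : Type*} [Group G] [MulAction G Ω] [Finite Ω] {v w : Ω} {g : G}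
    (hvw : v ≠ w) (hv : g • v = v) (hw : g • w = w)
    (hb : Nat.card {x : Ω // g • x = x} = 2) :
    ∀ x : Ω, g • x = x → x = v ∨ x = w := by
  classical
  have hΩ : Fintype Ω := Fintype.ofFinite Ω
  rw [Nat.card_eq_fintype_card, Fintype.card_subtype] at hb
  have h1 : ({v, w} : Finset Ω) ⊆ Finset.univ.filter (fun x : Ω => g • x = x) := by
    intro x hx
    simp only [Finset.mem_insert, Finset.mem_singleton] at hx
    rcases hx with rfl | rfl <;> simp [hv, hw]
  have h2 := Finset.eq_of_subset_of_card_le h1 (by rw [hb, Finset.card_pair hvw])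
  intro x hx
  have : x ∈ ({v, w} : Finset Ω) := by rw [h2]; simp [hx]
  simpa using this

/-- three distinct fixed points are all fixed points -/
theorem rlabel11_three {G Ω : Type*} [Group G] [MulAction G Ω] [Finite Ω] {p q r : Ω} {t : G}
    (hpq : p ≠ q) (hpr : p ≠ r) (hqr : q ≠ r) (hp : t • p = p) (hq : t • q = q) (hr : t • r = r)
    (ht : Nat.card {x : Ω // t • x = x} = 3) :
    ∀ x : Ω, t • x = x → x = p ∨ x = q ∨ x = r := by
  classical
  have hΩ : Fintype Ω := Fintype.ofFinite Ω
  rw [Nat.card_eq_fintype_card, Fintype.card_subtype] at ht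
  have h1 : ({p, q, r} : Finset Ω) ⊆ Finset.univ.filter (fun x : Ω => t • x = x) := by
    intro x hx
    simp only [Finset.mem_insert, Finset.mem_singleton] at hx
    rcases hx with rfl | rfl | rfl <;> simp [hp, hq, hr]
  have h2 := Finset.eq_of_subset_of_card_le h1
    (by rw [ht, Finset.card_eq_three.2 ⟨p, q, r, hpq, hpr, hqr, rfl⟩])
  intro x hx
  have : x ∈ ({p, q, r} : Finset Ω) := by rw [h2]; simp [hx]
  simpa using this

/-- conjugate elements have the same number of fixed points -/
theorem rlabel11_conj {G Ω : Type*} [Group G] [MulAction G Ω] {t b : G} (h : IsConj t b) :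
    Nat.card {x : Ω // t • x = x} = Nat.card {x : Ω // b • x = x} := by
  obtain ⟨g, hg⟩ := isConj_iff.1 h
  apply Nat.card_congr
  refine Equiv.subtypeEquiv (MulAction.toPerm g) ?_
  intro x
  rw [MulAction.toPerm_apply, ← hg, mul_smul, mul_smul, inv_smul_smul]
  constructor
  · intro h1; rw [h1]
  · intro h1; exact MulAction.injective g h1


/-- the eleven points -/
def rlabel11_F {G Ω : Type*} [Group G] [MulAction G Ω] (v w p : Ω) (a b : G) (m : Ω) :
    Fin 11 → Ω :=
  ![v, w, p, a • p, b • a • p, m, b • m, a • m, a • b • m, b • a • m, a • b • a • m]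

/-- `x` is none of the five special points -/
def rlabel11_NS {G Ω : Type*} [Group G] [MulAction G Ω] (v w p : Ω) (a b : G) (x : Ω) : Prop :=
  x ≠ v ∧ x ≠ w ∧ x ≠ p ∧ x ≠ a • p ∧ x ≠ b • a • p

/-- the hypotheses on `a`, `b` -/
structure rlabel11_H {G Ω : Type*} [Group G] [MulAction G Ω] (v w p : Ω) (a b : G) : Prop where
  vw : v ≠ w
  pv : p ≠ v
  pw : p ≠ w
  av : a • v = v
  aw : a • w = w
  bv : b • v = v
  bw : b • w = w
  bp : b • p = p
  aa : ∀ x : Ω, a • a • x = x
  bb : ∀ x : Ω, b • b • x = x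
  aba : ∀ x : Ω, a • b • a • x = b • a • b • x
  bfix : ∀ x : Ω, b • x = x → x = v ∨ x = w ∨ x = p
  abfix : ∀ x : Ω, a • b • x = x → x = v ∨ x = w
  bafix : ∀ x : Ω, b • a • x = x → x = v ∨ x = w

section

variable {G Ω : Type*} [Group G] [MulAction G Ω] {v w p : Ω} {a b : G}

theorem rlabel11_H.ar (H : rlabel11_H v w p a b) : a • b • a • p = b • a • p := by
  rw [H.aba, H.bp]

theorem rlabel11_H.qp (H : rlabel11_H v w p a b) : a • p ≠ p := by
  intro e
  rcases H.abfix p (by rw [H.bp, e]) with h | h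
  · exact H.pv h
  · exact H.pw h

theorem rlabel11_H.qv (H : rlabel11_H v w p a b) : a • p ≠ v := by
  intro e
  exact H.pv (by rw [← H.aa p, e, H.av])

theorem rlabel11_H.qw (H : rlabel11_H v w p a b) : a • p ≠ w := by
  intro e
  exact H.pw (by rw [← H.aa p, e, H.aw])

theorem rlabel11_H.rv (H : rlabel11_H v w p a b) : b • a • p ≠ v := by
  intro e
  exact H.qv (by rw [← H.bb (a • p), e, H.bv])

theorem rlabel11_H.rw' (H : rlabel11_H v w p a b) : b • a • p ≠ w := by
  intro e
  exact H.qw (by rw [← H.bb (a • p), e, H.bw])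

theorem rlabel11_H.rp (H : rlabel11_H v w p a b) : b • a • p ≠ p := by
  intro e
  exact H.qp (by rw [← H.bb (a • p), e, H.bp])

theorem rlabel11_H.rq (H : rlabel11_H v w p a b) : b • a • p ≠ a • p := by
  intro e
  rcases H.bfix _ e with h | h | h
  · exact H.qv h
  · exact H.qw h
  · exact H.qp h

theorem rlabel11_H.NS_a (H : rlabel11_H v w p a b) {x : Ω} (hx : rlabel11_NS v w p a b x) :
    rlabel11_NS v w p a b (a • x) := by
  obtain ⟨h1, h2, h3, h4, h5⟩ := hx
  refine ⟨?_, ?_, ?_, ?_, ?_⟩
  · intro e; exact h1 (by rw [← H.aa x, e, H.av])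
  · intro e; exact h2 (by rw [← H.aa x, e, H.aw])
  · intro e; exact h4 (by rw [← H.aa x, e])
  · intro e; exact h3 (by rw [← H.aa x, e, H.aa])
  · intro e; exact h5 (by rw [← H.aa x, e, H.ar])

theorem rlabel11_H.NS_b (H : rlabel11_H v w p a b) {x : Ω} (hx : rlabel11_NS v w p a b x) :
    rlabel11_NS v w p a b (b • x) := by
  obtain ⟨h1, h2, h3, h4, h5⟩ := hx
  refine ⟨?_, ?_, ?_, ?_, ?_⟩
  · intro e; exact h1 (by rw [← H.bb x, e, H.bv])
  · intro e; exact h2 (by rw [← H.bb x, e, H.bw])
  · intro e; exact h3 (by rw [← H.bb x, e, H.bp])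
  · intro e; exact h5 (by rw [← H.bb x, e])
  · intro e; exact h4 (by rw [← H.bb x, e, H.bb])

theorem rlabel11_H.fb (H : rlabel11_H v w p a b) {x : Ω} (hx : rlabel11_NS v w p a b x) :
    b • x ≠ x := by
  intro e
  rcases H.bfix _ e with h | h | h
  · exact hx.1 h
  · exact hx.2.1 h
  · exact hx.2.2.1 h

theorem rlabel11_H.fa (H : rlabel11_H v w p a b) {x : Ω} (hx : rlabel11_NS v w p a b x) :
    a • x ≠ x := by
  intro e
  have h0 : b • (a • b • x) = a • b • x := by rw [← H.aba, e]
  rcases H.bfix _ h0 with h | h | h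
  · exact (H.NS_a (H.NS_b hx)).1 h
  · exact (H.NS_a (H.NS_b hx)).2.1 h
  · exact (H.NS_a (H.NS_b hx)).2.2.1 h

theorem rlabel11_H.fc (H : rlabel11_H v w p a b) {x : Ω} (hx : rlabel11_NS v w p a b x) :
    a • b • a • x ≠ x := by
  intro e
  have h0 : b • (a • x) = a • x := by
    have h1 := congrArg (fun y => a • y) e
    simp only [H.aa] at h1
    exact h1
  exact H.fb (H.NS_a hx) h0

theorem rlabel11_H.fab (H : rlabel11_H v w p a b) {x : Ω} (hx : rlabel11_NS v w p a b x) :
    a • b • x ≠ x := by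
  intro e
  rcases H.abfix _ e with h | h
  · exact hx.1 h
  · exact hx.2.1 h

theorem rlabel11_H.fba (H : rlabel11_H v w p a b) {x : Ω} (hx : rlabel11_NS v w p a b x) :
    b • a • x ≠ x := by
  intro e
  rcases H.bafix _ e with h | h
  · exact hx.1 h
  · exact hx.2.1 h

theorem rlabel11_inj (H : rlabel11_H v w p a b) {m : Ω} (hm : rlabel11_NS v w p a b m) :
    Function.Injective (rlabel11_F v w p a b m) := by
  rw [← List.nodup_ofFn]
  change ([v, w, p, a • p, b • a • p, m, b • m, a • m, a • b • m, b • a • m,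
    a • b • a • m] : List Ω).Nodup
  have hbm := H.NS_b hm
  have ham := H.NS_a hm
  have habm := H.NS_a hbm
  have hbam := H.NS_b ham
  have habam := H.NS_a hbam
  have k6 : b • m ≠ a • m := by
    intro e; exact H.fba hm (by rw [← e, H.bb])
  have k8 : b • m ≠ b • a • m := by
    intro e; exact H.fa hm (MulAction.injective b e).symm
  have k9 : b • m ≠ a • b • a • m := by
    intro e; rw [H.aba] at e; exact H.fab hm (MulAction.injective b e).symm
  have k10 : a • m ≠ a • b • m := by
    intro e; exact H.fb hm (MulAction.injective a e).symm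
  have k12 : a • m ≠ a • b • a • m := by
    intro e; exact H.fba hm (MulAction.injective a e).symm
  have k13 : a • b • m ≠ b • a • m := by
    intro e
    have h1 : a • b • a • b • m = b • a • m := by rw [← H.aba, H.aa]
    have h2 : a • b • a • b • m = m := by rw [e, H.bb, H.aa]
    exact H.fba hm (h1.symm.trans h2)
  have k14 : a • b • m ≠ a • b • a • m := by
    intro e; exact H.fa hm (MulAction.injective b (MulAction.injective a e)).symm
  obtain ⟨m1, m2, m3, m4, m5⟩ := hm
  obtain ⟨bm1, bm2, bm3, bm4, bm5⟩ := hbm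
  obtain ⟨am1, am2, am3, am4, am5⟩ := ham
  obtain ⟨abm1, abm2, abm3, abm4, abm5⟩ := habm
  obtain ⟨bam1, bam2, bam3, bam4, bam5⟩ := hbam
  obtain ⟨abam1, abam2, abam3, abam4, abam5⟩ := habam
  simp only [List.nodup_cons, List.mem_cons, not_or, List.not_mem_nil, not_false_eq_true,
    List.nodup_nil, and_true]
  refine ⟨⟨H.vw, H.pv.symm, H.qv.symm, H.rv.symm, m1.symm, bm1.symm, am1.symm, abm1.symm,
    bam1.symm, abam1.symm⟩, ⟨H.pw.symm, H.qw.symm, H.rw'.symm, m2.symm, bm2.symm, am2.symm,
    abm2.symm, bam2.symm, abam2.symm⟩, ⟨H.qp.symm, H.rp.symm, m3.symm, bm3.symm, am3.symm,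
    abm3.symm, bam3.symm, abam3.symm⟩, ⟨H.rq.symm, m4.symm, bm4.symm, am4.symm,
    abm4.symm, bam4.symm, abam4.symm⟩, ⟨m5.symm, bm5.symm, am5.symm,
    abm5.symm, bam5.symm, abam5.symm⟩, ⟨(H.fb ⟨m1, m2, m3, m4, m5⟩).symm,
    (H.fa ⟨m1, m2, m3, m4, m5⟩).symm, (H.fab ⟨m1, m2, m3, m4, m5⟩).symm,
    (H.fba ⟨m1, m2, m3, m4, m5⟩).symm, (H.fc ⟨m1, m2, m3, m4, m5⟩).symm⟩,
    ⟨k6, (H.fa ⟨bm1, bm2, bm3, bm4, bm5⟩).symm, k8, k9⟩,
    ⟨k10, (H.fb ⟨am1, am2, am3, am4, am5⟩).symm, k12⟩, ⟨k13, k14⟩,
    (H.fa ⟨bam1, bam2, bam3, bam4, bam5⟩).symm⟩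

theorem rlabel11_bij [Finite Ω] (H : rlabel11_H v w p a b) (h11 : Nat.card Ω = 11) {m : Ω}
    (hm : rlabel11_NS v w p a b m) :
    Function.Bijective (rlabel11_F v w p a b m) := by
  have hΩ : Fintype Ω := Fintype.ofFinite Ω
  rw [Fintype.bijective_iff_injective_and_card]
  refine ⟨rlabel11_inj H hm, ?_⟩
  rw [Fintype.card_fin, ← h11, Nat.card_eq_fintype_card]

theorem rlabel11_exists [Finite Ω] (h11 : Nat.card Ω = 11) (v w p : Ω) (a b : G) :
    ∃ m : Ω, rlabel11_NS v w p a b m := by
  classical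
  have hΩ : Fintype Ω := Fintype.ofFinite Ω
  by_contra hcon
  push Not at hcon
  have h1 : (Finset.univ : Finset Ω) ⊆ {v, w, p, a • p, b • a • p} := by
    intro x _
    have h2 := hcon x
    unfold rlabel11_NS at h2
    simp only [Finset.mem_insert, Finset.mem_singleton]
    tauto
  have h2 := Finset.card_le_card h1
  rw [Finset.card_univ, ← Nat.card_eq_fintype_card, h11] at h2
  have h3 : ({v, w, p, a • p, b • a • p} : Finset Ω).card ≤ 5 := Finset.card_le_five
  omega

end

/-- Job RLabel-11. Degree 11.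

Proof. Let `p` be the third fixed point of `b`, `q = a p`, `r = b q`. As `a b` fixes only `v, w`,
`a p ≠ p`; `(a b)^3 = 1` gives `a r = a b a p`, and `a b a = b a b`, so `a r = b a b p = b a p = r`;
`{p, q, r}` is an orbit of the group `H = closure {a, b}` (of order 6) of size 3. The other 6 points
form a regular orbit of `H`: the three conjugates of `b` in `H` have, besides `v, w`, one fixed
point each, in `{p, q, r}`, and `a b`, `(a b)^2` fix only `v, w`. `t` commutes with `a`, `b`, and is
a conjugate of `b` with exactly three fixed points; `t p` is fixed by `b`, `t` interchanges `v, w`,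
so `t p = p`, hence `t q = q`, `t r = r`; these are its three fixed points. On the 6 remaining
points `t` acts without fixed points and commutes with `H`: for a base point `m`, `t m = k m` with
`k ∈ H`, `k k = 1`, `k ≠ 1`, i.e. `k ∈ {a, b, a b a}`; replacing `m` by `g m` changes `k` to
`g k g⁻¹`. So we can choose `m` with `t m = b m`. Label (old labels): `v, w, p, q, r ↦ 0, 1, 2, 3, 4`;
`m ↦ 5`, `b m ↦ 6`, `a m ↦ 7`, `a b m ↦ 8`, `b a m ↦ 9`, `a b a m ↦ 10`. In these labels
`t = (1,0,2,3,4,6,5,8,7,10,9)`, `a = (0,1,3,2,4,7,8,5,6,10,9)`, `b = (0,1,2,4,3,6,5,9,10,7,8)`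
(lists of images). `c` fixes `v`, commutes with `b`, is an involution. `c w ≠ w` (`stab1`), so `c`
interchanges `w` and `p` (it permutes the fixed points of `b`).
`c` is an involution `≠ 1` so it has an odd number of fixed points, at most 3 by `hfix`, on the
eight points moved by `b` (four pairs `{3,4}, {5,6}, {7,9}, {8,10}` of interchanged points, which
`c` permutes) it has at most 2 fixed points, an even number. If it has no fixed point there then it
has just one, `v`; this is excluded by `hc3`. So `c` fixes exactly one of the four pairs pointwise, and on the other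
three pairs it either interchanges the points of each pair, or it exchanges two pairs (in one of two
ways) and interchanges the points of the third pair: 28 possibilities. 20 of them give a word in
`t, c, a, b` which is not the identity and has more than 3 fixed points (words `ct`, `ac`, `bc`,
`bct`, `bac`, `acacac`, `bctct`, product from left to right as group elements, e.g. `ct = c * t`),
contradicting `hfix`; 4 more give intransitive groups (`{0, 1, 2, 3, 4}` is invariant; `G` is
transitive: use 2-transitivity; note that the stabilizer of `v` is `closure {c, a, b}`, and that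
`G` is generated by this stabilizer and `t`); two more satisfy `(t c)^3 = b`, excluded by `hnb`. The
remaining two are `c = (0,2,1,10,8,6,5,7,4,9,3)` and `c = (0,2,1,9,7,6,5,4,8,3,10)`, which are
exchanged by replacing `m` by `b m`. In the first case relabel by
`0,1,2,3,4,5,6,7,8,9,10 ↦ 0,1,3,4,7,2,5,8,9,6,10` to get `T11, C11, A11, B11`.
(All this can be organized as a finite check by `decide` over the 28 possibilities.)
The full list of the 28 possibilities for `c` and the reasons is in the job text. -/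
theorem R_label11 {G Ω : Type*} [Group G] [MulAction G Ω] [Finite G] [Finite Ω] [FaithfulSMul G Ω]
    {v w : Ω} {t c a b : G} (h : RHyp v w t c a b) (h11 : Nat.card Ω = 11)
    (ho : orderOf (a * b) = 3) (htb : IsConj t b) (hb : Nat.card {x : Ω // b • x = x} = 3)
    (hab : Nat.card {x : Ω // (a * b) • x = x} = 2)
    (hfix : ∀ g : G, g ≠ 1 → Nat.card {x : Ω // g • x = x} ≤ 3)
    (hc3 : Nat.card {x : Ω // c • x = x} = 3) (hnb : (t * c) ^ 3 ≠ b) :
    ∃ β : Ω ≃ Fin 11, β v = 0 ∧ β w = 1 ∧ (∀ x, β (t • x) = T11 (β x)) ∧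
      (∀ x, β (c • x) = C11 (β x)) ∧ (∀ x, β (a • x) = A11 (β x)) ∧
      (∀ x, β (b • x) = B11 (β x)) := by
  classical
  have hΩ : Fintype Ω := Fintype.ofFinite Ω
  obtain ⟨p, hpv, hpw, hbp, hbfix⟩ := rlabel11_third h.vw h.bv h.bw hb
  have habfix := rlabel11_two h.vw (g := a * b) (by rw [mul_smul, h.bv, h.av])
    (by rw [mul_smul, h.bw, h.aw]) hab
  have haa : ∀ x : Ω, a • a • x = x := by intro x; rw [← mul_smul, h.aa, one_smul]
  have hbb : ∀ x : Ω, b • b • x = x := by intro x; rw [← mul_smul, h.bb, one_smul]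
  have htt : ∀ x : Ω, t • t • x = x := by intro x; rw [← mul_smul, h.tt, one_smul]
  have hcc : ∀ x : Ω, c • c • x = x := by intro x; rw [← mul_smul, h.cc, one_smul]
  have hta : ∀ x : Ω, t • a • x = a • t • x := by intro x; rw [← mul_smul, h.ta, mul_smul]
  have htb' : ∀ x : Ω, t • b • x = b • t • x := by intro x; rw [← mul_smul, h.tb, mul_smul]
  have hcb : ∀ x : Ω, c • b • x = b • c • x := by intro x; rw [← mul_smul, h.cb, mul_smul]
  have haba : ∀ x : Ω, a • b • a • x = b • a • b • x := by
    intro x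
    have h3 : (a * b) ^ 3 = 1 := by rw [← ho]; exact pow_orderOf_eq_one _
    have h4 : a * b * a = b * a * b := by
      have h5 : a * b * a * (b * a * b) = 1 := by
        rw [← h3]; simp only [pow_succ, pow_zero, one_mul, mul_assoc]
      have h6 : (b * a * b) * (b * a * b) = 1 := by
        calc (b * a * b) * (b * a * b) = b * a * (b * b) * a * b := by group
          _ = b * (a * a) * b := by rw [h.bb]; group
          _ = 1 := by rw [h.aa, mul_one, h.bb]
      exact mul_right_cancel (h5.trans h6.symm)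
    rw [← mul_smul, ← mul_smul, ← mul_smul, ← mul_smul, h4]
  have hab' : ∀ x : Ω, a • b • x = x → x = v ∨ x = w := by
    intro x hx; exact habfix x (by rw [mul_smul]; exact hx)
  have hba' : ∀ x : Ω, b • a • x = x → x = v ∨ x = w := by
    intro x hx
    apply hab'
    rw [← hx, hbb, haa, hx]
  have hav := h.av
  have haw := h.aw
  have hbv := h.bv
  have hbw := h.bw
  have hvw := h.vw
  have htv := h.tv
  have htw : t • w = v := by rw [← htv, htt]
  have htp : t • p = p := by
    have h1 : b • t • p = t • p := by rw [← htb', hbp]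
    rcases hbfix _ h1 with h2 | h2 | h2
    · exact absurd (by rw [← htt p, h2, htv]) hpw
    · exact absurd (by rw [← htt p, h2, htw]) hpv
    · exact h2
  have H : rlabel11_H v w p a b := ⟨hvw, hpv, hpw, hav, haw, hbv, hbw, hbp, haa, hbb, haba, hbfix,
    hab', hba'⟩
  have htq : t • a • p = a • p := by rw [hta, htp]
  have htr : t • b • a • p = b • a • p := by rw [htb', htq]
  have ht3 : Nat.card {x : Ω // t • x = x} = 3 := by rw [rlabel11_conj htb, hb]
  have htfix := rlabel11_three H.qp.symm H.rp.symm H.rq.symm htp htq htr ht3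
  -- the base point
  obtain ⟨m, hm, htm⟩ : ∃ m : Ω, rlabel11_NS v w p a b m ∧ t • m = b • m := by
    obtain ⟨m0, hm0⟩ := rlabel11_exists h11 v w p a b
    obtain ⟨i, hi⟩ := (rlabel11_bij H h11 hm0).2 (t • m0)
    have hback : ∀ y : Ω, y = t • m0 → m0 = t • y := by
      intro y hy; rw [hy, htt]
    fin_cases i
    · exact absurd (hback v hi) (by rw [htv]; exact hm0.2.1)
    · exact absurd (hback w hi) (by rw [htw]; exact hm0.1)
    · exact absurd (hback p hi) (by rw [htp]; exact hm0.2.2.1)
    · exact absurd (hback (a • p) hi) (by rw [htq]; exact hm0.2.2.2.1)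
    · exact absurd (hback (b • a • p) hi) (by rw [htr]; exact hm0.2.2.2.2)
    · have h1 : m0 = t • m0 := hi
      rcases htfix m0 h1.symm with h2 | h2 | h2
      · exact absurd h2 hm0.2.2.1
      · exact absurd h2 hm0.2.2.2.1
      · exact absurd h2 hm0.2.2.2.2
    · exact ⟨m0, hm0, hi.symm⟩
    · -- t m0 = a m0, take m = a b m0
      have h1 : a • m0 = t • m0 := hi
      refine ⟨a • b • m0, H.NS_a (H.NS_b hm0), ?_⟩
      rw [hta, htb', ← h1, ← haba, haba]
    · exfalso
      have h1 : a • b • m0 = t • m0 := hi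
      have h2 := hback _ h1
      rw [hta, htb', ← h1] at h2
      -- m0 = a b a b m0 = b a m0
      have h3 : a • b • a • b • m0 = b • a • m0 := by rw [← haba, haa]
      exact H.fba hm0 (by rw [← h3, ← h2])
    · exfalso
      have h1 : b • a • m0 = t • m0 := hi
      have h2 := hback _ h1
      rw [htb', hta, ← h1] at h2
      have h3 : b • a • b • a • m0 = a • b • m0 := by rw [haba, hbb]
      exact H.fab hm0 (by rw [← h3, ← h2])
    · -- t m0 = a b a m0, take m = a m0
      have h1 : a • b • a • m0 = t • m0 := hi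
      refine ⟨a • m0, H.NS_a hm0, ?_⟩
      rw [hta, ← h1, haa]
  have hbij := rlabel11_bij H h11 hm
  let e : Fin 11 ≃ Ω := Equiv.ofBijective _ hbij
  have heT : ∀ i, t • e i = e (rlabel11_T i) := by
    intro i
    fin_cases i
    · exact htv
    · exact htw
    · exact htp
    · exact htq
    · exact htr
    · exact htm
    · change t • b • m = m
      rw [htb', htm, hbb]
    · change t • a • m = a • b • m
      rw [hta, htm]
    · change t • a • b • m = a • m
      rw [hta, htb', htm, hbb]
    · change t • b • a • m = a • b • a • m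
      rw [htb', hta, htm, haba]
    · change t • a • b • a • m = b • a • m
      rw [hta, htb', hta, htm, ← haba, haa]
  have heA : ∀ i, a • e i = e (rlabel11_A i) := by
    intro i
    fin_cases i
    · exact hav
    · exact haw
    · rfl
    · exact haa p
    · exact H.ar
    · rfl
    · rfl
    · exact haa m
    · exact haa _
    · rfl
    · exact haa _
  have heB : ∀ i, b • e i = e (rlabel11_B i) := by
    intro i
    fin_cases i
    · exact hbv
    · exact hbw
    · exact hbp
    · rfl
    · exact hbb _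
    · rfl
    · exact hbb _
    · rfl
    · exact (haba m).symm
    · exact hbb _
    · change b • a • b • a • m = a • b • m
      rw [haba, hbb]
  obtain ⟨C, hC⟩ : ∃ C : Fin 11 → Fin 11, ∀ i, c • e i = e (C i) :=
    ⟨fun i => e.symm (c • e i), fun i => (e.apply_symm_apply _).symm⟩
  have hCC : ∀ i, C (C i) = i := by
    intro i
    apply e.injective
    rw [← hC, ← hC, hcc]
  have hCB : ∀ i, C (rlabel11_B i) = rlabel11_B (C i) := by
    intro i
    apply e.injective
    rw [← hC, ← heB, ← heB, ← hC, hcb]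
  have hBfix : ∀ i : Fin 11, rlabel11_B i = i → i = 0 ∨ i = 1 ∨ i = 2 := by decide +kernel
  have hC0 : C 0 = 0 := by
    apply e.injective
    rw [← hC]
    exact h.cv
  have hC12 : C 1 = 2 := by
    have h1 : rlabel11_B (C 1) = C 1 := by
      rw [← hCB]; rfl
    rcases hBfix _ h1 with h2 | h2 | h2
    · exfalso
      have h3 := hCC 1
      rw [h2, hC0] at h3
      exact absurd h3 (by decide)
    · exfalso
      have hcw : c • w = w := by
        have h3 := hC 1
        rw [h2] at h3
        exact h3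
      have hcmem := h.stab2 c h.cv hcw
      obtain ⟨g, hg1, hg2⟩ := h.two v w v p hvw hpv.symm
      have hg3 := h.stab1 g hg1
      have hle : Subgroup.closure ({c, a, b} : Set G) ≤ MulAction.stabilizer G w := by
        rw [Subgroup.closure_le]
        intro x hx
        rcases hx with rfl | rfl | rfl
        · exact hcw
        · exact haw
        · exact hbw
      have hg4 : g • w = w := hle hg3
      rw [hg2] at hg4
      exact hpw hg4
    · exact h2
  have hC21 : C 2 = 1 := by
    rw [← hC12, hCC]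
  have hx3 : 5 ≤ C 3 := by
    by_contra hlt
    have hC3 : C 3 = 3 ∨ C 3 = 4 := by
      have h5 : ∀ i : Fin 11, ¬ (5 ≤ i) → i = 0 ∨ i = 1 ∨ i = 2 ∨ i = 3 ∨ i = 4 := by
        decide +kernel
      rcases h5 _ hlt with h2 | h2 | h2 | h2 | h2
      · exfalso
        have h3 := hCC 3
        rw [h2, hC0] at h3
        exact absurd h3 (by decide)
      · exfalso
        have h3 := hCC 3
        rw [h2, hC12] at h3
        exact absurd h3 (by decide)
      · exfalso
        have h3 := hCC 3
        rw [h2, hC21] at h3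
        exact absurd h3 (by decide)
      · exact Or.inl h2
      · exact Or.inr h2
    have hC4 : C 4 = rlabel11_B (C 3) := by
      rw [← hCB]; rfl
    have hinv : ∀ i : Fin 11, i ≤ 4 → C i ≤ 4 := by
      have h6 : ∀ i : Fin 11, i ≤ 4 → i = 0 ∨ i = 1 ∨ i = 2 ∨ i = 3 ∨ i = 4 := by
        decide +kernel
      intro i hi
      rcases h6 i hi with rfl | rfl | rfl | rfl | rfl
      · rw [hC0]; decide
      · rw [hC12]; decide
      · rw [hC21]; decide
      · rcases hC3 with h7 | h7 <;> rw [h7] <;> decide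
      · rw [hC4]
        rcases hC3 with h7 | h7 <;> rw [h7] <;> decide +kernel
    have hAinv : ∀ i : Fin 11, i ≤ 4 → rlabel11_A i ≤ 4 := by decide +kernel
    have hBinv : ∀ i : Fin 11, i ≤ 4 → rlabel11_B i ≤ 4 := by decide +kernel
    obtain ⟨g, hg1, hg2⟩ := h.two v w v m hvw hm.1.symm
    have hg3 := h.stab1 g hg1
    have key : ∀ g ∈ Subgroup.closure ({c, a, b} : Set G), ∀ i : Fin 11, i ≤ 4 →
        ∃ j : Fin 11, j ≤ 4 ∧ g • e i = e j := by
      intro g hg
      refine Subgroup.closure_induction (p := fun g _ => ∀ i : Fin 11, i ≤ 4 →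
        ∃ j : Fin 11, j ≤ 4 ∧ g • e i = e j) ?_ ?_ ?_ ?_ hg
      · intro x hx i hi
        rcases hx with rfl | rfl | rfl
        · exact ⟨C i, hinv i hi, hC i⟩
        · exact ⟨_, hAinv i hi, heA i⟩
        · exact ⟨_, hBinv i hi, heB i⟩
      · intro i hi
        exact ⟨i, hi, one_smul _ _⟩
      · intro x y _ _ hx hy i hi
        obtain ⟨j, hj, hj2⟩ := hy i hi
        obtain ⟨k, hk, hk2⟩ := hx j hj
        exact ⟨k, hk, by rw [mul_smul, hj2, hk2]⟩
      · intro x _ hx i hi
        choose! f hf1 hf2 using hx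
        have hfinj : Function.Injective (fun i : {i : Fin 11 // i ≤ 4} =>
            (⟨f i.1, hf1 i.1 i.2⟩ : {i : Fin 11 // i ≤ 4})) := by
          intro i j hij
          have h8 : f i.1 = f j.1 := congrArg Subtype.val hij
          have h9 : x • e i.1 = x • e j.1 := by rw [hf2 _ i.2, hf2 _ j.2, h8]
          exact Subtype.ext (e.injective (MulAction.injective x h9))
        obtain ⟨j, hj⟩ := (Finite.injective_iff_surjective.1 hfinj) ⟨i, hi⟩
        refine ⟨j.1, j.2, ?_⟩
        have h10 : f j.1 = i := congrArg Subtype.val hj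
        rw [inv_smul_eq_iff, hf2 _ j.2, h10]
    obtain ⟨j, hj, hj2⟩ := key g hg3 1 (by decide)
    have h11' : e 5 = e j := by
      rw [← hj2]
      exact hg2.symm
    have h12 := e.injective h11'
    rw [← h12] at hj
    exact absurd hj (by decide)
  have hCfun : C = rlabel11_C (C 3) (C 5) (C 7) (C 8) := by
    funext i
    fin_cases i
    · exact hC0
    · exact hC12
    · exact hC21
    · rfl
    · exact hCB 3
    · rfl
    · exact hCB 5
    · rfl
    · rfl
    · exact hCB 7
    · exact hCB 8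
  have hword : ∀ (g : G) (W : Fin 11 → Fin 11), (∀ i, g • e i = e (W i)) →
      (Finset.univ.filter (fun i => W i = i)).card ≤ 3 ∨ ∀ i, W i = i := by
    intro g W hW
    by_cases hg : g = 1
    · right
      intro i
      apply e.injective
      rw [← hW, hg, one_smul]
    · left
      rw [← rlabel11_fix e g W hW]
      exact hfix g hg
  have hok : rlabel11_ok C := by
    refine ⟨hCC, ?_, ?_, ?_, ?_⟩
    · rw [← rlabel11_fix e c C hC]; exact hc3
    · apply hword (a * c * a * c * a * c)
      intro i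
      simp only [mul_smul, hC, heA]
    · apply hword (b * c * t * c * t)
      intro i
      simp only [mul_smul, hC, heB, heT]
    · intro hall
      apply hnb
      apply FaithfulSMul.eq_of_smul_eq_smul (α := Ω)
      intro x
      obtain ⟨i, rfl⟩ := e.surjective x
      rw [heB, ← hall]
      simp only [pow_succ, pow_zero, one_mul, mul_smul, hC, heT]
  rw [hCfun] at hok
  have hfin := rlabel11_check (C 3) hx3 (C 5) ?_ ?_ (C 7) ?_ ?_ (C 8) ?_ ?_ hok
  rotate_left
  · intro h1; rw [← h1, hCC]
  · intro h1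
    have h2 : C 5 = rlabel11_B (C 6) := by rw [← hCB]; rfl
    rw [h2, ← h1, hCC]; rfl
  · intro h1; rw [← h1, hCC]
  · intro h1
    have h2 : C 7 = rlabel11_B (C 9) := by rw [← hCB]; rfl
    rw [h2, ← h1, hCC]; rfl
  · intro h1; rw [← h1, hCC]
  · intro h1
    have h2 : C 8 = rlabel11_B (C 10) := by rw [← hCB]; rfl
    rw [h2, ← h1, hCC]; rfl
  rcases hfin with ⟨h3, h5, h7, h8⟩ | ⟨h3, h5, h7, h8⟩
  · rw [h3, h5, h7, h8] at hCfun
    refine ⟨e.symm.trans (Equiv.ofBijective _ rlabel11_s1_bij), ?_, ?_, ?_, ?_, ?_, ?_⟩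
    · have : v = e 0 := rfl
      rw [this, Equiv.trans_apply, Equiv.symm_apply_apply]; rfl
    · have : w = e 1 := rfl
      rw [this, Equiv.trans_apply, Equiv.symm_apply_apply]; rfl
    · intro x
      obtain ⟨i, rfl⟩ := e.surjective x
      rw [heT, Equiv.trans_apply, Equiv.trans_apply, Equiv.symm_apply_apply,
        Equiv.symm_apply_apply]
      exact rlabel11_s1_T i
    · intro x
      obtain ⟨i, rfl⟩ := e.surjective x
      rw [hC, Equiv.trans_apply, Equiv.trans_apply, Equiv.symm_apply_apply,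
        Equiv.symm_apply_apply, hCfun]
      exact rlabel11_s1_C i
    · intro x
      obtain ⟨i, rfl⟩ := e.surjective x
      rw [heA, Equiv.trans_apply, Equiv.trans_apply, Equiv.symm_apply_apply,
        Equiv.symm_apply_apply]
      exact rlabel11_s1_A i
    · intro x
      obtain ⟨i, rfl⟩ := e.surjective x
      rw [heB, Equiv.trans_apply, Equiv.trans_apply, Equiv.symm_apply_apply,
        Equiv.symm_apply_apply]
      exact rlabel11_s1_B i
  · rw [h3, h5, h7, h8] at hCfun
    refine ⟨e.symm.trans (Equiv.ofBijective _ rlabel11_s2_bij), ?_, ?_, ?_, ?_, ?_, ?_⟩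
    · have : v = e 0 := rfl
      rw [this, Equiv.trans_apply, Equiv.symm_apply_apply]; rfl
    · have : w = e 1 := rfl
      rw [this, Equiv.trans_apply, Equiv.symm_apply_apply]; rfl
    · intro x
      obtain ⟨i, rfl⟩ := e.surjective x
      rw [heT, Equiv.trans_apply, Equiv.trans_apply, Equiv.symm_apply_apply,
        Equiv.symm_apply_apply]
      exact rlabel11_s2_T i
    · intro x
      obtain ⟨i, rfl⟩ := e.surjective x
      rw [hC, Equiv.trans_apply, Equiv.trans_apply, Equiv.symm_apply_apply,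
        Equiv.symm_apply_apply, hCfun]
      exact rlabel11_s2_C i
    · intro x
      obtain ⟨i, rfl⟩ := e.surjective x
      rw [heA, Equiv.trans_apply, Equiv.trans_apply, Equiv.symm_apply_apply,
        Equiv.symm_apply_apply]
      exact rlabel11_s2_A i
    · intro x
      obtain ⟨i, rfl⟩ := e.surjective x
      rw [heB, Equiv.trans_apply, Equiv.trans_apply, Equiv.symm_apply_apply,
        Equiv.symm_apply_apply]
      exact rlabel11_s2_B i

end Pool.Agent.H.MP_6268b4_co
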