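import Pool.Agent.H.MP_6268b4_co.RLabelDefs

/-!
Regular case: explicit permutations.
-/

namespace Pool.Agent.H.MP_6268b4_co

theorem rlabel5_fix3 {Ω : Type*} [Finite Ω] (P : Ω → Prop) (v w : Ω)
    (h3 : Nat.card {x : Ω // P x} = 3) (hv : P v) (hw : P w) (hvw : v ≠ w) :
    ∃ p, P p ∧ p ≠ v ∧ p ≠ w ∧ ∀ x, P x → x = v ∨ x = w ∨ x = p := by
  classical
  haveI := Fintype.ofFinite Ω
  rw [Nat.card_eq_fintype_card, Fintype.card_subtype] at h3
  have h1 : (((Finset.univ.filter P).erase v).erase w).card = 1 := by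
    rw [Finset.card_erase_of_mem, Finset.card_erase_of_mem, h3]
    · simp [hv]
    · simp [hw, hvw.symm]
  obtain ⟨p, hp⟩ := Finset.card_eq_one.1 h1
  have hmem : ∀ x, x ∈ (((Finset.univ.filter P).erase v).erase w) ↔ x = p := by
    intro x
    rw [hp, Finset.mem_singleton]
  simp only [Finset.mem_erase, Finset.mem_filter, Finset.mem_univ, true_and] at hmem
  obtain ⟨h5, h6, h7⟩ := (hmem p).2 rfl
  refine ⟨p, h7, h6, h5, ?_⟩
  intro x hx
  by_cases hxv : x = v
  · exact Or.inl hxv
  · by_cases hxw : x = w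
    · exact Or.inr (Or.inl hxw)
    · exact Or.inr (Or.inr ((hmem x).1 ⟨hxw, hxv, hx⟩))

theorem rlabel5_fix2 {Ω : Type*} [Finite Ω] (P : Ω → Prop) (v w : Ω)
    (h3 : Nat.card {x : Ω // P x} = 2) (hv : P v) (hw : P w) (hvw : v ≠ w) :
    ∀ x, P x → x = v ∨ x = w := by
  classical
  haveI := Fintype.ofFinite Ω
  rw [Nat.card_eq_fintype_card, Fintype.card_subtype] at h3
  have h1 : (((Finset.univ.filter P).erase v).erase w).card = 0 := by
    rw [Finset.card_erase_of_mem, Finset.card_erase_of_mem, h3]
    · simp [hv]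
    · simp [hw, hvw.symm]
  rw [Finset.card_eq_zero] at h1
  intro x hx
  by_contra hcon
  push Not at hcon
  have h2 : x ∈ (((Finset.univ.filter P).erase v).erase w) := by
    simp [hx, hcon.1, hcon.2]
  rw [h1] at h2
  simp at h2

theorem rlabel5_conj {G Ω : Type*} [Group G] [MulAction G Ω] {t b : G} (htb : IsConj t b) :
    Nat.card {x : Ω // t • x = x} = Nat.card {x : Ω // b • x = x} := by
  obtain ⟨g, hg⟩ := isConj_iff.1 htb
  have h1 : b * g = g * t := by
    rw [← hg]
    group
  have h2 : t * g⁻¹ = g⁻¹ * b := by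
    rw [← hg]
    group
  refine Nat.card_congr ⟨fun x => ⟨g • x.1, ?_⟩, fun y => ⟨g⁻¹ • y.1, ?_⟩, ?_, ?_⟩
  · rw [smul_smul, h1, mul_smul, x.2]
  · rw [smul_smul, h2, mul_smul, y.2]
  · intro x
    simp
  · intro y
    simp

theorem rlabel5_fixt {Ω : Type*} [Finite Ω] (P : Ω → Prop) (v w : Ω) (h5 : Nat.card Ω = 5)
    (h3 : Nat.card {x : Ω // P x} = 3) (hv : ¬ P v) (hw : ¬ P w) (hvw : v ≠ w) :
    ∀ x, x ≠ v → x ≠ w → P x := by
  classical
  haveI := Fintype.ofFinite Ω
  rw [Nat.card_eq_fintype_card, Fintype.card_subtype] at h3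
  rw [Nat.card_eq_fintype_card] at h5
  have h1 : ((Finset.univ.erase v).erase w : Finset Ω).card = 3 := by
    rw [Finset.card_erase_of_mem, Finset.card_erase_of_mem, Finset.card_univ, h5]
    · simp
    · simp [hvw.symm]
  have h2 : Finset.univ.filter P ⊆ (Finset.univ.erase v).erase w := by
    intro x hx
    simp only [Finset.mem_filter, Finset.mem_univ, true_and] at hx
    simp only [Finset.mem_erase, Finset.mem_univ, and_true]
    exact ⟨fun h => hw (h ▸ hx), fun h => hv (h ▸ hx)⟩
  have h4 := Finset.eq_of_subset_of_card_le h2 (by rw [h1, h3])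
  intro x hxv hxw
  have h6 : x ∈ ((Finset.univ.erase v).erase w : Finset Ω) := by simp [hxv, hxw]
  rw [← h4] at h6
  simpa using h6

theorem rlabel5_equiv {Ω : Type*} [Finite Ω] (h5 : Nat.card Ω = 5) (f : Fin 5 → Ω)
    (hf : Function.Injective f) : Function.Bijective f := by
  haveI := Fintype.ofFinite Ω
  rw [Nat.card_eq_fintype_card] at h5
  exact (Fintype.bijective_iff_injective_and_card f).2 ⟨hf, by rw [h5]; rfl⟩

/-- Job RLabel-5. Degree 5.

Proof. `b` has exactly three fixed points `v, w, p` and interchanges the other two; `t` is a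
conjugate of `b`, so it also has exactly three fixed points, and interchanges `v, w`; so `t` fixes
the other three points. `a` fixes `v, w`; `a p ≠ p` since `a b` has only the two fixed points
`v, w`. Put `q = a p`, `r = b q`. `b q ≠ q` (`q ≠ v, w, p`). So `Ω = {v, w, p, q, r}`, `b` is the
transposition `(q r)`. `a` interchanges `p, q`; `a` is an involution fixing `v, w`, so it fixes the
remaining point `r`. `c` fixes `v`, commutes with `b`, so it permutes `{v, w, p}`; `c w ≠ w`
(`stab1`: otherwise the stabilizer of `v` would fix `w`), so `c` interchanges `w` and `p`, and either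
fixes or interchanges `q, r`. In the second case `t c` is a 3-cycle on `{v, w, p}` times the
transposition `(q r)`, so `(t c) ^ 3 = b` (faithfulness), contradicting `hnb`. Now label
`v, w, p, q, r` by `0, 1, 2, 3, 4`. -/
theorem R_label5 {G Ω : Type*} [Group G] [MulAction G Ω] [Finite G] [Finite Ω] [FaithfulSMul G Ω]
    {v w : Ω} {t c a b : G} (h : RHyp v w t c a b) (h5 : Nat.card Ω = 5)
    (ho : orderOf (a * b) = 3) (htb : IsConj t b) (hb : Nat.card {x : Ω // b • x = x} = 3)
    (hab : Nat.card {x : Ω // (a * b) • x = x} = 2) (hnb : (t * c) ^ 3 ≠ b) :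
    ∃ β : Ω ≃ Fin 5, β v = 0 ∧ β w = 1 ∧ (∀ x, β (t • x) = T5 (β x)) ∧
      (∀ x, β (c • x) = C5 (β x)) ∧ (∀ x, β (a • x) = A5 (β x)) ∧
      (∀ x, β (b • x) = B5 (β x)) := by
  have hinj : ∀ (g : G) {x y : Ω}, g • x = g • y → x = y := fun g x y hxy =>
    MulAction.injective g hxy
  have ha2 : ∀ x : Ω, a • a • x = x := fun x => by rw [smul_smul, h.aa, one_smul]
  have hb2 : ∀ x : Ω, b • b • x = x := fun x => by rw [smul_smul, h.bb, one_smul]
  have hc2 : ∀ x : Ω, c • c • x = x := fun x => by rw [smul_smul, h.cc, one_smul]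
  have ht2 : ∀ x : Ω, t • t • x = x := fun x => by rw [smul_smul, h.tt, one_smul]
  have hcb : ∀ x : Ω, b • c • x = c • b • x := fun x => by rw [smul_smul, ← h.cb, mul_smul]
  have htw : t • w = v := by rw [← h.tv, ht2]
  have hvw := h.vw
  obtain ⟨p, hbp, hpv, hpw, hbfix⟩ := rlabel5_fix3 (fun x : Ω => b • x = x) v w hb h.bv h.bw hvw
  have habfix := rlabel5_fix2 (fun x : Ω => (a * b) • x = x) v w hab
    (by rw [mul_smul, h.bv, h.av]) (by rw [mul_smul, h.bw, h.aw]) hvw
  have htfix := rlabel5_fixt (fun x : Ω => t • x = x) v w h5 (by rw [rlabel5_conj htb]; exact hb)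
    (by rw [h.tv]; exact hvw.symm) (by rw [htw]; exact hvw) hvw
  obtain ⟨q, hq⟩ : ∃ q, q = a • p := ⟨_, rfl⟩
  obtain ⟨r, hr⟩ : ∃ r, r = b • q := ⟨_, rfl⟩
  have hap : a • p = q := hq.symm
  have haq : a • q = p := by rw [hq, ha2]
  have hbq : b • q = r := hr.symm
  have hbr : b • r = q := by rw [hr, hb2]
  have hqv : q ≠ v := by
    intro hcon
    apply hpv
    rw [← haq, hcon, h.av]
  have hqw : q ≠ w := by
    intro hcon
    apply hpw
    rw [← haq, hcon, h.aw]
  have hqp : q ≠ p := by
    intro hcon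
    have h1 : (a * b) • p = p := by rw [mul_smul, hbp, hap, hcon]
    rcases habfix p h1 with h2 | h2
    · exact hpv h2
    · exact hpw h2
  have hrq : r ≠ q := by
    intro hcon
    rcases hbfix q (hbq.trans hcon) with h2 | h2 | h2
    · exact hqv h2
    · exact hqw h2
    · exact hqp h2
  have hrv : r ≠ v := by
    intro hcon
    apply hqv
    rw [← hbr, hcon, h.bv]
  have hrw : r ≠ w := by
    intro hcon
    apply hqw
    rw [← hbr, hcon, h.bw]
  have hrp : r ≠ p := by
    intro hcon
    apply hqp
    rw [← hbr, hcon, hbp]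
  -- the labelling
  have hfinj : Function.Injective (![v, w, p, q, r] : Fin 5 → Ω) := by
    intro i j hij
    fin_cases i <;> fin_cases j <;>
      first
      | rfl
      | (exfalso
         simp only [Fin.zero_eta, Fin.mk_one, Fin.reduceFinMk, Matrix.cons_val] at hij
         first
         | exact hvw hij
         | exact hvw hij.symm
         | exact hpv hij
         | exact hpv hij.symm
         | exact hpw hij
         | exact hpw hij.symm
         | exact hqv hij
         | exact hqv hij.symm
         | exact hqw hij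
         | exact hqw hij.symm
         | exact hqp hij
         | exact hqp hij.symm
         | exact hrv hij
         | exact hrv hij.symm
         | exact hrw hij
         | exact hrw hij.symm
         | exact hrp hij
         | exact hrp hij.symm
         | exact hrq hij
         | exact hrq hij.symm)
  have hfbij := rlabel5_equiv h5 _ hfinj
  have hall : ∀ x : Ω, x = v ∨ x = w ∨ x = p ∨ x = q ∨ x = r := by
    intro x
    obtain ⟨i, hi⟩ := hfbij.2 x
    rw [← hi]
    fin_cases i
    · exact Or.inl rfl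
    · exact Or.inr (Or.inl rfl)
    · exact Or.inr (Or.inr (Or.inl rfl))
    · exact Or.inr (Or.inr (Or.inr (Or.inl rfl)))
    · exact Or.inr (Or.inr (Or.inr (Or.inr rfl)))
  have har : a • r = r := by
    rcases hall (a • r) with h1 | h1 | h1 | h1 | h1
    · exact absurd (hinj a (h1.trans h.av.symm)) hrv
    · exact absurd (hinj a (h1.trans h.aw.symm)) hrw
    · exact absurd (hinj a (h1.trans haq.symm)) hrq
    · exact absurd (hinj a (h1.trans hap.symm)) hrp
    · exact h1
  have htp : t • p = p := htfix p hpv hpw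
  have htq : t • q = q := htfix q hqv hqw
  have htr : t • r = r := htfix r hrv hrw
  -- c
  have hcw : c • w ≠ w := by
    intro hcon
    obtain ⟨g, hg1, hg2⟩ := h.two v w v p hvw hpv.symm
    have h1 : g ∈ Subgroup.closure ({c, a, b} : Set G) := h.stab1 g hg1
    have h2 : Subgroup.closure ({c, a, b} : Set G) ≤ MulAction.stabilizer G w := by
      rw [Subgroup.closure_le]
      intro x hx
      rcases hx with hx | hx | hx
      · rw [hx]
        exact hcon
      · rw [hx]
        exact h.aw
      · rw [Set.mem_singleton_iff] at hx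
        rw [hx]
        exact h.bw
    have h3 : g • w = w := h2 h1
    exact hpw (hg2.symm.trans h3)
  have hcwp : c • w = p := by
    rcases hbfix (c • w) (by rw [hcb, h.bw]) with h1 | h1 | h1
    · exact absurd (hinj c (h1.trans h.cv.symm)) hvw.symm
    · exact absurd h1 hcw
    · exact h1
  have hcp : c • p = w := by rw [← hcwp, hc2]
  have hcq : c • q = q := by
    rcases hall (c • q) with h1 | h1 | h1 | h1 | h1
    · exact absurd (hinj c (h1.trans h.cv.symm)) hqv
    · exact absurd (hinj c (h1.trans hcp.symm)) hqp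
    · exact absurd (hinj c (h1.trans hcwp.symm)) hqw
    · exact h1
    · exfalso
      have hcr : c • r = q := by rw [← h1, hc2]
      apply hnb
      apply FaithfulSMul.eq_of_smul_eq_smul (α := Ω)
      intro x
      have e1 : ∀ y : Ω, (t * c) ^ 3 • y = t • c • t • c • t • c • y := by
        intro y
        rw [pow_succ, pow_succ, pow_one]
        simp only [mul_smul]
      rw [e1]
      rcases hall x with h2 | h2 | h2 | h2 | h2
      · rw [h2, h.cv, h.tv, hcwp, htp, hcp, htw, h.bv]
      · rw [h2, hcwp, htp, hcp, htw, h.cv, h.tv, h.bw]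
      · rw [h2, hcp, htw, h.cv, h.tv, hcwp, htp, hbp]
      · rw [h2, h1, htr, hcr, htq, h1, htr, hbq]
      · rw [h2, hcr, htq, h1, htr, hcr, htq, hbr]
  have hcr : c • r = r := by
    rcases hall (c • r) with h1 | h1 | h1 | h1 | h1
    · exact absurd (hinj c (h1.trans h.cv.symm)) hrv
    · exact absurd (hinj c (h1.trans hcp.symm)) hrp
    · exact absurd (hinj c (h1.trans hcwp.symm)) hrw
    · exact absurd (hinj c (h1.trans hcq.symm)) hrq
    · exact h1
  obtain ⟨e, he⟩ : ∃ e : Fin 5 ≃ Ω, ∀ i, e i = (![v, w, p, q, r] : Fin 5 → Ω) i :=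
    ⟨Equiv.ofBijective _ hfbij, fun i => rfl⟩
  have e0 : e 0 = v := he 0
  have e1 : e 1 = w := he 1
  have e2 : e 2 = p := he 2
  have e3 : e 3 = q := he 3
  have e4 : e 4 = r := he 4
  have key : ∀ (g : G) (F : Fin 5 → Fin 5), (∀ i, g • e i = e (F i)) →
      ∀ x, e.symm (g • x) = F (e.symm x) := by
    intro g F hgF x
    rw [Equiv.symm_apply_eq, ← hgF, Equiv.apply_symm_apply]
  refine ⟨e.symm, ?_, ?_, ?_, ?_, ?_, ?_⟩
  · rw [Equiv.symm_apply_eq, e0]
  · rw [Equiv.symm_apply_eq, e1]
  · refine key t T5 ?_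
    intro i
    fin_cases i
    · exact (congrArg (t • ·) e0).trans (h.tv.trans e1.symm)
    · exact (congrArg (t • ·) e1).trans (htw.trans e0.symm)
    · exact (congrArg (t • ·) e2).trans (htp.trans e2.symm)
    · exact (congrArg (t • ·) e3).trans (htq.trans e3.symm)
    · exact (congrArg (t • ·) e4).trans (htr.trans e4.symm)
  · refine key c C5 ?_
    intro i
    fin_cases i
    · exact (congrArg (c • ·) e0).trans (h.cv.trans e0.symm)
    · exact (congrArg (c • ·) e1).trans (hcwp.trans e2.symm)
    · exact (congrArg (c • ·) e2).trans (hcp.trans e1.symm)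
    · exact (congrArg (c • ·) e3).trans (hcq.trans e3.symm)
    · exact (congrArg (c • ·) e4).trans (hcr.trans e4.symm)
  · refine key a A5 ?_
    intro i
    fin_cases i
    · exact (congrArg (a • ·) e0).trans (h.av.trans e0.symm)
    · exact (congrArg (a • ·) e1).trans (h.aw.trans e1.symm)
    · exact (congrArg (a • ·) e2).trans (hap.trans e3.symm)
    · exact (congrArg (a • ·) e3).trans (haq.trans e2.symm)
    · exact (congrArg (a • ·) e4).trans (har.trans e4.symm)
  · refine key b B5 ?_
    intro i
    fin_cases i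
    · exact (congrArg (b • ·) e0).trans (h.bv.trans e0.symm)
    · exact (congrArg (b • ·) e1).trans (h.bw.trans e1.symm)
    · exact (congrArg (b • ·) e2).trans (hbp.trans e2.symm)
    · exact (congrArg (b • ·) e3).trans (hbq.trans e4.symm)
    · exact (congrArg (b • ·) e4).trans (hbr.trans e3.symm)

end Pool.Agent.H.MP_6268b4_co
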