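import Pool.Agent.H.MP_6268b4_co.RMainA

/-!
Regular case: the degree is 5 or 11; removal of the faithfulness hypothesis.
-/

namespace Pool.Agent.H.MP_6268b4_co

/-- odd order and square one -/
theorem rmainb_odd {G : Type*} [Group G] {k x : G} (hk : k ∈ Subgroup.zpowers x)
    (hodd : Odd (orderOf x)) (h2 : k * k = 1) : k = 1 := by
  have h1 : orderOf k ∣ orderOf x := by
    obtain ⟨i, rfl⟩ := hk
    exact orderOf_dvd_of_mem_zpowers ⟨i, rfl⟩
  have h3 : orderOf k ∣ 2 := orderOf_dvd_of_pow_eq_one (by rw [pow_two]; exact h2)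
  have h4 : Odd (orderOf k) := Odd.of_dvd_nat hodd h1
  rcases (Nat.dvd_prime Nat.prime_two).1 h3 with h5 | h5
  · exact orderOf_eq_one_iff.1 h5
  · rw [h5] at h4
    exact absurd h4 (by decide)

/-- an element fixing two of three points acts trivially -/
theorem rmainb_three {G Ω : Type*} [Group G] [MulAction G Ω] [Finite Ω] {v w : Ω} {a : G}
    (hn : Nat.card Ω = 3) (hvw : v ≠ w) (av : a • v = v) (aw : a • w = w) (x : Ω) :
    a • x = x := by
  classical
  by_cases hxv : x = v
  · rw [hxv, av]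
  by_cases hxw : x = w
  · rw [hxw, aw]
  by_contra hne
  have h1 : a • x ≠ v := by
    intro h
    apply hxv
    rw [← av] at h
    exact MulAction.injective a h
  have h2 : a • x ≠ w := by
    intro h
    apply hxw
    rw [← aw] at h
    exact MulAction.injective a h
  have := Fintype.ofFinite Ω
  have h3 : ({v, w, x, a • x} : Finset Ω).card = 4 := by
    rw [Finset.card_insert_of_notMem, Finset.card_insert_of_notMem,
      Finset.card_insert_of_notMem, Finset.card_singleton]
    · simp only [Finset.mem_singleton]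
      exact fun h => hne h.symm
    · simp only [Finset.mem_insert, Finset.mem_singleton, not_or]
      exact ⟨fun h => hxw h.symm, fun h => h2 h.symm⟩
    · simp only [Finset.mem_insert, Finset.mem_singleton, not_or]
      exact ⟨hvw, fun h => hxv h.symm, fun h => h1 h.symm⟩
  have h4 := Finset.card_le_univ ({v, w, x, a • x} : Finset Ω)
  rw [h3, ← Nat.card_eq_fintype_card, hn] at h4
  omega

/-- Job RMain-2. Without faithfulness: either `n = 3` and `a`, `b` act trivially, or the action is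
faithful and `n ∈ {5, 11}`.

Proof. Let `π : G →* Equiv.Perm Ω` be the action, `Gbar = π.range`, with the natural faithful
action. `RHyp v w (π t) (π c) (π a) (π b)` holds for `Gbar` (orders of images divide orders, so
`orderOf (π a * π b)` is odd; `stab2`, `stab1` because `π` maps `closure` onto `closure` of the
images and stabilizers are preimages).
If `n = 3`: suppose `π b ≠ 1`; `π b` fixes `v, w`, hence also the third point, so `π b = 1`,
contradiction; the same for `a`.
If `4 ≤ n`: by `R_main` for `Gbar`, `orderOf (π a * π b) = 3`, `n ∈ {5, 11}` and `π t` is conjugate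
to `π b`. Let `K = π.ker`; elements of `K` fix `v, w`, so `K ≤ closure {a, b}` (`stab2`). `b ≠ 1`.
By `dih_form` an element `k ∈ K` is `(ab)^i` or `(ab)^i * b`; in the second case `π b` would be a
power of `π (a b)`, so it would have odd order, hence `π b = 1`, a contradiction with `R_basic` for
`Gbar`. So `K ≤ zpowers (a b)`, in particular `K` is commutative, `t` commutes with `K`, and `b`
inverts it: `b k b = k⁻¹`. Let `π (g t g⁻¹) = π b`: `g t g⁻¹ = k₀ b` with `k₀ ∈ K`. For `k ∈ K`:
`g⁻¹ k g ∈ K` commutes with `t`, so `g t g⁻¹` commutes with `k`; but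
`(k₀ b) k (k₀ b)⁻¹ = k₀ k⁻¹ k₀⁻¹ = k⁻¹`. So `k k = 1` and `k = 1` because `k` has odd order.
So `K = 1`, `π` is injective (the action is faithful), and the conclusions of `R_main` hold for
`G`. -/
theorem R_main' {G Ω : Type*} [Group G] [MulAction G Ω] [Finite G] [Finite Ω]
    {v w : Ω} {t c a b : G} (h : RHyp v w t c a b) (hn : 3 ≤ Nat.card Ω) :
    (Nat.card Ω = 3 ∧ ∀ x : Ω, a • x = x ∧ b • x = x) ∨
    (FaithfulSMul G Ω ∧ 4 ≤ Nat.card Ω ∧ orderOf (a * b) = 3 ∧
      (Nat.card Ω = 5 ∨ Nat.card Ω = 11) ∧ IsConj t b ∧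
      Nat.card {x : Ω // b • x = x} = 3 ∧ Nat.card {x : Ω // (a * b) • x = x} = 2 ∧
      (∀ g : G, g ≠ 1 → Nat.card {x : Ω // g • x = x} ≤ 3) ∧
      (Nat.card Ω = 11 → ∀ z : G, z * z = 1 → z ≠ 1 → IsConj z b)) := by
  rcases Nat.lt_or_ge (Nat.card Ω) 4 with h4 | h4
  · left
    have h3 : Nat.card Ω = 3 := by omega
    exact ⟨h3, fun x => ⟨rmainb_three h3 h.vw h.av h.aw x, rmainb_three h3 h.vw h.bv h.bw x⟩⟩
  right
  set π : G →* Equiv.Perm Ω := MulAction.toPermHom G Ω with hπ
  set f : G →* π.range := π.rangeRestrict with hf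
  have hact : ∀ (g : G) (x : Ω), f g • x = g • x := fun g x => rfl
  have hsurj : ∀ y : π.range, ∃ g : G, f g = y := by
    rintro ⟨y, g, rfl⟩
    exact ⟨g, rfl⟩
  have hbar : RHyp v w (f t) (f c) (f a) (f b) := by
    refine ⟨?_, h.vw, ?_, ?_, ?_, ?_, ?_, h.av, h.aw, h.bv, h.bw, h.tv, h.cv, ?_, ?_, ?_, ?_, ?_⟩
    · intro x y x' y' hxy hxy'
      obtain ⟨g, h1, h2⟩ := h.two x y x' y' hxy hxy'
      exact ⟨f g, h1, h2⟩
    · rw [← map_mul, h.aa, map_one]
    · rw [← map_mul, h.bb, map_one]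
    · rw [← map_mul, h.cc, map_one]
    · rw [← map_mul, h.tt, map_one]
    · rw [← map_mul]
      exact Odd.of_dvd_nat h.odd (orderOf_map_dvd f (a * b))
    · rw [← map_mul, h.ta, map_mul]
    · rw [← map_mul, h.tb, map_mul]
    · rw [← map_mul, h.cb, map_mul]
    · intro y h1 h2
      obtain ⟨g, rfl⟩ := hsurj y
      have h3 := h.stab2 g h1 h2
      have h5 : f g ∈ (Subgroup.closure ({a, b} : Set G)).map f := Subgroup.mem_map_of_mem f h3
      rw [MonoidHom.map_closure, Set.image_pair] at h5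
      exact h5
    · intro y h1
      obtain ⟨g, rfl⟩ := hsurj y
      have h3 := h.stab1 g h1
      have h5 : f g ∈ (Subgroup.closure ({c, a, b} : Set G)).map f :=
        Subgroup.mem_map_of_mem f h3
      rw [MonoidHom.map_closure, Set.image_insert_eq, Set.image_pair] at h5
      exact h5
  have hfaith : FaithfulSMul π.range Ω := by
    refine ⟨fun {y y'} hy => ?_⟩
    apply Subtype.ext
    apply Equiv.ext
    intro x
    exact hy x
  have hmain := R_main hbar h4
  have hbas := R_basic hbar h4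
  have hker : ∀ k : G, f k = 1 → k ∈ Subgroup.zpowers (a * b) := by
    intro k hk
    have hk' : ∀ x : Ω, k • x = x := by
      intro x
      rw [← hact, hk, one_smul]
    have h1 := h.stab2 k (hk' v) (hk' w)
    rcases dih_form h.aa h.bb h1 with ⟨i, hi⟩ | ⟨i, hi⟩
    · exact ⟨i, hi.symm⟩
    · exfalso
      apply hbas.2.1
      have h2 : f b ∈ Subgroup.zpowers (f (a * b)) := by
        rw [hi, map_mul, map_zpow] at hk
        refine ⟨-i, ?_⟩
        have h3 : f b = (f (a * b) ^ i)⁻¹ := by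
          rw [eq_inv_iff_mul_eq_one]
          exact mul_eq_one_comm.1 hk
        change f (a * b) ^ (-i) = f b
        rw [h3, zpow_neg]
      refine rmainb_odd h2 ?_ ?_
      · exact Odd.of_dvd_nat h.odd (orderOf_map_dvd f (a * b))
      · rw [← map_mul, h.bb, map_one]
  have hinvb : b⁻¹ = b := inv_eq_of_mul_eq_one_left h.bb
  have hinva : a⁻¹ = a := inv_eq_of_mul_eq_one_left h.aa
  have htk : ∀ k ∈ Subgroup.zpowers (a * b), t * k = k * t := by
    rintro _ ⟨i, rfl⟩
    have : Commute t (a * b) := Commute.mul_right h.ta h.tb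
    exact this.zpow_right i
  have hbk : ∀ k ∈ Subgroup.zpowers (a * b), b * k * b⁻¹ = k⁻¹ := by
    rintro _ ⟨i, rfl⟩
    change b * (a * b) ^ i * b⁻¹ = ((a * b) ^ i)⁻¹
    rw [← conj_zpow]
    have : b * (a * b) * b⁻¹ = (a * b)⁻¹ := by
      rw [mul_inv_rev, hinva, ← mul_assoc, mul_inv_cancel_right, hinvb]
    rw [this, inv_zpow]
  have hinj : Function.Injective f := by
    rw [injective_iff_map_eq_one]
    intro k hk
    obtain ⟨g', hg'⟩ := isConj_iff.1 hmain.2.2.1
    obtain ⟨g, rfl⟩ := hsurj g'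
    have hk0 : f (g * t * g⁻¹ * b⁻¹) = 1 := by
      rw [map_mul, map_mul, map_mul, map_inv, map_inv, hg', mul_inv_cancel]
    set k0 := g * t * g⁻¹ * b⁻¹ with hk0def
    have hgt : g * t * g⁻¹ = k0 * b := by
      rw [hk0def, inv_mul_cancel_right]
    have hconj : f (g⁻¹ * k * g) = 1 := by
      rw [map_mul, map_mul, hk, mul_one, ← map_mul, inv_mul_cancel, map_one]
    have h1 := htk _ (hker _ hconj)
    have h2 : (g * t * g⁻¹) * k = k * (g * t * g⁻¹) := by
      have : g * (t * (g⁻¹ * k * g)) * g⁻¹ = g * (g⁻¹ * k * g * t) * g⁻¹ := by rw [h1]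
      calc (g * t * g⁻¹) * k = g * (t * (g⁻¹ * k * g)) * g⁻¹ := by group
        _ = g * (g⁻¹ * k * g * t) * g⁻¹ := this
        _ = k * (g * t * g⁻¹) := by group
    rw [hgt] at h2
    have h3 := hbk k (hker k hk)
    have h5 : k0 * k⁻¹ = k⁻¹ * k0 := by
      obtain ⟨i, hi⟩ := hker k0 hk0
      obtain ⟨j, hj⟩ := hker k hk
      rw [← hi, ← hj]
      change (a * b) ^ i * ((a * b) ^ j)⁻¹ = ((a * b) ^ j)⁻¹ * (a * b) ^ i
      rw [← zpow_neg, ← zpow_add, ← zpow_add, add_comm]
    have h6 : k = k⁻¹ := by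
      calc k = k * (k0 * b) * (k0 * b)⁻¹ := by rw [mul_inv_cancel_right]
        _ = k0 * b * k * (k0 * b)⁻¹ := by rw [h2]
        _ = k0 * (b * k * b⁻¹) * k0⁻¹ := by group
        _ = k⁻¹ := by rw [h3, h5, mul_inv_cancel_right]
    refine rmainb_odd (hker k hk) h.odd ?_
    nth_rewrite 2 [h6]
    rw [mul_inv_cancel]
  have hF : FaithfulSMul G Ω := by
    refine ⟨fun {y y'} hy => ?_⟩
    apply hinj
    apply Subtype.ext
    apply Equiv.ext
    intro x
    exact hy x
  exact ⟨hF, h4, R_main h h4⟩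

end Pool.Agent.H.MP_6268b4_co
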