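import Pool.Agent.H.MP_6268b4_co.IdThree
import Pool.Agent.H.MP_6268b4_co.IdFive
import Pool.Agent.H.MP_6268b4_co.M32Poly
import Pool.Agent.H.MP_6268b4_co.RMainB
import Pool.Agent.H.MP_6268b4_co.RLabel5
import Pool.Agent.H.MP_6268b4_co.RLabel11
import Pool.Agent.H.MP_6268b4_co.Transport

/-!
The classification of the regular polytopes.
-/

namespace Pool.Agent.H.MP_6268b4_co

/-- Job FinR-1.

Proof. Let `Φ` be a tuple (`toTup` of some flag; flags exist, `exists_flag_mem ⊥`), `ρ i` with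
`tmap (ρ i) Φ = adj i Φ` (`regular_tup`). `bridge_R` gives `RHyp`, `three_le` gives `3 ≤ n`. `R_main'`:
if `n = 3`, `id_three`. Otherwise the action is faithful etc.; `bridge_nb` gives
`(ρ 0 * ρ 1)^3 ≠ ρ 3`. `n = 5`: `R_label5`, `id_five`. `n = 11`: `ρ 1` is an involution `≠ 1`
(`reg_sq`, `reg_ne_one`), so conjugate to `ρ 3`, hence has exactly three fixed vertices (the numbers
of fixed points of conjugate elements are equal); `R_label11`, `id_eleven`. -/
theorem regular_forward {P : Type*} [PartialOrder P] [BoundedOrder P] [Finite P] {rk : P → ℤ}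
    (h : IsPolytope 4 P rk) (hR : IsRegular P) (hs : SimpleComplete rk) (ho : OddType rk) :
    (∃ r : ℕ, 3 ≤ r ∧ Odd r ∧ Nonempty (P ≃o M32 r)) ∨ Nonempty (P ≃o Finset (Fin 5)) ∨
      Nonempty (P ≃o ElevenCell) := by
  obtain ⟨A, -⟩ := exists_flag_mem (⊥ : P)
  obtain ⟨Φ, hΦ⟩ : ∃ Φ : Tup P rk, Φ = toTup h A := ⟨_, rfl⟩
  have hex : ∀ i : Fin 4, ∃ γ : P ≃o P, tmap h h γ Φ = adj h i Φ := fun i =>
    regular_tup h hR Φ (adj h i Φ)
  choose ρ hρ using hex
  have hT : ∀ Φ Ψ : Tup P rk, ∃ γ : P ≃o P, tmap h h γ Φ = Ψ := fun Φ Ψ => regular_tup h hR Φ Ψ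
  have RH := bridge_R h hs ho hρ hT
  have hn := three_le h hs Φ
  have hnb := bridge_nb h hρ
  rcases R_main' RH hn with ⟨h3, -⟩ | ⟨hf, h4, hab3, h511, htb, hb3, hab2, hfix, hinv⟩
  · exact Or.inl (id_three h hs ho hρ hT h3)
  · right
    haveI := hf
    rcases h511 with h5 | h11
    · left
      obtain ⟨β, -, -, h0, h1, h2, h3⟩ := R_label5 RH h5 hab3 htb hb3 hab2 hnb
      exact id_five h hρ hf β h0 h1 h2 h3
    · right
      have hcb : IsConj (ρ 1) (ρ 3) := hinv h11 (ρ 1) (reg_sq h hρ 1) (reg_ne_one h hρ 1)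
      have hc3 : Nat.card {x : Vert P // ρ 1 • x = x} = 3 := by
        rw [rlabel11_conj hcb, hb3]
      obtain ⟨β, -, -, h0, h1, h2, h3⟩ := R_label11 RH h11 hab3 htb hb3 hab2 hfix hc3 hnb
      exact id_eleven h hρ hf β h0 h1 h2 h3

/-- Job FinR-2. Proof: `M32.isPolytope`, `M32.regular`, `M32.simple`, `M32.oddType`, etc., and the
`transport` lemmas. -/
theorem regular_backward {P : Type*} [PartialOrder P] [BoundedOrder P]
    (hP : (∃ r : ℕ, 3 ≤ r ∧ Odd r ∧ Nonempty (P ≃o M32 r)) ∨ Nonempty (P ≃o Finset (Fin 5)) ∨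
      Nonempty (P ≃o ElevenCell)) :
    ∃ rk : P → ℤ, IsPolytope 4 P rk ∧ IsRegular P ∧ SimpleComplete rk ∧ OddType rk := by
  rcases hP with ⟨r, hr, hodd, ⟨f⟩⟩ | ⟨⟨f⟩⟩ | ⟨⟨f⟩⟩
  · exact ⟨M32.rk ∘ f, transport_poly f (M32.isPolytope hr), transport_regular f (M32.regular hr),
      transport_simple f M32.simple, transport_odd f (M32.oddType hodd)⟩
  · exact ⟨Simplex.rk ∘ f, transport_poly f Simplex.isPolytope,
      transport_regular f Simplex.regular, transport_simple f Simplex.simple,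
      transport_odd f Simplex.oddType⟩
  · exact ⟨ElevenCell.rk ∘ f, transport_poly f ElevenCell.isPolytope,
      transport_regular f ElevenCell.regular, transport_simple f ElevenCell.simple,
      transport_odd f ElevenCell.oddType⟩

end Pool.Agent.H.MP_6268b4_co
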