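import Pool.Agent.H.MP_6268b4_co.CRChiralB
import Pool.Agent.H.MP_6268b4_co.TIsoV
import Pool.Agent.H.MP_6268b4_co.BridgeC

/-!
Identification of the chiral polytopes.
-/

namespace Pool.Agent.H.MP_6268b4_co

variable {P : Type*} [PartialOrder P] [BoundedOrder P] {rk : P → ℤ}

/-- `mobInv` composed with the squaring map, for `lam = ω ^ 2`, `ω ^ 3 = 1`. -/
lemma idchiral_sq {F : Type*} [Field F] [DecidableEq F] {ω lam : F} (hl : lam = ω * ω)
    (c : Option F) :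
    (mobInv lam c).map (fun z => z ^ 2) =
      ((mobInv lam (c.map (fun z => z ^ 2))).map (fun z => ω * z)).map (fun z => ω * z) := by
  cases c with
  | none =>
    simp [mobInv]
  | some z =>
    by_cases hz : z = 0
    · subst hz
      simp [mobInv]
    · have hz2 : z ^ 2 ≠ 0 := pow_ne_zero 2 hz
      simp only [mobInv, Option.map_some, if_neg hz, if_neg hz2]
      congr 1
      rw [hl]
      field_simp

/-- The squaring map as a permutation of a finite field of characteristic two. -/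
lemma idchiral_bij {F : Type*} [Field F] [Fintype F] (h2 : (2 : F) = 0) :
    Function.Bijective (fun z : F => z ^ 2) := by
  rw [← Finite.injective_iff_bijective]
  intro z w hzw
  have h1 : z ^ 2 = w ^ 2 := hzw
  have h3 : (z + w) ^ 2 = 0 := by linear_combination h1 + (w ^ 2 + z * w) * h2
  have h4 : z + w = 0 := pow_eq_zero_iff (two_ne_zero) |>.1 h3
  linear_combination h4 - w * h2

/-- The polytope and the tuples in the case of four elements. -/
lemma idchiral_tup (h : IsPolytope 4 P rk) {Φ : Tup P rk} {s : Fin 4 → Fin 4 → (P ≃o P)}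
    (hs : ∀ i j, tmap h h (s i j) Φ = adj h j (adj h i Φ)) :
    tmap h h (s 3 2 * s 3 2 * s 2 0) (adj h 3 Φ) = adj h 0 (adj h 2 (adj h 3 Φ)) ∧
      tmap h h (s 1 3) (adj h 3 Φ) = adj h 3 (adj h 1 (adj h 3 Φ)) ∧
      tmap h h (s 3 2)⁻¹ (adj h 3 Φ) = adj h 2 (adj h 3 (adj h 3 Φ)) := by
  refine ⟨?_, ?_, ?_⟩
  · have e1 : tmap h h (s 3 2 * s 3 2) Φ = adj h 2 (adj h 3 (adj h 2 (adj h 3 Φ))) := by
      rw [tmap_mul, hs 3 2, tmap_adj, tmap_adj, hs 3 2]
    have e2 : tmap h h (s 2 0) (adj h 3 Φ) = adj h 3 (adj h 0 (adj h 2 Φ)) := by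
      rw [tmap_adj, hs 2 0]
    have e3 : tmap h h (s 3 2 * s 3 2) (adj h 3 (adj h 0 (adj h 2 Φ))) =
        adj h 3 (adj h 0 (adj h 2 (tmap h h (s 3 2 * s 3 2) Φ))) := by
      rw [tmap_adj, tmap_adj, tmap_adj]
    rw [tmap_mul, e2, e3, e1, adj_adj, adj_comm h (i := 0) (j := 3) (by decide), adj_adj]
  · rw [tmap_adj, hs 1 3, adj_adj, ← adj_comm h (i := 1) (j := 3) (by decide), adj_adj]
  · rw [(chi_rel h hs).2.2.1, tmap_adj, hs 2 3, adj_adj, adj_adj]

/-- Job IdChiral-1. The field with four elements does not give a chiral polytope.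

Proof. Let `τ = s 2 0`, `j = s 1 3`, `σ = s 3 2`. `ω^3 = 1` and `lam = ω ^ 2` (from
`lam * (1 + ω)^2 = 1`, `1 + ω = ω^2` (characteristic 2), `ω^4 lam = 1`, `ω lam = 1`). Let
`φ : Vert P ≃ Vert P` be the map with `β (φ x) = (β x).map (fun z => z ^ 2)`; `z ↦ z ^ 2` is
injective in characteristic 2 (`z^2 = z'^2` gives `(z + z')^2 = 0`) hence bijective (`F` is finite).
Apply `iso_of_vert_chi_base` with `Q = P`, `Ψ = adj 3 Φ`, `τ' = σ * σ * τ`, `j' = j`, `σ' = σ⁻¹` and the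
bijection `φ`:
`φ (τ x) = τ' (φ x)`: coordinates `(lam / z)^2 = lam^2 / z^2` and `ω^2 * (lam / z^2)`; `lam^2 =
ω^4 = ω = ω^2 * lam` (also check `z = none` and `z = 0`); `(z + 1)^2 = z^2 + 1`;
`(ω z)^2 = ω^2 z^2 = ω⁻¹ z^2`.
On tuples: `tmap τ' Ψ = adj 0 (adj 2 Ψ)`: with `tmap_adj`, the left side is
`adj 3 (adj 0 (adj 2 (adj 2 (adj 3 (adj 2 (adj 3 Φ)))))) = adj 3 (adj 0 (adj 3 (adj 2 (adj 3 Φ))))
= adj 0 (adj 2 (adj 3 Φ))` by `adj_adj`, `adj_comm`. `tmap j Ψ = adj 3 (adj 3 (adj 1 Φ)) = adj 1 Φ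
= adj 3 (adj 1 (adj 3 Φ))`. `tmap σ⁻¹ Ψ = adj 3 (adj 3 (adj 2 Φ)) = adj 2 Φ = adj 2 (adj 3 Ψ)`.
The resulting `f` satisfies `tmap f Φ = adj 3 Φ`, contradicting `hc`. -/
theorem chi_no_four (h : IsPolytope 4 P rk) {Φ : Tup P rk} {s : Fin 4 → Fin 4 → (P ≃o P)}
    (hs : ∀ i j, tmap h h (s i j) Φ = adj h j (adj h i Φ)) (hC : IsChiral P)
    (hf : FaithfulSMul (P ≃o P) (Vert P))
    {F : Type*} [Field F] [Fintype F] [DecidableEq F] {ω lam : F} (β : Vert P ≃ Option F)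
    (h2 : (2 : F) = 0) (hω3 : ω ^ 2 + ω + 1 = 0) (hlam : lam * (1 + ω) ^ 2 = 1)
    (hβσ : ∀ x, β (s 3 2 • x) = (β x).map (fun z => ω * z))
    (hβj : ∀ x, β (s 1 3 • x) = (β x).map (fun z => z + 1))
    (hβτ : ∀ x, β (s 2 0 • x) = mobInv lam (β x)) : False := by
  have h3 : ω * (ω * ω) = 1 := by linear_combination (ω - 1) * hω3
  have h4 : lam * ω = 1 := by linear_combination hlam - lam * hω3
  have hl : lam = ω * ω := by linear_combination (ω * ω) * h4 - lam * h3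
  set e : F ≃ F := Equiv.ofBijective _ (idchiral_bij h2) with he
  have hev : ∀ z, e z = z ^ 2 := fun z => rfl
  set φ : Vert P ≃ Vert P := (β.trans e.optionCongr).trans β.symm with hφ
  have hφv : ∀ x, β (φ x) = (β x).map (fun z => z ^ 2) := by
    intro x
    rw [hφ]
    simp only [Equiv.trans_apply, Equiv.apply_symm_apply]
    rfl
  obtain ⟨t1, t2, t3⟩ := idchiral_tup h hs
  obtain ⟨f, hfΦ⟩ := iso_of_vert_chi_base h h Φ (adj h 3 Φ) (s 2 0) (s 1 3) (s 3 2)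
    (s 3 2 * s 3 2 * s 2 0) (s 1 3) (s 3 2)⁻¹ (hs 2 0) (hs 1 3) (hs 3 2) t1 t2 t3
    (fun i γ => chiral_tup1 h hC Φ i γ) (fun i γ => chiral_tup1 h hC (adj h 3 Φ) i γ) hf hf φ
    (by
      intro x
      apply β.injective
      rw [hφv, hβτ, mul_smul, mul_smul, hβσ, hβσ, hβτ, hφv]
      exact idchiral_sq hl (β x))
    (by
      intro x
      apply β.injective
      rw [hφv, hβj, hβj, hφv, Option.map_map, Option.map_map]
      congr 1
      funext z
      show (z + 1) ^ 2 = z ^ 2 + 1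
      linear_combination z * h2)
    (by
      intro x
      rw [eq_inv_smul_iff]
      apply β.injective
      rw [hβσ, hφv, hβσ, hφv, Option.map_map, Option.map_map]
      congr 1
      funext z
      show ω * (ω * z) ^ 2 = z ^ 2
      linear_combination z ^ 2 * h3)
  exact chiral_tup1 h hC Φ 3 f hfΦ

/-- The vertices of the cross-ratio polytope. -/
lemma idchiral_vert {F : Type*} [Field F] [DecidableEq F] {ω : F}
    (hQ : IsPolytope 4 (CR F ω) CR.rk) :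
    ∃ δ : Option F ≃ Vert (CR F ω), ∀ a, (δ a).1 = CR.vert a := by
  refine ⟨Equiv.ofBijective (fun a => ⟨CR.vert a, (isAtom_iff hQ _).2 rfl⟩) ⟨?_, ?_⟩,
    fun a => rfl⟩
  · intro a b hab
    have h1 := congrArg Subtype.val hab
    exact CR.vert.inj h1
  · rintro ⟨x, hx⟩
    have h1 := (isAtom_iff hQ x).1 hx
    cases x with
    | vert a => exact ⟨a, rfl⟩
    | bot => simp [CR.rk] at h1
    | edge s => simp [CR.rk] at h1
    | face s => simp [CR.rk] at h1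
    | facet a => simp [CR.rk] at h1
    | top => simp [CR.rk] at h1

/-- Job IdChiral-2. Identification.

Proof. `iso_of_vert_chi` with `Q = CR F ω`, `CR.isPolytope`, `CR.generators`, `CR.faithful`,
`CR.chiral` (`chiral_tup1`). The vertices of `CR F ω` (atoms) are the `CR.vert a` (`isAtom_iff`, rank
0), so `Option F ≃ Vert (CR F ω)`; compose with `β`. -/
theorem id_chiral_coord (h : IsPolytope 4 P rk) {Φ : Tup P rk} {s : Fin 4 → Fin 4 → (P ≃o P)}
    (hs : ∀ i j, tmap h h (s i j) Φ = adj h j (adj h i Φ)) (hC : IsChiral P)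
    (hf : FaithfulSMul (P ≃o P) (Vert P))
    {F : Type*} [Field F] [Fintype F] [DecidableEq F] {ω lam : F} (β : Vert P ≃ Option F)
    (h2 : (2 : F) = 0) (h0 : ω ≠ 0) (h1 : ω ≠ 1) (hω : ∀ z : F, z ≠ 0 → ∃ i : ℕ, z = ω ^ i)
    (hω3 : ω ^ 2 + ω + 1 ≠ 0) (hlam : lam * (1 + ω) ^ 2 = 1) (hl : lam ≠ 0)
    (hβσ : ∀ x, β (s 3 2 • x) = (β x).map (fun z => ω * z))
    (hβj : ∀ x, β (s 1 3 • x) = (β x).map (fun z => z + 1))
    (hβτ : ∀ x, β (s 2 0 • x) = mobInv lam (β x)) : Nonempty (P ≃o CR F ω) := by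
  obtain ⟨Ψ, τ', j', σ', -, -, -, -, t1, t2, t3, e1, e2, e3⟩ :=
    CR.generators h2 h0 h1 hω lam hlam hl
  set hQ := CR.isPolytope h2 h0 h1 hω with hQdef
  have hC' : IsChiral (CR F ω) := CR.chiral h2 h0 h1 hω hω3
  have hf' := CR.faithful h2 h0 h1 hω
  obtain ⟨δ, hδ⟩ := idchiral_vert hQ
  refine iso_of_vert_chi h hQ Φ Ψ (s 2 0) (s 1 3) (s 3 2) τ' j' σ' (hs 2 0) (hs 1 3) (hs 3 2)
    t1 t2 t3 (fun i γ => chiral_tup1 h hC Φ i γ) (fun i γ => chiral_tup1 hQ hC' Ψ i γ) hf hf'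
    (β.trans δ) ?_ ?_ ?_
  · intro x
    apply Vert.ext
    rw [smul_vert_val, Equiv.trans_apply, Equiv.trans_apply, hδ, hδ, e1, hβτ]
  · intro x
    apply Vert.ext
    rw [smul_vert_val, Equiv.trans_apply, Equiv.trans_apply, hδ, hδ, e2, hβj]
  · intro x
    apply Vert.ext
    rw [smul_vert_val, Equiv.trans_apply, Equiv.trans_apply, hδ, hδ, e3, hβσ]

end Pool.Agent.H.MP_6268b4_co
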