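import Pool.Agent.H.MP_6268b4_co.TWord

/-!
The polytope `{3, 2, r}`: ordinal sum of the proper part of a triangle and of an `r`-gon.
-/

namespace Pool.Agent.H.MP_6268b4_co

/-- The faces of the polytope `{3, 2, r}`: three vertices, three edges, `r` faces of rank 2 and `r`
facets (and the two improper faces). -/
inductive M32 (r : ℕ) : Type
  | bot : M32 r
  | vert : Fin 3 → M32 r
  | edge : Fin 3 → M32 r
  | face : ZMod r → M32 r
  | facet : ZMod r → M32 r
  | top : M32 r

namespace M32

variable {r : ℕ}

/-- The order: vertex `i` lies on the edges `j ≠ i`; every vertex and every edge lies below every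
face of rank 2 and every facet; the face `i` of rank 2 lies below the facets `i` and `i + 1`. -/
def le : M32 r → M32 r → Prop
  | bot, _ => True
  | _, top => True
  | vert i, vert j => i = j
  | vert i, edge j => i ≠ j
  | edge i, edge j => i = j
  | vert _, face _ => True
  | vert _, facet _ => True
  | edge _, face _ => True
  | edge _, facet _ => True
  | face i, face j => i = j
  | face i, facet j => j = i ∨ j = i + 1
  | facet i, facet j => i = j
  | _, _ => False

/-- The rank. -/
def rk : M32 r → ℤ
  | bot => -1
  | vert _ => 0
  | edge _ => 1
  | face _ => 2
  | facet _ => 3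
  | top => 4

instance : PartialOrder (M32 r) where
  le := le
  le_refl x := by cases x <;> simp [le]
  le_trans x y z := by
    cases x <;> cases y <;> cases z <;> simp only [le, imp_self, implies_true, true_imp_iff,
      false_imp_iff, imp_false, not_true_eq_false, not_false_eq_true] <;> intro h1 h2
    all_goals first
      | (subst h1; exact h2)
      | (subst h2; exact h1)
      | skip
  le_antisymm x y := by
    cases x <;> cases y <;> simp only [le, imp_self, implies_true, true_imp_iff,
      false_imp_iff, imp_false, not_true_eq_false, not_false_eq_true] <;> intro h1
    all_goals first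
      | (subst h1; rfl)
      | (intro h2; subst h1; rfl)
      | skip

instance : BoundedOrder (M32 r) where
  top := top
  le_top x := by
    change le x top
    cases x <;> simp [le]
  bot := bot
  bot_le x := by
    change le bot x
    cases x <;> simp [le]

lemma le_def (x y : M32 r) : x ≤ y ↔ le x y := Iff.rfl

lemma top_def : (⊤ : M32 r) = top := rfl

lemma bot_def : (⊥ : M32 r) = bot := rfl

instance [NeZero r] : Finite (M32 r) := by
  classical
  let f : M32 r → Fin 6 × Fin 3 × ZMod r := fun x => match x with
    | bot => (0, 0, 0)
    | vert i => (1, i, 0)
    | edge i => (2, i, 0)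
    | face i => (3, 0, i)
    | facet i => (4, 0, i)
    | top => (5, 0, 0)
  refine Finite.of_injective f ?_
  intro x y h
  cases x <;> cases y <;> simp_all [f]

end M32

end Pool.Agent.H.MP_6268b4_co
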