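import Pool.Agent.H.MP_6268b4_co.TTri
import Pool.Agent.H.MP_6268b4_co.RDih
import Pool.Agent.H.MP_6268b4_co.BridgeR
import Pool.Agent.H.MP_6268b4_co.M32Defs

/-!
Regular polytopes of rank 4 with three vertices: `{3, 2, r}`.
-/

namespace Pool.Agent.H.MP_6268b4_co

variable {P : Type*} [PartialOrder P] [BoundedOrder P] {rk : P → ℤ}

/-- the candidate map from `{3, 2, r}` -/
def idthree_g {r : ℕ} (vv ee : Fin 3 → P) (ff gg : ZMod r → P) : M32 r → P
  | .bot => ⊥
  | .vert i => vv i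
  | .edge i => ee i
  | .face i => ff i
  | .facet i => gg i
  | .top => ⊤

theorem idthree_iso (h : IsPolytope 4 P rk) {r : ℕ} (vv ee : Fin 3 → P) (ff gg : ZMod r → P)
    (hv : ∀ i, rk (vv i) = 0) (he : ∀ i, rk (ee i) = 1) (hf : ∀ i, rk (ff i) = 2)
    (hg : ∀ i, rk (gg i) = 3)
    (vi : ∀ i j, vv i = vv j → i = j) (ei : ∀ i j, ee i = ee j → i = j)
    (fi : ∀ i j, ff i = ff j → i = j) (gi : ∀ i j, gg i = gg j → i = j)
    (vs : ∀ x, rk x = 0 → ∃ i, vv i = x) (es : ∀ x, rk x = 1 → ∃ i, ee i = x)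
    (fs : ∀ x, rk x = 2 → ∃ i, ff i = x) (gs : ∀ x, rk x = 3 → ∃ i, gg i = x)
    (ve : ∀ i j, vv i ≤ ee j ↔ i ≠ j) (vf : ∀ i j, vv i ≤ ff j) (vg : ∀ i j, vv i ≤ gg j)
    (ef : ∀ i j, ee i ≤ ff j) (eg : ∀ i j, ee i ≤ gg j)
    (fg : ∀ i j, ff i ≤ gg j ↔ (j = i ∨ j = i + 1)) : Nonempty (P ≃o M32 r) := by
  have hrk : ∀ s, rk (idthree_g vv ee ff gg s) = M32.rk s := by
    intro s
    cases s
    · exact h.bot
    · exact hv _
    · exact he _
    · exact hf _
    · exact hg _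
    · exact h.top
  have hfalse : ∀ s t : M32 r, M32.rk t < M32.rk s →
      ¬ idthree_g vv ee ff gg s ≤ idthree_g vv ee ff gg t := by
    intro s t hst hle
    have := h.mono_le hle
    rw [hrk, hrk] at this
    omega
  have hle : ∀ s t : M32 r, idthree_g vv ee ff gg s ≤ idthree_g vv ee ff gg t ↔ s ≤ t := by
    intro s t
    rw [M32.le_def]
    by_cases hst : M32.rk t < M32.rk s
    · have h1 := hfalse s t hst
      refine iff_of_false h1 ?_
      cases s <;> cases t <;> simp [M32.rk] at hst <;> simp [M32.le]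
    · cases s with
      | bot => exact iff_of_true bot_le (by cases t <;> simp [M32.le])
      | vert i =>
        cases t with
        | bot => simp [M32.rk] at hst
        | vert j =>
          refine ⟨fun h1 => vi _ _ (h.eq_of_le h1 (by
            change rk (vv i) = rk (vv j); rw [hv, hv])), ?_⟩
          rintro h1
          change i = j at h1
          rw [h1]
        | edge j => exact ve i j
        | face j => exact iff_of_true (vf i j) trivial
        | facet j => exact iff_of_true (vg i j) trivial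
        | top => exact iff_of_true le_top trivial
      | edge i =>
        cases t with
        | bot => simp [M32.rk] at hst
        | vert j => simp [M32.rk] at hst
        | edge j =>
          refine ⟨fun h1 => ei _ _ (h.eq_of_le h1 (by
            change rk (ee i) = rk (ee j); rw [he, he])), ?_⟩
          rintro h1
          change i = j at h1
          rw [h1]
        | face j => exact iff_of_true (ef i j) trivial
        | facet j => exact iff_of_true (eg i j) trivial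
        | top => exact iff_of_true le_top trivial
      | face i =>
        cases t with
        | bot => simp [M32.rk] at hst
        | vert j => simp [M32.rk] at hst
        | edge j => simp [M32.rk] at hst
        | face j =>
          refine ⟨fun h1 => fi _ _ (h.eq_of_le h1 (by
            change rk (ff i) = rk (ff j); rw [hf, hf])), ?_⟩
          rintro h1
          change i = j at h1
          rw [h1]
        | facet j => exact fg i j
        | top => exact iff_of_true le_top trivial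
      | facet i =>
        cases t with
        | bot => simp [M32.rk] at hst
        | vert j => simp [M32.rk] at hst
        | edge j => simp [M32.rk] at hst
        | face j => simp [M32.rk] at hst
        | facet j =>
          refine ⟨fun h1 => gi _ _ (h.eq_of_le h1 (by
            change rk (gg i) = rk (gg j); rw [hg, hg])), ?_⟩
          rintro h1
          change i = j at h1
          rw [h1]
        | top => exact iff_of_true le_top trivial
      | top =>
        cases t with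
        | bot => simp [M32.rk] at hst
        | vert j => simp [M32.rk] at hst
        | edge j => simp [M32.rk] at hst
        | face j => simp [M32.rk] at hst
        | facet j => simp [M32.rk] at hst
        | top => exact iff_of_true le_top trivial
  have hsurj : Function.Surjective (idthree_g vv ee ff gg) := by
    intro x
    have h1 := h.rk_ge x
    have h2 := h.rk_le x
    push_cast at h2
    have h3 : rk x = -1 ∨ rk x = 0 ∨ rk x = 1 ∨ rk x = 2 ∨ rk x = 3 ∨ rk x = 4 := by omega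
    rcases h3 with h3 | h3 | h3 | h3 | h3 | h3
    · exact ⟨.bot, (h.eq_bot h3).symm⟩
    · obtain ⟨i, hi⟩ := vs x h3
      exact ⟨.vert i, hi⟩
    · obtain ⟨i, hi⟩ := es x h3
      exact ⟨.edge i, hi⟩
    · obtain ⟨i, hi⟩ := fs x h3
      exact ⟨.face i, hi⟩
    · obtain ⟨i, hi⟩ := gs x h3
      exact ⟨.facet i, hi⟩
    · exact ⟨.top, (h.eq_top h3).symm⟩
  exact ⟨(RelIso.ofSurjective (OrderEmbedding.ofMapLEIff (idthree_g vv ee ff gg) hle) hsurj).symm⟩

theorem idthree_f1 : ∀ i : Fin 3, i + 1 ≠ i + 2 := by decide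

theorem idthree_f2 : ∀ i j : Fin 3, i ≠ j → i = j + 1 ∨ i = j + 2 := by decide

theorem idthree_f3 : ∀ j : Fin 3, j ≠ j + 1 := by decide

theorem idthree_f4 : ∀ j : Fin 3, j ≠ j + 2 := by decide

theorem idthree_f5 : ∀ i k : Fin 3, i ≠ k → ∃ j, i ≠ j ∧ k ≠ j := by decide

/-- vertices and edges -/
theorem idthree_ve (h : IsPolytope 4 P rk) [Finite P] (hs : SimpleComplete rk)
    (h3 : Nat.card (Vert P) = 3) : ∃ vv ee : Fin 3 → P,
    (∀ i, rk (vv i) = 0) ∧ (∀ i, rk (ee i) = 1) ∧ (∀ i j, vv i = vv j → i = j) ∧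
    (∀ i j, ee i = ee j → i = j) ∧ (∀ x, rk x = 0 → ∃ i, vv i = x) ∧
    (∀ x, rk x = 1 → ∃ i, ee i = x) ∧ (∀ i j, vv i ≤ ee j ↔ i ≠ j) := by
  let q : Vert P ≃ Fin 3 := Finite.equivFinOfCardEq h3
  let vv : Fin 3 → P := fun i => (q.symm i).1
  have hv : ∀ i, rk (vv i) = 0 := fun i => vert_rk h _
  have vi : ∀ i j, vv i = vv j → i = j := by
    intro i j hij
    exact q.symm.injective (Vert.ext hij)
  have vs : ∀ x, rk x = 0 → ∃ i, vv i = x := by
    intro x hx
    refine ⟨q ⟨x, (isAtom_iff h x).2 hx⟩, ?_⟩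
    change (q.symm (q _)).1 = x
    rw [Equiv.symm_apply_apply]
  have hex : ∀ i : Fin 3, ∃ e, rk e = 1 ∧ vv (i + 1) ≤ e ∧ vv (i + 2) ≤ e := by
    intro i
    exact (hs (vv (i + 1)) (vv (i + 2)) (hv _) (hv _) (by
      intro h1
      exact idthree_f1 i (vi _ _ h1))).exists
  choose ee hee using hex
  have he : ∀ i, rk (ee i) = 1 := fun i => (hee i).1
  have hle : ∀ i j : Fin 3, i ≠ j → vv i ≤ ee j := by
    intro i j hij
    have h1 : i = j + 1 ∨ i = j + 2 := idthree_f2 i j hij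
    rcases h1 with rfl | rfl
    · exact (hee j).2.1
    · exact (hee j).2.2
  have hnle : ∀ j : Fin 3, ¬ vv j ≤ ee j := by
    intro j hj
    obtain ⟨Ψ, hΨ⟩ := exists_tup_mem h (i := 1) (x := ee j) (by simpa using he j)
    have h0 := edge_verts h Ψ (hv j) (by rw [hΨ]; exact hj)
    have h1 := edge_verts h Ψ (hv (j + 1)) (by rw [hΨ]; exact (hee j).2.1)
    have h2 := edge_verts h Ψ (hv (j + 2)) (by rw [hΨ]; exact (hee j).2.2)
    have n01 : j ≠ j + 1 := idthree_f3 j
    have n02 : j ≠ j + 2 := idthree_f4 j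
    have n12 : j + 1 ≠ j + 2 := idthree_f1 j
    rcases h0 with h0 | h0 <;> rcases h1 with h1 | h1 <;> rcases h2 with h2 | h2
    · exact n01 (vi _ _ (h0.trans h1.symm))
    · exact n01 (vi _ _ (h0.trans h1.symm))
    · exact n02 (vi _ _ (h0.trans h2.symm))
    · exact n12 (vi _ _ (h1.trans h2.symm))
    · exact n12 (vi _ _ (h1.trans h2.symm))
    · exact n02 (vi _ _ (h0.trans h2.symm))
    · exact n01 (vi _ _ (h0.trans h1.symm))
    · exact n01 (vi _ _ (h0.trans h1.symm))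
  refine ⟨vv, ee, hv, he, vi, ?_, vs, ?_, ?_⟩
  · intro i j hij
    by_contra hne
    have := hle j i (Ne.symm hne)
    rw [hij] at this
    exact hnle j this
  · intro x hx
    obtain ⟨Ψ, hΨ⟩ := exists_tup_mem h (i := 1) (x := x) (by simpa using hx)
    obtain ⟨i, hi⟩ := vs (Ψ.1 0) (by simpa using Ψ.hrk 0)
    obtain ⟨k, hk⟩ := vs ((adj h 0 Ψ).1 0) (by simpa using (adj h 0 Ψ).hrk 0)
    have hne : i ≠ k := by
      rintro rfl
      exact adj_ne h 0 Ψ (hk.symm.trans hi)
    have hix : vv i ≤ x := by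
      rw [hi, ← hΨ]
      exact Ψ.le (by decide)
    have hkx : vv k ≤ x := by
      rw [hk, ← hΨ, ← adj_same h (i := 0) (j := 1) Ψ (by decide)]
      exact (adj h 0 Ψ).le (by decide)
    have hj : ∃ j : Fin 3, i ≠ j ∧ k ≠ j := idthree_f5 i k hne
    obtain ⟨j, hj1, hj2⟩ := hj
    refine ⟨j, ?_⟩
    exact (hs (vv i) (vv k) (hv _) (hv _) (fun h1 => hne (vi _ _ h1))).unique
      ⟨he j, hle _ _ hj1, hle _ _ hj2⟩ ⟨hx, hix, hkx⟩
  · intro i j
    constructor
    · rintro h1 rfl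
      exact hnle _ h1
    · exact hle i j

/-- Job IdThree. The case of three vertices.

Proof. Let `a = ρ 2`, `b = ρ 3`, `r = orderOf (a * b)`, `x = a * b`; `r` is odd by `order_eq` and
`OddType`, and `r ≠ 1` since `a ≠ b` (`a = b` would give `adj 2 Φ = adj 3 Φ`, contradicting
`adj_ne`, `adj_same`). So `3 ≤ r`.
Vertices: `v₀ = Φ.1 0`, `v₁ = (adj 0 Φ).1 0`, `v₂` the third vertex. Edges: `e_i` the unique edge
through the two vertices `≠ v_i` (so `e₂ = Φ.1 1`). Each edge has exactly two vertices (`edge_verts`),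
so `v_i ≤ e_j ↔ i ≠ j`, and `e₀, e₁, e₂` are all the edges. By `tri_all` all edges (hence all
vertices) are below all faces of rank 2, hence below all facets (`IsPolytope.exists_lt`).
Faces of rank 2: `F = Φ.1 2`; any face `F'` of rank 2: as `e₂ ≤ F'` there is a tuple `Ψ` with
`Ψ.1 0 = v₀`, `Ψ.1 1 = e₂`, `Ψ.1 2 = F'`; `tmap γ Φ = Ψ`; by `reg_stab`
`γ ∈ closure {a, b}`, so by `dih_form` `γ = x^i` or `x^i * b`; `b` fixes `F` (`reg_fix`); so
`F' = x^i F`. Similarly the facets are `x^i G`, `G = Φ.1 3`: `x^i b G = x^i b a G = x^(i-1) G` as `a`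
fixes `G` and `b a = x⁻¹`.
`x^i F = x^j F` iff `x^(i-j)` fixes `F`; then it fixes `v₀` (`reg_fix`), `e₂`, `F` so it is in
`closure {b}` (`reg_stab`) `= {1, b}`; `x^k = b` is impossible (`dih_odd`-like: `b` would have odd
order and order 2; or `b` commutes with `a b` only if ...), so `r ∣ i - j`. The same for `G` with
`a` instead of `b`. Incidence: `x^i F ≤ x^j G` iff `F ≤ x^(j-i) G`. The facets above `F` are `G` and
`(adj 3 Φ).1 3 = b G = x⁻¹ G` (the diamond condition; use `adj_unique` with `exists_upd`). So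
`x^i F ≤ x^j G` iff `j - i ≡ 0` or `j - i ≡ -1` modulo `r`.
Define `g : M32 r → P`: `bot ↦ ⊥`, `vert i ↦ v_i`, `edge i ↦ e_i`, `face i ↦ x^i F`,
`facet j ↦ x^(j-1) G` (with `i : ZMod r` lifted to an integer or natural number, e.g.
`x ^ (i.val)`; the value only depends on `i` modulo `r`), `top ↦ ⊤`. Then `g` is surjective
(`exists_fin`) and `g s ≤ g t ↔ s ≤ t` (check by cases; if the rank of `s` is larger than that of `t`
both sides are false). So `g` is an order isomorphism (`RelIso.ofSurjective`). -/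
theorem id_three (h : IsPolytope 4 P rk) [Finite P] (hs : SimpleComplete rk) (ho : OddType rk)
    {Φ : Tup P rk} {ρ : Fin 4 → (P ≃o P)} (hρ : ∀ i, tmap h h (ρ i) Φ = adj h i Φ)
    (hT : ∀ Φ Ψ : Tup P rk, ∃ γ : P ≃o P, tmap h h γ Φ = Ψ) (h3 : Nat.card (Vert P) = 3) :
    ∃ r : ℕ, 3 ≤ r ∧ Odd r ∧ Nonempty (P ≃o M32 r) := by
  have hr1 : rk (Φ.1 1) = 1 := by simpa using Φ.hrk 1
  have hodd : Odd (orderOf (ρ 2 * ρ 3)) := by
    have h1 := ho (Φ.1 1) hr1
    rwa [order_eq h hρ (fun Ψ => hT Φ Ψ)] at h1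
  have ha : ρ 2 * ρ 2 = 1 := reg_sq h hρ 2
  have hb : ρ 3 * ρ 3 = 1 := reg_sq h hρ 3
  have ha1 : ρ 2 ≠ 1 := reg_ne_one h hρ 2
  have hb1 : ρ 3 ≠ 1 := reg_ne_one h hρ 3
  have hpos : 0 < orderOf (ρ 2 * ρ 3) := orderOf_pos _
  have hne1 : orderOf (ρ 2 * ρ 3) ≠ 1 := by
    intro h1
    rw [orderOf_eq_one_iff] at h1
    have h2 : ρ 2 = ρ 3 := by
      have := congrArg (· * ρ 3) h1
      simpa [mul_assoc, hb] using this
    have h4 : (adj h 2 Φ).1 2 = (adj h 3 Φ).1 2 := by
      rw [← hρ 2, ← hρ 3, h2]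
    rw [adj_same h Φ (i := 3) (j := 2) (by decide)] at h4
    exact adj_ne h 2 Φ h4
  have hr3 : 3 ≤ orderOf (ρ 2 * ρ 3) := by
    obtain ⟨t, ht⟩ := hodd
    omega
  refine ⟨orderOf (ρ 2 * ρ 3), hr3, hodd, ?_⟩
  set x : P ≃o P := ρ 2 * ρ 3 with hx
  set r : ℕ := orderOf x with hr
  have : NeZero r := ⟨by omega⟩
  have x0 : ∀ k : ℤ, (x ^ k) (Φ.1 0) = Φ.1 0 := fun k =>
    bridger_fix (σ := x) (by
      change ρ 2 (ρ 3 (Φ.1 0)) = Φ.1 0
      rw [reg_fix h hρ (by decide), reg_fix h hρ (by decide)]) ⟨k, rfl⟩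
  have x1 : ∀ k : ℤ, (x ^ k) (Φ.1 1) = Φ.1 1 := fun k =>
    bridger_fix (σ := x) (by
      change ρ 2 (ρ 3 (Φ.1 1)) = Φ.1 1
      rw [reg_fix h hρ (by decide), reg_fix h hρ (by decide)]) ⟨k, rfl⟩
  have hmul : ∀ (k l : ℤ) (p : P), (x ^ (k + l)) p = (x ^ k) ((x ^ l) p) := by
    intro k l p
    rw [zpow_add]
    rfl
  have hdvd : ∀ k : ℤ, x ^ k = 1 ↔ ((k : ℤ) : ZMod r) = 0 := by
    intro k
    rw [ZMod.intCast_zmod_eq_zero_iff_dvd, hr, orderOf_dvd_iff_zpow_eq_one]
  -- stabilisers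
  have sF : ∀ k : ℤ, (x ^ k) (Φ.1 2) = Φ.1 2 ↔ ((k : ℤ) : ZMod r) = 0 := by
    intro k
    rw [← hdvd]
    constructor
    · intro hk
      have h2 := reg_stab h hρ (fun i => i ≠ 3) (γ := x ^ k) (by
        intro i hi
        have hi4 : i = 0 ∨ i = 1 ∨ i = 2 ∨ i = 3 := by
          revert i
          decide
        rcases hi4 with rfl | rfl | rfl | rfl
        · exact x0 k
        · exact x1 k
        · exact hk
        · exact absurd rfl hi)
      have h3 : x ^ k ∈ Subgroup.closure ({ρ 3} : Set (P ≃o P)) := by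
        refine Subgroup.closure_mono ?_ h2
        rintro y ⟨i, hi, rfl⟩
        rw [not_not] at hi
        rw [hi]
        rfl
      rcases bridger_cl hb h3 with h4 | h4
      · exact h4
      · exfalso
        exact hb1 (rdih_sq hodd ⟨k, h4⟩ hb)
    · intro hk
      rw [hk]
      rfl
  have sG : ∀ k : ℤ, (x ^ k) (Φ.1 3) = Φ.1 3 ↔ ((k : ℤ) : ZMod r) = 0 := by
    intro k
    rw [← hdvd]
    constructor
    · intro hk
      have h2 := reg_stab h hρ (fun i => i ≠ 2) (γ := x ^ k) (by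
        intro i hi
        have hi4 : i = 0 ∨ i = 1 ∨ i = 2 ∨ i = 3 := by
          revert i
          decide
        rcases hi4 with rfl | rfl | rfl | rfl
        · exact x0 k
        · exact x1 k
        · exact absurd rfl hi
        · exact hk)
      have h3 : x ^ k ∈ Subgroup.closure ({ρ 2} : Set (P ≃o P)) := by
        refine Subgroup.closure_mono ?_ h2
        rintro y ⟨i, hi, rfl⟩
        rw [not_not] at hi
        rw [hi]
        rfl
      rcases bridger_cl ha h3 with h4 | h4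
      · exact h4
      · exfalso
        exact ha1 (rdih_sq hodd ⟨k, h4⟩ ha)
    · intro hk
      rw [hk]
      rfl
  have eqF : ∀ k l : ℤ, (x ^ k) (Φ.1 2) = (x ^ l) (Φ.1 2) ↔ ((k : ℤ) : ZMod r) = (l : ZMod r) := by
    intro k l
    have h1 : (x ^ k) (Φ.1 2) = (x ^ l) (Φ.1 2) ↔ (x ^ (k - l)) (Φ.1 2) = Φ.1 2 := by
      have e1 : k = l + (k - l) := by ring
      nth_rewrite 1 [e1]
      rw [hmul]
      exact (x ^ l).injective.eq_iff
    rw [h1, sF]
    push_cast
    exact sub_eq_zero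
  have eqG : ∀ k l : ℤ, (x ^ k) (Φ.1 3) = (x ^ l) (Φ.1 3) ↔ ((k : ℤ) : ZMod r) = (l : ZMod r) := by
    intro k l
    have h1 : (x ^ k) (Φ.1 3) = (x ^ l) (Φ.1 3) ↔ (x ^ (k - l)) (Φ.1 3) = Φ.1 3 := by
      have e1 : k = l + (k - l) := by ring
      nth_rewrite 1 [e1]
      rw [hmul]
      exact (x ^ l).injective.eq_iff
    rw [h1, sG]
    push_cast
    exact sub_eq_zero
  -- the other facet
  have hbG : ρ 3 (Φ.1 3) = (x ^ (-1 : ℤ)) (Φ.1 3) := by
    have e1 : x ^ (-1 : ℤ) * ρ 2 = ρ 3 := by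
      rw [zpow_neg, zpow_one, hx, mul_inv_rev, rdih_inv ha, rdih_inv hb, mul_assoc, ha, mul_one]
    have e2 : (x ^ (-1 : ℤ) * ρ 2) (Φ.1 3) = (x ^ (-1 : ℤ)) (ρ 2 (Φ.1 3)) := rfl
    rw [e1, reg_fix h hρ (i := 2) (j := 3) (by decide)] at e2
    exact e2
  -- incidence
  have incF : ∀ k : ℤ, Φ.1 2 ≤ (x ^ k) (Φ.1 3) ↔
      (((k : ℤ) : ZMod r) = 0 ∨ ((k : ℤ) : ZMod r) = -1) := by
    intro k
    constructor
    · intro hk
      by_cases h0 : (x ^ k) (Φ.1 3) = Φ.1 3
      · exact Or.inl ((sG k).1 h0)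
      · right
        obtain ⟨Ψ, hΨ1, hΨ2⟩ := exists_upd Φ 3 ((x ^ k) (Φ.1 3)) (by
          rw [h.rk_map h]; exact Φ.hrk 3) (fun l hl => by
            have : l = 2 := Fin.ext (by simpa using hl)
            rw [this]
            exact hk) (fun l hl => by
            have := l.2
            simp at hl
            omega)
        have h5 := adj_unique h 3 Φ Ψ (by rw [hΨ1]; exact h0) hΨ2
        have h6 : (x ^ k) (Φ.1 3) = (x ^ (-1 : ℤ)) (Φ.1 3) := by
          rw [← hbG, ← hΨ1, h5, ← hρ 3]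
          rfl
        have h7 := (eqG _ _).1 h6
        rw [h7]
        push_cast
        rfl
    · rintro (h0 | h0)
      · rw [(sG k).2 h0]
        exact Φ.le (by decide)
      · have h6 : (x ^ k) (Φ.1 3) = (x ^ (-1 : ℤ)) (Φ.1 3) := by
          rw [eqG, h0]
          push_cast
          rfl
        rw [h6, ← hbG]
        have h7 : ρ 3 (Φ.1 3) = (adj h 3 Φ).1 3 := by
          rw [← hρ 3]
          rfl
        rw [h7, ← adj_same h (i := 3) (j := 2) Φ (by decide)]
        exact (adj h 3 Φ).le (by decide)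
  have incFG : ∀ k l : ℤ, (x ^ k) (Φ.1 2) ≤ (x ^ l) (Φ.1 3) ↔
      ((((l - k : ℤ) : ℤ) : ZMod r) = 0 ∨ (((l - k : ℤ) : ℤ) : ZMod r) = -1) := by
    intro k l
    rw [← incF]
    have e1 : l = k + (l - k) := by ring
    nth_rewrite 1 [e1]
    rw [hmul]
    exact (x ^ k).le_iff_le
  -- all edges are below all faces of rank 2 and facets
  have hef : ∀ e F : P, rk e = 1 → rk F = 2 → e ≤ F := fun e F he hF => tri_all h hs h3 he hF
  have heg : ∀ e G : P, rk e = 1 → rk G = 3 → e ≤ G := by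
    intro e G he hG
    obtain ⟨F, hF1, hF2⟩ := h.exists_lt (x := G) (by omega)
    exact (hef e F he (by omega)).trans hF1.le
  -- elements of the stabiliser of the base edge and vertex
  have hst : ∀ γ : P ≃o P, γ (Φ.1 0) = Φ.1 0 → γ (Φ.1 1) = Φ.1 1 →
      (∃ i : ℤ, γ = x ^ i) ∨ ∃ i : ℤ, γ = x ^ i * ρ 3 := by
    intro γ h0 h1
    have h4 := reg_stab h hρ (fun i => i = 0 ∨ i = 1) (γ := γ) (by
      rintro i (rfl | rfl)
      · exact h0
      · exact h1)
    have h5 : γ ∈ Subgroup.closure ({ρ 2, ρ 3} : Set (P ≃o P)) := by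
      refine Subgroup.closure_mono ?_ h4
      rintro y ⟨i, hi, rfl⟩
      have hi4 : i = 2 ∨ i = 3 := by
        revert i
        decide
      rcases hi4 with rfl | rfl
      · exact Or.inl rfl
      · exact Or.inr rfl
    exact dih_form ha hb h5
  have hfs : ∀ F' : P, rk F' = 2 → ∃ i : ℤ, (x ^ i) (Φ.1 2) = F' := by
    intro F' hF'
    obtain ⟨Ψ0, hΨ1, hΨ3⟩ := exists_tup_mem₂ h (i := 1) (j := 2) (Φ.hrk 1) (by simpa using hF')
      (hef _ _ hr1 hF')
    obtain ⟨Ψ, hΨ0, hΨs⟩ := exists_upd Ψ0 0 (Φ.1 0) (Φ.hrk 0) (fun k hk => by simp at hk)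
      (fun k hk => by
        have hk1 : k = 1 := Fin.ext (by simpa using hk.symm)
        rw [hk1, hΨ1]
        exact Φ.le (by decide))
    obtain ⟨γ, hγ⟩ := hT Φ Ψ
    have hγi : ∀ i, γ (Φ.1 i) = Ψ.1 i := by
      intro i
      rw [← hγ]
      rfl
    have h0 : γ (Φ.1 0) = Φ.1 0 := by rw [hγi, hΨ0]
    have h1 : γ (Φ.1 1) = Φ.1 1 := by rw [hγi, hΨs 1 (by decide), hΨ1]
    have h2 : γ (Φ.1 2) = F' := by rw [hγi, hΨs 2 (by decide), hΨ3]
    rcases hst γ h0 h1 with ⟨i, hi⟩ | ⟨i, hi⟩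
    · exact ⟨i, by rw [← hi]; exact h2⟩
    · refine ⟨i, ?_⟩
      rw [← h2, hi]
      change (x ^ i) (Φ.1 2) = (x ^ i) (ρ 3 (Φ.1 2))
      rw [reg_fix h hρ (i := 3) (j := 2) (by decide)]
  have hgs : ∀ G' : P, rk G' = 3 → ∃ i : ℤ, (x ^ i) (Φ.1 3) = G' := by
    intro G' hG'
    obtain ⟨Ψ0, hΨ1, hΨ3⟩ := exists_tup_mem₂ h (i := 1) (j := 3) (Φ.hrk 1) (by simpa using hG')
      (heg _ _ hr1 hG')
    obtain ⟨Ψ, hΨ0, hΨs⟩ := exists_upd Ψ0 0 (Φ.1 0) (Φ.hrk 0) (fun k hk => by simp at hk)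
      (fun k hk => by
        have hk1 : k = 1 := Fin.ext (by simpa using hk.symm)
        rw [hk1, hΨ1]
        exact Φ.le (by decide))
    obtain ⟨γ, hγ⟩ := hT Φ Ψ
    have hγi : ∀ i, γ (Φ.1 i) = Ψ.1 i := by
      intro i
      rw [← hγ]
      rfl
    have h0 : γ (Φ.1 0) = Φ.1 0 := by rw [hγi, hΨ0]
    have h1 : γ (Φ.1 1) = Φ.1 1 := by rw [hγi, hΨs 1 (by decide), hΨ1]
    have h2 : γ (Φ.1 3) = G' := by rw [hγi, hΨs 3 (by decide), hΨ3]
    rcases hst γ h0 h1 with ⟨i, hi⟩ | ⟨i, hi⟩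
    · exact ⟨i, by rw [← hi]; exact h2⟩
    · refine ⟨i + -1, ?_⟩
      rw [← h2, hi, hmul, ← hbG]
      rfl
  obtain ⟨vv, ee, hv, he, vi, ei, vs, es, ve⟩ := idthree_ve h hs h3
  have hve : ∀ i : Fin 3, ∃ j, vv i ≤ ee j := by
    intro i
    exact ⟨i + 1, (ve i (i + 1)).2 (idthree_f3 i)⟩
  have lift : ∀ i : ZMod r, (((i.val : ℕ) : ℤ) : ZMod r) = i := by
    intro i
    push_cast
    exact ZMod.natCast_zmod_val i
  refine idthree_iso h vv ee (fun i : ZMod r => (x ^ ((i.val : ℕ) : ℤ)) (Φ.1 2))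
    (fun i : ZMod r => (x ^ (((i.val : ℕ) : ℤ) - 1)) (Φ.1 3)) hv he ?_ ?_ vi ei ?_ ?_ vs es
    ?_ ?_ ve ?_ ?_ ?_ ?_ ?_
  · intro i
    rw [h.rk_map h]
    exact Φ.hrk 2
  · intro i
    rw [h.rk_map h]
    exact Φ.hrk 3
  · intro i j hij
    have h1 := (eqF _ _).1 hij
    rwa [lift, lift] at h1
  · intro i j hij
    have h1 := (eqG _ _).1 hij
    rw [Int.cast_sub, Int.cast_sub, lift, lift] at h1
    exact sub_left_injective h1
  · intro F' hF'
    obtain ⟨i, hi⟩ := hfs F' hF'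
    refine ⟨(i : ZMod r), ?_⟩
    rw [← hi]
    rw [eqF, lift]
  · intro G' hG'
    obtain ⟨i, hi⟩ := hgs G' hG'
    refine ⟨(i : ZMod r) + 1, ?_⟩
    rw [← hi]
    rw [eqG, Int.cast_sub, lift]
    push_cast
    ring
  · intro i j
    obtain ⟨k, hk⟩ := hve i
    refine hk.trans (hef _ _ (he k) ?_)
    rw [h.rk_map h]
    exact Φ.hrk 2
  · intro i j
    obtain ⟨k, hk⟩ := hve i
    refine hk.trans (heg _ _ (he k) ?_)
    rw [h.rk_map h]
    exact Φ.hrk 3
  · intro i j
    refine hef _ _ (he i) ?_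
    rw [h.rk_map h]
    exact Φ.hrk 2
  · intro i j
    refine heg _ _ (he i) ?_
    rw [h.rk_map h]
    exact Φ.hrk 3
  · intro i j
    rw [incFG, Int.cast_sub, Int.cast_sub, lift, lift]
    push_cast
    constructor
    · rintro (h1 | h1)
      · right
        have : j = (j - 1 - i) + (i + 1) := by ring
        rw [this, h1]
        ring
      · left
        have : j = (j - 1 - i) + (i + 1) := by ring
        rw [this, h1]
        ring
    · rintro (h1 | h1)
      · right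
        rw [h1]
        ring
      · left
        rw [h1]
        ring

end Pool.Agent.H.MP_6268b4_co
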