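import Pool.Agent.H.MP_6268b4_co.PowerPoly

/-!
A criterion for a poset of rank 4 to be an abstract polytope: graded, diamond condition, connected
sections.
-/

namespace Pool.Agent.H.MP_6268b4_co

/-- A bounded poset with a strictly increasing rank function, `-1` at the bottom, `4` at the top,
such that faces whose ranks differ by more than one have a face strictly between them. -/
structure Graded4 (Q : Type*) [PartialOrder Q] [BoundedOrder Q] (rk : Q → ℤ) : Prop where
  mono : ∀ x y : Q, x < y → rk x < rk y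
  bot : rk ⊥ = -1
  top : rk ⊤ = 4
  dense : ∀ x y : Q, x < y → rk x + 1 < rk y → ∃ z, x < z ∧ z < y

/-- All sections of rank at least 2 are connected. -/
def SecConn (Q : Type*) [PartialOrder Q] (rk : Q → ℤ) : Prop :=
  ∀ F G : Q, F < G → rk F + 3 ≤ rk G → ∀ x y : Q, F < x → x < G → F < y → y < G →
    Relation.ReflTransGen (fun a b : Q => (a ≤ b ∨ b ≤ a) ∧ F < b ∧ b < G) x y

/-- The diamond condition. -/
def Diamond (Q : Type*) [PartialOrder Q] (rk : Q → ℤ) : Prop :=
  ∀ F G : Q, F < G → rk G - rk F = 2 → {H : Q | F < H ∧ H < G}.ncard = 2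

variable {Q : Type*} [PartialOrder Q] [BoundedOrder Q] {rk : Q → ℤ}

/-- Job MGen-1. Every flag has exactly one face of each rank.

Proof. Uniqueness: two comparable faces of the same rank are equal (`mono`). Existence: let `Φ` be a
flag, `-1 ≤ i ≤ 4`, and suppose no face of `Φ` has rank `i`. The ranks of faces of `Φ` are between
`-1` and `4`. Let `a ∈ Φ` have the largest rank `< i` among the faces of `Φ` (exists: `⊥ ∈ Φ`, ranks
are bounded; `i ≠ -1`) and `b ∈ Φ` the smallest rank `> i` (`⊤ ∈ Φ`). Then `a < b`,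
`rk a + 1 < rk b`, so there is `z` with `a < z < b`. Every `c ∈ Φ` has `rk c ≤ rk a`, hence `c ≤ a`
(comparable, `mono`), or `rk c ≥ rk b`, hence `b ≤ c`; so `z` is comparable with all elements of
`Φ`, hence `z ∈ Φ` (`Flag.mem_iff_forall_le_or_ge`); but then `rk a < rk z < rk b` contradicts the
choice of `a` and `b` (`rk z ≠ i`). -/
theorem graded_full (hG : Graded4 Q rk) (Φ : Flag Q) (i : ℤ) (h1 : -1 ≤ i) (h2 : i ≤ 4) :
    ∃! x : Q, x ∈ Φ ∧ rk x = i := by
  have hmono : ∀ x y : Q, x ≤ y → rk x ≤ rk y := by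
    intro x y h
    rcases h.eq_or_lt with h | h
    · rw [h]
    · exact (hG.mono x y h).le
  have hcmp : ∀ x y : Q, x ∈ Φ → y ∈ Φ → rk x ≤ rk y → x ≤ y := by
    intro x y hx hy h
    rcases Φ.le_or_le hx hy with h' | h'
    · exact h'
    · rcases h'.eq_or_lt with h'' | h''
      · exact h''.ge
      · have := hG.mono y x h''
        omega
  have hbot : (⊥ : Q) ∈ Φ := Φ.bot_mem
  have htop : (⊤ : Q) ∈ Φ := Φ.top_mem
  have hex : ∃ x : Q, x ∈ Φ ∧ rk x = i := by
    by_contra hne
    push Not at hne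
    have hi1 : -1 < i := by
      have := hne ⊥ hbot
      rw [hG.bot] at this
      omega
    have hi2 : i < 4 := by
      have := hne ⊤ htop
      rw [hG.top] at this
      omega
    obtain ⟨m, ⟨a, haΦ, ham, hai⟩, hmax⟩ := Int.exists_greatest_of_bdd
      (P := fun m : ℤ => ∃ a : Q, a ∈ Φ ∧ rk a = m ∧ rk a < i)
      ⟨i, by rintro z ⟨a, -, h, h'⟩; omega⟩ ⟨-1, ⊥, hbot, hG.bot, by rw [hG.bot]; exact hi1⟩
    obtain ⟨n, ⟨b, hbΦ, hbn, hbi⟩, hmin⟩ := Int.exists_least_of_bdd
      (P := fun m : ℤ => ∃ a : Q, a ∈ Φ ∧ rk a = m ∧ i < rk a)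
      ⟨i, by rintro z ⟨a, -, h, h'⟩; omega⟩ ⟨4, ⊤, htop, hG.top, by rw [hG.top]; exact hi2⟩
    have hab : a < b := by
      refine lt_of_le_of_ne (hcmp a b haΦ hbΦ (by omega)) ?_
      intro h
      rw [h] at hai
      omega
    obtain ⟨z, haz, hzb⟩ := hG.dense a b hab (by omega)
    have hz : z ∈ Φ := by
      rw [Flag.mem_iff_forall_le_or_ge]
      intro c hc
      have hc' := hne c hc
      rcases lt_or_gt_of_ne hc' with h | h
      · have h3 := hmax (rk c) ⟨c, hc, rfl, h⟩
        exact Or.inr ((hcmp c a hc haΦ (by omega)).trans haz.le)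
      · have h3 := hmin (rk c) ⟨c, hc, rfl, h⟩
        exact Or.inl (hzb.le.trans (hcmp b c hbΦ hc (by omega)))
    have h1 := hG.mono a z haz
    have h2 := hG.mono z b hzb
    rcases lt_or_gt_of_ne (hne z hz) with h | h
    · have h3 := hmax (rk z) ⟨z, hz, rfl, h⟩
      omega
    · have h3 := hmin (rk z) ⟨z, hz, rfl, h⟩
      omega
  obtain ⟨x, hx, hxi⟩ := hex
  refine ⟨x, ⟨hx, hxi⟩, ?_⟩
  rintro y ⟨hy, hyi⟩
  exact le_antisymm (hcmp y x hy hx (by omega)) (hcmp x y hx hy (by omega))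

end Pool.Agent.H.MP_6268b4_co
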