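import Pool.Agent.H.MP_6268b4_co.Defs

/-!
The coset polytope over a polytope `K`: faces are the pairs `(F, g W_F)`.
-/

open scoped Pointwise

namespace Pool.Agent.H.MP_6268b4_co

section power

set_option maxHeartbeats 400000

variable {K : Type*} [PartialOrder K] [BoundedOrder K] (rk : K → ℤ) {G : Type*} [Group G]
  (a : K → G)

/-- The subgroup generated by the involutions attached to the vertices of the face `F`. -/
def WF (F : K) : Subgroup G := Subgroup.closure {x | ∃ v : K, rk v = 0 ∧ v ≤ F ∧ x = a v}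

/-- The faces: the least face is `(⊥, ∅)`, the others are `(F, g W_F)`. -/
def Pw : Type _ := {p : K × Set G // (p.1 = ⊥ ∧ p.2 = ∅) ∨
  ∃ g ∈ WF rk a ⊤, p.2 = g • (WF rk a p.1 : Set G)}

noncomputable instance : PartialOrder (Pw rk a) :=
  inferInstanceAs (PartialOrder {p : K × Set G // (p.1 = ⊥ ∧ p.2 = ∅) ∨
    ∃ g ∈ WF rk a ⊤, p.2 = g • (WF rk a p.1 : Set G)})

instance [Finite K] [Finite G] : Finite (Pw rk a) :=
  inferInstanceAs (Finite {p : K × Set G // (p.1 = ⊥ ∧ p.2 = ∅) ∨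
    ∃ g ∈ WF rk a ⊤, p.2 = g • (WF rk a p.1 : Set G)})

variable {rk a}

lemma WF_mono {F F' : K} (h : F ≤ F') : WF rk a F ≤ WF rk a F' := by
  apply Subgroup.closure_mono
  rintro x ⟨v, h0, h1, rfl⟩
  exact ⟨v, h0, h1.trans h, rfl⟩

lemma mem_WF {v F : K} (h0 : rk v = 0) (h : v ≤ F) : a v ∈ WF rk a F :=
  Subgroup.subset_closure ⟨v, h0, h, rfl⟩

/-- The face `(F, g W_F)`. -/
def mk (F : K) (g : ↥(WF rk a ⊤)) : Pw rk a :=
  ⟨(F, (g : G) • (WF rk a F : Set G)), Or.inr ⟨g, g.2, rfl⟩⟩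

lemma smul_sub {F F' : K} (hF : F ≤ F') (g g' : G) :
    g • (WF rk a F : Set G) ⊆ g' • (WF rk a F' : Set G) ↔ g'⁻¹ * g ∈ WF rk a F' := by
  constructor
  · intro h
    have h1 : g ∈ g • (WF rk a F : Set G) := ⟨1, one_mem _, by simp⟩
    obtain ⟨w, hw, hw2⟩ := h h1
    simp only [smul_eq_mul] at hw2
    rw [← hw2]
    simpa using hw
  · rintro h x ⟨w, hw, rfl⟩
    refine ⟨g'⁻¹ * g * w, mul_mem h (WF_mono hF hw), ?_⟩
    simp only [smul_eq_mul]
    group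

lemma mk_le {F F' : K} {g g' : ↥(WF rk a ⊤)} :
    mk F g ≤ mk F' g' ↔ F ≤ F' ∧ (g' : G)⁻¹ * g ∈ WF rk a F' := by
  constructor
  · intro h
    have h1 : F ≤ F' := h.1
    refine ⟨h1, ?_⟩
    exact (smul_sub h1 _ _).1 h.2
  · rintro ⟨h1, h2⟩
    exact ⟨h1, (smul_sub h1 _ _).2 h2⟩

lemma mk_eq {F F' : K} {g g' : ↥(WF rk a ⊤)} :
    mk F g = mk F' g' ↔ F = F' ∧ (g' : G)⁻¹ * g ∈ WF rk a F' := by
  constructor
  · intro h
    have h1 : F = F' := congrArg (fun p : Pw rk a => p.1.1) h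
    exact ⟨h1, (mk_le.1 h.le).2⟩
  · rintro ⟨rfl, h2⟩
    apply le_antisymm
    · exact mk_le.2 ⟨le_rfl, h2⟩
    · refine mk_le.2 ⟨le_rfl, ?_⟩
      have := inv_mem h2
      simpa using this

lemma mk_same_le {F F' : K} {g : ↥(WF rk a ⊤)} : mk F g ≤ mk F' g ↔ F ≤ F' := by
  rw [mk_le]
  constructor
  · exact fun h => h.1
  · intro h
    refine ⟨h, ?_⟩
    simpa using one_mem _

lemma mk_same_inj {F F' : K} {g : ↥(WF rk a ⊤)} : mk F g = mk F' g ↔ F = F' := by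
  constructor
  · exact fun h => (mk_eq.1 h).1
  · rintro rfl; rfl

lemma mk_same_lt {F F' : K} {g : ↥(WF rk a ⊤)} : mk F g < mk F' g ↔ F < F' := by
  rw [lt_iff_le_and_ne, lt_iff_le_and_ne, mk_same_le, Ne, Ne, mk_same_inj]

noncomputable instance : BoundedOrder (Pw rk a) where
  top := mk ⊤ 1
  bot := ⟨(⊥, ∅), Or.inl ⟨rfl, rfl⟩⟩
  le_top := by
    rintro ⟨⟨F, S⟩, hp⟩
    refine ⟨le_top, ?_⟩
    rcases hp with ⟨-, h2⟩ | ⟨g, hg, h2⟩
    · simp only at h2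
      subst h2
      exact Set.empty_subset _
    · simp only at h2
      subst h2
      refine (smul_sub le_top _ _).2 ?_
      simpa using hg
  bot_le := by
    rintro ⟨⟨F, S⟩, hp⟩
    exact ⟨bot_le, Set.empty_subset _⟩

lemma top_eq (g : ↥(WF rk a ⊤)) : (⊤ : Pw rk a) = mk ⊤ g := by
  change mk ⊤ 1 = mk ⊤ g
  rw [mk_eq]
  exact ⟨rfl, mul_mem (inv_mem g.2) (one_mem _)⟩

lemma bot_snd : (⊥ : Pw rk a).1.2 = ∅ := rfl

lemma mk_snd_ne (F : K) (g : ↥(WF rk a ⊤)) : (mk F g).1.2 ≠ ∅ := by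
  have : (g : G) ∈ (mk F g).1.2 := ⟨1, one_mem _, by simp⟩
  intro h
  rw [h] at this
  exact this

lemma mk_ne_bot (F : K) (g : ↥(WF rk a ⊤)) : mk F g ≠ ⊥ := by
  intro h
  exact mk_snd_ne F g (by rw [h]; rfl)

lemma bot_lt_mk (F : K) (g : ↥(WF rk a ⊤)) : (⊥ : Pw rk a) < mk F g :=
  bot_lt_iff_ne_bot.2 (mk_ne_bot F g)

lemma Pw_cases (p : Pw rk a) : p = ⊥ ∨ ∃ F g, p = mk F g := by
  rcases p with ⟨⟨F, S⟩, hp⟩
  rcases hp with ⟨h1, h2⟩ | ⟨g, hg, h2⟩
  · left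
    simp only at h1 h2
    subst h1 h2
    rfl
  · right
    simp only at h2
    subst h2
    exact ⟨F, ⟨g, hg⟩, rfl⟩

/-- elements above `mk F g` are `mk F' g` -/
lemma of_mk_le {F : K} {g : ↥(WF rk a ⊤)} {p : Pw rk a} (h : mk F g ≤ p) :
    ∃ F', F ≤ F' ∧ p = mk F' g := by
  rcases Pw_cases p with rfl | ⟨F', g', rfl⟩
  · exact absurd (le_bot_iff.1 h) (mk_ne_bot F g)
  · obtain ⟨h1, h2⟩ := mk_le.1 h
    refine ⟨F', h1, ?_⟩
    rw [mk_eq]
    refine ⟨rfl, ?_⟩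
    have := inv_mem h2
    simpa using this

/-- The rank function. -/
noncomputable def rkP (p : Pw rk a) : ℤ := by
  classical exact if p.1.2 = ∅ then -1 else rk p.1.1 + 1

lemma rkP_bot : rkP (⊥ : Pw rk a) = -1 := by
  classical
  unfold rkP
  exact if_pos rfl

lemma rkP_mk (F : K) (g : ↥(WF rk a ⊤)) : rkP (mk F g) = rk F + 1 := by
  classical
  unfold rkP
  exact if_neg (mk_snd_ne F g)

/-- The flag `(Φ, g)`. -/
def fl (Φ : Flag K) (g : ↥(WF rk a ⊤)) : Flag (Pw rk a) where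
  carrier := insert ⊥ ((fun F => mk F g) '' (Φ : Set K))
  Chain' := by
    apply IsChain.insert
    · rintro x ⟨F, hF, rfl⟩ y ⟨F', hF', rfl⟩ -
      rcases Φ.le_or_le hF hF' with h | h
      · exact Or.inl (mk_same_le.2 h)
      · exact Or.inr (mk_same_le.2 h)
    · intro b hb _
      exact Or.inl bot_le
  max_chain' := by
    intro s hs hsub
    apply Set.Subset.antisymm hsub
    intro x hx
    rcases Pw_cases x with rfl | ⟨F, h, rfl⟩
    · exact Set.mem_insert _ _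
    · have h0 : mk (⊥ : K) g ∈ s := hsub (Or.inr ⟨⊥, Φ.bot_mem, rfl⟩)
      have h1 : mk F h = mk F g := by
        rcases hs.total h0 hx with h2 | h2
        · obtain ⟨F', h3, h4⟩ := of_mk_le h2
          have := (mk_eq.1 h4).1
          subst this
          exact h4
        · obtain ⟨h3, h4⟩ := mk_le.1 h2
          have h5 : F = ⊥ := le_bot_iff.1 h3
          subst h5
          rw [mk_eq]
          exact ⟨rfl, h4⟩
      rw [h1] at hx ⊢
      right
      refine ⟨F, ?_, rfl⟩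
      rw [SetLike.mem_coe, Flag.mem_iff_forall_le_or_ge]
      intro b hb
      have h2 : mk b g ∈ s := hsub (Or.inr ⟨b, hb, rfl⟩)
      rcases hs.total hx h2 with h3 | h3
      · exact Or.inl (mk_same_le.1 h3)
      · exact Or.inr (mk_same_le.1 h3)

lemma mem_fl {Φ : Flag K} {g : ↥(WF rk a ⊤)} {p : Pw rk a} :
    p ∈ fl Φ g ↔ p = ⊥ ∨ ∃ F ∈ Φ, p = mk F g := by
  change p ∈ insert ⊥ ((fun F => mk F g) '' (Φ : Set K)) ↔ _
  rw [Set.mem_insert_iff]
  constructor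
  · rintro (h | ⟨F, hF, rfl⟩)
    · exact Or.inl h
    · exact Or.inr ⟨F, hF, rfl⟩
  · rintro (h | ⟨F, hF, rfl⟩)
    · exact Or.inl h
    · exact Or.inr ⟨F, hF, rfl⟩

lemma mk_mem_fl {Φ : Flag K} {g : ↥(WF rk a ⊤)} {F : K} : mk F g ∈ fl Φ g ↔ F ∈ Φ := by
  rw [mem_fl]
  constructor
  · rintro (h | ⟨F', hF', h⟩)
    · exact absurd h (mk_ne_bot _ _)
    · rw [mk_same_inj] at h
      subst h
      exact hF'
  · intro h
    exact Or.inr ⟨F, h, rfl⟩

lemma exists_fl [Finite K] [Finite G] (C : Flag (Pw rk a)) : ∃ Φ g, C = fl Φ g := by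
  classical
  have hfin : ({x : Pw rk a | x ∈ C ∧ x ≠ ⊥}).Finite := Set.toFinite _
  have hne : ({x : Pw rk a | x ∈ C ∧ x ≠ ⊥}).Nonempty :=
    ⟨⊤, C.top_mem, by rw [top_eq (1 : ↥(WF rk a ⊤))]; exact mk_ne_bot _ _⟩
  obtain ⟨x0, hx0, hmin⟩ := hfin.exists_minimal hne
  rcases Pw_cases x0 with h | ⟨F0, g, rfl⟩
  · exact absurd h hx0.2
  have hall : ∀ y ∈ C, y = ⊥ ∨ ∃ F, y = mk F g := by
    intro y hy
    by_cases hyb : y = ⊥
    · exact Or.inl hyb
    right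
    have h1 : mk F0 g ≤ y := by
      rcases C.le_or_le hx0.1 hy with h | h
      · exact h
      · exact hmin ⟨hy, hyb⟩ h
    obtain ⟨F', -, h3⟩ := of_mk_le h1
    exact ⟨F', h3⟩
  refine ⟨⟨{F | mk F g ∈ C}, ?_, ?_⟩, g, ?_⟩
  · intro F hF F' hF' _
    rcases C.le_or_le hF hF' with h | h
    · exact Or.inl (mk_same_le.1 h)
    · exact Or.inr (mk_same_le.1 h)
  · intro s hs hsub
    apply Set.Subset.antisymm hsub
    intro F hF
    change mk F g ∈ C
    rw [Flag.mem_iff_forall_le_or_ge]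
    intro y hy
    rcases hall y hy with rfl | ⟨F', rfl⟩
    · exact Or.inr bot_le
    · rcases hs.total hF (hsub hy) with h | h
      · exact Or.inl (mk_same_le.2 h)
      · exact Or.inr (mk_same_le.2 h)
  · ext p
    rw [SetLike.mem_coe, SetLike.mem_coe, mem_fl]
    constructor
    · intro hp
      rcases hall p hp with rfl | ⟨F', rfl⟩
      · exact Or.inl rfl
      · exact Or.inr ⟨F', hp, rfl⟩
    · rintro (rfl | ⟨F, hF, rfl⟩)
      · exact C.bot_mem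
      · exact hF

/-- adjacency of flags lifts -/
lemma adj_fl {Φ Ψ : Flag K} (h : Adj Φ Ψ) (g : ↥(WF rk a ⊤)) : Adj (fl Φ g) (fl Ψ g) := by
  obtain ⟨x, y, hx, hy, hxy, he⟩ := h
  refine ⟨mk x g, mk y g, (mk_mem_fl).2 hx, (mk_mem_fl).2 hy, ?_, ?_⟩
  · rw [Ne, mk_same_inj]
    exact hxy
  · have key : ∀ F, (F ∈ Φ ∧ F ≠ x) ↔ (F ∈ Ψ ∧ F ≠ y) := by
      intro F
      have := Set.ext_iff.1 he F
      simpa using this
    ext p
    simp only [Set.mem_sdiff, SetLike.mem_coe, Set.mem_singleton_iff]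
    rcases Pw_cases p with rfl | ⟨F, g', rfl⟩
    · refine ⟨fun _ => ⟨Flag.bot_mem _, (mk_ne_bot _ _).symm⟩,
        fun _ => ⟨Flag.bot_mem _, (mk_ne_bot _ _).symm⟩⟩
    · constructor
      · rintro ⟨h1, h2⟩
        rcases (mem_fl).1 h1 with h3 | ⟨F', hF', h3⟩
        · exact absurd h3 (mk_ne_bot _ _)
        · rw [h3] at h2 ⊢
          rw [mk_same_inj] at h2 ⊢
          rw [mk_mem_fl]
          exact (key F').1 ⟨hF', h2⟩
      · rintro ⟨h1, h2⟩
        rcases (mem_fl).1 h1 with h3 | ⟨F', hF', h3⟩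
        · exact absurd h3 (mk_ne_bot _ _)
        · rw [h3] at h2 ⊢
          rw [mk_same_inj] at h2 ⊢
          rw [mk_mem_fl]
          exact (key F').2 ⟨hF', h2⟩

section flags

variable {n : ℕ} (hK : IsPolytope n K rk)

include hK

lemma WF_bot : WF rk a ⊥ = ⊥ := by
  unfold WF
  rw [Subgroup.closure_eq_bot_iff]
  rintro x ⟨v, h0, h1, rfl⟩
  have : v = ⊥ := le_bot_iff.1 h1
  rw [this, hK.bot] at h0
  omega

lemma mk_bot_inj {g g' : ↥(WF rk a ⊤)} : mk (⊥ : K) g = mk ⊥ g' ↔ g = g' := by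
  rw [mk_eq, WF_bot hK, Subgroup.mem_bot]
  constructor
  · rintro ⟨-, h⟩
    rw [inv_mul_eq_one] at h
    exact Subtype.ext h.symm
  · rintro rfl
    simp

lemma fl_inj {Φ Ψ : Flag K} {g h : ↥(WF rk a ⊤)} : fl Φ g = fl Ψ h ↔ Φ = Ψ ∧ g = h := by
  constructor
  · intro e
    have h0 : mk (⊥ : K) g ∈ fl Ψ h := by
      rw [← e, mk_mem_fl]
      exact Φ.bot_mem
    have h1 : g = h := by
      rcases (mem_fl).1 h0 with h2 | ⟨F, hF, h2⟩
      · exact absurd h2 (mk_ne_bot _ _)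
      · have := (mk_eq.1 h2).1
        subst this
        exact (mk_bot_inj hK).1 h2
    subst h1
    refine ⟨?_, rfl⟩
    ext F
    rw [SetLike.mem_coe, SetLike.mem_coe, ← mk_mem_fl (g := g), e, mk_mem_fl]
  · rintro ⟨rfl, rfl⟩
    rfl

end flags

end power

end Pool.Agent.H.MP_6268b4_co
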