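import Pool.Agent.H.MP_6268b4_co.Power

/-!
The coset poset over a polytope is a polytope.
-/

open scoped Pointwise

namespace Pool.Agent.H.MP_6268b4_co

section power

set_option maxHeartbeats 400000

variable {K : Type*} [PartialOrder K] [BoundedOrder K] {rk : K → ℤ} {G : Type*} [Group G]
  {a : K → G} {n : ℕ}

lemma rtg_symm {α : Type*} {r : α → α → Prop} (hr : ∀ x y, r x y → r y x) {x y : α}
    (h : Relation.ReflTransGen r x y) : Relation.ReflTransGen r y x := by
  induction h with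
  | refl => exact Relation.ReflTransGen.refl
  | tail _ hbc ih => exact Relation.ReflTransGen.head (hr _ _ hbc) ih

lemma rtg_lift {α β : Type*} {r : α → α → Prop} {p : β → β → Prop} (f : α → β)
    (hr : ∀ x y, r x y → p (f x) (f y)) {x y : α}
    (h : Relation.ReflTransGen r x y) : Relation.ReflTransGen p (f x) (f y) := by
  induction h with
  | refl => exact Relation.ReflTransGen.refl
  | tail _ hbc ih => exact ih.tail (hr _ _ hbc)

lemma Adj.symm {P : Type*} [PartialOrder P] {A B : Flag P} (h : Adj A B) : Adj B A := by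
  obtain ⟨x, y, hx, hy, hxy, he⟩ := h
  exact ⟨y, x, hy, hx, hxy.symm, he.symm⟩

/-- path at a fixed vertex -/
lemma lift_path (hK : IsPolytope n K rk) (Φ₁ Φ₂ : Flag K) (g : ↥(WF rk a ⊤))
    (J : Set (Pw rk a)) (h1 : J ⊆ (fl Φ₁ g : Set (Pw rk a))) (h2 : J ⊆ (fl Φ₂ g : Set (Pw rk a))) :
    Relation.ReflTransGen (fun A B : Flag (Pw rk a) => Adj A B ∧ J ⊆ A ∧ J ⊆ B)
      (fl Φ₁ g) (fl Φ₂ g) := by
  have key : ∀ X : Flag K, (Φ₁ : Set K) ∩ Φ₂ ⊆ X → J ⊆ (fl X g : Set (Pw rk a)) := by
    intro X hX p hp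
    rcases mem_fl.1 (h1 hp) with h3 | ⟨F, hF, rfl⟩
    · exact mem_fl.2 (Or.inl h3)
    · have h4 : F ∈ Φ₂ := mk_mem_fl.1 (h2 hp)
      exact mk_mem_fl.2 (hX ⟨hF, h4⟩)
  refine rtg_lift (fun X : Flag K => fl X g) ?_ (hK.conn Φ₁ Φ₂)
  rintro A B ⟨hAB, hA, hB⟩
  exact ⟨adj_fl hAB g, key A hA, key B hB⟩

lemma le_of_rk0 (hK : IsPolytope n K rk) {Φ : Flag K} {v F : K} (hv : v ∈ Φ) (h0 : rk v = 0)
    (hF : F ∈ Φ) (hne : F ≠ ⊥) : v ≤ F := by
  rcases Φ.le_or_le hv hF with h | h
  · exact h
  · rcases h.lt_or_eq with h1 | h1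
    · exfalso
      have h2 := hK.mono _ _ h1
      have h3 := hK.rk_ge F
      exact hne (hK.eq_bot (by omega))
    · exact h1.ge

/-- flipping the vertex -/
lemma flip_mk (hK : IsPolytope n K rk) {Φ : Flag K} {v : K} (hv : v ∈ Φ) (h0 : rk v = 0)
    {g g' : ↥(WF rk a ⊤)} (hg : (g' : G) = g * a v) {F : K} (hF : F ∈ Φ) (hne : F ≠ ⊥) :
    mk F g = mk F g' := by
  rw [mk_eq]
  refine ⟨rfl, ?_⟩
  have h1 : a v ∈ WF rk a F := mem_WF h0 (le_of_rk0 hK hv h0 hF hne)
  have : (g' : G)⁻¹ * g = (a v)⁻¹ := by rw [hg]; group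
  rw [this]
  exact inv_mem h1

lemma flip_adj (hK : IsPolytope n K rk) {Φ : Flag K} {v : K} (hv : v ∈ Φ) (h0 : rk v = 0)
    (hav : a v ≠ 1) {g g' : ↥(WF rk a ⊤)} (hg : (g' : G) = g * a v) :
    Adj (fl Φ g) (fl Φ g') := by
  refine ⟨mk ⊥ g, mk ⊥ g', mk_mem_fl.2 Φ.bot_mem, mk_mem_fl.2 Φ.bot_mem, ?_, ?_⟩
  · rw [Ne, mk_bot_inj hK]
    intro h
    rw [h] at hg
    exact hav (by simpa using hg.symm)
  · ext p
    simp only [Set.mem_sdiff, SetLike.mem_coe, Set.mem_singleton_iff]
    rcases Pw_cases p with rfl | ⟨F, k, rfl⟩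
    · exact ⟨fun _ => ⟨Flag.bot_mem _, (mk_ne_bot _ _).symm⟩,
        fun _ => ⟨Flag.bot_mem _, (mk_ne_bot _ _).symm⟩⟩
    · constructor
      · rintro ⟨h1, h2⟩
        rcases mem_fl.1 h1 with h3 | ⟨F', hF', h3⟩
        · exact absurd h3 (mk_ne_bot _ _)
        · rw [h3] at h2 ⊢
          have h4 : F' ≠ ⊥ := by
            rintro rfl
            exact h2 rfl
          rw [flip_mk hK hv h0 hg hF' h4]
          refine ⟨mk_mem_fl.2 hF', ?_⟩
          rw [mk_same_inj]
          exact h4
      · rintro ⟨h1, h2⟩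
        rcases mem_fl.1 h1 with h3 | ⟨F', hF', h3⟩
        · exact absurd h3 (mk_ne_bot _ _)
        · rw [h3] at h2 ⊢
          have h4 : F' ≠ ⊥ := by
            rintro rfl
            exact h2 rfl
          rw [← flip_mk hK hv h0 hg hF' h4]
          refine ⟨mk_mem_fl.2 hF', ?_⟩
          rw [mk_same_inj]
          exact h4

lemma exists_flag_of_chain {P : Type*} [PartialOrder P] {s : Set P} (hs : IsChain (· ≤ ·) s) :
    ∃ Φ : Flag P, s ⊆ Φ := by
  obtain ⟨M, hM, hsM⟩ := hs.exists_maxChain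
  exact ⟨Flag.ofIsMaxChain M hM, hsM⟩

lemma conn_Pw (hK : IsPolytope n K rk) [Finite K] [Finite G]
    (ha : ∀ v, rk v = 0 → a v ≠ 1) (C D : Flag (Pw rk a)) :
    Relation.ReflTransGen (fun A B : Flag (Pw rk a) => Adj A B ∧ (C : Set (Pw rk a)) ∩ D ⊆ A ∧
      (C : Set (Pw rk a)) ∩ D ⊆ B) C D := by
  classical
  obtain ⟨Φ, g, rfl⟩ := exists_fl C
  obtain ⟨Ψ, h, rfl⟩ := exists_fl D
  set J : Set (Pw rk a) := (fl Φ g : Set (Pw rk a)) ∩ fl Ψ h with hJ
  by_cases hgh : g = h
  · subst hgh
    exact lift_path hK Φ Ψ g J Set.inter_subset_left Set.inter_subset_right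
  set S : Set K := {F | F ∈ Φ ∧ F ∈ Ψ ∧ mk F g = mk F h} with hS
  have hSfin : S.Finite := Set.toFinite _
  have hSne : S.Nonempty := ⟨⊤, Φ.top_mem, Ψ.top_mem, by rw [← top_eq, ← top_eq]⟩
  obtain ⟨F0, hF0, hmin⟩ := hSfin.exists_minimal hSne
  have hSle : ∀ F ∈ S, F0 ≤ F := by
    intro F hF
    rcases Φ.le_or_le hF0.1 hF.1 with h1 | h1
    · exact h1
    · exact hmin hF h1
  have hgh0 : (g : G)⁻¹ * h ∈ WF rk a F0 := by
    have := (mk_eq.1 hF0.2.2).2
    have := inv_mem this
    simpa using this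
  have hJsub : ∀ (X : Flag K) (g1 : ↥(WF rk a ⊤)), S ⊆ X → (g : G)⁻¹ * g1 ∈ WF rk a F0 →
      J ⊆ (fl X g1 : Set (Pw rk a)) := by
    intro X g1 hX hg1 p hp
    rcases mem_fl.1 hp.1 with h1 | ⟨F, hF, rfl⟩
    · exact mem_fl.2 (Or.inl h1)
    · rcases mem_fl.1 hp.2 with h1 | ⟨F', hF', h2⟩
      · exact absurd h1 (mk_ne_bot _ _)
      · have h3 := (mk_eq.1 h2).1
        subst h3
        have hFS : F ∈ S := ⟨hF, hF', h2⟩
        have h4 : mk F g = mk F g1 := by
          rw [mk_eq]
          refine ⟨rfl, ?_⟩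
          have h5 := WF_mono (a := a) (rk := rk) (hSle F hFS) hg1
          have := inv_mem h5
          simpa using this
        rw [h4]
        exact mk_mem_fl.2 (hX hFS)
  have main : ∀ w ∈ WF rk a F0, ∀ (X Y : Flag K) (g1 g2 : ↥(WF rk a ⊤)), (g2 : G) = g1 * w →
      S ⊆ X → S ⊆ Y → (g : G)⁻¹ * g1 ∈ WF rk a F0 →
      Relation.ReflTransGen (fun A B : Flag (Pw rk a) => Adj A B ∧ J ⊆ A ∧ J ⊆ B)
        (fl X g1) (fl Y g2) := by
    intro w hw
    induction hw using Subgroup.closure_induction with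
    | mem x hx =>
      obtain ⟨v, h0, hv, rfl⟩ := hx
      intro X Y g1 g2 h12 hX hY hg1
      have hchain : IsChain (· ≤ ·) (insert v S) := by
        apply IsChain.insert
        · intro F hF F' hF' _
          exact Φ.le_or_le hF.1 hF'.1
        · intro b hb _
          exact Or.inl (hv.trans (hSle b hb))
      obtain ⟨Z, hZ⟩ := exists_flag_of_chain hchain
      have hZS : S ⊆ Z := (Set.subset_insert _ _).trans hZ
      have hvZ : v ∈ Z := hZ (Set.mem_insert _ _)
      have hg2 : (g : G)⁻¹ * g2 ∈ WF rk a F0 := by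
        rw [h12, ← mul_assoc]
        exact mul_mem hg1 (mem_WF h0 hv)
      refine (lift_path hK X Z g1 J (hJsub X g1 hX hg1) (hJsub Z g1 hZS hg1)).trans ?_
      refine Relation.ReflTransGen.head
        (⟨flip_adj hK hvZ h0 (ha v h0) h12, hJsub Z g1 hZS hg1, hJsub Z g2 hZS hg2⟩) ?_
      exact lift_path hK Z Y g2 J (hJsub Z g2 hZS hg2) (hJsub Y g2 hY hg2)
    | one =>
      intro X Y g1 g2 h12 hX hY hg1
      have : g1 = g2 := Subtype.ext (by rw [h12]; simp)
      subst this
      exact lift_path hK X Y g1 J (hJsub X g1 hX hg1) (hJsub Y g1 hY hg1)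
    | mul x y hx hy ihx ihy =>
      intro X Y g1 g2 h12 hX hY hg1
      have hx' : x ∈ WF rk a F0 := hx
      have hxt : x ∈ WF rk a ⊤ := WF_mono le_top hx'
      refine (ihx X X g1 ⟨g1 * x, mul_mem g1.2 hxt⟩ rfl hX hX hg1).trans ?_
      refine ihy X Y ⟨g1 * x, mul_mem g1.2 hxt⟩ g2 ?_ hX hY ?_
      · rw [h12, mul_assoc]
      · change (g : G)⁻¹ * (g1 * x) ∈ _
        rw [← mul_assoc]
        exact mul_mem hg1 hx'
    | inv x hx ih =>
      intro X Y g1 g2 h12 hX hY hg1
      have hx' : x ∈ WF rk a F0 := hx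
      have hg2 : (g : G)⁻¹ * g2 ∈ WF rk a F0 := by
        rw [h12, ← mul_assoc]
        exact mul_mem hg1 (inv_mem hx')
      have h3 := ih Y X g2 g1 (by rw [h12]; group) hY hX hg2
      exact rtg_symm (fun A B hAB => ⟨hAB.1.symm, hAB.2.2, hAB.2.1⟩) h3
  refine main _ hgh0 Φ Ψ g h (by group) (fun F hF => hF.1) (fun F hF => hF.2.1) ?_
  simpa using one_mem _

theorem isPolytope_Pw (hK : IsPolytope n K rk) [Finite K] [Finite G]
    (ha : ∀ v, rk v = 0 → a v ≠ 1 ∧ a v * a v = 1) :
    IsPolytope (n + 1) (Pw rk a) rkP where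
  mono := by
    intro x y hxy
    rcases Pw_cases x with rfl | ⟨F, g, rfl⟩
    · rcases Pw_cases y with rfl | ⟨F', g', rfl⟩
      · exact absurd hxy (lt_irrefl _)
      · rw [rkP_bot, rkP_mk]
        have := hK.rk_ge F'
        omega
    · obtain ⟨F', hF', rfl⟩ := of_mk_le hxy.le
      rw [mk_same_lt] at hxy
      rw [rkP_mk, rkP_mk]
      have := hK.mono _ _ hxy
      omega
  bot := rkP_bot
  top := by
    rw [top_eq (1 : ↥(WF rk a ⊤)), rkP_mk, hK.top]
    push_cast
    ring
  full := by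
    intro C i hi1 hi2
    obtain ⟨Φ, g, rfl⟩ := exists_fl C
    by_cases hi : i = -1
    · subst hi
      refine ⟨⊥, ⟨Flag.bot_mem _, rkP_bot⟩, ?_⟩
      rintro y ⟨hy1, hy2⟩
      rcases Pw_cases y with rfl | ⟨F, h, rfl⟩
      · rfl
      · rw [rkP_mk] at hy2
        have := hK.rk_ge F
        omega
    · obtain ⟨F, ⟨hF1, hF2⟩, huniq⟩ := hK.full Φ (i - 1) (by omega) (by push_cast at hi2; omega)
      refine ⟨mk F g, ⟨mk_mem_fl.2 hF1, by rw [rkP_mk]; omega⟩, ?_⟩
      rintro y ⟨hy1, hy2⟩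
      rcases mem_fl.1 hy1 with rfl | ⟨F', hF', rfl⟩
      · rw [rkP_bot] at hy2
        omega
      · rw [rkP_mk] at hy2
        rw [huniq F' ⟨hF', by omega⟩]
  conn := conn_Pw hK (fun v hv => (ha v hv).1)
  diamond := by
    intro x y hxy hr
    rcases Pw_cases x with rfl | ⟨F, g, rfl⟩
    · rcases Pw_cases y with rfl | ⟨v, g, rfl⟩
      · exact absurd hxy (lt_irrefl _)
      · rw [rkP_bot, rkP_mk] at hr
        have hv : rk v = 0 := by omega
        have hWv : ∀ w ∈ WF rk a v, w = 1 ∨ w = a v := by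
          intro w hw
          induction hw using Subgroup.closure_induction with
          | mem x hx =>
            obtain ⟨u, hu0, hu, rfl⟩ := hx
            right
            rw [hK.eq_of_le hu (by rw [hu0, hv])]
          | one => left; rfl
          | mul x y _ _ ihx ihy =>
            rcases ihx with rfl | rfl <;> rcases ihy with rfl | rfl
            · left; simp
            · right; simp
            · right; simp
            · left; exact (ha v hv).2
          | inv x _ ih =>
            rcases ih with rfl | rfl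
            · left; simp
            · right; exact inv_eq_of_mul_eq_one_right (ha v hv).2
        have hg' : (g : G) * a v ∈ WF rk a ⊤ := mul_mem g.2 (mem_WF hv le_top)
        have hset : {H : Pw rk a | ⊥ < H ∧ H < mk v g} = {mk ⊥ g, mk ⊥ ⟨g * a v, hg'⟩} := by
          ext H
          simp only [Set.mem_setOf_eq, Set.mem_insert_iff, Set.mem_singleton_iff]
          constructor
          · rintro ⟨h1, h2⟩
            rcases Pw_cases H with rfl | ⟨F, k, rfl⟩
            · exact absurd h1 (lt_irrefl _)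
            · obtain ⟨h3, h4⟩ := mk_le.1 h2.le
              have hF : F = ⊥ := by
                rcases h3.lt_or_eq with h5 | h5
                · have := hK.mono _ _ h5
                  have := hK.rk_ge F
                  exact hK.eq_bot (by omega)
                · exfalso
                  subst h5
                  exact h2.ne (mk_eq.2 ⟨rfl, h4⟩)
              subst hF
              rcases hWv _ h4 with h5 | h5
              · left
                rw [mk_bot_inj hK]
                exact Subtype.ext (inv_mul_eq_one.1 h5).symm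
              · right
                rw [mk_bot_inj hK]
                apply Subtype.ext
                simp only
                rw [← h5]
                group
          · have hv0 : (⊥ : K) < v := by
              rw [bot_lt_iff_ne_bot]
              rintro rfl
              rw [hK.bot] at hv
              omega
            rintro (rfl | rfl)
            · exact ⟨bot_lt_mk _ _, mk_same_lt.2 hv0⟩
            · refine ⟨bot_lt_mk _ _, ?_⟩
              have : mk v g = mk v ⟨g * a v, hg'⟩ := by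
                rw [mk_eq]
                refine ⟨rfl, ?_⟩
                simp only [mul_inv_rev, inv_mul_cancel_right]
                exact inv_mem (mem_WF hv le_rfl)
              rw [this]
              exact mk_same_lt.2 hv0
        rw [hset, Set.ncard_pair]
        rw [Ne, mk_bot_inj hK]
        intro h
        have h2 := congrArg (fun z : ↥(WF rk a ⊤) => (z : G)) h
        simp only at h2
        exact (ha v hv).1 (by simpa using h2.symm)
    · obtain ⟨F', hF', rfl⟩ := of_mk_le hxy.le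
      rw [mk_same_lt] at hxy
      rw [rkP_mk, rkP_mk] at hr
      have hd := hK.diamond F F' hxy (by omega)
      have hset : {H : Pw rk a | mk F g < H ∧ H < mk F' g} =
          (fun X => mk X g) '' {H : K | F < H ∧ H < F'} := by
        ext H
        simp only [Set.mem_setOf_eq, Set.mem_image]
        constructor
        · rintro ⟨h1, h2⟩
          obtain ⟨X, hX, rfl⟩ := of_mk_le h1.le
          exact ⟨X, ⟨mk_same_lt.1 h1, mk_same_lt.1 h2⟩, rfl⟩
        · rintro ⟨X, ⟨h1, h2⟩, rfl⟩
          exact ⟨mk_same_lt.2 h1, mk_same_lt.2 h2⟩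
      rw [hset, Set.ncard_image_of_injective _ (fun X Y h => mk_same_inj.1 h)]
      exact hd

theorem noDigon_Pw (hK : IsPolytope n K rk) [Finite K] [Finite G] (hn : NoDigon K rk)
    (ha : ∀ v, rk v = 0 → a v ≠ 1)
    (hinj : ∀ v w, rk v = 0 → rk w = 0 → v ≠ w → a v ≠ a w) :
    NoDigon (Pw rk a) rkP := by
  intro x y hxy hr
  rcases Pw_cases x with rfl | ⟨F, g, rfl⟩
  · rcases Pw_cases y with rfl | ⟨E, g, rfl⟩
    · exact absurd hxy (lt_irrefl _)
    · rw [rkP_bot, rkP_mk] at hr
      have hE : rk E = 1 := by omega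
      have hd := hK.diamond ⊥ E (bot_lt_iff_ne_bot.2 (by rintro rfl; rw [hK.bot] at hE; omega))
        (by rw [hE, hK.bot]; norm_num)
      obtain ⟨v, w, hvw, hset⟩ := Set.ncard_eq_two.1 hd
      have hv : v ∈ {H : K | ⊥ < H ∧ H < E} := by rw [hset]; simp
      have hw : w ∈ {H : K | ⊥ < H ∧ H < E} := by rw [hset]; simp
      have hrk : ∀ u : K, u ∈ {H : K | ⊥ < H ∧ H < E} → rk u = 0 := by
        rintro u ⟨h1, h2⟩
        have := hK.mono _ _ h1
        have := hK.mono _ _ h2
        rw [hK.bot] at *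
        omega
      have hv0 := hrk v hv
      have hw0 := hrk w hw
      have hga : ∀ u : K, rk u = 0 → (g : G) * a u ∈ WF rk a ⊤ :=
        fun u hu => mul_mem g.2 (mem_WF hu le_top)
      have hmem : ∀ (u : K) (hu0 : rk u = 0) (hu : u < E),
          mk ⊥ ⟨g * a u, hga u hu0⟩ ∈ {H : Pw rk a | ⊥ < H ∧ H < mk E g ∧
            rkP H = rkP (⊥ : Pw rk a) + 1} := by
        intro u hu0 hu
        refine ⟨bot_lt_mk _ _, ?_, ?_⟩
        · have : mk E g = mk E ⟨g * a u, hga u hu0⟩ := by
            rw [mk_eq]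
            refine ⟨rfl, ?_⟩
            simp only [mul_inv_rev, inv_mul_cancel_right]
            exact inv_mem (mem_WF hu0 hu.le)
          rw [this]
          exact mk_same_lt.2 (bot_le.trans_lt hu)
        · rw [rkP_mk, rkP_bot, hK.bot]
      have hmem1 : mk ⊥ g ∈ {H : Pw rk a | ⊥ < H ∧ H < mk E g ∧
            rkP H = rkP (⊥ : Pw rk a) + 1} := by
        refine ⟨bot_lt_mk _ _, mk_same_lt.2 (bot_le.trans_lt hv.2), ?_⟩
        rw [rkP_mk, rkP_bot, hK.bot]
      intro h2
      have hfin : ({H : Pw rk a | ⊥ < H ∧ H < mk E g ∧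
            rkP H = rkP (⊥ : Pw rk a) + 1}).Finite := Set.toFinite _
      have h3 : 2 < ({H : Pw rk a | ⊥ < H ∧ H < mk E g ∧
            rkP H = rkP (⊥ : Pw rk a) + 1}).ncard := by
        rw [Set.two_lt_ncard hfin]
        refine ⟨_, hmem1, _, hmem v hv0 hv.2, _, hmem w hw0 hw.2, ?_, ?_, ?_⟩
        · rw [Ne, mk_bot_inj hK]
          intro h
          have h2 := congrArg (fun z : ↥(WF rk a ⊤) => (z : G)) h
          simp only at h2
          exact ha v hv0 (by simpa using h2.symm)
        · rw [Ne, mk_bot_inj hK]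
          intro h
          have h2 := congrArg (fun z : ↥(WF rk a ⊤) => (z : G)) h
          simp only at h2
          exact ha w hw0 (by simpa using h2.symm)
        · rw [Ne, mk_bot_inj hK]
          intro h
          have h2 := congrArg (fun z : ↥(WF rk a ⊤) => (z : G)) h
          simp only at h2
          exact hinj v w hv0 hw0 hvw (mul_left_cancel h2)
      omega
  · obtain ⟨F', hF', rfl⟩ := of_mk_le hxy.le
    rw [mk_same_lt] at hxy
    rw [rkP_mk, rkP_mk] at hr
    have hset : {H : Pw rk a | mk F g < H ∧ H < mk F' g ∧ rkP H = rkP (mk F g) + 1} =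
        (fun X => mk X g) '' {H : K | F < H ∧ H < F' ∧ rk H = rk F + 1} := by
      ext H
      simp only [Set.mem_setOf_eq, Set.mem_image]
      constructor
      · rintro ⟨h1, h2, h3⟩
        obtain ⟨X, hX, rfl⟩ := of_mk_le h1.le
        rw [rkP_mk, rkP_mk] at h3
        exact ⟨X, ⟨mk_same_lt.1 h1, mk_same_lt.1 h2, by omega⟩, rfl⟩
      · rintro ⟨X, ⟨h1, h2, h3⟩, rfl⟩
        refine ⟨mk_same_lt.2 h1, mk_same_lt.2 h2, ?_⟩
        rw [rkP_mk, rkP_mk]
        omega
    rw [hset, Set.ncard_image_of_injective _ (fun X Y h => mk_same_inj.1 h)]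
    exact hn F F' hxy (by omega)

end power

end Pool.Agent.H.MP_6268b4_co
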