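import Pool.Agent.H.MP_6268b4_co.GDefs
import Pool.Agent.H.MP_6268b4_co.RDih

/-!
First consequences of the hypotheses in the regular case.
-/

namespace Pool.Agent.H.MP_6268b4_co

variable {G Ω : Type*} [Group G] [MulAction G Ω] [Finite G] [Finite Ω] [FaithfulSMul G Ω]
  {v w : Ω} {t c a b : G}

omit [Finite G] [Finite Ω] [FaithfulSMul G Ω] in
/-- A set invariant under the generators is invariant under the closure, when the generators are
involutions. -/
lemma rbasica_inv {c a b g : G} (S : Set Ω) (haa : a * a = 1) (hbb : b * b = 1) (hcc : c * c = 1)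
    (ha : ∀ x ∈ S, a • x ∈ S) (hb : ∀ x ∈ S, b • x ∈ S) (hc : ∀ x ∈ S, c • x ∈ S)
    (hg : g ∈ Subgroup.closure ({c, a, b} : Set G)) : ∀ x ∈ S, g • x ∈ S := by
  have inva : a⁻¹ = a := inv_eq_of_mul_eq_one_right haa
  have invb : b⁻¹ = b := inv_eq_of_mul_eq_one_right hbb
  have invc : c⁻¹ = c := inv_eq_of_mul_eq_one_right hcc
  induction hg using Subgroup.closure_induction_left with
  | one => intro x hx; simpa using hx
  | mul_left y hy g _ ih =>
    intro x hx
    rw [mul_smul]
    rcases hy with rfl | rfl | hy
    · exact hc _ (ih x hx)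
    · exact ha _ (ih x hx)
    · rw [Set.mem_singleton_iff] at hy
      subst hy
      exact hb _ (ih x hx)
  | inv_mul_cancel y hy g _ ih =>
    intro x hx
    rw [mul_smul]
    rcases hy with rfl | rfl | hy
    · rw [invc]; exact hc _ (ih x hx)
    · rw [inva]; exact ha _ (ih x hx)
    · rw [Set.mem_singleton_iff] at hy
      subst hy
      rw [invb]; exact hb _ (ih x hx)

/-- Job RBasic-1. `a ≠ 1`, `b ≠ 1`, `c w ≠ w` and `3 ≤ orderOf (a b)`.

Proof. `G_v` is transitive on the points `≠ v` (2-transitivity) and there are at least three such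
points (`hn`). By `stab1` `G_v = closure {c, a, b}` (the generators fix `v`). If `c w = w` then all
of `G_v` fixes `w`, contradiction. Suppose `s = orderOf (a * b) = 1`, i.e. `a = b`. Then
`G_v = closure {c, b}` is abelian, every element is `c^i b^j`, so the orbit of `w` is
`⊆ {w, c w}`: at most 2 points, contradiction. So `s ≠ 1`, `s` is odd, `s ≥ 3`. If `b = 1` then
`(a*b)^2 = 1`, so `s ∣ 2` and `s = 1`, contradiction; same for `a = 1`. -/
theorem R_basic (h : RHyp v w t c a b) (hn : 4 ≤ Nat.card Ω) :
    a ≠ 1 ∧ b ≠ 1 ∧ c • w ≠ w ∧ 3 ≤ orderOf (a * b) := by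
  classical
  -- a set `S` containing `w` and invariant under `c, a, b` contains every point `≠ v`
  have key : ∀ S : Set Ω, w ∈ S → (∀ x ∈ S, a • x ∈ S) → (∀ x ∈ S, b • x ∈ S) →
      (∀ x ∈ S, c • x ∈ S) → ∀ x, x ≠ v → x ∈ S := by
    intro S hw ha hb hc x hx
    obtain ⟨g, hgv, hgw⟩ := h.two v w v x h.vw (Ne.symm hx)
    rw [← hgw]
    exact rbasica_inv S h.aa h.bb h.cc ha hb hc (h.stab1 g hgv) w hw
  have hcard : ∀ s : Finset Ω, (∀ x, x ∈ s) → 4 ≤ s.card := by
    intro s hs
    have := Fintype.ofFinite Ω
    rw [Nat.card_eq_fintype_card] at hn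
    have h1 : s = Finset.univ := Finset.eq_univ_iff_forall.mpr hs
    rw [h1]
    exact hn
  have hcw : c • w ≠ w := by
    intro hcw
    have h1 := key {w} rfl (by intro x hx; rw [Set.mem_singleton_iff] at hx; subst hx; exact h.aw)
      (by intro x hx; rw [Set.mem_singleton_iff] at hx; subst hx; exact h.bw)
      (by intro x hx; rw [Set.mem_singleton_iff] at hx; subst hx; exact hcw)
    have h2 := hcard {v, w} (by
      intro x
      by_cases hx : x = v
      · simp [hx]
      · have := h1 x hx
        rw [Set.mem_singleton_iff] at this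
        simp [this])
    have h3 := Finset.card_le_two (a := v) (b := w)
    omega
  have hs1 : orderOf (a * b) ≠ 1 := by
    intro hs
    rw [orderOf_eq_one_iff] at hs
    have hab : a = b := by
      have h1 : a * b * b = b := by rw [hs, one_mul]
      rw [mul_assoc, h.bb, mul_one] at h1
      exact h1
    have hbc : b • (c • w) = c • w := by
      rw [← mul_smul, ← h.cb, mul_smul, h.bw]
    have hb : ∀ x ∈ ({w, c • w} : Set Ω), b • x ∈ ({w, c • w} : Set Ω) := by
      intro x hx
      rcases hx with rfl | hx
      · rw [h.bw]; simp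
      · rw [Set.mem_singleton_iff] at hx
        subst hx
        rw [hbc]; simp
    have h1 := key {w, c • w} (by simp) (by rw [hab]; exact hb) hb (by
      intro x hx
      rcases hx with rfl | hx
      · simp
      · rw [Set.mem_singleton_iff] at hx
        subst hx
        rw [← mul_smul, h.cc, one_smul]; simp)
    have h2 := hcard {v, w, c • w} (by
      intro x
      by_cases hx : x = v
      · simp [hx]
      · rcases h1 x hx with h4 | h4
        · simp [h4]
        · rw [Set.mem_singleton_iff] at h4
          simp [h4])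
    have h3 := Finset.card_le_three (a := v) (b := w) (c := c • w)
    omega
  have hodd := h.odd
  have hs2 : ¬ orderOf (a * b) ∣ 2 := by
    intro hd
    rcases (Nat.dvd_prime Nat.prime_two).mp hd with h1 | h1
    · exact hs1 h1
    · rw [h1] at hodd
      exact absurd hodd (by decide)
  refine ⟨?_, ?_, hcw, ?_⟩
  · rintro rfl
    apply hs2
    rw [orderOf_dvd_iff_pow_eq_one, one_mul, pow_two, h.bb]
  · rintro rfl
    apply hs2
    rw [orderOf_dvd_iff_pow_eq_one, mul_one, pow_two, h.aa]
  · obtain ⟨k, hk⟩ := hodd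
    omega

end Pool.Agent.H.MP_6268b4_co
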