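import Pool.Agent.H.MP_6268b4_co.RBasicA

/-!
First consequences of the hypotheses in the regular case.
-/

namespace Pool.Agent.H.MP_6268b4_co

variable {G Ω : Type*} [Group G] [MulAction G Ω] [Finite G] [Finite Ω] [FaithfulSMul G Ω]
  {v w : Ω} {t c a b : G}

/-- the four-group generated by two commuting involutions -/
def rbasicb_V {G : Type*} [Group G] {b c : G} (hb : b * b = 1) (hc : c * c = 1)
    (hcb : c * b = b * c) : Subgroup G where
  carrier := {1, b, c, b * c}
  one_mem' := by simp
  mul_mem' := by
    have h1 : ∀ x : G, b * (b * x) = x := fun x => by rw [← mul_assoc, hb, one_mul]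
    have h2 : ∀ x : G, c * (b * x) = b * (c * x) := fun x => by
      rw [← mul_assoc, hcb, mul_assoc]
    have h3 : ∀ x : G, c * (c * x) = x := fun x => by rw [← mul_assoc, hc, one_mul]
    intro x y hx hy
    simp only [Set.mem_insert_iff, Set.mem_singleton_iff] at hx hy ⊢
    rcases hx with rfl | rfl | rfl | rfl <;> rcases hy with rfl | rfl | rfl | rfl <;>
      simp [mul_assoc, hb, hc, hcb, h1, h2, h3]
  inv_mem' := by
    have hb' : b⁻¹ = b := inv_eq_of_mul_eq_one_left hb
    have hc' : c⁻¹ = c := inv_eq_of_mul_eq_one_left hc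
    intro x hx
    simp only [Set.mem_insert_iff, Set.mem_singleton_iff] at hx ⊢
    rcases hx with rfl | rfl | rfl | rfl
    · simp
    · simp [hb']
    · simp [hc']
    · right; right; right
      rw [mul_inv_rev, hb', hc', hcb]

theorem rbasicb_V_card {G : Type*} [Group G] {b c : G} (hb : b * b = 1) (hc : c * c = 1)
    (hcb : c * b = b * c) (hb1 : b ≠ 1) (hc1 : c ≠ 1) (hbc : b ≠ c) :
    Nat.card (rbasicb_V hb hc hcb) = 4 := by
  classical
  change Nat.card ({1, b, c, b * c} : Set G) = 4
  have h1 : (1 : G) ≠ b * c := by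
    intro h
    apply hbc
    have h2 : b * b = b * c := by rw [hb, h]
    exact mul_left_cancel h2
  have h2 : b ≠ b * c := by
    intro h
    apply hc1
    have h3 : b * 1 = b * c := by rw [mul_one]; exact h
    exact (mul_left_cancel h3).symm
  have h3 : c ≠ b * c := by
    intro h
    apply hb1
    have h4 : 1 * c = b * c := by rw [one_mul]; exact h
    exact (mul_right_cancel h4).symm
  have h5 : ({1, b, c, b * c} : Set G) = (({1, b, c, b * c} : Finset G) : Set G) := by
    push_cast
    rfl
  rw [h5, Nat.card_coe_set_eq, Set.ncard_coe_finset]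
  rw [Finset.card_insert_of_notMem, Finset.card_insert_of_notMem, Finset.card_insert_of_notMem,
    Finset.card_singleton]
  · simpa using h3
  · simp only [Finset.mem_insert, Finset.mem_singleton, not_or]
    exact ⟨hbc, h2⟩
  · simp only [Finset.mem_insert, Finset.mem_singleton, not_or]
    exact ⟨hb1.symm, hc1.symm, h1⟩

/-- Job RBasic-2. Orders: `Nat.card G = n (n - 1) 2 s`, and `n` is odd.

Proof. Orbit-stabilizer for the action on ordered pairs of distinct points (or twice on points):
`Nat.card G = n * Nat.card (stabilizer v)`, `Nat.card (stabilizer v) = (n - 1) * Nat.card H`, where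
`H` = pointwise stabilizer of `v, w` `= closure {a, b}` (`stab2`; `a, b` fix `v, w`), of order
`2 s` by `dih_card`. `b` and `c` are commuting involutions fixing `v`, `b ≠ c` (`b w = w ≠ c w`),
`c ≠ 1`: `{1, b, c, b c}` is a subgroup of order 4 of the stabilizer of `v`, so
`4 ∣ (n - 1) * 2 * s` and `n - 1` is even because `s` is odd. -/
theorem R_card (h : RHyp v w t c a b) (hn : 4 ≤ Nat.card Ω) :
    Nat.card G = Nat.card Ω * (Nat.card Ω - 1) * (2 * orderOf (a * b)) ∧ Odd (Nat.card Ω) := by
  classical
  obtain ⟨ha1, hb1, hcw, hs3⟩ := R_basic h hn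
  set H : Subgroup G := Subgroup.closure {a, b} with hH
  set K : Subgroup G := MulAction.stabilizer G v with hK
  have hHcard : Nat.card H = 2 * orderOf (a * b) := dih_card h.aa h.bb hb1 h.odd
  have hHv : ∀ g ∈ H, g • v = v := by
    intro g hg
    have : H ≤ MulAction.stabilizer G v := by
      rw [hH, Subgroup.closure_le]
      intro x hx
      simp only [Set.mem_insert_iff, Set.mem_singleton_iff] at hx
      rcases hx with rfl | rfl
      · exact h.av
      · exact h.bv
    exact this hg
  have hHw : ∀ g ∈ H, g • w = w := by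
    intro g hg
    have : H ≤ MulAction.stabilizer G w := by
      rw [hH, Subgroup.closure_le]
      intro x hx
      simp only [Set.mem_insert_iff, Set.mem_singleton_iff] at hx
      rcases hx with rfl | rfl
      · exact h.aw
      · exact h.bw
    exact this hg
  have hHK : H ≤ K := fun g hg => hHv g hg
  -- the index of the stabilizer of a point
  have hKi : K.index = Nat.card Ω := by
    rw [hK, MulAction.index_stabilizer]
    have : MulAction.orbit G v = Set.univ := by
      rw [Set.eq_univ_iff_forall]
      intro x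
      by_cases hx : x = v
      · rw [hx]
        exact MulAction.mem_orbit_self v
      · obtain ⟨g, hg, _⟩ := h.two v x x v (Ne.symm hx) hx
        exact ⟨g, hg⟩
    rw [this, Set.ncard_univ]
  -- the relative index of the stabilizer of two points
  have hrel : H.relIndex K = Nat.card Ω - 1 := by
    have h1 : H.subgroupOf K = MulAction.stabilizer K w := by
      ext ⟨g, hg⟩
      rw [Subgroup.mem_subgroupOf, MulAction.mem_stabilizer_iff]
      constructor
      · intro hg'
        exact hHw g hg'
      · intro hg'
        exact h.stab2 g hg hg'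
    rw [Subgroup.relIndex, h1, MulAction.index_stabilizer]
    have h2 : MulAction.orbit K w = {v}ᶜ := by
      ext x
      simp only [Set.mem_compl_iff, Set.mem_singleton_iff]
      constructor
      · rintro ⟨⟨g, hg⟩, hgx⟩ hx
        have hgx' : g • w = x := hgx
        have hgv : g • v = v := hg
        rw [hx, ← hgv] at hgx'
        exact h.vw (smul_left_cancel g hgx').symm
      · intro hx
        obtain ⟨g, hg, hg'⟩ := h.two v w v x h.vw (Ne.symm hx)
        exact ⟨⟨g, hg⟩, hg'⟩
    rw [h2, Set.ncard_compl, Set.ncard_singleton]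
  have hidx : (Nat.card Ω - 1) * Nat.card Ω = H.index := by
    rw [← hrel, ← hKi]
    exact Subgroup.relIndex_mul_index hHK
  have hcard : Nat.card G = Nat.card Ω * (Nat.card Ω - 1) * (2 * orderOf (a * b)) := by
    rw [← Subgroup.index_mul_card H, ← hidx, hHcard]
    ring
  refine ⟨hcard, ?_⟩
  have hKcard : Nat.card K = (Nat.card Ω - 1) * (2 * orderOf (a * b)) := by
    have h1 := Subgroup.index_mul_card K
    rw [hKi, hcard, mul_assoc] at h1
    exact Nat.eq_of_mul_eq_mul_left (by omega) h1
  have hbc : b ≠ c := by
    intro hbc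
    apply hcw
    rw [← hbc]
    exact h.bw
  have hc1 : c ≠ 1 := by
    intro hc1
    apply hcw
    rw [hc1, one_smul]
  have hVK : rbasicb_V h.bb h.cc h.cb ≤ K := by
    intro x hx
    change x ∈ ({1, b, c, b * c} : Set G) at hx
    simp only [Set.mem_insert_iff, Set.mem_singleton_iff] at hx
    change x • v = v
    rcases hx with rfl | rfl | rfl | rfl
    · exact one_smul G v
    · exact h.bv
    · exact h.cv
    · rw [mul_smul, h.cv, h.bv]
  have h4 : 4 ∣ (Nat.card Ω - 1) * (2 * orderOf (a * b)) := by
    have h5 := Subgroup.card_dvd_of_le hVK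
    rwa [rbasicb_V_card h.bb h.cc h.cb hb1 hc1 hbc, hKcard] at h5
  obtain ⟨k, hk⟩ := h.odd
  obtain ⟨m, hm⟩ := h4
  rw [hk] at hm
  have h6 : 2 ∣ Nat.card Ω - 1 := by
    have h7 : (Nat.card Ω - 1) * (2 * k + 1) = 2 * m := by
      have h8 : 2 * ((Nat.card Ω - 1) * (2 * k + 1)) = 2 * (2 * m) := by
        calc 2 * ((Nat.card Ω - 1) * (2 * k + 1)) = (Nat.card Ω - 1) * (2 * (2 * k + 1)) := by ring
          _ = 4 * m := hm
          _ = 2 * (2 * m) := by ring
      omega
    have h9 : 2 ∣ (Nat.card Ω - 1) * (2 * k + 1) := ⟨m, h7⟩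
    rcases (Nat.prime_two.dvd_mul).1 h9 with h10 | h10
    · exact h10
    · omega
  rw [Nat.odd_iff]
  omega

end Pool.Agent.H.MP_6268b4_co
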