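import Pool.Agent.H.MP_6268b4_co.GDefs
import Pool.Agent.H.MP_6268b4_co.RDih

/-!
First consequences of the hypotheses in the regular case.
-/

namespace Pool.Agent.H.MP_6268b4_co

variable {G Ω : Type*} [Group G] [MulAction G Ω] [Finite G] [Finite Ω] [FaithfulSMul G Ω]
  {v w : Ω} {t c a b : G}

omit [Finite G] [Finite Ω] [FaithfulSMul G Ω] in
theorem rbasicc_conj_fix {g z : G} {x x' : Ω} (hx : z • x = x) (hg : g • x = x') :
    (g * z * g⁻¹) • x' = x' := by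
  rw [← hg, mul_smul, mul_smul, inv_smul_smul, hx]

omit [Finite G] [Finite Ω] [FaithfulSMul G Ω] in
theorem rbasicc_refl (h : RHyp v w t c a b) {g z : G} (hz : z * z = 1) (hz1 : z ≠ 1)
    (hv : (g * z * g⁻¹) • v = v) (hw : (g * z * g⁻¹) • w = w) :
    ∃ k ∈ Subgroup.zpowers (a * b), g * z * g⁻¹ = k * b * k⁻¹ := by
  refine dih_refl h.aa h.bb h.odd (h.stab2 _ hv hw) ?_ ?_
  · calc g * z * g⁻¹ * (g * z * g⁻¹) = g * (z * z) * g⁻¹ := by group
      _ = 1 := by rw [hz]; group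
  · intro h1
    apply hz1
    calc z = g⁻¹ * (g * z * g⁻¹) * g := by group
      _ = 1 := by rw [h1]; group

omit [Finite G] [Finite Ω] [FaithfulSMul G Ω] in
theorem rbasicc_stab (h : RHyp v w t c a b) {k : G} (hk : k ∈ Subgroup.zpowers (a * b)) :
    k • v = v ∧ k • w = w := by
  have h1 : Subgroup.zpowers (a * b) ≤ MulAction.stabilizer G v := by
    rw [Subgroup.zpowers_le, MulAction.mem_stabilizer_iff, mul_smul, h.bv, h.av]
  have h2 : Subgroup.zpowers (a * b) ≤ MulAction.stabilizer G w := by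
    rw [Subgroup.zpowers_le, MulAction.mem_stabilizer_iff, mul_smul, h.bw, h.aw]
  exact ⟨h1 hk, h2 hk⟩

omit [Finite G] [Finite Ω] [FaithfulSMul G Ω] in
theorem rbasicc_ex (h : RHyp v w t c a b) (hb1 : b ≠ 1) {x y x' y' : Ω} (hxy : x ≠ y)
    (hxy' : x' ≠ y') (hx : b • x = x) (hy : b • y = y) (hx' : b • x' = x') (hy' : b • y' = y') :
    ∃ g : G, g * b = b * g ∧ g • x = x' ∧ g • y = y' := by
  obtain ⟨g, hgx, hgy⟩ := h.two x y x' y' hxy hxy'
  obtain ⟨k, hkx, hky⟩ := h.two x' y' v w hxy' h.vw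
  obtain ⟨k1, hk1, e1⟩ := rbasicc_refl h h.bb hb1 (g := k * g)
    (rbasicc_conj_fix hx (by rw [mul_smul, hgx, hkx]))
    (rbasicc_conj_fix hy (by rw [mul_smul, hgy, hky]))
  obtain ⟨k2, hk2, e2⟩ := rbasicc_refl h h.bb hb1 (g := k) (rbasicc_conj_fix hx' hkx)
    (rbasicc_conj_fix hy' hky)
  have hl : k2 * k1⁻¹ ∈ Subgroup.zpowers (a * b) := mul_mem hk2 (inv_mem hk1)
  obtain ⟨l1, l2⟩ := rbasicc_stab h hl
  have hkx' : k⁻¹ • v = x' := by rw [← hkx, inv_smul_smul]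
  have hky' : k⁻¹ • w = y' := by rw [← hky, inv_smul_smul]
  refine ⟨k⁻¹ * (k2 * k1⁻¹) * (k * g), ?_, ?_, ?_⟩
  · have e3 : k⁻¹ * (k2 * k1⁻¹) * (k * g) * b * (k⁻¹ * (k2 * k1⁻¹) * (k * g))⁻¹ = b := by
      calc k⁻¹ * (k2 * k1⁻¹) * (k * g) * b * (k⁻¹ * (k2 * k1⁻¹) * (k * g))⁻¹
          = k⁻¹ * (k2 * k1⁻¹) * (k * g * b * (k * g)⁻¹) * (k2 * k1⁻¹)⁻¹ * k := by group
        _ = k⁻¹ * (k2 * b * k2⁻¹) * k := by rw [e1]; group
        _ = b := by rw [← e2]; group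
    exact mul_inv_eq_iff_eq_mul.1 e3
  · rw [mul_smul, mul_smul, mul_smul k g, hgx, hkx, l1, hkx']
  · rw [mul_smul, mul_smul, mul_smul k g, hgy, hky, l2, hky']

/-- Job RBasic-3. An involution with two fixed points is conjugate to `b`.

Proof. Let `z` fix `x ≠ y`; take `g` with `g x = v`, `g y = w`. `g z g⁻¹` fixes `v` and `w`, so it
is in `closure {a, b}` (`stab2`), its square is `1` and it is `≠ 1`; by `dih_refl` it is conjugate
to `b`. -/
theorem R_conj (h : RHyp v w t c a b) {z : G} (hz : z * z = 1) (hz1 : z ≠ 1) {x y : Ω}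
    (hxy : x ≠ y) (hx : z • x = x) (hy : z • y = y) : IsConj z b := by
  obtain ⟨g, hgx, hgy⟩ := h.two x y v w hxy h.vw
  obtain ⟨k, -, hk⟩ := rbasicc_refl h hz hz1 (g := g) (rbasicc_conj_fix hx hgx)
    (rbasicc_conj_fix hy hgy)
  rw [isConj_iff]
  refine ⟨k⁻¹ * g, ?_⟩
  calc k⁻¹ * g * z * (k⁻¹ * g)⁻¹ = k⁻¹ * (g * z * g⁻¹) * k := by group
    _ = b := by rw [hk]; group

/-- Job RBasic-4. The elements commuting with `b` act 2-transitively on the fixed points of `b`,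
uniquely up to `b`.

Proof. Existence: let `x ≠ y` and `x' ≠ y'` be fixed by `b`; take `g` with `g x = x'`, `g y = y'`
and `k` with `k x' = v`, `k y' = w`. The elements `k (g b g⁻¹) k⁻¹` and `k b k⁻¹` fix `v` and `w`,
have square `1` and are `≠ 1`, so by `stab2` and `dih_refl` both are conjugate to `b` by elements
of `closure {a, b}`; so there is `l ∈ closure {a,b}` (fixing `v, w`) with
`l (k g b g⁻¹ k⁻¹) l⁻¹ = k b k⁻¹`. Put `g' = k⁻¹ l k g`: it maps `x ↦ x'`, `y ↦ y'` and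
`g' b g'⁻¹ = b`. Uniqueness up to `b`: if `g, g'` both commute with `b` and agree on `x ≠ y` (fixed
by `b`) then `g⁻¹ g'` commutes with `b` and fixes `x, y`; conjugate `(x, y)` to `(v, w)` by an
element `g''` commuting with `b` (existence part), so that `g'' g⁻¹ g' g''⁻¹` is in
`closure {a, b}` and commutes with `b`; by `dih_cent` it is `1` or `b`. -/
theorem R_centralizer (h : RHyp v w t c a b) (hb1 : b ≠ 1) {x y x' y' : Ω} (hxy : x ≠ y)
    (hxy' : x' ≠ y') (hx : b • x = x) (hy : b • y = y) (hx' : b • x' = x') (hy' : b • y' = y') :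
    (∃ g : G, g * b = b * g ∧ g • x = x' ∧ g • y = y') ∧
    (∀ g g' : G, g * b = b * g → g' * b = b * g' → g • x = g' • x → g • y = g' • y →
      g' = g ∨ g' = g * b) := by
  refine ⟨rbasicc_ex h hb1 hxy hxy' hx hy hx' hy', ?_⟩
  intro g g' hg hg' e1 e2
  obtain ⟨k, hk, hkx, hky⟩ := rbasicc_ex h hb1 hxy h.vw hx hy h.bv h.bw
  have c1 : (g⁻¹ * g') * b = b * (g⁻¹ * g') := by
    have c0 : g⁻¹ * b = b * g⁻¹ := by
      rw [inv_mul_eq_iff_eq_mul, ← mul_assoc, hg, mul_assoc, mul_inv_cancel, mul_one]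
    rw [mul_assoc, hg', ← mul_assoc, c0, mul_assoc]
  have f1 : (g⁻¹ * g') • x = x := by rw [mul_smul, ← e1, inv_smul_smul]
  have f2 : (g⁻¹ * g') • y = y := by rw [mul_smul, ← e2, inv_smul_smul]
  have m1 : k * (g⁻¹ * g') * k⁻¹ ∈ Subgroup.closure ({a, b} : Set G) :=
    h.stab2 _ (rbasicc_conj_fix f1 hkx) (rbasicc_conj_fix f2 hky)
  have ck : k⁻¹ * b = b * k⁻¹ := by
    rw [inv_mul_eq_iff_eq_mul, ← mul_assoc, hk, mul_assoc, mul_inv_cancel, mul_one]
  have m2 : k * (g⁻¹ * g') * k⁻¹ * b = b * (k * (g⁻¹ * g') * k⁻¹) := by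
    rw [mul_assoc, ck, ← mul_assoc, mul_assoc k, c1, ← mul_assoc, hk]
    simp only [mul_assoc]
  rcases dih_cent h.aa h.bb h.odd m1 m2 with h1 | h1
  · left
    have h3 : g' = g * (k⁻¹ * (k * (g⁻¹ * g') * k⁻¹) * k) := by group
    rw [h1] at h3
    rw [h3]
    group
  · right
    have h3 : g' = g * (k⁻¹ * (k * (g⁻¹ * g') * k⁻¹) * k) := by group
    rw [h1, ck, mul_assoc, inv_mul_cancel, mul_one] at h3
    exact h3

end Pool.Agent.H.MP_6268b4_co
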