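import Mathlib

/-!
Groups of order `2 m` with `m` odd.
-/

namespace Pool.Agent.H.MP_6268b4_co

/-- the sign of the left multiplication by an involution -/
private theorem rtwoma_sign {C : Type*} [Group C] [Fintype C] [DecidableEq C] (m : ℕ) (hm : Odd m)
    (hc : Fintype.card C = 2 * m) (t : C) (ht : orderOf t = 2) :
    Equiv.Perm.sign (MulAction.toPermHom C C t) = -1 := by
  have ht1 : t ≠ 1 := by
    intro h
    rw [h, orderOf_one] at ht
    omega
  have ho : orderOf (MulAction.toPermHom C C t) = 2 := by
    rw [← ht]
    refine orderOf_injective _ ?_ t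
    exact MulAction.toPerm_injective
  obtain ⟨n, hn⟩ := Equiv.Perm.cycleType_prime_order
    (σ := MulAction.toPermHom C C t) (by rw [ho]; exact Nat.prime_two)
  rw [ho] at hn
  have hsupp : (MulAction.toPermHom C C t).support = Finset.univ := by
    ext x
    rw [Equiv.Perm.mem_support]
    simp only [Finset.mem_univ, iff_true]
    intro h
    have h2 : t * x = x := h
    exact ht1 (mul_eq_right.1 h2)
  have hsum := Equiv.Perm.sum_cycleType (MulAction.toPermHom C C t)
  rw [hsupp, Finset.card_univ, hc, hn, Multiset.sum_replicate, smul_eq_mul] at hsum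
  have hnm : n + 1 = m := by omega
  rw [Equiv.Perm.sign_of_cycleType, hn, hnm, Multiset.sum_replicate, Multiset.card_replicate,
    smul_eq_mul, show m * 2 + m = 2 * m + m by ring, pow_add, pow_mul, neg_one_sq, one_pow,
    one_mul, hm.neg_one_pow]

/-- Job RTwoM. In a group of order `2 m`, `m` odd, the elements of odd order form a subgroup of
order `m`.

Proof. Let `φ : C → ℤˣ` be the sign of the left regular representation
(`Equiv.Perm.sign.comp (MulAction.toPermHom C C)`). By Cauchy there is `t` of order `2`; left
multiplication by `t` is a fixed-point-free involution of a set with `2 m` elements, i.e. a product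
of `m` disjoint transpositions, and its sign is `(-1) ^ m = -1`
(`Equiv.Perm.sign_of_cycleType`, cycle type `replicate m 2`; or use `Equiv.Perm.IsCycleType...`).
So `φ` is surjective and `O = φ.ker` has index `2` and order `m`. An element of `O` has order
dividing `m`, which is odd. Conversely if `orderOf g` is odd then `φ g ^ odd = 1` and
`φ g = ±1` gives `φ g = 1`. (Alternatively use Burnside transfer,
`MonoidHom.ker_transferSylow_isComplement'`, for a Sylow 2-subgroup, which has order 2.) -/
theorem exists_odd_subgroup (C : Type*) [Group C] [Finite C] (m : ℕ) (hm : Odd m)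
    (hc : Nat.card C = 2 * m) :
    ∃ O : Subgroup C, Nat.card O = m ∧ ∀ g : C, g ∈ O ↔ Odd (orderOf g) := by
  classical
  have _i : Fintype C := Fintype.ofFinite C
  have hcF : Fintype.card C = 2 * m := by rw [← hc, Nat.card_eq_fintype_card]
  obtain ⟨t, ht⟩ := exists_prime_orderOf_dvd_card' (G := C) 2 (by rw [hc]; exact Dvd.intro m rfl)
  have hs := rtwoma_sign m hm hcF t ht
  let φ : C →* ℤˣ := Equiv.Perm.sign.comp (MulAction.toPermHom C C)
  have hφt : φ t = -1 := hs
  have hmpos : 0 < m := hm.pos
  have hrange : φ.range = ⊤ := by
    rw [eq_top_iff]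
    intro u _
    rcases Int.units_eq_one_or u with h | h
    · exact ⟨1, by rw [map_one, h]⟩
    · exact ⟨t, by rw [hφt, h]⟩
  have hindex : φ.ker.index = 2 := by
    rw [Subgroup.index_ker, hrange, Subgroup.card_top]
    rw [Nat.card_eq_fintype_card]
    rfl
  have hcard : Nat.card φ.ker = m := by
    have h := Subgroup.card_mul_index φ.ker
    rw [hindex, hc] at h
    omega
  refine ⟨φ.ker, hcard, ?_⟩
  intro g
  constructor
  · intro hg
    have h1 : orderOf g ∣ m := by
      rw [← hcard]
      exact Subgroup.orderOf_dvd_natCard φ.ker hg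
    exact Odd.of_dvd_nat hm h1
  · intro hg
    rw [MonoidHom.mem_ker]
    have h1 : φ g ^ orderOf g = 1 := by
      rw [← map_pow, pow_orderOf_eq_one, map_one]
    rcases Int.units_eq_one_or (φ g) with h | h
    · exact h
    · rw [h, hg.neg_one_pow] at h1
      exact absurd h1 (by decide)

end Pool.Agent.H.MP_6268b4_co
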