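import Mathlib

/-!
Groups of order `2 m` with `m` odd.
-/

namespace Pool.Agent.H.MP_6268b4_co

/-- Job RTwoM (second part). If a finite group `C` contains an involution `t` and every element of
`C` commuting with `t` lies in a subgroup `E` whose order is `2 r`, `r` odd, then
`Nat.card C = 2 m` with `m` odd.

Proof. `2 ∣ Nat.card C` as `t` has order 2. Suppose `4 ∣ Nat.card C`. By
`Sylow.exists_subgroup_card_pow_succ` (p = 2, n = 1, H = zpowers t of order `2 ^ 1`) there is a
subgroup `K` of order `4` containing `t`. A group of order `p ^ 2` is commutative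
(`IsPGroup.commutative_of_card_eq_prime_sq` or similar), so all elements of `K` commute with `t`
and `K ≤ E`; hence `4 ∣ 2 r`, contradicting `r` odd. -/
theorem card_two_mul_odd {C : Type*} [Group C] [Finite C] (t : C) (ht : t * t = 1) (ht1 : t ≠ 1)
    (E : Subgroup C) (r : ℕ) (hr : Odd r) (hE : Nat.card E = 2 * r)
    (hcent : ∀ g : C, g * t = t * g → g ∈ E) : ∃ m : ℕ, Odd m ∧ Nat.card C = 2 * m := by
  have ho : orderOf t = 2 := orderOf_eq_prime (by rw [pow_two]; exact ht) ht1
  have h2 : 2 ∣ Nat.card C := by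
    rw [← ho]
    exact orderOf_dvd_natCard t
  obtain ⟨m, hm⟩ := h2
  refine ⟨m, ?_, hm⟩
  by_contra hodd
  rw [Nat.not_odd_iff_even] at hodd
  obtain ⟨k, hk⟩ := hodd
  have h4 : 2 ^ (1 + 1) ∣ Nat.card C := ⟨k, by rw [hm, hk]; ring⟩
  have hz : Nat.card (Subgroup.zpowers t) = 2 ^ 1 := by
    rw [Nat.card_zpowers, ho, pow_one]
  obtain ⟨K, hK, htK⟩ := Sylow.exists_subgroup_card_pow_succ h4 hz
  have hcomm := IsPGroup.commutative_of_card_eq_prime_sq (p := 2) (G := K) hK
  have htmem : t ∈ K := htK (Subgroup.mem_zpowers t)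
  have hle : K ≤ E := by
    intro g hg
    refine hcent g ?_
    have h := hcomm ⟨g, hg⟩ ⟨t, htmem⟩
    exact congrArg Subtype.val h
  have hdvd := Subgroup.card_dvd_of_le hle
  rw [hK, hE] at hdvd
  obtain ⟨s, hs⟩ := hr
  omega

end Pool.Agent.H.MP_6268b4_co
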