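import Pool.Agent.H.MP_6268b4_co.RCaseB3
import Pool.Agent.H.MP_6268b4_co.RTwoMA
import Pool.Agent.H.MP_6268b4_co.RTwoMB

/-!
Regular case: analysis of the element `x = a b`.
-/

namespace Pool.Agent.H.MP_6268b4_co

variable {G Ω : Type*} [Group G] [MulAction G Ω] [Finite G] [Finite Ω] [FaithfulSMul G Ω]
  {v w : Ω} {t c a b : G}

/-- An element of prime order acting without fixed points on a finite set: its order divides the
number of points. -/
theorem rcasea1_dvd {Δ : Type*} [Finite Δ] (f : Δ → Δ) (p : ℕ) (hp : p.Prime)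
    (hf : ∀ x, f^[p] x = x) (hfix : ∀ x, f x ≠ x) : p ∣ Nat.card Δ := by
  classical
  have := Fintype.ofFinite Δ
  have : Fact p.Prime := ⟨hp⟩
  have hpow : ∀ n : ℕ, (show Function.End Δ from f) ^ n = (show Function.End Δ from f^[n]) := by
    intro n
    induction n with
    | zero => rfl
    | succ n ih =>
      rw [pow_succ, ih]
      rfl
  have h1 : (show Function.End Δ from f) ^ p ^ 1 = 1 := by
    rw [pow_one, hpow]
    funext x
    exact hf x
  have h2 := Equiv.Perm.card_fixedPoints_modEq (p := p) (n := 1) h1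
  have h4 : Fintype.card Δ ≡ 0 [MOD p] := by
    refine h2.trans ?_
    have h5 : Fintype.card ((show Function.End Δ from f).fixedPoints) = 0 := by
      rw [Fintype.card_eq_zero_iff]
      exact ⟨fun y => hfix y.1 y.2⟩
    rw [h5]
  rw [Nat.card_eq_fintype_card]
  exact (Nat.modEq_zero_iff_dvd).1 h4

/-- Job RCaseA-1. Let `x = a b`. Its order is prime, `t` and `x` have no common fixed point,
`Nat.card (centralizer {x}) = 2 m` with `m` odd and `r ≤ m`, where `r` is the number of fixed
points of `b` (or of `t`), and `orderOf x ∣ r`. -/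
theorem R_caseA1 (h : RHyp v w t c a b) (hn : 4 ≤ Nat.card Ω) :
    (orderOf (a * b)).Prime ∧ (∀ y : Ω, t • y = y → (a * b) • y ≠ y) ∧
    orderOf (a * b) ∣ Nat.card {x : Ω // b • x = x} ∧
    ∃ m : ℕ, Odd m ∧ Nat.card (Subgroup.centralizer ({a * b} : Set G)) = 2 * m ∧
      Nat.card {x : Ω // b • x = x} ≤ m := by
  obtain ⟨ha1, hb1, -, hs⟩ := R_basic h hn
  obtain ⟨hcard, E, hEt, htE, hEcard, hEpq, hEx⟩ := R_E_conj h hn (R_caseB h hn)
  have hat : a ≠ t := by
    intro e
    have := h.tv
    rw [← e, h.av] at this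
    exact h.vw this
  have hbt : b ≠ t := by
    intro e
    have := h.tv
    rw [← e, h.bv] at this
    exact h.vw this
  have hxE : a * b ∈ E := hEpq a b h.ta.symm h.tb.symm h.aa h.bb ha1 hat hb1 hbt
  have hx1 : a * b ≠ 1 := by
    intro e
    rw [e, orderOf_one] at hs
    omega
  obtain ⟨hprime, hfix, hcent, hcomm⟩ := hEx _ hxE h.odd hx1
  have htx : t * (a * b) = a * b * t := by
    rw [← mul_assoc, h.ta, mul_assoc, h.tb, mul_assoc]
  have ht1 : t ≠ 1 := by
    intro e
    have := h.tv
    rw [e, one_smul] at this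
    exact h.vw this
  refine ⟨hprime, hfix, ?_, ?_⟩
  · rw [← hcard]
    have hmem : ∀ y : Ω, t • y = y → t • ((a * b) • y) = (a * b) • y := by
      intro y hy
      rw [smul_smul, htx, ← smul_smul, hy]
    refine rcasea1_dvd (Δ := {y : Ω // t • y = y}) (fun y => ⟨(a * b) • y.1, hmem y.1 y.2⟩)
      _ hprime ?_ ?_
    · intro y
      have hit : ∀ n : ℕ, ((fun y : {y : Ω // t • y = y} =>
          (⟨(a * b) • y.1, hmem y.1 y.2⟩ : {y : Ω // t • y = y}))^[n] y).1 =
          (a * b) ^ n • y.1 := by
        intro n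
        induction n with
        | zero => simp
        | succ n ih =>
          rw [Function.iterate_succ_apply']
          show (a * b) • _ = _
          rw [ih, smul_smul, ← pow_succ']
      apply Subtype.ext
      rw [hit, pow_orderOf_eq_one, one_smul]
    · intro y hy
      exact hfix y.1 y.2 (congrArg Subtype.val hy)
  · have hEC : E ≤ Subgroup.centralizer ({a * b} : Set G) := by
      intro e he
      rw [Subgroup.mem_centralizer_singleton_iff]
      exact (hcomm e he)
    have htC : t ∈ Subgroup.centralizer ({a * b} : Set G) := hEC htE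
    have hodd := (R_pi h hn).1
    obtain ⟨m, hm, hmc⟩ := card_two_mul_odd (⟨t, htC⟩ : Subgroup.centralizer ({a * b} : Set G))
      (Subtype.ext h.tt) (fun e => ht1 (congrArg Subtype.val e))
      (E.subgroupOf (Subgroup.centralizer ({a * b} : Set G)))
      (Nat.card {x : Ω // b • x = x}) hodd
      (by rw [Nat.card_congr (Subgroup.subgroupOfEquivOfLe hEC).toEquiv, hEcard])
      (by
        intro g hg
        rw [Subgroup.mem_subgroupOf]
        exact hcent g (congrArg Subtype.val hg) ((Subgroup.mem_centralizer_singleton_iff).1 g.2))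
    refine ⟨m, hm, hmc, ?_⟩
    have h1 := Nat.le_of_dvd (by rw [hmc]; have := hm.pos; omega) (Subgroup.card_dvd_of_le hEC)
    rw [hEcard, hmc] at h1
    omega

end Pool.Agent.H.MP_6268b4_co
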