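import Pool.Agent.H.MP_6268b4_co.RCaseB3

/-!
Regular case: analysis of the element `x = a b`.
-/

namespace Pool.Agent.H.MP_6268b4_co

variable {G Ω : Type*} [Group G] [MulAction G Ω] [Finite G] [Finite Ω] [FaithfulSMul G Ω]
  {v w : Ω} {t c a b : G}

/-- Job RCaseA-2. The elements normalizing `zpowers (a b)` act transitively on ordered pairs of
distinct fixed points of `x = a b`.

Proof. Let `x' ≠ y'` be fixed by `x = a b`. Take `g` with `g v = x'`, `g w = y'`. Then
`g⁻¹ x g` fixes `v, w`, so it is in `closure {a, b}`, of odd order, so in `zpowers (a b)`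
(`dih_odd`); it has the same order as `x`, so it generates `zpowers x`; so `g` normalizes
`zpowers x`. -/
theorem R_norm_pairs (h : RHyp v w t c a b) (hn : 4 ≤ Nat.card Ω) {x' y' : Ω} (hxy : x' ≠ y')
    (hx : (a * b) • x' = x') (hy : (a * b) • y' = y') :
    ∃ g : G, g • v = x' ∧ g • w = y' ∧
      (∀ k : G, k ∈ Subgroup.zpowers (a * b) ↔ g * k * g⁻¹ ∈ Subgroup.zpowers (a * b)) := by
  obtain ⟨g, hgv, hgw⟩ := h.two v w x' y' h.vw hxy
  obtain ⟨_, hb1, _, _⟩ := R_basic h hn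
  refine ⟨g, hgv, hgw, ?_⟩
  have hconj : ∀ n : ℤ, (g⁻¹ * (a * b) * g) ^ n = g⁻¹ * (a * b) ^ n * g := by
    intro n
    have h1 := conj_zpow (i := n) (a := g⁻¹) (b := a * b)
    rw [inv_inv] at h1
    exact h1
  have hzv : (g⁻¹ * (a * b) * g) • v = v := by
    rw [mul_smul, mul_smul, hgv, hx, ← hgv, inv_smul_smul]
  have hzw : (g⁻¹ * (a * b) * g) • w = w := by
    rw [mul_smul, mul_smul, hgw, hy, ← hgw, inv_smul_smul]
  have hord : orderOf (g⁻¹ * (a * b) * g) = orderOf (a * b) := by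
    have h1 := orderOf_injective (MulAut.conj g⁻¹).toMonoidHom (MulAut.conj g⁻¹).injective (a * b)
    simpa using h1
  have hzmem : g⁻¹ * (a * b) * g ∈ Subgroup.zpowers (a * b) :=
    dih_odd h.aa h.bb hb1 h.odd (h.stab2 _ hzv hzw) (by rw [hord]; exact h.odd)
  have hle : Subgroup.zpowers (g⁻¹ * (a * b) * g) ≤ Subgroup.zpowers (a * b) :=
    Subgroup.zpowers_le.2 hzmem
  have heq : Subgroup.zpowers (g⁻¹ * (a * b) * g) = Subgroup.zpowers (a * b) := by
    apply Subgroup.eq_of_le_of_card_ge hle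
    rw [Nat.card_zpowers, Nat.card_zpowers, hord]
  intro k
  constructor
  · intro hk
    rw [← heq, Subgroup.mem_zpowers_iff] at hk
    obtain ⟨n, hn'⟩ := hk
    rw [hconj] at hn'
    rw [Subgroup.mem_zpowers_iff]
    refine ⟨n, ?_⟩
    rw [← hn']
    group
  · intro hk
    rw [Subgroup.mem_zpowers_iff] at hk
    obtain ⟨n, hn'⟩ := hk
    rw [← heq, Subgroup.mem_zpowers_iff]
    refine ⟨n, ?_⟩
    rw [hconj, hn']
    group

end Pool.Agent.H.MP_6268b4_co
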