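import Pool.Agent.H.MP_6268b4_co.RCaseA1
import Pool.Agent.H.MP_6268b4_co.RCaseA2

/-!
Regular case: analysis of the element `x = a b`.
-/

namespace Pool.Agent.H.MP_6268b4_co

variable {G Ω : Type*} [Group G] [MulAction G Ω] [Finite G] [Finite Ω] [FaithfulSMul G Ω]
  {v w : Ω} {t c a b : G}

/-- The number of fixed points of `x = a b` is even. -/
theorem rcasea3_even (h : RHyp v w t c a b) (hn : 4 ≤ Nat.card Ω) :
    2 ∣ Nat.card {y : Ω // (a * b) • y = y} := by
  obtain ⟨-, hfix, -, -⟩ := R_caseA1 h hn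
  have htx : t * (a * b) = a * b * t := by
    rw [← mul_assoc, h.ta, mul_assoc, h.tb, mul_assoc]
  have hmem : ∀ y : Ω, (a * b) • y = y → (a * b) • (t • y) = t • y := by
    intro y hy
    rw [smul_smul, ← htx, ← smul_smul, hy]
  refine rcasea1_dvd (Δ := {y : Ω // (a * b) • y = y}) (fun y => ⟨t • y.1, hmem y.1 y.2⟩)
      2 Nat.prime_two ?_ ?_
  · intro y
    apply Subtype.ext
    show t • (t • y.1) = y.1
    rw [smul_smul, h.tt, one_smul]
  · intro y hy
    exact hfix y.1 (congrArg Subtype.val hy) y.2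

theorem rcasea3_fix (h : RHyp v w t c a b) (hn : 4 ≤ Nat.card Ω) {o : G}
    (ho : o * (a * b) = a * b * o) (hodd : Odd (orderOf o)) : o • v = v := by
  by_contra hne
  obtain ⟨hprime, hfix, hdvd, m, hm, hmc, hrm⟩ := R_caseA1 h hn
  obtain ⟨O, hOcard, hO⟩ := exists_odd_subgroup _ m hm hmc
  have hxv : (a * b) • v = v := by rw [mul_smul, h.bv, h.av]
  have horb : MulAction.orbit O v = {y : Ω | (a * b) • y = y} := by
    ext y
    constructor
    · rintro ⟨u, rfl⟩
      have hu := (Subgroup.mem_centralizer_singleton_iff).1 u.1.2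
      show (a * b) • ((u.1 : G) • v) = (u.1 : G) • v
      rw [smul_smul, ← hu, ← smul_smul, hxv]
    · intro hy
      by_cases hyv : y = v
      · rw [hyv]
        exact MulAction.mem_orbit_self _
      · have hz : (a * b) • (o • v) = o • v := by
          rw [smul_smul, ← ho, ← smul_smul, hxv]
        obtain ⟨g1, h11, h12, h13⟩ := R_norm_pairs h hn (x' := v) (y' := o • v)
          (fun e => hne e.symm) hxv hz
        obtain ⟨g2, h21, h22, h23⟩ := R_norm_pairs h hn (x' := v) (y' := y)
          (fun e => hyv e.symm) hxv hy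
        have hx1 : a * b ∈ Subgroup.zpowers (a * b) := Subgroup.mem_zpowers _
        have hk2 : g2⁻¹ * (a * b) * g2 ∈ Subgroup.zpowers (a * b) := by
          rw [h23]
          have e : g2 * (g2⁻¹ * (a * b) * g2) * g2⁻¹ = a * b := by group
          rw [e]
          exact hx1
        have hk : g1 * (g2⁻¹ * (a * b) * g2) * g1⁻¹ ∈ Subgroup.zpowers (a * b) :=
          (h13 _).1 hk2
        have hcomm : ∀ k ∈ Subgroup.zpowers (a * b), o * k = k * o := by
          intro k hk
          obtain ⟨i, rfl⟩ := Subgroup.mem_zpowers_iff.1 hk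
          exact ((show Commute o (a * b) from ho).zpow_right i)
        have hgo : (g2 * g1⁻¹ * o * (g2 * g1⁻¹)⁻¹) * (a * b) =
            a * b * (g2 * g1⁻¹ * o * (g2 * g1⁻¹)⁻¹) := by
          have e1 := hcomm _ hk
          have e2 : (g2 * g1⁻¹ * o * (g2 * g1⁻¹)⁻¹) * (a * b) =
              g2 * g1⁻¹ * (o * (g1 * (g2⁻¹ * (a * b) * g2) * g1⁻¹)) * (g2 * g1⁻¹)⁻¹ := by group
          rw [e2, e1]
          group
        have hord : orderOf (g2 * g1⁻¹ * o * (g2 * g1⁻¹)⁻¹) = orderOf o := by
          have e := orderOf_injective (MulAut.conj (g2 * g1⁻¹)).toMonoidHom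
            (MulAut.conj (g2 * g1⁻¹)).injective o
          rw [← e]
          rfl
        have hmC : g2 * g1⁻¹ * o * (g2 * g1⁻¹)⁻¹ ∈ Subgroup.centralizer ({a * b} : Set G) :=
          (Subgroup.mem_centralizer_singleton_iff).2 hgo
        have hmO : (⟨_, hmC⟩ : Subgroup.centralizer ({a * b} : Set G)) ∈ O := by
          rw [hO, ← Subgroup.orderOf_coe]
          show Odd (orderOf (g2 * g1⁻¹ * o * (g2 * g1⁻¹)⁻¹))
          rw [hord]
          exact hodd
        refine ⟨⟨_, hmO⟩, ?_⟩
        show (g2 * g1⁻¹ * o * (g2 * g1⁻¹)⁻¹) • v = y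
        have e3 : (g2 * g1⁻¹)⁻¹ • v = v := by
          rw [inv_smul_eq_iff, mul_smul]
          have e4 : g1⁻¹ • v = v := by rw [inv_smul_eq_iff, h11]
          rw [e4, h21]
        have e5 : g1⁻¹ • (o • v) = w := by rw [inv_smul_eq_iff, h12]
        rw [mul_smul, e3, mul_smul, mul_smul, e5, h22]
  have h1 : Nat.card {y : Ω // (a * b) • y = y} ∣ m := by
    have e1 := (MulAction.stabilizer O v).index_dvd_card
    rw [MulAction.index_stabilizer, horb, hOcard] at e1
    exact e1
  have h2 := (rcasea3_even h hn).trans h1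
  exact (Nat.not_even_iff_odd.2 hm) (even_iff_two_dvd.2 h2)

/-- Job RCaseA-3. `Nat.card (centralizer {a b}) = 2 * orderOf (a b)`, `r = orderOf (a b)`. -/
theorem R_caseA3 (h : RHyp v w t c a b) (hn : 4 ≤ Nat.card Ω) :
    Nat.card {x : Ω // b • x = x} = orderOf (a * b) ∧
    Nat.card (Subgroup.centralizer ({a * b} : Set G)) = 2 * orderOf (a * b) := by
  obtain ⟨hprime, hfix, hdvd, m, hm, hmc, hrm⟩ := R_caseA1 h hn
  obtain ⟨O, hOcard, hO⟩ := exists_odd_subgroup _ m hm hmc
  have hr := (R_pi h hn).2.1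
  have hx1 : a * b ≠ 1 := by
    intro e
    rw [e, orderOf_one] at hprime
    exact Nat.not_prime_one hprime
  have htx : t * (a * b) = a * b * t := by
    rw [← mul_assoc, h.ta, mul_assoc, h.tb, mul_assoc]
  have hmem : ∀ u : O, (u.1 : G) ∈ Subgroup.zpowers (a * b) := by
    intro u
    have hu := (Subgroup.mem_centralizer_singleton_iff).1 u.1.2
    have hodd : Odd (orderOf (u.1 : G)) := by
      rw [Subgroup.orderOf_coe]
      exact (hO u.1).1 u.2
    have h1 := rcasea3_fix h hn hu hodd
    have hti : t⁻¹ = t := inv_eq_of_mul_eq_one_right h.tt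
    have h2 : (t * (u.1 : G) * t⁻¹) • v = v := by
      refine rcasea3_fix h hn ?_ ?_
      · have e1 : t⁻¹ * (a * b) = a * b * t⁻¹ := by rw [hti, htx]
        calc t * (u.1 : G) * t⁻¹ * (a * b) = t * (u.1 : G) * (t⁻¹ * (a * b)) := by group
          _ = t * ((u.1 : G) * (a * b)) * t⁻¹ := by rw [e1]; group
          _ = (t * (a * b)) * (u.1 : G) * t⁻¹ := by rw [hu]; group
          _ = a * b * (t * (u.1 : G) * t⁻¹) := by rw [htx]; group
      · have e := orderOf_injective (MulAut.conj t).toMonoidHom (MulAut.conj t).injective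
          (u.1 : G)
        have e2 : orderOf (t * (u.1 : G) * t⁻¹) = orderOf (u.1 : G) := by
          rw [← e]
          rfl
        rw [e2]
        exact hodd
    have h3 : (u.1 : G) • w = w := by
      rw [mul_smul, mul_smul, smul_eq_iff_eq_inv_smul, hti, h.tv] at h2
      exact h2
    exact dih_cent_x h.aa h.bb h.odd (h.stab2 _ h1 h3) (Subgroup.mem_zpowers _) hx1 hu
  have hms : m ≤ orderOf (a * b) := by
    rw [← hOcard, ← Nat.card_zpowers]
    refine Nat.card_le_card_of_injective
      (fun u : O => (⟨(u.1 : G), hmem u⟩ : Subgroup.zpowers (a * b))) ?_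
    intro u u' huu
    have e : (u.1 : G) = (u'.1 : G) := congrArg (fun z : Subgroup.zpowers (a * b) => (z : G)) huu
    exact Subtype.ext (Subtype.ext e)
  have hsr := Nat.le_of_dvd (by omega) hdvd
  constructor
  · omega
  · rw [hmc]
    omega

end Pool.Agent.H.MP_6268b4_co
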