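import Pool.Agent.H.MP_6268b4_co.RCaseA3

/-!
Regular case: analysis of the element `x = a b`.
-/

namespace Pool.Agent.H.MP_6268b4_co

variable {G Ω : Type*} [Group G] [MulAction G Ω] [Finite G] [Finite Ω] [FaithfulSMul G Ω]
  {v w : Ω} {t c a b : G}

omit [Finite G] in
/-- Elements of `closure {a, b}` normalize `zpowers (a b)`. -/
theorem rcasea4_norm (ha : a * a = 1) (hb : b * b = 1) (hb1 : b ≠ 1)
    (hodd : Odd (orderOf (a * b))) {k : G} (hk : k ∈ Subgroup.closure ({a, b} : Set G)) (z : G) :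
    z ∈ Subgroup.zpowers (a * b) ↔ k * z * k⁻¹ ∈ Subgroup.zpowers (a * b) := by
  have hx : a * b ∈ Subgroup.closure ({a, b} : Set G) :=
    mul_mem (Subgroup.subset_closure (by simp)) (Subgroup.subset_closure (by simp))
  have key : ∀ k ∈ Subgroup.closure ({a, b} : Set G), ∀ z ∈ Subgroup.zpowers (a * b),
      k * z * k⁻¹ ∈ Subgroup.zpowers (a * b) := by
    intro k hk z hz
    obtain ⟨i, rfl⟩ := Subgroup.mem_zpowers_iff.1 hz
    rw [← conj_zpow]
    refine zpow_mem ?_ i
    refine dih_odd ha hb hb1 hodd (mul_mem (mul_mem hk hx) (inv_mem hk)) ?_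
    have e := orderOf_injective (MulAut.conj k).toMonoidHom (MulAut.conj k).injective (a * b)
    have e2 : orderOf (k * (a * b) * k⁻¹) = orderOf (a * b) := by
      rw [← e]
      rfl
    rw [e2]
    exact hodd
  constructor
  · exact key k hk z
  · intro h
    have h1 := key k⁻¹ (inv_mem hk) _ h
    have e : k⁻¹ * (k * z * k⁻¹) * k⁻¹⁻¹ = z := by group
    rwa [e] at h1

/-- Job RCaseA-4. Let `f` be the number of fixed points of `x = a b`; `f (f - 1) ≤ s - 1`. -/
theorem R_caseA4 (h : RHyp v w t c a b) (hn : 4 ≤ Nat.card Ω) :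
    Nat.card {x : Ω // (a * b) • x = x} * (Nat.card {x : Ω // (a * b) • x = x} - 1) ≤
      orderOf (a * b) - 1 := by
  classical
  obtain ⟨ha1, hb1, -, hs⟩ := R_basic h hn
  obtain ⟨-, hC⟩ := R_caseA3 h hn
  have hx1 : a * b ≠ 1 := by
    intro e
    rw [e, orderOf_one] at hs
    omega
  have := Fintype.ofFinite {x : Ω // (a * b) • x = x}
  obtain ⟨Z, hZ⟩ : ∃ Z, Z = Subgroup.zpowers (a * b) := ⟨_, rfl⟩
  have hxZ : a * b ∈ Z := by rw [hZ]; exact Subgroup.mem_zpowers _
  have hpair := fun (p : (Finset.univ : Finset {x : Ω // (a * b) • x = x}).offDiag) =>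
    R_norm_pairs h hn (x' := p.1.1.1) (y' := p.1.2.1)
      (fun e => (Finset.mem_offDiag.1 p.2).2.2 (Subtype.ext e)) p.1.1.2 p.1.2.2
  choose g hg1 hg2 hg3 using hpair
  -- step 1
  have hN1 : Nat.card ((Finset.univ : Finset {x : Ω // (a * b) • x = x}).offDiag ×
      Subgroup.closure ({a, b} : Set G)) ≤
      Nat.card {g : G // ∀ k, k ∈ Z ↔ g * k * g⁻¹ ∈ Z} := by
    refine Nat.card_le_card_of_injective (fun q => (⟨g q.1 * (q.2 : G), ?_⟩ :
      {g : G // ∀ k, k ∈ Z ↔ g * k * g⁻¹ ∈ Z})) ?_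
    · intro k
      have e1 := rcasea4_norm h.aa h.bb hb1 h.odd q.2.2 k
      have e2 := hg3 q.1 ((q.2 : G) * k * (q.2 : G)⁻¹)
      have e3 : g q.1 * (q.2 : G) * k * (g q.1 * (q.2 : G))⁻¹ =
          g q.1 * ((q.2 : G) * k * (q.2 : G)⁻¹) * (g q.1)⁻¹ := by group
      rw [hZ, e3, ← e2, ← e1]
    · have hfix : ∀ k ∈ Subgroup.closure ({a, b} : Set G), k • v = v ∧ k • w = w := by
        intro k hk
        have h1 : Subgroup.closure ({a, b} : Set G) ≤ MulAction.stabilizer G v ⊓
            MulAction.stabilizer G w := by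
          rw [Subgroup.closure_le]
          rintro z (rfl | rfl)
          · exact ⟨h.av, h.aw⟩
          · exact ⟨h.bv, h.bw⟩
        exact h1 hk
      intro q q' hqq
      have e : g q.1 * (q.2 : G) = g q'.1 * (q'.2 : G) := congrArg Subtype.val hqq
      have e1 : q.1.1.1.1 = q'.1.1.1.1 := by
        have := congrArg (fun z : G => z • v) e
        simp only [mul_smul, (hfix _ q.2.2).1, (hfix _ q'.2.2).1, hg1] at this
        exact this
      have e2 : q.1.1.2.1 = q'.1.1.2.1 := by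
        have := congrArg (fun z : G => z • w) e
        simp only [mul_smul, (hfix _ q.2.2).2, (hfix _ q'.2.2).2, hg2] at this
        exact this
      have e3 : q.1 = q'.1 :=
        Subtype.ext (Prod.ext (Subtype.ext e1) (Subtype.ext e2))
      have e4 : q.2 = q'.2 := by
        rw [e3] at e
        exact Subtype.ext (mul_left_cancel e)
      exact Prod.ext e3 e4
  -- step 2
  have hN2 : Nat.card {g : G // ∀ k, k ∈ Z ↔ g * k * g⁻¹ ∈ Z} ≤
      Nat.card (((Z : Set G) \ {1} : Set G) × Subgroup.centralizer ({a * b} : Set G)) := by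
    obtain ⟨r, hr⟩ : ∃ r : G → G, ∀ κ, (∃ g, g * (a * b) * g⁻¹ = κ) →
        r κ * (a * b) * (r κ)⁻¹ = κ := by
      refine ⟨fun κ => if hκ : ∃ g, g * (a * b) * g⁻¹ = κ then hκ.choose else 1, ?_⟩
      intro κ hκ
      simp only [dif_pos hκ]
      exact hκ.choose_spec
    refine Nat.card_le_card_of_injective (fun g =>
      ((⟨g.1 * (a * b) * g.1⁻¹, ⟨(g.2 _).1 hxZ, ?_⟩⟩, ⟨(r (g.1 * (a * b) * g.1⁻¹))⁻¹ * g.1, ?_⟩) :
        ((Z : Set G) \ {1} : Set G) × Subgroup.centralizer ({a * b} : Set G))) ?_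
    · intro e
      apply hx1
      have e1 : g.1 * (a * b) * g.1⁻¹ = 1 := e
      rw [mul_inv_eq_one, mul_eq_left] at e1
      exact e1
    · rw [Subgroup.mem_centralizer_singleton_iff]
      have e1 := hr _ ⟨g.1, rfl⟩
      generalize r (g.1 * (a * b) * g.1⁻¹) = ρ at e1
      have e2 : g.1 * (a * b) = ρ * (a * b) * ρ⁻¹ * g.1 := by
        rw [e1]
        group
      rw [mul_assoc, e2]
      group
    · intro q q' hqq
      have e1 : q.1 * (a * b) * q.1⁻¹ = q'.1 * (a * b) * q'.1⁻¹ :=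
        congrArg (fun z : ((Z : Set G) \ {1} : Set G) × Subgroup.centralizer ({a * b} : Set G) =>
          (z.1 : G)) hqq
      have e2 : (r (q.1 * (a * b) * q.1⁻¹))⁻¹ * q.1 = (r (q'.1 * (a * b) * q'.1⁻¹))⁻¹ * q'.1 :=
        congrArg (fun z : ((Z : Set G) \ {1} : Set G) × Subgroup.centralizer ({a * b} : Set G) =>
          (z.2 : G)) hqq
      rw [e1] at e2
      exact Subtype.ext (mul_left_cancel e2)
  have h3 := hN1.trans hN2
  have hZc : Nat.card ((Z : Set G) \ {1} : Set G) = orderOf (a * b) - 1 := by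
    rw [Nat.card_coe_set_eq, Set.ncard_sdiff_singleton_of_mem (one_mem Z)]
    congr 1
    rw [← Nat.card_coe_set_eq, hZ]
    exact Nat.card_zpowers _
  rw [Nat.card_prod, Nat.card_prod, hC, dih_card h.aa h.bb hb1 h.odd, hZc,
    Nat.card_eq_fintype_card, Fintype.card_coe, Finset.offDiag_card, Finset.card_univ] at h3
  have h4 := Nat.le_of_mul_le_mul_right h3 (by omega)
  rw [Nat.card_eq_fintype_card, Nat.mul_sub_one]
  exact h4

end Pool.Agent.H.MP_6268b4_co
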