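import Pool.Agent.H.MP_6268b4_co.RCaseA3

/-!
Regular case: analysis of the element `x = a b`.
-/

namespace Pool.Agent.H.MP_6268b4_co

variable {G Ω : Type*} [Group G] [MulAction G Ω] [Finite G] [Finite Ω] [FaithfulSMul G Ω]
  {v w : Ω} {t c a b : G}

omit [Finite G] [Finite Ω] [FaithfulSMul G Ω] in
private theorem rcasea5_form (h : RHyp v w t c a b) {z : G} (hz : z * z = 1) (hzv : z • v = w) :
    ∃ k ∈ Subgroup.closure ({a, b} : Set G), z = t * k ∧ k * k = 1 := by
  have htw : t • w = v := by
    rw [← h.tv, ← mul_smul, h.tt, one_smul]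
  have hzw : z • w = v := by
    rw [← hzv, ← mul_smul, hz, one_smul]
  have hk : t * z ∈ Subgroup.closure ({a, b} : Set G) := by
    refine h.stab2 _ ?_ ?_
    · rw [mul_smul, hzv, htw]
    · rw [mul_smul, hzw, h.tv]
  have hcomm : ∀ k ∈ Subgroup.closure ({a, b} : Set G), t * k = k * t := by
    intro k hk
    induction hk using Subgroup.closure_induction with
    | mem x hx =>
      rcases hx with rfl | hx
      · exact h.ta
      · rw [Set.mem_singleton_iff.1 hx]; exact h.tb
    | one => rw [mul_one, one_mul]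
    | mul x y _ _ hx hy => rw [← mul_assoc, hx, mul_assoc, hy, mul_assoc]
    | inv x _ hx =>
      calc t * x⁻¹ = x⁻¹ * (x * t) * x⁻¹ := by group
        _ = x⁻¹ * (t * x) * x⁻¹ := by rw [hx]
        _ = x⁻¹ * t := by group
  refine ⟨t * z, hk, ?_, ?_⟩
  · rw [← mul_assoc, h.tt, one_mul]
  · have h1 := hcomm _ hk
    calc t * z * (t * z) = (t * z * t) * z := by group
      _ = (t * (t * z)) * z := by rw [← h1]
      _ = (t * t) * (z * z) := by group
      _ = 1 := by rw [h.tt, hz, mul_one]

omit [Finite G] [Finite Ω] [FaithfulSMul G Ω] in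
private theorem rcasea5_comm (h : RHyp v w t c a b) {k : G}
    (hk : k ∈ Subgroup.closure ({a, b} : Set G)) : t * k = k * t := by
  induction hk using Subgroup.closure_induction with
  | mem x hx =>
    rcases hx with rfl | hx
    · exact h.ta
    · rw [Set.mem_singleton_iff.1 hx]; exact h.tb
  | one => rw [mul_one, one_mul]
  | mul x y _ _ hx hy => rw [← mul_assoc, hx, mul_assoc, hy, mul_assoc]
  | inv x _ hx =>
    calc t * x⁻¹ = x⁻¹ * (x * t) * x⁻¹ := by group
      _ = x⁻¹ * (t * x) * x⁻¹ := by rw [hx]
      _ = x⁻¹ * t := by group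

omit [Finite G] [Finite Ω] [FaithfulSMul G Ω] in
private theorem rcasea5_zp {k : G} (hk : k ∈ Subgroup.zpowers (a * b)) :
    k ∈ Subgroup.closure ({a, b} : Set G) := by
  refine (Subgroup.zpowers_le.2 ?_) hk
  exact Subgroup.mul_mem _ (Subgroup.subset_closure (by simp)) (Subgroup.subset_closure (by simp))

omit [Finite G] [Finite Ω] [FaithfulSMul G Ω] in
private theorem rcasea5_conj (h : RHyp v w t c a b) {k : G}
    (hk : k ∈ Subgroup.closure ({a, b} : Set G)) (hk2 : k * k = 1) (hk1 : k ≠ 1) :
    IsConj (t * b) (t * k) := by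
  obtain ⟨l, hl, hkl⟩ := dih_refl h.aa h.bb h.odd hk hk2 hk1
  have h1 := rcasea5_comm h (rcasea5_zp hl)
  rw [isConj_iff]
  refine ⟨l, ?_⟩
  rw [hkl]
  calc l * (t * b) * l⁻¹ = (l * t) * b * l⁻¹ := by group
    _ = (t * l) * b * l⁻¹ := by rw [h1]
    _ = t * (l * b * l⁻¹) := by group

omit [Finite G] [Finite Ω] [FaithfulSMul G Ω] in
private theorem rcasea5_inv (ha : a * a = 1) (hb : b * b = 1) {y : G}
    (hy : y ∈ Subgroup.zpowers (a * b)) : b * y * b = y⁻¹ := by
  have hbi : b⁻¹ = b := inv_eq_of_mul_eq_one_left hb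
  have hai : a⁻¹ = a := inv_eq_of_mul_eq_one_left ha
  obtain ⟨i, rfl⟩ := Subgroup.mem_zpowers_iff.1 hy
  have h1 : b * (a * b) * b⁻¹ = (a * b)⁻¹ := by
    rw [mul_inv_rev, hai, hbi, ← mul_assoc, mul_assoc _ b b, hb, mul_one]
  calc b * (a * b) ^ i * b = b * (a * b) ^ i * b⁻¹ := by rw [hbi]
    _ = (b * (a * b) * b⁻¹) ^ i := by rw [conj_zpow]
    _ = ((a * b) ^ i)⁻¹ := by rw [h1, inv_zpow]

omit [Finite Ω] [FaithfulSMul G Ω] in
/-- the involutions of `closure {a, b}`: there are `s` of them -/
private theorem rcasea5_count (ha : a * a = 1) (hb : b * b = 1) (hb1 : b ≠ 1)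
    (hodd : Odd (orderOf (a * b))) :
    {k : G | k ∈ Subgroup.closure ({a, b} : Set G) ∧ k * k = 1 ∧ k ≠ 1}.ncard =
      orderOf (a * b) := by
  have hbi : b⁻¹ = b := inv_eq_of_mul_eq_one_left hb
  have himg : {k : G | k ∈ Subgroup.closure ({a, b} : Set G) ∧ k * k = 1 ∧ k ≠ 1} =
      (fun y => y * b) '' (Subgroup.zpowers (a * b) : Set G) := by
    ext k
    constructor
    · rintro ⟨hk, hk2, hk1⟩
      obtain ⟨l, hl, rfl⟩ := dih_refl ha hb hodd hk hk2 hk1
      refine ⟨l * l, Subgroup.mul_mem _ hl hl, ?_⟩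
      have h1 := rcasea5_inv ha hb hl
      have h2 : b * l⁻¹ = l * b := by
        rw [← h1, ← mul_assoc, ← mul_assoc, hb, one_mul]
      show l * l * b = l * b * l⁻¹
      rw [mul_assoc l b, h2, mul_assoc]
    · rintro ⟨y, hy, rfl⟩
      refine ⟨?_, ?_, ?_⟩
      · exact Subgroup.mul_mem _ (rcasea5_zp hy) (Subgroup.subset_closure (by simp))
      · have h1 := rcasea5_inv ha hb hy
        show y * b * (y * b) = 1
        calc y * b * (y * b) = y * (b * y * b) := by group
          _ = 1 := by rw [h1, mul_inv_cancel]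
      · intro h1
        change y * b = 1 at h1
        have h2 : b = y⁻¹ := (inv_eq_of_mul_eq_one_right h1).symm
        have h3 : y⁻¹ ∈ Subgroup.zpowers (a * b) := Subgroup.inv_mem _ hy
        rw [← h2] at h3
        have h4 : orderOf b ∣ orderOf (a * b) := orderOf_dvd_of_mem_zpowers h3
        have h5 : orderOf b ∣ 2 := orderOf_dvd_of_pow_eq_one (by rw [pow_two]; exact hb)
        have h6 : orderOf b ∣ 1 := by
          have hc : Nat.Coprime (orderOf (a * b)) 2 := hodd.coprime_two_right
          rw [← hc]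
          exact Nat.dvd_gcd h4 h5
        exact hb1 (orderOf_eq_one_iff.1 (Nat.dvd_one.1 h6))
  rw [himg, Set.ncard_image_of_injective _ (mul_left_injective b)]
  rw [← Nat.card_coe_set_eq]
  exact Nat.card_zpowers (a * b)

omit [Finite Ω] [FaithfulSMul G Ω] in
private theorem rcasea5_class (b : G) :
    {z : G | IsConj z b}.ncard * Nat.card (Subgroup.centralizer ({b} : Set G)) = Nat.card G := by
  have h1 : {z : G | IsConj z b} = MulAction.orbit (ConjAct G) b := by
    ext z
    rw [ConjAct.mem_orbit_conjAct]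
    rfl
  rw [h1, ← MulAction.index_stabilizer, Subgroup.nat_card_centralizer_nat_card_stabilizer]
  exact Subgroup.index_mul_card _

/-- Job RCaseA-5. Counting: `n = 2 s - 1` or `n = s ^ 2 + s - 1`.

Proof. Let `s = orderOf (a b)`, `r = s` the number of fixed points of `b` (and of each conjugate).
Let `B` be the conjugacy class of `b`; `|B| * Nat.card (centralizer {b}) = Nat.card G`, so by
`R_card`, `R_card_cent`: `|B| * (2 s (s - 1)) = n (n - 1) 2 s`, i.e. `|B| (s - 1) = n (n - 1)`.
Let `κ` be the number of `z ∈ B` with `z v = w`; by 2-transitivity it is the number of `z ∈ B` with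
`z x = y` for any `x ≠ y`. Counting pairs `(z, x)`, `z ∈ B`, `z x ≠ x`:
`|B| (n - s) = n (n - 1) κ`. So `n - s = κ (s - 1)`. The elements `z ∈ B` with `z v = w`: as in
`R_caseB_unique`, `z = t k`, `k ∈ closure {a, b}`, `k k = 1`; so `z = t` (which is in `B`) or
`z = t k` with `k` conjugate to `b` by a power of `x`; all these `s` elements `t k` are conjugate to
`t b`, so either all or none of them are in `B`. So `κ = 1` or `κ = 1 + s` (the involutions of
`closure {a, b}` are exactly `x ^ i b`, `i = 0, ..., s - 1`, `s` of them). Hence `n = 2 s - 1` or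
`n = s + (1 + s)(s - 1) = s ^ 2 + s - 1`. In the second case `κ = 1 + s` and all elements `t k` as
above are conjugate to `b`; any involution `z` of `G` moves some point, `z x = y ≠ x`, a conjugate
`z'` of it has `z' v = w`, so `z' = t k` as above, and `z'` is conjugate to `b`. -/
theorem R_caseA5 (h : RHyp v w t c a b) (hn : 4 ≤ Nat.card Ω) :
    Nat.card Ω + 1 = 2 * orderOf (a * b) ∨
      (Nat.card Ω + 1 = orderOf (a * b) ^ 2 + orderOf (a * b) ∧
        ∀ z : G, z * z = 1 → z ≠ 1 → IsConj z b) := by
  classical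
  obtain ⟨ha1, hb1, hcw, hs3⟩ := R_basic h hn
  obtain ⟨hG, hnodd⟩ := R_card h hn
  have hr := (R_caseA3 h hn).1
  have hcent := R_card_cent h hn
  rw [hr] at hcent
  have hcl := rcasea5_class (G := G) b
  rw [hcent, hG] at hcl
  have htb := R_caseB h hn
  have _i1 : Fintype G := Fintype.ofFinite G
  have _i2 : Fintype Ω := Fintype.ofFinite Ω
  set s := orderOf (a * b) with hs
  set n := Nat.card Ω with hnd
  set B : Finset G := Finset.univ.filter (fun z => IsConj z b) with hB
  have hBm : ∀ z, z ∈ B ↔ IsConj z b := by intro z; simp [hB]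
  have hBcard : {z : G | IsConj z b}.ncard = B.card := by
    rw [Set.ncard_eq_toFinset_card']
    congr 1
    ext z
    simp [hB]
  rw [hBcard] at hcl
  -- |B| (s - 1) = n (n - 1)
  have hBs : B.card * (s - 1) = n * (n - 1) := by
    have h2 : (2 * s) * (B.card * (s - 1)) = (2 * s) * (n * (n - 1)) := by
      calc (2 * s) * (B.card * (s - 1)) = B.card * (2 * (s * (s - 1))) := by ring
        _ = n * (n - 1) * (2 * s) := hcl
        _ = (2 * s) * (n * (n - 1)) := by ring
    exact Nat.eq_of_mul_eq_mul_left (by omega) h2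
  set κ := (B.filter (fun z => z • v = w)).card with hκ
  have hκxy : ∀ x y : Ω, x ≠ y → (B.filter (fun z => z • x = y)).card = κ := by
    intro x y hxy
    obtain ⟨g, hg1, hg2⟩ := h.two x y v w hxy h.vw
    refine Finset.card_bij (fun z _ => g * z * g⁻¹) ?_ ?_ ?_
    · intro z hz
      rw [Finset.mem_filter, hBm] at hz ⊢
      refine ⟨?_, ?_⟩
      · refine IsConj.trans ?_ hz.1
        exact (isConj_iff.2 ⟨g, rfl⟩ : IsConj z (g * z * g⁻¹)).symm
      · rw [mul_smul, mul_smul, ← hg1, inv_smul_smul, hz.2, hg2]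
    · intro z _ z' _ hzz
      exact mul_left_cancel (mul_right_cancel hzz)
    · intro z hz
      rw [Finset.mem_filter, hBm] at hz
      refine ⟨g⁻¹ * z * g, ?_, by group⟩
      rw [Finset.mem_filter, hBm]
      refine ⟨?_, ?_⟩
      · refine IsConj.trans ?_ hz.1
        exact (isConj_iff.2 ⟨g, by group⟩ : IsConj (g⁻¹ * z * g) z)
      · rw [mul_smul, mul_smul, hg1, hz.2, ← hg2, inv_smul_smul]
  -- counting
  have hcount1 : ∀ x : Ω, B.card = (B.filter (fun z => z • x = x)).card + (n - 1) * κ := by
    intro x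
    have h1 : B.card = ∑ y : Ω, (B.filter (fun z => z • x = y)).card :=
      Finset.card_eq_sum_card_fiberwise (fun z _ => Finset.mem_univ (z • x))
    rw [h1, ← Finset.add_sum_erase _ _ (Finset.mem_univ x)]
    congr 1
    rw [Finset.sum_congr rfl (fun y hy => hκxy x y (Finset.ne_of_mem_erase hy).symm),
      Finset.sum_const, Finset.card_erase_of_mem (Finset.mem_univ x), Finset.card_univ,
      smul_eq_mul, hnd, Nat.card_eq_fintype_card]
  have hcount2 : ∑ x : Ω, (B.filter (fun z => z • x = x)).card = B.card * s := by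
    have h1 : ∀ x : Ω, (B.filter (fun z => z • x = x)).card =
        ∑ z ∈ B, if z • x = x then 1 else 0 := by
      intro x
      rw [Finset.card_filter]
    rw [Finset.sum_congr rfl (fun x _ => h1 x), Finset.sum_comm]
    rw [Finset.sum_congr rfl (g := fun _ => s), Finset.sum_const, smul_eq_mul]
    intro z hz
    rw [hBm] at hz
    have h2 := (R_E_conj h hn hz).1
    rw [hr] at h2
    rw [← h2, ← Finset.card_filter, Nat.card_eq_fintype_card, Fintype.card_subtype]
  have hsum : n * B.card = B.card * s + n * ((n - 1) * κ) := by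
    have h1 : ∑ x : Ω, B.card = ∑ x : Ω, ((B.filter (fun z => z • x = x)).card + (n - 1) * κ) :=
      Finset.sum_congr rfl (fun x _ => hcount1 x)
    rw [Finset.sum_add_distrib, hcount2, Finset.sum_const, Finset.sum_const, Finset.card_univ,
      smul_eq_mul, smul_eq_mul, ← Nat.card_eq_fintype_card] at h1
    exact h1
  have hBpos : 0 < B.card := Finset.card_pos.2 ⟨b, (hBm b).2 (IsConj.refl b)⟩
  have hnκ : n = s + (s - 1) * κ := by
    have h1 : B.card * n = B.card * (s + (s - 1) * κ) := by
      calc B.card * n = n * B.card := by ring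
        _ = B.card * s + n * ((n - 1) * κ) := hsum
        _ = B.card * s + (n * (n - 1)) * κ := by ring
        _ = B.card * s + (B.card * (s - 1)) * κ := by rw [hBs]
        _ = B.card * (s + (s - 1) * κ) := by ring
    exact Nat.eq_of_mul_eq_mul_left hBpos h1
  -- elements of B are involutions
  have hB2 : ∀ z, IsConj z b → z * z = 1 := by
    intro z hz
    obtain ⟨g, hg⟩ := isConj_iff.1 hz.symm
    rw [← hg]
    calc g * b * g⁻¹ * (g * b * g⁻¹) = g * (b * b) * g⁻¹ := by group
      _ = 1 := by rw [h.bb]; group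
  have hKv : ∀ k ∈ Subgroup.closure ({a, b} : Set G), k • v = v := by
    intro k hk
    induction hk using Subgroup.closure_induction with
    | mem x hx =>
      rcases hx with rfl | hx
      · exact h.av
      · rw [Set.mem_singleton_iff.1 hx]; exact h.bv
    | one => exact one_smul G v
    | mul x y _ _ hx hy => rw [mul_smul, hy, hx]
    | inv x _ hx => rw [inv_smul_eq_iff, hx]
  by_cases htbB : IsConj (t * b) b
  · -- second alternative
    right
    have hallB : ∀ k ∈ Subgroup.closure ({a, b} : Set G), k * k = 1 → IsConj (t * k) b := by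
      intro k hk hk2
      by_cases hk1 : k = 1
      · rw [hk1, mul_one]; exact htb
      · exact (rcasea5_conj h hk hk2 hk1).symm.trans htbB
    constructor
    · have hκval : κ = s + 1 := by
        have h1 : (B.filter (fun z => z • v = w)) =
            Finset.image (fun k => t * k)
              (insert 1 (Finset.univ.filter
                (fun k => k ∈ Subgroup.closure ({a, b} : Set G) ∧ k * k = 1 ∧ k ≠ 1))) := by
          ext z
          rw [Finset.mem_filter, hBm, Finset.mem_image]
          constructor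
          · rintro ⟨hz, hzv⟩
            obtain ⟨k, hk, hzk, hk2⟩ := rcasea5_form h (hB2 z hz) hzv
            refine ⟨k, ?_, hzk.symm⟩
            rw [Finset.mem_insert, Finset.mem_filter]
            by_cases hk1 : k = 1
            · left; exact hk1
            · right; exact ⟨Finset.mem_univ _, hk, hk2, hk1⟩
          · rintro ⟨k, hk, rfl⟩
            rw [Finset.mem_insert, Finset.mem_filter] at hk
            have hk' : k ∈ Subgroup.closure ({a, b} : Set G) ∧ k * k = 1 := by
              rcases hk with rfl | hk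
              · exact ⟨Subgroup.one_mem _, one_mul 1⟩
              · exact ⟨hk.2.1, hk.2.2.1⟩
            refine ⟨hallB k hk'.1 hk'.2, ?_⟩
            rw [mul_smul, hKv k hk'.1, h.tv]
        have h2 : (Finset.univ.filter
            (fun k => k ∈ Subgroup.closure ({a, b} : Set G) ∧ k * k = 1 ∧ k ≠ 1)).card = s := by
          rw [hs, ← rcasea5_count h.aa h.bb hb1 h.odd, Set.ncard_eq_toFinset_card']
          congr 1
          ext z
          simp
        rw [hκ, h1, Finset.card_image_of_injective _ (mul_right_injective t),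
          Finset.card_insert_of_notMem, h2]
        rw [Finset.mem_filter]
        rintro ⟨_, _, _, h3⟩
        exact h3 rfl
      rw [hκval] at hnκ
      rw [hnκ]
      obtain ⟨s', hs'⟩ : ∃ s', s = s' + 1 := ⟨s - 1, by omega⟩
      rw [hs', Nat.add_sub_cancel]
      ring
    · intro z hz hz1
      obtain ⟨x, hx⟩ : ∃ x : Ω, z • x ≠ x := by
        by_contra hcon
        have hcon' : ∀ x : Ω, z • x = x := by
          intro x
          by_contra hx
          exact hcon ⟨x, hx⟩
        refine hz1 (eq_of_smul_eq_smul (α := Ω) ?_)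
        intro x
        rw [hcon' x, one_smul]
      obtain ⟨g, hg1, hg2⟩ := h.two x (z • x) v w (Ne.symm hx) h.vw
      have hz' : (g * z * g⁻¹) * (g * z * g⁻¹) = 1 := by
        calc (g * z * g⁻¹) * (g * z * g⁻¹) = g * (z * z) * g⁻¹ := by group
          _ = 1 := by rw [hz]; group
      have hzv' : (g * z * g⁻¹) • v = w := by
        rw [mul_smul, mul_smul, ← hg1, inv_smul_smul, hg2]
      obtain ⟨k, hk, hzk, hk2⟩ := rcasea5_form h hz' hzv'
      refine IsConj.trans (isConj_iff.2 ⟨g, rfl⟩ : IsConj z (g * z * g⁻¹)) ?_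
      rw [hzk]
      exact hallB k hk hk2
  · -- first alternative
    left
    have hκval : κ = 1 := by
      rw [hκ, Finset.card_eq_one]
      refine ⟨t, ?_⟩
      ext z
      rw [Finset.mem_filter, hBm, Finset.mem_singleton]
      constructor
      · rintro ⟨hz, hzv⟩
        obtain ⟨k, hk, hzk, hk2⟩ := rcasea5_form h (hB2 z hz) hzv
        by_cases hk1 : k = 1
        · rw [hzk, hk1, mul_one]
        · exfalso
          apply htbB
          refine (rcasea5_conj h hk hk2 hk1).trans ?_
          rw [← hzk]
          exact hz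
      · rintro rfl
        exact ⟨htb, h.tv⟩
    rw [hκval, mul_one] at hnκ
    omega

end Pool.Agent.H.MP_6268b4_co
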