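import Pool.Agent.H.MP_6268b4_co.RPackC

/-!
The structure of the centralizer of `b` (regular case).
-/

namespace Pool.Agent.H.MP_6268b4_co

variable {G Ω : Type*} [Group G] [MulAction G Ω] [Finite G] [Finite Ω] [FaithfulSMul G Ω]
  {v w : Ω} {t c a b : G}

/-- Job RPack-4. The same for a conjugate `z` of `b`.

Proof. `z = g b g⁻¹`: conjugate the subgroup given by `R_E` by `g`
(`E.map (MulAut.conj g).toMonoidHom`), and use `Nat.card {x // z • x = x} = Nat.card {x // b • x = x}`
(the bijection `x ↦ g • x`). -/
theorem R_E_conj (h : RHyp v w t c a b) (hn : 4 ≤ Nat.card Ω) {z : G} (hz : IsConj z b) :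
    Nat.card {x : Ω // z • x = x} = Nat.card {x : Ω // b • x = x} ∧
    ∃ E : Subgroup G, (∀ e ∈ E, e * z = z * e) ∧ z ∈ E ∧
      Nat.card E = 2 * Nat.card {x : Ω // b • x = x} ∧
      (∀ p q : G, p * z = z * p → q * z = z * q → p * p = 1 → q * q = 1 → p ≠ 1 → p ≠ z → q ≠ 1 →
        q ≠ z → p * q ∈ E) ∧
      (∀ x ∈ E, Odd (orderOf x) → x ≠ 1 →
        (orderOf x).Prime ∧ (∀ y : Ω, z • y = y → x • y ≠ y) ∧
        (∀ g : G, g * z = z * g → g * x = x * g → g ∈ E) ∧ (∀ e ∈ E, e * x = x * e)) := by
  classical
  obtain ⟨g, hg⟩ := isConj_iff.1 hz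
  -- hg : g * z * g⁻¹ = b
  have hzb : z = g⁻¹ * b * g := by rw [← hg]; group
  obtain ⟨E, hE1, hE2, hE3, hE4, hE5⟩ := R_E h hn
  -- conjugation by g maps the centralizer of z to that of b
  have hconj : ∀ p : G, p * z = z * p ↔ (g * p * g⁻¹) * b = b * (g * p * g⁻¹) := by
    intro p
    rw [← hg]
    constructor
    · intro hp
      calc g * p * g⁻¹ * (g * z * g⁻¹) = g * (p * z) * g⁻¹ := by group
        _ = g * (z * p) * g⁻¹ := by rw [hp]
        _ = g * z * g⁻¹ * (g * p * g⁻¹) := by group
    · intro hp
      have h1 : g * (p * z) * g⁻¹ = g * (z * p) * g⁻¹ := by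
        calc g * (p * z) * g⁻¹ = g * p * g⁻¹ * (g * z * g⁻¹) := by group
          _ = g * z * g⁻¹ * (g * p * g⁻¹) := hp
          _ = g * (z * p) * g⁻¹ := by group
      exact mul_left_cancel (mul_right_cancel h1)
  have hone : ∀ p : G, g * p * g⁻¹ = 1 ↔ p = 1 := by
    intro p
    constructor
    · intro hp
      have : g * p = g := by
        have := mul_inv_eq_one.1 hp
        exact this
      exact mul_eq_left.1 this
    · rintro rfl; group
  have hbz : ∀ p : G, g * p * g⁻¹ = b ↔ p = z := by
    intro p
    rw [← hg]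
    constructor
    · intro hp; exact mul_left_cancel (mul_right_cancel hp)
    · rintro rfl; rfl
  have hmul : ∀ p q : G, g * (p * q) * g⁻¹ = (g * p * g⁻¹) * (g * q * g⁻¹) := by
    intro p q; group
  refine ⟨?_, ?_⟩
  · apply Nat.card_congr
    exact
      { toFun := fun x => ⟨g • (x : Ω), by
          rw [← hg, mul_smul, mul_smul, inv_smul_smul, x.2]⟩
        invFun := fun y => ⟨g⁻¹ • (y : Ω), by
          rw [hzb, mul_smul, mul_smul, smul_inv_smul, y.2]⟩
        left_inv := fun x => by
          apply Subtype.ext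
          simp
        right_inv := fun y => by
          apply Subtype.ext
          simp }
  · refine ⟨E.comap (MulAut.conj g).toMonoidHom, ?_, ?_, ?_, ?_, ?_⟩
    · intro e he
      rw [hconj]
      exact hE1 _ he
    · show g * z * g⁻¹ ∈ E
      rw [hg]; exact hE2
    · rw [← hE3]
      apply Nat.card_congr
      exact
        { toFun := fun x => ⟨g * (x : G) * g⁻¹, x.2⟩
          invFun := fun y => ⟨g⁻¹ * (y : G) * g, by
            show g * (g⁻¹ * (y : G) * g) * g⁻¹ ∈ E
            have : g * (g⁻¹ * (y : G) * g) * g⁻¹ = y := by group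
            rw [this]; exact y.2⟩
          left_inv := fun x => by
            apply Subtype.ext
            show g⁻¹ * (g * (x : G) * g⁻¹) * g = x
            group
          right_inv := fun y => by
            apply Subtype.ext
            show g * (g⁻¹ * (y : G) * g) * g⁻¹ = y
            group }
    · intro p q hp hq hpp hqq hp1 hpz hq1 hqz
      show g * (p * q) * g⁻¹ ∈ E
      rw [hmul]
      apply hE4
      · exact (hconj p).1 hp
      · exact (hconj q).1 hq
      · rw [← hmul, hpp]; group
      · rw [← hmul, hqq]; group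
      · exact fun h1 => hp1 ((hone p).1 h1)
      · exact fun h1 => hpz ((hbz p).1 h1)
      · exact fun h1 => hq1 ((hone q).1 h1)
      · exact fun h1 => hqz ((hbz q).1 h1)
    · intro x hx hxodd hx1
      have hord : orderOf (g * x * g⁻¹) = orderOf x := by
        have : g * x * g⁻¹ = MulAut.conj g x := rfl
        rw [this]
        exact MulEquiv.orderOf_eq (MulAut.conj g) x
      obtain ⟨h1, h2, h3, h4⟩ := hE5 (g * x * g⁻¹) hx (by rw [hord]; exact hxodd)
        (fun h1 => hx1 ((hone x).1 h1))
      refine ⟨?_, ?_, ?_, ?_⟩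
      · rw [← hord]; exact h1
      · intro y hy hxy
        apply h2 (g • y)
        · rw [← hg, mul_smul, mul_smul, inv_smul_smul, hy]
        · rw [mul_smul, mul_smul, inv_smul_smul, hxy]
      · intro p hp hpx
        show g * p * g⁻¹ ∈ E
        apply h3
        · exact (hconj p).1 hp
        · rw [← hmul, ← hmul, hpx]
      · intro e he
        have h5 := h4 (g * e * g⁻¹) he
        rw [← hmul, ← hmul] at h5
        exact mul_left_cancel (mul_right_cancel h5)

end Pool.Agent.H.MP_6268b4_co
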