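import Pool.Agent.H.MP_6268b4_co.RPackB
import Pool.Agent.H.MP_6268b4_co.RPackD

/-!
Regular case: the involution `t` has two fixed points.
-/

namespace Pool.Agent.H.MP_6268b4_co

variable {G Ω : Type*} [Group G] [MulAction G Ω] [Finite G] [Finite Ω] [FaithfulSMul G Ω]
  {v w : Ω} {t c a b : G}

/-- an involution mapping `v` to `w` is `t` or a conjugate of `t b` -/
theorem rcaseb1_key (h : RHyp v w t c a b) {z : G} (hz : z * z = 1) (hzv : z • v = w) :
    z = t ∨ IsConj z (t * b) := by
  have htw : t • w = v := by rw [← h.tv, smul_smul, h.tt, one_smul]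
  have hzw : z • w = v := by rw [← hzv, smul_smul, hz, one_smul]
  have hk : t * z ∈ Subgroup.closure ({a, b} : Set G) := by
    apply h.stab2
    · rw [mul_smul, hzv, htw]
    · rw [mul_smul, hzw, h.tv]
  have hcomm : ∀ g ∈ Subgroup.closure ({a, b} : Set G), g * t = t * g := by
    intro g hg
    have h1 : Subgroup.closure ({a, b} : Set G) ≤ Subgroup.centralizer ({t} : Set G) := by
      rw [Subgroup.closure_le]
      intro x hx
      rw [SetLike.mem_coe, Subgroup.mem_centralizer_singleton_iff]
      rcases hx with rfl | hx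
      · exact h.ta.symm
      · rw [Set.mem_singleton_iff] at hx
        rw [hx]
        exact h.tb.symm
    have h2 := h1 hg
    rw [Subgroup.mem_centralizer_singleton_iff] at h2
    exact h2
  have hz2 : t * (t * z) = z := by rw [← mul_assoc, h.tt, one_mul]
  have hkk : (t * z) * (t * z) = 1 := by
    calc (t * z) * (t * z) = ((t * z) * t) * z := by group
      _ = (t * (t * z)) * z := by rw [hcomm _ hk]
      _ = 1 := by rw [hz2, hz]
  by_cases hk1 : t * z = 1
  · left
    rw [← hz2, hk1, mul_one]
  · right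
    obtain ⟨m, hm, hm2⟩ := dih_refl h.aa h.bb h.odd hk hkk hk1
    have hmt : m * t = t * m := by
      apply hcomm
      have h3 : Subgroup.zpowers (a * b) ≤ Subgroup.closure ({a, b} : Set G) := by
        rw [Subgroup.zpowers_le]
        exact mul_mem (Subgroup.subset_closure (Set.mem_insert _ _))
          (Subgroup.subset_closure (Set.mem_insert_of_mem _ rfl))
      exact h3 hm
    apply IsConj.symm
    rw [isConj_iff]
    refine ⟨m, ?_⟩
    calc m * (t * b) * m⁻¹ = (m * t) * b * m⁻¹ := by group
      _ = t * (m * b * m⁻¹) := by rw [hmt]; group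
      _ = z := by rw [← hm2, hz2]

/-- Job RCaseB-1. If `t` is not conjugate to `b`, the only conjugate of `t` mapping `v` to `w` is
`t` itself.

Proof. `b` moves some point (`b ≠ 1`, faithful), `b p = q ≠ p`; conjugating by an element mapping
`(p, q)` to `(v, w)` gives a conjugate `z₀` of `b` with `z₀ v = w`. An involution `z` with
`z v = w` satisfies: `t z` fixes `v` and `w` (`z w = v`, `t w = v`), so `z = t k`,
`k ∈ closure {a, b}`; `k` commutes with `t` (`ta`, `tb`), so `1 = z z = t k t k = k k`. For `z₀`
the corresponding `k₀` is `≠ 1` (else `z₀ = t` would be conjugate to `b`), so by `dih_refl` `k₀` is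
a conjugate of `b` by an element of `zpowers (a b)` (commuting with `t`), hence `z₀ = t k₀` is
conjugate to `t b`; so `t b` is conjugate to `b`. If now `z` is a conjugate of `t` with `z v = w`,
write `z = t k`; if `k ≠ 1` then by the same argument `z` is conjugate to `t b`, hence to `b`, and
`t` would be conjugate to `b`. So `k = 1`, `z = t`. -/
theorem R_caseB_unique (h : RHyp v w t c a b) (hn : 4 ≤ Nat.card Ω) (htb : ¬ IsConj t b) {z : G}
    (hz : IsConj t z) (hzv : z • v = w) : z = t := by
  obtain ⟨_, hb1, _, _⟩ := R_basic h hn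
  have h1 : ∃ p : Ω, b • p ≠ p := by
    by_contra hcon
    push Not at hcon
    exact hb1 (eq_of_smul_eq_smul (α := Ω) fun p => by rw [hcon p, one_smul])
  obtain ⟨p, hp⟩ := h1
  obtain ⟨g, hgp, hgq⟩ := h.two p (b • p) v w (Ne.symm hp) h.vw
  have h2 : IsConj b (g * b * g⁻¹) := isConj_iff.2 ⟨g, rfl⟩
  have h3 : (g * b * g⁻¹) * (g * b * g⁻¹) = 1 := by
    calc (g * b * g⁻¹) * (g * b * g⁻¹) = g * (b * b) * g⁻¹ := by group
      _ = 1 := by rw [h.bb]; group
  have h4 : (g * b * g⁻¹) • v = w := by
    rw [mul_smul, mul_smul, ← hgp, inv_smul_smul, hgq]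
  have h5 : IsConj b (t * b) := by
    rcases rcaseb1_key h h3 h4 with h5 | h5
    · rw [h5] at h2
      exact absurd h2.symm htb
    · exact h2.trans h5
  obtain ⟨y, hy⟩ := isConj_iff.1 hz
  have h6 : z * z = 1 := by
    rw [← hy]
    calc (y * t * y⁻¹) * (y * t * y⁻¹) = y * (t * t) * y⁻¹ := by group
      _ = 1 := by rw [h.tt]; group
  rcases rcaseb1_key h h6 hzv with h7 | h7
  · exact h7
  · exact absurd ((hz.trans h7).trans h5.symm) htb

end Pool.Agent.H.MP_6268b4_co
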