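import Pool.Agent.H.MP_6268b4_co.RCaseB1

/-!
Regular case: the involution `t` has two fixed points.
-/

namespace Pool.Agent.H.MP_6268b4_co

variable {G Ω : Type*} [Group G] [MulAction G Ω] [Finite G] [Finite Ω] [FaithfulSMul G Ω]
  {v w : Ω} {t c a b : G}

omit [Finite G] [FaithfulSMul G Ω] in
/-- an involution of a set of odd size has a fixed point -/
theorem rcaseb2_fixed {z : G} (hz : z * z = 1) (hodd : Odd (Nat.card Ω)) :
    ∃ x : Ω, z • x = x := by
  classical
  let _ : Fintype Ω := Fintype.ofFinite Ω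
  have h1 : ¬ 2 ∣ Fintype.card Ω := by
    rw [← Nat.card_eq_fintype_card]
    intro h
    rcases hodd with ⟨k, hk⟩
    omega
  have h2 : (MulAction.toPerm z : Equiv.Perm Ω) ^ 2 ^ 1 = 1 := by
    ext x
    rw [pow_one, pow_two]
    change z • z • x = x
    rw [smul_smul, hz, one_smul]
  obtain ⟨x, hx⟩ := Equiv.Perm.exists_fixed_point_of_prime h1 h2
  exact ⟨x, hx⟩

/-- Job RCaseB-2. If `t` is not conjugate to `b` there is exactly one conjugate of `t` fixing `v`.

Proof. `t` has at most one fixed point by `R_conj` (`t ≠ 1` since `t v = w ≠ v`), and exactly one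
because `Nat.card Ω` is odd (`R_card`) and `t` is an involution. The same for all conjugates of
`t`. Let `T` be the (finite) conjugacy class of `t`. Count pairs `(z, x)`, `z ∈ T`, `z x ≠ x`:
there are `|T| (n - 1)`. For each ordered pair `(x, y)`, `x ≠ y` there is exactly one `z ∈ T` with
`z x = y` (conjugate the pair to `(v, w)` and use `R_caseB_unique`; existence: conjugate `t`). So
`|T| (n - 1) = n (n - 1)`, `|T| = n`. The map `T → Ω`, `z ↦` its unique fixed point, is surjective
(transitivity) between finite sets of the same size, so it is bijective. -/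
theorem R_caseB_fix (h : RHyp v w t c a b) (hn : 4 ≤ Nat.card Ω) (htb : ¬ IsConj t b) :
    ∃! u : G, IsConj t u ∧ u • v = v := by
  classical
  have ht1 : t ≠ 1 := by
    intro h1
    have := h.tv
    rw [h1, one_smul] at this
    exact h.vw this
  have hsq : ∀ z : G, IsConj t z → z * z = 1 := by
    intro z hz
    obtain ⟨g, rfl⟩ := isConj_iff.1 hz
    calc g * t * g⁻¹ * (g * t * g⁻¹) = g * (t * t) * g⁻¹ := by group
      _ = 1 := by rw [h.tt]; group
  have hne : ∀ z : G, IsConj t z → z ≠ 1 := by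
    intro z hz h1
    obtain ⟨g, rfl⟩ := isConj_iff.1 hz
    apply ht1
    have : t = g⁻¹ * (g * t * g⁻¹) * g := by group
    rw [this, h1]
    group
  have hconj : ∀ (g z : G), IsConj t z → IsConj t (g * z * g⁻¹) := by
    intro g z hz
    exact hz.trans (isConj_iff.2 ⟨g, rfl⟩)
  have hodd := (R_card h hn).2
  -- fixed points
  have hfixU : ∀ z : G, IsConj t z → ∀ x y : Ω, z • x = x → z • y = y → x = y := by
    intro z hz x y hx hy
    by_contra hxy
    exact htb (hz.trans (R_conj h (hsq z hz) (hne z hz) hxy hx hy))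
  have hfixE : ∀ z : G, IsConj t z → ∃ x : Ω, z • x = x := by
    intro z hz
    exact rcaseb2_fixed (hsq z hz) hodd
  -- pairs
  have hpE : ∀ x y : Ω, x ≠ y → ∃ z : G, IsConj t z ∧ z • x = y := by
    intro x y hxy
    obtain ⟨g, hg1, hg2⟩ := h.two x y v w hxy h.vw
    refine ⟨g⁻¹ * t * g, ?_, ?_⟩
    · have := hconj g⁻¹ t (IsConj.refl t)
      rwa [inv_inv] at this
    · rw [mul_smul, mul_smul, hg1, h.tv, inv_smul_eq_iff, hg2]
  have hpU : ∀ (x y : Ω) (z z' : G), x ≠ y → IsConj t z → IsConj t z' → z • x = y →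
      z' • x = y → z = z' := by
    intro x y z z' hxy hz hz' hzx hzx'
    obtain ⟨g, hg1, hg2⟩ := h.two x y v w hxy h.vw
    have key : ∀ z : G, IsConj t z → z • x = y → g * z * g⁻¹ = t := by
      intro z hz hzx
      apply R_caseB_unique h hn htb (hconj g z hz)
      rw [mul_smul, mul_smul, ← hg1, inv_smul_smul, hzx, hg2]
    have h1 := (key z hz hzx).trans (key z' hz' hzx').symm
    exact mul_left_cancel (mul_right_cancel h1)
  -- counting
  let T := {z : G // IsConj t z}
  have hT : Finite T := inferInstance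
  have c1 : Nat.card {p : T × Ω // (p.1 : G) • p.2 = p.2} = Nat.card T := by
    apply Nat.card_eq_of_bijective (fun p => p.1.1)
    constructor
    · rintro ⟨⟨z, x⟩, hx⟩ ⟨⟨z', x'⟩, hx'⟩ hzz
      simp only at hzz hx hx'
      subst hzz
      have := hfixU z z.2 x x' hx hx'
      subst this
      rfl
    · intro z
      obtain ⟨x, hx⟩ := hfixE z z.2
      exact ⟨⟨(z, x), hx⟩, rfl⟩
  have c2 : Nat.card {p : T × Ω // ¬ (p.1 : G) • p.2 = p.2} =
      Nat.card {q : Ω × Ω // ¬ q.1 = q.2} := by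
    apply Nat.card_eq_of_bijective
      (fun p => (⟨(p.1.2, (p.1.1 : G) • p.1.2), fun h' => p.2 h'.symm⟩ :
        {q : Ω × Ω // ¬ q.1 = q.2}))
    constructor
    · rintro ⟨⟨z, x⟩, hx⟩ ⟨⟨z', x'⟩, hx'⟩ hzz
      simp only [Subtype.mk.injEq, Prod.mk.injEq] at hzz hx hx'
      obtain ⟨rfl, h2⟩ := hzz
      have h3 : (z : G) = z' := hpU x ((z : G) • x) z z' (fun h' => hx h'.symm) z.2 z'.2 rfl h2.symm
      have h4 : z = z' := Subtype.ext h3
      subst h4
      rfl
    · rintro ⟨⟨x, y⟩, hxy⟩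
      obtain ⟨z, hz, hzx⟩ := hpE x y hxy
      refine ⟨⟨(⟨z, hz⟩, x), ?_⟩, ?_⟩
      · simp only
        rw [hzx]
        exact fun h' => hxy h'.symm
      · apply Subtype.ext
        simp only [hzx]
  have c3 : Nat.card {q : Ω × Ω // q.1 = q.2} = Nat.card Ω := by
    apply Nat.card_eq_of_bijective (fun q => q.1.1)
    constructor
    · rintro ⟨⟨x, y⟩, hxy⟩ ⟨⟨x', y'⟩, hxy'⟩ hxx
      simp only at hxx hxy hxy'
      subst hxy hxy' hxx
      rfl
    · intro x
      exact ⟨⟨(x, x), rfl⟩, rfl⟩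
  have c4 : Nat.card {p : T × Ω // (p.1 : G) • p.2 = p.2} +
      Nat.card {p : T × Ω // ¬ (p.1 : G) • p.2 = p.2} = Nat.card T * Nat.card Ω := by
    rw [← Nat.card_sum, ← Nat.card_prod]
    exact Nat.card_congr (Equiv.sumCompl _)
  have c5 : Nat.card {q : Ω × Ω // q.1 = q.2} + Nat.card {q : Ω × Ω // ¬ q.1 = q.2} =
      Nat.card Ω * Nat.card Ω := by
    rw [← Nat.card_sum, ← Nat.card_prod]
    exact Nat.card_congr (Equiv.sumCompl _)
  have hcard : Nat.card T = Nat.card Ω := by
    rw [c1, c2] at c4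
    rw [c3] at c5
    obtain ⟨m, hm⟩ : ∃ m, Nat.card Ω = m + 1 := ⟨Nat.card Ω - 1, by omega⟩
    rw [hm] at c4 c5 ⊢
    have h1 : Nat.card T * m = (m + 1) * m := by nlinarith
    exact Nat.eq_of_mul_eq_mul_right (by omega) h1
  -- the fixed point map
  choose f hf using fun z : T => hfixE z z.2
  have hsurj : Function.Surjective f := by
    intro x
    have hTt : IsConj t t := IsConj.refl t
    let x0 := f ⟨t, hTt⟩
    have hx0 : t • x0 = x0 := hf ⟨t, hTt⟩
    obtain ⟨g, hg⟩ : ∃ g : G, g • x0 = x := by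
      by_cases hxx : x0 = x
      · exact ⟨1, by rw [one_smul, hxx]⟩
      · have hxx' : x ≠ x0 := fun h' => hxx h'.symm
        obtain ⟨g, hg, _⟩ := h.two x0 x x x0 hxx hxx'
        exact ⟨g, hg⟩
    refine ⟨⟨g * t * g⁻¹, hconj g t hTt⟩, ?_⟩
    apply hfixU _ (hconj g t hTt)
    · exact hf ⟨g * t * g⁻¹, hconj g t hTt⟩
    · rw [mul_smul, mul_smul, ← hg, inv_smul_smul, hx0]
  have hinj : Function.Injective f := by
    let _ : Fintype T := Fintype.ofFinite T
    let _ : Fintype Ω := Fintype.ofFinite Ω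
    rw [Nat.card_eq_fintype_card, Nat.card_eq_fintype_card] at hcard
    exact ((Fintype.bijective_iff_surjective_and_card f).2 ⟨hsurj, hcard⟩).1
  obtain ⟨u, hu⟩ := hsurj v
  refine ⟨u, ⟨u.2, ?_⟩, ?_⟩
  · have := hf u
    rw [hu] at this
    exact this
  · rintro u' ⟨hu1, hu2⟩
    have h1 : f ⟨u', hu1⟩ = f u := by
      rw [hu]
      exact hfixU u' hu1 _ _ (hf ⟨u', hu1⟩) hu2
    have h2 := hinj h1
    rw [← h2]

end Pool.Agent.H.MP_6268b4_co
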