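import Pool.Agent.H.MP_6268b4_co.RCaseB2

/-!
Regular case: the involution `t` has two fixed points.
-/

namespace Pool.Agent.H.MP_6268b4_co

variable {G Ω : Type*} [Group G] [MulAction G Ω] [Finite G] [Finite Ω] [FaithfulSMul G Ω]
  {v w : Ω} {t c a b : G}

/-- Job RCaseB-3. `t` is conjugate to `b`.

Proof. Suppose not and let `u` be the unique conjugate of `t` fixing `v`. For `g` fixing `v`,
`g u g⁻¹` is a conjugate of `t` fixing `v`, so `g u = u g`: `u` commutes with `b`, `c` and all of
`closure {c, a, b}`. `u` is an involution with exactly one fixed point (or: `u` is not conjugate to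
`b`), so `u ≠ b`, `u ≠ 1`. `c ≠ 1`, `c ≠ b` because `c w ≠ w` (`R_basic`) and `b w = w`. By
`R_unique_inv` (with `y = v`) `c = u` or `c = u * b`. So `closure {c, a, b} ≤` the set
`{u^i k | i ∈ {0,1}, k ∈ closure {a, b}}` (a subgroup, `u` commutes with `a`, `b`), which maps `w`
into `{w, u w}`. But `closure {c, a, b}` (= stabilizer of `v`) is transitive on the at least three
points `≠ v`. Contradiction. -/
theorem R_caseB (h : RHyp v w t c a b) (hn : 4 ≤ Nat.card Ω) : IsConj t b := by
  classical
  by_contra htb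
  obtain ⟨u, ⟨hu1, hu2⟩, huniq⟩ := R_caseB_fix h hn htb
  have hcomm : ∀ g : G, g • v = v → g * u = u * g := by
    intro g hg
    have h1 : IsConj t (g * u * g⁻¹) := hu1.trans (isConj_iff.mpr ⟨g, rfl⟩)
    have h2 : (g * u * g⁻¹) • v = v := by
      have hg' : g⁻¹ • v = v := by rw [inv_smul_eq_iff]; exact hg.symm
      rw [mul_smul, mul_smul, hg', hu2, hg]
    have h3 := huniq _ ⟨h1, h2⟩
    exact mul_inv_eq_iff_eq_mul.mp h3
  have huu : u * u = 1 := by
    obtain ⟨x, hx⟩ := isConj_iff.mp hu1
    rw [← hx]
    calc x * t * x⁻¹ * (x * t * x⁻¹) = x * (t * t) * x⁻¹ := by group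
      _ = 1 := by rw [h.tt]; group
  have ht1 : t ≠ 1 := by
    intro h1
    have h2 := h.tv
    rw [h1, one_smul] at h2
    exact h.vw h2
  have hu1' : u ≠ 1 := by
    rintro rfl
    exact ht1 (isConj_one_left.mp hu1)
  have hub : u ≠ b := by
    rintro rfl
    exact htb hu1
  obtain ⟨-, -, hcw, -⟩ := R_basic h hn
  have hc1 : c ≠ 1 := by
    rintro rfl
    exact hcw (one_smul _ _)
  have hcb : c ≠ b := by
    rintro rfl
    exact hcw h.bw
  have hc := R_unique_inv h hn h.bv (hcomm b h.bv).symm h.cb huu h.cc hu1' hub hc1 hcb hu2 h.cv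
  have huuw : u • u • w = w := by rw [← mul_smul, huu, one_smul]
  have hau : a • u • w = u • w := by
    rw [← mul_smul, hcomm a h.av, mul_smul, h.aw]
  have hbu : b • u • w = u • w := by
    rw [← mul_smul, hcomm b h.bv, mul_smul, h.bw]
  -- the set `{w, u w}` is preserved
  have hinv : ∀ g : G, g * g = 1 → (∀ x : Ω, (x = w ∨ x = u • w) → (g • x = w ∨ g • x = u • w)) →
      ∀ x : Ω, (g • x = w ∨ g • x = u • w) ↔ (x = w ∨ x = u • w) := by
    intro g hgg hg x
    constructor
    · intro hx
      have h1 := hg _ hx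
      rwa [← mul_smul, hgg, one_smul] at h1
    · exact hg x
  have key : ∀ g ∈ Subgroup.closure ({c, a, b} : Set G), ∀ x : Ω,
      (g • x = w ∨ g • x = u • w) ↔ (x = w ∨ x = u • w) := by
    intro g hg
    induction hg using Subgroup.closure_induction with
    | mem g hg =>
      simp only [Set.mem_insert_iff, Set.mem_singleton_iff] at hg
      rcases hg with rfl | rfl | rfl
      · apply hinv _ h.cc
        rintro x (rfl | rfl)
        · rcases hc with hc | hc
          · exact Or.inr (by rw [hc])
          · exact Or.inr (by rw [hc, mul_smul, h.bw])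
        · rcases hc with hc | hc
          · exact Or.inl (by rw [hc, huuw])
          · exact Or.inl (by rw [hc, mul_smul, hbu, huuw])
      · apply hinv _ h.aa
        rintro x (rfl | rfl)
        · exact Or.inl h.aw
        · exact Or.inr hau
      · apply hinv _ h.bb
        rintro x (rfl | rfl)
        · exact Or.inl h.bw
        · exact Or.inr hbu
    | one => intro x; rw [one_smul]
    | mul g g' _ _ hg hg' => intro x; rw [mul_smul, hg, hg']
    | inv g _ hg => intro x; rw [← hg, smul_inv_smul]
  -- a point different from `v`, `w`, `u w`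
  obtain ⟨p, hp⟩ : ∃ p : Ω, p ∉ ({v, w, u • w} : Finset Ω) := by
    by_contra hcon
    push Not at hcon
    have : Fintype Ω := Fintype.ofFinite Ω
    have h1 : (Finset.univ : Finset Ω) ⊆ {v, w, u • w} := fun x _ => hcon x
    have h2 := Finset.card_le_card h1
    have h3 : ({v, w, u • w} : Finset Ω).card ≤ 3 := Finset.card_le_three
    rw [Finset.card_univ, ← Nat.card_eq_fintype_card] at h2
    omega
  simp only [Finset.mem_insert, Finset.mem_singleton, not_or] at hp
  obtain ⟨g, hg1, hg2⟩ := h.two v w v p h.vw (Ne.symm hp.1)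
  have h1 := (key g (h.stab1 g hg1) w).mpr (Or.inl rfl)
  rw [hg2] at h1
  rcases h1 with h1 | h1
  · exact hp.2.1 h1
  · exact hp.2.2 h1

end Pool.Agent.H.MP_6268b4_co
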