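import Pool.Agent.H.MP_6268b4_co.RCaseA4
import Pool.Agent.H.MP_6268b4_co.RCaseA5

/-!
Regular case: the degree is 5 or 11; removal of the faithfulness hypothesis.
-/

namespace Pool.Agent.H.MP_6268b4_co

private theorem rmaina_fix {G Ω : Type*} [Group G] [MulAction G Ω] [Finite Ω] (g k : G) :
    Nat.card {x : Ω // (k * g * k⁻¹) • x = x} = Nat.card {x : Ω // g • x = x} := by
  refine Nat.card_congr ⟨fun x => ⟨k⁻¹ • (x : Ω), ?_⟩, fun x => ⟨k • (x : Ω), ?_⟩, ?_, ?_⟩
  · have h := x.2
    rw [mul_smul, mul_smul] at h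
    rw [← smul_eq_iff_eq_inv_smul]
    exact h
  · rw [mul_smul, mul_smul, inv_smul_smul, x.2]
  · intro x
    exact Subtype.ext (smul_inv_smul k (x : Ω))
  · intro x
    exact Subtype.ext (inv_smul_smul k (x : Ω))

/-- Job RMain-1. Main theorem in the faithful case.

Proof. Let `s = orderOf (a b)`, prime (`R_caseA1`), odd, `≥ 3`; `f` = number of fixed points of
`x = a b`, `f ≥ 2`. The group `zpowers x` of prime order `s` acts on `Ω`:
`n ≡ f` mod `s` (`MulAction.card_modEq_card_fixedPoints` or
`Equiv.Perm.card_fixedPoints_modEq`), and by `R_caseA5` `n + 1 ≡ 0` mod `s`; so `s ∣ f + 1` and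
`f ≥ s - 1`. With `R_caseA4`: `(s - 1)(s - 2) ≤ f (f - 1) ≤ s - 1`, so `s ≤ 3`, `s = 3`, `f = 2`
and `n = 5` or `n = 11`. `b` has `s = 3` fixed points (`R_caseA3`). If `g ≠ 1` has two fixed points
`x' ≠ y'` then a conjugate of `g` is in `closure {a, b}`: it is `x^i` (`≠ 1`; its fixed points are
those of `x`, as `x^i` generates `zpowers x`: `2` of them) or a conjugate of `b` (`3` fixed
points). So every `g ≠ 1` has at most 3 fixed points. If `n = 11` then the second alternative of
`R_caseA5` holds (`2 s = 6 ≠ 12`), so all involutions are conjugate to `b`. -/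
theorem R_main {G Ω : Type*} [Group G] [MulAction G Ω] [Finite G] [Finite Ω] [FaithfulSMul G Ω]
    {v w : Ω} {t c a b : G} (h : RHyp v w t c a b) (hn : 4 ≤ Nat.card Ω) :
    orderOf (a * b) = 3 ∧ (Nat.card Ω = 5 ∨ Nat.card Ω = 11) ∧ IsConj t b ∧
    Nat.card {x : Ω // b • x = x} = 3 ∧ Nat.card {x : Ω // (a * b) • x = x} = 2 ∧
    (∀ g : G, g ≠ 1 → Nat.card {x : Ω // g • x = x} ≤ 3) ∧
    (Nat.card Ω = 11 → ∀ z : G, z * z = 1 → z ≠ 1 → IsConj z b) := by
  classical
  obtain ⟨ha1, hb1, hcw, hs3⟩ := R_basic h hn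
  have hp := (R_caseA1 h hn).1
  have hA3 := (R_caseA3 h hn).1
  have hA4 := R_caseA4 h hn
  have hA5 := R_caseA5 h hn
  have htb := R_caseB h hn
  have hxv : (a * b) • v = v := by rw [mul_smul, h.bv, h.av]
  have hxw : (a * b) • w = w := by rw [mul_smul, h.bw, h.aw]
  set s := orderOf (a * b) with hs
  set f := Nat.card {x : Ω // (a * b) • x = x} with hf
  set n := Nat.card Ω with hnd
  have hf2 : 2 ≤ f := by
    have _i : Nontrivial {x : Ω // (a * b) • x = x} :=
      ⟨⟨v, hxv⟩, ⟨w, hxw⟩, fun he => h.vw (congrArg Subtype.val he)⟩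
    have := Finite.one_lt_card_iff_nontrivial.2 _i
    exact this
  have hmod : n ≡ f [MOD s] := by
    have _i1 : Fintype Ω := Fintype.ofFinite Ω
    have _i2 : Fact s.Prime := ⟨hp⟩
    let F : Function.End Ω := fun x => (a * b) • x
    have hpow : F ^ s ^ 1 = 1 := by
      rw [pow_one]
      have h1 : ∀ m : ℕ, F ^ m = (fun x => (a * b) ^ m • x : Ω → Ω) := by
        intro m
        induction m with
        | zero =>
          funext x
          rw [pow_zero, pow_zero, one_smul]
          rfl
        | succ m ih =>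
          rw [pow_succ, ih]
          funext x
          rw [pow_succ, mul_smul]
          rfl
      rw [h1]
      funext x
      rw [hs, pow_orderOf_eq_one, one_smul]
      rfl
    have h2 := Equiv.Perm.card_fixedPoints_modEq hpow
    rw [hnd, hf, Nat.card_eq_fintype_card, Nat.card_eq_fintype_card]
    exact h2
  have hdvd : s ∣ n + 1 := by
    rcases hA5 with h5 | h5
    · rw [h5]; exact Dvd.intro_left _ rfl
    · rw [h5.1]; exact ⟨s + 1, by ring⟩
  have hdvd2 : s ∣ f + 1 := by
    have h1 : n + 1 ≡ f + 1 [MOD s] := Nat.ModEq.add_right 1 hmod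
    exact (h1.dvd_iff dvd_rfl).1 hdvd
  have hle : s ≤ f + 1 := Nat.le_of_dvd (by omega) hdvd2
  have hs_eq : s = 3 := by
    have h1 : (s - 1) * (s - 2) ≤ s - 1 := by
      refine le_trans ?_ hA4
      exact Nat.mul_le_mul (by omega) (by omega)
    by_contra hne
    have h2 : 2 ≤ s - 2 := by omega
    have h3 : (s - 1) * 2 ≤ (s - 1) * (s - 2) := Nat.mul_le_mul_left _ h2
    omega
  have hf_eq : f = 2 := by
    by_contra hne
    have h1 : 3 ≤ f := by omega
    have h2 : 3 * 2 ≤ f * (f - 1) := Nat.mul_le_mul h1 (by omega)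
    omega
  have hn_or : n = 5 ∨ n = 11 := by
    rcases hA5 with h5 | h5
    · left; omega
    · right
      have h6 := h5.1
      rw [hs_eq] at h6
      omega
  have hb3 : Nat.card {x : Ω // b • x = x} = 3 := by rw [hA3, hs_eq]
  refine ⟨hs_eq, hn_or, htb, hb3, hf_eq, ?_, ?_⟩
  · intro g hg1
    by_contra hcon
    have h4 : 1 < Nat.card {x : Ω // g • x = x} := by omega
    obtain ⟨x', y', hxy⟩ := (Finite.one_lt_card_iff_nontrivial.1 h4).exists_pair_ne
    have hxy' : (x' : Ω) ≠ y' := fun he => hxy (Subtype.ext he)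
    obtain ⟨k, hk1, hk2⟩ := h.two _ _ v w hxy' h.vw
    have hgv : (k * g * k⁻¹) • v = v := by
      rw [mul_smul, mul_smul, ← hk1, inv_smul_smul, x'.2]
    have hgw : (k * g * k⁻¹) • w = w := by
      rw [mul_smul, mul_smul, ← hk2, inv_smul_smul, y'.2]
    have hmem := h.stab2 _ hgv hgw
    have hne1 : k * g * k⁻¹ ≠ 1 := by
      intro he
      apply hg1
      have h5 : g = k⁻¹ * (k * g * k⁻¹) * k := by group
      rw [h5, he]
      group
    rw [← rmaina_fix g k] at hcon
    rcases dih_form h.aa h.bb hmem with ⟨i, hi⟩ | ⟨i, hi⟩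
    · -- power of x
      have hle2 : Subgroup.zpowers (k * g * k⁻¹) ≤ Subgroup.zpowers (a * b) := by
        rw [Subgroup.zpowers_le, hi]
        exact Subgroup.mem_zpowers_iff.2 ⟨i, rfl⟩
      have ho : orderOf (k * g * k⁻¹) ∣ s :=
        orderOf_dvd_of_mem_zpowers (hle2 (Subgroup.mem_zpowers _))
      have ho2 : orderOf (k * g * k⁻¹) = s := by
        rcases (Nat.dvd_prime hp).1 ho with h5 | h5
        · exact absurd (orderOf_eq_one_iff.1 h5) hne1
        · exact h5
      have heq : Subgroup.zpowers (k * g * k⁻¹) = Subgroup.zpowers (a * b) := by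
        refine Subgroup.eq_of_le_of_card_ge hle2 ?_
        rw [Nat.card_zpowers, Nat.card_zpowers, ho2]
      have hxmem : a * b ∈ Subgroup.zpowers (k * g * k⁻¹) := by
        rw [heq]; exact Subgroup.mem_zpowers _
      obtain ⟨j, hj⟩ := Subgroup.mem_zpowers_iff.1 hxmem
      have hsub : ∀ x : Ω, (k * g * k⁻¹) • x = x → (a * b) • x = x := by
        intro x hx
        have hst : k * g * k⁻¹ ∈ MulAction.stabilizer G x := hx
        have hst2 : a * b ∈ MulAction.stabilizer G x := by
          rw [← hj]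
          exact Subgroup.zpow_mem _ hst j
        exact hst2
      have hcard : Nat.card {x : Ω // (k * g * k⁻¹) • x = x} ≤ f := by
        refine Nat.card_le_card_of_injective
          (fun x => (⟨x.1, hsub x.1 x.2⟩ : {x : Ω // (a * b) • x = x})) ?_
        intro x y hxy2
        have h7 : (x : Ω) = (y : Ω) :=
          congrArg (fun u : {x : Ω // (a * b) • x = x} => (u : Ω)) hxy2
        exact Subtype.ext h7
      omega
    · -- conjugate of b
      have hsq : (k * g * k⁻¹) * (k * g * k⁻¹) = 1 := by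
        have hbi : b⁻¹ = b := inv_eq_of_mul_eq_one_left h.bb
        have hai : a⁻¹ = a := inv_eq_of_mul_eq_one_left h.aa
        have h5 : b * (a * b) * b⁻¹ = (a * b)⁻¹ := by
          rw [mul_inv_rev, hai, hbi, ← mul_assoc, mul_assoc _ b b, h.bb, mul_one]
        rw [hi]
        calc (a * b) ^ i * b * ((a * b) ^ i * b) = (a * b) ^ i * (b * (a * b) ^ i * b) := by group
          _ = (a * b) ^ i * (b * (a * b) ^ i * b⁻¹) := by rw [hbi]
          _ = (a * b) ^ i * (b * (a * b) * b⁻¹) ^ i := by rw [conj_zpow]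
          _ = 1 := by rw [h5, inv_zpow, mul_inv_cancel]
      have hconj := R_conj h hsq hne1 h.vw hgv hgw
      have h6 := (R_E_conj h hn hconj).1
      omega
  · intro h11
    rcases hA5 with h5 | h5
    · omega
    · exact h5.2

end Pool.Agent.H.MP_6268b4_co
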