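import Pool.Agent.H.MP_6268b4_co.RBasicB
import Pool.Agent.H.MP_6268b4_co.RBasicC
import Pool.Agent.H.MP_6268b4_co.RSharpE

/-!
The structure of the centralizer of `b` (regular case).
-/

namespace Pool.Agent.H.MP_6268b4_co

section Aux

variable {G Ω : Type*} [Group G] [MulAction G Ω]

theorem rpacka_comm {b : G} (g : Subgroup.centralizer ({b} : Set G)) :
    (g : G) * b = b * (g : G) := by
  have h := g.2
  rw [Subgroup.mem_centralizer_iff] at h
  exact (h b (Set.mem_singleton b)).symm

theorem rpacka_mem {b g : G} (h : g * b = b * g) : g ∈ Subgroup.centralizer ({b} : Set G) := by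
  rw [Subgroup.mem_centralizer_iff]
  intro x hx
  rw [Set.mem_singleton_iff] at hx
  rw [hx, h]

theorem rpacka_fix {b g : G} (h : g * b = b * g) {x : Ω} (hx : b • x = x) :
    b • (g • x) = g • x := by
  rw [← mul_smul, ← h, mul_smul, hx]

/-- the action of the centralizer of `b` on the fixed points of `b` -/
@[instance_reducible] def rpacka_act (Ω : Type*) [MulAction G Ω] (b : G) :
    MulAction (Subgroup.centralizer ({b} : Set G)) {x : Ω // b • x = x} where
  smul g x := ⟨(g : G) • (x : Ω), rpacka_fix (rpacka_comm g) x.2⟩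
  one_smul := by
    rintro ⟨x, hx⟩
    exact Subtype.ext (one_smul G x)
  mul_smul := by
    rintro g g' ⟨x, hx⟩
    exact Subtype.ext (mul_smul (g : G) (g' : G) x)

/-- the corresponding homomorphism -/
def rpacka_pi (Ω : Type*) [MulAction G Ω] (b : G) :
    Subgroup.centralizer ({b} : Set G) →* Equiv.Perm {x : Ω // b • x = x} :=
  letI := rpacka_act Ω b
  MulAction.toPermHom _ _

theorem rpacka_pi_apply (b : G) (g : Subgroup.centralizer ({b} : Set G))
    (x : {x : Ω // b • x = x}) :
    ((rpacka_pi Ω b g x : {x : Ω // b • x = x}) : Ω) = (g : G) • (x : Ω) := rfl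

theorem rpacka_odd [Finite Ω] {b : G} (hb : b * b = 1) (hn : Odd (Nat.card Ω)) :
    Odd (Nat.card {x : Ω // b • x = x}) := by
  classical
  have : Fintype Ω := Fintype.ofFinite Ω
  let f : Function.End Ω := fun x : Ω => b • x
  have hf : f ^ 2 ^ 1 = 1 := by
    rw [pow_one, pow_two]
    funext x
    change b • (b • x) = x
    rw [← mul_smul, hb, one_smul]
  have h1 := Equiv.Perm.card_fixedPoints_modEq (p := 2) (n := 1) hf
  rw [← Nat.card_eq_fintype_card, ← Nat.card_eq_fintype_card] at h1
  have h2 : Nat.card (Function.fixedPoints f) = Nat.card {x : Ω // b • x = x} := rfl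
  rw [h2] at h1
  rw [Nat.odd_iff] at hn ⊢
  unfold Nat.ModEq at h1
  omega

end Aux

variable {G Ω : Type*} [Group G] [MulAction G Ω] [Finite G] [Finite Ω] [FaithfulSMul G Ω]
  {v w : Ω} {t c a b : G}

/-- Job RPack-0. The sharply 2-transitive group induced by the centralizer of `b` on the fixed
points of `b`.

Proof. Let `C = Subgroup.centralizer {b}`, `Δ = {x // b • x = x}` (= `MulAction.fixedBy Ω b`);
`C` acts on `Δ` (an element commuting with `b` maps fixed points of `b` to fixed points of `b`);
let `π : C →* Equiv.Perm Δ` be the corresponding homomorphism and `F = π.range` acting on `Δ`. By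
`R_centralizer` `F` is sharply 2-transitive, and `π g = 1` iff `g = 1 ∨ g = b` (apply the
uniqueness part to `1` and `g` with `x = v`, `y = w`, two different points of `Δ`). `Nat.card Δ` is
odd because `Nat.card Ω` is odd (`R_card`) and `b` is an involution, and it is `≥ 3` because it is
odd and `v, w ∈ Δ`. This lemma states the result in a form convenient for later use: a group `F`,
a sharply 2-transitive action on `Δ`, and a homomorphism `π` with these properties. -/
theorem R_pi (h : RHyp v w t c a b) (hn : 4 ≤ Nat.card Ω) :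
    Odd (Nat.card {x : Ω // b • x = x}) ∧ 3 ≤ Nat.card {x : Ω // b • x = x} ∧
    ∃ π : Subgroup.centralizer ({b} : Set G) →* Equiv.Perm {x : Ω // b • x = x},
      (∀ g x, ((π g x : {x : Ω // b • x = x}) : Ω) = (g : G) • (x : Ω)) ∧
      (∀ g, π g = 1 ↔ ((g : G) = 1 ∨ (g : G) = b)) ∧
      SharpTwo π.range {x : Ω // b • x = x} := by
  have hb1 : b ≠ 1 := (R_basic h hn).2.1
  have hodd : Odd (Nat.card {x : Ω // b • x = x}) := rpacka_odd h.bb (R_card h hn).2
  refine ⟨hodd, ?_, rpacka_pi Ω b, fun g x => rpacka_pi_apply b g x, ?_, ?_⟩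
  · have : Nontrivial {x : Ω // b • x = x} :=
      ⟨⟨v, h.bv⟩, ⟨w, h.bw⟩, fun he => h.vw (congrArg Subtype.val he)⟩
    have h1 : 1 < Nat.card {x : Ω // b • x = x} := Finite.one_lt_card
    rw [Nat.odd_iff] at hodd
    omega
  · intro g
    constructor
    · intro hg
      have hv : (g : G) • v = v := by
        have := rpacka_pi_apply b g ⟨v, h.bv⟩
        rw [hg] at this
        exact this.symm
      have hw : (g : G) • w = w := by
        have := rpacka_pi_apply b g ⟨w, h.bw⟩
        rw [hg] at this
        exact this.symm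
      have h2 := (R_centralizer h hb1 h.vw h.vw h.bv h.bw h.bv h.bw).2 1 (g : G)
        (by rw [one_mul, mul_one]) (rpacka_comm g) (by rw [one_smul, hv]) (by rw [one_smul, hw])
      rwa [one_mul] at h2
    · intro hg
      ext x
      rw [rpacka_pi_apply]
      rcases hg with hg | hg
      · rw [hg, one_smul]
        rfl
      · rw [hg, x.2]
        rfl
  · intro x y x' y' hxy hxy'
    have hxy1 : (x : Ω) ≠ y := fun he => hxy (Subtype.ext he)
    have hxy2 : (x' : Ω) ≠ y' := fun he => hxy' (Subtype.ext he)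
    obtain ⟨⟨g, hg, hgx, hgy⟩, huniq⟩ :=
      R_centralizer h hb1 hxy1 hxy2 x.2 y.2 x'.2 y'.2
    refine ⟨⟨rpacka_pi Ω b ⟨g, rpacka_mem hg⟩, ⟨_, rfl⟩⟩, ⟨?_, ?_⟩, ?_⟩
    · exact Subtype.ext hgx
    · exact Subtype.ext hgy
    · rintro ⟨f, ⟨g', rfl⟩⟩ ⟨hx1, hy1⟩
      have e1 : (g' : G) • (x : Ω) = x' := congrArg Subtype.val hx1
      have e2 : (g' : G) • (y : Ω) = y' := congrArg Subtype.val hy1
      have h3 := huniq g (g' : G) hg (rpacka_comm g') (by rw [hgx, e1]) (by rw [hgy, e2])
      apply Subtype.ext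
      ext z
      change (g' : G) • (z : Ω) = g • (z : Ω)
      rcases h3 with h3 | h3
      · rw [h3]
      · rw [h3, mul_smul, z.2]

end Pool.Agent.H.MP_6268b4_co
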