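import Pool.Agent.H.MP_6268b4_co.RPackA

/-!
The structure of the centralizer of `b` (regular case).
-/

namespace Pool.Agent.H.MP_6268b4_co

/-- order of a sharply 2-transitive group -/
theorem rpackb_sharp_card {F Δ : Type*} [Group F] [MulAction F Δ] [Finite Δ]
    (h : SharpTwo F Δ) (h2 : 2 ≤ Nat.card Δ) :
    Nat.card F = Nat.card Δ * (Nat.card Δ - 1) := by
  classical
  have _ : Fintype Δ := Fintype.ofFinite Δ
  have hnt : Nontrivial Δ := Finite.one_lt_card_iff_nontrivial.1 (by omega)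
  obtain ⟨x, y, hxy⟩ := exists_pair_ne Δ
  have hbij : Function.Bijective (fun g : F =>
      (⟨(g • x, g • y), fun he => hxy (MulAction.injective g he)⟩ :
        {p : Δ × Δ // p.1 ≠ p.2})) := by
    constructor
    · intro g g' hg
      have h1 : (g • x, g • y) = (g' • x, g' • y) := congrArg Subtype.val hg
      obtain ⟨h3, h4⟩ := Prod.mk.inj h1
      have hne : g' • x ≠ g' • y := fun he => hxy (MulAction.injective g' he)
      exact (h x y (g' • x) (g' • y) hxy hne).unique ⟨h3, h4⟩ ⟨rfl, rfl⟩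
    · rintro ⟨⟨x', y'⟩, hne⟩
      obtain ⟨g, ⟨h3, h4⟩, _⟩ := h x y x' y' hxy hne
      refine ⟨g, Subtype.ext ?_⟩
      exact Prod.ext h3 h4
  rw [Nat.card_congr (Equiv.ofBijective _ hbij), Nat.card_eq_fintype_card,
    Nat.card_eq_fintype_card, Fintype.card_subtype]
  have h5 : (Finset.univ.filter fun p : Δ × Δ => p.1 ≠ p.2) = (Finset.univ : Finset Δ).offDiag := by
    ext p
    simp [Finset.mem_offDiag]
  rw [h5, Finset.offDiag_card, Finset.card_univ, Nat.mul_sub, mul_one]

variable {G Ω : Type*} [Group G] [MulAction G Ω] [Finite G] [Finite Ω] [FaithfulSMul G Ω]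
  {v w : Ω} {t c a b : G}

/-- Job RPack-1. Order of the centralizer of `b`. -/
theorem R_card_cent (h : RHyp v w t c a b) (hn : 4 ≤ Nat.card Ω) :
    Nat.card (Subgroup.centralizer ({b} : Set G)) =
      2 * (Nat.card {x : Ω // b • x = x} * (Nat.card {x : Ω // b • x = x} - 1)) := by
  obtain ⟨_, hb1, _, _⟩ := R_basic h hn
  obtain ⟨_, h3, π, _, hker, hsharp⟩ := R_pi h hn
  have hrange := rpackb_sharp_card hsharp (by omega)
  have hbC : b ∈ Subgroup.centralizer ({b} : Set G) := by
    rw [Subgroup.mem_centralizer_iff]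
    intro x hx
    rw [Set.mem_singleton_iff] at hx
    rw [hx]
  have hk : Nat.card π.ker = 2 := by
    have h1 : (π.ker : Set (Subgroup.centralizer ({b} : Set G))) = {1, ⟨b, hbC⟩} := by
      ext g
      rw [SetLike.mem_coe, MonoidHom.mem_ker, hker, Set.mem_insert_iff, Set.mem_singleton_iff]
      constructor
      · rintro (h4 | h4)
        · exact Or.inl (Subtype.ext h4)
        · exact Or.inr (Subtype.ext h4)
      · rintro (h4 | h4)
        · left; rw [h4]; rfl
        · right; rw [h4]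
    have h2 : Nat.card π.ker = (π.ker : Set (Subgroup.centralizer ({b} : Set G))).ncard := rfl
    rw [h2, h1, Set.ncard_pair]
    intro h4
    exact hb1 (congrArg Subtype.val h4).symm
  have h4 := Subgroup.card_eq_card_quotient_mul_card_subgroup π.ker
  rw [h4, Nat.card_congr (QuotientGroup.quotientKerEquivRange π).toEquiv, hrange, hk, mul_comm]

/-- Job RPack-2. Two involutions commuting with `b`, different from `b`, which fix a common
fixed point `y` of `b`, are equal up to `b`. -/
theorem R_unique_inv (h : RHyp v w t c a b) (hn : 4 ≤ Nat.card Ω) {p q : G} {y : Ω}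
    (hy : b • y = y) (hp : p * b = b * p) (hq : q * b = b * q) (hp2 : p * p = 1) (hq2 : q * q = 1)
    (hp1 : p ≠ 1) (hpb : p ≠ b) (hq1 : q ≠ 1) (hqb : q ≠ b) (hpy : p • y = y) (hqy : q • y = y) :
    q = p ∨ q = p * b := by
  obtain ⟨hodd, h3, π, hπ, hker, hsharp⟩ := R_pi h hn
  have hmem : ∀ g : G, g * b = b * g → g ∈ Subgroup.centralizer ({b} : Set G) := by
    intro g hg
    rw [Subgroup.mem_centralizer_iff]
    intro x hx
    rw [Set.mem_singleton_iff] at hx
    rw [hx, hg]
  set P : Subgroup.centralizer ({b} : Set G) := ⟨p, hmem p hp⟩ with hP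
  set Q : Subgroup.centralizer ({b} : Set G) := ⟨q, hmem q hq⟩ with hQ
  have hu := sharp_unique_inv hsharp hodd h3 ⟨y, hy⟩
  have key : ∀ g : Subgroup.centralizer ({b} : Set G), (g : G) ≠ 1 → (g : G) ≠ b →
      (g : G) * (g : G) = 1 → (g : G) • y = y →
      (⟨π g, ⟨g, rfl⟩⟩ : π.range) ≠ 1 ∧
      (⟨π g, ⟨g, rfl⟩⟩ : π.range) * (⟨π g, ⟨g, rfl⟩⟩ : π.range) = 1 ∧
      (⟨π g, ⟨g, rfl⟩⟩ : π.range) • (⟨y, hy⟩ : {x : Ω // b • x = x}) = ⟨y, hy⟩ := by
    intro g h1 h2 h4 h5
    refine ⟨?_, ?_, ?_⟩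
    · intro h6
      have h7 : π g = 1 := congrArg Subtype.val h6
      rcases (hker g).1 h7 with h8 | h8
      · exact h1 h8
      · exact h2 h8
    · apply Subtype.ext
      show π g * π g = 1
      have h6 : g * g = 1 := Subtype.ext h4
      rw [← map_mul, h6, map_one]
    · apply Subtype.ext
      show ((π g ⟨y, hy⟩ : {x : Ω // b • x = x}) : Ω) = y
      rw [hπ]
      exact h5
  have h6 := hu.unique (key P hp1 hpb hp2 hpy) (key Q hq1 hqb hq2 hqy)
  have h7 : π P = π Q := congrArg Subtype.val h6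
  have h8 : π (P⁻¹ * Q) = 1 := by
    rw [map_mul, map_inv, h7, inv_mul_cancel]
  rcases (hker _).1 h8 with h9 | h9
  · left
    have h10 : p⁻¹ * q = 1 := h9
    exact (inv_mul_eq_one.1 h10).symm
  · right
    have h10 : p⁻¹ * q = b := h9
    exact inv_mul_eq_iff_eq_mul.1 h10

end Pool.Agent.H.MP_6268b4_co
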