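import Pool.Agent.H.MP_6268b4_co.RPackA

/-!
The structure of the centralizer of `b` (regular case).
-/

namespace Pool.Agent.H.MP_6268b4_co

variable {G Ω : Type*} [Group G] [MulAction G Ω] [Finite G] [Finite Ω] [FaithfulSMul G Ω]
  {v w : Ω} {t c a b : G}

/-- The cardinality of the preimage of a subgroup under a surjective homomorphism. -/
theorem rpackc_card_comap {A B : Type*} [Group A] [Group B] [Finite A] [Finite B] (f : A →* B)
    (hf : Function.Surjective f) (K : Subgroup B) :
    Nat.card (K.comap f) = Nat.card f.ker * Nat.card K := by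
  have h1 : (K.comap f).index = K.index := Subgroup.index_comap_of_surjective K hf
  have h2 : Nat.card (K.comap f) * (K.comap f).index = Nat.card A := Subgroup.card_mul_index _
  have h3 : Nat.card K * K.index = Nat.card B := Subgroup.card_mul_index _
  have h4 : Nat.card f.ker * f.ker.index = Nat.card A := Subgroup.card_mul_index _
  have h5 : f.ker.index = Nat.card B := by
    rw [Subgroup.index_ker]
    have : f.range = ⊤ := MonoidHom.range_eq_top.2 hf
    rw [this]; exact Subgroup.card_top
  have hpos : 0 < K.index := Nat.pos_of_ne_zero Subgroup.index_ne_zero_of_finite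
  apply Nat.eq_of_mul_eq_mul_right hpos
  rw [← h1, h2, h1, mul_assoc, h3, ← h5, h4]

/-- Job RPack-3. The subgroup `E` of the centralizer of `b`.

Proof. Let `E_F ≤ F = π.range` be the subgroup given by `sharp_exists_E` (for `π.range` acting on
`Δ`) and `E = {g | g * b = b * g ∧ π g ∈ E_F}` (a subgroup of `G`, the image of the preimage of
`E_F`). It contains `b`, commutes with `b`, and has order `2 * Nat.card E_F = 2 r`, since
`Nat.card E_F = r` (simply transitive on `Δ`) and the kernel of `π` has order 2.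
(i) involutions `p, q` commuting with `b` and different from `b`: `π p`, `π q` are involutions `≠ 1`
so `π (p q) ∈ E_F`.
(ii) Let `x ∈ E` of odd order, `x ≠ 1`. `π x ≠ 1` because `x ≠ 1` and `x ≠ b` (`b` has order 2).
So `orderOf (π x)` is a prime `ℓ`; `x ^ ℓ ∈ {1, b}` has odd order, so `x ^ ℓ = 1` and
`orderOf x = ℓ`. `π x ≠ 1` fixes no point of `Δ` (simply transitive: `π x` and `1` both in `E_F`).
If `g` commutes with `b` and `x` then `π g` commutes with `π x`, so `π g ∈ E_F`, `g ∈ E`.
If `e ∈ E`: `π e` and `π x` commute, so `e x e⁻¹ ∈ {x, x b}`; `x b` has even order (its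
`orderOf x`-th power is `b`), `e x e⁻¹` has odd order, so `e x e⁻¹ = x`. -/
theorem R_E (h : RHyp v w t c a b) (hn : 4 ≤ Nat.card Ω) :
    ∃ E : Subgroup G, (∀ e ∈ E, e * b = b * e) ∧ b ∈ E ∧
      Nat.card E = 2 * Nat.card {x : Ω // b • x = x} ∧
      (∀ p q : G, p * b = b * p → q * b = b * q → p * p = 1 → q * q = 1 → p ≠ 1 → p ≠ b → q ≠ 1 →
        q ≠ b → p * q ∈ E) ∧
      (∀ x ∈ E, Odd (orderOf x) → x ≠ 1 →
        (orderOf x).Prime ∧ (∀ y : Ω, b • y = y → x • y ≠ y) ∧
        (∀ g : G, g * b = b * g → g * x = x * g → g ∈ E) ∧ (∀ e ∈ E, e * x = x * e)) := by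
  classical
  have hb1 : b ≠ 1 := (R_basic h hn).2.1
  obtain ⟨hodd, h3, π, hπ, hker, hsharp⟩ := R_pi h hn
  obtain ⟨EF, hab, hst, hinv, hcent, hprime⟩ := sharp_exists_E hsharp hodd h3
  have hCmem : ∀ g : G, g ∈ (Subgroup.centralizer ({b} : Set G)) ↔ g * b = b * g := by
    intro g
    rw [Subgroup.mem_centralizer_singleton_iff]
  set ρ : (Subgroup.centralizer ({b} : Set G)) →* π.range := π.rangeRestrict with hρ
  have hρsurj : Function.Surjective ρ := π.rangeRestrict_surjective
  have hρ1 : ∀ g : (Subgroup.centralizer ({b} : Set G)), ρ g = 1 ↔ ((g : G) = 1 ∨ (g : G) = b) := by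
    intro g
    rw [← hker g]
    constructor
    · intro hg
      have := congrArg (Subtype.val) hg
      simpa [hρ] using this
    · intro hg
      apply Subtype.ext
      simpa [hρ] using hg
  have hρact : ∀ (g : (Subgroup.centralizer ({b} : Set G))) (x : {x : Ω // b • x = x}), ((ρ g • x : {x : Ω // b • x = x}) : Ω) =
      (g : G) • (x : Ω) := by
    intro g x
    exact hπ g x
  set E : Subgroup G := (EF.comap ρ).map (Subgroup.centralizer ({b} : Set G)).subtype with hE
  have hEmem : ∀ g : G, g ∈ E ↔ ∃ hg : g ∈ (Subgroup.centralizer ({b} : Set G)), ρ ⟨g, hg⟩ ∈ EF := by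
    intro g
    constructor
    · rintro ⟨⟨y, hy⟩, hy2, rfl⟩
      exact ⟨hy, hy2⟩
    · rintro ⟨hg, hg2⟩
      exact ⟨⟨g, hg⟩, hg2, rfl⟩
  have hbC : b ∈ (Subgroup.centralizer ({b} : Set G)) := (hCmem b).2 rfl
  have hkercard : Nat.card ρ.ker = 2 := by
    have e : ρ.ker ≃ ({1, b} : Set G) :=
      { toFun := fun x => ⟨((x : (Subgroup.centralizer ({b} : Set G))) : G), by
          have := (hρ1 (x : (Subgroup.centralizer ({b} : Set G)))).1 x.2
          simpa using this⟩
        invFun := fun y => ⟨⟨(y : G), by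
          rcases y.2 with h1 | h1
          · rw [h1]; exact (Subgroup.centralizer ({b} : Set G)).one_mem
          · have h1' : (y : G) = b := h1
            rw [h1']; exact hbC⟩, by
          rw [MonoidHom.mem_ker, hρ1]
          exact y.2⟩
        left_inv := fun x => by rfl
        right_inv := fun y => by rfl }
    rw [Nat.card_congr e]
    rw [Nat.card_coe_set_eq, Set.ncard_pair (Ne.symm hb1)]
  have hEFcard : Nat.card EF = Nat.card {x : Ω // b • x = x} := by
    have hv : b • v = v := h.bv
    let x0 : {x : Ω // b • x = x} := ⟨v, hv⟩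
    apply Nat.card_congr
    apply Equiv.ofBijective (fun e : EF => (e : π.range) • x0)
    constructor
    · intro e1 e2 h12
      obtain ⟨u, _, hu⟩ := hst x0 ((e1 : π.range) • x0)
      have a1 := hu e1 ⟨e1.2, rfl⟩
      have a2 := hu e2 ⟨e2.2, h12.symm⟩
      exact Subtype.ext (a1.trans a2.symm)
    · intro y
      obtain ⟨u, hu, _⟩ := hst x0 y
      exact ⟨⟨u, hu.1⟩, hu.2⟩
  refine ⟨E, ?_, ?_, ?_, ?_, ?_⟩
  · intro e he
    obtain ⟨he1, _⟩ := (hEmem e).1 he
    exact (hCmem e).1 he1
  · rw [hEmem]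
    refine ⟨hbC, ?_⟩
    have : ρ ⟨b, hbC⟩ = 1 := (hρ1 _).2 (Or.inr rfl)
    rw [this]; exact EF.one_mem
  · rw [hE, Subgroup.card_map_of_injective (Subgroup.centralizer ({b} : Set G)).subtype_injective,
      rpackc_card_comap ρ hρsurj, hkercard, hEFcard]
  · intro p q hpb hqb hpp hqq hp1 hpb' hq1 hqb'
    have hpC : p ∈ (Subgroup.centralizer ({b} : Set G)) := (hCmem p).2 hpb
    have hqC : q ∈ (Subgroup.centralizer ({b} : Set G)) := (hCmem q).2 hqb
    rw [hEmem]
    refine ⟨(Subgroup.centralizer ({b} : Set G)).mul_mem hpC hqC, ?_⟩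
    have hmul : ρ ⟨p * q, (Subgroup.centralizer ({b} : Set G)).mul_mem hpC hqC⟩ = ρ ⟨p, hpC⟩ * ρ ⟨q, hqC⟩ := by
      rw [← map_mul]; rfl
    rw [hmul]
    apply hinv
    · intro h1
      rcases (hρ1 _).1 h1 with h1 | h1
      · exact hp1 h1
      · exact hpb' h1
    · intro h1
      rcases (hρ1 _).1 h1 with h1 | h1
      · exact hq1 h1
      · exact hqb' h1
    · rw [← map_mul]
      have : (⟨p, hpC⟩ * ⟨p, hpC⟩ : (Subgroup.centralizer ({b} : Set G))) = 1 := Subtype.ext hpp
      rw [this, map_one]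
    · rw [← map_mul]
      have : (⟨q, hqC⟩ * ⟨q, hqC⟩ : (Subgroup.centralizer ({b} : Set G))) = 1 := Subtype.ext hqq
      rw [this, map_one]
  · intro x hx hxodd hx1
    obtain ⟨hxC, hxE⟩ := (hEmem x).1 hx
    have hxb : x ≠ b := by
      intro hxb
      have hob : orderOf b = 2 := by
        apply orderOf_eq_prime
        · rw [pow_two]; exact h.bb
        · exact hb1
      rw [hxb, hob] at hxodd
      exact absurd hxodd (by decide)
    have hρx : ρ ⟨x, hxC⟩ ≠ 1 := by
      intro h1
      rcases (hρ1 _).1 h1 with h1 | h1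
      · exact hx1 h1
      · exact hxb h1
    have hxbc : x * b = b * x := (hCmem x).1 hxC
    have hprm := hprime _ hxE hρx
    refine ⟨?_, ?_, ?_, ?_⟩
    · set l := orderOf (ρ ⟨x, hxC⟩) with hl
      have hpow : ρ (⟨x, hxC⟩ ^ l) = 1 := by rw [map_pow, hl, pow_orderOf_eq_one]
      have hxl : x ^ l = 1 := by
        rcases (hρ1 _).1 hpow with h1 | h1
        · simpa using h1
        · exfalso
          have h1' : x ^ l = b := by simpa using h1
          have h2 : orderOf (x ^ l) = 2 := by
            rw [h1']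
            apply orderOf_eq_prime
            · rw [pow_two]; exact h.bb
            · exact hb1
          have h3 : orderOf (x ^ l) ∣ orderOf x := orderOf_pow_dvd l
          rw [h2] at h3
          exact (Nat.not_even_iff_odd.2 hxodd) (even_iff_two_dvd.2 h3)
      have hdvd : orderOf x ∣ l := orderOf_dvd_of_pow_eq_one hxl
      rcases (Nat.dvd_prime hprm).1 hdvd with h1 | h1
      · exact absurd (orderOf_eq_one_iff.1 h1) hx1
      · rw [h1]; exact hprm
    · intro y hy hxy
      apply hρx
      let y0 : {x : Ω // b • x = x} := ⟨y, hy⟩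
      obtain ⟨u, _, hu⟩ := hst y0 y0
      have a1 := hu (ρ ⟨x, hxC⟩) ⟨hxE, Subtype.ext (by rw [hρact]; exact hxy)⟩
      have a2 := hu 1 ⟨EF.one_mem, one_smul _ _⟩
      exact a1.trans a2.symm
    · intro g hgb hgx
      have hgC : g ∈ (Subgroup.centralizer ({b} : Set G)) := (hCmem g).2 hgb
      rw [hEmem]
      refine ⟨hgC, ?_⟩
      apply hcent _ hxE hρx
      rw [← map_mul, ← map_mul]
      congr 1
      exact Subtype.ext hgx
    · intro e he
      obtain ⟨heC, heE⟩ := (hEmem e).1 he
      have hcomm : ρ ⟨e, heC⟩ * ρ ⟨x, hxC⟩ = ρ ⟨x, hxC⟩ * ρ ⟨e, heC⟩ := hab _ heE _ hxE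
      have hk : ρ (⟨x, hxC⟩⁻¹ * (⟨e, heC⟩ * ⟨x, hxC⟩ * ⟨e, heC⟩⁻¹)) = 1 := by
        rw [map_mul, map_mul, map_mul, map_inv, map_inv, hcomm]
        group
      have hk' : x⁻¹ * (e * x * e⁻¹) = 1 ∨ x⁻¹ * (e * x * e⁻¹) = b := by
        simpa using (hρ1 _).1 hk
      rcases hk' with h1 | h1
      · have h2 : e * x * e⁻¹ = x := by
          have := congrArg (fun z => x * z) h1
          simpa [mul_assoc] using this
        exact mul_inv_eq_iff_eq_mul.1 h2
      · exfalso
        have h2 : e * x * e⁻¹ = x * b := by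
          have := congrArg (fun z => x * z) h1
          simpa [mul_assoc] using this
        have h3 : orderOf (e * x * e⁻¹) = orderOf x := by
          have : e * x * e⁻¹ = MulAut.conj e x := rfl
          rw [this]
          exact MulEquiv.orderOf_eq (MulAut.conj e) x
        have h4 : (x * b) ^ orderOf x = b := by
          have hc : Commute x b := hxbc
          rw [hc.mul_pow, pow_orderOf_eq_one, one_mul]
          obtain ⟨k, hk⟩ := hxodd
          rw [hk, pow_succ, pow_mul, pow_two, h.bb, one_pow, one_mul]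
        have h5 : (x * b) ^ orderOf x = 1 := by
          rw [← h2, ← h3, pow_orderOf_eq_one]
        exact hb1 (h4.symm.trans h5)

end Pool.Agent.H.MP_6268b4_co
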