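import Pool.Agent.H.MP_6268b4_co.PowerPoly

/-!
Flags of a polytope of rank 4 as tuples of four faces; adjacency; strong connectedness; freeness
of the action of the automorphism group.
-/

namespace Pool.Agent.H.MP_6268b4_co

set_option maxHeartbeats 400000

section rank

variable {n m : ℕ} {P : Type*} [PartialOrder P] [BoundedOrder P] {rk : P → ℤ}
  {Q : Type*} [PartialOrder Q] [BoundedOrder Q] {rk' : Q → ℤ}

lemma exists_flag_mem (x : P) : ∃ Φ : Flag P, x ∈ Φ := by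
  obtain ⟨Φ, hΦ⟩ := exists_flag_of_chain (s := {x}) (Set.subsingleton_singleton.isChain)
  exact ⟨Φ, hΦ rfl⟩

lemma exists_flag_mem₂ {x y : P} (hxy : x ≤ y) : ∃ Φ : Flag P, x ∈ Φ ∧ y ∈ Φ := by
  have : IsChain (· ≤ ·) ({x, y} : Set P) := by
    apply IsChain.insert (Set.subsingleton_singleton.isChain)
    intro b hb _
    rw [Set.mem_singleton_iff] at hb
    subst hb
    exact Or.inl hxy
  obtain ⟨Φ, hΦ⟩ := exists_flag_of_chain this
  exact ⟨Φ, hΦ (by simp), hΦ (by simp)⟩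

lemma IsPolytope.exists_lt (h : IsPolytope n P rk) {x : P} (hx : 0 ≤ rk x) :
    ∃ y, y < x ∧ rk y = rk x - 1 := by
  obtain ⟨Φ, hΦ⟩ := exists_flag_mem x
  have hx2 := h.rk_le x
  obtain ⟨y, ⟨hy1, hy2⟩, -⟩ := h.full Φ (rk x - 1) (by omega) (by omega)
  refine ⟨y, ?_, hy2⟩
  rcases Φ.le_or_le hy1 hΦ with h1 | h1
  · exact lt_of_le_of_ne h1 (by rintro rfl; omega)
  · have := h.mono_le h1
    omega

lemma IsPolytope.rk_le_map (h : IsPolytope n P rk) (hm : ∀ x y : Q, x < y → rk' x < rk' y)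
    (hb : ∀ y : Q, -1 ≤ rk' y) {f : P → Q} (hf : StrictMono f) :
    ∀ (k : ℕ) (x : P), rk x = k - 1 → rk x ≤ rk' (f x) := by
  intro k
  induction k with
  | zero =>
    intro x hx
    rw [hx]
    have := hb (f x)
    simpa using this
  | succ k ih =>
    intro x hx
    obtain ⟨y, hy1, hy2⟩ := h.exists_lt (x := x) (by rw [hx]; push_cast; omega)
    have h1 := ih y (by rw [hy2, hx]; push_cast; ring)
    have h2 := hm _ _ (hf hy1)
    omega

lemma IsPolytope.rk_map (h : IsPolytope n P rk) (h' : IsPolytope m Q rk') (f : P ≃o Q) (x : P) :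
    rk' (f x) = rk x := by
  apply le_antisymm
  · have h1 := h'.rk_ge (f x)
    have := h'.rk_le_map (f := f.symm) h.mono h.rk_ge f.symm.strictMono (rk' (f x) + 1).toNat
      (f x) (by rw [Int.toNat_of_nonneg (by omega)]; ring)
    simpa using this
  · have h1 := h.rk_ge x
    exact h.rk_le_map (f := f) h'.mono h'.rk_ge f.strictMono (rk x + 1).toNat
      x (by rw [Int.toNat_of_nonneg (by omega)]; ring)

end rank

/-- A flag of a polytope of rank 4, given by its faces of ranks `0, 1, 2, 3`. -/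
def Tup (P : Type*) [PartialOrder P] (rk : P → ℤ) : Type _ :=
  {f : Fin 4 → P // (∀ i, rk (f i) = (i : ℕ)) ∧ ∀ i j, i ≤ j → f i ≤ f j}

section tup

variable {P : Type*} [PartialOrder P] [BoundedOrder P] {rk : P → ℤ}

omit [BoundedOrder P] in
lemma Tup.ext {Φ Ψ : Tup P rk} (h : ∀ i, Φ.1 i = Ψ.1 i) : Φ = Ψ :=
  Subtype.ext (funext h)

omit [BoundedOrder P] in
lemma Tup.hrk (Φ : Tup P rk) (i : Fin 4) : rk (Φ.1 i) = (i : ℕ) := Φ.2.1 i

omit [BoundedOrder P] in
lemma Tup.le (Φ : Tup P rk) {i j : Fin 4} (h : i ≤ j) : Φ.1 i ≤ Φ.1 j := Φ.2.2 i j h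

omit [BoundedOrder P] in
lemma Tup.lt (Φ : Tup P rk) {i j : Fin 4} (h : i < j) : Φ.1 i < Φ.1 j := by
  refine lt_of_le_of_ne (Φ.le h.le) ?_
  intro he
  have h1 := Φ.hrk i
  have h2 := Φ.hrk j
  rw [he, h2] at h1
  have : (i : ℕ) < j := h
  omega

omit [BoundedOrder P] in
/-- replace the face of rank `i` -/
lemma exists_upd (Φ : Tup P rk) (i : Fin 4) (y : P) (hy : rk y = (i : ℕ))
    (h1 : ∀ k : Fin 4, (k : ℕ) + 1 = i → Φ.1 k ≤ y)
    (h2 : ∀ k : Fin 4, (i : ℕ) + 1 = k → y ≤ Φ.1 k) :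
    ∃ Ψ : Tup P rk, Ψ.1 i = y ∧ ∀ j, j ≠ i → Ψ.1 j = Φ.1 j := by
  classical
  refine ⟨⟨Function.update Φ.1 i y, ?_, ?_⟩, ?_, ?_⟩
  · intro j
    by_cases hj : j = i
    · subst hj
      rw [Function.update_self]
      exact hy
    · rw [Function.update_of_ne hj]
      exact Φ.hrk j
  · intro j k hjk
    by_cases hj : j = i
    · subst hj
      rw [Function.update_self]
      by_cases hk : k = j
      · subst hk
        rw [Function.update_self]
      · rw [Function.update_of_ne hk]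
        have h3 : (j : ℕ) < k := by
          rcases lt_or_eq_of_le hjk with h | h
          · exact h
          · exact absurd h.symm hk
        have hk4 := k.2
        refine (h2 ⟨j + 1, by omega⟩ rfl).trans (Φ.le ?_)
        change (j : ℕ) + 1 ≤ k
        omega
    · rw [Function.update_of_ne hj]
      by_cases hk : k = i
      · subst hk
        rw [Function.update_self]
        have h3 : (j : ℕ) < k := by
          rcases lt_or_eq_of_le hjk with h | h
          · exact h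
          · exact absurd h hj
        have hk4 := k.2
        refine (Φ.le ?_).trans (h1 ⟨k - 1, by omega⟩ (by change (k : ℕ) - 1 + 1 = k; omega))
        change (j : ℕ) ≤ k - 1
        omega
      · rw [Function.update_of_ne hk]
        exact Φ.le hjk
  · exact Function.update_self _ _ _
  · intro j hj
    exact Function.update_of_ne hj _ _

lemma exists_FG (h : IsPolytope 4 P rk) (Φ : Tup P rk) (i : Fin 4) :
    ∃ F G : P, rk G - rk F = 2 ∧ F < G ∧
      (∀ Ψ : Tup P rk, (∀ j, j ≠ i → Ψ.1 j = Φ.1 j) → F < Ψ.1 i ∧ Ψ.1 i < G) ∧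
      (∀ k : Fin 4, (k : ℕ) + 1 = i → Φ.1 k = F) ∧ (∀ k : Fin 4, (i : ℕ) + 1 = k → Φ.1 k = G) ∧
      rk F = (i : ℕ) - 1 := by
  have hF : ∃ F : P, (∀ Ψ : Tup P rk, (∀ j, j ≠ i → Ψ.1 j = Φ.1 j) → F < Ψ.1 i) ∧
      (∀ k : Fin 4, (k : ℕ) + 1 = i → Φ.1 k = F) ∧ rk F = (i : ℕ) - 1 := by
    by_cases hi : (i : ℕ) = 0
    · refine ⟨⊥, ?_, ?_, ?_⟩
      · intro Ψ _
        rw [bot_lt_iff_ne_bot]
        intro h0
        have := Ψ.hrk i
        rw [h0, h.bot] at this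
        omega
      · intro k hk
        omega
      · rw [h.bot, hi]
        simp
    · have hi4 := i.2
      refine ⟨Φ.1 ⟨i - 1, by omega⟩, ?_, ?_, ?_⟩
      · intro Ψ hΨ
        rw [← hΨ ⟨i - 1, by omega⟩ (by
          intro h1
          have := congrArg Fin.val h1
          simp only at this
          omega)]
        apply Ψ.lt
        change (i : ℕ) - 1 < i
        omega
      · intro k hk
        have : k = ⟨i - 1, by omega⟩ := Fin.ext (by change (k : ℕ) = i - 1; omega)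
        rw [this]
      · rw [Φ.hrk]
        simp only
        omega
  have hG : ∃ G : P, (∀ Ψ : Tup P rk, (∀ j, j ≠ i → Ψ.1 j = Φ.1 j) → Ψ.1 i < G) ∧
      (∀ k : Fin 4, (i : ℕ) + 1 = k → Φ.1 k = G) ∧ rk G = (i : ℕ) + 1 := by
    by_cases hi : (i : ℕ) = 3
    · refine ⟨⊤, ?_, ?_, ?_⟩
      · intro Ψ _
        rw [lt_top_iff_ne_top]
        intro h0
        have := Ψ.hrk i
        rw [h0, h.top] at this
        push_cast at this
        omega
      · intro k hk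
        have := k.2
        omega
      · rw [h.top, hi]
        norm_num
    · have hi4 := i.2
      refine ⟨Φ.1 ⟨i + 1, by omega⟩, ?_, ?_, ?_⟩
      · intro Ψ hΨ
        rw [← hΨ ⟨i + 1, by omega⟩ (by
          intro h1
          have := congrArg Fin.val h1
          simp only at this
          omega)]
        apply Ψ.lt
        change (i : ℕ) < i + 1
        omega
      · intro k hk
        have : k = ⟨i + 1, by omega⟩ := Fin.ext (by change (k : ℕ) = i + 1; omega)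
        rw [this]
      · rw [Φ.hrk]
        simp only
        push_cast
        ring
  obtain ⟨F, hF1, hF2, hF3⟩ := hF
  obtain ⟨G, hG1, hG2, hG3⟩ := hG
  refine ⟨F, G, by omega, ?_, ?_, hF2, hG2, hF3⟩
  · exact (hF1 Φ (fun _ _ => rfl)).trans (hG1 Φ (fun _ _ => rfl))
  · intro Ψ hΨ
    exact ⟨hF1 Ψ hΨ, hG1 Ψ hΨ⟩

lemma exists_adj (h : IsPolytope 4 P rk) (i : Fin 4) (Φ : Tup P rk) :
    ∃ Ψ : Tup P rk, Ψ.1 i ≠ Φ.1 i ∧ (∀ j, j ≠ i → Ψ.1 j = Φ.1 j) ∧
      ∀ Ψ' : Tup P rk, Ψ'.1 i ≠ Φ.1 i → (∀ j, j ≠ i → Ψ'.1 j = Φ.1 j) → Ψ' = Ψ := by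
  obtain ⟨F, G, hr, hFG, hΨ, h1, h2, hFr⟩ := exists_FG h Φ i
  have hd := h.diamond F G hFG hr
  rw [Set.ncard_eq_two] at hd
  obtain ⟨x, y, hxy, hset⟩ := hd
  have hmem : ∀ z, F < z ∧ z < G ↔ z = x ∨ z = y := by
    intro z
    have := Set.ext_iff.1 hset z
    simpa using this
  have hΦ := (hmem _).1 (hΨ Φ (fun _ _ => rfl))
  obtain ⟨z, hz1, hz2, hz3⟩ : ∃ z, (F < z ∧ z < G) ∧ z ≠ Φ.1 i ∧
      ∀ z', (F < z' ∧ z' < G) → z' ≠ Φ.1 i → z' = z := by
    rcases hΦ with h3 | h3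
    · refine ⟨y, (hmem y).2 (Or.inr rfl), ?_, ?_⟩
      · rw [h3]
        exact hxy.symm
      · intro z' hz' hne
        rcases (hmem z').1 hz' with h4 | h4
        · exact absurd (h4.trans h3.symm) hne
        · exact h4
    · refine ⟨x, (hmem x).2 (Or.inl rfl), ?_, ?_⟩
      · rw [h3]
        exact hxy
      · intro z' hz' hne
        rcases (hmem z').1 hz' with h4 | h4
        · exact h4
        · exact absurd (h4.trans h3.symm) hne
  have hzr : rk z = (i : ℕ) := by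
    have h3 := h.mono _ _ hz1.1
    have h4 := h.mono _ _ hz1.2
    omega
  obtain ⟨Ψ, hΨ1, hΨ2⟩ := exists_upd Φ i z hzr (fun k hk => by rw [h1 k hk]; exact hz1.1.le)
    (fun k hk => by rw [h2 k hk]; exact hz1.2.le)
  refine ⟨Ψ, by rw [hΨ1]; exact hz2, hΨ2, ?_⟩
  intro Ψ' hne hsame
  have h5 := hz3 _ (hΨ Ψ' hsame) hne
  apply Tup.ext
  intro j
  by_cases hj : j = i
  · subst hj
    rw [h5, hΨ1]
  · rw [hsame j hj, hΨ2 j hj]

/-- the `i`-adjacent flag -/
noncomputable def adj (h : IsPolytope 4 P rk) (i : Fin 4) (Φ : Tup P rk) : Tup P rk :=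
  (exists_adj h i Φ).choose

lemma adj_ne (h : IsPolytope 4 P rk) (i : Fin 4) (Φ : Tup P rk) : (adj h i Φ).1 i ≠ Φ.1 i :=
  (exists_adj h i Φ).choose_spec.1

lemma adj_same (h : IsPolytope 4 P rk) {i j : Fin 4} (Φ : Tup P rk) (hj : j ≠ i) :
    (adj h i Φ).1 j = Φ.1 j :=
  (exists_adj h i Φ).choose_spec.2.1 j hj

lemma adj_unique (h : IsPolytope 4 P rk) (i : Fin 4) (Φ Ψ : Tup P rk) (h1 : Ψ.1 i ≠ Φ.1 i)
    (h2 : ∀ j, j ≠ i → Ψ.1 j = Φ.1 j) : Ψ = adj h i Φ :=
  (exists_adj h i Φ).choose_spec.2.2 Ψ h1 h2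

lemma adj_adj (h : IsPolytope 4 P rk) (i : Fin 4) (Φ : Tup P rk) : adj h i (adj h i Φ) = Φ := by
  symm
  apply adj_unique
  · exact (adj_ne h i Φ).symm
  · intro j hj
    exact (adj_same h Φ hj).symm

lemma adj_local (h : IsPolytope 4 P rk) {i : Fin 4} {Φ Ψ : Tup P rk} (h0 : Φ.1 i = Ψ.1 i)
    (h1 : ∀ k : Fin 4, (k : ℕ) + 1 = i → Φ.1 k = Ψ.1 k)
    (h2 : ∀ k : Fin 4, (i : ℕ) + 1 = k → Φ.1 k = Ψ.1 k) : (adj h i Φ).1 i = (adj h i Ψ).1 i := by
  obtain ⟨X, hX1, hX2⟩ := exists_upd Ψ i ((adj h i Φ).1 i) (Tup.hrk _ _)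
    (fun k hk => by
      have hki : k ≠ i := by rintro rfl; omega
      rw [← h1 k hk, ← adj_same h Φ hki]
      apply Tup.le
      change (k : ℕ) ≤ i
      omega)
    (fun k hk => by
      have hki : k ≠ i := by rintro rfl; omega
      rw [← h2 k hk, ← adj_same h Φ hki]
      apply Tup.le
      change (i : ℕ) ≤ k
      omega)
  have h3 : X = adj h i Ψ := by
    apply adj_unique h i Ψ X _ hX2
    rw [hX1, ← h0]
    exact adj_ne h i Φ
  rw [← h3, hX1]

lemma adj_comm (h : IsPolytope 4 P rk) {i j : Fin 4} (hij : (i : ℕ) + 2 ≤ j) (Φ : Tup P rk) :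
    adj h i (adj h j Φ) = adj h j (adj h i Φ) := by
  have hne : i ≠ j := by rintro rfl; omega
  apply adj_unique
  · rw [adj_same h _ hne.symm, adj_same h _ hne.symm]
    exact adj_ne h j Φ
  · intro k hk
    by_cases hki : k = i
    · subst hki
      apply adj_local
      · exact adj_same h Φ hk
      · intro l hl
        exact adj_same h Φ (by rintro rfl; omega)
      · intro l hl
        exact adj_same h Φ (by rintro rfl; omega)
    · rw [adj_same h _ hki, adj_same h _ hk, adj_same h _ hki]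

/-- the flag given by a tuple -/
def ofTup (h : IsPolytope 4 P rk) (Φ : Tup P rk) : Flag P where
  carrier := {x | x = ⊥ ∨ x = ⊤ ∨ ∃ i, x = Φ.1 i}
  Chain' := by
    rintro x hx y hy -
    rcases hx with rfl | rfl | ⟨i, rfl⟩
    · exact Or.inl bot_le
    · exact Or.inr le_top
    · rcases hy with rfl | rfl | ⟨j, rfl⟩
      · exact Or.inr bot_le
      · exact Or.inl le_top
      · rcases le_total i j with hij | hij
        · exact Or.inl (Φ.le hij)
        · exact Or.inr (Φ.le hij)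
  max_chain' := by
    intro s hs hsub
    apply Set.Subset.antisymm hsub
    intro x hx
    have h1 := h.rk_ge x
    have h2 := h.rk_le x
    by_cases hb : rk x = -1
    · exact Or.inl (h.eq_bot hb)
    by_cases ht : rk x = 4
    · exact Or.inr (Or.inl (h.eq_top ht))
    right; right
    have h3 : (rk x).toNat < 4 := by
      push_cast at h2
      omega
    refine ⟨⟨(rk x).toNat, h3⟩, ?_⟩
    have h4 : Φ.1 ⟨(rk x).toNat, h3⟩ ∈ s := hsub (Or.inr (Or.inr ⟨_, rfl⟩))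
    have h5 : rk (Φ.1 ⟨(rk x).toNat, h3⟩) = rk x := by
      rw [Φ.hrk]
      simp only
      omega
    rcases hs.total hx h4 with h6 | h6
    · exact h.eq_of_le h6 h5.symm
    · exact (h.eq_of_le h6 h5).symm

lemma mem_ofTup (h : IsPolytope 4 P rk) (Φ : Tup P rk) (i : Fin 4) : Φ.1 i ∈ ofTup h Φ :=
  Or.inr (Or.inr ⟨i, rfl⟩)

lemma mem_ofTup_iff (h : IsPolytope 4 P rk) (Φ : Tup P rk) {x : P} {i : Fin 4}
    (hx : rk x = (i : ℕ)) : x ∈ ofTup h Φ ↔ x = Φ.1 i := by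
  constructor
  · intro h1
    exact h.eq_of_mem h1 (mem_ofTup h Φ i) (by rw [hx, Φ.hrk])
  · rintro rfl
    exact mem_ofTup h Φ i

lemma exists_tup (h : IsPolytope 4 P rk) (A : Flag P) : ∃ T : Tup P rk, ∀ i, T.1 i ∈ A := by
  have h1 : ∀ i : Fin 4, ∃ x, x ∈ A ∧ rk x = (i : ℕ) := by
    intro i
    have := i.2
    exact (h.full A (i : ℕ) (by omega) (by push_cast; omega)).exists
  choose f hf1 hf2 using h1
  refine ⟨⟨f, hf2, ?_⟩, hf1⟩
  intro i j hij
  rcases A.le_or_le (hf1 i) (hf1 j) with h3 | h3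
  · exact h3
  · have h4 := h.mono_le h3
    rw [hf2, hf2] at h4
    have h5 : (i : ℕ) ≤ j := hij
    have h6 : i = j := Fin.ext (by omega)
    rw [h6]

/-- the tuple of a flag -/
noncomputable def toTup (h : IsPolytope 4 P rk) (A : Flag P) : Tup P rk := (exists_tup h A).choose

lemma toTup_mem (h : IsPolytope 4 P rk) (A : Flag P) (i : Fin 4) : (toTup h A).1 i ∈ A :=
  (exists_tup h A).choose_spec i

lemma toTup_eq (h : IsPolytope 4 P rk) {A : Flag P} {x : P} (hx : x ∈ A) {i : Fin 4}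
    (hr : rk x = (i : ℕ)) : (toTup h A).1 i = x :=
  h.eq_of_mem (toTup_mem h A i) hx (by rw [hr]; exact Tup.hrk _ _)

lemma toTup_ofTup (h : IsPolytope 4 P rk) (Φ : Tup P rk) : toTup h (ofTup h Φ) = Φ := by
  apply Tup.ext
  intro i
  exact toTup_eq h (mem_ofTup h Φ i) (Φ.hrk i)

lemma ofTup_toTup (h : IsPolytope 4 P rk) (A : Flag P) : ofTup h (toTup h A) = A := by
  apply Flag.ext
  apply (ofTup h (toTup h A)).max_chain' A.Chain'
  rintro x (rfl | rfl | ⟨i, rfl⟩)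
  · exact A.bot_mem
  · exact A.top_mem
  · exact toTup_mem h A i

lemma adj_of_Adj (h : IsPolytope 4 P rk) {A B : Flag P} (hAB : Adj A B) :
    ∃ i, toTup h B = adj h i (toTup h A) := by
  obtain ⟨x, y, hx, hy, hxy, he⟩ := hAB
  have he' : ∀ z, (z ∈ A ∧ z ≠ x) ↔ (z ∈ B ∧ z ≠ y) := by
    intro z
    have := Set.ext_iff.1 he z
    simpa using this
  have hrk : rk y = rk x := by
    by_contra hne
    obtain ⟨z, ⟨hz1, hz2⟩, -⟩ := h.full A (rk y) (h.rk_ge y) (h.rk_le y)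
    have h1 := (he' z).1 ⟨hz1, by rintro rfl; exact hne hz2.symm⟩
    exact h1.2 (h.eq_of_mem h1.1 hy hz2)
  have h1 : rk x ≠ -1 := by
    intro h1
    exact hxy ((h.eq_bot h1).trans (h.eq_bot (hrk.trans h1)).symm)
  have h2 : rk x ≠ 4 := by
    intro h1
    exact hxy ((h.eq_top h1).trans (h.eq_top (hrk.trans h1)).symm)
  have h3 := h.rk_ge x
  have h4 := h.rk_le x
  push_cast at h4
  have h5 : (rk x).toNat < 4 := by omega
  have h6 : ((rk x).toNat : ℤ) = rk x := by omega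
  refine ⟨⟨(rk x).toNat, h5⟩, ?_⟩
  have hA : (toTup h A).1 ⟨(rk x).toNat, h5⟩ = x := toTup_eq h hx h6.symm
  have hB : (toTup h B).1 ⟨(rk x).toNat, h5⟩ = y := toTup_eq h hy (hrk.trans h6.symm)
  apply adj_unique
  · rw [hA, hB]
    exact hxy.symm
  · intro j hj
    have h7 : (toTup h A).1 j ≠ x := by
      intro h8
      apply hj
      have h9 := Tup.hrk (toTup h A) j
      rw [h8] at h9
      apply Fin.ext
      simp only
      omega
    have h8 := (he' _).1 ⟨toTup_mem h A j, h7⟩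
    exact toTup_eq h h8.1 (Tup.hrk _ _)

lemma Adj_adj (h : IsPolytope 4 P rk) (Φ : Tup P rk) (i : Fin 4) :
    Adj (ofTup h Φ) (ofTup h (adj h i Φ)) := by
  refine ⟨Φ.1 i, (adj h i Φ).1 i, mem_ofTup h Φ i, mem_ofTup h _ i, (adj_ne h i Φ).symm, ?_⟩
  have key : ∀ (Φ Ψ : Tup P rk), (∀ j, j ≠ i → Ψ.1 j = Φ.1 j) →
      ∀ x, (x ∈ ofTup h Φ ∧ x ≠ Φ.1 i) → (x ∈ ofTup h Ψ ∧ x ≠ Ψ.1 i) := by
    rintro Φ Ψ hs x ⟨h1, h2⟩
    rcases h1 with rfl | rfl | ⟨j, rfl⟩
    · refine ⟨Flag.bot_mem _, ?_⟩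
      intro h3
      have := Ψ.hrk i
      rw [← h3, h.bot] at this
      omega
    · refine ⟨Flag.top_mem _, ?_⟩
      intro h3
      have h4 := Ψ.hrk i
      rw [← h3, h.top] at h4
      push_cast at h4
      have := i.2
      omega
    · have hj : j ≠ i := by rintro rfl; exact h2 rfl
      rw [← hs j hj]
      refine ⟨mem_ofTup h Ψ j, ?_⟩
      intro h3
      have h4 := Ψ.hrk i
      have h5 := Ψ.hrk j
      rw [h3, h4] at h5
      exact hj (Fin.ext (by omega))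
  ext x
  simp only [Set.mem_sdiff, SetLike.mem_coe, Set.mem_singleton_iff]
  constructor
  · exact key Φ (adj h i Φ) (fun j hj => adj_same h Φ hj) x
  · exact key (adj h i Φ) Φ (fun j hj => (adj_same h Φ hj).symm) x

/-- strong flag-connectedness in terms of tuples -/
lemma conn_tup (h : IsPolytope 4 P rk) (Φ Ψ : Tup P rk) :
    Relation.ReflTransGen (fun A B : Tup P rk => ∃ i, Φ.1 i ≠ Ψ.1 i ∧ B = adj h i A) Φ Ψ := by
  have h1 := h.conn (ofTup h Φ) (ofTup h Ψ)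
  have h2 := rtg_lift (p := fun A B : Tup P rk => ∃ i, Φ.1 i ≠ Ψ.1 i ∧ B = adj h i A)
    (toTup h) (fun A B hAB => by
      obtain ⟨hadj, hA, hB⟩ := hAB
      obtain ⟨i, hi⟩ := adj_of_Adj h hadj
      refine ⟨i, ?_, hi⟩
      intro he
      have h3 : Φ.1 i ∈ (ofTup h Φ : Set P) ∩ ofTup h Ψ :=
        ⟨mem_ofTup h Φ i, by rw [he]; exact mem_ofTup h Ψ i⟩
      have h4 := toTup_eq h (hA h3) (Φ.hrk i)
      have h5 := toTup_eq h (hB h3) (Φ.hrk i)
      rw [hi] at h5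
      exact adj_ne h i _ (h5.trans h4.symm)) h1
  rwa [toTup_ofTup, toTup_ofTup] at h2

lemma exists_tup_mem (h : IsPolytope 4 P rk) {x : P} {i : Fin 4} (hx : rk x = (i : ℕ)) :
    ∃ Φ : Tup P rk, Φ.1 i = x := by
  obtain ⟨A, hA⟩ := exists_flag_mem x
  exact ⟨toTup h A, toTup_eq h hA hx⟩

lemma exists_tup_mem₂ (h : IsPolytope 4 P rk) {x y : P} {i j : Fin 4} (hx : rk x = (i : ℕ))
    (hy : rk y = (j : ℕ)) (hxy : x ≤ y) : ∃ Φ : Tup P rk, Φ.1 i = x ∧ Φ.1 j = y := by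
  obtain ⟨A, hA1, hA2⟩ := exists_flag_mem₂ hxy
  exact ⟨toTup h A, toTup_eq h hA1 hx, toTup_eq h hA2 hy⟩

lemma exists_fin (h : IsPolytope 4 P rk) {x : P} (hb : x ≠ ⊥) (ht : x ≠ ⊤) :
    ∃ i : Fin 4, rk x = (i : ℕ) := by
  have h3 := h.rk_ge x
  have h4 := h.rk_le x
  have h1 : rk x ≠ -1 := fun h0 => hb (h.eq_bot h0)
  have h2 : rk x ≠ 4 := fun h0 => ht (h.eq_top h0)
  push_cast at h4
  exact ⟨⟨(rk x).toNat, by omega⟩, by simp only; omega⟩

end tup

section act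

variable {P : Type*} [PartialOrder P] [BoundedOrder P] {rk : P → ℤ}
  {Q : Type*} [PartialOrder Q] [BoundedOrder Q] {rk' : Q → ℤ}

/-- the action of isomorphisms on tuples -/
def tmap (h : IsPolytope 4 P rk) (h' : IsPolytope 4 Q rk') (γ : P ≃o Q) (Φ : Tup P rk) :
    Tup Q rk' :=
  ⟨fun i => γ (Φ.1 i), fun i => by rw [h.rk_map h']; exact Φ.hrk i,
    fun i j hij => γ.monotone (Φ.le hij)⟩

lemma tmap_apply (h : IsPolytope 4 P rk) (h' : IsPolytope 4 Q rk') (γ : P ≃o Q) (Φ : Tup P rk)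
    (i : Fin 4) : (tmap h h' γ Φ).1 i = γ (Φ.1 i) := rfl

lemma tmap_adj (h : IsPolytope 4 P rk) (h' : IsPolytope 4 Q rk') (γ : P ≃o Q) (i : Fin 4)
    (Φ : Tup P rk) : tmap h h' γ (adj h i Φ) = adj h' i (tmap h h' γ Φ) := by
  apply adj_unique
  · rw [tmap_apply, tmap_apply]
    exact fun h1 => adj_ne h i Φ (γ.injective h1)
  · intro j hj
    rw [tmap_apply, tmap_apply, adj_same h Φ hj]

lemma tmap_mul (h : IsPolytope 4 P rk) (γ δ : P ≃o P) (Φ : Tup P rk) :
    tmap h h (γ * δ) Φ = tmap h h γ (tmap h h δ Φ) := rfl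

lemma tmap_one (h : IsPolytope 4 P rk) (Φ : Tup P rk) : tmap h h 1 Φ = Φ := rfl

lemma tmap_inv (h : IsPolytope 4 P rk) (γ : P ≃o P) {Φ Ψ : Tup P rk} (hγ : tmap h h γ Φ = Ψ) :
    tmap h h γ⁻¹ Ψ = Φ := by
  rw [← hγ, ← tmap_mul, inv_mul_cancel, tmap_one]

/-- freeness -/
lemma eq_one_of_tmap (h : IsPolytope 4 P rk) {γ : P ≃o P} {Φ : Tup P rk}
    (hγ : tmap h h γ Φ = Φ) : γ = 1 := by
  have key0 : ∀ (J : Fin 4 → Prop) (A : Tup P rk),
      Relation.ReflTransGen (fun A B : Tup P rk => ∃ i, J i ∧ B = adj h i A) Φ A →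
      tmap h h γ A = A := by
    intro J A hA
    induction hA with
    | refl => exact hγ
    | tail _ hbc ih =>
      obtain ⟨i, -, rfl⟩ := hbc
      rw [tmap_adj, ih]
  have key : ∀ Ψ : Tup P rk, tmap h h γ Ψ = Ψ := fun Ψ => key0 _ Ψ (conn_tup h Φ Ψ)
  ext x
  by_cases hb : x = ⊥
  · subst hb
    exact OrderIso.map_bot γ
  by_cases ht : x = ⊤
  · subst ht
    exact OrderIso.map_top γ
  obtain ⟨i, hi⟩ := exists_fin h hb ht
  obtain ⟨Ψ, hΨ⟩ := exists_tup_mem h hi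
  have := congrArg (fun T : Tup P rk => T.1 i) (key Ψ)
  simp only [tmap_apply, hΨ] at this
  exact this

lemma eq_of_tmap (h : IsPolytope 4 P rk) {γ δ : P ≃o P} {Φ : Tup P rk}
    (hγ : tmap h h γ Φ = tmap h h δ Φ) : γ = δ := by
  have h1 : tmap h h (δ⁻¹ * γ) Φ = Φ := by
    rw [tmap_mul, hγ, ← tmap_mul, inv_mul_cancel, tmap_one]
  have := eq_one_of_tmap h h1
  exact (inv_mul_eq_one.1 this).symm

end act

end Pool.Agent.H.MP_6268b4_co
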