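import Pool.Agent.H.MP_6268b4_co.TWord

/-!
Isomorphism criteria for polytopes of rank 4 in terms of words of adjacencies.
-/

namespace Pool.Agent.H.MP_6268b4_co

variable {P : Type*} [PartialOrder P] [BoundedOrder P] {rk : P → ℤ}
  {Q : Type*} [PartialOrder Q] [BoundedOrder Q] {rk' : Q → ℤ}

lemma tiso_eq (h : IsPolytope 4 P rk) (h' : IsPolytope 4 Q rk') {Φ : Tup P rk}
    {Ψ : Tup Q rk'} (hw : ∀ w : List (Fin 4), adjw h w Φ = Φ ↔ adjw h' w Ψ = Ψ)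
    {w w' : List (Fin 4)} (he : adjw h w Φ = adjw h w' Φ) : adjw h' w Ψ = adjw h' w' Ψ := by
  rw [adjw_eq_iff] at he ⊢
  exact (hw _).mp he

lemma tiso_face (h : IsPolytope 4 P rk) (h' : IsPolytope 4 Q rk') {Φ : Tup P rk}
    {Ψ : Tup Q rk'} (hw : ∀ w : List (Fin 4), adjw h w Φ = Φ ↔ adjw h' w Ψ = Ψ)
    {w w' : List (Fin 4)} {i : Fin 4} (he : (adjw h w Φ).1 i = (adjw h w' Φ).1 i) :
    (adjw h' w Ψ).1 i = (adjw h' w' Ψ).1 i := by
  obtain ⟨u, hu1, hu2⟩ := exists_word h (adjw h w Φ) (adjw h w' Φ)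
  have hiu : i ∉ u := fun hi => hu1 i hi he
  rw [← adjw_append] at hu2
  have h1 := tiso_eq h h' hw hu2
  rw [adjw_append] at h1
  rw [← h1, adjw_same h' hiu]

lemma tiso_le (h : IsPolytope 4 P rk) (h' : IsPolytope 4 Q rk') {Φ : Tup P rk}
    {Ψ : Tup Q rk'} (hw : ∀ w : List (Fin 4), adjw h w Φ = Φ ↔ adjw h' w Ψ = Ψ)
    {w w' : List (Fin 4)} {i j : Fin 4} (he : (adjw h w Φ).1 i ≤ (adjw h w' Φ).1 j) :
    (adjw h' w Ψ).1 i ≤ (adjw h' w' Ψ).1 j := by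
  have hij : i ≤ j := by
    have h1 := h.mono_le he
    rw [(adjw h w Φ).hrk i, (adjw h w' Φ).hrk j] at h1
    have h2 : (i : ℕ) ≤ (j : ℕ) := by exact_mod_cast h1
    exact h2
  obtain ⟨X, hX1, hX2⟩ := exists_tup_mem₂ h ((adjw h w Φ).hrk i) ((adjw h w' Φ).hrk j) he
  obtain ⟨u, -, hu⟩ := exists_word h Φ X
  rw [← hu] at hX1 hX2
  rw [← tiso_face h h' hw hX1, ← tiso_face h h' hw hX2]
  exact Tup.le _ hij

lemma tiso_bot_ne_top (h : IsPolytope 4 P rk) : (⊥ : P) ≠ ⊤ := by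
  intro he
  have h1 := h.bot
  rw [he, h.top] at h1
  norm_num at h1

lemma tiso_ne_bot (h : IsPolytope 4 P rk) (X : Tup P rk) (i : Fin 4) : X.1 i ≠ ⊥ := by
  intro he
  have h1 := X.hrk i
  rw [he, h.bot] at h1
  omega

lemma tiso_ne_top (h : IsPolytope 4 P rk) (X : Tup P rk) (i : Fin 4) : X.1 i ≠ ⊤ := by
  intro he
  have h1 := X.hrk i
  rw [he, h.top] at h1
  have h2 := i.2
  push_cast at h1
  omega

/-- corresponding faces -/
def tiso_R (h : IsPolytope 4 P rk) (h' : IsPolytope 4 Q rk') (Φ : Tup P rk) (Ψ : Tup Q rk')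
    (x : P) (y : Q) : Prop :=
  (x = ⊥ ∧ y = ⊥) ∨ (x = ⊤ ∧ y = ⊤) ∨ ∃ w i, (adjw h w Φ).1 i = x ∧ (adjw h' w Ψ).1 i = y

lemma tiso_R_symm {h : IsPolytope 4 P rk} {h' : IsPolytope 4 Q rk'} {Φ : Tup P rk}
    {Ψ : Tup Q rk'} {x : P} {y : Q} (hR : tiso_R h h' Φ Ψ x y) : tiso_R h' h Ψ Φ y x := by
  rcases hR with ⟨h1, h2⟩ | ⟨h1, h2⟩ | ⟨w, i, h1, h2⟩
  · exact Or.inl ⟨h2, h1⟩
  · exact Or.inr (Or.inl ⟨h2, h1⟩)
  · exact Or.inr (Or.inr ⟨w, i, h2, h1⟩)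

lemma tiso_R_total (h : IsPolytope 4 P rk) (h' : IsPolytope 4 Q rk') (Φ : Tup P rk)
    (Ψ : Tup Q rk') (x : P) : ∃ y, tiso_R h h' Φ Ψ x y := by
  by_cases hb : x = ⊥
  · exact ⟨⊥, Or.inl ⟨hb, rfl⟩⟩
  by_cases ht : x = ⊤
  · exact ⟨⊤, Or.inr (Or.inl ⟨ht, rfl⟩)⟩
  obtain ⟨i, hi⟩ := exists_fin h hb ht
  obtain ⟨X, hX⟩ := exists_tup_mem h hi
  obtain ⟨u, -, hu⟩ := exists_word h Φ X
  exact ⟨(adjw h' u Ψ).1 i, Or.inr (Or.inr ⟨u, i, by rw [hu, hX], rfl⟩)⟩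

lemma tiso_R_le {h : IsPolytope 4 P rk} {h' : IsPolytope 4 Q rk'} {Φ : Tup P rk}
    {Ψ : Tup Q rk'} (hw : ∀ w : List (Fin 4), adjw h w Φ = Φ ↔ adjw h' w Ψ = Ψ)
    {x x' : P} {y y' : Q} (hR : tiso_R h h' Φ Ψ x y) (hR' : tiso_R h h' Φ Ψ x' y')
    (hx : x ≤ x') : y ≤ y' := by
  rcases hR with ⟨h1, h2⟩ | ⟨h1, h2⟩ | ⟨w, i, h1, h2⟩
  · rw [h2]
    exact bot_le
  · have hx' : x' = ⊤ := by
      rw [h1] at hx
      exact top_le_iff.mp hx
    rcases hR' with ⟨h3, h4⟩ | ⟨h3, h4⟩ | ⟨w', j, h3, h4⟩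
    · exact absurd (h3.symm.trans hx') (tiso_bot_ne_top h)
    · rw [h4]
      exact le_top
    · exact absurd (h3.trans hx') (tiso_ne_top h _ j)
  · rcases hR' with ⟨h3, h4⟩ | ⟨h3, h4⟩ | ⟨w', j, h3, h4⟩
    · rw [h3, ← h1] at hx
      exact absurd (le_bot_iff.mp hx) (tiso_ne_bot h _ i)
    · rw [h4]
      exact le_top
    · rw [← h1, ← h3] at hx
      rw [← h2, ← h4]
      exact tiso_le h h' hw hx

/-- Job TIso. Two polytopes of rank 4 in which the same words of adjacencies fix the base flag are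
isomorphic.

Proof. Put `p w = adjw h w Φ`, `q w = adjw h' w Ψ` for words `w`. By `hw` and `adjw_eq_iff`:
(1) `p w = p w' ↔ q w = q w'`. By `exists_word` every tuple of `P` is some `p w`, every tuple of
`Q` is some `q w`.
(2) KEY: if `(p w).1 i = (p w').1 i` then `(q w).1 i = (q w').1 i`, and conversely. Proof: by
`exists_word h (p w) (p w')` there is a word `u` not containing the letter `i` with
`adjw h u (p w) = p w'`, i.e. `p (w ++ u) = p w'` (`adjw_append`); by (1) `q (w ++ u) = q w'`;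
and `adjw_same` gives `(q w').1 i = (adjw h' u (q w)).1 i = (q w).1 i`. The converse is the same
statement with the roles of `P` and `Q` interchanged.
(3) Order: if `(p w).1 i ≤ (p w').1 j` then `(q w).1 i ≤ (q w').1 j`: comparing ranks, `i ≤ j`
(`IsPolytope.mono_le`, `Tup.hrk`); by `exists_tup_mem₂` there is a tuple `p w''` with
`(p w'').1 i = (p w).1 i` and `(p w'').1 j = (p w').1 j`. By (2) `(q w).1 i = (q w'').1 i ≤
(q w'').1 j = (q w').1 j`. Conversely by symmetry.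
(4) Define the relation `R x y` between faces: `(x = ⊥ ∧ y = ⊥) ∨ (x = ⊤ ∧ y = ⊤) ∨
∃ w i, (p w).1 i = x ∧ (q w).1 i = y`. Every `x : P` has some `y` with `R x y` (`exists_fin`,
`exists_tup_mem`), every `y : Q` has some `x`; and if `R x y`, `R x' y'` then `x ≤ x' ↔ y ≤ y'`
(by (3); the faces `(p w).1 i` have rank between 0 and 3, so they are different from `⊥`, `⊤`, and
`⊤ ≤ z` iff `z = ⊤` etc.). Choose `f : P → Q` with `R x (f x)`. Then `x ≤ x' ↔ f x ≤ f x'`, so `f` is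
injective, and surjective: for `y : Q` take `x` with `R x y`; `R x (f x)` and `R x y` give
`f x ≤ y ≤ f x`. So `f` is an order isomorphism (`RelIso.ofSurjective` or build it directly from
`Equiv.ofBijective`). -/
theorem iso_of_words_base (h : IsPolytope 4 P rk) (h' : IsPolytope 4 Q rk') (Φ : Tup P rk)
    (Ψ : Tup Q rk') (hw : ∀ w : List (Fin 4), adjw h w Φ = Φ ↔ adjw h' w Ψ = Ψ) :
    ∃ f : P ≃o Q, tmap h h' f Φ = Ψ := by
  choose f hf using tiso_R_total h h' Φ Ψ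
  have hw' : ∀ w : List (Fin 4), adjw h' w Ψ = Ψ ↔ adjw h w Φ = Φ := fun w => (hw w).symm
  have hle : ∀ x x', f x ≤ f x' ↔ x ≤ x' := fun x x' =>
    ⟨tiso_R_le hw' (tiso_R_symm (hf x)) (tiso_R_symm (hf x')), tiso_R_le hw (hf x) (hf x')⟩
  have hinj : Function.Injective f := fun x x' hxx =>
    le_antisymm ((hle x x').mp hxx.le) ((hle x' x).mp hxx.ge)
  have hsurj : Function.Surjective f := by
    intro y
    obtain ⟨x, hx⟩ := tiso_R_total h' h Ψ Φ y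
    have hx' := tiso_R_symm hx
    exact ⟨x, le_antisymm (tiso_R_le hw (hf x) hx' le_rfl) (tiso_R_le hw hx' (hf x) le_rfl)⟩
  refine ⟨⟨Equiv.ofBijective f ⟨hinj, hsurj⟩, fun {a b} => hle a b⟩, ?_⟩
  apply Tup.ext
  intro i
  change f (Φ.1 i) = Ψ.1 i
  have hR : tiso_R h h' Φ Ψ (Φ.1 i) (Ψ.1 i) := Or.inr (Or.inr ⟨[], i, rfl, rfl⟩)
  exact le_antisymm (tiso_R_le hw (hf _) hR le_rfl) (tiso_R_le hw hR (hf _) le_rfl)

/-- Two polytopes of rank 4 in which the same words of adjacencies fix the base flag are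
isomorphic. -/
theorem iso_of_words (h : IsPolytope 4 P rk) (h' : IsPolytope 4 Q rk') (Φ : Tup P rk)
    (Ψ : Tup Q rk') (hw : ∀ w : List (Fin 4), adjw h w Φ = Φ ↔ adjw h' w Ψ = Ψ) :
    Nonempty (P ≃o Q) := by
  obtain ⟨f, -⟩ := iso_of_words_base h h' Φ Ψ hw
  exact ⟨f⟩

end Pool.Agent.H.MP_6268b4_co
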