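import Pool.Agent.H.MP_6268b4_co.MGenB
import Pool.Agent.H.MP_6268b4_co.TBase

/-!
Criterion for a poset to be an abstract polytope, in arbitrary rank; connectedness of sections of
polytopes.
-/

namespace Pool.Agent.H.MP_6268b4_co

/-- A bounded poset with a strictly increasing rank function, `-1` at the bottom, `n` at the top,
such that faces whose ranks differ by more than one have a face strictly between them. -/
structure GradedN (n : ℕ) (Q : Type*) [PartialOrder Q] [BoundedOrder Q] (rk : Q → ℤ) : Prop where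
  mono : ∀ x y : Q, x < y → rk x < rk y
  bot : rk ⊥ = -1
  top : rk ⊤ = n
  dense : ∀ x y : Q, x < y → rk x + 1 < rk y → ∃ z, x < z ∧ z < y

variable {n : ℕ} {Q : Type*} [PartialOrder Q] [BoundedOrder Q] {rk : Q → ℤ}

/-- Job UGen-1. Every flag has exactly one face of each rank. Proof: as `graded_full` in
`MGen.lean` (the case `n = 4`), copy and adapt it. -/
theorem gradedN_full (hG : GradedN n Q rk) (Φ : Flag Q) (i : ℤ) (h1 : -1 ≤ i) (h2 : i ≤ n) :
    ∃! x : Q, x ∈ Φ ∧ rk x = i := by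
  have hmono : ∀ x y : Q, x ≤ y → rk x ≤ rk y := by
    intro x y h
    rcases h.eq_or_lt with h | h
    · rw [h]
    · exact (hG.mono x y h).le
  have hcmp : ∀ x y : Q, x ∈ Φ → y ∈ Φ → rk x ≤ rk y → x ≤ y := by
    intro x y hx hy h
    rcases Φ.le_or_le hx hy with h' | h'
    · exact h'
    · rcases h'.eq_or_lt with h'' | h''
      · exact h''.ge
      · have := hG.mono y x h''
        omega
  have hbot : (⊥ : Q) ∈ Φ := Φ.bot_mem
  have htop : (⊤ : Q) ∈ Φ := Φ.top_mem
  have hex : ∃ x : Q, x ∈ Φ ∧ rk x = i := by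
    by_contra hne
    push Not at hne
    have hi1 : -1 < i := by
      have := hne ⊥ hbot
      rw [hG.bot] at this
      omega
    have hi2 : i < n := by
      have := hne ⊤ htop
      rw [hG.top] at this
      omega
    obtain ⟨m, ⟨a, haΦ, ham, hai⟩, hmax⟩ := Int.exists_greatest_of_bdd
      (P := fun m : ℤ => ∃ a : Q, a ∈ Φ ∧ rk a = m ∧ rk a < i)
      ⟨i, by rintro z ⟨a, -, h, h'⟩; omega⟩ ⟨-1, ⊥, hbot, hG.bot, by rw [hG.bot]; exact hi1⟩
    obtain ⟨m2, ⟨b, hbΦ, hbn, hbi⟩, hmin⟩ := Int.exists_least_of_bdd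
      (P := fun m : ℤ => ∃ a : Q, a ∈ Φ ∧ rk a = m ∧ i < rk a)
      ⟨i, by rintro z ⟨a, -, h, h'⟩; omega⟩ ⟨n, ⊤, htop, hG.top, by rw [hG.top]; exact hi2⟩
    have hab : a < b := by
      refine lt_of_le_of_ne (hcmp a b haΦ hbΦ (by omega)) ?_
      intro h
      rw [h] at hai
      omega
    obtain ⟨z, haz, hzb⟩ := hG.dense a b hab (by omega)
    have hz : z ∈ Φ := by
      rw [Flag.mem_iff_forall_le_or_ge]
      intro c hc
      have hc' := hne c hc
      rcases lt_or_gt_of_ne hc' with h | h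
      · have h3 := hmax (rk c) ⟨c, hc, rfl, h⟩
        exact Or.inr ((hcmp c a hc haΦ (by omega)).trans haz.le)
      · have h3 := hmin (rk c) ⟨c, hc, rfl, h⟩
        exact Or.inl (hzb.le.trans (hcmp b c hbΦ hc (by omega)))
    have h1 := hG.mono a z haz
    have h2 := hG.mono z b hzb
    rcases lt_or_gt_of_ne (hne z hz) with h | h
    · have h3 := hmax (rk z) ⟨z, hz, rfl, h⟩
      omega
    · have h3 := hmin (rk z) ⟨z, hz, rfl, h⟩
      omega
  obtain ⟨x, hx, hxi⟩ := hex
  refine ⟨x, ⟨hx, hxi⟩, ?_⟩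
  rintro y ⟨hy, hyi⟩
  exact le_antisymm (hcmp y x hy hx (by omega)) (hcmp x y hx hy (by omega))

private theorem ugen_rk_ge (hG : GradedN n Q rk) (x : Q) : -1 ≤ rk x := by
  rcases (bot_le : ⊥ ≤ x).lt_or_eq with h | h
  · have := hG.mono _ _ h
    rw [hG.bot] at this
    exact this.le
  · rw [← h, hG.bot]

private theorem ugen_rk_le (hG : GradedN n Q rk) (x : Q) : rk x ≤ n := by
  rcases (le_top : x ≤ ⊤).lt_or_eq with h | h
  · have := hG.mono _ _ h
    rw [hG.top] at this
    exact this.le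
  · rw [h, hG.top]

private theorem ugen_eq (hG : GradedN n Q rk) {Φ : Flag Q} {x y : Q} (hx : x ∈ Φ) (hy : y ∈ Φ)
    (h : rk x = rk y) : x = y := by
  rcases Φ.le_or_le hx hy with h1 | h1
  · rcases h1.lt_or_eq with h2 | h2
    · exact absurd h (hG.mono _ _ h2).ne
    · exact h2
  · rcases h1.lt_or_eq with h2 | h2
    · exact absurd h.symm (hG.mono _ _ h2).ne
    · exact h2.symm

private theorem ugen_lt (hG : GradedN n Q rk) {Φ : Flag Q} {x y : Q} (hx : x ∈ Φ) (hy : y ∈ Φ)
    (h : rk x < rk y) : x < y := by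
  rcases Φ.le_or_le hx hy with h1 | h1
  · rcases h1.lt_or_eq with h2 | h2
    · exact h2
    · rw [h2] at h
      exact absurd h (lt_irrefl _)
  · rcases h1.lt_or_eq with h2 | h2
    · have := hG.mono _ _ h2
      omega
    · rw [h2] at h
      exact absurd h (lt_irrefl _)

open Classical in
/-- the ranks from `0` to `n - 1` which do not occur in `J` -/
private noncomputable def ugen_mis (n : ℕ) (rk : Q → ℤ) (J : Set Q) : Finset ℤ :=
  (Finset.Icc (0 : ℤ) ((n : ℤ) - 1)).filter (fun i => ∀ j ∈ J, rk j ≠ i)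

omit [PartialOrder Q] [BoundedOrder Q] in
private theorem ugen_mem_mis {J : Set Q} {i : ℤ} :
    i ∈ ugen_mis n rk J ↔ (0 ≤ i ∧ i ≤ (n : ℤ) - 1) ∧ ∀ j ∈ J, rk j ≠ i := by
  simp only [ugen_mis, Finset.mem_filter, Finset.mem_Icc]

omit [PartialOrder Q] [BoundedOrder Q] in
private theorem ugen_card_lt {J : Set Q} {z : Q} (h0 : 0 ≤ rk z) (h3 : rk z ≤ (n : ℤ) - 1)
    (hz : ∀ j ∈ J, rk j ≠ rk z) :
    (ugen_mis n rk (insert z J)).card < (ugen_mis n rk J).card := by
  apply Finset.card_lt_card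
  rw [Finset.ssubset_iff_of_subset]
  · refine ⟨rk z, ugen_mem_mis.2 ⟨⟨h0, h3⟩, hz⟩, ?_⟩
    intro h
    exact (ugen_mem_mis.1 h).2 z (Set.mem_insert _ _) rfl
  · intro i hi
    rw [ugen_mem_mis] at hi ⊢
    exact ⟨hi.1, fun j hj => hi.2 j (Set.mem_insert_of_mem _ hj)⟩

/-- a face of a flag whose rank occurs in `J` is in `J` -/
private theorem ugen_mem_of (hG : GradedN n Q rk) {J : Set Q} (hb : ⊥ ∈ J) (ht : ⊤ ∈ J)
    {Φ : Flag Q} (hΦ : J ⊆ (Φ : Set Q)) {x : Q} (hx : x ∈ Φ) (h : rk x ∉ ugen_mis n rk J) :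
    x ∈ J := by
  have h1 := ugen_rk_ge hG x
  have h2 := ugen_rk_le hG x
  by_cases h3 : rk x = -1
  · have : x = ⊥ := ugen_eq hG hx (hΦ hb) (by rw [h3, hG.bot])
    rw [this]
    exact hb
  by_cases h4 : rk x = n
  · have : x = ⊤ := ugen_eq hG hx (hΦ ht) (by rw [h4, hG.top])
    rw [this]
    exact ht
  rw [ugen_mem_mis] at h
  push Not at h
  obtain ⟨j, hj, hjx⟩ := h ⟨by omega, by omega⟩
  have : x = j := ugen_eq hG hx (hΦ hj) hjx.symm
  rw [this]
  exact hj

/-- adjacency of flags containing `J` -/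
private def ugen_R (J : Set Q) (A B : Flag Q) : Prop :=
  Adj A B ∧ J ⊆ (A : Set Q) ∧ J ⊆ (B : Set Q)

private theorem ugen_mono {J J' : Set Q} (h : J ⊆ J') {A B : Flag Q}
    (hAB : Relation.ReflTransGen (ugen_R J') A B) : Relation.ReflTransGen (ugen_R J) A B := by
  have h1 : ∀ a b, ugen_R J' a b → ugen_R J a b :=
    fun _ _ hc => ⟨hc.1, h.trans hc.2.1, h.trans hc.2.2⟩
  exact Relation.ReflTransGen.mono h1 _ _ hAB

private theorem ugen_flag_eq (hG : GradedN n Q rk) {J : Set Q} (hb : ⊥ ∈ J) (ht : ⊤ ∈ J)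
    {Φ Ψ : Flag Q} (hΦ : J ⊆ (Φ : Set Q)) (hΨ : J ⊆ (Ψ : Set Q))
    (h1 : ∀ x ∈ Φ, rk x ∉ ugen_mis n rk J) (h2 : ∀ x ∈ Ψ, rk x ∉ ugen_mis n rk J) : Φ = Ψ := by
  apply SetLike.coe_injective
  apply Set.Subset.antisymm
  · intro x hx
    exact hΨ (ugen_mem_of hG hb ht hΦ hx (h1 x hx))
  · intro x hx
    exact hΦ (ugen_mem_of hG hb ht hΨ hx (h2 x hx))

private theorem ugen_claim (hG : GradedN n Q rk) (hS : SecConn Q rk) (m : ℕ) :
    ∀ J : Set Q, ⊥ ∈ J → ⊤ ∈ J → (ugen_mis n rk J).card ≤ m → ∀ Φ Ψ : Flag Q,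
      J ⊆ (Φ : Set Q) → J ⊆ (Ψ : Set Q) → Relation.ReflTransGen (ugen_R J) Φ Ψ := by
  induction m with
  | zero =>
    intro J hb ht hcard Φ Ψ hΦ hΨ
    have hmis : ugen_mis n rk J = ∅ := Finset.card_eq_zero.1 (Nat.le_zero.1 hcard)
    have := ugen_flag_eq hG hb ht hΦ hΨ (fun x _ => by rw [hmis]; exact Finset.notMem_empty _)
      (fun x _ => by rw [hmis]; exact Finset.notMem_empty _)
    rw [this]
  | succ m ih =>
    intro J hb ht hcard Φ Ψ hΦ hΨ
    by_cases hmis : ugen_mis n rk J = ∅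
    · have := ugen_flag_eq hG hb ht hΦ hΨ (fun x _ => by rw [hmis]; exact Finset.notMem_empty _)
        (fun x _ => by rw [hmis]; exact Finset.notMem_empty _)
      rw [this]
    have hne := Finset.nonempty_iff_ne_empty.2 hmis
    obtain ⟨p, hp, hpmin⟩ : ∃ p ∈ ugen_mis n rk J, ∀ i ∈ ugen_mis n rk J, p ≤ i :=
      ⟨_, Finset.min'_mem _ hne, fun i hi => Finset.min'_le _ i hi⟩
    have hp' := ugen_mem_mis.1 hp
    -- the face `G`
    obtain ⟨G, hGJ, hpG, hGmin⟩ : ∃ G ∈ J, p < rk G ∧ ∀ j ∈ J, p < rk j → rk G ≤ rk j := by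
      classical
      have hne2 : ((Finset.Icc (p + 1) (n : ℤ)).filter fun i => ∃ j ∈ J, rk j = i).Nonempty :=
        ⟨n, Finset.mem_filter.2 ⟨Finset.mem_Icc.2 ⟨by omega, le_refl _⟩, ⊤, ht, hG.top⟩⟩
      have h1 := Finset.mem_filter.1 (Finset.min'_mem _ hne2)
      obtain ⟨G, hGJ, hGr⟩ := h1.2
      have h2 := Finset.mem_Icc.1 h1.1
      refine ⟨G, hGJ, by rw [hGr]; omega, fun j hj hpj => ?_⟩
      rw [hGr]
      exact Finset.min'_le _ _ (Finset.mem_filter.2
        ⟨Finset.mem_Icc.2 ⟨by omega, ugen_rk_le hG j⟩, j, hj, rfl⟩)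
    -- the face `F`
    obtain ⟨F, hFJ, hF⟩ : ∃ F ∈ J, rk F = p - 1 := by
      by_cases h0 : p = 0
      · exact ⟨⊥, hb, by rw [hG.bot, h0]; norm_num⟩
      · by_contra hcon
        push Not at hcon
        have := hpmin (p - 1) (ugen_mem_mis.2 ⟨⟨by omega, by omega⟩, hcon⟩)
        omega
    have hGle := ugen_rk_le hG G
    have hJcases : ∀ j ∈ J, j ≤ F ∨ G ≤ j := by
      intro j hj
      rcases lt_trichotomy (rk j) p with h | h | h
      · left
        rcases lt_or_eq_of_le (show rk j ≤ rk F by omega) with h1 | h1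
        · exact (ugen_lt hG (hΦ hj) (hΦ hFJ) h1).le
        · exact (ugen_eq hG (hΦ hj) (hΦ hFJ) h1).le
      · exact absurd h (hp'.2 j hj)
      · right
        rcases lt_or_eq_of_le (hGmin j hj h) with h1 | h1
        · exact (ugen_lt hG (hΦ hGJ) (hΦ hj) h1).le
        · exact (ugen_eq hG (hΦ hGJ) (hΦ hj) h1).le
    have hJchain : IsChain (· ≤ ·) J := fun a ha b hb' _ => Φ.le_or_le (hΦ ha) (hΦ hb')
    -- the faces of rank `p`
    obtain ⟨x, ⟨hxΦ, hxp⟩, -⟩ := gradedN_full hG Φ p (by omega) (by omega)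
    obtain ⟨y, ⟨hyΨ, hyp⟩, -⟩ := gradedN_full hG Ψ p (by omega) (by omega)
    have hstep : ∀ z : Q, 0 ≤ rk z → rk z ≤ (n : ℤ) - 1 → (∀ j ∈ J, rk j ≠ rk z) → ∀ A B : Flag Q,
        J ⊆ (A : Set Q) → J ⊆ (B : Set Q) → z ∈ A → z ∈ B →
          Relation.ReflTransGen (ugen_R J) A B := by
      intro z h0 h3 hz A B hA hB hzA hzB
      have h4 := ugen_card_lt h0 h3 hz
      exact ugen_mono (Set.subset_insert z J) (ih (insert z J) (Set.mem_insert_of_mem _ hb)
        (Set.mem_insert_of_mem _ ht) (by omega) A B (Set.insert_subset hzA hA)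
        (Set.insert_subset hzB hB))
    by_cases hr : rk G = p + 1
    · by_cases hs : ∃ s ∈ ugen_mis n rk J, s ≠ p
      · obtain ⟨s, hs, hsp⟩ := hs
        have hs' := ugen_mem_mis.1 hs
        have hps := hpmin s hs
        have hsG : rk G < s := by
          have := hs'.2 G hGJ
          omega
        obtain ⟨u, ⟨huΨ, hus⟩, -⟩ := gradedN_full hG Ψ s (by omega) (by omega)
        have hxG : x < G := ugen_lt hG hxΦ (hΦ hGJ) (by omega)
        have hGu : G < u := ugen_lt hG (hΨ hGJ) huΨ (by omega)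
        have hchain : IsChain (· ≤ ·) (insert x (insert u J)) := by
          apply IsChain.insert
          · apply IsChain.insert hJchain
            intro b hb' _
            exact Ψ.le_or_le huΨ (hΨ hb')
          · intro b hb' _
            rcases hb' with rfl | hb'
            · exact Or.inl (hxG.trans hGu).le
            · exact Φ.le_or_le hxΦ (hΦ hb')
        obtain ⟨Θ, hΘ⟩ := exists_flag_of_chain hchain
        have hxΘ : x ∈ Θ := hΘ (Set.mem_insert _ _)
        have huΘ : u ∈ Θ := hΘ (Set.mem_insert_of_mem _ (Set.mem_insert _ _))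
        have hJΘ : J ⊆ (Θ : Set Q) :=
          ((Set.subset_insert u J).trans (Set.subset_insert x _)).trans hΘ
        exact (hstep x (by omega) (by omega) (fun j hj => by rw [hxp]; exact hp'.2 j hj) Φ Θ hΦ hJΘ
          hxΦ hxΘ).trans (hstep u (by omega) (by omega)
            (fun j hj => by rw [hus]; exact hs'.2 j hj) Θ Ψ hJΘ hΨ huΘ huΨ)
      · push Not at hs
        by_cases hxy : x = y
        · rw [hxy] at hxΦ
          exact hstep y (by omega) (by omega) (fun j hj => by rw [hyp]; exact hp'.2 j hj) Φ Ψ hΦ hΨ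
            hxΦ hyΨ
        · refine Relation.ReflTransGen.single ⟨⟨x, y, hxΦ, hyΨ, hxy, ?_⟩, hΦ, hΨ⟩
          have key : ∀ (A B : Flag Q) (a b : Q), J ⊆ (A : Set Q) → J ⊆ (B : Set Q) → a ∈ A →
              rk a = p → rk b = p → ∀ z ∈ (A : Set Q) \ {a}, z ∈ (B : Set Q) \ {b} := by
            intro A B a b hA hB haA ha hb' z hz
            have h1 : rk z ≠ p := by
              intro h1
              exact hz.2 (ugen_eq hG hz.1 haA (h1.trans ha.symm))
            have h2 : z ∈ J := by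
              apply ugen_mem_of hG hb ht hA hz.1
              intro h2
              exact h1 (hs _ h2)
            refine ⟨hB h2, ?_⟩
            intro h3
            rw [Set.mem_singleton_iff] at h3
            rw [h3] at h1
            exact h1 hb'
          apply Set.Subset.antisymm
          · exact fun z hz => key Φ Ψ x y hΦ hΨ hxΦ hxp hyp z hz
          · exact fun z hz => key Ψ Φ y x hΨ hΦ hyΨ hyp hxp z hz
    · have hFx : F < x := ugen_lt hG (hΦ hFJ) hxΦ (by omega)
      have hxG : x < G := ugen_lt hG hxΦ (hΦ hGJ) (by omega)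
      have hFy : F < y := ugen_lt hG (hΨ hFJ) hyΨ (by omega)
      have hyG : y < G := ugen_lt hG hyΨ (hΨ hGJ) (by omega)
      have hpath := hS F G (hFx.trans hxG) (by omega) x y hFx hxG hFy hyG
      have hmiss : ∀ z : Q, F < z → z < G → 0 ≤ rk z ∧ rk z ≤ (n : ℤ) - 1 ∧ ∀ j ∈ J, rk j ≠ rk z := by
        intro z h1 h2
        have h3 := hG.mono _ _ h1
        have h4 := hG.mono _ _ h2
        refine ⟨by omega, by omega, fun j hj h5 => ?_⟩
        rcases hJcases j hj with h6 | h6
        · rcases h6.lt_or_eq with h7 | h7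
          · have := hG.mono _ _ h7
            omega
          · rw [h7] at h5
            omega
        · rcases h6.lt_or_eq with h7 | h7
          · have := hG.mono _ _ h7
            omega
          · rw [← h7] at h5
            omega
      have hcomp : ∀ z : Q, F < z → z < G → ∀ j ∈ J, z ≤ j ∨ j ≤ z := by
        intro z h1 h2 j hj
        rcases hJcases j hj with h3 | h3
        · exact Or.inr (h3.trans h1.le)
        · exact Or.inl (h2.le.trans h3)
      have main : ∀ z : Q, Relation.ReflTransGen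
          (fun a b : Q => (a ≤ b ∨ b ≤ a) ∧ F < b ∧ b < G) x z → (F < z ∧ z < G) ∧
          ∀ Θ : Flag Q, J ⊆ (Θ : Set Q) → z ∈ Θ → Relation.ReflTransGen (ugen_R J) Φ Θ := by
        intro z hz
        induction hz with
        | refl =>
          refine ⟨⟨hFx, hxG⟩, fun Θ hΘ hxΘ => ?_⟩
          obtain ⟨h1, h2, h3⟩ := hmiss x hFx hxG
          exact hstep x h1 h2 h3 Φ Θ hΦ hΘ hxΦ hxΘ
        | tail hab hbc ih2 =>
          rename_i b c
          obtain ⟨⟨hFb, hbG⟩, hb2⟩ := ih2
          obtain ⟨hbc1, hFc, hcG⟩ := hbc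
          refine ⟨⟨hFc, hcG⟩, fun Θ hΘ hcΘ => ?_⟩
          have hchain : IsChain (· ≤ ·) (insert b (insert c J)) := by
            apply IsChain.insert
            · apply IsChain.insert hJchain
              intro j hj _
              exact hcomp c hFc hcG j hj
            · intro j hj _
              rcases hj with rfl | hj
              · exact hbc1
              · exact hcomp b hFb hbG j hj
          obtain ⟨Ξ, hΞ⟩ := exists_flag_of_chain hchain
          have hbΞ : b ∈ Ξ := hΞ (Set.mem_insert _ _)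
          have hcΞ : c ∈ Ξ := hΞ (Set.mem_insert_of_mem _ (Set.mem_insert _ _))
          have hJΞ : J ⊆ (Ξ : Set Q) :=
            ((Set.subset_insert c J).trans (Set.subset_insert b _)).trans hΞ
          obtain ⟨h1, h2, h3⟩ := hmiss c hFc hcG
          exact (hb2 Ξ hJΞ hbΞ).trans (hstep c h1 h2 h3 Ξ Θ hJΞ hΘ hcΞ hcΘ)
      exact (main y hpath).2 Ψ hΨ hyΨ

/-- Job UGen-2. Connected sections imply strong flag-connectedness. Proof: as `secConn_conn` in
`MGenB.lean` (the case `n = 4`), copy and adapt it (the ranks `-1, .., n` instead of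
`-1, .., 4`). -/
theorem secConnN_conn (hG : GradedN n Q rk) (hD : Diamond Q rk) (hS : SecConn Q rk)
    (Φ Ψ : Flag Q) :
    Relation.ReflTransGen
      (fun A B : Flag Q => Adj A B ∧ (Φ : Set Q) ∩ Ψ ⊆ A ∧ (Φ : Set Q) ∩ Ψ ⊆ B) Φ Ψ :=
  ugen_claim hG hS _ ((Φ : Set Q) ∩ Ψ) ⟨Φ.bot_mem, Ψ.bot_mem⟩ ⟨Φ.top_mem, Ψ.top_mem⟩
    le_rfl Φ Ψ Set.inter_subset_left Set.inter_subset_right

theorem isPolytope_of_secN (hG : GradedN n Q rk) (hD : Diamond Q rk) (hS : SecConn Q rk) :
    IsPolytope n Q rk where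
  mono := hG.mono
  bot := hG.bot
  top := hG.top
  full := fun Φ i h1 h2 => gradedN_full hG Φ i h1 h2
  conn := secConnN_conn hG hD hS
  diamond := hD

theorem ugen_plt (h : IsPolytope n Q rk) {Φ : Flag Q} {x y : Q} (hx : x ∈ Φ) (hy : y ∈ Φ)
    (hr : rk x < rk y) : x < y := by
  rcases Φ.le_or_le hx hy with h1 | h1
  · rcases h1.lt_or_eq with h2 | h2
    · exact h2
    · rw [h2] at hr
      exact absurd hr (lt_irrefl _)
  · have := h.mono_le h1
    omega

/-- Job UGen-3. In a polytope there is a face strictly between faces whose ranks differ by more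
than one. Proof: take a flag containing both and its face of rank `rk x + 1`. -/
theorem isPolytope_graded (h : IsPolytope n Q rk) : GradedN n Q rk := by
  refine ⟨h.mono, h.bot, h.top, fun x y hxy hr => ?_⟩
  obtain ⟨Φ, hx, hy⟩ := exists_flag_mem₂ hxy.le
  have h1 := h.rk_ge x
  have h2 := h.rk_le y
  obtain ⟨z, ⟨hz, hzr⟩, -⟩ := h.full Φ (rk x + 1) (by omega) (by omega)
  exact ⟨z, ugen_plt h hx hz (by omega), ugen_plt h hz hy (by omega)⟩

/-- Job UGen-4. The sections of rank at least 2 of a polytope are connected.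

Proof. Let `F < G`, `rk F + 3 ≤ rk G`, `x, y` strictly between. Let `Φ` be a flag containing
`F, x, G` (`exists_flag_of_chain`) and `Ψ` a flag containing `F, y, G`. By `h.conn` there is a path of
flags from `Φ` to `Ψ`, successively adjacent, all of them containing `F` and `G` (elements of
`Φ ∩ Ψ`). Claim (induction along the path): for every flag `A` on the path and every `z ∈ A` strictly
between `F` and `G`, `x` is connected with `z` in the interval. For `A = Φ`: `x` and `z` are
comparable. Step from `A` to an adjacent flag `B`: `A` and `B` both contain `F` and `G`, and the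
faces of ranks `rk F + 1, .., rk G - 1` (at least two ranks) of `A` and `B` coincide except for at
most one rank; so there is a common face `c` of `A` and `B` strictly between `F` and `G`; by
induction `x` is connected with `c`, and `c` is comparable with every `z ∈ B`. -/
theorem secConn_of_isPolytope (h : IsPolytope n Q rk) : SecConn Q rk := by
  intro F G hFG hr x y hFx hxG hFy hyG
  have hc : ∀ z : Q, F < z → z < G → ∃ Φ : Flag Q, F ∈ Φ ∧ z ∈ Φ ∧ G ∈ Φ := by
    intro z h1 h2
    have hchain : IsChain (· ≤ ·) (insert F (insert z {G}) : Set Q) := by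
      apply IsChain.insert
      · apply IsChain.insert (Set.subsingleton_singleton.isChain)
        intro b hb _
        rw [Set.mem_singleton_iff] at hb
        rw [hb]
        exact Or.inl h2.le
      · intro b hb _
        rcases hb with hb | hb
        · rw [hb]
          exact Or.inl h1.le
        · rw [Set.mem_singleton_iff] at hb
          rw [hb]
          exact Or.inl (h1.trans h2).le
    obtain ⟨Φ, hΦ⟩ := exists_flag_of_chain hchain
    exact ⟨Φ, hΦ (Set.mem_insert _ _), hΦ (Set.mem_insert_of_mem _ (Set.mem_insert _ _)),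
      hΦ (Set.mem_insert_of_mem _ (Set.mem_insert_of_mem _ rfl))⟩
  obtain ⟨Φ, hFΦ, hxΦ, hGΦ⟩ := hc x hFx hxG
  obtain ⟨Ψ, hFΨ, hyΨ, hGΨ⟩ := hc y hFy hyG
  have main : ∀ A : Flag Q, Relation.ReflTransGen
      (fun A B : Flag Q => Adj A B ∧ (Φ : Set Q) ∩ Ψ ⊆ A ∧ (Φ : Set Q) ∩ Ψ ⊆ B) Φ A →
      (F ∈ A ∧ G ∈ A) ∧ ∀ z ∈ A, F < z → z < G → Relation.ReflTransGen
        (fun a b : Q => (a ≤ b ∨ b ≤ a) ∧ F < b ∧ b < G) x z := by
    intro A hA
    induction hA with
    | refl =>
      exact ⟨⟨hFΦ, hGΦ⟩, fun z hz h1 h2 =>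
        Relation.ReflTransGen.single ⟨Φ.le_or_le hxΦ hz, h1, h2⟩⟩
    | tail hab hbc ih =>
      rename_i A B
      obtain ⟨⟨hFA, hGA⟩, ihA⟩ := ih
      obtain ⟨⟨a, b, haA, hbB, hne, heq⟩, hJA, hJB⟩ := hbc
      have hFB : F ∈ B := hJB ⟨hFΦ, hFΨ⟩
      have hGB : G ∈ B := hJB ⟨hGΦ, hGΨ⟩
      refine ⟨⟨hFB, hGB⟩, fun z hz h1 h2 => ?_⟩
      have hF1 := h.rk_ge F
      have hG1 := h.rk_le G
      obtain ⟨c1, ⟨hc1, hr1⟩, -⟩ := h.full A (rk F + 1) (by omega) (by omega)
      obtain ⟨c2, ⟨hc2, hr2⟩, -⟩ := h.full A (rk F + 2) (by omega) (by omega)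
      have key : ∀ c ∈ A, c ≠ a → c ∈ B := by
        intro c hc hca
        have h3 : c ∈ (A : Set Q) \ {a} := ⟨hc, hca⟩
        rw [heq] at h3
        exact h3.1
      obtain ⟨c, hcA, hcB, hFc, hcG⟩ : ∃ c, c ∈ A ∧ c ∈ B ∧ F < c ∧ c < G := by
        by_cases hca : c1 = a
        · refine ⟨c2, hc2, key c2 hc2 ?_, ugen_plt h hFA hc2 (by omega),
            ugen_plt h hc2 hGA (by omega)⟩
          intro h3
          rw [hca, ← h3] at hr1
          omega
        · exact ⟨c1, hc1, key c1 hc1 hca, ugen_plt h hFA hc1 (by omega),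
            ugen_plt h hc1 hGA (by omega)⟩
      exact (ihA c hcA hFc hcG).tail ⟨B.le_or_le hcB hz, h1, h2⟩
  exact (main Ψ (h.conn Φ Ψ)).2 y hyΨ hFy hyG

/-- Job UGen-5. An automorphism fixing a flag is the identity, in any rank.

Proof. Let `γ • Φ = Φ`. Then `γ` fixes every element of `Φ` (it preserves ranks: `IsPolytope.rk_map`;
elements of a flag are determined by their rank, `IsPolytope.eq_of_mem`). If `γ` fixes all elements
of a flag `A` and `B` is adjacent to `A`, `B = (A \ {x}) ∪ {y}`, then `γ • B` is a flag containing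
`A \ {x}`, so the face `γ y` of `γ • B` of rank `i = rk x = rk y` is either `x` or `y`: the flag
`γ • B` consists of the faces of `A` of rank `≠ i` and of a face of rank `i`, between the faces
`F`, `G` of `A` of ranks `i - 1`, `i + 1`; by the diamond condition it is `x` or `y`; and it is
not `x = γ x` since `γ` is injective. So `γ` fixes all elements of `B`. By connectedness `γ` fixes all
elements of all flags, and every face is in a flag (`exists_flag_mem`). -/
theorem eq_one_of_flag (h : IsPolytope n Q rk) {γ : Q ≃o Q} {Φ : Flag Q} (hγ : γ • Φ = Φ) :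
    γ = 1 := by
  have h0 : ∀ x ∈ Φ, γ x = x := by
    intro x hx
    have h1 : γ x ∈ ((γ • Φ : Flag Q) : Set Q) := by
      rw [Flag.coe_smul]
      exact Set.smul_mem_smul_set hx
    rw [hγ] at h1
    exact h.eq_of_mem h1 hx (h.rk_map h γ x)
  have step : ∀ A B : Flag Q, Adj A B → (∀ x ∈ A, γ x = x) → ∀ x ∈ B, γ x = x := by
    rintro A B ⟨a, b, haA, hbB, hne, heq⟩ hA z hz
    have hAB : ∀ c ∈ A, c ≠ a → c ∈ B ∧ c ≠ b := by
      intro c hc hca
      have h1 : c ∈ (A : Set Q) \ {a} := ⟨hc, hca⟩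
      rw [heq] at h1
      exact ⟨h1.1, h1.2⟩
    have hBA : ∀ c ∈ B, c ≠ b → c ∈ A := by
      intro c hc hcb
      have h1 : c ∈ (B : Set Q) \ {b} := ⟨hc, hcb⟩
      rw [← heq] at h1
      exact h1.1
    by_cases hzb : z = b
    swap
    · exact hA z (hBA z hz hzb)
    rw [hzb]
    have hrab : rk a = rk b := by
      obtain ⟨c, ⟨hcA, hcr⟩, -⟩ := h.full A (rk b) (h.rk_ge b) (h.rk_le b)
      by_cases hca : c = a
      · rw [← hca]
        exact hcr
      · obtain ⟨h1, h2⟩ := hAB c hcA hca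
        exact absurd (h.eq_of_mem h1 hbB hcr) h2
    have h1 := h.rk_ge b
    have h2 := h.rk_le b
    have h3 : rk b ≠ -1 := by
      intro h3
      exact hne ((h.eq_bot (hrab.trans h3)).trans (h.eq_bot h3).symm)
    have h4 : rk b ≠ n := by
      intro h4
      exact hne ((h.eq_top (hrab.trans h4)).trans (h.eq_top h4).symm)
    obtain ⟨F, ⟨hFA, hFr⟩, -⟩ := h.full A (rk b - 1) (by omega) (by omega)
    obtain ⟨G, ⟨hGA, hGr⟩, -⟩ := h.full A (rk b + 1) (by omega) (by omega)
    have hFB : F ∈ B := (hAB F hFA (by intro h5; rw [h5] at hFr; omega)).1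
    have hGB : G ∈ B := (hAB G hGA (by intro h5; rw [h5] at hGr; omega)).1
    have hFa : F < a := ugen_plt h hFA haA (by omega)
    have haG : a < G := ugen_plt h haA hGA (by omega)
    have hFz : F < b := ugen_plt h hFB hbB (by omega)
    have hzG : b < G := ugen_plt h hbB hGB (by omega)
    have hFγ : F < γ b := by
      have h5 := γ.lt_iff_lt.2 hFz
      rwa [hA F hFA] at h5
    have hγG : γ b < G := by
      have h5 := γ.lt_iff_lt.2 hzG
      rwa [hA G hGA] at h5
    have hd := h.diamond F G (hFa.trans haG) (by omega)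
    obtain ⟨u, v, huv, hset⟩ := Set.ncard_eq_two.1 hd
    have ha' : a = u ∨ a = v := by
      have h5 : a ∈ {H : Q | F < H ∧ H < G} := ⟨hFa, haG⟩
      rw [hset] at h5
      exact h5
    have hb' : b = u ∨ b = v := by
      have h5 : b ∈ {H : Q | F < H ∧ H < G} := ⟨hFz, hzG⟩
      rw [hset] at h5
      exact h5
    have hγ' : γ b = u ∨ γ b = v := by
      have h5 : γ b ∈ {H : Q | F < H ∧ H < G} := ⟨hFγ, hγG⟩
      rw [hset] at h5
      exact h5
    have hγa : γ b ≠ a := by
      intro h5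
      apply hne
      have h6 : γ b = γ a := by rw [h5, hA a haA]
      exact (γ.injective h6).symm
    rcases ha' with ha' | ha' <;> rcases hb' with hb' | hb' <;> rcases hγ' with h5 | h5
    · exact absurd (ha'.trans hb'.symm) hne
    · exact absurd (ha'.trans hb'.symm) hne
    · exact absurd (h5.trans ha'.symm) hγa
    · exact h5.trans hb'.symm
    · exact h5.trans hb'.symm
    · exact absurd (h5.trans ha'.symm) hγa
    · exact absurd (ha'.trans hb'.symm) hne
    · exact absurd (ha'.trans hb'.symm) hne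
  have main : ∀ A : Flag Q, Relation.ReflTransGen
      (fun A B : Flag Q => Adj A B) Φ A → ∀ x ∈ A, γ x = x := by
    intro A hA
    induction hA with
    | refl => exact h0
    | tail _ hbc ih => exact step _ _ hbc ih
  apply RelIso.ext
  intro x
  obtain ⟨Ψ, hΨ⟩ := exists_flag_mem x
  have hm : ∀ a b : Flag Q, (Adj a b ∧ (Φ : Set Q) ∩ Ψ ⊆ a ∧ (Φ : Set Q) ∩ Ψ ⊆ b) → Adj a b :=
    fun _ _ hc => hc.1
  exact main Ψ (Relation.ReflTransGen.mono hm _ _ (h.conn Φ Ψ)) x hΨ

end Pool.Agent.H.MP_6268b4_co
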