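import Pool.Agent.H.MP_6268b4_co.UDefs
import Pool.Agent.H.MP_6268b4_co.UGen

/-!
Basic properties of the poset `UP L rk K n`: restriction and extension of faces.
-/

namespace Pool.Agent.H.MP_6268b4_co

namespace UP

variable {L : Type*} [PartialOrder L] [BoundedOrder L] {rk : L → ℤ} {K n m : ℕ}

instance [Finite L] : Finite (UTwo L rk n) := by
  refine Finite.of_injective (fun X : UTwo L rk n => (X.F, X.g)) ?_
  intro X Y h
  simp only [Prod.mk.injEq] at h
  exact UTwo.ext h.1 h.2

instance [Finite L] : Finite (UP L rk K n) := by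
  refine Finite.of_injective (β := {A : Finset (Fin n) // A.card ≤ K} ⊕ UTwo L rk n)
    (fun X : UP L rk K n => match X with
      | one A => Sum.inl A
      | two X => Sum.inr X) ?_
  intro X Y h
  cases X <;> cases Y <;> simp_all

/-- the elements of `{0, .., n-1}` which are not values of `g` (the vertex set of the face) -/
noncomputable def free (X : UTwo L rk n) : Finset (Fin n) := by
  classical exact Finset.univ.filter fun y => ∀ v, X.g v ≠ some y

theorem ubase_mem_free {X : UTwo L rk n} {y : Fin n} : y ∈ free X ↔ ∀ v, X.g v ≠ some y := by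
  unfold free
  simp

/-- Proof: unfold. -/
theorem one_le_two {A : {A : Finset (Fin n) // A.card ≤ K}} {X : UTwo L rk n} :
    (one A : UP L rk K n) ≤ two X ↔ A.1 ⊆ free X := by
  rw [le_def]
  constructor
  · intro h y hy
    rw [ubase_mem_free]
    intro v hv
    exact h v y hv hy
  · intro h v y hv hy
    exact ubase_mem_free.1 (h hy) v hv

/-- The number of free elements. Proof: `g` is injective on the vertices not below `F`. -/
theorem card_free [Finite L] (X : UTwo L rk n) (hn : n = Nat.card {v : L // rk v = 0} + K + 1) :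
    (free X).card = K + 1 + Nat.card {v : {v : L // rk v = 0} // v.1 ≤ X.F} := by
  classical
  have h1 : ∀ v : {v : {v : L // rk v = 0} // ¬ v.1 ≤ X.F}, ∃ y, X.g v.1 = some y := by
    intro v
    rcases h : X.g v.1 with _ | y
    · exact absurd ((X.dom v.1).1 h) v.2
    · exact ⟨y, rfl⟩
  choose f hf using h1
  have hfi : Function.Injective f := by
    intro v w h
    have h2 : X.g v.1 = X.g w.1 := by rw [hf, hf, h]
    exact Subtype.ext (X.inj v.1 w.1 h2 (by rw [hf]; simp))
  have e1 : Nat.card {v : {v : L // rk v = 0} // ¬ v.1 ≤ X.F} =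
      Nat.card {y : Fin n // ¬ y ∈ free X} := by
    apply Nat.card_congr
    refine Equiv.ofBijective
      (fun v => ⟨f v, fun h => ubase_mem_free.1 h v.1 (hf v)⟩) ⟨?_, ?_⟩
    · intro v w h
      exact hfi (congrArg Subtype.val h)
    · rintro ⟨y, hy⟩
      rw [ubase_mem_free] at hy
      push Not at hy
      obtain ⟨v, hv⟩ := hy
      have hv' : ¬ v.1 ≤ X.F := by
        intro h
        rw [(X.dom v).2 h] at hv
        simp at hv
      exact ⟨⟨v, hv'⟩, Subtype.ext (Option.some.inj ((hf ⟨v, hv'⟩).symm.trans hv))⟩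
  have e2 : Nat.card {v : {v : L // rk v = 0} // v.1 ≤ X.F} +
      Nat.card {v : {v : L // rk v = 0} // ¬ v.1 ≤ X.F} = Nat.card {v : L // rk v = 0} := by
    rw [← Nat.card_sum]
    exact Nat.card_congr (Equiv.sumCompl _)
  have e3 : (free X).card + Nat.card {y : Fin n // ¬ y ∈ free X} = n := by
    have h3 : Nat.card {y : Fin n // y ∈ free X} = (free X).card := by simp
    rw [← h3, ← Nat.card_sum, Nat.card_congr (Equiv.sumCompl _), Nat.card_eq_fintype_card,
      Fintype.card_fin]
  omega

/-- Restriction: for `X` and a face `F'` above `X.F` there is exactly one element `(F', g')` above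
`X`. Proof: `g' v = none` if `v ≤ F'`, `g' v = X.g v` otherwise. -/
theorem exists_up (X : UTwo L rk n) {F' : L} (h : X.F ≤ F') :
    ∃ Z : UTwo L rk n, Z.F = F' ∧ (two X : UP L rk K n) ≤ two Z ∧
      ∀ Z' : UTwo L rk n, Z'.F = F' → (two X : UP L rk K n) ≤ two Z' → Z' = Z := by
  classical
  have hg1 : ∀ v : {v : L // rk v = 0}, v.1 ≤ F' →
      (if v.1 ≤ F' then none else X.g v : Option (Fin n)) = none := fun v hv => if_pos hv
  have hg2 : ∀ v : {v : L // rk v = 0}, ¬ v.1 ≤ F' →
      (if v.1 ≤ F' then none else X.g v : Option (Fin n)) = X.g v := fun v hv => if_neg hv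
  refine ⟨⟨F', fun v => if v.1 ≤ F' then none else X.g v, ?_, ?_⟩, rfl, ?_, ?_⟩
  · intro v
    by_cases hv : v.1 ≤ F'
    · exact iff_of_true (hg1 v hv) hv
    · refine iff_of_false ?_ hv
      rw [hg2 v hv]
      intro h2
      exact hv (((X.dom v).1 h2).trans h)
  · intro v w hvw hne
    by_cases hv : v.1 ≤ F'
    · exact absurd (hg1 v hv) hne
    · by_cases hw : w.1 ≤ F'
      · simp only [hg1 w hw] at hvw
        exact absurd hvw hne
      · simp only [hg2 v hv, hg2 w hw] at hvw hne
        exact X.inj v w hvw hne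
  · rw [le_def]
    exact ⟨h, fun v hv => hg2 v hv⟩
  · intro Z' hZ hle
    rw [le_def] at hle
    refine UTwo.ext hZ (funext fun v => ?_)
    by_cases hv : v.1 ≤ F'
    · simp only [hg1 v hv]
      exact (Z'.dom v).2 (hZ ▸ hv)
    · simp only [hg2 v hv]
      exact hle.2 v (hZ ▸ hv)

/-- Extension: for `Z`, a face `F` below `Z.F` and a set `A` of free elements of `Z` with
`A.card ≤ K + 1` there is `X` with `X.F = F`, `X ≤ Z` and `A ⊆ free X`. Proof: the set
`free Z \ A` has at least as many elements as there are vertices `v ≤ Z.F` (`card_free`), so there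
is an injection from the vertices `v ≤ Z.F`, `¬ v ≤ F` to `free Z \ A`; extend `Z.g` by it. -/
theorem exists_down [Finite L] (Z : UTwo L rk n) {F : L} (h : F ≤ Z.F) (A : Finset (Fin n))
    (hA : A ⊆ free Z) (hc : A.card ≤ K + 1)
    (hn : n = Nat.card {v : L // rk v = 0} + K + 1) :
    ∃ X : UTwo L rk n, X.F = F ∧ (two X : UP L rk K n) ≤ two Z ∧ A ⊆ free X := by
  classical
  let _ : Fintype {v : {v : L // rk v = 0} // v.1 ≤ Z.F} := Fintype.ofFinite _
  have hcard : Fintype.card {v : {v : L // rk v = 0} // v.1 ≤ Z.F} ≤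
      Fintype.card {y : Fin n // y ∈ free Z \ A} := by
    rw [← Nat.card_eq_fintype_card, Fintype.card_coe, Finset.card_sdiff_of_subset hA,
      card_free Z hn]
    omega
  obtain ⟨e⟩ := Function.Embedding.nonempty_of_card_le hcard
  have he1 : ∀ v, (e v).1 ∈ free Z := fun v => (Finset.mem_sdiff.1 (e v).2).1
  have he2 : ∀ v, (e v).1 ∉ A := fun v => (Finset.mem_sdiff.1 (e v).2).2
  obtain ⟨g, hg⟩ : ∃ g : {v : L // rk v = 0} → Option (Fin n), g = fun v =>
      if hv : v.1 ≤ Z.F then (if v.1 ≤ F then none else some (e ⟨v, hv⟩).1) else Z.g v := ⟨_, rfl⟩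
  have hg1 : ∀ v, v.1 ≤ F → g v = none := by
    intro v hv
    rw [hg]
    simp only [dif_pos (hv.trans h), if_pos hv]
  have hg2 : ∀ v (hv : v.1 ≤ Z.F), ¬ v.1 ≤ F → g v = some (e ⟨v, hv⟩).1 := by
    intro v hv hv'
    rw [hg]
    simp only [dif_pos hv, if_neg hv']
  have hg3 : ∀ v, ¬ v.1 ≤ Z.F → g v = Z.g v := by
    intro v hv
    rw [hg]
    simp only [dif_neg hv]
  refine ⟨⟨F, g, ?_, ?_⟩, rfl, ?_, ?_⟩
  · intro v
    by_cases hv : v.1 ≤ F
    · exact iff_of_true (hg1 v hv) hv
    · by_cases hv' : v.1 ≤ Z.F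
      · refine iff_of_false ?_ hv
        rw [hg2 v hv' hv]
        simp
      · rw [hg3 v hv']
        constructor
        · intro h2
          exact absurd ((Z.dom v).1 h2) hv'
        · intro h2
          exact absurd h2 hv
  · intro v w hvw hne
    by_cases hv : v.1 ≤ F
    · exact absurd (hg1 v hv) hne
    by_cases hw : w.1 ≤ F
    · rw [hg1 w hw] at hvw
      exact absurd hvw hne
    by_cases hv' : v.1 ≤ Z.F
    · by_cases hw' : w.1 ≤ Z.F
      · rw [hg2 v hv' hv, hg2 w hw' hw] at hvw
        have h2 := e.injective (Subtype.ext (Option.some.inj hvw))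
        exact congrArg Subtype.val h2
      · rw [hg2 v hv' hv, hg3 w hw'] at hvw
        exact absurd hvw.symm (ubase_mem_free.1 (he1 _) w)
    · by_cases hw' : w.1 ≤ Z.F
      · rw [hg2 w hw' hw, hg3 v hv'] at hvw
        exact absurd hvw (ubase_mem_free.1 (he1 _) v)
      · rw [hg3 v hv', hg3 w hw'] at hvw
        rw [hg3 v hv'] at hne
        exact Z.inj v w hvw hne
  · rw [le_def]
    exact ⟨h, fun v hv => (hg3 v hv).symm⟩
  · intro y hy
    rw [ubase_mem_free]
    intro v hv
    change g v = some y at hv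
    by_cases hv1 : v.1 ≤ F
    · rw [hg1 v hv1] at hv
      simp at hv
    by_cases hv2 : v.1 ≤ Z.F
    · rw [hg2 v hv2 hv1] at hv
      exact he2 ⟨v, hv2⟩ ((Option.some.inj hv) ▸ hy)
    · rw [hg3 v hv2] at hv
      exact ubase_mem_free.1 (hA hy) v hv

end UP

end Pool.Agent.H.MP_6268b4_co
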