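import Pool.Agent.H.MP_6268b4_co.TWord

/-!
The neighborly polytope over a given polytope `L`.
-/

namespace Pool.Agent.H.MP_6268b4_co

/-- The faces of the second kind: a face `F` of `L` together with an injective map `g` from the
vertices of `L` not below `F` to `{0, .., n - 1}` (`g v = none` for the vertices `v` below `F`). -/
@[ext]
structure UTwo (L : Type*) [PartialOrder L] (rk : L → ℤ) (n : ℕ) where
  F : L
  g : {v : L // rk v = 0} → Option (Fin n)
  dom : ∀ v, g v = none ↔ v.1 ≤ F
  inj : ∀ v w, g v = g w → g v ≠ none → v = w

/-- The faces: the sets with at most `K` elements, and the faces of the second kind. -/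
inductive UP (L : Type*) [PartialOrder L] (rk : L → ℤ) (K n : ℕ) : Type _
  | one : {A : Finset (Fin n) // A.card ≤ K} → UP L rk K n
  | two : UTwo L rk n → UP L rk K n

namespace UP

variable {L : Type*} [PartialOrder L] {rk : L → ℤ} {K n : ℕ}

/-- The order: sets are ordered by inclusion; a set `A` is below `(F, g)` iff it is disjoint from
the range of `g`; `(F, g) ≤ (F', g')` iff `F ≤ F'` and `g'` is the restriction of `g`. -/
def le : UP L rk K n → UP L rk K n → Prop
  | one A, one B => A.1 ⊆ B.1
  | one A, two X => ∀ v y, X.g v = some y → y ∉ A.1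
  | two _, one _ => False
  | two X, two Z => X.F ≤ Z.F ∧ ∀ v, ¬ v.1 ≤ Z.F → Z.g v = X.g v

/-- The rank: `card - 1` for sets, `K + 1 + rk F` for `(F, g)`. -/
def rkU : UP L rk K n → ℤ
  | one A => (A.1.card : ℤ) - 1
  | two X => (K : ℤ) + 1 + rk X.F

instance : PartialOrder (UP L rk K n) where
  le := le
  le_refl x := by
    cases x with
    | one A => exact fun _ h => h
    | two X => exact ⟨le_rfl, fun _ _ => rfl⟩
  le_trans x y z := by
    cases x with
    | one A =>
      cases y with
      | one B =>
        cases z with
        | one C => exact fun h1 h2 => Finset.Subset.trans h1 h2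
        | two Z => exact fun h1 h2 v y hy hA => h2 v y hy (h1 hA)
      | two Y =>
        cases z with
        | one C => exact fun _ h2 => h2.elim
        | two Z =>
          intro h1 h2 v y hy
          have hv : ¬ v.1 ≤ Z.F := by
            intro h3
            rw [(Z.dom v).2 h3] at hy
            simp at hy
          exact h1 v y (by rw [← h2.2 v hv]; exact hy)
    | two X =>
      cases y with
      | one B => exact fun h1 => h1.elim
      | two Y =>
        cases z with
        | one C => exact fun _ h2 => h2.elim
        | two Z =>
          intro h1 h2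
          refine ⟨h1.1.trans h2.1, fun v hv => ?_⟩
          rw [h2.2 v hv, h1.2 v (fun h3 => hv (h3.trans h2.1))]
  le_antisymm x y := by
    cases x with
    | one A =>
      cases y with
      | one B =>
        intro h1 h2
        exact congrArg one (Subtype.ext (Finset.Subset.antisymm h1 h2))
      | two Y => exact fun _ h2 => h2.elim
    | two X =>
      cases y with
      | one B => exact fun h1 => h1.elim
      | two Y =>
        intro h1 h2
        have hF : X.F = Y.F := le_antisymm h1.1 h2.1
        refine congrArg two (UTwo.ext hF (funext fun v => ?_))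
        by_cases hv : v.1 ≤ X.F
        · rw [(X.dom v).2 hv, (Y.dom v).2 (hF ▸ hv)]
        · exact h2.2 v hv

lemma le_def (x y : UP L rk K n) : x ≤ y ↔ le x y := Iff.rfl

section bounded

variable [BoundedOrder L]

instance : BoundedOrder (UP L rk K n) where
  top := two ⟨⊤, fun _ => none, fun _ => ⟨fun _ => le_top, fun _ => rfl⟩,
    fun _ _ _ h => absurd rfl h⟩
  le_top x := by
    cases x with
    | one A => exact fun _ _ h => by simp at h
    | two X => exact ⟨le_top, fun _ h => absurd le_top h⟩
  bot := one ⟨∅, by simp⟩
  bot_le x := by
    cases x with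
    | one A => exact Finset.empty_subset _
    | two X => exact fun _ _ _ h => by simp at h

lemma bot_def : (⊥ : UP L rk K n) = one ⟨∅, by simp⟩ := rfl

lemma top_F : ∀ X : UTwo L rk n, (⊤ : UP L rk K n) = two X → X.F = ⊤ := by
  intro X h
  have h1 : (two ⟨⊤, fun _ => none, fun _ => ⟨fun _ => le_top, fun _ => rfl⟩,
    fun _ _ _ h => absurd rfl h⟩ : UP L rk K n) = two X := h
  have h2 := UP.two.inj h1
  rw [← h2]

end bounded

end UP

end Pool.Agent.H.MP_6268b4_co
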