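import Pool.Agent.H.MP_6268b4_co.UBase

/-!
The poset `UP L rk K n` is graded and satisfies the diamond condition.
-/

namespace Pool.Agent.H.MP_6268b4_co

namespace UP

variable {L : Type*} [PartialOrder L] [BoundedOrder L] {rk : L → ℤ} {K n m : ℕ}

theorem ugraded_eq {X Z : UTwo L rk n} (h : (two X : UP L rk K n) ≤ two Z) (hF : X.F = Z.F) :
    X = Z := by
  have h2 : (two Z : UP L rk K n) ≤ two X :=
    ⟨hF.ge, fun v hv => (h.2 v (by rwa [← hF])).symm⟩
  exact UP.two.inj (le_antisymm h h2)

theorem ugraded_two_lt {X Z : UTwo L rk n} :
    (two X : UP L rk K n) < two Z ↔ (two X : UP L rk K n) ≤ two Z ∧ X.F < Z.F := by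
  constructor
  · intro h
    refine ⟨h.le, lt_of_le_of_ne h.le.1 fun hF => ?_⟩
    have := ugraded_eq h.le hF
    rw [this] at h
    exact lt_irrefl _ h
  · rintro ⟨h1, h2⟩
    refine lt_of_le_of_ne h1 fun h => ?_
    have := UP.two.inj h
    rw [this] at h2
    exact lt_irrefl _ h2

theorem ugraded_mid {X Y Z : UTwo L rk n} (h1 : (two X : UP L rk K n) ≤ two Y)
    (h2 : (two X : UP L rk K n) ≤ two Z) (h : Y.F ≤ Z.F) : (two Y : UP L rk K n) ≤ two Z :=
  ⟨h, fun v hv => by rw [h2.2 v hv, h1.2 v fun hv' => hv (hv'.trans h)]⟩

theorem ugraded_one_lt_two {A : {A : Finset (Fin n) // A.card ≤ K}} {X : UTwo L rk n}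
    (h : A.1 ⊆ free X) : (one A : UP L rk K n) < two X :=
  lt_of_le_of_ne (one_le_two.2 h) (by simp)

theorem ugraded_one_lt {A B : {A : Finset (Fin n) // A.card ≤ K}} :
    (one A : UP L rk K n) < one B ↔ A.1 ⊂ B.1 := by
  constructor
  · intro h
    refine HasSubset.Subset.ssubset_of_ne h.le fun h' => ?_
    rw [Subtype.ext h'] at h
    exact lt_irrefl _ h
  · intro h
    refine lt_of_le_of_ne h.subset fun h' => ?_
    rw [UP.one.inj h'] at h
    exact lt_irrefl _ h

theorem ugraded_card_free [Finite L] (X : UTwo L rk n)
    (hn : n = Nat.card {v : L // rk v = 0} + K + 1) : K + 1 ≤ (free X).card := by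
  rw [card_free X hn]
  omega

/-- The sets with one element more than `A` between `A` and `T`. -/
theorem ugraded_count {A : Finset (Fin n)} {T : Finset (Fin n)} (hA : A.card + 1 ≤ K) :
    {H : UP L rk K n | ∃ C : {A : Finset (Fin n) // A.card ≤ K}, H = one C ∧ A ⊆ C.1 ∧
      C.1 ⊆ A ∪ T ∧ C.1.card = A.card + 1}.ncard = (T \ A).card := by
  classical
  rw [← Set.ncard_coe_finset (T \ A)]
  symm
  refine Set.ncard_congr (fun y _ => (one ⟨insert y A, (Finset.card_insert_le _ _).trans hA⟩ :
    UP L rk K n)) ?_ ?_ ?_
  · intro y hy
    rw [Finset.mem_coe, Finset.mem_sdiff] at hy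
    refine ⟨_, rfl, Finset.subset_insert _ _, ?_, Finset.card_insert_of_notMem hy.2⟩
    intro z hz
    simp only [Finset.mem_insert] at hz
    rw [Finset.mem_union]
    rcases hz with rfl | hz
    · exact Or.inr hy.1
    · exact Or.inl hz
  · intro y z hy hz h
    rw [Finset.mem_coe, Finset.mem_sdiff] at hy hz
    have h1 : insert y A = insert z A := congrArg Subtype.val (UP.one.inj h)
    have h2 : y ∈ insert z A := h1 ▸ Finset.mem_insert_self _ _
    rcases Finset.mem_insert.1 h2 with h3 | h3
    · exact h3
    · exact absurd h3 hy.2
  · rintro H ⟨C, rfl, h1, h2, h3⟩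
    have h4 : (C.1 \ A).card = 1 := by
      rw [Finset.card_sdiff_of_subset h1, h3]
      omega
    obtain ⟨y, hy⟩ := Finset.card_eq_one.1 h4
    have hyC : y ∈ C.1 \ A := by rw [hy]; exact Finset.mem_singleton_self y
    rw [Finset.mem_sdiff] at hyC
    refine ⟨y, ?_, ?_⟩
    · rw [Finset.mem_coe, Finset.mem_sdiff]
      rcases Finset.mem_union.1 (h2 hyC.1) with h5 | h5
      · exact absurd h5 hyC.2
      · exact ⟨h5, hyC.2⟩
    · congr 1
      apply Subtype.ext
      simp only
      rw [Finset.insert_eq, ← hy]
      exact Finset.sdiff_union_of_subset h1

/-- The poset is graded.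

Proof. `mono`: (set, set): `Finset.card_lt_card`; (set, two X): `card - 1 ≤ K - 1 < K + 1 + rk X.F`
as `rk X.F ≥ -1`; (two X, two Z): if `X.F < Z.F` use `hL.mono`; if `X.F = Z.F` then `X = Z`
(`exists_up`). `bot`, `top`: clear. `dense`: (A, B) with `B.card ≥ A.card + 2`: insert one element of
`B \ A`. (A, two X): if `A.card < K`: `free X` has at least `K + 1` elements, insert into `A` an
element of `free X \ A`. If `A.card = K` then `rk X.F ≥ 0` (since the ranks differ by more than one)
so `⊥ < X.F`, and `exists_down` with `F = ⊥` gives an element between. (two X, two Z): there is `F'`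
with `X.F < F' < Z.F` (`isPolytope_graded hL`), and `exists_up`. -/
theorem graded [Finite L] (hL : IsPolytope m L rk)
    (hn : n = Nat.card {v : L // rk v = 0} + K + 1) : GradedN (m + K + 1) (UP L rk K n) rkU := by
  classical
  refine ⟨?_, ?_, ?_, ?_⟩
  · intro x y h
    cases x with
    | one A =>
      cases y with
      | one B =>
        have := Finset.card_lt_card (ugraded_one_lt.1 h)
        simp only [rkU]
        omega
      | two X =>
        have h1 := hL.rk_ge X.F
        have h2 := A.2
        simp only [rkU]
        omega
    | two X =>
      cases y with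
      | one B => exact (h.le : UP.le _ _).elim
      | two Z =>
        have h1 := hL.mono _ _ (ugraded_two_lt.1 h).2
        simp only [rkU]
        omega
  · rw [bot_def]
    simp [rkU]
  · change (K : ℤ) + 1 + rk (⊤ : L) = _
    rw [hL.top]
    push_cast
    ring
  · intro x y h hr
    cases x with
    | one A =>
      cases y with
      | one B =>
        have h1 := ugraded_one_lt.1 h
        obtain ⟨b, hb, hbA⟩ := Finset.exists_of_ssubset h1
        simp only [rkU] at hr
        have hc := Finset.card_insert_of_notMem hbA
        have hB := B.2
        have hs : insert b A.1 ⊆ B.1 := by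
          intro z hz
          rcases Finset.mem_insert.1 hz with rfl | hz
          · exact hb
          · exact h1.subset hz
        refine ⟨one ⟨insert b A.1, by omega⟩, ?_, ?_⟩
        · rw [ugraded_one_lt]
          exact Finset.ssubset_insert hbA
        · rw [ugraded_one_lt]
          refine HasSubset.Subset.ssubset_of_ne hs fun h' => ?_
          simp only at h'
          rw [h'] at hc
          omega
      | two X =>
        have h1 := one_le_two.1 h.le
        simp only [rkU] at hr
        by_cases hK : A.1.card < K
        · have h2 := ugraded_card_free X hn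
          obtain ⟨b, hb, hbA⟩ := Finset.exists_mem_notMem_of_card_lt_card
            (show A.1.card < (free X).card by omega)
          have hc := Finset.card_insert_of_notMem hbA
          refine ⟨one ⟨insert b A.1, by omega⟩, ?_, ?_⟩
          · rw [ugraded_one_lt]
            exact Finset.ssubset_insert hbA
          · apply ugraded_one_lt_two
            intro z hz
            rcases Finset.mem_insert.1 hz with rfl | hz
            · exact hb
            · exact h1 hz
        · have hA := A.2
          obtain ⟨X', e1, e2, e3⟩ := exists_down (K := K) X bot_le A.1 h1 (by omega) hn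
          refine ⟨two X', ugraded_one_lt_two e3, ugraded_two_lt.2 ⟨e2, ?_⟩⟩
          rw [e1]
          refine lt_of_le_of_ne bot_le fun h' => ?_
          rw [← h', hL.bot] at hr
          omega
    | two X =>
      cases y with
      | one B => exact (h.le : UP.le _ _).elim
      | two Z =>
        obtain ⟨h1, h2⟩ := ugraded_two_lt.1 h
        simp only [rkU] at hr
        obtain ⟨F', f1, f2⟩ := (isPolytope_graded hL).dense _ _ h2 (by omega)
        obtain ⟨Y, e1, e2, -⟩ := exists_up (K := K) X f1.le
        refine ⟨two Y, ugraded_two_lt.2 ⟨e2, by rwa [e1]⟩, ugraded_two_lt.2 ⟨?_, by rwa [e1]⟩⟩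
        exact ugraded_mid e2 h1 (by rw [e1]; exact f2.le)

/-- The diamond condition.

Proof. Let `F < G` with `rkU G - rkU F = 2`.
(set, set): `B = A ∪ {x, y}`.
(A, two X): `K + 1 + rk X.F - (A.card - 1) = 2`, so `rk X.F + K = A.card ≤ K`: either
`A.card = K - 1` (`K ≥ 1`), `rk X.F = -1`, `X.F = ⊥`: then `free X` has `K + 1` elements
(`card_free`, no vertex is below `⊥`); the elements strictly between are the sets `B` with
`A ⊂ B ⊂ free X`, `B.card = K` (an element `two Z` below `two X` has `Z.F ≤ ⊥`, so `Z = X`): two of
them. Or `A.card = K`, `rk X.F = 0`: `X.F = v` is a vertex, the only vertex below `v` is `v`, so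
`free X` has `K + 2` elements; the elements strictly between are the `two Z`, `Z.F = ⊥`, with
`Z.g = X.g` except `Z.g v = some y`, `y ∈ free X \ A`: two of them.
(two X, two Z): `H ↦` the unique element with face `H` above `X` (`exists_up`) is a bijection from
`{H | X.F < H < Z.F}` onto the elements strictly between `two X` and `two Z`; use
`hL.diamond`. -/
theorem diamond [Finite L] (hL : IsPolytope m L rk)
    (hn : n = Nat.card {v : L // rk v = 0} + K + 1) : Diamond (UP L rk K n) rkU := by
  classical
  intro x y h hr
  cases x with
  | one A =>
    cases y with
    | one B =>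
      have h1 := ugraded_one_lt.1 h
      simp only [rkU] at hr
      have hB := B.2
      have h2 : {H : UP L rk K n | one A < H ∧ H < one B} =
          {H : UP L rk K n | ∃ C : {A : Finset (Fin n) // A.card ≤ K}, H = one C ∧ A.1 ⊆ C.1 ∧
            C.1 ⊆ A.1 ∪ B.1 ∧ C.1.card = A.1.card + 1} := by
        ext H
        simp only [Set.mem_setOf_eq]
        constructor
        · rintro ⟨a1, a2⟩
          cases H with
          | one C =>
            have b1 := ugraded_one_lt.1 a1
            have b2 := ugraded_one_lt.1 a2
            have c1 := Finset.card_lt_card b1
            have c2 := Finset.card_lt_card b2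
            exact ⟨C, rfl, b1.subset, b2.subset.trans Finset.subset_union_right, by omega⟩
          | two X => exact (a2.le : UP.le _ _).elim
        · rintro ⟨C, rfl, b1, b2, b3⟩
          rw [Finset.union_eq_right.2 h1.subset] at b2
          refine ⟨ugraded_one_lt.2 (HasSubset.Subset.ssubset_of_ne b1 fun h' => ?_),
            ugraded_one_lt.2 (HasSubset.Subset.ssubset_of_ne b2 fun h' => ?_)⟩
          · rw [h'] at b3
            omega
          · rw [h'] at b3
            omega
      rw [h2, ugraded_count (by omega), Finset.card_sdiff_of_subset h1.subset]
      omega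
    | two X =>
      have h1 := one_le_two.1 h.le
      simp only [rkU] at hr
      have hA := A.2
      have hXr := hL.rk_ge X.F
      by_cases hK : A.1.card < K
      · have hX : X.F = ⊥ := hL.eq_bot (by omega)
        have hf : (free X).card = K + 1 := by
          rw [card_free X hn]
          have : IsEmpty {v : {v : L // rk v = 0} // v.1 ≤ X.F} := by
            refine ⟨fun v => ?_⟩
            have h3 : v.1.1 = ⊥ := le_bot_iff.1 (v.2.trans hX.le)
            have h4 := v.1.2
            rw [h3, hL.bot] at h4
            omega
          rw [Nat.card_of_isEmpty]
        have h2 : {H : UP L rk K n | one A < H ∧ H < two X} =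
            {H : UP L rk K n | ∃ C : {A : Finset (Fin n) // A.card ≤ K}, H = one C ∧ A.1 ⊆ C.1 ∧
              C.1 ⊆ A.1 ∪ free X ∧ C.1.card = A.1.card + 1} := by
          ext H
          simp only [Set.mem_setOf_eq]
          constructor
          · rintro ⟨a1, a2⟩
            cases H with
            | one C =>
              have b1 := ugraded_one_lt.1 a1
              have b2 := one_le_two.1 a2.le
              have c1 := Finset.card_lt_card b1
              have c2 := C.2
              exact ⟨C, rfl, b1.subset, b2.trans Finset.subset_union_right, by omega⟩
            | two Z =>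
              have b1 := (ugraded_two_lt.1 a2).2
              rw [hX] at b1
              exact absurd b1 not_lt_bot
          · rintro ⟨C, rfl, b1, b2, b3⟩
            rw [Finset.union_eq_right.2 h1] at b2
            refine ⟨ugraded_one_lt.2 (HasSubset.Subset.ssubset_of_ne b1 fun h' => ?_),
              ugraded_one_lt_two b2⟩
            rw [h'] at b3
            omega
        rw [h2, ugraded_count (by omega), Finset.card_sdiff_of_subset h1, hf]
        rw [hX, hL.bot] at hr
        omega
      · have hX : rk X.F = 0 := by omega
        set v0 : {v : L // rk v = 0} := ⟨X.F, hX⟩ with hv0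
        have hle : ∀ v : {v : L // rk v = 0}, v.1 ≤ X.F ↔ v = v0 := by
          intro v
          constructor
          · intro hv
            exact Subtype.ext (hL.eq_of_le hv (by rw [v.2, hX]))
          · rintro rfl
            exact le_rfl
        have hnb : ∀ v : {v : L // rk v = 0}, ¬ v.1 ≤ ⊥ := by
          intro v hv
          rw [le_bot_iff] at hv
          have := v.2
          rw [hv, hL.bot] at this
          omega
        have hf : (free X).card = K + 2 := by
          rw [card_free X hn]
          have : Nat.card {v : {v : L // rk v = 0} // v.1 ≤ X.F} = 1 := by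
            rw [Nat.card_eq_one_iff_unique]
            refine ⟨⟨fun v w => Subtype.ext (((hle _).1 v.2).trans ((hle _).1 w.2).symm)⟩,
              ⟨⟨v0, (hle v0).2 rfl⟩⟩⟩
          rw [this]
        have hgv0 : X.g v0 = none := (X.dom v0).2 le_rfl
        have hgv : ∀ v, v ≠ v0 → X.g v ≠ none := fun v hv h' => hv ((hle v).1 ((X.dom v).1 h'))
        have hfree : ∀ {y : Fin n}, y ∈ free X ↔ ∀ v, X.g v ≠ some y := by
          intro y
          simp [free]
        -- the faces between
        let Zy : ∀ y : Fin n, y ∈ free X → UTwo L rk n := fun y hy =>
          { F := ⊥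
            g := fun v => if v = v0 then some y else X.g v
            dom := by
              intro v
              by_cases hv : v = v0
              · simp only [hv, if_true]
                constructor
                · intro h'
                  exact absurd h' (by simp)
                · intro h'
                  exact absurd h' (hnb v0)
              · simp only [hv, if_false]
                constructor
                · intro h'
                  exact absurd h' (hgv v hv)
                · intro h'
                  exact absurd h' (hnb v)
            inj := by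
              intro v w
              by_cases hv : v = v0 <;> by_cases hw : w = v0
              · intro _ _
                rw [hv, hw]
              · simp only [hv, hw, if_true, if_false]
                intro h' _
                exact absurd h'.symm (hfree.1 hy w)
              · simp only [hv, hw, if_true, if_false]
                intro h' _
                exact absurd h' (hfree.1 hy v)
              · simp only [hv, hw, if_false]
                exact X.inj v w }
        have hcard : (free X \ A.1).card = 2 := by
          rw [Finset.card_sdiff_of_subset h1, hf]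
          omega
        rw [← hcard, ← Set.ncard_coe_finset]
        symm
        refine Set.ncard_congr (fun y hy => two (Zy y
          (Finset.mem_sdiff.1 (Finset.mem_coe.1 hy)).1)) ?_ ?_ ?_
        · intro y hy
          obtain ⟨y1, y2⟩ := Finset.mem_sdiff.1 (Finset.mem_coe.1 hy)
          refine ⟨ugraded_one_lt_two ?_, ugraded_two_lt.2 ⟨⟨bot_le, ?_⟩, ?_⟩⟩
          · intro z hz
            have h5 : z ∈ free (Zy y y1) ↔ ∀ v, (Zy y y1).g v ≠ some z := by
              simp [free]
            rw [h5]
            intro v
            by_cases hv : v = v0
            · simp only [Zy, hv, if_true]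
              intro h'
              rw [Option.some.injEq] at h'
              rw [h'] at y2
              exact y2 hz
            · simp only [Zy, hv, if_false]
              exact hfree.1 (h1 hz) v
          · intro v hv
            have : v ≠ v0 := fun h' => hv ((hle v).2 h')
            simp only [Zy, this, if_false]
          · change (⊥ : L) < X.F
            refine lt_of_le_of_ne bot_le fun h' => ?_
            rw [← h', hL.bot] at hX
            omega
        · intro y z hy hz hyz
          have h5 := congrArg (fun W : UTwo L rk n => W.g v0) (UP.two.inj hyz)
          simpa [Zy] using h5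
        · rintro H ⟨a1, a2⟩
          cases H with
          | one C =>
            have b1 := ugraded_one_lt.1 a1
            have c1 := Finset.card_lt_card b1
            have c2 := C.2
            omega
          | two Z =>
            obtain ⟨b1, b2⟩ := ugraded_two_lt.1 a2
            have b3 := one_le_two.1 a1.le
            have hZ : Z.F = ⊥ := by
              apply hL.eq_bot
              have := hL.mono _ _ b2
              have := hL.rk_ge Z.F
              omega
            have hZ0 : Z.g v0 ≠ none := by
              intro h'
              have := (Z.dom v0).1 h'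
              rw [hZ] at this
              exact hnb v0 this
            obtain ⟨y, hy⟩ := Option.ne_none_iff_exists'.1 hZ0
            have hZv : ∀ v, v ≠ v0 → X.g v = Z.g v := fun v hv =>
              b1.2 v fun h' => hv ((hle v).1 h')
            have y1 : y ∈ free X := by
              rw [hfree]
              intro v h'
              by_cases hv : v = v0
              · rw [hv, hgv0] at h'
                exact absurd h' (by simp)
              · rw [hZv v hv] at h'
                exact hv (Z.inj v v0 (by rw [h', hy]) (by rw [h']; simp))
            have y2 : y ∉ A.1 := by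
              intro h'
              have h5 := b3 h'
              have h6 : y ∈ free Z ↔ ∀ v, Z.g v ≠ some y := by
                simp [free]
              exact h6.1 h5 v0 hy
            refine ⟨y, Finset.mem_coe.2 (Finset.mem_sdiff.2 ⟨y1, y2⟩), ?_⟩
            congr 1
            apply UTwo.ext
            · exact hZ.symm
            · funext v
              by_cases hv : v = v0
              · simp only [Zy, hv, if_true]
                exact hy.symm
              · simp only [Zy, hv, if_false]
                exact hZv v hv
  | two X =>
    cases y with
    | one B => exact (h.le : UP.le _ _).elim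
    | two Z =>
      obtain ⟨h1, h2⟩ := ugraded_two_lt.1 h
      simp only [rkU] at hr
      rw [← hL.diamond X.F Z.F h2 (by omega)]
      symm
      refine Set.ncard_congr (fun H hH => two (exists_up (K := K) X (le_of_lt hH.1)).choose)
        ?_ ?_ ?_
      · intro H hH
        obtain ⟨e1, e2, -⟩ := (exists_up (K := K) X (le_of_lt hH.1)).choose_spec
        refine ⟨ugraded_two_lt.2 ⟨e2, by rw [e1]; exact hH.1⟩,
          ugraded_two_lt.2 ⟨ugraded_mid e2 h1 (by rw [e1]; exact hH.2.le), by
            rw [e1]; exact hH.2⟩⟩
      · intro H H' hH hH' he
        have e1 := (exists_up (K := K) X (le_of_lt hH.1)).choose_spec.1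
        have e1' := (exists_up (K := K) X (le_of_lt hH'.1)).choose_spec.1
        have e2 := congrArg UTwo.F (UP.two.inj he)
        rw [← e1, ← e1']
        exact e2
      · rintro H ⟨a1, a2⟩
        cases H with
        | one C => exact (a1.le : UP.le _ _).elim
        | two Y =>
          obtain ⟨b1, b2⟩ := ugraded_two_lt.1 a1
          obtain ⟨c1, c2⟩ := ugraded_two_lt.1 a2
          refine ⟨Y.F, ⟨b2, c2⟩, ?_⟩
          obtain ⟨e1, e2, e3⟩ := (exists_up (K := K) X b2.le).choose_spec
          exact congrArg two (e3 Y rfl b1).symm

end UP

end Pool.Agent.H.MP_6268b4_co
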