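import Pool.Agent.H.MP_6268b4_co.UGraded

/-!
Neighborliness and further properties of `UP L rk K n`.
-/

namespace Pool.Agent.H.MP_6268b4_co

namespace UP

variable {L : Type*} [PartialOrder L] [BoundedOrder L] {rk : L → ℤ} {K n m : ℕ}

/-- Job UProp-1. The vertices (`1 ≤ K`) are the sets with one element; the vertices below a face.

Proof: `rkU x = 0`: `x = one A` with `A.card = 1`, or `x = two X` with `K + 1 + rk X.F = 0`,
impossible since `rk X.F ≥ -1` and `K ≥ 1`. -/
theorem vertex_iff (hL : IsPolytope m L rk) (hK : 1 ≤ K) (x : UP L rk K n) :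
    rkU x = 0 ↔ ∃ (y : Fin n) (h : ({y} : Finset (Fin n)).card ≤ K), x = one ⟨{y}, h⟩ := by
  constructor
  · intro h
    cases x with
    | one A =>
      simp only [rkU] at h
      have h1 : A.1.card = 1 := by omega
      obtain ⟨y, hy⟩ := Finset.card_eq_one.1 h1
      exact ⟨y, by simpa using hK, congrArg one (Subtype.ext hy)⟩
    | two X =>
      simp only [rkU] at h
      have := hL.rk_ge X.F
      omega
  · rintro ⟨y, h, rfl⟩
    simp [rkU]

/-- the vertex `y` -/
def uprop_v (hK : 1 ≤ K) (y : Fin n) : UP L rk K n := one ⟨{y}, by simpa using hK⟩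

omit [BoundedOrder L] in
theorem uprop_rk (hK : 1 ≤ K) (y : Fin n) : rkU (uprop_v (L := L) (rk := rk) hK y) = 0 := by
  simp [rkU, uprop_v]

omit [BoundedOrder L] in
theorem uprop_v_inj (hK : 1 ≤ K) {y z : Fin n}
    (h : uprop_v (L := L) (rk := rk) hK y = uprop_v hK z) : y = z := by
  unfold uprop_v at h
  have h1 := congrArg Subtype.val (UP.one.inj h)
  exact Finset.singleton_inj.1 h1

theorem uprop_eq (hL : IsPolytope m L rk) (hK : 1 ≤ K) {x : UP L rk K n} (hx : rkU x = 0) :
    ∃ y, x = uprop_v hK y := by
  obtain ⟨y, _, hy⟩ := (vertex_iff hL hK x).1 hx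
  exact ⟨y, hy⟩

omit [BoundedOrder L] in
theorem uprop_le_one (hK : 1 ≤ K) {y : Fin n} {A : {A : Finset (Fin n) // A.card ≤ K}} :
    uprop_v (L := L) (rk := rk) hK y ≤ one A ↔ y ∈ A.1 := by
  rw [le_def]
  exact Finset.singleton_subset_iff

theorem uprop_le_two (hK : 1 ≤ K) {y : Fin n} {X : UTwo L rk n} :
    uprop_v (L := L) (rk := rk) hK y ≤ two X ↔ y ∈ free X := by
  unfold uprop_v
  rw [one_le_two]
  exact Finset.singleton_subset_iff

omit [BoundedOrder L] in
theorem uprop_two_le {X Z : UTwo L rk n} : (two X : UP L rk K n) ≤ two Z ↔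
    X.F ≤ Z.F ∧ ∀ v, ¬ v.1 ≤ Z.F → Z.g v = X.g v := Iff.rfl

/-- Job UProp-2. The number of vertices. -/
theorem card_vertices (hL : IsPolytope m L rk) (hK : 1 ≤ K) :
    Nat.card {x : UP L rk K n // rkU x = 0} = n := by
  have hb : Function.Bijective
      (fun y : Fin n => (⟨uprop_v hK y, uprop_rk hK y⟩ : {x : UP L rk K n // rkU x = 0})) := by
    constructor
    · intro y z h
      exact uprop_v_inj hK (congrArg Subtype.val h)
    · rintro ⟨x, hx⟩
      obtain ⟨y, hy⟩ := uprop_eq hL hK hx
      exact ⟨y, Subtype.ext hy.symm⟩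
  rw [← Nat.card_congr (Equiv.ofBijective _ hb), Nat.card_fin]

theorem uprop_set (hL : IsPolytope m L rk) (hK : 1 ≤ K) (S : Set (UP L rk K n))
    (hS : ∀ x ∈ S, rkU x = 0) :
    ∃ A : Finset (Fin n), (∀ y, y ∈ A ↔ uprop_v hK y ∈ S) ∧ A.card = S.ncard := by
  classical
  refine ⟨Finset.univ.filter fun y => uprop_v hK y ∈ S, by simp, ?_⟩
  have h1 : S = (uprop_v hK) '' (↑(Finset.univ.filter fun y : Fin n =>
      uprop_v (L := L) (rk := rk) hK y ∈ S) : Set (Fin n)) := by
    ext x
    constructor
    · intro hx
      obtain ⟨y, rfl⟩ := uprop_eq hL hK (hS x hx)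
      exact ⟨y, by simpa using hx, rfl⟩
    · rintro ⟨y, hy, rfl⟩
      simpa using hy
  conv_rhs => rw [h1]
  rw [Set.ncard_image_of_injective _ (fun y z h => uprop_v_inj hK h), Set.ncard_coe_finset]

/-- Job UProp-3. Any `i + 1 ≤ K` vertices are the vertices of exactly one face of rank `i`.

Proof. Let `S` be a nonempty set of `i + 1 ≤ K` vertices; `S = {one {y} | y ∈ A}` with
`A.card = i + 1 ≤ K`. The face `one A` has rank `i` and its vertices are those of `S`. A face of rank
`i ≤ K - 1` is a set (`rkU (two X) ≥ K`), and it is determined by the vertices below it. -/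
theorem neigh_unique (hL : IsPolytope m L rk) (hK : 1 ≤ K) (S : Set (UP L rk K n))
    (hS : ∀ x ∈ S, rkU x = 0) (h1 : 1 ≤ S.ncard) (h2 : S.ncard ≤ K) :
    ∃! F : UP L rk K n, rkU F = (S.ncard : ℤ) - 1 ∧ {x | rkU x = 0 ∧ x ≤ F} = S := by
  obtain ⟨A, hA, hc⟩ := uprop_set hL hK S hS
  have hc' : A.card ≤ K := by rw [hc]; exact h2
  refine ⟨one ⟨A, hc'⟩, ⟨?_, ?_⟩, ?_⟩
  · simp only [rkU]
    rw [hc]
  · ext x
    simp only [Set.mem_setOf_eq]
    constructor
    · rintro ⟨hx, hx'⟩
      obtain ⟨y, rfl⟩ := uprop_eq hL hK hx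
      exact (hA y).1 ((uprop_le_one hK).1 hx')
    · intro hx
      have hx0 := hS x hx
      obtain ⟨y, rfl⟩ := uprop_eq hL hK hx0
      exact ⟨hx0, (uprop_le_one hK).2 ((hA y).2 hx)⟩
  · rintro F ⟨hF, hF'⟩
    cases F with
    | one B =>
      refine congrArg one (Subtype.ext ?_)
      ext y
      rw [hA y, ← hF']
      simp only [Set.mem_setOf_eq]
      rw [uprop_le_one]
      exact ⟨fun h => ⟨uprop_rk hK y, h⟩, fun h => h.2⟩
    | two X =>
      simp only [rkU] at hF
      have := hL.rk_ge X.F
      omega

theorem uprop_free_bot [Finite L] (hL : IsPolytope m L rk) (X : UTwo L rk n) (hX : X.F = ⊥)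
    (hn : n = Nat.card {v : L // rk v = 0} + K + 1) : (free X).card = K + 1 := by
  rw [card_free X hn, hX]
  have : IsEmpty {v : {v : L // rk v = 0} // v.1 ≤ ⊥} := by
    constructor
    rintro ⟨⟨v, hv⟩, hv'⟩
    have h1 : v = ⊥ := le_bot_iff.1 hv'
    rw [h1, hL.bot] at hv
    omega
  rw [Nat.card_of_isEmpty, add_zero]

/-- Job UProp-4. Any `K + 1` vertices are the vertices of some face of rank `K`.

Proof. `S = {one {y} | y ∈ A}`, `A.card = K + 1`; `A ⊆ free X` for some `X` with `X.F = ⊥` by
`exists_down` (from the greatest face `two Z`, `Z.F = ⊤`, `free Z = univ`), and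
`free X` has `K + 1` elements (`card_free`), so `free X = A`. -/
theorem neigh_exists [Finite L] (hL : IsPolytope m L rk) (hK : 1 ≤ K)
    (hn : n = Nat.card {v : L // rk v = 0} + K + 1) (S : Set (UP L rk K n))
    (hS : ∀ x ∈ S, rkU x = 0) (h1 : S.ncard = K + 1) :
    ∃ F : UP L rk K n, rkU F = K ∧ {x | rkU x = 0 ∧ x ≤ F} = S := by
  obtain ⟨A, hA, hc⟩ := uprop_set hL hK S hS
  rw [h1] at hc
  obtain ⟨X, hX, _, hAX⟩ := exists_down (K := K)
    (⟨⊤, fun _ => none, fun _ => ⟨fun _ => le_top, fun _ => rfl⟩,
      fun _ _ _ h => absurd rfl h⟩ : UTwo L rk n) (F := ⊥) bot_le A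
    (by intro y _; simp [free]) hc.le hn
  have hfree : free X = A := by
    refine (Finset.eq_of_subset_of_card_le hAX ?_).symm
    rw [uprop_free_bot hL X hX hn, hc]
  refine ⟨two X, ?_, ?_⟩
  · simp only [rkU]
    rw [hX, hL.bot]
    ring
  · ext x
    simp only [Set.mem_setOf_eq]
    constructor
    · rintro ⟨hx, hx'⟩
      obtain ⟨y, rfl⟩ := uprop_eq hL hK hx
      rw [uprop_le_two, hfree, hA] at hx'
      exact hx'
    · intro hx
      have hx0 := hS x hx
      obtain ⟨y, rfl⟩ := uprop_eq hL hK hx0
      refine ⟨hx0, ?_⟩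
      rw [uprop_le_two, hfree, hA]
      exact hx

/-- Job UProp-5. The co-face of a face of rank `K` is isomorphic to `L`.

Proof. `G = two X` with `X.F = ⊥`. The map `Set.Ici G → L`, `two Z ↦ Z.F` is bijective by
`exists_up`, and it and its inverse preserve the order (if `Z, Z'` are above `X` and `Z.F ≤ Z'.F` then
`two Z ≤ two Z'`: both `g`'s are restrictions of `X.g`). -/
theorem coface (hL : IsPolytope m L rk) {G : UP L rk K n} (hG : rkU G = K) :
    Nonempty (Set.Ici G ≃o L) := by
  cases G with
  | one A =>
    simp only [rkU] at hG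
    have := A.2
    omega
  | two X =>
    have hX : X.F = ⊥ := by
      apply hL.eq_bot
      simp only [rkU] at hG
      omega
    have hex : ∀ F' : L, ∃ Z : UTwo L rk n, Z.F = F' ∧ (two X : UP L rk K n) ≤ two Z ∧
        ∀ Z' : UTwo L rk n, Z'.F = F' → (two X : UP L rk K n) ≤ two Z' → Z' = Z :=
      fun F' => exists_up X (by rw [hX]; exact bot_le)
    choose f hf1 hf2 hf3 using hex
    let g : L → Set.Ici (two X : UP L rk K n) := fun F' => ⟨two (f F'), hf2 F'⟩
    have hg : ∀ a b : L, g a ≤ g b ↔ a ≤ b := by
      intro a b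
      constructor
      · intro h
        have h1 : (two (f a) : UP L rk K n) ≤ two (f b) := h
        have h2 := (uprop_two_le.1 h1).1
        rwa [hf1, hf1] at h2
      · intro h
        have h1 : (two (f a) : UP L rk K n) ≤ two (f b) := by
          rw [uprop_two_le, hf1, hf1]
          refine ⟨h, fun v hv => ?_⟩
          rw [(uprop_two_le.1 (hf2 b)).2 v (by rw [hf1]; exact hv),
            (uprop_two_le.1 (hf2 a)).2 v (by rw [hf1]; exact fun h3 => hv (h3.trans h))]
        exact h1
    have hs : Function.Surjective g := by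
      rintro ⟨z, hz⟩
      cases z with
      | one A => exact (show False from hz).elim
      | two Z => exact ⟨Z.F, Subtype.ext (congrArg two (hf3 Z.F Z rfl hz).symm)⟩
    exact ⟨(RelIso.ofSurjective (OrderEmbedding.ofMapLEIff g hg) hs).symm⟩

/-- insert one element in a set -/
def uprop_ins (A : {A : Finset (Fin n) // A.card ≤ K}) (hA : A.1.card < K) (y : Fin n) :
    UP L rk K n := one ⟨insert y A.1, (Finset.card_insert_le y A.1).trans hA⟩

omit [BoundedOrder L] in
theorem uprop_ins_rk (A : {A : Finset (Fin n) // A.card ≤ K}) (hA : A.1.card < K) {y : Fin n}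
    (hy : y ∉ A.1) : rkU (uprop_ins (L := L) (rk := rk) A hA y) = A.1.card := by
  simp only [uprop_ins, rkU]
  rw [Finset.card_insert_of_notMem hy]
  push_cast
  ring

omit [BoundedOrder L] in
theorem uprop_ncard_one (A : {A : Finset (Fin n) // A.card ≤ K}) (hA : A.1.card < K)
    (G : UP L rk K n) (T : Finset (Fin n)) (hT : ∀ y ∈ T, y ∉ A.1)
    (hT' : ∀ y ∈ T, uprop_ins A hA y < G)
    (hf : {H : UP L rk K n | one A < H ∧ H < G ∧
      rkU H = rkU (one A : UP L rk K n) + 1}.Finite) :
    T.card ≤ {H : UP L rk K n | one A < H ∧ H < G ∧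
      rkU H = rkU (one A : UP L rk K n) + 1}.ncard := by
  rw [← Set.ncard_coe_finset]
  refine Set.ncard_le_ncard_of_injOn (uprop_ins A hA) ?_ ?_ hf
  · intro y hy
    have hy' := hT y (Finset.mem_coe.1 hy)
    refine ⟨?_, hT' y (Finset.mem_coe.1 hy), ?_⟩
    · rw [lt_iff_le_and_ne]
      refine ⟨?_, ?_⟩
      · rw [le_def]
        exact Finset.subset_insert _ _
      · intro h5
        have h6 := congrArg rkU h5
        rw [uprop_ins_rk A hA hy'] at h6
        simp only [rkU] at h6
        omega
    · rw [uprop_ins_rk A hA hy']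
      simp only [rkU]
      ring
  · intro y hy z hz hyz
    unfold uprop_ins at hyz
    have h1 : insert y A.1 = insert z A.1 := congrArg Subtype.val (UP.one.inj hyz)
    have h6 : y ∈ insert z A.1 := by rw [← h1]; exact Finset.mem_insert_self _ _
    rcases Finset.mem_insert.1 h6 with h7 | h7
    · exact h7
    · exact absurd h7 (hT y (Finset.mem_coe.1 hy))

theorem uprop_two_vert [Finite L] (hL : IsPolytope m L rk) {F : L} (h1 : rk F = 1) :
    2 ≤ Nat.card {v : {v : L // rk v = 0} // v.1 ≤ F} := by
  have hlt : ⊥ < F := by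
    rw [bot_lt_iff_ne_bot]
    intro h
    rw [h, hL.bot] at h1
    omega
  have h2 := hL.diamond ⊥ F hlt (by rw [h1, hL.bot]; norm_num)
  obtain ⟨a, b, hab, hS⟩ := Set.ncard_eq_two.1 h2
  have ha : a ∈ {H : L | ⊥ < H ∧ H < F} := by rw [hS]; simp
  have hb : b ∈ {H : L | ⊥ < H ∧ H < F} := by rw [hS]; simp
  have hr : ∀ c : L, c ∈ {H : L | ⊥ < H ∧ H < F} → rk c = 0 := by
    rintro c ⟨hc1, hc2⟩
    have h3 := hL.mono _ _ hc1
    have h4 := hL.mono _ _ hc2
    rw [hL.bot] at h3
    omega
  have : Nontrivial {v : {v : L // rk v = 0} // v.1 ≤ F} :=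
    ⟨⟨⟨a, hr a ha⟩, ha.2.le⟩, ⟨⟨b, hr b hb⟩, hb.2.le⟩, by
      intro h
      exact hab (congrArg (fun v : {v : {v : L // rk v = 0} // v.1 ≤ F} => v.1.1) h)⟩
  exact Finite.one_lt_card

/-- Job UProp-6. No digons.

Proof. Let `F < G`, `rkU G - rkU F = 3`, and count the faces strictly between of rank
`rkU F + 1`.
(one A, one B): `B \ A` has 3 elements, the faces are `A ∪ {y}`: 3.
(one A, two X): `K + 1 + rk X.F - (A.card - 1) = 3`, `rk X.F + K = A.card + 1`, so `rk X.F` is
`-1`, `0` or `1`. If `A.card < K` (`rk X.F ≤ 0`): the faces are `A ∪ {y}`, `y ∈ free X \ A`, and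
`free X` has `A.card + 3` elements (`card_free`; no vertex is below `⊥`, exactly one is below a
vertex): 3. If `A.card = K`, `rk X.F = 1`: the faces are the `two Y`, `Y.F = ⊥`, `A ⊆ free Y`, below
`two X`; there are exactly two vertices `v, w` below `X.F` (`hL.diamond`), `free X \ A` has 3 elements,
and `Y` is determined by two different values at `v`, `w` in this set: 6 faces. (For `≠ 2` it is
enough to exhibit three of them.)
(two X, two Z): the faces correspond to the faces `H` of `L` with `X.F < H < Z.F`,
`rk H = rk X.F + 1` (`exists_up`), use `hd`. -/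
theorem noDigon [Finite L] (hL : IsPolytope m L rk) (hd : NoDigon L rk)
    (hn : n = Nat.card {v : L // rk v = 0} + K + 1) : NoDigon (UP L rk K n) rkU := by
  intro F G hFG hr
  have hfin : ∀ S : Set (UP L rk K n), S.Finite := fun S => Set.toFinite S
  cases F with
  | one A =>
    cases G with
    | one B =>
      simp only [rkU] at hr
      have hAB : A.1 ⊆ B.1 := hFG.le
      have hB := B.2
      have hA : A.1.card < K := by omega
      have h3 : 3 ≤ (B.1 \ A.1).card := by
        rw [Finset.card_sdiff_of_subset hAB]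
        omega
      have h4 := uprop_ncard_one A hA (one B) (B.1 \ A.1) (fun y hy => (Finset.mem_sdiff.1 hy).2)
        (fun y hy => ?_) (hfin _)
      · omega
      · rw [lt_iff_le_and_ne]
        refine ⟨?_, ?_⟩
        · rw [le_def]
          exact Finset.insert_subset (Finset.mem_sdiff.1 hy).1 hAB
        · intro h5
          have h6 := congrArg rkU h5
          rw [uprop_ins_rk A hA (Finset.mem_sdiff.1 hy).2] at h6
          simp only [rkU] at h6
          omega
    | two X =>
      simp only [rkU] at hr
      have hAX : A.1 ⊆ free X := one_le_two.1 hFG.le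
      have hcf := card_free X hn
      have hA := A.2
      have hge := hL.rk_ge X.F
      have hcd : (free X \ A.1).card = (free X).card - A.1.card :=
        Finset.card_sdiff_of_subset hAX
      rcases hA.lt_or_eq with hlt | heq
      · have h3 : 3 ≤ (free X \ A.1).card := by
          rw [hcd]
          by_cases h0 : rk X.F = 0
          · have h5 : 1 ≤ Nat.card {v : {v : L // rk v = 0} // v.1 ≤ X.F} := by
              have : Nonempty {v : {v : L // rk v = 0} // v.1 ≤ X.F} := ⟨⟨⟨X.F, h0⟩, le_rfl⟩⟩
              exact Nat.card_pos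
            omega
          · omega
        have h4 := uprop_ncard_one A hlt (two X) (free X \ A.1)
          (fun y hy => (Finset.mem_sdiff.1 hy).2) (fun y hy => ?_) (hfin _)
        · omega
        · rw [lt_iff_le_and_ne]
          refine ⟨?_, by simp [uprop_ins]⟩
          unfold uprop_ins
          rw [one_le_two]
          exact Finset.insert_subset (Finset.mem_sdiff.1 hy).1 hAX
      · have h1 : rk X.F = 1 := by omega
        have h2 : 2 ≤ Nat.card {v : {v : L // rk v = 0} // v.1 ≤ X.F} :=
          uprop_two_vert hL h1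
        have h3 : 3 ≤ (free X \ A.1).card := by
          rw [hcd]
          omega
        have hex : ∀ y : Fin n, ∃ H : UP L rk K n, y ∈ free X \ A.1 →
            (one A < H ∧ H < two X ∧ rkU H = rkU (one A : UP L rk K n) + 1) ∧
              ∃ Y : UTwo L rk n, H = two Y ∧ free Y = insert y A.1 := by
          intro y
          by_cases hy : y ∈ free X \ A.1
          · rw [Finset.mem_sdiff] at hy
            obtain ⟨Y, hY1, hY2, hY3⟩ := exists_down (K := K) X (F := ⊥) bot_le (insert y A.1)
              (Finset.insert_subset hy.1 hAX)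
              (by rw [Finset.card_insert_of_notMem hy.2]; omega) hn
            have hfree : free Y = insert y A.1 := by
              refine (Finset.eq_of_subset_of_card_le hY3 ?_).symm
              rw [uprop_free_bot hL Y hY1 hn, Finset.card_insert_of_notMem hy.2, heq]
            refine ⟨two Y, fun _ => ⟨⟨?_, ?_, ?_⟩, Y, rfl, hfree⟩⟩
            · rw [lt_iff_le_and_ne]
              refine ⟨?_, by simp⟩
              rw [one_le_two, hfree]
              exact Finset.subset_insert _ _
            · rw [lt_iff_le_and_ne]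
              refine ⟨hY2, ?_⟩
              intro h5
              have h6 := congrArg UTwo.F (UP.two.inj h5)
              rw [hY1] at h6
              rw [← h6, hL.bot] at h1
              omega
            · simp only [rkU]
              rw [hY1, hL.bot, heq]
              ring
          · exact ⟨⊥, fun h => absurd h hy⟩
        choose f hf using hex
        have h4 := Set.ncard_le_ncard_of_injOn (s := (↑(free X \ A.1) : Set (Fin n)))
          (t := {H : UP L rk K n | one A < H ∧ H < two X ∧
            rkU H = rkU (one A : UP L rk K n) + 1}) f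
          (fun y hy => (hf y (Finset.mem_coe.1 hy)).1) (fun y hy z hz hyz => ?_) (hfin _)
        · rw [Set.ncard_coe_finset] at h4
          omega
        · obtain ⟨_, Y, hY, hY'⟩ := hf y (Finset.mem_coe.1 hy)
          obtain ⟨_, Z, hZ, hZ'⟩ := hf z (Finset.mem_coe.1 hz)
          rw [hY, hZ] at hyz
          have h5 := UP.two.inj hyz
          rw [h5, hZ'] at hY'
          have h6 : y ∈ insert z A.1 := by rw [hY']; exact Finset.mem_insert_self _ _
          rcases Finset.mem_insert.1 h6 with h7 | h7
          · exact h7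
          · exact absurd h7 (Finset.mem_sdiff.1 (Finset.mem_coe.1 hy)).2
  | two X =>
    cases G with
    | one B => exact (show False from hFG.le).elim
    | two Z =>
      simp only [rkU] at hr
      have hXZ := uprop_two_le.1 hFG.le
      have hlt : X.F < Z.F := by
        rcases hXZ.1.lt_or_eq with h | h
        · exact h
        · rw [h] at hr
          omega
      have hd' := hd X.F Z.F hlt (by omega)
      have hex : ∀ H : L, ∃ Y : UTwo L rk n, X.F ≤ H → (Y.F = H ∧ (two X : UP L rk K n) ≤ two Y ∧
          ∀ Z' : UTwo L rk n, Z'.F = H → (two X : UP L rk K n) ≤ two Z' → Z' = Y) := by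
        intro H
        by_cases hH : X.F ≤ H
        · obtain ⟨Y, hY⟩ := exists_up (K := K) X hH
          exact ⟨Y, fun _ => hY⟩
        · exact ⟨X, fun h => absurd h hH⟩
      choose f hf using hex
      have hS : {H : UP L rk K n | two X < H ∧ H < two Z ∧
          rkU H = rkU (two X : UP L rk K n) + 1} = (fun H => (two (f H) : UP L rk K n)) ''
          {H : L | X.F < H ∧ H < Z.F ∧ rk H = rk X.F + 1} := by
        ext H
        simp only [Set.mem_setOf_eq, Set.mem_image]
        constructor
        · rintro ⟨h1, h2, h3⟩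
          cases H with
          | one B => exact (show False from h1.le).elim
          | two Y =>
            simp only [rkU] at h3
            have h4 : rk Y.F = rk X.F + 1 := by omega
            have h5 := (uprop_two_le.1 h1.le).1
            have h6 := (uprop_two_le.1 h2.le).1
            refine ⟨Y.F, ⟨h5.lt_of_ne ?_, h6.lt_of_ne ?_, h4⟩, ?_⟩
            · intro h7
              rw [h7] at h4
              omega
            · intro h7
              rw [h7] at h4
              omega
            · exact congrArg two ((hf Y.F h5).2.2 Y rfl h1.le).symm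
        · rintro ⟨H', ⟨h1, h2, h3⟩, rfl⟩
          obtain ⟨h4, h5, h6⟩ := hf H' h1.le
          refine ⟨h5.lt_of_ne ?_, lt_of_le_of_ne ?_ ?_, ?_⟩
          · intro h7
            have h8 := congrArg UTwo.F (UP.two.inj h7)
            rw [h4] at h8
            exact h1.ne h8
          · rw [uprop_two_le]
            refine ⟨by rw [h4]; exact h2.le, fun v hv => ?_⟩
            rw [hXZ.2 v hv, (uprop_two_le.1 h5).2 v
              (by rw [h4]; exact fun h9 => hv (h9.trans h2.le))]
          · intro h7
            have h8 := congrArg UTwo.F (UP.two.inj h7)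
            rw [h4] at h8
            exact h2.ne h8
          · simp only [rkU]
            rw [h4, h3]
            ring
      rw [hS, Set.ncard_image_of_injOn]
      · exact hd'
      · intro a ha b hb hab
        have h8 := congrArg UTwo.F (UP.two.inj hab)
        rwa [(hf a ha.1.le).1, (hf b hb.1.le).1] at h8

end UP

end Pool.Agent.H.MP_6268b4_co
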