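import Pool.Agent.H.MP_6268b4_co.USec

/-!
The automorphisms of `UP L rk K n`.
-/

namespace Pool.Agent.H.MP_6268b4_co

namespace UP

variable {L : Type*} [PartialOrder L] [BoundedOrder L] {rk : L → ℤ} {K n m : ℕ}

section hom

variable (hr : ∀ (α : L ≃o L) (x : L), rk (α x) = rk x)

/-- the action on the vertices -/
def ureg_vt (hr : ∀ (α : L ≃o L) (x : L), rk (α x) = rk x) (α : L ≃o L)
    (v : {v : L // rk v = 0}) : {v : L // rk v = 0} := ⟨α v.1, by rw [hr, v.2]⟩

/-- the action on the elements of the second kind -/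
def ureg_two (hr : ∀ (α : L ≃o L) (x : L), rk (α x) = rk x) (π : Equiv.Perm (Fin n))
    (α : L ≃o L) (X : UTwo L rk n) : UTwo L rk n where
  F := α X.F
  g v := (X.g (ureg_vt hr α.symm v)).map π
  dom v := by
    rw [Option.map_eq_none_iff, X.dom]
    exact α.symm_apply_le
  inj v w h1 h2 := by
    have h3 : X.g (ureg_vt hr α.symm v) = X.g (ureg_vt hr α.symm w) :=
      Option.map_injective π.injective h1
    have h4 : X.g (ureg_vt hr α.symm v) ≠ none := by
      intro h
      apply h2
      rw [h]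
      rfl
    have h5 := X.inj _ _ h3 h4
    exact Subtype.ext (α.symm.injective (congrArg Subtype.val h5))

/-- the action -/
def ureg_map (hr : ∀ (α : L ≃o L) (x : L), rk (α x) = rk x)
    (p : Equiv.Perm (Fin n) × (L ≃o L)) : UP L rk K n → UP L rk K n
  | one A => one ⟨A.1.map p.1.toEmbedding, by rw [Finset.card_map]; exact A.2⟩
  | two X => two (ureg_two hr p.1 p.2 X)

theorem ureg_map_mul (p q : Equiv.Perm (Fin n) × (L ≃o L)) (x : UP L rk K n) :
    ureg_map hr (p * q) x = ureg_map hr p (ureg_map hr q x) := by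
  cases x with
  | one A =>
    refine congrArg one (Subtype.ext ?_)
    change A.1.map (p.1 * q.1).toEmbedding = (A.1.map q.1.toEmbedding).map p.1.toEmbedding
    rw [Finset.map_map]
    rfl
  | two X =>
    refine congrArg two (UTwo.ext rfl (funext fun v => ?_))
    change (X.g (ureg_vt hr (p.2 * q.2).symm v)).map (p.1 * q.1) =
      ((X.g (ureg_vt hr q.2.symm (ureg_vt hr p.2.symm v))).map q.1).map p.1
    rw [Option.map_map]
    rfl

theorem ureg_map_one (x : UP L rk K n) : ureg_map hr 1 x = x := by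
  cases x with
  | one A =>
    refine congrArg one (Subtype.ext ?_)
    change A.1.map (1 : Equiv.Perm (Fin n)).toEmbedding = A.1
    exact Finset.map_refl
  | two X =>
    refine congrArg two (UTwo.ext rfl (funext fun v => ?_))
    change (X.g (ureg_vt hr (1 : L ≃o L).symm v)).map (1 : Equiv.Perm (Fin n)) = X.g v
    exact Option.map_id_apply

theorem ureg_map_mono (p : Equiv.Perm (Fin n) × (L ≃o L)) {x y : UP L rk K n} (h : x ≤ y) :
    ureg_map hr p x ≤ ureg_map hr p y := by
  cases x with
  | one A =>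
    cases y with
    | one B => exact Finset.map_subset_map.2 h
    | two X =>
      intro v y hy hyA
      change (X.g (ureg_vt hr p.2.symm v)).map p.1 = some y at hy
      change y ∈ A.1.map p.1.toEmbedding at hyA
      rw [Option.map_eq_some_iff] at hy
      obtain ⟨z, hz1, hz2⟩ := hy
      rw [Finset.mem_map] at hyA
      obtain ⟨a, ha1, ha2⟩ := hyA
      have h1 : a = z := p.1.injective (ha2.trans hz2.symm)
      rw [h1] at ha1
      exact h _ z hz1 ha1
  | two X =>
    cases y with
    | one B => exact (h : False).elim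
    | two Z =>
      refine ⟨p.2.monotone h.1, fun v hv => ?_⟩
      change ¬ v.1 ≤ p.2 Z.F at hv
      change (Z.g (ureg_vt hr p.2.symm v)).map p.1 = (X.g (ureg_vt hr p.2.symm v)).map p.1
      rw [h.2 (ureg_vt hr p.2.symm v) (fun h2 => hv (p.2.symm_apply_le.1 h2))]

/-- the automorphism -/
def ureg_iso (p : Equiv.Perm (Fin n) × (L ≃o L)) : UP L rk K n ≃o UP L rk K n where
  toFun := ureg_map hr p
  invFun := ureg_map hr p⁻¹
  left_inv x := by rw [← ureg_map_mul, inv_mul_cancel, ureg_map_one]
  right_inv x := by rw [← ureg_map_mul, mul_inv_cancel, ureg_map_one]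
  map_rel_iff' := by
    intro x y
    constructor
    · intro h
      have h2 := ureg_map_mono hr p⁻¹ h
      change ureg_map hr p⁻¹ (ureg_map hr p x) ≤ ureg_map hr p⁻¹ (ureg_map hr p y) at h2
      rwa [← ureg_map_mul, ← ureg_map_mul, inv_mul_cancel, ureg_map_one, ureg_map_one] at h2
    · intro h
      exact ureg_map_mono hr p h

end hom

/-- Job UReg-1. A permutation `π` of `{0, .., n-1}` and an automorphism `α` of `L` give an
automorphism: `A ↦ π(A)`, `(F, g) ↦ (α F, v ↦ π (g (α⁻¹ v)))`; this is a group homomorphism.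

Proof. `α` preserves the rank (`IsPolytope.rk_map`), so it acts on the vertices. Check the axioms
of `UTwo`, the order, and multiplicativity (`MonoidHom.mk'`; for the inverse map use `π⁻¹`,
`α⁻¹`). -/
theorem exists_hom (hL : IsPolytope m L rk) :
    ∃ θ : Equiv.Perm (Fin n) × (L ≃o L) →* (UP L rk K n ≃o UP L rk K n),
      (∀ (π : Equiv.Perm (Fin n)) (α : L ≃o L) (A : {A : Finset (Fin n) // A.card ≤ K}),
        ∃ B : {A : Finset (Fin n) // A.card ≤ K}, θ (π, α) (one A) = one B ∧
          B.1 = A.1.map π.toEmbedding) ∧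
      (∀ (π : Equiv.Perm (Fin n)) (α : L ≃o L) (X : UTwo L rk n),
        ∃ Z : UTwo L rk n, θ (π, α) (two X) = two Z ∧ Z.F = α X.F ∧
          ∀ v w : {v : L // rk v = 0}, w.1 = α v.1 → Z.g w = (X.g v).map π) := by
  have hr : ∀ (α : L ≃o L) (x : L), rk (α x) = rk x := fun α x => hL.rk_map hL α x
  refine ⟨MonoidHom.mk' (fun p => ureg_iso hr p) ?_, ?_, ?_⟩
  · intro p q
    apply RelIso.ext
    intro x
    exact ureg_map_mul hr p q x
  · intro π α A
    exact ⟨_, rfl, rfl⟩
  · intro π α X
    refine ⟨ureg_two hr π α X, rfl, rfl, fun v w h => ?_⟩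
    change (X.g (ureg_vt hr α.symm w)).map π = (X.g v).map π
    have h1 : ureg_vt hr α.symm w = v := by
      apply Subtype.ext
      change α.symm w.1 = v.1
      rw [h, OrderIso.symm_apply_apply]
    rw [h1]

theorem ureg_flag_eq {P : Type*} [PartialOrder P] {A B : Flag P} (h : (A : Set P) ⊆ B) : A = B :=
  SetLike.coe_injective (A.maxChain.2 B.chain_le h)

/-- The data of a flag. -/
theorem ureg_data [Finite L] (hL : IsPolytope m L rk)
    (hn : n = Nat.card {v : L // rk v = 0} + K + 1) (C : Flag (UP L rk K n)) :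
    ∃ (X : UTwo L rk n) (E : Fin (K + 1) ⊕ {v : L // rk v = 0} ≃ Fin n),
      (two X : UP L rk K n) ∈ C ∧ X.F = ⊥ ∧ (∀ v, X.g v = some (E (Sum.inr v))) ∧
      (∀ (i : Fin (K + 1)) (B : {A : Finset (Fin n) // A.card ≤ K}), one B ∈ C →
        (E (Sum.inl i) ∈ B.1 ↔ (i : ℕ) < B.1.card)) ∧
      ∀ (v : {v : L // rk v = 0}) (B : {A : Finset (Fin n) // A.card ≤ K}), one B ∈ C →
        E (Sum.inr v) ∉ B.1 := by
  classical
  have hP := isPolytope hL hn
  have hA : ∀ i : ℕ, i ≤ K → ∃ B : {A : Finset (Fin n) // A.card ≤ K},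
      one B ∈ C ∧ B.1.card = i := by
    intro i hi
    obtain ⟨c, ⟨hc, hrc⟩, -⟩ := hP.full C ((i : ℤ) - 1) (by omega) (by push_cast; omega)
    cases c with
    | one B =>
      refine ⟨B, hc, ?_⟩
      have h1 : (B.1.card : ℤ) - 1 = i - 1 := hrc
      omega
    | two Z =>
      exfalso
      have h1 : (K : ℤ) + 1 + rk Z.F = i - 1 := hrc
      have h2 := hL.rk_ge Z.F
      omega
  obtain ⟨X, hX, hXF⟩ : ∃ X : UTwo L rk n, (two X : UP L rk K n) ∈ C ∧ X.F = ⊥ := by
    obtain ⟨c, ⟨hc, hrc⟩, -⟩ := hP.full C (K : ℤ) (by omega) (by push_cast; omega)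
    cases c with
    | one B =>
      exfalso
      have h1 : (B.1.card : ℤ) - 1 = K := hrc
      have h2 := B.2
      omega
    | two Z =>
      have h1 : (K : ℤ) + 1 + rk Z.F = K := hrc
      exact ⟨Z, hc, hL.eq_bot (by omega)⟩
  have hsub : ∀ B B' : {A : Finset (Fin n) // A.card ≤ K}, one B ∈ C → one B' ∈ C →
      B.1.card ≤ B'.1.card → B.1 ⊆ B'.1 := by
    intro B B' hB hB' hle
    rcases C.le_or_le hB hB' with h1 | h1
    · exact h1
    · have h2 : B'.1 ⊆ B.1 := h1
      rw [Finset.eq_of_subset_of_card_le h2 hle]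
  have hBX : ∀ B : {A : Finset (Fin n) // A.card ≤ K}, one B ∈ C → B.1 ⊆ free X := by
    intro B hB
    rcases C.le_or_le hB hX with h1 | h1
    · exact one_le_two.1 h1
    · exact (h1 : False).elim
  have hcard : K + 1 ≤ (free X).card := by
    rw [card_free X hn]
    omega
  have hy : ∀ i : Fin (K + 1), ∃ z, z ∈ free X ∧
      ∀ B : {A : Finset (Fin n) // A.card ≤ K}, one B ∈ C → (z ∈ B.1 ↔ (i : ℕ) < B.1.card) := by
    intro i
    have hi := i.2
    obtain ⟨B, hB, hBc⟩ := hA i (by omega)
    by_cases hiK : (i : ℕ) < K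
    · obtain ⟨B', hB', hBc'⟩ := hA (i + 1) (by omega)
      obtain ⟨z, hz1, hz2⟩ := Finset.exists_mem_notMem_of_card_lt_card
        (show B.1.card < B'.1.card by omega)
      refine ⟨z, hBX B' hB' hz1, fun D hD => ⟨fun h1 => ?_, fun h1 => ?_⟩⟩
      · by_contra h2
        exact hz2 (hsub D B hD hB (by omega) h1)
      · exact hsub B' D hB' hD (by omega) hz1
    · obtain ⟨z, hz1, hz2⟩ := Finset.exists_mem_notMem_of_card_lt_card
        (show B.1.card < (free X).card by omega)
      refine ⟨z, hz1, fun D hD => ⟨fun h1 => ?_, fun h1 => ?_⟩⟩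
      · by_contra h2
        exact hz2 (hsub D B hD hB (by omega) h1)
      · have h2 := D.2
        omega
  choose y hy1 hy2 using hy
  have hyi : ∀ i j : Fin (K + 1), (i : ℕ) < j → y i ≠ y j := by
    intro i j hij h
    have hj := j.2
    obtain ⟨B, hB, hBc⟩ := hA j (by omega)
    have h1 := (hy2 i B hB).2 (by omega)
    rw [h] at h1
    have h2 := (hy2 j B hB).1 h1
    omega
  have hf : ∀ v : {v : L // rk v = 0}, ∃ z, X.g v = some z := by
    intro v
    rcases h : X.g v with _ | z
    · exfalso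
      have h1 := (X.dom v).1 h
      rw [hXF] at h1
      have h2 : v.1 = ⊥ := le_antisymm h1 bot_le
      have h3 := v.2
      rw [h2, hL.bot] at h3
      norm_num at h3
    · exact ⟨z, rfl⟩
  choose f hf using hf
  have hfree : ∀ v, f v ∉ free X := fun v h => ubase_mem_free.1 h v (hf v)
  have hinj : Function.Injective (Sum.elim y f) := by
    intro a b hab
    rcases a with i | v <;> rcases b with j | w
    · have h1 : y i = y j := hab
      rcases lt_trichotomy (i : ℕ) j with h2 | h2 | h2
      · exact absurd h1 (hyi i j h2)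
      · rw [Fin.ext h2]
      · exact absurd h1.symm (hyi j i h2)
    · have h1 : y i = f w := hab
      exact absurd (h1 ▸ hy1 i) (hfree w)
    · have h1 : f v = y j := hab
      exact absurd (h1.symm ▸ hy1 j) (hfree v)
    · have h1 : f v = f w := hab
      have h2 : X.g v = X.g w := by rw [hf, hf, h1]
      rw [X.inj v w h2 (by rw [hf]; simp)]
  let _ : Fintype {v : L // rk v = 0} := Fintype.ofFinite _
  have hbij : Function.Bijective (Sum.elim y f) := by
    rw [Fintype.bijective_iff_injective_and_card]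
    refine ⟨hinj, ?_⟩
    rw [Fintype.card_sum, Fintype.card_fin, Fintype.card_fin, ← Nat.card_eq_fintype_card]
    omega
  refine ⟨X, Equiv.ofBijective _ hbij, hX, hXF, hf, fun i B hB => hy2 i B hB, fun v B hB h => ?_⟩
  exact hfree v (hBX B hB h)

/-- Job UReg-2. Any two flags are related by one of these automorphisms if `L` is regular.

Proof. Let `C` be a flag of `UP L rk K n`. The faces of `C` of rank `K + 1 + i`, `-1 ≤ i ≤ m`, are
`two X_i` with `rk (X_i).F = i`; their first components form a flag `Φ` of `L` (a chain with a face of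
each rank is a flag: any flag containing it has exactly one face of each rank). The face of rank
`K` of `C` is `two X` with `X.F = ⊥`; the faces of rank `i - 1`, `0 ≤ i ≤ K`, are sets `A_i` with `i`
elements. So `A_i = {y_1, .., y_i}` for distinct `y_1, .., y_K`, all in `free X`, and
`free X` has `K + 1` elements (`card_free`), let `y_{K+1}` be the last one. For a second flag `C'`
with data `Φ'`, `X'`, `y'_i`: let `α` be an automorphism of `L` with `α Φ = Φ'`, and `π` the
permutation with `π y_i = y'_i` and `π (X.g v) = X'.g (α v)` for all vertices `v` (`X.g` is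
injective with values outside `free X`; all vertices `v` have `X.g v ≠ none` as `X.F = ⊥`).
Then `θ (π, α)` maps the faces of `C` to the faces of `C'`: sets: clear; `two X ↦ two X'`; the other
faces `two X_i` are above `two X` with `(X_i).F ∈ Φ`, so by `exists_up` they are mapped to the element
of `C'` with first component `α (X_i).F` above `two X'`. Hence `θ (π, α) • C = C'` (`Flag.ext`; a flag
whose faces are all contained in another flag is equal to it). -/
theorem flag_trans [Finite L] (hL : IsPolytope m L rk) (hR : IsRegular L)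
    (hn : n = Nat.card {v : L // rk v = 0} + K + 1)
    (θ : Equiv.Perm (Fin n) × (L ≃o L) →* (UP L rk K n ≃o UP L rk K n))
    (h1 : ∀ (π : Equiv.Perm (Fin n)) (α : L ≃o L) (A : {A : Finset (Fin n) // A.card ≤ K}),
        ∃ B : {A : Finset (Fin n) // A.card ≤ K}, θ (π, α) (one A) = one B ∧
          B.1 = A.1.map π.toEmbedding)
    (h2 : ∀ (π : Equiv.Perm (Fin n)) (α : L ≃o L) (X : UTwo L rk n),
        ∃ Z : UTwo L rk n, θ (π, α) (two X) = two Z ∧ Z.F = α X.F ∧
          ∀ v w : {v : L // rk v = 0}, w.1 = α v.1 → Z.g w = (X.g v).map π)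
    (C C' : Flag (UP L rk K n)) :
    ∃ (π : Equiv.Perm (Fin n)) (α : L ≃o L), θ (π, α) • C = C' := by
  classical
  have hP := isPolytope hL hn
  have hr : ∀ (α : L ≃o L) (x : L), rk (α x) = rk x := fun α x => hL.rk_map hL α x
  obtain ⟨X, E, hX, hXF, hXg, hE1, hE2⟩ := ureg_data hL hn C
  obtain ⟨X', E', hX', hXF', hXg', hE1', hE2'⟩ := ureg_data hL hn C'
  have hchain : ∀ D : Flag (UP L rk K n),
      ∃ Φ : Flag L, ∀ Z : UTwo L rk n, (two Z : UP L rk K n) ∈ D → Z.F ∈ Φ := by
    intro D
    have h3 : IsChain (· ≤ ·) {F : L | ∃ Z : UTwo L rk n, (two Z : UP L rk K n) ∈ D ∧ Z.F = F} := by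
      rintro _ ⟨Z, hZ, rfl⟩ _ ⟨Z', hZ', rfl⟩ _
      rcases D.le_or_le hZ hZ' with h4 | h4
      · exact Or.inl h4.1
      · exact Or.inr h4.1
    obtain ⟨Φ, hΦ⟩ := exists_flag_of_chain h3
    exact ⟨Φ, fun Z hZ => hΦ ⟨Z, hZ, rfl⟩⟩
  obtain ⟨Φ, hΦ⟩ := hchain C
  obtain ⟨Φ', hΦ'⟩ := hchain C'
  obtain ⟨α, hα⟩ := hR Φ Φ'
  have hαm : ∀ F ∈ Φ, α F ∈ Φ' := by
    intro F hF
    have h3 : α F ∈ ((α • Φ : Flag L) : Set L) := by
      rw [Flag.coe_smul]
      exact Set.smul_mem_smul_set hF
    rw [hα] at h3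
    exact h3
  let αV : {v : L // rk v = 0} ≃ {v : L // rk v = 0} :=
    ⟨ureg_vt hr α, ureg_vt hr α.symm, fun v => Subtype.ext (α.symm_apply_apply v.1),
      fun v => Subtype.ext (α.apply_symm_apply v.1)⟩
  let π : Equiv.Perm (Fin n) :=
    E.symm.trans ((Equiv.sumCongr (Equiv.refl (Fin (K + 1))) αV).trans E')
  have hπ1 : ∀ i, π (E (Sum.inl i)) = E' (Sum.inl i) := by
    intro i
    simp only [π, Equiv.trans_apply, Equiv.symm_apply_apply, Equiv.sumCongr_apply, Sum.map_inl,
      Equiv.refl_apply]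
  have hπ2 : ∀ v, π (E (Sum.inr v)) = E' (Sum.inr (αV v)) := by
    intro v
    simp only [π, Equiv.trans_apply, Equiv.symm_apply_apply, Equiv.sumCongr_apply, Sum.map_inr]
  refine ⟨π, α, ureg_flag_eq ?_⟩
  have hXX : θ (π, α) (two X) = two X' := by
    obtain ⟨W, hW1, hW2, hW3⟩ := h2 π α X
    rw [hW1]
    refine congrArg two (UTwo.ext ?_ (funext fun w => ?_))
    · rw [hW2, hXF, hXF', OrderIso.map_bot]
    · have h3 := hW3 (αV.symm w) w (α.apply_symm_apply w.1).symm
      rw [h3, hXg, hXg', Option.map_some, hπ2, Equiv.apply_symm_apply]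
  have key : ∀ c ∈ C, θ (π, α) c ∈ C' := by
    intro c hc
    obtain ⟨c', ⟨hc', hrc⟩, -⟩ := hP.full C' (rkU c) (hP.rk_ge c) (hP.rk_le c)
    cases c with
    | one A =>
      obtain ⟨B, hB1, hB2⟩ := h1 π α A
      rw [hB1]
      cases c' with
      | two Z =>
        exfalso
        have h3 : (K : ℤ) + 1 + rk Z.F = (A.1.card : ℤ) - 1 := hrc
        have h4 := hL.rk_ge Z.F
        have h5 := A.2
        omega
      | one A' =>
        have hcard : A'.1.card = A.1.card := by
          have h3 : (A'.1.card : ℤ) - 1 = (A.1.card : ℤ) - 1 := hrc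
          omega
        have hsub : B.1 ⊆ A'.1 := by
          intro z hz
          rw [hB2, Finset.mem_map] at hz
          obtain ⟨a, ha, rfl⟩ := hz
          obtain ⟨s, rfl⟩ := E.surjective a
          change π (E s) ∈ A'.1
          rcases s with i | v
          · rw [hπ1]
            exact (hE1' i A' hc').2 (by rw [hcard]; exact (hE1 i A hc).1 ha)
          · exact absurd ha (hE2 v A hc)
        have heq : B = A' := by
          apply Subtype.ext
          apply Finset.eq_of_subset_of_card_le hsub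
          rw [hcard, hB2, Finset.card_map]
        rw [heq]
        exact hc'
    | two Z =>
      obtain ⟨W, hW1, hW2, hW3⟩ := h2 π α Z
      cases c' with
      | one A' =>
        exfalso
        have h3 : (A'.1.card : ℤ) - 1 = (K : ℤ) + 1 + rk Z.F := hrc
        have h4 := hL.rk_ge Z.F
        have h5 := A'.2
        omega
      | two Z' =>
        have h3 : (K : ℤ) + 1 + rk Z'.F = (K : ℤ) + 1 + rk Z.F := hrc
        have hF : Z'.F = α Z.F := by
          apply hL.eq_of_mem (hΦ' Z' hc') (hαm _ (hΦ Z hc))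
          rw [hr]
          omega
        have hle : ∀ (D : Flag (UP L rk K n)) (Y Y' : UTwo L rk n), (two Y : UP L rk K n) ∈ D →
            (two Y' : UP L rk K n) ∈ D → Y.F = ⊥ → (two Y : UP L rk K n) ≤ two Y' := by
          intro D Y Y' hY hY' hYF
          rcases D.le_or_le hY hY' with h4 | h4
          · exact h4
          · have h5 : Y'.F = ⊥ := le_antisymm (by rw [← hYF]; exact h4.1) bot_le
            have h6 : rkU (two Y : UP L rk K n) = rkU (two Y' : UP L rk K n) := by
              change (K : ℤ) + 1 + rk Y.F = (K : ℤ) + 1 + rk Y'.F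
              rw [h5, hYF]
            rw [hP.eq_of_mem hY hY' h6]
        have hle1 := hle C X Z hX hc hXF
        have hle2 := hle C' X' Z' hX' hc' hXF'
        have hle3 : (two X' : UP L rk K n) ≤ two W := by
          rw [← hXX, ← hW1]
          exact (θ (π, α)).monotone hle1
        obtain ⟨Y, hY1, hY2, hY3⟩ := exists_up (K := K) X' (F' := α Z.F) (by rw [hXF']; exact bot_le)
        have e1 := hY3 W hW2 hle3
        have e2 := hY3 Z' hF hle2
        rw [hW1, e1, ← e2]
        exact hc'
  intro c hc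
  rw [Flag.coe_smul] at hc
  obtain ⟨d, hd, rfl⟩ := hc
  exact key d hd

/-- Job UReg-3. The group. Proof. `θ` is surjective: for an automorphism `γ` and a flag `C` (exists)
take `(π, α)` with `θ (π, α) • C = γ • C` (`flag_trans`); then `θ (π, α) = γ` by `eq_one_of_flag`. `θ` is
injective: if `θ (π, α) = 1` then (`1 ≤ K`) `π` fixes every set with one element, so `π = 1`; and
`α F = F` for all `F` (there is `X` with `X.F = F`: `exists_down` from `⊤`). -/
theorem group_iso [Finite L] (hL : IsPolytope m L rk) (hR : IsRegular L) (hK : 1 ≤ K)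
    (hn : n = Nat.card {v : L // rk v = 0} + K + 1) :
    Nonempty ((UP L rk K n ≃o UP L rk K n) ≃* Equiv.Perm (Fin n) × (L ≃o L)) := by
  classical
  have hP := isPolytope hL hn
  obtain ⟨θ, h1, h2⟩ := exists_hom (K := K) (n := n) hL
  have hinj : Function.Injective θ := by
    rw [injective_iff_map_eq_one]
    rintro ⟨π, α⟩ h
    have hπ : π = 1 := by
      ext y
      obtain ⟨B, hB1, hB2⟩ := h1 π α ⟨{y}, by rw [Finset.card_singleton]; exact hK⟩
      rw [h] at hB1
      have h3 : (one ⟨{y}, by rw [Finset.card_singleton]; exact hK⟩ : UP L rk K n) = one B := hB1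
      have h4 := congrArg Subtype.val (UP.one.inj h3)
      rw [hB2] at h4
      have h5 : ({y} : Finset (Fin n)) = {π y} := h4.trans (Finset.map_singleton _ _)
      rw [← Finset.singleton_injective h5]
      rfl
    have hα : α = 1 := by
      apply RelIso.ext
      intro F
      obtain ⟨T, hT⟩ : ∃ T : UTwo L rk n, T.F = ⊤ :=
        ⟨⟨⊤, fun _ => none, fun _ => ⟨fun _ => le_top, fun _ => rfl⟩,
          fun _ _ _ h => absurd rfl h⟩, rfl⟩
      obtain ⟨X, hX1, -, -⟩ := exists_down (K := K) T (F := F) (by rw [hT]; exact le_top) ∅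
        (Finset.empty_subset _) (by simp) hn
      obtain ⟨Z, hZ1, hZ2, -⟩ := h2 π α X
      rw [h] at hZ1
      have h3 : (two X : UP L rk K n) = two Z := hZ1
      rw [← UP.two.inj h3, hX1] at hZ2
      exact hZ2.symm
    rw [hπ, hα]
    rfl
  have hsurj : Function.Surjective θ := by
    intro γ
    obtain ⟨C, -⟩ := exists_flag_mem (⊥ : UP L rk K n)
    obtain ⟨π, α, h⟩ := flag_trans hL hR hn θ h1 h2 C (γ • C)
    refine ⟨(π, α), ?_⟩
    have h3 : (γ⁻¹ * θ (π, α)) • C = C := by
      rw [mul_smul, h, inv_smul_smul]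
    have h4 := eq_one_of_flag hP h3
    exact (inv_mul_eq_one.1 h4).symm
  exact ⟨(MulEquiv.ofBijective θ ⟨hinj, hsurj⟩).symm⟩

theorem regular [Finite L] (hL : IsPolytope m L rk) (hR : IsRegular L)
    (hn : n = Nat.card {v : L // rk v = 0} + K + 1) : IsRegular (UP L rk K n) := by
  obtain ⟨θ, h1, h2⟩ := exists_hom (K := K) (n := n) hL
  intro C C'
  obtain ⟨π, α, h⟩ := flag_trans hL hR hn θ h1 h2 C C'
  exact ⟨_, h⟩

end UP

end Pool.Agent.H.MP_6268b4_co
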