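import Pool.Agent.H.MP_6268b4_co.UGraded

/-!
The sections of `UP L rk K n` are connected.
-/

namespace Pool.Agent.H.MP_6268b4_co

namespace UP

theorem usec_range {T W : Type*} [Fintype T] [Fintype W]
    (hc : Fintype.card W = Fintype.card T + 1) (f : T ↪ W) {y w : W} (hy : ∀ t, f t ≠ y)
    (hw : w ≠ y) : ∃ t, f t = w := by
  classical
  by_contra hcon
  push Not at hcon
  have h1 : Finset.univ.map f ⊆ (Finset.univ.erase y).erase w := by
    intro a ha
    simp only [Finset.mem_map, Finset.mem_univ, true_and] at ha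
    obtain ⟨t, rfl⟩ := ha
    simp [hcon t, hy t]
  have h2 := Finset.card_le_card h1
  rw [Finset.card_map, Finset.card_erase_of_mem (by simp [hw]),
    Finset.card_erase_of_mem (by simp), Finset.card_univ, Finset.card_univ] at h2
  have h3 : 1 < Fintype.card W := Fintype.one_lt_card_iff.2 ⟨w, y, hw⟩
  omega

theorem usec_missed {T W : Type*} [Fintype T] [Fintype W]
    (hc : Fintype.card W = Fintype.card T + 1) (f : T ↪ W) : ∃ y, ∀ t, f t ≠ y := by
  by_contra hcon
  push Not at hcon
  have h1 : Fintype.card W ≤ Fintype.card T := Fintype.card_le_of_surjective f hcon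
  omega

theorem usec_move {T W : Type*} [DecidableEq T] (f : T ↪ W) (t : T) (y : W)
    (hy : ∀ s, f s ≠ y) : ∃ g : T ↪ W, g t = y ∧ ∀ s, s ≠ t → g s = f s := by
  refine ⟨⟨Function.update f t y, ?_⟩, Function.update_self .., ?_⟩
  · intro a b hab
    by_cases ha : a = t
    · by_cases hb : b = t
      · rw [ha, hb]
      · subst ha
        rw [Function.update_self, Function.update_of_ne hb] at hab
        exact absurd hab.symm (hy b)
    · by_cases hb : b = t
      · subst hb
        rw [Function.update_self, Function.update_of_ne ha] at hab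
        exact absurd hab (hy a)
      · rw [Function.update_of_ne ha, Function.update_of_ne hb] at hab
        exact f.injective hab
  · intro s hs
    exact Function.update_of_ne hs ..

theorem usec_star {T W : Type*} [Fintype T] [Fintype W] [DecidableEq T] [DecidableEq W]
    (hc : Fintype.card W = Fintype.card T + 1) (f' : T ↪ W) : ∀ (N : ℕ) (f : T ↪ W),
    (Finset.univ.filter fun t => f t ≠ f' t).card ≤ N →
    Relation.ReflTransGen (fun a b : T ↪ W => ∃ t, ∀ s, s ≠ t → a s = b s) f f' := by
  intro N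
  induction N with
  | zero =>
    intro f hf
    have h0 : (Finset.univ.filter fun t => f t ≠ f' t) = ∅ := Finset.card_eq_zero.1 (by omega)
    have h1 : f = f' := by
      ext t
      by_contra hne
      have h2 : t ∈ (Finset.univ.filter fun t => f t ≠ f' t) := by simp [hne]
      rw [h0] at h2
      simp at h2
    rw [h1]
  | succ N ih =>
    intro f hf
    by_cases hff : f = f'
    · rw [hff]
    obtain ⟨y, hy⟩ := usec_missed hc f
    by_cases hy' : ∃ t, f' t = y
    · obtain ⟨t, ht⟩ := hy'
      obtain ⟨g, hg1, hg2⟩ := usec_move f t y hy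
      refine Relation.ReflTransGen.head (b := g) ⟨t, fun s hs => (hg2 s hs).symm⟩ (ih g ?_)
      have h3 : (Finset.univ.filter fun t => g t ≠ f' t) ⊂
          (Finset.univ.filter fun t => f t ≠ f' t) := by
        rw [Finset.ssubset_iff_of_subset]
        · refine ⟨t, ?_, ?_⟩
          · simp only [Finset.mem_filter, Finset.mem_univ, true_and]
            rw [ht]
            exact hy t
          · simp [hg1, ht]
        · intro s hs
          simp only [Finset.mem_filter, Finset.mem_univ, true_and] at hs ⊢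
          by_cases hst : s = t
          · rw [hst, hg1, ht] at hs
            exact absurd rfl hs
          · rw [← hg2 s hst]
            exact hs
      have h4 := Finset.card_lt_card h3
      omega
    · push Not at hy'
      have h1 : ∃ t, f t ≠ f' t := by
        by_contra hcon
        push Not at hcon
        exact hff (DFunLike.ext _ _ hcon)
      obtain ⟨t, ht⟩ := h1
      obtain ⟨g, hg1, hg2⟩ := usec_move f t y hy
      obtain ⟨t', ht'⟩ := usec_range hc f' hy' (hy t)
      have htt : t' ≠ t := by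
        intro h0
        rw [h0] at ht'
        exact ht ht'.symm
      have hgm : ∀ s, g s ≠ f t := by
        intro s hs
        by_cases hst : s = t
        · rw [hst, hg1] at hs
          exact hy t hs.symm
        · rw [hg2 s hst] at hs
          exact hst (f.injective hs)
      obtain ⟨k, hk1, hk2⟩ := usec_move g t' (f t) hgm
      refine Relation.ReflTransGen.head (b := g) ⟨t, fun s hs => (hg2 s hs).symm⟩ ?_
      refine Relation.ReflTransGen.head (b := k) ⟨t', fun s hs => (hk2 s hs).symm⟩ (ih k ?_)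
      have h3 : (Finset.univ.filter fun t => k t ≠ f' t) ⊂
          (Finset.univ.filter fun t => f t ≠ f' t) := by
        rw [Finset.ssubset_iff_of_subset]
        · refine ⟨t', ?_, ?_⟩
          · simp only [Finset.mem_filter, Finset.mem_univ, true_and]
            rw [ht']
            intro h0
            exact htt (f.injective h0)
          · simp [hk1, ht']
        · intro s hs
          simp only [Finset.mem_filter, Finset.mem_univ, true_and] at hs ⊢
          by_cases hst : s = t
          · rw [hst]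
            exact ht
          · by_cases hst' : s = t'
            · rw [hst', hk1, ht'] at hs
              exact absurd rfl hs
            · rw [← hg2 s hst, ← hk2 s hst']
              exact hs
      have h4 := Finset.card_lt_card h3
      omega

/-- Job USec-1. Star transpositions. Let `W` be a finite set with one more element than `T`. Any two
injections `T → W` are connected by moves which change only one value (to the missing value).

Proof. Induction on `2 * d + e` where `d` is the number of `t` with `f t ≠ f' t` and `e = 1` if the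
missing values coincide (and `f ≠ f'`), else `0`. Let `y`, `y'` be the elements of `W` missed by
`f`, `f'`. If `y ≠ y'` then `y = f' t` for some `t`, `f t ≠ y`; change the value at `t` to `y`: `d`
decreases (`e` may increase from 0 to 1). If `y = y'` and `f ≠ f'` choose `t` with `f t ≠ f' t` and
change the value at `t` to `y`: `d` does not change, and the new missing value is
`f t ≠ y'`, `e` decreases. If `f = f'` we are done. -/
theorem star_conn {T W : Type*} [Fintype T] [Fintype W] [DecidableEq T]
    (hc : Fintype.card W = Fintype.card T + 1) (f f' : T ↪ W) :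
    Relation.ReflTransGen (fun a b : T ↪ W => ∃ t, ∀ s, s ≠ t → a s = b s) f f' := by
  classical
  exact usec_star hc f' _ f le_rfl

variable {L : Type*} [PartialOrder L] [BoundedOrder L] {rk : L → ℤ} {K n m : ℕ}

theorem usec_tt (X Z : UTwo L rk n) : (two X : UP L rk K n) ≤ two Z ↔
    X.F ≤ Z.F ∧ ∀ v, ¬ v.1 ≤ Z.F → Z.g v = X.g v := Iff.rfl

theorem usec_oo (A B : {A : Finset (Fin n) // A.card ≤ K}) :
    (one A : UP L rk K n) ≤ one B ↔ A.1 ⊆ B.1 := Iff.rfl

theorem usec_to (X : UTwo L rk n) (A : {A : Finset (Fin n) // A.card ≤ K}) :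
    ¬ (two X : UP L rk K n) ≤ one A := fun h => h

theorem usec_eq {X Z : UTwo L rk n} (h : (two X : UP L rk K n) ≤ two Z) (hF : X.F = Z.F) :
    X = Z := by
  refine UTwo.ext hF (funext fun v => ?_)
  by_cases hv : v.1 ≤ Z.F
  · rw [(Z.dom v).2 hv, (X.dom v).2 (hF ▸ hv)]
  · exact (h.2 v hv).symm

theorem usec_lt {X Z : UTwo L rk n} (h : (two X : UP L rk K n) < two Z) : X.F < Z.F := by
  rcases (lt_or_eq_of_le (h.le).1) with h1 | h1
  · exact h1
  · have h2 := usec_eq h.le h1
    rw [h2] at h
    exact absurd h (lt_irrefl _)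

theorem usec_lt' {X Z : UTwo L rk n} (h : (two X : UP L rk K n) ≤ two Z) (hF : X.F ≠ Z.F) :
    (two X : UP L rk K n) < two Z := by
  refine lt_of_le_of_ne h ?_
  intro h1
  exact hF (congrArg UTwo.F (UP.two.inj h1))

theorem usec_ot {A : {A : Finset (Fin n) // A.card ≤ K}} {X : UTwo L rk n}
    (h : A.1 ⊆ free X) : (one A : UP L rk K n) < two X := by
  refine lt_of_le_of_ne (one_le_two.2 h) ?_
  intro h1
  cases h1

theorem usec_oolt {A B : {A : Finset (Fin n) // A.card ≤ K}} (h : A.1 ⊂ B.1) :
    (one A : UP L rk K n) < one B := by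
  refine lt_of_le_of_ne h.1 ?_
  intro h1
  have h2 := UP.one.inj h1
  rw [h2] at h
  exact absurd h (ssubset_irrefl _)

theorem usec_oolt' {A B : {A : Finset (Fin n) // A.card ≤ K}}
    (h : (one A : UP L rk K n) < one B) : A.1 ⊂ B.1 := by
  refine Finset.ssubset_iff_subset_ne.2 ⟨h.le, ?_⟩
  intro h1
  have h2 : A = B := Subtype.ext h1
  rw [h2] at h
  exact absurd h (lt_irrefl _)

/-- Job USec-2. The interval between a set `A` with `K` elements and a face `two X`, `rk X.F ≥ 1`.

Proof. The elements strictly between are the `two Z` with `two Z < two X`, `A ⊆ free Z` (a set `B`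
with `A ⊂ B` has more than `K` elements). Each is above a `two Y` with `Y.F = ⊥`, `A ⊆ free Y`
(`exists_down`). So it suffices to connect `two Y` and `two Y'` with `Y.F = Y'.F = ⊥`. These
correspond to injections of the set `T` of vertices `v ≤ X.F` into `W = free X \ A`, where
`W` has one more element than `T` (`card_free`): the values outside `T` are those of `X.g`, and
the values on `T` are in `W`. If `Y` and `Y'` differ only at the vertex `v ∈ T` then both are below
the face `two Z`, `Z.F = v`, `Z.g = Y.g` on the vertices `≠ v` (`exists_up`), which is strictly below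
`two X` because `rk X.F ≥ 1`. Use `star_conn`. -/
theorem sec_star [Finite L] (hL : IsPolytope m L rk)
    (hn : n = Nat.card {v : L // rk v = 0} + K + 1)
    (A : {A : Finset (Fin n) // A.card ≤ K}) (hA : A.1.card = K) (X : UTwo L rk n)
    (hX : 1 ≤ rk X.F) (x y : UP L rk K n) (hx1 : one A < x) (hx2 : x < two X)
    (hy1 : one A < y) (hy2 : y < two X) :
    Relation.ReflTransGen
      (fun a b : UP L rk K n => (a ≤ b ∨ b ≤ a) ∧ one A < b ∧ b < two X) x y := by
  classical
  have hAX : A.1 ⊆ free X := (one_le_two).1 (hx1.trans hx2).le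
  -- the elements strictly between
  have key : ∀ z : UP L rk K n, one A < z → z < two X → ∃ Y : UTwo L rk n, Y.F = ⊥ ∧
      (two Y : UP L rk K n) ≤ z ∧ A.1 ⊆ free Y := by
    intro z hz1 hz2
    cases z with
    | one B =>
      have h1 := Finset.card_lt_card (usec_oolt' hz1)
      have h2 := B.2
      omega
    | two Z =>
      obtain ⟨Y, h1, h2, h3⟩ := exists_down (K := K) Z (F := ⊥) bot_le A.1
        ((one_le_two).1 hz1.le) (by omega) hn
      exact ⟨Y, h1, h2, h3⟩
  obtain ⟨Y, hY1, hY2, hY3⟩ := key x hx1 hx2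
  obtain ⟨Y', hY1', hY2', hY3'⟩ := key y hy1 hy2
  have hYX : (two Y : UP L rk K n) < two X := lt_of_le_of_lt hY2 hx2
  have hYX' : (two Y' : UP L rk K n) < two X := lt_of_le_of_lt hY2' hy2
  refine Relation.ReflTransGen.head (b := two Y) ⟨Or.inr hY2, usec_ot hY3, hYX⟩ ?_
  refine Relation.ReflTransGen.tail (b := two Y') ?_ ⟨Or.inl hY2', hy1, hy2⟩
  -- injections
  have : Fintype {v : {v : L // rk v = 0} // v.1 ≤ X.F} := Fintype.ofFinite _
  have hcard : Fintype.card {y : Fin n // y ∈ free X \ A.1} =
      Fintype.card {v : {v : L // rk v = 0} // v.1 ≤ X.F} + 1 := by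
    have h1 := card_free (K := K) X hn
    rw [Nat.card_eq_fintype_card (α := {v : {v : L // rk v = 0} // v.1 ≤ X.F})] at h1
    rw [Fintype.card_coe, Finset.card_sdiff_of_subset hAX, h1, hA]
    omega
  have hv0 : ∀ v : {v : L // rk v = 0}, ¬ v.1 ≤ ⊥ := by
    intro v hv
    have h1 := v.2
    rw [le_bot_iff.1 hv, hL.bot] at h1
    omega
  have hemb : ∀ Y : UTwo L rk n, Y.F = ⊥ → (two Y : UP L rk K n) ≤ two X → A.1 ⊆ free Y →
      ∃ f : {v : {v : L // rk v = 0} // v.1 ≤ X.F} ↪ {y : Fin n // y ∈ free X \ A.1},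
        ∀ v, Y.g v.1 = some (f v).1 := by
    intro Y h1 h2 h3
    have h4 : ∀ v : {v : {v : L // rk v = 0} // v.1 ≤ X.F},
        ∃ y : {y : Fin n // y ∈ free X \ A.1}, Y.g v.1 = some y.1 := by
      intro v
      have h5 : Y.g v.1 ≠ none := by
        intro h6
        have h7 := (Y.dom v.1).1 h6
        rw [h1] at h7
        exact hv0 _ h7
      obtain ⟨y, hy⟩ := Option.ne_none_iff_exists'.1 h5
      refine ⟨⟨y, ?_⟩, hy⟩
      rw [Finset.mem_sdiff]
      constructor
      · unfold free
        simp only [Finset.mem_filter, Finset.mem_univ, true_and]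
        intro w hw
        have hwX : ¬ w.1 ≤ X.F := by
          intro h8
          rw [(X.dom w).2 h8] at hw
          simp at hw
        have h9 : Y.g w = some y := by rw [← h2.2 w hwX]; exact hw
        have h10 := Y.inj w v.1 (by rw [h9, hy]) (by rw [h9]; simp)
        rw [h10] at hwX
        exact hwX v.2
      · intro hyA
        have h8 := h3 hyA
        unfold free at h8
        simp only [Finset.mem_filter, Finset.mem_univ, true_and] at h8
        exact h8 v.1 hy
    choose f hf using h4
    refine ⟨⟨f, ?_⟩, hf⟩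
    intro v w hvw
    have h5 := Y.inj v.1 w.1 (by rw [hf v, hf w, hvw]) (by rw [hf v]; simp)
    exact Subtype.ext h5
  -- the face of an injection
  have hface : ∀ f : {v : {v : L // rk v = 0} // v.1 ≤ X.F} ↪ {y : Fin n // y ∈ free X \ A.1},
      ∃ Y : UTwo L rk n, Y.F = ⊥ ∧ (∀ v, Y.g v.1 = some (f v).1) ∧
        ∀ v, ¬ v.1 ≤ X.F → Y.g v = X.g v := by
    intro f
    refine ⟨⟨⊥, fun v => if h : v.1 ≤ X.F then some (f ⟨v, h⟩).1 else X.g v, ?_, ?_⟩, rfl,
      ?_, ?_⟩
    · intro v
      constructor
      · intro h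
        by_cases hv : v.1 ≤ X.F
        · rw [dif_pos hv] at h
          simp at h
        · rw [dif_neg hv] at h
          exact absurd ((X.dom v).1 h) hv
      · intro h
        exact absurd h (hv0 v)
    · intro v w hvw hne
      by_cases hv : v.1 ≤ X.F
      · rw [dif_pos hv] at hvw
        by_cases hw : w.1 ≤ X.F
        · rw [dif_pos hw] at hvw
          have h1 := f.injective (Subtype.ext (Option.some.inj hvw))
          exact congrArg Subtype.val h1
        · rw [dif_neg hw] at hvw
          have h1 := (f ⟨v, hv⟩).2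
          rw [Finset.mem_sdiff] at h1
          have h2 := h1.1
          unfold free at h2
          simp only [Finset.mem_filter, Finset.mem_univ, true_and] at h2
          exact absurd hvw.symm (h2 w)
      · rw [dif_neg hv] at hvw hne
        by_cases hw : w.1 ≤ X.F
        · rw [dif_pos hw] at hvw
          have h1 := (f ⟨w, hw⟩).2
          rw [Finset.mem_sdiff] at h1
          have h2 := h1.1
          unfold free at h2
          simp only [Finset.mem_filter, Finset.mem_univ, true_and] at h2
          exact absurd hvw (h2 v)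
        · rw [dif_neg hw] at hvw
          exact X.inj v w hvw hne
    · intro v
      exact dif_pos v.2
    · intro v hv
      exact dif_neg hv
  -- uniqueness of the face
  have huniq : ∀ (f : {v : {v : L // rk v = 0} // v.1 ≤ X.F} ↪ {y : Fin n // y ∈ free X \ A.1})
      (Y Y' : UTwo L rk n), Y.F = ⊥ → (∀ v, Y.g v.1 = some (f v).1) →
      (∀ v, ¬ v.1 ≤ X.F → Y.g v = X.g v) → Y'.F = ⊥ → (∀ v, Y'.g v.1 = some (f v).1) →
      (∀ v, ¬ v.1 ≤ X.F → Y'.g v = X.g v) → Y = Y' := by
    intro f Y Y' h1 h2 h3 h4 h5 h6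
    refine UTwo.ext (h1.trans h4.symm) (funext fun v => ?_)
    by_cases hv : v.1 ≤ X.F
    · exact (h2 ⟨v, hv⟩).trans (h5 ⟨v, hv⟩).symm
    · rw [h3 v hv, h6 v hv]
  have hint : ∀ (f : {v : {v : L // rk v = 0} // v.1 ≤ X.F} ↪ {y : Fin n // y ∈ free X \ A.1})
      (Y : UTwo L rk n), Y.F = ⊥ → (∀ v, Y.g v.1 = some (f v).1) →
      (∀ v, ¬ v.1 ≤ X.F → Y.g v = X.g v) → one A < (two Y : UP L rk K n) ∧
        (two Y : UP L rk K n) < two X := by
    intro f Y h1 h2 h3
    constructor
    · apply usec_ot
      intro a ha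
      unfold free
      simp only [Finset.mem_filter, Finset.mem_univ, true_and]
      intro v hv
      by_cases hvX : v.1 ≤ X.F
      · have h4 := h2 ⟨v, hvX⟩
        have h5 : a = (f ⟨v, hvX⟩).1 := Option.some.inj (hv.symm.trans h4)
        have h6 := (f ⟨v, hvX⟩).2
        rw [← h5, Finset.mem_sdiff] at h6
        exact h6.2 ha
      · rw [h3 v hvX] at hv
        have h6 := hAX ha
        unfold free at h6
        simp only [Finset.mem_filter, Finset.mem_univ, true_and] at h6
        exact h6 v hv
    · apply usec_lt'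
      · refine ⟨by rw [h1]; exact bot_le, fun v hv => (h3 v hv).symm⟩
      · rw [h1]
        intro h4
        rw [← h4, hL.bot] at hX
        omega
  -- one move
  have hmove : ∀ (f f' : {v : {v : L // rk v = 0} // v.1 ≤ X.F} ↪
      {y : Fin n // y ∈ free X \ A.1}) (Y Y' : UTwo L rk n), Y.F = ⊥ →
      (∀ v, Y.g v.1 = some (f v).1) → (∀ v, ¬ v.1 ≤ X.F → Y.g v = X.g v) → Y'.F = ⊥ →
      (∀ v, Y'.g v.1 = some (f' v).1) → (∀ v, ¬ v.1 ≤ X.F → Y'.g v = X.g v) →
      (∃ t, ∀ s, s ≠ t → f s = f' s) → Relation.ReflTransGen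
      (fun a b : UP L rk K n => (a ≤ b ∨ b ≤ a) ∧ one A < b ∧ b < two X) (two Y) (two Y') := by
    intro f f' Y Y' h1 h2 h3 h4 h5 h6 ⟨t, ht⟩
    obtain ⟨Z, hZ1, hZ2, _⟩ := exists_up (K := K) Y (F' := t.1.1) (by rw [h1]; exact bot_le)
    have hvt : ∀ v : {v : L // rk v = 0}, ¬ v.1 ≤ t.1.1 → v ≠ t.1 := by
      intro v hv h7
      rw [h7] at hv
      exact hv le_rfl
    have hZY : ∀ v, ¬ v.1 ≤ t.1.1 → Z.g v = Y.g v := fun v hv => hZ2.2 v (by rw [hZ1]; exact hv)
    have hYY : ∀ v, v ≠ t.1 → Y.g v = Y'.g v := by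
      intro v hv
      by_cases hvX : v.1 ≤ X.F
      · have h7 := h2 ⟨v, hvX⟩
        have h8 := h5 ⟨v, hvX⟩
        have h9 := ht ⟨v, hvX⟩ (fun h10 => hv (congrArg Subtype.val h10))
        rw [h9] at h7
        exact h7.trans h8.symm
      · rw [h3 v hvX, h6 v hvX]
    have hYZ' : (two Y' : UP L rk K n) ≤ two Z := by
      refine ⟨by rw [h4]; exact bot_le, fun v hv => ?_⟩
      rw [hZ1] at hv
      rw [hZY v hv, hYY v (hvt v hv)]
    have i1 := hint f Y h1 h2 h3
    have i2 := hint f' Y' h4 h5 h6
    have hZX : (two Z : UP L rk K n) < two X := by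
      apply usec_lt'
      · refine ⟨by rw [hZ1]; exact t.2, fun v hv => ?_⟩
        have hv' : ¬ v.1 ≤ t.1.1 := fun h7 => hv (h7.trans t.2)
        rw [hZY v hv', h3 v hv]
      · rw [hZ1]
        intro h7
        have h8 := t.1.2
        rw [h7] at h8
        omega
    refine Relation.ReflTransGen.head (b := two Z)
      ⟨Or.inl hZ2, lt_of_lt_of_le i1.1 hZ2, hZX⟩ ?_
    exact Relation.ReflTransGen.single ⟨Or.inr hYZ', i2.1, i2.2⟩
  obtain ⟨f, hf⟩ := hemb Y hY1 hYX.le hY3
  obtain ⟨f', hf'⟩ := hemb Y' hY1' hYX'.le hY3'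
  have hpath := star_conn hcard f f'
  have hclaim : ∀ k, Relation.ReflTransGen (fun a b : {v : {v : L // rk v = 0} // v.1 ≤ X.F} ↪
      {y : Fin n // y ∈ free X \ A.1} => ∃ t, ∀ s, s ≠ t → a s = b s) f k →
      ∀ U : UTwo L rk n, U.F = ⊥ → (∀ v, U.g v.1 = some (k v).1) →
      (∀ v, ¬ v.1 ≤ X.F → U.g v = X.g v) → Relation.ReflTransGen
      (fun a b : UP L rk K n => (a ≤ b ∨ b ≤ a) ∧ one A < b ∧ b < two X) (two Y) (two U) := by
    intro k hk
    induction hk with
    | refl =>
      intro U h1 h2 h3
      rw [huniq f Y U hY1 hf (fun v hv => (hYX.le.2 v hv).symm) h1 h2 h3]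
    | @tail b c _ hstep ih =>
      intro U h1 h2 h3
      obtain ⟨V, h4, h5, h6⟩ := hface b
      exact (ih V h4 h5 h6).trans (hmove b c V U h4 h5 h6 h1 h2 h3 hstep)
  exact hclaim f' hpath Y' hY1' hf' (fun v hv => (hYX'.le.2 v hv).symm)

theorem usec_conn_of {α : Type*} {F G : UP L rk K n} (P : α → UP L rk K n)
    (h0 : ∀ a, F < P a ∧ P a < G)
    (h1 : ∀ z, F < z → z < G → ∃ a, P a ≤ z)
    (h2 : ∀ a b, ∃ w, P a ≤ w ∧ P b ≤ w ∧ w < G) (x y : UP L rk K n)
    (hx1 : F < x) (hx2 : x < G) (hy1 : F < y) (hy2 : y < G) :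
    Relation.ReflTransGen
      (fun a b : UP L rk K n => (a ≤ b ∨ b ≤ a) ∧ F < b ∧ b < G) x y := by
  obtain ⟨a, ha⟩ := h1 x hx1 hx2
  obtain ⟨b, hb⟩ := h1 y hy1 hy2
  obtain ⟨w, hw1, hw2, hw3⟩ := h2 a b
  refine Relation.ReflTransGen.head (b := P a) ⟨Or.inr ha, h0 a⟩ ?_
  refine Relation.ReflTransGen.head (b := w)
    ⟨Or.inl hw1, lt_of_lt_of_le (h0 a).1 hw1, hw3⟩ ?_
  refine Relation.ReflTransGen.head (b := P b) ⟨Or.inr hw2, h0 b⟩ ?_
  exact Relation.ReflTransGen.single ⟨Or.inl hb, hy1, hy2⟩

theorem usec_insert {A : {A : Finset (Fin n) // A.card ≤ K}} {a : Fin n} (ha : a ∉ A.1)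
    (hc : (insert a A.1).card ≤ K) :
    (one A : UP L rk K n) < one ⟨insert a A.1, hc⟩ := by
  apply usec_oolt
  exact Finset.ssubset_insert ha

theorem usec_oo_conn (A B : {A : Finset (Fin n) // A.card ≤ K})
    (hr : A.1.card + 3 ≤ B.1.card) (hAB : (one A : UP L rk K n) < one B) (x y : UP L rk K n)
    (hx1 : one A < x) (hx2 : x < one B) (hy1 : one A < y) (hy2 : y < one B) :
    Relation.ReflTransGen
      (fun a b : UP L rk K n => (a ≤ b ∨ b ≤ a) ∧ one A < b ∧ b < one B) x y := by
  classical
  have hAB' := usec_oolt' hAB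
  have hB := B.2
  have hcard : ∀ a, (insert a A.1).card ≤ K := by
    intro a
    have h1 := Finset.card_insert_le a A.1
    omega
  refine usec_conn_of (α := {a : Fin n // a ∈ B.1 ∧ a ∉ A.1})
    (fun a => one ⟨insert a.1 A.1, hcard a.1⟩) ?_ ?_ ?_ x y hx1 hx2 hy1 hy2
  · intro a
    refine ⟨usec_insert a.2.2 (hcard a.1), ?_⟩
    apply usec_oolt
    refine Finset.ssubset_iff_subset_ne.2 ⟨?_, ?_⟩
    · exact Finset.insert_subset a.2.1 hAB'.1
    · intro h1
      have h2 := Finset.card_insert_le a.1 A.1
      have h3 := congrArg Finset.card h1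
      simp only at h3
      omega
  · intro z hz1 hz2
    cases z with
    | one C =>
      have h1 := usec_oolt' hz1
      have h2 := usec_oolt' hz2
      obtain ⟨a, ha1, ha2⟩ := Finset.exists_of_ssubset h1
      refine ⟨⟨a, h2.1 ha1, ha2⟩, ?_⟩
      exact Finset.insert_subset ha1 h1.1
    | two Z => exact absurd hz2.le (usec_to Z B)
  · intro a b
    have h1 : (insert a.1 (insert b.1 A.1)).card ≤ A.1.card + 2 := by
      have h2 := Finset.card_insert_le a.1 (insert b.1 A.1)
      have h3 := Finset.card_insert_le b.1 A.1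
      omega
    refine ⟨one ⟨insert a.1 (insert b.1 A.1), by omega⟩, ?_, ?_, ?_⟩
    · exact Finset.insert_subset_insert _ (Finset.subset_insert _ _)
    · exact Finset.subset_insert _ _
    · apply usec_oolt
      refine Finset.ssubset_iff_subset_ne.2 ⟨?_, ?_⟩
      · exact Finset.insert_subset a.2.1 (Finset.insert_subset b.2.1 hAB'.1)
      · intro h4
        have h3 := congrArg Finset.card h4
        simp only at h3
        omega

theorem usec_free_sub {X Z : UTwo L rk n} (h : (two X : UP L rk K n) ≤ two Z) :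
    free X ⊆ free Z := by
  intro a ha
  unfold free at ha ⊢
  simp only [Finset.mem_filter, Finset.mem_univ, true_and] at ha ⊢
  intro v hv
  have h1 : ¬ v.1 ≤ Z.F := by
    intro h2
    rw [(Z.dom v).2 h2] at hv
    simp at hv
  rw [h.2 v h1] at hv
  exact ha v hv

theorem usec_ot_conn [Finite L] (hL : IsPolytope m L rk)
    (hn : n = Nat.card {v : L // rk v = 0} + K + 1)
    (A : {A : Finset (Fin n) // A.card ≤ K}) (hA : A.1.card < K) (X : UTwo L rk n)
    (hX : A.1.card + 2 ≤ K ∨ 0 ≤ rk X.F) (x y : UP L rk K n) (hx1 : one A < x) (hx2 : x < two X)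
    (hy1 : one A < y) (hy2 : y < two X) :
    Relation.ReflTransGen
      (fun a b : UP L rk K n => (a ≤ b ∨ b ≤ a) ∧ one A < b ∧ b < two X) x y := by
  classical
  have hAX : A.1 ⊆ free X := (one_le_two).1 (hx1.trans hx2).le
  have hcard : ∀ a, (insert a A.1).card ≤ K := by
    intro a
    have h1 := Finset.card_insert_le a A.1
    omega
  refine usec_conn_of (α := {a : Fin n // a ∈ free X ∧ a ∉ A.1})
    (fun a => one ⟨insert a.1 A.1, hcard a.1⟩) ?_ ?_ ?_ x y hx1 hx2 hy1 hy2
  · intro a
    refine ⟨usec_insert a.2.2 (hcard a.1), ?_⟩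
    apply usec_ot
    exact Finset.insert_subset a.2.1 hAX
  · intro z hz1 hz2
    cases z with
    | one C =>
      have h1 := usec_oolt' hz1
      have h2 := one_le_two.1 hz2.le
      obtain ⟨a, ha1, ha2⟩ := Finset.exists_of_ssubset h1
      refine ⟨⟨a, h2 ha1, ha2⟩, ?_⟩
      exact Finset.insert_subset ha1 h1.1
    | two Z =>
      have h1 := one_le_two.1 hz1.le
      have h2 := card_free (K := K) Z hn
      have h3 : A.1.card < (free Z).card := by omega
      obtain ⟨a, ha1, ha2⟩ := Finset.exists_mem_notMem_of_card_lt_card h3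
      refine ⟨⟨a, usec_free_sub hz2.le ha1, ha2⟩, ?_⟩
      exact one_le_two.2 (Finset.insert_subset ha1 h1)
  · intro a b
    have h1 : (insert a.1 (insert b.1 A.1)).card ≤ A.1.card + 2 := by
      have h2 := Finset.card_insert_le a.1 (insert b.1 A.1)
      have h3 := Finset.card_insert_le b.1 A.1
      omega
    have h4 : insert a.1 (insert b.1 A.1) ⊆ free X :=
      Finset.insert_subset a.2.1 (Finset.insert_subset b.2.1 hAX)
    rcases hX with h5 | h5
    · refine ⟨one ⟨insert a.1 (insert b.1 A.1), by omega⟩, ?_, ?_, ?_⟩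
      · exact Finset.insert_subset_insert _ (Finset.subset_insert _ _)
      · exact Finset.subset_insert _ _
      · exact usec_ot h4
    · obtain ⟨Z, h6, h7, h8⟩ := exists_down (K := K) X (F := ⊥) bot_le _ h4 (by omega) hn
      refine ⟨two Z, ?_, ?_, ?_⟩
      · exact one_le_two.2 ((Finset.insert_subset_insert _ (Finset.subset_insert _ _)).trans h8)
      · exact one_le_two.2 ((Finset.subset_insert _ _).trans h8)
      · apply usec_lt' h7
        rw [h6]
        intro h9
        rw [← h9, hL.bot] at h5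
        omega

theorem usec_comp {X U V : UTwo L rk n} (hU : (two X : UP L rk K n) ≤ two U)
    (hV : (two X : UP L rk K n) ≤ two V) (h : U.F ≤ V.F) : (two U : UP L rk K n) ≤ two V := by
  refine ⟨h, fun v hv => ?_⟩
  rw [hV.2 v hv, hU.2 v (fun h1 => hv (h1.trans h))]

theorem usec_tt_conn (hL : IsPolytope m L rk) (X Z : UTwo L rk n)
    (hXZ : (two X : UP L rk K n) < two Z) (hr : rk X.F + 3 ≤ rk Z.F) (P Q : UTwo L rk n)
    (hP1 : (two X : UP L rk K n) < two P) (hP2 : (two P : UP L rk K n) < two Z)
    (hQ1 : (two X : UP L rk K n) < two Q) (hQ2 : (two Q : UP L rk K n) < two Z) :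
    Relation.ReflTransGen
      (fun a b : UP L rk K n => (a ≤ b ∨ b ≤ a) ∧ two X < b ∧ b < two Z) (two P) (two Q) := by
  have hpath := secConn_of_isPolytope hL X.F Z.F (usec_lt hXZ) hr P.F Q.F (usec_lt hP1)
    (usec_lt hP2) (usec_lt hQ1) (usec_lt hQ2)
  have hclaim : ∀ H, Relation.ReflTransGen
      (fun a b : L => (a ≤ b ∨ b ≤ a) ∧ X.F < b ∧ b < Z.F) P.F H →
      (X.F < H ∧ H < Z.F) ∧ ∀ U : UTwo L rk n, U.F = H → (two X : UP L rk K n) ≤ two U →
      Relation.ReflTransGen
      (fun a b : UP L rk K n => (a ≤ b ∨ b ≤ a) ∧ two X < b ∧ b < two Z) (two P) (two U) := by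
    intro H hH
    induction hH with
    | refl =>
      refine ⟨⟨usec_lt hP1, usec_lt hP2⟩, ?_⟩
      intro U h1 h2
      have h3 : P = U := usec_eq (usec_comp hP1.le h2 h1.ge) h1.symm
      rw [h3]
    | @tail b c _ hstep ih =>
      refine ⟨hstep.2, ?_⟩
      intro U h1 h2
      obtain ⟨V, h3, h4, _⟩ := exists_up (K := K) X ih.1.1.le
      refine (ih.2 V h3 h4).tail ⟨?_, ?_, ?_⟩
      · rcases hstep.1 with h5 | h5
        · exact Or.inl (usec_comp h4 h2 (by rw [h3, h1]; exact h5))
        · exact Or.inr (usec_comp h2 h4 (by rw [h3, h1]; exact h5))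
      · exact usec_lt' h2 (by rw [h1]; exact hstep.2.1.ne)
      · exact usec_lt' (usec_comp h2 hXZ.le (by rw [h1]; exact hstep.2.2.le))
          (by rw [h1]; exact hstep.2.2.ne)
  exact (hclaim Q.F hpath).2 Q rfl hQ1.le

/-- Job USec-3. All sections of rank at least 2 are connected.

Proof. Let `F < G`, `rkU G ≥ rkU F + 3`.
(one A, one B): `B \ A` has at least 3 elements. Every element strictly between contains a set
`A ∪ {y}`, and `A ∪ {y}`, `A ∪ {y'}` (`y ≠ y'` in `B \ A`) are below `A ∪ {y, y'} ≠ B`.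
(one A, two X) with `A.card = K`: `rk X.F ≥ 1`, `sec_star`.
(one A, two X) with `A.card < K`: every element strictly between is above a set
`A ∪ {y}`, `y ∈ free X \ A`: for `two Z`, `free Z` has at least `K + 1` elements, and
`free Z ⊆ free X` (if `two Z ≤ two X`). Two sets `A ∪ {y}`, `A ∪ {y'}`, `y ≠ y'`: if
`A.card ≤ K - 2` they are below the set `A ∪ {y, y'}`, which is strictly below `two X`. If
`A.card = K - 1` then `rkU (one A) = K - 2` so `rk X.F ≥ 0`, and `exists_down` for the set
`A ∪ {y, y'}` with `K + 1` elements and the face `⊥` gives `two Z` with `A ∪ {y, y'} ⊆ free Z`,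
`two Z < two X` (as `Z.F = ⊥ ≠ X.F`).
(two X, two Z): the interval is isomorphic to the interval from `X.F` to `Z.F` in `L`
(`exists_up`), which is connected by `secConn_of_isPolytope hL`: map a path
`z₀, z₁, ..` in `L` to the unique elements above `X` with these faces (for `X.F ≤ H ≤ H'` the
elements with faces `H`, `H'` above `X` are comparable). -/
theorem secConn [Finite L] (hL : IsPolytope m L rk)
    (hn : n = Nat.card {v : L // rk v = 0} + K + 1) : SecConn (UP L rk K n) rkU := by
  intro F G hFG hr x y hx1 hx2 hy1 hy2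
  cases F with
  | one A =>
    cases G with
    | one B =>
      have h1 : (A.1.card : ℤ) - 1 + 3 ≤ (B.1.card : ℤ) - 1 := hr
      exact usec_oo_conn A B (by omega) hFG x y hx1 hx2 hy1 hy2
    | two X =>
      have h1 : (A.1.card : ℤ) - 1 + 3 ≤ (K : ℤ) + 1 + rk X.F := hr
      by_cases hA : A.1.card = K
      · exact sec_star hL hn A hA X (by omega) x y hx1 hx2 hy1 hy2
      · have h2 := A.2
        exact usec_ot_conn hL hn A (by omega) X (by omega) x y hx1 hx2 hy1 hy2
  | two X =>
    cases G with
    | one B => exact absurd hFG.le (usec_to X B)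
    | two Z =>
      have h1 : (K : ℤ) + 1 + rk X.F + 3 ≤ (K : ℤ) + 1 + rk Z.F := hr
      cases x with
      | one B => exact absurd hx1.le (usec_to X B)
      | two P =>
        cases y with
        | one B => exact absurd hy1.le (usec_to X B)
        | two Q => exact usec_tt_conn hL X Z hFG (by omega) P Q hx1 hx2 hy1 hy2

theorem isPolytope [Finite L] (hL : IsPolytope m L rk)
    (hn : n = Nat.card {v : L // rk v = 0} + K + 1) :
    IsPolytope (m + K + 1) (UP L rk K n) rkU :=
  isPolytope_of_secN (graded hL hn) (diamond hL hn) (secConn hL hn)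

end UP

end Pool.Agent.H.MP_6268b4_co
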